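import Pool.Agent.P.MP_c8dc46_gt.PM

/-! The Heisenberg data: `B` is the space of functions on the finite set of block diagonal forms. -/

open Set

namespace Pool.Agent.HH

variable {F : Type} [Field F] [StarRing F]

/-- The product of the two modules. -/
abbrev Api (F : Type) [Field F] (ζ : Fin 2 → F) (n : ℕ) : Type := ∀ i, Aq F (ζ i) n

/-- The socle generator on the side `i`. -/
noncomputable def socP (F : Type) [Field F] (ζ : Fin 2 → F) (n : ℕ) (i : Fin 2) : Api F ζ n :=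
  Pi.single i (soc F (ζ i) n)

/-- The central element `(0, 0, b)`. -/
def Gam.cen {A B : Type} [AddCommGroup A] [Module F A] [AddCommGroup B] [Module F B]
    (D : HD F A B) (b : B) : Gam D := ⟨0, 0, b⟩

theorem Gam.cen_mem_center {A B : Type} [AddCommGroup A] [Module F A] [AddCommGroup B]
    [Module F B] {D : HD F A B} {b : B} (hb : D.tB.1 b = b) :
    Gam.cen D b ∈ Subgroup.center (Gam D) := by
  have h : ∀ k : ℤ, (D.tB ^ k).1 b = b := fun k =>
    (MulAction.stabilizer (Module.End F B)ˣ b).zpow_mem hb k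
  refine Subgroup.mem_center_iff.2 fun g => ?_
  ext <;> simp [Gam.cen, h, add_comm]

theorem Gam.k_zpow {A B : Type} [AddCommGroup A] [Module F A] [AddCommGroup B] [Module F B]
    {D : HD F A B} (g : Gam D) (j : ℤ) : (g ^ j).k = j * g.k := by
  have h := congrArg Multiplicative.toAdd (map_zpow (Gam.deg D) g j)
  rw [toAdd_zpow, smul_eq_mul] at h
  exact h

theorem Gam.a_zpow {A B : Type} [AddCommGroup A] [Module F A] [AddCommGroup B] [Module F B]
    {D : HD F A B} {g : Gam D} (hg : g.a = 0) (j : ℤ) : (g ^ j).a = 0 := by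
  let S : Subgroup (Gam D) :=
    { carrier := {g | g.a = 0}
      mul_mem' := fun {x y} (hx : x.a = 0) (hy : y.a = 0) => by simp [hx, hy]
      one_mem' := rfl
      inv_mem' := fun {x} (hx : x.a = 0) => by simp [hx] }
  exact S.zpow_mem hg j

/-- Elements `(0, 0, b)` commute with all elements of degree zero. -/
theorem Gam.commute_of {A B : Type} [AddCommGroup A] [Module F A] [AddCommGroup B] [Module F B]
    {D : HD F A B} {e n : Gam D} (h₁ : e.k = 0) (h₂ : e.a = 0) (h₃ : n.k = 0) : Commute e n := by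
  refine Gam.ext ?_ ?_ ?_ <;> simp [h₁, h₂, h₃, add_comm]

/-- The properties of the Heisenberg data. -/
structure HDP (ℓ : ℕ) (w : ℤ) (ζ : Fin 2 → F) (n : ℕ) {B : Type} [AddCommGroup B] [Module F B]
    (D : HD F (Api F ζ n) B) : Prop where
  t : ∀ (k : ℤ) (x : Api F ζ n) (i : Fin 2), (D.t ^ k).1 x i = (tq F (ζ i) n ^ k).1 (x i)
  fin : FiniteDimensional F B
  unip : IsNilpotent (D.tB.1 - 1)
  fix : ∀ i, D.tB.1 (D.β (socP F ζ n i) (socP F ζ n i)) = D.β (socP F ζ n i) (socP F ζ n i)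
  aut : ∀ (i : Fin 2) (ν : F), ν * star ν = 1 → ∃ α : Gam D ≃* Gam D, ∀ x,
    (α x).k = x.k ∧ (α x).b = x.b ∧ (α x).a = Function.update x.a i (ν • x.a i)
  rep : ∀ Nn : Fin 2 → F, (∀ i, Nn i ≠ 0) → ∃ Rp : RepIn (Gam D), Rp.deg = Gam.deg D ∧
    Rp.μ = ⟨1, 0, 0⟩ ∧ Rp.ℓ = ℓ ∧
    Rp.c₀ = Gam.cen D (Nn 0 • D.β (socP F ζ n 0) (socP F ζ n 0)) ∧
    Rp.c₁ = Gam.cen D (Nn 1 • D.β (socP F ζ n 1) (socP F ζ n 1)) ∧ IsCoprime w (Rp.p : ℤ)

namespace RHDx

section Grp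

variable {A B : Type} [AddCommGroup A] [Module F A] [AddCommGroup B] [Module F B]

omit [StarRing F] in
theorem add_pow {R : Type} [Ring R] [Algebra F R] {ℓ : ℕ} (hℓ : ℓ.Prime) [CharP F ℓ] {x y : R}
    (h : Commute x y) (j : ℕ) : (x + y) ^ ℓ ^ j = x ^ ℓ ^ j + y ^ ℓ ^ j := by
  obtain ⟨r, hr⟩ := h.exists_add_pow_prime_pow_eq hℓ j
  rw [hr, ← map_natCast (algebraMap F R), CharP.cast_eq_zero, map_zero, zero_mul, zero_mul,
    zero_mul, add_zero]

theorem eqv {t : (Module.End F A)ˣ} {tB : (Module.End F B)ˣ} {β : A →ₗ[F] A →ₗ⋆[F] B}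
    (h : ∀ x y, β (t.1 x) (t.1 y) = tB.1 (β x y)) (k : ℤ) :
    ∀ x y, β ((t ^ k).1 x) ((t ^ k).1 y) = (tB ^ k).1 (β x y) := by
  let S : Subgroup ((Module.End F A)ˣ × (Module.End F B)ˣ) :=
    { carrier := {g | ∀ x y, β (g.1.1 x) (g.1.1 y) = g.2.1 (β x y)}
      mul_mem' := fun {g g'} hg hg' x y => (hg _ _).trans (congrArg g.2.1 (hg' x y))
      one_mem' := fun _ _ => rfl
      inv_mem' := fun {g} hg x y => by
        have e := congrArg g.2⁻¹.1 (hg (g.1⁻¹.1 x) (g.1⁻¹.1 y))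
        simp only [← Module.End.mul_apply, Units.mul_inv, Units.inv_mul, Module.End.one_apply] at e
        exact e.symm }
  exact S.zpow_mem (show (t, tB) ∈ S from h) k

variable {D : HD F A B}

theorem mu_zpow (k : ℤ) : (⟨1, 0, 0⟩ : Gam D) ^ k = ⟨k, 0, 0⟩ := by
  let m : Multiplicative ℤ →* Gam D :=
    { toFun := fun k => ⟨k.toAdd, 0, 0⟩
      map_one' := rfl
      map_mul' := fun _ _ => by ext <;> simp }
  refine (map_zpow m (Multiplicative.ofAdd 1) k).symm.trans ?_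
  simp [m]

theorem cen_zpow (b : B) (k : ℤ) : Gam.cen D b ^ k = Gam.cen D (k • b) := by
  let m : Multiplicative B →* Gam D :=
    { toFun := fun b => Gam.cen D b.toAdd
      map_one' := rfl
      map_mul' := fun _ _ => by ext <;> simp [Gam.cen] }
  exact (map_zpow m (Multiplicative.ofAdd b) k).symm

theorem pow_a {g : Gam D} (hg : g.k = 0) (m : ℕ) : (g ^ m).a = m • g.a := by
  induction m with
  | zero => simp
  | succ m ih => simp [pow_succ', hg, ih, succ_nsmul']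

theorem cen_pow {ℓ : ℕ} [CharP F ℓ] (b : B) : Gam.cen D b ^ ℓ = 1 := by
  rw [← zpow_natCast, cen_zpow, natCast_zsmul, ← Nat.cast_smul_eq_nsmul F, CharP.cast_eq_zero,
    zero_smul]
  rfl

theorem pow_sq {ℓ : ℕ} [CharP F ℓ] {g : Gam D} (hg : g.k = 0) : g ^ ℓ ^ 2 = 1 := by
  have e : g ^ ℓ = Gam.cen D (g ^ ℓ).b := by
    refine Gam.ext ?_ ?_ rfl
    · rw [← zpow_natCast, Gam.k_zpow, hg, mul_zero]; rfl
    · rw [pow_a hg, ← Nat.cast_smul_eq_nsmul F, CharP.cast_eq_zero, zero_smul]; rfl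
  rw [sq, pow_mul, e, cen_pow]

theorem rep [Finite A] [Finite B] {ℓ : ℕ} (hℓ : ℓ.Prime) [CharP F ℓ] {q : ℕ} (hq : 0 < q)
    (ht : D.t ^ q = 1) (htB : D.tB ^ q = 1) {b₀ b₁ : B} (h₀ : D.tB.1 b₀ = b₀)
    (h₁ : D.tB.1 b₁ = b₁) (hi : ∀ x y : F, x • b₀ + y • b₁ = 0 → x = 0 ∧ y = 0) :
    ∃ Rp : RepIn (Gam D), Rp.deg = Gam.deg D ∧ Rp.μ = ⟨1, 0, 0⟩ ∧ Rp.ℓ = ℓ ∧
      Rp.c₀ = Gam.cen D b₀ ∧ Rp.c₁ = Gam.cen D b₁ ∧ Rp.p = q * ℓ ^ 2 := by
  have hz : (⟨1, 0, 0⟩ : Gam D) ^ q ∈ Subgroup.center (Gam D) := by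
    refine Subgroup.mem_center_iff.2 fun g => ?_
    rw [← zpow_natCast, mu_zpow]
    ext <;> simp [ht, htB, add_comm]
  refine ⟨⟨Gam.deg D, ⟨1, 0, 0⟩, ℓ, q * ℓ ^ 2, Gam.cen D b₀, Gam.cen D b₁, hℓ,
    mul_pos hq (pow_pos hℓ.pos 2), rfl, ?_, fun g => ⟨2, Subtype.ext (pow_sq g.2)⟩, ?_, fun γ => ?_,
    Gam.cen_mem_center h₀, Gam.cen_mem_center h₁, rfl, rfl, cen_pow _, cen_pow _,
    fun i j h => ?_⟩, rfl, rfl, rfl, rfl, rfl, rfl⟩
  · refine Finite.of_injective (fun g => (g.1.a, g.1.b)) fun g g' h => Subtype.ext (Gam.ext ?_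
      (congrArg Prod.fst h) (congrArg Prod.snd h))
    exact Eq.trans g.2 (Eq.symm g'.2)
  · rw [pow_mul]
    exact pow_mem hz _
  · have hc : Commute (γ ^ q) (((⟨1, 0, 0⟩ : Gam D) ^ q) ^ γ.k)⁻¹ :=
      Subgroup.mem_center_iff.1 (inv_mem (zpow_mem hz γ.k)) _
    have e := pow_sq (ℓ := ℓ) (g := γ ^ q * (((⟨1, 0, 0⟩ : Gam D) ^ q) ^ γ.k)⁻¹) (by
      rw [Gam.mul_k, Gam.inv_k, Gam.k_zpow, ← zpow_natCast, ← zpow_natCast, Gam.k_zpow, Gam.k_zpow]
      ring)
    rw [hc.mul_pow, inv_pow, mul_inv_eq_one] at e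
    rw [pow_mul, e, pow_mul, ← zpow_natCast, ← zpow_natCast _ (ℓ ^ 2), ← zpow_mul, ← zpow_mul,
      mul_comm]
    rfl
  · have e := congrArg Gam.b h
    rw [cen_zpow, cen_zpow] at e
    simp only [Gam.cen, Gam.mul_b, zpow_zero, Units.val_one, Module.End.one_apply, map_zero,
      add_zero, Gam.one_b, ← Int.cast_smul_eq_zsmul F] at e
    exact ⟨(CharP.intCast_eq_zero_iff F ℓ i).1 (hi _ _ e).1,
      (CharP.intCast_eq_zero_iff F ℓ j).1 (hi _ _ e).2⟩

theorem aut (s : A ≃ₗ[F] A) (h : ∀ (k : ℤ) x, (D.t ^ k).1 (s x) = s ((D.t ^ k).1 x))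
    (hβ : ∀ x y, D.β (s x) (s y) = D.β x y) :
    ∃ α : Gam D ≃* Gam D, ∀ x, (α x).k = x.k ∧ (α x).b = x.b ∧ (α x).a = s x.a :=
  ⟨{ toFun := fun x => ⟨x.k, s x.a, x.b⟩
     invFun := fun x => ⟨x.k, s.symm x.a, x.b⟩
     left_inv := fun x => by simp
     right_inv := fun x => by simp
     map_mul' := fun x y => by ext <;> simp [h, hβ] }, fun _ => ⟨rfl, rfl, rfl⟩⟩

end Grp

variable {A : Fin 2 → Type} [∀ i, AddCommGroup (A i)] [∀ i, Module F (A i)]

/-- Block diagonal forms. -/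
abbrev Fm (F : Type) [Field F] [StarRing F] (A : Fin 2 → Type) [∀ i, AddCommGroup (A i)]
    [∀ i, Module F (A i)] : Type :=
  {Q : (∀ i, A i) →ₗ[F] (∀ i, A i) →ₗ⋆[F] F // ∀ c : Fin 2 → F, (∀ i, c i * star (c i) = 1) →
    ∀ x y, Q (c • x) (c • y) = Q x y}

/-- Evaluation. -/
def ev : (∀ i, A i) →ₗ[F] (∀ i, A i) →ₗ⋆[F] (Fm F A → F) :=
  LinearMap.mk₂'ₛₗ _ _ (fun x y Q => Q.1 x y) (fun _ _ _ => by ext; simp)
    (fun _ _ _ => by ext; simp) (fun _ _ _ => by ext; simp) (fun _ _ _ => by ext; simp)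

/-- Diagonal action. -/
def dg : (∀ i, (Module.End F (A i))ˣ) →* Module.End F (∀ i, A i) where
  toFun g := LinearMap.pi fun i => (g i).1 ∘ₗ LinearMap.proj i
  map_one' := rfl
  map_mul' _ _ := rfl

omit [StarRing F] in
theorem dg_smul (g : ∀ i, (Module.End F (A i))ˣ) (c : Fin 2 → F) (x : ∀ i, A i) :
    dg g (c • x) = c • dg g x :=
  funext fun i => map_smul (g i).1 (c i) (x i)

/-- Action on forms. -/
def cj (g : ∀ i, (Module.End F (A i))ˣ) (Q : Fm F A) : Fm F A :=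
  ⟨(Q.1 ∘ₗ dg g).compl₂ (dg g), fun c hc x y =>
    show Q.1 (dg g _) (dg g _) = Q.1 (dg g _) (dg g _) by rw [dg_smul, dg_smul, Q.2 c hc]⟩

theorem cj_pow (g : ∀ i, (Module.End F (A i))ˣ) (m : ℕ) (f : Fm F A → F) :
    ∀ Q, ((LinearMap.funLeft F F (cj g) : Module.End F _) ^ m) f Q = f (cj (g ^ m) Q) := by
  induction m with
  | zero => exact fun Q => rfl
  | succ m ih =>
    intro Q
    rw [pow_succ', pow_succ']
    exact ih (cj g Q)

/-- Rank one forms. -/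
def rk (i : Fin 2) (φ : Module.Dual F (A i)) : Fm F A :=
  ⟨LinearMap.mk₂'ₛₗ _ _ (fun x y => φ (x i) * star (φ (y i))) (fun _ _ _ => by simp [add_mul])
    (fun _ _ _ => by simp [mul_assoc]) (fun _ _ _ => by simp [mul_add])
    (fun _ _ _ => by simp [mul_left_comm, starRingEnd_apply]), fun c hc x y => by
      change φ (c i • x i) * star (φ (c i • y i)) = φ (x i) * star (φ (y i))
      rw [map_smul, map_smul, smul_eq_mul, smul_eq_mul, star_mul', mul_mul_mul_comm, hc, one_mul]⟩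

theorem indep {s : ∀ i, A i} (hs : ∀ i, s i ≠ 0) {x y : F}
    (h : x • ev (F := F) (A := A) (Pi.single 0 (s 0)) (Pi.single 0 (s 0)) +
      y • ev (F := F) (A := A) (Pi.single 1 (s 1)) (Pi.single 1 (s 1)) = 0) : x = 0 ∧ y = 0 := by
  choose φ hφ using fun i => Module.Projective.exists_dual_eq_one F (hs i)
  exact ⟨by simpa [ev, rk, hφ] using congrFun h (rk 0 (φ 0)),
    by simpa [ev, rk, hφ] using congrFun h (rk 1 (φ 1))⟩

end RHDx

theorem exists_hd [Finite F] {ℓ : ℕ} (hℓ : ℓ.Prime) [CharP F ℓ] {w : ℤ} (hw : IsCoprime w (ℓ : ℤ))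
    {ζ : Fin 2 → F} (hζ : ∀ i, ζ i * star (ζ i) = 1) {o : ℕ} (ho : 0 < o) (hoζ : ∀ i, ζ i ^ o = 1)
    (hwo : IsCoprime w (o : ℤ)) {n : ℕ} (hn : 0 < n) :
    ∃ (B : Type) (_ : AddCommGroup B) (_ : Module F B) (D : HD F (Api F ζ n) B),
      HDP ℓ w ζ n D := by
  have hz : ∀ i, ζ i ≠ 0 := fun i => left_ne_zero_of_mul_eq_one (hζ i)
  have : ∀ i, Finite (Aq F (ζ i) n) := fun i =>
    have := finite_Aq (hz i) n
    Module.finite_of_finite F
  have : Finite (Api F ζ n →ₗ⋆[F] F) := Finite.of_injective _ DFunLike.coe_injective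
  have : Finite (Api F ζ n →ₗ[F] Api F ζ n →ₗ⋆[F] F) :=
    Finite.of_injective _ DFunLike.coe_injective
  choose m hm using fun i => tq_nil (ζ i) n
  set g : ∀ i, (Module.End F (Aq F (ζ i) n))ˣ := fun i => tq F (ζ i) n with hg
  set N := ℓ ^ (m 0 + m 1) with hN
  have h1 : ∀ i, (g i ^ N).1 = ζ i ^ N • 1 := fun i => by
    have e := RHDx.add_pow (F := F) hℓ (x := (g i).1 - ζ i • 1) (y := ζ i • 1)
      ((Commute.one_right _).smul_right _) (m 0 + m 1)
    rw [sub_add_cancel, pow_eq_zero_of_le ?_ (hm i), zero_add, smul_pow, one_pow] at e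
    · rw [Units.val_pow_eq_pow_val, e]
    · refine le_trans ?_ (Nat.lt_pow_self hℓ.one_lt).le
      fin_cases i <;> simp
  have h2 : ∀ x, RHDx.dg (g ^ N) x = (fun i => ζ i ^ N) • x := fun x =>
    funext fun i => LinearMap.congr_fun (h1 i) (x i)
  have h3 : (LinearMap.funLeft F F (RHDx.cj g) : Module.End F _) ^ N = 1 := by
    refine LinearMap.ext fun f => funext fun Q => (RHDx.cj_pow g N f Q).trans (congrArg f ?_)
    refine Subtype.ext (LinearMap.ext₂ fun x y => ?_)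
    change Q.1 (RHDx.dg _ x) (RHDx.dg _ y) = _
    rw [h2, h2, Q.2 _ fun i => by rw [star_pow, ← mul_pow, hζ, one_pow]]
  have h4 : g ^ (N * o) = 1 := funext fun i => Units.ext (by
    rw [Pi.pow_apply, pow_mul, Units.val_pow_eq_pow_val, h1, smul_pow, one_pow, ← pow_mul, mul_comm,
      pow_mul, hoζ, one_pow, one_smul]
    rfl)
  have N0 : N ≠ 0 := pow_ne_zero _ hℓ.ne_zero
  let D : HD F (Api F ζ n) (RHDx.Fm F (fun i => Aq F (ζ i) n) → F) :=
    ⟨RHDx.dg.toHomUnits g, Units.ofPowEqOne _ N h3 N0, RHDx.ev, RHDx.eqv fun _ _ => rfl⟩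
  have ht : ∀ k : ℤ, (D.t ^ k).1 = RHDx.dg (g ^ k) := fun k =>
    congrArg Units.val (map_zpow RHDx.dg.toHomUnits g k).symm
  have hfix : ∀ i, D.tB.1 (D.β (socP F ζ n i) (socP F ζ n i)) =
      D.β (socP F ζ n i) (socP F ζ n i) := by
    intro i
    have e : D.t.1 (socP F ζ n i) = ζ i • socP F ζ n i := by
      funext j
      change (tq F (ζ j) n).1 (socP F ζ n i j) = ζ i • socP F ζ n i j
      rcases eq_or_ne j i with rfl | hj
      · rw [socP, Pi.single_eq_same, tq_soc _ hn]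
      · rw [socP, Pi.single_eq_of_ne hj, map_zero, smul_zero]
    have e' := D.eqv 1 (socP F ζ n i) (socP F ζ n i)
    rw [zpow_one, zpow_one, e, LinearMap.map_smul₂, LinearMap.map_smulₛₗ, smul_smul,
      starRingEnd_apply, hζ, one_smul] at e'
    exact e'.symm
  refine ⟨_, inferInstance, inferInstance, D, fun k x i => by rw [ht]; rfl, inferInstance,
    ⟨N, ?_⟩, hfix, fun i ν hν => ?_, fun Nn hNn => ?_⟩
  · have e := RHDx.add_pow (F := F) hℓ (x := D.tB.1 - 1) (y := 1) (Commute.one_right _) (m 0 + m 1)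
    rw [sub_add_cancel, one_pow] at e
    exact add_right_cancel (e.symm.trans (h3.trans (zero_add _).symm))
  · have hc : ∀ j, Function.update (1 : Fin 2 → F) i ν j *
        star (Function.update (1 : Fin 2 → F) i ν j) = 1 := fun j => by
      rcases eq_or_ne j i with rfl | hj
      · rw [Function.update_self, hν]
      · simp [Function.update_of_ne hj]
    obtain ⟨α, hα⟩ := RHDx.aut (D := D) (LinearEquiv.piCongrRight fun j => LinearEquiv.smulOfNeZero
      F _ _ (left_ne_zero_of_mul_eq_one (hc j))) (fun k x => by rw [ht]; exact RHDx.dg_smul _ _ x)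
      fun x y => funext fun Q => Q.2 _ hc x y
    refine ⟨α, fun x => ⟨(hα x).1, (hα x).2.1, (hα x).2.2.trans (funext fun j => ?_)⟩⟩
    change Function.update (1 : Fin 2 → F) i ν j • x.a j = _
    rcases eq_or_ne j i with rfl | hj
    · rw [Function.update_self, Function.update_self]
    · simp [Function.update_of_ne hj]
  · obtain ⟨Rp, r1, r2, r3, r4, r5, r6⟩ := RHDx.rep (D := D) hℓ (mul_pos (Nat.pos_of_ne_zero N0) ho)
      ((map_pow RHDx.dg.toHomUnits g _).symm.trans (by rw [h4, map_one]))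
      (by rw [pow_mul, Units.pow_ofPowEqOne, one_pow])
      (b₀ := Nn 0 • D.β (socP F ζ n 0) (socP F ζ n 0))
      (b₁ := Nn 1 • D.β (socP F ζ n 1) (socP F ζ n 1)) (by rw [map_smul, hfix])
      (by rw [map_smul, hfix]) fun x y h => by
        rw [smul_smul, smul_smul] at h
        have e := RHDx.indep (fun i => soc_ne (hz i) hn) h
        exact ⟨(mul_eq_zero.1 e.1).resolve_right (hNn 0), (mul_eq_zero.1 e.2).resolve_right (hNn 1)⟩
    refine ⟨Rp, r1, r2, r3, r4, r5, ?_⟩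
    rw [r6, hN]
    push_cast
    exact (hw.pow_right.mul_right hwo).mul_right hw.pow_right

end Pool.Agent.HH
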