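import Pool.Agent.P.MP_c8dc46_gt.Basic2

/-!
Trivialisation of monoid valued cocycles on convex sets, and holonomy.
-/

open Set Topology

namespace Pool.Agent.HH

variable {Y Y' : Type} [TopologicalSpace Y] [TopologicalSpace Y'] {M M' : Type} [Monoid M]
  [Monoid M']

namespace RHol

theorem loc_const {Z α : Type} [TopologicalSpace Z] {S : Set Z} (hS : IsPreconnected S)
    {φ : Z → α} (h : ∀ p ∈ S, ∀ᶠ x in 𝓝 p, φ x = φ p) {x y : Z} (hx : x ∈ S) (hy : y ∈ S) :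
    φ x = φ y := by
  refine hS.induction₂' (fun a b => φ a = φ b) (fun p hp => ?_)
    (fun _ _ _ _ _ _ h1 h2 => h1.trans h2) hx hy
  filter_upwards [mem_nhdsWithin_of_mem_nhds (h p hp)] with a ha
  exact ⟨ha.symm, ha⟩

theorem uniq {Z : Type} [TopologicalSpace Z] {S : Set Z} (hS : IsPreconnected S)
    {g g' : Z → Mˣ} (h : LocEq (fun x y => (g x)⁻¹ * g y) (fun x y => (g' x)⁻¹ * g' y) S)
    {x y : Z} (hx : x ∈ S) (hy : y ∈ S) : g' x * (g x)⁻¹ = g' y * (g y)⁻¹ := by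
  refine loc_const (φ := fun x => g' x * (g x)⁻¹) hS (fun p hp => ?_) hx hy
  obtain ⟨U, hU, h1⟩ := h p hp
  filter_upwards [hU] with a ha
  have h2 : (g p)⁻¹ * g a = (g' p)⁻¹ * g' a := h1 p (mem_of_mem_nhds hU) a ha
  calc g' a * (g a)⁻¹ = g' p * ((g' p)⁻¹ * g' a) * (g a)⁻¹ := by group
    _ = g' p * ((g p)⁻¹ * g a) * (g a)⁻¹ := by rw [h2]
    _ = g' p * (g p)⁻¹ := by group

/-- `g` trivialises `f` near every point of `V`. -/
def Tz {Z : Type} [TopologicalSpace Z] (f : Z → Z → M) (g : Z → Mˣ) (V : Set Z) : Prop :=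
  LocEq f (fun x y => (((g x)⁻¹ * g y : Mˣ) : M)) V

theorem Tz.uniq {Z : Type} [TopologicalSpace Z] {S : Set Z} (hS : IsPreconnected S)
    {f : Z → Z → M} {g g' : Z → Mˣ} (h : Tz f g S) (h' : Tz f g' S) {x y : Z} (hx : x ∈ S)
    (hy : y ∈ S) : g' x * (g x)⁻¹ = g' y * (g y)⁻¹ := by
  refine RHol.uniq hS (fun p hp => ?_) hx hy
  obtain ⟨U, hU, h1⟩ := (LocEq.trans (LocEq.symm h) h') p hp
  exact ⟨U, hU, fun a ha b hb => Units.ext (h1 a ha b hb)⟩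

theorem Tz.smul {Z : Type} [TopologicalSpace Z] {V : Set Z} {f : Z → Z → M} {g : Z → Mˣ}
    (h : Tz f g V) (c : Mˣ) : Tz f (fun x => c * g x) V := by
  intro p hp
  obtain ⟨U, hU, h1⟩ := h p hp
  refine ⟨U, hU, fun a ha b hb => (h1 a ha b hb).trans ?_⟩
  group

theorem Tz.congr {Z : Type} [TopologicalSpace Z] {V : Set Z} (hV : IsOpen V) {f : Z → Z → M}
    {g g' : Z → Mˣ} (h : Tz f g V) (hg : ∀ x ∈ V, g' x = g x) : Tz f g' V := by
  intro p hp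
  obtain ⟨U, hU, h1⟩ := h p hp
  refine ⟨U ∩ V, Filter.inter_mem hU (hV.mem_nhds hp), fun a ha b hb => ?_⟩
  simp only [hg a ha.2, hg b hb.2]
  exact h1 a ha.1 b hb.1

theorem glue {Z : Type} [TopologicalSpace Z] {V V' : Set Z} (hV : IsOpen V) (hV' : IsOpen V')
    (hc : IsPreconnected (V ∩ V')) {q : Z} (hq : q ∈ V ∩ V') {f : Z → Z → M} {g g' : Z → Mˣ}
    (h : Tz f g V) (h' : Tz f g' V') : ∃ G, Tz f G (V ∪ V') := by
  classical
  refine ⟨fun x => if x ∈ V then g' q * (g q)⁻¹ * g x else g' x, ?_⟩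
  rintro p (hp | hp)
  · exact Tz.congr hV (h.smul (g' q * (g q)⁻¹)) (fun x hx => if_pos hx) p hp
  · refine Tz.congr hV' h' (fun x hx => ?_) p hp
    by_cases hxV : x ∈ V
    · rw [if_pos hxV, ← Tz.uniq hc (LocEq.mono h inter_subset_left)
        (LocEq.mono h' inter_subset_right) (show x ∈ V ∩ V' from ⟨hxV, hx⟩) hq]
      group
    · exact if_neg hxV

theorem local_triv {Z : Type} [TopologicalSpace Z] {f : Z → Z → M} {S : Set Z} (hf : IsCoc f S)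
    {p : Z} (hp : p ∈ S) : ∃ U ∈ 𝓝 p, ∃ g : Z → Mˣ, ∀ x ∈ U, ∀ y ∈ U,
      f x y = (((g x)⁻¹ * g y : Mˣ) : M) := by
  classical
  obtain ⟨U, hU, h1⟩ := hf p hp
  have hpU : p ∈ U := mem_of_mem_nhds hU
  refine ⟨U, hU, fun x => if hx : x ∈ U then ⟨f p x, f x p,
    ((h1 p hpU).2 x hx p hpU).trans (h1 p hpU).1, ((h1 x hx).2 p hpU x hx).trans (h1 x hx).1⟩
    else 1, fun x hx y hy => ?_⟩
  simp only [dif_pos hx, dif_pos hy, Units.val_mul, Units.inv_mk]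
  exact ((h1 x hx).2 p hpU y hy).symm

theorem ball_triv {W : Type} [NormedAddCommGroup W] {O : Set W} (hO : IsOpen O) {f : W → W → M}
    (hf : IsCoc f O) {p : W} (hp : p ∈ O) :
    ∃ r, 0 < r ∧ Metric.ball p r ⊆ O ∧ ∃ g, Tz f g (Metric.ball p r) := by
  obtain ⟨U, hU, g, hg⟩ := local_triv hf hp
  obtain ⟨r, hr, hb⟩ := Metric.mem_nhds_iff.1 (Filter.inter_mem hU (hO.mem_nhds hp))
  exact ⟨r, hr, fun x hx => (hb hx).2, g, fun q hq => ⟨_, Metric.isOpen_ball.mem_nhds hq,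
    fun x hx y hy => hg x (hb hx).1 y (hb hy).1⟩⟩

theorem seg_triv {W : Type} [NormedAddCommGroup W] [NormedSpace ℝ W] {O : Set W}
    (hO : IsOpen O) (hc : Convex ℝ O) {f : W → W → M} (hf : IsCoc f O) {b x : W} (hb : b ∈ O)
    (hx : x ∈ O) : ∃ V, IsOpen V ∧ Convex ℝ V ∧ b ∈ V ∧ x ∈ V ∧ ∃ g, Tz f g V := by
  set ℓ : ℝ →ᵃ[ℝ] W := AffineMap.lineMap b x with hℓ
  have hℓc : Continuous ℓ := AffineMap.lineMap_continuous
  have h0 : ℓ 0 = b := AffineMap.lineMap_apply_zero b x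
  have h1 : ℓ 1 = x := AffineMap.lineMap_apply_one b x
  let u : Set ℝ := {t | ∃ V, IsOpen V ∧ Convex ℝ V ∧ b ∈ V ∧ ℓ t ∈ V ∧ ∃ g, Tz f g V}
  have hu : IsOpen u := by
    rw [isOpen_iff_mem_nhds]
    rintro t ⟨V, hV, hVc, hbV, htV, hg⟩
    filter_upwards [hℓc.continuousAt.preimage_mem_nhds (hV.mem_nhds htV)] with s hs
    exact ⟨V, hV, hVc, hbV, hs, hg⟩
  have hsub : Icc (0 : ℝ) 1 ⊆ u := by
    refine isPreconnected_Icc.subset_of_closure_inter_subset hu ⟨0, ⟨le_rfl, zero_le_one⟩, ?_⟩ ?_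
    · obtain ⟨r, hr, -, hg⟩ := ball_triv hO hf hb
      exact ⟨_, Metric.isOpen_ball, convex_ball b r, Metric.mem_ball_self hr,
        h0 ▸ Metric.mem_ball_self hr, hg⟩
    · rintro t₀ ⟨hcl, ht₀⟩
      have hO₀ : ℓ t₀ ∈ O := hc.lineMap_mem hb hx ht₀
      obtain ⟨r, hr, -, g', hg'⟩ := ball_triv hO hf hO₀
      obtain ⟨t, htB, V, hV, hVc, hbV, htV, g, hg⟩ := mem_closure_iff_nhds.1 hcl _
        (hℓc.continuousAt.preimage_mem_nhds (Metric.ball_mem_nhds (ℓ t₀) hr))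
      obtain ⟨G, hG⟩ := glue hV Metric.isOpen_ball
        (hVc.inter (convex_ball _ r)).isPreconnected ⟨htV, htB⟩ hg hg'
      have hK : ℓ '' uIcc 0 t₀ ⊆ V ∪ Metric.ball (ℓ t₀) r := by
        rintro _ ⟨s, hs, rfl⟩
        rcases uIcc_subset_uIcc_union_uIcc (b := t) hs with hs | hs
        · exact Or.inl ((hVc.affine_preimage ℓ).ordConnected.uIcc_subset
            (show (0 : ℝ) ∈ ℓ ⁻¹' V by simpa [h0] using hbV) htV hs)
        · exact Or.inr (((convex_ball _ r).affine_preimage ℓ).ordConnected.uIcc_subset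
            htB (Metric.mem_ball_self hr) hs)
      obtain ⟨δ, hδ, hth⟩ := (isCompact_uIcc.image hℓc).exists_thickening_subset_open
        (hV.union Metric.isOpen_ball) hK
      refine ⟨_, Metric.isOpen_thickening, ((convex_uIcc 0 t₀).affine_image ℓ).thickening δ,
        Metric.self_subset_thickening hδ _ ⟨0, left_mem_uIcc, h0⟩,
        Metric.self_subset_thickening hδ _ ⟨t₀, right_mem_uIcc, rfl⟩, G, LocEq.mono hG hth⟩
  obtain ⟨V, hV, hVc, hbV, h1V, hg⟩ := hsub ⟨zero_le_one, le_rfl⟩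
  exact ⟨V, hV, hVc, hbV, h1 ▸ h1V, hg⟩

theorem conv_triv {W : Type} [NormedAddCommGroup W] [NormedSpace ℝ W] {O : Set W}
    (hO : IsOpen O) (hc : Convex ℝ O) {f : W → W → M} (hf : IsCoc f O) : ∃ g, Tz f g O := by
  classical
  rcases O.eq_empty_or_nonempty with rfl | ⟨b, hb⟩
  · exact ⟨fun _ => 1, fun p hp => hp.elim⟩
  have key : ∀ x ∈ O, ∃ V, IsOpen V ∧ Convex ℝ V ∧ b ∈ V ∧ x ∈ V ∧ ∃ g, g b = 1 ∧ Tz f g V := by
    intro x hx
    obtain ⟨V, h1, h2, h3, h4, g, hg⟩ := seg_triv hO hc hf hb hx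
    exact ⟨V, h1, h2, h3, h4, fun y => (g b)⁻¹ * g y, by simp, hg.smul _⟩
  choose! V hVo hVc hbV hxV g hgb hg using key
  refine ⟨fun x => g x x, fun p hp => ?_⟩
  refine Tz.congr ((hVo p hp).inter hO) (LocEq.mono (hg p hp) inter_subset_left) (fun y hy => ?_)
    p ⟨hxV p hp, hp⟩
  have h := Tz.uniq ((hVc p hp).inter (hVc y hy.2)).isPreconnected
    (LocEq.mono (hg p hp) inter_subset_left) (LocEq.mono (hg y hy.2) inter_subset_right)
    (show y ∈ V p ∩ V y from ⟨hy.1, hxV y hy.2⟩) (show b ∈ V p ∩ V y from ⟨hbV p hp, hbV y hy.2⟩)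
  rw [hgb p hp, hgb y hy.2, inv_one, mul_one] at h
  exact mul_inv_eq_one.1 h

end RHol

theorem exists_triv {W : Type} [NormedAddCommGroup W] [NormedSpace ℝ W] {O : Set W}
    (hO : IsOpen O) (hc : Convex ℝ O) {f : W → W → M} (hf : IsCoc f O) (o : W) :
    ∃ g : W → Mˣ, g o = 1 ∧ LocEq f (fun x y => (((g x)⁻¹ * g y : Mˣ) : M)) O := by
  obtain ⟨g, hg⟩ := RHol.conv_triv hO hc hf
  exact ⟨fun x => (g o)⁻¹ * g x, by simp, hg.smul _⟩

/-- Two trivialisations differ by a constant on a preconnected set. -/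
theorem triv_unique {Z : Type} [TopologicalSpace Z] {S : Set Z} (hS : IsPreconnected S)
    {g g' : Z → Mˣ} (h : LocEq (fun x y => (g x)⁻¹ * g y) (fun x y => (g' x)⁻¹ * g' y) S)
    {x y : Z} (hx : x ∈ S) (hy : y ∈ S) : g' x * (g x)⁻¹ = g' y * (g y)⁻¹ := by
  exact RHol.uniq hS h hx hy

theorem Cvx.exists_triv {S : Set Y} (hS : Cvx S) {f : Y → Y → M} (hf : IsCoc f S) :
    ∃ g : Y → Mˣ, LocEq f (fun x y => (((g x)⁻¹ * g y : Mˣ) : M)) S := by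
  obtain ⟨n, O, e, hc, he, rfl⟩ := hS
  obtain ⟨Ψ, hΨ, h1, h2⟩ := he.exists_inv
  have hec : ∀ p ∈ O, ContinuousAt e p := fun p hp => he.cont.continuousAt (he.isOpen.mem_nhds hp)
  have hΨc : ∀ p ∈ e '' O, ContinuousAt Ψ p := fun p hp =>
    hΨ.cont.continuousAt (hΨ.isOpen.mem_nhds hp)
  obtain ⟨g, hg⟩ := RHol.conv_triv he.isOpen hc (hf.pb hec (mapsTo_image e O))
  have hm : MapsTo Ψ (e '' O) O := by
    rintro _ ⟨x, hx, rfl⟩
    rwa [h1 x hx]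
  refine ⟨fun y => g (Ψ y), fun p hp => ?_⟩
  obtain ⟨U, hU, h3⟩ := (LocEq.pb hg hΨc hm) p hp
  refine ⟨U ∩ e '' O, Filter.inter_mem hU (hΨ.isOpen.mem_nhds hp), fun x hx y hy => ?_⟩
  have h4 := h3 x hx.1 y hy.1
  simp only [pb, h2 x hx.2, h2 y hy.2] at h4
  exact h4

theorem Cvx.exists_trivA {A : Type} [AddCommGroup A] {S : Set Y} (hS : Cvx S) {h : Y → Y → A}
    (hh : IsCocA h S) : ∃ k : Y → A, LocEq h (fun x y => k y - k x) S := by
  obtain ⟨g, hg⟩ := hS.exists_triv (IsCocA.ofAdd.1 hh)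
  refine ⟨fun x => Multiplicative.toAdd (g x : Multiplicative A), fun p hp => ?_⟩
  obtain ⟨U, hU, h1⟩ := hg p hp
  refine ⟨U, hU, fun x hx y hy => ?_⟩
  have h2 := congrArg Multiplicative.toAdd (h1 x hx y hy)
  simp only [toAdd_ofAdd, Units.val_mul, Units.val_inv_eq_inv_val, toAdd_mul, toAdd_inv] at h2
  rw [h2]
  exact neg_add_eq_sub _ _

namespace RHol

omit [TopologicalSpace Y] in
theorem hol_iff {f : Y → Y → M} {γ : ℝ → Y} {η : M} : IsHol f γ η ↔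
    ∃ g : ℝ → Mˣ, g 0 = 1 ∧ Tz (pb γ f) g univ ∧ ∀ s, ((g (s + 1) : Mˣ) : M) = η * g s :=
  ⟨fun ⟨g, h0, h1, h2⟩ => ⟨g, h0, fun s _ => h1 s, h2⟩,
    fun ⟨g, h0, h1, h2⟩ => ⟨g, h0, fun s => h1 s trivial, h2⟩⟩

omit [TopologicalSpace Y] in
theorem hol_of_triv {f : Y → Y → M} {γ : ℝ → Y} {g : ℝ → Mˣ} (hg : Tz (pb γ f) g univ) {c : Mˣ}
    (hc : ∀ s, g (s + 1) = c * g s) : IsHol f γ (((g 0)⁻¹ * c * g 0 : Mˣ) : M) := by
  refine hol_iff.2 ⟨fun s => (g 0)⁻¹ * g s, by simp, hg.smul _, fun s => ?_⟩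
  beta_reduce
  rw [← Units.val_mul, hc]
  group

theorem shift {Z : Type} [TopologicalSpace Z] {S : Set Z} (hS : IsPreconnected S) {σ : Z → Z}
    (hσ : Continuous σ) (hm : MapsTo σ S S) {f : Z → Z → M} (hf : pb σ f = f) {g : Z → Mˣ}
    (hg : Tz f g S) {b : Z} (hb : b ∈ S) : ∀ x ∈ S, g (σ x) = g (σ b) * (g b)⁻¹ * g x := by
  intro x hx
  have h1 : Tz f (fun x => g (σ x)) S := by
    have h2 := LocEq.pb hg (fun p _ => hσ.continuousAt) hm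
    rw [hf] at h2
    exact h2
  rw [← Tz.uniq hS hg h1 hx hb]
  group

omit [TopologicalSpace Y] in
theorem hol_group {Γ : Type} [Group Γ] {f : Y → Y → Γ} {γ : ℝ → Y} {η : Γ} : IsHol f γ η ↔
    ∃ u : ℝ → Γ, u 0 = 1 ∧ (∀ s, ∃ U ∈ 𝓝 s, ∀ a ∈ U, ∀ b ∈ U, f (γ a) (γ b) = (u a)⁻¹ * u b) ∧
      ∀ s, u (s + 1) = η * u s := by
  constructor
  · rintro ⟨g, h0, h1, h2⟩
    refine ⟨fun s => g s, by simp [h0], fun s => ?_, h2⟩
    obtain ⟨U, hU, h3⟩ := h1 s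
    exact ⟨U, hU, fun a ha b hb => by simpa using h3 a ha b hb⟩
  · rintro ⟨u, h0, h1, h2⟩
    refine ⟨fun s => toUnits (u s), by simp [h0], fun s => ?_, fun s => by simpa using h2 s⟩
    obtain ⟨U, hU, h3⟩ := h1 s
    exact ⟨U, hU, fun a ha b hb => by simpa using h3 a ha b hb⟩

theorem loc_loop {α : Type} {f f' : Y → Y → α} {S : Set Y} (hf : LocEq f f' S) {γ : ℝ → Y}
    (hγ : IsLoop γ S) (s : ℝ) : ∃ U ∈ 𝓝 s, ∀ a ∈ U, ∀ b ∈ U, f (γ a) (γ b) = f' (γ a) (γ b) :=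
  LocEq.pb hf (S' := univ) (fun _ _ => hγ.1.continuousAt) (fun t _ => hγ.2.2 t) s trivial

end RHol

theorem exists_isHol {f : Y → Y → M} {S : Set Y} (hf : IsCoc f S) {γ : ℝ → Y}
    (hγ : IsLoop γ S) : ∃ η, IsHol f γ η := by
  obtain ⟨g, hg⟩ := RHol.conv_triv isOpen_univ convex_univ
    (hf.pb (S' := univ) (fun _ _ => hγ.1.continuousAt) (fun t _ => hγ.2.2 t))
  have h1 := RHol.shift isPreconnected_univ (σ := fun s : ℝ => s + 1) (by fun_prop)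
    (mapsTo_univ _ _) (by funext a b; simp [pb, hγ.2.1]) hg (mem_univ 0)
  exact ⟨_, RHol.hol_of_triv hg fun s => h1 s trivial⟩

theorem IsHol.unique {f : Y → Y → M} {γ : ℝ → Y} {η η' : M} (h : IsHol f γ η)
    (h' : IsHol f γ η') : η = η' := by
  obtain ⟨g, h0, h1, h2⟩ := RHol.hol_iff.1 h
  obtain ⟨g', h0', h1', h2'⟩ := RHol.hol_iff.1 h'
  have h3 := RHol.Tz.uniq isPreconnected_univ h1 h1' (mem_univ (0 + 1)) (mem_univ 0)
  rw [h0, h0', inv_one, mul_one, mul_inv_eq_one] at h3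
  have h4 := h2 0
  have h5 := h2' 0
  rw [h0, Units.val_one, mul_one] at h4
  rw [h0', Units.val_one, mul_one] at h5
  rw [← h4, ← h5, h3]

theorem IsHol.isUnit {f : Y → Y → M} {γ : ℝ → Y} {η : M} (h : IsHol f γ η) : IsUnit η := by
  obtain ⟨g, h0, -, h2⟩ := h
  have h4 := h2 0
  rw [h0, Units.val_one, mul_one] at h4
  exact h4 ▸ Units.isUnit _

theorem IsHol.map (ψ : M →* M') {f : Y → Y → M} {γ : ℝ → Y} {η : M} (h : IsHol f γ η) :
    IsHol (fun x y => ψ (f x y)) γ (ψ η) := by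
  obtain ⟨g, h0, h1, h2⟩ := h
  refine ⟨fun s => Units.map ψ (g s), by simp [h0], fun s => ?_, fun s => by simp [h2]⟩
  obtain ⟨U, hU, h3⟩ := h1 s
  exact ⟨U, hU, fun a ha b hb => by simp [h3 a ha b hb]⟩

theorem isHol_pb (j : Y' → Y) (f : Y → Y → M) (γ : ℝ → Y') (η : M) :
    IsHol (pb j f) γ η ↔ IsHol f (j ∘ γ) η := Iff.rfl

theorem IsHol.congr {f f' : Y → Y → M} {S : Set Y} (hf : LocEq f f' S) {γ : ℝ → Y}
    (hγ : IsLoop γ S) {η : M} (h : IsHol f γ η) : IsHol f' γ η := by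
  obtain ⟨g, h0, h1, h2⟩ := h
  refine ⟨g, h0, fun s => ?_, h2⟩
  obtain ⟨U, hU, h3⟩ := h1 s
  obtain ⟨V, hV, h4⟩ := RHol.loc_loop hf hγ s
  exact ⟨U ∩ V, Filter.inter_mem hU hV, fun a ha b hb =>
    (h4 a ha.2 b hb.2).symm.trans (h3 a ha.1 b hb.1)⟩

theorem IsHol.gauge {Γ : Type} [Group Γ] {f f' : Y → Y → Γ} {S : Set Y} (hf : Gauge f f' S)
    {γ : ℝ → Y} (hγ : IsLoop γ S) {η : Γ} (h : IsHol f γ η) :
    ∃ k : Γ, IsHol f' γ (k * η * k⁻¹) := by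
  obtain ⟨g, hg⟩ := hf
  obtain ⟨u, h0, h1, h2⟩ := RHol.hol_group.1 h
  refine ⟨g (γ 0), IsHol.congr hg hγ (RHol.hol_group.2
    ⟨fun s => g (γ 0) * u s * (g (γ s))⁻¹, by simp [h0], fun s => ?_, fun s => ?_⟩)⟩
  · obtain ⟨U, hU, h3⟩ := h1 s
    refine ⟨U, hU, fun a ha b hb => ?_⟩
    rw [h3 a ha b hb]
    group
  · beta_reduce
    rw [h2, hγ.2.1]
    group

/-- Homotopy invariance in a convex family of loops. -/
theorem IsHol.homotopy {W : Type} [NormedAddCommGroup W] [NormedSpace ℝ W] {O : Set W}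
    (hO : IsOpen O) (hc : Convex ℝ O) {Φ : ℝ × W → Y} (hΦ : ContinuousOn Φ (univ ×ˢ O))
    (hper : ∀ s w, Φ (s + 1, w) = Φ (s, w)) {S : Set Y} (hS : MapsTo Φ (univ ×ˢ O) S)
    {f : Y → Y → M} (hf : IsCoc f S) {o o' : W} (ho : o ∈ O) (ho' : o' ∈ O) {η : M}
    (h : IsHol f (fun s => Φ (s, o)) η) :
    ∃ k : Mˣ, IsHol f (fun s => Φ (s, o')) (k * η * k⁻¹) := by
  have hO' : IsOpen ((univ : Set ℝ) ×ˢ O) := isOpen_univ.prod hO
  have hc' : Convex ℝ ((univ : Set ℝ) ×ˢ O) := convex_univ.prod hc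
  obtain ⟨G, hG0, hG⟩ := exists_triv hO' hc'
    (hf.pb (fun p hp => hΦ.continuousAt (hO'.mem_nhds hp)) hS) ((0 : ℝ), o)
  have h1 := RHol.shift hc'.isPreconnected (σ := fun p : ℝ × W => (p.1 + 1, p.2)) (by fun_prop)
    (fun p hp => ⟨trivial, hp.2⟩) (by funext a b; simp [pb, hper]) hG
    (show ((0 : ℝ), o) ∈ univ ×ˢ O from ⟨trivial, ho⟩)
  have h2 : ∀ w ∈ O, IsHol f (fun s => Φ (s, w))
      (((G (0, w))⁻¹ * (G (0 + 1, o) * (G (0, o))⁻¹) * G (0, w) : Mˣ) : M) := by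
    intro w hw
    refine RHol.hol_of_triv (g := fun s => G (s, w)) ?_ fun s => h1 (s, w) ⟨trivial, hw⟩
    exact LocEq.pb hG (j := fun s : ℝ => (s, w)) (S' := univ) (fun _ _ => by fun_prop)
      (fun s _ => ⟨trivial, hw⟩)
  refine ⟨(G (0, o'))⁻¹, ?_⟩
  have h3 := h.unique (h2 o ho)
  have h4 := h2 o' ho'
  rw [hG0] at h3 h4
  simp only [inv_one, one_mul, mul_one] at h3 h4
  simpa [h3] using h4

theorem isHol_const {f : Y → Y → M} {p : Y} (h : f p p = 1) : IsHol f (fun _ => p) 1 := by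
  exact ⟨fun _ => 1, rfl, fun s => ⟨univ, Filter.univ_mem, fun _ _ _ _ => by simp [h]⟩,
    fun _ => by simp⟩

/-- Multiplication by a cocycle with central values. -/
theorem IsHol.mul_central {Γ : Type} [Group Γ] {f : Y → Y → Γ} {γ : ℝ → Y} {η : Γ}
    (h : IsHol f γ η) {c : Γ} (hc : c ∈ Subgroup.center Γ) {θ : Y → Y → ℤ} {k : ℤ}
    (hθ : IsHolA θ γ k) : IsHol (fun x y => f x y * c ^ θ x y) γ (η * c ^ k) := by
  obtain ⟨u, h0, h1, h2⟩ := RHol.hol_group.1 h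
  obtain ⟨m, h3, h4⟩ := hθ
  have hcm : ∀ (n : ℤ) (x : Γ), x * c ^ n = c ^ n * x := fun n x =>
    Subgroup.mem_center_iff.1 (Subgroup.zpow_mem _ hc n) x
  refine RHol.hol_group.2 ⟨fun s => u s * c ^ (m s - m 0), by simp [h0], fun s => ?_, fun s => ?_⟩
  · obtain ⟨U, hU, h5⟩ := h1 s
    obtain ⟨V, hV, h6⟩ := h3 s
    refine ⟨U ∩ V, Filter.inter_mem hU hV, fun a ha b hb => ?_⟩
    rw [h5 a ha.1 b hb.1, h6 a ha.2 b hb.2, mul_inv_rev, ← zpow_neg, mul_assoc (c ^ _),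
      ← hcm, ← mul_assoc, mul_assoc _ (c ^ _) (c ^ _), ← zpow_add]
    congr 2
    ring
  · beta_reduce
    rw [h2, h4, mul_assoc η (c ^ k), ← mul_assoc (c ^ k), ← hcm k, mul_assoc (u s), ← zpow_add,
      mul_assoc]
    congr 3
    ring

section Add

variable {A A' : Type} [AddCommGroup A] [AddCommGroup A']

theorem isHolA_iff {h : Y → Y → A} {γ : ℝ → Y} {c : A} :
    IsHolA h γ c ↔ IsHol (fun x y => Multiplicative.ofAdd (h x y)) γ (Multiplicative.ofAdd c) := by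
  rw [RHol.hol_group]
  constructor
  · rintro ⟨k, h1, h2⟩
    refine ⟨fun s => Multiplicative.ofAdd (k s - k 0), by simp, fun s => ?_, fun s => ?_⟩
    · obtain ⟨U, hU, h3⟩ := h1 s
      refine ⟨U, hU, fun a ha b hb => ?_⟩
      rw [h3 a ha b hb, ← ofAdd_neg, ← ofAdd_add]
      congr 1
      abel
    · beta_reduce
      rw [h2, ← ofAdd_add]
      congr 1
      abel
  · rintro ⟨u, -, h1, h2⟩
    refine ⟨fun s => Multiplicative.toAdd (u s), fun s => ?_, fun s => ?_⟩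
    · obtain ⟨U, hU, h3⟩ := h1 s
      refine ⟨U, hU, fun a ha b hb => ?_⟩
      have h4 := congrArg Multiplicative.toAdd (h3 a ha b hb)
      simp only [toAdd_ofAdd, toAdd_mul, toAdd_inv] at h4
      rw [h4]
      abel
    · simp only [h2, toAdd_mul, toAdd_ofAdd]
      abel

theorem exists_isHolA {h : Y → Y → A} {S : Set Y} (hh : IsCocA h S) {γ : ℝ → Y}
    (hγ : IsLoop γ S) : ∃ c, IsHolA h γ c := by
  obtain ⟨η, hη⟩ := exists_isHol (IsCocA.ofAdd.1 hh) hγ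
  exact ⟨Multiplicative.toAdd η, isHolA_iff.2 hη⟩

theorem IsHolA.unique {h : Y → Y → A} {γ : ℝ → Y} {c c' : A} (h₁ : IsHolA h γ c)
    (h₂ : IsHolA h γ c') : c = c' := by
  exact Multiplicative.ofAdd.injective ((isHolA_iff.1 h₁).unique (isHolA_iff.1 h₂))

theorem IsHolA.map (ψ : A →+ A') {h : Y → Y → A} {γ : ℝ → Y} {c : A} (h₁ : IsHolA h γ c) :
    IsHolA (fun x y => ψ (h x y)) γ (ψ c) := by
  obtain ⟨k, h1, h2⟩ := h₁
  refine ⟨fun s => ψ (k s), fun s => ?_, fun s => by simp [h2]⟩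
  obtain ⟨U, hU, h3⟩ := h1 s
  exact ⟨U, hU, fun a ha b hb => by simp [h3 a ha b hb]⟩

theorem IsHolA.add {h h' : Y → Y → A} {γ : ℝ → Y} {c c' : A} (h₁ : IsHolA h γ c)
    (h₂ : IsHolA h' γ c') : IsHolA (fun x y => h x y + h' x y) γ (c + c') := by
  obtain ⟨k, h1, h2⟩ := h₁
  obtain ⟨k', h1', h2'⟩ := h₂
  refine ⟨fun s => k s + k' s, fun s => ?_, fun s => by simp only [h2, h2']; abel⟩
  obtain ⟨U, hU, h3⟩ := h1 s
  obtain ⟨V, hV, h4⟩ := h1' s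
  refine ⟨U ∩ V, Filter.inter_mem hU hV, fun a ha b hb => ?_⟩
  simp only [h3 a ha.1 b hb.1, h4 a ha.2 b hb.2]
  abel

theorem IsHolA.sub {h h' : Y → Y → A} {γ : ℝ → Y} {c c' : A} (h₁ : IsHolA h γ c)
    (h₂ : IsHolA h' γ c') : IsHolA (fun x y => h x y - h' x y) γ (c - c') := by
  simpa [sub_eq_add_neg] using h₁.add (h₂.map (-AddMonoidHom.id A))

theorem IsHolA.neg {h : Y → Y → A} {γ : ℝ → Y} {c : A} (h₁ : IsHolA h γ c) :
    IsHolA (fun x y => -h x y) γ (-c) := by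
  simpa using h₁.map (-AddMonoidHom.id A)

theorem IsHolA.smul {h : Y → Y → ℤ} {γ : ℝ → Y} {k : ℤ} (h₁ : IsHolA h γ k) (c : A) :
    IsHolA (fun x y => h x y • c) γ (k • c) := by
  simpa using h₁.map (zmultiplesHom A c)

theorem IsHolA.mul_left {h : Y → Y → ℤ} {γ : ℝ → Y} {k : ℤ} (h₁ : IsHolA h γ k) (w : ℤ) :
    IsHolA (fun x y => w * h x y) γ (w * k) := by
  simpa using h₁.map (AddMonoidHom.mulLeft w)

theorem isHolA_pb (j : Y' → Y) (h : Y → Y → A) (γ : ℝ → Y') (c : A) :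
    IsHolA (pb j h) γ c ↔ IsHolA h (j ∘ γ) c := Iff.rfl

theorem IsHolA.cohA {h h' : Y → Y → A} {S : Set Y} (hh : CohA h h' S) {γ : ℝ → Y}
    (hγ : IsLoop γ S) {c : A} (h₁ : IsHolA h γ c) : IsHolA h' γ c := by
  obtain ⟨g, hg⟩ := hh
  obtain ⟨k, h1, h2⟩ := h₁
  refine ⟨fun s => k s - g (γ s), fun s => ?_, fun s => by simp only [h2, hγ.2.1]; abel⟩
  obtain ⟨U, hU, h3⟩ := h1 s
  obtain ⟨V, hV, h4⟩ := RHol.loc_loop hg hγ s
  refine ⟨U ∩ V, Filter.inter_mem hU hV, fun a ha b hb => ?_⟩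
  have h5 := h4 a ha.2 b hb.2
  rw [h3 a ha.1 b hb.1, sub_eq_iff_eq_add, ← sub_eq_iff_eq_add'] at h5
  rw [← h5]
  beta_reduce
  abel

theorem IsHolA.homotopy {W : Type} [NormedAddCommGroup W] [NormedSpace ℝ W] {O : Set W}
    (hO : IsOpen O) (hc : Convex ℝ O) {Φ : ℝ × W → Y} (hΦ : ContinuousOn Φ (univ ×ˢ O))
    (hper : ∀ s w, Φ (s + 1, w) = Φ (s, w)) {S : Set Y} (hS : MapsTo Φ (univ ×ˢ O) S)
    {h : Y → Y → A} (hh : IsCocA h S) {o o' : W} (ho : o ∈ O) (ho' : o' ∈ O) {c : A}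
    (h₁ : IsHolA h (fun s => Φ (s, o)) c) : IsHolA h (fun s => Φ (s, o')) c := by
  obtain ⟨k, hk⟩ := (isHolA_iff.1 h₁).homotopy hO hc hΦ hper hS (IsCocA.ofAdd.1 hh) ho ho'
  rw [mul_right_comm, Units.mul_inv, one_mul] at hk
  exact isHolA_iff.2 hk

theorem isHolA_const {h : Y → Y → A} {p : Y} (h₀ : h p p = 0) : IsHolA h (fun _ => p) 0 := by
  exact ⟨fun _ => 0, fun s => ⟨univ, Filter.univ_mem, fun _ _ _ _ => by simp [h₀]⟩,
    fun _ => by simp⟩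

theorem isHolA_zero_of_locEq {h : Y → Y → A} {S : Set Y} (hh : LocEq h (fun _ _ => 0) S)
    {γ : ℝ → Y} (hγ : IsLoop γ S) : IsHolA h γ 0 := by
  refine ⟨fun _ => 0, fun s => ?_, fun _ => by simp⟩
  obtain ⟨V, hV, h4⟩ := RHol.loc_loop hh hγ s
  exact ⟨V, hV, fun a ha b hb => by simpa using h4 a ha b hb⟩

theorem IsHolA.zpow {Γ : Type} [Group Γ] (g : Γ) {h : Y → Y → ℤ} {γ : ℝ → Y} {k : ℤ}
    (h₁ : IsHolA h γ k) : IsHol (fun x y => g ^ h x y) γ (g ^ k) := by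
  exact (isHolA_iff.1 h₁).map (zpowersHom Γ g)

end Add

section Lin

variable {R E : Type} [CommRing R] [AddCommGroup E] [Module R E]

theorem IsHolA.zt (t : (Module.End R E)ˣ) {h : Y → Y → ℤ} {γ : ℝ → Y} {k : ℤ}
    (h₁ : IsHolA h γ k) : IsHol (zt t h) γ ((t ^ k : (Module.End R E)ˣ) : Module.End R E) := by
  exact (h₁.zpow t).map (Units.coeHom _)

theorem IsHol.tr {Γ : Type} [Group Γ] (ρ : Representation R Γ E) {f : Y → Y → Γ} {γ : ℝ → Y}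
    {η : Γ} (h : IsHol f γ η) : IsHol (tr ρ f) γ (ρ η) := by
  exact h.map ρ

theorem isHol_mtau {F W : Type} [CommRing F] [AddCommGroup W] [Module F W] (u v : Fˣ)
    {h θ₁ θ₂ : Y → Y → ℤ} {γ : ℝ → Y} {k k₁ k₂ : ℤ} (hh : IsHolA h γ k) (h₁ : IsHolA θ₁ γ k₁)
    (h₂ : IsHolA θ₂ γ k₂) :
    IsHol (mtau F W u v h θ₁ θ₂) γ (((u ^ k₁ * v ^ k₂ : Fˣ) : F) • shp F W k) := by
  let ψ : Multiplicative (ℤ × ℤ × ℤ) →* Module.End F (ℤ →₀ W) :=
    { toFun := fun n => ((u ^ n.toAdd.2.1 * v ^ n.toAdd.2.2 : Fˣ) : F) • shp F W n.toAdd.1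
      map_one' := by simp [shp]
      map_mul' := by
        intro a b
        simp only [toAdd_mul, Prod.fst_add, Prod.snd_add, zpow_add, shp, Units.val_mul,
          smul_mul_smul_comm]
        congr 1
        ring }
  have h3 := (hh.map (AddMonoidHom.inl ℤ (ℤ × ℤ))).add
    (((h₁.map (AddMonoidHom.inl ℤ ℤ)).add (h₂.map (AddMonoidHom.inr ℤ ℤ))).map
      (AddMonoidHom.inr ℤ (ℤ × ℤ)))
  have h4 := (isHolA_iff.1 h3).map ψ
  simp only [AddMonoidHom.inl_apply, AddMonoidHom.inr_apply, Prod.mk_add_mk, add_zero,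
    zero_add] at h4
  exact h4

/-- Holonomy of the induced system. The units `g s` commute with `T`: `g 0 = 1` and the local
quotients are values of `τ`. -/
theorem IsHol.bar {F G : Type} [Field F] [AddCommGroup G] [Module F G] {T : Module.End F G}
    {τ : Y → Y → Module.End F G} (hτ : ∀ x y, Commute (τ x y) T) (k : ℕ) {γ : ℝ → Y}
    {η : Module.End F G} (h : IsHol τ γ η) :
    Commute η T ∧ IsHol (bar T k τ) γ (barE T k η) := by
  obtain ⟨g, h0, h1, h2⟩ := h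
  have hg : ∀ s, Commute (g s : Module.End F G) T := by
    intro s
    have h3 : Commute (g s : Module.End F G) T = Commute (g 0 : Module.End F G) T := by
      refine RHol.loc_const (φ := fun s => Commute (g s : Module.End F G) T) isPreconnected_univ
        (fun p _ => ?_) (mem_univ s) (mem_univ 0)
      obtain ⟨U, hU, h4⟩ := h1 p
      filter_upwards [hU] with a ha
      have hp := mem_of_mem_nhds hU
      refine propext ⟨fun h5 => ?_, fun h5 => ?_⟩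
      · have h6 := h5.mul_left (h4 a ha p hp ▸ hτ (γ a) (γ p))
        simpa using h6
      · have h6 := h5.mul_left (h4 p hp a ha ▸ hτ (γ p) (γ a))
        simpa using h6
    rw [h3, h0]
    exact Commute.one_left T
  have hgi : ∀ s, Commute (((g s)⁻¹ : (Module.End F G)ˣ) : Module.End F G) T := fun s =>
    (hg s).units_inv_left
  have hη : Commute η T := by
    have h4 := h2 0
    rw [h0, Units.val_one, mul_one] at h4
    exact h4 ▸ hg _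
  refine ⟨hη, fun s => ⟨barE T k (g s), barE T k ((g s)⁻¹ : (Module.End F G)ˣ), ?_, ?_⟩, ?_,
    fun s => ?_, fun s => ?_⟩
  · rw [← barE_mul (hg s) (hgi s), Units.mul_inv, barE_one]
  · rw [← barE_mul (hgi s) (hg s), Units.inv_mul, barE_one]
  · ext1
    simp only [h0, Units.val_one, barE_one]
  · obtain ⟨U, hU, h4⟩ := h1 s
    refine ⟨U, hU, fun a ha b hb => ?_⟩
    simp only [Units.val_mul, Units.inv_mk, Pool.Agent.HH.bar, h4 a ha b hb]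
    exact barE_mul (hgi a) (hg b) k
  · simp only [h2]
    exact barE_mul hη (hg s) k

theorem LoopAc.homotopy {W : Type} [NormedAddCommGroup W] [NormedSpace ℝ W] {O : Set W}
    (hO : IsOpen O) (hc : Convex ℝ O) {Φ : ℝ × W → Y} (hΦ : ContinuousOn Φ (univ ×ˢ O))
    (hper : ∀ s w, Φ (s + 1, w) = Φ (s, w)) {S : Set Y} (hS : MapsTo Φ (univ ×ˢ O) S)
    {τ : Y → Y → Module.End R E} (hτ : IsCoc τ S) {o o' : W} (ho : o ∈ O) (ho' : o' ∈ O)
    (h : LoopAc τ (fun s => Φ (s, o))) : LoopAc τ (fun s => Φ (s, o')) := by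
  obtain ⟨η, hη, hb⟩ := h
  obtain ⟨k, hk⟩ := hη.homotopy hO hc hΦ hper hS hτ ho ho'
  refine ⟨_, hk, ?_⟩
  rw [← Module.End.isUnit_iff] at hb ⊢
  have h1 : (k * η * k⁻¹ - 1 : Module.End R E) = k * (η - 1) * k⁻¹ := by
    rw [mul_sub, sub_mul, mul_one, Units.mul_inv]
  rw [h1]
  exact ((Units.isUnit k).mul hb).mul (Units.isUnit _)

theorem LoopAc.congr {τ τ' : Y → Y → Module.End R E} {S : Set Y} (hτ : LocEq τ τ' S)
    {γ : ℝ → Y} (hγ : IsLoop γ S) (h : LoopAc τ γ) : LoopAc τ' γ := by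
  obtain ⟨η, hη, hb⟩ := h
  exact ⟨η, hη.congr hτ hγ, hb⟩

theorem exL_triv_iff {b : List Y → E} {γ : ℝ → Y} :
    ExL (triv R E Y) b γ ↔ IsHolA (f2 b) γ 0 := by
  constructor
  · rintro ⟨β, h1, h2⟩
    exact ⟨β, h2, fun s => by rw [h1, add_zero]⟩
  · rintro ⟨β, h1, h2⟩
    exact ⟨β, fun s => by rw [h2, add_zero], h1⟩

end Lin

section Th

theorem ex_add (s t : ℝ) : ex (s + t) = ex s * ex t := by
  rw [ex, ex, ex, ← Complex.exp_add]
  congr 1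
  push_cast
  ring

theorem ex_int (n : ℤ) : ex n = 1 := by
  rw [ex, ← Complex.exp_int_mul_two_pi_mul_I n]
  congr 1
  push_cast
  ring

theorem ex_eq_iff {s t : ℝ} : ex s = ex t ↔ ∃ n : ℤ, t = s + n := by
  constructor
  · intro h
    obtain ⟨n, hn⟩ := Complex.exp_eq_exp_iff_exists_int.1 h.symm
    refine ⟨n, ?_⟩
    have h1 : ((t : ℂ) - (s + n)) * (2 * Real.pi * Complex.I) = 0 := by linear_combination hn
    have h2 := (mul_eq_zero.1 h1).resolve_right Complex.two_pi_I_ne_zero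
    exact_mod_cast sub_eq_zero.1 h2
  · rintro ⟨n, rfl⟩
    rw [ex_add, ex_int, mul_one]

theorem continuous_ex : Continuous ex := by
  unfold ex
  fun_prop

theorem exists_ex {z : ℂ} (hz : ‖z‖ = 1) : ∃ s, ex s = z := by
  refine ⟨z.arg / (2 * Real.pi), ?_⟩
  have h := Complex.norm_mul_exp_arg_mul_I z
  rw [hz, Complex.ofReal_one, one_mul] at h
  rw [ex]
  convert h using 2
  have : (Real.pi : ℂ) ≠ 0 := Complex.ofReal_ne_zero.2 Real.pi_ne_zero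
  push_cast
  field_simp

theorem th_pb (j : Y' → Y) (ϑ : Y → ℂ) : pb j (th ϑ) = th (ϑ ∘ j) := by
  rfl

theorem th_congr {ϑ ϑ' : Y → ℂ} {x y : Y} (hx : ∃ r : ℝ, 0 < r ∧ ϑ' x = r * ϑ x)
    (hy : ∃ r : ℝ, 0 < r ∧ ϑ' y = r * ϑ y) : th ϑ' x y = th ϑ x y := by
  obtain ⟨r, hr, hx⟩ := hx
  obtain ⟨r', hr', hy⟩ := hy
  have h : ∀ {r a : ℝ}, 0 < r → (r * a < 0 ↔ a < 0) := fun hr =>
    ⟨fun h => neg_of_mul_neg_right h hr.le, mul_neg_of_pos_of_neg hr⟩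
  simp only [th, jmp, mem_ofPred_eq, hx, hy, Complex.re_ofReal_mul, Complex.im_ofReal_mul,
    h hr, h hr']

namespace RHol

theorem th_zero {ϑ : Y → ℂ} {p : Y} (hc : ContinuousAt ϑ p)
    (h0 : 0 < (ϑ p).re ∨ (ϑ p).im ≠ 0) : ∃ U ∈ 𝓝 p, ∀ x ∈ U, ∀ y ∈ U, th ϑ x y = 0 := by
  have hre : ContinuousAt (fun x => (ϑ x).re) p := Complex.continuous_re.continuousAt.comp hc
  have him : ContinuousAt (fun x => (ϑ x).im) p := Complex.continuous_im.continuousAt.comp hc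
  rcases h0 with h0 | h0
  · refine ⟨_, hre.eventually (lt_mem_nhds h0), fun x hx y _ => ?_⟩
    exact if_neg (not_lt.2 (le_of_lt hx))
  · rcases lt_or_gt_of_ne h0 with h0 | h0
    · refine ⟨_, him.eventually (gt_mem_nhds h0), fun x hx y hy => ?_⟩
      have hx' : (ϑ x).im < 0 := hx
      have hy' : (ϑ y).im < 0 := hy
      simp [th, jmp, hx', hy']
    · refine ⟨_, him.eventually (lt_mem_nhds h0), fun x hx y hy => ?_⟩
      have hx' : ¬ (ϑ x).im < 0 := not_lt.2 (le_of_lt hx)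
      have hy' : ¬ (ϑ y).im < 0 := not_lt.2 (le_of_lt hy)
      simp [th, jmp, hx', hy']

theorem ex_re (t : ℝ) : (ex t).re = Real.cos (2 * Real.pi * t) := by
  rw [← Complex.exp_ofReal_mul_I_re, ex]
  push_cast
  rfl

theorem ex_im (t : ℝ) : (ex t).im = Real.sin (2 * Real.pi * t) := by
  rw [← Complex.exp_ofReal_mul_I_im, ex]
  push_cast
  rfl

theorem ex_ne_zero (t : ℝ) : ex t ≠ 0 := Complex.exp_ne_zero _

theorem near_half {t : ℝ} {n : ℤ} (h1 : n + 1 / 4 < t) (h2 : t < n + 3 / 4) :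
    (ex t).re < 0 ∧ ⌈t - 1 / 2⌉ = n + if (ex t).im < 0 then 1 else 0 := by
  obtain ⟨w, rfl⟩ : ∃ w, t = w + n := ⟨t - n, by ring⟩
  have hπ := Real.pi_pos
  rw [ex_add, ex_int, mul_one, ex_re, ex_im]
  refine ⟨Real.cos_neg_of_pi_div_two_lt_of_lt (by nlinarith) (by nlinarith), ?_⟩
  by_cases hw : w ≤ 1 / 2
  · rw [if_neg (not_lt.2 (Real.sin_nonneg_of_nonneg_of_le_pi (by nlinarith) (by nlinarith))),
      add_zero, Int.ceil_eq_iff]
    constructor <;> linarith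
  · have h3 : Real.sin (2 * Real.pi * w) < 0 := by
      rw [← Real.sin_sub_two_pi]
      exact Real.sin_neg_of_neg_of_neg_pi_lt (by nlinarith) (by nlinarith)
    rw [if_pos h3, Int.ceil_eq_iff]
    push_cast
    constructor <;> linarith

theorem off_half {t : ℝ} (h : ∀ n : ℤ, t ≠ n + 1 / 2) : 0 < (ex t).re ∨ (ex t).im ≠ 0 := by
  by_cases him : (ex t).im = 0
  · left
    rw [ex_im, Real.sin_eq_zero_iff] at him
    obtain ⟨m, hm⟩ := him
    have h1 : t = m / 2 := by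
      have h2 : (2 * t - m) * Real.pi = 0 := by linarith
      have h3 := (mul_eq_zero.1 h2).resolve_right Real.pi_ne_zero
      linarith
    rcases Int.even_or_odd' m with ⟨j, rfl | rfl⟩
    · have h4 : t = j := by rw [h1]; push_cast; ring
      rw [h4, ex_int]
      simp
    · exact absurd (by rw [h1]; push_cast; ring) (h j)
  · exact Or.inr him

theorem arg_eq {z : ℂ} {r t : ℝ} (hr : 0 < r) (h : z = r * ex t) :
    z.arg / (2 * Real.pi) = t - ⌈t - 1 / 2⌉ := by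
  have hπ := Real.pi_pos
  have h1 : ex t = ex (t - ⌈t - 1 / 2⌉) := ex_eq_iff.2 ⟨-⌈t - 1 / 2⌉, by push_cast; ring⟩
  have h2 := Int.le_ceil (t - 1 / 2)
  have h3 := Int.ceil_lt_add_one (t - 1 / 2)
  have h4 : 2 * Real.pi * (t - ⌈t - 1 / 2⌉) ∈ Ioc (-Real.pi) Real.pi :=
    ⟨by nlinarith, by nlinarith⟩
  have h5 := Complex.arg_mul_cos_add_sin_mul_I hr h4
  rw [← Complex.exp_mul_I] at h5
  rw [h, h1, ex, div_eq_iff (by positivity), mul_comm _ (2 * Real.pi), ← h5]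
  push_cast
  rfl

theorem polar {z : ℂ} (hz : z ≠ 0) : ∃ r : ℝ, 0 < r ∧ z = r * ex (z.arg / (2 * Real.pi)) := by
  refine ⟨‖z‖, norm_pos_iff.2 hz, ?_⟩
  have : (Real.pi : ℂ) ≠ 0 := Complex.ofReal_ne_zero.2 Real.pi_ne_zero
  rw [ex]
  convert (Complex.norm_mul_exp_arg_mul_I z).symm using 3
  push_cast
  field_simp

theorem exists_lift {ϑ : Y → ℂ} {p : Y} (hc : ContinuousAt ϑ p) (h0 : ϑ p ≠ 0) :
    ∃ α : Y → ℝ, ContinuousAt α p ∧ ∀ᶠ x in 𝓝 p, ∃ r : ℝ, 0 < r ∧ ϑ x = r * ex (α x) := by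
  refine ⟨fun x => (ϑ p).arg / (2 * Real.pi) + (ϑ x / ϑ p).arg / (2 * Real.pi), ?_, ?_⟩
  · refine continuousAt_const.add (ContinuousAt.div_const ?_ _)
    refine ContinuousAt.comp (f := fun x => ϑ x / ϑ p) (Complex.continuousAt_arg ?_)
      (hc.div_const _)
    rw [div_self h0]
    exact Complex.one_mem_slitPlane
  · filter_upwards [hc.eventually_ne h0] with x hx
    obtain ⟨r, hr, h1⟩ := polar h0
    obtain ⟨r', hr', h2⟩ := polar (div_ne_zero hx h0)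
    refine ⟨r * r', mul_pos hr hr', ?_⟩
    rw [ex_add]
    push_cast
    calc ϑ x = ϑ p * (ϑ x / ϑ p) := by field_simp
      _ = _ := by
        nth_rewrite 1 [h1, h2]
        ring

end RHol

theorem isCocA_th {ϑ : Y → ℂ} {S : Set Y} (hc : ∀ p ∈ S, ContinuousAt ϑ p)
    (h0 : ∀ p ∈ S, ϑ p ≠ 0) : IsCocA (th ϑ) S := by
  intro p hp
  by_cases h1 : (ϑ p).re < 0
  · have hre : ContinuousAt (fun x => (ϑ x).re) p :=
      Complex.continuous_re.continuousAt.comp (hc p hp)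
    refine ⟨_, hre.eventually (gt_mem_nhds h1), fun x hx y hy z _ => ?_⟩
    have hx' : (ϑ x).re < 0 := hx
    have hy' : (ϑ y).re < 0 := hy
    simp only [th, if_pos hx', if_pos hy', jmp]
    ring
  · have h2 : 0 < (ϑ p).re ∨ (ϑ p).im ≠ 0 := by
      by_contra h3
      push Not at h3
      exact h0 p hp (Complex.ext (le_antisymm h3.1 (not_lt.1 h1)) h3.2)
    obtain ⟨U, hU, h3⟩ := RHol.th_zero (hc p hp) h2
    exact ⟨U, hU, fun x hx y hy z hz => by rw [h3 x hx y hy, h3 y hy z hz, h3 x hx z hz, add_zero]⟩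

theorem th_locEq_zero {ϑ : Y → ℂ} {S : Set Y} (hc : ∀ p ∈ S, ContinuousAt ϑ p)
    (h0 : ∀ p ∈ S, 0 < (ϑ p).re ∨ (ϑ p).im ≠ 0) : LocEq (th ϑ) (fun _ _ => 0) S := by
  exact fun p hp => RHol.th_zero (hc p hp) (h0 p hp)

/-- With a continuous lift `α` of the argument, `th ϑ` is the coboundary of `⌈α - 1/2⌉`. -/
theorem th_log {ϑ : Y → ℂ} {α : Y → ℝ} {p : Y} (hα : ContinuousAt α p)
    (h : ∀ᶠ x in 𝓝 p, ∃ r : ℝ, 0 < r ∧ ϑ x = r * ex (α x)) :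
    ∃ U ∈ 𝓝 p, ∀ x ∈ U, ∀ y ∈ U, th ϑ x y = ⌈α y - 1 / 2⌉ - ⌈α x - 1 / 2⌉ := by
  suffices H : ∃ U ∈ 𝓝 p, ∀ x ∈ U, ∀ y ∈ U,
      th (fun x => ex (α x)) x y = ⌈α y - 1 / 2⌉ - ⌈α x - 1 / 2⌉ by
    obtain ⟨U, hU, h1⟩ := H
    exact ⟨_, Filter.inter_mem hU h, fun x hx y hy =>
      (th_congr (ϑ := fun x => ex (α x)) (ϑ' := ϑ) hx.2 hy.2).trans (h1 x hx.1 y hy.1)⟩
  by_cases hn : ∃ n : ℤ, α p = n + 1 / 2
  · obtain ⟨n, hn⟩ := hn
    have h1 : ∀ᶠ x in 𝓝 p, n + 1 / 4 < α x ∧ α x < n + 3 / 4 :=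
      (hα.eventually (lt_mem_nhds (by linarith))).and (hα.eventually (gt_mem_nhds (by linarith)))
    refine ⟨_, h1, fun x hx y hy => ?_⟩
    obtain ⟨h2, h3⟩ := RHol.near_half hx.1 hx.2
    obtain ⟨-, h4⟩ := RHol.near_half hy.1 hy.2
    rw [h3, h4, th, if_pos h2, jmp]
    simp only [mem_ofPred_eq]
    split_ifs <;> ring
  · push Not at hn
    obtain ⟨U, hU, h1⟩ := RHol.th_zero (ϑ := fun x => ex (α x))
      (continuous_ex.continuousAt.comp hα) (RHol.off_half hn)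
    have h2 : α p - 1 / 2 < ⌈α p - 1 / 2⌉ :=
      lt_of_le_of_ne (Int.le_ceil _) fun h3 => hn ⌈α p - 1 / 2⌉ (by linarith)
    have h3 := Int.ceil_lt_add_one (α p - 1 / 2)
    have h4 : ∀ᶠ x in 𝓝 p, ⌈α x - 1 / 2⌉ = ⌈α p - 1 / 2⌉ := by
      filter_upwards [hα.eventually (lt_mem_nhds
        (show (⌈α p - 1 / 2⌉ : ℝ) - 1 / 2 < α p by linarith)), hα.eventually (gt_mem_nhds
        (show α p < (⌈α p - 1 / 2⌉ : ℝ) + 1 / 2 by linarith))] with x hx hx'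
      rw [Int.ceil_eq_iff]
      constructor <;> linarith
    refine ⟨_, Filter.inter_mem hU h4, fun x hx y hy => ?_⟩
    have h5 : ⌈α x - 1 / 2⌉ = ⌈α p - 1 / 2⌉ := hx.2
    have h6 : ⌈α y - 1 / 2⌉ = ⌈α p - 1 / 2⌉ := hy.2
    rw [h1 x hx.1 y hy.1, h5, h6, sub_self]

theorem isHolA_th {ϑ : Y → ℂ} {γ : ℝ → Y} {α : ℝ → ℝ} (hα : Continuous α) {k : ℤ}
    (hk : ∀ s, α (s + 1) = α s + k) (h : ∀ s, ∃ r : ℝ, 0 < r ∧ ϑ (γ s) = r * ex (α s)) :
    IsHolA (th ϑ) γ k := by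
  refine ⟨fun s => ⌈α s - 1 / 2⌉, fun s => th_log (ϑ := ϑ ∘ γ) hα.continuousAt
    (Filter.Eventually.of_forall h), fun s => ?_⟩
  show ⌈α (s + 1) - 1 / 2⌉ = ⌈α s - 1 / 2⌉ + k
  rw [hk, ← Int.ceil_add_intCast]
  congr 1
  ring

theorem cohA_th_mul {ϑ ϑ' : Y → ℂ} {S : Set Y} (hc : ∀ p ∈ S, ContinuousAt ϑ p)
    (h0 : ∀ p ∈ S, ϑ p ≠ 0) (hc' : ∀ p ∈ S, ContinuousAt ϑ' p) (h0' : ∀ p ∈ S, ϑ' p ≠ 0) :
    CohA (th fun p => ϑ p * ϑ' p) (fun x y => th ϑ x y + th ϑ' x y) S := by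
  refine ⟨fun x => ⌈(ϑ x).arg / (2 * Real.pi) + (ϑ' x).arg / (2 * Real.pi) - 1 / 2⌉,
    fun p hp => ?_⟩
  obtain ⟨α, hα, h1⟩ := RHol.exists_lift (hc p hp) (h0 p hp)
  obtain ⟨α', hα', h1'⟩ := RHol.exists_lift (hc' p hp) (h0' p hp)
  obtain ⟨U, hU, h2⟩ := th_log hα h1
  obtain ⟨U', hU', h2'⟩ := th_log hα' h1'
  obtain ⟨V, hV, h3⟩ := th_log (ϑ := fun p => ϑ p * ϑ' p) (hα.add hα') (by
    filter_upwards [h1, h1'] with x ⟨r, hr, hx⟩ ⟨r', hr', hx'⟩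
    refine ⟨r * r', mul_pos hr hr', ?_⟩
    rw [hx, hx', Pi.add_apply, ex_add]
    push_cast
    ring)
  have h4 : ∀ᶠ x in 𝓝 p, ⌈(ϑ x).arg / (2 * Real.pi) + (ϑ' x).arg / (2 * Real.pi) - 1 / 2⌉ =
      ⌈(α + α') x - 1 / 2⌉ - ⌈α x - 1 / 2⌉ - ⌈α' x - 1 / 2⌉ := by
    filter_upwards [h1, h1'] with x ⟨r, hr, hx⟩ ⟨r', hr', hx'⟩
    rw [RHol.arg_eq hr hx, RHol.arg_eq hr' hx', ← Int.ceil_sub_intCast, ← Int.ceil_sub_intCast,
      Pi.add_apply]
    congr 1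
    ring
  refine ⟨_, Filter.inter_mem (Filter.inter_mem hU hU') (Filter.inter_mem hV h4),
    fun x hx y hy => ?_⟩
  have h5 := hx.2.2
  have h6 := hy.2.2
  simp only [mem_ofPred_eq] at h5 h6
  simp only [h5, h6, h2 x hx.1.1 y hy.1.1, h2' x hx.1.2 y hy.1.2, h3 x hx.2.1 y hy.2.1]
  ring

/-- If `ϑ' / ϑ` has positive real part the two cocycles are cohomologous. -/
theorem cohA_th_of_re_pos {ϑ ϑ' : Y → ℂ} {S : Set Y} (hc : ∀ p ∈ S, ContinuousAt ϑ p)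
    (hc' : ∀ p ∈ S, ContinuousAt ϑ' p) (h : ∀ p ∈ S, 0 < (ϑ' p * star (ϑ p)).re) :
    CohA (th ϑ') (th ϑ) S := by
  have h0 : ∀ p ∈ S, ϑ p ≠ 0 := fun p hp h1 => by simpa [h1] using h p hp
  have hψ : ∀ p ∈ S, ContinuousAt (fun x => ϑ' x * star (ϑ x)) p := fun p hp =>
    (hc' p hp).mul (hc p hp).star
  have h1 := cohA_th_mul hψ (fun p hp h2 => (h p hp).ne' (congrArg Complex.re h2)) hc h0
  refine CohA.trans (CohA.of_locEq fun p hp => ?_) (h1.trans (CohA.of_locEq fun p hp => ?_))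
  · have h2 : ∀ x, ϑ x ≠ 0 → ∃ r : ℝ, 0 < r ∧ ϑ' x * star (ϑ x) * ϑ x = r * ϑ' x := by
      intro x hx
      refine ⟨Complex.normSq (ϑ x), Complex.normSq_pos.2 hx, ?_⟩
      rw [Complex.normSq_eq_conj_mul_self, Complex.star_def]
      ring
    exact ⟨_, (hc p hp).eventually_ne (h0 p hp), fun x hx y hy =>
      (th_congr (ϑ' := fun x => ϑ' x * star (ϑ x) * ϑ x) (h2 x hx) (h2 y hy)).symm⟩
  · obtain ⟨U, hU, h2⟩ := RHol.th_zero (hψ p hp) (Or.inl (h p hp))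
    exact ⟨U, hU, fun x hx y hy => by simp only [h2 x hx y hy, zero_add]⟩

end Th

end Pool.Agent.HH
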