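import Pool.Agent.P.MP_c8dc46_gt.CoefM
import Pool.Agent.P.MP_c8dc46_gt.Hol

/-! Periodic monomial isometries, invertibility modulo `T ^ m`, the quotient `F[t^±] / T ^ n`. -/

open Set Polynomial

namespace Pool.Agent.HH

namespace RPM

section Bar

variable {F G : Type} [Field F] [AddCommGroup G] [Module F G] {T L L' : Module.End F G}

theorem ext {k : ℕ} {A B : Module.End F (Qk T k)} (h : ∀ x, A (pk T k x) = B (pk T k x)) :
    A = B :=
  LinearMap.ext fun e => by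
    obtain ⟨x, rfl⟩ := (LinearMap.range (T ^ k)).mkQ_surjective e
    exact h x

theorem barE_sub (h : Commute L T) (h' : Commute L' T) (k : ℕ) :
    barE T k (L - L') = barE T k L - barE T k L' :=
  ext fun x => by
    rw [← barE_pk (h.sub_left h'), LinearMap.sub_apply, LinearMap.sub_apply, ← barE_pk h,
      ← barE_pk h', map_sub]

theorem barE_scal (T : Module.End F G) (c : F) (k : ℕ) : barE T k (c • 1) = c • 1 :=
  ext fun x => by
    rw [← barE_pk ((Commute.one_left T).smul_left c)]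
    simp

theorem barE_pow (h : Commute L T) (k n : ℕ) : barE T k (L ^ n) = barE T k L ^ n := by
  induction n with
  | zero => rw [pow_zero, pow_zero, barE_one]
  | succ n ih => rw [pow_succ, pow_succ, barE_mul (h.pow_left n) h, ih]

theorem pk_eq_zero {k : ℕ} {x : G} : pk T k x = 0 ↔ ∃ y, (T ^ k) y = x :=
  Submodule.Quotient.mk_eq_zero _

theorem barE_nil (T : Module.End F G) (k : ℕ) : barE T k T ^ k = 0 := by
  rw [← barE_pow (Commute.refl T)]
  exact ext fun x => by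
    rw [← barE_pk ((Commute.refl T).pow_left k)]
    exact pk_eq_zero.2 ⟨x, rfl⟩

theorem bij_scal {A : Module.End F G} {c : F} (hc : c ≠ 1) (h : IsNilpotent (A - c • 1)) :
    IsUnit (A - 1) := by
  have e : A - 1 = (c - 1) • 1 + (A - c • 1) := by
    rw [sub_smul, one_smul]; abel
  rw [e]
  refine h.isUnit_add_left_of_commute ?_ ((Commute.one_right _).smul_right _)
  rw [← Algebra.algebraMap_eq_smul_one]
  exact (IsUnit.mk0 _ (sub_ne_zero.2 hc)).map _

end Bar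

section Sh

variable {F W : Type} [Field F] [AddCommGroup W] [Module F W] {p : ℕ}

theorem exists_fac {z₀ : F} (hz : z₀ ≠ 0) (p : ℕ) (j : ℤ) : ∃ S : Module.End F (ℤ →₀ W),
    Commute S (Tm F W p z₀) ∧ shp F W (p * j) - z₀ ^ j • 1 = S * Tm F W p z₀ := by
  induction j using Int.induction_on with
  | zero => exact ⟨0, Commute.zero_left _, by simp [shp_zero]⟩
  | succ j ih =>
    obtain ⟨S, h1, h2⟩ := ih
    refine ⟨shp F W (p * j) + z₀ • S, (commute_shp_Tm _ _ _).add_left (h1.smul_left _), ?_⟩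
    rw [add_mul, smul_mul_assoc, ← h2, mul_add, mul_one, shp_add, zpow_add_one₀ hz, Tm, mul_sub,
      mul_smul_comm, mul_one, smul_sub, smul_smul, mul_comm z₀]
    abel
  | pred j ih =>
    obtain ⟨S, h1, h2⟩ := ih
    refine ⟨z₀⁻¹ • S - z₀⁻¹ • shp F W (p * (-j - 1)),
      (h1.smul_left _).sub_left ((commute_shp_Tm _ _ _).smul_left _), ?_⟩
    rw [sub_mul, smul_mul_assoc, smul_mul_assoc, ← h2, Tm, mul_sub (shp F W _), ← shp_add,
      mul_smul_comm,
      mul_one, smul_sub, smul_sub, smul_smul, smul_smul, inv_mul_cancel₀ hz, one_smul,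
      zpow_sub_one₀ hz, mul_comm z₀⁻¹, show (p : ℤ) * (-j - 1) + p = p * -j by ring]
    abel

theorem nil_shp {z₀ : F} (hz : z₀ ≠ 0) (p : ℕ) (j : ℤ) (k : ℕ) :
    IsNilpotent (barE (Tm F W p z₀) k (shp F W (p * j)) - z₀ ^ j • 1) := by
  obtain ⟨S, h1, h2⟩ := exists_fac (W := W) hz p j
  rw [← barE_scal, ← barE_sub (commute_shp_Tm _ _ _) ((Commute.one_left _).smul_left _), h2,
    barE_mul h1 (Commute.refl _)]
  refine Commute.isNilpotent_mul_left ?_ ⟨k, barE_nil _ k⟩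
  show _ * _ = _ * _
  rw [← barE_mul h1 (Commute.refl _), ← barE_mul (Commute.refl _) h1, h1.eq]

theorem bar_shp_add (z₀ : F) (k : ℕ) (i j : ℤ) : barE (Tm F W p z₀) k (shp F W (i + j)) =
    barE (Tm F W p z₀) k (shp F W i) * barE (Tm F W p z₀) k (shp F W j) := by
  rw [shp_add, barE_mul (commute_shp_Tm _ _ _) (commute_shp_Tm _ _ _)]

theorem bar_shp_nat (z₀ : F) (k n : ℕ) : barE (Tm F W p z₀) k (shp F W n) =
    barE (Tm F W p z₀) k (shp F W 1) ^ n := by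
  rw [← barE_pow (commute_shp_Tm _ _ _), shp_pow, one_mul]

theorem bar_Tm (z₀ : F) (k : ℕ) : barE (Tm F W p z₀) k (Tm F W p z₀) =
    barE (Tm F W p z₀) k (shp F W 1) ^ p - z₀ • 1 := by
  rw [← bar_shp_nat, ← barE_scal,
    ← barE_sub (commute_shp_Tm _ _ _) ((Commute.one_left _).smul_left _)]
  rfl

/-- eigenvectors of the inverse shift -/
theorem eig_neg {z₀ : F} {k : ℕ} {j : ℤ} {s : F} (hs : s ≠ 0) {e : Qk (Tm F W p z₀) k}
    (h : barE _ k (shp F W j) e = s • e) : barE _ k (shp F W (-j)) e = s⁻¹ • e := by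
  have h1 : barE _ k (shp F W (-j)) (barE _ k (shp F W j) e) = e := by
    rw [← Module.End.mul_apply, ← bar_shp_add, neg_add_cancel, shp_zero, barE_one]; rfl
  rw [h, map_smul] at h1
  rw [eq_inv_smul_iff₀ hs, h1]

theorem fix_abs {z₀ : F} {k : ℕ} {j : ℤ} {e : Qk (Tm F W p z₀) k}
    (h : barE _ k (shp F W j) e = e) : (barE _ k (shp F W 1) ^ j.natAbs) e = e := by
  rw [← bar_shp_nat]
  rcases Int.natAbs_eq j with hj | hj
  · rwa [← hj]
  · have := eig_neg one_ne_zero (h.trans (one_smul F e).symm)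
    rwa [inv_one, one_smul, hj, neg_neg] at this

theorem eig_pow {G : Type} [AddCommGroup G] [Module F G] {A : Module.End F G} {s : F} {e : G}
    (h : A e = s • e) (n : ℕ) : (A ^ n) e = s ^ n • e := by
  induction n with
  | zero => simp
  | succ n ih => rw [pow_succ, Module.End.mul_apply, h, map_smul, ih, smul_smul, pow_succ']

theorem eig_zpow {z₀ : F} {k : ℕ} {s : F} (hs : s ≠ 0) {e : Qk (Tm F W p z₀) k}
    (h : barE _ k (shp F W 1) e = s • e) (j : ℤ) : barE _ k (shp F W j) e = s ^ j • e := by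
  rcases Int.natAbs_eq j with hj | hj
  · rw [hj, bar_shp_nat, eig_pow h, zpow_natCast]
  · rw [hj, zpow_neg, zpow_natCast]
    exact eig_neg (pow_ne_zero _ hs) (by rw [bar_shp_nat, eig_pow h])

theorem eig_zero {z₀ : F} {k : ℕ} {s : F} (hs : s ^ p ≠ z₀) {e : Qk (Tm F W p z₀) k}
    (h : barE _ k (shp F W 1) e = s • e) : e = 0 := by
  have h1 : barE _ k (Tm F W p z₀) e = (s ^ p - z₀) • e := by
    rw [bar_Tm, LinearMap.sub_apply, eig_pow h, sub_smul]; rfl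
  have h2 := eig_pow h1 k
  rw [barE_nil, LinearMap.zero_apply] at h2
  exact (smul_eq_zero.1 h2.symm).resolve_left (pow_ne_zero _ (sub_ne_zero.2 hs))

/-- the quotient `(X ^ n - s ^ n) / (X - s)` -/
noncomputable def qq (s : F) (n : ℕ) : F[X] := ∑ i ∈ Finset.range n, X ^ i * C s ^ (n - 1 - i)

theorem qq_mul (s : F) (n : ℕ) : qq s n * (X - C s) = X ^ n - C (s ^ n) := by
  rw [qq, geom_sum₂_mul, C_pow]

theorem qq_eval (s : F) (n : ℕ) : (qq s n).eval s = n * s ^ (n - 1) := by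
  rw [← geom_sum₂_self, qq, eval_finsetSum]
  simp

theorem eig_of_fix {z₀ : F} {k n : ℕ} {s : F} (hs : s ^ n = 1)
    (hc : IsCoprime (qq s n) (X ^ p - C z₀)) {e : Qk (Tm F W p z₀) k}
    (h : (barE _ k (shp F W 1) ^ n) e = e) : barE _ k (shp F W 1) e = s • e := by
  obtain ⟨a, b, hab⟩ := hc.pow_right (n := k)
  have h0 : aeval (barE (Tm F W p z₀) k (shp F W 1)) ((X ^ p - C z₀) ^ k) = 0 := by
    rw [map_pow, map_sub, map_pow, aeval_X, aeval_C, Algebra.algebraMap_eq_smul_one, ← bar_Tm,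
      barE_nil]
  have h1 : aeval (barE (Tm F W p z₀) k (shp F W 1)) (X - C s) =
      aeval (barE (Tm F W p z₀) k (shp F W 1)) (a * (X ^ n - 1)) := by
    have : X - C s = a * (X ^ n - 1) + b * (X - C s) * (X ^ p - C z₀) ^ k := by
      have h2 := qq_mul s n
      rw [hs, C_1] at h2
      linear_combination (-(X - C s)) * hab + a * h2
    rw [this, map_add, map_mul _ (b * _), h0, mul_zero, add_zero]
  have h2 := LinearMap.congr_fun h1 e
  rw [map_mul, map_sub, map_sub, map_pow, aeval_X, aeval_C, map_one, Module.End.mul_apply,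
    LinearMap.sub_apply, LinearMap.sub_apply, h, Module.End.one_apply, sub_self, map_zero,
    sub_eq_zero] at h2
  exact h2

theorem decomp {s : F} (hs : s ≠ 0) (y : ℤ →₀ F) :
    ∃ (κ : F) (y' : ℤ →₀ F), y = κ • Finsupp.single 0 1 + Tm F F 1 s y' := by
  induction y using Finsupp.induction_linear with
  | zero => exact ⟨0, 0, by simp⟩
  | add a b ha hb =>
    obtain ⟨κ, y, rfl⟩ := ha
    obtain ⟨κ', y', rfl⟩ := hb
    exact ⟨κ + κ', y + y', by rw [add_smul, map_add]; abel⟩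
  | single j w =>
    obtain ⟨S, h1, h2⟩ := exists_fac (W := F) hs 1 j
    have h3 := LinearMap.congr_fun h2 (Finsupp.single 0 w)
    rw [h1.eq, Module.End.mul_apply, LinearMap.sub_apply, shp_single, Nat.cast_one, one_mul,
      zero_add] at h3
    refine ⟨s ^ j * w, S (Finsupp.single 0 w), ?_⟩
    rw [← h3]
    simp

theorem Tm_one (s : F) (x : ℤ →₀ W) : Tm F W 1 s x = shp F W 1 x - s • x := by
  rw [Tm, Nat.cast_one]; rfl

theorem line_eig {z₀ s : F} {m : ℕ} {A : Module.End F (ℤ →₀ F)}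
    (hA : Tm F F 1 s * A = Tm F F p z₀ ^ m) (x : ℤ →₀ F) :
    barE (Tm F F p z₀) m (shp F F 1) (pk _ m (A x)) = s • pk _ m (A x) := by
  rw [← barE_pk (commute_shp_Tm _ _ _), ← map_smul, ← sub_eq_zero, ← map_sub, pk_eq_zero, ← hA]
  exact ⟨x, by rw [Module.End.mul_apply, Tm_one]⟩

theorem line_ne (hp : 0 < p) {z₀ s : F} (hs : s ≠ 0) {m : ℕ} {A : Module.End F (ℤ →₀ F)}
    (hA : Tm F F 1 s * A = Tm F F p z₀ ^ m) (hc : Commute A (Tm F F 1 s)) :
    pk (Tm F F p z₀) m (A (Finsupp.single 0 1)) ≠ 0 := by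
  intro h
  obtain ⟨y, hy⟩ := pk_eq_zero.1 h
  have h1 : Function.Injective (Tm F F 1 s * A) := by
    rw [hA, Module.End.coe_pow]
    exact (Tm_injective hp z₀).iterate m
  have h2 : Function.Injective A := Function.Injective.of_comp (f := Tm F F 1 s) h1
  rw [← hA, ← hc.eq, Module.End.mul_apply] at hy
  have h3 := (range_Tm_iff one_pos hs _).1 ⟨y, h2 hy⟩ 0
  rw [Finsupp.sum_single_index (by simp)] at h3
  simp at h3

theorem line_all {z₀ s : F} (hs : s ≠ 0) {m : ℕ} {A : Module.End F (ℤ →₀ F)}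
    (hA : Tm F F 1 s * A = Tm F F p z₀ ^ m) (hc : Commute A (Tm F F 1 s))
    (e : Qk (Tm F F p z₀) m) (he : barE _ m (shp F F 1) e = s • e) :
    ∃ κ : F, e = κ • pk (Tm F F p z₀) m (A (Finsupp.single 0 1)) := by
  obtain ⟨x, rfl⟩ := (LinearMap.range (Tm F F p z₀ ^ m)).mkQ_surjective e
  rw [← barE_pk (commute_shp_Tm _ _ _), ← map_smul, ← sub_eq_zero, ← map_sub, pk_eq_zero,
    ← hA] at he
  obtain ⟨y, hy⟩ := he
  rw [Module.End.mul_apply, ← Tm_one] at hy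
  have h1 : A y = x := Tm_injective one_pos s hy
  obtain ⟨κ, y', rfl⟩ := decomp hs y
  refine ⟨κ, ?_⟩
  rw [← h1, map_add, map_add, map_smul, map_smul, ← Module.End.mul_apply A, hc.eq, hA,
    pk_eq_zero.2 ⟨y', rfl⟩, add_zero]

theorem line (hp : 0 < p) {s : F} (hs : s ≠ 0) {m : ℕ} (hm : 0 < m) :
    ∃ e₀ : Qk (Tm F F p (s ^ p)) m, e₀ ≠ 0 ∧ barE _ m (shp F F 1) e₀ = s • e₀ ∧
      ∀ e, barE _ m (shp F F 1) e = s • e → ∃ κ : F, e = κ • e₀ := by
  have e1 : Tm F F 1 s = aeval (shp F F 1) (X - C s) := by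
    rw [map_sub, aeval_X, aeval_C, Algebra.algebraMap_eq_smul_one]; rfl
  have e2 : Tm F F p (s ^ p) = aeval (shp F F 1) (qq s p * (X - C s)) := by
    rw [qq_mul, map_sub, map_pow, aeval_X, aeval_C, Algebra.algebraMap_eq_smul_one, shp_pow,
      one_mul]; rfl
  have hA : Tm F F 1 s * aeval (shp F F 1) (qq s p * (qq s p * (X - C s)) ^ (m - 1)) =
      Tm F F p (s ^ p) ^ m := by
    obtain ⟨m, rfl⟩ := Nat.exists_eq_succ_of_ne_zero hm.ne'
    rw [e1, e2, ← map_mul, ← map_pow, Nat.succ_sub_one]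
    congr 1
    rw [Nat.succ_eq_add_one]
    ring
  have hc : Commute (aeval (shp F F 1) (qq s p * (qq s p * (X - C s)) ^ (m - 1)))
      (Tm F F 1 s) := by
    rw [e1]
    exact (Commute.all _ _).map _
  exact ⟨_, line_ne hp hs hA hc, line_eig hA _, line_all hs hA hc⟩

theorem per_mul {α : Type} {V : ℤ → α} (h : ∀ k, V (k + p) = V k) {k k' : ℤ}
    (hk : (p : ℤ) ∣ k - k') : V k = V k' := by
  obtain ⟨c, hc⟩ := hk
  have h1 : Function.Periodic V (p : ℤ) := h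
  have h2 := h1.int_mul c k'
  rw [Int.cast_id] at h2
  rw [← h2]
  congr 1
  linear_combination hc

end Sh

end RPM

open RPM

variable {F W : Type} [Field F] [StarRing F] [AddCommGroup W] [Module F W]
  {H : W →ₗ[F] W →ₗ⋆[F] F} {p : ℕ}

theorem IsPM.mul {d d' : ℤ} {L L' : Module.End F (ℤ →₀ W)} (h : IsPM H p d L)
    (h' : IsPM H p d' L') : IsPM H p (d + d') (L * L') := by
  obtain ⟨V, h1, h2, h3⟩ := h
  obtain ⟨V', g1, g2, g3⟩ := h'
  refine ⟨fun k => (V' k).trans (V (k + d')), fun k => ?_, fun k w w' => ?_, fun k w => ?_⟩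
  · simp only [g1, add_right_comm k p d', h1]
  · simp only [LinearEquiv.trans_apply, h2, g2]
  · rw [Module.End.mul_apply, g3, h3, add_assoc, add_comm d']; rfl

theorem isPM_shp (d : ℤ) : IsPM H p d (shp F W d) :=
  ⟨fun _ => LinearEquiv.refl F W, fun _ => rfl, fun _ _ _ => rfl, fun k w => shp_single d k w⟩

theorem IsPM.smul {d : ℤ} {L : Module.End F (ℤ →₀ W)} (h : IsPM H p d L) {c : F}
    (hc : c * star c = 1) : IsPM H p d (c • L) := by
  obtain ⟨V, h1, h2, h3⟩ := h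
  have h0 : c ≠ 0 := left_ne_zero_of_mul_eq_one hc
  refine ⟨fun k => (V k).trans (LinearEquiv.smulOfNeZero F W c h0), fun k => by simp only [h1],
    fun k w w' => ?_, fun k w => ?_⟩
  · simp only [LinearEquiv.trans_apply, LinearEquiv.smulOfNeZero_apply, map_smul, map_smulₛₗ,
      LinearMap.smul_apply, smul_eq_mul, h2, starRingEnd_apply]
    linear_combination H w w' * hc
  · rw [LinearMap.smul_apply, h3, Finsupp.smul_single]; rfl

theorem IsPM.commute {d : ℤ} {L : Module.End F (ℤ →₀ W)} (h : IsPM H p d L) :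
    Commute L (shp F W p) := by
  obtain ⟨V, h1, -, h3⟩ := h
  refine Finsupp.lhom_ext fun k w => ?_
  rw [Module.End.mul_apply, Module.End.mul_apply, shp_single, h3, h3, shp_single, h1,
    add_right_comm]

theorem IsPM.exists_equiv {d : ℤ} {L : Module.End F (ℤ →₀ W)} (h : IsPM H p d L) :
    ∃ e : (ℤ →₀ W) ≃ₗ[F] (ℤ →₀ W), (e : (ℤ →₀ W) →ₗ[F] (ℤ →₀ W)) = L ∧
      IsPM H p (-d) (e.symm : (ℤ →₀ W) →ₗ[F] (ℤ →₀ W)) := by
  obtain ⟨V, h1, h2, h3⟩ := h
  obtain ⟨L', hL⟩ : ∃ L' : Module.End F (ℤ →₀ W), ∀ k w,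
      L' (Finsupp.single k w) = Finsupp.single (k + -d) ((V (k + -d)).symm w) :=
    ⟨Finsupp.lsum ℕ fun k => Finsupp.lsingle (k + -d) ∘ₗ ((V (k + -d)).symm : W →ₗ[F] W),
      fun k w => by simp⟩
  refine ⟨LinearEquiv.ofLinearMap L L' (Finsupp.lhom_ext fun k w => ?_)
    (Finsupp.lhom_ext fun k w => ?_), rfl, fun k => (V (k + -d)).symm, fun k => ?_,
    fun k w w' => ?_, hL⟩
  · simp [hL, h3]
  · simp [hL, h3]
  · simp only [add_right_comm k p (-d), h1]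
  · rw [← h2 (k + -d)]
    simp

theorem IsPM.compat [FiniteDimensional F W] {hH : IsHerm H} {m : ℕ} {z₀ : F} (hc : CP F p m z₀)
    {d : ℤ} {L : Module.End F (ℤ →₀ W)} (h : IsPM H p d L) : (coefM hH hc).Compat L := by
  refine ⟨h.commute.sub_right ((Commute.one_right _).smul_right _), h.commute.smul_right _,
    fun x y => ?_⟩
  obtain ⟨V, h1, h2, h3⟩ := h
  show Bm H p m z₀ (L x) (L y) = Bm H p m z₀ x y
  induction x using Finsupp.induction_linear with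
  | zero => simp
  | add a b ha hb => simp only [map_add, LinearMap.add_apply, ha, hb]
  | single k w =>
    induction y using Finsupp.induction_linear with
    | zero => simp
    | add a b ha hb => simp only [map_add, ha, hb]
    | single k' w' =>
      rw [h3, h3, Bm_single, Bm_single, wt, wt, add_sub_add_right_eq_sub]
      split_ifs with hk
      · rw [per_mul h1 hk, h2]
      · rw [zero_mul, zero_mul]

theorem compatT_mtau [FiniteDimensional F W] {hH : IsHerm H} {m : ℕ} {z₀ : F} (hc : CP F p m z₀)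
    {u v : Fˣ} (hu : (u : F) * star (u : F) = 1) (hv : (v : F) * star (v : F) = 1) {Y : Type}
    (h θ₁ θ₂ : Y → Y → ℤ) : (coefM hH hc).CompatT (mtau F W u v h θ₁ θ₂) := by
  refine fun x y => ((isPM_shp _).smul ?_).compat hc
  rw [Units.val_mul, Units.val_zpow_eq_zpow_val, Units.val_zpow_eq_zpow_val, star_mul',
    star_zpow₀, star_zpow₀, mul_mul_mul_comm, ← mul_zpow, ← mul_zpow, hu, hv, one_zpow, one_zpow,
    one_mul]

theorem compatT_zt [FiniteDimensional F W] {hH : IsHerm H} {m : ℕ} {z₀ : F} (hc : CP F p m z₀)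
    {Y : Type} (h : Y → Y → ℤ) : (coefM hH hc).CompatT (zt (sh F W) h) :=
  fun _ _ => (isPM_shp _).compat hc

omit [StarRing F] in
theorem bij_of_pow {z₀ : F} (hz : z₀ ≠ 0) {L : Module.End F (ℤ →₀ W)}
    (hL : Commute L (shp F W p)) {a : ℕ} {j : ℤ} (hp : L ^ a = shp F W (p * j)) (hj : z₀ ^ j ≠ 1)
    (k : ℕ) : Function.Bijective (barE (Tm F W p z₀) k L - 1 : Module.End F _) := by
  have hT : Commute L (Tm F W p z₀) := hL.sub_right ((Commute.one_right _).smul_right _)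
  have h1 := bij_scal hj (nil_shp (W := W) hz p j k)
  rw [← hp, barE_pow hT, ← mul_geom_sum] at h1
  refine (Module.End.isUnit_iff _).1 ((Commute.isUnit_mul_iff ?_).1 h1).1
  exact Commute.sum_right _ _ _ fun i _ =>
    ((Commute.refl _).pow_right i).sub_left (Commute.one_left _)

omit [StarRing F] in
theorem bij_of_scalar {G : Type} [AddCommGroup G] [Module F G] (T : Module.End F G) (k : ℕ) {u : F}
    (hu : u ≠ 1) : Function.Bijective (barE T k (u • 1) - 1 : Module.End F _) := by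
  rw [barE_scal]
  exact (Module.End.isUnit_iff _).1 (bij_scal hu (by rw [sub_self]; exact IsNilpotent.zero))

theorem RPM.rho_z {Γ : Type} [Group Γ] {Rp : RepIn Γ} {n₀ : ℕ} {u v : ℂˣ}
    {ρ : Representation ℂ Γ (ℤ →₀ (Fin n₀ → ℂ))} (h : RepOut Rp n₀ u v ρ) (γ : Γ) :
    ρ (γ ^ Rp.p) = shp ℂ (Fin n₀ → ℂ) (Rp.p * Rp.dg γ) := by
  have h1 : MonoidHom.toHomUnits ρ (Rp.μ ^ Rp.p) = sh ℂ (Fin n₀ → ℂ) ^ (Rp.p : ℤ) :=
    Units.ext h.z
  rw [Rp.pw, ← MonoidHom.coe_toHomUnits, map_zpow, h1, ← zpow_mul]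
  rfl

/-- For an element of degree one the representation is the shift in suitable coordinates:
`U (single k w) = ρ (g ^ k) (single 0 w)`. -/
theorem RepOut.model {Γ : Type} [Group Γ] {Rp : RepIn Γ} {n₀ : ℕ} {u v : ℂˣ}
    {ρ : Representation ℂ Γ (ℤ →₀ (Fin n₀ → ℂ))} (h : RepOut Rp n₀ u v ρ) {g : Γ}
    (hg : Rp.dg g = 1) : ∃ U, IsPM (Hstd ℂ (Fin n₀)) Rp.p 0 U ∧
      ∀ k : ℤ, U * shp ℂ (Fin n₀ → ℂ) k = ρ (g ^ k) * U := by
  have hd : ∀ k : ℤ, Rp.dg (g ^ k) = k := fun k => by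
    have : Multiplicative.toAdd (Rp.deg g) = 1 := hg
    rw [RepIn.dg, map_zpow, toAdd_zpow, this, smul_eq_mul, mul_one]
  choose V h1 h2 h3 using fun k : ℤ => h.pm (g ^ k)
  obtain ⟨U, hU⟩ : ∃ U : Module.End ℂ (ℤ →₀ (Fin n₀ → ℂ)), ∀ k w,
      U (Finsupp.single k w) = ρ (g ^ k) (Finsupp.single 0 w) :=
    ⟨Finsupp.lsum ℕ fun k => ρ (g ^ k) ∘ₗ Finsupp.lsingle 0, fun k w => by simp⟩
  refine ⟨U, ⟨fun k => V k 0, fun k => LinearEquiv.ext fun w => ?_, fun k => h2 k 0,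
    fun k w => ?_⟩, fun k => Finsupp.lhom_ext fun j w => ?_⟩
  · have e := h3 (k + Rp.p) 0 w
    rw [add_comm k, zpow_add, map_mul, zpow_natCast, rho_z h, Module.End.mul_apply, h3, hg,
      shp_single, ← zpow_natCast, ← zpow_add, hd, hd, mul_one, zero_add, zero_add,
      add_comm (Rp.p : ℤ)] at e
    exact (Finsupp.single_injective _ e).symm
  · rw [hU, h3, hd, zero_add, add_zero]
  · rw [Module.End.mul_apply, Module.End.mul_apply, shp_single, hU, hU, add_comm, zpow_add,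
      map_mul, Module.End.mul_apply]

theorem RepOut.bij_of_deg {Γ : Type} [Group Γ] {Rp : RepIn Γ} {n₀ : ℕ} {u v : ℂˣ}
    {ρ : Representation ℂ Γ (ℤ →₀ (Fin n₀ → ℂ))} (h : RepOut Rp n₀ u v ρ) {z₀ : ℂ} (hz : z₀ ≠ 0)
    {η : Γ} (hη : z₀ ^ Rp.dg η ≠ 1) (k : ℕ) :
    Function.Bijective (barE (Tm ℂ (Fin n₀ → ℂ) Rp.p z₀) k (ρ η) - 1 : Module.End ℂ _) :=
  bij_of_pow hz (h.pm η).commute (a := Rp.p) (by rw [← map_pow, rho_z h]) hη k

section Quot

variable (F)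

/-- The module `F[t, t⁻¹] / (t - ζ) ^ n`. -/
abbrev Aq (ζ : F) (n : ℕ) : Type := Qk (Tm F F 1 ζ) n

/-- Multiplication by `t` on `Aq`. -/
noncomputable def tq (ζ : F) (n : ℕ) : (Module.End F (Aq F ζ n))ˣ where
  val := barE (Tm F F 1 ζ) n (shp F F 1)
  inv := barE (Tm F F 1 ζ) n (shp F F (-1))
  val_inv := by
    rw [← barE_mul (commute_shp_Tm _ _ _) (commute_shp_Tm _ _ _), ← shp_add]
    simp [shp_zero, barE_one]
  inv_val := by
    rw [← barE_mul (commute_shp_Tm _ _ _) (commute_shp_Tm _ _ _), ← shp_add]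
    simp [shp_zero, barE_one]

/-- The socle generator. -/
noncomputable def soc (ζ : F) (n : ℕ) : Aq F ζ n :=
  pk (Tm F F 1 ζ) n ((Tm F F 1 ζ ^ (n - 1)) (Finsupp.single 0 1))

variable {F}

omit [StarRing F]

theorem tq_zpow (ζ : F) (n : ℕ) (k : ℤ) :
    ((tq F ζ n ^ k : (Module.End F (Aq F ζ n))ˣ) : Module.End F _) =
      barE (Tm F F 1 ζ) n (shp F F k) := by
  induction k using Int.induction_on with
  | zero => rw [zpow_zero, shp_zero, barE_one, Units.val_one]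
  | succ j ih => rw [zpow_add_one, Units.val_mul, ih, bar_shp_add]; rfl
  | pred j ih => rw [zpow_sub_one, Units.val_mul, ih, sub_eq_add_neg, bar_shp_add]; rfl

theorem bar_zt {Y : Type} (ζ : F) (n : ℕ) (h : Y → Y → ℤ) :
    bar (Tm F F 1 ζ) n (zt (sh F F) h) = zt (tq F ζ n) h :=
  funext fun _ => funext fun _ => (tq_zpow ζ n _).symm

theorem finite_Aq {ζ : F} (hζ : ζ ≠ 0) (n : ℕ) : FiniteDimensional F (Aq F ζ n) := by
  have key : ∀ k : ℕ, ∃ M : Submodule F (ℤ →₀ F), M.FG ∧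
      ∀ x, ∃ a ∈ M, ∃ y, x = a + (Tm F F 1 ζ ^ k) y := by
    intro k
    induction k with
    | zero => exact ⟨⊥, Submodule.fg_bot, fun x => ⟨0, zero_mem _, x, by simp⟩⟩
    | succ k ih =>
      obtain ⟨M, h1, h2⟩ := ih
      refine ⟨M ⊔ Submodule.span F {(Tm F F 1 ζ ^ k) (Finsupp.single 0 1)},
        h1.sup (Submodule.fg_span_singleton _), fun x => ?_⟩
      obtain ⟨a, ha, y, rfl⟩ := h2 x
      obtain ⟨κ, y', rfl⟩ := decomp hζ y
      refine ⟨_, Submodule.add_mem_sup ha (Submodule.smul_mem _ κ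
        (Submodule.mem_span_singleton_self _)), y', ?_⟩
      rw [map_add, map_smul, pow_succ, Module.End.mul_apply, add_assoc]
  obtain ⟨M, h1, h2⟩ := key n
  refine ⟨?_⟩
  have : (⊤ : Submodule F (Aq F ζ n)) = M.map (pk _ n) := by
    refine top_unique (fun e _ => ?_) |>.symm
    obtain ⟨x, rfl⟩ := (LinearMap.range (Tm F F 1 ζ ^ n)).mkQ_surjective e
    obtain ⟨a, ha, y, rfl⟩ := h2 x
    exact ⟨a, ha, by rw [map_add, pk_eq_zero.2 ⟨y, rfl⟩, add_zero]⟩
  rw [this]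
  exact h1.map _

theorem RPM.soc_mul (ζ : F) {n : ℕ} (hn : 0 < n) :
    Tm F F 1 ζ * Tm F F 1 ζ ^ (n - 1) = Tm F F 1 ζ ^ n := by
  rw [← pow_succ', Nat.sub_add_cancel hn]

theorem soc_ne {ζ : F} (hζ : ζ ≠ 0) {n : ℕ} (hn : 0 < n) : soc F ζ n ≠ 0 :=
  line_ne one_pos hζ (soc_mul ζ hn) ((Commute.refl _).pow_left _)

theorem tq_soc (ζ : F) {n : ℕ} (hn : 0 < n) : (tq F ζ n).1 (soc F ζ n) = ζ • soc F ζ n :=
  line_eig (soc_mul ζ hn) _

theorem tq_nil (ζ : F) (n : ℕ) : IsNilpotent ((tq F ζ n).1 - ζ • 1 : Module.End F _) := by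
  have h := barE_nil (Tm F F 1 ζ) n
  rw [bar_Tm, pow_one] at h
  exact ⟨n, h⟩

theorem tq_bij {ζ : F} (hζ : ζ ≠ 0) (n : ℕ) {j : ℤ} (hj : ζ ^ j ≠ 1) :
    Function.Bijective ((tq F ζ n ^ j).1 - 1 : Module.End F _) := by
  rw [tq_zpow]
  refine bij_of_pow hζ ?_ (a := 1) (by simp) hj n
  show _ * _ = _ * _
  rw [← shp_add, ← shp_add, add_comm]

theorem RPM.pow_abs {s : F} {j : ℤ} (h : s ^ j = 1) : s ^ j.natAbs = 1 := by
  rcases Int.natAbs_eq j with hj | hj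
  · rwa [hj, zpow_natCast] at h
  · rwa [hj, zpow_neg, zpow_natCast, inv_eq_one] at h

theorem tq_ker {ζ : F} (hζ : ζ ≠ 0) {n : ℕ} (hn : 0 < n) {j : ℤ} (hj : ζ ^ j = 1)
    (hj' : (j : F) ≠ 0) (e : Aq F ζ n) (he : (tq F ζ n ^ j).1 e = e) :
    ∃ κ : F, e = κ • soc F ζ n := by
  rw [tq_zpow] at he
  refine line_all hζ (soc_mul ζ hn) ((Commute.refl _).pow_left _) e
    (eig_of_fix (pow_abs hj) ?_ (fix_abs he))
  rw [pow_one]
  refine ((irreducible_X_sub_C ζ).coprime_iff_not_dvd.2 fun hd => ?_).symm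
  have h1 : (qq ζ j.natAbs).eval ζ = 0 := dvd_iff_isRoot.1 hd
  rw [qq_eval] at h1
  refine mul_ne_zero (fun h2 => hj' ?_) (pow_ne_zero _ hζ) h1
  rcases Int.natAbs_eq j with h3 | h3
  · rw [h3, Int.cast_natCast, h2]
  · rw [h3, Int.cast_neg, Int.cast_natCast, h2, neg_zero]

end Quot

/-- The fixed space of `g ^ w` on `ℂ[g^±] / T ^ m` is a line when `z₀ = s₀ ^ p`, `s₀ ^ w = 1`. -/
theorem ker_shp_sub_one {p m : ℕ} (hp : 0 < p) (hm : 0 < m) {w : ℤ} (hw : w ≠ 0)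
    (hc : IsCoprime w (p : ℤ)) {s₀ : ℂ} (hs : s₀ ^ w = 1) :
    ∃ e₀ : Qk (Tm ℂ ℂ p (s₀ ^ p)) m, e₀ ≠ 0 ∧ barE _ m (shp ℂ ℂ w) e₀ = e₀ ∧
      ∀ e, barE _ m (shp ℂ ℂ w) e = e → ∃ κ : ℂ, e = κ • e₀ := by
  have h0 : s₀ ≠ 0 := by
    rintro rfl
    rw [zero_zpow _ hw] at hs
    exact zero_ne_one hs
  obtain ⟨e₀, h1, h2, h3⟩ := line hp h0 hm
  refine ⟨e₀, h1, by rw [eig_zpow h0 h2, hs, one_smul],
    fun e he => h3 e (eig_of_fix (pow_abs hs) ?_ (fix_abs he))⟩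
  refine (Polynomial.isCoprime_iff_aeval_ne_zero_of_isAlgClosed ℂ ℂ _ _).2 fun r => ?_
  by_contra hn
  push Not at hn
  obtain ⟨k1, k2⟩ := hn
  have k3 := congrArg (aeval r) (qq_mul s₀ w.natAbs)
  rw [map_mul, k1, zero_mul] at k3
  simp only [map_sub, map_pow, aeval_X, aeval_C, Algebra.algebraMap_self, RingHom.id_apply]
    at k2 k3
  have k4 : (r / s₀) ^ p = 1 := by
    rw [div_pow, sub_eq_zero.1 k2, div_self (pow_ne_zero _ h0)]
  have k5 : (r / s₀) ^ w.natAbs = 1 := by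
    rw [div_pow, sub_eq_zero.1 k3.symm, div_self (pow_ne_zero _ h0)]
  have k6 : Nat.gcd w.natAbs p = 1 := Int.isCoprime_iff_gcd_eq_one.1 hc
  have k7 : r = s₀ := by
    have := (pow_gcd_eq_one.2 ⟨k5, k4⟩ : (r / s₀) ^ Nat.gcd w.natAbs p = 1)
    rwa [k6, pow_one, div_eq_one_iff_eq h0] at this
  rw [k7, coe_aeval_eq_eval, qq_eval] at k1
  exact mul_ne_zero (Nat.cast_ne_zero.2 (Int.natAbs_ne_zero.2 hw)) (pow_ne_zero _ h0) k1

/-- The kernel of `(g ^ c - s₁) (g ^ c - s₂)`, `c = ± 1`, is a line when only `s₁` lies over `z₀`. -/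
theorem ker_quad {p m : ℕ} (hp : 0 < p) (hm : 0 < m) {c : ℤ} (hc : c = 1 ∨ c = -1) {s₁ s₂ z₀ : ℂ}
    (h₁ : s₁ ≠ 0) (h₂ : s₂ ≠ 0) (hz : s₁ ^ (c * p) = z₀) (hz' : s₂ ^ (c * p) ≠ z₀) :
    ∃ e₀ : Qk (Tm ℂ ℂ p z₀) m, e₀ ≠ 0 ∧ barE _ m (shp ℂ ℂ c) e₀ = s₁ • e₀ ∧
      ∀ e, (barE _ m (shp ℂ ℂ c) - s₁ • 1 : Module.End ℂ _)
        ((barE _ m (shp ℂ ℂ c) - s₂ • 1 : Module.End ℂ _) e) = 0 → ∃ κ : ℂ, e = κ • e₀ := by
  rw [zpow_mul, zpow_natCast] at hz hz'
  subst hz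
  have hcc : c * c = 1 := by rcases hc with rfl | rfl <;> rfl
  have key : ∀ {s : ℂ}, s ≠ 0 → ∀ e : Qk (Tm ℂ ℂ p ((s₁ ^ c) ^ p)) m,
      barE _ m (shp ℂ ℂ c) e = s • e → barE _ m (shp ℂ ℂ 1) e = s ^ c • e := by
    intro s hs e he
    rcases hc with rfl | rfl
    · rwa [zpow_one s]
    · rw [zpow_neg_one s]
      have := eig_neg hs he
      rwa [neg_neg] at this
  obtain ⟨e₀, g1, g2, g3⟩ := line hp (zpow_ne_zero c h₁) hm
  refine ⟨e₀, g1, by rw [eig_zpow (zpow_ne_zero c h₁) g2, ← zpow_mul, hcc, zpow_one],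
    fun e he => g3 e (key h₁ e ?_)⟩
  have h3 : barE _ m (shp ℂ ℂ c) e - s₁ • e = 0 := by
    refine eig_zero hz' (key h₂ _ ?_)
    simp only [LinearMap.sub_apply, LinearMap.smul_apply, Module.End.one_apply, map_sub,
      map_smul] at he ⊢
    rw [← sub_eq_zero, ← he]
  exact sub_eq_zero.1 h3

end Pool.Agent.HH
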