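import Pool.Agent.P.MP_c8dc46_gt.MVc
import Pool.Agent.P.MP_c8dc46_gt.PM

/-!
Operators that kill cohomology: exact sequences, Nakayama over the Laurent polynomials, unipotent
systems, reduction modulo powers of `T`.
-/

open Set Topology Polynomial

namespace Pool.Agent.HH

variable {Y : Type} [TopologicalSpace Y]

section Ses

variable {R E E' E'' : Type} [CommRing R] [AddCommGroup E] [Module R E] [AddCommGroup E']
  [Module R E'] [AddCommGroup E''] [Module R E'']

theorem kills_one_iff {τ : Y → Y → Module.End R E} {n : ℕ} {X : Set Y} :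
    Kills τ n X 1 ↔ Acyc τ n X := Iff.rfl

namespace RTA

omit [TopologicalSpace Y] in
theorem cm_comm {τ : Y → Y → Module.End R E} {L : Module.End R E}
    (hL : ∀ x y, Commute L (τ x y)) (φ : List Y → E) : cm L (dT τ φ) = dT τ (cm L φ) :=
  cm_dT L τ τ (fun x y e => LinearMap.congr_fun (hL x y).eq e) φ

theorem N_congr {n : ℕ} {S : Set Y} {a b : List Y → E} (h : a ∈ N R E n S) (e : ∀ l, b l = a l) :
    b ∈ N R E n S := by
  rwa [show b = a from funext e]

end RTA

open RTA

theorem Kills.mul_left {τ : Y → Y → Module.End R E} {n : ℕ} {X : Set Y} {L : Module.End R E}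
    (h : Kills τ n X L) {L' : Module.End R E} (hL : ∀ x y, Commute L' (τ x y)) :
    Kills τ n X (L' * L) := by
  intro a ha
  obtain ⟨φ, hφ⟩ := h a ha
  refine ⟨cm L' φ, ?_⟩
  have := cm_mem_N L' hφ
  rw [map_sub, cm_comm hL] at this
  exact this

theorem Kills.ses {τ : Y → Y → Module.End R E} {τ' : Y → Y → Module.End R E'}
    {τ'' : Y → Y → Module.End R E''} {n : ℕ} {X : Set Y} (hτ : IsCoc τ X) (i : E' →ₗ[R] E)
    (π : E →ₗ[R] E'') (hi : Function.Injective i) (hπ : Function.Surjective π)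
    (hk : LinearMap.ker π ≤ LinearMap.range i) (hτi : ∀ x y e, i (τ' x y e) = τ x y (i e))
    (hτπ : ∀ x y e, π (τ x y e) = τ'' x y (π e)) {L₁ L₂ : Module.End R E}
    {L₁' : Module.End R E'} {L₂'' : Module.End R E''} (h₁ : ∀ e, i (L₁' e) = L₁ (i e))
    (h₂ : ∀ e, π (L₂ e) = L₂'' (π e)) (c₁ : ∀ x y, Commute L₁ (τ x y))
    (c₂ : ∀ x y, Commute L₂ (τ x y)) (k₁ : Kills τ' n X L₁') (k₂ : Kills τ'' n X L₂'') :
    Kills τ n X (L₁ * L₂) := by
  intro a ha
  obtain ⟨φ'', h''⟩ := k₂ (cm π a) (by rw [← cm_dT π τ τ'' hτπ]; exact cm_mem_N π ha)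
  obtain ⟨φ, rfl, -⟩ := exists_cm_lift π hπ φ''
  obtain ⟨ψ, -, -, hψ⟩ := exists_div i π hk (cm L₂ a - dT τ φ)
  have hb := hψ n X (by
    rw [map_sub, cm_dT π τ τ'' hτπ]
    exact N_congr h'' fun l => by simp [cm, h₂])
  have hc : dT τ' ψ ∈ N R E' (n + 1) X := by
    apply mem_N_of_cm hi
    rw [cm_dT i τ' τ hτi]
    have h1 := dT_mem_N τ hb
    have h2 := cm_mem_N L₂ ha
    rw [cm_comm c₂] at h2
    have h3 := dT_dT_mem_N hτ (n + 1) φ
    have := Submodule.sub_mem _ (Submodule.sub_mem _ h2 h3) h1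
    simp only [map_sub] at this
    exact N_congr this fun l => by simp
  obtain ⟨χ, hχ⟩ := k₁ ψ hc
  refine ⟨cm i χ + cm L₁ φ, ?_⟩
  have h4 := cm_mem_N i hχ
  rw [map_sub, cm_dT i τ' τ hτi] at h4
  have h5 := cm_mem_N L₁ hb
  rw [map_sub, map_sub, cm_comm c₁] at h5
  rw [map_add]
  exact N_congr (Submodule.add_mem _ h4 h5) fun l => by simp [cm, h₁]; abel

theorem Kills.retract {τ : Y → Y → Module.End R E} {τ' : Y → Y → Module.End R E'} {n : ℕ}
    {X : Set Y} (i : E' →ₗ[R] E) (π : E →ₗ[R] E') (h : ∀ e, π (i e) = e)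
    (hτi : ∀ x y e, i (τ' x y e) = τ x y (i e)) (hτπ : ∀ x y e, π (τ x y e) = τ' x y (π e))
    {L : Module.End R E} {L' : Module.End R E'} (hL : ∀ e, π (L e) = L' (π e))
    (k : Kills τ n X L) : Kills τ' n X L' := by
  intro a ha
  obtain ⟨φ, hφ⟩ := k (cm i a) (by rw [← cm_dT i τ' τ hτi]; exact cm_mem_N i ha)
  refine ⟨cm π φ, ?_⟩
  have := cm_mem_N π hφ
  rw [map_sub, cm_dT π τ τ' hτπ] at this
  exact N_congr this fun l => by simp [cm, hL, h]

theorem Kills.slice {τ : Y → Y → Module.End R E} {n : ℕ} {M : Set Y} {L : Module.End R E}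
    (k : Kills (pb Prod.fst τ) n (M ×ˢ (univ : Set ℝ)) L) : Kills τ n M L := by
  intro a ha
  have h1 := k (pull R E Prod.fst a) (by
    rw [← pull_dT]
    exact pull_mem_N (fun p _ => continuous_fst.continuousAt) (fun p hp => hp.1) ha)
  have h2 := h1.pull (j := fun y : Y => (y, (0 : ℝ))) (S' := M)
    (fun p _ => by fun_prop) (fun p hp => ⟨hp, trivial⟩)
  have e : pull R E (fun y : Y => (y, (0 : ℝ))) (cm L (pull R E Prod.fst a)) = cm L a := by
    funext l
    simp [pull, cm, Function.comp_def]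
  rw [e] at h2
  exact h2

namespace RTA

theorem kills_sum {ι : Type} [Fintype ι] {τ : Y → Y → Module.End R E}
    {τ' : Y → Y → Module.End R E'} {n : ℕ} {X : Set Y} (i : ι → E' →ₗ[R] E) (π : ι → E →ₗ[R] E')
    (h : ∀ e, ∑ j, i j (π j e) = e) (hτi : ∀ j x y e, i j (τ' x y e) = τ x y (i j e))
    (hτπ : ∀ j x y e, π j (τ x y e) = τ' x y (π j e)) {L : Module.End R E}
    {L' : Module.End R E'} (hL : ∀ j e, i j (L' e) = L (i j e)) (k : Kills τ' n X L') :
    Kills τ n X L := by
  intro a ha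
  choose φ hφ using fun j => k (cm (π j) a)
    (by rw [← cm_dT (π j) τ τ' (hτπ j)]; exact cm_mem_N _ ha)
  refine ⟨∑ j, cm (i j) (φ j), ?_⟩
  have := Submodule.sum_mem _ fun j (_ : j ∈ Finset.univ) => cm_mem_N (i j) (hφ j)
  simp only [map_sub, fun j => cm_dT (i j) τ' τ (hτi j), Finset.sum_sub_distrib] at this
  rw [map_sum]
  refine N_congr this fun l => ?_
  simp only [Pi.sub_apply, Finset.sum_apply]
  congr 1
  simp only [cm, LinearMap.coe_mk, AddHom.coe_mk, hL]
  rw [← map_sum, h]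

/-- Nakayama in cohomology. -/
theorem nak {τ : Y → Y → Module.End R E} {n : ℕ} {X : Set Y} (hf : FGc τ n X) (s : R)
    (H : ∀ a, dT τ a ∈ N R E (n + 1) X →
      ∃ ψ, dT τ ψ ∈ N R E (n + 1) X ∧ Exa τ n X (s • a - s • s • ψ)) :
    ∃ r, r - 1 ∈ Ideal.span {s} ∧ ∀ a, dT τ a ∈ N R E (n + 1) X → Exa τ n X ((r * s) • a) := by
  let B : Submodule R (List Y → E) :=
    { carrier := {a | Exa τ n X a}
      add_mem' := Exa.add
      zero_mem' := Exa.of_mem_N (Submodule.zero_mem _)
      smul_mem' := fun c _ h => h.smul c }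
  obtain ⟨M, hM, hMZ, hZ⟩ := hf
  let f : (List Y → E) →ₗ[R] (List Y → E) ⧸ B := s • B.mkQ
  have hmem : ∀ a, dT τ a ∈ N R E (n + 1) X → f a ∈ M.map f := by
    intro a ha
    obtain ⟨b, hb, hab⟩ := hZ a ha
    refine ⟨b, hb, ?_⟩
    have : B.mkQ b = B.mkQ a := ((Submodule.Quotient.eq B).2 hab).symm
    simp only [f, LinearMap.smul_apply, this]
  obtain ⟨r, hr, hr0⟩ := Submodule.exists_sub_one_mem_and_smul_eq_zero_of_fg_of_le_smul
    (Ideal.span {s}) (M.map f) (hM.map f) (by
      rintro _ ⟨a, ha, rfl⟩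
      obtain ⟨ψ, hψ, he⟩ := H a (hMZ a ha)
      have : B.mkQ (s • a) = B.mkQ (s • s • ψ) := (Submodule.Quotient.eq B).2 he
      have e : f a = s • f ψ := by simpa only [f, LinearMap.smul_apply, map_smul] using this
      rw [e]
      exact Submodule.smul_mem_smul (Ideal.mem_span_singleton_self s) (hmem ψ hψ))
  refine ⟨r, hr, fun a ha => ?_⟩
  have := hr0 _ (hmem a ha)
  simp only [f, LinearMap.smul_apply, smul_smul, ← map_smul] at this
  exact (Submodule.Quotient.mk_eq_zero B).1 this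

theorem aeval_comm {F : Type} [Field F] {G G' : Type} [AddCommGroup G] [Module F G]
    [AddCommGroup G'] [Module F G'] (f : G →ₗ[F] G') {A : Module.End F G} {B : Module.End F G'}
    (h : ∀ e, f (A e) = B (f e)) (q : F[X]) (e : G) : f (aeval A q e) = aeval B q (f e) := by
  induction q using Polynomial.induction_on generalizing e with
  | C a => simp [Algebra.algebraMap_eq_smul_one]
  | add p q hp hq => simp [hp, hq]
  | monomial k a ih =>
    simp only [pow_succ, ← mul_assoc, map_mul, aeval_X, Module.End.mul_apply] at ih ⊢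
    rw [ih, h]

end RTA

end Ses

namespace RTA

section Laurent

open LaurentPolynomial

variable {F : Type} [Field F]

/-- The augmentation. -/
noncomputable def ep (F : Type) [Field F] : F[T;T⁻¹] →+* F :=
  LaurentPolynomial.eval₂ (RingHom.id F) 1

theorem ep_T (k : ℤ) : ep F (T k) = 1 := by simp [ep, eval₂_T]

theorem ep_C (c : F) : ep F (LaurentPolynomial.C c) = c := by simp [ep]

theorem T_sub_ne : (T 1 - 1 : F[T;T⁻¹]) ≠ 0 := by
  have : (T 1 - 1 : F[T;T⁻¹]) = toLaurent (X - Polynomial.C 1) := by simp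
  rw [this, toLaurent_ne_zero]
  exact X_sub_C_ne_zero 1

theorem exists_dv : ∃ dv : F[T;T⁻¹] → F[T;T⁻¹], ∀ x, ep F x = 0 → x = (T 1 - 1) * dv x := by
  have : ∀ x : F[T;T⁻¹], ∃ y, ep F x = 0 → x = (T 1 - 1) * y := by
    intro x
    obtain ⟨n, q, hq⟩ := exists_T_pow x
    by_cases h : ep F x = 0
    · have h1 : q.IsRoot 1 := by
        have := congrArg (ep F) hq
        rw [map_mul, h, zero_mul, ep, eval₂_toLaurent] at this
        simpa using this
      obtain ⟨q', rfl⟩ := dvd_iff_isRoot.2 h1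
      refine ⟨toLaurent q' * T (-n), fun _ => ?_⟩
      have e : x = x * T n * T (-n) := by rw [mul_T_assoc]; simp
      rw [e, ← hq]
      simp [mul_assoc]
    · exact ⟨0, fun h' => absurd h' h⟩
  choose dv h using this
  exact ⟨dv, h⟩

/-- The system with coefficients in the Laurent polynomials. -/
noncomputable def tL (F : Type) [Field F] (h : Y → Y → ℤ) :
    Y → Y → Module.End F[T;T⁻¹] F[T;T⁻¹] := fun x y => (T (h x y) : F[T;T⁻¹]) • 1

theorem isCoc_tL {h : Y → Y → ℤ} {X : Set Y} (hh : IsCocA h X) : IsCoc (tL F h) X := by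
  intro p hp
  obtain ⟨U, hU, H⟩ := hh p hp
  refine ⟨U, hU, fun x hx => ⟨?_, fun y hy z hz => ?_⟩⟩
  · have : h x x = 0 := by simpa using H x hx x hx x hx
    simp [tL, this]
  · simp only [tL, ← H x hx y hy z hz, T_add, smul_mul_smul_comm, mul_one]

omit [TopologicalSpace Y] in
theorem ep_dT (h : Y → Y → ℤ) (a : List Y → F[T;T⁻¹]) :
    (fun l => ep F (dT (tL F h) a l)) = dT (triv F F Y) (fun l => ep F (a l)) :=
  add_dT (ep F).toAddMonoidHom _ _ (fun x y e => by simp [tL, triv, ep_T]) a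

theorem mem_of_smul {n : ℕ} {X : Set Y} {a : List Y → F[T;T⁻¹]}
    (h : (T 1 - 1 : F[T;T⁻¹]) • a ∈ N F[T;T⁻¹] _ n X) : a ∈ N F[T;T⁻¹] _ n X :=
  map_mem_N h fun l hl => by simpa [T_sub_ne] using hl

theorem stepA {h : Y → Y → ℤ} {X : Set Y} (hh : IsCocA h X) {n : ℕ} {a : List Y → F[T;T⁻¹]}
    (ha : dT (tL F h) a ∈ N F[T;T⁻¹] _ (n + 1) X)
    (he : Exa (triv F F Y) n X fun l => ep F (a l)) :
    ∃ ψ, dT (tL F h) ψ ∈ N F[T;T⁻¹] _ (n + 1) X ∧
      Exa (tL F h) n X (a - (T 1 - 1 : F[T;T⁻¹]) • ψ) := by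
  obtain ⟨dv, hdv⟩ := exists_dv (F := F)
  obtain ⟨φ, hφ⟩ := he
  let φ' : List Y → F[T;T⁻¹] := fun l => LaurentPolynomial.C (φ l)
  have e : ∀ l, ep F (dT (tL F h) φ' l) = dT (triv F F Y) φ l := fun l => by
    have := congrFun (ep_dT h φ') l
    simpa only [φ', ep_C] using this
  let ψ : List Y → F[T;T⁻¹] := fun l => dv (a l - dT (tL F h) φ' l)
  have hb : a - (T 1 - 1 : F[T;T⁻¹]) • ψ - dT (tL F h) φ' ∈ N F[T;T⁻¹] _ n X :=
    map_mem_N hφ fun l hl => by
      have := hdv (a l - dT (tL F h) φ' l) (by rw [map_sub, e]; exact hl)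
      simp only [Pi.sub_apply, Pi.smul_apply, smul_eq_mul, ψ]
      linear_combination this
  refine ⟨ψ, mem_of_smul ?_, φ', hb⟩
  have := Submodule.sub_mem _ (Submodule.sub_mem _ ha (dT_dT_mem_N (isCoc_tL hh) _ φ'))
    (dT_mem_N (tL F h) hb)
  simp only [map_sub, map_smul] at this
  exact N_congr this fun l => by simp

theorem stepB {h : Y4 → Y4 → ℤ} {X : Set Y4} (hb : Base X h) {n : ℕ} (h2 : 2 ≤ n) (h4 : n ≤ 4)
    (a : List Y4 → F[T;T⁻¹]) (ha : dT (tL F h) a ∈ N F[T;T⁻¹] _ (n + 1) X) :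
    ∃ ψ, dT (tL F h) ψ ∈ N F[T;T⁻¹] _ (n + 1) X ∧ Exa (tL F h) n X
      ((T 1 - 1 : F[T;T⁻¹]) • a - (T 1 - 1 : F[T;T⁻¹]) • (T 1 - 1 : F[T;T⁻¹]) • ψ) := by
  have hc : dT (triv F F Y4) (fun l => ep F (a l)) ∈ N F F (n + 1) X := by
    rw [← ep_dT h]
    exact map_mem_N ha fun l hl => by simp [hl]
  obtain rfl | h3 : n = 2 ∨ (n = 3 ∨ n = 4) := by omega
  · obtain ⟨dv, hdv⟩ := exists_dv (F := F)
    have hD : ∀ k : ℤ, (T 1 - 1) * dv (T k - 1) = T k - 1 := fun k =>
      (hdv _ (by simp [ep_T])).symm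
    have hs : ∀ k : ℤ, ep F (dv (T (k + 1) - 1)) = ep F (dv (T k - 1)) + 1 := fun k => by
      have : dv (T (k + 1) - 1) = dv (T k - 1) + T k := by
        apply mul_left_cancel₀ T_sub_ne
        rw [mul_add, hD, hD, T_add]
        ring
      rw [this, map_add, ep_T]
    have hk : ∀ k : ℤ, ep F (dv (T k - 1)) = k := fun k => by
      induction k using Int.induction_on with
      | zero =>
        have : dv (T 0 - 1) = 0 := mul_left_cancel₀ T_sub_ne (by rw [hD]; simp)
        rw [this]; simp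
      | succ k ih => rw [hs, ih]; simp
      | pred k ih =>
        have := hs (-k - 1)
        rw [sub_add_cancel, ih] at this
        push_cast at this ⊢
        linear_combination -this
    let x₀ : List Y4 → F[T;T⁻¹] := c1 fun p q => dv (T (h p q) - 1)
    have hx : (T 1 - 1 : F[T;T⁻¹]) • x₀ - dT (tL F h) (c0 fun _ => 1) ∈ N F[T;T⁻¹] _ 2 X :=
      mem_N_two.2 fun p _ => ⟨univ, Filter.univ_mem, fun x _ y _ => by
        simp [dT_two, x₀, c0, c1, tL, hD]⟩
    have hx' : dT (tL F h) x₀ ∈ N F[T;T⁻¹] _ 3 X := by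
      apply mem_of_smul
      have := Submodule.add_mem _ (dT_mem_N (tL F h) hx)
        (dT_dT_mem_N (isCoc_tL (F := F) hb.coc) 3 (c0 fun _ => 1))
      simp only [map_sub, map_smul] at this
      exact N_congr this fun l => by simp
    obtain ⟨c, hc'⟩ := hb.h1 F _ ((isCocA_f2 (R := F)).2 hc)
    have he := ((cohA_iff (R := F)).1 hc').add
      (Exa.of_mem_N (sub_c1_f2_mem_N (fun l => ep F (a l)) X))
    obtain ⟨ψ, hψ, hE⟩ := stepA hb.coc (a := a - (LaurentPolynomial.C c : F[T;T⁻¹]) • x₀) (n := 2)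
      (by rw [map_sub, map_smul]; exact Submodule.sub_mem _ ha (Submodule.smul_mem _ _ hx')) (by
        convert he using 1
        funext l
        have : ep F (x₀ l) * c = c1 (fun p q => h p q • c) l := by
          match l with
          | [] | [_] | _ :: _ :: _ :: _ => simp [x₀, c1]
          | [p, q] => simp [x₀, c1, hk]
        simp only [Pi.sub_apply, Pi.add_apply, Pi.smul_apply, smul_eq_mul, map_sub, map_mul, ep_C,
          ← this]
        ring)
    refine ⟨ψ, hψ, ?_⟩
    have := (hE.smul (T 1 - 1)).add (Exa.smul (LaurentPolynomial.C c) ⟨_, hx⟩)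
    convert this using 1
    module
  · obtain ⟨ψ, hψ, hE⟩ := stepA hb.coc ha (by
      rcases h3 with rfl | rfl
      exacts [hb.h2 F _ hc, hb.h3 F _ hc])
    exact ⟨ψ, hψ, by simpa only [smul_sub] using hE.smul (T 1 - 1)⟩

theorem coeff_T_mul (k : ℤ) (x : F[T;T⁻¹]) : (T k * x).coeff = shp F F k x.coeff := by
  induction x using LaurentPolynomial.induction_on' with
  | add p q hp hq => simp only [mul_add, AddMonoidAlgebra.coeff_add, hp, hq, map_add]
  | C_mul_T n a =>
    rw [mul_left_comm, ← T_add, ← single_eq_C_mul_T, ← single_eq_C_mul_T,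
      AddMonoidAlgebra.coeff_single, AddMonoidAlgebra.coeff_single, shp_single, add_comm]

theorem coeff_poly_mul (q : F[X]) (x : F[T;T⁻¹]) :
    (toLaurent q * x).coeff = aeval (shp F F 1) q x.coeff := by
  induction q using Polynomial.induction_on generalizing x with
  | C a => simp [← LaurentPolynomial.smul_eq_C_mul, Algebra.algebraMap_eq_smul_one]
  | add p q hp hq => simp [add_mul, hp, hq]
  | monomial k a ih =>
    simp only [pow_succ, ← mul_assoc, map_mul, aeval_X, Module.End.mul_apply, toLaurent_X] at ih ⊢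
    rw [mul_assoc, ih, coeff_T_mul]

theorem kills_n {h : Y4 → Y4 → ℤ} {X : Set Y4} (hb : Base X h) {n : ℕ} (h2 : 2 ≤ n) (h4 : n ≤ 4) :
    ∃ q : F[X], q ≠ 0 ∧ Kills (zt (sh F F) h) n X (aeval (shp F F 1) q) := by
  haveI : IsNoetherianRing F[T;T⁻¹] :=
    IsLocalization.isNoetherianRing (Submonoid.powers (Polynomial.X : F[X])) _ inferInstance
  obtain ⟨r, hr, H⟩ := nak (fgc_of_tame hb.tame (isCoc_tL (F := F) hb.coc) (n := n) (by omega))
    (T 1 - 1) (stepB hb h2 h4)
  have hr0 : r ≠ 0 := by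
    rintro rfl
    obtain ⟨c, hc⟩ := Ideal.mem_span_singleton'.1 hr
    have := congrArg (ep F) hc
    simp [ep_T] at this
  obtain ⟨k, q, hq⟩ := exists_T_pow (r * (T 1 - 1))
  have e : ∀ φ : List Y4 → F[T;T⁻¹], (fun l => (dT (tL F h) φ l).coeff) =
      dT (zt (sh F F) h) (fun l => (φ l).coeff) :=
    add_dT (AddMonoidAlgebra.coeffAddEquiv (R := F) (M := ℤ)).toAddMonoidHom (tL F h)
      (zt (sh F F) h) fun x y e => coeff_T_mul _ e
  refine ⟨q, ?_, fun a ha => ?_⟩
  · rw [← toLaurent_ne_zero, hq]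
    exact mul_ne_zero (mul_ne_zero hr0 T_sub_ne) (isUnit_T _).ne_zero
  · obtain ⟨φ, hφ⟩ := (H (fun l => .ofCoeff (a l)) (map_mem_N ha fun l hl => by
      apply AddMonoidAlgebra.coeff_injective
      rw [congrFun (e _) l]
      simpa using hl)).smul (T k)
    refine ⟨fun l => (φ l).coeff, map_mem_N hφ fun l hl => ?_⟩
    have h1 : dT (tL F h) φ l = toLaurent q * .ofCoeff (a l) := by
      simp only [Pi.sub_apply, Pi.smul_apply, smul_eq_mul] at hl
      rw [hq]
      linear_combination -hl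
    rw [Pi.sub_apply, ← congrFun (e φ) l, h1, coeff_poly_mul]
    simp [cm]

end Laurent

theorem commute_aeval {F G : Type} [Field F] [AddCommGroup G] [Module F G] {z L : Module.End F G}
    (h : Commute L z) (q : F[X]) : Commute (aeval z q) L := by
  ext e
  exact (aeval_comm L (fun e => LinearMap.congr_fun h.eq e) q e).symm

end RTA

open RTA

theorem kills_base (F : Type) [Field F] {X : Set Y4} {h : Y4 → Y4 → ℤ} (hb : Base X h) :
    ∃ q : F[X], q ≠ 0 ∧ ∀ n, 2 ≤ n → n ≤ 4 →
      Kills (zt (sh F F) h) n X (aeval (shp F F 1) q) := by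
  obtain ⟨q₂, n₂, k₂⟩ := kills_n (F := F) hb (n := 2) le_rfl (by omega)
  obtain ⟨q₃, n₃, k₃⟩ := kills_n (F := F) hb (n := 3) (by omega) (by omega)
  obtain ⟨q₄, n₄, k₄⟩ := kills_n (F := F) hb (n := 4) (by omega) le_rfl
  have c : ∀ (q : F[X]) x y, Commute (aeval (shp F F 1) q) (zt (sh F F) h x y) := fun q x y =>
    commute_aeval (by rw [zt_sh, Commute, SemiconjBy, ← shp_add, ← shp_add, add_comm]) q
  refine ⟨q₂ * q₃ * q₄, mul_ne_zero (mul_ne_zero n₂ n₃) n₄, fun n h2 h4 => ?_⟩
  obtain rfl | rfl | rfl : n = 2 ∨ n = 3 ∨ n = 4 := by omega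
  · rw [show q₂ * q₃ * q₄ = q₃ * q₄ * q₂ by ring, map_mul]
    exact k₂.mul_left (c _)
  · rw [show q₂ * q₃ * q₄ = q₂ * q₄ * q₃ by ring, map_mul]
    exact k₃.mul_left (c _)
  · rw [map_mul]
    exact k₄.mul_left (c _)

/-- Finitely many copies (coordinates in a basis of `W`). -/
theorem Kills.copies {F W : Type} [Field F] [AddCommGroup W] [Module F W] [FiniteDimensional F W]
    {h : Y → Y → ℤ} {n : ℕ} {X : Set Y} {q : F[X]}
    (k : Kills (zt (sh F F) h) n X (aeval (shp F F 1) q)) :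
    Kills (zt (sh F W) h) n X (aeval (shp F W 1) q) := by
  let b := Module.finBasis F W
  have hi : ∀ j d (e : ℤ →₀ F), Finsupp.mapRange.linearMap (LinearMap.toSpanSingleton F W (b j))
      (shp F F d e) = shp F W d
        (Finsupp.mapRange.linearMap (LinearMap.toSpanSingleton F W (b j)) e) := by
    intro j d e
    ext x
    simp [shp_apply]
  refine kills_sum (fun j => Finsupp.mapRange.linearMap (LinearMap.toSpanSingleton F W (b j)))
    (fun j => Finsupp.mapRange.linearMap (b.coord j)) (fun e => ?_) (fun j x y => hi j _)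
    (fun j x y e => ?_) (fun j => aeval_comm _ (hi j 1) q) k
  · ext x
    simp [Finsupp.finsetSum_apply]
  · ext z
    simp [zt_sh, shp_apply]

theorem Kills.ext_field {F F' : Type} [Field F] [Field F'] [Algebra F F'] [FiniteDimensional F F']
    {h : Y → Y → ℤ} {n : ℕ} {X : Set Y} {q : F[X]}
    (k : Kills (zt (sh F F) h) n X (aeval (shp F F 1) q)) :
    Kills (zt (sh F' F') h) n X (aeval (shp F' F' 1) (q.map (algebraMap F F'))) := by
  have hs : ∀ d (e : ℤ →₀ F'), shp F F' d e = shp F' F' d e := fun d e => by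
    ext x
    simp [shp_apply]
  have e : ∀ φ, dT (zt (sh F F') h) φ = dT (zt (sh F' F') h) φ :=
    add_dT (AddMonoidHom.id _) _ _ fun x y e => hs _ e
  have hq : ∀ (q : F[X]) (e : ℤ →₀ F'), aeval (shp F' F' 1) (q.map (algebraMap F F')) e =
      aeval (shp F F' 1) q e := by
    intro q
    induction q using Polynomial.induction_on with
    | C a => intro e; simp [Algebra.algebraMap_eq_smul_one]
    | add p q hp hq =>
      intro e
      simp only [Polynomial.map_add, map_add, LinearMap.add_apply, hp, hq]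
    | monomial k a ih =>
      intro e
      simp only [pow_succ, ← mul_assoc, map_mul, aeval_X, Module.End.mul_apply, Polynomial.map_mul,
        map_X] at ih ⊢
      rw [ih, hs]
  intro a ha
  obtain ⟨φ, hφ⟩ := k.copies (W := F') a (by rw [e]; exact map_mem_N ha fun _ h => h)
  refine ⟨φ, map_mem_N hφ fun l hl => ?_⟩
  rw [← hl, e]
  exact congrArg (· - _) (hq q (a l))

theorem acyc_unip {F E : Type} [Field F] [AddCommGroup E] [Module F E] [FiniteDimensional F E]
    (t : (Module.End F E)ˣ) (ht : IsNilpotent (t.1 - 1)) {h : Y → Y → ℤ} {X : Set Y}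
    (hh : IsCocA h X) {n : ℕ} (ha : Acyc (triv F F Y) n X) : Acyc (zt t h) n X := by
  have hE : Acyc (triv F E Y) n X :=
    kills_sum (L := 1) (L' := 1) (fun j => LinearMap.toSpanSingleton F E (Module.finBasis F E j))
      (fun j => (Module.finBasis F E).coord j) (fun e => by simp) (fun _ _ _ _ => rfl)
      (fun _ _ _ _ => rfl) (fun _ _ => rfl) ha
  let V : ℕ → Submodule F E := fun j => LinearMap.ker ((t.1 - 1) ^ j)
  have hc : ∀ (j : ℕ) (k : ℤ), ∀ e ∈ V j, (t ^ k).1 e ∈ V j := fun j k e he => by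
    have : Commute ((t.1 - 1) ^ j) (t ^ k).1 :=
      ((((Commute.refl t).zpow_right k).units_val).sub_left (Commute.one_left _)).pow_left j
    simp only [V, LinearMap.mem_ker] at he ⊢
    rw [← Module.End.mul_apply, this.eq, Module.End.mul_apply, he, map_zero]
  have h1 : ∀ j : ℕ, ∀ e ∈ V (j + 1), t.1 e - e ∈ V j := fun j e he => by
    simpa [V, pow_succ] using he
  have hm : ∀ j : ℕ, V j ≤ V (j + 1) := fun j e he => by
    simp only [V, LinearMap.mem_ker] at he ⊢
    rw [pow_succ', Module.End.mul_apply, he, map_zero]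
  have hk : ∀ (j : ℕ) (k : ℤ), ∀ e ∈ V (j + 1), (t ^ k).1 e - e ∈ V j := fun j k e he => by
    have : ∀ k : ℤ, (t ^ (k + 1)).1 e - (t ^ k).1 e ∈ V j := fun k => by
      simpa [zpow_add] using hc j k _ (h1 j e he)
    induction k using Int.induction_on with
    | zero => simp
    | succ k ih => simpa using Submodule.add_mem _ (this k) ih
    | pred k ih => simpa using Submodule.sub_mem _ ih (this (-k - 1))
  have hd : ∀ (j : ℕ) (φ : List Y → E), (∀ l, φ l ∈ V (j + 1)) →
      ∀ l, dT (zt t h) φ l - dT (triv F E Y) φ l ∈ V j := fun j φ hφ l => by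
    match l with
    | [] | [_] => simp
    | x :: y :: l => simpa [dT_cons, zt, triv] using hk j _ _ (hφ _)
  have key : ∀ (j : ℕ) (a : List Y → E), (∀ l, a l ∈ V j) → dT (zt t h) a ∈ N F E (n + 1) X →
      Exa (zt t h) n X a := by
    intro j
    induction j with
    | zero => exact fun a h0 _ => Exa.of_mem_N (N_congr (Submodule.zero_mem _) fun l => by
        simpa [V] using h0 l)
    | succ j ih =>
      intro a hv hca
      obtain ⟨σ, hσ⟩ := (V j).mkQ.exists_rightInverse_of_surjective (V j).range_mkQ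
      obtain ⟨p, hp⟩ := (V (j + 1)).subtype.exists_leftInverse_of_injective (V (j + 1)).ker_subtype
      let P : Module.End F E := (V (j + 1)).subtype ∘ₗ p ∘ₗ σ ∘ₗ (V j).mkQ
      have P0 : ∀ e ∈ V j, P e = 0 := fun e he => by
        simp [P, (Submodule.Quotient.mk_eq_zero _).2 he]
      have P1 : ∀ e ∈ V (j + 1), e - P e ∈ V j := fun e he => by
        have h2 : e - σ ((V j).mkQ e) ∈ V j :=
          (Submodule.Quotient.eq _).1 (LinearMap.congr_fun hσ ((V j).mkQ e)).symm
        have h3 : σ ((V j).mkQ e) ∈ V (j + 1) := by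
          simpa using Submodule.sub_mem _ he (hm j h2)
        have := congrArg Subtype.val (LinearMap.congr_fun hp ⟨_, h3⟩)
        rwa [show P e = σ ((V j).mkQ e) from this]
      have cP : ∀ φ, cm P (dT (triv F E Y) φ) = dT (triv F E Y) (cm P φ) :=
        cm_dT P _ _ fun _ _ _ => rfl
      obtain ⟨φ, hφ⟩ := hE (cm P a) (by
        rw [← cP]
        refine N_congr (cm_mem_N P hca) fun l => ?_
        have := P0 _ (hd j a hv l)
        rw [map_sub, sub_eq_zero] at this
        exact this.symm)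
      have h5 := cm_mem_N P hφ
      rw [map_sub, cP] at h5
      have hv' : ∀ l, cm P φ l ∈ V (j + 1) := fun l => (p _).2
      let b := a - cm P (cm P a) - (dT (zt t h) (cm P φ) - dT (triv F E Y) (cm P φ))
      have h6 : a - b - dT (zt t h) (cm P φ) ∈ N F E n X := N_congr h5 fun l => by
        simp only [b, Pi.sub_apply]
        abel
      have h7 := ih b (fun l => by
        have := Submodule.sub_mem _ (Submodule.add_mem _ (P1 _ (hv l)) (P1 (P (a l)) (p _).2))
          (hd j _ hv' l)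
        simpa [b, cm] using this) (by
        have := Submodule.sub_mem _ (Submodule.sub_mem _ hca (dT_dT_mem_N (hh.zt t) _ (cm P φ)))
          (dT_mem_N (zt t h) h6)
        rw [map_sub (dT _) (a - b), map_sub (dT _) a b] at this
        exact N_congr this fun l => by simp)
      simpa using Exa.add ⟨_, h6⟩ h7
  obtain ⟨j, hj⟩ := ht
  exact fun a => key j a fun l => by simp [V, hj]

theorem tk_of_kills {F G : Type} [Field F] [AddCommGroup G] [Module F G] {z : Module.End F G}
    {z₀ : F} (hi : Function.Injective (z - z₀ • 1 : Module.End F G)) {τ : Y → Y → Module.End F G}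
    (hc : ∀ x y, Commute (τ x y) z) {X : Set Y} (hτ : IsCoc τ X) {q : F[X]} (hq : q ≠ 0) {n : ℕ}
    (k₁ : Kills τ n X (aeval z q)) (k₂ : Kills τ (n + 1) X (aeval z q)) {m : ℕ}
    (hm : 2 * q.rootMultiplicity z₀ ≤ m) (k : ℕ) : TK (z - z₀ • 1) m k τ n X := by
  have hT : (z - z₀ • 1 : Module.End F G) = aeval z (Polynomial.X - C z₀) := by
    simp [Algebra.algebraMap_eq_smul_one]
  generalize (z - z₀ • 1 : Module.End F G) = T at hi hT ⊢
  have c : ∀ (r : F[X]) x y, Commute (aeval z r) (τ x y) := fun r x y => commute_aeval (hc x y) r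
  have cT : ∀ x y, Commute (τ x y) T := fun x y => hT ▸ (c _ x y).symm
  have cK : ∀ x y, Commute (T ^ k) (τ x y) := fun x y => (cT x y).symm.pow_left k
  have cq : ∀ (r : F[X]) e, aeval z r ((T ^ k) e) = (T ^ k) (aeval z r e) := fun r e => by
    rw [hT, ← map_pow, ← Module.End.mul_apply, ← Module.End.mul_apply, ← map_mul, ← map_mul,
      mul_comm]
  intro a'' ha
  obtain ⟨a, rfl, -⟩ := exists_cm_lift (pk T k) (Submodule.mkQ_surjective _) a''
  obtain ⟨ψ, -, -, hψ⟩ := exists_div (T ^ k) (pk T k) (by simp) (dT τ a)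
  have h1 := hψ (n + 1) X (by rwa [cm_pk_dT cT])
  obtain ⟨β, hβ⟩ := k₂ ψ (by
    apply mem_N_of_cm (π := T ^ k) (by rw [Module.End.coe_pow]; exact hi.iterate k)
    have := Submodule.sub_mem _ (dT_dT_mem_N hτ _ a) (dT_mem_N τ h1)
    rw [map_sub, ← cm_comm cK] at this
    exact N_congr this fun l => by simp)
  obtain ⟨γ, hγ⟩ := k₁ (cm (aeval z q) a - cm (T ^ k) β) (by
    rw [map_sub, ← cm_comm cK, ← cm_comm (c q)]
    exact N_congr (Submodule.add_mem _ (cm_mem_N (aeval z q) h1) (cm_mem_N (T ^ k) hβ)) fun l => by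
      simp [cm, cq])
  obtain ⟨r, hr, hd⟩ := exists_eq_pow_rootMultiplicity_mul_and_not_dvd q hq z₀
  obtain ⟨u, v, huv⟩ : IsCoprime (r ^ 2) ((Polynomial.X - C z₀) ^ k) :=
    ((irreducible_X_sub_C z₀).coprime_iff_not_dvd.2 hd).symm.pow
  obtain ⟨d, rfl⟩ := Nat.exists_eq_add_of_le hm
  generalize q.rootMultiplicity z₀ = e at hr ⊢
  have hp : (Polynomial.X - C z₀) ^ (2 * e + d) = (Polynomial.X - C z₀) ^ d * u * q * q +
      (Polynomial.X - C z₀) ^ k * ((Polynomial.X - C z₀) ^ (2 * e + d) * v) := by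
    rw [hr]
    linear_combination -(Polynomial.X - C z₀) ^ (2 * e + d) * huv
  generalize (Polynomial.X - C z₀) ^ d * u = w at hp
  generalize (Polynomial.X - C z₀) ^ (2 * e + d) * v = v' at hp
  have hp' : T ^ (2 * e + d) = aeval z w * aeval z q * aeval z q + T ^ k * aeval z v' := by
    rw [hT, ← map_pow, hp]
    simp only [map_add, map_mul, map_pow]
  have z0 : ∀ e, pk T k ((T ^ k) e) = 0 := fun e =>
    (Submodule.Quotient.mk_eq_zero _).2 ⟨e, rfl⟩
  refine ⟨cm (pk T k) (cm (aeval z w) γ), ?_⟩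
  rw [← cm_pk_dT cT, ← cm_comm (c w)]
  refine N_congr (cm_mem_N (pk T k) (cm_mem_N (aeval z w) hγ)) fun l => ?_
  simp only [cm, LinearMap.coe_mk, AddHom.coe_mk, Pi.sub_apply, map_sub, cq, z0,
    ← barE_pk ((Commute.refl T).pow_left _)]
  rw [hp']
  simp only [LinearMap.add_apply, Module.End.mul_apply, map_add, z0, add_zero, sub_zero]

theorem TK.acyc {F G : Type} [Field F] [AddCommGroup G] [Module F G] {T : Module.End F G}
    {τ : Y → Y → Module.End F G} {k n : ℕ} {X : Set Y} (h : TK T 0 k τ n X) :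
    Acyc (bar T k τ) n X := by
  rwa [TK, pow_zero, barE_one, kills_one_iff] at h

/-- The two statements used by the Lagrangian lemma in the first stage. -/
theorem tk_stage1 (F : Type) [Field F] {X : Set Y4} {h : Y4 → Y4 → ℤ} (hb : Base X h) :
    ∃ m₀, ∀ (ζ : F) (m : ℕ), m₀ ≤ m → ∀ k,
      TK (Tm F F 1 ζ) m k (zt (sh F F) h) 2 X ∧ TK (Tm F F 1 ζ) m k (zt (sh F F) h) 3 X := by
  obtain ⟨q, hq, H⟩ := kills_base F hb
  refine ⟨2 * q.natDegree, fun ζ m hm k => ?_⟩
  have h1 : 2 * q.rootMultiplicity ζ ≤ m := by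
    have := natDegree_le_of_dvd (pow_rootMultiplicity_dvd q ζ) hq
    rw [natDegree_pow, natDegree_X_sub_C] at this
    omega
  have hi : Function.Injective (shp F F 1 - ζ • 1 : Module.End F _) := Tm_injective one_pos ζ
  have c : ∀ x y, Commute (zt (sh F F) h x y) (shp F F 1) := fun x y => by
    rw [zt_sh, Commute, SemiconjBy, ← shp_add, ← shp_add, add_comm]
  exact ⟨tk_of_kills hi c (hb.coc.zt _) hq (H 2 le_rfl (by omega)) (H 3 (by omega) (by omega)) h1 k,
    tk_of_kills hi c (hb.coc.zt _) hq (H 3 (by omega) (by omega)) (H 4 (by omega) le_rfl) h1 k⟩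

end Pool.Agent.HH
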