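import Pool.Agent.P.MP_c8dc46_gt.Reg2
import Pool.Agent.P.MP_c8dc46_gt.HDx
import Pool.Agent.P.MP_c8dc46_gt.TA

/-! Acyclicity of the pattern pieces (by excision of fibred regions), meridian acyclicity. -/

open Set Topology Polynomial

namespace Pool.Agent.HH

theorem acyc_base {F₀ F : Type} [Field F₀] [Field F] [Algebra F₀ F] [FiniteDimensional F₀ F]
    {Y : Type} [TopologicalSpace Y] {h : Y → Y → ℤ} {S : Set Y} (hh : IsCocA h S) {q : F₀[X]}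
    (hq : q ≠ 0) (k₂ : Kills (zt (sh F₀ F₀) h) 2 S (aeval (shp F₀ F₀ 1) q))
    (k₃ : Kills (zt (sh F₀ F₀) h) 3 S (aeval (shp F₀ F₀ 1) q)) {ζ : F}
    (hζ : ¬ (q.map (algebraMap F₀ F)).IsRoot ζ) (n : ℕ) : Acyc (zt (tq F ζ n) h) 2 S := by
  have hi : Function.Injective (shp F F 1 - ζ • 1 : Module.End F _) := Tm_injective one_pos ζ
  have c : ∀ x y, Commute (zt (sh F F) h x y) (shp F F 1) := fun x y => by
    rw [zt_sh, Commute, SemiconjBy, ← shp_add, ← shp_add, add_comm]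
  have k : TK (Tm F F 1 ζ) 0 n (zt (sh F F) h) 2 S :=
    tk_of_kills hi c (hh.zt _) (Polynomial.map_ne_zero hq) k₂.ext_field k₃.ext_field
      (by rw [rootMultiplicity_eq_zero hζ]) n
  rw [← bar_zt]
  exact k.acyc

namespace RAcP

theorem mem_N_pi {R Y : Type} [CommRing R] [TopologicalSpace Y] {A : Fin 2 → Type}
    [∀ i, AddCommGroup (A i)] [∀ i, Module R (A i)] {n : ℕ} {S : Set Y} {ψ : List Y → ∀ i, A i}
    (h : ∀ i, cm (LinearMap.proj (R := R) i) ψ ∈ N R (A i) n S) : ψ ∈ N R (∀ i, A i) n S := by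
  intro p hp
  choose U hU hz using fun i => h i p hp
  exact ⟨⋂ i, U i, Filter.iInter_mem.2 hU, fun l hl hx =>
    funext fun i => hz i l hl fun x hx' => mem_iInter.1 (hx x hx') i⟩

theorem proj_dT {F B : Type} [Field F] [StarRing F] [AddCommGroup B] [Module F B] {ℓ : ℕ} {w : ℤ}
    {ζ : Fin 2 → F} {n : ℕ} {D : HD F (Api F ζ n) B} (hD : HDP ℓ w ζ n D) {Y : Type}
    (h : Y → Y → ℤ) (i : Fin 2) (a : List Y → Api F ζ n) :
    cm (LinearMap.proj (R := F) i) (dT (zt D.t h) a) =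
      dT (zt (tq F (ζ i) n) h) (cm (LinearMap.proj (R := F) i) a) :=
  cm_dT _ _ _ (fun x y e => hD.t (h x y) e i) a

end RAcP

open RAcP

theorem acyc_pi {F B : Type} [Field F] [StarRing F] [AddCommGroup B] [Module F B] {ℓ : ℕ} {w : ℤ}
    {ζ : Fin 2 → F} {n : ℕ} {D : HD F (Api F ζ n) B} (hD : HDP ℓ w ζ n D) {Y : Type}
    [TopologicalSpace Y] {h : Y → Y → ℤ} {S : Set Y}
    (ha : ∀ i, Acyc (zt (tq F (ζ i) n) h) 2 S) : Acyc (zt D.t h) 2 S := by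
  intro a h₁
  choose φ hφ using fun i => ha i (cm (LinearMap.proj i) a)
    (by rw [← proj_dT hD]; exact cm_mem_N _ h₁)
  refine ⟨fun l i => φ i l, mem_N_pi fun i => ?_⟩
  rw [map_sub, proj_dT hD]
  exact hφ i

theorem coc_pi {F B : Type} [Field F] [StarRing F] [AddCommGroup B] [Module F B] {ℓ : ℕ} {w : ℤ}
    {ζ : Fin 2 → F} {n : ℕ} {D : HD F (Api F ζ n) B} (hD : HDP ℓ w ζ n D) {Y : Type}
    [TopologicalSpace Y] {h : Y → Y → ℤ} {S : Set Y} {y : ∀ i, List Y → Aq F (ζ i) n}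
    (hy : ∀ i, dT (zt (tq F (ζ i) n) h) (y i) ∈ N F _ 3 S) :
    dT (zt D.t h) (fun l i => y i l) ∈ N F _ 3 S := by
  refine mem_N_pi fun i => ?_
  rw [proj_dT hD]
  exact hy i

section

variable {R E : Type} [CommRing R] [AddCommGroup E] [Module R E]

theorem zt_mul {Y : Type} (t : (Module.End R E)ˣ) (w : ℤ) (θ : Y → Y → ℤ) :
    (zt t fun x y => w * θ x y) = zt (t ^ w) θ := by
  funext x y
  simp only [zt, zpow_mul]

theorem loopAc_zt {Y : Type} [TopologicalSpace Y] {t : (Module.End R E)ˣ} {h : Y → Y → ℤ}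
    {γ : ℝ → Y} {k : ℤ} (hk : IsHolA h γ k)
    (hb : Function.Bijective ((t ^ k).1 - 1 : Module.End R E)) : LoopAc (zt t h) γ :=
  ⟨_, hk.zt t, hb⟩

theorem merAc_zt {Y V : Type} [TopologicalSpace Y] [TopologicalSpace V] {A : Set Y}
    {h : Y → Y → ℤ} (hh : IsGen V A h) {t : (Module.End R E)ˣ}
    (h₁ : Function.Bijective ((t ^ (1 : ℤ)).1 - 1 : Module.End R E))
    (h₂ : Function.Bijective ((t ^ (-1 : ℤ)).1 - 1 : Module.End R E)) :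
    MerAc V univ A (zt t h) := fun γ hγ =>
  (hh.2 γ hγ).elim (fun k => loopAc_zt k h₁) fun k => loopAc_zt k h₂

namespace RAcP

variable {r s : Fin 2 → ℕ} {P : ℝ → S3} (g : Geo r s P) {τ : S3 → S3 → Module.End R E}

theorem sub_compl : RB {x | ‖x‖ < g.a + 7 * g.ρ} ⊆ (range P)ᶜ := by
  rintro _ hp ⟨t, rfl⟩
  exact lt_asymm (g.thin t) hp

/-- Removal of a fibred closed part of the inner solid torus. -/
theorem acyc_inner (hτ : IsCoc τ (range P)ᶜ) (hw : ∀ x, ‖x‖ < g.a + 7 * g.ρ → LoopAc τ (fib x))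
    (ha : Acyc τ 2 (range P)ᶜ) {Z : Set ℂ} (hZ : IsClosed Z)
    (hs : ∀ x ∈ Z, ‖x‖ < g.a + 7 * g.ρ) : Acyc τ 2 ((range P)ᶜ \ RB Z) := by
  have ho : IsOpen {x : ℂ | ‖x‖ < g.a + 7 * g.ρ} := isOpen_lt continuous_norm continuous_const
  refine excise g.knot.isClosed.isOpen_compl (g.knot.isClosed.isOpen_compl.sdiff (isClosed_RB hZ))
    (isOpen_RB ho) (fun p hp => hs _ hp) (sub_compl g) hτ ha ?_
  exact (acyc_fibX (ho.sdiff hZ) (fun x hx => lt_trans hx.1 (by linarith [g.rad.2.1, g.rad.2.2]))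
    (hτ.mono fun p hp => sub_compl g hp.1) fun x hx => hw x hx.1).2

theorem h_off {q : S3} (h1 : ‖xc q‖ < 1) (h2 : -1 / 2 < (xc q).re) : g.h q ∉ range P :=
  fun h => h1.ne ((yc_eq_zero_iff q).1 ((g.hP q h2.le).1 h))

theorem acyc_So (hτ : IsCoc τ (range P)ᶜ) (hw : ∀ x, ‖x‖ < g.a + 7 * g.ρ → LoopAc τ (fib x))
    (hq : ∀ x : ℂ, ‖x‖ < 1 → -1 / 2 < x.re → LoopAc τ (g.h ∘ fib x))
    (ha : Acyc τ 2 (range P)ᶜ) : Acyc τ 2 g.So := by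
  have hρ := g.rad.2.1
  have hZ : IsClosed {x : ℂ | ‖x‖ ≤ g.a + 6 * g.ρ} := isClosed_le continuous_norm continuous_const
  have hB : IsOpen {x : ℂ | ‖x‖ < 1 ∧ -1 / 2 < x.re} :=
    (isOpen_lt continuous_norm continuous_const).inter
      (isOpen_lt continuous_const Complex.continuous_re)
  have hB' : IsOpen {x : ℂ | (‖x‖ < 1 ∧ -1 / 2 < x.re) ∧ x.re < -1 / 4} :=
    hB.inter (isOpen_lt Complex.continuous_re continuous_const)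
  have e1 : ((range P)ᶜ \ RB {x | ‖x‖ ≤ g.a + 6 * g.ρ}) \
      (g.h '' RB {x | -1 / 4 ≤ x.re} \ range P) = g.So := by
    ext p
    exact ⟨fun h => ⟨⟨not_le (a := ‖xc p‖).1 h.1.2, h.1.1⟩, fun h' => h.2 ⟨h', h.1.1⟩⟩,
      fun h => ⟨⟨h.1.2, not_le (a := ‖xc p‖).2 h.1.1⟩, fun h' => h.2 h'.1⟩⟩
  have e2 : g.h '' RB {x | ‖x‖ < 1 ∧ -1 / 2 < x.re} \ (g.h '' RB {x | -1 / 4 ≤ x.re} \ range P) =
      g.h '' RB {x | (‖x‖ < 1 ∧ -1 / 2 < x.re) ∧ x.re < -1 / 4} := by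
    ext p
    constructor
    · rintro ⟨⟨q, h1, rfl⟩, h2⟩
      exact ⟨q, ⟨h1, not_le.1 fun h3 => h2 ⟨⟨q, h3, rfl⟩, h_off g h1.1 h1.2⟩⟩, rfl⟩
    · rintro ⟨q, h1, rfl⟩
      refine ⟨⟨q, h1.1, rfl⟩, ?_⟩
      rintro ⟨⟨q', h2, e⟩, -⟩
      obtain rfl := g.h.injective e
      exact not_le.2 h1.2 h2
  rw [← e1]
  refine excise (g.knot.isClosed.isOpen_compl.sdiff (isClosed_RB hZ)) (e1.symm ▸ g.isOpen_So)
    (g.h.isOpenMap _ (isOpen_RB hB)) ?_ ?_ (hτ.mono sdiff_subset)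
    (acyc_inner g hτ hw ha hZ fun x hx => lt_of_le_of_lt hx (by linarith)) ?_
  · rintro _ ⟨⟨q, h1, rfl⟩, h2⟩
    have h3 : -1 / 2 < (xc q).re := lt_of_lt_of_le (by norm_num) h1
    exact ⟨q, ⟨lt_of_le_of_ne (norm_xc_le q) fun h4 =>
      h2 ((g.hP q h3.le).2 ((yc_eq_zero_iff q).2 h4)), h3⟩, rfl⟩
  · rintro _ ⟨q, h1, rfl⟩
    exact ⟨h_off g h1.1 h1.2, not_le.2 (lt_trans (by linarith) (g.hz q h1.2.le).2)⟩
  · rw [e2, ← (OE.of_homeomorph g.h (isOpen_RB hB')).acyc_iff]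
    refine (acyc_fibX hB' (fun x hx => hx.1.1) (hτ.pb (fun p _ => g.h.continuous.continuousAt)
      fun p hp => h_off g hp.1.1 hp.1.2) fun x hx => ?_).2
    obtain ⟨η, h1, h2⟩ := hq x hx.1.1 hx.1.2
    exact ⟨η, (isHol_pb _ _ _ _).2 h1, h2⟩

end RAcP

theorem Geo.acyc_pieces {r s : Fin 2 → ℕ} {P : ℝ → S3} (g : Geo r s P) {hP : S3 → S3 → ℤ}
    (hh : IsCocA hP (range P)ᶜ) {w ε : ℤ} (hw : ∀ x, ‖x‖ < g.a + 7 * g.ρ → IsHolA hP (fib x) w)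
    (hε : ∀ x : ℂ, ‖x‖ < 1 → -1 / 2 < x.re → IsHolA hP (g.h ∘ fib x) ε) {t : (Module.End R E)ˣ}
    (b₁ : Function.Bijective ((t ^ w).1 - 1 : Module.End R E))
    (b₂ : Function.Bijective ((t ^ ε).1 - 1 : Module.End R E)) (ha : Acyc (zt t hP) 2 (range P)ᶜ) :
    Acyc (zt t hP) 2 g.So ∧ Acyc (zt t hP) 2 g.Mid ∧
      ∀ i, Acyc (zt t hP) 2 (range P ∪ eta (g.xi i))ᶜ := by
  have hw' := fun x hx => loopAc_zt (hw x hx) b₁
  have hx : ∀ i, ‖g.xi i‖ < g.a + 7 * g.ρ := fun i => by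
    rw [g.norm_xi]
    linarith [g.rad.2.1]
  refine ⟨acyc_So g (hh.zt t) hw' (fun x h1 h2 => loopAc_zt (hε x h1 h2) b₂) ha, ?_, fun i => ?_⟩
  · rw [Geo.Mid, union_assoc, compl_union]
    refine acyc_inner g (hh.zt t) hw' ha (Z := {g.xi 0} ∪ {g.xi 1})
      (isClosed_singleton.union isClosed_singleton) ?_
    rintro _ (rfl | rfl) <;> exact hx _
  · rw [compl_union]
    refine acyc_inner g (hh.zt t) hw' ha (Z := {g.xi i}) isClosed_singleton ?_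
    rintro _ rfl
    exact hx i

end

namespace RAcP

variable {Γ : Type} [Group Γ] {Rp : RepIn Γ} {n₀ : ℕ} {u v : ℂˣ}
  {ρ : Representation ℂ Γ (ℤ →₀ (Fin n₀ → ℂ))}

theorem hol_bar (h : RepOut Rp n₀ u v ρ) (z₀ : ℂ) (m : ℕ) {Y : Type} [TopologicalSpace Y]
    {f : Y → Y → Γ} {γ : ℝ → Y} {η : Γ} (hf : IsHol f γ η) :
    IsHol (bar (Tm ℂ (Fin n₀ → ℂ) Rp.p z₀) m (tr ρ f)) γ
      (barE (Tm ℂ (Fin n₀ → ℂ) Rp.p z₀) m (ρ η)) :=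
  ((hf.tr ρ).bar (fun x y => (h.pm (f x y)).commute.sub_right
    ((Commute.one_right _).smul_right z₀)) m).2

theorem rho_zpow {c : Γ} {a : ℂˣ} (h : ρ c = (a : ℂ) • 1) (i : ℤ) :
    ρ (c ^ i) = ((a ^ i : ℂˣ) : ℂ) • 1 := by
  have h1 : ρ c⁻¹ = ((a⁻¹ : ℂˣ) : ℂ) • 1 := by
    have h2 : ρ c⁻¹ * ρ c = 1 := by rw [← map_mul, inv_mul_cancel, map_one]
    rw [h, mul_smul_comm, mul_one] at h2
    rw [← h2, smul_smul, Units.inv_mul, one_smul]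
  induction i using Int.induction_on with
  | zero => simp
  | succ j ih =>
    rw [zpow_add_one, zpow_add_one, map_mul, ih, h, smul_mul_smul_comm, mul_one, Units.val_mul]
  | pred j ih =>
    rw [zpow_sub_one, zpow_sub_one, map_mul, ih, h1, smul_mul_smul_comm, mul_one, Units.val_mul]

end RAcP

theorem loopAc_rep {Γ : Type} [Group Γ] {Rp : RepIn Γ} {n₀ : ℕ} {u v : ℂˣ}
    {ρ : Representation ℂ Γ (ℤ →₀ (Fin n₀ → ℂ))} (h : RepOut Rp n₀ u v ρ) {z₀ : ℂ} (hz : z₀ ≠ 0)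
    (hz1 : z₀ ≠ 1) (m : ℕ) {Y : Type} [TopologicalSpace Y] {f : Y → Y → Γ} {S : Set Y}
    (hf : IsCoc f S) {γ : ℝ → Y} (hγ : IsLoop γ S) {ε : ℤ} (hε : ε = 1 ∨ ε = -1)
    (hk : IsHolA (fun x y => Rp.dg (f x y)) γ ε) :
    LoopAc (bar (Tm ℂ (Fin n₀ → ℂ) Rp.p z₀) m (tr ρ f)) γ := by
  obtain ⟨η, hη⟩ := exists_isHol hf hγ
  have h1 : IsHolA (fun x y => Rp.dg (f x y)) γ (Rp.dg η) := isHolA_iff.2 (hη.map Rp.deg)
  refine ⟨_, hol_bar h z₀ m hη, h.bij_of_deg hz ?_ m⟩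
  rw [h1.unique hk]
  rcases hε with rfl | rfl
  · rwa [zpow_one]
  · rwa [zpow_neg_one, Ne, inv_eq_one]

theorem merAc_rep {Γ : Type} [Group Γ] {Rp : RepIn Γ} {n₀ : ℕ} {u v : ℂˣ}
    {ρ : Representation ℂ Γ (ℤ →₀ (Fin n₀ → ℂ))} (h : RepOut Rp n₀ u v ρ) {z₀ : ℂ} (hz : z₀ ≠ 0)
    (hz1 : z₀ ≠ 1) (m : ℕ) {A : Set Y4} {f : Y4 → Y4 → Γ} (hf : IsCoc f Aᶜ)
    (hg : IsGen (ℝ × ℝ) A fun x y => Rp.dg (f x y)) :
    MerAc (ℝ × ℝ) univ A (bar (Tm ℂ (Fin n₀ → ℂ) Rp.p z₀) m (tr ρ f)) := by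
  intro γ hγ
  have h1 : IsLoop γ Aᶜ := compl_eq_univ_sdiff A ▸ hγ.isLoop
  exact (hg.2 γ hγ).elim (loopAc_rep h hz hz1 m hf h1 (Or.inl rfl))
    (loopAc_rep h hz hz1 m hf h1 (Or.inr rfl))

/-- A loop whose holonomy acts by a scalar different from one. -/
theorem loopAc_scalar {Γ : Type} [Group Γ] {Rp : RepIn Γ} {n₀ : ℕ} {u v : ℂˣ}
    {ρ : Representation ℂ Γ (ℤ →₀ (Fin n₀ → ℂ))} (h : RepOut Rp n₀ u v ρ) (z₀ : ℂ) (m : ℕ)
    {Y : Type} [TopologicalSpace Y] {f : Y → Y → Γ} {γ : ℝ → Y} {i j : ℤ}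
    (hf : IsHol f γ (Rp.c₀ ^ i * Rp.c₁ ^ j)) (hne : u ^ i * v ^ j ≠ 1) :
    LoopAc (bar (Tm ℂ (Fin n₀ → ℂ) Rp.p z₀) m (tr ρ f)) γ := by
  refine ⟨_, hol_bar h z₀ m hf, ?_⟩
  rw [map_mul, rho_zpow h.u, rho_zpow h.v, smul_mul_smul_comm, mul_one, ← Units.val_mul]
  exact bij_of_scalar _ m fun e => hne (Units.val_eq_one.1 e)

end Pool.Agent.HH
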