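import Pool.Agent.P.MP_c8dc46_gt.FDefs

/-! Elementary algebra of cochains. -/

open Set Topology

namespace Pool.Agent.HH

variable {Y Y' : Type} {R E E' : Type} [CommRing R] [AddCommGroup E] [Module R E]
  [AddCommGroup E'] [Module R E']

@[simp] theorem dT_nil (τ : Y → Y → Module.End R E) (φ : List Y → E) : dT τ φ [] = 0 := rfl

@[simp] theorem dT_one (τ : Y → Y → Module.End R E) (φ : List Y → E) (x : Y) :
    dT τ φ [x] = 0 := rfl

theorem dT_cons (τ : Y → Y → Module.End R E) (φ : List Y → E) (x y : Y) (l : List Y) :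
    dT τ φ (x :: y :: l) = τ x y (φ (y :: l)) - d0 (y :: l) (fun m => φ (x :: m)) := rfl

namespace RBasic

theorem d0_map {E'' : Type} [AddCommGroup E''] (π : E →+ E'') (l : List Y) (φ : List Y → E) :
    d0 l (fun m => π (φ m)) = π (d0 l φ) := by
  induction l generalizing φ with
  | nil => exact (map_zero π).symm
  | cons x l ih =>
    show π (φ l) - d0 l (fun m => π (φ (x :: m))) = π (φ l - d0 l fun m => φ (x :: m))
    rw [ih, map_sub]

theorem d0_zero (l : List Y) : d0 l (fun _ => (0 : E)) = 0 :=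
  d0_map (0 : E →+ E) l fun _ => 0

theorem d0_sub (l : List Y) (φ ψ : List Y → E) :
    d0 l (fun m => φ m - ψ m) = d0 l φ - d0 l ψ := by
  induction l generalizing φ ψ with
  | nil => exact (sub_zero _).symm
  | cons x l ih =>
    show φ l - ψ l - d0 l (fun m => φ (x :: m) - ψ (x :: m)) =
      φ l - d0 l (fun m => φ (x :: m)) - (ψ l - d0 l fun m => ψ (x :: m))
    rw [ih]
    abel

theorem d0_d0 (l : List Y) (φ : List Y → E) : d0 l (fun m => d0 m φ) = 0 := by
  induction l generalizing φ with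
  | nil => rfl
  | cons x l ih =>
    show d0 l φ - d0 l (fun m => φ m - d0 m fun k => φ (x :: k)) = 0
    rw [d0_sub, ih, sub_zero, sub_self]

theorem d0_pull (j : Y' → Y) (l : List Y') (φ : List Y → E) :
    d0 (l.map j) φ = d0 l fun m => φ (m.map j) := by
  induction l generalizing φ with
  | nil => rfl
  | cons x l ih => exact congrArg (φ (l.map j) - ·) (ih fun m => φ (j x :: m))

theorem d0_congr {U : Set Y} (l : List Y) (hl : ∀ x ∈ l, x ∈ U) {φ ψ : List Y → E}
    (h : ∀ m : List Y, m.length + 1 = l.length → (∀ x ∈ m, x ∈ U) → φ m = ψ m) :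
    d0 l φ = d0 l ψ := by
  induction l generalizing φ ψ with
  | nil => rfl
  | cons x l ih =>
    have hl' : ∀ y ∈ l, y ∈ U := fun y hy => hl y (List.mem_cons_of_mem _ hy)
    show φ l - d0 l (fun m => φ (x :: m)) = ψ l - d0 l (fun m => ψ (x :: m))
    rw [h l rfl hl', ih hl' fun m hm hU => h (x :: m) (congrArg (· + 1) hm) fun y hy => ?_]
    rcases List.mem_cons.1 hy with rfl | hy
    · exact hl _ List.mem_cons_self
    · exact hU y hy

/-- Transport of all values to a base point turns `dT` into `d0`. -/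
theorem d0_tp {τ : Y → Y → Module.End R E} {U : Set Y}
    (c : ∀ x ∈ U, τ x x = 1 ∧ ∀ y ∈ U, ∀ z ∈ U, τ x y * τ y z = τ x z) {x : Y} (hx : x ∈ U)
    {m : List Y} (h2 : 2 ≤ m.length) (hm : ∀ y ∈ m, y ∈ U) (φ : List Y → E) :
    d0 m (fun k => tp τ [x] k (φ k)) = tp τ [x] m (dT τ φ m) := by
  match m, h2 with
  | z :: w :: m, _ =>
    have hz : z ∈ U := hm z List.mem_cons_self
    have hw : w ∈ U := hm w (List.mem_cons_of_mem _ List.mem_cons_self)
    show τ x w (φ (w :: m)) - d0 (w :: m) (fun k => (τ x z).toAddMonoidHom (φ (z :: k))) =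
      τ x z (τ z w (φ (w :: m)) - d0 (w :: m) fun k => φ (z :: k))
    rw [d0_map, map_sub, ← (c x hx).2 z hz w hw]
    rfl

theorem dT_dT {τ : Y → Y → Module.End R E} {U : Set Y}
    (c : ∀ x ∈ U, τ x x = 1 ∧ ∀ y ∈ U, ∀ z ∈ U, τ x y * τ y z = τ x z) (l : List Y)
    (hl : ∀ y ∈ l, y ∈ U) (φ : List Y → E) : dT τ (dT τ φ) l = 0 := by
  match l with
  | [] => rfl
  | [_] => rfl
  | [x, y] =>
    show τ x y 0 - (0 - 0) = 0
    simp
  | x :: y :: z :: l =>
    have hx := hl x List.mem_cons_self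
    have e := d0_tp c hx (m := x :: y :: z :: l) (by simp) hl (dT τ φ)
    rw [d0_congr _ hl fun m hm hU => (d0_tp c hx (by simp at hm; omega) hU φ).symm, d0_d0] at e
    have e' : 0 = τ x x (dT τ (dT τ φ) (x :: y :: z :: l)) := e
    rw [(c x hx).1] at e'
    exact e'.symm

end RBasic

theorem dT_two (τ : Y → Y → Module.End R E) (φ : List Y → E) (x y : Y) :
    dT τ φ [x, y] = τ x y (φ [y]) - φ [x] := by
  show τ x y (φ [y]) - (φ [x] - 0) = _
  rw [sub_zero]

theorem dT_three (τ : Y → Y → Module.End R E) (φ : List Y → E) (x y z : Y) :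
    dT τ φ [x, y, z] = τ x y (φ [y, z]) - φ [x, z] + φ [x, y] := by
  show τ x y (φ [y, z]) - (φ [x, z] - (φ [x, y] - 0)) = _
  abel

theorem dT_four (τ : Y → Y → Module.End R E) (φ : List Y → E) (x y z w : Y) :
    dT τ φ [x, y, z, w] = τ x y (φ [y, z, w]) - φ [x, z, w] + φ [x, y, w] - φ [x, y, z] := by
  show τ x y (φ [y, z, w]) - (φ [x, z, w] - (φ [x, y, w] - (φ [x, y, z] - 0))) = _
  abel

theorem dT_triv_dT (φ : List Y → E) : dT (triv R E Y) (dT (triv R E Y) φ) = 0 := by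
  funext l
  exact RBasic.dT_dT (U := univ) (fun _ _ => ⟨rfl, fun _ _ _ _ => mul_one _⟩) l
    (fun _ _ => mem_univ _) φ

theorem cm_dT (π : E →ₗ[R] E') (τ : Y → Y → Module.End R E) (τ' : Y → Y → Module.End R E')
    (h : ∀ x y e, π (τ x y e) = τ' x y (π e)) (φ : List Y → E) :
    cm π (dT τ φ) = dT τ' (cm π φ) := by
  funext l
  match l with
  | [] => exact map_zero π
  | [_] => exact map_zero π
  | x :: y :: l =>
    show π (τ x y (φ (y :: l)) - d0 (y :: l) fun m => φ (x :: m)) =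
      τ' x y (π (φ (y :: l))) - d0 (y :: l) fun m => π.toAddMonoidHom (φ (x :: m))
    rw [RBasic.d0_map, map_sub, h]
    rfl

/-- The coboundary commutes with additive equivariant maps (different rings allowed). -/
theorem add_dT {R' : Type} [CommRing R'] {E'' : Type} [AddCommGroup E''] [Module R' E'']
    (π : E →+ E'') (τ : Y → Y → Module.End R E) (τ' : Y → Y → Module.End R' E'')
    (h : ∀ x y e, π (τ x y e) = τ' x y (π e)) (φ : List Y → E) :
    (fun l => π (dT τ φ l)) = dT τ' (fun l => π (φ l)) := by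
  funext l
  match l with
  | [] => exact map_zero π
  | [_] => exact map_zero π
  | x :: y :: l =>
    show π (τ x y (φ (y :: l)) - d0 (y :: l) fun m => φ (x :: m)) =
      τ' x y (π (φ (y :: l))) - d0 (y :: l) fun m => π (φ (x :: m))
    rw [RBasic.d0_map, map_sub, h]

theorem pull_dT (j : Y' → Y) (τ : Y → Y → Module.End R E) (φ : List Y → E) :
    pull R E j (dT τ φ) = dT (pb j τ) (pull R E j φ) := by
  funext l
  match l with
  | [] => rfl
  | [_] => rfl
  | x :: y :: l =>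
    exact congrArg (τ (j x) (j y) (φ (j y :: l.map j)) - ·)
      (RBasic.d0_pull j (y :: l) fun m => φ (j x :: m))

theorem pull_pull {Y'' : Type} (j : Y' → Y) (j' : Y'' → Y') (φ : List Y → E) :
    pull R E j' (pull R E j φ) = pull R E (j ∘ j') φ := by
  funext l
  exact congrArg φ List.map_map

theorem pull_lc (j : Y' → Y) (τ : Y → Y → Module.End R E) (θ : Y → Y → ℤ) (φ : List Y → E) :
    pull R E j (lc τ θ φ) = lc (pb j τ) (pb j θ) (pull R E j φ) := by
  funext l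
  match l with
  | [] => rfl
  | [_] => rfl
  | x :: y :: l => rfl

theorem dT_cut (τ : Y → Y → Module.End R E) (S : Set Y) (φ : List Y → E) :
    dT τ (cut R E S φ) = cut R E S (dT τ φ) + lc τ (jmp S) φ := by
  funext l
  match l with
  | [] => exact (add_zero _).symm
  | [x] =>
    show 0 = cutF S (dT τ φ) [x] + 0
    simp [cutF]
  | x :: y :: l =>
    show τ x y (cutF S φ (y :: l)) - d0 (y :: l) (fun m => cutF S φ (x :: m)) =
      cutF S (dT τ φ) (x :: y :: l) + jmp S x y • τ x y (φ (y :: l))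
    by_cases hx : x ∈ S <;> by_cases hy : y ∈ S <;>
      simp [cutF, jmp, hx, hy, dT_cons, RBasic.d0_zero]
    abel

theorem exists_cm_lift (π : E →ₗ[R] E') (hπ : Function.Surjective π) (ψ : List Y → E') :
    ∃ φ : List Y → E, cm π φ = ψ ∧ ∀ l, ψ l = 0 → φ l = 0 := by
  have h : ∀ l, ∃ e, π e = ψ l ∧ (ψ l = 0 → e = 0) := fun l => by
    by_cases h0 : ψ l = 0
    · exact ⟨0, by rw [map_zero, h0], fun _ => rfl⟩
    · exact (hπ (ψ l)).imp fun e he => ⟨he, fun h => absurd h h0⟩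
  choose φ h1 h2 using h
  exact ⟨φ, funext h1, h2⟩

theorem f2_c1 {M : Type} [Zero M] (h : Y → Y → M) : f2 (c1 h) = h := rfl

variable [TopologicalSpace Y] [TopologicalSpace Y']

theorem N_mono {n : ℕ} {S S' : Set Y} (h : S ⊆ S') : N R E n S' ≤ N R E n S := by
  exact fun φ hφ p hp => hφ p (h hp)

theorem mem_N_empty (n : ℕ) (φ : List Y → E) : φ ∈ N R E n (∅ : Set Y) := by
  exact fun p hp => hp.elim

theorem mem_N_union {n : ℕ} {S S' : Set Y} {φ : List Y → E} :
    φ ∈ N R E n (S ∪ S') ↔ φ ∈ N R E n S ∧ φ ∈ N R E n S' := by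
  exact ⟨fun h => ⟨N_mono subset_union_left h, N_mono subset_union_right h⟩,
    fun h p hp => hp.elim (h.1 p) (h.2 p)⟩

theorem mem_N_of_forall {n : ℕ} {S : Set Y} {φ : List Y → E}
    (h : ∀ p ∈ S, ∃ S', p ∈ S' ∧ φ ∈ N R E n S') : φ ∈ N R E n S := by
  intro p hp
  obtain ⟨S', h1, h2⟩ := h p hp
  exact h2 p h1

/-- The locus where a cochain vanishes locally is open. -/
theorem exists_open_of_mem_N {n : ℕ} {S : Set Y} {φ : List Y → E} (h : φ ∈ N R E n S) :
    ∃ V, IsOpen V ∧ S ⊆ V ∧ φ ∈ N R E n V := by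
  refine ⟨{p | ∃ U ∈ 𝓝 p, ∀ l : List Y, l.length = n → (∀ x ∈ l, x ∈ U) → φ l = 0},
    isOpen_iff_mem_nhds.2 ?_, h, fun p hp => hp⟩
  rintro p ⟨U, hU, h⟩
  exact Filter.mem_of_superset (interior_mem_nhds.2 hU) fun q hq =>
    ⟨U, mem_interior_iff_mem_nhds.1 hq, h⟩

theorem mem_N_one {S : Set Y} {φ : List Y → E} :
    φ ∈ N R E 1 S ↔ ∀ p ∈ S, ∀ᶠ x in 𝓝 p, φ [x] = 0 := by
  refine forall₂_congr fun p _ => ⟨?_, fun h => ⟨_, h, fun l hl hm => ?_⟩⟩
  · rintro ⟨U, hU, h⟩
    exact Filter.mem_of_superset hU fun x hx => h [x] rfl (by simpa using hx)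
  · match l, hl with
    | [x], _ => exact hm x List.mem_cons_self

theorem mem_N_two {S : Set Y} {φ : List Y → E} :
    φ ∈ N R E 2 S ↔ ∀ p ∈ S, ∃ U ∈ 𝓝 p, ∀ x ∈ U, ∀ y ∈ U, φ [x, y] = 0 := by
  refine forall₂_congr fun p _ => exists_congr fun U => and_congr_right fun _ =>
    ⟨fun h x hx y hy => h [x, y] rfl (by simp [hx, hy]), fun h l hl hm => ?_⟩
  match l, hl with
  | [x, y], _ => exact h x (hm x (by simp)) y (hm y (by simp))

theorem mem_N_three {S : Set Y} {φ : List Y → E} :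
    φ ∈ N R E 3 S ↔ ∀ p ∈ S, ∃ U ∈ 𝓝 p, ∀ x ∈ U, ∀ y ∈ U, ∀ z ∈ U, φ [x, y, z] = 0 := by
  refine forall₂_congr fun p _ => exists_congr fun U => and_congr_right fun _ =>
    ⟨fun h x hx y hy z hz => h [x, y, z] rfl (by simp [hx, hy, hz]), fun h l hl hm => ?_⟩
  match l, hl with
  | [x, y, z], _ => exact h x (hm x (by simp)) y (hm y (by simp)) z (hm z (by simp))

/-- Membership in `N` does not depend on the ring and passes to pointwise images. -/
theorem map_mem_N {R' : Type} [CommRing R'] {E'' : Type} [AddCommGroup E''] [Module R' E'']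
    {n : ℕ} {S : Set Y} {φ : List Y → E} {ψ : List Y → E''} (h : φ ∈ N R E n S)
    (hψ : ∀ l, φ l = 0 → ψ l = 0) : ψ ∈ N R' E'' n S := by
  intro p hp
  obtain ⟨U, hU, h1⟩ := h p hp
  exact ⟨U, hU, fun l hl hm => hψ l (h1 l hl hm)⟩

theorem dT_mem_N (τ : Y → Y → Module.End R E) {n : ℕ} {S : Set Y} {φ : List Y → E}
    (h : φ ∈ N R E n S) : dT τ φ ∈ N R E (n + 1) S := by
  intro p hp
  obtain ⟨U, hU, h1⟩ := h p hp
  refine ⟨U, hU, fun l hl hm => ?_⟩
  match l with
  | [] => rfl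
  | [_] => rfl
  | x :: y :: l =>
    have hl' : ∀ z ∈ y :: l, z ∈ U := fun z hz => hm z (List.mem_cons_of_mem _ hz)
    have hn : (y :: l).length = n := Nat.succ_injective hl
    rw [dT_cons, h1 _ hn hl', map_zero, RBasic.d0_congr (ψ := fun _ => 0) _ hl'
      fun m h2 h3 => h1 (x :: m) (h2.trans hn) fun z hz => ?_, RBasic.d0_zero, sub_zero]
    rcases List.mem_cons.1 hz with rfl | hz
    · exact hm _ List.mem_cons_self
    · exact h3 z hz

theorem dT_mem_N_one (τ : Y → Y → Module.End R E) (S : Set Y) (φ : List Y → E) :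
    dT τ φ ∈ N R E 1 S := by
  exact mem_N_one.2 fun p _ => Filter.Eventually.of_forall fun _ => rfl

theorem dT_dT_mem_N {τ : Y → Y → Module.End R E} {S : Set Y} (hτ : IsCoc τ S) (n : ℕ)
    (φ : List Y → E) : dT τ (dT τ φ) ∈ N R E n S := by
  intro p hp
  obtain ⟨U, hU, c⟩ := hτ p hp
  exact ⟨U, hU, fun l _ hm => RBasic.dT_dT c l hm φ⟩

theorem dT_congr {τ τ' : Y → Y → Module.End R E} {S : Set Y} (h : LocEq τ τ' S) (n : ℕ)
    (φ : List Y → E) : dT τ φ - dT τ' φ ∈ N R E n S := by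
  intro p hp
  obtain ⟨U, hU, c⟩ := h p hp
  refine ⟨U, hU, fun l _ hm => ?_⟩
  rw [Pi.sub_apply, sub_eq_zero]
  match l with
  | [] => rfl
  | [_] => rfl
  | x :: y :: l => rw [dT_cons, dT_cons, c x (hm x (by simp)) y (hm y (by simp))]

theorem cm_mem_N (π : E →ₗ[R] E') {n : ℕ} {S : Set Y} {φ : List Y → E} (h : φ ∈ N R E n S) :
    cm π φ ∈ N R E' n S := by
  exact map_mem_N h fun l hl => (congrArg π hl).trans (map_zero π)

theorem mem_N_of_cm {π : E →ₗ[R] E'} (hπ : Function.Injective π) {n : ℕ} {S : Set Y}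
    {φ : List Y → E} (h : cm π φ ∈ N R E' n S) : φ ∈ N R E n S := by
  exact map_mem_N h fun l hl => hπ (hl.trans (map_zero π).symm)

/-- Division by `i` where `π ∘ φ` vanishes and `ker π ≤ range i`. -/
theorem exists_div {E₀ : Type} [AddCommGroup E₀] [Module R E₀] (i : E₀ →ₗ[R] E) (π : E →ₗ[R] E')
    (h : LinearMap.ker π ≤ LinearMap.range i) (φ : List Y → E) :
    ∃ ψ : List Y → E₀, (∀ l, φ l = 0 → ψ l = 0) ∧ (∀ l, π (φ l) = 0 → φ l = i (ψ l)) ∧
      ∀ (n : ℕ) (S : Set Y), cm π φ ∈ N R E' n S → φ - cm i ψ ∈ N R E n S := by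
  have h0 : ∀ l, ∃ e, (φ l = 0 → e = 0) ∧ (π (φ l) = 0 → φ l = i e) := fun l => by
    by_cases h1 : φ l = 0
    · exact ⟨0, fun _ => rfl, fun _ => by rw [map_zero, h1]⟩
    · by_cases h2 : π (φ l) = 0
      · obtain ⟨e, he⟩ := h (LinearMap.mem_ker.2 h2)
        exact ⟨e, fun h => absurd h h1, fun _ => he.symm⟩
      · exact ⟨0, fun _ => rfl, fun h => absurd h h2⟩
  choose ψ h1 h2 using h0
  exact ⟨ψ, h1, h2, fun n S hS => map_mem_N hS fun l hl => sub_eq_zero.2 (h2 l hl)⟩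

theorem pull_mem_N {j : Y' → Y} {S' : Set Y'} {S : Set Y} (hj : ∀ p ∈ S', ContinuousAt j p)
    (hm : MapsTo j S' S) {n : ℕ} {φ : List Y → E} (h : φ ∈ N R E n S) :
    pull R E j φ ∈ N R E n S' := by
  intro p hp
  obtain ⟨U, hU, h1⟩ := h _ (hm hp)
  refine ⟨j ⁻¹' U, hj p hp hU, fun l hl hx => h1 _ ((List.length_map j).trans hl) fun x h2 => ?_⟩
  obtain ⟨y, hy, rfl⟩ := List.mem_map.1 h2
  exact hx y hy

theorem pull_sub_mem_N {j : Y → Y} {S : Set Y} (hj : ∀ p ∈ S, ∀ᶠ x in 𝓝 p, j x = x) (n : ℕ)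
    (φ : List Y → E) : pull R E j φ - φ ∈ N R E n S := by
  intro p hp
  refine ⟨_, hj p hp, fun l _ hx => sub_eq_zero.2 (congrArg φ ?_)⟩
  exact (List.map_congr_left (g := id) hx).trans (List.map_id l)

theorem cut_mem_N (T : Set Y) {n : ℕ} {S : Set Y} {φ : List Y → E} (h : φ ∈ N R E n S) :
    cut R E T φ ∈ N R E n S := by
  refine map_mem_N h fun l hl => ?_
  match l with
  | [] => rfl
  | x :: l =>
    show cutF T φ (x :: l) = 0
    simp [cutF, hl]

theorem cut_mem_N_compl (T : Set Y) (n : ℕ) (φ : List Y → E) :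
    cut R E T φ ∈ N R E n (closure T)ᶜ := by
  intro p hp
  refine ⟨_, isClosed_closure.isOpen_compl.mem_nhds hp, fun l _ hm => ?_⟩
  match l with
  | [] => rfl
  | x :: l => exact if_neg fun h => hm x List.mem_cons_self (subset_closure h)

theorem sub_cut_mem_N (T : Set Y) {n : ℕ} (hn : 1 ≤ n) (φ : List Y → E) :
    φ - cut R E T φ ∈ N R E n (interior T) := by
  intro p hp
  refine ⟨T, mem_interior_iff_mem_nhds.1 hp, fun l hl hm => ?_⟩
  match l with
  | [] => exact absurd hl (by simp only [List.length_nil]; omega)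
  | x :: l => exact sub_eq_zero.2 (if_pos (hm x List.mem_cons_self)).symm

theorem lc_mem_N (τ : Y → Y → Module.End R E) (θ : Y → Y → ℤ) {n : ℕ} {S : Set Y}
    {φ : List Y → E} (h : φ ∈ N R E n S) : lc τ θ φ ∈ N R E (n + 1) S := by
  intro p hp
  obtain ⟨U, hU, h1⟩ := h p hp
  refine ⟨U, hU, fun l hl hm => ?_⟩
  match l with
  | [] => rfl
  | [_] => rfl
  | x :: y :: l =>
    show θ x y • τ x y (φ (y :: l)) = 0
    rw [h1 _ (Nat.succ_injective hl) fun z hz => hm z (List.mem_cons_of_mem _ hz), map_zero,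
      smul_zero]

theorem lc_mem_N_of_locEq (τ : Y → Y → Module.End R E) {θ : Y → Y → ℤ} {S : Set Y}
    (h : LocEq θ (fun _ _ => 0) S) (n : ℕ) (φ : List Y → E) : lc τ θ φ ∈ N R E n S := by
  intro p hp
  obtain ⟨U, hU, h1⟩ := h p hp
  refine ⟨U, hU, fun l _ hm => ?_⟩
  match l with
  | [] => rfl
  | [_] => rfl
  | x :: y :: l =>
    show θ x y • τ x y (φ (y :: l)) = 0
    rw [h1 x (hm x (by simp)) y (hm y (by simp)), zero_smul]

theorem jmp_locEq (T : Set Y) : LocEq (jmp T) (fun _ _ => 0) (frontier T)ᶜ := by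
  intro p hp
  rw [compl_frontier_eq_union_interior] at hp
  rcases hp with hp | hp
  · exact ⟨T, mem_interior_iff_mem_nhds.1 hp, fun x hx y hy => by simp [jmp, hx, hy]⟩
  · exact ⟨Tᶜ, mem_interior_iff_mem_nhds.1 hp, fun x hx y hy => by
      simp [jmp, show x ∉ T from hx, show y ∉ T from hy]⟩

theorem isCocA_jmp (T S : Set Y) : IsCocA (jmp T) S := by
  refine fun p _ => ⟨univ, Filter.univ_mem, fun x _ y _ z _ => ?_⟩
  unfold jmp
  ring

theorem dT_lc_mem_N {τ : Y → Y → Module.End R E} {θ : Y → Y → ℤ} {S : Set Y} (hτ : IsCoc τ S)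
    (hθ : IsCocA θ S) (n : ℕ) (φ : List Y → E) :
    dT τ (lc τ θ φ) + lc τ θ (dT τ φ) ∈ N R E n S := by
  intro p hp
  obtain ⟨U, hU, c⟩ := hτ p hp
  obtain ⟨V, hV, c'⟩ := hθ p hp
  refine ⟨U ∩ V, Filter.inter_mem hU hV, fun l _ hm => ?_⟩
  match l with
  | [] => exact add_zero _
  | [_] => exact add_zero _
  | [x, y] =>
    show τ x y 0 - (0 - 0) + θ x y • τ x y 0 = 0
    simp
  | x :: y :: z :: l =>
    have hx := hm x (by simp)
    have hy := hm y (by simp)
    have hz := hm z (by simp)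
    show τ x y (θ y z • τ y z (φ (z :: l))) - (θ x z • τ x z (φ (z :: l)) -
      d0 (z :: l) fun m => (θ x y • τ x y).toAddMonoidHom (φ (y :: m))) +
      θ x y • τ x y (τ y z (φ (z :: l)) - d0 (z :: l) fun m => φ (y :: m)) = 0
    rw [RBasic.d0_map, ← c' x hx.2 y hy.2 z hz.2, ← (c x hx.1).2 y hy.1 z hz.1]
    simp only [map_zsmul, map_sub, smul_sub, add_smul, Module.End.mul_apply,
      LinearMap.toAddMonoidHom_coe, LinearMap.smul_apply]
    abel

theorem ga_mem_N (U : Y → E →ₗ[R] E') {n : ℕ} {S : Set Y} {φ : List Y → E}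
    (h : φ ∈ N R E n S) : ga U φ ∈ N R E' n S := by
  refine map_mem_N h fun l hl => ?_
  match l with
  | [] => rfl
  | x :: l => exact (congrArg (U x) hl).trans (map_zero _)

theorem ga_dT_mem_N {U : Y → E →ₗ[R] E'} {τ : Y → Y → Module.End R E}
    {τ' : Y → Y → Module.End R E'} {S : Set Y}
    (h : LocEq (fun x y => U x ∘ₗ τ x y) (fun x y => τ' x y ∘ₗ U y) S) (n : ℕ) (φ : List Y → E) :
    ga U (dT τ φ) - dT τ' (ga U φ) ∈ N R E' n S := by
  intro p hp
  obtain ⟨V, hV, c⟩ := h p hp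
  refine ⟨V, hV, fun l _ hm => sub_eq_zero.2 ?_⟩
  match l with
  | [] => rfl
  | [x] => exact map_zero (U x)
  | x :: y :: l =>
    show U x (τ x y (φ (y :: l)) - d0 (y :: l) fun m => φ (x :: m)) =
      τ' x y (U y (φ (y :: l))) - d0 (y :: l) fun m => (U x).toAddMonoidHom (φ (x :: m))
    rw [RBasic.d0_map, map_sub]
    exact congrArg (· - _) (LinearMap.congr_fun (c x (hm x (by simp)) y (hm y (by simp))) _)

theorem RBasic.cut_open [TopologicalSpace.MetrizableSpace Y] {S S' : Set Y}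
    (hS : IsOpen S) (hS' : IsOpen S') :
    ∃ T : Set Y, S \ S' ⊆ (closure T)ᶜ ∧ S' \ S ⊆ interior T := by
  have h1 : Disjoint (closure (S \ S')) (S' \ S) :=
    (Disjoint.closure_left disjoint_sdiff_left hS').mono_right diff_subset
  have h2 : Disjoint (S \ S') (closure (S' \ S)) :=
    (Disjoint.closure_right disjoint_sdiff_right hS).mono_left diff_subset
  obtain ⟨U, hU, V, hV, h⟩ := Filter.disjoint_iff.1 (CompletelyNormalSpace.completely_normal h1 h2)
  refine ⟨V, ?_, subset_interior_iff_mem_nhdsSet.2 hV⟩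
  rw [← interior_compl]
  exact (subset_interior_iff_mem_nhdsSet.2 hU).trans (interior_mono h.subset_compl_right)

theorem RBasic.split {n : ℕ} (hn : 1 ≤ n) {S S' V T : Set Y} {φ : List Y → E}
    (h : φ ∈ N R E n V) (h1 : S ⊆ V ∪ (closure T)ᶜ) (h2 : S' ⊆ V ∪ interior T) :
    φ ∈ N R E n S ⊔ N R E n S' :=
  Submodule.mem_sup.2 ⟨cut R E T φ,
    N_mono h1 (mem_N_union.2 ⟨cut_mem_N T h, cut_mem_N_compl T n φ⟩), φ - cut R E T φ,
    N_mono h2 (mem_N_union.2 ⟨sub_mem h (cut_mem_N T h), sub_cut_mem_N T hn φ⟩),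
    add_sub_cancel _ _⟩

/-- Lattice property for open sets. Take `χ` the indicator of an open set that contains
`S' \ S` and is disjoint from an open set containing `S \ S'` (these two sets are separated). -/
theorem N_inter_open [TopologicalSpace.MetrizableSpace Y] {n : ℕ} (hn : 1 ≤ n) {S S' : Set Y}
    (hS : IsOpen S) (hS' : IsOpen S') : N R E n (S ∩ S') ≤ N R E n S ⊔ N R E n S' := by
  obtain ⟨T, h1, h2⟩ := RBasic.cut_open hS hS'
  refine fun φ hφ => RBasic.split hn (T := T) hφ (fun x hx => ?_) fun x hx => ?_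
  · exact (em (x ∈ S')).imp (fun h => ⟨hx, h⟩) fun h => h1 ⟨hx, h⟩
  · exact (em (x ∈ S)).imp (fun h => ⟨h, hx⟩) fun h => h2 ⟨hx, h⟩

/-- The same with an explicit cut-off that does not depend on the cochain. -/
theorem exists_cut_open [TopologicalSpace.MetrizableSpace Y] {S S' : Set Y}
    (hS : IsOpen S) (hS' : IsOpen S') : ∃ T : Set Y, S \ S' ⊆ (closure T)ᶜ ∧ S' \ S ⊆ interior T := by
  exact RBasic.cut_open hS hS'

/-- Lattice property for closed sets: with `V` the open vanishing locus, `S \ V` and `S' \ V` are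
disjoint closed sets. -/
theorem N_inter_closed [TopologicalSpace.MetrizableSpace Y] {n : ℕ} (hn : 1 ≤ n) {S S' : Set Y}
    (hS : IsClosed S) (hS' : IsClosed S') : N R E n (S ∩ S') ≤ N R E n S ⊔ N R E n S' := by
  intro φ hφ
  obtain ⟨V, hV, h0, hφ⟩ := exists_open_of_mem_N hφ
  obtain ⟨T, h1, h2⟩ := RBasic.cut_open (hS'.sdiff hV).isOpen_compl (hS.sdiff hV).isOpen_compl
  refine RBasic.split hn (T := T) hφ (fun x hx => ?_) fun x hx => ?_
  · exact (em (x ∈ V)).imp id fun h => h1 ⟨fun h' => h (h0 ⟨hx, h'.1⟩), fun h' => h' ⟨hx, h⟩⟩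
  · exact (em (x ∈ V)).imp id fun h => h2 ⟨fun h' => h (h0 ⟨h'.1, hx⟩), fun h' => h' ⟨hx, h⟩⟩

theorem Cc_mono {n : ℕ} {X X' : Set Y} (h : X ⊆ X') : Cc R E n X ≤ Cc R E n X' := by
  rintro φ ⟨K, h1, h2, h3⟩
  exact ⟨K, h1, h2.trans h, h3⟩

theorem dT_mem_Cc (τ : Y → Y → Module.End R E) {n : ℕ} {X : Set Y} {φ : List Y → E}
    (h : φ ∈ Cc R E n X) : dT τ φ ∈ Cc R E (n + 1) X := by
  obtain ⟨K, h1, h2, h3⟩ := h
  exact ⟨K, h1, h2, dT_mem_N τ h3⟩

end Pool.Agent.HH
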