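import Pool.Agent.P.MP_c8dc46_gt.Basic

/-!
Cocycles, gauge equivalence, exactness, open embeddings, induced operators.
-/

open Set Topology

namespace Pool.Agent.HH

variable {Y Y' : Type} {R E E' : Type} [CommRing R] [AddCommGroup E] [Module R E]
  [AddCommGroup E'] [Module R E'] [TopologicalSpace Y] [TopologicalSpace Y']

theorem IsCoc.mono {M : Type} [Monoid M] {f : Y → Y → M} {S S' : Set Y} (h : IsCoc f S)
    (hs : S' ⊆ S) : IsCoc f S' := fun p hp => h p (hs hp)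

theorem IsCocA.mono {M : Type} [AddCommGroup M] {f : Y → Y → M} {S S' : Set Y} (h : IsCocA f S)
    (hs : S' ⊆ S) : IsCocA f S' := fun p hp => h p (hs hp)

theorem LocEq.mono {M : Type} {f f' : Y → Y → M} {S S' : Set Y} (h : LocEq f f' S)
    (hs : S' ⊆ S) : LocEq f f' S' := fun p hp => h p (hs hp)

theorem LocEq.symm {M : Type} {f f' : Y → Y → M} {S : Set Y} (h : LocEq f f' S) :
    LocEq f' f S := by
  intro p hp
  obtain ⟨U, hU, h1⟩ := h p hp
  exact ⟨U, hU, fun x hx y hy => (h1 x hx y hy).symm⟩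

theorem LocEq.trans {M : Type} {f f' f'' : Y → Y → M} {S : Set Y} (h : LocEq f f' S)
    (h' : LocEq f' f'' S) : LocEq f f'' S := by
  intro p hp
  obtain ⟨U, hU, h1⟩ := h p hp
  obtain ⟨V, hV, h2⟩ := h' p hp
  exact ⟨U ∩ V, Filter.inter_mem hU hV, fun x hx y hy =>
    (h1 x hx.1 y hy.1).trans (h2 x hx.2 y hy.2)⟩

theorem LocEq.pb {M : Type} {f f' : Y → Y → M} {S : Set Y} (h : LocEq f f' S) {j : Y' → Y}
    {S' : Set Y'} (hj : ∀ p ∈ S', ContinuousAt j p) (hm : MapsTo j S' S) :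
    LocEq (pb j f) (pb j f') S' := by
  intro p hp
  obtain ⟨U, hU, h1⟩ := h (j p) (hm hp)
  exact ⟨j ⁻¹' U, (hj p hp).preimage_mem_nhds hU, fun x hx y hy => h1 _ hx _ hy⟩

theorem locEq_pb_of_id {M : Type} (f : Y → Y → M) {j : Y → Y} {S : Set Y}
    (hj : ∀ p ∈ S, ∀ᶠ x in 𝓝 p, j x = x) : LocEq (pb j f) f S := by
  intro p hp
  refine ⟨_, hj p hp, fun x hx y hy => ?_⟩
  show f (j x) (j y) = f x y
  rw [show j x = x from hx, show j y = y from hy]

theorem IsCoc.congr {M : Type} [Monoid M] {f f' : Y → Y → M} {S : Set Y} (h : IsCoc f S)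
    (h' : LocEq f f' S) : IsCoc f' S := by
  intro p hp
  obtain ⟨U, hU, h1⟩ := h p hp
  obtain ⟨V, hV, h2⟩ := h' p hp
  refine ⟨U ∩ V, Filter.inter_mem hU hV, fun x hx => ⟨?_, fun y hy z hz => ?_⟩⟩
  · rw [← h2 x hx.2 x hx.2, (h1 x hx.1).1]
  · rw [← h2 x hx.2 y hy.2, ← h2 y hy.2 z hz.2, ← h2 x hx.2 z hz.2]
    exact (h1 x hx.1).2 y hy.1 z hz.1

theorem IsCoc.map {M M' : Type} [Monoid M] [Monoid M'] (ψ : M →* M') {f : Y → Y → M} {S : Set Y}
    (h : IsCoc f S) : IsCoc (fun x y => ψ (f x y)) S := by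
  intro p hp
  obtain ⟨U, hU, h1⟩ := h p hp
  refine ⟨U, hU, fun x hx => ⟨?_, fun y hy z hz => ?_⟩⟩
  · show ψ (f x x) = 1
    rw [(h1 x hx).1, map_one]
  · show ψ (f x y) * ψ (f y z) = ψ (f x z)
    rw [← map_mul, (h1 x hx).2 y hy z hz]

theorem IsCoc.pb {M : Type} [Monoid M] {f : Y → Y → M} {S : Set Y} (h : IsCoc f S) {j : Y' → Y}
    {S' : Set Y'} (hj : ∀ p ∈ S', ContinuousAt j p) (hm : MapsTo j S' S) : IsCoc (pb j f) S' := by
  intro p hp
  obtain ⟨U, hU, h1⟩ := h (j p) (hm hp)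
  exact ⟨j ⁻¹' U, (hj p hp).preimage_mem_nhds hU, fun x hx =>
    ⟨(h1 _ hx).1, fun y hy z hz => (h1 _ hx).2 _ hy _ hz⟩⟩

theorem IsCocA.pb {M : Type} [AddCommGroup M] {f : Y → Y → M} {S : Set Y} (h : IsCocA f S)
    {j : Y' → Y} {S' : Set Y'} (hj : ∀ p ∈ S', ContinuousAt j p) (hm : MapsTo j S' S) :
    IsCocA (pb j f) S' := by
  intro p hp
  obtain ⟨U, hU, h1⟩ := h (j p) (hm hp)
  exact ⟨j ⁻¹' U, (hj p hp).preimage_mem_nhds hU, fun x hx y hy z hz => h1 _ hx _ hy _ hz⟩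

theorem CohA.pb {M : Type} [AddCommGroup M] {f f' : Y → Y → M} {S : Set Y} (h : CohA f f' S)
    {j : Y' → Y} {S' : Set Y'} (hj : ∀ p ∈ S', ContinuousAt j p) (hm : MapsTo j S' S) :
    CohA (pb j f) (pb j f') S' := by
  obtain ⟨g, hg⟩ := h
  exact ⟨g ∘ j, hg.pb hj hm⟩

theorem CohA.mono {M : Type} [AddCommGroup M] {f f' : Y → Y → M} {S S' : Set Y}
    (h : CohA f f' S) (hs : S' ⊆ S) : CohA f f' S' := by
  obtain ⟨g, hg⟩ := h
  exact ⟨g, hg.mono hs⟩

theorem CohA.symm {M : Type} [AddCommGroup M] {f f' : Y → Y → M} {S : Set Y}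
    (h : CohA f f' S) : CohA f' f S := by
  obtain ⟨g, hg⟩ := h
  refine ⟨fun x => -g x, fun p hp => ?_⟩
  obtain ⟨U, hU, h1⟩ := hg p hp
  refine ⟨U, hU, fun x hx y hy => ?_⟩
  have e : f x y - f' x y = g y - g x := h1 x hx y hy
  show f' x y - f x y = -g y - -g x
  rw [← neg_sub, e]
  abel

theorem CohA.trans {M : Type} [AddCommGroup M] {f f' f'' : Y → Y → M} {S : Set Y}
    (h : CohA f f' S) (h' : CohA f' f'' S) : CohA f f'' S := by
  obtain ⟨g, hg⟩ := h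
  obtain ⟨g', hg'⟩ := h'
  refine ⟨fun x => g x + g' x, fun p hp => ?_⟩
  obtain ⟨U, hU, h1⟩ := hg p hp
  obtain ⟨V, hV, h2⟩ := hg' p hp
  refine ⟨U ∩ V, Filter.inter_mem hU hV, fun x hx y hy => ?_⟩
  have e : f x y - f' x y = g y - g x := h1 x hx.1 y hy.1
  have e' : f' x y - f'' x y = g' y - g' x := h2 x hx.2 y hy.2
  show f x y - f'' x y = g y + g' y - (g x + g' x)
  rw [← sub_add_sub_cancel (f x y) (f' x y), e, e']
  abel

theorem CohA.of_locEq {M : Type} [AddCommGroup M] {f f' : Y → Y → M} {S : Set Y}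
    (h : LocEq f f' S) : CohA f f' S := by
  refine ⟨fun _ => 0, fun p hp => ?_⟩
  obtain ⟨U, hU, h1⟩ := h p hp
  exact ⟨U, hU, fun x hx y hy => by simp [h1 x hx y hy]⟩

theorem CohA.isCocA {M : Type} [AddCommGroup M] {f f' : Y → Y → M} {S : Set Y}
    (h : CohA f f' S) (h' : IsCocA f' S) : IsCocA f S := by
  obtain ⟨g, hg⟩ := h
  intro p hp
  obtain ⟨U, hU, h1⟩ := hg p hp
  obtain ⟨V, hV, h2⟩ := h' p hp
  refine ⟨U ∩ V, Filter.inter_mem hU hV, fun x hx y hy z hz => ?_⟩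
  have e : ∀ a ∈ U, ∀ b ∈ U, f a b = g b - g a + f' a b := fun a ha b hb =>
    sub_eq_iff_eq_add.1 (h1 a ha b hb)
  rw [e x hx.1 y hy.1, e y hy.1 z hz.1, e x hx.1 z hz.1, ← h2 x hx.2 y hy.2 z hz.2]
  abel

theorem Gauge.pb {Γ : Type} [Group Γ] {f f' : Y → Y → Γ} {S : Set Y} (h : Gauge f f' S)
    {j : Y' → Y} {S' : Set Y'} (hj : ∀ p ∈ S', ContinuousAt j p) (hm : MapsTo j S' S) :
    Gauge (pb j f) (pb j f') S' := by
  obtain ⟨g, hg⟩ := h
  exact ⟨g ∘ j, hg.pb hj hm⟩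

theorem Gauge.mono {Γ : Type} [Group Γ] {f f' : Y → Y → Γ} {S S' : Set Y} (h : Gauge f f' S)
    (hs : S' ⊆ S) : Gauge f f' S' := by
  obtain ⟨g, hg⟩ := h
  exact ⟨g, hg.mono hs⟩

theorem Gauge.symm {Γ : Type} [Group Γ] {f f' : Y → Y → Γ} {S : Set Y} (h : Gauge f f' S) :
    Gauge f' f S := by
  obtain ⟨g, hg⟩ := h
  refine ⟨fun x => (g x)⁻¹, fun p hp => ?_⟩
  obtain ⟨U, hU, h1⟩ := hg p hp
  refine ⟨U, hU, fun x hx y hy => ?_⟩
  have e : g x * f x y * (g y)⁻¹ = f' x y := h1 x hx y hy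
  show (g x)⁻¹ * f' x y * (g y)⁻¹⁻¹ = f x y
  rw [← e]
  group

theorem Gauge.trans {Γ : Type} [Group Γ] {f f' f'' : Y → Y → Γ} {S : Set Y} (h : Gauge f f' S)
    (h' : Gauge f' f'' S) : Gauge f f'' S := by
  obtain ⟨g, hg⟩ := h
  obtain ⟨g', hg'⟩ := h'
  refine ⟨fun x => g' x * g x, fun p hp => ?_⟩
  obtain ⟨U, hU, h1⟩ := hg p hp
  obtain ⟨V, hV, h2⟩ := hg' p hp
  refine ⟨U ∩ V, Filter.inter_mem hU hV, fun x hx y hy => ?_⟩
  have e : g x * f x y * (g y)⁻¹ = f' x y := h1 x hx.1 y hy.1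
  have e' : g' x * f' x y * (g' y)⁻¹ = f'' x y := h2 x hx.2 y hy.2
  show g' x * g x * f x y * (g' y * g y)⁻¹ = f'' x y
  rw [← e', ← e]
  group

theorem Gauge.of_locEq {Γ : Type} [Group Γ] {f f' : Y → Y → Γ} {S : Set Y} (h : LocEq f f' S) :
    Gauge f f' S := by
  refine ⟨fun _ => 1, fun p hp => ?_⟩
  obtain ⟨U, hU, h1⟩ := h p hp
  exact ⟨U, hU, fun x hx y hy => by simp [h1 x hx y hy]⟩

theorem Gauge.isCoc {Γ : Type} [Group Γ] {f f' : Y → Y → Γ} {S : Set Y} (h : Gauge f f' S)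
    (hf : IsCoc f S) : IsCoc f' S := by
  obtain ⟨g, hg⟩ := h
  refine IsCoc.congr (fun p hp => ?_) hg
  obtain ⟨U, hU, h1⟩ := hf p hp
  refine ⟨U, hU, fun x hx => ⟨?_, fun y hy z hz => ?_⟩⟩
  · simp [(h1 x hx).1]
  · show g x * f x y * (g y)⁻¹ * (g y * f y z * (g z)⁻¹) = g x * f x z * (g z)⁻¹
    rw [← (h1 x hx).2 y hy z hz]
    group

theorem isCocA_iff {h : Y → Y → E} {S : Set Y} :
    IsCocA h S ↔ dT (triv R E Y) (c1 h) ∈ N R E 3 S := by
  rw [mem_N_three]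
  refine forall₂_congr fun p _ => exists_congr fun U => and_congr_right fun _ =>
    forall₂_congr fun x _ => forall₂_congr fun y _ => forall₂_congr fun z _ => ?_
  rw [dT_three, ← sub_eq_zero]
  show _ ↔ h y z - h x z + h x y = 0
  rw [show h y z - h x z + h x y = h x y + h y z - h x z by abel]

theorem isCocA_f2 {a : List Y → E} {S : Set Y} :
    IsCocA (f2 a) S ↔ dT (triv R E Y) a ∈ N R E 3 S := by
  rw [mem_N_three]
  refine forall₂_congr fun p _ => exists_congr fun U => and_congr_right fun _ =>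
    forall₂_congr fun x _ => forall₂_congr fun y _ => forall₂_congr fun z _ => ?_
  rw [dT_three, ← sub_eq_zero]
  show a [x, y] + a [y, z] - a [x, z] = 0 ↔ a [y, z] - a [x, z] + a [x, y] = 0
  rw [show a [y, z] - a [x, z] + a [x, y] = a [x, y] + a [y, z] - a [x, z] by abel]

theorem cohA_iff {h h' : Y → Y → E} {S : Set Y} :
    CohA h h' S ↔ Exa (triv R E Y) 2 S (c1 h - c1 h') := by
  constructor
  · rintro ⟨g, hg⟩
    refine ⟨c0 g, mem_N_two.2 fun p hp => ?_⟩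
    obtain ⟨U, hU, h1⟩ := hg p hp
    refine ⟨U, hU, fun x hx y hy => ?_⟩
    rw [Pi.sub_apply, dT_two]
    exact sub_eq_zero.2 (h1 x hx y hy)
  · rintro ⟨φ, hφ⟩
    refine ⟨fun x => φ [x], fun p hp => ?_⟩
    obtain ⟨U, hU, h1⟩ := mem_N_two.1 hφ p hp
    refine ⟨U, hU, fun x hx y hy => ?_⟩
    have e := h1 x hx y hy
    rw [Pi.sub_apply, dT_two] at e
    exact sub_eq_zero.1 e

theorem sub_c1_f2_mem_N (a : List Y → E) (S : Set Y) : a - c1 (f2 a) ∈ N R E 2 S := by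
  exact mem_N_two.2 fun p _ => ⟨univ, Filter.univ_mem, fun x _ y _ => sub_self (a [x, y])⟩

theorem isCoc_triv (S : Set Y) : IsCoc (triv R E Y) S := by
  exact fun p _ => ⟨univ, Filter.univ_mem, fun x _ => ⟨rfl, fun y _ z _ => mul_one _⟩⟩

theorem IsCocA.ofAdd {M : Type} [AddCommGroup M] {h : Y → Y → M} {S : Set Y} :
    IsCocA h S ↔ IsCoc (fun x y => Multiplicative.ofAdd (h x y)) S := by
  constructor
  · intro hh p hp
    obtain ⟨U, hU, h1⟩ := hh p hp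
    refine ⟨U, hU, fun x hx => ⟨?_, fun y hy z hz => ?_⟩⟩
    · have e : h x x = 0 := by simpa using h1 x hx x hx x hx
      simp [e]
    · rw [← ofAdd_add, h1 x hx y hy z hz]
  · intro hh p hp
    obtain ⟨U, hU, h1⟩ := hh p hp
    exact ⟨U, hU, fun x hx y hy z hz => (h1 x hx).2 y hy z hz⟩

theorem IsCocA.zpow {Γ : Type} [Group Γ] (g : Γ) {h : Y → Y → ℤ} {S : Set Y} (hh : IsCocA h S) :
    IsCoc (fun x y => g ^ h x y) S := by
  exact (IsCocA.ofAdd.1 hh).map (zpowersHom Γ g)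

theorem IsCocA.zt (t : (Module.End R E)ˣ) {h : Y → Y → ℤ} {S : Set Y} (hh : IsCocA h S) :
    IsCoc (zt t h) S := by
  exact (hh.zpow t).map (Units.coeHom (Module.End R E))

theorem IsCoc.tr {Γ : Type} [Group Γ] (ρ : Representation R Γ E) {f : Y → Y → Γ} {S : Set Y}
    (hf : IsCoc f S) : IsCoc (tr ρ f) S := by
  exact hf.map ρ

theorem isCoc_mtau {F W : Type} [CommRing F] [AddCommGroup W] [Module F W] (u v : Fˣ)
    {h θ₁ θ₂ : Y → Y → ℤ} {S : Set Y} (hh : IsCocA h S) (h₁ : IsCocA θ₁ S) (h₂ : IsCocA θ₂ S) :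
    IsCoc (mtau F W u v h θ₁ θ₂) S := by
  intro p hp
  obtain ⟨U, hU, a1⟩ := hh.zpow (sh F W) p hp
  obtain ⟨U₁, hU₁, a2⟩ := h₁.zpow u p hp
  obtain ⟨U₂, hU₂, a3⟩ := h₂.zpow v p hp
  refine ⟨U ∩ (U₁ ∩ U₂), Filter.inter_mem hU (Filter.inter_mem hU₁ hU₂),
    fun x hx => ⟨?_, fun y hy z hz => ?_⟩⟩
  · simp only [mtau, shp, (a1 x hx.1).1, (a2 x hx.2.1).1, (a3 x hx.2.2).1]
    simp
  · simp only [mtau, shp]
    rw [smul_mul_smul_comm, ← Units.val_mul, ← Units.val_mul, (a1 x hx.1).2 y hy.1 z hz.1,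
      mul_mul_mul_comm, (a2 x hx.2.1).2 y hy.2.1 z hz.2.1, (a3 x hx.2.2).2 y hy.2.2 z hz.2.2]

theorem acyc0_iff {τ : Y → Y → Module.End R E} {S : Set Y} : Acyc0 τ S ↔ Acyc τ 1 S := by
  constructor
  · intro h a ha
    exact ⟨0, by simpa using h a ha⟩
  · intro h a ha
    obtain ⟨φ, hφ⟩ := h a ha
    simpa using Submodule.add_mem _ hφ (dT_mem_N_one τ S φ)

theorem Exa.mono {τ : Y → Y → Module.End R E} {n : ℕ} {S S' : Set Y} {a : List Y → E}
    (h : Exa τ n S a) (hs : S' ⊆ S) : Exa τ n S' a := by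
  obtain ⟨φ, hφ⟩ := h
  exact ⟨φ, N_mono hs hφ⟩

theorem Exa.add {τ : Y → Y → Module.End R E} {n : ℕ} {S : Set Y} {a b : List Y → E}
    (h : Exa τ n S a) (h' : Exa τ n S b) : Exa τ n S (a + b) := by
  obtain ⟨φ, hφ⟩ := h
  obtain ⟨ψ, hψ⟩ := h'
  refine ⟨φ + ψ, ?_⟩
  rw [map_add, add_sub_add_comm]
  exact Submodule.add_mem _ hφ hψ

theorem Exa.sub {τ : Y → Y → Module.End R E} {n : ℕ} {S : Set Y} {a b : List Y → E}
    (h : Exa τ n S a) (h' : Exa τ n S b) : Exa τ n S (a - b) := by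
  obtain ⟨φ, hφ⟩ := h
  obtain ⟨ψ, hψ⟩ := h'
  refine ⟨φ - ψ, ?_⟩
  rw [map_sub, sub_sub_sub_comm]
  exact Submodule.sub_mem _ hφ hψ

theorem Exa.smul {τ : Y → Y → Module.End R E} {n : ℕ} {S : Set Y} {a : List Y → E} (c : R)
    (h : Exa τ n S a) : Exa τ n S (c • a) := by
  obtain ⟨φ, hφ⟩ := h
  refine ⟨c • φ, ?_⟩
  rw [map_smul, ← smul_sub]
  exact Submodule.smul_mem _ c hφ

theorem Exa.of_mem_N {τ : Y → Y → Module.End R E} {n : ℕ} {S : Set Y} {a : List Y → E}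
    (h : a ∈ N R E n S) : Exa τ n S a := by
  exact ⟨0, by simpa using h⟩

theorem Exa.congr {τ τ' : Y → Y → Module.End R E} {n : ℕ} {S : Set Y} {a : List Y → E}
    (h : Exa τ n S a) (h' : LocEq τ τ' S) : Exa τ' n S a := by
  obtain ⟨φ, hφ⟩ := h
  refine ⟨φ, ?_⟩
  simpa using Submodule.add_mem _ hφ (dT_congr h' n φ)

theorem Exa.pull {τ : Y → Y → Module.End R E} {n : ℕ} {S : Set Y} {a : List Y → E}
    (h : Exa τ n S a) {j : Y' → Y} {S' : Set Y'} (hj : ∀ p ∈ S', ContinuousAt j p)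
    (hm : MapsTo j S' S) : Exa (pb j τ) n S' (pull R E j a) := by
  obtain ⟨φ, hφ⟩ := h
  refine ⟨HH.pull R E j φ, ?_⟩
  rw [← pull_dT, ← map_sub]
  exact pull_mem_N hj hm hφ

theorem Acyc.congr {τ τ' : Y → Y → Module.End R E} {n : ℕ} {S : Set Y} (h : Acyc τ n S)
    (h' : LocEq τ τ' S) : Acyc τ' n S := by
  intro a ha
  refine (h a ?_).congr h'
  simpa using Submodule.add_mem _ (dT_congr h' (n + 1) a) ha

/-- Invariance of acyclicity under a gauge isomorphism. -/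
theorem Acyc.gauge {τ : Y → Y → Module.End R E} {τ' : Y → Y → Module.End R E'} {n : ℕ}
    {S : Set Y} (hn : 1 ≤ n) (U : Y → E ≃ₗ[R] E')
    (hU : LocEq (fun x y => (U x : E →ₗ[R] E') ∘ₗ τ x y) (fun x y => τ' x y ∘ₗ (U y : E →ₗ[R] E')) S)
    (h : Acyc τ n S) : Acyc τ' n S := by
  intro a' ha'
  let V : Y → E →ₗ[R] E' := fun x => (U x : E →ₗ[R] E')
  let a : List Y → E := ga (fun x => ((U x).symm : E' →ₗ[R] E)) a'
  have h1 : a' - ga V a ∈ N R E' n S := by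
    refine fun p _ => ⟨univ, Filter.univ_mem, fun l hl _ => ?_⟩
    match l, hl with
    | [], hl => exact absurd hl (by simp; omega)
    | x :: l, _ =>
      show a' (x :: l) - U x ((U x).symm (a' (x :: l))) = 0
      rw [LinearEquiv.apply_symm_apply, sub_self]
  have h2 : ga V (dT τ a) ∈ N R E' (n + 1) S := by
    have := Submodule.sub_mem _ (Submodule.add_mem _ (ga_dT_mem_N hU (n + 1) a) ha')
      (dT_mem_N τ' h1)
    rw [map_sub] at this
    convert this using 1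
    abel
  obtain ⟨φ, hφ⟩ := h a (map_mem_N h2 fun l hl => by
    match l, hl with
    | [], _ => rfl
    | x :: l, hl => exact (U x).map_eq_zero_iff.1 hl)
  refine ⟨ga V φ, ?_⟩
  have := Submodule.add_mem _ (Submodule.add_mem _ h1 (ga_mem_N V hφ)) (ga_dT_mem_N hU n φ)
  rw [map_sub] at this
  convert this using 1
  abel

theorem Acyc.zt_cohA (t : (Module.End R E)ˣ) {h h' : Y → Y → ℤ} {n : ℕ} {S : Set Y} (hn : 1 ≤ n)
    (hh : CohA h h' S) (ha : Acyc (zt t h) n S) : Acyc (zt t h') n S := by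
  obtain ⟨g, hg⟩ := hh
  refine ha.gauge hn (fun x => LinearMap.GeneralLinearGroup.toLinearEquiv (t ^ g x))
    fun p hp => ?_
  obtain ⟨U, hU, h1⟩ := hg p hp
  refine ⟨U, hU, fun x hx y hy => ?_⟩
  have e : h x y - h' x y = g y - g x := h1 x hx y hy
  show (t ^ g x).1 * (t ^ h x y).1 = (t ^ h' x y).1 * (t ^ g y).1
  rw [← Units.val_mul, ← Units.val_mul, ← zpow_add, ← zpow_add,
    show g x + h x y = h' x y + g y by omega]

/-- An open embedding has a continuous inverse on its image. -/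
theorem OE.exists_inv [Nonempty Y'] {Φ : Y' → Y} {O : Set Y'} (h : OE Φ O) :
    ∃ Ψ : Y → Y', OE Ψ (Φ '' O) ∧ (∀ x ∈ O, Ψ (Φ x) = x) ∧ ∀ y ∈ Φ '' O, Φ (Ψ y) = y := by
  have l : ∀ x ∈ O, Function.invFunOn Φ O (Φ x) = x := fun x hx => h.inj.leftInvOn_invFunOn hx
  have m : ∀ y ∈ Φ '' O, Function.invFunOn Φ O y ∈ O := fun y hy => Function.invFunOn_mem hy
  have r : ∀ y ∈ Φ '' O, Φ (Function.invFunOn Φ O y) = y := fun y hy => Function.invFunOn_eq hy
  have ho := h.img O h.isOpen Subset.rfl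
  refine ⟨Function.invFunOn Φ O, ⟨ho, ?_, fun y hy y' hy' e => ?_, fun V hV hs => ?_⟩, l, r⟩
  · refine (continuousOn_open_iff ho).2 fun V hV => ?_
    have e : Φ '' O ∩ Function.invFunOn Φ O ⁻¹' V = Φ '' (V ∩ O) := by
      ext y
      constructor
      · rintro ⟨hy, hv⟩
        exact ⟨_, ⟨hv, m y hy⟩, r y hy⟩
      · rintro ⟨x, hx, rfl⟩
        exact ⟨⟨x, hx.2, rfl⟩, by rw [mem_preimage, l x hx.2]; exact hx.1⟩
    rw [e]
    exact h.img _ (hV.inter h.isOpen) inter_subset_right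
  · rw [← r y hy, e, r y' hy']
  · have e : Function.invFunOn Φ O '' V = O ∩ Φ ⁻¹' V := by
      ext x
      constructor
      · rintro ⟨y, hy, rfl⟩
        exact ⟨m y (hs hy), by rw [mem_preimage, r y (hs hy)]; exact hy⟩
      · rintro ⟨hx, hv⟩
        exact ⟨_, hv, l x hx⟩
    rw [e]
    exact h.cont.isOpen_inter_preimage h.isOpen hV

theorem OE.mono {Φ : Y' → Y} {O O' : Set Y'} (h : OE Φ O) (hO : IsOpen O') (hs : O' ⊆ O) :
    OE Φ O' := by
  exact ⟨hO, h.cont.mono hs, h.inj.mono hs, fun V hV hV' => h.img V hV (hV'.trans hs)⟩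

theorem OE.comp {Y'' : Type} [TopologicalSpace Y''] {Φ : Y' → Y} {O : Set Y'} (h : OE Φ O)
    {Φ' : Y'' → Y'} {O' : Set Y''} (h' : OE Φ' O') (hm : MapsTo Φ' O' O) : OE (Φ ∘ Φ') O' := by
  refine ⟨h'.isOpen, h.cont.comp h'.cont hm, h.inj.comp h'.inj hm, fun V hV hs => ?_⟩
  rw [image_comp]
  exact h.img _ (h'.img V hV hs) ((hm.mono_left hs).image_subset)

theorem OE.of_homeomorph (H : Y' ≃ₜ Y) {O : Set Y'} (hO : IsOpen O) : OE H O := by
  exact ⟨hO, H.continuous.continuousOn, H.injective.injOn, fun V hV _ => H.isOpenMap V hV⟩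

theorem OE.of_openPartialHomeomorph (e : OpenPartialHomeomorph Y' Y) : OE e e.source := by
  exact ⟨e.open_source, e.continuousOn, e.injOn, fun V hV hs =>
    e.isOpen_image_of_subset_source hV hs⟩

theorem OE.exists_openPartialHomeomorph [Nonempty Y'] {Φ : Y' → Y} {O : Set Y'} (h : OE Φ O) :
    ∃ e : OpenPartialHomeomorph Y' Y, e.source = O ∧ e.target = Φ '' O ∧ ∀ x, e x = Φ x := by
  obtain ⟨Ψ, hΨ, l, r⟩ := h.exists_inv
  exact ⟨
    { toFun := Φ
      invFun := Ψ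
      source := O
      target := Φ '' O
      map_source' := fun x hx => ⟨x, hx, rfl⟩
      map_target' := by
        rintro _ ⟨x, hx, rfl⟩
        rw [l x hx]
        exact hx
      left_inv' := l
      right_inv' := r
      open_source := h.isOpen
      open_target := hΨ.isOpen
      continuousOn_toFun := h.cont
      continuousOn_invFun := hΨ.cont }, rfl, rfl, fun _ => rfl⟩

namespace RBasic2

theorem pull_iff {Φ : Y' → Y} {O : Set Y'} (h : OE Φ O) {S : Set Y'} (hS : S ⊆ O) (n : ℕ)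
    (a : List Y → E) : pull R E Φ a ∈ N R E n S ↔ a ∈ N R E n (Φ '' S) := by
  constructor
  · rintro ha _ ⟨x, hx, rfl⟩
    have : Nonempty Y' := ⟨x⟩
    obtain ⟨U, hU, h1⟩ := ha x hx
    refine ⟨Φ '' (interior U ∩ O), (h.img _ (isOpen_interior.inter h.isOpen)
      inter_subset_right).mem_nhds ⟨x, ⟨mem_interior_iff_mem_nhds.2 hU, hS hx⟩, rfl⟩,
      fun l hl hm => ?_⟩
    have e : (l.map (Function.invFunOn Φ (interior U ∩ O))).map Φ = l := by
      rw [List.map_map]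
      conv_rhs => rw [← List.map_id l]
      exact List.map_congr_left fun y hy => Function.invFunOn_eq (hm y hy)
    have := h1 (l.map (Function.invFunOn Φ (interior U ∩ O))) (by simpa using hl) (by
      intro z hz
      obtain ⟨y, hy, rfl⟩ := List.mem_map.1 hz
      exact interior_subset (Function.invFunOn_mem (hm y hy)).1)
    rwa [← e]
  · exact pull_mem_N (fun p hp => h.cont.continuousAt (h.isOpen.mem_nhds (hS hp)))
      (mapsTo_image Φ S)

theorem exa_iff {Φ : Y' → Y} {O : Set Y'} (h : OE Φ O) (τ : Y → Y → Module.End R E) (n : ℕ)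
    (a : List Y → E) : Exa (pb Φ τ) n O (pull R E Φ a) ↔ Exa τ n (Φ '' O) a := by
  refine ⟨fun ha => ?_, fun ha => ha.pull
    (fun p hp => h.cont.continuousAt (h.isOpen.mem_nhds hp)) (mapsTo_image Φ O)⟩
  rcases O.eq_empty_or_nonempty with rfl | ⟨o, -⟩
  · rw [image_empty]
    exact Exa.of_mem_N (mem_N_empty _ _)
  have : Nonempty Y' := ⟨o⟩
  obtain ⟨Ψ, hΨ, l, r⟩ := h.exists_inv
  have hid : ∀ p ∈ Φ '' O, ∀ᶠ x in 𝓝 p, (Φ ∘ Ψ) x = x := fun p hp =>
    Filter.mem_of_superset (hΨ.isOpen.mem_nhds hp) r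
  have h1 := ha.pull (j := Ψ) (S' := Φ '' O)
    (fun p hp => hΨ.cont.continuousAt (hΨ.isOpen.mem_nhds hp)) (by
      rintro _ ⟨x, hx, rfl⟩
      rw [l x hx]
      exact hx)
  rw [pull_pull] at h1
  have h2 : Exa τ n (Φ '' O) (pull R E (Φ ∘ Ψ) a) := h1.congr (locEq_pb_of_id τ hid)
  simpa using h2.sub (Exa.of_mem_N (pull_sub_mem_N hid n a))

end RBasic2

/-- Acyclicity is transported along open embeddings, in both directions. -/
theorem OE.acyc_iff {Φ : Y' → Y} {O : Set Y'} (h : OE Φ O) (τ : Y → Y → Module.End R E) (n : ℕ) :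
    Acyc (pb Φ τ) n O ↔ Acyc τ n (Φ '' O) := by
  constructor
  · intro ha a hd
    refine (RBasic2.exa_iff h τ n a).1 (ha _ ?_)
    rw [← pull_dT]
    exact (RBasic2.pull_iff h Subset.rfl _ _).2 hd
  · intro ha a' hd
    rcases O.eq_empty_or_nonempty with rfl | ⟨o, -⟩
    · exact Exa.of_mem_N (mem_N_empty _ _)
    have : Nonempty Y' := ⟨o⟩
    obtain ⟨Ψ, -, l, -⟩ := h.exists_inv
    have h1 : ∀ m, pull R E Φ (pull R E Ψ a') - a' ∈ N R E m O := fun m => by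
      rw [pull_pull]
      exact pull_sub_mem_N (fun p hp => Filter.mem_of_superset (h.isOpen.mem_nhds hp) l) m a'
    have h2 := (RBasic2.exa_iff h τ n _).2 (ha (pull R E Ψ a') (by
      rw [← RBasic2.pull_iff h Subset.rfl, pull_dT]
      simpa using Submodule.add_mem _ (dT_mem_N (pb Φ τ) (h1 n)) hd))
    simpa using h2.sub (Exa.of_mem_N (h1 n))

theorem OE.exa_iff {Φ : Y' → Y} {O : Set Y'} (h : OE Φ O) (τ : Y → Y → Module.End R E) (n : ℕ)
    (a : List Y → E) : Exa (pb Φ τ) n O (pull R E Φ a) ↔ Exa τ n (Φ '' O) a := by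
  exact RBasic2.exa_iff h τ n a

theorem OE.pull_mem_N_iff {Φ : Y' → Y} {O : Set Y'} (h : OE Φ O) {S : Set Y'} (hS : S ⊆ O) (n : ℕ)
    (a : List Y → E) : pull R E Φ a ∈ N R E n S ↔ a ∈ N R E n (Φ '' S) := by
  exact RBasic2.pull_iff h hS n a

/-- Local flatness is transported along open embeddings. -/
theorem Flat.image {V : Type} [TopologicalSpace V] {Φ : Y' → Y} {O : Set Y'} (h : OE Φ O)
    {A : Set Y'} (hA : A ⊆ O) (hf : Flat V A) : Flat V (Φ '' A) := by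
  rintro _ ⟨x, hx, rfl⟩
  have : Nonempty Y' := ⟨x⟩
  obtain ⟨e, he, h1⟩ := hf x hx
  obtain ⟨E, hs, ht, hE⟩ := h.exists_openPartialHomeomorph
  have hxs : x ∈ E.source := hs ▸ hA hx
  refine ⟨E.symm.trans e, ⟨?_, ?_⟩, fun y hy => ?_⟩
  · rw [← hE]
    exact E.map_source hxs
  · rw [← hE, mem_preimage]
    show E.symm (E x) ∈ e.source
    rwa [E.left_inv hxs]
  · have hy1 : y ∈ E.target := hy.1
    have hy2 : E.symm y ∈ e.source := hy.2
    refine Iff.trans ?_ (h1 (E.symm y) hy2)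
    constructor
    · rintro ⟨z, hz, rfl⟩
      rw [← hE, E.left_inv (hs ▸ hA hz)]
      exact hz
    · intro hz
      exact ⟨_, hz, by rw [← hE, E.right_inv hy1]⟩

/-- Local flatness is a local property. -/
theorem Flat.of_local {V : Type} [TopologicalSpace V] {A : Set Y}
    (h : ∀ p ∈ A, ∃ U A', IsOpen U ∧ p ∈ U ∧ Flat V A' ∧ U ∩ A = U ∩ A') : Flat V A := by
  intro p hp
  obtain ⟨U, A', hU, hpU, hf, e⟩ := h p hp
  have hp' : p ∈ U ∩ A' := e ▸ ⟨hpU, hp⟩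
  obtain ⟨c, hc, h1⟩ := hf p hp'.2
  refine ⟨c.restrOpen U hU, ⟨hc, hpU⟩, fun x hx => Iff.trans ?_ (h1 x hx.1)⟩
  have := Set.ext_iff.1 e x
  simpa [hx.2] using this

theorem barE_pk {F G : Type} [Field F] [AddCommGroup G] [Module F G] {T L : Module.End F G}
    (h : Commute L T) (k : ℕ) (x : G) : pk T k (L x) = barE T k L (pk T k x) := by
  have hl : LinearMap.range (T ^ k) ≤ (LinearMap.range (T ^ k)).comap L := by
    rintro _ ⟨y, rfl⟩
    exact ⟨L y, (LinearMap.congr_fun (h.pow_right k).eq y).symm⟩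
  rw [barE, dif_pos hl]
  rfl

theorem barE_mul {F G : Type} [Field F] [AddCommGroup G] [Module F G] {T L L' : Module.End F G}
    (h : Commute L T) (h' : Commute L' T) (k : ℕ) :
    barE T k (L * L') = barE T k L * barE T k L' := by
  refine LinearMap.ext fun x => ?_
  obtain ⟨y, rfl⟩ := (LinearMap.range (T ^ k)).mkQ_surjective x
  rw [Module.End.mul_apply, ← barE_pk (h.mul_left h'), ← barE_pk h', ← barE_pk h]
  rfl

theorem barE_one {F G : Type} [Field F] [AddCommGroup G] [Module F G] (T : Module.End F G)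
    (k : ℕ) : barE T k 1 = 1 := by
  refine LinearMap.ext fun x => ?_
  obtain ⟨y, rfl⟩ := (LinearMap.range (T ^ k)).mkQ_surjective x
  rw [← barE_pk (Commute.one_left T)]
  rfl

omit [TopologicalSpace Y] in
theorem cm_pk_dT {F G : Type} [Field F] [AddCommGroup G] [Module F G] {T : Module.End F G}
    {τ : Y → Y → Module.End F G} (h : ∀ x y, Commute (τ x y) T) (k : ℕ) (a : List Y → G) :
    cm (pk T k) (dT τ a) = dT (bar T k τ) (cm (pk T k) a) := by
  exact cm_dT _ _ _ (fun x y e => barE_pk (h x y) k e) a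

theorem IsCoc.bar {F G : Type} [Field F] [AddCommGroup G] [Module F G] {T : Module.End F G}
    {τ : Y → Y → Module.End F G} (h : ∀ x y, Commute (τ x y) T) (k : ℕ) {S : Set Y}
    (hτ : IsCoc τ S) : IsCoc (bar T k τ) S := by
  intro p hp
  obtain ⟨U, hU, h1⟩ := hτ p hp
  refine ⟨U, hU, fun x hx => ⟨?_, fun y hy z hz => ?_⟩⟩
  · show barE T k (τ x x) = 1
    rw [(h1 x hx).1, barE_one]
  · show barE T k (τ x y) * barE T k (τ y z) = barE T k (τ x z)
    rw [← barE_mul (h x y) (h y z), (h1 x hx).2 y hy z hz]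

end Pool.Agent.HH
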