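import Pool.Agent.P.MP_c8dc46_gt.FDefs

/-!
The bootstrap lemma for open subsets of `ℝ⁴`: finite unions of boxes first, then shells of a proper
function on the open set.
-/

open Set Topology

namespace Pool.Agent.HH

/-- Open boxes (possibly empty). -/
def IsBox (U : Set R4) : Prop := ∃ a b : R4, U = univ.pi fun i => Ioo (a i) (b i)

theorem IsBox.inter {U V : Set R4} (hU : IsBox U) (hV : IsBox V) : IsBox (U ∩ V) := by
  obtain ⟨a, b, rfl⟩ := hU
  obtain ⟨c, d, rfl⟩ := hV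
  exact ⟨fun i => max (a i) (c i), fun i => min (b i) (d i), by
    rw [← pi_inter_distrib]; simp only [Ioo_inter_Ioo]⟩

theorem IsBox.isOpen {U : Set R4} (hU : IsBox U) : IsOpen U := by
  obtain ⟨a, b, rfl⟩ := hU
  exact isOpen_set_pi finite_univ fun _ _ => isOpen_Ioo

theorem IsBox.convex {U : Set R4} (hU : IsBox U) : Convex ℝ U := by
  obtain ⟨a, b, rfl⟩ := hU
  exact convex_pi fun _ _ => convex_Ioo _ _

namespace RBoot

/-- Unions of `n` boxes. -/
def Fu : ℕ → Set R4 → Prop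
  | 0, W => W = ∅
  | n + 1, W => ∃ B W', IsBox B ∧ Fu n W' ∧ W = B ∪ W'

theorem Fu.isOpen : ∀ {n W}, Fu n W → IsOpen W
  | 0, _, h => h ▸ isOpen_empty
  | _ + 1, _, ⟨_, _, h, h', e⟩ => e ▸ h.isOpen.union h'.isOpen

theorem Fu.box {B : Set R4} (hB : IsBox B) : ∀ {n W}, Fu n W → Fu n (B ∩ W)
  | 0, _, h => by rw [show _ = ∅ from h]; exact inter_empty B
  | _ + 1, _, ⟨_, _, h, h', e⟩ => ⟨_, _, hB.inter h, h'.box hB, by rw [e, inter_union_distrib_left]⟩

theorem Fu.union {m : ℕ} {V : Set R4} (hV : Fu m V) : ∀ {n W}, Fu n W → Fu (m + n) (W ∪ V)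
  | 0, _, h => by rw [show _ = ∅ from h, empty_union]; exact hV
  | _ + 1, _, ⟨_, _, h, h', e⟩ => ⟨_, _, h, hV.union h', by rw [e, union_assoc]⟩

theorem Fu.inter {m : ℕ} {V : Set R4} (hV : Fu m V) : ∀ {n W}, Fu n W → ∃ k, Fu k (W ∩ V)
  | 0, _, h => ⟨0, by rw [show _ = ∅ from h]; exact empty_inter V⟩
  | _ + 1, _, ⟨_, _, h, h', e⟩ => by
    obtain ⟨k, hk⟩ := hV.inter h'
    exact ⟨_, by rw [e, union_inter_distrib_right]; exact hk.union (hV.box h)⟩

theorem cover {K V : Set R4} (hK : IsCompact K) (hV : IsOpen V) (h : K ⊆ V) :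
    ∃ A, (∃ n, Fu n A) ∧ K ⊆ A ∧ A ⊆ V := by
  refine hK.induction_on (p := fun S => ∃ A, (∃ n, Fu n A) ∧ S ⊆ A ∧ A ⊆ V)
    ⟨∅, ⟨0, rfl⟩, Subset.rfl, empty_subset _⟩
    (fun _ _ e ⟨A, a, b, c⟩ => ⟨A, a, e.trans b, c⟩)
    (fun _ _ ⟨A, ⟨_, a⟩, b, c⟩ ⟨_, ⟨_, a'⟩, b', c'⟩ =>
      ⟨_, ⟨_, a'.union a⟩, union_subset_union b b', union_subset c c'⟩) fun x hx => ?_
  obtain ⟨e, he, hb⟩ := Metric.isOpen_iff.1 hV x (h hx)
  refine ⟨_, mem_nhdsWithin_of_mem_nhds (Metric.ball_mem_nhds x he), _,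
    ⟨1, _, ∅, ⟨fun i => x i - e, fun i => x i + e, ?_⟩, rfl, (union_empty _).symm⟩, Subset.rfl, hb⟩
  simp only [ball_pi x he, Real.ball_eq_Ioo]

theorem proper {O : Set R4} (hO : IsOpen O) : ∃ f : R4 → ℝ, ContinuousOn f O ∧ (∀ x, 0 ≤ f x) ∧
    ∀ c, IsCompact (O ∩ f ⁻¹' Iic c) := by
  rcases Oᶜ.eq_empty_or_nonempty with h | h
  · obtain rfl := compl_empty_iff.1 h
    refine ⟨norm, continuous_norm.continuousOn, norm_nonneg, fun c => ?_⟩
    have e : univ ∩ norm ⁻¹' Iic c = Metric.closedBall (0 : R4) c := by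
      ext x; simp
    exact e ▸ isCompact_closedBall _ _
  have hp : ∀ x, x ∈ O ↔ 0 < Metric.infDist x Oᶜ := fun x => by
    rw [← hO.isClosed_compl.notMem_iff_infDist_pos h]; simp
  have hc : ContinuousOn (fun x => ‖x‖ + (Metric.infDist x Oᶜ)⁻¹) O :=
    continuous_norm.continuousOn.add
      ((Metric.continuous_infDist_pt _).continuousOn.inv₀ fun x hx => ((hp x).1 hx).ne')
  refine ⟨_, hc, fun x => add_nonneg (norm_nonneg _) (inv_nonneg.2 Metric.infDist_nonneg),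
    fun c => ?_⟩
  have hC : IsCompact (Metric.closedBall (0 : R4) c ∩ {x | 1 ≤ c * Metric.infDist x Oᶜ}) :=
    (isCompact_closedBall _ _).inter_right (isClosed_le continuous_const
      (continuous_const.mul (Metric.continuous_infDist_pt _)))
  have hs : Metric.closedBall (0 : R4) c ∩ {x | 1 ≤ c * Metric.infDist x Oᶜ} ⊆ O := fun x hx =>
    (hp x).2 (Metric.infDist_nonneg.lt_of_ne fun e => by
      have := hx.2
      rw [mem_ofPred_eq, ← e, mul_zero] at this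
      linarith)
  convert hC.of_isClosed_subset ((hc.mono hs).preimage_isClosed_of_isClosed hC.isClosed
    (isClosed_Iic (a := c))) inter_subset_left using 1
  refine Subset.antisymm (fun x hx => ⟨?_, hx.2⟩) (inter_subset_inter_left _ hs)
  have h1 := (hp x).1 hx.1
  have h2 : ‖x‖ + (Metric.infDist x Oᶜ)⁻¹ ≤ c := hx.2
  have h3 := inv_pos.2 h1
  refine ⟨mem_closedBall_zero_iff.2 (by linarith), ?_⟩
  rw [mem_ofPred_eq, ← inv_mul_cancel₀ h1.ne']
  exact mul_le_mul_of_nonneg_right (by linarith [norm_nonneg x]) h1.le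

end RBoot

open RBoot

theorem boot {X : Set R4} (Q : Set R4 → Prop) (hbox : ∀ U, IsBox U → U ⊆ X → Q U)
    (hun : ∀ U V, IsOpen U → IsOpen V → U ⊆ X → V ⊆ X → Q U → Q V → Q (U ∩ V) → Q (U ∪ V))
    (hdis : ∀ U : ℕ → Set R4, (∀ i, IsOpen (U i)) → (∀ i, U i ⊆ X) →
      (Pairwise fun i j => Disjoint (U i) (U j)) → (∀ i, Q (U i)) → Q (⋃ i, U i))
    {O : Set R4} (hO : IsOpen O) (hOX : O ⊆ X) : Q O := by
  have hF : ∀ n W, Fu n W → W ⊆ X → Q W := by
    intro n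
    induction n with
    | zero =>
      intro W h _
      rw [show W = ∅ from h]
      exact hbox _ ⟨0, 0, (univ_pi_eq_empty (i := 0) (by simp)).symm⟩ (empty_subset _)
    | succ n ih =>
      rintro _ ⟨B, W, h, h', rfl⟩ hX
      have a := subset_union_left.trans hX
      have b := subset_union_right.trans hX
      exact hun _ _ h.isOpen h'.isOpen a b (hbox _ h a) (ih _ h' b)
        (ih _ (h'.box h) (inter_subset_left.trans a))
  obtain ⟨f, hf, h0, hc⟩ := proper hO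
  choose A a1 a2 a3 using fun k : ℕ => cover
    ((hc (k + 1)).diff (hf.isOpen_inter_preimage hO (isOpen_Iio (a := (k : ℝ)))))
    (hf.isOpen_inter_preimage hO (isOpen_Ioo (a := (k : ℝ) - 1 / 3) (b := k + 4 / 3)))
    fun x hx => ⟨hx.1.1, by
      have h1 : f x ≤ k + 1 := hx.1.2
      have h2 : (k : ℝ) ≤ f x := not_lt.1 fun e => hx.2 ⟨hx.1.1, e⟩
      constructor <;> linarith⟩
  have o : ∀ k, IsOpen (A k) := fun k => (a1 k).choose_spec.isOpen
  have s : ∀ k, A k ⊆ X := fun k => (a3 k).trans (inter_subset_left.trans hOX)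
  have q : ∀ k, Q (A k) := fun k => hF _ _ (a1 k).choose_spec (s k)
  have n : ∀ {x j k}, x ∈ A j → x ∈ A k → j ≤ k + 1 := fun {x j k} h h' => by
    have h1 := (a3 j h).2.1
    have h2 := (a3 k h').2.2
    have : (j : ℝ) < ((k + 2 : ℕ) : ℝ) := by push_cast; linarith
    exact Nat.lt_succ_iff.1 (Nat.cast_lt.1 this)
  have e1 : O = (⋃ i, A (2 * i)) ∪ ⋃ i, A (2 * i + 1) := by
    refine Subset.antisymm (fun x hx => ?_) (union_subset
      (iUnion_subset fun _ => (a3 _).trans inter_subset_left)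
      (iUnion_subset fun _ => (a3 _).trans inter_subset_left))
    have h : x ∈ A ⌊f x⌋₊ :=
      a2 _ ⟨⟨hx, (Nat.lt_floor_add_one (f x)).le⟩, fun e => (Nat.floor_le (h0 x)).not_gt e.2⟩
    obtain ⟨i, e | e⟩ := Nat.even_or_odd' ⌊f x⌋₊
    exacts [.inl (mem_iUnion.2 ⟨i, e ▸ h⟩), .inr (mem_iUnion.2 ⟨i, e ▸ h⟩)]
  have e2 : ((⋃ i, A (2 * i)) ∩ ⋃ i, A (2 * i + 1)) = ⋃ k, A k ∩ A (k + 1) := by
    ext x
    simp only [mem_inter_iff, mem_iUnion]
    constructor
    · rintro ⟨⟨i, h⟩, j, h'⟩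
      have := n h h'
      have := n h' h
      obtain rfl | rfl : i = j ∨ i = j + 1 := by omega
      exacts [⟨_, h, h'⟩, ⟨_, h', h⟩]
    · rintro ⟨k, h, h'⟩
      obtain ⟨i, rfl | rfl⟩ := Nat.even_or_odd' k
      exacts [⟨⟨i, h⟩, i, h'⟩, ⟨⟨i + 1, h'⟩, i, h⟩]
  rw [e1]
  refine hun _ _ (isOpen_iUnion fun _ => o _) (isOpen_iUnion fun _ => o _)
    (iUnion_subset fun _ => s _) (iUnion_subset fun _ => s _)
    (hdis _ (fun _ => o _) (fun _ => s _) (fun i j h => disjoint_left.2 fun x a b => ?_) fun _ => q _)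
    (hdis _ (fun _ => o _) (fun _ => s _) (fun i j h => disjoint_left.2 fun x a b => ?_) fun _ => q _)
    (e2 ▸ hdis _ (fun _ => (o _).inter (o _)) (fun _ => inter_subset_left.trans (s _))
      (fun i j h => disjoint_left.2 fun x a b => ?_) fun k => ?_)
  · have := n a b
    have := n b a
    omega
  · have := n a b
    have := n b a
    omega
  · have := n a.2 b.1
    have := n b.2 a.1
    omega
  · obtain ⟨_, h⟩ := (a1 (k + 1)).choose_spec.inter (a1 k).choose_spec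
    exact hF _ _ h (inter_subset_left.trans (s _))

end Pool.Agent.HH
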