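import Pool.Agent.P.MP_c8dc46_gt.Convex
import Pool.Agent.P.MP_c8dc46_gt.Boot

/-!
Cohomology of `ℝ⁴` with supports, that is, relative to an open set `W`: it vanishes for nonempty
convex `W` and, by the Mayer-Vietoris argument, for unions of a half space with cylinders; four
connecting maps lead from `W = ∅` to the complement of a compact box.
-/

open Set Topology

namespace Pool.Agent.HH

variable {R E : Type} [CommRing R] [AddCommGroup E] [Module R E]

/-- The fundamental cochain with coefficient `e`. -/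
noncomputable def omE (R : Type) {E : Type} [CommRing R] [AddCommGroup E] [Module R E] (c : R4)
    (e : E) : List R4 → E :=
  lc (triv R E R4) (jmp {x | c 0 < x 0}) (lc (triv R E R4) (jmp {x | c 1 < x 1})
    (lc (triv R E R4) (jmp {x | c 2 < x 2}) (lc (triv R E R4) (jmp {x | c 3 < x 3})
      (c0 fun _ => e))))

namespace RBox

/-- `φ - φ'` is a coboundary relative to `W`. -/
def Rl (R : Type) {E : Type} [CommRing R] [AddCommGroup E] [Module R E] (W : Set R4) (n : ℕ)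
    (φ φ' : List R4 → E) : Prop :=
  ∃ ψ ∈ N R E (n - 1) W, φ - φ' - dT (triv R E R4) ψ ∈ N R E n univ

/-- Cocycles relative to `W`. -/
def Zc (R : Type) {E : Type} [CommRing R] [AddCommGroup E] [Module R E] (W : Set R4) (n : ℕ)
    (φ : List R4 → E) : Prop :=
  φ ∈ N R E n W ∧ dT (triv R E R4) φ ∈ N R E (n + 1) univ

/-- The cohomology relative to `W` vanishes. -/
def HA (R E : Type) [CommRing R] [AddCommGroup E] [Module R E] (W : Set R4) : Prop :=
  ∀ n, 1 ≤ n → ∀ φ : List R4 → E, Zc R W n φ → Rl R W n φ 0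

/-- The connecting map of the hyperplane `x i = c`. -/
noncomputable def dl (R : Type) {E : Type} [CommRing R] [AddCommGroup E] [Module R E] (i : Fin 4)
    (c : ℝ) : (List R4 → E) →ₗ[R] (List R4 → E) :=
  lc (triv R E R4) (jmp {x | c < x i})

theorem of_eq {M : Submodule R (List R4 → E)} {a b : List R4 → E} (h : a ∈ M) (e : b = a) :
    b ∈ M := e ▸ h

theorem toW {n : ℕ} (W : Set R4) {φ : List R4 → E} (h : φ ∈ N R E n (univ : Set R4)) :
    φ ∈ N R E n W := N_mono (subset_univ W) h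

theorem Rl.trans {W : Set R4} {n : ℕ} {φ φ' φ'' : List R4 → E} (h : Rl R W n φ φ')
    (h' : Rl R W n φ' φ'') : Rl R W n φ φ'' := by
  obtain ⟨ψ, h1, h2⟩ := h
  obtain ⟨ψ', h3, h4⟩ := h'
  exact ⟨ψ + ψ', add_mem h1 h3, of_eq (add_mem h2 h4) (by rw [map_add]; abel)⟩

theorem rl_of_N {W : Set R4} {n : ℕ} {φ φ' : List R4 → E} (h : φ - φ' ∈ N R E n (univ : Set R4)) :
    Rl R W n φ φ' := ⟨0, zero_mem _, by simpa using h⟩

theorem Rl.one {W : Set R4} {φ φ' : List R4 → E} (h : Rl R W 1 φ φ') :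
    φ - φ' ∈ N R E 1 (univ : Set R4) := by
  obtain ⟨ψ, -, h2⟩ := h
  exact of_eq (add_mem h2 (dT_mem_N_one (triv R E R4) univ ψ)) (by abel)

theorem len_N {n : ℕ} {S : Set R4} {φ : List R4 → E} (h : ∀ l, l.length = n → φ l = 0) :
    φ ∈ N R E n S := fun _ _ => ⟨univ, Filter.univ_mem, fun l hl _ => h l hl⟩

theorem d_c0 (e : E) (n : ℕ) :
    dT (triv R E R4) (c0 fun _ => e) ∈ N R E n (univ : Set R4) := by
  match n with
  | 0 => exact len_N fun l hl => by rw [List.length_eq_zero_iff.1 hl]; rfl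
  | 1 => exact dT_mem_N_one _ _ _
  | 2 =>
    refine mem_N_two.2 fun _ _ => ⟨univ, Filter.univ_mem, fun x _ y _ => ?_⟩
    rw [dT_two]
    simp [triv, c0]
  | n + 3 =>
    refine dT_mem_N _ (len_N fun l hl => ?_)
    match l, hl with
    | _ :: _ :: _, _ => rfl

theorem par_const {V : Set R4} (hV : IsPreconnected V) {φ : List R4 → E}
    (h : dT (triv R E R4) φ ∈ N R E 2 V) {p : R4} (hp : p ∈ V) :
    φ - (c0 fun _ => φ [p]) ∈ N R E 1 V :=
  par_zero (isCoc_triv V) hV (of_eq (sub_mem h (toW V (d_c0 _ 2))) (map_sub _ _ _)) hp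
    (by simp [c0])

theorem val_zero {V : Set R4} {φ : List R4 → E} (h : φ ∈ N R E 1 V) {p : R4} (hp : p ∈ V) :
    φ [p] = 0 := (mem_N_one.1 h p hp).self_of_nhds

theorem ha_convex {V : Set R4} (hO : IsOpen V) (hc : Convex ℝ V) (hn : V.Nonempty) : HA R E V := by
  obtain ⟨p, hp⟩ := hn
  rintro n h1 φ ⟨h2, h3⟩
  match n, h1 with
  | 1, _ =>
    exact rl_of_N (by
      simpa using par_zero (isCoc_triv univ) isPreconnected_univ h3 (mem_univ p) (val_zero h2 hp))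
  | n + 2, _ =>
    obtain ⟨y, hy⟩ := acyc_convex isOpen_univ convex_univ (isCoc_triv univ) (by omega) φ h3
    have hdy : dT (triv R E R4) y ∈ N R E (n + 2) V := of_eq (sub_mem h2 (toW V hy)) (by abel)
    match n with
    | 0 =>
      exact ⟨_, par_const hc.isPreconnected hdy hp,
        of_eq (add_mem hy (d_c0 (y [p]) 2)) (by rw [map_sub]; abel)⟩
    | n + 1 =>
      obtain ⟨z, hz⟩ := acyc_convex hO hc (isCoc_triv V) (by omega : 2 ≤ n + 2) y hdy
      exact ⟨_, hz, of_eq hy (by rw [map_sub, dT_triv_dT]; abel)⟩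

theorem ha_union {V V' : Set R4} (hV : IsOpen V) (hV' : IsOpen V') (h : HA R E V) (h' : HA R E V')
    (hi : HA R E (V ∩ V')) : HA R E (V ∪ V') := by
  rintro n h1 φ ⟨h2, h3⟩
  obtain ⟨a1, a2⟩ := mem_N_union.1 h2
  have r := h n h1 φ ⟨a1, h3⟩
  match n, h1 with
  | 1, _ => exact rl_of_N r.one
  | n + 2, _ =>
    obtain ⟨y, hy, hyd⟩ := r
    obtain ⟨y', hy', hyd'⟩ := h' (n + 2) (by omega) φ ⟨a2, h3⟩
    have r' := hi (n + 1) (by omega) (y - y')
      ⟨sub_mem (N_mono inter_subset_left hy) (N_mono inter_subset_right hy'),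
        of_eq (sub_mem hyd' hyd) (by rw [map_sub]; abel)⟩
    match n with
    | 0 =>
      exact ⟨y', mem_N_union.2 ⟨of_eq (sub_mem hy (toW V r'.one)) (by abel), hy'⟩, hyd'⟩
    | n + 1 =>
      obtain ⟨z, hz, hzd⟩ := r'
      obtain ⟨z1, hz1, z2, hz2, rfl⟩ :=
        Submodule.mem_sup.1 (N_inter_open (by omega : 1 ≤ n + 1) hV hV' hz)
      refine ⟨y' + dT (triv R E R4) z2, mem_N_union.2 ⟨?_, add_mem hy' (dT_mem_N _ hz2)⟩,
        of_eq hyd' (by rw [map_add, dT_triv_dT]; abel)⟩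
      exact of_eq (sub_mem (sub_mem hy (dT_mem_N (triv R E R4) hz1)) (toW V hzd))
        (by rw [map_add]; abel)

/-- Open convex sets that do not depend on the coordinate `i`. -/
def Cyl (i : Fin 4) (V : Set R4) : Prop :=
  IsOpen V ∧ Convex ℝ V ∧ ∀ x ∈ V, ∀ t, Function.update x i t ∈ V

/-- The union of a list of sets. -/
def un : List (Set R4) → Set R4
  | [] => ∅
  | V :: L => V ∪ un L

theorem un_open {L : List (Set R4)} (h : ∀ V ∈ L, IsOpen V) : IsOpen (un L) := by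
  induction L with
  | nil => exact isOpen_empty
  | cons V L ih =>
    exact (h V List.mem_cons_self).union (ih fun U hU => h U (List.mem_cons_of_mem V hU))

theorem un_inter (V : Set R4) (L : List (Set R4)) : V ∩ un L = un (L.map fun U => V ∩ U) := by
  induction L with
  | nil => exact inter_empty V
  | cons U L ih => rw [List.map_cons, un, un, ← ih, inter_union_distrib_left]

theorem ha_cyl {i : Fin 4} {U : Set R4} (hO : IsOpen U) (hc : Convex ℝ U) {t : ℝ}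
    (ht : ∀ x, Function.update x i t ∈ U) (k : ℕ) :
    ∀ L : List (Set R4), L.length = k → (∀ V ∈ L, Cyl i V) → HA R E (U ∪ un L) := by
  have hU : HA R E U := ha_convex hO hc ⟨_, ht 0⟩
  induction k with
  | zero =>
    intro L hL _
    rw [List.length_eq_zero_iff.1 hL, un, union_empty]
    exact hU
  | succ k ih =>
    intro L hL hC
    match L, hL with
    | V :: L, hL =>
      have hk : L.length = k := by simpa using hL
      obtain ⟨v1, v2, v3⟩ := hC V List.mem_cons_self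
      have hC' : ∀ U ∈ L, Cyl i U := fun U hU => hC U (List.mem_cons_of_mem V hU)
      have h1 : HA R E (U ∪ V) := by
        rcases V.eq_empty_or_nonempty with rfl | ⟨x, hx⟩
        · rwa [union_empty]
        · exact ha_union hO v1 hU (ha_convex v1 v2 ⟨x, hx⟩)
            (ha_convex (hO.inter v1) (hc.inter v2) ⟨_, ht x, v3 x hx t⟩)
      have h2 := ih (L.map fun U => V ∩ U) (by simpa using hk) fun U' hU' => by
        obtain ⟨U, hU, rfl⟩ := List.mem_map.1 hU'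
        obtain ⟨u1, u2, u3⟩ := hC' U hU
        exact ⟨v1.inter u1, v2.inter u2, fun x hx t => ⟨v3 x hx.1 t, u3 x hx.2 t⟩⟩
      rw [← un_inter, union_inter_distrib_left] at h2
      rw [un, union_union_distrib_left]
      exact ha_union (hO.union v1) (hO.union (un_open fun U hU => (hC' U hU).1)) h1
        (ih L hk hC') h2

/-- Lower half space. -/
def lo (i : Fin 4) (a : ℝ) : Set R4 := {x | x i < a}

/-- Upper half space. -/
def hi (i : Fin 4) (b : ℝ) : Set R4 := {x | b < x i}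

theorem lo_open (i : Fin 4) (a : ℝ) : IsOpen (lo i a) :=
  isOpen_lt (continuous_apply i) continuous_const

theorem hi_open (i : Fin 4) (a : ℝ) : IsOpen (hi i a) :=
  isOpen_lt continuous_const (continuous_apply i)

theorem lo_convex (i : Fin 4) (a : ℝ) : Convex ℝ (lo i a) :=
  (convex_Iio a).linear_preimage (LinearMap.proj i : R4 →ₗ[ℝ] ℝ)

theorem hi_convex (i : Fin 4) (a : ℝ) : Convex ℝ (hi i a) :=
  (convex_Ioi a).linear_preimage (LinearMap.proj i : R4 →ₗ[ℝ] ℝ)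

theorem lo_cyl {i j : Fin 4} (h : j ≠ i) (a : ℝ) : Cyl i (lo j a) :=
  ⟨lo_open j a, lo_convex j a, fun x hx t => by simpa [lo, Function.update_of_ne h] using hx⟩

theorem hi_cyl {i j : Fin 4} (h : j ≠ i) (a : ℝ) : Cyl i (hi j a) :=
  ⟨hi_open j a, hi_convex j a, fun x hx t => by simpa [hi, Function.update_of_ne h] using hx⟩

theorem ha_lo {i : Fin 4} (a : ℝ) {L : List (Set R4)} (h : ∀ V ∈ L, Cyl i V) :
    HA R E (lo i a ∪ un L) :=
  ha_cyl (lo_open i a) (lo_convex i a) (t := a - 1) (fun x => by simp [lo]) _ L rfl h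

theorem ha_hi {i : Fin 4} (a : ℝ) {L : List (Set R4)} (h : ∀ V ∈ L, Cyl i V) :
    HA R E (hi i a ∪ un L) :=
  ha_cyl (hi_open i a) (hi_convex i a) (t := a + 1) (fun x => by simp [hi]) _ L rfl h

theorem dl_ne (i : Fin 4) (c : ℝ) (n : ℕ) (φ : List R4 → E) :
    dl R i c φ ∈ N R E n {x : R4 | x i ≠ c} := by
  refine N_mono ?_ (lc_mem_N_of_locEq _ (jmp_locEq {x : R4 | c < x i}) n φ)
  intro x hx h
  exact hx (frontier_lt_subset_eq continuous_const (continuous_apply i) h).symm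

theorem dl_all (i : Fin 4) (c : ℝ) {S : Set R4} {φ : List R4 → E} (h : ∀ n, φ ∈ N R E n S)
    (n : ℕ) : dl R i c φ ∈ N R E n S := by
  match n with
  | 0 => exact len_N fun l hl => by rw [List.length_eq_zero_iff.1 hl]; rfl
  | n + 1 => exact lc_mem_N _ _ (h n)

theorem d_dl (i : Fin 4) (c : ℝ) (n : ℕ) (φ : List R4 → E) :
    dT (triv R E R4) (dl R i c φ) + dl R i c (dT (triv R E R4) φ) ∈ N R E n (univ : Set R4) :=
  dT_lc_mem_N (isCoc_triv univ) (isCocA_jmp _ univ) n φ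

theorem d_dl_all (i : Fin 4) (c : ℝ) {φ : List R4 → E}
    (h : ∀ n, dT (triv R E R4) φ ∈ N R E n (univ : Set R4)) (n : ℕ) :
    dT (triv R E R4) (dl R i c φ) ∈ N R E n (univ : Set R4) :=
  of_eq (sub_mem (d_dl i c n φ) (dl_all i c h n)) (by abel)

section Step

variable {i : Fin 4} {a b c c' : ℝ} {W : Set R4} {m : ℕ} {φ φ' : List R4 → E}

theorem dl_mem (ha : a ≤ c) (hb : c ≤ b) (h : φ ∈ N R E m W) :
    dl R i c φ ∈ N R E (m + 1) (lo i a ∪ (hi i b ∪ W)) :=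
  mem_N_union.2 ⟨N_mono (fun _ hx => (lt_of_lt_of_le hx ha).ne) (dl_ne i c _ φ),
    mem_N_union.2 ⟨N_mono (fun _ hx => (lt_of_le_of_lt hb hx).ne') (dl_ne i c _ φ),
      lc_mem_N _ _ h⟩⟩

theorem dl_zc (ha : a ≤ c) (hb : c ≤ b) (h : Zc R W m φ) :
    Zc R (lo i a ∪ (hi i b ∪ W)) (m + 1) (dl R i c φ) :=
  ⟨dl_mem ha hb h.1,
    of_eq (sub_mem (d_dl i c _ φ) (lc_mem_N _ _ h.2)) (add_sub_cancel_right _ _).symm⟩

theorem cut_lo (ha : a ≤ c) (h : φ ∈ N R E m W) :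
    cut R E (hi i c) φ ∈ N R E m (lo i a ∪ W) := by
  refine mem_N_union.2 ⟨N_mono (fun x hx h => ?_) (cut_mem_N_compl _ m φ), cut_mem_N _ h⟩
  exact absurd (lt_of_lt_of_le hx ha)
    (not_lt.2 (closure_lt_subset_le continuous_const (continuous_apply i) h))

theorem cut_hi (hm : 1 ≤ m) (hb : c ≤ b) (h : φ ∈ N R E m W) :
    φ - cut R E (hi i c) φ ∈ N R E m (hi i b ∪ W) := by
  refine mem_N_union.2 ⟨N_mono (fun x hx => ?_) (sub_cut_mem_N _ hm φ), sub_mem h (cut_mem_N _ h)⟩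
  rw [(hi_open i c).interior_eq]
  exact lt_of_le_of_lt hb hx

theorem d_cut (h : dT (triv R E R4) φ ∈ N R E (m + 1) (univ : Set R4)) :
    dT (triv R E R4) (cut R E (hi i c) φ) - dl R i c φ ∈ N R E (m + 1) (univ : Set R4) :=
  of_eq (cut_mem_N (hi i c) h) (by rw [dT_cut]; exact add_sub_cancel_right _ _)

theorem mem3 (h1 : φ ∈ N R E m (lo i a ∪ W)) (h2 : φ ∈ N R E m (hi i b ∪ W)) :
    φ ∈ N R E m (lo i a ∪ (hi i b ∪ W)) := mem_N_union.2 ⟨(mem_N_union.1 h1).1, h2⟩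

theorem rl_step (hm : 1 ≤ m) (ha : a ≤ c) (hb : c ≤ b) (ha' : a ≤ c') (hb' : c' ≤ b)
    (hz : Zc R W m φ') (h : Rl R W m φ φ') :
    Rl R (lo i a ∪ (hi i b ∪ W)) (m + 1) (dl R i c φ) (dl R i c' φ') := by
  obtain ⟨ψ, h1, h2⟩ := h
  obtain ⟨m, rfl⟩ : ∃ k, m = k + 1 := ⟨m - 1, by omega⟩
  have h3 : dl R i c (φ - φ' - dT (triv R E R4) ψ) ∈ N R E (m + 1 + 1) (univ : Set R4) :=
    lc_mem_N _ _ h2
  refine ⟨cut R E (hi i c) φ' - cut R E (hi i c') φ' - dl R i c ψ,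
    sub_mem (mem3 (sub_mem (cut_lo ha hz.1) (cut_lo ha' hz.1))
      (of_eq (sub_mem (cut_hi hm hb' hz.1) (cut_hi hm hb hz.1)) (by abel))) (dl_mem ha hb h1), ?_⟩
  refine of_eq (add_mem (add_mem h3 (d_dl i c _ ψ))
    (sub_mem (d_cut (i := i) (c := c') hz.2) (d_cut (i := i) (c := c) hz.2))) ?_
  simp only [map_sub]
  abel

theorem surj_step (hm : 1 ≤ m) (ha : a ≤ c) (hb : c ≤ b) (h1 : HA R E (lo i a ∪ W))
    (h2 : HA R E (hi i b ∪ W)) (hz : Zc R (lo i a ∪ (hi i b ∪ W)) (m + 1) φ) :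
    ∃ ψ, Zc R W m ψ ∧ Rl R (lo i a ∪ (hi i b ∪ W)) (m + 1) φ (dl R i c ψ) := by
  obtain ⟨a1, a2⟩ := mem_N_union.1 hz.1
  obtain ⟨y, hy, hyd⟩ := h1 (m + 1) (by omega) φ ⟨mem_N_union.2 ⟨a1, (mem_N_union.1 a2).2⟩, hz.2⟩
  obtain ⟨y', hy', hyd'⟩ := h2 (m + 1) (by omega) φ ⟨a2, hz.2⟩
  have b1 : y - y' ∈ N R E m W := sub_mem (mem_N_union.1 hy).2 (mem_N_union.1 hy').2
  have b2 : dT (triv R E R4) (y - y') ∈ N R E (m + 1) (univ : Set R4) :=
    of_eq (sub_mem hyd' hyd) (by rw [map_sub]; abel)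
  refine ⟨y - y', ⟨b1, b2⟩, y - cut R E (hi i c) (y - y'),
    mem3 (sub_mem hy (cut_lo ha b1)) (of_eq (add_mem hy' (cut_hi hm hb b1)) (by abel)), ?_⟩
  exact of_eq (add_mem hyd (d_cut (i := i) (c := c) b2))
    (by rw [map_sub (dT (triv R E R4)) y (cut R E (hi i c) (y - y'))]; abel)

theorem inj_step (hm : 1 ≤ m) (ha : a ≤ c) (hb : c ≤ b) (h1 : HA R E (lo i a ∪ W))
    (h2 : HA R E (hi i b ∪ W)) (hz : Zc R W m φ)
    (h : Rl R (lo i a ∪ (hi i b ∪ W)) (m + 1) (dl R i c φ) 0) : Rl R W m φ 0 := by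
  obtain ⟨ψ, b1, b2⟩ := h
  obtain ⟨a1, a2⟩ := mem_N_union.1 b1
  have b3 : dT (triv R E R4) (cut R E (hi i c) φ - ψ) ∈ N R E (m + 1) (univ : Set R4) :=
    of_eq (add_mem (d_cut (i := i) (c := c) hz.2) b2) (by rw [map_sub]; abel)
  obtain ⟨z, hz1, hz2⟩ := h1 m hm _
    ⟨sub_mem (cut_lo ha hz.1) (mem_N_union.2 ⟨a1, (mem_N_union.1 a2).2⟩), b3⟩
  obtain ⟨z', hz1', hz2'⟩ := h2 m hm (φ - (cut R E (hi i c) φ - ψ))
    ⟨of_eq (add_mem (cut_hi hm hb hz.1) a2) (by abel), of_eq (sub_mem hz.2 b3) (map_sub _ _ _)⟩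
  exact ⟨z + z', add_mem (mem_N_union.1 hz1).2 (mem_N_union.1 hz1').2,
    of_eq (add_mem hz2 hz2') (by rw [map_add]; abel)⟩

end Step

/-- The cohomology relative to `W` is `E` in length `k`, generated by `g`. -/
structure Tp (R : Type) {E : Type} [CommRing R] [AddCommGroup E] [Module R E] (W : Set R4)
    (k : ℕ) (g : E → List R4 → E) : Prop where
  zero : ∀ n, 1 ≤ n → n ≠ k → ∀ φ : List R4 → E, Zc R W n φ → Rl R W n φ 0
  top : ∀ φ : List R4 → E, Zc R W k φ → ∃ e, Rl R W k φ (g e)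
  inj : ∀ e, Rl R W k (g e) 0 → e = 0
  coc : ∀ e, Zc R W k (g e)

theorem tp_base : Tp R (un []) 1 (fun e : E => c0 fun _ => e) where
  zero n h1 h2 φ h := by
    obtain ⟨y, hy⟩ := acyc_convex isOpen_univ convex_univ (isCoc_triv univ) (by omega : 2 ≤ n) φ h.2
    exact ⟨y, mem_N_empty _ _, by simpa using hy⟩
  top φ h := ⟨_, rl_of_N (par_const isPreconnected_univ h.2 (mem_univ 0))⟩
  inj e h := by simpa [c0] using val_zero h.one (mem_univ 0)
  coc e := ⟨mem_N_empty _ _, d_c0 e 2⟩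

theorem tp_step {i : Fin 4} {a b c : ℝ} {L : List (Set R4)} {k : ℕ} {g : E → List R4 → E}
    (hk : 1 ≤ k) (ha : a ≤ c) (hb : c ≤ b) (hL : ∀ V ∈ L, Cyl i V) (h : Tp R (un L) k g) :
    Tp R (un (lo i a :: hi i b :: L)) (k + 1) (fun e => dl R i c (g e)) where
  zero n h1 h2 φ hz := by
    match n, h1 with
    | 1, _ =>
      obtain ⟨a1, a2⟩ := mem_N_union.1 hz.1
      exact rl_of_N (ha_lo a hL 1 le_rfl φ ⟨mem_N_union.2 ⟨a1, (mem_N_union.1 a2).2⟩, hz.2⟩).one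
    | n + 2, _ =>
      obtain ⟨ψ, b1, b2⟩ := surj_step (by omega) ha hb (ha_lo a hL) (ha_hi b hL) hz
      have b3 := rl_step (i := i) (by omega) ha hb ha hb ⟨zero_mem _, by simp⟩
        (h.zero (n + 1) (by omega) (by omega) ψ b1)
      rw [map_zero] at b3
      exact b2.trans b3
  top φ hz := by
    obtain ⟨ψ, b1, b2⟩ := surj_step hk ha hb (ha_lo a hL) (ha_hi b hL) hz
    obtain ⟨e, he⟩ := h.top ψ b1
    exact ⟨e, b2.trans (rl_step hk ha hb ha hb (h.coc e) he)⟩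
  inj e he := h.inj e (inj_step hk ha hb (ha_lo a hL) (ha_hi b hL) (h.coc e) he)
  coc e := dl_zc ha hb (h.coc e)

theorem compl_Icc (a b : R4) : (Icc a b)ᶜ = un [lo 0 (a 0), hi 0 (b 0), lo 1 (a 1), hi 1 (b 1),
    lo 2 (a 2), hi 2 (b 2), lo 3 (a 3), hi 3 (b 3)] := by
  ext x
  simp only [un, lo, hi, mem_compl_iff, mem_Icc, Pi.le_def, Fin.forall_fin_succ, mem_union,
    mem_ofPred_eq, mem_empty_iff_false, ← not_le]
  simp only [Fin.succ_zero_eq_one, Fin.succ_one_eq_two, Fin.reduceSucc, IsEmpty.forall_iff]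
  tauto

theorem tp_box {a b p q : R4} (ha : a ≤ p) (hb : p ≤ b) (ha' : a ≤ q) (hb' : q ≤ b) :
    Tp R (Icc a b)ᶜ 5 (omE R (E := E) p) ∧ ∀ e : E, Rl R (Icc a b)ᶜ 5 (omE R q e) (omE R p e) := by
  rw [compl_Icc]
  have t0 := tp_base (R := R) (E := E)
  have t1 := tp_step le_rfl (ha 3) (hb 3) (i := 3) (by simp) t0
  have t2 := tp_step (by omega) (ha 2) (hb 2) (i := 2) (by simp [lo_cyl, hi_cyl]) t1
  have t3 := tp_step (by omega) (ha 1) (hb 1) (i := 1) (by simp [lo_cyl, hi_cyl]) t2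
  refine ⟨tp_step (by omega) (ha 0) (hb 0) (i := 0) (by simp [lo_cyl, hi_cyl]) t3, fun e => ?_⟩
  exact rl_step (by omega) (ha' 0) (hb' 0) (ha 0) (hb 0) (t3.coc e)
    (rl_step (by omega) (ha' 1) (hb' 1) (ha 1) (hb 1) (t2.coc e)
      (rl_step (by omega) (ha' 2) (hb' 2) (ha 2) (hb 2) (t1.coc e)
        (rl_step le_rfl (ha' 3) (hb' 3) (ha 3) (hb 3) (t0.coc e) (rl_of_N (by simp)))))

/-- `U` contains the compact boxes spanned by coordinates of its points. -/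
def Hull (U : Set R4) : Prop :=
  ∀ a b : R4, (∀ i, ∃ x ∈ U, x i = a i) → (∀ i, ∃ x ∈ U, x i = b i) → Icc a b ⊆ U

theorem hull_univ : Hull univ := fun _ _ _ _ => subset_univ _

theorem hull_box {U : Set R4} (hU : IsBox U) : Hull U := by
  obtain ⟨s, t, rfl⟩ := hU
  intro a b ha hb x hx i _
  obtain ⟨y, hy, e⟩ := ha i
  obtain ⟨z, hz, e'⟩ := hb i
  exact ⟨lt_of_lt_of_le (e ▸ (hy i trivial).1) (hx.1 i),
    lt_of_le_of_lt (hx.2 i) (e' ▸ (hz i trivial).2)⟩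

theorem exists_Icc {U K : Set R4} (hU : Hull U) (hK : IsCompact K) (hKU : K ⊆ U) {p : R4}
    (hp : p ∈ U) : ∃ a b, a ≤ p ∧ p ≤ b ∧ K ⊆ Icc a b ∧ Icc a b ⊆ U := by
  have hK' := hK.insert p
  have hs : insert p K ⊆ U := insert_subset hp hKU
  choose y hy hy' using fun i : Fin 4 =>
    hK'.exists_isMinOn (insert_nonempty p K) (continuous_apply i).continuousOn
  choose z hz hz' using fun i : Fin 4 =>
    hK'.exists_isMaxOn (insert_nonempty p K) (continuous_apply i).continuousOn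
  exact ⟨fun i => y i i, fun i => z i i, fun i => hy' i (mem_insert p K),
    fun i => hz' i (mem_insert p K),
    fun x hx => ⟨fun i => hy' i (mem_insert_of_mem p hx), fun i => hz' i (mem_insert_of_mem p hx)⟩,
    hU _ _ (fun i => ⟨y i, hs (hy i), rfl⟩) fun i => ⟨z i, hs (hz i), rfl⟩⟩

theorem c_zero {U : Set R4} (hU : Hull U) {n : ℕ} (hn : 1 ≤ n) (h5 : n ≠ 5)
    {c : List R4 → E} (hc : c ∈ Cc R E n U) (hd : dT (triv R E R4) c ∈ N R E (n + 1) univ) :
    ∃ c' ∈ Cc R E (n - 1) U, c - dT (triv R E R4) c' ∈ N R E n univ := by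
  obtain ⟨K, hK, hKU, h⟩ := hc
  rcases K.eq_empty_or_nonempty with rfl | ⟨p, hp⟩
  · exact ⟨0, zero_mem _, by simpa using h⟩
  obtain ⟨a, b, ha, hb, h1, h2⟩ := exists_Icc hU hK hKU (hKU hp)
  obtain ⟨ψ, h3, h4⟩ := (tp_box ha hb ha hb).1.zero n hn h5 c
    ⟨N_mono (compl_subset_compl.2 h1) h, hd⟩
  exact ⟨ψ, ⟨_, isCompact_Icc, h2, h3⟩, by simpa using h4⟩

theorem c_top {U : Set R4} (hU : Hull U) {p : R4} (hp : p ∈ U) {c : List R4 → E}
    (hc : c ∈ Cc R E 5 U) (hd : dT (triv R E R4) c ∈ N R E 6 univ) :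
    ∃ e : E, ∃ c' ∈ Cc R E 4 U, c - omE R p e - dT (triv R E R4) c' ∈ N R E 5 univ := by
  obtain ⟨K, hK, hKU, h⟩ := hc
  obtain ⟨a, b, ha, hb, h1, h2⟩ := exists_Icc hU hK hKU hp
  obtain ⟨e, ψ, h3, h4⟩ := (tp_box ha hb ha hb).1.top c ⟨N_mono (compl_subset_compl.2 h1) h, hd⟩
  exact ⟨e, ψ, ⟨_, isCompact_Icc, h2, h3⟩, h4⟩

theorem lc_smul {F : Type} [Field F] [Module F E] (θ : R4 → R4 → ℤ) (φ : List R4 → F) (e : E) :
    lc (triv F E R4) θ (fun l => φ l • e) = fun l => lc (triv F F R4) θ φ l • e := by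
  funext l
  match l with
  | [] => exact (zero_smul F e).symm
  | [_] => exact (zero_smul F e).symm
  | x :: y :: l => exact (smul_assoc _ _ _).symm

end RBox

open RBox

theorem omE_eq {F : Type} [Field F] [Module F E] (c : R4) (e : E) (l : List R4) :
    omE F c e l = om F c l • e := by
  have h : (c0 fun _ : R4 => e) = fun l => (c0 fun _ : R4 => (1 : F)) l • e := by
    funext l
    match l with
    | [] => exact (zero_smul F e).symm
    | [_] => exact (one_smul F e).symm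
    | _ :: _ :: _ => exact (zero_smul F e).symm
  unfold omE om
  rw [h, lc_smul, lc_smul, lc_smul, lc_smul]

theorem omE_mem_N (c : R4) (e : E) (n : ℕ) : omE R c e ∈ N R E n ({c}ᶜ : Set R4) := by
  refine mem_N_of_forall fun p hp => ?_
  obtain ⟨i, hi⟩ := Function.ne_iff.1 (mem_compl_singleton_iff.1 hp)
  refine ⟨{x | x i ≠ c i}, hi, ?_⟩
  match i with
  | 0 => exact dl_ne 0 _ n _
  | 1 => exact dl_all 0 _ (fun n => dl_ne 1 _ n _) n
  | 2 => exact dl_all 0 _ (dl_all 1 _ fun n => dl_ne 2 _ n _) n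
  | 3 => exact dl_all 0 _ (dl_all 1 _ (dl_all 2 _ fun n => dl_ne 3 _ n _)) n

theorem dT_omE (c : R4) (e : E) (n : ℕ) :
    dT (triv R E R4) (omE R c e) ∈ N R E n (univ : Set R4) :=
  d_dl_all 0 _ (d_dl_all 1 _ (d_dl_all 2 _ (d_dl_all 3 _ (d_c0 e)))) n

theorem om_eq_omE (F : Type) [Field F] (c : R4) : om F c = omE F c (1 : F) := rfl

/-- Compactly supported cohomology of a box vanishes outside the top degree. -/
theorem box_c_zero {U : Set R4} (hU : IsBox U) {n : ℕ} (hn : 1 ≤ n) (h5 : n ≠ 5)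
    {c : List R4 → E} (hc : c ∈ Cc R E n U) (hd : dT (triv R E R4) c ∈ N R E (n + 1) univ) :
    ∃ c' ∈ Cc R E (n - 1) U, c - dT (triv R E R4) c' ∈ N R E n univ :=
  c_zero (hull_box hU) hn h5 hc hd

theorem box_c_top {U : Set R4} (hU : IsBox U) {p : R4} (hp : p ∈ U) {c : List R4 → E}
    (hc : c ∈ Cc R E 5 U) (hd : dT (triv R E R4) c ∈ N R E 6 univ) :
    ∃ e : E, ∃ c' ∈ Cc R E 4 U, c - omE R p e - dT (triv R E R4) c' ∈ N R E 5 univ :=
  c_top (hull_box hU) hp hc hd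

theorem omE_exact {p : R4} {e : E} {c' : List R4 → E} (hc : c' ∈ Cc R E 4 (univ : Set R4))
    (h : omE R p e - dT (triv R E R4) c' ∈ N R E 5 univ) : e = 0 := by
  obtain ⟨K, hK, hKU, h0⟩ := hc
  obtain ⟨a, b, ha, hb, h1, -⟩ := exists_Icc hull_univ hK hKU (mem_univ p)
  exact (tp_box (R := R) ha hb ha hb).1.inj e
    ⟨c', N_mono (compl_subset_compl.2 h1) h0, by simpa using h⟩

variable (F : Type) [Field F]

theorem isI_I4 : IsI F (om F 0) (I4 F) := by
  have h : ∃ I, IsI F (om F 0) I := by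
    have hx : om F 0 ∉ N F F 5 (univ : Set R4) ⊔ (Cc F F 4 univ).map (dT (triv F F R4)) := by
      intro hx
      obtain ⟨u, hu, _, ⟨ψ, hψ, rfl⟩, e⟩ := Submodule.mem_sup.1 hx
      exact one_ne_zero (omE_exact (p := 0) (e := (1 : F)) hψ
        (of_eq hu (by rw [← om_eq_omE, ← e]; abel)))
    obtain ⟨f, h1, h2⟩ := Submodule.exists_dual_map_eq_bot_of_notMem hx inferInstance
    have h3 : ∀ φ ∈ N F F 5 (univ : Set R4) ⊔ (Cc F F 4 univ).map (dT (triv F F R4)), f φ = 0 :=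
      fun φ hφ => (Submodule.eq_bot_iff _).1 h2 _ (Submodule.mem_map_of_mem hφ)
    refine ⟨(f (om F 0))⁻¹ • f, fun φ hφ => ?_, fun ψ hψ => ?_, ?_⟩
    · simp [h3 φ (Submodule.mem_sup_left hφ)]
    · simp [h3 _ (Submodule.mem_sup_right (Submodule.mem_map_of_mem hψ))]
    · simp [h1]
  rw [I4, dif_pos h]
  exact h.choose_spec

theorem RBox.I4_eq {φ φ' ψ : List R4 → F} (hψ : ψ ∈ Cc F F 4 (univ : Set R4))
    (h : φ - φ' - dT (triv F F R4) ψ ∈ N F F 5 univ) : I4 F φ = I4 F φ' := by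
  have h1 := (isI_I4 F).1 _ h
  rwa [map_sub, map_sub, (isI_I4 F).2.1 ψ hψ, sub_zero, sub_eq_zero] at h1

theorem I4_om (c : R4) : I4 F (om F c) = 1 := by
  obtain ⟨ψ, h1, h2⟩ := (tp_box (R := F) (a := 0 ⊓ c) (b := 0 ⊔ c) inf_le_left le_sup_left
    inf_le_right le_sup_right).2 (1 : F)
  exact (I4_eq F ⟨_, isCompact_Icc, subset_univ _, h1⟩ h2).trans (isI_I4 F).2.2

theorem top4 {φ : List R4 → F} (hc : φ ∈ Cc F F 5 (univ : Set R4))
    (hd : dT (triv F F R4) φ ∈ N F F 6 univ) (p : R4) :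
    ∃ ψ ∈ Cc F F 4 (univ : Set R4), φ - I4 F φ • om F p - dT (triv F F R4) ψ ∈ N F F 5 univ := by
  obtain ⟨e, ψ, h1, h2⟩ := c_top hull_univ (mem_univ p) hc hd
  have h3 : omE F p e = e • om F p := by
    funext l
    rw [omE_eq, Pi.smul_apply, smul_eq_mul, smul_eq_mul, mul_comm]
  rw [h3] at h2
  refine ⟨ψ, h1, ?_⟩
  rwa [I4_eq F h1 h2, map_smul, I4_om, smul_eq_mul, mul_one]

theorem h2c_R4 {c : List R4 → E} (hc : c ∈ Cc R E 3 (univ : Set R4))
    (hd : dT (triv R E R4) c ∈ N R E 4 univ) :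
    ∃ c' ∈ Cc R E 2 (univ : Set R4), c - dT (triv R E R4) c' ∈ N R E 3 univ :=
  c_zero hull_univ (by omega) (by omega) hc hd

end Pool.Agent.HH
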