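import Mathlib

/-! Compactly supported isotopies with a prescribed germ. -/

open Set Topology

namespace Pool.Agent.HH

variable {E : Type} [NormedAddCommGroup E] [NormedSpace ℝ E]

/-- `g` agrees near `x₀` with the end of an isotopy that has compact support in `Ω`. -/
def Germ (Ω : Set E) (x₀ : E) (g : E → E) : Prop :=
  ∃ (G : ℝ → E ≃ₜ E) (K : Set E), IsCompact K ∧ K ⊆ Ω ∧
    Continuous (fun q : ℝ × E => G q.1 q.2) ∧ Continuous (fun q : ℝ × E => (G q.1).symm q.2) ∧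
    G 0 = Homeomorph.refl E ∧ (∀ t x, x ∉ K → G t x = x) ∧ ∀ᶠ x in 𝓝 x₀, G 1 x = g x

theorem Germ.congr {Ω : Set E} {x₀ : E} {g g' : E → E} (h : Germ Ω x₀ g)
    (he : ∀ᶠ x in 𝓝 x₀, g x = g' x) : Germ Ω x₀ g' := by
  obtain ⟨G, K, h1, h2, h3, h4, h5, h6, h7⟩ := h
  exact ⟨G, K, h1, h2, h3, h4, h5, h6, (h7.and he).mono fun x hx => hx.1.trans hx.2⟩

theorem Germ.mono {Ω Ω' : Set E} {x₀ : E} {g : E → E} (h : Germ Ω x₀ g) (hs : Ω ⊆ Ω') :
    Germ Ω' x₀ g := by
  obtain ⟨G, K, h1, h2, h3⟩ := h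
  exact ⟨G, K, h1, h2.trans hs, h3⟩

theorem germ_id (Ω : Set E) (x₀ : E) : Germ Ω x₀ id :=
  ⟨fun _ => Homeomorph.refl E, ∅, isCompact_empty, empty_subset _, continuous_snd, continuous_snd,
    rfl, fun _ _ _ => rfl, Filter.Eventually.of_forall fun _ => rfl⟩

theorem Germ.comp {Ω : Set E} {x₀ : E} {g g' : E → E} (h : Germ Ω x₀ g) (h' : Germ Ω (g x₀) g') :
    Germ Ω x₀ (g' ∘ g) := by
  obtain ⟨G, K, h1, h2, h3, h4, h5, h6, h7⟩ := h
  obtain ⟨G', K', k1, k2, k3, k4, k5, k6, k7⟩ := h'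
  refine ⟨fun t => (G t).trans (G' t), K ∪ K', h1.union k1, union_subset h2 k2,
    k3.comp (continuous_fst.prodMk h3), h4.comp (continuous_fst.prodMk k4), ?_, fun t x hx => ?_, ?_⟩
  · simp only [h5, k5]
    rfl
  · rw [Homeomorph.trans_apply, h6 t x fun h => hx (Or.inl h), k6 t x fun h => hx (Or.inr h)]
  · rw [← h7.self_of_nhds] at k7
    filter_upwards [h7, (G 1).continuous.continuousAt.eventually k7] with x a1 a2
    rw [Homeomorph.trans_apply, a2, a1]
    rfl

/-- The inverse germ. -/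
theorem Germ.inv {Ω : Set E} {x₀ : E} {g g' : E → E} (h : Germ Ω x₀ g)
    (hg : ∀ᶠ x in 𝓝 x₀, g' (g x) = x) : Germ Ω (g x₀) g' := by
  obtain ⟨G, K, h1, h2, h3, h4, h5, h6, h7⟩ := h
  refine ⟨fun t => (G t).symm, K, h1, h2, h4, h3, by simp only [h5]; rfl, fun t x hx => ?_, ?_⟩
  · exact (G t).symm_apply_eq.2 (h6 t x hx).symm
  · have h8 : ∀ᶠ x in 𝓝 ((G 1).symm (g x₀)), G 1 x = g x ∧ g' (g x) = x := by
      rw [← h7.self_of_nhds, Homeomorph.symm_apply_apply]
      exact h7.and hg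
    filter_upwards [(G 1).symm.continuous.continuousAt.eventually h8] with y hy
    rw [← hy.2, ← hy.1, Homeomorph.apply_symm_apply]

namespace RBumpA

theorem est {u : E → E} (hu : LipschitzWith (1 / 2) u) {M : ℝ} (hM : ∀ x, ‖u x‖ ≤ M) {τ τ' : ℝ}
    (hτ : τ ∈ Icc (0 : ℝ) 1) (x x' : E) :
    ‖x - x'‖ ≤ 2 * (‖(x + τ • u x) - (x' + τ' • u x')‖ + |τ - τ'| * M) := by
  have h1 : ‖u x - u x'‖ ≤ 1 / 2 * ‖x - x'‖ := by
    simpa [dist_eq_norm] using hu.dist_le_mul x x'
  have h2 : x - x' = ((x + τ • u x) - (x' + τ' • u x')) - (τ • (u x - u x') + (τ - τ') • u x') := by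
    module
  have h3 : ‖τ • (u x - u x') + (τ - τ') • u x'‖ ≤ 1 / 2 * ‖x - x'‖ + |τ - τ'| * M := by
    refine (norm_add_le _ _).trans (add_le_add ?_ ?_)
    · rw [norm_smul, Real.norm_of_nonneg hτ.1]
      exact (mul_le_of_le_one_left (norm_nonneg _) hτ.2).trans h1
    · rw [norm_smul, Real.norm_eq_abs]
      exact mul_le_mul_of_nonneg_left (hM x') (abs_nonneg _)
  have h4 := norm_sub_le ((x + τ • u x) - (x' + τ' • u x')) (τ • (u x - u x') + (τ - τ') • u x')
  rw [← h2] at h4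
  linarith

theorem surj [CompleteSpace E] {u : E → E} (hu : LipschitzWith (1 / 2) u) {τ : ℝ}
    (hτ : τ ∈ Icc (0 : ℝ) 1) : Function.Surjective fun x => x + τ • u x := by
  intro y
  have h : ContractingWith (1 / 2) fun x => y - τ • u x := by
    refine ⟨by norm_num, LipschitzWith.of_dist_le_mul fun x x' => ?_⟩
    rw [dist_sub_left, dist_smul₀, Real.norm_of_nonneg hτ.1]
    exact (mul_le_of_le_one_left dist_nonneg hτ.2).trans (hu.dist_le_mul x x')
  exact ⟨_, (eq_sub_iff_add_eq.1 h.fixedPoint_isFixedPt.eq.symm)⟩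

/-- The cut-off function. -/
noncomputable def chi (x₀ : E) (r : ℝ) (x : E) : ℝ := max 0 (min 1 (2 - ‖x - x₀‖ / r))

omit [NormedSpace ℝ E] in
theorem chi_lip {x₀ : E} {r : ℝ} (hr : 0 < r) (x y : E) :
    |chi x₀ r x - chi x₀ r y| ≤ ‖x - y‖ / r := by
  have h1 : |‖y - x₀‖ - ‖x - x₀‖| ≤ ‖x - y‖ := by
    have := abs_norm_sub_norm_le (y - x₀) (x - x₀)
    rwa [sub_sub_sub_cancel_right, norm_sub_rev y x] at this
  have h2 : |(2 - ‖x - x₀‖ / r) - (2 - ‖y - x₀‖ / r)| ≤ ‖x - y‖ / r := by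
    rw [sub_sub_sub_cancel_left, ← sub_div, abs_div, abs_of_pos hr]
    exact div_le_div_of_nonneg_right h1 hr.le
  unfold chi
  rw [max_comm, max_comm 0]
  refine (abs_max_sub_max_le_abs _ _ _).trans ((abs_min_sub_min_le_max _ _ _ _).trans ?_)
  exact max_le (by simp only [sub_self, abs_zero]; positivity) h2

omit [NormedSpace ℝ E] in
theorem chi_zero {x₀ : E} {r : ℝ} (hr : 0 < r) {x : E} (hx : x ∉ Metric.closedBall x₀ (2 * r)) :
    chi x₀ r x = 0 := by
  rw [mem_closedBall_iff_norm, not_le] at hx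
  have h : 2 ≤ ‖x - x₀‖ / r := (le_div_iff₀ hr).2 hx.le
  exact max_eq_left ((min_le_right _ _).trans (by linarith))

omit [NormedSpace ℝ E] in
theorem chi_one {x₀ : E} {r : ℝ} (hr : 0 < r) {x : E} (hx : x ∈ Metric.ball x₀ r) :
    chi x₀ r x = 1 := by
  rw [mem_ball_iff_norm] at hx
  have h : ‖x - x₀‖ / r ≤ 1 := (div_le_one hr).2 hx.le
  rw [chi, min_eq_left (by linarith), max_eq_right zero_le_one]

omit [NormedSpace ℝ E] in
theorem chi_abs (x₀ : E) (r : ℝ) (x : E) : |chi x₀ r x| ≤ 1 := by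
  rw [abs_of_nonneg (le_max_left _ _)]
  exact max_le zero_le_one (min_le_left _ _)

theorem exists_inv [FiniteDimensional ℝ E] {L : E →L[ℝ] E} (h : Function.Injective L) :
    ∃ A : E →L[ℝ] E, (∀ x, A (L x) = x) ∧ ∀ x, L (A x) = x :=
  ⟨(LinearEquiv.ofInjectiveEndo (L : E →ₗ[ℝ] E) h).symm.toContinuousLinearEquiv,
    (LinearEquiv.ofInjectiveEndo (L : E →ₗ[ℝ] E) h).symm_apply_apply,
    (LinearEquiv.ofInjectiveEndo (L : E →ₗ[ℝ] E) h).apply_symm_apply⟩

end RBumpA

open RBumpA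

variable [FiniteDimensional ℝ E]

theorem germ_of_lip {Ω K : Set E} (hK : IsCompact K) (hs : K ⊆ Ω) {u : E → E}
    (hu : LipschitzWith (1 / 2) u) (h0 : ∀ x, x ∉ K → u x = 0) (x₀ : E) :
    Germ Ω x₀ fun x => x + u x := by
  have : CompleteSpace E := FiniteDimensional.complete ℝ E
  obtain ⟨M, hM0, hM⟩ : ∃ M, 0 ≤ M ∧ ∀ x, ‖u x‖ ≤ M := by
    obtain ⟨M, hM⟩ := hK.exists_bound_of_continuousOn hu.continuous.continuousOn
    refine ⟨max M 0, le_max_right _ _, fun x => ?_⟩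
    by_cases hx : x ∈ K
    · exact (hM x hx).trans (le_max_left _ _)
    · rw [h0 x hx, norm_zero]
      exact le_max_right _ _
  let c : ℝ → ℝ := fun t => (projIcc 0 1 zero_le_one t : ℝ)
  have hc : ∀ t, c t ∈ Icc (0 : ℝ) 1 := fun t => (projIcc 0 1 zero_le_one t).2
  have hcl : ∀ t t', |c t - c t'| ≤ |t - t'| := fun t t' =>
    ((LipschitzWith.projIcc (zero_le_one' ℝ)).dist_le_mul t t').trans_eq (one_mul _)
  have hb : ∀ t, Function.Bijective fun x => x + c t • u x := fun t =>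
    ⟨fun x x' h => by
      have := est hu hM (τ' := c t) (hc t) x x'
      simp only at h
      rw [h] at this
      exact sub_eq_zero.1 (norm_le_zero_iff.1 (by simpa using this)), surj hu (hc t)⟩
  let e : ℝ → E ≃ E := fun t => Equiv.ofBijective _ (hb t)
  have he : ∀ t x, e t x = x + c t • u x := fun _ _ => rfl
  have c1 : Continuous fun q : ℝ × E => e q.1 q.2 :=
    continuous_snd.add (((continuous_subtype_val.comp continuous_projIcc).comp continuous_fst).smul
      (hu.continuous.comp continuous_snd))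
  have c2 : Continuous fun q : ℝ × E => (e q.1).symm q.2 := by
    refine (LipschitzWith.of_dist_le' (K := 2 * (1 + M)) fun q q' => ?_).continuous
    have h1 := est hu hM (τ' := c q'.1) (hc q.1) ((e q.1).symm q.2) ((e q'.1).symm q'.2)
    rw [← he, ← he, Equiv.apply_symm_apply, Equiv.apply_symm_apply, ← dist_eq_norm,
      ← dist_eq_norm] at h1
    have h2 : dist q.2 q'.2 ≤ dist q q' := le_max_right _ _
    have h3 : |c q.1 - c q'.1| ≤ dist q q' := (hcl _ _).trans (le_max_left _ _)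
    nlinarith [mul_le_mul_of_nonneg_right h3 hM0]
  refine ⟨fun t => ⟨e t, c1.comp (Continuous.prodMk_right t), c2.comp (Continuous.prodMk_right t)⟩,
    K, hK, hs, c1, c2, Homeomorph.ext fun x => ?_, fun t x hx => ?_,
    Filter.Eventually.of_forall fun x => ?_⟩
  · exact (he 0 x).trans (by simp [c])
  · exact (he t x).trans (by simp [h0 x hx])
  · exact (he 1 x).trans (by simp [c])

theorem RBumpA.small {Ω : Set E} {x₀ : E} {r ε B : ℝ} (hr : 0 < r) (hε : 0 ≤ ε)
    (hΩ : Metric.closedBall x₀ (2 * r) ⊆ Ω) {v : E → E}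
    (h1 : ∀ x ∈ Metric.closedBall x₀ (2 * r), ∀ y ∈ Metric.closedBall x₀ (2 * r),
      ‖v x - v y‖ ≤ ε * ‖x - y‖)
    (h2 : ∀ x ∈ Metric.closedBall x₀ (2 * r), ‖v x‖ ≤ B * r) (h : ε + B ≤ 1 / 2) :
    Germ Ω x₀ fun x => x + v x := by
  have : ProperSpace E := FiniteDimensional.proper_real E
  have k1 : ∀ x y, y ∈ Metric.closedBall x₀ (2 * r) →
      ‖(chi x₀ r x - chi x₀ r y) • v y‖ ≤ B * ‖x - y‖ := by
    intro x y hy
    rw [norm_smul, Real.norm_eq_abs]
    refine (mul_le_mul (chi_lip hr x y) (h2 y hy) (norm_nonneg _) (by positivity)).trans_eq ?_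
    field_simp
  have k2 : ∀ x y, y ∈ Metric.closedBall x₀ (2 * r) →
      ‖chi x₀ r x • v x - chi x₀ r y • v y‖ ≤ 1 / 2 * ‖x - y‖ := by
    intro x y hy
    have a1 := k1 x y hy
    have a2 : ‖chi x₀ r x • (v x - v y)‖ ≤ ε * ‖x - y‖ := by
      by_cases hx : x ∈ Metric.closedBall x₀ (2 * r)
      · rw [norm_smul, Real.norm_eq_abs]
        exact (mul_le_of_le_one_left (norm_nonneg _) (chi_abs _ _ _)).trans (h1 x hx y hy)
      · rw [chi_zero hr hx, zero_smul, norm_zero]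
        positivity
    have a3 : chi x₀ r x • v x - chi x₀ r y • v y =
        chi x₀ r x • (v x - v y) + (chi x₀ r x - chi x₀ r y) • v y := by module
    rw [a3]
    nlinarith [norm_add_le (chi x₀ r x • (v x - v y)) ((chi x₀ r x - chi x₀ r y) • v y),
      mul_le_mul_of_nonneg_right h (norm_nonneg (x - y))]
  have hu : LipschitzWith (1 / 2) fun x => chi x₀ r x • v x := by
    refine LipschitzWith.of_dist_le_mul fun x y => ?_
    rw [dist_eq_norm, dist_eq_norm]
    push_cast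
    by_cases hy : y ∈ Metric.closedBall x₀ (2 * r)
    · exact k2 x y hy
    by_cases hx : x ∈ Metric.closedBall x₀ (2 * r)
    · rw [norm_sub_rev, norm_sub_rev x]
      exact k2 y x hx
    · rw [chi_zero hr hx, chi_zero hr hy, zero_smul, zero_smul, sub_self, norm_zero]
      positivity
  refine (germ_of_lip (isCompact_closedBall x₀ (2 * r)) hΩ hu
    (fun x hx => by rw [chi_zero hr hx, zero_smul]) x₀).congr ?_
  filter_upwards [Metric.ball_mem_nhds x₀ hr] with x hx
  rw [chi_one hr hx, one_smul]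

theorem RBumpA.near {Ω s : Set E} {x₀ : E} (hΩ : Ω ∈ 𝓝 x₀) (hs : s ∈ 𝓝 x₀) {g : E → E}
    (h : ∀ x ∈ s, ∀ y ∈ s, ‖g x - g y - (x - y)‖ ≤ 1 / 10 * ‖x - y‖) (h0 : g x₀ = x₀) :
    Germ Ω x₀ g := by
  obtain ⟨R, hR, h1⟩ := Metric.nhds_basis_closedBall.mem_iff.1 (Filter.inter_mem hΩ hs)
  have e : 2 * (R / 2) = R := by ring
  have k : ∀ x ∈ s, ∀ y ∈ s, ‖(g x - x) - (g y - y)‖ ≤ 1 / 10 * ‖x - y‖ := fun x hx y hy => by
    rw [sub_sub_sub_comm]
    exact h x hx y hy
  have := small (Ω := Ω) (x₀ := x₀) (r := R / 2) (ε := 1 / 10) (B := 1 / 5) (v := fun x => g x - x)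
    (by positivity) (by norm_num) (e.symm ▸ h1.trans inter_subset_left)
    (fun x hx y hy => k x (h1 (e ▸ hx)).2 y (h1 (e ▸ hy)).2) (fun x hx => by
      have a1 := k x (h1 (e ▸ hx)).2 x₀ (mem_of_mem_nhds hs)
      rw [h0, sub_self, sub_zero] at a1
      rw [mem_closedBall_iff_norm] at hx
      linarith) (by norm_num)
  simpa using this

theorem germ_tangent {Ω : Set E} {x₀ : E} (hΩ : Ω ∈ 𝓝 x₀) {g : E → E}
    (hg : HasStrictFDerivAt g (ContinuousLinearMap.id ℝ E) x₀) (h0 : g x₀ = x₀) : Germ Ω x₀ g := by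
  obtain ⟨s, hs, h⟩ := hg.approximates_deriv_on_nhds (c := 1 / 10) (Or.inr (by norm_num))
  exact near hΩ hs (fun x hx y hy => by simpa using h x hx y hy) h0

theorem germ_near_id {Ω : Set E} {x₀ : E} (hΩ : Ω ∈ 𝓝 x₀) {L : E →L[ℝ] E}
    (hL : ‖L - ContinuousLinearMap.id ℝ E‖ ≤ 1 / 10) : Germ Ω x₀ fun x => x₀ + L (x - x₀) := by
  refine near hΩ Filter.univ_mem (fun x _ y _ => ?_) (by simp)
  have e : x₀ + L (x - x₀) - (x₀ + L (y - x₀)) - (x - y) =
      (L - ContinuousLinearMap.id ℝ E) (x - y) := by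
    simp only [map_sub, sub_apply, ContinuousLinearMap.id_apply]
    abel
  rw [e]
  exact (ContinuousLinearMap.le_opNorm _ _).trans (mul_le_mul_of_nonneg_right hL (norm_nonneg _))

theorem germ_transl {Ω : Set E} (hΩ : IsOpen Ω) (hc : Convex ℝ Ω) {x₀ y₀ : E} (hx : x₀ ∈ Ω)
    (hy : y₀ ∈ Ω) : Germ Ω x₀ fun x => x + (y₀ - x₀) := by
  refine hc.isPreconnected.induction₂' (fun a b => Germ Ω a fun x => x + (b - a))
    (fun a ha => ?_) (fun a b c _ _ _ h h' => ?_) hx hy
  · obtain ⟨R, hR, h1⟩ := Metric.nhds_basis_closedBall.mem_iff.1 (hΩ.mem_nhds ha)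
    filter_upwards [mem_nhdsWithin_of_mem_nhds (Metric.closedBall_mem_nhds a
      (by positivity : 0 < R / 4))] with b hb
    rw [mem_closedBall_iff_norm] at hb
    have e : 2 * (R / 2) = R := by ring
    have h2 : Germ Ω a fun x => x + (b - a) :=
      small (r := R / 2) (ε := 0) (B := 1 / 2) (by positivity) le_rfl (e.symm ▸ h1)
        (fun _ _ _ _ => by simp) (fun _ _ => by linarith) (by norm_num)
    refine ⟨h2, ?_⟩
    have h3 := h2.inv (g' := fun x => x + (a - b)) (Filter.Eventually.of_forall fun x => by abel)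
    simpa only [add_sub_cancel] using h3
  · have h2 := h.comp (g' := fun x => x + (c - b)) (by simpa only [add_sub_cancel] using h')
    refine h2.congr (Filter.Eventually.of_forall fun x => ?_)
    simp only [Function.comp]
    abel

/-- Along a path of invertible operators that starts at the identity. -/
theorem germ_path {Ω : Set E} {x₀ : E} (hΩ : Ω ∈ 𝓝 x₀) {L : ℝ → E →L[ℝ] E} (hL : Continuous L)
    (hi : ∀ t ∈ Icc (0 : ℝ) 1, Function.Injective (L t)) (h0 : L 0 = ContinuousLinearMap.id ℝ E) :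
    Germ Ω x₀ fun x => x₀ + L 1 (x - x₀) := by
  refine isPreconnected_Icc.induction₂' (fun a b => (Germ Ω x₀ fun x => x₀ + L a (x - x₀)) →
    Germ Ω x₀ fun x => x₀ + L b (x - x₀)) (fun a ha => ?_) (fun a b c _ _ _ h h' k => h' (h k))
    (left_mem_Icc.2 zero_le_one) (right_mem_Icc.2 zero_le_one) ?_
  · obtain ⟨A, a1, a2⟩ := exists_inv (hi a ha)
    have hc : Continuous fun t => ‖(L t).comp A - ContinuousLinearMap.id ℝ E‖ :=
      ((hL.clm_comp continuous_const).sub continuous_const).norm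
    have h1 : ‖(L a).comp A - ContinuousLinearMap.id ℝ E‖ < 1 / 10 := by
      rw [show (L a).comp A = ContinuousLinearMap.id ℝ E from ContinuousLinearMap.ext a2]
      simp
    filter_upwards [self_mem_nhdsWithin, mem_nhdsWithin_of_mem_nhds
      (hc.continuousAt.eventually_lt continuousAt_const h1)] with b hb h2
    obtain ⟨B, b1, -⟩ := exists_inv (hi b hb)
    have h3 := germ_near_id hΩ h2.le
    have h4 := h3.inv (g' := fun x => x₀ + L a (B (x - x₀)))
      (Filter.Eventually.of_forall fun x => by simp [b1, a2, -map_sub])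
    refine ⟨fun k => (k.comp (by simpa [-map_sub] using h3)).congr
      (Filter.Eventually.of_forall fun x => ?_), fun k => (k.comp (by
        simpa [-map_sub] using h4)).congr (Filter.Eventually.of_forall fun x => ?_)⟩
    · simp [a1, -map_sub]
    · simp [b1, -map_sub]
  · exact (germ_id Ω x₀).congr (Filter.Eventually.of_forall fun x => by simp [h0])

end Pool.Agent.HH
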