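import Pool.Agent.P.MP_c8dc46_gt.FDefs

/-!
Geometric definitions: standard subsets of the sphere, long torus knots, the configuration `Geo`.
-/

open Set Topology

noncomputable section

namespace Pool.Agent.HH

/-- `(x, y) ↦ (y, x)`. -/
def swp : S3 ≃ₜ S3 where
  toFun p := ⟨(p.1.2, p.1.1), by have := p.2; simp only; linarith⟩
  invFun p := ⟨(p.1.2, p.1.1), by have := p.2; simp only; linarith⟩
  left_inv _ := rfl
  right_inv _ := rfl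
  continuous_toFun := by fun_prop
  continuous_invFun := by fun_prop

/-- `(x, y) ↦ (-x, y)`. -/
def rot : S3 ≃ₜ S3 where
  toFun p := ⟨(-p.1.1, p.1.2), by simpa using p.2⟩
  invFun p := ⟨(-p.1.1, p.1.2), by simpa using p.2⟩
  left_inv _ := by simp
  right_inv _ := by simp
  continuous_toFun := by fun_prop
  continuous_invFun := by fun_prop

/-- The first coordinate. -/
def xc (p : S3) : ℂ := p.1.1

/-- The second coordinate. -/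
def yc (p : S3) : ℂ := p.1.2

/-- The unknot `{y = 0}`. -/
def Uk : Set S3 := {p | yc p = 0}

/-- The points whose first coordinate lies in `B`. -/
def RB (B : Set ℂ) : Set S3 := {p | xc p ∈ B}

/-- The circle `{x = x₀}`. -/
def eta (x₀ : ℂ) : Set S3 := {p | xc p = x₀}

/-- The fibre `s ↦ (x, √(1 - |x|²) e(s))`, a meridian of the unknot. -/
def fib (x : ℂ) (s : ℝ) : S3 := swp (iota s x)

/-- The loop `s ↦ (x₀ + r e(s), positive)`, a meridian of `eta x₀`. -/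
def lon (x₀ : ℂ) (r : ℝ) (s : ℝ) : S3 := swp (iota 0 (x₀ + r * ex s))

/-- The sides: `-1` for the first companion, `+1` for the second. -/
def sg (i : Fin 2) : ℝ := if i = 0 then -1 else 1

/-- The torus knot `T(r, s)` in long form on the side `σ`. -/
structure LK (r s : ℕ) (σ a ρ : ℝ) where
  F : S3 → S3
  ϑ : S3 → ℂ
  oe : OE F (eta (σ * a : ℝ))ᶜ
  idz : ∀ p, σ * (xc p).re ≤ 1 / 2 → F p = p
  cont : ∀ p ∈ (F '' Uk)ᶜ, ContinuousAt ϑ p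
  ne : ∀ p ∈ (F '' Uk)ᶜ, ϑ p ≠ 0
  exact : ∀ p, ρ ≤ ‖xc p - (σ * a : ℝ)‖ → yc p ≠ 0 → ϑ (F p) = yc p / ‖yc p‖
  Φ : Fin 3 → ℝ × (ℝ × ℝ) → S3
  O : Fin 3 → Set (ℝ × ℝ)
  o : Fin 3 → ℝ × ℝ
  O₀ : Set (ℝ × ℝ)
  O₁ : Set (ℝ × ℝ)
  cc : ∀ i, IsCC (Φ i) (O i)
  omem : ∀ i, o i ∈ O i
  h₀ : IsOpen O₀ ∧ Convex ℝ O₀ ∧ O₀.Nonempty ∧ O₀ ⊆ O 2
  h₁ : IsOpen O₁ ∧ Convex ℝ O₁ ∧ O₁.Nonempty ∧ O₁ ⊆ O 2
  cover : ⋃ i, Φ i '' (univ ×ˢ O i) = (F '' Uk)ᶜ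
  disj : Disjoint (Φ 0 '' (univ ×ˢ O 0)) (Φ 1 '' (univ ×ˢ O 1))
  i₀ : Φ 0 '' (univ ×ˢ O 0) ∩ Φ 2 '' (univ ×ˢ O 2) = Φ 2 '' (univ ×ˢ O₀)
  i₁ : Φ 1 '' (univ ×ˢ O 1) ∩ Φ 2 '' (univ ×ˢ O 2) = Φ 2 '' (univ ×ˢ O₁)
  hol₀ : IsHolA (th ϑ) (fun t => Φ 0 (t, o 0)) r
  hol₁ : IsHolA (th ϑ) (fun t => Φ 1 (t, o 1)) s
  hol₂ : IsHolA (th ϑ) (fun t => Φ 2 (t, o 2)) (r * s)

/-- The numerical constraints on the position `a` and the scale `ρ`. -/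
def Rad (a ρ : ℝ) : Prop := 3 / 4 ≤ a ∧ 0 < ρ ∧ a + 8 * ρ ≤ 1

/-- The knot of a long knot. -/
def LK.K {r s : ℕ} {σ a ρ : ℝ} (k : LK r s σ a ρ) : Set S3 := k.F '' Uk

/-- The companion piece: the complement of the image of `{r' ≤ |x - x₀|}`. -/
def LK.Oc {r s : ℕ} {σ a ρ : ℝ} (k : LK r s σ a ρ) (r' : ℝ) : Set S3 :=
  (k.F '' RB {x | r' ≤ ‖x - (σ * a : ℝ)‖})ᶜ

/-- The longitude of the companion. -/
def LK.lam {r s : ℕ} {σ a ρ : ℝ} (k : LK r s σ a ρ) : ℝ → S3 :=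
  k.F ∘ lon (σ * a : ℝ) (5 * ρ / 2)

/-- A retraction of the knot exterior into the companion piece. -/
structure LK.IsRet {r s : ℕ} {σ a ρ : ℝ} (k : LK r s σ a ρ) (κ : S3 → S3) : Prop where
  cont : ∀ p ∈ k.Kᶜ, ContinuousAt κ p
  maps : MapsTo κ k.Kᶜ (k.Oc (4 * ρ))
  id : ∀ p ∈ k.Oc (3 * ρ), κ p = p

open Classical in
/-- The two long knots glued along the sphere `Re x = 0`. -/
def FL (F₀ F₁ : S3 → S3) (p : S3) : S3 := if (xc p).re ≤ 0 then F₀ p else F₁ p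

/-- The geometric configuration produced from an additive pattern. -/
structure Geo (r s : Fin 2 → ℕ) (P : ℝ → S3) where
  a : ℝ
  ρ : ℝ
  rad : Rad a ρ
  lk : ∀ i, LK (r i) (s i) (sg i) a ρ
  knot : IsKnot P
  thin : ∀ t, a + 7 * ρ < ‖xc (P t)‖
  h : S3 ≃ₜ S3
  hP : ∀ p, -1 / 2 ≤ (xc p).re → (h p ∈ range P ↔ yc p = 0)
  hz : ∀ p, -1 / 2 ≤ (xc p).re → |(xc (h p)).re| < 1 / 4 ∧ a + 7 * ρ < ‖xc (h p)‖
  D : ℝ → S3
  knotC : IsKnot fun t => FL (lk 0).F (lk 1).F (P t)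
  knotD : IsKnot D
  conc : TopConc (fun t => FL (lk 0).F (lk 1).F (P t)) D
  Dm : ∀ p, (xc p).re ≤ 0 → (h p ∈ range D ↔ h p ∈ (lk 0).F '' range P)
  Dp : ∀ p, 0 ≤ (xc p).re → (h p ∈ range D ↔ h (rot p) ∈ (lk 1).F '' range P)
  s₀ : ℝ
  hs₀ : ∀ᶠ t in 𝓝 s₀, D t = P t
  loc : -1 / 2 < (xc (h.symm (P s₀))).re ∧ (xc (h.symm (P s₀))).re < -1 / 4

namespace Geo

variable {r s : Fin 2 → ℕ} {P : ℝ → S3} (g : Geo r s P)

/-- The centre on the side `i`. -/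
def xi (i : Fin 2) : ℂ := (sg i * g.a : ℝ)

/-- The glued embedding. -/
def fl : S3 → S3 := FL (g.lk 0).F (g.lk 1).F

/-- The satellite of the connected sum. -/
def C : ℝ → S3 := fun t => g.fl (P t)

/-- The involution that exchanges the ball and its complement. -/
def σ : S3 ≃ₜ S3 := (g.h.symm.trans rot).trans g.h

/-- The placement of the two summands. -/
def Ψ (i : Fin 2) : S3 ≃ₜ S3 := if i = 0 then Homeomorph.refl S3 else g.σ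

/-- The companion piece. -/
def Oi (i : Fin 2) : Set S3 := (g.lk i).Oc (2 * g.ρ)

/-- The composing space. -/
def Qo : Set S3 := RB {x | ‖x‖ < g.a + 5 * g.ρ ∧ ∀ i, 3 * g.ρ < ‖x - g.xi i‖}

/-- The composing space with only the two circles removed. -/
def Qp : Set S3 := RB {x | ‖x‖ < g.a + 5 * g.ρ ∧ ∀ i, x ≠ g.xi i}

/-- The pattern piece. -/
def So : Set S3 :=
  (RB {x | g.a + 6 * g.ρ < ‖x‖} \ range P) \ g.h '' RB {x | -1 / 4 ≤ x.re}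

/-- The middle region. -/
def Mid : Set S3 := (range P ∪ eta (g.xi 0) ∪ eta (g.xi 1))ᶜ

/-- Base of the shell around a companion. -/
def Bc (i : Fin 2) : Set ℂ := {x | g.ρ < ‖x - g.xi i‖ ∧ ‖x - g.xi i‖ < 4 * g.ρ}

/-- Base of the shell around the composing space. -/
def Bv : Set ℂ := {x | g.a + 9 * g.ρ / 2 < ‖x‖ ∧ ‖x‖ < g.a + 13 * g.ρ / 2}

/-- Base of the thick shell in a summand. -/
def Bd (i : Fin 2) : Set ℂ := {x | g.ρ < ‖x - g.xi i‖ ∧ ‖x‖ < g.a + 13 * g.ρ / 2}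

/-- The four pieces of the exterior of `C`. -/
def pcC : Fin 4 → Set S3 := ![g.Oi 0, g.Oi 1, g.fl '' g.Qo, g.fl '' g.So]

/-- The four shells in the exterior of `C`. -/
def shC : Fin 4 → Set S3 := ![g.fl '' RB (g.Bc 0), g.fl '' RB (g.Bc 1), g.fl '' RB g.Bv,
  g.h '' RB {x | ‖x‖ < 1 ∧ -1 / 2 < x.re}]

/-- The four pieces of the exterior of `D`. -/
def pcD : Fin 4 → Set S3 := ![g.Ψ 0 '' g.Oi 0, g.Ψ 1 '' g.Oi 1,
  g.Ψ 0 '' ((g.lk 0).F '' g.So), g.Ψ 1 '' ((g.lk 1).F '' g.So)]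

/-- The three shells in the exterior of `D`. -/
def shD : Fin 3 → Set S3 := ![g.Ψ 0 '' ((g.lk 0).F '' RB (g.Bd 0)),
  g.Ψ 1 '' ((g.lk 1).F '' RB (g.Bd 1)), g.h '' RB {x | ‖x‖ < 1 ∧ |x.re| < 1 / 2}]

/-- A retraction that pushes the ball off itself along the arc. -/
structure IsRq (κ : S3 → S3) : Prop where
  cont : ∀ p, p ∉ g.h '' (Uk ∩ RB {x | -1 / 4 ≤ x.re}) → ContinuousAt κ p
  id : ∀ p, (xc p).re ≤ -1 / 4 → κ (g.h p) = g.h p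
  push : ∀ p, -1 / 4 < (xc p).re → yc p ≠ 0 →
    ∃ p', (xc p').re = -1 / 4 ∧ yc p' ≠ 0 ∧ κ (g.h p) = g.h p'

end Geo

/-- The exterior of the pattern link. -/
def Sp (P : ℝ → S3) : Set S3 := (range P ∪ eta 0)ᶜ

/-- The concordance with its degree cocycle and the comparison with the standard cocycles. -/
structure Deg {r s : Fin 2 → ℕ} {P : ℝ → S3} (g : Geo r s P) (hP : S3 → S3 → ℤ) (w : ℤ) where
  A : ℝ → ℝ → Y4
  ann : IsAnn g.C g.D A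
  h : Y4 → Y4 → ℤ
  gen : IsGen (ℝ × ℝ) (rng A) h
  ti : ∀ p q, h p q = h (clampT (-1) 2 p) (clampT (-1) 2 q)
  κ : Fin 2 → S3 → S3
  ret : ∀ i, (g.lk i).IsRet (κ i)
  κq : S3 → S3
  retq : g.IsRq κq
  compC : ∀ i, CohA (pb (κ i) (pb (sl (-2)) h)) (fun x y => w * th (g.lk i).ϑ x y) (g.lk i).Kᶜ
  compD : ∀ i, CohA (pb (g.Ψ i ∘ κ i) (pb (sl 3) h)) (fun x y => w * th (g.lk i).ϑ x y) (g.lk i).Kᶜ
  midC : CohA (pb g.fl (pb (sl (-2)) h)) hP g.Mid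
  midD : ∀ i, CohA (pb (g.Ψ i ∘ κq ∘ (g.lk i).F) (pb (sl 3) h)) hP (range P ∪ eta (g.xi i))ᶜ
  fibC : ∀ x, ‖x‖ < g.a + 7 * g.ρ → (∀ i, x ≠ g.xi i) → IsHolA (pb (sl (-2)) h) (g.fl ∘ fib x) w
  fibD : ∀ i x, ‖x‖ < g.a + 7 * g.ρ → x ≠ g.xi i →
    IsHolA (pb (sl 3) h) (g.Ψ i ∘ (g.lk i).F ∘ fib x) w
  ε : ℤ
  hε : ε = 1 ∨ ε = -1
  fibqC : ∀ x : ℂ, ‖x‖ < 1 → -1 / 2 < x.re → IsHolA (pb (sl (-2)) h) (g.h ∘ fib x) ε
  fibqD : ∀ x : ℂ, ‖x‖ < 1 → |x.re| < 1 / 2 → IsHolA (pb (sl 3) h) (g.h ∘ fib x) ε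
  fibqP : ∀ x : ℂ, ‖x‖ < 1 → -1 / 2 < x.re → IsHolA hP (g.h ∘ fib x) ε

/-- The scalar local system `ξ ^ h`. -/
def zs {F Y : Type} [Field F] (ξ : Fˣ) (h : Y → Y → ℤ) : Y → Y → Module.End F F :=
  fun x y => ((ξ ^ h x y : Fˣ) : F) • 1

/-- The cocycles `a`, `b` on the exterior of a long torus knot, and the value `c₀` of `b` on the
longitude. -/
structure KCoc {F : Type} [Field F] [StarRing F] {r s : ℕ} {σ a ρ : ℝ} (k : LK r s σ a ρ)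
    (ξ : Fˣ) (aS bS : S3 → S3 → F) (c₀ : F) : Prop where
  coc : dT (zs ξ (th k.ϑ)) (c1 aS) ∈ N F F 3 k.Kᶜ
  van : c1 aS ∈ N F F 2 (k.F '' RB {x | ρ < ‖x - (σ * a : ℝ)‖})
  cocb : ∀ p ∈ k.Kᶜ, ∃ U ∈ 𝓝 p, ∀ x ∈ U, ∀ y ∈ U, ∀ z ∈ U,
    bS x z = bS x y + bS y z + aS x y * star (((ξ ^ th k.ϑ x y : Fˣ) : F) * aS y z)
  hol : IsHolA bS k.lam c₀
  gen : ∀ (E : Type) [AddCommGroup E] [Module F E] (L : (Module.End F E)ˣ) (e₀ : E), e₀ ≠ 0 →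
    L.1 e₀ = (ξ : F) • e₀ → Function.Bijective ((L ^ r).1 - 1 : Module.End F E) →
    Function.Bijective ((L ^ s).1 - 1 : Module.End F E) →
    (∀ e, (L ^ (r * s)).1 e = e → ∃ κ : F, e = κ • e₀) →
    OneGen (zt L (th k.ϑ)) k.Kᶜ (cm (LinearMap.toSpanSingleton F E e₀) (c1 aS))

/-- The class of `a` for the system `t ^ k` is `κ a₀` with `κ κ̄ = N₀`, after the change of gauge
from `k` to `k₀`. -/
def CompCl {F E : Type} [Field F] [StarRing F] [AddCommGroup E] [Module F E]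
    (t : (Module.End F E)ˣ) (S : Set S3) (k k₀ : S3 → S3 → ℤ) (a a₀ : List S3 → E) (N₀ : F) :
    Prop :=
  ∃ φ : S3 → ℤ, LocEq (fun x y => k x y - k₀ x y) (fun x y => φ y - φ x) S ∧ ∃ κ : F,
    κ * star κ = N₀ ∧ Exa (zt t k₀) 2 S (ga (fun x => (t ^ φ x : (Module.End F E)ˣ).1) a - κ • a₀)

end Pool.Agent.HH
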