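import Pool.Agent.P.MP_c8dc46_gt.PDY
import Pool.Agent.P.MP_c8dc46_gt.GDefs

/-!
Integration over slices and over the sphere; transfer along open embeddings; degree one.
-/

open Set Topology

namespace Pool.Agent.HH

variable {F : Type} [Field F]

section Transfer

variable {R E : Type} [CommRing R] [AddCommGroup E] [Module R E]

open Classical in
/-- Transfer of cochains along an open embedding `Φ` on `O`: the pull-back on lists whose image is
small compared with the distance to the complement of `O`, zero on the other lists. -/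
noncomputable def tfr (R E : Type) [CommRing R] [AddCommGroup E] [Module R E] (Φ : S3 → S3)
    (O : Set S3) : (List S3 → E) →ₗ[R] (List S3 → E) where
  toFun φ := fun l =>
    if ∀ x ∈ l, ∀ y ∈ l, edist (Φ x) (Φ y) < Metric.infEDist x Oᶜ then φ (l.map Φ) else 0
  map_add' φ ψ := by
    funext l
    simp only [Pi.add_apply]
    split_ifs <;> simp
  map_smul' c φ := by
    funext l
    simp only [Pi.smul_apply, RingHom.id_apply]
    split_ifs <;> simp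

theorem tfr_pos {Φ : S3 → S3} {O : Set S3} (a : List S3 → E) {l : List S3}
    (h : ∀ x ∈ l, ∀ y ∈ l, edist (Φ x) (Φ y) < Metric.infEDist x Oᶜ) :
    tfr R E Φ O a l = a (l.map Φ) := if_pos h

theorem tfr_neg {Φ : S3 → S3} {O : Set S3} (a : List S3 → E) {l : List S3}
    (h : ¬ ∀ x ∈ l, ∀ y ∈ l, edist (Φ x) (Φ y) < Metric.infEDist x Oᶜ) :
    tfr R E Φ O a l = 0 := if_neg h

theorem OE.isCompact_pre {Y Y' : Type} [TopologicalSpace Y] [TopologicalSpace Y'] {Φ : Y' → Y}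
    {O : Set Y'} (h : OE Φ O) {K : Set Y} (hK : IsCompact K) (hs : K ⊆ Φ '' O) :
    IsCompact (O ∩ Φ ⁻¹' K) := by
  rcases isEmpty_or_nonempty Y' with hY | hY
  · exact Set.Subsingleton.isCompact (fun x _ => hY.elim x)
  obtain ⟨Ψ, hΨ, h1, h2⟩ := h.exists_inv
  have he : O ∩ Φ ⁻¹' K = Ψ '' K := by
    ext x
    constructor
    · rintro ⟨hx, hxK⟩
      exact ⟨Φ x, hxK, h1 x hx⟩
    · rintro ⟨y, hy, rfl⟩
      obtain ⟨z, hz, rfl⟩ := hs hy
      rw [h1 z hz]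
      exact ⟨hz, hy⟩
  rw [he]
  exact hK.image_of_continuousOn (hΨ.cont.mono hs)

theorem RInt3.small_nhds {X : Type} [PseudoEMetricSpace X] {Φ : X → X} {O : Set X} (hO : IsOpen O)
    {p : X} (hp : p ∈ O) (hc : ContinuousAt Φ p) :
    ∃ U ∈ 𝓝 p, ∀ x ∈ U, ∀ y ∈ U, edist (Φ x) (Φ y) < Metric.infEDist x Oᶜ := by
  have hf : ContinuousAt (fun q : X × X => Φ q.1) (p, p) :=
    ContinuousAt.comp (f := fun q : X × X => q.1) (x := (p, p)) hc continuousAt_fst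
  have hg : ContinuousAt (fun q : X × X => Φ q.2) (p, p) :=
    ContinuousAt.comp (f := fun q : X × X => q.2) (x := (p, p)) hc continuousAt_snd
  have h1 : ContinuousAt (fun q : X × X => edist (Φ q.1) (Φ q.2)) (p, p) := hf.edist hg
  have h2 : ContinuousAt (fun q : X × X => Metric.infEDist q.1 Oᶜ) (p, p) :=
    (Metric.continuous_infEDist.comp continuous_fst).continuousAt
  have h3 : edist (Φ p) (Φ p) < Metric.infEDist p Oᶜ := by
    rw [edist_self, Metric.infEDist_pos_iff_notMem_closure, hO.isClosed_compl.closure_eq]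
    exact fun hh => hh hp
  have h4 : {q : X × X | edist (Φ q.1) (Φ q.2) < Metric.infEDist q.1 Oᶜ} ∈ 𝓝 (p, p) :=
    h1.eventually_lt h2 h3
  obtain ⟨u, hu, v, hv, huv⟩ := mem_nhds_prod_iff.1 h4
  exact ⟨u ∩ v, Filter.inter_mem hu hv, fun x hx y hy => huv (mk_mem_prod hx.1 hy.2)⟩

theorem tfr_sub_pull {Φ : S3 → S3} {O : Set S3} (h : OE Φ O) (n : ℕ) (a : List S3 → E) :
    tfr R E Φ O a - pull R E Φ a ∈ N R E n O := by
  intro p hp
  obtain ⟨U, hU, hsm⟩ :=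
    RInt3.small_nhds h.isOpen hp (h.cont.continuousAt (h.isOpen.mem_nhds hp))
  refine ⟨U, hU, fun l _ hl => ?_⟩
  rw [Pi.sub_apply, tfr_pos a fun x hx y hy => hsm x (hl x hx) y (hl y hy)]
  exact sub_self _

theorem tfr_mem_N {Φ : S3 → S3} {O : Set S3} (h : OE Φ O) {n : ℕ} (hn : 1 ≤ n) {K : Set S3}
    (hK : IsCompact K) (hs : K ⊆ Φ '' O) {a : List S3 → E} (ha : a ∈ N R E n Kᶜ) :
    tfr R E Φ O a ∈ N R E n (O ∩ Φ ⁻¹' K)ᶜ := by
  have hsub : (O ∩ Φ ⁻¹' K)ᶜ ⊆ (O \ Φ ⁻¹' K) ∪ Oᶜ := by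
    intro p hp
    by_cases hO : p ∈ O
    · exact Or.inl ⟨hO, fun hh => hp ⟨hO, hh⟩⟩
    · exact Or.inr hO
  refine N_mono hsub (mem_N_union.2 ⟨?_, ?_⟩)
  · have h1 : pull R E Φ a ∈ N R E n (O \ Φ ⁻¹' K) :=
      pull_mem_N (fun p hp => h.cont.continuousAt (h.isOpen.mem_nhds hp.1)) (fun p hp => hp.2) ha
    have h2 := N_mono (sdiff_subset (s := O) (t := Φ ⁻¹' K)) (tfr_sub_pull (R := R) h n a)
    simpa using Submodule.add_mem _ h2 h1
  · obtain ⟨L, hL, hKL, hLO⟩ :=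
      exists_compact_between (h.isCompact_pre hK hs) h.isOpen inter_subset_left
    have hV : IsOpen (Φ '' interior L) := h.img _ isOpen_interior (interior_subset.trans hLO)
    have hC : IsCompact (Φ '' interior L)ᶜ := hV.isClosed_compl.isCompact
    have hCK : (Φ '' interior L)ᶜ ⊆ Kᶜ := by
      intro q hq hqK
      obtain ⟨z, hz, rfl⟩ := hs hqK
      exact hq ⟨z, hKL ⟨hz, hqK⟩, rfl⟩
    have hU : ∀ q : ↥(Φ '' interior L)ᶜ, ∃ U : Set S3, IsOpen U ∧ q.1 ∈ U ∧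
        ∀ l : List S3, l.length = n → (∀ x ∈ l, x ∈ U) → a l = 0 := by
      intro q
      obtain ⟨U, hU, hl⟩ := ha q.1 (hCK q.2)
      exact ⟨interior U, isOpen_interior, mem_interior_iff_mem_nhds.2 hU,
        fun l h1 h2 => hl l h1 fun x hx => interior_subset (h2 x hx)⟩
    choose U hUo hUm hUl using hU
    obtain ⟨δ, hδ, hleb⟩ := lebesgue_number_lemma_of_metric hC hUo
      (fun q hq => mem_iUnion.2 ⟨⟨q, hq⟩, hUm ⟨q, hq⟩⟩)
    intro p hp
    refine ⟨Metric.ball p δ ∩ Lᶜ, Filter.inter_mem (Metric.ball_mem_nhds p hδ)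
      (hL.isClosed.isOpen_compl.mem_nhds fun hh => hp (hLO hh)), fun l hl hx => ?_⟩
    by_cases hcond : ∀ x ∈ l, ∀ y ∈ l, edist (Φ x) (Φ y) < Metric.infEDist x Oᶜ
    · rw [tfr_pos a hcond]
      obtain ⟨x, hxl⟩ : ∃ x, x ∈ l := List.exists_mem_of_length_pos (by omega)
      have hxO : x ∈ O := by
        by_contra hh
        have h0 := hcond x hxl x hxl
        rw [Metric.infEDist_zero_of_mem (s := Oᶜ) hh] at h0
        exact not_lt_zero h0
      have hxC : Φ x ∈ (Φ '' interior L)ᶜ := by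
        rintro ⟨z, hz, hzx⟩
        have hzL : z ∈ L := interior_subset hz
        have : z = x := h.inj (hLO hzL) hxO hzx
        exact (hx x hxl).2 (this ▸ hzL)
      obtain ⟨i, hi⟩ := hleb _ hxC
      refine hUl i _ (by simpa using hl) fun y hy => ?_
      obtain ⟨w, hw, rfl⟩ := List.mem_map.1 hy
      refine hi ?_
      have h1 : edist (Φ x) (Φ w) < edist x p :=
        lt_of_lt_of_le (hcond x hxl w hw) (Metric.infEDist_le_edist_of_mem hp)
      have h2 : dist (Φ x) (Φ w) < dist x p := by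
        rw [edist_dist, edist_dist] at h1
        exact (ENNReal.ofReal_lt_ofReal_iff_of_nonneg dist_nonneg).1 h1
      rw [Metric.mem_ball, dist_comm]
      exact h2.trans (Metric.mem_ball.1 (hx x hxl).1)
    · exact tfr_neg a hcond

theorem tfr_mem_Cc {Φ : S3 → S3} {O : Set S3} (h : OE Φ O) {n : ℕ} (hn : 1 ≤ n)
    {a : List S3 → E} (ha : a ∈ Cc R E n (Φ '' O)) : tfr R E Φ O a ∈ Cc R E n O := by
  obtain ⟨K, hK, hs, ha⟩ := ha
  exact ⟨O ∩ Φ ⁻¹' K, h.isCompact_pre hK hs, inter_subset_left, tfr_mem_N h hn hK hs ha⟩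

end Transfer

namespace RInt3

section General

variable {Y Y' : Type} [TopologicalSpace Y] [TopologicalSpace Y'] {R E : Type} [CommRing R]
  [AddCommGroup E] [Module R E]

theorem mem_univ_of_Cc {n : ℕ} {O : Set Y} {ψ : List Y → E} (h : ψ ∈ Cc R E n O)
    (h' : ψ ∈ N R E n O) : ψ ∈ N R E n (univ : Set Y) := by
  obtain ⟨K, -, hKO, hK⟩ := h
  refine N_mono (S' := O ∪ Kᶜ) (fun p _ => ?_) (mem_N_union.2 ⟨h', hK⟩)
  by_cases hp : p ∈ K
  · exact Or.inl (hKO hp)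
  · exact Or.inr hp

theorem exists_rel [LocallyCompactSpace Y'] [T2Space Y'] {Ψ : Y' → Y} {O : Set Y'} (h : OE Ψ O)
    {n : ℕ} (hn : 1 ≤ n) {φ : List Y → E} (hφ : φ ∈ Cc R E n (Ψ '' O)) :
    ∃ ψ ∈ Cc R E n O, ψ - pull R E Ψ φ ∈ N R E n O := by
  obtain ⟨K, hK, hs, hφ⟩ := hφ
  obtain ⟨L, hL, hKL, hLO⟩ :=
    exists_compact_between (h.isCompact_pre hK hs) h.isOpen inter_subset_left
  refine ⟨cut R E L (pull R E Ψ φ), ⟨L, hL, hLO, ?_⟩, ?_⟩
  · have := cut_mem_N_compl (R := R) L n (pull R E Ψ φ)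
    rwa [hL.isClosed.closure_eq] at this
  · have hsub : O ⊆ interior L ∪ (O \ Ψ ⁻¹' K) := by
      intro p hp
      by_cases hh : Ψ p ∈ K
      · exact Or.inl (hKL ⟨hp, hh⟩)
      · exact Or.inr ⟨hp, hh⟩
    refine N_mono hsub (mem_N_union.2 ⟨?_, ?_⟩)
    · have := Submodule.neg_mem _ (sub_cut_mem_N (R := R) L hn (pull R E Ψ φ))
      rwa [neg_sub] at this
    · have h1 : pull R E Ψ φ ∈ N R E n (O \ Ψ ⁻¹' K) :=
        pull_mem_N (fun p hp => h.cont.continuousAt (h.isOpen.mem_nhds hp.1)) (fun p hp => hp.2) hφ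
      exact Submodule.sub_mem _ (cut_mem_N L h1) h1

theorem rel_mono {Ψ : Y' → Y} {O O' : Set Y'} (h : OE Ψ O) (hs : O' ⊆ O) {n : ℕ}
    {φ : List Y → E} (hφ : φ ∈ Cc R E n (Ψ '' O')) {ψ : List Y' → E} (hψ : ψ ∈ Cc R E n O')
    (hr : ψ - pull R E Ψ φ ∈ N R E n O') : ψ - pull R E Ψ φ ∈ N R E n O := by
  obtain ⟨K, -, hKs, hφ⟩ := hφ
  obtain ⟨L, -, hLs, hψ⟩ := hψ
  have hsub : O ⊆ O' ∪ (O \ O') := by
    intro p hp
    by_cases hh : p ∈ O'
    · exact Or.inl hh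
    · exact Or.inr ⟨hp, hh⟩
  refine N_mono hsub (mem_N_union.2 ⟨hr, Submodule.sub_mem _ ?_ ?_⟩)
  · exact N_mono (fun p hp hL => hp.2 (hLs hL)) hψ
  · refine pull_mem_N (S := Kᶜ) (fun p hp => h.cont.continuousAt (h.isOpen.mem_nhds hp.1))
      (fun p hp => ?_) hφ
    intro hK
    obtain ⟨z, hz, hzp⟩ := hKs hK
    exact hp.2 (h.inj (hs hz) hp.1 hzp ▸ hz)

omit [TopologicalSpace Y] in
theorem pull_congr {Ψ Ψ' : Y' → Y} {U : Set Y'} (hU : IsOpen U) (he : ∀ p ∈ U, Ψ p = Ψ' p)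
    (n : ℕ) (φ : List Y → E) : pull R E Ψ φ - pull R E Ψ' φ ∈ N R E n U := by
  intro p hp
  refine ⟨U, hU.mem_nhds hp, fun l _ hl => ?_⟩
  show φ (l.map Ψ) - φ (l.map Ψ') = 0
  rw [List.map_congr_left fun x hx => he x (hl x hx), sub_self]

omit [TopologicalSpace Y] [TopologicalSpace Y'] in
theorem pull_d (j : Y' → Y) (φ : List Y → E) :
    pull R E j (dT (triv R E Y) φ) = dT (triv R E Y') (pull R E j φ) := pull_dT j _ φ

omit [TopologicalSpace Y] in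
theorem jmp_sub {S A B : Set Y} (hBA : B ⊆ A) (hS : ∀ p, p ∈ S ↔ p ∈ A ∧ p ∉ B) (x y : Y) :
    jmp S x y = jmp A x y - jmp B x y := by
  have h1 := @hBA x
  have h2 := @hBA y
  unfold jmp
  rw [hS x, hS y]
  by_cases a1 : x ∈ A <;> by_cases a2 : x ∈ B <;> by_cases a3 : y ∈ A <;> by_cases a4 : y ∈ B <;>
    simp_all

end General

/-- The jump across the slice at time `t`. -/
noncomputable abbrev lj (F : Type) [Field F] (t : ℝ) : (List Y4 → F) →ₗ[F] (List Y4 → F) :=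
  lc (triv F F Y4) (jmp {p | t < p.2})

theorem isCompact_slab {K : Set S3} (hK : IsCompact K) (t₁ t₂ : ℝ) :
    IsCompact {p : Y4 | p.1 ∈ K ∧ t₁ ≤ p.2 ∧ p.2 ≤ t₂} := hK.prod isCompact_Icc

theorem lj_off (t : ℝ) (n : ℕ) (φ : List Y4 → F) : lj F t φ ∈ N F F n {p : Y4 | p.2 = t}ᶜ := by
  refine lc_mem_N_of_locEq _ ((jmp_locEq _).mono (compl_subset_compl.2 fun p hf => ?_)) n φ
  exact (frontier_lt_subset_eq continuous_const continuous_snd hf).symm

theorem lj_mem {t : ℝ} {n : ℕ} {S : Set Y4} {φ : List Y4 → F}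
    (h : φ ∈ N F F n (S ∩ {p : Y4 | p.2 = t})) : lj F t φ ∈ N F F (n + 1) S := by
  refine N_mono (S' := (S ∩ {p : Y4 | p.2 = t}) ∪ {p : Y4 | p.2 = t}ᶜ) (fun p hp => ?_)
    (mem_N_union.2 ⟨lc_mem_N _ _ h, lj_off t _ φ⟩)
  by_cases hh : p.2 = t
  · exact Or.inl ⟨hp, hh⟩
  · exact Or.inr hh

theorem lj_Cc (t : ℝ) (n : ℕ) (φ : List Y4 → F) : lj F t φ ∈ Cc F F n (univ : Set Y4) :=
  ⟨_, isCompact_slab isCompact_univ t t, subset_univ _,
    N_mono (compl_subset_compl.2 fun _ hh => And.intro trivial (And.intro hh.ge hh.le))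
      (lj_off t n φ)⟩

theorem lj_d (t : ℝ) (n : ℕ) (φ : List Y4 → F) :
    dT (triv F F Y4) (lj F t φ) + lj F t (dT (triv F F Y4) φ) ∈ N F F n (univ : Set Y4) :=
  dT_lc_mem_N (isCoc_triv _) (isCocA_jmp _ _) n φ

theorem lj_closed {t : ℝ} {n : ℕ} {φ : List Y4 → F}
    (h : dT (triv F F Y4) φ ∈ N F F n {p : Y4 | p.2 = t}) :
    dT (triv F F Y4) (lj F t φ) ∈ N F F (n + 1) (univ : Set Y4) := by
  have h1 : lj F t (dT (triv F F Y4) φ) ∈ N F F (n + 1) (univ : Set Y4) :=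
    lj_mem (N_mono inter_subset_right h)
  simpa using Submodule.sub_mem _ (lj_d t (n + 1) φ) h1

theorem lj_star [StarRing F] (t : ℝ) (φ : List Y4 → F) :
    lj F t (fun l => star (φ l)) = fun l => star (lj F t φ l) := by
  funext l
  match l with
  | [] => exact (star_zero F).symm
  | [_] => exact (star_zero F).symm
  | x :: y :: l =>
    show jmp _ x y • star (φ (y :: l)) = star (jmp _ x y • φ (y :: l))
    rw [star_zsmul]

theorem lj_pull_Cc (t : ℝ) {n : ℕ} {O : Set S3} {φ : List S3 → F} (h : φ ∈ Cc F F n O) :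
    lj F t (pull F F Prod.fst φ) ∈ Cc F F (n + 1) (O ×ˢ (univ : Set ℝ)) := by
  obtain ⟨K, hK, hKO, hφ⟩ := h
  refine ⟨_, isCompact_slab hK t t, fun p hp => ⟨hKO hp.1, trivial⟩, lj_mem ?_⟩
  exact pull_mem_N (fun _ _ => continuousAt_fst)
    (fun p hp hh => hp.1 ⟨hh, hp.2.ge, hp.2.le⟩) hφ

/-- `Ψ` has degree `δ` on `O`. -/
def Deg (F : Type) [Field F] (Ψ : Y4 → Y4) (O : Set Y4) (δ : F) : Prop :=
  ∀ φ ∈ Cc F F 5 (Ψ '' O), dT (triv F F Y4) φ ∈ N F F 6 univ →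
    ∀ ψ ∈ Cc F F 5 O, ψ - pull F F Ψ φ ∈ N F F 5 O → IY F ψ = δ * IY F φ

theorem deg_eq {Ψ₁ Ψ₂ : Y4 → Y4} {O₁ O₂ U : Set Y4} (h₁ : OE Ψ₁ O₁) (h₂ : OE Ψ₂ O₂)
    {δ₁ δ₂ : F} (d₁ : Deg F Ψ₁ O₁ δ₁) (d₂ : Deg F Ψ₂ O₂ δ₂) (hU : IsOpen U) (hne : U.Nonempty)
    (s₁ : U ⊆ O₁) (s₂ : U ⊆ O₂) (he : ∀ p ∈ U, Ψ₁ p = Ψ₂ p) : δ₁ = δ₂ := by
  obtain ⟨φ, hφ, hd, h1⟩ := exists_IY_one F (h₁.img U hU s₁) (hne.image Ψ₁)
  obtain ⟨ψ, hψ, hr⟩ := exists_rel (h₁.mono hU s₁) (by norm_num) hφ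
  have hφ' : φ ∈ Cc F F 5 (Ψ₂ '' U) := by rwa [← image_congr he]
  have hr' : ψ - pull F F Ψ₂ φ ∈ N F F 5 U := by
    simpa using Submodule.add_mem _ hr (pull_congr (R := F) hU he 5 φ)
  have e₁ := d₁ φ (Cc_mono (image_mono s₁) hφ) hd ψ (Cc_mono s₁ hψ) (rel_mono h₁ s₁ hφ hψ hr)
  have e₂ := d₂ φ (Cc_mono (image_mono s₂) hφ') hd ψ (Cc_mono s₂ hψ) (rel_mono h₂ s₂ hφ' hψ hr')
  rw [h1, mul_one] at e₁ e₂
  rw [← e₁, e₂]

theorem deg_id : Deg F id univ 1 := by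
  intro φ _ _ ψ _ hr
  have he : pull F F id φ = φ := by
    funext l
    show φ (l.map id) = φ l
    rw [List.map_id]
  have := (isI_IY F).1 _ hr
  rw [he, map_sub, sub_eq_zero] at this
  rw [this, one_mul]

theorem oe_prod {Φ : S3 → S3} {O : Set S3} (h : OE Φ O) :
    OE (Prod.map Φ (id : ℝ → ℝ)) (O ×ˢ univ) where
  isOpen := h.isOpen.prod isOpen_univ
  cont := h.cont.prodMap continuousOn_id
  inj := fun p hp q hq hpq =>
    Prod.ext (h.inj hp.1 hq.1 (congrArg Prod.fst hpq)) (Prod.ext_iff.1 hpq).2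
  img := by
    intro V hV hs
    rw [isOpen_iff_mem_nhds]
    rintro _ ⟨p, hp, rfl⟩
    obtain ⟨u, v, hu, hv, hpu, hpv, huv⟩ := isOpen_prod_iff.1 hV p.1 p.2 hp
    have hu' : IsOpen (Φ '' (u ∩ O)) := h.img _ (hu.inter h.isOpen) inter_subset_right
    refine Filter.mem_of_superset ((hu'.prod hv).mem_nhds ⟨⟨p.1, ⟨hpu, (hs hp).1⟩, rfl⟩, hpv⟩) ?_
    rintro ⟨_, t⟩ ⟨⟨x, hx, rfl⟩, ht⟩
    exact ⟨(x, t), huv ⟨hx.1, ht⟩, rfl⟩

theorem ex_add (s t : ℝ) : ex (s + t) = ex s * ex t := by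
  rw [ex, ex, ex, ← Complex.exp_add]
  congr 1
  push_cast
  ring

theorem ex_zero : ex 0 = 1 := by simp [ex]

theorem ex_half : ex (1 / 2) = -1 := by
  rw [ex, ← Complex.exp_pi_mul_I]
  congr 1
  push_cast
  ring

theorem continuous_ex : Continuous ex := by
  unfold ex
  fun_prop

/-- Rotation of the first coordinate. -/
noncomputable def rotF (s : ℝ) (p : S3) : S3 :=
  ⟨(ex s * p.1.1, p.1.2), by simpa [norm_ex] using p.2⟩

theorem rotF_rotF (s t : ℝ) (h : s + t = 0) (p : S3) : rotF s (rotF t p) = p := by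
  apply Subtype.ext
  show (ex s * (ex t * p.1.1), p.1.2) = p.1
  rw [← mul_assoc, ← ex_add, h, ex_zero, one_mul]

theorem continuous_rotF {g : ℝ → ℝ} (hg : Continuous g) :
    Continuous fun q : ℝ × S3 => rotF (g q.1) q.2 := by
  refine Continuous.subtype_mk ?_ _
  have := continuous_ex
  fun_prop

/-- Rotation of the first coordinate as a homeomorphism. -/
noncomputable def rotH (s : ℝ) : S3 ≃ₜ S3 where
  toFun := rotF s
  invFun := rotF (-s)
  left_inv := rotF_rotF _ _ (by ring)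
  right_inv := rotF_rotF _ _ (by ring)
  continuous_toFun := (continuous_rotF (g := fun _ => s) continuous_const).comp
    (Continuous.prodMk_right (0 : ℝ))
  continuous_invFun := (continuous_rotF (g := fun _ => -s) continuous_const).comp
    (Continuous.prodMk_right (0 : ℝ))

end RInt3

open RInt3

theorem Jt_loc (t : ℝ) {φ : List Y4 → F} (h : φ ∈ N F F 4 {p : Y4 | p.2 = t}) : Jt F t φ = 0 :=
  (isI_IY F).1 _ (lj_mem (N_mono inter_subset_right h))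

theorem Jt_stokes (t : ℝ) (ψ : List Y4 → F) : Jt F t (dT (triv F F Y4) ψ) = 0 := by
  have h1 := (isI_IY F).1 _ (lj_d t 5 ψ)
  rw [map_add, (isI_IY F).2.1 _ (lj_Cc t 4 ψ), zero_add] at h1
  exact h1

theorem isInt_Jt [StarRing F] (t : ℝ) : IsInt (Jt F t) {p : Y4 | p.2 = t} := by
  refine ⟨fun φ h => Jt_loc t h, Jt_stokes t, fun φ h => ?_⟩
  show IY F (lj F t fun l => star (φ l)) = star (IY F (lj F t φ))
  rw [lj_star]
  exact IY_star (lj_Cc t 5 φ) (lj_closed h)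

theorem I3_loc {φ : List S3 → F} (h : φ ∈ N F F 4 (univ : Set S3)) : I3 F φ = 0 :=
  Jt_loc 0 (pull_mem_N (fun _ _ => continuousAt_fst) (mapsTo_univ _ _) h)

theorem I3_stokes (ψ : List S3 → F) : I3 F (dT (triv F F S3) ψ) = 0 := by
  show Jt F 0 (pull F F Prod.fst (dT (triv F F S3) ψ)) = 0
  rw [pull_d]
  exact Jt_stokes 0 _

theorem isInt_I3 [StarRing F] : IsInt (I3 F) univ := by
  refine ⟨fun φ h => I3_loc h, I3_stokes, fun φ h => ?_⟩
  refine (isInt_Jt (F := F) 0).conj (pull F F Prod.fst φ) ?_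
  rw [← pull_d]
  exact pull_mem_N (fun _ _ => continuousAt_fst) (mapsTo_univ _ _) h

theorem Jt_indep {t₁ t₂ : ℝ} (ht : t₁ ≤ t₂) {φ : List Y4 → F}
    (h : dT (triv F F Y4) φ ∈ N F F 5 {p : Y4 | t₁ ≤ p.2 ∧ p.2 ≤ t₂}) : Jt F t₁ φ = Jt F t₂ φ := by
  set S : Set Y4 := {p | t₁ < p.2 ∧ p.2 ≤ t₂} with hS
  have hK := isCompact_slab isCompact_univ t₁ t₂
  have hcl : closure S ⊆ {p : Y4 | p.1 ∈ univ ∧ t₁ ≤ p.2 ∧ p.2 ≤ t₂} :=
    closure_minimal (fun p hp => ⟨trivial, hp.1.le, hp.2⟩) hK.isClosed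
  have h1 : cut F F S φ ∈ Cc F F 4 (univ : Set Y4) :=
    ⟨_, hK, subset_univ _, N_mono (compl_subset_compl.2 hcl) (cut_mem_N_compl S 4 φ)⟩
  have h2 : cut F F S (dT (triv F F Y4) φ) ∈ N F F 5 (univ : Set Y4) := by
    refine N_mono (S' := {p : Y4 | t₁ ≤ p.2 ∧ p.2 ≤ t₂} ∪ (closure S)ᶜ) (fun p _ => ?_)
      (mem_N_union.2 ⟨cut_mem_N S h, cut_mem_N_compl S 5 _⟩)
    by_cases hp : p ∈ closure S
    · exact Or.inl (hcl hp).2
    · exact Or.inr hp
  have hj : ∀ x y : Y4, jmp S x y = jmp {p : Y4 | t₁ < p.2} x y - jmp {p : Y4 | t₂ < p.2} x y :=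
    jmp_sub (fun p hp => ht.trans_lt hp) fun p => and_congr_right fun _ => not_lt.symm
  have h3 : lc (triv F F Y4) (jmp S) φ = lj F t₁ φ - lj F t₂ φ := by
    funext l
    match l with
    | [] => exact (sub_self (0 : F)).symm
    | [_] => exact (sub_self (0 : F)).symm
    | x :: y :: l =>
      show jmp S x y • φ (y :: l) = jmp _ x y • φ (y :: l) - jmp _ x y • φ (y :: l)
      rw [hj, sub_smul]
  have h4 := (isI_IY F).2.1 _ h1
  rw [dT_cut, map_add, (isI_IY F).1 _ h2, zero_add, h3, map_sub, sub_eq_zero] at h4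
  exact h4

theorem Jt_pull_fst (t : ℝ) {φ : List S3 → F} (h : dT (triv F F S3) φ ∈ N F F 5 univ) :
    Jt F t (pull F F Prod.fst φ) = I3 F φ := by
  have h1 : ∀ S : Set Y4, dT (triv F F Y4) (pull F F Prod.fst φ) ∈ N F F 5 S := by
    intro S
    rw [← pull_d]
    exact pull_mem_N (fun _ _ => continuousAt_fst) (mapsTo_univ _ _) h
  rcases le_total t 0 with ht | ht
  · exact Jt_indep ht (h1 _)
  · exact (Jt_indep ht (h1 _)).symm

theorem deg4 {Ψ : Y4 → Y4} {O : Set Y4} (h : OE Ψ O) (hc : IsPreconnected O) :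
    ∃ δ : F, ∀ φ ∈ Cc F F 5 (Ψ '' O), dT (triv F F Y4) φ ∈ N F F 6 univ →
      ∀ ψ ∈ Cc F F 5 O, ψ - pull F F Ψ φ ∈ N F F 5 O → IY F ψ = δ * IY F φ := by
  rcases O.eq_empty_or_nonempty with rfl | hne
  · refine ⟨0, fun φ _ _ ψ hψ _ => ?_⟩
    rw [zero_mul]
    exact (isI_IY F).1 _ (mem_univ_of_Cc hψ (mem_N_empty 5 ψ))
  have hO : IsOpen (Ψ '' O) := h.img O h.isOpen subset_rfl
  obtain ⟨φ₀, hφ₀, hd₀, h1⟩ := exists_IY_one F hO (hne.image Ψ)
  obtain ⟨ψ₀, hψ₀, hr₀⟩ := exists_rel h (by norm_num) hφ₀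
  refine ⟨IY F ψ₀, fun φ hφ hd ψ hψ hr => ?_⟩
  obtain ⟨χ, hχ, hν⟩ := top_exact hO (hc.image Ψ h.cont) (φ := φ - IY F φ • φ₀)
    (Submodule.sub_mem _ hφ (Submodule.smul_mem _ _ hφ₀))
    (by
      rw [map_sub, map_smul]
      exact Submodule.sub_mem _ hd (Submodule.smul_mem _ _ hd₀))
    (by rw [map_sub, map_smul, h1, smul_eq_mul, mul_one, sub_self])
  obtain ⟨χ', hχ', hrχ⟩ := exists_rel h (by norm_num) hχ
  have hp : pull F F Ψ (φ - IY F φ • φ₀ - dT (triv F F Y4) χ) ∈ N F F 5 O :=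
    pull_mem_N (fun p hp => h.cont.continuousAt (h.isOpen.mem_nhds hp)) (mapsTo_univ _ _) hν
  have h2 : ψ - IY F φ • ψ₀ - dT (triv F F Y4) χ' ∈ N F F 5 O := by
    have := Submodule.add_mem _ (Submodule.sub_mem _ (Submodule.sub_mem _ hr
      (Submodule.smul_mem _ (IY F φ) hr₀)) (dT_mem_N (triv F F Y4) hrχ)) hp
    convert this using 1
    rw [map_sub, map_sub, map_sub, map_smul, pull_d, smul_sub]
    abel
  have h3 : ψ - IY F φ • ψ₀ - dT (triv F F Y4) χ' ∈ Cc F F 5 O :=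
    Submodule.sub_mem _ (Submodule.sub_mem _ hψ (Submodule.smul_mem _ _ hψ₀)) (dT_mem_Cc _ hχ')
  have h4 := (isI_IY F).1 _ (mem_univ_of_Cc h3 h2)
  rw [map_sub, map_sub, map_smul, (isI_IY F).2.1 _ (Cc_mono (subset_univ _) hχ'), sub_zero,
    sub_eq_zero, smul_eq_mul] at h4
  rw [h4, mul_comm]

theorem degOne_of_isot (F : Type) [Field F] {Φ : S3 → S3} {O : Set S3} (h : OE Φ O)
    (hc : IsPreconnected O) {H : S3 ≃ₜ S3} (hH : Isot H) {O' : Set S3} (hO' : IsOpen O')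
    (hne : O'.Nonempty) (hs : O' ⊆ O) (he : ∀ p ∈ O', Φ p = H p) : DegOne F Φ O := by
  obtain ⟨G, hG, hG', hG0, hG1⟩ := hH
  have hcl : Continuous fun p : Y4 => (max 0 (min p.2 1), p.1) := by fun_prop
  let Γ : Y4 ≃ₜ Y4 :=
    { toFun := fun p => (G (max 0 (min p.2 1)) p.1, p.2)
      invFun := fun p => ((G (max 0 (min p.2 1))).symm p.1, p.2)
      left_inv := fun p => by simp
      right_inv := fun p => by simp
      continuous_toFun := (hG.comp hcl).prodMk continuous_snd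
      continuous_invFun := (hG'.comp hcl).prodMk continuous_snd }
  have oΓ : OE Γ univ := OE.of_homeomorph Γ isOpen_univ
  have oΦ := oe_prod h
  obtain ⟨δ, hδ⟩ := deg4 (F := F) oΦ (hc.prod isPreconnected_univ)
  obtain ⟨δ', hδ'⟩ := deg4 (F := F) oΓ isPreconnected_univ
  have e1 : δ' = 1 := by
    refine deg_eq (U := {p : Y4 | p.2 < 0}) oΓ (OE.of_homeomorph (Homeomorph.refl Y4) isOpen_univ)
      hδ' deg_id (isOpen_lt continuous_snd continuous_const) ⟨(iota 0 0, -1), by simp⟩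
      (subset_univ _) (subset_univ _) fun p hp => ?_
    have h0 : max 0 (min p.2 1) = 0 := max_eq_left ((min_le_left _ _).trans (le_of_lt hp))
    show (G (max 0 (min p.2 1)) p.1, p.2) = p
    rw [h0, hG0]
    rfl
  have e2 : δ = δ' := by
    obtain ⟨x, hx⟩ := hne
    refine deg_eq (U := O' ×ˢ Ioi 1) oΦ oΓ hδ hδ' (hO'.prod isOpen_Ioi) ⟨(x, 2), hx, by simp⟩
      (fun p hp => ⟨hs hp.1, trivial⟩) (subset_univ _) fun p hp => ?_
    have h0 : max 0 (min p.2 1) = 1 := by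
      rw [min_eq_right (le_of_lt hp.2)]
      simp
    show (Φ p.1, p.2) = (G (max 0 (min p.2 1)) p.1, p.2)
    rw [h0, hG1, he _ hp.1]
  intro φ hφ hd ψ hψ hr
  have h1 : lj F 0 (pull F F Prod.fst φ) ∈ Cc F F 5 (Prod.map Φ id '' (O ×ˢ (univ : Set ℝ))) := by
    rw [prodMap_image_prod, image_id]
    exact lj_pull_Cc 0 hφ
  have h2 : dT (triv F F Y4) (lj F 0 (pull F F Prod.fst φ)) ∈ N F F 6 (univ : Set Y4) := by
    refine lj_closed ?_
    rw [← pull_d]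
    exact pull_mem_N (fun _ _ => continuousAt_fst) (mapsTo_univ _ _) hd
  have h3 : pull F F (Prod.map Φ (id : ℝ → ℝ)) (lj F 0 (pull F F Prod.fst φ)) =
      lj F 0 (pull F F Prod.fst (pull F F Φ φ)) := by
    rw [pull_lc, pull_pull, pull_pull]
    rfl
  have h4 := hδ _ h1 h2 _ (lj_pull_Cc 0 hψ) (by
    rw [h3, ← map_sub, ← map_sub]
    exact lc_mem_N _ _ (pull_mem_N (fun _ _ => continuousAt_fst) (fun p hp => hp.1) hr))
  rw [e2, e1, one_mul] at h4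
  exact h4

theorem DegOne.mono {Φ : S3 → S3} {O O' : Set S3} (h : OE Φ O) (hd : DegOne F Φ O)
    (hO' : IsOpen O') (hs : O' ⊆ O) : DegOne F Φ O' := by
  have _ := hO'
  intro φ hφ hc ψ hψ hr
  exact hd φ (Cc_mono (image_mono hs) hφ) hc ψ (Cc_mono hs hψ) (rel_mono h hs hφ hψ hr)

theorem isot_refl : Isot (Homeomorph.refl S3) :=
  ⟨fun _ => Homeomorph.refl S3, continuous_snd, continuous_snd, rfl, rfl⟩

theorem Isot.symm {H : S3 ≃ₜ S3} (h : Isot H) : Isot H.symm := by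
  obtain ⟨G, hG, hG', h0, h1⟩ := h
  exact ⟨fun t => (G t).symm, hG', hG, by beta_reduce; rw [h0]; rfl, by beta_reduce; rw [h1]⟩

theorem Isot.trans {H H' : S3 ≃ₜ S3} (h : Isot H) (h' : Isot H') : Isot (H.trans H') := by
  obtain ⟨G, hG, hG', h0, h1⟩ := h
  obtain ⟨K, hK, hK', k0, k1⟩ := h'
  exact ⟨fun t => (G t).trans (K t), hK.comp (continuous_fst.prodMk hG),
    hG'.comp (continuous_fst.prodMk hK'), by beta_reduce; rw [h0, k0]; rfl,
    by beta_reduce; rw [h1, k1]⟩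

theorem Isot.conj {H : S3 ≃ₜ S3} (h : Isot H) (k : S3 ≃ₜ S3) :
    Isot ((k.symm.trans H).trans k) := by
  obtain ⟨G, hG, hG', h0, h1⟩ := h
  refine ⟨fun t => (k.symm.trans (G t)).trans k,
    k.continuous.comp (hG.comp (continuous_fst.prodMk (k.symm.continuous.comp continuous_snd))),
    k.continuous.comp (hG'.comp (continuous_fst.prodMk (k.symm.continuous.comp continuous_snd))),
    ?_, by beta_reduce; rw [h1]⟩
  beta_reduce
  rw [h0]
  ext1 p
  simp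

theorem isot_rot : Isot rot := by
  refine ⟨fun t => rotH (t / 2), continuous_rotF (g := fun t => t / 2) (by fun_prop),
    continuous_rotF (g := fun t => -(t / 2)) (by fun_prop), ?_, ?_⟩
  · ext1 p
    apply Subtype.ext
    show (ex (0 / 2) * p.1.1, p.1.2) = p.1
    rw [zero_div, ex_zero, one_mul]
  · ext1 p
    apply Subtype.ext
    show (ex (1 / 2) * p.1.1, p.1.2) = (-p.1.1, p.1.2)
    rw [ex_half, neg_one_mul]

end Pool.Agent.HH
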