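import Pool.Agent.P.MP_c8dc46_gt.Fib
import Pool.Agent.P.MP_c8dc46_gt.Int3

/-! Explicit homeomorphisms of the sphere: Moebius maps, rotations, radial compressions. -/

open Set Topology

noncomputable section

namespace Pool.Agent.HH

namespace RMob

theorem sq_add (p : S3) : ‖xc p‖ ^ 2 + ‖yc p‖ ^ 2 = 1 := p.2

theorem ext3 {p q : S3} (h1 : xc p = xc q) (h2 : yc p = yc q) : p = q :=
  Subtype.ext (Prod.ext h1 h2)

theorem norm_yc_le (p : S3) : ‖yc p‖ ≤ 1 := by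
  nlinarith [sq_add p, norm_nonneg (yc p), sq_nonneg ‖xc p‖]

theorem sq_lt {t : ℝ} (ht : |t| < 1) : 0 < 1 - t ^ 2 := by
  have := abs_lt.1 ht
  nlinarith [this.1, this.2]

theorem den_ne {t : ℝ} (ht : |t| < 1) {x : ℂ} (hx : ‖x‖ ≤ 1) : 1 + (t : ℂ) * x ≠ 0 := by
  intro h
  have h1 : (t : ℂ) * x = -1 := by linear_combination h
  have h2 := congrArg norm h1
  rw [norm_mul, Complex.norm_real, Real.norm_eq_abs, norm_neg, norm_one] at h2
  nlinarith [abs_nonneg t, norm_nonneg x]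

theorem key (t : ℝ) (x : ℂ) :
    ‖1 + (t : ℂ) * x‖ ^ 2 = ‖x + t‖ ^ 2 + (1 - t ^ 2) * (1 - ‖x‖ ^ 2) := by
  simp only [Complex.sq_norm, Complex.normSq_apply]
  simp
  ring

end RMob

theorem mob_mem {t : ℝ} (ht : |t| < 1) (p : S3) :
    ‖(xc p + t) / (1 + t * xc p)‖ ^ 2 +
      ‖yc p * ((Real.sqrt (1 - t ^ 2) / ‖1 + t * xc p‖ : ℝ) : ℂ)‖ ^ 2 = 1 := by
  have h1 := RMob.key t (xc p)
  have h2 := RMob.sq_add p
  have h3 : ‖1 + (t : ℂ) * xc p‖ ≠ 0 := norm_ne_zero_iff.2 (RMob.den_ne ht (norm_xc_le p))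
  rw [norm_div, norm_mul, Complex.norm_real, Real.norm_eq_abs, mul_pow, sq_abs, div_pow, div_pow,
    Real.sq_sqrt (RMob.sq_lt ht).le, ← mul_div_assoc, ← add_div, div_eq_one_iff_eq (pow_ne_zero 2 h3),
    h1]
  linear_combination (1 - t ^ 2) * h2

open Classical in
/-- The Moebius map as a function. -/
def mobF (t : ℝ) (p : S3) : S3 :=
  if ht : |t| < 1 then ⟨((xc p + t) / (1 + t * xc p),
    yc p * ((Real.sqrt (1 - t ^ 2) / ‖1 + t * xc p‖ : ℝ) : ℂ)), mob_mem ht p⟩ else p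

namespace RMob

theorem xc_mobF {t : ℝ} (ht : |t| < 1) (p : S3) :
    xc (mobF t p) = (xc p + t) / (1 + t * xc p) := by
  rw [mobF, dif_pos ht]
  rfl

theorem yc_mobF {t : ℝ} (ht : |t| < 1) (p : S3) :
    yc (mobF t p) = yc p * ((Real.sqrt (1 - t ^ 2) / ‖1 + t * xc p‖ : ℝ) : ℂ) := by
  rw [mobF, dif_pos ht]
  rfl

end RMob

theorem mobF_neg (t : ℝ) (p : S3) : mobF (-t) (mobF t p) = p := by
  by_cases ht : |t| < 1
  · have ht' : |-t| < 1 := by rwa [abs_neg]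
    have h0 := RMob.sq_lt ht
    have h1 := RMob.den_ne ht (norm_xc_le p)
    have h2 : (1 : ℂ) - (t : ℂ) ^ 2 ≠ 0 := by exact_mod_cast h0.ne'
    have h3 : 1 + ((-t : ℝ) : ℂ) * xc (mobF t p) = ((1 - t ^ 2 : ℝ) : ℂ) / (1 + t * xc p) := by
      rw [RMob.xc_mobF ht]
      push_cast
      field_simp
      ring
    apply RMob.ext3
    · rw [RMob.xc_mobF ht', h3, RMob.xc_mobF ht, div_add' _ _ _ h1, div_div_div_cancel_right₀ h1]
      push_cast
      rw [div_eq_iff h2]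
      ring
    · rw [RMob.yc_mobF ht', h3, RMob.yc_mobF ht, mul_assoc, ← Complex.ofReal_mul, norm_div,
        Complex.norm_real, Real.norm_eq_abs, abs_of_pos h0, neg_sq]
      have h4 : ‖1 + (t : ℂ) * xc p‖ ≠ 0 := norm_ne_zero_iff.2 h1
      have h5 : Real.sqrt (1 - t ^ 2) / ‖1 + (t : ℂ) * xc p‖ *
          (Real.sqrt (1 - t ^ 2) / ((1 - t ^ 2) / ‖1 + (t : ℂ) * xc p‖)) = 1 := by
        have := h0.ne'
        field_simp
        exact Real.sq_sqrt h0.le
      rw [h5, Complex.ofReal_one, mul_one]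
  · have ht' : ¬ |-t| < 1 := by rwa [abs_neg]
    rw [mobF, dif_neg ht', mobF, dif_neg ht]

theorem continuous_mobF (t : ℝ) : Continuous (mobF t) := by
  by_cases ht : |t| < 1
  · have hx := continuous_xc
    have hy := continuous_yc
    have h1 : ∀ p : S3, 1 + (t : ℂ) * xc p ≠ 0 := fun p => RMob.den_ne ht (norm_xc_le p)
    have h2 : Continuous fun p => xc (mobF t p) := by
      simp only [RMob.xc_mobF ht]
      exact (hx.add continuous_const).div (by fun_prop) h1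
    have h3 : Continuous fun p => yc (mobF t p) := by
      simp only [RMob.yc_mobF ht]
      exact hy.mul (Complex.continuous_ofReal.comp (continuous_const.div (by fun_prop)
        fun p => norm_ne_zero_iff.2 (h1 p)))
    exact continuous_induced_rng.2 (h2.prodMk h3)
  · have : mobF t = id := funext fun p => by rw [mobF, dif_neg ht, id]
    rw [this]
    exact continuous_id

/-- The Moebius homeomorphism. -/
def mob (t : ℝ) : S3 ≃ₜ S3 where
  toFun := mobF t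
  invFun := mobF (-t)
  left_inv := mobF_neg t
  right_inv p := by simpa using mobF_neg (-t) p
  continuous_toFun := continuous_mobF t
  continuous_invFun := continuous_mobF (-t)

theorem mob_symm (t : ℝ) : (mob t).symm = mob (-t) := by
  exact Homeomorph.ext fun _ => rfl

theorem xc_mob {t : ℝ} (ht : |t| < 1) (p : S3) :
    xc (mob t p) = (xc p + t) / (1 + t * xc p) := by
  exact RMob.xc_mobF ht p

theorem yc_mob {t : ℝ} (ht : |t| < 1) (p : S3) : ∃ c : ℝ, 0 < c ∧ yc (mob t p) = c * yc p := by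
  refine ⟨Real.sqrt (1 - t ^ 2) / ‖1 + t * xc p‖, div_pos (Real.sqrt_pos.2 (RMob.sq_lt ht))
    (norm_pos_iff.2 (RMob.den_ne ht (norm_xc_le p))), ?_⟩
  rw [mul_comm]
  exact RMob.yc_mobF ht p

theorem mob_mem_eta {t : ℝ} (ht : |t| < 1) (p : S3) : mob t p ∈ eta (t : ℂ) ↔ p ∈ eta 0 := by
  have h2 : (1 : ℂ) - (t : ℂ) ^ 2 ≠ 0 := by exact_mod_cast (RMob.sq_lt ht).ne'
  change xc (mob t p) = t ↔ xc p = 0
  rw [xc_mob ht, div_eq_iff (RMob.den_ne ht (norm_xc_le p))]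
  constructor
  · intro h
    have : xc p * (1 - (t : ℂ) ^ 2) = 0 := by linear_combination h
    exact (mul_eq_zero.1 this).resolve_right h2
  · intro h
    rw [h]
    ring

/-- The sign of the real part on the unknot. -/
theorem re_mob_U {t : ℝ} (ht : |t| < 1) {p : S3} (hp : yc p = 0) :
    ∃ c : ℝ, 0 < c ∧ (xc (mob t p)).re = c * ((1 + t ^ 2) * (xc p).re + 2 * t) := by
  have h1 := RMob.sq_add p
  rw [hp, norm_zero, Complex.sq_norm, Complex.normSq_apply] at h1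
  refine ⟨(Complex.normSq (1 + t * xc p))⁻¹,
    inv_pos.2 (Complex.normSq_pos.2 (RMob.den_ne ht (norm_xc_le p))), ?_⟩
  rw [xc_mob ht, Complex.div_re, ← add_div, div_eq_inv_mul]
  congr 1
  simp only [Complex.add_re, Complex.add_im, Complex.mul_re, Complex.mul_im, Complex.ofReal_re,
    Complex.ofReal_im, Complex.one_re, Complex.one_im]
  linear_combination t * h1

theorem mob_contract {σ : ℝ} (hσ : σ = 1 ∨ σ = -1) {q : S3} (hq : xc q = ((-σ : ℝ) : ℂ))
    {V : Set S3} (hV : V ∈ 𝓝 q) : ∃ a₀ : ℝ, 0 ≤ a₀ ∧ a₀ < 1 ∧ ∀ a, a₀ ≤ a → a < 1 →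
      ∀ p, σ * (xc p).re ≤ 1 / 2 → mob (-(σ * a)) p ∈ V := by
  obtain ⟨ε, hε, hb⟩ := Metric.mem_nhds_iff.1 hV
  have hσ2 : σ ^ 2 = 1 := by rcases hσ with h | h <;> rw [h] <;> norm_num
  have hσ1 : |σ| = 1 := by rcases hσ with h | h <;> rw [h] <;> norm_num
  have hn : ‖(σ : ℂ)‖ = 1 := by rw [Complex.norm_real, Real.norm_eq_abs, hσ1]
  have hq2 : yc q = 0 := by
    rw [yc_eq_zero_iff, hq, Complex.norm_real, Real.norm_eq_abs, abs_neg, hσ1]
  have hδ : 0 < min ε (ε ^ 2 / 2) := lt_min hε (by positivity)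
  refine ⟨max 0 (1 - min ε (ε ^ 2 / 2) / 8), le_max_left _ _, max_lt one_pos (by linarith),
    fun a h0 h1 p hp => hb ?_⟩
  have ha0 : 0 ≤ a := (le_max_left _ _).trans h0
  have ha1 := (le_max_right _ _).trans h0
  have ht : |-(σ * a)| < 1 := by rwa [abs_neg, abs_mul, hσ1, one_mul, abs_of_nonneg ha0]
  have hd := RMob.den_ne ht (norm_xc_le p)
  have hd2 : 1 / 2 ≤ ‖1 + ((-(σ * a) : ℝ) : ℂ) * xc p‖ := by
    refine le_trans ?_ (Complex.re_le_norm _)
    simp only [Complex.add_re, Complex.mul_re, Complex.ofReal_re, Complex.ofReal_im,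
      Complex.one_re]
    nlinarith
  have hσc : (σ : ℂ) ^ 2 = 1 := by exact_mod_cast hσ2
  have e : xc (mob (-(σ * a)) p) + σ =
      ((1 - a : ℝ) : ℂ) * (xc p + σ) / (1 + ((-(σ * a) : ℝ) : ℂ) * xc p) := by
    rw [xc_mob ht, div_add' _ _ _ hd]
    congr 1
    push_cast
    linear_combination (-(a : ℂ) * xc p) * hσc
  have e2 : ‖xc (mob (-(σ * a)) p) + σ‖ < min ε (ε ^ 2 / 2) := by
    rw [e, norm_div, norm_mul, Complex.norm_real, Real.norm_eq_abs, abs_of_pos (by linarith),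
      div_lt_iff₀ (by linarith)]
    have h3 : ‖xc p + σ‖ ≤ 2 := (norm_add_le _ _).trans (by linarith [norm_xc_le p])
    nlinarith [norm_nonneg (xc p + σ)]
  generalize mob (-(σ * a)) p = p' at e2 ⊢
  have e3 : 1 ≤ ‖xc p' + σ‖ + ‖xc p'‖ := by
    have := norm_sub_le (xc p' + σ) (xc p')
    rwa [add_sub_cancel_left, hn] at this
  have e4 := e2.trans_le (min_le_right _ _)
  have e5 : ‖yc p'‖ < ε := by
    refine lt_of_pow_lt_pow_left₀ 2 hε.le ?_
    nlinarith [RMob.sq_add p', norm_xc_le p', sq_nonneg (1 - ‖xc p'‖)]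
  rw [Metric.mem_ball, Subtype.dist_eq, Prod.dist_eq, max_lt_iff, dist_eq_norm, dist_eq_norm]
  change ‖xc p' - xc q‖ < ε ∧ ‖yc p' - yc q‖ < ε
  rw [hq, hq2, sub_zero, Complex.ofReal_neg, sub_neg_eq_add]
  exact ⟨e2.trans_le (min_le_left _ _), e5⟩

/-- Rotation of the first coordinate. -/
def rotX (c : ℝ) : S3 ≃ₜ S3 where
  toFun p := ⟨(ex c * p.1.1, p.1.2), by simpa [norm_ex] using p.2⟩
  invFun p := ⟨(ex (-c) * p.1.1, p.1.2), by simpa [norm_ex] using p.2⟩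
  left_inv p := by
    apply Subtype.ext
    simp only [← mul_assoc, ← ex_add, neg_add_cancel]
    simp [ex]
  right_inv p := by
    apply Subtype.ext
    simp only [← mul_assoc, ← ex_add, add_neg_cancel]
    simp [ex]
  continuous_toFun := by fun_prop
  continuous_invFun := by fun_prop

theorem rotX_iota (c θ : ℝ) {d : ℂ} (hd : ‖d‖ ≤ 1) : rotX c (iota θ d) = iota (θ + c) d := by
  apply RMob.ext3
  · change ex c * xc (iota θ d) = _
    rw [xc_iota hd, xc_iota hd, ex_add]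
    ring
  · change yc (iota θ d) = _
    rw [yc_iota hd, yc_iota hd]

theorem isot_rotX (c : ℝ) : Isot (rotX c) := by
  have h := continuous_ex
  refine ⟨fun s => rotX (s * c), ?_, ?_, ?_, congrArg rotX (one_mul c)⟩
  · refine continuous_induced_rng.2 ?_
    change Continuous fun q : ℝ × S3 => (ex (q.1 * c) * q.2.1.1, q.2.1.2)
    fun_prop
  · refine continuous_induced_rng.2 ?_
    change Continuous fun q : ℝ × S3 => (ex (-(q.1 * c)) * q.2.1.1, q.2.1.2)
    fun_prop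
  · refine Homeomorph.ext fun p => RMob.ext3 ?_ rfl
    change ex (0 * c) * xc p = xc p
    simp [ex]

namespace RMob

theorem radial {A B : ℝ → ℝ} (hA : ContinuousOn A (Icc 0 1)) (hB : ContinuousOn B (Icc 0 1))
    (hA0 : ∀ u ∈ Icc (0 : ℝ) 1, 0 < A u) (hB0 : ∀ u ∈ Icc (0 : ℝ) 1, 0 < B u)
    (he : ∀ u ∈ Icc (0 : ℝ) 1, (1 - u ^ 2) * A u ^ 2 + (u * B u) ^ 2 = 1)
    (hi : InjOn (fun u => u * B u) (Icc 0 1)) (h1 : B 1 = 1) :
    ∃ H : S3 ≃ₜ S3, ∀ p, xc (H p) = xc p * A ‖yc p‖ ∧ yc (H p) = yc p * B ‖yc p‖ := by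
  have hm : ∀ p : S3, ‖yc p‖ ∈ Icc (0 : ℝ) 1 := fun p => ⟨norm_nonneg _, norm_yc_le p⟩
  have nr : ∀ (z : ℂ) (r : ℝ), 0 < r → ‖z * r‖ = ‖z‖ * r := fun z r hr => by
    rw [norm_mul, Complex.norm_real, Real.norm_eq_abs, abs_of_pos hr]
  let f : S3 → S3 := fun p => ⟨(xc p * A ‖yc p‖, yc p * B ‖yc p‖), by
    rw [nr _ _ (hA0 _ (hm p)), nr _ _ (hB0 _ (hm p)), ← he _ (hm p), ← sq_add p]
    ring⟩
  have hx := continuous_xc
  have hy := continuous_yc
  have hc : Continuous f := by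
    have cA : Continuous fun p : S3 => A ‖yc p‖ := hA.comp_continuous hy.norm hm
    have cB : Continuous fun p : S3 => B ‖yc p‖ := hB.comp_continuous hy.norm hm
    refine continuous_induced_rng.2 ?_
    exact (hx.mul (Complex.continuous_ofReal.comp cA)).prodMk
      (hy.mul (Complex.continuous_ofReal.comp cB))
  have hinj : Function.Injective f := fun p q e => by
    have e1 : xc p * A ‖yc p‖ = xc q * A ‖yc q‖ := congrArg xc e
    have e2 : yc p * B ‖yc p‖ = yc q * B ‖yc q‖ := congrArg yc e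
    have e3 := congrArg norm e2
    rw [nr _ _ (hB0 _ (hm p)), nr _ _ (hB0 _ (hm q))] at e3
    rw [hi (hm p) (hm q) e3] at e1 e2
    exact ext3 (mul_right_cancel₀ (Complex.ofReal_ne_zero.2 (hA0 _ (hm q)).ne') e1)
      (mul_right_cancel₀ (Complex.ofReal_ne_zero.2 (hB0 _ (hm q)).ne') e2)
  have hsurj : Function.Surjective f := fun p => by
    obtain ⟨u, hu, e⟩ := intermediate_value_Icc zero_le_one (continuousOn_id.mul hB)
      (show ‖yc p‖ ∈ _ by simpa [h1] using hm p)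
    have e' : u * B u = ‖yc p‖ := e
    have a0 := hA0 u hu
    have b0 := hB0 u hu
    have n1 : ‖yc p * ((B u)⁻¹ : ℝ)‖ = u := by
      rw [nr _ _ (inv_pos.2 b0), ← e', mul_inv_cancel_right₀ b0.ne']
    have n2 : ‖xc p * ((A u)⁻¹ : ℝ)‖ ^ 2 + ‖yc p * ((B u)⁻¹ : ℝ)‖ ^ 2 = 1 := by
      have h2 := he u hu
      have h3 := sq_add p
      rw [e'] at h2
      rw [n1, nr _ _ (inv_pos.2 a0)]
      field_simp
      linarith
    refine ⟨⟨(_, _), n2⟩, ext3 ?_ ?_⟩
    · change xc p * ((A u)⁻¹ : ℝ) * A ‖yc p * ((B u)⁻¹ : ℝ)‖ = xc p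
      rw [n1, mul_assoc, ← Complex.ofReal_mul, inv_mul_cancel₀ a0.ne', Complex.ofReal_one, mul_one]
    · change yc p * ((B u)⁻¹ : ℝ) * B ‖yc p * ((B u)⁻¹ : ℝ)‖ = yc p
      rw [n1, mul_assoc, ← Complex.ofReal_mul, inv_mul_cancel₀ b0.ne', Complex.ofReal_one, mul_one]
  exact ⟨Continuous.homeoOfEquivCompactToT2 (f := Equiv.ofBijective f ⟨hinj, hsurj⟩) hc,
    fun p => ⟨rfl, rfl⟩⟩

end RMob

/-- Radial compression towards the unknot. -/
theorem exists_rc {c r₁ : ℝ} (hc : 0 < c) (hc1 : c ≤ 1) (hr : r₁ < 1) : ∃ H : S3 ≃ₜ S3,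
    (∀ θ d, ‖d‖ ≤ r₁ → H (iota θ d) = iota θ (c * d)) ∧ ∀ p ∈ eta 0, H p = p := by
  obtain ⟨r, r0, r1, hrr⟩ : ∃ r : ℝ, 0 < r ∧ r < 1 ∧ r₁ ≤ r :=
    ⟨max r₁ (1 / 2), lt_max_of_lt_right (by norm_num), max_lt hr (by norm_num), le_max_left _ _⟩
  obtain ⟨m, hm⟩ : ∃ m : ℝ, m * (1 - r) = 1 - c * r :=
    ⟨(1 - c * r) / (1 - r), div_mul_cancel₀ _ (by linarith)⟩
  have cr : c * r < 1 := by nlinarith
  have m0 : 0 < m := by nlinarith
  obtain ⟨B, hB⟩ : ∃ B : ℝ → ℝ, ∀ u, B u = (1 - m * (1 - max u r)) / max u r := ⟨_, fun _ => rfl⟩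
  obtain ⟨Q, hQ⟩ : ∃ Q : ℝ → ℝ, ∀ u, Q u = (1 - c * min u r) / (1 - min u r) := ⟨_, fun _ => rfl⟩
  have B1 : ∀ u ≤ r, B u = c := fun u hu => by
    rw [hB, max_eq_right hu, hm, div_eq_iff r0.ne']
    ring
  have B2 : ∀ u, r ≤ u → u * B u = 1 - m * (1 - u) := fun u hu => by
    rw [hB, max_eq_left hu, mul_div_cancel₀ _ (r0.trans_le hu).ne']
  have B0 : ∀ u, 0 < B u := fun u => by
    rcases le_total u r with h | h
    · rwa [B1 u h]
    · have := B2 u h
      have h2 : 0 < u * B u := by nlinarith [mul_pos hc r0]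
      exact (pos_iff_pos_of_mul_pos h2).1 (r0.trans_le h)
  have Q0 : ∀ u, 0 < Q u := fun u => by
    have := min_le_right u r
    rw [hQ]
    exact div_pos (by nlinarith) (by linarith)
  have QB : ∀ u, Q u * (1 - u) = 1 - u * B u := fun u => by
    rcases le_total u r with h | h
    · rw [hQ, min_eq_left h, B1 u h, div_mul_cancel₀ _ (by linarith), mul_comm]
    · rw [hQ, min_eq_right h, B2 u h, ← hm, mul_div_cancel_right₀ _ (by linarith)]
      ring
  have cB : Continuous B := by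
    rw [funext hB]
    exact Continuous.div (by fun_prop) (by fun_prop) fun u => (lt_max_of_lt_right r0).ne'
  have cQ : Continuous Q := by
    rw [funext hQ]
    exact Continuous.div (by fun_prop) (by fun_prop) fun u => by linarith [min_le_right u r]
  have P0 : ∀ u ∈ Icc (0 : ℝ) 1, 0 < Q u * (1 + u * B u) / (1 + u) := fun u hu =>
    div_pos (mul_pos (Q0 u) (by nlinarith [mul_nonneg hu.1 (B0 u).le])) (by linarith [hu.1])
  have he : ∀ u ∈ Icc (0 : ℝ) 1,
      (1 - u ^ 2) * Real.sqrt (Q u * (1 + u * B u) / (1 + u)) ^ 2 + (u * B u) ^ 2 = 1 :=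
    fun u hu => by
      have : 1 + u ≠ 0 := by linarith [hu.1]
      rw [Real.sq_sqrt (P0 u hu).le]
      field_simp
      linear_combination (1 + u) * (1 + u * B u) * QB u
  have mid : ∀ u v, u ≤ r → r ≤ v → u * c = 1 - m * (1 - v) → u = v := fun u v h h' e => by
    have a1 := mul_nonneg hc.le (sub_nonneg.2 h)
    have a2 := mul_nonneg m0.le (sub_nonneg.2 h')
    have a3 : c * (r - u) = 0 := by linarith
    have a4 : m * (v - r) = 0 := by linarith
    have a5 := (mul_eq_zero.1 a3).resolve_left hc.ne'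
    have a6 := (mul_eq_zero.1 a4).resolve_left m0.ne'
    linarith
  have Bone : B 1 = 1 := by simpa using B2 1 r1.le
  obtain ⟨H, hH⟩ := RMob.radial (A := fun u => Real.sqrt (Q u * (1 + u * B u) / (1 + u))) (B := B)
    (ContinuousOn.sqrt (ContinuousOn.div (by fun_prop) (by fun_prop)
      fun u hu => by linarith [hu.1])) cB.continuousOn (fun u hu => Real.sqrt_pos.2 (P0 u hu))
    (fun u _ => B0 u) he (fun u _ v _ e => by
      dsimp only at e
      rcases le_total u r with h | h <;> rcases le_total v r with h' | h'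
      · rw [B1 u h, B1 v h'] at e
        exact mul_right_cancel₀ hc.ne' e
      · rw [B1 u h, B2 v h'] at e
        exact mid u v h h' e
      · rw [B2 u h, B1 v h'] at e
        exact (mid v u h' h e.symm).symm
      · rw [B2 u h, B2 v h'] at e
        nlinarith) Bone
  refine ⟨H, fun θ d hd => ?_, fun p hp => ?_⟩
  · have d1 : ‖d‖ ≤ 1 := by linarith
    have n : ‖(c : ℂ) * d‖ = ‖d‖ * c := by
      rw [norm_mul, Complex.norm_real, Real.norm_eq_abs, abs_of_pos hc, mul_comm]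
    have d2 : ‖(c : ℂ) * d‖ ≤ 1 := by nlinarith [norm_nonneg d]
    have h2 := he ‖d‖ ⟨norm_nonneg _, d1⟩
    apply RMob.ext3
    · rw [(hH _).1, xc_iota d1, xc_iota d2, yc_iota d1, n, mul_right_comm, ← Complex.ofReal_mul]
      congr 2
      rw [B1 _ (hd.trans hrr)] at h2 ⊢
      rw [← eq_sub_iff_add_eq] at h2
      rw [← h2, Real.sqrt_mul' _ (sq_nonneg _), Real.sqrt_sq (Real.sqrt_nonneg _)]
    · rw [(hH _).2, yc_iota d1, yc_iota d2, B1 _ (hd.trans hrr), mul_comm]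
  · have h0 : xc p = 0 := hp
    have h1 : ‖yc p‖ = 1 := by
      have := RMob.sq_add p
      rw [h0, norm_zero] at this
      nlinarith [norm_nonneg (yc p)]
    apply RMob.ext3
    · rw [(hH _).1, h0, zero_mul]
    · rw [(hH _).2, h1, Bone, Complex.ofReal_one, mul_one]

/-- The coordinates of `iota` on the complement of `eta 0`. -/
theorem iota_image : (fun q : ℝ × ℂ => iota q.1 q.2) '' (univ ×ˢ Metric.ball 0 1) = (eta 0)ᶜ := by
  ext p
  constructor
  · rintro ⟨⟨θ, d⟩, ⟨-, hd⟩, rfl⟩ h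
    have d1 : ‖d‖ < 1 := mem_ball_zero_iff.1 hd
    have h0 : xc (iota θ d) = 0 := h
    rw [xc_iota d1.le] at h0
    refine mul_ne_zero (Complex.ofReal_ne_zero.2 (Real.sqrt_pos.2 ?_).ne') (Complex.exp_ne_zero _) h0
    nlinarith [norm_nonneg d]
  · intro h
    obtain ⟨θ, e⟩ := exists_iota p
    refine ⟨(θ, yc p), ⟨trivial, mem_ball_zero_iff.2 ?_⟩, e.symm⟩
    have h0 : 0 < ‖xc p‖ := norm_pos_iff.2 h
    change ‖yc p‖ < 1
    nlinarith [RMob.sq_add p, norm_nonneg (yc p)]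

/-- Two circle charts over the same base differ by an open embedding. Put `F p = Φ' q` for any `q` with
`Φ q = p`. -/
theorem IsCC.exists_trans {Y Y' W : Type} [TopologicalSpace Y] [TopologicalSpace Y'] [Nonempty Y']
    [NormedAddCommGroup W] [NormedSpace ℝ W] {Φ : ℝ × W → Y} {Φ' : ℝ × W → Y'} {O : Set W}
    (h : IsCC Φ O) (h' : IsCC Φ' O) :
    ∃ F : Y → Y', OE F (Φ '' (univ ×ˢ O)) ∧ ∀ s, ∀ w ∈ O, F (Φ (s, w)) = Φ' (s, w) := by
  have pr : ∀ {Z : Type} {Ψ : ℝ × W → Z}, (∀ s w, Ψ (s + 1, w) = Ψ (s, w)) → ∀ q q' : ℝ × W,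
      (q.2 = q'.2 ∧ ∃ n : ℤ, q'.1 = q.1 + n) → Ψ q = Ψ q' := by
    rintro Z Ψ hΨ ⟨s, w⟩ ⟨_, _⟩ ⟨rfl, n, rfl⟩
    simpa using ((show Function.Periodic (fun s => Ψ (s, w)) 1 from fun s => hΨ s w).int_mul
      n s).symm
  have ex : ∀ p : Y, ∃ y : Y', ∀ q ∈ univ ×ˢ O, Φ q = p → y = Φ' q := fun p => by
    by_cases hp : ∃ q ∈ univ ×ˢ O, Φ q = p
    · obtain ⟨q, hq, rfl⟩ := hp
      exact ⟨Φ' q, fun q' hq' e => pr h'.per q q' (h.inj _ _ _ hq.2 _ hq'.2 e.symm)⟩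
    · exact ⟨Classical.arbitrary _, fun q hq e => (hp ⟨q, hq, e⟩).elim⟩
  choose F hF using ex
  have key : ∀ q ∈ univ ×ˢ O, F (Φ q) = Φ' q := fun q hq => hF _ q hq rfl
  have hO := isOpen_univ.prod h.isOpen (X := ℝ)
  refine ⟨F, ⟨h.isOpen_image, ?_, ?_, fun V hV hs => ?_⟩, fun s w hw => key _ ⟨trivial, hw⟩⟩
  · rintro _ ⟨q, hq, rfl⟩
    refine ContinuousAt.continuousWithinAt fun U hU => ?_
    rw [key q hq] at hU
    refine Filter.mem_map.2 (Filter.mem_of_superset (RCirc.nhds h hq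
      (Filter.inter_mem (RCirc.contAt h' q hq hU) (hO.mem_nhds hq))) ?_)
    rintro _ ⟨q', hq', rfl⟩
    change F (Φ q') ∈ U
    rw [key q' hq'.2]
    exact hq'.1
  · rintro _ ⟨q, hq, rfl⟩ _ ⟨q', hq', rfl⟩ e
    rw [key q hq, key q' hq'] at e
    exact pr h.per q q' (h'.inj _ _ _ hq.2 _ hq'.2 e)
  · convert h'.img _ (h.cont.isOpen_inter_preimage hO hV) inter_subset_left using 1
    ext y
    constructor
    · rintro ⟨p, hp, rfl⟩
      obtain ⟨q, hq, rfl⟩ := hs hp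
      exact ⟨q, ⟨hq, hp⟩, (key q hq).symm⟩
    · rintro ⟨q, hq, rfl⟩
      exact ⟨Φ q, hq.2, key q hq.1⟩

/-- Reparametrisation of a circle chart. -/
theorem IsCC.reparam {Y W : Type} [TopologicalSpace Y] [NormedAddCommGroup W] [NormedSpace ℝ W]
    {Φ : ℝ × W → Y} {O : Set W} (h : IsCC Φ O) {ε : ℝ} (hε : ε = 1 ∨ ε = -1) (c : ℝ) :
    IsCC (fun q : ℝ × W => Φ (ε * (q.1 - c), q.2)) O := by
  have h2 : ε * ε = 1 := by rcases hε with e | e <;> rw [e] <;> norm_num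
  refine ⟨h.isOpen, h.convex, h.cont.comp (by fun_prop) fun q hq => ⟨trivial, hq.2⟩,
    fun s w => ?_, fun s s' w hw w' hw' e => ?_, fun V hV hs => ?_⟩
  · rcases hε with rfl | rfl
    · rw [← h.per (1 * (s - c))]
      congr 2
      ring
    · rw [← h.per (-1 * (s + 1 - c))]
      congr 2
      ring
  · obtain ⟨e1, n, e2⟩ := h.inj _ _ _ hw _ hw' e
    refine ⟨e1, ?_⟩
    rcases hε with rfl | rfl
    · exact ⟨n, by linarith⟩
    · exact ⟨-n, by push_cast; linarith⟩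
  · convert h.img ((fun q : ℝ × W => (ε * q.1 + c, q.2)) ⁻¹' V) (hV.preimage (by fun_prop))
      (fun q hq => ⟨trivial, (hs hq).2⟩) using 1
    ext y
    constructor
    · rintro ⟨q, hq, rfl⟩
      refine ⟨(ε * (q.1 - c), q.2), ?_, rfl⟩
      simpa [← mul_assoc, h2] using hq
    · rintro ⟨q, hq, rfl⟩
      exact ⟨_, hq, by simp [← mul_assoc, h2]⟩

end Pool.Agent.HH
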