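import Pool.Agent.P.MP_c8dc46_gt.BumpA
import Pool.Agent.P.MP_c8dc46_gt.Mob

/-!
Normalisation of local diffeomorphisms: linear germs (generation of invertible matrices by
transvections and diagonal matrices), transfer of compactly supported isotopies to the sphere.
-/

open Set Topology

namespace Pool.Agent.HH

/-- The reflection `(θ, d) ↦ (-θ, d)`. -/
noncomputable def refl1 : (ℝ × ℂ) →L[ℝ] (ℝ × ℂ) :=
  (-ContinuousLinearMap.fst ℝ ℝ ℂ).prod (ContinuousLinearMap.snd ℝ ℝ ℂ)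

namespace RBumpB

open Matrix

/-- Matrices joined to the identity by a path of invertible matrices. -/
def MJ (M : Matrix (Fin 3) (Fin 3) ℝ) : Prop :=
  ∃ γ : ℝ → Matrix (Fin 3) (Fin 3) ℝ, Continuous γ ∧ (∀ t ∈ Icc (0 : ℝ) 1, (γ t).det ≠ 0) ∧
    γ 0 = 1 ∧ γ 1 = M

theorem MJ.mul {A B : Matrix (Fin 3) (Fin 3) ℝ} (hA : MJ A) (hB : MJ B) : MJ (A * B) := by
  obtain ⟨γ, h1, h2, h3, h4⟩ := hA
  obtain ⟨δ, k1, k2, k3, k4⟩ := hB
  refine ⟨fun t => γ t * δ t, h1.mul k1, fun t ht => ?_, by simp [h3, k3], by simp [h4, k4]⟩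
  rw [det_mul]
  exact mul_ne_zero (h2 t ht) (k2 t ht)

theorem MJ.conj {A R : Matrix (Fin 3) (Fin 3) ℝ} (hA : MJ A) (hR : R * R = 1) :
    MJ (R * A * R) := by
  obtain ⟨γ, h1, h2, h3, h4⟩ := hA
  have hd : R.det ≠ 0 := by
    intro h
    have := congrArg det hR
    simp [h] at this
  refine ⟨fun t => R * γ t * R, (continuous_const.mul h1).mul continuous_const, fun t ht => ?_,
    by simp [h3, hR], by simp [h4]⟩
  rw [det_mul, det_mul]
  exact mul_ne_zero (mul_ne_zero hd (h2 t ht)) hd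

/-- Diagonal matrices. -/
def dg (a b c : ℝ) : Matrix (Fin 3) (Fin 3) ℝ := !![a, 0, 0; 0, b, 0; 0, 0, c]

theorem dg_mul (a b c a' b' c' : ℝ) :
    dg a b c * dg a' b' c' = dg (a * a') (b * b') (c * c') := by
  simp [dg]

theorem dg_one : dg 1 1 1 = 1 := by
  rw [dg, Matrix.one_fin_three]

theorem det_dg (a b c : ℝ) : (dg a b c).det = a * b * c := by
  simp [dg, det_fin_three]

theorem rr : dg (-1) 1 1 * dg (-1) 1 1 = 1 := by
  rw [dg_mul, ← dg_one]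
  norm_num

theorem mj_pos {a b c : ℝ} (ha : 0 < a) (hb : 0 < b) (hc : 0 < c) : MJ (dg a b c) := by
  have key : ∀ x : ℝ, 0 < x → ∀ t ∈ Icc (0 : ℝ) 1, 1 + t * (x - 1) ≠ 0 := by
    intro x hx t ht
    rcases eq_or_lt_of_le ht.1 with h | h
    · rw [← h]; norm_num
    · have := mul_pos h hx
      have := ht.2
      nlinarith
  refine ⟨fun t => dg (1 + t * (a - 1)) (1 + t * (b - 1)) (1 + t * (c - 1)), ?_, fun t ht => ?_,
    by simp [dg_one], by simp⟩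
  · refine continuous_matrix fun i j => ?_
    fin_cases i <;> fin_cases j <;> simp [dg] <;> fun_prop
  · rw [det_dg]
    exact mul_ne_zero (mul_ne_zero (key a ha t ht) (key b hb t ht)) (key c hc t ht)

theorem sq_ne (t : ℝ) : (1 - 2 * t) * (1 - 2 * t) + t * (1 - t) * (t * (1 - t)) ≠ 0 := by
  intro h
  have h1 : 1 - 2 * t = 0 := by nlinarith [mul_self_nonneg (1 - 2 * t), mul_self_nonneg (t * (1 - t))]
  have h2 : t = 1 / 2 := by linarith
  rw [h2] at h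
  norm_num at h

theorem mj_rot1 : MJ (dg (-1) (-1) 1) := by
  refine ⟨fun t => !![1 - 2 * t, -(t * (1 - t)), 0; t * (1 - t), 1 - 2 * t, 0; 0, 0, 1], ?_,
    fun t _ => ?_, by simp [Matrix.one_fin_three], by norm_num [dg]⟩
  · refine continuous_matrix fun i j => ?_
    fin_cases i <;> fin_cases j <;> simp <;> fun_prop
  · simpa [det_fin_three] using sq_ne t

theorem mj_rot2 : MJ (dg (-1) 1 (-1)) := by
  refine ⟨fun t => !![1 - 2 * t, 0, -(t * (1 - t)); 0, 1, 0; t * (1 - t), 0, 1 - 2 * t], ?_,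
    fun t _ => ?_, by simp [Matrix.one_fin_three], by norm_num [dg]⟩
  · refine continuous_matrix fun i j => ?_
    fin_cases i <;> fin_cases j <;> simp <;> fun_prop
  · simpa [det_fin_three] using sq_ne t

/-- Joined to the identity or to the reflection. -/
def PJ (M : Matrix (Fin 3) (Fin 3) ℝ) : Prop := MJ M ∨ MJ (M * dg (-1) 1 1)

theorem PJ.mul {A B : Matrix (Fin 3) (Fin 3) ℝ} (hA : PJ A) (hB : PJ B) : PJ (A * B) := by
  have e : ∀ C : Matrix (Fin 3) (Fin 3) ℝ, dg (-1) 1 1 * (dg (-1) 1 1 * C) = C := by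
    intro C
    rw [← mul_assoc, rr, one_mul]
  rcases hA with hA | hA <;> rcases hB with hB | hB
  · exact Or.inl (hA.mul hB)
  · exact Or.inr (by simpa only [mul_assoc] using hA.mul hB)
  · exact Or.inr (by simpa only [mul_assoc, e] using hA.mul (hB.conj rr))
  · exact Or.inl (by simpa only [mul_assoc, e, rr, mul_one] using hA.mul (hB.conj rr))

theorem pj_dg {a b c : ℝ} (ha : a ≠ 0) (hb : b ≠ 0) (hc : c ≠ 0) : PJ (dg a b c) := by
  have h1 : PJ (dg 1 1 1) := Or.inl (mj_pos one_pos one_pos one_pos)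
  have sg : ∀ x : ℝ, x ≠ 0 → ∃ s : ℝ, (s = 1 ∨ s = -1) ∧ s * |x| = x := by
    intro x hx
    rcases lt_or_gt_of_ne hx with h | h
    · exact ⟨-1, Or.inr rfl, by rw [abs_of_neg h]; ring⟩
    · exact ⟨1, Or.inl rfl, by rw [abs_of_pos h]; ring⟩
  obtain ⟨r, hr, er⟩ := sg a ha
  obtain ⟨s, hs, es⟩ := sg b hb
  obtain ⟨t, ht, et⟩ := sg c hc
  have k1 : PJ (dg r 1 1) := by
    rcases hr with rfl | rfl
    · exact h1
    · exact Or.inr (by rw [rr, ← dg_one]; exact mj_pos one_pos one_pos one_pos)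
  have k2 : PJ (dg 1 s 1) := by
    rcases hs with rfl | rfl
    · exact h1
    · exact Or.inr (by simpa [dg_mul] using mj_rot1)
  have k3 : PJ (dg 1 1 t) := by
    rcases ht with rfl | rfl
    · exact h1
    · exact Or.inr (by simpa [dg_mul] using mj_rot2)
  have k4 : PJ (dg |a| |b| |c|) :=
    Or.inl (mj_pos (abs_pos.2 ha) (abs_pos.2 hb) (abs_pos.2 hc))
  simpa [dg_mul, er, es, et] using ((k1.mul k2).mul k3).mul k4

theorem pj_of_det {M : Matrix (Fin 3) (Fin 3) ℝ} (h : M.det ≠ 0) : PJ M := by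
  refine diagonal_transvection_induction_of_det_ne_zero PJ M h (fun D hD => ?_) (fun t => ?_)
    fun A B _ _ hA hB => hA.mul hB
  · have e : diagonal D = dg (D 0) (D 1) (D 2) := by
      ext i j
      fin_cases i <;> fin_cases j <;> simp [dg]
    rw [e] at hD ⊢
    rw [det_dg] at hD
    exact pj_dg (left_ne_zero_of_mul (left_ne_zero_of_mul hD))
      (right_ne_zero_of_mul (left_ne_zero_of_mul hD)) (right_ne_zero_of_mul hD)
  · refine Or.inl ⟨fun s => transvection t.i t.j (s * t.c), ?_, fun s _ => ?_, by simp, ?_⟩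
    · have e : (fun s : ℝ => transvection t.i t.j (s * t.c)) =
          fun s : ℝ => 1 + s • single t.i t.j t.c := by
        funext s
        rw [transvection, smul_single, smul_eq_mul]
      rw [e]
      fun_prop
    · rw [det_transvection_of_ne _ _ t.hij]
      exact one_ne_zero
    · simp [TransvectionStruct.toMatrix]

/-- Coordinates. -/
def co : (ℝ × ℂ) ≃ₗ[ℝ] (Fin 3 → ℝ) where
  toFun x := ![x.1, x.2.re, x.2.im]
  invFun v := (v 0, ⟨v 1, v 2⟩)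
  map_add' x y := by
    ext i
    fin_cases i <;> simp
  map_smul' c x := by
    ext i
    fin_cases i <;> simp
  left_inv x := rfl
  right_inv v := by
    ext i
    fin_cases i <;> rfl

/-- The operator of a matrix. -/
noncomputable def op : Matrix (Fin 3) (Fin 3) ℝ ≃ₗ[ℝ] ((ℝ × ℂ) →L[ℝ] (ℝ × ℂ)) :=
  Matrix.toLin'.trans ((co.symm.arrowCongr co.symm).trans LinearMap.toContinuousLinearMap)

theorem op_apply (M : Matrix (Fin 3) (Fin 3) ℝ) (x : ℝ × ℂ) : op M x = co.symm (M *ᵥ co x) := rfl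

theorem op_inj (M : Matrix (Fin 3) (Fin 3) ℝ) : Function.Injective (op M) ↔ M.det ≠ 0 := by
  have e : ⇑(op M) = co.symm ∘ M.mulVec ∘ co := rfl
  rw [e, EquivLike.comp_injective, EquivLike.injective_comp, mulVec_injective_iff_isUnit,
    isUnit_iff_isUnit_det, isUnit_iff_ne_zero]

theorem co_refl (x : ℝ × ℂ) : co (refl1 x) = dg (-1) 1 1 *ᵥ co x := by
  ext i
  fin_cases i <;> simp [co, refl1, dg, mulVec, dotProduct, Fin.sum_univ_three]

theorem germ_mj {Ω : Set (ℝ × ℂ)} {x₀ : ℝ × ℂ} (hΩ : Ω ∈ 𝓝 x₀) {M : Matrix (Fin 3) (Fin 3) ℝ}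
    (h : MJ M) : Germ Ω x₀ fun x => x₀ + op M (x - x₀) := by
  obtain ⟨γ, h1, h2, h3, rfl⟩ := h
  refine germ_path hΩ (L := fun t => op (γ t))
    (op.toLinearMap.continuous_of_finiteDimensional.comp h1) (fun t ht => (op_inj _).2 (h2 t ht)) ?_
  refine ContinuousLinearMap.ext fun x => ?_
  simp [h3, op_apply]

end RBumpB

open RBumpB in
theorem germ_lin {Ω : Set (ℝ × ℂ)} {x₀ : ℝ × ℂ} (hΩ : Ω ∈ 𝓝 x₀) {L : (ℝ × ℂ) →L[ℝ] (ℝ × ℂ)}
    (hL : Function.Injective L) : Germ Ω x₀ (fun x => x₀ + L (x - x₀)) ∨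
      Germ Ω x₀ (fun x => x₀ + L (refl1 (x - x₀))) := by
  obtain ⟨M, rfl⟩ := op.surjective L
  rcases pj_of_det ((op_inj M).1 hL) with h | h
  · exact Or.inl (germ_mj hΩ h)
  · refine Or.inr ?_
    simpa only [op_apply, co_refl, Matrix.mulVec_mulVec] using germ_mj hΩ h

namespace RBumpB

variable {E : Type}

open Classical in
/-- Extension by the identity of a map in a chart. -/
noncomputable def xt (Φ : E → S3) (Ψ : S3 → E) (Ω : Set E) (f : E → E) (p : S3) : S3 :=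
  if p ∈ Φ '' Ω then Φ (f (Ψ p)) else p

theorem xt_in {Φ : E → S3} {Ψ : S3 → E} {Ω : Set E} (h : ∀ x ∈ Ω, Ψ (Φ x) = x) (f : E → E)
    {x : E} (hx : x ∈ Ω) : xt Φ Ψ Ω f (Φ x) = Φ (f x) := by
  rw [xt, if_pos ⟨x, hx, rfl⟩, h x hx]

theorem xt_out {Φ : E → S3} {Ψ : S3 → E} {Ω K : Set E} (h : ∀ x ∈ Ω, Ψ (Φ x) = x) {f : E → E}
    (hf : ∀ x, x ∉ K → f x = x) {p : S3} (hp : p ∉ Φ '' K) : xt Φ Ψ Ω f p = p := by
  by_cases h1 : p ∈ Φ '' Ω
  · obtain ⟨x, hx, rfl⟩ := h1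
    rw [xt_in h f hx, hf x fun hK => hp ⟨x, hK, rfl⟩]
  · rw [xt, if_neg h1]

theorem xt_xt {Φ : E → S3} {Ψ : S3 → E} {Ω : Set E} (h : ∀ x ∈ Ω, Ψ (Φ x) = x) {f f' : E → E}
    (hf : ∀ x ∈ Ω, f x ∈ Ω) (he : ∀ x, f' (f x) = x) (p : S3) :
    xt Φ Ψ Ω f' (xt Φ Ψ Ω f p) = p := by
  by_cases h1 : p ∈ Φ '' Ω
  · obtain ⟨x, hx, rfl⟩ := h1
    rw [xt_in h f hx, xt_in h f' (hf x hx), he]
  · have : xt Φ Ψ Ω f p = p := by rw [xt, if_neg h1]
    rw [this, xt, if_neg h1]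

theorem maps_in {Ω K : Set E} (hK : K ⊆ Ω) {f : E → E} (hi : Function.Injective f)
    (hf : ∀ x, x ∉ K → f x = x) : ∀ x ∈ Ω, f x ∈ Ω := by
  intro x hx
  by_cases h : f x ∈ K
  · exact hK h
  · rw [hi (hf _ h)]
    exact hx

variable [TopologicalSpace E]

theorem xt_cont {Φ : E → S3} {Ψ : S3 → E} {Ω K : Set E} (hΦ : OE Φ Ω) (hΨ : OE Ψ (Φ '' Ω))
    (h : ∀ x ∈ Ω, Ψ (Φ x) = x) (hK : IsCompact K) (hs : K ⊆ Ω) {F : ℝ → E → E}
    (hF : Continuous fun q : ℝ × E => F q.1 q.2) (h1 : ∀ t x, x ∉ K → F t x = x)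
    (h2 : ∀ t, ∀ x ∈ Ω, F t x ∈ Ω) : Continuous fun q : ℝ × S3 => xt Φ Ψ Ω (F q.1) q.2 := by
  rw [continuous_iff_continuousAt]
  rintro ⟨t, p⟩
  by_cases hp : p ∈ Φ '' Ω
  · have e : (fun q : ℝ × S3 => Φ (F q.1 (Ψ q.2))) =ᶠ[𝓝 (t, p)]
        fun q : ℝ × S3 => xt Φ Ψ Ω (F q.1) q.2 := by
      have : ∀ᶠ q : ℝ × S3 in 𝓝 (t, p), q.2 ∈ Φ '' Ω :=
        continuous_snd.continuousAt.eventually_mem (hΨ.isOpen.mem_nhds hp)
      filter_upwards [this] with q hq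
      rw [xt, if_pos hq]
    refine ContinuousAt.congr ?_ e
    have c1 : ContinuousAt (fun q : ℝ × S3 => (q.1, Ψ q.2)) (t, p) :=
      continuousAt_fst.prodMk (ContinuousAt.comp (f := Prod.snd)
        (hΨ.cont.continuousAt (hΨ.isOpen.mem_nhds hp)) continuousAt_snd)
    have c2 : ContinuousAt (fun q : ℝ × S3 => F q.1 (Ψ q.2)) (t, p) :=
      ContinuousAt.comp (f := fun q : ℝ × S3 => (q.1, Ψ q.2)) hF.continuousAt c1
    obtain ⟨x, hx, rfl⟩ := hp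
    refine ContinuousAt.comp (f := fun q : ℝ × S3 => F q.1 (Ψ q.2)) ?_ c2
    refine hΦ.cont.continuousAt (hΦ.isOpen.mem_nhds ?_)
    simp only [h x hx]
    exact h2 t x hx
  · have hc : IsClosed (Φ '' K) := (hK.image_of_continuousOn (hΦ.cont.mono hs)).isClosed
    have hp' : p ∈ (Φ '' K)ᶜ := fun hq => hp (image_mono hs hq)
    have e : (fun q : ℝ × S3 => q.2) =ᶠ[𝓝 (t, p)] fun q : ℝ × S3 => xt Φ Ψ Ω (F q.1) q.2 := by
      have : ∀ᶠ q : ℝ × S3 in 𝓝 (t, p), q.2 ∈ (Φ '' K)ᶜ :=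
        continuous_snd.continuousAt.eventually_mem (hc.isOpen_compl.mem_nhds hp')
      filter_upwards [this] with q hq
      rw [xt_out h (h1 q.1) hq]
    exact continuousAt_snd.congr e

end RBumpB

open RBumpB in
theorem Germ.isot {E : Type} [NormedAddCommGroup E] [NormedSpace ℝ E] {Φ : E → S3} {Ω : Set E}
    (hΦ : OE Φ Ω) {x₀ : E} (hx : x₀ ∈ Ω) {g : E → E} (h : Germ Ω x₀ g) :
    ∃ H : S3 ≃ₜ S3, Isot H ∧ ∀ᶠ x in 𝓝 x₀, H (Φ x) = Φ (g x) := by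
  have : Nonempty E := ⟨x₀⟩
  obtain ⟨Ψ, hΨ, hl, -⟩ := hΦ.exists_inv
  obtain ⟨G, K, hK, hs, c1, c2, h0, h1, h2⟩ := h
  have h1' : ∀ t x, x ∉ K → (G t).symm x = x := fun t x hx => by
    rw [Homeomorph.symm_apply_eq, h1 t x hx]
  have m1 : ∀ t, ∀ x ∈ Ω, G t x ∈ Ω := fun t => maps_in hs (G t).injective (h1 t)
  have m2 : ∀ t, ∀ x ∈ Ω, (G t).symm x ∈ Ω := fun t => maps_in hs (G t).symm.injective (h1' t)
  have d1 := xt_cont hΦ hΨ hl hK hs (F := fun t => G t) c1 h1 m1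
  have d2 := xt_cont hΦ hΨ hl hK hs (F := fun t => (G t).symm) c2 h1' m2
  let H : ℝ → S3 ≃ₜ S3 := fun t =>
    { toFun := xt Φ Ψ Ω (G t)
      invFun := xt Φ Ψ Ω (G t).symm
      left_inv := xt_xt hl (m1 t) (G t).symm_apply_apply
      right_inv := xt_xt hl (m2 t) (G t).apply_symm_apply
      continuous_toFun := d1.comp (Continuous.prodMk_right t)
      continuous_invFun := d2.comp (Continuous.prodMk_right t) }
  refine ⟨H 1, ⟨H, d1, d2, ?_, rfl⟩, ?_⟩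
  · ext1 p
    change xt Φ Ψ Ω (G 0) p = p
    refine xt_out (K := ∅) hl (fun x _ => ?_) (by simp)
    rw [h0]
    rfl
  · filter_upwards [h2, hΦ.isOpen.mem_nhds hx] with x e hx'
    change xt Φ Ψ Ω (G 1) (Φ x) = _
    rw [xt_in hl _ hx', e]

namespace RBumpB

theorem germ_of_deriv {E : Type} [NormedAddCommGroup E] [NormedSpace ℝ E] [FiniteDimensional ℝ E]
    {Ω : Set E} (hΩ : IsOpen Ω) (hc : Convex ℝ Ω) {x₀ : E} (hx : x₀ ∈ Ω) {g : E → E}
    (hy : g x₀ ∈ Ω) {L : E →L[ℝ] E} (hL : Function.Injective L) (hg : HasStrictFDerivAt g L x₀)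
    (h : Germ Ω x₀ fun x => x₀ + L (x - x₀)) : Germ Ω x₀ g := by
  let e : E ≃L[ℝ] E := (LinearEquiv.ofInjectiveEndo L.toLinearMap hL).toContinuousLinearEquiv
  have he : ∀ v, L (e.symm v) = v := fun v => e.apply_symm_apply v
  have he' : ∀ v, e.symm (L v) = v := fun v => e.symm_apply_apply v
  have hk : HasStrictFDerivAt (fun x => x₀ + e.symm (g x - g x₀)) (ContinuousLinearMap.id ℝ E) x₀ := by
    have := ((e.symm : E →L[ℝ] E).hasStrictFDerivAt.comp x₀ (hg.sub_const (g x₀))).const_add x₀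
    have e1 : (e.symm : E →L[ℝ] E).comp L = ContinuousLinearMap.id ℝ E :=
      ContinuousLinearMap.ext he'
    rw [e1] at this
    exact this
  have g1 := germ_tangent (hΩ.mem_nhds hx) hk (by simp)
  have g2 := g1.comp (g' := fun x => x₀ + L (x - x₀)) (by simpa using h)
  have g3 := g2.comp (g' := fun x => x + (g x₀ - x₀)) (by simpa using germ_transl hΩ hc hx hy)
  refine g3.congr (Filter.Eventually.of_forall fun x => ?_)
  simp only [Function.comp_apply, add_sub_cancel_left, he]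
  abel

theorem oe_iota (a : ℝ) : OE (fun q : ℝ × ℂ => iota q.1 q.2)
    (Ioo (a - 1 / 2) (a + 1 / 2) ×ˢ Metric.ball (0 : ℂ) 1) := by
  have hcc := isCC_iota (O := Metric.ball 0 1) Metric.isOpen_ball (convex_ball _ _)
    (fun d hd => by simpa using hd)
  have hsub : Ioo (a - 1 / 2) (a + 1 / 2) ×ˢ Metric.ball (0 : ℂ) 1 ⊆ univ ×ˢ Metric.ball 0 1 :=
    prod_mono (subset_univ _) Subset.rfl
  refine ⟨isOpen_Ioo.prod Metric.isOpen_ball, hcc.cont.mono hsub, ?_,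
    fun V hV hs => hcc.img V hV (hs.trans hsub)⟩
  rintro ⟨s, w⟩ ⟨hs, hw⟩ ⟨s', w'⟩ ⟨hs', hw'⟩ h
  obtain ⟨rfl, n, hn⟩ := hcc.inj s s' w hw w' hw' h
  have h1 : (n : ℝ) < 1 := by linarith [hs.1, hs'.2]
  have h2 : (-1 : ℝ) < n := by linarith [hs.2, hs'.1]
  have h3 : n < 1 := by exact_mod_cast h1
  have h4 : -1 < n := by exact_mod_cast h2
  have h5 : n = 0 := by omega
  simp [hn, h5]

theorem norm_aux {g : ℝ × ℂ → ℝ × ℂ} {L : (ℝ × ℂ) →L[ℝ] (ℝ × ℂ)} (hL : Function.Injective L)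
    {θ₁ : ℝ} (hg : HasStrictFDerivAt g L (θ₁, 0)) (h1 : ‖(g (θ₁, 0)).2‖ < 1) (θ' : ℝ) {ε : ℝ}
    (hε : ε * ε = 1) {r : (ℝ × ℂ) →L[ℝ] (ℝ × ℂ)} (hr : ∀ x, r x = (ε * x.1, x.2))
    (h : Germ (Ioo ((g (θ₁, 0)).1 - 1 / 2) ((g (θ₁, 0)).1 + 1 / 2) ×ˢ Metric.ball (0 : ℂ) 1)
      ((g (θ₁, 0)).1, 0) fun x => ((g (θ₁, 0)).1, 0) + L (r (x - ((g (θ₁, 0)).1, 0)))) :
    ∃ H : S3 ≃ₜ S3, Isot H ∧ ∀ᶠ q in 𝓝 ((θ₁, 0) : ℝ × ℂ),
      H (iota (θ' + ε * (q.1 - θ₁)) q.2) = iota (g q).1 (g q).2 := by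
  set a := (g (θ₁, 0)).1 with ha
  have hrr : ∀ x, r (r x) = x := fun x => by
    rw [hr, hr, ← mul_assoc, hε, one_mul]
  have hri : Function.Injective r := Function.LeftInverse.injective hrr
  have hA : HasStrictFDerivAt (fun x : ℝ × ℂ => ((θ₁, 0) : ℝ × ℂ) + r (x - (a, 0))) r (a, 0) := by
    have := (r.hasStrictFDerivAt.comp ((a, 0) : ℝ × ℂ)
      ((hasStrictFDerivAt_id ((a, 0) : ℝ × ℂ)).sub_const (a, 0))).const_add ((θ₁, 0) : ℝ × ℂ)
    simpa using this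
  have hg' : HasStrictFDerivAt (fun x : ℝ × ℂ => g ((θ₁, 0) + r (x - (a, 0)))) (L.comp r)
      (a, 0) :=
    HasStrictFDerivAt.comp (f := fun x : ℝ × ℂ => ((θ₁, 0) : ℝ × ℂ) + r (x - (a, 0))) (a, 0)
      (by simpa using hg) hA
  have hx : ((a, 0) : ℝ × ℂ) ∈ Ioo (a - 1 / 2) (a + 1 / 2) ×ˢ Metric.ball (0 : ℂ) 1 :=
    ⟨⟨by norm_num, by norm_num⟩, by simp⟩
  have hG := germ_of_deriv (oe_iota a).isOpen ((convex_Ioo _ _).prod (convex_ball _ _)) hx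
    (by
      rw [sub_self, map_zero, add_zero]
      exact ⟨⟨by linarith, by linarith⟩, by simpa using h1⟩)
    (L := L.comp r) (hL.comp hri) hg' h
  obtain ⟨H, hH, he⟩ := hG.isot (oe_iota a) hx
  refine ⟨(rotX (a - θ')).trans H, (isot_rotX _).trans hH, ?_⟩
  have ht : Filter.Tendsto (fun q : ℝ × ℂ => ((a, 0) : ℝ × ℂ) + r (q - (θ₁, 0))) (𝓝 (θ₁, 0))
      (𝓝 (a, 0)) := by
    have : Continuous fun q : ℝ × ℂ => ((a, 0) : ℝ × ℂ) + r (q - (θ₁, 0)) := by fun_prop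
    simpa using this.tendsto (θ₁, 0)
  have hn : ∀ᶠ q : ℝ × ℂ in 𝓝 (θ₁, 0), ‖q.2‖ < 1 :=
    (continuous_snd.norm.tendsto (θ₁, 0)).eventually_lt_const (by simp)
  filter_upwards [ht.eventually he, hn] with q hq hq'
  rw [add_sub_cancel_left, hrr, add_sub_cancel] at hq
  rw [Homeomorph.trans_apply, rotX_iota _ _ hq'.le, ← hq, hr]
  congr 2
  · simp only [Prod.fst_add, Prod.fst_sub]
    ring
  · simp

end RBumpB

open RBumpB in
theorem norm_iota {g : ℝ × ℂ → ℝ × ℂ} {L : (ℝ × ℂ) →L[ℝ] (ℝ × ℂ)} (hL : Function.Injective L)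
    {θ₁ : ℝ} (hg : HasStrictFDerivAt g L (θ₁, 0)) (h1 : ‖(g (θ₁, 0)).2‖ < 1) (θ' : ℝ) :
    ∃ ε : ℝ, (ε = 1 ∨ ε = -1) ∧ ∃ H : S3 ≃ₜ S3, Isot H ∧
      ∀ᶠ q in 𝓝 ((θ₁, 0) : ℝ × ℂ),
        H (iota (θ' + ε * (q.1 - θ₁)) q.2) = iota (g q).1 (g q).2 := by
  have hΩ : Ioo ((g (θ₁, 0)).1 - 1 / 2) ((g (θ₁, 0)).1 + 1 / 2) ×ˢ Metric.ball (0 : ℂ) 1 ∈
      𝓝 (((g (θ₁, 0)).1, 0) : ℝ × ℂ) :=
    (oe_iota _).isOpen.mem_nhds ⟨⟨by norm_num, by norm_num⟩, by simp⟩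
  rcases germ_lin hΩ hL with h | h
  · exact ⟨1, Or.inl rfl, norm_aux hL hg h1 θ' (by norm_num) (r := ContinuousLinearMap.id ℝ _)
      (fun x => by simp) h⟩
  · exact ⟨-1, Or.inr rfl, norm_aux hL hg h1 θ' (by norm_num) (r := refl1)
      (fun x => by simp [refl1]) h⟩

end Pool.Agent.HH
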