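import Pool.Agent.P.MP_c8dc46_gt.FDefs

/-!
Linear algebra of skew-hermitian forms: existence, uniqueness and additivity of the signature, and
its invariance under Lagrangian correspondences.
-/

open Set

namespace Pool.Agent.HH

section

variable {F V V' : Type} [Field F] [StarRing F] [AddCommGroup V] [Module F V] [AddCommGroup V']
  [Module F V']

theorem IsSkew.mono {lam : V → V → F} {W W' : Submodule F V} (h : IsSkew lam W) (hs : W' ≤ W) :
    IsSkew lam W' :=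
  ⟨h.add_left, h.smul_left, h.add_right, h.smul_right, fun a ha b hb => h.skew a (hs ha) b (hs hb)⟩

theorem IsSkew.sub_right {lam : V → V → F} {W : Submodule F V} (h : IsSkew lam W) (a b b' : V) :
    lam a (b - b') = lam a b - lam a b' := by
  have := h.add_right a (b - b') b'
  rw [sub_add_cancel] at this
  rw [this]; ring

theorem IsSkew.sub_left {lam : V → V → F} {W : Submodule F V} (h : IsSkew lam W) (a a' b : V) :
    lam (a - a') b = lam a b - lam a' b := by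
  have := h.add_left (a - a') a' b
  rw [sub_add_cancel] at this
  rw [this]; ring

theorem IsSkew.zero_right {lam : V → V → F} {W : Submodule F V} (h : IsSkew lam W) (a : V) :
    lam a 0 = 0 := by
  have := h.sub_right a 0 0
  rwa [sub_self, sub_self] at this

theorem IsSkew.zero_left {lam : V → V → F} {W : Submodule F V} (h : IsSkew lam W) (a : V) :
    lam 0 a = 0 := by
  have := h.sub_left 0 0 a
  rwa [sub_self, sub_self] at this

namespace RSig

theorem flip0 {lam : V → V → F} {W : Submodule F V} (h : IsSkew lam W) {a b : V} (ha : a ∈ W)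
    (hb : b ∈ W) (h0 : lam a b = 0) : lam b a = 0 := by
  rw [h.skew a ha b hb, h0, star_zero, neg_zero]

theorem sum_right {lam : V → V → F} {W : Submodule F V} (h : IsSkew lam W) {ι : Type}
    (s : Finset ι) (a : V) (f : ι → V) : lam a (∑ i ∈ s, f i) = ∑ i ∈ s, lam a (f i) := by
  classical
  induction s using Finset.induction_on with
  | empty => simpa using h.zero_right a
  | insert i s hi ih => rw [Finset.sum_insert hi, Finset.sum_insert hi, h.add_right, ih]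

theorem sum_left {lam : V → V → F} {W : Submodule F V} (h : IsSkew lam W) {ι : Type}
    (s : Finset ι) (a : V) (f : ι → V) : lam (∑ i ∈ s, f i) a = ∑ i ∈ s, lam (f i) a := by
  classical
  induction s using Finset.induction_on with
  | empty => simpa using h.zero_left a
  | insert i s hi ih => rw [Finset.sum_insert hi, Finset.sum_insert hi, h.add_left, ih]

/-- The linear functional `a ↦ lam a b`. -/
def lf {lam : V → V → F} {W : Submodule F V} (h : IsSkew lam W) (b : V) : V →ₗ[F] F where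
  toFun a := lam a b
  map_add' a a' := h.add_left a a' b
  map_smul' c a := by simpa using h.smul_left c a b

end RSig

/-- A Lagrangian for a nonzero form is not contained in the radical. -/
theorem exists_lag_not_rad {lam₁ : V → V → F} {lam₂ : V' → V' → F} {W₁ : Submodule F V}
    {W₂ : Submodule F V'} (h₁ : IsSkew lam₁ W₁) (h₂ : IsSkew lam₂ W₂) {L : Set (V × V')}
    (hL : ∀ x ∈ L, x.1 ∈ W₁ ∧ x.2 ∈ W₂)
    (co : ∀ a₁ ∈ W₁, ∀ a₂ ∈ W₂, (∀ x ∈ L, lam₁ x.1 a₁ = lam₂ x.2 a₂) →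
      ∃ x ∈ L, (∀ c ∈ W₁, lam₁ c (x.1 - a₁) = 0) ∧ ∀ c ∈ W₂, lam₂ c (x.2 - a₂) = 0)
    {a : V} (ha : a ∈ W₁) (hne : lam₁ a a ≠ 0) :
    ∃ x ∈ L, ¬ ((∀ c ∈ W₁, lam₁ c x.1 = 0) ∧ ∀ c ∈ W₂, lam₂ c x.2 = 0) := by
  by_contra hc
  have hr : ∀ x ∈ L, lam₁ a x.1 = 0 := by
    intro x hx
    by_contra h0
    exact hc ⟨x, hx, fun h => h0 (h.1 a ha)⟩
  obtain ⟨x, hx, h1, -⟩ := co a ha 0 W₂.zero_mem (fun x hx => by
    rw [h₂.zero_right, RSig.flip0 h₁ ha (hL x hx).1 (hr x hx)])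
  have := h1 a ha
  rw [h₁.sub_right, hr x hx, zero_sub, neg_eq_zero] at this
  exact hne this

end

variable {V V' : Type} [AddCommGroup V] [Module ℂ V] [AddCommGroup V'] [Module ℂ V']

namespace RSig

theorem re_zero {lam : V → V → ℂ} {W : Submodule ℂ V} (h : IsSkew lam W) {a : V} (ha : a ∈ W) :
    (lam a a).re = 0 := by
  have := congrArg Complex.re (h.skew a ha a ha)
  simp only [Complex.neg_re, Complex.star_def, Complex.conj_re] at this
  linarith

theorem im_ne {lam : V → V → ℂ} {W : Submodule ℂ V} (h : IsSkew lam W) {a : V} (ha : a ∈ W)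
    (hne : lam a a ≠ 0) : (lam a a).im ≠ 0 := fun h0 =>
  hne (Complex.ext (re_zero h ha) h0)

theorem finrank_le {ι : Type} [Fintype ι] (S : Submodule ℂ (ι → ℂ)) (p : ι → Prop)
    [DecidablePred p] (hS : ∀ v ∈ S, (∀ i, p i → v i = 0) → v = 0) :
    Module.finrank ℂ S ≤ (Finset.univ.filter p).card := by
  let T : S →ₗ[ℂ] ({i // p i} → ℂ) := (LinearMap.funLeft ℂ ℂ Subtype.val).comp S.subtype
  have hT : Function.Injective T := by
    rw [injective_iff_map_eq_zero]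
    intro v hv
    exact Subtype.ext (hS v v.2 fun i hi => congrFun hv ⟨i, hi⟩)
  have := LinearMap.finrank_le_finrank_of_injective hT
  rwa [Module.finrank_fintype_fun_eq_card, Fintype.card_subtype] at this

theorem eq_zero_of_pos {ι : Type} [Fintype ι] (w : ι → ℝ) (v : ι → ℂ)
    (hv : ∀ i, v i = 0 ∨ 0 < w i) (h0 : ∑ i, (w i : ℂ) * (v i * star (v i)) = 0) : v = 0 := by
  have h1 : ∑ i, w i * Complex.normSq (v i) = 0 := by
    have : ((∑ i, w i * Complex.normSq (v i) : ℝ) : ℂ) = 0 := by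
      rw [← h0]
      push_cast
      refine Finset.sum_congr rfl fun i _ => ?_
      rw [Complex.star_def, Complex.mul_conj]
    exact_mod_cast this
  have h2 : ∀ i ∈ Finset.univ, 0 ≤ w i * Complex.normSq (v i) := by
    intro i _
    rcases hv i with h | h
    · simp [h]
    · exact mul_nonneg h.le (Complex.normSq_nonneg _)
  funext i
  have h3 := (Finset.sum_eq_zero_iff_of_nonneg h2).1 h1 i (Finset.mem_univ i)
  rcases hv i with h | h
  · exact h
  · rcases mul_eq_zero.1 h3 with h4 | h4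
    · exact absurd h4 h.ne'
    · exact Complex.normSq_eq_zero.1 h4

/-- A nondegenerate diagonal hermitian form with a Lagrangian has signature zero. -/
theorem lag {ι : Type} [Fintype ι] (w : ι → ℝ) (σ : ι → ℤ)
    (hσ : ∀ i, (σ i = 1 ∧ 0 < w i) ∨ (σ i = -1 ∧ w i < 0)) (U : Submodule ℂ (ι → ℂ))
    (iso : ∀ u ∈ U, ∑ i, (w i : ℂ) * (u i * star (u i)) = 0)
    (co : ∀ v : ι → ℂ, (∀ u ∈ U, ∑ i, (w i : ℂ) * (u i * star (v i)) = 0) → v ∈ U) :
    ∑ i, σ i = 0 := by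
  classical
  have hP : ∀ u ∈ U, (∀ i, 0 < w i → u i = 0) → u = 0 := by
    intro u hu h
    refine eq_zero_of_pos (fun i => -w i) u (fun i => ?_) ?_
    · rcases hσ i with h1 | h1
      · exact Or.inl (h i h1.2)
      · exact Or.inr (neg_pos.2 h1.2)
    · have := iso u hu
      push_cast
      simp only [neg_mul, Finset.sum_neg_distrib, this, neg_zero]
  have hN : ∀ u ∈ U, (∀ i, ¬ 0 < w i → u i = 0) → u = 0 := by
    intro u hu h
    refine eq_zero_of_pos w u (fun i => ?_) (iso u hu)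
    by_cases h1 : 0 < w i
    · exact Or.inr h1
    · exact Or.inl (h i h1)
  let T : (ι → ℂ) →ₗ[ℂ] Module.Dual ℂ U := LinearMap.mk₂ ℂ
    (fun v u => ∑ i, (w i : ℂ) * (u.1 i * v i))
    (fun v v' u => by
      simp only [Pi.add_apply, mul_add, Finset.sum_add_distrib])
    (fun c v u => by
      simp only [Pi.smul_apply, smul_eq_mul, Finset.mul_sum]
      exact Finset.sum_congr rfl fun i _ => by ring)
    (fun v u u' => by
      simp only [Submodule.coe_add, Pi.add_apply, add_mul, mul_add, Finset.sum_add_distrib])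
    (fun c v u => by
      simp only [Submodule.coe_smul, Pi.smul_apply, smul_eq_mul, Finset.mul_sum]
      exact Finset.sum_congr rfl fun i _ => by ring)
  have hK : ∀ v ∈ LinearMap.ker T, star v ∈ U := by
    intro v hv
    refine co _ fun u hu => ?_
    have := LinearMap.congr_fun (LinearMap.mem_ker.1 hv) ⟨u, hu⟩
    simpa [T] using this
  have e1 := finrank_le U (fun i => 0 < w i) hP
  have e2 := finrank_le U (fun i => ¬ 0 < w i) hN
  have e3 := finrank_le (LinearMap.ker T) (fun i => 0 < w i) (fun v hv h => by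
    have := hP _ (hK v hv) (fun i hi => by simp [h i hi])
    simpa using this)
  have e4 := finrank_le (LinearMap.ker T) (fun i => ¬ 0 < w i) (fun v hv h => by
    have := hN _ (hK v hv) (fun i hi => by simp [h i hi])
    simpa using this)
  have e5 := LinearMap.finrank_range_add_finrank_ker T
  have e6 : Module.finrank ℂ (LinearMap.range T) ≤ Module.finrank ℂ U := by
    rw [← Subspace.dual_finrank_eq (K := ℂ) (V := U)]
    exact Submodule.finrank_le _
  rw [Module.finrank_fintype_fun_eq_card] at e5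
  have e7 := Finset.card_filter_add_card_filter_not (s := (Finset.univ : Finset ι))
    (fun i => 0 < w i)
  rw [Finset.card_univ] at e7
  have e8 : (Finset.univ.filter fun i => 0 < w i).card =
      (Finset.univ.filter fun i => ¬ 0 < w i).card := by omega
  rw [← Finset.sum_filter_add_sum_filter_not Finset.univ (fun i => 0 < w i)]
  have a1 : ∑ i ∈ Finset.univ.filter (fun i => 0 < w i), σ i =
      ∑ i ∈ Finset.univ.filter (fun i => 0 < w i), (1 : ℤ) := by
    refine Finset.sum_congr rfl fun i hi => ?_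
    have hi' := (Finset.mem_filter.1 hi).2
    rcases hσ i with h1 | h1
    · exact h1.1
    · exact absurd hi' (not_lt.2 h1.2.le)
  have a2 : ∑ i ∈ Finset.univ.filter (fun i => ¬ 0 < w i), σ i =
      ∑ i ∈ Finset.univ.filter (fun i => ¬ 0 < w i), (-1 : ℤ) := by
    refine Finset.sum_congr rfl fun i hi => ?_
    have hi' := (Finset.mem_filter.1 hi).2
    rcases hσ i with h1 | h1
    · exact absurd h1.2 hi'
    · exact h1.1
  rw [a1, a2, Finset.sum_const, Finset.sum_const, e8]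
  simp

theorem span_le {W : Submodule ℂ V} {ι : Type} {e : ι → V} (he : ∀ i, e i ∈ W) :
    Submodule.span ℂ (range e) ≤ W :=
  Submodule.span_le.2 (range_subset_iff.2 he)

theorem lam_comb {lam : V → V → ℂ} {W : Submodule ℂ V} (h : IsSkew lam W) {ι : Type} [Fintype ι]
    {e : ι → V} (ho : ∀ i j, i ≠ j → lam (e i) (e j) = 0) (β : ι → ℂ) (j : ι) :
    lam (∑ i, β i • e i) (e j) = β j * lam (e j) (e j) := by
  rw [sum_left h, Finset.sum_eq_single j]
  · exact h.smul_left _ _ _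
  · intro i _ hi
    rw [h.smul_left, ho i j hi, mul_zero]
  · intro hj
    exact absurd (Finset.mem_univ j) hj

/-- Expansion of the form in the coordinates `lam a (e i)`. -/
theorem expand {lam : V → V → ℂ} {W : Submodule ℂ V} (h : IsSkew lam W) {ι : Type} [Fintype ι]
    {e : ι → V} (he : ∀ i, e i ∈ W) (ho : ∀ i j, i ≠ j → lam (e i) (e j) = 0)
    (hn : ∀ i, (lam (e i) (e i)).im ≠ 0)
    (hsp : ∀ a ∈ W, ∃ b ∈ Submodule.span ℂ (range e), ∀ c ∈ W, lam c (a - b) = 0)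
    {a b : V} (ha : a ∈ W) (hb : b ∈ W) :
    lam a b = Complex.I * ∑ i, (((lam (e i) (e i)).im⁻¹ : ℝ) : ℂ) *
      (lam a (e i) * star (lam b (e i))) := by
  obtain ⟨b', hb', hr⟩ := hsp b hb
  have hb'W := span_le he hb'
  obtain ⟨β, rfl⟩ := (Submodule.mem_span_range_iff_exists_fun ℂ).1 hb'
  have h1 := hr a ha
  rw [h.sub_right, sub_eq_zero] at h1
  rw [h1, sum_right h, Finset.mul_sum]
  refine Finset.sum_congr rfl fun i _ => ?_
  have h2 := flip0 h (he i) (W.sub_mem hb hb'W) (hr _ (he i))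
  rw [h.sub_left, sub_eq_zero, lam_comb h ho] at h2
  have h3 : lam (e i) (e i) = ((lam (e i) (e i)).im : ℂ) * Complex.I := by
    apply Complex.ext
    · simp [re_zero h (he i)]
    · simp
  have h4 : (((lam (e i) (e i)).im : ℝ) : ℂ) ≠ 0 := by exact_mod_cast hn i
  rw [h.smul_right, h2, star_mul, h3]
  simp only [Complex.mul_im, Complex.ofReal_re, Complex.I_im, mul_one, Complex.ofReal_im,
    Complex.I_re, mul_zero, add_zero, star_mul, Complex.star_def, Complex.conj_ofReal,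
    Complex.conj_I, Complex.ofReal_inv]
  field_simp
  simp

theorem im_ne_of {z : ℂ} {ε : ℤ} (h : (ε = 1 ∧ 0 < z.im) ∨ (ε = -1 ∧ z.im < 0)) : z.im ≠ 0 := by
  rcases h with h | h
  · exact h.2.ne'
  · exact h.2.ne

theorem ne_of_im {z : ℂ} (h : z.im ≠ 0) : z ≠ 0 := by
  rintro rfl
  exact h rfl

/-- Pushing the spanning condition along a semilinear isometry. -/
theorem push {lam : V → V → ℂ} {lam' : V' → V' → ℂ} {W : Submodule ℂ V}
    {W' : Submodule ℂ V'} (h : IsSkew lam W) (h' : IsSkew lam' W') {σ : ℂ →+* ℂ}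
    (Θ : V →ₛₗ[σ] V') (hm : ∀ a ∈ W, Θ a ∈ W')
    (hi : ∀ a ∈ W, ∀ b ∈ W, lam a b = 0 → lam' (Θ a) (Θ b) = 0)
    (hs : ∀ a' ∈ W', ∃ a ∈ W, ∀ c ∈ W', lam' c (a' - Θ a) = 0) {ι : Type} {e : ι → V}
    (he : ∀ i, e i ∈ W)
    (hsp : ∀ a ∈ W, ∃ b ∈ Submodule.span ℂ (range e), ∀ c ∈ W, lam c (a - b) = 0) :
    ∀ a ∈ W', ∃ b ∈ Submodule.span ℂ (range fun i => Θ (e i)), ∀ c ∈ W', lam' c (a - b) = 0 := by
  intro a' ha'
  obtain ⟨a, ha, hr⟩ := hs a' ha'
  obtain ⟨b, hb, hrb⟩ := hsp a ha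
  have hbW := span_le he hb
  refine ⟨Θ b, ?_, fun c' hc' => ?_⟩
  · clear hrb hbW
    induction hb using Submodule.span_induction with
    | mem x hx =>
      obtain ⟨i, rfl⟩ := hx
      exact Submodule.subset_span ⟨i, rfl⟩
    | zero => rw [map_zero]; exact Submodule.zero_mem _
    | add x y _ _ hx hy => rw [map_add]; exact Submodule.add_mem _ hx hy
    | smul c x _ hx => rw [map_smulₛₗ]; exact Submodule.smul_mem _ _ hx
  · obtain ⟨c, hc, hrc⟩ := hs c' hc'
    have hab := W.sub_mem ha hbW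
    have e1 : a' - Θ b = (a' - Θ a) + Θ (a - b) := by rw [map_sub]; abel
    rw [e1, h'.add_right, hr c' hc', zero_add]
    refine flip0 h' (hm _ hab) hc' ?_
    have e2 := hrc _ (hm _ hab)
    rw [h'.sub_right, sub_eq_zero] at e2
    rw [e2]
    exact hi _ hab _ hc (flip0 h hc hab (hrb c hc))

end RSig

open RSig

theorem HasSig.eq_of_lag {lam₁ : V → V → ℂ} {lam₂ : V' → V' → ℂ} {W₁ : Submodule ℂ V}
    {W₂ : Submodule ℂ V'} (h₁ : IsSkew lam₁ W₁) (h₂ : IsSkew lam₂ W₂) {s₁ s₂ : ℤ}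
    (g₁ : HasSig lam₁ W₁ s₁) (g₂ : HasSig lam₂ W₂ s₂) (L : Submodule ℂ (V × V'))
    (hL : ∀ x ∈ L, x.1 ∈ W₁ ∧ x.2 ∈ W₂) (iso : ∀ x ∈ L, ∀ y ∈ L, lam₁ x.1 y.1 = lam₂ x.2 y.2)
    (co : ∀ a₁ ∈ W₁, ∀ a₂ ∈ W₂, (∀ x ∈ L, lam₁ x.1 a₁ = lam₂ x.2 a₂) →
      ∃ x ∈ L, (∀ c ∈ W₁, lam₁ c (x.1 - a₁) = 0) ∧ ∀ c ∈ W₂, lam₂ c (x.2 - a₂) = 0) :
    s₁ = s₂ := by
  obtain ⟨ι₁, _, e₁, ε₁, m₁, o₁, p₁, sp₁, rfl⟩ := g₁
  obtain ⟨ι₂, _, e₂, ε₂, m₂, o₂, p₂, sp₂, rfl⟩ := g₂
  have n₁ := fun i => im_ne_of (p₁ i)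
  have n₂ := fun i => im_ne_of (p₂ i)
  let Φ : (V × V') →ₗ[ℂ] (ι₁ ⊕ ι₂ → ℂ) := LinearMap.pi fun i =>
    Sum.elim (fun i => (lf h₁ (e₁ i)).comp (LinearMap.fst ℂ V V'))
      (fun i => (lf h₂ (e₂ i)).comp (LinearMap.snd ℂ V V')) i
  have Φ₁ : ∀ x i, Φ x (Sum.inl i) = lam₁ x.1 (e₁ i) := fun _ _ => rfl
  have Φ₂ : ∀ x i, Φ x (Sum.inr i) = lam₂ x.2 (e₂ i) := fun _ _ => rfl
  let w : ι₁ ⊕ ι₂ → ℝ := Sum.elim (fun i => (lam₁ (e₁ i) (e₁ i)).im⁻¹)
    (fun i => -(lam₂ (e₂ i) (e₂ i)).im⁻¹)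
  have key : ∀ x y : V × V', x.1 ∈ W₁ ∧ x.2 ∈ W₂ → y.1 ∈ W₁ ∧ y.2 ∈ W₂ →
      (∑ i, (w i : ℂ) * (Φ x i * star (Φ y i)) = 0 ↔ lam₁ x.1 y.1 = lam₂ x.2 y.2) := by
    intro x y hx hy
    rw [expand h₁ m₁ o₁ n₁ sp₁ hx.1 hy.1, expand h₂ m₂ o₂ n₂ sp₂ hx.2 hy.2,
      mul_right_inj' Complex.I_ne_zero, Fintype.sum_sum_type, ← sub_eq_zero (G := ℂ),
      ← sub_eq_zero (a := ∑ i, _ * (lam₁ x.1 (e₁ i) * _))]
    simp only [Φ₁, Φ₂, w, Sum.elim_inl, Sum.elim_inr, Complex.ofReal_neg, neg_mul,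
      Finset.sum_neg_distrib, sub_zero, ← sub_eq_add_neg]
  have main := lag w (Sum.elim ε₁ fun i => -ε₂ i) ?_ (L.map Φ) ?_ ?_
  · rw [Fintype.sum_sum_type] at main
    simp only [Sum.elim_inl, Sum.elim_inr, Finset.sum_neg_distrib] at main
    linarith
  · rintro (i | i)
    · rcases p₁ i with h | h
      · exact Or.inl ⟨h.1, inv_pos.2 h.2⟩
      · exact Or.inr ⟨h.1, inv_lt_zero.2 h.2⟩
    · rcases p₂ i with h | h
      · exact Or.inr ⟨by simp [h.1], neg_lt_zero.2 (inv_pos.2 h.2)⟩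
      · exact Or.inl ⟨by simp [h.1], neg_pos.2 (inv_lt_zero.2 h.2)⟩
  · rintro _ ⟨x, hx, rfl⟩
    exact (key x x (hL x hx) (hL x hx)).2 (iso x hx x hx)
  · intro v hv
    let a₁ : V := ∑ i, (v (Sum.inl i) / lam₁ (e₁ i) (e₁ i)) • e₁ i
    let a₂ : V' := ∑ i, (v (Sum.inr i) / lam₂ (e₂ i) (e₂ i)) • e₂ i
    have ha₁ : a₁ ∈ W₁ := W₁.sum_mem fun i _ => W₁.smul_mem _ (m₁ i)
    have ha₂ : a₂ ∈ W₂ := W₂.sum_mem fun i _ => W₂.smul_mem _ (m₂ i)
    have hΦ : Φ (a₁, a₂) = v := by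
      funext i
      rcases i with i | i
      · rw [Φ₁, lam_comb h₁ o₁, div_mul_cancel₀ _ (ne_of_im (n₁ i))]
      · rw [Φ₂, lam_comb h₂ o₂, div_mul_cancel₀ _ (ne_of_im (n₂ i))]
    obtain ⟨x, hx, r₁, r₂⟩ := co a₁ ha₁ a₂ ha₂ fun x hx =>
      (key x (a₁, a₂) (hL x hx) ⟨ha₁, ha₂⟩).1 (by rw [hΦ]; exact hv _ ⟨x, hx, rfl⟩)
    refine ⟨x, hx, ?_⟩
    rw [← hΦ]
    funext i
    rcases i with i | i
    · have := flip0 h₁ (m₁ i) (W₁.sub_mem (hL x hx).1 ha₁) (r₁ _ (m₁ i))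
      rw [h₁.sub_left, sub_eq_zero] at this
      exact this
    · have := flip0 h₂ (m₂ i) (W₂.sub_mem (hL x hx).2 ha₂) (r₂ _ (m₂ i))
      rw [h₂.sub_left, sub_eq_zero] at this
      exact this

theorem HasSig.unique {lam : V → V → ℂ} {W : Submodule ℂ V} (h : IsSkew lam W) {s s' : ℤ}
    (g : HasSig lam W s) (g' : HasSig lam W s') : s = s' := by
  refine HasSig.eq_of_lag h h g g' (W.map ((LinearMap.id : V →ₗ[ℂ] V).prod LinearMap.id))
    ?_ ?_ ?_
  · rintro _ ⟨a, ha, rfl⟩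
    exact ⟨ha, ha⟩
  · rintro _ ⟨a, -, rfl⟩ _ ⟨b, -, rfl⟩
    rfl
  · intro a₁ h₁ a₂ _ hx
    refine ⟨(a₁, a₁), ⟨a₁, h₁, rfl⟩, fun c _ => ?_, fun c hc => ?_⟩
    · rw [sub_self, h.zero_right]
    · rw [h.sub_right, sub_eq_zero]
      exact hx (c, c) ⟨c, hc, rfl⟩

namespace RSig

theorem sig_zero {lam : V → V → ℂ} {W : Submodule ℂ V} (h : ∀ a ∈ W, ∀ c ∈ W, lam c a = 0) :
    HasSig lam W 0 :=
  ⟨Empty, inferInstance, Empty.elim, Empty.elim, fun i => i.elim, fun i => i.elim,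
    fun i => i.elim, fun a ha => ⟨0, Submodule.zero_mem _, fun c hc => by
      rw [sub_zero]; exact h a ha c hc⟩, by simp⟩

theorem polar {lam : V → V → ℂ} {W : Submodule ℂ V} (h : IsSkew lam W)
    (h0 : ∀ a ∈ W, lam a a = 0) : ∀ a ∈ W, ∀ c ∈ W, lam c a = 0 := by
  have h1 : ∀ a ∈ W, ∀ c ∈ W, (lam c a).im = 0 := by
    intro a ha c hc
    have := h0 _ (W.add_mem ha hc)
    rw [h.add_left, h.add_right, h.add_right, h0 a ha, h0 c hc, h.skew c hc a ha] at this
    have := congrArg Complex.im this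
    simp only [Complex.star_def, zero_add, add_zero, Complex.add_im, Complex.neg_im,
      Complex.conj_im, neg_neg, Complex.zero_im] at this
    linarith
  intro a ha c hc
  have h2 := h1 a ha _ (W.smul_mem Complex.I hc)
  rw [h.smul_left] at h2
  refine Complex.ext ?_ (h1 a ha c hc)
  simpa using h2

theorem sign_choice {z : ℂ} (h : z.im ≠ 0) :
    ∃ ε : ℤ, (ε = 1 ∧ 0 < z.im) ∨ (ε = -1 ∧ z.im < 0) := by
  rcases lt_or_gt_of_ne h with h | h
  · exact ⟨-1, Or.inr ⟨rfl, h⟩⟩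
  · exact ⟨1, Or.inl ⟨rfl, h⟩⟩

/-- Adding an anisotropic vector to an orthogonal family of its complement. -/
theorem step {lam : V → V → ℂ} {W : Submodule ℂ V} (h : IsSkew lam W) {b : V} (hb : b ∈ W)
    (hne : lam b b ≠ 0) {s : ℤ} (g : HasSig lam (W ⊓ LinearMap.ker (lf h b)) s) :
    ∃ s', HasSig lam W s' := by
  obtain ⟨ι, _, e, ε, m, o, p, sp, rfl⟩ := g
  obtain ⟨ε₀, hε₀⟩ := sign_choice (im_ne h hb hne)
  have hpr : ∀ a ∈ W, a - (lam a b / lam b b) • b ∈ W ⊓ LinearMap.ker (lf h b) := by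
    intro a ha
    refine ⟨W.sub_mem ha (W.smul_mem _ hb), ?_⟩
    change lam _ b = 0
    rw [h.sub_left, h.smul_left, div_mul_cancel₀ _ hne, sub_self]
  refine ⟨_, Option ι, inferInstance, fun t => t.elim b e, fun t => t.elim ε₀ ε, ?_, ?_, ?_, ?_,
    rfl⟩
  · rintro (_ | i)
    · exact hb
    · exact (m i).1
  · rintro (_ | i) (_ | j) hij
    · exact absurd rfl hij
    · exact flip0 h (m j).1 hb (m j).2
    · exact (m i).2
    · exact o i j fun h' => hij (by rw [h'])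
  · rintro (_ | i)
    · exact hε₀
    · exact p i
  · intro a ha
    obtain ⟨b', hb', hr⟩ := sp _ (hpr a ha)
    refine ⟨(lam a b / lam b b) • b + b', Submodule.add_mem _
      (Submodule.smul_mem _ _ (Submodule.subset_span ⟨none, rfl⟩))
      (Submodule.span_mono ?_ hb'), fun c hc => ?_⟩
    · rintro _ ⟨i, rfl⟩
      exact ⟨some i, rfl⟩
    · have hm := Submodule.sub_mem _ (hpr a ha) (span_le m hb')
      have e1 := hr _ (hpr c hc)
      rw [h.sub_left, h.smul_left, flip0 h hm.1 hb hm.2, mul_zero, sub_zero] at e1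
      rw [← sub_sub]
      exact e1

theorem ex_aux {lam : V → V → ℂ} (n : ℕ) : ∀ {W : Submodule ℂ V} (_ : IsSkew lam W)
    {M : Submodule ℂ V} (_ : M.FG) (_ : M ≤ W) (_ : Module.finrank ℂ M = n)
    (_ : ∀ a ∈ W, ∃ b ∈ M, ∀ c ∈ W, lam c (a - b) = 0), ∃ s, HasSig lam W s := by
  induction n using Nat.strong_induction_on with
  | _ n ih =>
    intro W h M hM hMW hn hs
    by_cases h0 : ∀ a ∈ W, lam a a = 0
    · exact ⟨0, sig_zero (polar h h0)⟩
    have hex : ∃ a ∈ W, lam a a ≠ 0 := by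
      by_contra hc
      exact h0 fun a ha => by
        by_contra h1
        exact hc ⟨a, ha, h1⟩
    obtain ⟨a, ha, hne⟩ := hex
    obtain ⟨b, hb, hr⟩ := hs a ha
    have hbW := hMW hb
    have hbb : lam b b ≠ 0 := by
      intro h1
      have e1 := hr a ha
      have e2 := hr b hbW
      rw [h.sub_right, sub_eq_zero] at e1 e2
      exact hne (e1.trans (flip0 h hbW ha (e2.trans h1)))
    have : Module.Finite ℂ M := Module.Finite.iff_fg.2 hM
    have hle : M ⊓ LinearMap.ker (lf h b) ≤ M := inf_le_left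
    have hlt : M ⊓ LinearMap.ker (lf h b) < M :=
      lt_of_le_of_ne hle fun he => hbb (show b ∈ M ⊓ LinearMap.ker (lf h b) by rw [he]; exact hb).2
    have : Module.Finite ℂ (M ⊓ LinearMap.ker (lf h b) : Submodule ℂ V) :=
      Module.Finite.of_injective (Submodule.inclusion hle) (Submodule.inclusion_injective hle)
    obtain ⟨s, g⟩ := ih _ (hn ▸ Submodule.finrank_lt_finrank_of_lt hlt)
      (h.mono (inf_le_left : W ⊓ LinearMap.ker (lf h b) ≤ W))
      (Module.Finite.iff_fg.1 inferInstance) (inf_le_inf_right _ hMW) rfl (by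
        intro a' ha'
        obtain ⟨b', hb', hr'⟩ := hs a' ha'.1
        refine ⟨b', ⟨hb', ?_⟩, fun c hc => hr' c hc.1⟩
        have e1 := hr' b hbW
        rw [h.sub_right, flip0 h ha'.1 hbW ha'.2, zero_sub, neg_eq_zero] at e1
        exact flip0 h hbW (hMW hb') e1)
    exact step h hbW hbb g

end RSig

theorem exists_hasSig {lam : V → V → ℂ} {W : Submodule ℂ V} (h : IsSkew lam W)
    {M : Submodule ℂ V} (hM : M.FG) (hMW : M ≤ W)
    (hs : ∀ a ∈ W, ∃ b ∈ M, ∀ c ∈ W, lam c (a - b) = 0) : ∃ s, HasSig lam W s :=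
  ex_aux _ h hM hMW rfl hs

/-- A subspace of a space of finite rank has finite rank. -/
theorem HasSig.exists_sub {lam : V → V → ℂ} {W W' : Submodule ℂ V} (h : IsSkew lam W) {s : ℤ}
    (g : HasSig lam W s) (hs : W' ≤ W) : ∃ s', HasSig lam W' s' := by
  obtain ⟨ι, _, e, ε, m, o, p, sp, rfl⟩ := g
  let Φ : V →ₗ[ℂ] (ι → ℂ) := LinearMap.pi fun i => lf h (e i)
  have hfg : (W'.map Φ).FG := Module.Finite.iff_fg.1 inferInstance
  obtain ⟨n, g, hg⟩ := Submodule.fg_iff_exists_fin_generating_family.1 hfg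
  have hpre : ∀ k, ∃ x ∈ W', Φ x = g k := fun k =>
    show g k ∈ W'.map Φ by rw [← hg]; exact Submodule.subset_span ⟨k, rfl⟩
  choose x hx hxg using hpre
  refine exists_hasSig (h.mono hs) (M := Submodule.span ℂ (range x))
    (Submodule.fg_span (finite_range x)) (span_le hx) fun a ha => ?_
  have h1 : Φ a ∈ (Submodule.span ℂ (range x)).map Φ := by
    rw [Submodule.map_span, ← range_comp, show Φ ∘ x = g from funext hxg, hg]
    exact ⟨a, ha, rfl⟩
  obtain ⟨b, hb, hab⟩ := h1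
  refine ⟨b, hb, fun c hc => ?_⟩
  have hm := hs (W'.sub_mem ha (span_le hx hb))
  rw [expand h m o (fun i => im_ne_of (p i)) sp (hs hc) hm]
  refine mul_eq_zero_of_right _ (Finset.sum_eq_zero fun i _ => ?_)
  have h2 : lam b (e i) = lam a (e i) := congrFun hab i
  rw [h.sub_left, h2, sub_self, star_zero, mul_zero, mul_zero]

theorem hasSig_zero {lam : V → V → ℂ} {W : Submodule ℂ V} (h : ∀ a ∈ W, ∀ c ∈ W, lam c a = 0) :
    HasSig lam W 0 :=
  sig_zero h

theorem HasSig.sum {lam : V → V → ℂ} {W : Submodule ℂ V} (h : IsSkew lam W) {ι : Type}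
    [Fintype ι] {Wi : ι → Submodule ℂ V} (hs : ∀ i, Wi i ≤ W)
    (ho : ∀ i j, i ≠ j → ∀ a ∈ Wi i, ∀ b ∈ Wi j, lam a b = 0)
    (hd : ∀ a ∈ W, ∃ ai : ι → V, (∀ i, ai i ∈ Wi i) ∧ ∀ c ∈ W, lam c (a - ∑ i, ai i) = 0)
    {s : ι → ℤ} (g : ∀ i, HasSig lam (Wi i) (s i)) : HasSig lam W (∑ i, s i) := by
  choose κ fκ e ε m o p sp hsum using g
  refine ⟨Σ i, κ i, inferInstance, fun t => e t.1 t.2, fun t => ε t.1 t.2,
    fun t => hs _ (m t.1 t.2), ?_, fun t => p t.1 t.2, ?_, ?_⟩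
  · rintro ⟨i, x⟩ ⟨j, y⟩ hne
    by_cases hij : i = j
    · subst hij
      exact o i x y fun h' => hne (by rw [h'])
    · exact ho i j hij _ (m i x) _ (m j y)
  · intro a ha
    obtain ⟨ai, hai, hr⟩ := hd a ha
    choose bi hbi hri using fun i => sp i _ (hai i)
    refine ⟨∑ i, bi i, Submodule.sum_mem _ fun i _ => Submodule.span_mono ?_ (hbi i),
      fun c hc => ?_⟩
    · rintro _ ⟨x, rfl⟩
      exact ⟨⟨i, x⟩, rfl⟩
    · have e1 : a - ∑ i, bi i = (a - ∑ i, ai i) + ∑ i, (ai i - bi i) := by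
        rw [Finset.sum_sub_distrib]; abel
      rw [e1, h.add_right, hr c hc, zero_add, sum_right h]
      refine Finset.sum_eq_zero fun i _ => ?_
      have hm : ai i - bi i ∈ Wi i := Submodule.sub_mem _ (hai i) (span_le (m i) (hbi i))
      obtain ⟨ci, hci, hrc⟩ := hd c hc
      refine flip0 h (hs i hm) hc ?_
      have e2 := hrc _ (hs i hm)
      rw [h.sub_right, sub_eq_zero] at e2
      rw [e2, sum_right h]
      refine Finset.sum_eq_zero fun j _ => ?_
      by_cases hij : i = j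
      · subst hij
        exact flip0 h (hs i (hci i)) (hs i hm) (hri i _ (hci i))
      · exact ho i j hij _ hm _ (hci j)
  · rw [Fintype.sum_sigma]
    exact Finset.sum_congr rfl fun i _ => hsum i

theorem HasSig.map {lam : V → V → ℂ} {lam' : V' → V' → ℂ} {W : Submodule ℂ V}
    {W' : Submodule ℂ V'} (h : IsSkew lam W) (h' : IsSkew lam' W') (Θ : V →ₗ[ℂ] V')
    (hm : ∀ a ∈ W, Θ a ∈ W') (hi : ∀ a ∈ W, ∀ b ∈ W, lam' (Θ a) (Θ b) = lam a b)
    (hs : ∀ a' ∈ W', ∃ a ∈ W, ∀ c ∈ W', lam' c (a' - Θ a) = 0) (s : ℤ) :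
    HasSig lam W s ↔ HasSig lam' W' s := by
  constructor
  · rintro ⟨ι, _, e, ε, m, o, p, sp, rfl⟩
    refine ⟨ι, inferInstance, fun i => Θ (e i), ε, fun i => hm _ (m i), fun i j hij => ?_,
      fun i => ?_, push h h' Θ hm (fun a ha b hb h0 => (hi a ha b hb).trans h0) hs m sp, rfl⟩
    · rw [hi _ (m i) _ (m j), o i j hij]
    · rw [hi _ (m i) _ (m i)]
      exact p i
  · rintro ⟨ι, _, e', ε, m', o, p, sp, rfl⟩
    choose e m hr using fun i => hs _ (m' i)
    have hee : ∀ i j, lam (e i) (e j) = lam' (e' i) (e' j) := by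
      intro i j
      have e1 := hr j _ (hm _ (m i))
      have e2 := flip0 h' (m' j) (W'.sub_mem (m' i) (hm _ (m i))) (hr i _ (m' j))
      rw [h'.sub_right, sub_eq_zero] at e1
      rw [h'.sub_left, sub_eq_zero] at e2
      rw [← hi _ (m i) _ (m j), ← e1, e2]
    refine ⟨ι, inferInstance, e, ε, m, fun i j hij => ?_, fun i => ?_, fun a ha => ?_, rfl⟩
    · rw [hee, o i j hij]
    · rw [hee]
      exact p i
    · obtain ⟨b', hb', hrb⟩ := sp _ (hm a ha)
      obtain ⟨β, rfl⟩ := (Submodule.mem_span_range_iff_exists_fun ℂ).1 hb'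
      have hb : ∑ i, β i • e i ∈ Submodule.span ℂ (range e) :=
        (Submodule.mem_span_range_iff_exists_fun ℂ).2 ⟨β, rfl⟩
      refine ⟨_, hb, fun c hc => ?_⟩
      have e1 : Θ (a - ∑ i, β i • e i) =
          (Θ a - ∑ i, β i • e' i) + ∑ i, β i • (e' i - Θ (e i)) := by
        simp only [map_sub, map_sum, map_smul, smul_sub, Finset.sum_sub_distrib]
        abel
      rw [← hi c hc _ (W.sub_mem ha (span_le m hb)), e1, h'.add_right, hrb _ (hm c hc), zero_add,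
        sum_right h']
      refine Finset.sum_eq_zero fun i _ => ?_
      rw [h'.smul_right, hr i _ (hm c hc), mul_zero]

theorem HasSig.conj {lam : V → V → ℂ} {lam' : V' → V' → ℂ} {W : Submodule ℂ V}
    {W' : Submodule ℂ V'} (h : IsSkew lam W) (h' : IsSkew lam' W') (Θ : V →ₗ⋆[ℂ] V')
    (hm : ∀ a ∈ W, Θ a ∈ W') (hi : ∀ a ∈ W, ∀ b ∈ W, lam' (Θ a) (Θ b) = star (lam a b))
    (hs : ∀ a' ∈ W', ∃ a ∈ W, ∀ c ∈ W', lam' c (a' - Θ a) = 0) {s : ℤ} (g : HasSig lam W s) :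
    HasSig lam' W' (-s) := by
  obtain ⟨ι, _, e, ε, m, o, p, sp, rfl⟩ := g
  refine ⟨ι, inferInstance, fun i => Θ (e i), fun i => -ε i, fun i => hm _ (m i),
    fun i j hij => ?_, fun i => ?_,
    push h h' Θ hm (fun a ha b hb h0 => by rw [hi a ha b hb, h0, star_zero]) hs m sp,
    (Finset.sum_neg_distrib _).symm⟩
  · rw [hi _ (m i) _ (m j), o i j hij, star_zero]
  · rw [hi _ (m i) _ (m i), Complex.star_def, Complex.conj_im]
    rcases p i with h1 | h1
    · exact Or.inr ⟨by simp [h1.1], neg_lt_zero.2 h1.2⟩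
    · exact Or.inl ⟨by simp [h1.1], neg_pos.2 h1.2⟩

theorem HasSig.one_dim {lam : V → V → ℂ} {W : Submodule ℂ V} (h : IsSkew lam W) {a₀ : V}
    (h₀ : a₀ ∈ W) (hne : ¬ ∀ c ∈ W, lam c a₀ = 0)
    (hg : ∀ a ∈ W, ∃ κ : ℂ, ∀ c ∈ W, lam c (a - κ • a₀) = 0) {s : ℤ} (g : HasSig lam W s) :
    s = 1 ∨ s = -1 := by
  have h1 : lam a₀ a₀ ≠ 0 := by
    intro h0
    refine hne fun c hc => ?_
    obtain ⟨κ, hκ⟩ := hg c hc
    have e1 := hκ a₀ h₀
    rw [h.sub_right, h.smul_right, h0, mul_zero, sub_zero] at e1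
    exact flip0 h h₀ hc e1
  obtain ⟨ε, hε⟩ := sign_choice (im_ne h h₀ h1)
  have g' : HasSig lam W ε := by
    refine ⟨Unit, inferInstance, fun _ => a₀, fun _ => ε, fun _ => h₀,
      fun i j hij => absurd (Subsingleton.elim i j) hij, fun _ => hε, fun a ha => ?_, by simp⟩
    obtain ⟨κ, hκ⟩ := hg a ha
    exact ⟨κ • a₀, Submodule.smul_mem _ _ (Submodule.subset_span ⟨(), rfl⟩), hκ⟩
  rw [HasSig.unique h g g']
  rcases hε with h2 | h2
  · exact Or.inl h2.1
  · exact Or.inr h2.1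

end Pool.Agent.HH
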