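import Pool.Agent.P.MP_c8dc46_gt.Cup
import Pool.Agent.P.MP_c8dc46_gt.Sig
import Pool.Agent.P.MP_c8dc46_gt.Int3

/-!
The linking form for an abstract integral `J` over `S`. Every local identity is checked
separately at points of `M ∩ S` (Leibniz rule) and of `S \ K` (all terms vanish).
-/

open Set Topology

namespace Pool.Agent.HH

namespace Coef

variable {F G : Type} [Field F] [StarRing F] [AddCommGroup G] [Module F G] (cf : Coef F G)

theorem adj_pow (k : ℕ) (x y : G) : cf.B ((cf.T ^ k) x) y = cf.B ((cf.v ^ k) x) ((cf.T ^ k) y) := by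
  induction k generalizing x y with
  | zero => simp
  | succ k ih =>
    have hc : cf.v ((cf.T ^ k) x) = (cf.T ^ k) (cf.v x) := by
      have h := (cf.comm.pow_left k).eq
      exact (congrArg (fun L : Module.End F G => L x) h).symm
    rw [pow_succ' cf.T k, Module.End.mul_apply, cf.adj, hc, ih, pow_succ cf.v k,
      ← pow_succ' cf.T k, pow_succ cf.T k, Module.End.mul_apply, Module.End.mul_apply]

theorem ker_right (y : G) : (∀ x, cf.B x y = 0) ↔ y ∈ LinearMap.range (cf.T ^ (2 * cf.m)) := by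
  rw [← cf.ker]
  refine forall_congr' fun x => ?_
  rw [cf.skew y x, neg_eq_zero, star_eq_zero]

theorem B_pow_pow {j k : ℕ} (h : 2 * cf.m ≤ j + k) (x y : G) :
    cf.B ((cf.T ^ j) x) ((cf.T ^ k) y) = 0 := by
  rw [cf.adj_pow]
  refine (cf.ker_right _).2 ⟨(cf.T ^ (j + k - 2 * cf.m)) y, ?_⟩ _
  rw [← Module.End.mul_apply, ← pow_add, ← Module.End.mul_apply, ← pow_add]
  congr 2
  omega

theorem B_Tm_Tm {x y : G} (hx : pk cf.T cf.m x = 0) (hy : pk cf.T cf.m y = 0) : cf.B x y = 0 := by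
  obtain ⟨x, rfl⟩ := (Submodule.Quotient.mk_eq_zero _).1 hx
  obtain ⟨y, rfl⟩ := (Submodule.Quotient.mk_eq_zero _).1 hy
  exact cf.B_pow_pow (by omega) x y

theorem finite_Qk (k : ℕ) : FiniteDimensional F (Qk cf.T k) := by
  induction k with
  | zero =>
    have : Subsingleton (Qk cf.T 0) := by
      refine Submodule.Quotient.subsingleton_iff.2 ?_
      rw [pow_zero]
      exact LinearMap.range_id
    infer_instance
  | succ k ih =>
    have := cf.fin
    have h1 : LinearMap.range cf.T ≤ (LinearMap.range (cf.T ^ (k + 1))).comap (cf.T ^ k) := by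
      rintro _ ⟨x, rfl⟩
      exact ⟨x, by rw [pow_succ, Module.End.mul_apply]⟩
    have h2 : LinearMap.range (cf.T ^ (k + 1)) ≤ (LinearMap.range (cf.T ^ k)).comap LinearMap.id := by
      rintro _ ⟨x, rfl⟩
      exact ⟨cf.T x, by rw [pow_succ, Module.End.mul_apply]; rfl⟩
    refine Module.Finite.of_exact (f := Submodule.mapQ _ _ (cf.T ^ k) h1)
      (g := Submodule.mapQ _ _ LinearMap.id h2) ?_ ?_
    · intro z
      obtain ⟨z, rfl⟩ := Submodule.Quotient.mk_surjective _ z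
      rw [Submodule.mapQ_apply, Submodule.Quotient.mk_eq_zero]
      constructor
      · rintro ⟨x, hx⟩
        exact ⟨Submodule.Quotient.mk x, by rw [Submodule.mapQ_apply, hx]; rfl⟩
      · rintro ⟨x, hx⟩
        obtain ⟨x, rfl⟩ := Submodule.Quotient.mk_surjective _ x
        rw [Submodule.mapQ_apply, Submodule.Quotient.eq] at hx
        obtain ⟨w, hw⟩ := hx
        refine ⟨x - cf.T w, ?_⟩
        rw [pow_succ, Module.End.mul_apply] at hw
        rw [map_sub, hw]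
        simp
    · intro z
      obtain ⟨z, rfl⟩ := Submodule.Quotient.mk_surjective _ z
      exact ⟨Submodule.Quotient.mk z, by rw [Submodule.mapQ_apply]; rfl⟩

theorem Compat.mul {cf : Coef F G} {L L' : Module.End F G} (h : cf.Compat L) (h' : cf.Compat L') :
    cf.Compat (L * L') := by
  refine ⟨h.1.mul_left h'.1, h.2.1.mul_left h'.2.1, fun x y => ?_⟩
  rw [Module.End.mul_apply, Module.End.mul_apply, h.2.2, h'.2.2]

theorem CompatT.pb {cf : Coef F G} {Y Y' : Type} {τ : Y → Y → Module.End F G} (h : cf.CompatT τ)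
    (j : Y' → Y) : cf.CompatT (pb j τ) := fun _ _ => h _ _

variable {Y : Type} [TopologicalSpace Y] {τ : Y → Y → Module.End F G}
  {J : (List Y → F) →ₗ[F] F} {S M : Set Y}

theorem _root_.Pool.Agent.HH.RForm.split {R E : Type} [CommRing R] [AddCommGroup E] [Module R E]
    {n : ℕ} {K : Set Y} {φ : List Y → E} (hK : K ⊆ M) (h₁ : φ ∈ N R E n (M ∩ S))
    (h₂ : φ ∈ N R E n (S \ K)) : φ ∈ N R E n S := by
  intro p hp
  by_cases h : p ∈ K
  · exact h₁ p ⟨hK h, hp⟩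
  · exact h₂ p ⟨hp, h⟩

theorem _root_.Pool.Agent.HH.RForm.J_eq (hJ : IsInt J S) {φ ψ : List Y → F}
    (h : φ - ψ ∈ N F F 4 S) : J φ = J ψ := by
  rw [← sub_eq_zero, ← map_sub]
  exact hJ.loc _ h

theorem _root_.Pool.Agent.HH.RForm.W_le {τ' : Y → Y → Module.End F G} (h : LocEq τ τ' (M ∩ S)) :
    cf.W τ S M ≤ cf.W τ' S M := by
  rintro a ⟨h0, K, hK, hKM, ha⟩
  refine ⟨RForm.split hKM ?_ (cm_mem_N _ (dT_mem_N τ' ha)), K, hK, hKM, ha⟩
  have h1 := Submodule.sub_mem _ (N_mono inter_subset_right h0)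
    (cm_mem_N (pk cf.T cf.m) (dT_congr h 3 a))
  rwa [map_sub, sub_sub_cancel] at h1

theorem _root_.Pool.Agent.HH.RForm.leib (hc : cf.CompatT τ) (hτ : IsCoc τ S) {p n : ℕ}
    (hn : p + 2 ≤ n) (a b : List Y → G) :
    dT (triv F F Y) (cup (biA cf.B) τ p a b) - cup (biA cf.B) τ (p + 1) (dT τ a) b -
      ((-1 : ℤ) ^ p) • cup (biA cf.B) τ p a (dT τ b) ∈ N F F n S :=
  cup_leibniz (biA cf.B) (fun x y e₁ e₂ => (hc x y).2.2 e₁ e₂) hτ hτ (isCoc_triv S) hn a b

omit [TopologicalSpace Y] in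
theorem _root_.Pool.Agent.HH.RForm.pk_tau (hc : cf.CompatT τ) (x y : Y) {e : G}
    (he : pk cf.T cf.m e = 0) : pk cf.T cf.m (τ x y e) = 0 := by
  rw [barE_pk (hc x y).1, he, map_zero]

theorem _root_.Pool.Agent.HH.RForm.cup_red (hc : cf.CompatT τ) {p q : ℕ} (hq : 1 ≤ q)
    {a b : List Y → G} (ha : cf.red a ∈ N F _ (p + 1) S) (hb : cf.red b ∈ N F _ q S) :
    cup (biA cf.B) τ p a b ∈ N F F (p + q) S :=
  cup_mem_N_ker (pk cf.T cf.m) (pk cf.T cf.m) (biA cf.B) τ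
    (fun x y _ _ h₁ h₂ => cf.B_Tm_Tm h₁ (RForm.pk_tau cf hc x y h₂)) hq ha hb

theorem _root_.Pool.Agent.HH.RForm.cup1e_red (hc : cf.CompatT τ) {a b : List Y → G}
    (ha : cf.red a ∈ N F _ 3 S) (hb : cf.red b ∈ N F _ 3 S) :
    cup1e (biA cf.B) τ a b ∈ N F F 4 S := by
  intro p hp
  obtain ⟨U, hU, h1⟩ := ha p hp
  obtain ⟨V, hV, h2⟩ := hb p hp
  refine ⟨U ∩ V, Filter.inter_mem hU hV, fun l hl hx => ?_⟩
  match l, hl with
  | [x, y, z, w], _ =>
    have hx' : x ∈ U ∩ V := hx x (by simp)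
    have hy : y ∈ U ∩ V := hx y (by simp)
    have hz : z ∈ U ∩ V := hx z (by simp)
    have hw : w ∈ U ∩ V := hx w (by simp)
    have e1 : cf.B (a [x, y, w]) (τ x y (b [y, z, w])) = 0 :=
      cf.B_Tm_Tm (h1 [x, y, w] rfl (by simp [hx'.1, hy.1, hw.1]))
        (RForm.pk_tau cf hc x y (h2 [y, z, w] rfl (by simp [hy.2, hz.2, hw.2])))
    have e2 : cf.B (a [x, z, w]) (b [x, y, z]) = 0 :=
      cf.B_Tm_Tm (h1 [x, z, w] rfl (by simp [hx'.1, hz.1, hw.1]))
        (h2 [x, y, z] rfl (by simp [hx'.2, hy.2, hz.2]))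
    change cf.B (a [x, y, w]) (τ x y (b [y, z, w])) - cf.B (a [x, z, w]) (b [x, y, z]) = 0
    rw [e1, e2, sub_zero]

theorem _root_.Pool.Agent.HH.RForm.lam_swap (hJ : IsInt J S) (hc : cf.CompatT τ)
    (hτ : IsCoc τ (M ∩ S)) {a b : List Y → G} (ha : a ∈ cf.W τ S M)
    (hb : cf.red (dT τ b) ∈ N F _ 3 (M ∩ S)) : cf.lam J τ a b = -star (cf.lam J τ b a) := by
  obtain ⟨ha0, K, -, hKM, ha⟩ := ha
  have ha1 := N_mono (S := M ∩ S) inter_subset_right ha0
  have h1 : dT (triv F F Y) (cup1 (biA cf.B) a (dT τ b)) + cup (biA cf.B) τ 1 a (dT τ b) -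
      cup (biA cf.B).flip τ 2 (dT τ b) a ∈ N F F 4 S := by
    refine RForm.split hKM ?_ ?_
    · have h := Submodule.add_mem _ (cup_one (biA cf.B) (τ₃ := triv F F Y)
        (fun x y e₁ e₂ => (hc x y).2.2 e₁ e₂) hτ hτ (isCoc_triv _) a (dT_dT_mem_N hτ 4 b))
        (RForm.cup1e_red cf hc ha1 hb)
      rwa [sub_add_cancel] at h
    · exact Submodule.sub_mem _ (Submodule.add_mem _ (dT_mem_N _ (cup1_mem_N_left _ ha _ 3))
        (cup_mem_N_left _ _ (by omega) ha _)) (cup_mem_N_right _ τ 2 _ ha)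
  have e1 : cup (biA cf.B).flip τ 2 (dT τ b) a =
      -fun l => star (cup (biA cf.B) τ 2 (dT τ b) a l) := by
    funext l
    exact cf.skew _ _
  have h2 : dT (triv F F Y) (cup (biA cf.B) τ 2 (dT τ b) a) ∈ N F F 5 S := by
    refine RForm.split hKM ?_ (dT_mem_N _ (cup_mem_N_right _ τ 2 _ ha))
    have g1 := RForm.leib cf hc hτ (p := 2) (n := 5) (by omega) (dT τ b) a
    have g2 : cup (biA cf.B) τ (2 + 1) (dT τ (dT τ b)) a ∈ N F F 5 (M ∩ S) :=
      cup_mem_N_left _ _ (by omega) (dT_dT_mem_N hτ _ b) _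
    have g3 := RForm.cup_red cf hc (p := 2) (q := 3) (by omega) hb ha1
    have g4 := Submodule.add_mem _ (Submodule.add_mem _ g1 g2)
      (Submodule.smul_of_tower_mem _ ((-1 : ℤ) ^ 2) g3)
    have e : ∀ u v w : List Y → F, u - v - w + v + w = u := fun u v w => by abel
    rwa [e] at g4
  have h3 : dT (triv F F Y) (cup (biA cf.B) τ 1 b a) - cup (biA cf.B) τ (1 + 1) (dT τ b) a -
      ((-1 : ℤ) ^ 1) • cup (biA cf.B) τ 1 b (dT τ a) ∈ N F F 4 S := by
    refine RForm.split hKM (RForm.leib cf hc hτ (by omega) b a) ?_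
    exact Submodule.sub_mem _ (Submodule.sub_mem _ (dT_mem_N _ (cup_mem_N_right _ τ 1 _ ha))
      (cup_mem_N_right _ τ 2 _ ha))
      (Submodule.smul_of_tower_mem _ _ (cup_mem_N_right _ τ 1 _ (dT_mem_N τ ha)))
  have k1 := hJ.loc _ h1
  have k3 := hJ.loc _ h3
  rw [map_sub, map_add, hJ.stokes, zero_add, e1, map_neg, hJ.conj _ h2, sub_eq_zero] at k1
  rw [pow_one, neg_one_zsmul, sub_neg_eq_add, map_add, map_sub, hJ.stokes, zero_sub,
    neg_add_eq_zero] at k3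
  rw [lam, lam, k1, ← k3]

theorem red_dT (hc : cf.CompatT τ) (a : List Y → G) :
    cf.red (dT τ a) = dT (cf.br τ) (cf.red a) := by
  exact cm_pk_dT (fun x y => (hc x y).1) cf.m a

theorem isCoc_br (hc : cf.CompatT τ) (hτ : IsCoc τ M) : IsCoc (cf.br τ) M := by
  exact IsCoc.bar (fun x y => (hc x y).1) cf.m hτ

theorem W_mono {M' : Set Y} (h : M ⊆ M') : cf.W τ S M ≤ cf.W τ S M' := by
  rintro a ⟨h0, K, hK, hKM, ha⟩
  exact ⟨h0, K, hK, hKM.trans h, ha⟩

theorem W_congr {τ' : Y → Y → Module.End F G} (h : LocEq τ τ' (M ∩ S)) :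
    cf.W τ S M = cf.W τ' S M := by
  exact le_antisymm (RForm.W_le cf h) (RForm.W_le cf h.symm)

theorem lam_congr_tau (hJ : IsInt J S) {τ' : Y → Y → Module.End F G} (h : LocEq τ τ' (M ∩ S))
    {a : List Y → G} (ha : a ∈ cf.W τ S M) (b : List Y → G) :
    cf.lam J τ a b = cf.lam J τ' a b := by
  obtain ⟨-, K, -, hKM, ha⟩ := ha
  refine RForm.J_eq hJ (RForm.split hKM ?_ ?_)
  · have h1 := cup_mem_N_right (R₃ := F) (biA cf.B) τ 1 a (dT_congr h 3 b)
    have h2 := cup_congr (R₃ := F) (biA cf.B) h 1 4 a (dT τ' b)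
    rw [cup_sub_right] at h1
    simpa only [sub_add_sub_cancel] using Submodule.add_mem _ h1 h2
  · exact Submodule.sub_mem _ (cup_mem_N_left _ _ (by omega) ha _)
      (cup_mem_N_left _ _ (by omega) ha _)

theorem lam_congr_left (hJ : IsInt J S) {a a' : List Y → G} (h : a - a' ∈ N F G 2 S)
    (b : List Y → G) : cf.lam J τ a b = cf.lam J τ a' b := by
  refine RForm.J_eq hJ ?_
  rw [← cup_sub_left]
  exact cup_mem_N_left _ _ (by omega) h _

theorem lam_congr_right (hJ : IsInt J S) (a : List Y → G) {b b' : List Y → G}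
    (h : b - b' ∈ N F G 2 S) : cf.lam J τ a b = cf.lam J τ a b' := by
  refine RForm.J_eq hJ ?_
  rw [← cup_sub_right, ← map_sub]
  exact cup_mem_N_right (biA cf.B) τ 1 a (dT_mem_N τ h)

/-- The integrand of the form is closed. -/
theorem lam_closed (hc : cf.CompatT τ) (hτ : IsCoc τ (M ∩ S)) {a b : List Y → G}
    (ha : a ∈ cf.W τ S M) (hb : cf.red (dT τ b) ∈ N F _ 3 (M ∩ S)) :
    dT (triv F F Y) (cup (biA cf.B) τ 1 a (dT τ b)) ∈ N F F 5 S := by
  obtain ⟨ha0, K, -, hKM, ha⟩ := ha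
  refine RForm.split hKM ?_ (dT_mem_N _ (cup_mem_N_left _ _ (by omega) ha _))
  have h1 := RForm.leib cf hc hτ (p := 1) (n := 5) (by omega) a (dT τ b)
  have h2 := RForm.cup_red cf hc (p := 2) (q := 3) (by omega)
    (N_mono inter_subset_right ha0) hb
  have h3 := cup_mem_N_right (R₃ := F) (biA cf.B) τ 1 a (dT_dT_mem_N hτ 4 b)
  have h4 := Submodule.add_mem _ (Submodule.add_mem _ h1 h2)
    (Submodule.smul_of_tower_mem _ ((-1 : ℤ) ^ 1) h3)
  have e : ∀ u v w : List Y → F, u - v - w + v + w = u := fun u v w => by abel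
  rwa [e] at h4

theorem isSkew_lam (hJ : IsInt J S) (hc : cf.CompatT τ) (hτ : IsCoc τ (M ∩ S)) :
    IsSkew (cf.lam J τ) (cf.W τ S M) := by
  refine ⟨fun a a' b => ?_, fun c a b => ?_, fun a b b' => ?_, fun c a b => ?_,
    fun a ha b hb => RForm.lam_swap cf hJ hc hτ hb (N_mono inter_subset_right ha.1)⟩
  · simp only [lam, cup_add_left, map_add]
  · have e : cup (biA cf.B) τ 1 (c • a) (dT τ b) = c • cup (biA cf.B) τ 1 a (dT τ b) := by
      funext l
      simp [cup, biA]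
    simp only [lam, e, map_smul, smul_eq_mul]
  · simp only [lam, map_add, cup_add_right]
  · have e : cup (biA cf.B) τ 1 a (dT τ (c • b)) = star c • cup (biA cf.B) τ 1 a (dT τ b) := by
      funext l
      simp [cup, biA, starRingEnd_apply]
    rw [lam, lam, e, map_smul, smul_eq_mul]

theorem lam_exa (hJ : IsInt J S) (hc : cf.CompatT τ) (hτ : IsCoc τ (M ∩ S)) {a b : List Y → G}
    (hb : b ∈ cf.W τ S M) (ha : Exa (cf.br τ) 2 (M ∩ S) (cf.red a)) : cf.lam J τ b a = 0 := by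
  obtain ⟨hb0, K, -, hKM, hb⟩ := hb
  obtain ⟨φ', hφ'⟩ := ha
  obtain ⟨φ, rfl, -⟩ := exists_cm_lift (pk cf.T cf.m) (Submodule.mkQ_surjective _) φ'
  have h0 : cf.red (a - dT τ φ) ∈ N F _ 2 (M ∩ S) := by
    rw [map_sub, cf.red_dT hc]
    exact hφ'
  obtain ⟨ψ, -, -, hψ⟩ := exists_div (cf.T ^ cf.m) (pk cf.T cf.m)
    (by rw [Submodule.ker_mkQ]) (a - dT τ φ)
  have h1 := dT_mem_N τ (hψ 2 _ h0)
  have h2 : dT τ a - dT τ (cm (cf.T ^ cf.m) ψ) ∈ N F G 3 (M ∩ S) := by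
    have h := Submodule.add_mem _ h1 (dT_dT_mem_N hτ 3 φ)
    rw [map_sub, map_sub] at h
    have e : ∀ u v w : List Y → G, u - v - w + v = u - w := fun u v w => by abel
    rwa [e] at h
  have hr : cf.red (cm (cf.T ^ cf.m) ψ) ∈ N F _ 2 (M ∩ S) := by
    have e : cf.red (cm (cf.T ^ cf.m) ψ) = 0 := by
      funext l
      exact (Submodule.Quotient.mk_eq_zero _).2 ⟨ψ l, rfl⟩
    rw [e]
    exact Submodule.zero_mem _
  have h3 := cup_mem_N_right (R₃ := F) (biA cf.B) τ 1 b h2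
  have h4 := RForm.leib cf hc hτ (p := 1) (n := 4) (by omega) b (cm (cf.T ^ cf.m) ψ)
  have h5 := RForm.cup_red cf hc (p := 2) (q := 2) (by omega)
    (N_mono inter_subset_right hb0) hr
  have h6 : cup (biA cf.B) τ 1 b (dT τ a) +
      dT (triv F F Y) (cup (biA cf.B) τ 1 b (cm (cf.T ^ cf.m) ψ)) ∈ N F F 4 S := by
    refine RForm.split hKM ?_ (Submodule.add_mem _ (cup_mem_N_left _ _ (by omega) hb _)
      (dT_mem_N _ (cup_mem_N_left _ _ (by omega) hb _)))
    have h := Submodule.add_mem _ (Submodule.add_mem _ h3 h4) h5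
    rw [cup_sub_right] at h
    have e : ∀ u v w z : List Y → F, u - v + (w - z - ((-1 : ℤ) ^ 1) • v) + z = u + w :=
      fun u v w z => by rw [pow_one, neg_one_zsmul]; abel
    rwa [e] at h
  have h7 := hJ.loc _ h6
  rwa [map_add, hJ.stokes, add_zero] at h7

theorem lam_two (hJ : IsInt J S) (hc : cf.CompatT τ) {b z : List Y → G} (hb : b ∈ cf.W τ S M)
    (hz : cm (pk cf.T (2 * cf.m)) (dT τ z) ∈ N F _ 3 (M ∩ S)) : cf.lam J τ b z = 0 := by
  obtain ⟨-, K, -, hKM, hb⟩ := hb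
  refine hJ.loc _ (RForm.split hKM ?_ (cup_mem_N_left _ _ (by omega) hb _))
  refine cup_mem_N_ker (0 : G →ₗ[F] G) (pk cf.T (2 * cf.m)) (biA cf.B) τ ?_ (p := 1) (q := 3)
    (by omega) ?_ hz
  · intro x y e₁ e₂ _ h₂
    refine (cf.ker_right _).2 ?_ e₁
    refine (Submodule.Quotient.mk_eq_zero _).1 ?_
    have h := barE_pk (hc x y).1 (2 * cf.m) e₂
    rw [h₂, map_zero] at h
    exact h
  · exact fun p _ => ⟨univ, Filter.univ_mem, fun _ _ _ => rfl⟩

theorem lam_disjoint (hJ : IsInt J S) {M' : Set Y} (hd : Disjoint M M') {a b : List Y → G}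
    (ha : a ∈ cf.W τ S M) (hb : b ∈ cf.W τ S M') : cf.lam J τ a b = 0 := by
  obtain ⟨-, K, -, hKM, ha⟩ := ha
  obtain ⟨-, K', -, hKM', hb⟩ := hb
  refine hJ.loc _ (mem_N_of_forall fun p hp => ?_)
  by_cases h : p ∈ K
  · exact ⟨S \ K', ⟨hp, fun h' => disjoint_left.1 hd (hKM h) (hKM' h')⟩,
      cup_mem_N_right (biA cf.B) τ 1 a (dT_mem_N τ hb)⟩
  · exact ⟨S \ K, ⟨hp, h⟩, cup_mem_N_left _ _ (by omega) ha _⟩

theorem isSkew3 {τ : S3 → S3 → Module.End F G} {M : Set S3} (hc : cf.CompatT τ)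
    (hτ : IsCoc τ M) : IsSkew (cf.lam3 τ) (cf.W3 τ M) := by
  exact cf.isSkew_lam isInt_I3 hc (hτ.mono inter_subset_left)

theorem lam3_exa {τ : S3 → S3 → Module.End F G} {M : Set S3} (hc : cf.CompatT τ)
    (hτ : IsCoc τ M) {a b : List S3 → G} (hb : b ∈ cf.W3 τ M)
    (ha : Exa (cf.br τ) 2 M (cf.red a)) : cf.lam3 τ b a = 0 := by
  exact cf.lam_exa isInt_I3 hc (hτ.mono inter_subset_left) hb (ha.mono inter_subset_left)

/-- Elements of `W3` that differ by exact cochains have the same pairings. -/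
theorem lam3_congr {τ : S3 → S3 → Module.End F G} {M : Set S3} (hc : cf.CompatT τ)
    (hτ : IsCoc τ M) {a a' b b' : List S3 → G} (ha : a ∈ cf.W3 τ M) (ha' : a' ∈ cf.W3 τ M)
    (hb : b ∈ cf.W3 τ M) (hb' : b' ∈ cf.W3 τ M) (h₁ : Exa (cf.br τ) 2 M (cf.red (a - a')))
    (h₂ : Exa (cf.br τ) 2 M (cf.red (b - b'))) : cf.lam3 τ a b = cf.lam3 τ a' b' := by
  have hs := cf.isSkew3 hc hτ
  have e₁ : cf.lam3 τ b a = cf.lam3 τ b a' := by
    rw [← sub_eq_zero, ← hs.sub_right]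
    exact cf.lam3_exa hc hτ hb h₁
  have e₂ : cf.lam3 τ a' b = cf.lam3 τ a' b' := by
    rw [← sub_eq_zero, ← hs.sub_right]
    exact cf.lam3_exa hc hτ ha' h₂
  have _ := hb'
  rw [hs.skew b hb a ha, e₁, ← hs.skew b hb a' ha', e₂]

end Coef

end Pool.Agent.HH
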