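import Pool.Agent.P.MP_c8dc46_gt.KCo
import Pool.Agent.P.MP_c8dc46_gt.PM
import Pool.Agent.P.MP_c8dc46_gt.Form

/-!
The longitude survives. The self-linking of the lifted generator is a multiple of the integral of
the triple product `a ∪ θ ∪ ā`, and this integral vanishes if `b` has trivial holonomy along the
longitude.
-/

open Set Topology

namespace Pool.Agent.HH

namespace RC0

section Alg

variable {F : Type} [Field F] {ζ : F}

/-- The expansion of `g ^ k` to the first order in `T = g - ζ`. -/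
def Exp (ζ : F) (k : ℤ) : Prop := ∀ x : ℤ →₀ F, ∃ y,
  shp F F k x = ζ ^ k • x + (k * ζ ^ (k - 1)) • Tm F F 1 ζ x + Tm F F 1 ζ (Tm F F 1 ζ y)

theorem shp_one (ζ : F) (x : ℤ →₀ F) : shp F F 1 x = Tm F F 1 ζ x + ζ • x := by
  simp [Tm]

theorem exp_add (hζ : ζ ≠ 0) {j k : ℤ} (hj : Exp ζ j) (hk : Exp ζ k) : Exp ζ (j + k) := by
  intro x
  obtain ⟨y, hy⟩ := hk x
  obtain ⟨y', hy'⟩ := hj (shp F F k x)
  refine ⟨ζ ^ j • y + (j * ζ ^ (j - 1)) • ((k * ζ ^ (k - 1)) • x + Tm F F 1 ζ y) + y', ?_⟩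
  have e : (((j + k : ℤ) : F) * ζ ^ (j + k - 1)) =
      ζ ^ j * (k * ζ ^ (k - 1)) + j * ζ ^ (j - 1) * ζ ^ k := by
    rw [zpow_sub_one₀ hζ, zpow_sub_one₀ hζ, zpow_sub_one₀ hζ, zpow_add₀ hζ]
    push_cast
    ring
  rw [shp_add, Module.End.mul_apply, hy', hy, e, zpow_add₀ hζ]
  simp only [map_add, map_smul]
  module

theorem exp_one (ζ : F) : Exp ζ 1 := fun x => ⟨0, by rw [shp_one ζ]; simp [add_comm]⟩

theorem exp_neg (hζ : ζ ≠ 0) : Exp ζ (-1) := by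
  intro x
  obtain ⟨u, hu⟩ : ∃ u, u = shp F F (-1) x := ⟨_, rfl⟩
  have hx : x = Tm F F 1 ζ u + ζ • u := by
    rw [← shp_one, hu, ← Module.End.mul_apply, ← shp_add]
    simp [shp_zero]
  refine ⟨(ζ⁻¹ * ζ⁻¹) • u, ?_⟩
  rw [← hu, zpow_sub_one₀ hζ, zpow_neg_one]
  rw [hx]
  simp only [map_add, map_smul]
  match_scalars
  · simp [hζ]
  · field_simp
    ring
  · ring

theorem exp_all (hζ : ζ ≠ 0) (k : ℤ) : Exp ζ k := by
  induction k using Int.induction_on with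
  | zero => exact fun x => ⟨0, by simp [shp_zero]⟩
  | succ k ih => exact exp_add hζ ih (exp_one ζ)
  | pred k ih => exact exp_add hζ ih (exp_neg hζ)

/-- The expansion on the image of `T ^ m`. -/
theorem exp_pow (hζ : ζ ≠ 0) (k : ℤ) (m : ℕ) (x : ℤ →₀ F) : ∃ y,
    shp F F k ((Tm F F 1 ζ ^ m) x) = ζ ^ k • (Tm F F 1 ζ ^ m) x +
      (k * ζ ^ (k - 1)) • (Tm F F 1 ζ ^ (m + 1)) x + (Tm F F 1 ζ ^ (m + 2)) y := by
  obtain ⟨y, hy⟩ := exp_all hζ k x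
  refine ⟨y, ?_⟩
  have hc := ((commute_shp_Tm (F := F) (W := F) k 1 ζ).pow_right m).eq
  rw [← Module.End.mul_apply, hc, Module.End.mul_apply, hy]
  simp only [map_add, map_smul, pow_succ, Module.End.mul_apply]

theorem exp_two (hζ : ζ ≠ 0) (j k : ℤ) (m : ℕ) (x : ℤ →₀ F) : ∃ y,
    shp F F j (shp F F k ((Tm F F 1 ζ ^ m) x) - ζ ^ k • (Tm F F 1 ζ ^ m) x) =
      (k * ζ ^ (j + k - 1)) • (Tm F F 1 ζ ^ (m + 1)) x + (Tm F F 1 ζ ^ (m + 2)) y := by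
  obtain ⟨y, hy⟩ := exp_pow hζ k m x
  obtain ⟨y', hy'⟩ := exp_pow hζ j (m + 1) x
  refine ⟨(k * ζ ^ (k - 1)) • ((j * ζ ^ (j - 1)) • x + Tm F F 1 ζ y') + shp F F j y, ?_⟩
  have hc := ((commute_shp_Tm (F := F) (W := F) j 1 ζ).pow_right (m + 2)).eq
  have h2 : shp F F j ((Tm F F 1 ζ ^ (m + 2)) y) = (Tm F F 1 ζ ^ (m + 2)) (shp F F j y) := by
    rw [← Module.End.mul_apply, hc, Module.End.mul_apply]
  have e : (k : F) * ζ ^ (j + k - 1) = k * ζ ^ (k - 1) * ζ ^ j := by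
    rw [zpow_sub_one₀ hζ, zpow_sub_one₀ hζ, zpow_add₀ hζ]
    ring
  have h3 : (Tm F F 1 ζ ^ (m + 1 + 2)) y' = (Tm F F 1 ζ ^ (m + 2)) (Tm F F 1 ζ y') := by
    rw [show m + 1 + 2 = m + 2 + 1 by omega, pow_succ, Module.End.mul_apply]
  rw [hy, add_assoc, add_sub_cancel_left, map_add, map_smul, hy', h2, e, h3]
  simp only [map_add, map_smul]
  module

end Alg

section Loc

variable {Y R E : Type} [TopologicalSpace Y] [CommRing R] [AddCommGroup E] [Module R E]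

theorem mem_N_four {S : Set Y} {φ : List Y → E}
    (h : ∀ p ∈ S, ∃ U ∈ 𝓝 p, ∀ x ∈ U, ∀ y ∈ U, ∀ z ∈ U, ∀ w ∈ U, φ [x, y, z, w] = 0) :
    φ ∈ N R E 4 S := by
  intro p hp
  obtain ⟨U, hU, h1⟩ := h p hp
  refine ⟨U, hU, fun l hl hm => ?_⟩
  match l, hl with
  | [x, y, z, w], _ =>
    exact h1 x (hm x (by simp)) y (hm y (by simp)) z (hm z (by simp)) w (hm w (by simp))

theorem mem_all {n : ℕ} {S S' : Set Y} {φ : List Y → E} (hs : S ⊆ S') (h : φ ∈ N R E n Sᶜ)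
    (h' : φ ∈ N R E n S') : φ ∈ N R E n (univ : Set Y) :=
  N_mono (fun p _ => (em (p ∈ S)).elim (fun hp => Or.inr (hs hp)) Or.inl) (mem_N_union.2 ⟨h, h'⟩)

end Loc

section Geo

variable {σ a ρ : ℝ}

theorem norm_x0 (hR : Rad a ρ) (hσ : σ = 1 ∨ σ = -1) : ‖((σ * a : ℝ) : ℂ)‖ = a := by
  have ha : 0 ≤ a := by linarith [hR.1]
  rw [Complex.norm_real, Real.norm_eq_abs]
  rcases hσ with rfl | rfl <;> simp [abs_of_nonneg ha]

theorem far_U (hR : Rad a ρ) (hσ : σ = 1 ∨ σ = -1) {p : S3} (hp : p ∈ Uk) :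
    8 * ρ ≤ ‖xc p - (σ * a : ℝ)‖ := by
  have h1 := norm_sub_norm_le (xc p) ((σ * a : ℝ) : ℂ)
  rw [(yc_eq_zero_iff p).1 hp, norm_x0 hR hσ] at h1
  linarith [hR.2.2]

theorem K_sub {r s : ℕ} (k : LK r s σ a ρ) (hR : Rad a ρ) (hσ : σ = 1 ∨ σ = -1) :
    k.K ⊆ k.F '' RB {x | ρ < ‖x - (σ * a : ℝ)‖} :=
  image_mono fun _ hp => lt_of_lt_of_le (by linarith [hR.2.1]) (far_U hR hσ hp)

theorem gen_U : IsGen ℝ Uk (th yc) := by
  have hx : ‖(1 / 2 : ℂ)‖ < 1 := by norm_num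
  refine isGen_of_one (γ := fib (1 / 2)) (isKnot_U.2 ▸ isKnot_U.1.flat)
    (isKnot_U.2 ▸ isKnot_U.1.isPreconnected)
    (isCocA_th (fun p _ => continuous_yc.continuousAt) fun p hp => hp) ?_
    (Or.inl (isHolA_yc_fib hx))
  exact (isMer_fib (B := univ) (by norm_num) hx isOpen_univ fun _ _ _ => trivial).mono
    (subset_univ _)

theorem lt_of_yc {p : S3} (h : yc p ≠ 0) : ‖xc p‖ < 1 :=
  lt_of_le_of_ne (norm_xc_le p) fun h' => h ((yc_eq_zero_iff p).2 h')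

/-- The radial retraction of the first coordinate. -/
noncomputable def px (x₀ : ℂ) (r : ℝ) (q : S3) : ℂ :=
  x₀ + (max r ‖xc q - x₀‖ : ℝ) * ((xc q - x₀) / ‖xc q - x₀‖)

/-- The radial retraction. -/
noncomputable def pr (x₀ : ℂ) (r : ℝ) (q : S3) : S3 := fib (px x₀ r q) (RFib.ang 0 (yc q))

variable {x₀ : ℂ} {r : ℝ} {q : S3}

theorem norm_px (h : xc q ≠ x₀) : ‖px x₀ r q - x₀‖ = max r ‖xc q - x₀‖ := by
  have h0 : ‖xc q - x₀‖ ≠ 0 := norm_ne_zero_iff.2 (sub_ne_zero.2 h)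
  rw [px, add_sub_cancel_left, norm_mul, norm_div, Complex.norm_real, Complex.norm_real, norm_norm,
    div_self h0, mul_one, Real.norm_of_nonneg (le_max_of_le_right (norm_nonneg _))]

theorem px_fix (h : xc q ≠ x₀) (h1 : r ≤ ‖xc q - x₀‖) : px x₀ r q = xc q := by
  have h0 : ((‖xc q - x₀‖ : ℝ) : ℂ) ≠ 0 :=
    Complex.ofReal_ne_zero.2 (norm_ne_zero_iff.2 (sub_ne_zero.2 h))
  rw [px, max_eq_right h1, mul_div_cancel₀ _ h0, add_sub_cancel]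

theorem px_lt (h1 : ‖x₀‖ + r < 1) (h : xc q ≠ x₀) (hy : yc q ≠ 0) : ‖px x₀ r q‖ < 1 := by
  rcases le_total r ‖xc q - x₀‖ with h2 | h2
  · rw [px_fix h h2]
    exact lt_of_yc hy
  · have := norm_sub_norm_le (px x₀ r q) x₀
    rw [norm_px h, max_eq_left h2] at this
    linarith

theorem pr_fix (h : xc q ≠ x₀) (h1 : r ≤ ‖xc q - x₀‖) : pr x₀ r q = q := by
  rw [pr, px_fix h h1, RFib.fib_ang]

theorem xc_pr (h1 : ‖x₀‖ + r < 1) (h : xc q ≠ x₀) (hy : yc q ≠ 0) : xc (pr x₀ r q) = px x₀ r q :=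
  xc_fib (px_lt h1 h hy).le _

theorem yc_pr (h1 : ‖x₀‖ + r < 1) (h : xc q ≠ x₀) (hy : yc q ≠ 0) :
    yc (pr x₀ r q) = (Real.sqrt (1 - ‖px x₀ r q‖ ^ 2) : ℝ) * (yc q / ‖yc q‖) := by
  have h0 : ((‖yc q‖ : ℝ) : ℂ) ≠ 0 := Complex.ofReal_ne_zero.2 (norm_ne_zero_iff.2 hy)
  rw [pr, yc_fib (px_lt h1 h hy).le, eq_div_of_mul_eq h0
    ((mul_comm _ _).trans (RFib.norm_ex_ang 0 (yc q)))]

theorem pr_cont (h1 : ‖x₀‖ + r < 1) (h : xc q ≠ x₀) (hy : yc q ≠ 0) :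
    ContinuousAt (pr x₀ r) q := by
  have hx : ContinuousAt xc q := continuous_xc.continuousAt
  have hy' : ContinuousAt yc q := continuous_yc.continuousAt
  have hn : ContinuousAt (fun q => ‖xc q - x₀‖) q := (hx.sub continuousAt_const).norm
  have h2 : ContinuousAt (px x₀ r) q := by
    refine continuousAt_const.add ((Complex.continuous_ofReal.continuousAt.comp
      (continuousAt_const.max hn)).mul ((hx.sub continuousAt_const).div
      (Complex.continuous_ofReal.continuousAt.comp hn) ?_))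
    exact Complex.ofReal_ne_zero.2 (norm_ne_zero_iff.2 (sub_ne_zero.2 h))
  have h3 : ContinuousAt (fun q => (px x₀ r q,
      (Real.sqrt (1 - ‖px x₀ r q‖ ^ 2) : ℝ) * (yc q / ‖yc q‖))) q := by
    refine h2.prodMk ((Complex.continuous_ofReal.continuousAt.comp
      (continuousAt_const.sub (h2.norm.pow 2)).sqrt).mul (hy'.div
      (Complex.continuous_ofReal.continuousAt.comp hy'.norm) ?_))
    exact Complex.ofReal_ne_zero.2 (norm_ne_zero_iff.2 hy)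
  rw [IsInducing.subtypeVal.continuousAt_iff]
  refine h3.congr ?_
  filter_upwards [hx.eventually_ne h, hy'.eventually_ne hy] with p hp hp'
  exact (Prod.ext (xc_pr h1 hp hp') (yc_pr h1 hp hp')).symm

theorem ne_of_pos (h : 0 < ‖xc q - x₀‖) : xc q ≠ x₀ := fun h' => by
  rw [h', sub_self, norm_zero] at h
  exact lt_irrefl _ h

/-- A cocycle on the collar with trivial holonomy along the longitude is a multiple of `θ`. -/
theorem collar' {r s : ℕ} (k : LK r s σ a ρ) (hR : Rad a ρ) (hσ : σ = 1 ∨ σ = -1) {F : Type}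
    [Field F] {b : S3 → S3 → F}
    (hb : IsCocA b (k.Kᶜ ∩ k.F '' RB {x | ρ < ‖x - (σ * a : ℝ)‖})) (hl : IsHolA b k.lam 0) :
    ∃ c : F, Exa (triv F F S3) 2 (k.F '' (RB {x | 2 * ρ < ‖x - (σ * a : ℝ)‖} \ Uk))
      (c1 b - c1 fun x y => th k.ϑ x y • c) := by
  have hρ := hR.2.1
  have h8 := hR.2.2
  have hn := norm_x0 hR hσ
  generalize hx₀ : ((σ * a : ℝ) : ℂ) = x₀ at *
  have h1 : ‖x₀‖ + 2 * ρ < 1 := by linarith
  have hoe : OE k.F (eta x₀)ᶜ := hx₀ ▸ k.oe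
  have hne : ∀ p ∈ (Uk ∪ eta x₀)ᶜ, xc p ≠ x₀ ∧ yc p ≠ 0 := fun p hp =>
    ⟨fun h => hp (Or.inr h), fun h => hp (Or.inl h)⟩
  have hge : ∀ p ∈ (Uk ∪ eta x₀)ᶜ, 2 * ρ ≤ ‖xc (pr x₀ (2 * ρ) p) - x₀‖ := fun p hp => by
    rw [xc_pr h1 (hne p hp).1 (hne p hp).2, norm_px (hne p hp).1]
    exact le_max_left _ _
  have hη : ∀ p ∈ (Uk ∪ eta x₀)ᶜ, pr x₀ (2 * ρ) p ∈ (eta x₀)ᶜ := fun p hp =>
    ne_of_pos (by linarith [hge p hp])
  have hc : IsCocA (pb (k.F ∘ pr x₀ (2 * ρ)) b) (Uk ∪ eta x₀)ᶜ := by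
    refine hb.pb (fun p hp => ?_) fun p hp => ⟨fun hK => ?_, _, ?_, rfl⟩
    · exact (hoe.cont.continuousAt (hoe.isOpen.mem_nhds (hη p hp))).comp
        (pr_cont h1 (hne p hp).1 (hne p hp).2)
    · have h2 := (yc_eq_zero_iff _).1 ((k.mem_K_iff hR hσ (hx₀ ▸ hη p hp)).1 hK)
      rw [xc_pr h1 (hne p hp).1 (hne p hp).2] at h2
      exact (px_lt h1 (hne p hp).1 (hne p hp).2).ne h2
    · exact lt_of_lt_of_le (by linarith) (hge p hp)
  have hl' : IsHolA (pb (k.F ∘ pr x₀ (2 * ρ)) b) (lon x₀ (5 * ρ / 2)) 0 := by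
    rw [isHolA_pb]
    convert hl using 1
    funext t
    have h2 : ‖xc (lon x₀ (5 * ρ / 2) t) - x₀‖ = 5 * ρ / 2 := by
      rw [xc_lon (by linarith) (by linarith), RFib.norm_pol_sub, abs_of_pos (by linarith)]
    simp only [LK.lam, Function.comp, hx₀]
    rw [pr_fix (ne_of_pos (by linarith)) (by linarith)]
  have hd : Disjoint Uk (RB (Metric.ball x₀ (3 * ρ))) := by
    refine disjoint_left.2 fun p hp hp' => ?_
    have h2 := far_U hR hσ hp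
    have h3 : ‖xc p - x₀‖ < 3 * ρ := mem_ball_iff_norm.1 hp'
    rw [hx₀] at h2
    linarith
  have hU := isKnot_U.2
  obtain ⟨c, hc'⟩ := hf_one isKnot_U.1 (h := th yc) (hU ▸ gen_U) (x₀ := x₀) (r := 5 * ρ / 2)
    (r' := 3 * ρ) (by linarith) (by linarith) (by linarith) (hU ▸ hd) (hU ▸ hc) hl'
  rw [hU] at hc'
  refine ⟨c, ?_⟩
  have ho : IsOpen (RB {x | 2 * ρ < ‖x - x₀‖} \ Uk) :=
    (isOpen_RB (isOpen_lt continuous_const (by fun_prop))).sdiff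
      (isClosed_eq continuous_yc continuous_const)
  have hs : ∀ p ∈ RB {x | 2 * ρ < ‖x - x₀‖} \ Uk, 2 * ρ < ‖xc p - x₀‖ := fun p hp => hp.1
  have hs' : ∀ p ∈ RB {x | 2 * ρ < ‖x - x₀‖} \ Uk, xc p ≠ x₀ := fun p hp =>
    ne_of_pos (by linarith [hs p hp])
  rw [← (hoe.mono ho hs').exa_iff, map_sub, RGen.pull_c1, RGen.pull_c1]
  refine cohA_iff.1 ((CohA.of_locEq fun p hp => ⟨_, ho.mem_nhds hp, fun x hx y hy => ?_⟩).trans
    ((hc'.mono fun p hp h => h.elim hp.2 (hs' p hp)).trans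
      (CohA.of_locEq fun p hp => ⟨_, ho.mem_nhds hp, fun x hx y hy => ?_⟩)))
  · simp only [pb, Function.comp, pr_fix (hs' x hx) (hs x hx).le, pr_fix (hs' y hy) (hs y hy).le]
  · have e : ∀ p ∈ RB {x | 2 * ρ < ‖x - x₀‖} \ Uk, ∃ t : ℝ, 0 < t ∧ (k.ϑ ∘ k.F) p = t * yc p :=
      fun p hp => ⟨‖yc p‖⁻¹, inv_pos.2 (norm_pos_iff.2 hp.2), by
        rw [Function.comp, k.exact p (by rw [hx₀]; linarith [hs p hp]) hp.2, div_eq_inv_mul,
          Complex.ofReal_inv]⟩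
    have e2 := congrFun (congrFun (th_pb k.F k.ϑ) x) y
    rw [th_congr (e x hx) (e y hy)] at e2
    exact congrArg (· • c) e2.symm

end Geo

end RC0

section

open RC0

variable {F : Type} [Field F] [StarRing F]

/-- The lift of the generator. -/
noncomputable def aHat (F : Type) [Field F] (ζ : F) (n : ℕ) (aS : S3 → S3 → F) :
    List S3 → (ℤ →₀ F) :=
  cm (LinearMap.toSpanSingleton F _ ((Tm F F 1 ζ ^ (n - 1)) (Finsupp.single 0 1))) (c1 aS)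

/-- The triple product `a ∪ θ ∪ ā`. -/
noncomputable def trip (ξ : Fˣ) (θ : S3 → S3 → ℤ) (a : S3 → S3 → F) : List S3 → F
  | [x, y, z, w] => a x y * (θ y z : F) * star (((ξ ^ (θ x y + θ y z) : Fˣ) : F) * a z w)
  | _ => 0

variable {r s : ℕ} {σ a ρ : ℝ} {k : LK r s σ a ρ} {ξ : Fˣ} {aS bS : S3 → S3 → F} {c₀ : F}

omit [StarRing F] in
theorem red_aHat (ζ : F) (n : ℕ) (aS : S3 → S3 → F) : cm (pk (Tm F F 1 ζ) n) (aHat F ζ n aS) =
    cm (LinearMap.toSpanSingleton F _ (soc F ζ n)) (c1 aS) := by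
  funext l
  simp [aHat, cm, soc]

theorem RC0.coc_loc (h : KCoc k ξ aS bS c₀) : ∀ p ∈ k.Kᶜ, ∃ U ∈ 𝓝 p, ∀ x ∈ U, ∀ y ∈ U, ∀ z ∈ U,
    aS x z = aS x y + ((ξ ^ th k.ϑ x y : Fˣ) : F) * aS y z ∧
      th k.ϑ x z = th k.ϑ x y + th k.ϑ y z := by
  intro p hp
  obtain ⟨U, hU, h1⟩ := mem_N_three.1 h.coc p hp
  obtain ⟨V, hV, h2⟩ := k.isCocA_th p hp
  refine ⟨U ∩ V, Filter.inter_mem hU hV, fun x hx y hy z hz =>
    ⟨?_, (h2 x hx.2 y hy.2 z hz.2).symm⟩⟩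
  have := h1 x hx.1 y hy.1 z hz.1
  rw [dT_three] at this
  simp only [zs, c1, LinearMap.smul_apply, Module.End.one_apply, smul_eq_mul] at this
  linear_combination -this

omit [StarRing F] in
theorem RC0.d_aHat {n : ℕ} {ζ : F} {w : ℤ} (hξ : (ξ : F) = ζ ^ w) {θ : S3 → S3 → ℤ} {x y z : S3}
    (h : aS x z = aS x y + ((ξ ^ θ x y : Fˣ) : F) * aS y z) :
    dT (zt (sh F F) fun x y => w * θ x y) (aHat F ζ n aS) [x, y, z] =
      aS y z • (shp F F (w * θ x y) ((Tm F F 1 ζ ^ (n - 1)) (Finsupp.single 0 1)) -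
        ζ ^ (w * θ x y) • (Tm F F 1 ζ ^ (n - 1)) (Finsupp.single 0 1)) := by
  rw [dT_three, zt_sh, zpow_mul, ← hξ, ← Units.val_zpow_eq_zpow_val]
  simp only [aHat, cm, c1, LinearMap.coe_mk, AddHom.coe_mk, LinearMap.toSpanSingleton_apply, h,
    map_smul]
  module

theorem RC0.ne_zero {n : ℕ} {ζ : F} (hp : CP F 1 n ζ) : ζ ≠ 0 := by
  rintro rfl
  simpa using hp.unit

theorem KCoc.aHat_mem (h : KCoc k ξ aS bS c₀) (hR : Rad a ρ) (hσ : σ = 1 ∨ σ = -1) {n : ℕ} {ζ : F}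
    (hp : CP F 1 n ζ) {w : ℤ} (hξ : (ξ : F) = ζ ^ w) :
    aHat F ζ n aS ∈ (cf1 hp).W3 (zt (sh F F) fun x y => w * th k.ϑ x y) (k.Oc (2 * ρ)) := by
  have hv : aHat F ζ n aS ∈ N F _ 2 _ := cm_mem_N _ h.van
  obtain ⟨h1, h2⟩ := k.isCompact_core (r'' := 2 * ρ) hR.2.1 (by linarith [hR.2.1])
  refine ⟨mem_all (K_sub k hR hσ) (mem_N_three.2 fun p hp' => ?_) (cm_mem_N _ (dT_mem_N _ hv)),
    _, h1, h2, N_mono (fun p hp' => not_not.1 hp'.2) hv⟩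
  obtain ⟨U, hU, h3⟩ := coc_loc h p hp'
  refine ⟨U, hU, fun x hx y hy z hz => ?_⟩
  obtain ⟨m, rfl⟩ : ∃ m, n = m + 1 := ⟨n - 1, by have := hp.mpos; omega⟩
  obtain ⟨u, hu⟩ := exp_pow (RC0.ne_zero hp) (w * th k.ϑ x y) m (Finsupp.single 0 1)
  change pk (Tm F F 1 ζ) (m + 1) (dT _ _ [x, y, z]) = 0
  rw [d_aHat hξ (h3 x hx y hy z hz).1, Nat.add_sub_cancel, hu, add_assoc, add_sub_cancel_left,
    map_smul]
  exact smul_eq_zero_of_right _ ((Submodule.Quotient.mk_eq_zero _).2 (Submodule.add_mem _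
    (Submodule.smul_mem _ _ ⟨_, rfl⟩) ⟨Tm F F 1 ζ u, by rw [pow_succ _ (m + 1)]; rfl⟩))

theorem KCoc.lam_aHat (h : KCoc k ξ aS bS c₀) (hR : Rad a ρ) (hσ : σ = 1 ∨ σ = -1) {n : ℕ} {ζ : F}
    (hp : CP F 1 n ζ) {w : ℤ} (hξ : (ξ : F) = ζ ^ w) : ∃ c : F,
    (cf1 hp).lam3 (zt (sh F F) fun x y => w * th k.ϑ x y) (aHat F ζ n aS) (aHat F ζ n aS) =
      c * I3 F (trip ξ (th k.ϑ) aS) := by
  obtain ⟨m, rfl⟩ : ∃ m, n = m + 1 := ⟨n - 1, by have := hp.mpos; omega⟩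
  have hζ := RC0.ne_zero hp
  refine ⟨w * star ζ⁻¹ * (cf1 hp).B ((Tm F F 1 ζ ^ m) (Finsupp.single 0 1))
    ((Tm F F 1 ζ ^ (m + 1)) (Finsupp.single 0 1)), ?_⟩
  rw [← smul_eq_mul, ← map_smul, ← sub_eq_zero, Coef.lam3, Coef.lam, ← map_sub]
  refine I3_loc (mem_all (K_sub k hR hσ) (mem_N_four fun p hp' => ?_) (mem_N_four fun p hp' => ?_))
  · obtain ⟨U, hU, h3⟩ := coc_loc h p hp'
    refine ⟨U, hU, fun x hx y hy z hz t ht => ?_⟩
    obtain ⟨u, hu⟩ := exp_two hζ (w * th k.ϑ x y) (w * th k.ϑ y z) m (Finsupp.single 0 1)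
    have h0 : (cf1 hp).B ((Tm F F 1 ζ ^ m) (Finsupp.single 0 1)) ((Tm F F 1 ζ ^ (m + 2)) u) = 0 :=
      (cf1 hp).B_pow_pow (by change 2 * (m + 1) ≤ _; omega) _ _
    have e : ((ξ ^ (th k.ϑ x y + th k.ϑ y z) : Fˣ) : F) = ζ ^ (w * th k.ϑ x y + w * th k.ϑ y z) := by
      rw [← mul_add, zpow_mul, ← hξ, Units.val_zpow_eq_zpow_val]
    rw [Pi.sub_apply, cup_one_cons, d_aHat hξ (h3 y hy z hz t ht).1, zt_sh, map_smul,
      Nat.add_sub_cancel, hu, zpow_sub_one₀ hζ]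
    simp only [biA, aHat, cm, c1, trip, AddMonoidHom.coe_mk, ZeroHom.coe_mk, LinearMap.coe_mk,
      AddHom.coe_mk, LinearMap.toSpanSingleton_apply, LinearMap.toAddMonoidHom_coe, map_smul,
      LinearMap.smul_apply, Nat.add_sub_cancel, map_add, h0, LinearMap.map_smulₛₗ, Pi.smul_apply,
      smul_eq_mul, e, starRingEnd_apply, star_mul', star_intCast]
    push_cast
    ring
  · obtain ⟨U, hU, h3⟩ := mem_N_two.1 h.van p hp'
    refine ⟨U, hU, fun x hx y hy z hz t ht => ?_⟩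
    have h4 : aS x y = 0 := h3 x hx y hy
    rw [Pi.sub_apply, cup_one_cons]
    simp [aHat, cm, c1, trip, h4]

theorem KCoc.trip_zero (h : KCoc k ξ aS bS c₀) (hR : Rad a ρ) (hσ : σ = 1 ∨ σ = -1)
    (hu : (ξ : F) * star (ξ : F) = 1) (h0 : c₀ = 0) : I3 F (trip ξ (th k.ϑ) aS) = 0 := by
  have hρ := hR.2.1
  have hb : IsCocA bS (k.Kᶜ ∩ k.F '' RB {x | ρ < ‖x - (σ * a : ℝ)‖}) := by
    intro p hp
    obtain ⟨U, hU, h1⟩ := h.cocb p hp.1
    obtain ⟨V, hV, h2⟩ := mem_N_two.1 h.van p hp.2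
    refine ⟨U ∩ V, Filter.inter_mem hU hV, fun x hx y hy z hz => ?_⟩
    have h4 : aS x y = 0 := h2 x hx.2 y hy.2
    rw [h1 x hx.1 y hy.1 z hz.1, h4, zero_mul, add_zero]
  obtain ⟨c, γ, hγ⟩ := collar' k hR hσ hb (h0 ▸ h.hol)
  obtain ⟨h1, h2⟩ := k.isCompact_core (r' := 3 * ρ) (r'' := 4 * ρ) (by linarith) (by linarith)
  generalize hT : (k.F '' RB {x | 3 * ρ < ‖x - (σ * a : ℝ)‖})ᶜ = T at h1 h2
  generalize hβ : (c1 bS - c1 fun x y => th k.ϑ x y • c) - dT (triv F F S3) γ = β at hγ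
  have hK : cut F F T β ∈ N F F 2 k.K := by
    refine N_mono (fun p hp hp' => ?_) (cut_mem_N_compl T 2 β)
    rw [h1.isClosed.closure_eq] at hp'
    exact k.Oc_subset hR hσ (by linarith) (h2 hp') hp
  have hKc : β - cut F F T β ∈ N F F 2 k.Kᶜ := by
    refine N_mono (fun p hp => ?_) (mem_N_union.2
      ⟨sub_cut_mem_N T (by norm_num) β, Submodule.sub_mem _ hγ (cut_mem_N T hγ)⟩)
    by_cases hp' : p ∈ k.Oc (3 * ρ)
    · refine Or.inl (interior_maximal ?_ (k.isOpen_Oc hR (by linarith)) hp')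
      rw [← hT]
      exact compl_subset_compl.2 (image_mono fun q hq => le_of_lt (a := 3 * ρ) hq)
    · obtain ⟨q, hq, rfl⟩ := not_not.1 hp'
      exact Or.inr ⟨q, ⟨lt_of_lt_of_le (b := 3 * ρ) (by linarith) hq, fun hU => hp ⟨q, hU, rfl⟩⟩,
        rfl⟩
  have hd : dT (triv F F S3) (c1 bS) - dT (triv F F S3) (cut F F T β) ∈ N F F 3 k.Kᶜ := by
    have h3 : dT (triv F F S3) (c1 fun x y => th k.ϑ x y • c) ∈ N F F 3 k.Kᶜ :=
      isCocA_iff.1 (RGen.coc_map (zmultiplesHom F c) k.isCocA_th)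
    have h4 := Submodule.add_mem _ (dT_mem_N (triv F F S3) hKc) h3
    rw [map_sub] at h4
    nth_rewrite 1 [← hβ] at h4
    rw [map_sub, map_sub, dT_triv_dT] at h4
    convert h4 using 1
    abel
  have hu' : ∀ j : ℤ, ((ξ ^ j : Fˣ) : F) * star ((ξ ^ j : Fˣ) : F) = 1 := fun j => by
    rw [Units.val_zpow_eq_zpow_val, star_zpow₀, ← mul_zpow, hu, one_zpow]
  set ψ : List S3 → F := fun l => match l with
    | [x, y, z] => (th k.ϑ x y : F) * aS x y * star (((ξ ^ th k.ϑ x y : Fˣ) : F) * aS y z)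
    | _ => 0 with hψ
  have h5 : trip ξ (th k.ϑ) aS + dT (triv F F S3) ψ -
      lc (triv F F S3) (th k.ϑ) (dT (triv F F S3) (c1 bS)) ∈ N F F 4 k.Kᶜ := by
    refine mem_N_four fun p hp => ?_
    obtain ⟨U, hU, h3⟩ := coc_loc h p hp
    obtain ⟨V, hV, h4⟩ := h.cocb p hp
    refine ⟨U ∩ V, Filter.inter_mem hU hV, fun x hx y hy z hz t ht => ?_⟩
    have e1 := h3 x hx.1 y hy.1 z hz.1
    have e2 := (h3 y hy.1 z hz.1 t ht.1).1
    have e3 := h4 y hy.2 z hz.2 t ht.2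
    have e4 := hu' (th k.ϑ x y)
    rw [Pi.sub_apply, Pi.add_apply, dT_four]
    change _ - th k.ϑ x y • (1 : Module.End F F) (dT _ _ [y, z, t]) = 0
    rw [dT_three]
    simp only [hψ, trip, triv, c1, Module.End.one_apply, e1.1, e1.2, e2, e3, zpow_add,
      Units.val_mul, star_mul', star_add, zsmul_eq_mul]
    push_cast at e4 ⊢
    linear_combination (-((th k.ϑ x y : F) + th k.ϑ y z) * aS y z *
      star ((ξ : F) ^ th k.ϑ y z) * star (aS z t)) * e4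
  have h6 : trip ξ (th k.ϑ) aS + dT (triv F F S3) ψ ∈ N F F 4 k.K := by
    refine mem_N_four fun p hp => ?_
    obtain ⟨U, hU, h3⟩ := mem_N_two.1 h.van p (K_sub k hR hσ hp)
    refine ⟨U, hU, fun x hx y hy z hz t ht => ?_⟩
    have e1 : aS x y = 0 := h3 x hx y hy
    have e2 : aS x z = 0 := h3 x hx z hz
    have e3 : aS y z = 0 := h3 y hy z hz
    rw [Pi.add_apply, dT_four]
    simp [hψ, trip, e1, e2, e3]
  have h7 : trip ξ (th k.ϑ) aS + dT (triv F F S3)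
      (ψ + lc (triv F F S3) (th k.ϑ) (cut F F T β)) ∈ N F F 4 (univ : Set S3) := by
    refine mem_all (S := k.K) subset_rfl ?_ ?_
    · have h8 := dT_lc_mem_N (isCoc_triv (R := F) (E := F) k.Kᶜ) k.isCocA_th 4 (cut F F T β)
      have h9 := Submodule.add_mem _ (Submodule.add_mem _ h5 h8)
        (lc_mem_N (triv F F S3) (th k.ϑ) hd)
      rw [map_sub] at h9
      convert h9 using 1
      rw [map_add]
      abel
    · rw [map_add, ← add_assoc]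
      exact Submodule.add_mem _ h6 (dT_mem_N _ (lc_mem_N _ _ hK))
  have h8 := I3_loc h7
  rwa [map_add, I3_stokes, add_zero] at h8

theorem KCoc.c0_ne (h : KCoc k ξ aS bS c₀) (hR : Rad a ρ) (hσ : σ = 1 ∨ σ = -1) {n : ℕ} {ζ : F}
    (hp : CP F 1 n ζ) {w : ℤ} (hξ : (ξ : F) = ζ ^ w)
    (hl : (cf1 hp).lam3 (zt (sh F F) fun x y => w * th k.ϑ x y) (aHat F ζ n aS)
      (aHat F ζ n aS) ≠ 0) : c₀ ≠ 0 := by
  intro h0
  obtain ⟨c, hc⟩ := h.lam_aHat hR hσ hp hξ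
  have hu : (ξ : F) * star (ξ : F) = 1 := by
    rw [hξ, star_zpow₀, ← mul_zpow, hp.unit, one_zpow]
  exact hl (by rw [hc, h.trip_zero hR hσ hu h0, mul_zero])

end

end Pool.Agent.HH
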