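import Pool.Agent.P.MP_c8dc46_gt.Convex

/-! Cohomology of a circle chart, computed on the convex set upstairs. -/

open Set Topology

namespace Pool.Agent.HH

variable {Y Y' : Type} [TopologicalSpace Y] [TopologicalSpace Y'] {R E : Type} [CommRing R]
  [AddCommGroup E] [Module R E] {W : Type} [NormedAddCommGroup W] [NormedSpace ℝ W]
  {Φ : ℝ × W → Y} {O : Set W}

theorem RCirc.nhds (h : IsCC Φ O) {q : ℝ × W} (hq : q ∈ univ ×ˢ O) {U : Set (ℝ × W)}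
    (hU : U ∈ 𝓝 q) : Φ '' U ∈ 𝓝 (Φ q) := by
  obtain ⟨V, h1, h2, h3⟩ := mem_nhds_iff.1
    (Filter.inter_mem hU ((isOpen_univ.prod h.isOpen).mem_nhds hq))
  exact Filter.mem_of_superset ((h.img V h2 fun x hx => (h1 hx).2).mem_nhds ⟨q, h3, rfl⟩)
    (image_mono fun x hx => (h1 hx).1)

theorem IsCC.isOpen_image (h : IsCC Φ O) : IsOpen (Φ '' (univ ×ˢ O)) := by
  exact h.img _ (isOpen_univ.prod h.isOpen) subset_rfl

theorem IsCC.isPreconnected (h : IsCC Φ O) : IsPreconnected (Φ '' (univ ×ˢ O)) := by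
  exact (convex_univ.prod h.convex).isPreconnected.image _ h.cont

theorem IsCC.mono (h : IsCC Φ O) {O' : Set W} (hO : IsOpen O') (hc : Convex ℝ O') (hs : O' ⊆ O) :
    IsCC Φ O' := by
  exact ⟨hO, hc, h.cont.mono (prod_mono_right hs), h.per,
    fun s s' w hw w' hw' => h.inj s s' w (hs hw) w' (hs hw'),
    fun V hV hV' => h.img V hV (hV'.trans (prod_mono_right hs))⟩

theorem IsCC.isLoop (h : IsCC Φ O) {o : W} (ho : o ∈ O) :
    IsLoop (fun s => Φ (s, o)) (Φ '' (univ ×ˢ O)) := by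
  exact ⟨h.cont.comp_continuous (by fun_prop) fun s => ⟨trivial, ho⟩, fun s => h.per s o,
    fun s => ⟨(s, o), ⟨trivial, ho⟩, rfl⟩⟩

theorem IsCC.comp (h : IsCC Φ O) {Ψ : Y → Y'} {U : Set Y} (hΨ : OE Ψ U)
    (hs : Φ '' (univ ×ˢ O) ⊆ U) : IsCC (Ψ ∘ Φ) O := by
  refine ⟨h.isOpen, h.convex, hΨ.cont.comp h.cont fun q hq => hs ⟨q, hq, rfl⟩,
    fun s w => congrArg Ψ (h.per s w), fun s s' w hw w' hw' e => h.inj s s' w hw w' hw'
      (hΨ.inj (hs ⟨_, ⟨trivial, hw⟩, rfl⟩) (hs ⟨_, ⟨trivial, hw'⟩, rfl⟩) e), fun V hV hV' => ?_⟩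
  rw [image_comp]
  exact hΨ.img _ (h.img V hV hV') ((image_mono hV').trans hs)

theorem IsCC.prod (h : IsCC Φ O) {I : Set ℝ} (hI : IsOpen I) (hc : Convex ℝ I) :
    IsCC (fun q : ℝ × (W × ℝ) => (Φ (q.1, q.2.1), q.2.2)) (O ×ˢ I) := by
  refine ⟨h.isOpen.prod hI, h.convex.prod hc, (h.cont.comp (by fun_prop)
    fun q hq => ⟨trivial, hq.2.1⟩).prodMk (by fun_prop), fun s w => Prod.ext (h.per s _) rfl,
    fun s s' w hw w' hw' e => ?_, fun V hV hV' => isOpen_iff_mem_nhds.2 ?_⟩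
  · obtain ⟨e1, e2⟩ := h.inj s s' _ hw.1 _ hw'.1 (congrArg Prod.fst e)
    exact ⟨Prod.ext e1 (Prod.ext_iff.1 e).2, e2⟩
  · rintro _ ⟨q, hq, rfl⟩
    obtain ⟨A, hA, B, hB, hAB⟩ := mem_nhds_prod_iff.1 ((hV.preimage
      (f := fun p : (ℝ × W) × ℝ => (p.1.1, p.1.2, p.2)) (by fun_prop)).mem_nhds
      (x := ((q.1, q.2.1), q.2.2)) hq)
    refine Filter.mem_of_superset (prod_mem_nhds (RCirc.nhds h ⟨trivial, (hV' hq).2.1⟩ hA) hB) ?_
    rintro ⟨_, t⟩ ⟨⟨a, ha, rfl⟩, ht⟩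
    exact ⟨_, hAB (show (a, t) ∈ A ×ˢ B from ⟨ha, ht⟩), rfl⟩

theorem IsCC.image_inter (h : IsCC Φ O) {O₁ O₂ : Set W} (h₁ : O₁ ⊆ O) (h₂ : O₂ ⊆ O) :
    Φ '' (univ ×ˢ O₁) ∩ Φ '' (univ ×ˢ O₂) = Φ '' (univ ×ˢ (O₁ ∩ O₂)) := by
  refine Subset.antisymm ?_ (subset_inter (image_mono (prod_mono_right inter_subset_left))
    (image_mono (prod_mono_right inter_subset_right)))
  rintro _ ⟨⟨q, hq, rfl⟩, q', hq', e⟩
  exact ⟨q, ⟨trivial, hq.2, (h.inj q'.1 q.1 _ (h₂ hq'.2) _ (h₁ hq.2) e).1 ▸ hq'.2⟩, rfl⟩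

namespace RCirc

variable {τ : Y → Y → Module.End R E}

theorem contAt (h : IsCC Φ O) : ∀ q ∈ univ ×ˢ O, ContinuousAt Φ q := fun _ hq =>
  h.cont.continuousAt ((isOpen_univ.prod h.isOpen).mem_nhds hq)

theorem coc {M : Type} [Monoid M] {f : Y → Y → M} (h : IsCC Φ O)
    (hf : IsCoc f (Φ '' (univ ×ˢ O))) : IsCoc (pb Φ f) (univ ×ˢ O) :=
  hf.pb (contAt h) (mapsTo_image _ _)

theorem pull_iff (h : IsCC Φ O) {n : ℕ} {a : List Y → E} :
    pull R E Φ a ∈ N R E n (univ ×ˢ O) ↔ a ∈ N R E n (Φ '' (univ ×ˢ O)) := by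
  refine ⟨fun ha => ?_, pull_mem_N (contAt h) (mapsTo_image _ _)⟩
  rintro _ ⟨q, hq, rfl⟩
  obtain ⟨U, hU, k⟩ := ha q hq
  refine ⟨_, nhds h hq hU, fun l hl hx => ?_⟩
  choose! f f1 f2 using hx
  have e := k (l.map f) (by rw [List.length_map, hl]) (List.forall_mem_map.2 f1)
  change a ((l.map f).map Φ) = 0 at e
  rwa [List.map_map, List.map_congr_left (f := Φ ∘ f) (g := id) f2, List.map_id] at e

theorem lc (g : ℝ → (Module.End R E)ˣ) (δ : ℝ → E)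
    (h : ∀ s, ∀ᶠ b in 𝓝 s, ((g s)⁻¹ * g b).1 (δ b) = δ s) (s : ℝ) :
    (g s).1 (δ s) = (g 0).1 (δ 0) := by
  refine ((IsLocallyConstant.iff_eventually_eq fun s => (g s).1 (δ s)).2 fun s =>
    (h s).mono fun b hb => ?_).apply_eq_of_preconnectedSpace s 0
  rw [← hb, ← Module.End.mul_apply, ← Units.val_mul, mul_inv_cancel_left]

theorem fixed (h : IsCC Φ O) {o : W} (ho : o ∈ O) {η : Module.End R E}
    (hη : IsHol τ (fun s => Φ (s, o)) η) {σ : List Y → E}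
    (hσ : dT τ σ ∈ N R E 2 (Φ '' (univ ×ˢ O))) : η (σ [Φ (0, o)]) = σ [Φ (0, o)] := by
  obtain ⟨g, g0, hg, g1⟩ := hη
  have e := lc g (fun s => σ [Φ (s, o)]) (fun s => by
    obtain ⟨U, hU, h1⟩ := hg s
    obtain ⟨V, hV, h2⟩ := mem_N_two.1 hσ _ ((h.isLoop ho).2.2 s)
    filter_upwards [hU, (h.isLoop ho).1.continuousAt hV] with b b1 b2
    rw [← h1 s (mem_of_mem_nhds hU) b b1, ← sub_eq_zero, ← dT_two]
    exact h2 _ (mem_of_mem_nhds hV) _ b2) (0 + 1)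
  rwa [g1, h.per, g0, Units.val_one, mul_one] at e

theorem triv (h : IsCC Φ O) (hτ : IsCoc τ (Φ '' (univ ×ˢ O))) {o : W} (ho : o ∈ O) :
    ∃ g : ℝ × W → (Module.End R E)ˣ, g (0, o) = 1 ∧
      LocEq (pb Φ τ) (fun x y => ((g x)⁻¹ * g y).1) (univ ×ˢ O) ∧
      IsHol τ (fun s => Φ (s, o)) (g (0 + 1, o)).1 := by
  obtain ⟨g, g0, hg⟩ := exists_triv (isOpen_univ.prod h.isOpen) (convex_univ.prod h.convex)
    (coc h hτ) (0, o)
  have k : ∀ t : ℝ, LocEq (fun a b => τ (Φ (a + t, o)) (Φ (b + t, o)))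
      (fun a b => ((g (a + t, o))⁻¹ * g (b + t, o)).1) univ := fun t =>
    hg.pb (j := fun a : ℝ => (a + t, o)) (fun _ _ => by fun_prop) fun _ _ => ⟨trivial, ho⟩
  have k0 := k 0
  have k1 := k 1
  simp only [add_zero, h.per] at k0 k1
  refine ⟨g, g0, hg, fun s => g (s, o), g0, fun s => k0 s trivial, fun s => ?_⟩
  have e := triv_unique isPreconnected_univ (g := fun s => g (s, o)) (g' := fun s => g (s + 1, o))
    (fun p hp => by
      obtain ⟨U, hU, k⟩ := (k0.symm.trans k1) p hp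
      exact ⟨U, hU, fun a ha b hb => Units.ext (k a ha b hb)⟩) (mem_univ s) (mem_univ 0)
  rw [g0, inv_one, mul_one, mul_inv_eq_iff_eq_mul] at e
  exact congrArg Units.val e

theorem adj {Z : Type} [TopologicalSpace Z] {f : Z → Z → Module.End R E} {D : Set Z}
    {g : Z → (Module.End R E)ˣ} (hg : LocEq f (fun x y => ((g x)⁻¹ * g y).1) D) {a y : List Z → E}
    (hy : a - dT f y ∈ N R E 2 D) (e : E) :
    a - dT f (y + c0 fun x => (g x)⁻¹.1 e) ∈ N R E 2 D := by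
  rw [map_add, ← sub_sub]
  refine Submodule.sub_mem _ hy (mem_N_two.2 fun p hp => ?_)
  obtain ⟨U, hU, k⟩ := hg p hp
  refine ⟨U, hU, fun x hx z hz => ?_⟩
  rw [dT_two, k x hx z hz]
  simp only [c0]
  rw [← Module.End.mul_apply, ← Units.val_mul, mul_inv_cancel_right, sub_self]

theorem desc (h : IsCC Φ O) (hτ : IsCoc τ (Φ '' (univ ×ˢ O))) {a : List Y → E}
    {y : List (ℝ × W) → E} (hy : pull R E Φ a - dT (pb Φ τ) y ∈ N R E 2 (univ ×ˢ O)) {o : W}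
    (ho : o ∈ O) (h0 : y [(0 + 1, o)] = y [(0, o)]) :
    ∃ y₀, a - dT τ y₀ ∈ N R E 2 (Φ '' (univ ×ˢ O)) ∧ ∀ q ∈ univ ×ˢ O, y₀ [Φ q] = y [q] := by
  have e : Φ ∘ (fun q : ℝ × W => (q.1 + 1, q.2)) = Φ := funext fun q => h.per q.1 q.2
  have h1 := pull_mem_N (j := fun q : ℝ × W => (q.1 + 1, q.2)) (S' := univ ×ˢ O)
    (fun _ _ => by fun_prop) (fun q hq => mk_mem_prod (mem_univ _) hq.2) hy
  rw [map_sub, pull_pull, pull_dT, e, show pb (fun q : ℝ × W => (q.1 + 1, q.2)) (pb Φ τ) = pb Φ τ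
    from congrArg (fun j => pb j τ) e] at h1
  have h2 := Submodule.sub_mem _ hy h1
  rw [sub_sub_sub_cancel_left, ← map_sub] at h2
  have h3 := mem_N_one.1 (par_zero (coc h hτ) (convex_univ.prod h.convex).isPreconnected h2
    (p := (0, o)) ⟨trivial, ho⟩ (sub_eq_zero.2 h0))
  have h4 : ∀ w ∈ O, Function.Periodic (fun s : ℝ => y [(s, w)]) 1 := fun w hw s =>
    sub_eq_zero.1 (h3 (s, w) ⟨trivial, hw⟩).self_of_nhds
  have h5 : ∀ q ∈ univ ×ˢ O, y [Function.invFunOn Φ (univ ×ˢ O) (Φ q)] = y [q] := by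
    intro q hq
    obtain ⟨k1, k2⟩ := Function.invFunOn_pos (f := Φ) ⟨q, hq, rfl⟩
    generalize Function.invFunOn Φ (univ ×ˢ O) (Φ q) = q' at k1 k2
    obtain ⟨s, w⟩ := q
    obtain ⟨s', w'⟩ := q'
    obtain ⟨rfl, n, rfl⟩ := h.inj s' s w' k1.2 w hq.2 k2
    simpa using ((h4 _ hq.2).int_mul n s').symm
  refine ⟨c0 fun p => y [Function.invFunOn Φ (univ ×ˢ O) p], (pull_iff h).1 ?_, h5⟩
  have h6 := Submodule.sub_mem _ hy (dT_mem_N (pb Φ τ) (φ := pull R E Φ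
    (c0 fun p => y [Function.invFunOn Φ (univ ×ˢ O) p]) - y) (mem_N_one.2 fun p hp =>
      Filter.mem_of_superset ((isOpen_univ.prod h.isOpen).mem_nhds hp)
        fun q hq => sub_eq_zero.2 (h5 q hq)))
  rwa [map_sub, sub_sub, add_sub_cancel, ← pull_dT, ← map_sub] at h6

theorem prim [FiniteDimensional ℝ W] (h : IsCC Φ O) (hτ : IsCoc τ (Φ '' (univ ×ˢ O)))
    {a : List Y → E} (ha : dT τ a ∈ N R E 3 (Φ '' (univ ×ˢ O))) :
    ∃ y, pull R E Φ a - dT (pb Φ τ) y ∈ N R E 2 (univ ×ˢ O) :=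
  acyc_convex (isOpen_univ.prod h.isOpen) (convex_univ.prod h.convex) (coc h hτ) le_rfl _
    (pull_dT Φ τ a ▸ (pull_iff h).2 ha)

end RCirc

variable [FiniteDimensional ℝ W]

theorem IsCC.acyc0 (h : IsCC Φ O) {τ : Y → Y → Module.End R E}
    (hτ : IsCoc τ (Φ '' (univ ×ˢ O))) {o : W} (ho : o ∈ O) {η : Module.End R E}
    (hη : IsHol τ (fun s => Φ (s, o)) η) (hi : Function.Injective (η - 1 : Module.End R E)) :
    Acyc0 τ (Φ '' (univ ×ˢ O)) := by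
  intro φ hφ
  refine par_zero hτ h.isPreconnected hφ ⟨(0, o), ⟨trivial, ho⟩, rfl⟩ (hi ?_)
  rw [map_zero, LinearMap.sub_apply, RCirc.fixed h ho hη hφ, Module.End.one_apply, sub_self]

theorem IsCC.acyc1 (h : IsCC Φ O) {τ : Y → Y → Module.End R E}
    (hτ : IsCoc τ (Φ '' (univ ×ˢ O))) {o : W} (ho : o ∈ O) {η : Module.End R E}
    (hη : IsHol τ (fun s => Φ (s, o)) η) (hi : Function.Surjective (η - 1 : Module.End R E)) :
    Acyc τ 2 (Φ '' (univ ×ˢ O)) := by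
  intro a ha
  obtain ⟨g, g0, hg, g1⟩ := RCirc.triv h hτ ho
  obtain ⟨y, hy⟩ := RCirc.prim h hτ ha
  obtain ⟨e, he⟩ := hi (y [(0 + 1, o)] - y [(0, o)])
  obtain ⟨y₀, h₀, -⟩ := RCirc.desc h hτ (RCirc.adj hg hy (η e)) ho (by
    rw [hη.unique g1] at he ⊢
    simp only [Pi.add_apply, c0, g0, inv_one, Units.val_one, Module.End.one_apply,
      ← Module.End.mul_apply, Units.inv_mul, LinearMap.sub_apply] at he ⊢
    rw [← sub_eq_iff_eq_add', add_sub_right_comm, ← he, sub_add_cancel, one_mul])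
  exact ⟨y₀, h₀⟩

theorem IsCC.par_fixed (h : IsCC Φ O) {τ : Y → Y → Module.End R E} {o : W} (ho : o ∈ O)
    {η : Module.End R E} (hη : IsHol τ (fun s => Φ (s, o)) η) {σ : List Y → E}
    (hσ : dT τ σ ∈ N R E 2 (Φ '' (univ ×ˢ O))) : η (σ [Φ (0, o)]) = σ [Φ (0, o)] := by
  exact RCirc.fixed h ho hη hσ

theorem IsCC.exists_par (h : IsCC Φ O) {τ : Y → Y → Module.End R E}
    (hτ : IsCoc τ (Φ '' (univ ×ˢ O))) {o : W} (ho : o ∈ O) {η : Module.End R E}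
    (hη : IsHol τ (fun s => Φ (s, o)) η) {e : E} (he : η e = e) :
    ∃ σ, dT τ σ ∈ N R E 2 (Φ '' (univ ×ˢ O)) ∧ σ [Φ (0, o)] = e := by
  obtain ⟨g, g0, hg, g1⟩ := RCirc.triv h hτ ho
  obtain ⟨y₀, h₀, h₁⟩ := RCirc.desc h hτ (a := 0)
    (RCirc.adj hg (y := 0) (by simp) e) ho (by
      rw [hη.unique g1] at he
      simp only [Pi.add_apply, c0, g0, inv_one, Units.val_one, Module.End.one_apply]
      conv_lhs => rw [← he, ← Module.End.mul_apply, Units.inv_mul, Module.End.one_apply]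
      rfl)
  refine ⟨y₀, by simpa using h₀, ?_⟩
  rw [h₁ _ ⟨trivial, ho⟩]
  simp [c0, g0]

/-- A cocycle that is exact along one fibre is exact. -/
theorem IsCC.exa_of_exL (h : IsCC Φ O) {τ : Y → Y → Module.End R E}
    (hτ : IsCoc τ (Φ '' (univ ×ˢ O))) {o : W} (ho : o ∈ O) {a : List Y → E}
    (ha : dT τ a ∈ N R E 3 (Φ '' (univ ×ˢ O))) (hl : ExL τ a (fun s => Φ (s, o))) :
    Exa τ 2 (Φ '' (univ ×ˢ O)) a := by
  obtain ⟨g, g0, hg, -⟩ := RCirc.triv h hτ ho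
  obtain ⟨y, hy⟩ := RCirc.prim h hτ ha
  obtain ⟨β, hβ, hβ'⟩ := hl
  have e := RCirc.lc (fun s => g (s, o)) (fun s => β s - y [(s, o)]) (fun s => by
    obtain ⟨U, hU, h1⟩ := hβ' s
    obtain ⟨V, hV, h2⟩ := mem_N_two.1 hy (s, o) ⟨trivial, ho⟩
    obtain ⟨V', hV', h3⟩ := hg (s, o) ⟨trivial, ho⟩
    filter_upwards [hU, (Continuous.prodMk_left o).continuousAt (Filter.inter_mem hV hV')]
      with b b1 b2
    have k := h2 _ (mem_of_mem_nhds hV) _ b2.1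
    rw [Pi.sub_apply, dT_two, sub_eq_zero] at k
    have k' := (h1 s (mem_of_mem_nhds hU) b b1).symm.trans k
    refine (LinearMap.congr_fun (h3 _ (mem_of_mem_nhds hV') _ b2.2) _).symm.trans ?_
    rw [map_sub]
    exact sub_eq_sub_iff_sub_eq_sub.1 k') (0 + 1)
  obtain ⟨y₀, h₀, -⟩ := RCirc.desc h hτ (RCirc.adj hg hy (β 0 - y [(0, o)])) ho (by
    simp only [g0, Units.val_one, Module.End.one_apply] at e
    simp only [Pi.add_apply, c0, g0, inv_one, Units.val_one, Module.End.one_apply]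
    conv_lhs => rw [← e, ← Module.End.mul_apply, Units.inv_mul, Module.End.one_apply, hβ]
    abel)
  exact ⟨y₀, h₀⟩

/-- Primitives on a smaller chart extend. -/
theorem IsCC.ext (h : IsCC Φ O) {τ : Y → Y → Module.End R E}
    (hτ : IsCoc τ (Φ '' (univ ×ˢ O))) {O' : Set W} (hO : IsOpen O') (hc : Convex ℝ O')
    (hne : O'.Nonempty) (hs : O' ⊆ O) {a y : List Y → E}
    (ha : dT τ a ∈ N R E 3 (Φ '' (univ ×ˢ O)))
    (hy : a - dT τ y ∈ N R E 2 (Φ '' (univ ×ˢ O'))) :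
    ∃ y', a - dT τ y' ∈ N R E 2 (Φ '' (univ ×ˢ O)) ∧ y' - y ∈ N R E 1 (Φ '' (univ ×ˢ O')) := by
  obtain ⟨o, ho⟩ := hne
  have h' := h.mono hO hc hs
  obtain ⟨g, g0, hg, -⟩ := RCirc.triv h hτ (hs ho)
  obtain ⟨z, hz⟩ := RCirc.prim h hτ ha
  have hz' := RCirc.adj hg hz (y [Φ (0, o)] - z [(0, o)])
  set z' := z + c0 fun x => (g x)⁻¹.1 (y [Φ (0, o)] - z [(0, o)]) with e
  have h1 := (RCirc.pull_iff h').2 hy
  rw [map_sub, pull_dT] at h1
  have h2 := Submodule.sub_mem _ h1 (N_mono (prod_mono_right hs) hz')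
  rw [sub_sub_sub_cancel_left, ← map_sub] at h2
  have h3 := mem_N_one.1 (par_zero ((RCirc.coc h hτ).mono (prod_mono_right hs))
    (convex_univ.prod hc).isPreconnected h2 (p := (0, o)) ⟨trivial, ho⟩ (by
      simp [e, c0, g0, pull]))
  have h4 : ∀ q ∈ univ ×ˢ O', z' [q] = y [Φ q] := fun q hq =>
    sub_eq_zero.1 (h3 q hq).self_of_nhds
  obtain ⟨y₀, h₀, h₁⟩ := RCirc.desc h hτ hz' (hs ho) (by
    rw [h4 _ ⟨trivial, ho⟩, h4 _ ⟨trivial, ho⟩, h.per])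
  refine ⟨y₀, h₀, mem_N_one.2 fun p hp => ?_⟩
  filter_upwards [h'.isOpen_image.mem_nhds hp]
  rintro _ ⟨q, hq, rfl⟩
  rw [Pi.sub_apply, h₁ q ⟨trivial, hs hq.2⟩, h4 q hq, sub_self]

/-- Additive cocycles on a circle chart are classified by their holonomy. -/
theorem IsCC.cohA_of_hol {A : Type} [AddCommGroup A] (h : IsCC Φ O) {x x' : Y → Y → A}
    (hx : IsCocA x (Φ '' (univ ×ˢ O))) (hx' : IsCocA x' (Φ '' (univ ×ˢ O))) {o : W} (ho : o ∈ O)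
    {c : A} (h₁ : IsHolA x (fun s => Φ (s, o)) c) (h₂ : IsHolA x' (fun s => Φ (s, o)) c) :
    CohA x x' (Φ '' (univ ×ˢ O)) := by
  obtain ⟨φ, hφ⟩ := h.exa_of_exL (R := ℤ) (τ := triv ℤ A Y)
    (isCoc_triv _) ho
    (a := c1 fun p q => x p q - x' p q) (mem_N_three.2 fun p hp => by
      obtain ⟨U, hU, k⟩ := hx p hp
      obtain ⟨V, hV, k'⟩ := hx' p hp
      refine ⟨_, Filter.inter_mem hU hV, fun a ha b hb c hc => ?_⟩
      rw [dT_three]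
      simp only [c1, triv, Module.End.one_apply, ← k a ha.1 b hb.1 c hc.1,
        ← k' a ha.2 b hb.2 c hc.2]
      abel) (exL_triv_iff.2 (sub_self c ▸ h₁.sub h₂))
  refine ⟨fun p => φ [p], fun p hp => ?_⟩
  obtain ⟨U, hU, k⟩ := mem_N_two.1 hφ p hp
  refine ⟨U, hU, fun a ha b hb => ?_⟩
  have e := k a ha b hb
  rw [Pi.sub_apply, dT_two, sub_eq_zero] at e
  exact e

end Pool.Agent.HH
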