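import Pool.Agent.P.MP_c8dc46_gt.FDefs

/-!
The model coefficient data: the cyclic module `W[g, g⁻¹]` with `T = g ^ p - z₀` and its skew
hermitian form `Bm`, whose kernel is the range of `T ^ (2 m)`.
-/

open Set

namespace Pool.Agent.HH

section

variable {F W : Type} [CommRing F] [AddCommGroup W] [Module F W]

theorem shp_single (k j : ℤ) (w : W) :
    shp F W k (Finsupp.single j w) = Finsupp.single (j + k) w := by
  induction k using Int.induction_on generalizing j with
  | zero => simp [shp]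
  | succ k ih =>
    have h1 : shp F W ((k : ℤ) + 1) = shp F W k * (sh F W).1 := by
      simp [shp, zpow_add_one]
    have h2 : (sh F W).1 (Finsupp.single j w) = Finsupp.single (j + 1) w := by
      simp [sh, Finsupp.mapDomain_single]
    rw [h1, Module.End.mul_apply, h2, ih]
    congr 1
    ring
  | pred k ih =>
    have h1 : shp F W (-(k : ℤ) - 1) = shp F W (-k) * (sh F W).2 := by
      simp only [shp, zpow_sub_one, Units.val_mul]
      rfl
    have h2 : (sh F W).2 (Finsupp.single j w) = Finsupp.single (j - 1) w := by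
      simp [sh, Finsupp.mapDomain_single]
    rw [h1, Module.End.mul_apply, h2, ih]
    congr 1
    ring

theorem shp_apply (k j : ℤ) (x : ℤ →₀ W) : shp F W k x j = x (j - k) := by
  induction x using Finsupp.induction_linear with
  | zero => simp
  | add x y hx hy => simp [hx, hy]
  | single a w =>
    rw [shp_single]
    simp only [Finsupp.single_apply]
    congr 1
    apply propext
    constructor <;> intro h <;> omega

theorem shp_add (k k' : ℤ) : shp F W (k + k') = shp F W k * shp F W k' := by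
  simp [shp, zpow_add]

theorem shp_zero : shp F W 0 = 1 := by
  simp [shp]

theorem shp_pow (k : ℤ) (n : ℕ) : shp F W k ^ n = shp F W (k * n) := by
  simp only [shp]
  rw [← Units.val_pow_eq_pow_val, ← zpow_natCast, ← zpow_mul]

theorem zt_sh {Y : Type} (h : Y → Y → ℤ) (x y : Y) : zt (sh F W) h x y = shp F W (h x y) := rfl

theorem commute_shp_Tm (k : ℤ) (p : ℕ) (z₀ : F) : Commute (shp F W k) (Tm F W p z₀) := by
  unfold Tm
  refine Commute.sub_right ?_ ((Commute.one_right _).smul_right _)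
  unfold Commute SemiconjBy
  rw [← shp_add, ← shp_add, add_comm]

theorem Tm_injective {p : ℕ} (hp : 0 < p) (z₀ : F) : Function.Injective (Tm F W p z₀) := by
  rw [injective_iff_map_eq_zero]
  intro x hx
  by_contra hne
  have hs : x.support.Nonempty := Finsupp.support_nonempty_iff.mpr hne
  have hmem := x.support.max'_mem hs
  have hout : x (x.support.max' hs + p) = 0 := by
    by_contra h
    have := x.support.le_max' _ (Finsupp.mem_support_iff.mpr h)
    omega
  have h1 := DFunLike.congr_fun hx (x.support.max' hs + p)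
  simp only [Tm, LinearMap.sub_apply, LinearMap.smul_apply, Module.End.one_apply,
    Finsupp.coe_sub, Pi.sub_apply, shp_apply, Finsupp.coe_smul, Pi.smul_apply, hout, smul_zero,
    sub_zero, add_sub_cancel_right, Finsupp.coe_zero, Pi.zero_apply] at h1
  exact Finsupp.mem_support_iff.mp hmem h1

end

theorem aa_neg {m : ℕ} (hm : 0 < m) (j : ℤ) : aa m (-j) = -aa m j := by
  have h1 : Units.map (PowerSeries.rescale (-1 : ℤ)).toMonoidHom cay = cay⁻¹ := by
    ext n
    have hX : PowerSeries.rescale (-1 : ℤ) (1 + PowerSeries.X) = 1 - PowerSeries.X := by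
      rw [map_add, map_one, PowerSeries.rescale_neg_one_X]
      ring
    have hM : PowerSeries.rescale (-1 : ℤ) (PowerSeries.mk fun _ => (1 : ℤ)) =
        PowerSeries.mk fun n => (-1 : ℤ) ^ n := by
      ext n
      simp
    have : (PowerSeries.rescale (-1 : ℤ)) cay.1 = cay.2 := by
      simp only [cay, map_mul, hX, hM]
    change PowerSeries.coeff n ((PowerSeries.rescale (-1 : ℤ)) cay.1) = PowerSeries.coeff n cay.2
    rw [this]
  have h2 : ((cay ^ (-j) : (PowerSeries ℤ)ˣ) : PowerSeries ℤ) =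
      PowerSeries.rescale (-1 : ℤ) ((cay ^ j : (PowerSeries ℤ)ˣ) : PowerSeries ℤ) := by
    rw [zpow_neg, ← inv_zpow, ← h1, ← map_zpow]
    rfl
  have h3 : Odd (2 * m - 1) := ⟨m - 1, by omega⟩
  rw [aa, h2, PowerSeries.coeff_rescale, h3.neg_one_pow, aa]
  ring

variable {F W : Type} [Field F] [StarRing F] [AddCommGroup W] [Module F W]

namespace RCoefM

/-- The residue sums. -/
noncomputable def S (W : Type) [AddCommGroup W] [Module F W] (p : ℕ) (z₀ : F) (j₀ : ℤ) :
    (ℤ →₀ W) →ₗ[F] W :=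
  Finsupp.lsum ℕ fun k =>
    (if (p : ℤ) ∣ k - j₀ then z₀ ^ ((k - j₀) / p) else 0) • LinearMap.id

omit [StarRing F] in
theorem S_single (p : ℕ) (z₀ : F) (j₀ k : ℤ) (w : W) :
    S W p z₀ j₀ (Finsupp.single k w) =
      if (p : ℤ) ∣ k - j₀ then z₀ ^ ((k - j₀) / p) • w else 0 := by
  simp only [S, Finsupp.lsum_single, LinearMap.smul_apply, LinearMap.id_apply]
  split_ifs <;> simp

omit [StarRing F] in
theorem S_eq (p : ℕ) (z₀ : F) (j₀ : ℤ) (x : ℤ →₀ W) :
    S W p z₀ j₀ x =
      x.sum fun k w => if (p : ℤ) ∣ k - j₀ then z₀ ^ ((k - j₀) / p) • w else 0 := by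
  simp only [S, Finsupp.lsum_apply]
  refine Finsupp.sum_congr fun k _ => ?_
  simp only [LinearMap.smul_apply, LinearMap.id_apply]
  split_ifs <;> simp

omit [StarRing F] in
theorem Tm_single (p : ℕ) (z₀ : F) (k : ℤ) (w : W) :
    Tm F W p z₀ (Finsupp.single k w) = Finsupp.single (k + p) w - z₀ • Finsupp.single k w := by
  simp only [Tm, LinearMap.sub_apply, LinearMap.smul_apply, Module.End.one_apply, shp_single]

theorem div_add {p : ℕ} (hp : 0 < p) (k j₀ : ℤ) : (k + p - j₀) / p = (k - j₀) / p + 1 := by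
  have h : k + p - j₀ = k - j₀ + 1 * p := by ring
  rw [h, Int.add_mul_ediv_right _ _ (by omega)]

theorem dvd_add_iff (p : ℕ) (k j₀ : ℤ) : (p : ℤ) ∣ k + p - j₀ ↔ (p : ℤ) ∣ k - j₀ := by
  have h : k + p - j₀ = k - j₀ + p := by ring
  rw [h]
  exact dvd_add_left (dvd_refl _)

omit [StarRing F] in
theorem S_Tm {p : ℕ} (hp : 0 < p) {z₀ : F} (hz : z₀ ≠ 0) (j₀ : ℤ) (x : ℤ →₀ W) :
    S W p z₀ j₀ (Tm F W p z₀ x) = 0 := by
  induction x using Finsupp.induction_linear with
  | zero => simp
  | add x y hx hy => simp [hx, hy]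
  | single k w =>
    rw [Tm_single, map_sub, map_smul, S_single, S_single, div_add hp]
    simp only [dvd_add_iff]
    split_ifs
    · rw [zpow_add_one₀ hz, smul_smul, mul_comm, sub_self]
    · simp

omit [StarRing F] in
theorem single_sub_mem {p : ℕ} {z₀ : F} (hz : z₀ ≠ 0) (j k : ℤ) (w : W) :
    Finsupp.single (j + p * k) w - Finsupp.single j (z₀ ^ k • w) ∈
      LinearMap.range (Tm F W p z₀) := by
  induction k using Int.induction_on generalizing w with
  | zero => simp
  | succ k ih =>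
    have h1 := Submodule.add_mem _ (ih (z₀ • w))
      (LinearMap.mem_range_self (Tm F W p z₀) (Finsupp.single (j + p * k) w))
    rw [Tm_single] at h1
    convert h1 using 1
    rw [zpow_add_one₀ hz, smul_smul, Finsupp.smul_single, mul_add, mul_one, ← add_assoc]
    abel
  | pred k ih =>
    have h1 := Submodule.sub_mem _ (ih (z₀⁻¹ • w)) (LinearMap.mem_range_self (Tm F W p z₀)
      (Finsupp.single (j + p * (-(k : ℤ) - 1)) (z₀⁻¹ • w)))
    rw [Tm_single] at h1
    convert h1 using 1
    have h2 : j + p * (-(k : ℤ) - 1) + p = j + p * (-(k : ℤ)) := by ring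
    rw [zpow_sub_one₀ hz, smul_smul, Finsupp.smul_single, smul_smul, mul_inv_cancel₀ hz, one_smul,
      h2]
    abel

omit [StarRing F] in
theorem sub_sum_mem {p : ℕ} (hp : 0 < p) {z₀ : F} (hz : z₀ ≠ 0) (x : ℤ →₀ W) :
    x - ∑ j : Fin p, Finsupp.single ((j : ℕ) : ℤ) (S W p z₀ (j : ℕ) x) ∈
      LinearMap.range (Tm F W p z₀) := by
  induction x using Finsupp.induction_linear with
  | zero => simp
  | add x y hx hy =>
    convert Submodule.add_mem _ hx hy using 1
    simp only [map_add, Finsupp.single_add, Finset.sum_add_distrib]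
    abel
  | single k w =>
    have hp' : (0 : ℤ) < p := by omega
    have h0 := Int.emod_nonneg k hp'.ne'
    have h1 := Int.emod_lt_of_pos k hp'
    have h2 := Int.emod_add_mul_ediv k p
    let j₀ : Fin p := ⟨(k % p).toNat, by omega⟩
    have hj : ((j₀ : ℕ) : ℤ) = k % p := by simp [j₀, Int.toNat_of_nonneg h0]
    have hk : k - (j₀ : ℕ) = p * (k / p) := by rw [hj]; linarith
    rw [Finset.sum_eq_single j₀]
    · rw [S_single, if_pos ⟨_, hk⟩, hk, Int.mul_ediv_cancel_left _ hp'.ne']
      have := single_sub_mem (p := p) hz (j₀ : ℕ) (k / p) w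
      rwa [← hk, add_sub_cancel] at this
    · intro j _ hne
      rw [S_single, if_neg, Finsupp.single_zero]
      intro hd
      apply hne
      have h3 : (p : ℤ) ∣ ((j₀ : ℕ) : ℤ) - (j : ℕ) := by
        have := dvd_sub hd (Dvd.intro _ hk.symm)
        rwa [sub_sub_sub_cancel_left] at this
      have h4 := Int.eq_zero_of_abs_lt_dvd h3 (by
        have := j.2
        have := j₀.2
        rw [abs_lt]
        omega)
      ext
      omega
    · simp

end RCoefM

omit [StarRing F] in
theorem range_Tm_iff {p : ℕ} (hp : 0 < p) {z₀ : F} (hz : z₀ ≠ 0) (x : ℤ →₀ W) :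
    x ∈ LinearMap.range (Tm F W p z₀) ↔ ∀ j₀ : ℤ,
      (x.sum fun k w => if (p : ℤ) ∣ k - j₀ then z₀ ^ ((k - j₀) / p) • w else 0) = 0 := by
  simp only [← RCoefM.S_eq]
  constructor
  · rintro ⟨y, rfl⟩ j₀
    exact RCoefM.S_Tm hp hz j₀ y
  · intro h
    simpa [h] using RCoefM.sub_sum_mem hp hz x

omit [StarRing F] in
theorem finite_quot_Tm [FiniteDimensional F W] {p : ℕ} (hp : 0 < p) {z₀ : F} (hz : z₀ ≠ 0) :
    FiniteDimensional F ((ℤ →₀ W) ⧸ LinearMap.range (Tm F W p z₀)) := by
  let Φ : (Fin p → W) →ₗ[F] (ℤ →₀ W) :=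
    ∑ j : Fin p, Finsupp.lsingle ((j : ℕ) : ℤ) ∘ₗ LinearMap.proj j
  refine Module.Finite.of_surjective ((LinearMap.range (Tm F W p z₀)).mkQ ∘ₗ Φ) fun q => ?_
  obtain ⟨x, rfl⟩ := Submodule.mkQ_surjective _ q
  refine ⟨fun j => RCoefM.S W p z₀ (j : ℕ) x, ?_⟩
  rw [LinearMap.comp_apply, eq_comm, Submodule.mkQ_apply, Submodule.mkQ_apply,
    Submodule.Quotient.eq]
  simpa [Φ] using RCoefM.sub_sum_mem hp hz x

theorem Bm_single (H : W →ₗ[F] W →ₗ⋆[F] F) (p m : ℕ) (z₀ : F) (k k' : ℤ) (w w' : W) :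
    Bm H p m z₀ (Finsupp.single k w) (Finsupp.single k' w') = wt p m z₀ k k' * H w w' := by
  simp [Bm]

theorem Bm_skew {H : W →ₗ[F] W →ₗ⋆[F] F} (hH : IsHerm H) {p m : ℕ} (hm : 0 < m) {z₀ : F}
    (hz : z₀ * star z₀ = 1) (x y : ℤ →₀ W) : Bm H p m z₀ y x = -star (Bm H p m z₀ x y) := by
  have hw : ∀ k k' : ℤ, wt p m z₀ k' k = -star (wt p m z₀ k k') := by
    intro k k'
    unfold wt
    by_cases h : (p : ℤ) ∣ k - k'
    · have h' : (p : ℤ) ∣ k' - k := by rwa [← neg_sub, dvd_neg]
      have h1 : (k' - k) / p = -((k - k') / p) := by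
        rw [← neg_sub, Int.neg_ediv_of_dvd h]
      rw [if_pos h, if_pos h', h1, aa_neg hm, star_mul', star_zpow₀, star_intCast,
        eq_inv_of_mul_eq_one_right hz, inv_zpow']
      push_cast
      ring
    · have h' : ¬(p : ℤ) ∣ k' - k := by rwa [← neg_sub, dvd_neg]
      simp [h, h']
  induction x using Finsupp.induction_linear with
  | zero => simp
  | add x x' hx hx' => simp only [map_add, LinearMap.add_apply, hx, hx', star_add, neg_add]
  | single k w =>
    induction y using Finsupp.induction_linear with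
    | zero => simp
    | add y y' hy hy' => simp only [map_add, LinearMap.add_apply, hy, hy', star_add, neg_add]
    | single k' w' => rw [Bm_single, Bm_single, hw, hH.1 w w', star_mul', neg_mul]

theorem Bm_adj (H : W →ₗ[F] W →ₗ⋆[F] F) (p m : ℕ) {z₀ : F} (hz : z₀ * star z₀ = 1)
    (x y : ℤ →₀ W) : Bm H p m z₀ (Tm F W p z₀ x) y =
      Bm H p m z₀ (((-z₀) • shp F W p : Module.End F (ℤ →₀ W)) x) (Tm F W p z₀ y) := by
  induction x using Finsupp.induction_linear with
  | zero => simp
  | add x x' hx hx' => simp only [map_add, LinearMap.add_apply, hx, hx']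
  | single k w =>
    induction y using Finsupp.induction_linear with
    | zero => simp
    | add y y' hy hy' => simp only [map_add, hy, hy']
    | single k' w' =>
      have h1 : wt p m z₀ (k + p) (k' + p) = wt p m z₀ k k' := by
        simp only [wt, add_sub_add_right_eq_sub]
      simp only [RCoefM.Tm_single, LinearMap.smul_apply, shp_single, map_sub, map_smul,
        LinearMap.map_smulₛₗ, LinearMap.sub_apply, Bm_single, h1, smul_eq_mul, starRingEnd_apply]
      linear_combination (-(wt p m z₀ (k + p) k' * H w w')) * hz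

namespace RCoefM

open PowerSeries

/-- The Cayley series over `F`. -/
noncomputable def c (F : Type) [Field F] : (PowerSeries F)ˣ :=
  Units.map (PowerSeries.map (Int.castRingHom F)).toMonoidHom cay

omit [StarRing F] in
theorem coeff_c (n : ℕ) (j : ℤ) : coeff n (c F ^ j : (PowerSeries F)ˣ).1 =
    ((coeff n (cay ^ j : (PowerSeries ℤ)ˣ).1 : ℤ) : F) := by
  rw [c, ← map_zpow]
  exact coeff_map _ _ _

omit [StarRing F] in
theorem c_sub_one : (c F).1 - 1 = X * (2 * mk fun _ => (1 : F)) := by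
  have h1 : (c F).1 = (1 + X) * mk fun _ => (1 : F) := by
    change PowerSeries.map (Int.castRingHom F) ((1 + X) * mk fun _ => (1 : ℤ)) = _
    rw [map_mul, map_add, map_one, map_X]
    congr 1
    ext n
    simp
  have h2 := mk_one_mul_one_sub_eq_one F
  have h3 : (mk 1 : PowerSeries F) = mk fun _ => (1 : F) := rfl
  rw [h3] at h2
  rw [h1]
  linear_combination h2

omit [StarRing F] in
theorem const_c (j : ℤ) : constantCoeff (c F ^ j : (PowerSeries F)ˣ).1 = 1 := by
  have h1 : Units.map (constantCoeff (R := F)).toMonoidHom (c F) = 1 := by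
    ext
    have := congrArg (constantCoeff (R := F)) (c_sub_one (F := F))
    simp only [map_sub, map_one, map_mul, constantCoeff_X, zero_mul] at this
    exact sub_eq_zero.mp this
  have h2 := map_zpow (Units.map (constantCoeff (R := F)).toMonoidHom) (c F) j
  rw [h1, one_zpow] at h2
  exact congrArg Units.val h2

/-- The generating series of a residue class. -/
noncomputable def E (H : W →ₗ[F] W →ₗ⋆[F] F) (p : ℕ) (z₀ : F) (j₀ : ℤ) (w' : W) :
    (ℤ →₀ W) →ₗ[F] PowerSeries F :=
  Finsupp.lsum ℕ fun k => (H.flip w').smulRight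
    (if (p : ℤ) ∣ k - j₀ then
      z₀ ^ ((k - j₀) / p) • (c F ^ ((k - j₀) / p) : (PowerSeries F)ˣ).1 else 0)

theorem E_single (H : W →ₗ[F] W →ₗ⋆[F] F) (p : ℕ) (z₀ : F) (j₀ k : ℤ) (w w' : W) :
    E H p z₀ j₀ w' (Finsupp.single k w) = H w w' • (if (p : ℤ) ∣ k - j₀ then
      z₀ ^ ((k - j₀) / p) • (c F ^ ((k - j₀) / p) : (PowerSeries F)ˣ).1 else 0) := by
  simp only [E, Finsupp.lsum_single, LinearMap.smulRight_apply, LinearMap.flip_apply]

theorem Bm_eq (H : W →ₗ[F] W →ₗ⋆[F] F) (p m : ℕ) (z₀ : F) (j₀ : ℤ) (w' : W) (x : ℤ →₀ W) :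
    Bm H p m z₀ x (Finsupp.single j₀ w') = coeff (2 * m - 1) (E H p z₀ j₀ w' x) := by
  induction x using Finsupp.induction_linear with
  | zero => simp
  | add x y hx hy => simp only [map_add, LinearMap.add_apply, hx, hy]
  | single k w =>
    rw [Bm_single, E_single, wt]
    split_ifs
    · rw [map_smul, map_smul, coeff_c, aa, smul_eq_mul, smul_eq_mul]
      ring
    · simp

theorem const_E (H : W →ₗ[F] W →ₗ⋆[F] F) (p : ℕ) (z₀ : F) (j₀ : ℤ) (w' : W) (x : ℤ →₀ W) :
    constantCoeff (E H p z₀ j₀ w' x) = H (S W p z₀ j₀ x) w' := by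
  induction x using Finsupp.induction_linear with
  | zero => simp
  | add x y hx hy => simp only [map_add, LinearMap.add_apply, hx, hy]
  | single k w =>
    rw [S_single, E_single]
    split_ifs
    · simp only [constantCoeff_smul, const_c, map_smul, LinearMap.smul_apply, smul_eq_mul]
      ring
    · simp

theorem E_Tm (H : W →ₗ[F] W →ₗ⋆[F] F) {p : ℕ} (hp : 0 < p) {z₀ : F} (hz : z₀ ≠ 0) (j₀ : ℤ)
    (w' : W) (x : ℤ →₀ W) : E H p z₀ j₀ w' (Tm F W p z₀ x) =
      X * (C z₀ * (2 * mk fun _ => (1 : F))) * E H p z₀ j₀ w' x := by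
  induction x using Finsupp.induction_linear with
  | zero => simp
  | add x y hx hy => simp only [map_add, hx, hy, mul_add]
  | single k w =>
    rw [Tm_single, map_sub, map_smul, E_single, E_single, div_add hp]
    simp only [dvd_add_iff]
    split_ifs
    · rw [zpow_add_one₀ hz, zpow_add_one, Units.val_mul]
      simp only [smul_eq_C_mul, map_mul]
      linear_combination (C (H w w') * C (z₀ ^ ((k - j₀) / p)) * C z₀ *
        (c F ^ ((k - j₀) / p) : (PowerSeries F)ˣ).1) * c_sub_one (F := F)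
    · simp

theorem E_Tm_pow (H : W →ₗ[F] W →ₗ⋆[F] F) {p : ℕ} (hp : 0 < p) {z₀ : F} (hz : z₀ ≠ 0) (j₀ : ℤ)
    (w' : W) (n : ℕ) (x : ℤ →₀ W) : E H p z₀ j₀ w' ((Tm F W p z₀ ^ n) x) =
      X ^ n * ((C z₀ * (2 * mk fun _ => (1 : F))) ^ n * E H p z₀ j₀ w' x) := by
  induction n with
  | zero => simp
  | succ n ih =>
    rw [pow_succ', Module.End.mul_apply, E_Tm H hp hz, ih]
    ring

theorem E_Tm' (H : W →ₗ[F] W →ₗ⋆[F] F) (p : ℕ) (z₀ : F) (j₀ : ℤ) (w' : W) (x : ℤ →₀ W) :
    E H p z₀ j₀ w' (Tm F W p z₀ x) = E H p z₀ (j₀ - p) w' x - z₀ • E H p z₀ j₀ w' x := by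
  induction x using Finsupp.induction_linear with
  | zero => simp
  | add x y hx hy =>
    simp only [map_add, hx, hy, smul_add]
    abel
  | single k w =>
    have h : k + p - j₀ = k - (j₀ - p) := by ring
    rw [Tm_single, map_sub, map_smul, E_single, E_single H p z₀ (j₀ - p), h]

omit [StarRing F] in
theorem const_d {z₀ : F} (hz : z₀ ≠ 0) (h2 : (2 : F) ≠ 0) :
    constantCoeff (C z₀ * (2 * mk fun _ => (1 : F))) ≠ 0 := by
  simp only [map_mul, constantCoeff_C, constantCoeff_mk, mul_one, map_ofNat]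
  exact mul_ne_zero hz h2

theorem mem_range_pow {H : W →ₗ[F] W →ₗ⋆[F] F} (hH : IsHerm H) {p : ℕ} (hp : 0 < p) {z₀ : F}
    (hz : z₀ ≠ 0) (h2 : (2 : F) ≠ 0) (n : ℕ) (x : ℤ →₀ W)
    (h : ∀ j₀ w', X ^ n ∣ E H p z₀ j₀ w' x) : x ∈ LinearMap.range (Tm F W p z₀ ^ n) := by
  induction n generalizing x with
  | zero => exact ⟨x, by simp⟩
  | succ n ih =>
    have h1 : x ∈ LinearMap.range (Tm F W p z₀) := by
      rw [range_Tm_iff hp hz]
      intro j₀
      rw [← S_eq]
      refine hH.2 _ fun w' => ?_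
      rw [← const_E, ← X_dvd_iff]
      exact (dvd_pow_self X n.succ_ne_zero).trans (h j₀ w')
    obtain ⟨y, rfl⟩ := h1
    obtain ⟨u, rfl⟩ := ih y fun j₀ w' => by
      have h3 := h j₀ w'
      rw [E_Tm H hp hz, pow_succ', mul_assoc, mul_dvd_mul_iff_left X_ne_zero] at h3
      exact (IsUnit.dvd_mul_left (isUnit_iff_constantCoeff.mpr
        (isUnit_iff_ne_zero.mpr (const_d hz h2)))).mp h3
    exact ⟨u, by rw [pow_succ', Module.End.mul_apply]⟩

end RCoefM

theorem Bm_ker {H : W →ₗ[F] W →ₗ⋆[F] F} (hH : IsHerm H) {p m : ℕ} (hp : 0 < p) (hm : 0 < m)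
    {z₀ : F} (hz : z₀ * star z₀ = 1) (h2 : (2 : F) ≠ 0) (x : ℤ →₀ W) :
    (∀ y, Bm H p m z₀ x y = 0) ↔ x ∈ LinearMap.range (Tm F W p z₀ ^ (2 * m)) := by
  have hz0 : z₀ ≠ 0 := by
    rintro rfl
    simp at hz
  constructor
  · intro h
    have h1 : ∀ (n : ℕ) j₀ w', PowerSeries.coeff (2 * m - 1)
        (RCoefM.E H p z₀ j₀ w' ((Tm F W p z₀ ^ n) x)) = 0 := by
      intro n
      induction n with
      | zero => intro j₀ w'; simpa [← RCoefM.Bm_eq] using h _
      | succ n ih =>
        intro j₀ w'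
        rw [pow_succ', Module.End.mul_apply, RCoefM.E_Tm', map_sub, map_smul, ih, ih, smul_zero,
          sub_zero]
    refine RCoefM.mem_range_pow hH hp hz0 h2 _ x fun j₀ w' => ?_
    have h3 : ∀ i, i ≤ 2 * m → PowerSeries.X ^ i ∣ RCoefM.E H p z₀ j₀ w' x := by
      intro i
      induction i with
      | zero => simp
      | succ i ih =>
        intro hi
        obtain ⟨G, hG⟩ := ih (by omega)
        have h4 := h1 (2 * m - 1 - i) j₀ w'
        rw [RCoefM.E_Tm_pow H hp hz0, hG, mul_left_comm _ (PowerSeries.X ^ i), ← mul_assoc,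
          ← pow_add, show 2 * m - 1 - i + i = 2 * m - 1 by omega] at h4
        have h5 := PowerSeries.coeff_X_pow_mul
          ((PowerSeries.C z₀ * (2 * PowerSeries.mk fun _ => (1 : F))) ^ (2 * m - 1 - i) * G)
          (2 * m - 1) 0
        rw [zero_add, h4, PowerSeries.coeff_zero_eq_constantCoeff, map_mul, map_pow] at h5
        have h6 := (mul_eq_zero.mp h5.symm).resolve_left (pow_ne_zero _ (RCoefM.const_d hz0 h2))
        rw [hG, pow_succ]
        exact mul_dvd_mul_left _ (PowerSeries.X_dvd_iff.mpr h6)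
    exact h3 _ le_rfl
  · rintro ⟨u, rfl⟩ y
    induction y using Finsupp.induction_linear with
    | zero => simp
    | add y y' hy hy' => simp only [map_add, hy, hy', add_zero]
    | single k' w' =>
      rw [RCoefM.Bm_eq, RCoefM.E_Tm_pow H hp hz0]
      exact PowerSeries.X_pow_dvd_iff.mp (dvd_mul_right _ _) _ (by omega)

theorem isHerm_Hstd (F ι : Type) [Field F] [StarRing F] [Fintype ι] : IsHerm (Hstd F ι) := by
  classical
  refine ⟨fun x y => ?_, fun x h => ?_⟩
  · simp [Hstd, mul_comm]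
  · funext i
    simpa [Hstd, Pi.single_apply, apply_ite] using h (Pi.single i 1)

theorem isHerm_H1 (F : Type) [Field F] [StarRing F] : IsHerm (H1 F) := by
  refine ⟨fun x y => ?_, fun x h => ?_⟩
  · simp [H1, mul_comm]
  · simpa [H1] using h 1

/-- The numerical hypotheses for the model coefficient data. -/
structure CP (F : Type) [Field F] [StarRing F] (p m : ℕ) (z₀ : F) : Prop where
  ppos : 0 < p
  mpos : 0 < m
  unit : z₀ * star z₀ = 1
  two : (2 : F) ≠ 0

/-- The model coefficient data. -/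
noncomputable def coefM [FiniteDimensional F W] {H : W →ₗ[F] W →ₗ⋆[F] F} (hH : IsHerm H)
    {p m : ℕ} {z₀ : F} (h : CP F p m z₀) : Coef F (ℤ →₀ W) where
  m := m
  T := Tm F W p z₀
  v := (-z₀) • shp F W p
  B := Bm H p m z₀
  mpos := h.mpos
  inj := Tm_injective h.ppos z₀
  comm := ((commute_shp_Tm (p : ℤ) p z₀).smul_left _).symm
  skew := Bm_skew hH h.mpos h.unit
  ker := Bm_ker hH h.ppos h.mpos h.unit h.two
  adj := Bm_adj H p m h.unit
  fin := finite_quot_Tm h.ppos (by rintro rfl; simpa using h.unit)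

/-- The scalar model over `F`. -/
noncomputable abbrev cf1 {F : Type} [Field F] [StarRing F] {p m : ℕ} {z₀ : F} (h : CP F p m z₀) :
    Coef F (ℤ →₀ F) := coefM (isHerm_H1 F) h

/-- The model with multiplicity `n₀`. -/
noncomputable abbrev cfn {F : Type} [Field F] [StarRing F] (n₀ : ℕ) {p m : ℕ} {z₀ : F}
    (h : CP F p m z₀) : Coef F (ℤ →₀ (Fin n₀ → F)) := coefM (isHerm_Hstd F (Fin n₀)) h

end Pool.Agent.HH
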