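import Pool.Agent.P.MP_c8dc46_gt.Glue

/-! Local analysis near a locally flat subset of codimension two in a metric space. -/

open Set Topology Metric

namespace Pool.Agent.HH

variable {Y : Type} [MetricSpace Y] {R E : Type} [CommRing R] [AddCommGroup E] [Module R E]
  {V : Type} [NormedAddCommGroup V] [NormedSpace ℝ V] [FiniteDimensional ℝ V]
  {τ : Y → Y → Module.End R E}

namespace RCollar

theorem polar (w : ℂ) : (Real.exp w.re : ℂ) * ex (w.im / (2 * Real.pi)) = Complex.exp w := by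
  have h : (2 * Real.pi * ((w.im / (2 * Real.pi) : ℝ) : ℂ) * Complex.I : ℂ) =
      w.im * Complex.I := by
    have : (Real.pi : ℂ) ≠ 0 := Complex.ofReal_ne_zero.2 Real.pi_ne_zero
    push_cast
    field_simp
  rw [ex, h, Complex.ofReal_exp, ← Complex.exp_add, Complex.re_add_im]

theorem norm_polar {r : ℝ} (hr : 0 < r) (s : ℝ) : ‖(r : ℂ) * ex s‖ = r := by
  rw [norm_mul, norm_ex, mul_one, Complex.norm_real, Real.norm_of_nonneg hr.le]

theorem polar_ne {r : ℝ} (hr : 0 < r) (s : ℝ) : (r : ℂ) * ex s ≠ 0 :=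
  norm_pos_iff.1 ((norm_polar hr s).symm ▸ hr)

theorem isOpen_polar {W : Type} [TopologicalSpace W] {S : Set (ℝ × (W × ℝ))} (hS : IsOpen S)
    (h : ∀ q ∈ S, 0 < q.2.2) :
    IsOpen ((fun q : ℝ × (W × ℝ) => (q.2.1, (q.2.2 : ℂ) * ex q.1)) '' S) := by
  have hκ : Continuous fun z : W × ℂ => (z.2.im / (2 * Real.pi), (z.1, Real.exp z.2.re)) := by
    fun_prop
  convert (IsOpenMap.id.prodMap Complex.isOpenMap_exp) _ (hS.preimage hκ) using 1
  ext z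
  constructor
  · rintro ⟨⟨s, c, r⟩, hq, rfl⟩
    have h1 : 2 * Real.pi * s / (2 * Real.pi) = s := by field_simp
    have h2 : Real.exp (Real.log r) = r := Real.exp_log (h _ hq)
    refine ⟨(c, ⟨Real.log r, 2 * Real.pi * s⟩), ?_, ?_⟩
    · simpa only [mem_preimage, h1, h2] using hq
    · simp only [Prod.map, id, ← polar, h1, h2]
  · rintro ⟨⟨c, w⟩, hq, rfl⟩
    exact ⟨_, hq, by simp only [Prod.map, id, polar]⟩

theorem three {p q x : Y} {r s : ℝ} (hp : x ∈ ball p r) (hq : x ∈ ball q s) (h : s ≤ r) :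
    ball q s ⊆ ball p (3 * r) := fun y hy => by
  rw [mem_ball] at *
  linarith [dist_triangle y q x, dist_triangle y x p, dist_comm q x]

theorem exists_three {p : Y} {U : Set Y} (hU : U ∈ 𝓝 p) : ∃ r, 0 < r ∧ ball p (3 * r) ⊆ U := by
  obtain ⟨r, hr, h⟩ := Metric.mem_nhds_iff.1 hU
  exact ⟨r / 3, by positivity, by rwa [mul_div_cancel₀ r three_ne_zero]⟩

theorem const {M : Type} {S : Set Y} (hS : IsPreconnected S) {f : Y → M}
    (h : ∀ p ∈ S, ∃ U ∈ 𝓝 p, ∀ x ∈ U, f x = f p) {x y : Y} (hx : x ∈ S) (hy : y ∈ S) :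
    f x = f y := by
  let _ : TopologicalSpace M := ⊥
  have : DiscreteTopology M := ⟨rfl⟩
  refine hS.constant (fun p hp => ContinuousAt.continuousWithinAt ?_) hx hy
  obtain ⟨U, hU, h1⟩ := h p hp
  exact (continuousAt_const (y := f p)).congr
    (Filter.mem_of_superset hU fun x hx => (h1 x hx).symm)

end RCollar

open RCollar

theorem IsMer.mono {O O' A : Set Y} {γ : ℝ → Y} (h : IsMer V O A γ) (hs : O ⊆ O') :
    IsMer V O' A γ := by
  obtain ⟨e, h1, h2⟩ := h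
  exact ⟨e, h1.trans hs, h2⟩

theorem IsMer.isLoop {O A : Set Y} {γ : ℝ → Y} (h : IsMer V O A γ) : IsLoop γ (O \ A) := by
  obtain ⟨e, h1, h2, c, r, hr, h3, h4⟩ := h
  have ht : ∀ s, (c, (r : ℂ) * ex s) ∈ e.target := fun s => h3 _ (norm_polar hr s).le
  obtain rfl : γ = fun s => e.symm (c, r * ex s) := funext h4
  refine ⟨e.continuousOn_symm.comp_continuous
    (continuous_const.prodMk (continuous_const.mul continuous_ex)) ht, fun s => ?_, fun s => ?_⟩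
  · have := ex_int 1
    simp only [Int.cast_one] at this
    simp only [ex_add, this, mul_one]
  · refine ⟨h1 (e.map_target (ht s)), fun hA => ?_⟩
    have := (h2 _ (e.map_target (ht s))).1 hA
    rw [e.right_inv (ht s)] at this
    exact polar_ne hr s this

theorem exists_mer_cc {A : Set Y} (hA : Flat V A) {p : Y} (hp : p ∈ A) {U : Set Y}
    (hU : U ∈ 𝓝 p) : ∃ (V' : Set Y) (Φ : ℝ × (V × ℝ) → Y) (O : Set (V × ℝ)), Cvx V' ∧ p ∈ V' ∧
      V' ⊆ U ∧ IsCC Φ O ∧ Φ '' (univ ×ˢ O) = V' \ A ∧ O.Nonempty ∧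
      ∀ o ∈ O, IsMer V U A fun s => Φ (s, o) := by
  obtain ⟨e, hpe, hU', he⟩ : ∃ e : OpenPartialHomeomorph Y (V × ℂ), p ∈ e.source ∧
      e.source ⊆ U ∧ ∀ x ∈ e.source, (x ∈ A ↔ (e x).2 = 0) := by
    obtain ⟨e, h1, h2⟩ := hA p hp
    exact ⟨e.restrOpen _ isOpen_interior, ⟨h1, mem_interior_iff_mem_nhds.2 hU⟩,
      fun x hx => interior_subset hx.2, fun x hx => h2 x hx.1⟩
  obtain ⟨δ, hδ, hb⟩ := Metric.isOpen_iff.1 e.open_target _ (e.map_source hpe)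
  have h0 : e p = ((e p).1, 0) := Prod.ext rfl ((he p hpe).1 hp)
  rw [h0, ← ball_prod_same] at hb
  set c₀ := (e p).1
  have hm : ∀ (s : ℝ) (o : V × ℝ), o ∈ ball c₀ δ ×ˢ Ioo 0 δ →
      (o.1, (o.2 : ℂ) * ex s) ∈ ball c₀ δ ×ˢ ball (0 : ℂ) δ := fun s o ho =>
    ⟨ho.1, by rw [mem_ball_zero_iff, norm_polar ho.2.1]; exact ho.2.2⟩
  have hoe : OE e.symm (ball c₀ δ ×ˢ ball (0 : ℂ) δ) :=
    ⟨isOpen_ball.prod isOpen_ball, e.continuousOn_symm.mono hb, e.symm.injOn.mono hb,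
      fun S hS hs => e.isOpen_image_symm_of_subset_target hS (hs.trans hb)⟩
  refine ⟨e.symm '' (ball c₀ δ ×ˢ ball 0 δ), fun q => e.symm (q.2.1, q.2.2 * ex q.1),
    ball c₀ δ ×ˢ Ioo 0 δ, Cvx.of_normed ((convex_ball _ _).prod (convex_ball _ _)) hoe,
    ⟨(c₀, 0), ⟨mem_ball_self hδ, mem_ball_self hδ⟩, by rw [← h0, e.left_inv hpe]⟩, ?_,
    ⟨isOpen_ball.prod isOpen_Ioo, (convex_ball _ _).prod (convex_Ioo _ _), ?_, ?_, ?_, ?_⟩, ?_,
    ⟨(c₀, δ / 2), mem_ball_self hδ, half_pos hδ, half_lt_self hδ⟩, fun o ho => ?_⟩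
  · rintro _ ⟨z, hz, rfl⟩
    exact hU' (e.map_target (hb hz))
  · refine hoe.cont.comp (Continuous.continuousOn ?_) fun q hq => hm q.1 q.2 hq.2
    have := continuous_ex
    fun_prop
  · intro s w
    have := ex_int 1
    simp only [Int.cast_one] at this
    simp only [ex_add, this, mul_one]
  · intro s s' w hw w' hw' h
    have h1 := Prod.ext_iff.1 (hoe.inj (hm s w hw) (hm s' w' hw') h)
    have h2 : w.2 = w'.2 := by
      rw [← norm_polar hw.2.1 s, ← norm_polar hw'.2.1 s']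
      exact congrArg _ h1.2
    refine ⟨Prod.ext h1.1 h2, ex_eq_iff.1 (mul_left_cancel₀
      (Complex.ofReal_ne_zero.2 hw.2.1.ne') ?_)⟩
    simpa only [← h2] using h1.2
  · intro S hS hs
    have := hoe.img _ (isOpen_polar hS fun q hq => (hs hq).2.2.1) (by
      rintro _ ⟨q, hq, rfl⟩
      exact hm q.1 q.2 (hs hq).2)
    rwa [image_image] at this
  · ext x
    constructor
    · rintro ⟨q, hq, rfl⟩
      have h1 := hm q.1 q.2 hq.2
      refine ⟨mem_image_of_mem _ h1, fun hx => ?_⟩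
      have := (he _ (e.map_target (hb h1))).1 hx
      rw [e.right_inv (hb h1)] at this
      exact polar_ne hq.2.2.1 q.1 this
    · rintro ⟨⟨⟨c, w⟩, hz, rfl⟩, hx⟩
      have hw : w ≠ 0 := fun h => hx ((he _ (e.map_target (hb hz))).2 (by
        rw [e.right_inv (hb hz)]; exact h))
      have hn : (‖w‖ : ℂ) ≠ 0 := by simpa using hw
      obtain ⟨s, hs⟩ := exists_ex (z := w / ‖w‖) (by simp [hw])
      refine ⟨(s, c, ‖w‖), ⟨mem_univ _, hz.1, norm_pos_iff.2 hw, mem_ball_zero_iff.1 hz.2⟩, ?_⟩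
      simp only [hs, mul_div_cancel₀ w hn]
  · exact ⟨e, hU', he, o.1, o.2, ho.2.1, fun w hw =>
      hb ⟨ho.1, mem_ball_zero_iff.2 (hw.trans_lt ho.2.2)⟩, fun s => rfl⟩

theorem Flat.exists_isMer {A : Set Y} (hA : Flat V A) {p : Y} (hp : p ∈ A) {U : Set Y}
    (hU : U ∈ 𝓝 p) : ∃ γ, IsMer V U A γ := by
  obtain ⟨V', Φ, O, -, -, -, -, -, ⟨o, ho⟩, h⟩ := exists_mer_cc hA hp hU
  exact ⟨_, h o ho⟩

theorem Flat.mem_closure_diff {A : Set Y} (hA : Flat V A) {p : Y} (hp : p ∈ A) {U : Set Y}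
    (hU : U ∈ 𝓝 p) : (U \ A).Nonempty := by
  obtain ⟨γ, h⟩ := hA.exists_isMer hp hU
  exact ⟨γ 0, h.isLoop.2.2 0⟩

namespace RCollar

theorem dense {A : Set Y} (hA : Flat V A) {p : Y} {U : Set Y} (hU : U ∈ 𝓝 p) :
    (U \ A).Nonempty := by
  by_cases hp : p ∈ A
  · exact hA.mem_closure_diff hp hU
  · exact ⟨p, mem_of_mem_nhds hU, hp⟩

theorem good [LocallyConnectedSpace Y] {A O : Set Y} (hA : Flat V A) (hOA : IsOpen (O \ A))
    {p : Y} (hp : p ∈ O) {U : Set Y} (hU : U ∈ 𝓝 p) :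
    ∃ W, IsOpen W ∧ p ∈ W ∧ W ⊆ U ∧ IsPreconnected (W \ A) := by
  by_cases h : p ∈ A
  · obtain ⟨V', Φ, O', h1, h2, h3, h4, h5, -⟩ := exists_mer_cc hA h hU
    exact ⟨V', h1.isOpen, h2, h3, h5 ▸ h4.isPreconnected⟩
  · have h1 := connectedComponentIn_subset (interior U ∩ (O \ A)) p
    refine ⟨_, (isOpen_interior.inter hOA).connectedComponentIn, mem_connectedComponentIn
      ⟨mem_interior_iff_mem_nhds.2 hU, hp, h⟩, fun x hx => interior_subset (h1 hx).1, ?_⟩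
    rw [Disjoint.sdiff_eq_left (disjoint_left.2 fun x hx => (h1 hx).2.2)]
    exact isPreconnected_connectedComponentIn

theorem loc {A O : Set Y} (hA : Flat V A) (hτ : IsCoc τ (O \ A)) (h : MerAc V O A τ)
    {p : Y} (hp : p ∈ A) {U : Set Y} (hU : U ∈ 𝓝 p) (hUO : U ⊆ O) :
    ∃ V', IsOpen V' ∧ p ∈ V' ∧ V' ⊆ U ∧ IsOpen (V' \ A) ∧ Acyc0 τ (V' \ A) ∧
      Acyc τ 2 (V' \ A) := by
  obtain ⟨V', Φ, O', h1, h2, h3, h4, h5, ⟨o, ho⟩, h6⟩ := exists_mer_cc hA hp hU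
  obtain ⟨η, hη, hb⟩ := h _ ((h6 o ho).mono hUO)
  have h7 : IsCoc τ (Φ '' (univ ×ˢ O')) := h5 ▸ hτ.mono (sdiff_subset_sdiff_left (h3.trans hUO))
  exact ⟨V', h1.isOpen, h2, h3, h5 ▸ h4.isOpen_image, h5 ▸ h4.acyc0 h7 ho hη hb.1,
    h5 ▸ h4.acyc1 h7 ho hη hb.2⟩

theorem isOpen_near (P : Set Y → Prop) : IsOpen {p | ∃ U ∈ 𝓝 p, P U} :=
  isOpen_iff_mem_nhds.2 fun _ ⟨U, hU, h⟩ =>
    Filter.mem_of_superset (eventually_mem_nhds_iff.2 hU) fun _ hq => ⟨U, hq, h⟩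

end RCollar

theorem Flat.isPreconnected_diff [LocallyConnectedSpace Y] {A O : Set Y} (hA : Flat V A)
    (hO : IsOpen O) (hOA : IsOpen (O \ A)) (hc : IsPreconnected O) : IsPreconnected (O \ A) := by
  rcases (O \ A).eq_empty_or_nonempty with h | ⟨x₀, hx₀⟩
  · rw [h]; exact isPreconnected_empty
  have h1 : O ⊆ {p | ∃ U ∈ 𝓝 p, U \ A ⊆ connectedComponentIn (O \ A) x₀} := by
    refine hc.subset_of_closure_inter_subset (isOpen_near _) ⟨x₀, hx₀.1, _,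
      hOA.connectedComponentIn.mem_nhds (mem_connectedComponentIn hx₀), sdiff_subset⟩ ?_
    rintro p ⟨hp, hpO⟩
    obtain ⟨W, hW, hpW, hWO, hWc⟩ := good hA hOA hpO (hO.mem_nhds hpO)
    obtain ⟨q, hqW, U, hU, hUc⟩ := _root_.mem_closure_iff.1 hp W hW hpW
    obtain ⟨x, ⟨hxU, hxW⟩, hxA⟩ := dense hA (Filter.inter_mem hU (hW.mem_nhds hqW))
    refine ⟨W, hW.mem_nhds hpW, ?_⟩
    rw [connectedComponentIn_eq (hUc ⟨hxU, hxA⟩)]
    exact hWc.subset_connectedComponentIn ⟨hxW, hxA⟩ (sdiff_subset_sdiff_left hWO)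
  have h2 : O \ A = connectedComponentIn (O \ A) x₀ := by
    refine Subset.antisymm (fun p hp => ?_) (connectedComponentIn_subset _ _)
    obtain ⟨U, hU, h⟩ := h1 hp.1
    exact h ⟨mem_of_mem_nhds hU, hp.2⟩
  rw [h2]
  exact isPreconnected_connectedComponentIn

theorem MerAc.local {A O : Set Y} (hA : Flat V A) (hτ : IsCoc τ (O \ A)) (h : MerAc V O A τ)
    {p : Y} (hp : p ∈ A) {U : Set Y} (hU : U ∈ 𝓝 p) (hUO : U ⊆ O) :
    ∃ V', IsOpen V' ∧ p ∈ V' ∧ V' ⊆ U ∧ Acyc0 τ (V' \ A) ∧ Acyc τ 2 (V' \ A) := by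
  obtain ⟨V', h1, h2, h3, -, h4⟩ := loc hA hτ h hp hU hUO
  exact ⟨V', h1, h2, h3, h4⟩

/-- The collar lemma. -/
theorem collar {A O : Set Y} (hA : Flat V A) (hO : IsOpen O) (hτ : IsCoc τ (O \ A))
    (h : MerAc V O A τ) {y : List Y → E} (hy : dT τ y ∈ N R E 3 (O \ A)) :
    ∃ V', IsOpen V' ∧ A ∩ O ⊆ V' ∧ V' ⊆ O ∧ Exa τ 2 (V' \ A) y := by
  have key : ∀ a : ↥(A ∩ O), ∃ (φ : List Y → E) (r : ℝ) (U : Set Y), IsOpen U ∧ a.1 ∈ U ∧
      U ⊆ ball a.1 r ∧ U ⊆ ball a.1 (3 * r) ∧ U ⊆ O ∧ IsOpen (U \ A) ∧ Acyc0 τ (U \ A) ∧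
      y - dT τ φ ∈ N R E 2 (ball a.1 (3 * r) \ A) := by
    rintro ⟨a, ha, haO⟩
    obtain ⟨W, h1, h2, h3, -, -, h4⟩ := loc hA hτ h ha (hO.mem_nhds haO) Subset.rfl
    obtain ⟨φ, hφ⟩ := h4 y (N_mono (sdiff_subset_sdiff_left h3) hy)
    obtain ⟨r, hr, hb⟩ := exists_three (h1.mem_nhds h2)
    have h5 : ball a r ⊆ ball a (3 * r) := ball_subset_ball (by linarith)
    obtain ⟨U, u1, u2, u3, u4, u5, -⟩ :=
      loc hA hτ h ha (ball_mem_nhds a hr) (h5.trans (hb.trans h3))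
    exact ⟨φ, r, U, u1, u2, u3, u3.trans h5, u3.trans (h5.trans (hb.trans h3)), u4, u5,
      N_mono (sdiff_subset_sdiff_left hb) hφ⟩
  choose φ r U u1 u2 u3 u3' u4 u5 u6 u7 using key
  have h1 : ∀ i j, r j ≤ r i → φ i - φ j ∈ N R E 1 ((U i \ A) ∩ (U j \ A)) := by
    intro i j hij
    rcases ((U i \ A) ∩ (U j \ A)).eq_empty_or_nonempty with h0 | ⟨x, hi, hj⟩
    · rw [h0]; exact mem_N_empty _ _
    refine N_mono inter_subset_right (u6 j _ ?_)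
    have := Submodule.sub_mem _ (N_mono (sdiff_subset_sdiff_left (u3' j)) (u7 j))
      (N_mono (sdiff_subset_sdiff_left ((u3 j).trans (three (u3 i hi.1) (u3 j hj.1) hij))) (u7 i))
    rwa [sub_sub_sub_cancel_left, ← map_sub] at this
  obtain ⟨y', hy'⟩ := glue_prim (R := R) (y := φ) u5 fun i j => by
    rcases le_total (r j) (r i) with hij | hij
    · exact h1 i j hij
    · rw [inter_comm, ← neg_sub]
      exact Submodule.neg_mem _ (h1 j i hij)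
  refine ⟨⋃ i, U i, isOpen_iUnion u1, fun a ha => mem_iUnion.2 ⟨⟨a, ha⟩, u2 _⟩,
    iUnion_subset u4, y', mem_N_of_forall fun p hp => ?_⟩
  obtain ⟨i, hi⟩ := mem_iUnion.1 hp.1
  refine ⟨U i \ A, ⟨hi, hp.2⟩, ?_⟩
  have := Submodule.sub_mem _ (N_mono (sdiff_subset_sdiff_left (u3' i)) (u7 i))
    (dT_mem_N τ (hy' i))
  rwa [map_sub, sub_sub, add_sub_cancel] at this

/-- A cocycle off a closed `A` is cohomologous to one that vanishes near `A`. -/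
theorem collar_cut {A : Set Y} (hA : Flat V A) (hcl : IsClosed A) (hτ : IsCoc τ Aᶜ)
    (h : MerAc V univ A τ) {y : List Y → E} (hy : dT τ y ∈ N R E 3 Aᶜ) :
    ∃ φ T, IsClosed T ∧ Disjoint T A ∧ y - dT τ φ - cut R E T (y - dT τ φ) ∈ N R E 2 Aᶜ := by
  rw [compl_eq_univ_sdiff] at hτ hy
  obtain ⟨V', h1, h2, -, φ, hφ⟩ := collar hA isOpen_univ hτ h hy
  obtain ⟨W, w1, w2, w3⟩ := normal_exists_closure_subset hcl h1 fun a ha => h2 ⟨ha, trivial⟩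
  refine ⟨φ, Wᶜ, w1.isClosed_compl, disjoint_left.2 fun x hx hx' => hx (w2 hx'),
    mem_N_of_forall fun p hp => ?_⟩
  by_cases hpV : p ∈ V'
  · exact ⟨V' \ A, ⟨hpV, hp⟩, Submodule.sub_mem _ hφ (cut_mem_N _ hφ)⟩
  · refine ⟨_, ?_, sub_cut_mem_N Wᶜ one_le_two _⟩
    rw [interior_compl]
    exact fun hc => hpV (w3 hc)

theorem acyc0_diff {A O : Set Y} (hA : Flat V A) (hO : IsOpen O)
    (hc : IsPreconnected O) (hne : (A ∩ O).Nonempty) (hτ : IsCoc τ (O \ A)) (h : MerAc V O A τ) :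
    Acyc0 τ (O \ A) := by
  intro φ hφ
  have h0 : ∀ a ∈ A, a ∈ O → ∃ U ∈ 𝓝 a, φ ∈ N R E 1 (U \ A) := fun a ha haO => by
    obtain ⟨W, h1, h2, h3, -, h4, -⟩ := loc hA hτ h ha (hO.mem_nhds haO) Subset.rfl
    exact ⟨W, h1.mem_nhds h2, h4 φ (N_mono (sdiff_subset_sdiff_left h3) hφ)⟩
  have h1 : O ⊆ {p | ∃ U ∈ 𝓝 p, φ ∈ N R E 1 (U \ A)} := by
    obtain ⟨a, ha, haO⟩ := hne
    refine hc.subset_of_closure_inter_subset (isOpen_near _) ⟨a, haO, h0 a ha haO⟩ ?_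
    rintro p ⟨hp, hpO⟩
    by_cases hpA : p ∈ A
    · exact h0 p hpA hpO
    obtain ⟨W, hW, hW'⟩ := mem_N_two.1 hφ p ⟨hpO, hpA⟩
    obtain ⟨q, hqW, U, hU, hUc⟩ := _root_.mem_closure_iff.1 hp _ isOpen_interior
      (mem_interior_iff_mem_nhds.2 hW)
    obtain ⟨x, ⟨hxU, hxW⟩, hxA⟩ :=
      dense hA (Filter.inter_mem hU (mem_interior_iff_mem_nhds.1 hqW))
    have hx0 : φ [x] = 0 := (mem_N_one.1 hUc x ⟨hxU, hxA⟩).self_of_nhds
    refine ⟨interior W, interior_mem_nhds.2 hW, mem_N_one.2 fun z hz => ?_⟩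
    filter_upwards [mem_interior_iff_mem_nhds.1 hz.1] with w hw
    simpa [dT_two, hx0] using hW' w hw x hxW
  refine mem_N_of_forall fun p hp => ?_
  obtain ⟨U, hU, h2⟩ := h1 hp.1
  exact ⟨U \ A, ⟨mem_of_mem_nhds hU, hp.2⟩, h2⟩

/-- Extension of additive cocycles that are locally exact near `A`. -/
theorem ext_cocA [LocallyConnectedSpace Y] {M : Type} [AddCommGroup M] {A O : Set Y}
    (hA : Flat V A) (hO : IsOpen O) (hOA : IsOpen (O \ A)) {x : Y → Y → M}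
    (hx : IsCocA x (O \ A)) (hl : ∀ p ∈ A ∩ O, ∃ U ∈ 𝓝 p, CohA x (fun _ _ => 0) (U \ A)) :
    ∃ x', IsCocA x' O ∧ LocEq x' x (O \ A) := by
  classical
  have key : ∀ p, ∃ (g : Y → M) (r : ℝ) (W : Set Y), p ∈ O → IsOpen W ∧ p ∈ W ∧ W ⊆ ball p r ∧
      W ⊆ ball p (3 * r) ∧ W ⊆ O ∧ IsPreconnected (W \ A) ∧
      LocEq x (fun a b => g b - g a) (ball p (3 * r) \ A) := by
    intro p
    by_cases hp : p ∈ O
    swap
    · exact ⟨0, 0, ∅, fun h => absurd h hp⟩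
    obtain ⟨U, hU, g, hg⟩ : ∃ U ∈ 𝓝 p, ∃ g : Y → M, LocEq x (fun a b => g b - g a) (U \ A) := by
      by_cases hpA : p ∈ A
      · obtain ⟨U, hU, g, hg⟩ := hl p ⟨hpA, hp⟩
        exact ⟨U, hU, g, by simpa only [sub_zero] using hg⟩
      · obtain ⟨U, hU, h⟩ := hx p ⟨hp, hpA⟩
        exact ⟨interior U, interior_mem_nhds.2 hU, x p, fun q hq => ⟨U,
          mem_interior_iff_mem_nhds.1 hq.1, fun a ha b hb =>
            eq_sub_of_add_eq' (h p (mem_of_mem_nhds hU) a ha b hb)⟩⟩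
    obtain ⟨r, hr, hb⟩ := exists_three hU
    obtain ⟨W, w1, w2, w3, w4⟩ :=
      good hA hOA hp (Filter.inter_mem (ball_mem_nhds p hr) (hO.mem_nhds hp))
    exact ⟨g, r, W, fun _ => ⟨w1, w2, fun z hz => (w3 hz).1,
      fun z hz => ball_subset_ball (by linarith) (w3 hz).1, fun z hz => (w3 hz).2, w4,
      hg.mono (sdiff_subset_sdiff_left hb)⟩⟩
  choose g r W hW using key
  have H0 : ∀ p ∈ O, ∀ q ∈ O, r q ≤ r p → ∀ z ∈ (W p ∩ W q) \ A, ∀ z' ∈ (W p ∩ W q) \ A,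
      g p z - g q z = g p z' - g q z' := by
    intro p hp q hq hr z hz z' hz'
    obtain ⟨-, -, p3, -, -, -, p7⟩ := hW p hp
    obtain ⟨-, -, q3, q4, -, q6, q7⟩ := hW q hq
    refine const q6 (f := fun z => g p z - g q z) (fun w hw => ?_) ⟨hz.1.2, hz.2⟩ ⟨hz'.1.2, hz'.2⟩
    obtain ⟨U, hU, h1⟩ := p7 w ⟨three (p3 hz.1.1) (q3 hz.1.2) hr (q3 hw.1), hw.2⟩
    obtain ⟨U', hU', h2⟩ := q7 w ⟨q4 hw.1, hw.2⟩
    refine ⟨U ∩ U', Filter.inter_mem hU hU', fun a ha => ?_⟩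
    have h3 := (h1 w (mem_of_mem_nhds hU) a ha.1).symm.trans (h2 w (mem_of_mem_nhds hU') a ha.2)
    exact sub_eq_sub_iff_sub_eq_sub.1 h3
  have H : ∀ p ∈ O, ∀ q ∈ O, ∀ z ∈ (W p ∩ W q) \ A, ∀ z' ∈ (W p ∩ W q) \ A,
      g p z - g q z = g p z' - g q z' := by
    intro p hp q hq z hz z' hz'
    rcases le_total (r q) (r p) with h | h
    · exact H0 p hp q hq h z hz z' hz'
    · rw [inter_comm] at hz hz'
      rw [← neg_sub, H0 q hq p hp h z hz z' hz', neg_sub]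
  obtain ⟨G, G1, G2⟩ : ∃ G : Y → Y → M, (∀ p a, a ∉ A → G p a = g p a) ∧ ∀ p ∈ O, ∀ a ∈ O,
      a ∈ A → ∀ z ∈ (W p ∩ W a) \ A, G p a = g p z - g a z :=
    ⟨fun p a => if h : a ∈ A ∧ ((W p ∩ W a) \ A).Nonempty then g p h.2.some - g a h.2.some
      else g p a, fun p a ha => dif_neg fun h => ha h.1, fun p hp a ha haA z hz =>
        (dif_pos ⟨haA, z, hz⟩).trans (H p hp a ha _ (Nonempty.some_mem _) z hz)⟩
  have K0 : ∀ p ∈ O, ∀ q ∈ O, ∀ a ∈ W p ∩ W q, ∃ z ∈ (W p ∩ W q) \ A,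
      G p a - G q a = g p z - g q z := by
    intro p hp q hq a ha
    by_cases haA : a ∈ A
    · have haO := (hW p hp).2.2.2.2.1 ha.1
      obtain ⟨z, ⟨hz, hz'⟩, hzA⟩ := dense hA (Filter.inter_mem
        (((hW p hp).1.inter (hW q hq).1).mem_nhds ha) ((hW a haO).1.mem_nhds (hW a haO).2.1))
      exact ⟨z, ⟨hz, hzA⟩, by
        rw [G2 p hp a haO haA z ⟨⟨hz.1, hz'⟩, hzA⟩, G2 q hq a haO haA z ⟨⟨hz.2, hz'⟩, hzA⟩,
          sub_sub_sub_cancel_right]⟩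
    · exact ⟨a, ⟨ha, haA⟩, by rw [G1 p a haA, G1 q a haA]⟩
  obtain ⟨x', hx'⟩ : ∃ x' : Y → Y → M, ∀ p ∈ O, ∀ a ∈ W p, ∀ b ∈ W p, x' a b = G p b - G p a := by
    refine ⟨fun a b => if h : ∃ q, q ∈ O ∧ a ∈ W q ∧ b ∈ W q then
      G h.choose b - G h.choose a else 0, fun p hp a ha b hb => ?_⟩
    have h : ∃ q, q ∈ O ∧ a ∈ W q ∧ b ∈ W q := ⟨p, hp, ha, hb⟩
    obtain ⟨h1, h2, h3⟩ := h.choose_spec
    obtain ⟨z, hz, e1⟩ := K0 _ h1 p hp b ⟨h3, hb⟩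
    obtain ⟨z', hz', e2⟩ := K0 _ h1 p hp a ⟨h2, ha⟩
    exact (dif_pos h).trans (sub_eq_sub_iff_sub_eq_sub.1
      (e1.trans ((H _ h1 p hp z hz z' hz').trans e2.symm)))
  refine ⟨x', fun p hp => ⟨W p, (hW p hp).1.mem_nhds (hW p hp).2.1, fun a ha b hb c hc => ?_⟩,
    fun p hp => ?_⟩
  · rw [hx' p hp a ha b hb, hx' p hp b hb c hc, hx' p hp a ha c hc, sub_add_sub_cancel']
  · obtain ⟨w1, w2, -, w4, -, -, w7⟩ := hW p hp.1
    obtain ⟨U, hU, h⟩ := w7 p ⟨w4 w2, hp.2⟩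
    refine ⟨U ∩ (W p ∩ (O \ A)), Filter.inter_mem hU ((w1.inter hOA).mem_nhds ⟨w2, hp⟩),
      fun a ha b hb => ?_⟩
    rw [hx' p hp.1 a ha.2.1 b hb.2.1, G1 p a ha.2.2.2, G1 p b hb.2.2.2, h a ha.1 b hb.1]

/-- Tautness in degree one: a cocycle near `A` that is a coboundary on pairs of points of `A` is a
coboundary near `A`. -/
theorem taut_one [LocallyConnectedSpace Y] {M : Type} [AddCommGroup M] {A : Set Y}
    (hA : IsClosed A) {β : Y → Y → M} (hβ : IsCocA β A) {g : Y → M}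
    (hg : ∀ p ∈ A, ∃ U ∈ 𝓝 p, ∀ a ∈ U ∩ A, ∀ b ∈ U ∩ A, β a b = g b - g a) :
    ∃ γ : Y → M, LocEq β (fun x y => γ y - γ x) A ∧ ∀ a ∈ A, γ a = g a := by
  rcases A.eq_empty_or_nonempty with rfl | hne
  · exact ⟨g, fun _ h => h.elim, fun _ _ => rfl⟩
  have key : ∀ x, ∃ a ∈ A, dist x a ≤ 2 * infDist x A := fun x => by
    by_cases hx : x ∈ A
    · exact ⟨x, hx, by simp [infDist_nonneg]⟩
    · have := (hA.notMem_iff_infDist_pos hne).1 hx
      obtain ⟨a, ha, h⟩ := (infDist_lt_iff hne).1 (show infDist x A < 2 * infDist x A by linarith)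
      exact ⟨a, ha, h.le⟩
  choose π h1 h2 using key
  refine ⟨fun x => g (π x) + β (π x) x, fun p hp => ?_, fun a ha => ?_⟩
  · obtain ⟨U, hU, h3⟩ := hβ p hp
    obtain ⟨U', hU', h4⟩ := hg p hp
    obtain ⟨r, hr, hb⟩ := exists_three (Filter.inter_mem hU hU')
    have hp' := mem_of_mem_nhds hU
    have h5 : ∀ x ∈ ball p r, x ∈ U ∧ g (π x) + β (π x) x = g p + β p x := fun x hx => by
      have hx' := (hb (ball_subset_ball (by linarith) hx)).1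
      have h6 : π x ∈ U ∩ U' := hb (by
        rw [mem_ball] at *
        linarith [h2 x, infDist_le_dist_of_mem (x := x) hp, dist_triangle (π x) x p,
          dist_comm (π x) x])
      refine ⟨hx', ?_⟩
      rw [← h3 p hp' _ h6.1 x hx', h4 p ⟨mem_of_mem_nhds hU', hp⟩ _ ⟨h6.2, h1 x⟩]
      abel
    refine ⟨ball p r, ball_mem_nhds p hr, fun x hx y hy => ?_⟩
    simp only [(h5 x hx).2, (h5 y hy).2, ← h3 p hp' x (h5 x hx).1 y (h5 y hy).1]
    abel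
  · have h3 : π a = a := by
      have := h2 a
      rw [infDist_zero_of_mem ha, mul_zero, dist_le_zero] at this
      exact this.symm
    obtain ⟨U, hU, h4⟩ := hg a ha
    have := mem_of_mem_nhds hU
    simp only [h3, h4 a ⟨this, ha⟩ a ⟨this, ha⟩, sub_self, add_zero]

end Pool.Agent.HH
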