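import Pool.Agent.P.MP_c8dc46_gt.Hol

/-!
Acyclicity of convex sets. The proof uses the prism operator of two close maps and a continuous
contraction `f` of the open convex set towards a base point whose steps are so small that the
cocycle condition holds on all lists made of points `x` and `f x`.
-/

open Set Topology

namespace Pool.Agent.HH

variable {Y Y' : Type} [TopologicalSpace Y] [TopologicalSpace Y'] {R E : Type} [CommRing R]
  [AddCommGroup E] [Module R E]

namespace RConvex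

section Alg

variable {Z Z' : Type}

theorem d0_lin (L : Module.End R E) (l : List Z) (φ : List Z → E) :
    d0 l (fun m => L (φ m)) = L (d0 l φ) := by
  induction l generalizing φ with
  | nil => simp [d0]
  | cons x l ih =>
    simp only [d0, map_sub]
    rw [ih (fun m => φ (x :: m))]

theorem d0_sub (l : List Z) (φ ψ : List Z → E) :
    d0 l (fun m => φ m - ψ m) = d0 l φ - d0 l ψ := by
  induction l generalizing φ ψ with
  | nil => simp [d0]
  | cons x l ih =>
    simp only [d0]
    rw [ih (fun m => φ (x :: m)) (fun m => ψ (x :: m))]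
    abel

theorem d0_map (g : Z' → Z) (l : List Z') (φ : List Z → E) :
    d0 (l.map g) φ = d0 l (fun m => φ (m.map g)) := by
  induction l generalizing φ with
  | nil => simp [d0]
  | cons x l ih =>
    simp only [d0, List.map_cons]
    rw [ih (fun m => φ (g x :: m))]

theorem dT_triv_eq (φ : List Z → E) {l : List Z} (hl : 2 ≤ l.length) :
    dT (triv R E Z) φ l = d0 l φ := by
  match l, hl with
  | x :: y :: l, _ => rfl

/-- The prism operator between the identity and `g`. -/
def prism (g : Z → Z) : List Z → (List Z → E) → E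
  | [], _ => 0
  | x :: l, a => a (x :: g x :: l.map g) - prism g l (fun m => a (x :: m))

theorem prism_sub (g : Z → Z) (l : List Z) (φ ψ : List Z → E) :
    prism g l (fun m => φ m - ψ m) = prism g l φ - prism g l ψ := by
  induction l generalizing φ ψ with
  | nil => simp [prism]
  | cons x l ih =>
    simp only [prism]
    rw [ih (fun m => φ (x :: m)) (fun m => ψ (x :: m))]
    abel

theorem prism_id (g : Z → Z) (l : List Z) (a : List Z → E) :
    d0 l (fun m => prism g m a) + prism g l (fun m => d0 m a) = a (l.map g) - a l := by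
  induction l generalizing a with
  | nil => simp [d0, prism]
  | cons x l ih =>
    have h1 := ih (fun m => a (x :: m))
    simp only [d0, prism, List.map_cons]
    rw [d0_sub l (fun m => a (x :: g x :: m.map g)) (fun m => prism g m fun m => a (x :: m)),
      prism_sub g l a (fun m => d0 m fun m => a (x :: m)), d0_map g l]
    have h2 := eq_sub_of_add_eq h1
    rw [h2]
    abel

theorem prism_zero (g : Z → Z) {U : Set Z} (l : List Z) (φ : List Z → E)
    (hφ : ∀ m : List Z, m.length = l.length + 1 → (∀ x ∈ m, x ∈ U) → φ m = 0)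
    (hl : ∀ x ∈ l, x ∈ U ∧ g x ∈ U) : prism g l φ = 0 := by
  induction l generalizing φ with
  | nil => simp [prism]
  | cons x l ih =>
    simp only [prism]
    have hx := hl x (by simp)
    rw [ih (fun m => φ (x :: m)) ?_ (fun y hy => hl y (by simp [hy])), hφ, sub_zero]
    · simp
    · intro y hy
      simp only [List.mem_cons, List.mem_map] at hy
      rcases hy with rfl | rfl | ⟨z, hz, rfl⟩
      · exact hx.1
      · exact hx.2
      · exact (hl z (by simp [hz])).2
    · intro m hm hU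
      refine hφ _ (by simp [hm]) ?_
      intro y hy
      rcases List.mem_cons.1 hy with rfl | hy
      · exact hx.1
      · exact hU y hy

end Alg

end RConvex

open RConvex

theorem poincare {τ : Y → Y → Module.End R E} {p : Y} (hτ : IsCoc τ {p}) {n : ℕ} (hn : 2 ≤ n) :
    Acyc τ n {p} := by
  intro a ha
  obtain ⟨U, hU, h1⟩ := hτ p rfl
  obtain ⟨V, hV, h2⟩ := ha p rfl
  refine ⟨ga (fun x => τ x p) (fun l => a (p :: l)), ?_⟩
  rintro q rfl
  refine ⟨U ∩ V, Filter.inter_mem hU hV, fun l hl hx => ?_⟩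
  have hq : q ∈ U ∩ V := mem_of_mem_nhds (Filter.inter_mem hU hV)
  match l, hl with
  | [], hl => simp at hl; omega
  | [_], hl => simp at hl; omega
  | x :: z :: l, hl =>
    have hxU := hx x (by simp)
    have hzU := hx z (by simp)
    have h3 := h2 (q :: x :: z :: l) (by simpa using hl) (by
      intro y hy
      rcases List.mem_cons.1 hy with rfl | hy
      · exact hq.2
      · exact (hx y hy).2)
    rw [dT_cons, sub_eq_zero] at h3
    have e1 : τ x z * τ z q = τ x q := (h1 x hxU.1).2 z hzU.1 q hq.1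
    have e2 : τ x q * τ q x = 1 := by rw [(h1 x hxU.1).2 q hq.1 x hxU.1, (h1 x hxU.1).1]
    have e3 : ∀ e, τ x z (τ z q e) = τ x q e := fun e => by rw [← e1]; rfl
    have e4 : ∀ e, τ x q (τ q x e) = e := fun e => by
      rw [← Module.End.mul_apply, e2]; rfl
    rw [Pi.sub_apply, dT_cons, sub_eq_zero]
    show a (x :: z :: l) = τ x z (τ z q (a (q :: z :: l))) -
      d0 (z :: l) (fun m => τ x q (a (q :: x :: m)))
    rw [e3, d0_lin, ← map_sub, ← e4 (a (x :: z :: l)), h3]
    rfl

namespace RConvex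

/-- A continuous contraction with small steps. -/
theorem exists_step {W : Type} [NormedAddCommGroup W] [NormedSpace ℝ W] {O : Set W}
    (hc : Convex ℝ O) {o : W} (ho : o ∈ O) (G : Set W → Prop) (hG : ∀ U V, U ⊆ V → G V → G U)
    (h0 : G ∅) (hO : ∀ p ∈ O, ∃ U ∈ 𝓝 p, G U) :
    ∃ f : W → W, Continuous f ∧ MapsTo f O O ∧ (∀ x, ‖f x - o‖ ≤ ‖x - o‖) ∧
      (∀ p ∈ O, ∃ U, G U ∧ ∀ᶠ x in 𝓝 p, x ∈ U ∧ f x ∈ U) ∧
      ∀ p ∈ O, ∀ ε > 0, ∃ k, ‖f^[k] p - o‖ < ε := by
  set T : W → Set ℝ := fun x => {r | 0 ≤ r ∧ r ≤ 1 ∧ G (Metric.ball x r)} with hT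
  have hT0 : ∀ x, (0 : ℝ) ∈ T x := fun x => ⟨le_rfl, zero_le_one, by simpa using h0⟩
  have hTb : ∀ x, BddAbove (T x) := fun x => ⟨1, fun r hr => hr.2.1⟩
  set δ : W → ℝ := fun x => sSup (T x) with hδ
  have hδ0 : ∀ x, 0 ≤ δ x := fun x => le_csSup (hTb x) (hT0 x)
  have hδ1 : ∀ x, δ x ≤ 1 := fun x => csSup_le ⟨0, hT0 x⟩ fun r hr => hr.2.1
  have hδG : ∀ x r, r < δ x → G (Metric.ball x r) := by
    intro x r hr
    obtain ⟨s, hs, hrs⟩ := exists_lt_of_lt_csSup ⟨0, hT0 x⟩ hr
    exact hG _ _ (Metric.ball_subset_ball hrs.le) hs.2.2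
  have hδL : ∀ x y, δ x ≤ δ y + dist x y := by
    intro x y
    refine csSup_le ⟨0, hT0 x⟩ fun r hr => ?_
    by_cases h : r ≤ dist x y
    · linarith [hδ0 y]
    · have hd := dist_nonneg (x := x) (y := y)
      have : r - dist x y ∈ T y := by
        refine ⟨by linarith, by linarith [hr.2.1], hG _ _ ?_ hr.2.2⟩
        exact Metric.ball_subset_ball' (by rw [dist_comm]; linarith)
      linarith [le_csSup (hTb y) this]
  have hδc : Continuous δ := by
    refine (LipschitzWith.of_le_add hδL).continuous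
  have hδp : ∀ p ∈ O, 0 < δ p := by
    intro p hp
    obtain ⟨U, hU, hGU⟩ := hO p hp
    obtain ⟨r, hr, hrU⟩ := Metric.mem_nhds_iff.1 hU
    have : min r 1 ∈ T p := ⟨by positivity, min_le_right _ _,
      hG _ _ ((Metric.ball_subset_ball (min_le_left _ _)).trans hrU) hGU⟩
    exact lt_of_lt_of_le (by positivity) (le_csSup (hTb p) this)
  set s : W → ℝ := fun x => δ x / (4 * (1 + ‖x - o‖)) with hs
  have hsc : Continuous s := hδc.div (by fun_prop) fun x => by positivity
  have hs0 : ∀ x, 0 ≤ s x := fun x => div_nonneg (hδ0 x) (by positivity)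
  have hs1 : ∀ x, s x ≤ 1 := fun x => by
    rw [hs, div_le_one (by positivity)]
    nlinarith [hδ1 x, norm_nonneg (x - o)]
  have hsp : ∀ p ∈ O, 0 < s p := fun p hp => div_pos (hδp p hp) (by positivity)
  have hsn : ∀ x, s x * ‖x - o‖ ≤ δ x / 4 := fun x => by
    rw [hs, div_mul_eq_mul_div, div_le_div_iff₀ (by positivity) (by positivity)]
    nlinarith [hδ0 x, norm_nonneg (x - o)]
  set f : W → W := fun x => x + s x • (o - x) with hf
  have hfo : ∀ x, f x - o = (1 - s x) • (x - o) := fun x => by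
    simp only [hf, sub_smul, smul_sub, one_smul]; abel
  have hfn : ∀ x, ‖f x - o‖ = (1 - s x) * ‖x - o‖ := fun x => by
    rw [hfo, norm_smul, Real.norm_of_nonneg (by linarith [hs1 x])]
  have hfx : ∀ x, ‖f x - x‖ ≤ δ x / 4 := fun x => by
    have : f x - x = s x • (o - x) := by simp [hf]
    rw [this, norm_smul, Real.norm_of_nonneg (hs0 x), norm_sub_rev]
    exact hsn x
  have hfm : ∀ {K : Set W}, Convex ℝ K → o ∈ K → MapsTo f K K := fun hK hoK x hx =>
    hK.add_smul_sub_mem hx hoK ⟨hs0 x, hs1 x⟩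
  refine ⟨f, by fun_prop, hfm hc ho, fun x => ?_, fun p hp => ?_, fun p hp ε hε => ?_⟩
  · rw [hfn]; nlinarith [hs0 x, norm_nonneg (x - o)]
  · have hp0 := hδp p hp
    refine ⟨Metric.ball p (3 / 4 * δ p), hδG _ _ (by linarith), ?_⟩
    filter_upwards [Metric.ball_mem_nhds p (show 0 < δ p / 8 by positivity)] with x hx
    have hx' : dist x p < δ p / 8 := hx
    refine ⟨Metric.mem_ball.2 (by linarith), Metric.mem_ball.2 ?_⟩
    have := dist_triangle (f x) x p
    rw [dist_eq_norm (f x) x] at this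
    linarith [hfx x, hδL x p]
  · have hK : IsCompact (segment ℝ o p) := by
      rw [segment_eq_image]
      exact isCompact_Icc.image (by fun_prop)
    have hKO : segment ℝ o p ⊆ O := hc.segment_subset ho hp
    obtain ⟨z, hz, hmin⟩ := hK.exists_isMinOn ⟨o, left_mem_segment ℝ o p⟩ hsc.continuousOn
    have hz0 := hsp z (hKO hz)
    have hm := hfm (convex_segment o p) (left_mem_segment ℝ o p)
    have hk : ∀ k : ℕ, ‖f^[k] p - o‖ ≤ (1 - s z) ^ k * ‖p - o‖ := by
      intro k
      induction k with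
      | zero => simp
      | succ k ih =>
        rw [Function.iterate_succ_apply', hfn, pow_succ]
        have h1 : s z ≤ s (f^[k] p) := hmin (hm.iterate k (right_mem_segment ℝ o p))
        have h2 := norm_nonneg (f^[k] p - o)
        have h3 := hs1 z
        nlinarith
    have ht : Filter.Tendsto (fun k : ℕ => (1 - s z) ^ k * ‖p - o‖) Filter.atTop (𝓝 0) := by
      simpa using (tendsto_pow_atTop_nhds_zero_of_lt_one (r := 1 - s z) (by linarith [hs1 z])
        (by linarith)).mul_const ‖p - o‖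
    obtain ⟨k, hk'⟩ := (ht.eventually (gt_mem_nhds hε)).exists
    exact ⟨k, lt_of_le_of_lt (hk k) hk'⟩

theorem acyc_triv {W : Type} [NormedAddCommGroup W] [NormedSpace ℝ W]
    {O : Set W} (hc : Convex ℝ O) {n : ℕ} (hn : 2 ≤ n) : Acyc (triv R E W) n O := by
  classical
  rcases O.eq_empty_or_nonempty with rfl | ⟨o, ho⟩
  · exact fun a _ => ⟨0, mem_N_empty _ _⟩
  suffices H : ∀ a, dT (triv R E W) a ∈ N R E (n + 1) O → a ∈ N R E n {o} →
      Exa (triv R E W) n O a by
    intro a ha
    obtain ⟨y, hy⟩ := poincare (isCoc_triv (R := R) (E := E) {o}) hn a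
      (N_mono (singleton_subset_iff.2 ho) ha)
    have h1 := H (a - dT (triv R E W) y) (by rw [map_sub, dT_triv_dT, sub_zero]; exact ha) hy
    have h2 : Exa (triv R E W) n O (dT (triv R E W) y) := ⟨y, by simp⟩
    simpa using h1.add h2
  intro a ha hao
  obtain ⟨f, hfc, hfO, hfn, hfU, hfk⟩ := exists_step hc ho
    (fun U => ∀ l : List W, l.length = n + 1 → (∀ x ∈ l, x ∈ U) → dT (triv R E W) a l = 0)
    (fun U V hUV h l hl hx => h l hl fun x hx' => hUV (hx x hx'))
    (fun l hl hx => by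
      match l, hl with
      | x :: l, _ => exact absurd (hx x (by simp)) (notMem_empty x)) ha
  obtain ⟨Uo, hUo, hao'⟩ := hao o rfl
  obtain ⟨ε, hε, hεU⟩ := Metric.mem_nhds_iff.1 hUo
  set b : List W → E := fun l => prism f l a with hb
  have h1 : pull R E f a - a - dT (triv R E W) b ∈ N R E n O := by
    intro p hp
    obtain ⟨U, hGU, hU⟩ := hfU p hp
    refine ⟨_, hU, fun l hl hx => ?_⟩
    have h2 := prism_id f l a
    have h3 : prism f l (fun m => d0 m a) = 0 := by
      refine prism_zero f (U := U) l _ (fun m hm hmU => ?_) hx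
      rw [← dT_triv_eq (R := R) a (by omega)]
      exact hGU m (by omega) hmU
    rw [h3, add_zero] at h2
    rw [Pi.sub_apply, Pi.sub_apply, dT_triv_eq b (by omega), hb, h2]
    exact sub_self _
  have h2 : ∀ k : ℕ, pull R E f^[k] a - a -
      dT (triv R E W) (∑ i ∈ Finset.range k, pull R E f^[i] b) ∈ N R E n O := by
    intro k
    induction k with
    | zero =>
      have : pull R E (f^[0]) a = a := by funext l; simp [pull]
      rw [this]; simp
    | succ k ih =>
      have h3 := pull_mem_N (j := f^[k]) (S' := O) (fun p _ => (hfc.iterate k).continuousAt)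
        (hfO.iterate k) h1
      rw [map_sub, map_sub, pull_dT, pull_pull, ← Function.iterate_succ'] at h3
      have h4 := Submodule.add_mem _ h3 ih
      rw [Finset.sum_range_succ, map_add]
      convert h4 using 1
      have : pb f^[k] (triv R E W) = triv R E W := rfl
      rw [this]
      abel
  have hball : ∀ x, x ∈ Metric.ball o ε → f x ∈ Metric.ball o ε := fun x hx => by
    rw [mem_ball_iff_norm] at hx ⊢
    exact lt_of_le_of_lt (hfn x) hx
  refine ⟨fun l => -∑ᶠ i, pull R E f^[i] b l, mem_N_of_forall fun p hp => ⟨{p}, rfl, ?_⟩⟩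
  obtain ⟨k, hk⟩ := hfk p hp ε hε
  have hV : f^[k] ⁻¹' Metric.ball o ε ∈ 𝓝 p :=
    (hfc.iterate k).continuousAt.preimage_mem_nhds
      (Metric.isOpen_ball.mem_nhds (mem_ball_iff_norm.2 hk))
  have h3 : pull R E f^[k] a ∈ N R E n {p} := by
    rintro q rfl
    refine ⟨_, hV, fun l hl hx => hao' _ (by simpa using hl) fun x hx' => ?_⟩
    obtain ⟨z, hz, rfl⟩ := List.mem_map.1 hx'
    exact hεU (hx z hz)
  have h4 : (fun l => -∑ᶠ i, pull R E f^[i] b l) + ∑ i ∈ Finset.range k, pull R E f^[i] b ∈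
      N R E (n - 1) {p} := by
    rintro q rfl
    refine ⟨_, hV, fun l hl hx => ?_⟩
    rw [Pi.add_apply, Finset.sum_apply, finsum_eq_sum_of_support_subset (s := Finset.range k),
      neg_add_cancel]
    intro i hi
    by_contra hik
    simp only [Finset.coe_range, mem_Iio, not_lt] at hik
    obtain ⟨j, rfl⟩ := Nat.exists_eq_add_of_le' hik
    apply hi
    refine prism_zero f (U := Metric.ball o ε) (l.map f^[j + k]) a
      (fun m hm hmU => hao' m (by simp at hm; omega) fun x hx' => hεU (hmU x hx')) fun x hx' => ?_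
    obtain ⟨z, hz, rfl⟩ := List.mem_map.1 hx'
    have : f^[j + k] z ∈ Metric.ball o ε := by
      rw [Function.iterate_add_apply]
      exact MapsTo.iterate (f := f) (s := Metric.ball o ε) hball j (hx z hz)
    exact ⟨this, hball _ this⟩
  have h5 := dT_mem_N (triv R E W) h4
  rw [show n - 1 + 1 = n by omega, map_add] at h5
  have h6 := N_mono (singleton_subset_iff.2 hp) (h2 k)
  convert Submodule.sub_mem _ (Submodule.sub_mem _ h3 h6) h5 using 1
  abel

end RConvex

theorem acyc_convex {W : Type} [NormedAddCommGroup W] [NormedSpace ℝ W] [FiniteDimensional ℝ W]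
    {O : Set W} (hO : IsOpen O) (hc : Convex ℝ O) {τ : W → W → Module.End R E} (hτ : IsCoc τ O)
    {n : ℕ} (hn : 2 ≤ n) : Acyc τ n O := by
  obtain ⟨g, -, hg⟩ := exists_triv hO hc hτ 0
  refine Acyc.gauge (τ := triv R E W) (by omega)
    (fun x => LinearMap.GeneralLinearGroup.toLinearEquiv (g x)⁻¹) ?_ (acyc_triv hc hn)
  intro p hp
  obtain ⟨U, hU, h⟩ := hg p hp
  refine ⟨U, hU, fun x hx y hy => ?_⟩
  have h1 := h x hx y hy
  show ((g x)⁻¹ : (Module.End R E)ˣ).val * 1 = τ x y * ((g y)⁻¹ : (Module.End R E)ˣ).val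
  rw [h1, ← Units.val_mul]
  simp

theorem Cvx.acyc {S : Set Y} (hS : Cvx S) {τ : Y → Y → Module.End R E} (hτ : IsCoc τ S) {n : ℕ}
    (hn : 2 ≤ n) : Acyc τ n S := by
  obtain ⟨m, O, e, hc, he, rfl⟩ := hS
  exact (he.acyc_iff τ n).1 (acyc_convex he.isOpen hc
    (hτ.pb (fun p hp => he.cont.continuousAt (he.isOpen.mem_nhds hp)) (mapsTo_image e O)) hn)

/-- A parallel section that vanishes at one point of a preconnected set vanishes near all of it. -/
theorem par_zero {τ : Y → Y → Module.End R E} {S : Set Y} (hτ : IsCoc τ S)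
    (hS : IsPreconnected S) {φ : List Y → E} (hφ : dT τ φ ∈ N R E 2 S) {p : Y} (hp : p ∈ S)
    (h0 : φ [p] = 0) : φ ∈ N R E 1 S := by
  have key : ∀ q ∈ S, ∃ U ∈ 𝓝 q, ∀ x ∈ U, ∀ y ∈ U, φ [y] = 0 → φ [x] = 0 := by
    intro q hq
    obtain ⟨U, hU, h⟩ := mem_N_two.1 hφ q hq
    refine ⟨U, hU, fun x hx y hy hy0 => ?_⟩
    have := h x hx y hy
    rw [dT_two, hy0, map_zero, zero_sub, neg_eq_zero] at this
    exact this
  refine mem_N_one.2 fun q hq => ?_
  have h1 : φ [q] = 0 := by
    refine hS.induction₂' (fun x y => φ [x] = 0 → φ [y] = 0) (fun x hx => ?_)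
      (fun x y z _ _ _ h h' h'' => h' (h h'')) hp hq h0
    obtain ⟨U, hU, h⟩ := key x hx
    filter_upwards [mem_nhdsWithin_of_mem_nhds hU] with y hy
    exact ⟨h y hy x (mem_of_mem_nhds hU), h x (mem_of_mem_nhds hU) y hy⟩
  obtain ⟨U, hU, h⟩ := key q hq
  filter_upwards [hU] with x hx
  exact h x hx q (mem_of_mem_nhds hU) h1

/-- Parallel sections on a `Cvx` set take any prescribed value. -/
theorem Cvx.exists_par {S : Set Y} (hS : Cvx S) {τ : Y → Y → Module.End R E} (hτ : IsCoc τ S)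
    {p : Y} (hp : p ∈ S) (e : E) : ∃ φ, dT τ φ ∈ N R E 2 S ∧ φ [p] = e := by
  obtain ⟨g, hg⟩ := hS.exists_triv hτ
  refine ⟨c0 fun x => ((g x)⁻¹ * g p : (Module.End R E)ˣ).val e, mem_N_two.2 fun q hq => ?_, ?_⟩
  · obtain ⟨U, hU, h⟩ := hg q hq
    refine ⟨U, hU, fun x hx y hy => ?_⟩
    have h1 := h x hx y hy
    rw [dT_two, sub_eq_zero]
    show (τ x y * ((g y)⁻¹ * g p : (Module.End R E)ˣ).val) e =
      ((g x)⁻¹ * g p : (Module.End R E)ˣ).val e
    rw [h1, ← Units.val_mul, mul_assoc, mul_inv_cancel_left]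
  · show ((g p)⁻¹ * g p : (Module.End R E)ˣ).val e = e
    rw [inv_mul_cancel]
    rfl

theorem Cvx.isOpen {S : Set Y} (hS : Cvx S) : IsOpen S := by
  obtain ⟨m, O, e, -, he, rfl⟩ := hS
  exact he.img O he.isOpen subset_rfl

theorem Cvx.isPreconnected {S : Set Y} (hS : Cvx S) : IsPreconnected S := by
  obtain ⟨m, O, e, hc, he, rfl⟩ := hS
  exact hc.isPreconnected.image e he.cont

theorem cvx_empty [Nonempty Y] : Cvx (∅ : Set Y) := by
  refine ⟨0, ∅, fun _ => Classical.arbitrary Y, convex_empty,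
    ⟨isOpen_empty, continuousOn_empty _, injOn_empty _, fun V _ hV => ?_⟩, image_empty _⟩
  rw [subset_empty_iff.1 hV, image_empty]
  exact isOpen_empty

theorem Cvx.of_normed {W : Type} [NormedAddCommGroup W] [NormedSpace ℝ W] [FiniteDimensional ℝ W]
    {O : Set W} (hc : Convex ℝ O) {e : W → Y} (he : OE e O) : Cvx (e '' O) := by
  let L : (Fin (Module.finrank ℝ W) → ℝ) ≃L[ℝ] W := ContinuousLinearEquiv.ofFinrankEq (by simp)
  refine ⟨_, L ⁻¹' O, e ∘ L.toHomeomorph, hc.linear_preimage L.toLinearEquiv.toLinearMap,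
    he.comp (OE.of_homeomorph L.toHomeomorph (he.isOpen.preimage L.continuous)) fun x hx => hx, ?_⟩
  rw [image_comp]
  congr 1
  exact image_preimage_eq O L.surjective

theorem cvx_of_convex {W : Type} [NormedAddCommGroup W] [NormedSpace ℝ W] [FiniteDimensional ℝ W]
    {O : Set W} (hO : IsOpen O) (hc : Convex ℝ O) : Cvx O := by
  simpa using Cvx.of_normed hc (OE.of_homeomorph (Homeomorph.refl W) hO)

theorem Cvx.image {S : Set Y'} (hS : Cvx S) {Φ : Y' → Y} {O : Set Y'} (h : OE Φ O)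
    (hs : S ⊆ O) : Cvx (Φ '' S) := by
  obtain ⟨m, O', e, hc, he, rfl⟩ := hS
  exact ⟨m, O', Φ ∘ e, hc, h.comp he fun x hx => hs (mem_image_of_mem e hx), image_comp _ _ _⟩

theorem Cvx.prod {S : Set Y} (hS : Cvx S) {I : Set ℝ} (hI : IsOpen I) (hc : Convex ℝ I) :
    Cvx (S ×ˢ I) := by
  obtain ⟨m, O, e, hO, he, rfl⟩ := hS
  obtain ⟨e', hs, -, h⟩ := he.exists_openPartialHomeomorph
  have h1 := (OE.of_openPartialHomeomorph (e'.prod (OpenPartialHomeomorph.refl ℝ))).mono
    (he.isOpen.prod hI) (by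
      rw [OpenPartialHomeomorph.prod_source, hs]
      exact prod_mono subset_rfl (subset_univ _))
  have h2 := Cvx.of_normed (hO.prod hc) h1
  have h3 : (e'.prod (OpenPartialHomeomorph.refl ℝ) : _ → Y × ℝ) = Prod.map e id := by
    funext x
    simp [h, Prod.map]
  rwa [h3, prodMap_image_prod, image_id] at h2

namespace RConvex

/-- The sphere as a metric sphere. -/
noncomputable def sph : S3 ≃ₜ Metric.sphere (0 : WithLp 2 (ℂ × ℂ)) 1 :=
  (WithLp.homeomorphProd 2 ℂ ℂ).symm.subtype fun p => by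
    rw [mem_sphere_zero_iff_norm, ← sq_eq_sq₀ (norm_nonneg _) zero_le_one,
      WithLp.prod_norm_sq_eq_of_L2, one_pow]
    rfl

theorem finrank_four : Module.finrank ℝ (WithLp 2 (ℂ × ℂ)) = 3 + 1 := by
  rw [(WithLp.prodContinuousLinearEquiv 2 ℝ ℂ ℂ).toLinearEquiv.finrank_eq]
  simp

theorem exists_ne_S3 (p : S3) : ∃ q : S3, q ≠ p := by
  refine ⟨⟨-p.1, by simpa using p.2⟩, fun h => ?_⟩
  have h1 : -p.1 = p.1 := congrArg Subtype.val h
  have h2 : p.1 = 0 := by
    have : (2 : ℂ) • p.1 = 0 := by rw [two_smul]; nth_rewrite 1 [← h1]; simp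
    simpa using this
  have := p.2
  simp [h2] at this

end RConvex

/-- The complement of a point of the sphere is homeomorphic to `ℝ³`. -/
theorem exists_chart_S3 (q : S3) : ∃ e : (Fin 3 → ℝ) → S3, OE e univ ∧ range e = {q}ᶜ := by
  haveI : Fact (Module.finrank ℝ (WithLp 2 (ℂ × ℂ)) = 3 + 1) := ⟨finrank_four⟩
  let st := stereographic' 3 (sph q)
  let L := (EuclideanSpace.equiv (Fin 3) ℝ).toHomeomorph.symm
  have h1 : OE st.symm univ := by
    simpa [st] using OE.of_openPartialHomeomorph st.symm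
  refine ⟨sph.symm ∘ st.symm ∘ L, (OE.of_homeomorph sph.symm isOpen_univ).comp
    (h1.comp (OE.of_homeomorph L isOpen_univ) (mapsTo_univ _ _)) (mapsTo_univ _ _), ?_⟩
  have h2 : range st.symm = {sph q}ᶜ := by
    have := st.symm.image_source_eq_target
    simpa [st] using this
  rw [range_comp, range_comp, L.surjective.range_eq, image_univ, h2, sph.symm.image_compl,
    image_singleton, sph.symm_apply_apply]

theorem cvx_compl_singleton (q : S3) : Cvx ({q}ᶜ : Set S3) := by
  obtain ⟨e, he, hr⟩ := exists_chart_S3 q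
  exact ⟨3, univ, e, convex_univ, he, by rw [image_univ, hr]⟩

theorem exists_cvx_S3 {p : S3} {U : Set S3} (hU : U ∈ 𝓝 p) : ∃ V, Cvx V ∧ p ∈ V ∧ V ⊆ U := by
  obtain ⟨q, hq⟩ := exists_ne_S3 p
  obtain ⟨e, he, hr⟩ := exists_chart_S3 q
  obtain ⟨z, rfl⟩ : p ∈ range e := by rw [hr]; exact hq.symm
  obtain ⟨r, hr0, hrU⟩ := Metric.mem_nhds_iff.1
    ((he.cont.continuousAt Filter.univ_mem).preimage_mem_nhds hU)
  exact ⟨e '' Metric.ball z r,
    ⟨3, _, e, convex_ball z r, he.mono Metric.isOpen_ball (subset_univ _), rfl⟩,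
    mem_image_of_mem e (Metric.mem_ball_self hr0), image_subset_iff.2 hrU⟩

theorem exists_cvx_Y4 {p : Y4} {U : Set Y4} (hU : U ∈ 𝓝 p) : ∃ V, Cvx V ∧ p ∈ V ∧ V ⊆ U := by
  obtain ⟨A, hA, B, hB, hAB⟩ := mem_nhds_prod_iff.1 hU
  obtain ⟨V, hV, hpV, hVA⟩ := exists_cvx_S3 hA
  obtain ⟨r, hr0, hrB⟩ := Metric.mem_nhds_iff.1 hB
  exact ⟨V ×ˢ Metric.ball p.2 r, hV.prod Metric.isOpen_ball (convex_ball _ _),
    ⟨hpV, Metric.mem_ball_self hr0⟩, (prod_mono hVA hrB).trans hAB⟩

instance : CompactSpace S3 := by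
  exact sph.symm.compactSpace

instance : Nonempty S3 := ⟨iota 0 0⟩

instance : ConnectedSpace S3 := by
  haveI : ConnectedSpace (Metric.sphere (0 : WithLp 2 (ℂ × ℂ)) 1) := by
    refine isConnected_iff_connectedSpace.1 (isConnected_sphere ?_ _ zero_le_one)
    rw [← Module.finrank_eq_rank, finrank_four]
    norm_num
  exact sph.symm.surjective.connectedSpace sph.symm.continuous

instance : LocallyConnectedSpace S3 := by
  refine locallyConnectedSpace_iff_connected_subsets.2 fun x U hU => ?_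
  obtain ⟨V, hV, hx, hVU⟩ := exists_cvx_S3 hU
  exact ⟨V, hV.isOpen.mem_nhds hx, hV.isPreconnected, hVU⟩

namespace RConvex

theorem acyc_two_union [TopologicalSpace.MetrizableSpace Y] {U V : Set Y} (hU : Cvx U)
    (hV : Cvx V) (h : IsConnected (U ∩ V)) : Acyc (triv R E Y) 2 (U ∪ V) := by
  intro a ha
  obtain ⟨y₁, h₁⟩ := hU.acyc (isCoc_triv U) le_rfl a (mem_N_union.1 ha).1
  obtain ⟨y₂, h₂⟩ := hV.acyc (isCoc_triv V) le_rfl a (mem_N_union.1 ha).2
  obtain ⟨p, hp⟩ := h.nonempty
  set c : List Y → E := fun _ => y₁ [p] - y₂ [p] with hc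
  have hc0 : ∀ S : Set Y, dT (triv R E Y) c ∈ N R E 2 S := fun S =>
    mem_N_two.2 fun q _ => ⟨univ, Filter.univ_mem, fun x _ y _ => by
      rw [dT_two]; exact sub_self _⟩
  have h3 : y₁ - c - y₂ ∈ N R E 1 (U ∩ V) := by
    refine par_zero (isCoc_triv _) h.isPreconnected ?_ hp (by simp [hc])
    have := Submodule.sub_mem _ (Submodule.sub_mem _ (N_mono inter_subset_right h₂)
      (N_mono inter_subset_left h₁)) (hc0 (U ∩ V))
    rw [map_sub, map_sub]
    convert this using 1
    abel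
  obtain ⟨u₁, hu₁, u₂, hu₂, hu⟩ :=
    Submodule.mem_sup.1 (N_inter_open le_rfl hU.isOpen hV.isOpen h3)
  refine ⟨y₂ + u₂, mem_N_union.2 ⟨?_, ?_⟩⟩
  · have e : y₂ + u₂ = y₁ - c - u₁ := by
      rw [eq_sub_of_add_eq' hu]; abel
    have := Submodule.add_mem _ (Submodule.add_mem _ h₁ (hc0 U)) (dT_mem_N (triv R E Y) hu₁)
    rw [e, map_sub, map_sub]
    convert this using 1
    abel
  · have := Submodule.sub_mem _ h₂ (dT_mem_N (triv R E Y) hu₂)
    rw [map_add]
    convert this using 1
    abel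

theorem exists_two_S3 : ∃ U V : Set S3, Cvx U ∧ Cvx V ∧ IsConnected (U ∩ V) ∧ U ∪ V = univ := by
  obtain ⟨q, hq⟩ := exists_ne_S3 (iota 0 0)
  refine ⟨{q}ᶜ, {iota 0 0}ᶜ, cvx_compl_singleton _, cvx_compl_singleton _, ?_, ?_⟩
  · obtain ⟨e, he, hr⟩ := exists_chart_S3 q
    obtain ⟨z, hz⟩ : iota 0 0 ∈ range e := by rw [hr]; exact hq.symm
    have h1 : IsConnected ({z}ᶜ : Set (Fin 3 → ℝ)) :=
      isConnected_compl_singleton_of_one_lt_rank (by simp) z
    have h2 := h1.image e (he.cont.mono (subset_univ _))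
    have hi : Function.Injective e := injOn_univ.1 he.inj
    rwa [compl_eq_univ_sdiff, image_sdiff hi, image_univ, hr, image_singleton, hz] at h2
  · rw [← compl_inter, singleton_inter_of_notMem (by simpa using hq), compl_empty]

end RConvex

/-- `H¹ (S³) = 0`: the two charts meet in a connected set. -/
theorem acyc_two_S3 : Acyc (triv R E S3) 2 univ := by
  obtain ⟨U, V, hU, hV, h, e⟩ := exists_two_S3
  rw [← e]
  exact acyc_two_union hU hV h

theorem acyc_two_Y4 : Acyc (triv R E Y4) 2 univ := by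
  obtain ⟨U, V, hU, hV, h, e⟩ := exists_two_S3
  have := acyc_two_union (R := R) (E := E) (hU.prod isOpen_univ convex_univ)
    (hV.prod isOpen_univ convex_univ) (by
      rw [← inter_prod]
      exact h.prod isConnected_univ)
  rwa [← union_prod, e, univ_prod_univ] at this

end Pool.Agent.HH
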