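import Pool.Agent.P.MP_c8dc46_gt.TorB
import Pool.Agent.P.MP_c8dc46_gt.BumpB

/-!
Existence of long torus knots: the tube around the torus knot is normalised near one point of the
unknot and conjugated by a Moebius map.
-/

open Set Topology

namespace Pool.Agent.HH

namespace RLKx

theorem div_norm_mul {c : ℝ} (hc : 0 < c) (z : ℂ) : c * z / ‖c * z‖ = z / ‖z‖ := by
  have h : (c : ℂ) ≠ 0 := by exact_mod_cast hc.ne'
  rw [norm_mul, Complex.norm_real, Real.norm_of_nonneg hc.le, Complex.ofReal_mul,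
    mul_div_mul_left _ _ h]

/-- The embedding of the complement of `eta 0` onto the tube, normalised near `iota θ' 0`. -/
theorem exists_emb {r s : ℕ} (hr : 0 < r) (hs : 0 < s) (hc : Nat.Coprime r s) (θ' : ℝ) :
    ∃ (F : S3 → S3) (H : S3 ≃ₜ S3) (V : Set S3), OE F (eta 0)ᶜ ∧ V ∈ 𝓝 (iota θ' 0) ∧
      (∀ p ∈ V, F p = p) ∧ (∀ p, p ∉ eta 0 → tf r s (H (F p)) = yc p / 10) ∧
      ∀ p, tf r s (H p) = 0 → ∃ u, yc u = 0 ∧ F u = p := by
  obtain ⟨L, hL, hg⟩ := tg_deriv (r := r) (s := s) hr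
  obtain ⟨ε, hε, H, -, hH⟩ := norm_iota hL hg (norm_tg_lt (by simp)) θ'
  have hε2 : ε * ε = 1 := by rcases hε with rfl | rfl <;> norm_num
  have hi : IsCC (fun q : ℝ × ℂ => iota q.1 q.2) (Metric.ball 0 1) :=
    isCC_iota Metric.isOpen_ball (convex_ball _ _) fun d hd => by simpa using hd
  have he := ((isCC_te hr hs hc).reparam hε θ').comp (OE.of_homeomorph H.symm isOpen_univ)
    (subset_univ _)
  obtain ⟨F, hF, hFe⟩ := hi.exists_trans he
  rw [iota_image] at hF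
  have hFe' : ∀ θ d, ‖d‖ < 1 → F (iota θ d) = H.symm (te r s (ε * (θ - θ'), d)) :=
    fun θ d hd => hFe θ d (by simpa using hd)
  have hT : Filter.Tendsto (fun q : ℝ × ℂ => (ε * (q.1 - θ'), q.2)) (𝓝 (θ', 0)) (𝓝 (0, 0)) := by
    have : Continuous fun q : ℝ × ℂ => (ε * (q.1 - θ'), q.2) := by fun_prop
    simpa using this.tendsto (θ', 0)
  have hb : univ ×ˢ Metric.ball (0 : ℂ) 1 ∈ 𝓝 ((θ', 0) : ℝ × ℂ) :=
    (isOpen_univ.prod Metric.isOpen_ball).mem_nhds ⟨mem_univ _, by simp⟩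
  obtain ⟨W, hW, hWo, hW0⟩ := mem_nhds_iff.1 (Filter.inter_mem (hT.eventually hH) hb)
  refine ⟨F, H, (fun q : ℝ × ℂ => iota q.1 q.2) '' W, hF,
    (hi.img W hWo fun q hq => (hW hq).2).mem_nhds ⟨_, hW0, rfl⟩, ?_, fun p hp => ?_,
    fun p hp => ?_⟩
  · rintro _ ⟨q, hq, rfl⟩
    have h1 : H (iota (θ' + ε * (ε * (q.1 - θ') - 0)) q.2) = te r s (ε * (q.1 - θ'), q.2) :=
      (hW hq).1
    rw [sub_zero, ← mul_assoc, hε2, one_mul, add_sub_cancel] at h1
    rw [hFe' _ _ (by simpa using (hW hq).2.2), ← h1, H.symm_apply_apply]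
  · have hp' : p ∈ (eta 0)ᶜ := hp
    rw [← iota_image] at hp'
    obtain ⟨q, hq, rfl⟩ := hp'
    have hd : ‖q.2‖ < 1 := by simpa using hq.2
    beta_reduce
    rw [hFe' _ _ hd, H.apply_symm_apply, tf_te hr hs (q := (ε * (q.1 - θ'), q.2)) hd, yc_iota hd.le]
  · obtain ⟨q, hq, hpq⟩ := exists_te hr hs hc (p := H p) (by rw [hp]; norm_num)
    have h0 : q.2 = 0 := by
      have := tf_te (r := r) (s := s) hr hs hq
      rw [← hpq, hp] at this
      simpa using this.symm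
    refine ⟨iota (θ' + ε * q.1) 0, yc_iota (by simp), ?_⟩
    rw [hFe' _ _ (by simp), add_sub_cancel_left, ← mul_assoc, hε2, one_mul, ← h0, ← hpq,
      H.symm_apply_apply]

theorem not_mem_eta {p : S3} (hp : yc p = 0) : p ∉ eta 0 := by
  intro h
  have h1 := (yc_eq_zero_iff p).1 hp
  have h2 : xc p = 0 := h
  simp [h2] at h1

end RLKx

open RLKx

theorem exists_lk {r s : ℕ} (hr : 0 < r) (hs : 0 < s) (hc : Nat.Coprime r s) {σ : ℝ}
    (hσ : σ = 1 ∨ σ = -1) :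
    ∃ a₀ : ℝ, a₀ < 1 ∧ ∀ a, a₀ ≤ a → a < 1 → ∀ ρ, 0 < ρ → Nonempty (LK r s σ a ρ) := by
  obtain ⟨θ', hθ'⟩ := exists_ex (z := ((-σ : ℝ) : ℂ)) (by rcases hσ with rfl | rfl <;> simp)
  obtain ⟨F, H, V, hF, hV, hid, htf, hsurj⟩ := exists_emb hr hs hc θ'
  obtain ⟨a₀, h0, h1, hcon⟩ := mob_contract hσ (q := iota θ' 0)
    (by rw [xc_iota (by simp), hθ']; simp) hV
  refine ⟨a₀, h1, fun a ha ha1 ρ hρ => ?_⟩
  have ht : |σ * a| < 1 := by
    have : |a| < 1 := abs_lt.2 ⟨by linarith, ha1⟩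
    rcases hσ with rfl | rfl <;> simpa using this
  have ht' : |-(σ * a)| < 1 := by rwa [abs_neg]
  set M := mob (σ * a) with hM
  have hMs : M.symm = mob (-(σ * a)) := mob_symm _
  have heta : ∀ p, p ∉ eta (σ * a : ℝ) → M.symm p ∉ eta 0 := fun p hp h =>
    hp (M.apply_symm_apply p ▸ (mob_mem_eta ht (M.symm p)).2 h)
  have hy : ∀ p, ∃ c : ℝ, 0 < c ∧ yc (M.symm p) = c * yc p := fun p => hMs ▸ yc_mob ht' p
  have hK : (M ∘ F ∘ M.symm) '' Uk = (M.symm.trans H) ⁻¹' {p | tf r s p = 0} := by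
    ext p
    constructor
    · rintro ⟨u, hu, rfl⟩
      obtain ⟨c, -, hc⟩ := hy u
      have hu' : yc u = 0 := hu
      rw [hu', mul_zero] at hc
      change tf r s (H (M.symm (M (F (M.symm u))))) = 0
      rw [M.symm_apply_apply, htf _ (not_mem_eta hc), hc, zero_div]
    · intro hp
      obtain ⟨u, hu, hFu⟩ := hsurj (M.symm p) hp
      obtain ⟨c, -, hc⟩ := yc_mob ht u
      rw [hu, mul_zero] at hc
      refine ⟨M u, hc, ?_⟩
      simp only [Function.comp_apply, M.symm_apply_apply, hFu, M.apply_symm_apply]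
  have hne : ∀ p ∈ ((M ∘ F ∘ M.symm) '' Uk)ᶜ, tf r s (H (M.symm p)) ≠ 0 := by
    rw [hK]
    exact fun p hp => hp
  have hct : Continuous fun p => tf r s (H (M.symm p)) :=
    (continuous_tf hr hs).comp (H.continuous.comp M.symm.continuous)
  obtain ⟨c₀⟩ := cov3_tf hr hs hc
  obtain ⟨c⟩ := c₀.homeo (M.symm.trans H)
    (ϑ' := fun p => tf r s (H (M.symm p)) / ‖tf r s (H (M.symm p))‖) fun p hp =>
      ⟨‖tf r s (H (M.symm p))‖⁻¹, inv_pos.2 (norm_pos_iff.2 hp), by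
        rw [div_eq_inv_mul, Complex.ofReal_inv]; rfl⟩
  refine ⟨⟨M ∘ F ∘ M.symm, fun p => tf r s (H (M.symm p)) / ‖tf r s (H (M.symm p))‖,
    (OE.of_homeomorph M isOpen_univ).comp (hF.comp (OE.of_homeomorph M.symm
      (isClosed_eq continuous_xc continuous_const).isOpen_compl) heta) (mapsTo_univ _ _),
    fun p hp => ?_, fun p hp => ?_, fun p hp => ?_, fun p hp hyp => ?_, c.Φ, c.O, c.o, c.O₀, c.O₁,
    c.cc, c.omem, c.h₀, c.h₁, c.cover.trans (congrArg compl hK.symm), c.disj, c.i₀, c.i₁, c.hol₀, c.hol₁, c.hol₂⟩⟩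
  · have := hid _ (hcon a ha ha1 p hp)
    rw [← hMs] at this
    simp only [Function.comp_apply, this, M.apply_symm_apply]
  · refine hct.continuousAt.div (Complex.continuous_ofReal.comp hct.norm).continuousAt ?_
    exact_mod_cast norm_ne_zero_iff.2 (hne p hp)
  · exact div_ne_zero (hne p hp) (by exact_mod_cast norm_ne_zero_iff.2 (hne p hp))
  · have hp' : p ∉ eta (σ * a : ℝ) := fun h => by
      have h' : xc p = (σ * a : ℝ) := h
      rw [h', sub_self, norm_zero] at hp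
      exact absurd hρ (not_lt.2 hp)
    obtain ⟨c', hc', hyc⟩ := hy p
    simp only [Function.comp_apply, M.symm_apply_apply]
    rw [htf _ (heta p hp'), hyc, ← div_norm_mul (c := c' / 10) (by positivity) (yc p)]
    congr 3 <;> push_cast <;> ring

end Pool.Agent.HH
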