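import Pool.Agent.P.MP_c8dc46_gt.LKb
import Pool.Agent.P.MP_c8dc46_gt.Mob

/-!
The connected sum of the two long knots, and tubes.
-/

open Set Topology

namespace Pool.Agent.HH

variable {r₀ s₀ r₁ s₁ : ℕ} {a ρ : ℝ} (k₀ : LK r₀ s₀ (sg 0) a ρ) (k₁ : LK r₁ s₁ (sg 1) a ρ)

namespace RSumL

theorem sg0 : sg 0 = -1 := by simp [sg]

theorem sg1 : sg 1 = 1 := by simp [sg]

theorem re_ex (u : ℝ) : (ex u).re = Real.cos (2 * Real.pi * u) := by
  have h : (2 * Real.pi * u * Complex.I : ℂ) = ((2 * Real.pi * u : ℝ) : ℂ) * Complex.I := by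
    push_cast; ring
  rw [ex, h, Complex.exp_ofReal_mul_I_re]

theorem re_ex_neg {u : ℝ} (h1 : 1 / 4 < u) (h2 : u < 3 / 4) : (ex u).re < 0 := by
  rw [re_ex]
  exact Real.cos_neg_of_pi_div_two_lt_of_lt (by nlinarith [Real.pi_pos])
    (by nlinarith [Real.pi_pos])

theorem re_ex_nonpos {u : ℝ} (h1 : 1 / 4 ≤ u) (h2 : u ≤ 3 / 4) : (ex u).re ≤ 0 := by
  rw [re_ex]
  exact Real.cos_nonpos_of_pi_div_two_le_of_le (by nlinarith [Real.pi_pos])
    (by nlinarith [Real.pi_pos])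

theorem re_ex_pos {u : ℝ} (h1 : 3 / 4 < u) (h2 : u < 5 / 4) : 0 < (ex u).re := by
  rw [re_ex, ← Real.cos_sub_two_pi]
  exact Real.cos_pos_of_mem_Ioo ⟨by nlinarith [Real.pi_pos], by nlinarith [Real.pi_pos]⟩

theorem re_ex_nonneg {u : ℝ} (h1 : 3 / 4 ≤ u) (h2 : u ≤ 5 / 4) : 0 ≤ (ex u).re := by
  rw [re_ex, ← Real.cos_sub_two_pi]
  exact Real.cos_nonneg_of_mem_Icc ⟨by nlinarith [Real.pi_pos], by nlinarith [Real.pi_pos]⟩

theorem xc_iota_zero (u : ℝ) : xc (iota u 0) = ex u := by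
  rw [xc_iota (by simp)]
  simp

theorem yc_iota_zero (u : ℝ) : yc (iota u 0) = 0 := yc_iota (by simp)

theorem isClosed_eta (x₀ : ℂ) : IsClosed (eta x₀) := isClosed_eq continuous_xc continuous_const

theorem continuous_re : Continuous fun p : S3 => (xc p).re :=
  Complex.continuous_re.comp continuous_xc

theorem norm_centre {σ : ℝ} (hR : Rad a ρ) (hσ : σ = 1 ∨ σ = -1) : ‖((σ * a : ℝ) : ℂ)‖ = a := by
  have ha : 0 ≤ a := by linarith [hR.1]
  rw [Complex.norm_real, Real.norm_eq_abs]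
  rcases hσ with rfl | rfl <;> simp [abs_of_nonneg ha]

theorem not_mem_eta {σ : ℝ} (hR : Rad a ρ) (hσ : σ = 1 ∨ σ = -1) {p : S3} (hp : a < ‖xc p‖) :
    p ∉ eta (σ * a : ℝ) := by
  intro h
  have h' : xc p = (σ * a : ℝ) := h
  rw [h', norm_centre hR hσ] at hp
  exact lt_irrefl _ hp

theorem not_mem_eta_U {σ : ℝ} (hR : Rad a ρ) (hσ : σ = 1 ∨ σ = -1) {p : S3} (hp : p ∈ Uk) :
    p ∉ eta (σ * a : ℝ) := by
  refine not_mem_eta hR hσ ?_
  rw [(yc_eq_zero_iff p).1 hp]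
  linarith [hR.2.1, hR.2.2]

theorem far_of_norm {σ : ℝ} (hR : Rad a ρ) (hσ : σ = 1 ∨ σ = -1) {p : S3}
    (hp : a + 7 * ρ < ‖xc p‖) : ρ ≤ ‖xc p - (σ * a : ℝ)‖ := by
  have h := norm_sub_norm_le (xc p) ((σ * a : ℝ) : ℂ)
  rw [norm_centre hR hσ] at h
  linarith [hR.2.1]

theorem far_of_re {σ : ℝ} (hR : Rad a ρ) (hσ : σ = 1 ∨ σ = -1) {p : S3}
    (hp : σ * (xc p).re ≤ 1 / 2) : ρ ≤ ‖xc p - (σ * a : ℝ)‖ := by
  have h := Complex.abs_re_le_norm (xc p - (σ * a : ℝ))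
  rw [Complex.sub_re, Complex.ofReal_re] at h
  obtain ⟨h1, h2⟩ := abs_le.1 h
  obtain ⟨r1, r2, r3⟩ := hR
  rcases hσ with rfl | rfl <;> linarith

theorem side_pos {r s : ℕ} {σ : ℝ} (k : LK r s σ a ρ) (hR : Rad a ρ) (hσ : σ = 1 ∨ σ = -1)
    {p : S3} (hp : p ∉ eta (σ * a : ℝ)) {b : ℝ} (hb : b ≤ 1 / 2) (h : b < σ * (xc p).re) :
    b < σ * (xc (k.F p)).re := by
  by_cases h1 : σ * (xc p).re ≤ 1 / 2
  · rwa [k.idz p h1]
  · exact hb.trans_lt (k.side hR hσ hp (not_le.1 h1))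

theorem side_nonneg {r s : ℕ} {σ : ℝ} (k : LK r s σ a ρ) (hR : Rad a ρ) (hσ : σ = 1 ∨ σ = -1)
    {p : S3} (hp : p ∉ eta (σ * a : ℝ)) (h : 0 ≤ σ * (xc p).re) : 0 ≤ σ * (xc (k.F p)).re := by
  by_cases h1 : σ * (xc p).re ≤ 1 / 2
  · rwa [k.idz p h1]
  · linarith [k.side hR hσ hp (not_le.1 h1)]

theorem range_shift (G : S3 → S3) (c : ℝ) : range (fun t => G (iota (t + c) 0)) = G '' Uk := by
  rw [← isKnot_U.2]
  ext p
  constructor
  · rintro ⟨t, rfl⟩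
    exact ⟨_, ⟨t + c, rfl⟩, rfl⟩
  · rintro ⟨_, ⟨t, rfl⟩, rfl⟩
    exact ⟨t - c, by simp⟩

theorem isTube_of {G : S3 → S3} {D : Set S3} (hG : OE G D) {b : ℝ} (hD : ∀ p, b < ‖xc p‖ → p ∈ D)
    (hid : ∀ p, |(xc p).re| ≤ 1 / 2 → G p = p) {ϑ : S3 → ℂ} (hc : ContinuousOn ϑ (G '' Uk)ᶜ)
    (hne : ∀ p, p ∉ G '' Uk → ϑ p ≠ 0)
    (hex : ∀ p, b < ‖xc p‖ → yc p ≠ 0 → ϑ (G p) = yc p / ‖yc p‖) (θ₀ : ℝ) {c : ℝ} (hc0 : 0 < c)
    (hc1 : c ≤ 1) (ht : b ≤ Real.sqrt (1 - c ^ 2)) :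
    IsTube (fun t => G (iota (t + θ₀) 0)) fun θ d => G (iota (θ + θ₀) (c * d)) := by
  have hn : ∀ d : ℂ, ‖(c : ℂ) * d‖ = c * ‖d‖ := fun d => by
    rw [norm_mul, Complex.norm_real, Real.norm_eq_abs, abs_of_pos hc0]
  have hlt : ∀ d : ℂ, ‖d‖ < 1 → ‖(c : ℂ) * d‖ < c := fun d hd => by
    rw [hn]
    exact mul_lt_of_lt_one_right hc0 hd
  have hb : ∀ (θ : ℝ) (d : ℂ), ‖d‖ < 1 → b < ‖xc (iota θ (c * d))‖ := fun θ d hd => by
    have h1 := hlt d hd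
    have h2 := norm_nonneg ((c : ℂ) * d)
    rw [xc_iota (h1.le.trans hc1), norm_mul, norm_ex, mul_one, Complex.norm_real,
      Real.norm_eq_abs, abs_of_nonneg (Real.sqrt_nonneg _)]
    exact ht.trans_lt (Real.sqrt_lt_sqrt (by nlinarith) (by nlinarith))
  refine ⟨?_, ?_, ?_, ?_, ?_, ?_⟩
  · refine hG.cont.comp (continuousOn_iota.comp (f := fun q : ℝ × ℂ => (q.1 + θ₀, (c : ℂ) * q.2))
      (by fun_prop) fun q hq => (hlt q.2 hq).le.trans hc1) fun q hq => hD _ (hb _ _ hq)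
  · intro θ d
    have := iota_add_int (θ + θ₀) 1 (c * d)
    rw [Int.cast_one] at this
    show G (iota (θ + 1 + θ₀) (c * d)) = G (iota (θ + θ₀) (c * d))
    rw [add_right_comm, this]
  · intro θ d θ' d' hd hd' h
    have h1 := hG.inj (hD _ (hb _ _ hd)) (hD _ (hb _ _ hd')) h
    obtain ⟨h2, n, h3⟩ := (isCC_iota (O := Metric.ball 0 1) Metric.isOpen_ball (convex_ball 0 1)
      (fun d hd => mem_ball_zero_iff.1 hd)).inj (θ + θ₀) (θ' + θ₀) _
      (mem_ball_zero_iff.2 ((hlt d hd).trans_le hc1)) _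
      (mem_ball_zero_iff.2 ((hlt d' hd').trans_le hc1)) h1
    exact ⟨mul_left_cancel₀ (by exact_mod_cast hc0.ne') h2, n, by linarith⟩
  · intro θ
    simp only [mul_zero]
  · refine ⟨rotX (-θ₀), isot_rotX _, c, hc0, hc1,
      {q | ‖q.2‖ < 1} ∩ {q | |(ex (q.1 + θ₀)).re| < 1 / 2}, ?_, ⟨(1 / 4 - θ₀, 0), ?_, ?_⟩, ?_⟩
    · refine (isOpen_lt (by fun_prop) continuous_const).inter (isOpen_lt ?_ continuous_const)
      have := RInt3.continuous_ex
      fun_prop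
    · simp
    · show |(ex (1 / 4 - θ₀ + θ₀)).re| < 1 / 2
      rw [sub_add_cancel, le_antisymm (re_ex_nonpos le_rfl (by norm_num)) ?_]
      · simp
      · rw [re_ex, show 2 * Real.pi * (1 / 4) = Real.pi / 2 by ring, Real.cos_pi_div_two]
    · rintro q ⟨hq, hq'⟩
      have h1 : ‖(c : ℂ) * q.2‖ ≤ 1 := (hlt q.2 hq).le.trans hc1
      refine ⟨hq, ?_⟩
      show rotX (-θ₀) (G (iota (q.1 + θ₀) (c * q.2))) = iota q.1 (c * q.2)
      rw [hid, rotX_iota _ _ h1, add_neg_cancel_right]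
      rw [xc_iota h1, Complex.re_ofReal_mul, abs_mul, abs_of_nonneg (Real.sqrt_nonneg _)]
      have h2 : Real.sqrt (1 - ‖(c : ℂ) * q.2‖ ^ 2) ≤ 1 :=
        Real.sqrt_le_one.2 (by nlinarith [sq_nonneg ‖(c : ℂ) * q.2‖])
      exact (mul_le_of_le_one_left (abs_nonneg _) h2).trans (le_of_lt hq')
  · rw [range_shift]
    refine ⟨ϑ, hc, hne, fun θ d hd0 hd => ?_⟩
    have h1 : ‖(c : ℂ) * d‖ ≤ 1 := (hlt d hd).le.trans hc1
    have h2 : (c : ℂ) * d ≠ 0 := mul_ne_zero (by exact_mod_cast hc0.ne') hd0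
    refine ⟨c / ‖(c : ℂ) * d‖, div_pos hc0 (norm_pos_iff.2 h2), ?_⟩
    show ϑ (G (iota (θ + θ₀) (c * d))) = _
    rw [hex _ (hb _ _ hd) (by rwa [yc_iota h1]), yc_iota h1]
    push_cast
    ring

end RSumL

open RSumL

theorem sg_cases (i : Fin 2) : sg i = 1 ∨ sg i = -1 := by
  unfold sg
  split_ifs
  · exact Or.inr rfl
  · exact Or.inl rfl

theorem FL_left {p : S3} (hp : (xc p).re ≤ 1 / 2) : FL k₀.F k₁.F p = k₀.F p := by
  unfold FL
  split_ifs with h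
  · rfl
  · rw [k₀.idz p (by rw [sg0]; linarith), k₁.idz p (by rw [sg1]; linarith)]

theorem FL_right {p : S3} (hp : -1 / 2 ≤ (xc p).re) : FL k₀.F k₁.F p = k₁.F p := by
  unfold FL
  split_ifs with h
  · rw [k₀.idz p (by rw [sg0]; linarith), k₁.idz p (by rw [sg1]; linarith)]
  · rfl

theorem oe_FL (hR : Rad a ρ) :
    OE (FL k₀.F k₁.F) (eta (sg 0 * a : ℝ) ∪ eta (sg 1 * a : ℝ))ᶜ := by
  have hA : IsOpen {p : S3 | (xc p).re < 1 / 2} := isOpen_lt continuous_re continuous_const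
  have hB : IsOpen {p : S3 | -1 / 2 < (xc p).re} := isOpen_lt continuous_const continuous_re
  have hx : ∀ p q : S3, p ∉ eta (sg 0 * a : ℝ) → q ∉ eta (sg 1 * a : ℝ) → (xc p).re < -1 / 2 →
      1 / 2 < (xc q).re → FL k₀.F k₁.F p ≠ FL k₀.F k₁.F q := by
    intro p q hp hq h1 h2 h
    rw [FL_left k₀ k₁ (by linarith), FL_right k₀ k₁ (by linarith)] at h
    have h3 := k₀.side hR (sg_cases 0) hp (by rw [sg0]; linarith)
    have h4 := k₁.side hR (sg_cases 1) hq (by rw [sg1]; linarith)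
    rw [h] at h3
    simp only [sg0, sg1] at h3 h4
    linarith
  refine ⟨((isClosed_eta _).union (isClosed_eta _)).isOpen_compl, fun p hp => ?_,
    fun p hp q hq h => ?_, fun V hV hs => ?_⟩
  · refine ContinuousAt.continuousWithinAt ?_
    by_cases h : (xc p).re < 1 / 2
    · refine (k₀.oe.cont.continuousAt (k₀.oe.isOpen.mem_nhds fun hh => hp (Or.inl hh))).congr ?_
      filter_upwards [hA.mem_nhds h] with q hq
      exact (FL_left k₀ k₁ (le_of_lt hq)).symm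
    · have h' : -1 / 2 < (xc p).re := by linarith
      refine (k₁.oe.cont.continuousAt (k₁.oe.isOpen.mem_nhds fun hh => hp (Or.inr hh))).congr ?_
      filter_upwards [hB.mem_nhds h'] with q hq
      exact (FL_right k₀ k₁ (le_of_lt hq)).symm
  · have hp0 : p ∉ eta (sg 0 * a : ℝ) := fun hh => hp (Or.inl hh)
    have hp1 : p ∉ eta (sg 1 * a : ℝ) := fun hh => hp (Or.inr hh)
    have hq0 : q ∉ eta (sg 0 * a : ℝ) := fun hh => hq (Or.inl hh)
    have hq1 : q ∉ eta (sg 1 * a : ℝ) := fun hh => hq (Or.inr hh)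
    by_cases h1 : (xc p).re ≤ 1 / 2 ∧ (xc q).re ≤ 1 / 2
    · rw [FL_left k₀ k₁ h1.1, FL_left k₀ k₁ h1.2] at h
      exact k₀.oe.inj hp0 hq0 h
    by_cases h2 : -1 / 2 ≤ (xc p).re ∧ -1 / 2 ≤ (xc q).re
    · rw [FL_right k₀ k₁ h2.1, FL_right k₀ k₁ h2.2] at h
      exact k₁.oe.inj hp1 hq1 h
    exfalso
    rw [not_and_or, not_le, not_le] at h1 h2
    rcases h1 with h1 | h1 <;> rcases h2 with h2 | h2
    · linarith
    · exact hx q p hq0 hp1 h2 h1 h.symm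
    · exact hx p q hp0 hq1 h2 h1 h
    · linarith
  · have he : FL k₀.F k₁.F '' V = k₀.F '' (V ∩ {p | (xc p).re < 1 / 2}) ∪
        k₁.F '' (V ∩ {p | -1 / 2 < (xc p).re}) := by
      ext z
      constructor
      · rintro ⟨p, hp, rfl⟩
        by_cases h : (xc p).re < 1 / 2
        · exact Or.inl ⟨p, ⟨hp, h⟩, (FL_left k₀ k₁ h.le).symm⟩
        · have h' : -1 / 2 < (xc p).re := by linarith
          exact Or.inr ⟨p, ⟨hp, h'⟩, (FL_right k₀ k₁ h'.le).symm⟩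
      · rintro (⟨p, hp, rfl⟩ | ⟨p, hp, rfl⟩)
        · exact ⟨p, hp.1, FL_left k₀ k₁ (le_of_lt hp.2)⟩
        · exact ⟨p, hp.1, FL_right k₀ k₁ (le_of_lt hp.2)⟩
    rw [he]
    exact (k₀.oe.img _ (hV.inter hA) fun p hp hh => hs hp.1 (Or.inl hh)).union
      (k₁.oe.img _ (hV.inter hB) fun p hp hh => hs hp.1 (Or.inr hh))

theorem isKnot_FL (hR : Rad a ρ) (c : ℝ) : IsKnot fun t => FL k₀.F k₁.F (iota (t + c) 0) := by
  have h := oe_FL k₀ k₁ hR
  have hU : Uk ⊆ (eta (sg 0 * a : ℝ) ∪ eta (sg 1 * a : ℝ))ᶜ := fun p hp hh =>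
    hh.elim (not_mem_eta_U hR (sg_cases 0) hp) (not_mem_eta_U hR (sg_cases 1) hp)
  have hm : ∀ u : ℝ, iota u 0 ∈ (eta (sg 0 * a : ℝ) ∪ eta (sg 1 * a : ℝ))ᶜ := fun u =>
    hU (yc_iota_zero u)
  refine ⟨h.cont.comp_continuous (isKnot_U.1.cont.comp (continuous_add_const c)) fun t => hm _,
    fun t => ?_, fun t t' ht => ?_, ?_⟩
  · have := isKnot_U.1.per (t + c)
    show FL k₀.F k₁.F (iota (t + 1 + c) 0) = FL k₀.F k₁.F (iota (t + c) 0)
    rw [add_right_comm]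
    exact congrArg _ this
  · obtain ⟨n, hn⟩ := isKnot_U.1.inj _ _ (h.inj (hm _) (hm _) ht)
    exact ⟨n, by linarith⟩
  · rw [range_shift]
    exact Flat.image h hU (isKnot_U.2 ▸ isKnot_U.1.flat)

theorem LK.isTube {r s : ℕ} {σ : ℝ} (k : LK r s σ a ρ) (hR : Rad a ρ) (hσ : σ = 1 ∨ σ = -1)
    (θ₀ : ℝ) {c : ℝ} (hc : 0 < c) (hc1 : c ≤ 1) (ht : a + 7 * ρ ≤ Real.sqrt (1 - c ^ 2)) :
    IsTube (fun t => k.F (iota (t + θ₀) 0)) fun θ d => k.F (iota (θ + θ₀) (c * d)) := by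
  refine isTube_of k.oe (fun p hp => not_mem_eta hR hσ (by linarith [hR.2.1])) (fun p hp => ?_)
    (fun p hp => (k.cont p hp).continuousWithinAt) k.ne
    (fun p hp hy => k.exact p (far_of_norm hR hσ hp) hy) θ₀ hc hc1 ht
  obtain ⟨h1, h2⟩ := abs_le.1 hp
  refine k.idz p ?_
  rcases hσ with rfl | rfl <;> linarith

theorem isTube_FL (hR : Rad a ρ) (θ₀ : ℝ) {c : ℝ} (hc : 0 < c) (hc1 : c ≤ 1)
    (ht : a + 7 * ρ ≤ Real.sqrt (1 - c ^ 2)) :
    IsTube (fun t => FL k₀.F k₁.F (iota (t + θ₀) 0))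
      fun θ d => FL k₀.F k₁.F (iota (θ + θ₀) (c * d)) := by
  classical
  have hA : IsOpen {p : S3 | (xc p).re < 1 / 2} := isOpen_lt continuous_re continuous_const
  have hB : IsOpen {p : S3 | -1 / 2 < (xc p).re} := isOpen_lt continuous_const continuous_re
  have hid : ∀ p, |(xc p).re| ≤ 1 / 2 → FL k₀.F k₁.F p = p := fun p hp => by
    obtain ⟨h1, h2⟩ := abs_le.1 hp
    rw [FL_left k₀ k₁ h2, k₀.idz p (by rw [sg0]; linarith)]
  have n0 : ∀ p, p ∉ FL k₀.F k₁.F '' Uk → (xc p).re ≤ 1 / 2 → p ∈ (k₀.F '' Uk)ᶜ := by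
    rintro _ hp h ⟨u, hu, rfl⟩
    by_cases h1 : (xc u).re ≤ 1 / 2
    · exact hp ⟨u, hu, FL_left k₀ k₁ h1⟩
    · rw [k₀.idz u (by rw [sg0]; linarith)] at h
      exact h1 h
  have n1 : ∀ p, p ∉ FL k₀.F k₁.F '' Uk → -1 / 2 ≤ (xc p).re → p ∈ (k₁.F '' Uk)ᶜ := by
    rintro _ hp h ⟨u, hu, rfl⟩
    by_cases h1 : -1 / 2 ≤ (xc u).re
    · exact hp ⟨u, hu, FL_right k₀ k₁ h1⟩
    · rw [k₁.idz u (by rw [sg1]; linarith)] at h
      exact h1 h
  have agree : ∀ p, p ∉ FL k₀.F k₁.F '' Uk → -1 / 2 ≤ (xc p).re → (xc p).re ≤ 1 / 2 →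
      k₀.ϑ p = k₁.ϑ p := by
    intro p hp h1 h2
    have hy : yc p ≠ 0 := fun hh => hp ⟨p, hh, hid p (abs_le.2 ⟨by linarith, h2⟩)⟩
    have a0 : sg 0 * (xc p).re ≤ 1 / 2 := by rw [sg0]; linarith
    have a1 : sg 1 * (xc p).re ≤ 1 / 2 := by rw [sg1]; linarith
    have e0 := k₀.exact p (far_of_re hR (sg_cases 0) a0) hy
    have e1 := k₁.exact p (far_of_re hR (sg_cases 1) a1) hy
    rw [k₀.idz p a0] at e0
    rw [k₁.idz p a1] at e1
    rw [e0, e1]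
  refine isTube_of (ϑ := fun p => if (xc p).re ≤ 0 then k₀.ϑ p else k₁.ϑ p) (oe_FL k₀ k₁ hR)
    (fun p hp hh => hh.elim (not_mem_eta hR (sg_cases 0) (by linarith [hR.2.1]))
      (not_mem_eta hR (sg_cases 1) (by linarith [hR.2.1]))) hid (fun p hp => ?_) (fun p hp => ?_)
    (fun p hp hy => ?_) θ₀ hc hc1 ht
  · by_cases h : (xc p).re < 1 / 2
    · refine (k₀.cont p (n0 p hp h.le)).continuousWithinAt.congr_of_eventuallyEq_of_mem ?_ hp
      filter_upwards [mem_nhdsWithin_of_mem_nhds (hA.mem_nhds h), self_mem_nhdsWithin]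
        with q hq hq'
      split_ifs with h1
      · rfl
      · exact (agree q hq' (by linarith) (le_of_lt hq)).symm
    · have h' : -1 / 2 < (xc p).re := by linarith
      refine (k₁.cont p (n1 p hp h'.le)).continuousWithinAt.congr_of_eventuallyEq_of_mem ?_ hp
      filter_upwards [mem_nhdsWithin_of_mem_nhds (hB.mem_nhds h'), self_mem_nhdsWithin]
        with q hq hq'
      split_ifs with h1
      · exact agree q hq' (le_of_lt hq) (by linarith)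
      · rfl
  · show (if (xc p).re ≤ 0 then k₀.ϑ p else k₁.ϑ p) ≠ 0
    split_ifs with h1
    · exact k₀.ne p (n0 p hp (by linarith))
    · exact k₁.ne p (n1 p hp (by linarith))
  · have hp' : a < ‖xc p‖ := by linarith [hR.2.1]
    show (if (xc (FL k₀.F k₁.F p)).re ≤ 0 then k₀.ϑ (FL k₀.F k₁.F p) else
      k₁.ϑ (FL k₀.F k₁.F p)) = _
    by_cases h : (xc p).re ≤ 0
    · have h1 := side_nonneg k₀ hR (sg_cases 0) (not_mem_eta hR (sg_cases 0) hp')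
        (by rw [sg0]; linarith)
      have h2 : (xc (k₀.F p)).re ≤ 0 := by
        simp only [sg0] at h1
        linarith
      rw [FL_left k₀ k₁ (by linarith), if_pos h2]
      exact k₀.exact p (far_of_norm hR (sg_cases 0) hp) hy
    · have h1 := side_pos k₁ hR (sg_cases 1) (not_mem_eta hR (sg_cases 1) hp') (b := 0)
        (by norm_num) (by rw [sg1]; linarith)
      have h2 : ¬ (xc (k₁.F p)).re ≤ 0 := by
        simp only [sg1] at h1
        linarith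
      rw [FL_right k₀ k₁ (by linarith), if_neg h2]
      exact k₁.exact p (far_of_norm hR (sg_cases 1) hp) hy

theorem isConnSum_FL (hR : Rad a ρ) (θ₀ : ℝ) :
    IsConnSum (fun t => k₀.F (iota (t + θ₀) 0)) (fun t => k₁.F (iota (t + θ₀) 0))
      fun t => FL k₀.F k₁.F (iota (t + θ₀) 0) := by
  have hl : ∀ s ∈ Icc (1 / 4 - θ₀) (3 / 4 - θ₀), (xc (iota (s + θ₀) 0)).re ≤ 0 := fun s hs => by
    rw [xc_iota_zero]
    exact re_ex_nonpos (by linarith [hs.1]) (by linarith [hs.2])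
  have hr : ∀ s ∈ Icc (3 / 4 - θ₀) (1 / 4 - θ₀ + 1), 0 ≤ (xc (iota (s + θ₀) 0)).re := fun s hs => by
    rw [xc_iota_zero]
    exact re_ex_nonneg (by linarith [hs.1]) (by linarith [hs.2])
  refine ⟨Homeomorph.refl S3, Homeomorph.refl S3, Homeomorph.refl S3, id, id, 1 / 4 - θ₀,
    3 / 4 - θ₀, isot_refl, isot_refl, continuous_id, strictMono_id, fun _ => rfl, continuous_id,
    strictMono_id, fun _ => rfl, by linarith, by linarith,
    fun s hs => FL_left k₀ k₁ (by linarith [hl s hs]),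
    fun s hs => FL_right k₀ k₁ (by linarith [hr s hs]), fun s hs => ?_, fun s hs => ?_, ?_, ?_⟩
  · have h0 : (xc (iota (s + θ₀) 0)).re < 0 := by
      rw [xc_iota_zero]
      exact re_ex_neg (by linarith [hs.1]) (by linarith [hs.2])
    have h1 := side_pos k₀ hR (sg_cases 0) (not_mem_eta_U hR (sg_cases 0) (yc_iota_zero (s + θ₀)))
      (b := 0) (by norm_num) (by rw [sg0]; linarith)
    show (xc (FL k₀.F k₁.F (iota (s + θ₀) 0))).re < 0
    rw [FL_left k₀ k₁ (by linarith)]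
    simp only [sg0] at h1
    linarith
  · have h0 : 0 < (xc (iota (s + θ₀) 0)).re := by
      rw [xc_iota_zero]
      exact re_ex_pos (by linarith [hs.1]) (by linarith [hs.2])
    have h1 := side_pos k₁ hR (sg_cases 1) (not_mem_eta_U hR (sg_cases 1) (yc_iota_zero (s + θ₀)))
      (b := 0) (by norm_num) (by rw [sg1]; linarith)
    show 0 < (xc (FL k₀.F k₁.F (iota (s + θ₀) 0))).re
    rw [FL_right k₀ k₁ (by linarith)]
    simp only [sg1] at h1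
    linarith
  · have hid : ∀ s ∈ Icc (3 / 4 - θ₀) (1 / 4 - θ₀ + 1),
        k₀.F (iota (s + θ₀) 0) = iota (s + θ₀) 0 := fun s hs =>
      k₀.idz _ (by rw [sg0]; linarith [hr s hs])
    ext p
    constructor
    · rintro ⟨s, hs, rfl⟩
      show yc (k₀.F (iota (s + θ₀) 0)) = 0 ∧ 0 ≤ (xc (k₀.F (iota (s + θ₀) 0))).re
      rw [hid s hs]
      exact ⟨yc_iota_zero _, hr s hs⟩
    · rintro ⟨hy, hx⟩
      obtain ⟨θ, hθ⟩ := exists_iota p
      rw [show yc p = 0 from hy, ← iota_add_int θ (-⌈θ - 5 / 4⌉)] at hθ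
      have h1 := Int.le_ceil (θ - 5 / 4)
      have h2 := Int.ceil_lt_add_one (θ - 5 / 4)
      set u : ℝ := θ + ((-⌈θ - 5 / 4⌉ : ℤ) : ℝ) with hu
      have h3 : 1 / 4 < u ∧ u ≤ 5 / 4 := by
        rw [hu]
        push_cast
        constructor <;> linarith
      have h4 : 3 / 4 ≤ u := by
        by_contra hh
        have h5 := re_ex_neg h3.1 (not_le.1 hh)
        rw [← xc_iota_zero, ← hθ] at h5
        exact absurd hx (not_le.2 h5)
      have hs : u - θ₀ ∈ Icc (3 / 4 - θ₀) (1 / 4 - θ₀ + 1) := ⟨by linarith, by linarith [h3.2]⟩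
      refine ⟨u - θ₀, hs, ?_⟩
      show k₀.F (iota (u - θ₀ + θ₀) 0) = p
      rw [hid _ hs, sub_add_cancel, hθ]
  · have hid : ∀ s ∈ Icc (1 / 4 - θ₀) (3 / 4 - θ₀),
        k₁.F (iota (s + θ₀) 0) = iota (s + θ₀) 0 := fun s hs =>
      k₁.idz _ (by rw [sg1]; linarith [hl s hs])
    ext p
    constructor
    · rintro ⟨s, hs, rfl⟩
      show yc (k₁.F (iota (s + θ₀) 0)) = 0 ∧ (xc (k₁.F (iota (s + θ₀) 0))).re ≤ 0
      rw [hid s hs]
      exact ⟨yc_iota_zero _, hl s hs⟩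
    · rintro ⟨hy, hx⟩
      obtain ⟨θ, hθ⟩ := exists_iota p
      rw [show yc p = 0 from hy, ← iota_add_int θ (-⌊θ - 1 / 4⌋)] at hθ
      have h1 := Int.floor_le (θ - 1 / 4)
      have h2 := Int.lt_floor_add_one (θ - 1 / 4)
      set u : ℝ := θ + ((-⌊θ - 1 / 4⌋ : ℤ) : ℝ) with hu
      have h3 : 1 / 4 ≤ u ∧ u < 5 / 4 := by
        rw [hu]
        push_cast
        constructor <;> linarith
      have h4 : u ≤ 3 / 4 := by
        by_contra hh
        have h5 := re_ex_pos (not_le.1 hh) h3.2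
        rw [← xc_iota_zero, ← hθ] at h5
        exact absurd hx (not_le.2 h5)
      have hs : u - θ₀ ∈ Icc (1 / 4 - θ₀) (3 / 4 - θ₀) := ⟨by linarith [h3.1], by linarith⟩
      refine ⟨u - θ₀, hs, ?_⟩
      show k₁.F (iota (u - θ₀ + θ₀) 0) = p
      rw [hid _ hs, sub_add_cancel, hθ]

end Pool.Agent.HH
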