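import Pool.Agent.P.MP_c8dc46_gt.SumD2
import Pool.Agent.P.MP_c8dc46_gt.SumL
import Pool.Agent.P.MP_c8dc46_gt.LKx

/-! The configuration exists; transport of the generator to the compressed pattern. -/

open Set Topology

namespace Pool.Agent.HH

theorem exists_geo {a : ℝ → ℝ} {d : ℝ → ℂ} {w : ℤ} (hp : IsPattern a d w) (hh : IsHom a d) :
    ∃ θ₀ : ℝ, ∀ r s : Fin 2 → ℕ, (∀ i, 0 < r i) → (∀ i, 0 < s i) →
      (∀ i, Nat.Coprime (r i) (s i)) →
      ∃ c : ℝ, 0 < c ∧ c ≤ 1 ∧ Nonempty (Geo r s (Pc a d θ₀ c)) := by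
  obtain ⟨s₀, ha, hd, h0⟩ := hp.reg
  refine ⟨1 / 4 - a s₀, fun r s hr hs hc => ?_⟩
  generalize hθ : 1 / 4 - a s₀ = θ₀
  choose a₀ ha₀ hk using fun i => exists_lk (hr i) (hs i) (hc i) (sg_cases i)
  obtain ⟨A, A1, A2, A3⟩ : ∃ A : ℝ, 3 / 4 ≤ A ∧ A < 1 ∧ ∀ i, a₀ i ≤ A :=
    ⟨max (3 / 4) (max (a₀ 0) (a₀ 1)), le_max_left _ _,
      max_lt (by norm_num) (max_lt (ha₀ 0) (ha₀ 1)),
      Fin.forall_fin_two.2 ⟨le_max_of_le_right (le_max_left _ _),
        le_max_of_le_right (le_max_right _ _)⟩⟩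
  obtain ⟨ρ, hR⟩ : ∃ ρ, Rad A ρ := ⟨(1 - A) / 8, A1, by linarith, by linarith⟩
  obtain ⟨-, R1, R2⟩ := id hR
  have T1 : 0 < 1 - (A + 7 * ρ) ^ 2 := by nlinarith
  obtain ⟨c, c0, c2⟩ : ∃ c : ℝ, 0 < c ∧ c ^ 2 = 1 - (A + 7 * ρ) ^ 2 :=
    ⟨_, Real.sqrt_pos.2 T1, Real.sq_sqrt T1.le⟩
  have c1 : c ≤ 1 := by nlinarith
  have ht : A + 7 * ρ ≤ Real.sqrt (1 - c ^ 2) := Real.le_sqrt_of_sq_le (by linarith)
  have hp' := hp.scale θ₀ c0 c1
  have thin : ∀ t, A + 7 * ρ < ‖xc (Pc a d θ₀ c t)‖ := fun t => by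
    have h1 : ‖(c : ℂ) * d t‖ < c := by
      rw [norm_mul, Complex.norm_real, Real.norm_of_nonneg c0.le]
      exact mul_lt_of_lt_one_right c0 (hp.lt t)
    rw [Pc, xc_iota (hp'.lt t).le, norm_mul, norm_ex, mul_one, Complex.norm_real,
      Real.norm_of_nonneg (Real.sqrt_nonneg _)]
    exact Real.lt_sqrt_of_sq_lt (by nlinarith [norm_nonneg ((c : ℂ) * d t)])
  obtain ⟨h, s₁, s₂, hb, hV⟩ := exists_flat_ball hp' (s₀ := s₀) (ha.add contDiffAt_const)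
    (contDiffAt_const.mul hd)
    (by
      rw [deriv_add_const, deriv_const_mul_field]
      exact h0.imp_right (mul_ne_zero (Complex.ofReal_ne_zero.2 c0.ne')))
    (V := {p | |(xc p).re| < 1 / 4 ∧ A + 7 * ρ < ‖xc p‖})
    (((isOpen_lt (Complex.continuous_re.comp continuous_xc).abs continuous_const).inter
      (isOpen_lt continuous_const continuous_xc.norm)).mem_nhds ⟨by
        have e : (2 * Real.pi * (a s₀ + θ₀ : ℝ) * Complex.I : ℂ) = Real.pi / 2 * Complex.I := by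
          rw [← hθ]; push_cast; ring
        show |(xc _).re| < _
        rw [xc_iota (hp'.lt s₀).le, ex, e, Complex.exp_pi_div_two_mul_I]
        simp, thin s₀⟩)
  have k : ∀ i, LK (r i) (s i) (sg i) A ρ := fun i => Classical.choice (hk i A (A3 i) A2 ρ R1)
  have ne : ∀ i p, A + 7 * ρ < ‖xc p‖ → p ∉ eta (sg i * A : ℝ) := fun i p h1 h2 => by
    rw [show xc p = _ from h2, Complex.norm_real, Real.norm_eq_abs, abs_mul,
      abs_of_nonneg (by linarith : 0 ≤ A)] at h1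
    rcases sg_cases i with e | e <;> rw [e] at h1 <;> norm_num at h1 <;> linarith
  have pp : ∀ i, range (Pc a d θ₀ c) ⊆ (eta (sg i * A : ℝ))ᶜ := fun i =>
    range_subset_iff.2 fun t => ne i _ (thin t)
  have zz : ∀ i p, -1 / 2 ≤ (xc p).re → h p ∈ (eta (sg i * A : ℝ))ᶜ ∧ (k i).F (h p) = h p :=
    fun i p hp => ⟨ne i _ (hV p hp).2, (k i).idz _ (by
      have := abs_lt.1 (hV p hp).1
      rcases sg_cases i with e | e <;> rw [e] <;> linarith)⟩
  obtain ⟨D, d1, d2, d3, d4, s₃, d5, d6⟩ :=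
    exists_sum hp'.knot hb (k 0).oe (k 1).oe (pp 0) (pp 1) (zz 0) (zz 1)
  exact ⟨c, c0, c1, ⟨⟨A, ρ, hR, k, hp'.knot, thin, h, hb.mem, hV, D,
    hp'.knot.image (oe_FL (k 0) (k 1) hR) (compl_union _ _ ▸ subset_inter (pp 0) (pp 1)), d1,
    hh _ _ _ D _ _ _ ((k 0).isKnot hR (sg_cases 0) θ₀).1 ((k 1).isKnot hR (sg_cases 1) θ₀).1
      (isKnot_FL (k 0) (k 1) hR θ₀) d1 ((k 0).isTube hR (sg_cases 0) θ₀ c0 c1 ht)
      ((k 1).isTube hR (sg_cases 1) θ₀ c0 c1 ht) (isTube_FL (k 0) (k 1) hR θ₀ c0 c1 ht)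
      (isConnSum_FL (k 0) (k 1) hR θ₀) d2, d3, d4, s₃, d5, d6⟩⟩⟩

theorem Kills.homeo {Y Y' : Type} [TopologicalSpace Y] [TopologicalSpace Y'] {R E : Type}
    [CommRing R] [AddCommGroup E] [Module R E] {τ : Y → Y → Module.End R E} {n : ℕ} {S : Set Y}
    {L : Module.End R E} (k : Kills τ n S L) (H : Y ≃ₜ Y') :
    Kills (pb H.symm τ) n (H '' S) L := by
  intro b hb
  have h1 := pull_mem_N (fun _ _ => H.continuous.continuousAt) (mapsTo_image H S) hb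
  have e : pb H (pb H.symm τ) = τ := by
    funext x y
    simp only [pb, H.symm_apply_apply]
  rw [pull_dT, e] at h1
  have h2 := (k _ h1).pull (j := H.symm) (S' := H '' S)
    (fun _ _ => H.symm.continuous.continuousAt) (by rintro _ ⟨p, hp, rfl⟩; simpa using hp)
  convert h2 using 1
  funext l
  simp [pull, cm, Function.comp_def]

/-- Transport of the generator from the pattern to the compressed pattern. -/
theorem transport {a : ℝ → ℝ} {d : ℝ → ℂ} {w : ℤ} (hp : IsPattern a d w) (θ₀ : ℝ) {c : ℝ}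
    (hc : 0 < c) (hc1 : c ≤ 1) {h₁ : S3 → S3 → ℤ} (hg : IsGen ℝ (range (Pc a d θ₀ 1)) h₁)
    {w' : ℤ} (hw : IsHolA h₁ (fib 0) w') :
    ∃ hP : S3 → S3 → ℤ, IsGen ℝ (range (Pc a d θ₀ c)) hP ∧ IsHolA hP (fib 0) w' ∧
      ∀ (R E : Type) [CommRing R] [AddCommGroup E] [Module R E] (t : (Module.End R E)ˣ) (n : ℕ)
        (L : Module.End R E), Kills (zt t h₁) n (range (Pc a d θ₀ 1))ᶜ L →
          Kills (zt t hP) n (range (Pc a d θ₀ c))ᶜ L := by
  obtain ⟨r₁, hr, hd⟩ := hp.exists_bound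
  obtain ⟨H, h1, h2⟩ := exists_rc hc hc1 hr
  have e : range (Pc a d θ₀ c) = H '' range (Pc a d θ₀ 1) := by
    rw [← range_comp]
    congr 1
    funext s
    simp only [Pc, Function.comp, Complex.ofReal_one, one_mul, h1 _ _ (hd s)]
  refine ⟨pb H.symm h₁, e ▸ hg.homeo H, ?_, fun R E _ _ _ t n L k => ?_⟩
  · rw [isHolA_pb]
    convert hw using 1
    funext s
    exact H.symm_apply_eq.2 (h2 _ (xc_fib (by simp) s)).symm
  · rw [e, ← image_compl_eq H.bijective]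
    exact k.homeo H

end Pool.Agent.HH
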