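import Pool.Agent.P.MP_c8dc46_gt.PM

/-!
ROW H3. The induced representations. Every element of `Γ` is uniquely `μ ^ k * s i * f a`, where `f` embeds
`A = (ℤ / ℓ)²` as the central subgroup generated by `c₀, c₁` and `s` is a system of coset representatives
in the kernel of the degree. The projection `pr` sends `γ` to the basis vector `(k, i)` times `χ a`;
every self map of `Γ` that commutes with right multiplication by `f a` descends along `pr`.
-/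

open Set

noncomputable section

namespace Pool.Agent.HH

namespace RRep

/-- The homomorphism `(i, j) ↦ x ^ i * y ^ j` on `(ℤ / ℓ)²`. -/
def hom2 {G : Type} [Group G] (ℓ : ℕ) [NeZero ℓ] (x y : G) (hx : x ^ ℓ = 1) (hy : y ^ ℓ = 1)
    (h : Commute x y) : Multiplicative (ZMod ℓ × ZMod ℓ) →* G where
  toFun a := x ^ (Multiplicative.toAdd a).1.val * y ^ (Multiplicative.toAdd a).2.val
  map_one' := by simp
  map_mul' a b := by
    simp only [toAdd_mul, Prod.fst_add, Prod.snd_add, ZMod.val_add]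
    rw [← pow_eq_pow_mod _ hx, ← pow_eq_pow_mod _ hy, pow_add, pow_add]
    simp only [mul_assoc]
    congr 1
    rw [← mul_assoc, ← mul_assoc, (h.pow_pow _ _).eq]

theorem hom2_apply {G : Type} [Group G] (ℓ : ℕ) [NeZero ℓ] (x y : G) (hx : x ^ ℓ = 1)
    (hy : y ^ ℓ = 1) (h : Commute x y) (a : Multiplicative (ZMod ℓ × ZMod ℓ)) :
    hom2 ℓ x y hx hy h a =
      x ^ (Multiplicative.toAdd a).1.val * y ^ (Multiplicative.toAdd a).2.val := rfl

variable {Γ : Type} [Group Γ]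

theorem dg_mul (Rp : RepIn Γ) (a b : Γ) : Rp.dg (a * b) = Rp.dg a + Rp.dg b := by
  simp [RepIn.dg]

theorem dg_zpow (Rp : RepIn Γ) (a : Γ) (k : ℤ) : Rp.dg (a ^ k) = k * Rp.dg a := by
  simp [RepIn.dg]

theorem dg_mu (Rp : RepIn Γ) : Rp.dg Rp.μ = 1 := by
  simp [RepIn.dg, Rp.degμ]

theorem dg_of (Rp : RepIn Γ) {a : Γ} (h : Rp.deg a = 1) : Rp.dg a = 0 := by
  simp [RepIn.dg, h]

theorem deg_of (Rp : RepIn Γ) {a : Γ} (h : Rp.dg a = 0) : Rp.deg a = 1 := by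
  simpa [RepIn.dg] using h

/-- Coordinates on `Γ`. -/
structure Co (Rp : RepIn Γ) (A : Type) [CommGroup A] (f : A →* Γ) (n : ℕ) where
  s : Fin n → Γ
  ω : Γ → Fin n
  c : Γ → A
  dec : ∀ γ, Rp.μ ^ Rp.dg γ * s (ω γ) * f (c γ) = γ
  ds : ∀ i, Rp.dg (s i) = 0
  df : ∀ a, Rp.dg (f a) = 0
  hω : ∀ (k : ℤ) i a, ω (Rp.μ ^ k * s i * f a) = i
  hc : ∀ (k : ℤ) i a, c (Rp.μ ^ k * s i * f a) = a

theorem exists_co (Rp : RepIn Γ) {A : Type} [CommGroup A] (f : A →* Γ)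
    (hf : Function.Injective f) (df : ∀ a, Rp.deg (f a) = 1) :
    ∃ n : ℕ, 0 < n ∧ Nonempty (Co Rp A f n) := by
  classical
  have := Rp.fin
  set N := Rp.deg.ker with hN
  set C : Subgroup N := f.range.subgroupOf N with hC
  have : Finite (N ⧸ C) := inferInstance
  let e : (N ⧸ C) ≃ Fin (Nat.card (N ⧸ C)) := Finite.equivFin _
  have hm : ∀ γ : Γ, Rp.μ ^ (-Rp.dg γ) * γ ∈ N := by
    intro γ
    apply deg_of
    rw [dg_mul, dg_zpow, dg_mu]; ring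
  let s : Fin (Nat.card (N ⧸ C)) → Γ := fun i => ((e.symm i).out : N)
  let ω : Γ → Fin (Nat.card (N ⧸ C)) := fun γ => e (QuotientGroup.mk ⟨_, hm γ⟩)
  have hex : ∀ γ, ∃ a, Rp.μ ^ Rp.dg γ * s (ω γ) * f a = γ := by
    intro γ
    have h1 : (QuotientGroup.mk ((e.symm (ω γ)).out) : N ⧸ C) = QuotientGroup.mk ⟨_, hm γ⟩ := by
      simp [ω]
    rw [QuotientGroup.eq] at h1
    obtain ⟨a, ha⟩ := Subgroup.mem_subgroupOf.1 h1
    refine ⟨a, ?_⟩
    rw [ha]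
    simp [s, mul_assoc]
  choose c hc using hex
  have hds : ∀ i, Rp.dg (s i) = 0 := fun i => dg_of Rp ((e.symm i).out).2
  have hdg : ∀ (k : ℤ) i a, Rp.dg (Rp.μ ^ k * s i * f a) = k := by
    intro k i a
    rw [dg_mul, dg_mul, dg_zpow, dg_mu, hds, dg_of Rp (df a)]; ring
  have hω : ∀ (k : ℤ) i a, ω (Rp.μ ^ k * s i * f a) = i := by
    intro k i a
    simp only [ω]
    rw [← Equiv.eq_symm_apply, ← QuotientGroup.out_eq' (e.symm i), eq_comm, QuotientGroup.eq]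
    refine Subgroup.mem_subgroupOf.2 ⟨a, ?_⟩
    change f a = (s i)⁻¹ * (Rp.μ ^ (-Rp.dg (Rp.μ ^ k * s i * f a)) * (Rp.μ ^ k * s i * f a))
    rw [hdg]
    group
  refine ⟨_, Nat.card_pos, ⟨⟨s, ω, c, hc, hds, fun a => dg_of Rp (df a), hω, ?_⟩⟩⟩
  intro k i a
  have := hc (Rp.μ ^ k * s i * f a)
  rw [hdg, hω] at this
  exact hf (mul_left_cancel this)

theorem monomial {n : ℕ} (σ : Fin n → Fin n) (hσ : Function.Injective σ) (a : Fin n → ℂ)
    (ha : ∀ i, a i * star (a i) = 1) :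
    ∃ V : (Fin n → ℂ) ≃ₗ[ℂ] (Fin n → ℂ),
      (∀ w w', Hstd ℂ (Fin n) (V w) (V w') = Hstd ℂ (Fin n) w w') ∧
      ∀ w, V w = ∑ i, Pi.single (σ i) (w i * a i) := by
  have hb : Function.Bijective σ := Finite.injective_iff_bijective.1 hσ
  let e := Equiv.ofBijective σ hb
  have ha0 : ∀ i, a i ≠ 0 := fun i h => by simpa [h] using ha i
  let V : (Fin n → ℂ) ≃ₗ[ℂ] (Fin n → ℂ) :=
    { toFun := fun w j => w (e.symm j) * a (e.symm j)
      map_add' := by intro w w'; funext j; simp [add_mul]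
      map_smul' := by intro c w; funext j; simp [mul_assoc]
      invFun := fun w i => w (e i) * (a i)⁻¹
      left_inv := by intro w; funext i; simp [ha0]
      right_inv := by intro w; funext j; simp [ha0] }
  have hV : ∀ w j, V w j = w (e.symm j) * a (e.symm j) := fun _ _ => rfl
  refine ⟨V, ?_, ?_⟩
  · intro w w'
    simp only [Hstd, LinearMap.mk₂'ₛₗ_apply, hV]
    rw [← e.symm.sum_comp (fun i => w i * star (w' i))]
    refine Finset.sum_congr rfl fun j _ => ?_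
    rw [star_mul']
    linear_combination (w (e.symm j) * star (w' (e.symm j))) * ha (e.symm j)
  · intro w
    funext j
    rw [hV, Finset.sum_apply, Finset.sum_eq_single (e.symm j)]
    · have : σ (e.symm j) = j := e.apply_symm_apply j
      rw [this, Pi.single_eq_same]
    · intro i _ hi
      apply Pi.single_eq_of_ne
      intro h
      apply hi
      rw [h]
      exact (e.symm_apply_apply i).symm
    · simp

variable {Rp : RepIn Γ} {A : Type} [CommGroup A] {f : A →* Γ} {n : ℕ} (K : Co Rp A f n)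
  (χ : A →* ℂˣ)

theorem Co.dg_eq (k : ℤ) (i : Fin n) (a : A) : Rp.dg (Rp.μ ^ k * K.s i * f a) = k := by
  rw [dg_mul, dg_mul, dg_zpow, dg_mu, K.ds, K.df]; ring

theorem Co.ω_mul (γ : Γ) (a : A) : K.ω (γ * f a) = K.ω γ := by
  conv_lhs => rw [← K.dec γ, mul_assoc, ← map_mul, K.hω]

theorem Co.c_mul (γ : Γ) (a : A) : K.c (γ * f a) = K.c γ * a := by
  conv_lhs => rw [← K.dec γ, mul_assoc, ← map_mul, K.hc]

theorem Co.ω_mu (k : ℤ) (γ : Γ) : K.ω (Rp.μ ^ k * γ) = K.ω γ := by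
  conv_lhs => rw [← K.dec γ, ← mul_assoc, ← mul_assoc, ← zpow_add, K.hω]

theorem Co.c_mu (k : ℤ) (γ : Γ) : K.c (Rp.μ ^ k * γ) = K.c γ := by
  conv_lhs => rw [← K.dec γ, ← mul_assoc, ← mul_assoc, ← zpow_add, K.hc]

/-- The projection. -/
def Co.pr : (Γ →₀ ℂ) →ₗ[ℂ] (ℤ →₀ (Fin n → ℂ)) :=
  Finsupp.lsum ℕ fun γ => Finsupp.lsingle (Rp.dg γ) ∘ₗ
    LinearMap.single ℂ (fun _ : Fin n => ℂ) (K.ω γ) ∘ₗ LinearMap.mulRight ℂ (χ (K.c γ) : ℂ)

theorem Co.pr_single (γ : Γ) (x : ℂ) :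
    K.pr χ (Finsupp.single γ x) =
      Finsupp.single (Rp.dg γ) (Pi.single (K.ω γ) (x * χ (K.c γ))) := by
  simp [Co.pr]

/-- The section. -/
def Co.sc : (ℤ →₀ (Fin n → ℂ)) →ₗ[ℂ] (Γ →₀ ℂ) :=
  Finsupp.lsum ℕ fun k => ∑ i, Finsupp.lsingle (Rp.μ ^ k * K.s i) ∘ₗ LinearMap.proj i

theorem Co.sc_single (k : ℤ) (w : Fin n → ℂ) :
    K.sc (Finsupp.single k w) = ∑ i, Finsupp.single (Rp.μ ^ k * K.s i) (w i) := by
  simp [Co.sc]

theorem Co.pr_sc (x : ℤ →₀ (Fin n → ℂ)) : K.pr χ (K.sc x) = x := by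
  induction x using Finsupp.induction_linear with
  | zero => simp
  | add x y hx hy => simp [hx, hy]
  | single k w =>
    rw [K.sc_single, map_sum]
    have : ∀ i, K.pr χ (Finsupp.single (Rp.μ ^ k * K.s i) (w i)) =
        Finsupp.single k (Pi.single i (w i)) := by
      intro i
      have h1 := K.dg_eq k i 1
      have h2 := K.hω k i 1
      have h3 := K.hc k i 1
      rw [map_one, mul_one] at h1 h2 h3
      rw [K.pr_single, h1, h2, h3]
      simp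
    simp only [this]
    rw [← Finsupp.single_finsetSum, Finset.univ_sum_single]

theorem Co.pr_mul (γ : Γ) (a : A) (x : ℂ) :
    K.pr χ (Finsupp.single (γ * f a) x) = K.pr χ (Finsupp.single γ (x * χ a)) := by
  rw [K.pr_single, K.pr_single, dg_mul, K.df, add_zero, K.ω_mul, K.c_mul, map_mul]
  congr 2
  push_cast
  ring

theorem Co.desc {M : Type} [AddCommGroup M] [Module ℂ M] (L : (Γ →₀ ℂ) →ₗ[ℂ] M)
    (hL : ∀ γ a x, L (Finsupp.single (γ * f a) x) = L (Finsupp.single γ (x * χ a)))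
    (y : Γ →₀ ℂ) : L (K.sc (K.pr χ y)) = L y := by
  induction y using Finsupp.induction_linear with
  | zero => simp
  | add x y hx hy => simp [hx, hy]
  | single γ x =>
    rw [K.pr_single, K.sc_single, Finset.sum_eq_single (K.ω γ)]
    · rw [Pi.single_eq_same, ← hL, K.dec]
    · intro i _ hi
      rw [Pi.single_eq_of_ne hi, Finsupp.single_zero]
    · simp

/-- The operator induced by a self map of `Γ`. -/
def Co.op (Φ : Γ → Γ) : Module.End ℂ (ℤ →₀ (Fin n → ℂ)) :=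
  K.pr χ ∘ₗ Finsupp.lmapDomain ℂ ℂ Φ ∘ₗ K.sc

theorem Co.op_pr {Φ : Γ → Γ} (hΦ : ∀ γ a, Φ (γ * f a) = Φ γ * f a) (y : Γ →₀ ℂ) :
    K.op χ Φ (K.pr χ y) = K.pr χ (Finsupp.mapDomain Φ y) := by
  refine K.desc χ (K.pr χ ∘ₗ Finsupp.lmapDomain ℂ ℂ Φ) ?_ y
  intro γ a x
  simp only [LinearMap.comp_apply, Finsupp.lmapDomain_apply, Finsupp.mapDomain_single]
  rw [hΦ, K.pr_mul]

theorem Co.ext_pr {M : Type} [AddCommGroup M] [Module ℂ M]
    {L L' : (ℤ →₀ (Fin n → ℂ)) →ₗ[ℂ] M}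
    (h : ∀ γ x, L (K.pr χ (Finsupp.single γ x)) = L' (K.pr χ (Finsupp.single γ x))) : L = L' := by
  have h2 : ∀ y, L (K.pr χ y) = L' (K.pr χ y) := by
    intro y
    induction y using Finsupp.induction_linear with
    | zero => simp
    | add x y hx hy => simp [hx, hy]
    | single γ x => exact h γ x
  refine LinearMap.ext fun x => ?_
  rw [← K.pr_sc χ x]
  exact h2 _

theorem Co.op_single {Φ : Γ → Γ} (hΦ : ∀ γ a, Φ (γ * f a) = Φ γ * f a) (γ : Γ) (x : ℂ) :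
    K.op χ Φ (K.pr χ (Finsupp.single γ x)) = K.pr χ (Finsupp.single (Φ γ) x) := by
  rw [K.op_pr χ hΦ, Finsupp.mapDomain_single]

theorem Co.op_pm (hχ : ∀ a, (χ a : ℂ) * star (χ a : ℂ) = 1) {Φ : Γ → Γ}
    (hΦ : ∀ γ a, Φ (γ * f a) = Φ γ * f a) (hi : Function.Injective Φ) {d : ℤ}
    (hd : ∀ γ, Rp.dg (Φ γ) = Rp.dg γ + d)
    (hp : ∀ γ, Φ (Rp.μ ^ Rp.p * γ) = Rp.μ ^ Rp.p * Φ γ) :
    IsPM (Hstd ℂ (Fin n)) Rp.p d (K.op χ Φ) := by
  have hdg : ∀ (k : ℤ) i, Rp.dg (Φ (Rp.μ ^ k * K.s i)) = k + d := by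
    intro k i
    have h1 := K.dg_eq k i 1
    rw [map_one, mul_one] at h1
    rw [hd, h1]
  have hσ : ∀ k : ℤ, Function.Injective fun i => K.ω (Φ (Rp.μ ^ k * K.s i)) := by
    intro k i j hij
    have h1 := K.dec (Φ (Rp.μ ^ k * K.s i))
    have h2 := K.dec (Φ (Rp.μ ^ k * K.s j))
    simp only at hij
    rw [hdg, hij] at h1
    rw [hdg] at h2
    have h3 : Φ (Rp.μ ^ k * K.s i * f (K.c (Φ (Rp.μ ^ k * K.s j)))) =
        Φ (Rp.μ ^ k * K.s j * f (K.c (Φ (Rp.μ ^ k * K.s i)))) := by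
      rw [hΦ, hΦ]
      conv_lhs => rw [← h1]
      conv_rhs => rw [← h2]
      simp only [mul_assoc, ← map_mul]
      rw [mul_comm (K.c _)]
    have h4 := congrArg K.ω (hi h3)
    rwa [K.hω, K.hω] at h4
  choose V hV1 hV2 using fun k : ℤ => monomial _ (hσ k)
    (fun i => (χ (K.c (Φ (Rp.μ ^ k * K.s i))) : ℂ)) (fun i => hχ _)
  refine ⟨V, ?_, hV1, ?_⟩
  · intro k
    refine LinearEquiv.ext fun w => ?_
    rw [hV2, hV2]
    have : ∀ i, Φ (Rp.μ ^ (k + Rp.p) * K.s i) = Rp.μ ^ (Rp.p : ℤ) * Φ (Rp.μ ^ k * K.s i) := by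
      intro i
      rw [add_comm, zpow_add, mul_assoc, zpow_natCast, hp]
    simp only [this, K.ω_mu, K.c_mu]
  · intro k w
    rw [hV2, Finsupp.single_finsetSum]
    simp only [Co.op, LinearMap.comp_apply, K.sc_single, map_sum, Finsupp.lmapDomain_apply,
      Finsupp.mapDomain_single, K.pr_single, hdg]

/-- The induced representation. -/
def Co.rho : Representation ℂ Γ (ℤ →₀ (Fin n → ℂ)) where
  toFun γ := K.op χ fun x => γ * x
  map_one' := K.ext_pr χ fun γ x => by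
    rw [K.op_single χ (fun _ _ => (mul_assoc _ _ _).symm)]
    simp
  map_mul' g g' := K.ext_pr χ fun γ x => by
    rw [Module.End.mul_apply, K.op_single χ (fun _ _ => (mul_assoc _ _ _).symm),
      K.op_single χ (fun _ _ => (mul_assoc _ _ _).symm),
      K.op_single χ (fun _ _ => (mul_assoc _ _ _).symm), mul_assoc]

theorem Co.rho_single (g γ : Γ) (x : ℂ) :
    K.rho χ g (K.pr χ (Finsupp.single γ x)) = K.pr χ (Finsupp.single (g * γ) x) :=
  K.op_single χ (fun _ _ => (mul_assoc _ _ _).symm) γ x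

theorem Co.rho_f (a : A) (ha : f a ∈ Subgroup.center Γ) : K.rho χ (f a) = (χ a : ℂ) • 1 := by
  refine K.ext_pr χ fun γ x => ?_
  rw [K.rho_single, ← Subgroup.mem_center_iff.1 ha γ, K.pr_mul, LinearMap.smul_apply,
    Module.End.one_apply, ← map_smul, Finsupp.smul_single, smul_eq_mul, mul_comm]

/-- The averaging operator. -/
def av [Fintype A] (f : A →* Γ) (χ : A →* ℂˣ) : (Γ →₀ ℂ) →ₗ[ℂ] (Γ →₀ ℂ) :=
  Finsupp.lsum ℕ fun γ => ∑ b, Finsupp.lsingle (γ * f b) ∘ₗ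
    LinearMap.mulRight ℂ ((χ b⁻¹ : ℂ) * (Fintype.card A : ℂ)⁻¹)

theorem av_single [Fintype A] (γ : Γ) (x : ℂ) : av f χ (Finsupp.single γ x) =
    ∑ b, Finsupp.single (γ * f b) (x * ((χ b⁻¹ : ℂ) * (Fintype.card A : ℂ)⁻¹)) := by
  simp only [av, Finsupp.lsum_single, LinearMap.sum_apply, LinearMap.comp_apply,
    LinearMap.mulRight_apply, Finsupp.lsingle_apply]

theorem av_mul [Fintype A] (γ : Γ) (a : A) (x : ℂ) :
    av f χ (Finsupp.single (γ * f a) x) = av f χ (Finsupp.single γ (x * χ a)) := by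
  rw [av_single, av_single]
  refine Fintype.sum_equiv (Equiv.mulLeft a) _ _ fun b => ?_
  simp only [Equiv.coe_mulLeft, map_mul f, mul_assoc]
  congr 2
  rw [← mul_assoc, ← Units.val_mul, ← map_mul, mul_inv, mul_inv_cancel_left]

theorem av_reg [Fintype A] (g : Γ) (y : Γ →₀ ℂ) :
    av f χ (reg ℂ Γ g y) = reg ℂ Γ g (av f χ y) := by
  have hr : ∀ γ (x : ℂ), reg ℂ Γ g (Finsupp.single γ x) = Finsupp.single (g * γ) x := by
    intro γ x
    simp [reg, Finsupp.mapDomain_single]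
  induction y using Finsupp.induction_linear with
  | zero => simp
  | add x y hx hy => simp only [map_add, hx, hy]
  | single γ x => simp only [hr, av_single, map_sum, mul_assoc]

theorem Co.pr_av [Fintype A] (y : Γ →₀ ℂ) : K.pr χ (av f χ y) = K.pr χ y := by
  induction y using Finsupp.induction_linear with
  | zero => simp
  | add x y hx hy => simp only [map_add, hx, hy]
  | single γ x =>
    rw [av_single, map_sum]
    have : ∀ b : A, x * ((χ b⁻¹ : ℂ) * (Fintype.card A : ℂ)⁻¹) * χ b =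
        x * (Fintype.card A : ℂ)⁻¹ := by
      intro b
      rw [map_inv, Units.val_inv_eq_inv_val]
      field_simp
    simp only [K.pr_mul, this]
    rw [← map_sum, ← Finsupp.single_finsetSum]
    have hc : (Fintype.card A : ℂ) ≠ 0 := Nat.cast_ne_zero.2 Fintype.card_ne_zero
    congr 2
    rw [Finset.sum_const, Finset.card_univ, nsmul_eq_mul]
    field_simp

theorem Co.rho_pr (g : Γ) (y : Γ →₀ ℂ) : K.rho χ g (K.pr χ y) = K.pr χ (reg ℂ Γ g y) :=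
  K.op_pr χ (fun _ _ => (mul_assoc _ _ _).symm) y

theorem Co.retr [Fintype A] :
    ∃ (i : (ℤ →₀ (Fin n → ℂ)) →ₗ[ℂ] (Γ →₀ ℂ)) (π : (Γ →₀ ℂ) →ₗ[ℂ] (ℤ →₀ (Fin n → ℂ))),
    (∀ x, π (i x) = x) ∧ (∀ γ x, i (K.rho χ γ x) = reg ℂ Γ γ (i x)) ∧
      ∀ γ x, π (reg ℂ Γ γ x) = K.rho χ γ (π x) := by
  refine ⟨av f χ ∘ₗ K.sc, K.pr χ, fun x => ?_, fun γ x => ?_, fun γ x => (K.rho_pr χ γ x).symm⟩
  · rw [LinearMap.comp_apply, K.pr_av, K.pr_sc]
  · rw [← K.pr_sc χ x, K.rho_pr, LinearMap.comp_apply, LinearMap.comp_apply,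
      K.desc χ _ (av_mul χ), K.desc χ _ (av_mul χ), av_reg]

theorem Co.phi (hχ : ∀ a, (χ a : ℂ) * star (χ a : ℂ) = 1) (α : Γ ≃* Γ) (g₁ g₂ : Γ)
    (hμ : α Rp.μ = Rp.μ) (hf : ∀ a, α (f a) = f a) (hd : ∀ γ, Rp.deg (α γ) = Rp.deg γ)
    (hg : Rp.dg g₁ = Rp.dg g₂) (hc : IsCoprime (Rp.dg g₁) (Rp.p : ℤ))
    (hm : ∀ (j : ℤ) (n : Γ), Rp.deg n = 1 → Commute (g₂ ^ j * (α g₁) ^ (-j)) n) :
    ∃ U, IsPM (Hstd ℂ (Fin n)) Rp.p 0 U ∧
      ∀ (x : Γ) (k : ℤ), Rp.deg x = 1 →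
        U * K.rho χ (x * g₁ ^ k) = K.rho χ (α x * g₂ ^ k) * U := by
  obtain ⟨r, t, hrt⟩ := hc
  have hd' : ∀ γ, Rp.dg (α γ) = Rp.dg γ := fun γ => by simp only [RepIn.dg, hd]
  let D : ℤ → Γ := fun j => g₂ ^ j * (α g₁) ^ (-j)
  have hD0 : ∀ j, Rp.dg (D j) = 0 := by
    intro j
    simp only [D]
    rw [dg_mul, dg_zpow, dg_zpow, hd', hg]; ring
  have hDp : ∀ j m : ℤ, D (j + Rp.p * m) = D j := by
    intro j m
    have h1 : g₂ ^ Rp.p = (Rp.μ ^ Rp.p) ^ Rp.dg g₂ := Rp.pw g₂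
    have h2 : (α g₁) ^ Rp.p = (Rp.μ ^ Rp.p) ^ Rp.dg g₂ := by
      rw [← hg, ← hd' g₁]; exact Rp.pw _
    simp only [D]
    rw [neg_add, add_comm (-j), zpow_add, zpow_add, zpow_neg _ (_ * m), zpow_mul, zpow_mul,
      zpow_natCast, zpow_natCast, h1, h2]
    simp only [mul_assoc, mul_inv_cancel_left]
  let Φ : Γ → Γ := fun γ => D (r * Rp.dg γ) * α γ
  have hΦ : ∀ γ a, Φ (γ * f a) = Φ γ * f a := by
    intro γ a
    simp only [Φ]
    rw [dg_mul, K.df, add_zero, map_mul, hf, ← mul_assoc]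
  have hΦd : ∀ γ, Rp.dg (Φ γ) = Rp.dg γ + 0 := by
    intro γ
    simp only [Φ]
    rw [dg_mul, hD0, hd']; ring
  refine ⟨K.op χ Φ, K.op_pm χ hχ hΦ ?_ hΦd ?_, ?_⟩
  · intro γ γ' h
    have h1 : Rp.dg γ = Rp.dg γ' := by
      have := congrArg Rp.dg h
      rwa [hΦd, hΦd, add_zero, add_zero] at this
    simp only [Φ, h1] at h
    exact α.injective (mul_left_cancel h)
  · intro γ
    simp only [Φ]
    have h1 : r * Rp.dg (Rp.μ ^ Rp.p * γ) = r * Rp.dg γ + Rp.p * r := by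
      rw [dg_mul, ← zpow_natCast, dg_zpow, dg_mu]; ring
    rw [h1, hDp, map_mul, map_pow, hμ, ← mul_assoc, Subgroup.mem_center_iff.1 Rp.zc, mul_assoc]
  · intro x k hx
    refine K.ext_pr χ fun γ y => ?_
    rw [Module.End.mul_apply, Module.End.mul_apply, K.rho_single, K.op_single χ hΦ,
      K.op_single χ hΦ, K.rho_single]
    congr 2
    simp only [Φ]
    have h1 : r * Rp.dg (x * g₁ ^ k * γ) = (k + r * Rp.dg γ) + Rp.p * (-(k * t)) := by
      rw [dg_mul, dg_mul, dg_zpow, dg_of Rp hx]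
      linear_combination k * hrt
    rw [h1, hDp, map_mul, map_mul, map_zpow, ← mul_assoc, ← mul_assoc,
      (hm (k + r * Rp.dg γ) (α x) (by rw [hd, hx])).eq]
    simp only [D]
    group

end RRep

open RRep in
theorem exists_rep {Γ : Type} [Group Γ] (Rp : RepIn Γ) : ∃ n₀ : ℕ, 0 < n₀ ∧ ∀ u v : ℂˣ,
    u ^ Rp.ℓ = 1 → v ^ Rp.ℓ = 1 →
      ∃ ρ : Representation ℂ Γ (ℤ →₀ (Fin n₀ → ℂ)), RepOut Rp n₀ u v ρ := by
  have hp := Rp.prime
  have : NeZero Rp.ℓ := ⟨hp.ne_zero⟩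
  have : Fact (1 < Rp.ℓ) := ⟨hp.one_lt⟩
  have hcm : Commute Rp.c₀ Rp.c₁ := Subgroup.mem_center_iff.1 Rp.cc₁ Rp.c₀
  let f := hom2 Rp.ℓ Rp.c₀ Rp.c₁ Rp.ord₀ Rp.ord₁ hcm
  have hinj : Function.Injective f := by
    rw [injective_iff_map_eq_one]
    intro a ha
    rw [hom2_apply, ← zpow_natCast, ← zpow_natCast] at ha
    obtain ⟨h1, h2⟩ := Rp.ind _ _ ha
    have h3 := (ZMod.intCast_zmod_eq_zero_iff_dvd _ _).2 h1
    have h4 := (ZMod.intCast_zmod_eq_zero_iff_dvd _ _).2 h2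
    rw [Int.cast_natCast, ZMod.natCast_zmod_val] at h3 h4
    exact Multiplicative.toAdd.injective (Prod.ext h3 h4)
  have hdf : ∀ a, Rp.deg (f a) = 1 := by
    intro a
    rw [hom2_apply, map_mul, map_pow, map_pow, Rp.deg₀, Rp.deg₁]
    simp
  obtain ⟨n, hn, ⟨K⟩⟩ := exists_co Rp f hinj hdf
  refine ⟨n, hn, fun u v hu hv => ?_⟩
  let χ := hom2 Rp.ℓ u v hu hv (Commute.all u v)
  have hs : ∀ w : ℂˣ, w ^ Rp.ℓ = 1 → (w : ℂ) * star (w : ℂ) = 1 := by
    intro w hw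
    have h1 : ‖(w : ℂ)‖ = 1 :=
      Complex.norm_eq_one_of_pow_eq_one (by rw [← Units.val_pow_eq_pow_val, hw, Units.val_one])
        hp.ne_zero
    rw [Complex.star_def, Complex.mul_conj', h1]
    simp
  have hχ : ∀ a, (χ a : ℂ) * star (χ a : ℂ) = 1 := by
    intro a
    apply hs
    rw [hom2_apply, mul_pow, ← pow_mul, ← pow_mul, mul_comm _ Rp.ℓ, mul_comm _ Rp.ℓ, pow_mul,
      pow_mul, hu, hv]
    simp
  have e0 : f (Multiplicative.ofAdd (1, 0)) = Rp.c₀ := by simp [f, hom2_apply, ZMod.val_one]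
  have e1 : f (Multiplicative.ofAdd (0, 1)) = Rp.c₁ := by simp [f, hom2_apply, ZMod.val_one]
  have x0 : χ (Multiplicative.ofAdd (1, 0)) = u := by simp [χ, hom2_apply, ZMod.val_one]
  have x1 : χ (Multiplicative.ofAdd (0, 1)) = v := by simp [χ, hom2_apply, ZMod.val_one]
  refine ⟨K.rho χ, ?_, ?_, ?_, ?_, K.retr χ, ?_⟩
  · intro γ
    refine K.op_pm χ hχ (fun _ _ => (mul_assoc _ _ _).symm) (mul_right_injective γ) ?_ ?_
    · intro x
      rw [dg_mul, add_comm]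
    · intro x
      rw [← mul_assoc, Subgroup.mem_center_iff.1 Rp.zc, mul_assoc]
  · refine K.ext_pr χ fun γ x => ?_
    rw [K.rho_single, K.pr_single, K.pr_single, shp_single, ← zpow_natCast, K.ω_mu, K.c_mu,
      dg_mul, dg_zpow, dg_mu, mul_one, add_comm]
  · rw [← e0, K.rho_f χ _ (e0 ▸ Rp.cc₀), x0]
  · rw [← e1, K.rho_f χ _ (e1 ▸ Rp.cc₁), x1]
  · intro α g₁ g₂ hμ h0 h1 hd hg hc hm
    refine K.phi χ hχ α g₁ g₂ hμ (fun a => ?_) hd hg hc hm
    rw [hom2_apply, map_mul, map_pow, map_pow, h0, h1]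

end Pool.Agent.HH
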