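import Pool.Agent.P.MP_c8dc46_gt.LagC
import Pool.Agent.P.MP_c8dc46_gt.TA

/-!
The Lagrangian lemma and its consequences: invariance of the signature and nondegeneracy.
-/

open Set Topology

namespace Pool.Agent.HH

section

variable {F G : Type} [Field F] [StarRing F] [AddCommGroup G] [Module F G] {cf : Coef F G}
  {C D : ℝ → S3} {A : ℝ → ℝ → Y4} {τ : Y4 → Y4 → Module.End F G} {t₀ t₁ : ℝ}

namespace RLagE

theorem N_univ {R H : Type} [CommRing R] [AddCommGroup H] [Module R H] {n : ℕ} (X : Set Y4)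
    {φ : List Y4 → H} (h : φ ∈ N R H n X) (h' : φ ∈ N R H n Xᶜ) : φ ∈ N R H n (univ : Set Y4) := by
  rw [← union_compl_self X]
  exact mem_N_union.2 ⟨h, h'⟩

theorem cont_sl (t : ℝ) (S : Set S3) : ∀ p ∈ S, ContinuousAt (sl t) p :=
  fun _ _ => (continuous_id.prodMk continuous_const).continuousAt

theorem pull_sl_fst {R H : Type} [CommRing R] [AddCommGroup H] [Module R H] (t : ℝ)
    (c : List S3 → H) : pull R H (sl t) (pull R H Prod.fst c) = c := by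
  rw [pull_pull]
  funext l
  change c (l.map id) = c l
  rw [List.map_id]

theorem clos (t : ℝ) : closure {p : Y4 | t < p.2} ⊆ {p : Y4 | t ≤ p.2} :=
  closure_lt_subset_le continuous_const continuous_snd

theorem intr (t : ℝ) : interior {p : Y4 | t < p.2} = {p : Y4 | t < p.2} :=
  (isOpen_lt continuous_const continuous_snd).interior_eq

variable {E : ℝ → S3} {τE : S3 → S3 → Module.End F G} {I : Set ℝ}

omit [StarRing F] in
theorem d_pull (e : EndD A τ E τE I) {c : List S3 → G}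
    (hd : dT τE c ∈ N F G 4 (univ : Set S3)) :
    dT τ (pull F G Prod.fst c) ∈ N F G 4 {p : Y4 | p.2 ∈ I} := by
  have h1 : dT τ (pull F G Prod.fst c) - dT (pb Prod.fst τE) (pull F G Prod.fst c) ∈
      N F G 4 {p : Y4 | p.2 ∈ I} := dT_congr (fun p hp => ⟨Prod.snd ⁻¹' I,
    (e.isOpen.preimage continuous_snd).mem_nhds hp, fun x hx y hy => e.eq x y hx hy⟩) 4 _
  have h2 := pull_mem_N (j := (Prod.fst : Y4 → S3)) (S' := {p : Y4 | p.2 ∈ I})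
    (fun _ _ => continuousAt_fst) (mapsTo_univ _ _) hd
  have := Submodule.add_mem _ h1 h2
  rwa [pull_dT, sub_add_cancel] at this

theorem end_step (e : EndD A τ E τE I) (hc : cf.CompatT τE) {t R : ℝ} (ht : t ∈ I) (hR : R ∈ I)
    {y y' g : List Y4 → G} {a c : List S3 → G}
    (hy : cm (pk cf.T (2 * cf.m)) (cm (cf.T ^ cf.m) g - dT τ y) ∈ N F _ 3 (rng A)ᶜ)
    (hy0 : cf.red (dT τ y) ∈ N F _ 3 (rng A)ᶜ)
    (hy' : Exa (cf.br τ) 2 (rng A)ᶜ (cf.red (y - y')))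
    (hg : g - pull F G Prod.fst c ∈ N F G 3 {p : Y4 | p.2 = R})
    (q : dT τE a - cm (cf.T ^ cf.m) c ∈ N F G 3 (univ : Set S3)) :
    ∃ z : List S3 → G, cm (pk cf.T (2 * cf.m)) (dT τE z) ∈ N F _ 3 (range E)ᶜ ∧
      Exa (cf.br τE) 2 (range E)ᶜ (cf.red (pull F G (sl t) y' - a - z)) := by
  refine ⟨pull F G (sl R) y - a, ?_, ?_⟩
  · have hp : pb (sl R) τ = τE := funext fun x => funext fun y => e.eq _ _ hR hR
    have h1 : cm (pk cf.T (2 * cf.m)) (cm (cf.T ^ cf.m) (pull F G (sl R) g) -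
        pull F G (sl R) (dT τ y)) ∈ N F _ 3 (range E)ᶜ :=
      pull_mem_N (S := (rng A)ᶜ) (cont_sl R (range E)ᶜ)
        (fun p hp hA => hp ((e.mem (sl R p) hR).1 hA)) hy
    have h2 := pull_mem_N (cont_sl R (range E)ᶜ) (fun _ _ => rfl) hg
    rw [map_sub, pull_sl_fst] at h2
    have := Submodule.sub_mem _ (cm_mem_N (pk cf.T (2 * cf.m)) (Submodule.sub_mem _
      (cm_mem_N (cf.T ^ cf.m) h2) (N_mono (subset_univ _) q))) h1
    rw [pull_dT, hp, ← map_sub, map_sub (cm (cf.T ^ cf.m))] at this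
    rwa [map_sub (dT τE), show ∀ u v w x : List S3 → G, x - w = u - v - (w - v) - (u - x) from
      fun u v w x => by abel]
  · have := (e.slice_cmp hc ht hR hy0).sub (e.slice_exa ht hy')
    rw [← map_sub, map_sub (pull F G (sl t))] at this
    rwa [show ∀ u v w x : List S3 → G, v - w - (x - w) = u - x - (u - v) from
      fun u v w x => by abel]

end RLagE

open RLagE

theorem LagD.coiso (h : LagD cf C D A τ t₀ t₁) {a₁ a₂ : List S3 → G}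
    (ha₁ : a₁ ∈ cf.W3 (pb (sl (t₀ - 1)) τ) (range C)ᶜ)
    (ha₂ : a₂ ∈ cf.W3 (pb (sl (t₁ + 1)) τ) (range D)ᶜ)
    (ho : ∀ y ∈ cf.Lag τ (rng A), cf.lam3 (pb (sl (t₀ - 1)) τ) (pull F G (sl (t₀ - 1)) y) a₁ =
      cf.lam3 (pb (sl (t₁ + 1)) τ) (pull F G (sl (t₁ + 1)) y) a₂) :
    ∃ y ∈ cf.Lag τ (rng A), ∃ z₁ z₂ : List S3 → G,
      cm (pk cf.T (2 * cf.m)) (dT (pb (sl (t₀ - 1)) τ) z₁) ∈ N F _ 3 (range C)ᶜ ∧
      cm (pk cf.T (2 * cf.m)) (dT (pb (sl (t₁ + 1)) τ) z₂) ∈ N F _ 3 (range D)ᶜ ∧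
      Exa (cf.br (pb (sl (t₀ - 1)) τ)) 2 (range C)ᶜ
        (cf.red (pull F G (sl (t₀ - 1)) y - a₁ - z₁)) ∧
      Exa (cf.br (pb (sl (t₁ + 1)) τ)) 2 (range D)ᶜ
        (cf.red (pull F G (sl (t₁ + 1)) y - a₂ - z₂)) := by
  have e₁ := h.end_low
  have e₂ := h.end_high
  have m₁ : t₀ - 1 ∈ Iio t₀ := sub_one_lt t₀
  have m₂ : t₁ + 1 ∈ Ioi t₁ := lt_add_one t₁
  have h₀ := h.h₀
  have h₁ := h.h₁
  obtain ⟨c₁, hc₁, q₁, d₁⟩ := cf.exists_quot (h.cmp.pb _) e₁.coc ha₁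
  obtain ⟨c₂, hc₂, q₂, d₂⟩ := cf.exists_quot (h.cmp.pb _) e₂.coc ha₂
  have j₁ := e₁.jc_mem h.coc m₁ hc₁ d₁
  have j₂ := e₂.jc_mem h.coc m₂ hc₂ d₂
  obtain ⟨c', ⟨K, hK, -, hc'⟩, hd'⟩ := cf.pd_herm h.ann.isClosed.isOpen_compl h.cmp h.coc
    (Submodule.sub_mem _ j₂.1 j₁.1) (by rw [map_sub]; exact Submodule.sub_mem _ j₂.2 j₁.2)
    fun y hy => h.pair_zero ha₁ ha₂ hc₁ hc₂ q₁ q₂ d₁ d₂ ho hy
  set T₁ : Set Y4 := {p | t₀ - 1 < p.2}
  set T₂ : Set Y4 := {p | t₁ + 1 < p.2}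
  set b₁ : List Y4 → G := pull F G Prod.fst c₁
  set b₂ : List Y4 → G := pull F G Prod.fst c₂
  set g := cut F G T₂ b₂ + (b₁ - cut F G T₁ b₁) - c' with hg
  have n₂ : cut F G T₂ (dT τ b₂) ∈ N F G 4 (univ : Set Y4) :=
    N_univ (closure T₂) (cut_mem_N _ (N_mono (S' := {p : Y4 | p.2 ∈ Ioi t₁})
      (fun p hp => (lt_add_one t₁).trans_le (clos _ hp)) (d_pull e₂ d₂))) (cut_mem_N_compl _ _ _)
  have n₁ : dT τ b₁ - cut F G T₁ (dT τ b₁) ∈ N F G 4 (univ : Set Y4) := by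
    have := N_mono (S := T₁ᶜ) (fun p hp =>
      (not_lt.1 (show ¬ t₀ - 1 < p.2 from hp)).trans_lt (sub_one_lt t₀)) (d_pull e₁ d₁)
    exact N_univ T₁ (N_mono (intr (t₀ - 1)).superset (sub_cut_mem_N T₁ (by norm_num) _))
      (Submodule.sub_mem _ this (cut_mem_N _ this))
  have hT : ∀ x y, Commute (τ x y) cf.T := fun x y => (h.cmp x y).1
  have dg : dT (bar cf.T (2 * cf.m) τ) (cm (pk cf.T (2 * cf.m)) g) ∈ N F _ 4 (rng A)ᶜ := by
    have := Submodule.add_mem _ hd' (cm_mem_N (pk cf.T (2 * cf.m)) (Submodule.add_mem _ n₂ n₁))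
    rw [← map_add] at this
    rw [← cm_pk_dT hT, hg, map_sub (dT τ), map_add (dT τ), map_sub (dT τ), dT_cut, dT_cut,
      show ∀ u v w x z s : List Y4 → G, u + v + (w - (x + z)) - s = v - z - s + (u + (w - x)) from
        fun u v w x z s => by abel]
    exact N_mono (subset_univ _) this
  obtain ⟨y, hy⟩ := h.tk3 _ dg
  obtain ⟨y, rfl, -⟩ := exists_cm_lift (pk cf.T (2 * cf.m)) (Submodule.mkQ_surjective _) y
  have hb : cm (barE cf.T (2 * cf.m) (cf.T ^ cf.m)) (cm (pk cf.T (2 * cf.m)) g) =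
      cm (pk cf.T (2 * cf.m)) (cm (cf.T ^ cf.m) g) :=
    funext fun l => (barE_pk ((Commute.refl cf.T).pow_left _) _ _).symm
  rw [hb, ← cm_pk_dT hT, ← map_sub] at hy
  have hy0 : cf.red (dT τ y) ∈ N F _ 3 (rng A)ᶜ := by
    refine map_mem_N hy fun l hl => (Submodule.Quotient.mk_eq_zero _).2 ?_
    obtain ⟨w, hw⟩ := (Submodule.Quotient.mk_eq_zero _).1 hl
    refine ⟨g l - (cf.T ^ cf.m) w, ?_⟩
    rw [map_sub, ← Module.End.mul_apply, ← pow_add, ← two_mul, hw]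
    exact sub_sub_cancel _ _
  obtain ⟨y', hy', hx⟩ := h.to_lag hy0
  obtain ⟨R, hR⟩ := (hK.image continuous_snd).isBounded.exists_norm_le
  have hR' : ∀ p ∈ K, -R ≤ p.2 ∧ p.2 ≤ R := fun p hp => abs_le.1 (hR _ ⟨p, hp, rfl⟩)
  have l₁ := min_le_left (t₀ - 1) (-R)
  have l₂ := le_max_left (t₁ + 1) R
  obtain ⟨z₁, hz₁⟩ := end_step e₁ (h.cmp.pb _) m₁ (R := min (t₀ - 1) (-R) - 1)
    (show _ < t₀ by linarith) hy hy0 hx (c := c₁) (by
      have o : ∀ t, t₀ - 1 ≤ t → ∀ b : List Y4 → G, cut F G {p : Y4 | t < p.2} b ∈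
          N F G 3 {p : Y4 | p.2 = min (t₀ - 1) (-R) - 1} := fun t ht b =>
        N_mono (fun p hp hq => by
          have h1 : t ≤ p.2 := clos t hq
          have h2 : p.2 = _ := hp
          linarith) (cut_mem_N_compl _ 3 b)
      rw [hg, show ∀ u v w x : List Y4 → G, u + (v - w) - x - v = u - w - x from
        fun u v w x => by abel]
      refine Submodule.sub_mem _ (Submodule.sub_mem _ (o _ (by linarith) _) (o _ le_rfl _))
        (N_mono (fun p hp hq => ?_) hc')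
      have h2 : p.2 = _ := hp
      linarith [(hR' p hq).1, min_le_right (t₀ - 1) (-R)]) q₁
  obtain ⟨z₂, hz₂⟩ := end_step e₂ (h.cmp.pb _) m₂ (R := max (t₁ + 1) R + 1)
    (show t₁ < _ by linarith) hy hy0 hx (c := c₂) (by
      have o : ∀ t, t ≤ t₁ + 1 → ∀ b : List Y4 → G, b - cut F G {p : Y4 | t < p.2} b ∈
          N F G 3 {p : Y4 | p.2 = max (t₁ + 1) R + 1} := fun t ht b =>
        N_mono (fun p hp => by
          have h2 : p.2 = _ := hp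
          rw [intr]
          change t < p.2
          linarith) (sub_cut_mem_N _ (by norm_num) b)
      rw [hg, show ∀ u v x z : List Y4 → G, u + v - x - z = v - (z - u) - x from
        fun u v x z => by abel]
      refine Submodule.sub_mem _ (Submodule.sub_mem _ (o _ (by linarith) _) (o _ le_rfl _))
        (N_mono (fun p hp hq => ?_) hc')
      have h2 : p.2 = _ := hp
      linarith [(hR' p hq).2, le_max_right (t₁ + 1) R]) q₂
  exact ⟨y', hy', z₁, z₂, hz₁.1, hz₂.1, hz₁.2, hz₂.2⟩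

theorem LagD.co (h : LagD cf C D A τ t₀ t₁) {a₁ a₂ : List S3 → G}
    (ha₁ : a₁ ∈ cf.W3 (pb (sl (t₀ - 1)) τ) (range C)ᶜ)
    (ha₂ : a₂ ∈ cf.W3 (pb (sl (t₁ + 1)) τ) (range D)ᶜ)
    (ho : ∀ y ∈ cf.Lag τ (rng A), cf.lam3 (pb (sl (t₀ - 1)) τ) (pull F G (sl (t₀ - 1)) y) a₁ =
      cf.lam3 (pb (sl (t₁ + 1)) τ) (pull F G (sl (t₁ + 1)) y) a₂) :
    ∃ y ∈ cf.Lag τ (rng A),
      (∀ c ∈ cf.W3 (pb (sl (t₀ - 1)) τ) (range C)ᶜ,
        cf.lam3 (pb (sl (t₀ - 1)) τ) c (pull F G (sl (t₀ - 1)) y - a₁) = 0) ∧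
      ∀ c ∈ cf.W3 (pb (sl (t₁ + 1)) τ) (range D)ᶜ,
        cf.lam3 (pb (sl (t₁ + 1)) τ) c (pull F G (sl (t₁ + 1)) y - a₂) = 0 := by
  obtain ⟨y, hy, z₁, z₂, h₁, h₂, h₃, h₄⟩ := h.coiso ha₁ ha₂ ho
  have key : ∀ {τE : S3 → S3 → Module.End F G} {M : Set S3} {b z : List S3 → G}, cf.CompatT τE →
      IsCoc τE M → cm (pk cf.T (2 * cf.m)) (dT τE z) ∈ N F _ 3 M →
      Exa (cf.br τE) 2 M (cf.red (b - z)) → ∀ c ∈ cf.W3 τE M, cf.lam3 τE c b = 0 := by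
    intro τE M b z hc hτ hz hb c hcm
    have := cf.lam3_exa hc hτ hcm hb
    rw [(cf.isSkew3 hc hτ).sub_right, sub_eq_zero] at this
    exact this.trans (cf.lam_two isInt_I3 hc hcm (N_mono inter_subset_left hz))
  exact ⟨y, hy, key (h.cmp.pb _) h.end_low.coc h₁ h₃, key (h.cmp.pb _) h.end_high.coc h₂ h₄⟩

/-- A class that survives at one of the ends (`exists_lag_not_rad`). -/
theorem LagD.survive (h : LagD cf C D A τ t₀ t₁) {a : List S3 → G}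
    (ha : a ∈ cf.W3 (pb (sl (t₀ - 1)) τ) (range C)ᶜ) (hne : cf.lam3 (pb (sl (t₀ - 1)) τ) a a ≠ 0) :
    ∃ y ∈ cf.Lag τ (rng A), ¬ ((∀ c ∈ cf.W3 (pb (sl (t₀ - 1)) τ) (range C)ᶜ,
        cf.lam3 (pb (sl (t₀ - 1)) τ) c (pull F G (sl (t₀ - 1)) y) = 0) ∧
      ∀ c ∈ cf.W3 (pb (sl (t₁ + 1)) τ) (range D)ᶜ,
        cf.lam3 (pb (sl (t₁ + 1)) τ) c (pull F G (sl (t₁ + 1)) y) = 0) := by
  obtain ⟨_, ⟨y, hy, rfl⟩, hn⟩ := exists_lag_not_rad (cf.isSkew3 (h.cmp.pb _) h.end_low.coc)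
    (cf.isSkew3 (h.cmp.pb _) h.end_high.coc)
    (L := (fun y => (pull F G (sl (t₀ - 1)) y, pull F G (sl (t₁ + 1)) y)) '' cf.Lag τ (rng A))
    (by
      rintro _ ⟨y, hy, rfl⟩
      exact ⟨h.end_low.slice_mem (sub_one_lt t₀) hy, h.end_high.slice_mem (lt_add_one t₁) hy⟩)
    (fun a₁ ha₁ a₂ ha₂ ho =>
      let ⟨y, hy, hr⟩ := h.co ha₁ ha₂ fun y hy => ho _ ⟨y, hy, rfl⟩
      ⟨_, ⟨y, hy, rfl⟩, hr⟩) ha hne
  exact ⟨y, hy, hn⟩

theorem nondeg_knot (hC : IsKnot C) {τ : S3 → S3 → Module.End F G} (hc : cf.CompatT τ)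
    (hτ : IsCoc τ (range C)ᶜ)
    (hm : MerAc (ℝ × ℝ) univ (rng (prodA C)) (cf.br (pb (Prod.fst : Y4 → S3) τ)))
    (k₂ : TK cf.T cf.m (2 * cf.m) (pb (Prod.fst : Y4 → S3) τ) 2 ((range C)ᶜ ×ˢ univ))
    (k₃ : TK cf.T cf.m (2 * cf.m) (pb (Prod.fst : Y4 → S3) τ) 3 ((range C)ᶜ ×ˢ univ)) :
    cf.Nondeg τ (range C)ᶜ := by
  have hX := compl_rng_prodA C
  have h : LagD cf C C (prodA C) (pb Prod.fst τ) 0 1 :=
    ⟨hC.isAnn, hc.pb _, hτ.pb (fun _ _ => continuousAt_fst) fun _ hp => (hX.subset hp).1, le_rfl,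
      le_rfl, fun _ _ => rfl, hm, hX ▸ k₂, hX ▸ k₃⟩
  have e : EndD (prodA C) (pb Prod.fst τ) C τ univ :=
    ⟨isOpen_univ, convex_univ, h.end_low.closed, fun p _ => by rw [rng_prodA]; simp,
      fun _ _ _ _ => rfl, hτ⟩
  have h0 : Acyc0 (cf.br τ) (range C)ᶜ := fun φ hφ => by
    have h1 := h.acyc0 (pull F _ Prod.fst φ) (by
      have := pull_mem_N (j := (Prod.fst : Y4 → S3)) (S' := (rng (prodA C))ᶜ)
        (fun _ _ => continuousAt_fst) (fun _ hp => (hX.subset hp).1) hφ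
      rwa [pull_dT] at this)
    have := pull_mem_N (cont_sl 0 (range C)ᶜ) (fun _ hp => hX.superset ⟨hp, trivial⟩) h1
    rwa [pull_sl_fst] at this
  intro a ha hr
  obtain ⟨y, hy, z₁, z₂, h₁, h₂, h₃, h₄⟩ := h.coiso (a₁ := a) (a₂ := 0) ha (Submodule.zero_mem _)
    fun y hy => (hr _ (e.slice_mem trivial hy)).trans ((cf.isSkew3 hc hτ).zero_right _).symm
  have k : TK cf.T cf.m (2 * cf.m) τ 2 (range C)ᶜ := Kills.slice k₂
  have := ((((e.slice_cmp hc (t := 0 - 1) (t' := 1 + 1) trivial trivial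
    (N_mono (subset_univ _) hy.1)).sub h₃).add h₄).add
    (cf.exa_of_two hc hτ h0 k h₂)).sub (cf.exa_of_two hc hτ h0 k h₁)
  rw [← map_sub, ← map_add, ← map_add, ← map_sub] at this
  rwa [show ∀ u v w x : List S3 → G, u - v - (u - a - w) + (v - 0 - x) + x - w = a from
    fun u v w x => by abel] at this

end

theorem LagD.sig_eq {G : Type} [AddCommGroup G] [Module ℂ G] {cf : Coef ℂ G} {C D : ℝ → S3}
    {A : ℝ → ℝ → Y4} {τ : Y4 → Y4 → Module.End ℂ G} {t₀ t₁ : ℝ} (h : LagD cf C D A τ t₀ t₁)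
    {s₁ s₂ : ℤ} (g₁ : Sig3 cf (pb (sl (t₀ - 1)) τ) (range C)ᶜ s₁)
    (g₂ : Sig3 cf (pb (sl (t₁ + 1)) τ) (range D)ᶜ s₂) : s₁ = s₂ := by
  refine HasSig.eq_of_lag (cf.isSkew3 (h.cmp.pb _) h.end_low.coc)
    (cf.isSkew3 (h.cmp.pb _) h.end_high.coc) g₁ g₂ ((cf.LagS τ (rng A)).map
      ((pull ℂ G (sl (t₀ - 1))).prod (pull ℂ G (sl (t₁ + 1))))) ?_ ?_ ?_
  · rintro _ ⟨y, hy, rfl⟩
    exact ⟨h.end_low.slice_mem (sub_one_lt t₀) hy, h.end_high.slice_mem (lt_add_one t₁) hy⟩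
  · rintro _ ⟨y, hy, rfl⟩ _ ⟨y', hy', rfl⟩
    exact h.iso hy hy'
  · intro a₁ ha₁ a₂ ha₂ ho
    obtain ⟨y, hy, hr⟩ := h.co ha₁ ha₂ fun y hy =>
      ho (pull ℂ G (sl (t₀ - 1)) y, pull ℂ G (sl (t₁ + 1)) y) ⟨y, hy, rfl⟩
    exact ⟨(pull ℂ G (sl (t₀ - 1)) y, pull ℂ G (sl (t₁ + 1)) y), ⟨y, hy, rfl⟩, hr⟩

end Pool.Agent.HH
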