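import Pool.Agent.P.MP_c8dc46_gt.DegA

/-!
The degree cocycle on the knot `D`, and the existence of `Deg`.
-/

open Set Topology

namespace Pool.Agent.HH

namespace RDegB

theorem sg_pm (i : Fin 2) : sg i = 1 ∨ sg i = -1 := by
  unfold sg
  split_ifs <;> simp

theorem clamp_idem (p : Y4) : clampT (-1) 2 (clampT (-1) 2 p) = clampT (-1) 2 p := by
  refine Prod.ext rfl ?_
  change max (-1) (min (max (-1) (min p.2 2)) 2) = max (-1) (min p.2 2)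
  rw [min_eq_left (max_le (by norm_num) (min_le_right _ _)), ← max_assoc, max_self]

theorem open_strip (c d : ℝ) : IsOpen {x : ℂ | c < x.re ∧ x.re < d} :=
  (isOpen_lt continuous_const Complex.continuous_re).inter
    (isOpen_lt Complex.continuous_re continuous_const)

theorem open_box (c d : ℝ) : IsOpen {x : ℂ | ‖x‖ < 1 ∧ c < x.re ∧ x.re < d} :=
  (isOpen_lt continuous_norm continuous_const).inter (open_strip c d)

theorem convex_box (c d : ℝ) : Convex ℝ {x : ℂ | ‖x‖ < 1 ∧ c < x.re ∧ x.re < d} := by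
  have h := (convex_ball (0 : ℂ) 1).inter
    ((convex_halfSpace_re_gt c).inter (convex_halfSpace_re_lt d))
  have e : {x : ℂ | ‖x‖ < 1 ∧ c < x.re ∧ x.re < d} =
      Metric.ball (0 : ℂ) 1 ∩ ({x : ℂ | c < x.re} ∩ {x : ℂ | x.re < d}) := by
    ext x
    simp
  rw [e]
  exact h

theorem exists_pt : ∃ x : ℂ, ‖x‖ < 1 ∧ x.re = -3 / 8 :=
  ⟨-3 / 8, by rw [norm_div, norm_neg]; norm_num, by norm_num⟩

theorem yc_ne {p : S3} (h : ‖xc p‖ < 1) : yc p ≠ 0 := fun h0 =>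
  h.ne ((yc_eq_zero_iff p).1 h0)

theorem img_box {c d : ℝ} (H : S3 ≃ₜ S3) {K : Set S3}
    (hK : ∀ p, c < (xc p).re → (xc p).re < d → (H p ∈ K ↔ yc p = 0)) :
    H '' RB {x : ℂ | ‖x‖ < 1 ∧ c < x.re ∧ x.re < d} =
      H '' RB {x : ℂ | c < x.re ∧ x.re < d} \ K := by
  ext q
  constructor
  · rintro ⟨p, hp, rfl⟩
    exact ⟨⟨p, hp.2, rfl⟩, fun h => yc_ne hp.1 ((hK p hp.2.1 hp.2.2).1 h)⟩
  · rintro ⟨⟨p, hp, rfl⟩, h⟩
    refine ⟨p, ⟨lt_of_le_of_ne (norm_xc_le p) fun h1 => h ?_, hp⟩, rfl⟩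
    exact (hK p hp.1 hp.2).2 ((yc_eq_zero_iff p).2 h1)

variable {r s : Fin 2 → ℕ} {P : ℝ → S3} (g : Geo r s P) {k : S3 → S3 → ℤ}

theorem quarter {p : S3} (hp : p ∈ g.h '' RB {x | x.re < -1 / 2}) :
    p ∈ g.h '' RB {x | x.re < -1 / 4} := by
  obtain ⟨q, hq, rfl⟩ := hp
  refine ⟨q, ?_, rfl⟩
  have h1 : (xc q).re < -1 / 2 := hq
  change (xc q).re < -1 / 4
  linarith

theorem coc_ret (hk : IsCocA k (range g.D)ᶜ) (i : Fin 2) {κ : S3 → S3}
    (hκ : (g.lk i).IsRet κ) : IsCocA (pb (g.Ψ i ∘ κ) k) (g.lk i).Kᶜ :=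
  hk.pb (fun p hp => (g.Ψ i).continuous.continuousAt.comp (hκ.cont p hp))
    fun _ hp => g.Ψ_maps i (hκ.maps hp)

theorem h_mem_C {p : S3} (hp : -1 / 2 ≤ (xc p).re) : g.h p ∈ range g.C ↔ yc p = 0 := by
  have h1 : ∀ i, g.h p ∉ eta (g.xi i) := fun i hi => by
    have h2 := (g.hz p hp).2
    have h3 : xc (g.h p) = g.xi i := hi
    rw [h3, g.norm_xi] at h2
    linarith [g.rad.2.1]
  have h2 := g.fl_mem_C (p := g.h p) fun h => h.elim (h1 0) (h1 1)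
  rw [g.fl_h hp] at h2
  exact h2.trans (g.hP p hp)

theorem Ψ_fib (i : Fin 2) {x : ℂ} (hx : ‖x‖ ≤ 1) :
    g.Ψ i ∘ g.h ∘ fib x = g.h ∘ fib x ∨ g.Ψ i ∘ g.h ∘ fib x = g.h ∘ fib (-x) := by
  by_cases hi : i = 0
  · left
    funext t
    simp [Geo.Ψ, hi]
  · right
    funext t
    simp only [Geo.Ψ, if_neg hi, Function.comp_apply]
    rw [g.σ_h, rot_fib x hx]

end RDegB

open RDegB

namespace Geo

variable {r s : Fin 2 → ℕ} {P : ℝ → S3} (g : Geo r s P) {hP k : S3 → S3 → ℤ} {w ε : ℤ}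

theorem exists_epsD (hk : IsGen ℝ (range g.D) k) : ∃ ε : ℤ, (ε = 1 ∨ ε = -1) ∧
    ∀ x : ℂ, ‖x‖ < 1 → |x.re| < 1 / 2 → IsHolA k (g.h ∘ fib x) ε := by
  have hn : ‖(Complex.I / 2 : ℂ)‖ = 1 / 2 := by simp
  have hm : IsMer ℝ (RB {x : ℂ | -(1 / 2) < x.re ∧ x.re < 1 / 2}) Uk (fib (Complex.I / 2)) := by
    refine isMer_fib (norm_pos_iff.1 (by rw [hn]; norm_num)) (by rw [hn]; norm_num)
      (open_strip _ _) fun t _ _ => ?_
    have h0 : (((t / ‖(Complex.I / 2 : ℂ)‖ : ℝ) : ℂ) * (Complex.I / 2)).re = 0 := by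
      rw [Complex.re_ofReal_mul]
      simp
    rw [mem_ofPred_eq, h0]
    norm_num
  have hm' := hm.image (B := range g.D) (OE.of_homeomorph g.h isOpen_univ) (subset_univ _)
    fun p hp => g.h_mem_D (abs_lt.2 hp).le
  have hc : IsCocA (pb g.h k) (RB {x : ℂ | ‖x‖ < 1 ∧ -(1 / 2) < x.re ∧ x.re < 1 / 2}) :=
    hk.1.pb (fun _ _ => g.h.continuous.continuousAt)
      fun p hp h => yc_ne hp.1 ((g.h_mem_D (abs_lt.2 hp.2).le).1 h)
  have key : ∀ c : ℤ, IsHolA k (g.h ∘ fib (Complex.I / 2)) c →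
      ∀ x : ℂ, ‖x‖ < 1 → |x.re| < 1 / 2 → IsHolA k (g.h ∘ fib x) c := fun c h x hx hr =>
    isHolA_fib_const (f := pb g.h k) (open_box _ _) (convex_box _ _).isPreconnected
      (fun _ h => h.1) hc (x := Complex.I / 2) ⟨by rw [hn]; norm_num, by norm_num, by norm_num⟩
      ⟨hx, abs_lt.1 hr⟩ h
  rcases hk.2 _ hm' with h | h
  · exact ⟨1, Or.inl rfl, key _ h⟩
  · exact ⟨-1, Or.inr rfl, key _ h⟩

theorem midD_of (hg : IsGen ℝ (range P) hP) (hk : IsCocA k (range g.D)ᶜ) (hε : ε = 1 ∨ ε = -1)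
    (qP : ∀ x : ℂ, ‖x‖ < 1 → -1 / 2 < x.re → IsHolA hP (g.h ∘ fib x) ε)
    (qD : ∀ x : ℂ, ‖x‖ < 1 → |x.re| < 1 / 2 → IsHolA k (g.h ∘ fib x) ε) {κ : S3 → S3}
    (hκ : g.IsRq κ) (i : Fin 2) :
    CohA (pb (g.Ψ i ∘ κ ∘ (g.lk i).F) k) hP (range P ∪ eta (g.xi i))ᶜ := by
  have hρ := g.rad.2.1
  obtain ⟨κ', hκ'⟩ := (g.lk i).exists_ret g.rad (sg_pm i)
  have h0 : IsHolA k ((g.Ψ i ∘ κ') ∘ (g.lk i).lam) 0 :=
    (g.lk i).hol_lam_zero g.rad (sg_pm i) (coc_ret g hk i hκ')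
  have e0 : (g.Ψ i ∘ κ') ∘ (g.lk i).lam =
      (g.Ψ i ∘ κ ∘ (g.lk i).F) ∘ lon (g.xi i) (5 * g.ρ / 2) := by
    funext t
    have h1 := (((g.lk i).isLoop_lam g.rad (sg_pm i)).2.2 t).1
    have h2 := hκ.fix (quarter g (g.Oc_off i ((g.lk i).Oc_mono (by linarith) h1)))
    change g.Ψ i (κ' ((g.lk i).lam t)) = g.Ψ i (κ ((g.lk i).lam t))
    rw [hκ'.id _ h1, h2]
  rw [e0] at h0
  obtain ⟨c, hc⟩ := g.hf_side hg i (hk.pb (g.rq_maps hκ i).2 (g.rq_maps hκ i).1) h0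
  obtain ⟨x, hn, hr⟩ := exists_pt
  have hx : ∀ t, (xc (fib x t)).re = -3 / 8 := fun t => by rw [xc_fib hn.le, hr]
  have hl : IsLoop (g.h ∘ fib x) (range P ∪ eta (g.xi i))ᶜ := by
    have h1 := isLoop_fib (B := univ) (x := x) trivial hn.le
    refine ⟨g.h.continuous.comp h1.1, fun t => congrArg g.h (h1.2.1 t), fun t ht => ?_⟩
    refine g.h_mem_Mid (p := fib x t) (by rw [hx]; norm_num)
      (yc_ne (by rw [xc_fib hn.le]; exact hn)) ?_
    rcases ht with ht | ht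
    · exact Or.inl (Or.inl ht)
    · fin_cases i
      · exact Or.inl (Or.inr ht)
      · exact Or.inr ht
  have e1 : (g.Ψ i ∘ κ ∘ (g.lk i).F) ∘ g.h ∘ fib x = g.Ψ i ∘ g.h ∘ fib x := by
    funext t
    simp only [Function.comp_apply]
    rw [g.F_h i (by rw [hx]; norm_num), hκ.id _ (by rw [hx]; norm_num)]
  have h1 : IsHolA k ((g.Ψ i ∘ κ ∘ (g.lk i).F) ∘ g.h ∘ fib x) ε := by
    rw [e1]
    rcases Ψ_fib g i hn.le with e | e <;> rw [e]
    · exact qD _ hn (by rw [hr, abs_lt]; norm_num)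
    · exact qD _ (by rwa [norm_neg]) (by rw [Complex.neg_re, hr, abs_lt]; norm_num)
  have h2 := (IsHolA.cohA hc hl h1).unique ((qP _ hn (by rw [hr]; norm_num)).smul c)
  have h3 : c = 1 := by
    rw [smul_eq_mul] at h2
    rcases hε with rfl | rfl <;> omega
  simpa only [h3, smul_eq_mul, mul_one] using hc

theorem fibD_of (hg : IsCocA hP (range P)ᶜ) (hw : IsHolA hP (fib 0) w) {κ : S3 → S3}
    (hκ : g.IsRq κ) (i : Fin 2)
    (hm : CohA (pb (g.Ψ i ∘ κ ∘ (g.lk i).F) k) hP (range P ∪ eta (g.xi i))ᶜ) (x : ℂ)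
    (hx : ‖x‖ < g.a + 7 * g.ρ) (hi : x ≠ g.xi i) :
    IsHolA k (g.Ψ i ∘ (g.lk i).F ∘ fib x) w := by
  have h1 : ‖x‖ ≤ 1 := by linarith [g.rad.2.1, g.rad.2.2]
  have he : ∀ t, fib x t ∉ eta (g.xi i) := fun t ht => hi ((xc_fib h1 t).symm.trans ht)
  have hl : IsLoop (fib x) (range P ∪ eta (g.xi i))ᶜ := by
    have h2 := isLoop_fib (B := Metric.closedBall 0 (g.a + 7 * g.ρ)) (x := x)
      (mem_closedBall_zero_iff.2 hx.le) h1
    exact ⟨h2.1, h2.2.1, fun t ht =>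
      ht.elim (fun h => disjoint_left.1 g.disjoint_P h (h2.2.2 t)) (he t)⟩
  have h2 : IsHolA k ((g.Ψ i ∘ κ ∘ (g.lk i).F) ∘ fib x) w :=
    IsHolA.cohA hm.symm hl (g.fibP hg hw x hx)
  have e : (g.Ψ i ∘ κ ∘ (g.lk i).F) ∘ fib x = g.Ψ i ∘ (g.lk i).F ∘ fib x := by
    funext t
    simp only [Function.comp_apply]
    rw [hκ.fix (quarter g (g.F_off i (he t) le_rfl
      (g.off_of_norm (by rw [xc_fib h1]; exact hx.le))))]
  rwa [e] at h2

theorem compD_of (hk : IsCocA k (range g.D)ᶜ) (i : Fin 2)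
    (hf : ∀ x, ‖x‖ < g.a + 7 * g.ρ → x ≠ g.xi i → IsHolA k (g.Ψ i ∘ (g.lk i).F ∘ fib x) w)
    {κ : S3 → S3} (hκ : (g.lk i).IsRet κ) :
    CohA (pb (g.Ψ i ∘ κ) k) (fun x y => w * th (g.lk i).ϑ x y) (g.lk i).Kᶜ := by
  have hρ := g.rad.2.1
  have h8 := g.rad.2.2
  obtain ⟨x, hx⟩ : ∃ x : ℂ, ‖x - g.xi i‖ = 5 * g.ρ / 2 :=
    ⟨g.xi i + (5 * g.ρ / 2 : ℝ), by
      rw [add_sub_cancel_left, Complex.norm_real, Real.norm_of_nonneg (by linarith)]⟩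
  have hn : ‖x‖ ≤ g.a + 5 * g.ρ / 2 := by
    have h1 := norm_add_le (g.xi i) (x - g.xi i)
    rwa [add_sub_cancel, g.norm_xi, hx] at h1
  have hi : x ≠ g.xi i := fun h => by
    rw [h, sub_self, norm_zero] at hx
    linarith
  have h1 : ‖x‖ ≤ 1 := by linarith
  have e : (g.Ψ i ∘ κ) ∘ (g.lk i).F ∘ fib x = g.Ψ i ∘ (g.lk i).F ∘ fib x := by
    funext t
    simp only [Function.comp_apply]
    rw [hκ.id]
    refine ((g.lk i).mem_Oc_iff (by linarith) fun ht => hi ((xc_fib h1 t).symm.trans ht)).2 ?_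
    rw [xc_fib h1]
    exact hx.trans_lt (by linarith)
  have h2 : IsHolA (pb (g.Ψ i ∘ κ) k) ((g.lk i).F ∘ fib x) w := by
    rw [isHolA_pb, e]
    exact hf x (by linarith) hi
  have h3 := (g.lk i).comp_class g.rad (sg_pm i) (coc_ret g hk i hκ)
    (le_of_le_of_eq (by linarith) hx.symm) (by linarith) h2
  simpa only [smul_eq_mul, mul_comm w] using h3

theorem exists_deg (hg : IsGen ℝ (range P) hP) (hw : IsHolA hP (fib 0) w) :
    Nonempty (Deg g hP w) := by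
  obtain ⟨A, hA⟩ : ∃ A, IsAnn g.C g.D A := g.conc
  have hC : IsKnot g.C := g.knotC
  obtain ⟨h, gen, ti, midC⟩ : ∃ h : Y4 → Y4 → ℤ, IsGen (ℝ × ℝ) (rng A) h ∧
      (∀ p q, h p q = h (clampT (-1) 2 p) (clampT (-1) 2 q)) ∧
      CohA (pb g.fl (pb (sl (-2)) h)) hP g.Mid := by
    obtain ⟨h₀, hh₀⟩ := hA.exists_gen
    have h₁ := IsGen.clamp hA hC hh₀ (t₀ := -1) (t₁ := 2) (by norm_num) (by norm_num)
    rcases g.midC_sign hg (IsGen.slice_low hA h₁ (t := -2) (by norm_num)) with h | h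
    · exact ⟨_, h₁, fun p q => by simp only [pb, clamp_idem], h⟩
    · exact ⟨_, h₁.neg, fun p q => by simp only [pb, clamp_idem], h⟩
  have gC := IsGen.slice_low hA gen (t := -2) (by norm_num)
  have gD := IsGen.slice_high hA gen (t := 3) (by norm_num)
  obtain ⟨ε, hε, qP⟩ := g.exists_eps hg
  obtain ⟨ε', hε', qD⟩ := g.exists_epsD gD
  have qC : ∀ x : ℂ, ‖x‖ < 1 → -1 / 2 < x.re → IsHolA (pb (sl (-2)) h) (g.h ∘ fib x) ε :=
    fun x hx hr => g.fibqC_of midC hx hr (qP x hx hr)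
  have hCP : ∀ t, -1 / 2 < (xc (g.h.symm (P t))).re → g.C t = P t := fun t ht => by
    have h1 := g.fl_h ht.le
    rwa [g.h.apply_symm_apply] at h1
  have e : ε' = ε := by
    obtain ⟨hcc, him⟩ := isCC_fib (open_box (-1 / 2) (-1 / 4)) (convex_box _ _) fun _ h => h.1
    obtain ⟨x, hn, hr⟩ := exists_pt
    refine sign_lemma hA hC g.knotD gen ti (s₀ := g.s₀) ?_
      (V' := g.h '' RB {x : ℂ | -1 / 2 < x.re ∧ x.re < -1 / 4})
      (g.h.isOpenMap _ (isOpen_RB (open_strip _ _))) ?_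
      (hcc.comp (OE.of_homeomorph g.h isOpen_univ) (subset_univ _)) ?_ ?_ (o := x)
      ⟨hn, by rw [hr]; norm_num, by rw [hr]; norm_num⟩ (qC x hn (by rw [hr]; norm_num))
      (qD x hn (by rw [hr, abs_lt]; norm_num)) (by omega)
    · have hc : Continuous fun t => (xc (g.h.symm (P t))).re :=
        Complex.continuous_re.comp (continuous_xc.comp (g.h.symm.continuous.comp g.knot.cont))
      filter_upwards [g.hs₀, (isOpen_lt continuous_const hc).mem_nhds g.loc.1] with t h1 h2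
      rw [h1, hCP t h2]
    · rw [hCP _ g.loc.1]
      exact ⟨_, g.loc, g.h.apply_symm_apply _⟩
    · rw [image_comp, him]
      exact img_box g.h fun p h1 _ => h_mem_C g h1.le
    · rw [image_comp, him]
      exact img_box g.h fun p h1 h2 => g.h_mem_D (abs_le.2 ⟨by linarith, by linarith⟩)
  subst e
  choose κ hκ using fun i => (g.lk i).exists_ret g.rad (sg_pm i)
  obtain ⟨κq, hq⟩ := g.exists_rq
  have midD := fun i => g.midD_of hg gD.1 hε qP qD hq i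
  have fibC := g.fibC_of hg.1 hw midC
  have fibD := fun i => g.fibD_of hg.1 hw hq i (midD i)
  exact ⟨⟨A, hA, h, gen, ti, κ, hκ, κq, hq, fun i => g.compC_of gC.1 fibC i (hκ i),
    fun i => g.compD_of gD.1 i (fibD i) (hκ i), midC, midD, fibC, fibD, _, hε, qC, qD, qP⟩⟩

end Geo

end Pool.Agent.HH
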