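import Pool.Agent.P.MP_c8dc46_gt.Basic2

/-! Cup products: bilinearity, locality, the Leibniz rule, the cup-one homotopy. -/

open Set Topology

namespace Pool.Agent.HH

variable {Y Y' : Type} {R₁ R₂ R₃ E₁ E₂ E₃ : Type} [CommRing R₁] [CommRing R₂] [CommRing R₃]
  [AddCommGroup E₁] [Module R₁ E₁] [AddCommGroup E₂] [Module R₂ E₂] [AddCommGroup E₃] [Module R₃ E₃]

namespace RCup

section
variable {R E : Type} [CommRing R] [AddCommGroup E] [Module R E]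

theorem tp_map (j : Y' → Y) (τ : Y → Y → Module.End R E) (l m : List Y') :
    tp τ (l.map j) (m.map j) = tp (pb j τ) l m := by
  cases l <;> cases m <;> rfl

theorem tp_congr {τ τ' : Y → Y → Module.End R E} {U : Set Y}
    (h : ∀ x ∈ U, ∀ y ∈ U, τ x y = τ' x y) {l m : List Y} (hl : ∀ x ∈ l, x ∈ U)
    (hm : ∀ x ∈ m, x ∈ U) : tp τ l m = tp τ' l m := by
  cases l with
  | nil => rfl
  | cons x l =>
    cases m with
    | nil => rfl
    | cons y m => exact h x (hl x List.mem_cons_self) y (hm y List.mem_cons_self)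

theorem tp_cons (τ : Y → Y → Module.End R E) (x : Y) (l m : List Y) :
    tp τ (x :: l) m = tp τ [x] m := by
  cases m <;> rfl

theorem d0_map {E' : Type} [AddCommGroup E'] (π : E →+ E') (l : List Y) (φ : List Y → E) :
    d0 l (fun m => π (φ m)) = π (d0 l φ) := by
  induction l generalizing φ with
  | nil => exact (map_zero π).symm
  | cons x l ih =>
    show π (φ l) - d0 l (fun m => π (φ (x :: m))) = π (φ l - d0 l fun m => φ (x :: m))
    rw [ih, map_sub]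

theorem d0_congr {U : Set Y} (l : List Y) (hl : ∀ x ∈ l, x ∈ U) {φ ψ : List Y → E}
    (h : ∀ m : List Y, m.length + 1 = l.length → (∀ x ∈ m, x ∈ U) → φ m = ψ m) :
    d0 l φ = d0 l ψ := by
  induction l generalizing φ ψ with
  | nil => rfl
  | cons x l ih =>
    have hl' : ∀ y ∈ l, y ∈ U := fun y hy => hl y (List.mem_cons_of_mem _ hy)
    show φ l - d0 l (fun m => φ (x :: m)) = ψ l - d0 l (fun m => ψ (x :: m))
    rw [h l rfl hl', ih hl' fun m hm hU => h (x :: m) (congrArg (· + 1) hm) fun y hy => ?_]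
    rcases List.mem_cons.1 hy with rfl | hy
    · exact hl _ List.mem_cons_self
    · exact hU y hy

/-- Transport of all values to the point `x`. -/
def G (τ : Y → Y → Module.End R E) (x : Y) (φ : List Y → E) (m : List Y) : E :=
  tp τ [x] m (φ m)

theorem d0_G {τ : Y → Y → Module.End R E} {U : Set Y}
    (c : ∀ x ∈ U, τ x x = 1 ∧ ∀ y ∈ U, ∀ z ∈ U, τ x y * τ y z = τ x z) {x : Y} (hx : x ∈ U)
    {m : List Y} (h2 : 2 ≤ m.length) (hm : ∀ y ∈ m, y ∈ U) (φ : List Y → E) :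
    d0 m (G τ x φ) = tp τ [x] m (dT τ φ m) := by
  match m, h2 with
  | z :: w :: m, _ =>
    have hz : z ∈ U := hm z List.mem_cons_self
    have hw : w ∈ U := hm w (List.mem_cons_of_mem _ List.mem_cons_self)
    show τ x w (φ (w :: m)) - d0 (w :: m) (fun k => (τ x z).toAddMonoidHom (φ (z :: k))) =
      τ x z (τ z w (φ (w :: m)) - d0 (w :: m) fun k => φ (z :: k))
    rw [d0_map, map_sub, ← (c x hx).2 z hz w hw]
    rfl

end

/-- The untwisted Leibniz rule. -/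
theorem d0_cup (β : E₁ →+ E₂ →+ E₃) (p : ℕ) (l : List Y) (hl : p + 2 ≤ l.length)
    (A : List Y → E₁) (B : List Y → E₂) :
    d0 l (fun m => β (A (m.take (p + 1))) (B (m.drop p))) =
      β (d0 (l.take (p + 2)) A) (B (l.drop (p + 1))) +
        ((-1 : ℤ) ^ p) • β (A (l.take (p + 1))) (d0 (l.drop p) B) := by
  induction p generalizing l A with
  | zero =>
    match l, hl with
    | x :: y :: l, _ =>
      show β (A [y]) (B (y :: l)) - d0 (y :: l) (fun m => β (A [x]) (B (x :: m))) =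
        β (A [y] - (A [x] - 0)) (B (y :: l)) +
          ((-1 : ℤ) ^ 0) • β (A [x]) (B (y :: l) - d0 (y :: l) fun m => B (x :: m))
      rw [d0_map (β (A [x])), pow_zero, one_smul, sub_zero, map_sub, map_sub,
        AddMonoidHom.sub_apply]
      abel
  | succ p ih =>
    match l, hl with
    | x :: l, hl =>
      have h := ih l (by simp only [List.length_cons] at hl; omega) fun m => A (x :: m)
      show β (A (l.take (p + 2))) (B (l.drop (p + 1))) -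
          d0 l (fun m => β (A (x :: m.take (p + 1))) (B (m.drop p))) =
        β (A (l.take (p + 2)) - d0 (l.take (p + 2)) fun m => A (x :: m)) (B (l.drop (p + 1))) +
          ((-1 : ℤ) ^ (p + 1)) • β (A (x :: l.take (p + 1))) (d0 (l.drop p) B)
      rw [h, map_sub, AddMonoidHom.sub_apply, pow_succ, mul_neg_one, neg_smul]
      abel

theorem leib (β : E₁ →+ E₂ →+ E₃) {τ₁ : Y → Y → Module.End R₁ E₁}
    {τ₂ : Y → Y → Module.End R₂ E₂} {τ₃ : Y → Y → Module.End R₃ E₃}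
    (hβ : ∀ x y e₁ e₂, β (τ₁ x y e₁) (τ₂ x y e₂) = τ₃ x y (β e₁ e₂)) {U₁ U₂ U₃ : Set Y}
    (c₁ : ∀ x ∈ U₁, τ₁ x x = 1 ∧ ∀ y ∈ U₁, ∀ z ∈ U₁, τ₁ x y * τ₁ y z = τ₁ x z)
    (c₂ : ∀ x ∈ U₂, τ₂ x x = 1 ∧ ∀ y ∈ U₂, ∀ z ∈ U₂, τ₂ x y * τ₂ y z = τ₂ x z)
    (c₃ : ∀ x ∈ U₃, τ₃ x x = 1 ∧ ∀ y ∈ U₃, ∀ z ∈ U₃, τ₃ x y * τ₃ y z = τ₃ x z)
    {p : ℕ} {l : List Y} (hl : p + 2 ≤ l.length) (m₁ : ∀ y ∈ l, y ∈ U₁) (m₂ : ∀ y ∈ l, y ∈ U₂)
    (m₃ : ∀ y ∈ l, y ∈ U₃) (a : List Y → E₁) (b : List Y → E₂) :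
    dT τ₃ (cup β τ₂ p a b) l =
      cup β τ₂ (p + 1) (dT τ₁ a) b l + ((-1 : ℤ) ^ p) • cup β τ₂ p a (dT τ₂ b) l := by
  obtain ⟨x, l', rfl⟩ := List.exists_cons_of_length_pos (l := l) (by omega)
  have x₁ := m₁ x List.mem_cons_self
  have x₂ := m₂ x List.mem_cons_self
  have x₃ := m₃ x List.mem_cons_self
  have e0 : d0 (x :: l') (G τ₃ x (cup β τ₂ p a b)) = dT τ₃ (cup β τ₂ p a b) (x :: l') := by
    rw [d0_G c₃ x₃ (by omega) m₃]
    show τ₃ x x _ = _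
    rw [(c₃ x x₃).1, Module.End.one_apply]
  have e1 : d0 (x :: l') (G τ₃ x (cup β τ₂ p a b)) = d0 (x :: l')
      fun m => β (G τ₁ x a (m.take (p + 1))) (G τ₂ x b (m.drop p)) := by
    refine d0_congr _ m₂ fun m hm hU => ?_
    obtain ⟨z, m', rfl⟩ := List.exists_cons_of_length_pos (l := m) (by omega)
    obtain ⟨w, k, hw⟩ := List.exists_cons_of_length_pos (l := (z :: m').drop p)
      (by rw [List.length_drop]; omega)
    have hw₂ : w ∈ U₂ := hU w (List.mem_of_mem_drop (hw ▸ List.mem_cons_self))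
    unfold G cup
    rw [hw]
    show τ₃ x z (β (a (z :: m'.take p)) (τ₂ z w (b (w :: k)))) =
      β (τ₁ x z (a (z :: m'.take p))) (τ₂ x w (b (w :: k)))
    rw [← hβ, ← (c₂ x x₂).2 z (hU z List.mem_cons_self) w hw₂]
    rfl
  rw [← e0, e1, d0_cup β p _ hl,
    d0_G c₁ x₁ (by rw [List.length_take]; omega) fun y hy => m₁ y (List.mem_of_mem_take hy),
    d0_G c₂ x₂ (by rw [List.length_drop]; omega) fun y hy => m₂ y (List.mem_of_mem_drop hy)]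
  unfold cup
  rw [tp_cons τ₂ x l', tp_cons τ₂ x l']
  show β (τ₁ x x _) _ + _ • β (τ₁ x x _) _ = _
  rw [(c₁ x x₁).1]
  rfl

end RCup

theorem cup_add_left (β : E₁ →+ E₂ →+ E₃) (τ : Y → Y → Module.End R₂ E₂) (p : ℕ)
    (a a' : List Y → E₁) (b : List Y → E₂) :
    cup β τ p (a + a') b = cup β τ p a b + cup β τ p a' b := by
  funext l
  simp only [cup, Pi.add_apply, map_add, AddMonoidHom.add_apply]

theorem cup_sub_left (β : E₁ →+ E₂ →+ E₃) (τ : Y → Y → Module.End R₂ E₂) (p : ℕ)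
    (a a' : List Y → E₁) (b : List Y → E₂) :
    cup β τ p (a - a') b = cup β τ p a b - cup β τ p a' b := by
  funext l
  simp only [cup, Pi.sub_apply, map_sub, AddMonoidHom.sub_apply]

theorem cup_add_right (β : E₁ →+ E₂ →+ E₃) (τ : Y → Y → Module.End R₂ E₂) (p : ℕ)
    (a : List Y → E₁) (b b' : List Y → E₂) :
    cup β τ p a (b + b') = cup β τ p a b + cup β τ p a b' := by
  funext l
  simp only [cup, Pi.add_apply, map_add]

theorem cup_sub_right (β : E₁ →+ E₂ →+ E₃) (τ : Y → Y → Module.End R₂ E₂) (p : ℕ)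
    (a : List Y → E₁) (b b' : List Y → E₂) :
    cup β τ p a (b - b') = cup β τ p a b - cup β τ p a b' := by
  funext l
  simp only [cup, Pi.sub_apply, map_sub]

theorem cup_zero_two (β : E₁ →+ E₂ →+ E₃) (τ : Y → Y → Module.End R₂ E₂)
    (a : List Y → E₁) (b : List Y → E₂) (x : Y) (l : List Y) :
    cup β τ 0 a b (x :: l) = β (a [x]) (τ x x (b (x :: l))) := by
  rfl

theorem cup_one_cons (β : E₁ →+ E₂ →+ E₃) (τ : Y → Y → Module.End R₂ E₂)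
    (a : List Y → E₁) (b : List Y → E₂) (x y : Y) (l : List Y) :
    cup β τ 1 a b (x :: y :: l) = β (a [x, y]) (τ x y (b (y :: l))) := by
  rfl

theorem cup_two_cons (β : E₁ →+ E₂ →+ E₃) (τ : Y → Y → Module.End R₂ E₂)
    (a : List Y → E₁) (b : List Y → E₂) (x y z : Y) (l : List Y) :
    cup β τ 2 a b (x :: y :: z :: l) = β (a [x, y, z]) (τ x z (b (z :: l))) := by
  rfl

theorem pull_cup (j : Y' → Y) (β : E₁ →+ E₂ →+ E₃) (τ : Y → Y → Module.End R₂ E₂) (p : ℕ)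
    (a : List Y → E₁) (b : List Y → E₂) :
    pull R₃ E₃ j (cup β τ p a b) = cup β (pb j τ) p (pull R₁ E₁ j a) (pull R₂ E₂ j b) := by
  funext l
  show β (a ((l.map j).take (p + 1))) (tp τ (l.map j) ((l.map j).drop p) (b ((l.map j).drop p))) =
    β (a ((l.take (p + 1)).map j)) (tp (pb j τ) l (l.drop p) (b ((l.drop p).map j)))
  rw [← List.map_take, ← List.map_drop, RCup.tp_map]

variable [TopologicalSpace Y]

theorem cup_mem_N_left (β : E₁ →+ E₂ →+ E₃) (τ : Y → Y → Module.End R₂ E₂) {p n : ℕ}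
    (hn : p + 1 ≤ n) {S : Set Y} {a : List Y → E₁} (ha : a ∈ N R₁ E₁ (p + 1) S)
    (b : List Y → E₂) : cup β τ p a b ∈ N R₃ E₃ n S := by
  intro x hx
  obtain ⟨U, hU, h⟩ := ha x hx
  refine ⟨U, hU, fun l hl hm => ?_⟩
  have := h (l.take (p + 1)) (by rw [List.length_take]; omega)
    fun y hy => hm y (List.mem_of_mem_take hy)
  simp only [cup, this, map_zero, AddMonoidHom.zero_apply]

theorem cup_mem_N_right (β : E₁ →+ E₂ →+ E₃) (τ : Y → Y → Module.End R₂ E₂) (p : ℕ) {q : ℕ}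
    {S : Set Y} (a : List Y → E₁) {b : List Y → E₂} (hb : b ∈ N R₂ E₂ q S) :
    cup β τ p a b ∈ N R₃ E₃ (p + q) S := by
  intro x hx
  obtain ⟨U, hU, h⟩ := hb x hx
  refine ⟨U, hU, fun l hl hm => ?_⟩
  have := h (l.drop p) (by rw [List.length_drop]; omega)
    fun y hy => hm y (List.mem_of_mem_drop hy)
  simp only [cup, this, map_zero]

/-- If the values of `a` lie locally in `ker π₁`, those of `b` in `ker π₂`, and `β` kills such
pairs (after transport), the cup product vanishes locally. -/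
theorem cup_mem_N_ker {E₁' E₂' : Type} [AddCommGroup E₁'] [Module R₁ E₁'] [AddCommGroup E₂']
    [Module R₂ E₂'] (π₁ : E₁ →ₗ[R₁] E₁') (π₂ : E₂ →ₗ[R₂] E₂') (β : E₁ →+ E₂ →+ E₃)
    (τ : Y → Y → Module.End R₂ E₂)
    (h : ∀ x y e₁ e₂, π₁ e₁ = 0 → π₂ e₂ = 0 → β e₁ (τ x y e₂) = 0) {p q : ℕ} (hq : 1 ≤ q)
    {S : Set Y} {a : List Y → E₁} {b : List Y → E₂} (ha : cm π₁ a ∈ N R₁ E₁' (p + 1) S)
    (hb : cm π₂ b ∈ N R₂ E₂' q S) : cup β τ p a b ∈ N R₃ E₃ (p + q) S := by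
  intro x hx
  obtain ⟨U, hU, h1⟩ := ha x hx
  obtain ⟨V, hV, h2⟩ := hb x hx
  refine ⟨U ∩ V, Filter.inter_mem hU hV, fun l hl hm => ?_⟩
  have e1 : π₁ (a (l.take (p + 1))) = 0 := h1 (l.take (p + 1)) (by rw [List.length_take]; omega)
    fun y hy => (hm y (List.mem_of_mem_take hy)).1
  have e2 : π₂ (b (l.drop p)) = 0 := h2 (l.drop p) (by rw [List.length_drop]; omega)
    fun y hy => (hm y (List.mem_of_mem_drop hy)).2
  obtain ⟨y, l', rfl⟩ := List.exists_cons_of_length_pos (l := l) (by omega)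
  obtain ⟨z, m, hz⟩ := List.exists_cons_of_length_pos (l := (y :: l').drop p)
    (by rw [List.length_drop]; omega)
  unfold cup
  rw [hz] at e2 ⊢
  exact h y z _ _ e1 e2

theorem cup_congr (β : E₁ →+ E₂ →+ E₃) {τ τ' : Y → Y → Module.End R₂ E₂} {S : Set Y}
    (h : LocEq τ τ' S) (p n : ℕ) (a : List Y → E₁) (b : List Y → E₂) :
    cup β τ p a b - cup β τ' p a b ∈ N R₃ E₃ n S := by
  intro x hx
  obtain ⟨U, hU, h1⟩ := h x hx
  refine ⟨U, hU, fun l _ hm => ?_⟩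
  rw [Pi.sub_apply, sub_eq_zero]
  unfold cup
  rw [RCup.tp_congr h1 hm fun y hy => hm y (List.mem_of_mem_drop hy)]

/-- The Leibniz rule. -/
theorem cup_leibniz (β : E₁ →+ E₂ →+ E₃) {τ₁ : Y → Y → Module.End R₁ E₁}
    {τ₂ : Y → Y → Module.End R₂ E₂} {τ₃ : Y → Y → Module.End R₃ E₃}
    (hβ : ∀ x y e₁ e₂, β (τ₁ x y e₁) (τ₂ x y e₂) = τ₃ x y (β e₁ e₂)) {S : Set Y}
    (h₁ : IsCoc τ₁ S) (h₂ : IsCoc τ₂ S) (h₃ : IsCoc τ₃ S) {p n : ℕ} (hn : p + 2 ≤ n)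
    (a : List Y → E₁) (b : List Y → E₂) :
    dT τ₃ (cup β τ₂ p a b) - cup β τ₂ (p + 1) (dT τ₁ a) b -
      ((-1 : ℤ) ^ p) • cup β τ₂ p a (dT τ₂ b) ∈ N R₃ E₃ n S := by
  intro x hx
  obtain ⟨U₁, hU₁, c₁⟩ := h₁ x hx
  obtain ⟨U₂, hU₂, c₂⟩ := h₂ x hx
  obtain ⟨U₃, hU₃, c₃⟩ := h₃ x hx
  refine ⟨U₁ ∩ U₂ ∩ U₃, Filter.inter_mem (Filter.inter_mem hU₁ hU₂) hU₃, fun l hl hm => ?_⟩
  rw [Pi.sub_apply, Pi.sub_apply, Pi.smul_apply, sub_sub, sub_eq_zero]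
  exact RCup.leib β hβ c₁ c₂ c₃ (by omega) (fun y hy => (hm y hy).1.1) (fun y hy => (hm y hy).1.2)
    (fun y hy => (hm y hy).2) a b

/-- The cup-one product of a one-cochain and a two-cochain. -/
def cup1 (β : E₁ →+ E₂ →+ E₃) (a : List Y → E₁) (c : List Y → E₂) : List Y → E₃
  | [x, y, z] => β (a [x, z]) (c [x, y, z])
  | _ => 0

/-- The error term in the coboundary of the cup-one product. -/
def cup1e (β : E₁ →+ E₂ →+ E₃) (τ₂ : Y → Y → Module.End R₂ E₂) (da : List Y → E₁)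
    (c : List Y → E₂) : List Y → E₃
  | [x, y, z, w] => β (da [x, y, w]) (τ₂ x y (c [y, z, w])) - β (da [x, z, w]) (c [x, y, z])
  | _ => 0

theorem cup_one (β : E₁ →+ E₂ →+ E₃) {τ₁ : Y → Y → Module.End R₁ E₁}
    {τ₂ : Y → Y → Module.End R₂ E₂} {τ₃ : Y → Y → Module.End R₃ E₃}
    (hβ : ∀ x y e₁ e₂, β (τ₁ x y e₁) (τ₂ x y e₂) = τ₃ x y (β e₁ e₂)) {S : Set Y}
    (h₁ : IsCoc τ₁ S) (h₂ : IsCoc τ₂ S) (h₃ : IsCoc τ₃ S) (a : List Y → E₁) {c : List Y → E₂}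
    (hc : dT τ₂ c ∈ N R₂ E₂ 4 S) :
    dT τ₃ (cup1 β a c) + cup β τ₂ 1 a c - cup β.flip τ₁ 2 c a - cup1e β τ₂ (dT τ₁ a) c ∈
      N R₃ E₃ 4 S := by
  intro p hp
  obtain ⟨U, hU, h⟩ := hc p hp
  refine ⟨U, hU, fun l hl hm => ?_⟩
  have h0 := h l hl hm
  match l, hl with
  | [x, y, z, w], _ =>
    rw [dT_four] at h0
    have h1 := congrArg (β (a [x, w])) h0
    simp only [Pi.sub_apply, Pi.add_apply, dT_four, dT_three, cup1, cup1e, cup_one_cons,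
      cup_two_cons, AddMonoidHom.flip_apply, ← hβ, map_add, map_sub, map_zero,
      AddMonoidHom.add_apply, AddMonoidHom.sub_apply] at h1 ⊢
    rw [← h1]
    abel

theorem cup1_mem_N_left (β : E₁ →+ E₂ →+ E₃) {S : Set Y} {a : List Y → E₁}
    (ha : a ∈ N R₁ E₁ 2 S) (c : List Y → E₂) (n : ℕ) : cup1 β a c ∈ N R₃ E₃ n S := by
  intro p hp
  obtain ⟨U, hU, h⟩ := ha p hp
  refine ⟨U, hU, fun l _ hm => ?_⟩
  unfold cup1
  split
  · rename_i x y z _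
    rw [h [x, z] rfl fun v hv => hm v (by
      simp only [List.mem_cons, List.not_mem_nil, or_false] at hv ⊢
      exact hv.imp id Or.inr), map_zero, AddMonoidHom.zero_apply]
  · rfl

theorem cup1_mem_N_right (β : E₁ →+ E₂ →+ E₃) {S : Set Y} (a : List Y → E₁) {c : List Y → E₂}
    (hc : c ∈ N R₂ E₂ 3 S) (n : ℕ) : cup1 β a c ∈ N R₃ E₃ n S := by
  intro p hp
  obtain ⟨U, hU, h⟩ := hc p hp
  refine ⟨U, hU, fun l _ hm => ?_⟩
  unfold cup1
  split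
  · rename_i x y z _
    rw [h [x, y, z] rfl hm, map_zero]
  · rfl

/-- The correction term for moving a jump across a one-cochain. -/
noncomputable def swp1 (β : E₁ →+ E₂ →+ E₃) (τ₂ : Y → Y → Module.End R₂ E₂) (T : Set Y) (y : List Y → E₁)
    (c : List Y → E₂) : List Y → E₃ :=
  cup β τ₂ 1 y (cut R₂ E₂ T c) - cut ℤ E₃ T (cup β τ₂ 1 y c)

/-- The second error term: `(χ x₂ - χ x₀) β (dy (x₀ x₁ x₂)) (τ c (x₂ …))`. -/
noncomputable def swp2 (β : E₁ →+ E₂ →+ E₃) (τ₂ : Y → Y → Module.End R₂ E₂) (T : Set Y) (dy : List Y → E₁)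
    (c : List Y → E₂) : List Y → E₃ :=
  cup β τ₂ 2 dy (cut R₂ E₂ T c) - cut ℤ E₃ T (cup β τ₂ 2 dy c)

/-- `y ∪ dχ ∪ c + dχ ∪ y ∪ c = - d (swp1) + swp2` where `c` is closed (use `dT_cut` and
`cup_leibniz` twice). -/
theorem cup_swap (β : E₁ →+ E₂ →+ E₃) {τ₁ : Y → Y → Module.End R₁ E₁}
    {τ₂ : Y → Y → Module.End R₂ E₂} {τ₃ : Y → Y → Module.End R₃ E₃}
    (hβ : ∀ x y e₁ e₂, β (τ₁ x y e₁) (τ₂ x y e₂) = τ₃ x y (β e₁ e₂)) {S : Set Y}
    (h₁ : IsCoc τ₁ S) (h₂ : IsCoc τ₂ S) (h₃ : IsCoc τ₃ S) (T : Set Y) (y : List Y → E₁)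
    {c : List Y → E₂} {q : ℕ} (hq : 1 ≤ q) (hc : dT τ₂ c ∈ N R₂ E₂ (q + 1) S) :
    cup β τ₂ 1 y (lc τ₂ (jmp T) c) + lc τ₃ (jmp T) (cup β τ₂ 1 y c) +
      dT τ₃ (swp1 β τ₂ T y c) - swp2 β τ₂ T (dT τ₁ y) c ∈ N R₃ E₃ (q + 2) S := by
  have hq' : 1 + (q + 1) = q + 2 := by omega
  have a1 := cup_leibniz β hβ h₁ h₂ h₃ (p := 1) (n := q + 2) (by omega) y (cut R₂ E₂ T c)
  have a2 := cut_mem_N T (cup_leibniz β hβ h₁ h₂ h₃ (p := 1) (n := q + 2) (by omega) y c)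
  have a3 := cup_mem_N_right (R₃ := R₃) β τ₂ 1 y (cut_mem_N T hc)
  have a4 := cut_mem_N T (cup_mem_N_right (R₃ := R₃) β τ₂ 1 y hc)
  rw [hq'] at a3 a4
  rw [dT_cut, cup_add_right, pow_one, neg_one_zsmul] at a1
  rw [pow_one, neg_one_zsmul, map_sub, map_sub, map_neg] at a2
  refine Eq.mpr (congrArg (· ∈ N R₃ E₃ (q + 2) S) ?_) (add_mem (sub_mem (sub_mem a1 a2) a3) a4)
  show _ + _ + dT τ₃ (_ - cut R₃ E₃ T _) - (_ - cut R₃ E₃ T _) = _
  rw [map_sub, dT_cut]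
  abel

theorem RCup.swp_mem (β : E₁ →+ E₂ →+ E₃) (τ₂ : Y → Y → Module.End R₂ E₂) (T : Set Y) (p : ℕ)
    (a : List Y → E₁) (c : List Y → E₂) {n : ℕ} (hn : p + 1 ≤ n) :
    cup β τ₂ p a (cut R₂ E₂ T c) - cut R₃ E₃ T (cup β τ₂ p a c) ∈ N R₃ E₃ n (frontier T)ᶜ := by
  obtain ⟨q, rfl⟩ := Nat.exists_eq_add_of_le (Nat.le_of_succ_le hn)
  rw [compl_frontier_eq_union_interior, interior_compl, mem_N_union]
  constructor
  · have h := sub_mem (sub_cut_mem_N (R := R₃) T (n := p + q) (by omega) (cup β τ₂ p a c))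
      (cup_mem_N_right (R₃ := R₃) β τ₂ p a (sub_cut_mem_N (R := R₂) T (n := q) (by omega) c))
    rw [cup_sub_right] at h
    have e : cup β τ₂ p a (cut R₂ E₂ T c) - cut R₃ E₃ T (cup β τ₂ p a c) =
        cup β τ₂ p a c - cut R₃ E₃ T (cup β τ₂ p a c) -
          (cup β τ₂ p a c - cup β τ₂ p a (cut R₂ E₂ T c)) := by abel
    rw [e]
    exact h
  · exact sub_mem (cup_mem_N_right β τ₂ p a (cut_mem_N_compl T q c)) (cut_mem_N_compl T _ _)

theorem swp1_mem_N (β : E₁ →+ E₂ →+ E₃) (τ₂ : Y → Y → Module.End R₂ E₂) (T : Set Y)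
    (y : List Y → E₁) (c : List Y → E₂) {n : ℕ} (hn : 2 ≤ n) :
    swp1 β τ₂ T y c ∈ N R₃ E₃ n (frontier T)ᶜ := by
  exact RCup.swp_mem β τ₂ T 1 y c hn

theorem swp2_mem_N (β : E₁ →+ E₂ →+ E₃) (τ₂ : Y → Y → Module.End R₂ E₂) (T : Set Y)
    (dy : List Y → E₁) (c : List Y → E₂) {n : ℕ} (hn : 3 ≤ n) :
    swp2 β τ₂ T dy c ∈ N R₃ E₃ n (frontier T)ᶜ := by
  exact RCup.swp_mem β τ₂ T 2 dy c hn

end Pool.Agent.HH
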