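import Pool.Agent.P.MP_c8dc46_gt.H23

/-!
The generator of the first integral cohomology of a concordance exterior and the linking integral.
-/

open Set Topology

namespace Pool.Agent.HH

/-- The linking integral of a scalar cochain. -/
noncomputable def n4y (F : Type) [Field F] (t : ℝ) (y : List Y4 → F) (ϑ : Y4 → ℂ) : F :=
  Jt F t (cup (mulA F) (triv F F Y4) 2 (dT (triv F F Y4) y) (c1 fun p q => (th ϑ p q : F)))

/-- The linking integral of an integral cochain. -/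
noncomputable def n4 (F : Type) [Field F] (t : ℝ) (h : Y4 → Y4 → ℤ) (ϑ : Y4 → ℂ) : F :=
  n4y F t (c1 fun p q => (h p q : F)) ϑ

namespace RGen

variable {Y Y' : Type} [TopologicalSpace Y] {F : Type} [Field F]

theorem leib (S : Set Y) {p n : ℕ} (hn : p + 2 ≤ n) (a b : List Y → F) :
    dT (triv F F Y) (cup (mulA F) (triv F F Y) p a b) -
      cup (mulA F) (triv F F Y) (p + 1) (dT (triv F F Y) a) b -
      ((-1 : ℤ) ^ p) • cup (mulA F) (triv F F Y) p a (dT (triv F F Y) b) ∈ N F F n S :=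
  cup_leibniz (mulA F) (τ₁ := triv F F Y) (τ₂ := triv F F Y) (τ₃ := triv F F Y)
    (fun _ _ _ _ => rfl) (isCoc_triv S) (isCoc_triv S) (isCoc_triv S) hn a b

theorem coc_map {M M' : Type} [AddCommGroup M] [AddCommGroup M'] (ψ : M →+ M') {h : Y → Y → M}
    {S : Set Y} (hh : IsCocA h S) : IsCocA (fun p q => ψ (h p q)) S := by
  intro p hp
  obtain ⟨U, hU, H⟩ := hh p hp
  exact ⟨U, hU, fun x hx y hy z hz => by rw [← map_add, H x hx y hy z hz]⟩

theorem d_cast {h : Y → Y → ℤ} {S : Set Y} (hh : IsCocA h S) :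
    dT (triv F F Y) (c1 fun p q => (h p q : F)) ∈ N F F 3 S :=
  isCocA_iff.1 (coc_map (Int.castAddHom F) hh)

theorem d_th {ϑ : Y → ℂ} (hϑ : Continuous ϑ) {B : Set Y} (h0 : ∀ p ∈ B, ϑ p ≠ 0) :
    dT (triv F F Y) (c1 fun p q => (th ϑ p q : F)) ∈ N F F 3 B :=
  d_cast (isCocA_th (fun _ _ => hϑ.continuousAt) h0)

theorem mem_univ_of {n : ℕ} {B : Set Y} {φ : List Y → F} (h₁ : φ ∈ N F F n Bᶜ)
    (h₂ : φ ∈ N F F n B) : φ ∈ N F F n univ := by
  rw [← compl_union_self B]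
  exact mem_N_union.2 ⟨h₁, h₂⟩

theorem cup_univ {p q : ℕ} (hq : 1 ≤ q) {B : Set Y} {a b : List Y → F}
    (ha : a ∈ N F F (p + 1) Bᶜ) (hb : b ∈ N F F q B) :
    cup (mulA F) (triv F F Y) p a b ∈ N F F (p + q) univ :=
  mem_univ_of (cup_mem_N_left _ _ (by omega) ha b) (cup_mem_N_right _ _ p a hb)

theorem closed_int {B : Set Y} {a b : List Y → F} (ha : dT (triv F F Y) a ∈ N F F 3 Bᶜ)
    (hb : dT (triv F F Y) b ∈ N F F 3 B) :
    dT (triv F F Y) (cup (mulA F) (triv F F Y) 2 (dT (triv F F Y) a) b) ∈ N F F 5 univ := by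
  have h1 := leib (univ : Set Y) (p := 2) (n := 5) (by norm_num) (dT (triv F F Y) a) b
  have h2 : cup (mulA F) (triv F F Y) (2 + 1) (dT (triv F F Y) (dT (triv F F Y) a)) b ∈
      N F F 5 (univ : Set Y) := by
    refine cup_mem_N_left (R₁ := F) _ _ (by norm_num) ?_ b
    rw [dT_triv_dT]
    exact Submodule.zero_mem _
  have h3 : cup (mulA F) (triv F F Y) 2 (dT (triv F F Y) a) (dT (triv F F Y) b) ∈
      N F F 5 (univ : Set Y) := cup_univ (p := 2) (q := 3) (by norm_num) ha hb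
  have h4 := Submodule.add_mem _ (Submodule.add_mem _ h1 h2) h3
  convert h4 using 1
  rw [show ((-1 : ℤ) ^ 2) = 1 by norm_num, one_smul]
  abel

omit [TopologicalSpace Y] in
theorem cup_smul_left (p : ℕ) (c : F) (a b : List Y → F) :
    cup (mulA F) (triv F F Y) p (c • a) b = c • cup (mulA F) (triv F F Y) p a b := by
  funext l
  simp [cup, mulA, mul_assoc]

omit [TopologicalSpace Y] in
theorem pull_c1 (j : Y' → Y) (h : Y → Y → F) : pull F F j (c1 h) = c1 (pb j h) := by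
  funext l
  match l with
  | [] => rfl
  | [_] => rfl
  | [_, _] => rfl
  | _ :: _ :: _ :: _ => rfl

omit [TopologicalSpace Y] in
theorem c1_smul (h : Y → Y → ℤ) (c : F) :
    c1 (fun p q => h p q • c) = c • c1 fun p q => (h p q : F) := by
  funext l
  match l with
  | [] => simp [c1]
  | [_] => simp [c1]
  | [_, _] => simp [c1, mul_comm]
  | _ :: _ :: _ :: _ => simp [c1]

theorem locEq_of_mem {M : Type} [AddCommGroup M] {R : Type} [CommRing R] [Module R M]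
    {φ : List Y → M} {S : Set Y} (h : φ ∈ N R M 2 S) : LocEq (f2 φ) (fun _ _ => 0) S :=
  fun p hp => mem_N_two.1 h p hp

theorem J_univ (t : ℝ) {φ : List Y4 → F} (h : φ ∈ N F F 4 univ) : Jt F t φ = 0 :=
  Jt_loc t (N_mono (subset_univ _) h)

/-- Moving the coboundary from the first factor to the second. -/
theorem J_swap (t : ℝ) (a b : List Y4 → F) :
    Jt F t (cup (mulA F) (triv F F Y4) 2 (dT (triv F F Y4) a) b) =
      Jt F t (cup (mulA F) (triv F F Y4) 1 a (dT (triv F F Y4) b)) := by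
  have h := J_univ t (leib (univ : Set Y4) (p := 1) (n := 4) (by norm_num) a b)
  rw [map_sub, map_sub, Jt_stokes, pow_one, neg_one_smul, map_neg] at h
  linear_combination -h

theorem n4y_sub_smul (t : ℝ) (y y' : List Y4 → F) (c : F) (ϑ : Y4 → ℂ) :
    n4y F t (y - c • y') ϑ = n4y F t y ϑ - c * n4y F t y' ϑ := by
  simp only [n4y, map_sub, map_smul, cup_sub_left, cup_smul_left, smul_eq_mul]

theorem ex_ne (s : ℝ) : ex s ≠ 0 := by
  intro h
  have := norm_ex s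
  rw [h, norm_zero] at this
  exact zero_ne_one this

theorem compact_slice (t : ℝ) : IsCompact {p : Y4 | p.2 = t} := by
  have : {p : Y4 | p.2 = t} = univ ×ˢ {t} := by
    ext p
    simp
  rw [this]
  exact isCompact_univ.prod isCompact_singleton

theorem slice_compl (t : ℝ) : {p : Y4 | p.2 = t}ᶜ ⊆ (frontier {p : Y4 | t < p.2})ᶜ := by
  refine compl_subset_compl.2 fun p hp => ?_
  exact (frontier_lt_subset_eq continuous_const continuous_snd hp).symm

theorem mem_Cc_slice (t : ℝ) {n : ℕ} {φ : List Y4 → F}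
    (h : φ ∈ N F F n (frontier {p : Y4 | t < p.2})ᶜ) : φ ∈ Cc F F n univ :=
  ⟨_, compact_slice t, subset_univ _, N_mono (slice_compl t) h⟩

/-- The pairing of `y` with the coboundary of the jump times `θ`. -/
theorem pairing (t : ℝ) {B : Set Y4} {y θ : List Y4 → F} (hy : dT (triv F F Y4) y ∈ N F F 3 Bᶜ)
    (hθ : dT (triv F F Y4) θ ∈ N F F 3 B) :
    IY F (cup (mulA F) (triv F F Y4) 1 y
      (dT (triv F F Y4) (lc (triv F F Y4) (jmp {p : Y4 | t < p.2}) θ))) =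
      Jt F t (cup (mulA F) (triv F F Y4) 2 (dT (triv F F Y4) y) θ) := by
  obtain ⟨hI0, hI1, -⟩ := isI_IY F
  set T : Set Y4 := {p : Y4 | t < p.2} with hT
  have h1 : dT (triv F F Y4) (lc (triv F F Y4) (jmp T) θ) +
      lc (triv F F Y4) (jmp T) (dT (triv F F Y4) θ) ∈ N F F 4 univ :=
    dT_lc_mem_N (isCoc_triv _) (isCocA_jmp T _) 4 θ
  have h2 := hI0 _ (cup_mem_N_right (R₃ := F) (mulA F) (triv F F Y4) 1 y h1)
  rw [cup_add_right, map_add] at h2
  have hc : dT (triv F F Y4) (dT (triv F F Y4) θ) ∈ N F F (3 + 1) (univ : Set Y4) := by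
    rw [dT_triv_dT]
    exact Submodule.zero_mem _
  have h3 := hI0 _ (cup_swap (mulA F) (τ₁ := triv F F Y4) (τ₂ := triv F F Y4) (τ₃ := triv F F Y4)
    (fun _ _ _ _ => rfl) (isCoc_triv _) (isCoc_triv _) (isCoc_triv _) T y (by norm_num) hc)
  have h4 : IY F (dT (triv F F Y4) (swp1 (mulA F) (triv F F Y4) T y (dT (triv F F Y4) θ))) = 0 :=
    hI1 _ (mem_Cc_slice t (swp1_mem_N _ _ T y _ (by norm_num)))
  have h5 : IY F (swp2 (mulA F) (triv F F Y4) T (dT (triv F F Y4) y) (dT (triv F F Y4) θ)) = 0 := by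
    refine hI0 _ (Submodule.sub_mem _ ?_ ?_)
    · exact cup_univ (p := 2) (q := 3) (by norm_num) hy (cut_mem_N T hθ)
    · exact cut_mem_N (R := F) T (cup_univ (p := 2) (q := 3) (by norm_num) hy hθ)
  rw [map_sub, map_add, map_add, h4, h5] at h3
  rw [J_swap]
  change _ = IY F (lc (triv F F Y4) (jmp T) _)
  linear_combination h2 - h3

end RGen

open RGen

variable {C D : ℝ → S3} {A : ℝ → ℝ → Y4} {F : Type} [Field F]

theorem n4y_zero (hA : IsAnn C D A) {ϑ : Y4 → ℂ} (hϑ : Continuous ϑ)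
    (h0 : ∀ p ∈ rng A, ϑ p ≠ 0) (t : ℝ) {y x : List Y4 → F}
    (hx : dT (triv F F Y4) x ∈ N F F 3 univ) (h : Exa (triv F F Y4) 2 (rng A)ᶜ (y - x)) :
    n4y F t y ϑ = 0 := by
  have _ := hA
  obtain ⟨φ, hφ⟩ := h
  have e : dT (triv F F Y4) y =
      dT (triv F F Y4) (y - x - dT (triv F F Y4) φ) + dT (triv F F Y4) x := by
    rw [map_sub, map_sub, dT_triv_dT]
    abel
  rw [n4y, e, cup_add_left, map_add, J_swap,
    J_univ t (cup_univ (p := 1) (q := 3) (by norm_num) hφ (d_th hϑ h0)),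
    J_univ t (cup_mem_N_left (p := 2) _ _ (by norm_num) hx _), add_zero]

theorem exists_pair (hA : IsAnn C D A) (F : Type) [Field F] {ϑ : Y4 → ℂ} (hϑ : Continuous ϑ)
    {c : ℝ} (he : ∀ s t, ϑ (A s t) = ex (s + c)) (t : ℝ) :
    ∃ y, dT (triv F F Y4) y ∈ N F F 3 (rng A)ᶜ ∧ n4y F t y ϑ ≠ 0 := by
  by_contra hcon
  push Not at hcon
  have h0 : ∀ p ∈ rng A, ϑ p ≠ 0 := by
    rintro _ ⟨q, rfl⟩
    simp only [he]
    exact ex_ne _
  have hθ := d_th (F := F) hϑ h0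
  set θ : List Y4 → F := c1 fun p q => (th ϑ p q : F) with hθd
  set T : Set Y4 := {p : Y4 | t < p.2} with hT
  have hTo : IsOpen T := isOpen_lt continuous_const continuous_snd
  set ω := lc (triv F F Y4) (jmp T) θ with hω
  have hωN : ω ∈ N F F 3 (frontier T)ᶜ := lc_mem_N_of_locEq _ (jmp_locEq T) 3 θ
  have hm : dT (triv F F Y4) ω ∈ Cc F F 4 (rng A)ᶜ := by
    obtain ⟨V, hV, hAV, hN⟩ := exists_open_of_mem_N hθ
    refine ⟨{p : Y4 | p.2 = t} ∩ Vᶜ, (compact_slice t).inter_right hV.isClosed_compl,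
      fun p hp h => hp.2 (hAV h), ?_⟩
    rw [compl_inter, compl_compl]
    refine mem_N_union.2 ⟨N_mono (slice_compl t) (dT_mem_N _ hωN), ?_⟩
    have h1 : dT (triv F F Y4) ω + lc (triv F F Y4) (jmp T) (dT (triv F F Y4) θ) ∈ N F F 4 V :=
      dT_lc_mem_N (isCoc_triv _) (isCocA_jmp T _) 4 θ
    simpa using Submodule.sub_mem _ h1 (lc_mem_N (triv F F Y4) (jmp T) hN)
  obtain ⟨c', ⟨K, hK, hKX, hc'⟩, hmc⟩ := pd_cY_triv (n := 2) (j := 4) hA.isClosed.isOpen_compl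
    (by norm_num) (by norm_num) rfl hm (by rw [dT_triv_dT]; exact Submodule.zero_mem _)
    (fun y hy => (pairing t hy hθ).trans (hcon y hy))
  obtain ⟨β, ⟨K', hK', -, hβ⟩, hb⟩ := h2c_Y4 (c := ω - c')
    (Submodule.sub_mem _ (mem_Cc_slice t hωN) ⟨K, hK, subset_univ _, hc'⟩)
    (by rw [map_sub]; exact hmc)
  have hz : dT (triv F F Y4) (β - cut F F T θ) ∈ N F F 3 (rng A) := by
    have h1 : c' ∈ N F F 3 (rng A) := N_mono (subset_compl_comm.1 hKX) hc'
    have h2 := Submodule.neg_mem _ (Submodule.add_mem _ (Submodule.add_mem _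
      (N_mono (subset_univ _) hb) h1) (cut_mem_N T hθ))
    convert h2 using 1
    rw [map_sub, dT_cut]
    abel
  obtain ⟨R, hR⟩ := (hK'.image continuous_snd).isBounded.subset_closedBall 0
  have hR' : ∀ p ∈ K', |p.2| ≤ R := fun p hp => by
    simpa using hR (mem_image_of_mem _ hp)
  have hloop : ∀ (u : ℝ) (S : Set Y4), (∀ s, A s u ∈ S) → IsLoop (fun s => A s u) S :=
    fun u S hS => ⟨hA.cont.comp (continuous_id.prodMk continuous_const), fun s => hA.per s u, hS⟩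
  have hlow : IsHolA (f2 (β - cut F F T θ)) (fun s => A s (-(|R| + |t| + 1))) 0 := by
    refine isHolA_zero_of_locEq (S := K'ᶜ ∩ (closure T)ᶜ) (locEq_of_mem (R := F)
      (Submodule.sub_mem _ (N_mono inter_subset_left hβ)
        (N_mono inter_subset_right (cut_mem_N_compl T 2 θ)))) (hloop _ _ fun s => ?_)
    rw [hA.low s _ (by linarith [abs_nonneg R, abs_nonneg t])]
    refine ⟨fun h => ?_, fun h => ?_⟩
    · have := hR' _ h
      linarith [abs_nonneg t, le_abs_self R, neg_abs_le (-(|R| + |t| + 1))]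
    · have : t ≤ -(|R| + |t| + 1) := closure_lt_subset_le continuous_const continuous_snd h
      linarith [abs_nonneg R, neg_abs_le t]
  have hhigh : IsHolA (f2 (β - cut F F T θ)) (fun s => A s (|R| + |t| + 1)) 0 :=
    IsHolA.homotopy (W := ℝ) (Φ := fun q => A q.1 q.2) isOpen_univ convex_univ
      hA.cont.continuousOn (fun s w => hA.per s w) (fun q _ => mem_range_self q)
      (isCocA_f2.2 hz) (mem_univ _) (mem_univ _) hlow
  have hth : IsHolA (th ϑ) (fun s => A s (|R| + |t| + 1)) 1 :=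
    isHolA_th (α := fun s => s + c) (by fun_prop) (fun s => by push_cast; ring)
      fun s => ⟨1, one_pos, by simp [he]⟩
  have hsum := hhigh.add (hth.map (Int.castAddHom F))
  have hzero : IsHolA (f2 (β + (θ - cut F F T θ))) (fun s => A s (|R| + |t| + 1)) 0 := by
    refine isHolA_zero_of_locEq (S := K'ᶜ ∩ interior T) (locEq_of_mem (R := F)
      (Submodule.add_mem _ (N_mono inter_subset_left hβ)
        (N_mono inter_subset_right (sub_cut_mem_N T (by norm_num) θ)))) (hloop _ _ fun s => ?_)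
    rw [hA.high s _ (by linarith [abs_nonneg R, abs_nonneg t]), hTo.interior_eq]
    refine ⟨fun h => ?_, ?_⟩
    · have := hR' _ h
      linarith [abs_nonneg t, le_abs_self R, le_abs_self (|R| + |t| + 1)]
    · change t < |R| + |t| + 1
      linarith [abs_nonneg R, le_abs_self t]
  have e : f2 (β + (θ - cut F F T θ)) =
      fun x y => f2 (β - cut F F T θ) x y + Int.castAddHom F (th ϑ x y) := by
    funext x y
    change β [x, y] + (θ [x, y] - cut F F T θ [x, y]) =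
      β [x, y] - cut F F T θ [x, y] + θ [x, y]
    ring
  rw [e] at hzero
  simpa using hsum.unique hzero

theorem IsAnn.exists_gen (hA : IsAnn C D A) : ∃ h, IsGen (ℝ × ℝ) (rng A) h := by
  obtain ⟨ϑ, hϑ, he⟩ := hA.exists_angle 0
  have h0 : ∀ p ∈ rng A, ϑ p ≠ 0 := by
    rintro _ ⟨q, rfl⟩
    simp only [he]
    exact ex_ne _
  obtain ⟨y, hy, hne⟩ := exists_pair hA ℚ hϑ he 0
  have hfl : Flat (ℝ × ℝ) (rng A) := hA.flat
  obtain ⟨γ, hγ⟩ := hfl.exists_isMer (p := A 0 0) (mem_range_self (0, 0)) Filter.univ_mem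
  have hX : univ \ rng A = (rng A)ᶜ := (compl_eq_univ_sdiff _).symm
  have hγl : IsLoop γ (rng A)ᶜ := hX ▸ hγ.isLoop
  have ext : ∀ (M : Type) [AddCommGroup M] (x : Y4 → Y4 → M), IsCocA x (rng A)ᶜ →
      IsHolA x γ 0 → ∃ x', IsCocA x' univ ∧ LocEq x' x (rng A)ᶜ := by
    intro M _ x hx hh
    have := ext_mer hfl isOpen_univ (hX ▸ hA.isClosed.isOpen_compl)
      (by rw [inter_univ]; exact hA.isPreconnected) (hX ▸ hx) hγ hh
    rwa [hX] at this
  have hx : IsCocA (f2 y) (rng A)ᶜ := isCocA_f2.2 hy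
  obtain ⟨v, hv⟩ := exists_isHolA hx hγl
  have hv0 : v ≠ 0 := by
    rintro rfl
    obtain ⟨x', hx', hl⟩ := ext ℚ _ hx hv
    refine hne (n4y_zero hA hϑ h0 0 (isCocA_iff.1 hx') (Exa.of_mem_N (mem_N_two.2 fun p hp => ?_)))
    obtain ⟨U, hU, H⟩ := hl p hp
    exact ⟨U, hU, fun a ha b hb => sub_eq_zero.2 (H a ha b hb).symm⟩
  set x₁ : Y4 → Y4 → ℚ := fun p q => AddMonoidHom.mulLeft v⁻¹ (f2 y p q) with hx₁
  have hc₁ : IsCocA x₁ (rng A)ᶜ := coc_map _ hx
  have hh₁ : IsHolA x₁ γ 1 := by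
    have := hv.map (AddMonoidHom.mulLeft v⁻¹)
    rwa [AddMonoidHom.coe_mulLeft, inv_mul_cancel₀ hv0] at this
  set π := QuotientAddGroup.mk' (AddSubgroup.zmultiples (1 : ℚ)) with hπ
  have hπ1 : π 1 = 0 := (QuotientAddGroup.eq_zero_iff _).2 (AddSubgroup.mem_zmultiples _)
  obtain ⟨x₃, hx₃, hl⟩ := ext _ _ (coc_map π hc₁) (hπ1 ▸ hh₁.map π)
  obtain ⟨φ, hφ⟩ := acyc_two_Y4 (R := ℤ) _ (isCocA_iff.1 hx₃)
  choose g hg using fun p : Y4 => QuotientAddGroup.mk'_surjective _ (φ [p])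
  have hint : LocEq (fun a b => ((⌊x₁ a b - (g b - g a)⌋ : ℤ) : ℚ))
      (fun a b => x₁ a b - (g b - g a)) (rng A)ᶜ := by
    intro p hp
    obtain ⟨U, hU, H⟩ := hl p hp
    obtain ⟨U', hU', H'⟩ := mem_N_two.1 hφ p (mem_univ p)
    refine ⟨U ∩ U', Filter.inter_mem hU hU', fun a ha b hb => ?_⟩
    have h1 : π (x₁ a b - (g b - g a)) = 0 := by
      have h2 := H' a ha.2 b hb.2
      rw [Pi.sub_apply, dT_two] at h2
      have h3 : x₃ a b = π (x₁ a b) := H a ha.1 b hb.1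
      rw [map_sub, map_sub, hg, hg, ← h3]
      exact h2
    obtain ⟨k, hk⟩ := AddSubgroup.mem_zmultiples_iff.1 ((QuotientAddGroup.eq_zero_iff _).1 h1)
    simp only [← hk, zsmul_one, Int.floor_intCast]
  have hcoc : IsCocA (fun a b => ⌊x₁ a b - (g b - g a)⌋) (rng A)ᶜ := by
    intro p hp
    obtain ⟨U, hU, H⟩ := hint p hp
    obtain ⟨U', hU', H'⟩ := hc₁ p hp
    refine ⟨U ∩ U', Filter.inter_mem hU hU', fun a ha b hb c hc => ?_⟩
    apply Int.cast_injective (α := ℚ)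
    have e₁ := H a ha.1 b hb.1
    have e₂ := H b hb.1 c hc.1
    have e₃ := H a ha.1 c hc.1
    have e₄ := H' a ha.2 b hb.2 c hc.2
    beta_reduce at e₁ e₂ e₃ ⊢
    rw [Int.cast_add, e₁, e₂, e₃, ← e₄]
    ring
  obtain ⟨k, hk⟩ := exists_isHolA hcoc hγl
  have hk₁ : IsHolA x₁ γ (Int.castAddHom ℚ k) := by
    refine IsHolA.cohA ⟨fun p => -g p, fun p hp => ?_⟩ hγl (hk.map (Int.castAddHom ℚ))
    obtain ⟨U, hU, H⟩ := hint p hp
    refine ⟨U, hU, fun a ha b hb => ?_⟩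
    have e₁ := H a ha b hb
    beta_reduce at e₁ ⊢
    rw [Int.coe_castAddHom]
    beta_reduce
    rw [e₁]
    ring
  have hk1 : k = 1 := by simpa using hk₁.unique hh₁
  exact ⟨_, isGen_of_one hfl hA.isPreconnected hcoc hγ (Or.inl (hk1 ▸ hk))⟩

theorem IsKnot.exists_gen (hC : IsKnot C) : ∃ h, IsGen ℝ (range C) h := by
  obtain ⟨h, hh⟩ := hC.isAnn.exists_gen
  exact ⟨_, hh.slice_low hC.isAnn (t := -1) (by norm_num)⟩

theorem n4_ne (hA : IsAnn C D A) (F : Type) [Field F] {ϑ : Y4 → ℂ} (hϑ : Continuous ϑ)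
    {c : ℝ} (he : ∀ s t, ϑ (A s t) = ex (s + c)) (t : ℝ) {h : Y4 → Y4 → ℤ}
    (hh : IsGen (ℝ × ℝ) (rng A) h) : n4 F t h ϑ ≠ 0 := by
  intro hcon
  have h0 : ∀ p ∈ rng A, ϑ p ≠ 0 := by
    rintro _ ⟨q, rfl⟩
    simp only [he]
    exact ex_ne _
  obtain ⟨y, hy, hne⟩ := exists_pair hA F hϑ he t
  obtain ⟨κ, hκ⟩ := h1gen (M := F) acyc_two_Y4 hA.flat hA.isClosed hA.isPreconnected
    (range_nonempty _) hh (isCocA_f2.2 hy)
  have h1 := (Exa.of_mem_N (sub_c1_f2_mem_N (R := F) y _)).add (cohA_iff.1 hκ)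
  rw [sub_add_sub_cancel, c1_smul, ← sub_zero (y - _)] at h1
  have h2 := n4y_zero hA hϑ h0 t (by rw [map_zero]; exact Submodule.zero_mem _) h1
  rw [n4y_sub_smul, ← n4, hcon, mul_zero, sub_zero] at h2
  exact hne h2

theorem n4_indep (hA : IsAnn C D A) {ϑ : Y4 → ℂ} (hϑ : Continuous ϑ)
    (h0 : ∀ p ∈ rng A, ϑ p ≠ 0) {h : Y4 → Y4 → ℤ} (hh : IsCocA h (rng A)ᶜ) (t t' : ℝ) :
    n4 F t h ϑ = n4 F t' h ϑ := by
  have _ := hA
  have hc := closed_int (F := F) (d_cast hh) (d_th hϑ h0)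
  rcases le_total t t' with ht | ht
  · exact Jt_indep ht (N_mono (subset_univ _) hc)
  · exact (Jt_indep ht (N_mono (subset_univ _) hc)).symm

theorem n4_prod (t : ℝ) (hC : IsKnot C) {ϑ : S3 → ℂ} (hϑ : Continuous ϑ)
    (h0 : ∀ s, ϑ (C s) ≠ 0) {k : S3 → S3 → ℤ} (hk : IsCocA k (range C)ᶜ) :
    n4 F t (pb Prod.fst k) (ϑ ∘ Prod.fst) = n3 F k ϑ := by
  have _ := hC
  have hc := closed_int (F := F) (d_cast hk) (d_th hϑ (B := range C) (by
    rintro _ ⟨s, rfl⟩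
    exact h0 s))
  rw [n3, ← Jt_pull_fst t hc, pull_cup (R₁ := F), pull_dT, pull_c1, pull_c1, n4, n4y, ← th_pb]
  rfl

theorem n3_ne (hC : IsKnot C) (F : Type) [Field F] {ϑ : S3 → ℂ} (hϑ : Continuous ϑ) {c : ℝ}
    (he : ∀ s, ϑ (C s) = ex (s + c)) {k : S3 → S3 → ℤ} (hk : IsGen ℝ (range C) k) :
    n3 F k ϑ ≠ 0 := by
  rw [← n4_prod 0 hC hϑ (fun s => he s ▸ ex_ne _) hk.1]
  exact n4_ne hC.isAnn F (hϑ.comp continuous_fst) (fun s _ => he s) 0 (hk.prod hC)

theorem IsAnn.base (hA : IsAnn C D A) (hC : IsKnot C) (hD : IsKnot D) {h : Y4 → Y4 → ℤ}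
    (hh : IsGen (ℝ × ℝ) (rng A) h) : Base (rng A)ᶜ h :=
  ⟨hA.tame hC hD, hh.1, fun _ _ _ hx => h1gen acyc_two_Y4 hA.flat hA.isClosed hA.isPreconnected
    (range_nonempty _) hh hx, hA.h2, hA.h3⟩

theorem IsKnot.base (hC : IsKnot C) {k : S3 → S3 → ℤ} (hk : IsGen ℝ (range C) k) :
    Base ((range C)ᶜ ×ˢ univ) (pb Prod.fst k) := by
  rw [← compl_rng_prodA]
  exact hC.isAnn.base hC hC (hk.prod hC)

/-- `H² (S³ ∖ C; F) = 0` (pull back to the product and restrict to a slice). -/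
theorem IsKnot.h2 (hC : IsKnot C) (F : Type) [Field F] : Acyc (triv F F S3) 3 (range C)ᶜ := by
  intro a ha
  have h1 : dT (triv F F Y4) (pull F F Prod.fst a) ∈ N F F (3 + 1) (rng (prodA C))ᶜ := by
    have := pull_mem_N (j := (Prod.fst : Y4 → S3)) (S' := (rng (prodA C))ᶜ)
      (fun _ _ => continuous_fst.continuousAt)
      (fun p hp => by rw [compl_rng_prodA] at hp; exact hp.1) ha
    rwa [pull_dT] at this
  have h2 := (hC.isAnn.h2 F _ h1).pull (j := sl 0) (S' := (range C)ᶜ)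
    (fun _ _ => (continuous_id.prodMk continuous_const).continuousAt)
    (hC.isAnn.sl_maps_low le_rfl)
  rw [pull_pull] at h2
  have e : pull F F (Prod.fst ∘ sl 0) a = a := by
    funext l
    change a (l.map id) = a l
    rw [List.map_id]
  rwa [e] at h2

end Pool.Agent.HH
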