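import Pool.Agent.P.MP_c8dc46_gt.LKb
import Pool.Agent.P.MP_c8dc46_gt.Cup
import Pool.Agent.P.MP_c8dc46_gt.Gen

/-!
Twisted cohomology of the exterior of a long torus knot, by Mayer-Vietoris for
`U₁ = V 0 ∪ V 2`, `U₂ = V 1`, where `V i` are the three circle charts.
-/

open Set Topology

namespace Pool.Agent.HH

variable {r s : ℕ} {σ a ρ : ℝ} (k : LK r s σ a ρ)

namespace RKCo

/-- The image of a chart. -/
def V (i : Fin 3) : Set S3 := k.Φ i '' (univ ×ˢ k.O i)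

theorem isOpen_V (i : Fin 3) : IsOpen (V k i) := (k.cc i).isOpen_image

theorem V_sub (i : Fin 3) : V k i ⊆ k.Kᶜ := by
  rw [LK.K, ← k.cover]
  exact subset_iUnion (V k) i

theorem cover : V k 0 ∪ V k 2 ∪ V k 1 = k.Kᶜ := by
  refine Subset.antisymm (union_subset (union_subset (V_sub k 0) (V_sub k 2)) (V_sub k 1)) ?_
  rw [LK.K, ← k.cover]
  refine iUnion_subset fun i => ?_
  match i with
  | 0 => exact fun p hp => Or.inl (Or.inl hp)
  | 1 => exact fun p hp => Or.inr hp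
  | 2 => exact fun p hp => Or.inl (Or.inr hp)

theorem inter : (V k 0 ∪ V k 2) ∩ V k 1 = k.Φ 2 '' (univ ×ˢ k.O₁) := by
  rw [union_inter_distrib_right, ← k.i₁, show V k 0 ∩ V k 1 = ∅ from k.disj.inter_eq, empty_union,
    inter_comm]
  rfl

theorem cc₁ : IsCC (k.Φ 2) k.O₁ := (k.cc 2).mono k.h₁.1 k.h₁.2.1 k.h₁.2.2.2

theorem hol₂ {o : ℝ × ℝ} (ho : o ∈ k.O 2) :
    IsHolA (th k.ϑ) (fun t => k.Φ 2 (t, o)) ((r * s : ℕ) : ℤ) := by
  rw [Nat.cast_mul]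
  exact IsHolA.homotopy (k.cc 2).isOpen (k.cc 2).convex (k.cc 2).cont (k.cc 2).per
    (fun q hq => V_sub k 2 ⟨q, hq, rfl⟩) k.isCocA_th (k.omem 2) ho k.hol₂

variable {R E : Type} [CommRing R] [AddCommGroup E] [Module R E] {L : (Module.End R E)ˣ}

theorem coc (L : (Module.End R E)ˣ) {S : Set S3} (h : S ⊆ k.Kᶜ) : IsCoc (zt L (th k.ϑ)) S :=
  (k.isCocA_th.zt L).mono h

theorem acyc_V {i : Fin 3} {n : ℕ} (hn : IsHolA (th k.ϑ) (fun t => k.Φ i (t, k.o i)) n)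
    (h : Function.Bijective ((L ^ n).1 - 1 : Module.End R E)) :
    Acyc0 (zt L (th k.ϑ)) (V k i) ∧ Acyc (zt L (th k.ϑ)) 2 (V k i) := by
  have h1 := hn.zt L
  rw [zpow_natCast] at h1
  exact ⟨(k.cc i).acyc0 (coc k L (V_sub k i)) (k.omem i) h1 h.1,
    (k.cc i).acyc1 (coc k L (V_sub k i)) (k.omem i) h1 h.2⟩

theorem acyc_U (h : Function.Bijective ((L ^ r).1 - 1 : Module.End R E)) :
    Acyc0 (zt L (th k.ϑ)) (V k 0 ∪ V k 2) ∧ Acyc (zt L (th k.ϑ)) 2 (V k 0 ∪ V k 2) := by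
  obtain ⟨h0, h1⟩ := acyc_V k k.hol₀ h
  have hi : V k 0 ∩ V k 2 = k.Φ 2 '' (univ ×ˢ k.O₀) := k.i₀
  obtain ⟨o, ho⟩ := k.h₀.2.2.1
  have hne : k.Φ 2 (0, o) ∈ V k 0 ∩ V k 2 := hi ▸ ⟨(0, o), ⟨trivial, ho⟩, rfl⟩
  refine ⟨Acyc0.of_preconnected (coc k L (union_subset (V_sub k 0) (V_sub k 2)))
    (IsPreconnected.union _ hne.1 hne.2 (k.cc 0).isPreconnected (k.cc 2).isPreconnected)
    subset_union_left ⟨_, hne.1⟩ h0, fun b hb => ?_⟩
  obtain ⟨y, hy⟩ := h1 b (N_mono subset_union_left hb)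
  obtain ⟨y', h2, h3⟩ := (k.cc 2).ext (coc k L (V_sub k 2)) k.h₀.1 k.h₀.2.1 k.h₀.2.2.1 k.h₀.2.2.2
    (N_mono subset_union_right hb) (hi ▸ N_mono inter_subset_left hy)
  refine RGlue.exa_of_prims (isOpen_V k 0) (isOpen_V k 2) hy h2 ?_
  rw [hi, ← neg_sub]
  exact Submodule.neg_mem _ h3

theorem hol_zt (L : (Module.End R E)ˣ) {o : ℝ × ℝ} (ho : o ∈ k.O₁) :
    IsHol (zt L (th k.ϑ)) (fun t => k.Φ 2 (t, o)) (L ^ (r * s)).1 := by
  have h1 := (hol₂ k (k.h₁.2.2.2 ho)).zt L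
  rwa [zpow_natCast] at h1

theorem sub₁ : k.Φ 2 '' (univ ×ˢ k.O₁) ⊆ k.Kᶜ := by
  rw [← inter]
  exact inter_subset_right.trans (V_sub k 1)

section Scalar

variable {F : Type} [Field F]

/-- The scalar `ξ` as an automorphism. -/
noncomputable def sc (ξ : Fˣ) : (Module.End F F)ˣ :=
  Units.map (algebraMap F (Module.End F F)).toMonoidHom ξ

theorem sc_zpow (ξ : Fˣ) (j : ℤ) : (sc ξ ^ j).1 = ((ξ ^ j : Fˣ) : F) • 1 := by
  rw [sc, ← map_zpow, Units.coe_map, ← Algebra.algebraMap_eq_smul_one]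
  rfl

theorem zs_eq {Y : Type} (ξ : Fˣ) (h : Y → Y → ℤ) : zs ξ h = zt (sc ξ) h := by
  funext x y
  exact (sc_zpow ξ _).symm

theorem sc_bij {ξ : Fˣ} {n : ℕ} (h : ξ ^ n ≠ 1) :
    Function.Bijective ((sc ξ ^ n).1 - 1 : Module.End F F) := by
  have h1 : ((ξ ^ n : Fˣ) : F) - 1 ≠ 0 := sub_ne_zero.2 fun h' => h (Units.ext h')
  have h2 : ⇑((sc ξ ^ n).1 - 1 : Module.End F F) = fun x => (((ξ ^ n : Fˣ) : F) - 1) * x := by
    funext x
    rw [← zpow_natCast, sc_zpow, zpow_natCast]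
    simp [sub_mul]
  rw [h2]
  exact mulLeft_bijective₀ _ h1

theorem eig {E : Type} [AddCommGroup E] [Module F E] {L : (Module.End F E)ˣ} {e₀ : E} {ξ : Fˣ}
    (h : L.1 e₀ = (ξ : F) • e₀) (j : ℤ) : (L ^ j).1 e₀ = ((ξ ^ j : Fˣ) : F) • e₀ := by
  induction j using Int.induction_on with
  | zero => simp
  | succ j ih =>
    rw [zpow_add_one, zpow_add_one, Units.val_mul, Module.End.mul_apply, h, map_smul, ih,
      smul_smul, Units.val_mul, mul_comm]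
  | pred j ih =>
    have h1 : (L⁻¹).1 e₀ = ((ξ⁻¹ : Fˣ) : F) • e₀ := by
      have h2 : (L⁻¹).1 (L.1 e₀) = e₀ := by
        rw [← Module.End.mul_apply, ← Units.val_mul, inv_mul_cancel]
        rfl
      rw [h, map_smul] at h2
      rw [eq_comm, Units.val_inv_eq_inv_val, inv_smul_eq_iff₀ ξ.ne_zero, h2]
    rw [zpow_sub_one, zpow_sub_one, Units.val_mul, Module.End.mul_apply, h1, map_smul, ih,
      smul_smul, Units.val_mul, mul_comm]

end Scalar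

/-- A cocycle on the exterior is cohomologous to one that vanishes near the collar. -/
theorem exists_van (hR : Rad a ρ) (hσ : σ = 1 ∨ σ = -1)
    (hL : Function.Bijective (L.1 - 1 : Module.End R E)) {b : List S3 → E}
    (hb : dT (zt L (th k.ϑ)) b ∈ N R E 3 k.Kᶜ) : ∃ b' : S3 → S3 → E,
      c1 b' ∈ N R E 2 (k.F '' RB {x | ρ < ‖x - (σ * a : ℝ)‖}) ∧
        Exa (zt L (th k.ϑ)) 2 k.Kᶜ (b - c1 b') := by
  have hρ := hR.2.1
  obtain ⟨-, h2⟩ := RLKb.img_sub k hR hσ (B := {x | ρ < ‖x - (σ * a : ℝ)‖ ∧ ‖x‖ < 1})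
    fun x hx => hx
  obtain ⟨φ, hφ⟩ := (RLKb.acyc_img k hR hσ hL (RLKb.isOpen_sh _ ρ) fun x hx => hx).2 b
    (N_mono h2 hb)
  obtain ⟨h3, -⟩ := k.isCompact_core (r' := 2 * ρ) (r'' := 3 * ρ) (by linarith) (by linarith)
  generalize hT : (k.F '' RB {x | 2 * ρ < ‖x - (σ * a : ℝ)‖})ᶜ = T at h3
  generalize hβ : b - dT (zt L (th k.ϑ)) φ = β at hφ
  have h4 : cut R E T β ∈ N R E 2 (k.F '' RB {x | ρ < ‖x - (σ * a : ℝ)‖}) := by
    refine N_mono ?_ (mem_N_union.2 ⟨cut_mem_N_compl T 2 β, cut_mem_N T hφ⟩)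
    rintro _ ⟨q, hq, rfl⟩
    by_cases hy : yc q = 0
    · rw [h3.isClosed.closure_eq, ← hT, compl_compl]
      exact Or.inl ⟨q, lt_of_lt_of_le (b := 8 * ρ) (by linarith)
        (RLKb.far_U hR hσ ((yc_eq_zero_iff q).1 hy)), rfl⟩
    · exact Or.inr ⟨q, ⟨hq, RLKb.lt_of_yc hy⟩, rfl⟩
  have h5 : β - cut R E T β ∈ N R E 2 k.Kᶜ := by
    refine N_mono (fun p hp => ?_) (mem_N_union.2
      ⟨sub_cut_mem_N T (by norm_num) β, Submodule.sub_mem _ hφ (cut_mem_N T hφ)⟩)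
    by_cases hp' : p ∈ k.Oc (2 * ρ)
    · refine Or.inl (interior_maximal ?_ (k.isOpen_Oc hR (by linarith)) hp')
      rw [← hT]
      exact compl_subset_compl.2 (image_mono fun q hq => le_of_lt (a := 2 * ρ) hq)
    · exact Or.inr (RLKb.cover_sh k hR hσ hp hp')
  refine ⟨f2 (cut R E T β), ?_, φ, ?_⟩
  · have := Submodule.sub_mem _ h4 (sub_c1_f2_mem_N (cut R E T β) _)
    rwa [sub_sub_cancel] at this
  · have := Submodule.add_mem _ h5 (sub_c1_f2_mem_N (cut R E T β) _)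
    rwa [sub_add_sub_cancel, ← hβ, sub_right_comm, hβ] at this

end RKCo

section

open RKCo

theorem LK.acyc {R E : Type} [CommRing R] [AddCommGroup E] [Module R E] {L : (Module.End R E)ˣ}
    (h₀ : Function.Bijective ((L ^ r).1 - 1 : Module.End R E))
    (h₁ : Function.Bijective ((L ^ s).1 - 1 : Module.End R E))
    (h₂ : Function.Bijective ((L ^ (r * s)).1 - 1 : Module.End R E)) :
    Acyc (zt L (th k.ϑ)) 2 k.Kᶜ := by
  obtain ⟨o, ho⟩ := k.h₁.2.2.1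
  rw [← RKCo.cover]
  refine acyc_union ((isOpen_V k 0).union (isOpen_V k 2)) (isOpen_V k 1) ?_ (acyc_U k h₀).2
    (acyc_V k k.hol₁ h₁).2
  rw [inter]
  exact (cc₁ k).acyc0 (coc k L (sub₁ k)) ho (hol_zt k L ho) h₂.1

theorem exists_kcoc {F : Type} [Field F] [StarRing F] (hR : Rad a ρ) (hσ : σ = 1 ∨ σ = -1)
    {ξ : Fˣ} (hu : (ξ : F) * star (ξ : F) = 1) (h1 : ξ ≠ 1) (hr : ξ ^ r ≠ 1) (hs : ξ ^ s ≠ 1)
    (hrs : ξ ^ (r * s) = 1) : ∃ aS bS c₀, KCoc k ξ aS bS c₀ := by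
  have hρ := hR.2.1
  obtain ⟨o, ho⟩ := k.h₁.2.2.1
  have hU₁ := (isOpen_V k 0).union (isOpen_V k 2)
  have hτ := coc k (sc ξ) subset_rfl
  obtain ⟨σ₀, hσ₀, hv⟩ := (cc₁ k).exists_par (coc k (sc ξ) (sub₁ k)) ho (hol_zt k (sc ξ) ho)
    (e := 1) (by rw [← zpow_natCast, sc_zpow, zpow_natCast, hrs]; simp)
  rw [← inter] at hσ₀
  obtain ⟨b, hb, hc⟩ := exists_conn hU₁ (isOpen_V k 1) (coc k (sc ξ) (cover k).subset) hσ₀
  rw [cover] at hb
  obtain ⟨aS, hvan, hex⟩ := exists_van k hR hσ (L := sc ξ)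
    (by simpa only [pow_one] using sc_bij (n := 1) (by rwa [pow_one])) hb
  have hc' := hc.congr_exa (hex.mono (cover k).subset)
  have hd : dT (zt (sc ξ) (th k.ϑ)) (c1 aS) ∈ N F F 3 k.Kᶜ := by
    have h2 := Submodule.sub_mem _ hb (hex.elim fun φ hφ => RGlue.closed_of_prim hτ hφ)
    rwa [map_sub, sub_sub_cancel] at h2
  have hu' : ∀ j : ℤ, ((ξ ^ j : Fˣ) : F) * star ((ξ ^ j : Fˣ) : F) = 1 := fun j => by
    rw [Units.val_zpow_eq_zpow_val, star_zpow₀, ← mul_zpow, hu, one_zpow]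
  have hω : dT (triv F F S3) (cup (biA (H1 F)) (zt (sc ξ) (th k.ϑ)) 1 (c1 aS) (c1 aS)) ∈
      N F F 4 k.Kᶜ := by
    have h2 := cup_leibniz (biA (H1 F)) (τ₃ := triv F F S3) (fun x y e₁ e₂ => by
      have := hu' (th k.ϑ x y)
      simp only [zt, sc_zpow, biA, H1, triv, AddMonoidHom.coe_mk, ZeroHom.coe_mk,
        LinearMap.toAddMonoidHom_coe, LinearMap.mk₂'ₛₗ_apply, LinearMap.smul_apply,
        Module.End.one_apply, smul_eq_mul, star_mul']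
      linear_combination e₁ * star e₂ * this) hτ hτ (isCoc_triv _) (p := 1) (n := 4) (by norm_num)
      (c1 aS) (c1 aS)
    have h3 := cup_mem_N_left (R₃ := F) (biA (H1 F)) (zt (sc ξ) (th k.ϑ)) (p := 2) (n := 4)
      (by norm_num) hd (c1 aS)
    have h4 := cup_mem_N_right (R₃ := F) (biA (H1 F)) (zt (sc ξ) (th k.ϑ)) 1 (c1 aS) hd
    have h5 := Submodule.add_mem _ (Submodule.sub_mem _ h2 h4) h3
    convert h5 using 1
    simp
  obtain ⟨hK, hK'⟩ := k.isKnot hR hσ 0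
  obtain ⟨φ, hφ⟩ := (hK' ▸ hK.h2 F) _ hω
  have hcb : ∀ p ∈ k.Kᶜ, ∃ U ∈ 𝓝 p, ∀ x ∈ U, ∀ y ∈ U, ∀ z ∈ U, -φ [x, z] =
      -φ [x, y] + -φ [y, z] + aS x y * star (((ξ ^ th k.ϑ x y : Fˣ) : F) * aS y z) := by
    intro p hp
    obtain ⟨U, hU, h2⟩ := mem_N_three.1 hφ p hp
    refine ⟨U, hU, fun x hx y hy z hz => ?_⟩
    have h3 := h2 x hx y hy z hz
    rw [Pi.sub_apply, cup_one_cons, dT_three] at h3
    simp only [zt, sc_zpow, biA, H1, triv, c1, AddMonoidHom.coe_mk, ZeroHom.coe_mk,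
      LinearMap.toAddMonoidHom_coe, LinearMap.mk₂'ₛₗ_apply, LinearMap.smul_apply,
      Module.End.one_apply, smul_eq_mul] at h3
    linear_combination -h3
  obtain ⟨c₀, hc₀⟩ := exists_isHolA (h := fun x y => -φ [x, y]) (fun p hp => by
    obtain ⟨U, hU, h2⟩ := hcb p (k.Oc_subset hR hσ (by linarith) hp.1)
    obtain ⟨U', hU', h3⟩ := mem_N_two.1 hvan p
      (image_mono (fun q hq => lt_trans (b := 2 * ρ) (by linarith) hq) hp.2)
    refine ⟨U ∩ U', Filter.inter_mem hU hU', fun x hx y hy z hz => ?_⟩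
    have h4 : aS x y = 0 := h3 x hx.2 y hy.2
    simp only [h2 x hx.1 y hy.1 z hz.1, h4, zero_mul, add_zero]) (k.isLoop_lam hR hσ)
  refine ⟨aS, fun x y => -φ [x, y], c₀, zs_eq ξ _ ▸ hd, hvan, hcb, hc₀, ?_⟩
  intro E _ _ L e₀ he₀ hL b₀ b₁ hk
  have hπ : ∀ x y e, LinearMap.toSpanSingleton F E e₀ (zt (sc ξ) (th k.ϑ) x y e) =
      zt L (th k.ϑ) x y (LinearMap.toSpanSingleton F E e₀ e) := fun x y e => by
    simp only [zt, sc_zpow, LinearMap.toSpanSingleton_apply, LinearMap.smul_apply,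
      Module.End.one_apply, map_smul, eig hL, smul_smul, smul_eq_mul, mul_comm]
  rw [← cover]
  refine oneGen_of_two (cc₁ k) hU₁ (isOpen_V k 1) (inter k) (coc k L (cover k).subset)
    (acyc_U k b₀).1 (acyc_V k k.hol₁ b₁).1 (acyc_U k b₀).2 (acyc_V k k.hol₁ b₁).2 ho
    (hol_zt k L ho) he₀ hk ?_ ?_ (hc'.cm _ hπ) ?_
  · rw [← cm_dT _ _ _ hπ, cover]
    exact cm_mem_N _ hd
  · rw [← cm_dT _ _ _ hπ]
    exact cm_mem_N _ hσ₀
  · change LinearMap.toSpanSingleton F E e₀ (σ₀ _) = e₀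
    rw [hv, LinearMap.toSpanSingleton_apply, one_smul]

end

end Pool.Agent.HH
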