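import Pool.Agent.P.MP_c8dc46_gt.Stmt

/-! Arithmetic: the finite field with involution, roots of unity, the Mazur polynomial. -/

open Polynomial

namespace Pool.Agent.HH

/-- The arithmetic properties of the chosen roots of unity. -/
structure RootsP {F : Type} [Field F] [StarRing F] (w : ℤ) (r s : Fin 2 → ℕ) (ζ : Fin 2 → Fˣ) :
    Prop where
  rp : ∀ i, (r i).Prime
  sp : ∀ i, (s i).Prime
  cop : ∀ i, Nat.Coprime (r i) (s i)
  unit : ∀ i, (ζ i : F) * star (ζ i : F) = 1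
  ord : ∀ i, ζ i ^ (r i * s i) = 1
  copw : IsCoprime w ((r 0 * s 0 * (r 1 * s 1) : ℕ) : ℤ)
  nr : ∀ i j, (ζ i : F) ^ (w * r j) ≠ 1
  ns : ∀ i j, (ζ i : F) ^ (w * s j) ≠ 1
  nrs : ∀ i j, i ≠ j → (ζ i : F) ^ (w * (r j * s j)) ≠ 1
  nw : ∀ i, (ζ i : F) ^ w ≠ 1
  n1 : ∀ i, (ζ i : F) ≠ 1
  char : ∀ i, ((w * (r i * s i) : ℤ) : F) ≠ 0
  two : (2 : F) ≠ 0

namespace RNum

theorem big_prime {ℓ : ℕ} (hℓ : ℓ.Prime) (N : ℕ) :
    ∃ p k : ℕ, p.Prime ∧ N < p ∧ Odd k ∧ p ∣ ℓ ^ k + 1 := by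
  obtain ⟨k, hk, kp⟩ := Nat.exists_infinite_primes (N + ℓ + 3)
  have ko : Odd k := kp.odd_of_ne_two (by omega)
  have l2 := hℓ.two_le
  have hg := mul_neg_geom_sum (-(ℓ : ℤ)) k
  rw [ko.neg_pow, sub_neg_eq_add, sub_neg_eq_add] at hg
  set S := ∑ i ∈ Finset.range k, (-(ℓ : ℤ)) ^ i with hS
  have h1 : S.natAbs ≠ 1 := fun h => by
    have h3 : (ℓ : ℤ) ^ 1 < (ℓ : ℤ) ^ k := pow_lt_pow_right₀ (by omega) (by omega)
    rw [pow_one] at h3
    have h4 : (2 : ℤ) ≤ ℓ := by exact_mod_cast l2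
    rcases Int.natAbs_eq_iff.1 h with h | h <;> rw [h] at hg <;> push_cast at hg <;> omega
  obtain ⟨p, pp, hp⟩ := Nat.exists_prime_and_dvd h1
  have := Fact.mk pp
  have := Fact.mk kp
  have hp' : (p : ℤ) ∣ S := Int.natCast_dvd.2 hp
  have hd : p ∣ ℓ ^ k + 1 := by
    have : (p : ℤ) ∣ 1 + (ℓ : ℤ) ^ k := hg ▸ hp'.mul_left _
    rw [add_comm] at this
    exact_mod_cast this
  have hx : (-(ℓ : ZMod p)) ^ k = 1 := by
    have := (ZMod.natCast_eq_zero_iff _ _).2 hd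
    push_cast at this
    rw [ko.neg_pow]
    linear_combination -this
  have hx1 : (-(ℓ : ZMod p)) ≠ 1 := fun h => by
    have h2 := (ZMod.intCast_zmod_eq_zero_iff_dvd _ _).2 hp'
    rw [hS] at h2
    push_cast at h2
    simp only [h, one_pow, Finset.sum_const, Finset.card_range, nsmul_eq_mul, mul_one] at h2
    have h3 := (Nat.prime_dvd_prime_iff_eq pp kp).1 ((ZMod.natCast_eq_zero_iff _ _).1 h2)
    have h4 : ((ℓ + 1 : ℕ) : ZMod p) = 0 := by push_cast; linear_combination -h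
    have := Nat.le_of_dvd (by omega) ((ZMod.natCast_eq_zero_iff _ _).1 h4)
    omega
  have hx0 : (-(ℓ : ZMod p)) ≠ 0 := fun h => by
    rw [h, zero_pow kp.ne_zero] at hx
    exact zero_ne_one hx
  have h5 := ZMod.orderOf_dvd_card_sub_one hx0
  rw [orderOf_eq_prime hx hx1] at h5
  have := Nat.le_of_dvd (by have := pp.two_le; omega) h5
  exact ⟨p, k, pp, by omega, ko, hd⟩

theorem good_root {F : Type} [Field F] [Finite F] {Q : F[X]} (hQ : Q ≠ 0) {r s : ℕ} (hr : r.Prime)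
    (hs : s.Prime) (hrs : r < s) (hd : Q.natDegree + 1 < s) (h : r * s ∣ Nat.card Fˣ) :
    ∃ ζ : Fˣ, IsPrimitiveRoot (ζ : F) (r * s) ∧ ¬ Q.IsRoot ζ := by
  classical
  obtain ⟨g, hg⟩ := IsCyclic.exists_ofOrder_eq_natCard (α := Fˣ)
  have h0 : IsPrimitiveRoot (g : F) (Nat.card Fˣ) :=
    IsPrimitiveRoot.coe_units_iff.2 (hg ▸ IsPrimitiveRoot.orderOf g)
  obtain ⟨c, hc⟩ := h
  have h1 := h0.pow Nat.card_pos (hc.trans (mul_comm _ _))
  have hn : 0 < r * s := Nat.mul_pos hr.pos hs.pos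
  by_contra hne
  push Not at hne
  have h2 : primitiveRoots (r * s) F ⊆ Q.roots.toFinset := fun x hx => by
    have hx := (mem_primitiveRoots hn).1 hx
    obtain ⟨u, rfl⟩ := hx.isUnit hn.ne'
    exact Multiset.mem_toFinset.2 ((mem_roots hQ).2 (hne u hx))
  have h3 := (Finset.card_le_card h2).trans ((Multiset.toFinset_card_le _).trans (card_roots' Q))
  rw [h1.card_primitiveRoots, Nat.totient_mul ((Nat.coprime_primes hr hs).2 hrs.ne),
    Nat.totient_prime hr, Nat.totient_prime hs] at h3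
  have h4 : 1 * (s - 1) ≤ (r - 1) * (s - 1) :=
    Nat.mul_le_mul_right _ (by have := hr.two_le; omega)
  omega

theorem not_root {ρ : ℂ} (h : ρ + ρ⁻¹ = -2 / 3) {k : ℤ} (hk : k ≠ 0) : ρ ^ k ≠ 1 := fun h1 => by
  have h2 : ρ ^ k.natAbs = 1 := by
    rcases Int.natAbs_eq k with e | e
    · rw [← zpow_natCast, ← e, h1]
    · rw [← inv_inj, ← zpow_natCast, ← zpow_neg, ← e, h1, inv_one]
  have hp := Int.natAbs_pos.2 hk
  have h3 : IsIntegral ℤ (algebraMap ℚ ℂ (-2 / 3)) := by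
    have : algebraMap ℚ ℂ (-2 / 3) = ρ + ρ⁻¹ := by rw [h]; simp
    rw [this]
    exact (IsIntegral.of_pow hp (h2 ▸ isIntegral_one)).add
      (IsIntegral.of_pow hp (by rw [inv_pow, h2, inv_one]; exact isIntegral_one))
  obtain ⟨y, hy⟩ := IsIntegrallyClosed.isIntegral_iff.1
    ((isIntegral_algebraMap_iff (algebraMap ℚ ℂ).injective).1 h3)
  have h4 : ((3 * y : ℤ) : ℚ) = ((-2 : ℤ) : ℚ) := by
    rw [eq_intCast] at hy
    push_cast
    linarith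
  have := Int.cast_injective h4
  omega

end RNum

open RNum

theorem exists_field (ℓ : ℕ) [Fact ℓ.Prime] (h2 : ℓ ≠ 2) {w : ℤ} (hw : IsCoprime w (ℓ : ℤ))
    {q : (ZMod ℓ)[X]} (hq : q ≠ 0) :
    ∃ (F : Type) (_ : Field F) (_ : StarRing F) (_ : Finite F) (_ : Algebra (ZMod ℓ) F)
      (_ : CharP F ℓ) (r s : Fin 2 → ℕ) (ζ : Fin 2 → Fˣ), RootsP w r s ζ ∧
        ∀ i, ¬ (q.map (algebraMap (ZMod ℓ) F)).IsRoot (ζ i : F) := by
  have hℓ : ℓ.Prime := Fact.out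
  have hlw : ¬ (ℓ : ℤ) ∣ w := fun h =>
    (Nat.prime_iff_prime_int.1 hℓ).not_isUnit (hw.isUnit_of_dvd' h dvd_rfl)
  have w0 : w ≠ 0 := fun h => hlw (h ▸ dvd_zero _)
  obtain ⟨a, ka, pa, ha, oa, da⟩ := big_prime hℓ (w.natAbs + ℓ + q.natDegree + 1)
  obtain ⟨b, kb, pb, hb, ob, db⟩ := big_prime hℓ a
  obtain ⟨c, kc, pc, hc, oc, dc⟩ := big_prime hℓ b
  obtain ⟨e, ke, pe, he, oe, de⟩ := big_prime hℓ c
  have od : Odd (ka * kb * (kc * ke)) := (oa.mul ob).mul (oc.mul oe)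
  set d := ka * kb * (kc * ke) with hd
  have up : ∀ {p k : ℕ} (m : ℕ), p ∣ ℓ ^ k + 1 → d = k * m → p ∣ ℓ ^ d + 1 := fun {p k} m h e => by
    have h1 := Odd.nat_add_dvd_pow_add_pow (ℓ ^ k) 1 (Nat.Odd.of_mul_right (e ▸ od))
    rw [one_pow, ← pow_mul, ← e] at h1
    exact h.trans h1
  have d0 : 2 * d ≠ 0 := by have := od.pos; omega
  have cardF := GaloisField.card ℓ (2 * d) d0
  let F := GaloisField ℓ (2 * d)
  let _ : StarRing F :=
    { star := fun x => x ^ ℓ ^ d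
      star_involutive := fun x => by
        have := Fintype.ofFinite F
        change (x ^ ℓ ^ d) ^ ℓ ^ d = x
        rw [← pow_mul, ← pow_add, ← two_mul, ← cardF, Nat.card_eq_fintype_card,
          FiniteField.pow_card]
      star_mul := fun x y => by
        change (x * y) ^ ℓ ^ d = y ^ ℓ ^ d * x ^ ℓ ^ d
        rw [mul_pow, mul_comm]
      star_add := fun x y => add_pow_char_pow x y ℓ d }
  have hQ : q.map (algebraMap (ZMod ℓ) F) ≠ 0 := map_ne_zero hq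
  have hu : ℓ ^ d + 1 ∣ Nat.card Fˣ := by
    rw [Nat.card_units, cardF, mul_comm 2 d, pow_mul ℓ d 2]
    exact ⟨_, by simpa using Nat.sq_sub_sq (ℓ ^ d) 1⟩
  have dab : a * b ∣ ℓ ^ d + 1 := ((Nat.coprime_primes pa pb).2 hb.ne).mul_dvd_of_dvd_of_dvd
    (up (kb * (kc * ke)) da (by rw [hd]; ring)) (up (ka * (kc * ke)) db (by rw [hd]; ring))
  have dce : c * e ∣ ℓ ^ d + 1 := ((Nat.coprime_primes pc pe).2 he.ne).mul_dvd_of_dvd_of_dvd
    (up (ka * kb * ke) dc (by rw [hd]; ring)) (up (ka * kb * kc) de (by rw [hd]; ring))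
  obtain ⟨x, hx, hx'⟩ := good_root hQ pa pb hb (by rw [natDegree_map]; omega) (dab.trans hu)
  obtain ⟨y, hy, hy'⟩ := good_root hQ pc pe he (by rw [natDegree_map]; omega) (dce.trans hu)
  have rp : ∀ i, (![a, c] i).Prime := Fin.forall_fin_two.2 ⟨pa, pc⟩
  have sp : ∀ i, (![b, e] i).Prime := Fin.forall_fin_two.2 ⟨pb, pe⟩
  have hz : ∀ i, IsPrimitiveRoot ((![x, y] i : Fˣ) : F) (![a, c] i * ![b, e] i) :=
    Fin.forall_fin_two.2 ⟨hx, hy⟩
  have hz' : ∀ i, ![a, c] i * ![b, e] i ∣ ℓ ^ d + 1 := Fin.forall_fin_two.2 ⟨dab, dce⟩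
  have rb : ∀ i, w.natAbs + ℓ < ![a, c] i := Fin.forall_fin_two.2 ⟨by simp; omega, by simp; omega⟩
  have sb : ∀ i, w.natAbs + ℓ < ![b, e] i := Fin.forall_fin_two.2 ⟨by simp; omega, by simp; omega⟩
  have rs : ∀ i j, ![a, c] i ≠ ![b, e] j := Fin.forall_fin_two.2
    ⟨Fin.forall_fin_two.2 ⟨by simp; omega, by simp; omega⟩,
      Fin.forall_fin_two.2 ⟨by simp; omega, by simp; omega⟩⟩
  have rr : ∀ i j, i ≠ j → ![a, c] i ≠ ![a, c] j := Fin.forall_fin_two.2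
    ⟨Fin.forall_fin_two.2 ⟨by simp, by simp; omega⟩, Fin.forall_fin_two.2 ⟨by simp; omega, by simp⟩⟩
  refine ⟨F, inferInstance, inferInstance, inferInstance, inferInstance, inferInstance,
    ![a, c], ![b, e], ![x, y], ?_, Fin.forall_fin_two.2 ⟨hx', hy'⟩⟩
  generalize ![a, c] = r at *
  generalize ![b, e] = s at *
  generalize ![x, y] = z at *
  have nd : ∀ p : ℕ, w.natAbs + ℓ < p → ¬ p ∣ w.natAbs := fun p h1 h =>
    absurd (Nat.le_of_dvd (Int.natAbs_pos.2 w0) h) (by omega)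
  have key : ∀ (i : Fin 2) (m : ℕ), (z i : F) ^ (w * m) = 1 → r i ∣ m ∧ s i ∣ m := fun i m h => by
    have h1 := Int.natCast_dvd.1 (((hz i).zpow_eq_one_iff_dvd _).1 h)
    rw [Int.natAbs_mul, Int.natAbs_natCast] at h1
    exact ⟨(((rp i).dvd_mul).1 ((dvd_mul_right _ _).trans h1)).resolve_left (nd _ (rb i)),
      (((sp i).dvd_mul).1 ((dvd_mul_left _ _).trans h1)).resolve_left (nd _ (sb i))⟩
  have cw : ∀ p : ℕ, p.Prime → w.natAbs + ℓ < p → IsCoprime w (p : ℤ) := fun p pp h =>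
    Int.isCoprime_iff_gcd_eq_one.2 ((Nat.Prime.coprime_iff_not_dvd pp).2 (nd p h)).symm
  have nw : ∀ i, (z i : F) ^ w ≠ 1 := fun i h =>
    (rp i).one_lt.ne' (Nat.dvd_one.1 (key i 1 (by simpa using h)).1)
  refine ⟨rp, sp, fun i => (Nat.coprime_primes (rp i) (sp i)).2 (rs i i), fun i => ?_,
    fun i => Units.ext (by simpa using (hz i).pow_eq_one), ?_, fun i j h => ?_, fun i j h => ?_,
    fun i j ij h => ?_, nw, fun i h => nw i (by rw [h, one_zpow]), fun i h => ?_, fun h => ?_⟩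
  · change _ * _ ^ ℓ ^ d = (1 : F)
    rw [← pow_succ', (hz i).pow_eq_one_iff_dvd]
    exact hz' i
  · push_cast
    exact ((cw _ (rp 0) (rb 0)).mul_right (cw _ (sp 0) (sb 0))).mul_right
      ((cw _ (rp 1) (rb 1)).mul_right (cw _ (sp 1) (sb 1)))
  · exact rs j i ((Nat.prime_dvd_prime_iff_eq (sp i) (rp j)).1 (key i _ h).2).symm
  · exact rs i j ((Nat.prime_dvd_prime_iff_eq (rp i) (sp j)).1 (key i _ h).1)
  · rw [← Nat.cast_mul] at h
    rcases ((rp i).dvd_mul).1 (key i _ h).1 with h | h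
    · exact rr i j ij ((Nat.prime_dvd_prime_iff_eq (rp i) (rp j)).1 h)
    · exact rs i j ((Nat.prime_dvd_prime_iff_eq (rp i) (sp j)).1 h)
  · have h1 := Int.natCast_dvd.1 ((CharP.intCast_eq_zero_iff F ℓ _).1 h)
    rw [Int.natAbs_mul, Int.natAbs_mul, Int.natAbs_natCast, Int.natAbs_natCast, hℓ.dvd_mul,
      hℓ.dvd_mul, Nat.prime_dvd_prime_iff_eq hℓ (rp i),
      Nat.prime_dvd_prime_iff_eq hℓ (sp i)] at h1
    have := rb i
    have := sb i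
    rcases h1 with h1 | h1 | h1
    · exact hlw (Int.natCast_dvd.2 h1)
    · omega
    · omega
  · exact h2 ((Nat.prime_dvd_prime_iff_eq hℓ Nat.prime_two).1
      ((CharP.cast_eq_zero_iff F ℓ 2).1 (by exact_mod_cast h)))

/-- The final contradiction for winding number at least two. -/
theorem final_D {ℓ : ℕ} (hℓ : ℓ.Prime) (h2 : ℓ ≠ 2) (j : ℂˣ → ℤ) (q : ℂˣ → ℂˣ → ℤ)
    (h : ∀ u v : ℂˣ, u ^ ℓ = 1 → v ^ ℓ = 1 → u ≠ 1 → v ≠ 1 → u * v ≠ 1 →
      j (u * v) + q u v = j u + j v ∧ (q u v = 1 ∨ q u v = -1) ∧ q u⁻¹ v⁻¹ = -q u v) : False := by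
  have l3 : 3 ≤ ℓ := by have := hℓ.two_le; omega
  have hp := Complex.isPrimitiveRoot_exp ℓ hℓ.ne_zero
  obtain ⟨u, hu⟩ := hp.isUnit hℓ.ne_zero
  rw [← hu, IsPrimitiveRoot.coe_units_iff] at hp
  have ne : ∀ k, 0 < k → k < ℓ → u ^ k ≠ 1 := fun k h1 h3 => hp.pow_ne_one_of_pos_of_lt h1.ne' h3
  have pw : ∀ k, (u ^ k) ^ ℓ = 1 := fun k => by rw [← pow_mul, mul_comm, pow_mul, hp.1, one_pow]
  have main : ∀ k : ℕ, k + 1 < ℓ → ∃ Q m : ℤ, -(k : ℤ) ≤ Q ∧ Q ≤ k ∧ Q = k + 2 * m ∧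
      j (u ^ (k + 1)) + Q = (k + 1) * j u ∧ j (u ^ (k + 1))⁻¹ - Q = (k + 1) * j u⁻¹ := by
    intro k
    induction k with
    | zero => exact fun _ => ⟨0, 0, by simp⟩
    | succ k ih =>
      intro hk
      obtain ⟨Q, m, a1, a2, a3, a4, a5⟩ := ih (by omega)
      have n1 : u ≠ 1 := by simpa using ne 1 one_pos (by omega)
      have n2 := ne (k + 1) (by omega) (by omega)
      have n3 := ne (k + 1 + 1) (by omega) hk
      obtain ⟨b1, b2, b3⟩ := h u (u ^ (k + 1)) hp.1 (pw _) n1 n2 (by rwa [← pow_succ'])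
      obtain ⟨b4, -, -⟩ := h u⁻¹ (u ^ (k + 1))⁻¹ (by rw [inv_pow, hp.1, inv_one])
        (by rw [inv_pow, pw, inv_one]) (inv_ne_one.2 n1) (inv_ne_one.2 n2)
        (by rw [← mul_inv, ← pow_succ']; exact inv_ne_one.2 n3)
      rw [← mul_inv, b3] at b4
      rw [← pow_succ'] at b1 b4
      rcases b2 with b2 | b2
      · exact ⟨Q + 1, m, by omega, by omega, by omega, by push_cast; linarith,
          by push_cast; linarith⟩
      · exact ⟨Q - 1, m - 1, by omega, by omega, by omega, by push_cast; linarith,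
          by push_cast; linarith⟩
  obtain ⟨k, rfl⟩ : ∃ k, ℓ = k + 2 := ⟨ℓ - 2, by omega⟩
  obtain ⟨Q, m, a1, a2, a3, a4, a5⟩ := main k (by omega)
  have e : u ^ (k + 1) = u⁻¹ := eq_inv_of_mul_eq_one_left (by rw [← pow_succ]; exact hp.1)
  rw [e] at a4 a5
  rw [inv_inv] at a5
  obtain ⟨t, ht⟩ := hℓ.odd_of_ne_two h2
  have k0 : (k : ℤ) ≠ 0 := by omega
  have b1 : j u⁻¹ = -j u := by
    have := mul_left_cancel₀ k0 (show (k : ℤ) * (j u + j u⁻¹) = k * 0 by linarith)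
    linarith
  have b2 : Q = (k + 2) * j u := by rw [b1] at a4; linarith
  rcases lt_trichotomy (j u) 0 with b3 | b3 | b3
  · nlinarith
  · rw [b3] at b2
    omega
  · nlinarith

/-- The roots of the Mazur polynomial at a primitive cube root of unity `v`. -/
theorem mazur_roots {v : ℂ} (hv : v ^ 3 = 1) (hv1 : v ≠ 1) : ∃ s₁ s₂ : ℂ, ‖s₁‖ = 1 ∧ ‖s₂‖ = 1 ∧
    (∀ G : ℂ, 1 - G - v + G * v - G ^ 2 * v - G * v ^ 2 + G ^ 2 * v ^ 2 =
      (v ^ 2 - v) * ((G - s₁) * (G - s₂))) ∧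
    ∀ k : ℤ, k ≠ 0 → s₁ ^ k ≠ 1 ∧ s₂ ^ k ≠ s₁ ^ k := by
  have v2 : v ^ 2 + v + 1 = 0 :=
    (mul_eq_zero.1 (show (v - 1) * (v ^ 2 + v + 1) = 0 by linear_combination hv)).resolve_left
      (sub_ne_zero.2 hv1)
  have cv : (starRingEnd ℂ) v = v ^ 2 := by
    rw [← Complex.inv_eq_conj (Complex.norm_eq_one_of_pow_eq_one hv (by norm_num))]
    exact inv_eq_of_mul_eq_one_right (by linear_combination hv)
  have nm : ∀ a : ℝ, (a : ℂ) ^ 2 = 2 / 3 → ‖(2 + v) / 3 + v * a‖ = 1 := fun a ha => by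
    have h1 := Complex.mul_conj' ((2 + v) / 3 + v * a)
    have h2 : ((‖(2 + v) / 3 + v * a‖ ^ 2 : ℝ) : ℂ) = (1 : ℝ) := by
      push_cast
      rw [← h1]
      simp only [map_add, map_mul, map_div₀, cv, Complex.conj_ofReal, map_ofNat]
      linear_combination v ^ 3 * ha + (7 / 9 + 2 / 3 * a) * hv + (2 / 9 + 2 / 3 * a) * v2
    exact (pow_eq_one_iff_of_nonneg (norm_nonneg _) two_ne_zero).1 (Complex.ofReal_injective h2)
  obtain ⟨a, ha⟩ : ∃ a : ℝ, (a : ℂ) ^ 2 = 2 / 3 :=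
    ⟨√(2 / 3), by rw [← Complex.ofReal_pow, Real.sq_sqrt (by norm_num)]; push_cast; rfl⟩
  have n1 := nm a ha
  have n2 := nm (-a) (by push_cast; linear_combination ha)
  set s₁ := (2 + v) / 3 + v * a with e1
  set s₂ := (2 + v) / 3 + v * (-a : ℝ) with e2
  have hs : s₁ + s₂ = 2 * (2 + v) / 3 := by rw [e1, e2]; push_cast; ring
  have hp : s₁ * s₂ = -v ^ 2 := by
    rw [e1, e2]
    push_cast
    linear_combination -v ^ 2 * ha + 4 / 9 * v2
  have z1 : s₁ ≠ 0 := fun h => by simp [h] at n1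
  have z2 : s₂ ≠ 0 := fun h => by simp [h] at n2
  have hρ : s₂ / s₁ + (s₂ / s₁)⁻¹ = -2 / 3 := by
    rw [inv_div]
    field_simp
    linear_combination 3 * (s₁ + s₂ + 2 * (2 + v) / 3) * hs - 4 * hp + 16 / 3 * v2
  have ne : ∀ k : ℤ, k ≠ 0 → s₂ ^ k ≠ s₁ ^ k := fun k hk h =>
    not_root hρ hk (by rw [div_zpow, h, div_self (zpow_ne_zero _ z1)])
  refine ⟨s₁, s₂, n1, n2, fun G => ?_, fun k hk => ⟨fun h => ne (6 * k) (by omega) ?_, ne k hk⟩⟩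
  · linear_combination (v ^ 2 - v) * G * hs - (v ^ 2 - v) * hp +
      (2 / 3 * G + v - 1) * hv + (-G / 3) * v2
  · have h6 : (s₁ * s₂) ^ (6 : ℤ) = 1 := by
      rw [hp, zpow_ofNat]
      linear_combination (v ^ 9 + v ^ 6 + v ^ 3 + 1) * hv
    have h7 : s₁ ^ (6 * k) = 1 := by rw [mul_comm, zpow_mul, h, one_zpow]
    have h8 : (s₁ * s₂) ^ (6 * k) = 1 := by rw [zpow_mul, h6, one_zpow]
    rwa [mul_zpow, h7, one_mul, ← h7] at h8

theorem exists_odd_prime {w : ℤ} (hw : w ≠ 0) :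
    ∃ ℓ : ℕ, ℓ.Prime ∧ ℓ ≠ 2 ∧ IsCoprime w (ℓ : ℤ) := by
  obtain ⟨p, hp, pp⟩ := Nat.exists_infinite_primes (w.natAbs + 3)
  refine ⟨p, pp, by omega, Int.isCoprime_iff_gcd_eq_one.2
    ((Nat.Prime.coprime_iff_not_dvd pp).2 fun h => ?_).symm⟩
  exact absurd (Nat.le_of_dvd (Int.natAbs_pos.2 hw) h) (by simp; omega)

theorem exists_s0 {w : ℤ} (hw : 2 ≤ |w|) {p : ℕ} (hc : IsCoprime w (p : ℤ)) :
    ∃ s₀ : ℂ, ‖s₀‖ = 1 ∧ s₀ ^ w = 1 ∧ s₀ ^ p ≠ 1 := by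
  have h2 : 2 ≤ w.natAbs := by rw [Int.abs_eq_natAbs] at hw; omega
  have hp := Complex.isPrimitiveRoot_exp w.natAbs (by omega)
  refine ⟨_, hp.norm'_eq_one (by omega), (hp.zpow_eq_one_iff_dvd _).2 (Int.natAbs_dvd.2 dvd_rfl),
    fun h => ?_⟩
  have := Int.isUnit_iff_natAbs_eq.1 (hc.isUnit_of_dvd' dvd_rfl
    (Int.natAbs_dvd.1 (Int.natCast_dvd_natCast.2 ((hp.pow_eq_one_iff_dvd _).1 h))))
  omega

end Pool.Agent.HH
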