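import Pool.Agent.P.MP_c8dc46_gt.SDefs
import Pool.Agent.P.MP_c8dc46_gt.KCo
import Pool.Agent.P.MP_c8dc46_gt.AcP
import Pool.Agent.P.MP_c8dc46_gt.DegB
import Pool.Agent.P.MP_c8dc46_gt.Num

/-!
The two ends in the first stage: all fibre loops are acyclic, so only one companion carries
cohomology.
-/

open Set Topology

namespace Pool.Agent.HH

variable {F : Type} [Field F] [StarRing F] {r s : Fin 2 → ℕ} {P : ℝ → S3} {g : Geo r s P}
  {hP : S3 → S3 → ℤ} {w : ℤ} {ζ : Fin 2 → Fˣ}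

namespace RSt1b

theorem sg_cases (i : Fin 2) : sg i = 1 ∨ sg i = -1 := by
  unfold sg
  split_ifs
  · exact Or.inr rfl
  · exact Or.inl rfl

theorem pow_eq {G : Type} [Group G] (t : G) (w : ℤ) (m : ℕ) : (t ^ w) ^ m = t ^ (w * m) := by
  rw [zpow_mul, zpow_natCast]

theorem bij_w (hz : RootsP w r s ζ) (n : ℕ) (i : Fin 2) :
    Function.Bijective ((tq F (ζ i) n ^ w).1 - 1 : Module.End F _) :=
  tq_bij (ζ i).ne_zero n (hz.nw i)

theorem bij_eps (hz : RootsP w r s ζ) (n : ℕ) (i : Fin 2) {ε : ℤ} (hε : ε = 1 ∨ ε = -1) :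
    Function.Bijective ((tq F (ζ i) n ^ ε).1 - 1 : Module.End F _) := by
  refine tq_bij (ζ i).ne_zero n ?_
  rcases hε with rfl | rfl
  · simpa using hz.n1 i
  · simpa using hz.n1 i

theorem open_lt (x₀ : ℂ) (c : ℝ) : IsOpen {x : ℂ | c < ‖x - x₀‖} :=
  isOpen_lt continuous_const (by fun_prop)

theorem open_gt (x₀ : ℂ) (c : ℝ) : IsOpen {x : ℂ | ‖x - x₀‖ < c} :=
  isOpen_lt (by fun_prop) continuous_const

theorem open_n (c : ℝ) : IsOpen {x : ℂ | ‖x‖ < c} := isOpen_lt (by fun_prop) continuous_const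

theorem open_n' (c : ℝ) : IsOpen {x : ℂ | c < ‖x‖} := isOpen_lt continuous_const (by fun_prop)

theorem xi_far (g : Geo r s P) {i j : Fin 2} (h : i ≠ j) : ‖g.xi j - g.xi i‖ = 2 * g.a := by
  have h0 := g.norm_xi_sub
  fin_cases i <;> fin_cases j
  · exact absurd rfl h
  · rw [norm_sub_rev] at h0
    exact h0
  · exact h0
  · exact absurd rfl h

theorem Mid_sub (g : Geo r s P) : g.Mid ⊆ (eta (g.xi 0) ∪ eta (g.xi 1))ᶜ := fun _ hp h =>
  hp (h.elim (fun h => Or.inl (Or.inr h)) Or.inr)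

theorem Mid_sub' (g : Geo r s P) (i : Fin 2) : g.Mid ⊆ (range P ∪ eta (g.xi i))ᶜ := by
  intro p hp h
  rcases h with h | h
  · exact hp (Or.inl (Or.inl h))
  · fin_cases i
    · exact hp (Or.inl (Or.inr h))
    · exact hp (Or.inr h)

variable {R E : Type} [CommRing R] [AddCommGroup E] [Module R E] {t : (Module.End R E)ˣ}

theorem acycC (dg : Deg g hP w) (hc : IsCocA (pb (sl (-2)) dg.h) (range g.C)ᶜ)
    (b : Function.Bijective ((t ^ w).1 - 1 : Module.End R E)) {B : Set ℂ} (hB : IsOpen B)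
    (h : ∀ x ∈ B, ‖x‖ < g.a + 7 * g.ρ ∧ ∀ i, x ≠ g.xi i) :
    Acyc (pb g.fl (zt t (pb (sl (-2)) dg.h))) 2 (RB B) := by
  obtain ⟨h1, h2, h3⟩ := g.rad
  refine (acyc_fibX hB (fun x hx => by linarith [(h x hx).1]) ?_ fun x hx => ?_).2
  · exact ((hc.zt t).pb g.fl_maps.2 g.fl_maps.1).mono
      (g.RB_subset_Mid fun x hx => ⟨(h x hx).1.le, (h x hx).2⟩)
  · exact loopAc_zt (h := pb g.fl (pb (sl (-2)) dg.h))
      ((isHolA_pb _ _ _ _).2 (dg.fibC x (h x hx).1 (h x hx).2)) b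

theorem acycD (dg : Deg g hP w) (hc : IsCocA (pb (sl 3) dg.h) (range g.D)ᶜ)
    (b : Function.Bijective ((t ^ w).1 - 1 : Module.End R E)) (i : Fin 2) :
    Acyc (pb (g.Ψ i ∘ (g.lk i).F) (zt t (pb (sl 3) dg.h))) 2 (RB (g.Bd i)) := by
  obtain ⟨h1, h2, h3⟩ := g.rad
  have hne : ∀ x ∈ g.Bd i, x ≠ g.xi i := fun x hx e => by
    have := hx.1
    rw [e, sub_self, norm_zero] at this
    linarith
  refine (acyc_fibX (B := g.Bd i) ((open_lt _ _).inter (open_n _))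
    (fun x hx => by linarith [hx.2]) ?_
    fun x hx => ?_).2
  · refine (hc.zt t).pb (fun p hp => (g.oe_ΨF i).cont.continuousAt
      ((g.oe_ΨF i).isOpen.mem_nhds (hne _ hp))) fun p hp hD => ?_
    have hn : ‖xc p‖ ≤ g.a + 7 * g.ρ := by linarith [hp.2]
    have hp0 : p ∉ g.h '' RB {x | 0 ≤ x.re} := fun h0 => g.off_of_norm hn
      (image_mono (fun q (hq : 0 ≤ (xc q).re) => show -1 / 2 ≤ (xc q).re by linarith) h0)
    exact disjoint_left.1 g.disjoint_P ((g.ΨF_mem_D i (hne _ hp) hp0).1 hD)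
      (show xc p ∈ Metric.closedBall 0 _ from mem_closedBall_zero_iff.2 hn)
  · exact loopAc_zt (h := pb (g.Ψ i ∘ (g.lk i).F) (pb (sl 3) dg.h))
      ((isHolA_pb _ _ _ _).2 (dg.fibD i x (by linarith [hx.2]) (hne x hx))) b

theorem acyc_comp {r s : ℕ} {σ a ρ : ℝ} (k : LK r s σ a ρ) (hR : Rad a ρ) (hσ : σ = 1 ∨ σ = -1)
    (b : Function.Bijective ((t ^ w).1 - 1 : Module.End R E))
    (ha : Acyc (zt t fun x y => w * th k.ϑ x y) 2 k.Kᶜ) (Ψ : S3 ≃ₜ S3) {κ : S3 → S3}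
    (hκ : k.IsRet κ) {hE : S3 → S3 → ℤ}
    (hc : CohA (pb (Ψ ∘ κ) hE) (fun x y => w * th k.ϑ x y) k.Kᶜ) :
    Acyc (zt t hE) 2 (Ψ '' k.Oc (2 * ρ)) := by
  have hρ := hR.2.1
  rw [zt_mul] at ha
  have h1 := k.acyc_Oc hR hσ b ha
  rw [← zt_mul] at h1
  refine ((OE.of_homeomorph Ψ (k.isOpen_Oc hR (by linarith))).acyc_iff _ _).1 ?_
  refine Acyc.zt_cohA t (h' := pb Ψ hE) (by norm_num) ?_ h1
  exact (hc.mono (k.Oc_subset hR hσ (by linarith))).symm.trans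
    (CohA.of_locEq ((hκ.locEq hR (pb Ψ hE)).mono (k.Oc_mono (by linarith))))

theorem acycS (dg : Deg g hP w) (ha : Acyc (zt t hP) 2 g.So) (i : Fin 2) :
    Acyc (zt t (pb (sl 3) dg.h)) 2 (g.Ψ i '' ((g.lk i).F '' g.So)) := by
  have hs : g.So ⊆ (range P ∪ eta (g.xi i))ᶜ := g.So_subset.trans (Mid_sub' g i)
  rw [← image_comp]
  refine (((g.oe_ΨF i).mono g.isOpen_So fun p hp h => hs hp (Or.inr h)).acyc_iff _ _).1 ?_
  refine Acyc.zt_cohA t (h' := pb (g.Ψ i ∘ (g.lk i).F) (pb (sl 3) dg.h)) (by norm_num) ?_ ha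
  refine ((dg.midD i).mono hs).symm.trans (CohA.of_locEq ((g.rq_locEq dg.retq i _).mono ?_))
  intro p hp h
  rcases h with h | h
  · exact hs hp (Or.inr h)
  · exact hp.2 h

end RSt1b

open RSt1b

theorem comp_acyc (g : Geo r s P) (hz : RootsP w r s ζ) (n : ℕ) {i j : Fin 2} (h : j ≠ i) :
    Acyc (zt (tq F (ζ j) n) fun x y => w * th (g.lk i).ϑ x y) 2 (g.lk i).Kᶜ := by
  rw [zt_mul]
  refine (g.lk i).acyc ?_ ?_ ?_ <;> rw [pow_eq]
  · exact tq_bij (ζ j).ne_zero n (hz.nr j i)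
  · exact tq_bij (ζ j).ne_zero n (hz.ns j i)
  · exact tq_bij (ζ j).ne_zero n (by simpa using hz.nrs j i h)

theorem Deg.genC (dg : Deg g hP w) : IsGen ℝ (range g.C) (pb (sl (-2)) dg.h) :=
  dg.gen.slice_low dg.ann (by norm_num)

theorem Deg.genD (dg : Deg g hP w) : IsGen ℝ (range g.D) (pb (sl 3) dg.h) :=
  dg.gen.slice_high dg.ann (by norm_num)

theorem Deg.pieces (dg : Deg g hP w) (hg : IsCocA hP (range P)ᶜ) (hw : IsHolA hP (fib 0) w)
    (hz : RootsP w r s ζ) {n : ℕ} {i : Fin 2} (ha : Acyc (zt (tq F (ζ i) n) hP) 2 (range P)ᶜ) :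
    Acyc (zt (tq F (ζ i) n) hP) 2 g.So ∧ Acyc (zt (tq F (ζ i) n) hP) 2 g.Mid ∧
      ∀ j, Acyc (zt (tq F (ζ i) n) hP) 2 (range P ∪ eta (g.xi j))ᶜ :=
  g.acyc_pieces hg (fun x hx => g.fibP hg hw x hx) dg.fibqP (bij_w hz n i)
    (bij_eps hz n i dg.hε) ha

theorem Deg.sideC (dg : Deg g hP w) (hg : IsCocA hP (range P)ᶜ) (hw : IsHolA hP (fib 0) w)
    (hz : RootsP w r s ζ) {n : ℕ} {i : Fin 2} (ha : Acyc (zt (tq F (ζ i) n) hP) 2 (range P)ᶜ) :
    SideD (g.lk i) w (ζ i : F) n (range g.C)ᶜ (⋃ j, g.shC j) g.pcC (Fin.castLE (by norm_num) i)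
      (pb (sl (-2)) dg.h) (Homeomorph.refl S3) (dg.κ i) := by
  obtain ⟨h1, h2, h3⟩ := g.rad
  have hc := dg.genC.1
  have b := bij_w hz n i
  have other : ∀ j, i ≠ j → Acyc (zt (tq F (ζ i) n) (pb (sl (-2)) dg.h)) 2 (g.Oi j) := by
    intro j hj
    have := acyc_comp (g.lk j) g.rad (sg_cases j) b (comp_acyc g hz n hj) (Homeomorph.refl S3)
      (dg.ret j) (dg.compC j)
    rwa [Homeomorph.refl_apply, image_id] at this
  refine ⟨hc, g.decC, g.cutC (hc.zt _) (fun j => acycC dg hc b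
      ((open_lt _ _).inter (open_gt _ _)) fun x hx => ⟨?_, fun j' e => ?_⟩)
      (acycC dg hc b ((open_n' _).inter (open_n _)) fun x hx => ⟨by linarith [hx.2], fun j e => ?_⟩)
      fun x hx hr => loopAc_zt (dg.fibqC x hx hr) (bij_eps hz n i dg.hε), ?_, ?_,
    ⟨fun _ => Homeomorph.refl S3, continuous_snd, continuous_snd, rfl, rfl⟩, dg.ret i,
    g.Oc_subset_C i, dg.compC i⟩
  · have e := norm_add_le (x - g.xi j) (g.xi j)
    rw [sub_add_cancel, g.norm_xi] at e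
    linarith [hx.2]
  · obtain ⟨a1, a2⟩ := hx
    by_cases hj : j = j'
    · rw [e, hj, sub_self, norm_zero] at a1
      linarith
    · rw [e, xi_far g hj] at a2
      linarith
  · have := hx.1
    rw [e, g.norm_xi] at this
    linarith
  · rw [Homeomorph.refl_apply, image_id]
    fin_cases i <;> rfl
  · intro j hj
    fin_cases j
    · exact other 0 fun e => hj (by rw [e]; rfl)
    · exact other 1 fun e => hj (by rw [e]; rfl)
    · refine ((g.oe_fl.mono g.isOpen_Qo (g.Qo_subset.trans (Mid_sub g))).acyc_iff _ _).1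
        (acycC dg hc b ((open_n _).inter ?_) fun x hx => ⟨by linarith [hx.1], fun j e => ?_⟩)
      · show IsOpen {x : ℂ | ∀ i, 3 * g.ρ < ‖x - g.xi i‖}
        rw [ofPred_forall]
        exact isOpen_iInter_of_finite fun j => open_lt _ _
      · have := hx.2 j
        rw [e, sub_self, norm_zero] at this
        linarith
    · refine ((g.oe_fl.mono g.isOpen_So (g.So_subset.trans (Mid_sub g))).acyc_iff _ _).1 ?_
      exact Acyc.zt_cohA _ (h' := pb g.fl (pb (sl (-2)) dg.h)) (by norm_num)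
        (dg.midC.mono g.So_subset).symm (dg.pieces hg hw hz ha).1

theorem Deg.sideD (dg : Deg g hP w) (hg : IsCocA hP (range P)ᶜ) (hw : IsHolA hP (fib 0) w)
    (hz : RootsP w r s ζ) {n : ℕ} {i : Fin 2} (ha : Acyc (zt (tq F (ζ i) n) hP) 2 (range P)ᶜ) :
    SideD (g.lk i) w (ζ i : F) n (range g.D)ᶜ (⋃ j, g.shD j) g.pcD (Fin.castLE (by norm_num) i)
      (pb (sl 3) dg.h) (g.Ψ i) (dg.κ i) := by
  have hc := dg.genD.1
  have b := bij_w hz n i
  have other : ∀ j, i ≠ j →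
      Acyc (zt (tq F (ζ i) n) (pb (sl 3) dg.h)) 2 (g.Ψ j '' g.Oi j) := fun j hj =>
    acyc_comp (g.lk j) g.rad (sg_cases j) b (comp_acyc g hz n hj) (g.Ψ j) (dg.ret j) (dg.compD j)
  refine ⟨hc, g.decD, g.cutD (hc.zt _) (fun j => acycD dg hc b j)
      fun x hx hr => loopAc_zt (dg.fibqD x hx hr) (bij_eps hz n i dg.hε), ?_, ?_,
    g.isot_Ψ i, dg.ret i, g.Ψ_maps i, dg.compD i⟩
  · fin_cases i <;> rfl
  · intro j hj
    fin_cases j
    · exact other 0 fun e => hj (by rw [e]; rfl)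
    · exact other 1 fun e => hj (by rw [e]; rfl)
    · exact acycS dg (dg.pieces hg hw hz ha).1 0
    · exact acycS dg (dg.pieces hg hw hz ha).1 1

end Pool.Agent.HH
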