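import Pool.Agent.P.MP_c8dc46_gt.St1a
import Pool.Agent.P.MP_c8dc46_gt.St1b
import Pool.Agent.P.MP_c8dc46_gt.LagE

/-!
The first stage.
-/

open Set Topology

namespace Pool.Agent.HH

theorem stage1 {F : Type} [Field F] [StarRing F] {r s : Fin 2 → ℕ} {P : ℝ → S3} {g : Geo r s P}
    {hP : S3 → S3 → ℤ} {w : ℤ} {ζ : Fin 2 → Fˣ} (dg : Deg g hP w) (hg : IsCocA hP (range P)ᶜ)
    (hw : IsHolA hP (fib 0) w) (hz : RootsP w r s ζ) : ∃ n₀ : ℕ, ∀ n, n₀ ≤ n → 0 < n →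
      ∀ i, Acyc (zt (tq F (ζ i) n) hP) 2 (range P)ᶜ → ∀ (aS bS : S3 → S3 → F) (c₀ : F),
        KCoc (g.lk i) (ζ i ^ w) aS bS c₀ →
          c₀ ≠ 0 ∧ ∃ (y : List Y4 → Aq F (ζ i) n) (N₀ : F), St1 dg i (ζ i : F) n aS y N₀ := by
  have hC : IsKnot g.C := g.knotC
  obtain ⟨m₁, t₁⟩ := tk_stage1 F (dg.ann.base hC g.knotD dg.gen)
  obtain ⟨m₂, t₂⟩ := tk_stage1 F (hC.base dg.genC)
  refine ⟨max m₁ m₂, fun n hn hn0 i ha aS bS c₀ hk => ?_⟩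
  have hp : CP F 1 n (ζ i : F) := ⟨one_pos, hn0, hz.unit i, hz.two⟩
  have hξ : ((ζ i ^ w : Fˣ) : F) = (ζ i : F) ^ w := Units.val_zpow_eq_zpow_val _ _
  have hσ : sg i = 1 ∨ sg i = -1 := by
    unfold sg
    split_ifs
    · exact Or.inr rfl
    · exact Or.inl rfl
  have hrs : (ζ i : F) ^ (w * (r i * s i)) = 1 := by
    rw [mul_comm, zpow_mul, ← Nat.cast_mul, zpow_natCast, ← Units.val_pow_eq_pow_val, hz.ord i,
      Units.val_one, one_zpow]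
  have b₁ := tq_bij (ζ i).ne_zero n (j := 1) (by rw [zpow_one]; exact hz.n1 i)
  have b₂ := tq_bij (ζ i).ne_zero n (j := -1) (by
    rw [zpow_neg_one, Ne, inv_eq_one]; exact hz.n1 i)
  have mer : ∀ {A : Set Y4} {h : Y4 → Y4 → ℤ}, IsGen (ℝ × ℝ) A h →
      MerAc (ℝ × ℝ) univ A ((cf1 hp).br (zt (sh F F) h)) := fun {A h} hh => by
    change MerAc _ _ _ (bar (Tm F F 1 (ζ i : F)) n (zt (sh F F) h))
    rw [bar_zt]
    exact merAc_zt hh b₁ b₂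
  have L : LagD (cf1 hp) g.C g.D dg.A (zt (sh F F) dg.h) (-1) 2 :=
    ⟨dg.ann, compatT_zt hp _, dg.gen.1.zt _, by norm_num, by norm_num,
      fun p q => congrArg (shp F F) (dg.ti p q), mer dg.gen,
      (t₁ _ n (le_of_max_le_left hn) _).1, (t₁ _ n (le_of_max_le_left hn) _).2⟩
  have nd : (cf1 hp).Nondeg (zt (sh F F) (pb (sl (-2)) dg.h)) (range g.C)ᶜ :=
    nondeg_knot hC (compatT_zt hp _) (dg.genC.1.zt _) (mer (dg.genC.prod hC))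
      (t₂ _ n (le_of_max_le_right hn) _).1 (t₂ _ n (le_of_max_le_right hn) _).2
  obtain ⟨φ₁, l₁, A₁, B₁, ⟨a, ha₁, ha₂⟩, hl⟩ := side_class g.rad hσ hk hp hξ (hz.nw i) (hz.nr i i)
    (hz.ns i i) hrs (hz.char i) (dg.sideC hg hw hz ha)
  obtain ⟨φ₂, l₂, A₂, B₂, -⟩ := side_class g.rad hσ hk hp hξ (hz.nw i) (hz.nr i i)
    (hz.ns i i) hrs (hz.char i) (dg.sideD hg hw hz ha)
  replace hl := hl nd
  refine ⟨hk.c0_ne g.rad hσ hp hξ hl, ?_⟩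
  have e₁ : (-1 : ℝ) - 1 = -2 := by norm_num
  have e₂ : (2 : ℝ) + 1 = 3 := by norm_num
  obtain ⟨y, hy, hne⟩ := L.survive (a := a) (by rw [e₁]; exact ha₁)
    (by rw [e₁]; exact ha₂.trans_ne hl)
  have s₁ := L.end_low.slice_mem (cf := cf1 hp) (sub_one_lt (-1 : ℝ)) hy
  have s₂ := L.end_high.slice_mem (cf := cf1 hp) (lt_add_one (2 : ℝ)) hy
  have iso := L.iso hy hy
  rw [e₁] at s₁ hne iso
  rw [e₂] at s₂ hne iso
  obtain ⟨κ₁, k₁⟩ := A₁ _ s₁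
  obtain ⟨κ₂, k₂⟩ := A₂ _ s₂
  have hκ : κ₂ * star κ₂ = κ₁ * star κ₁ :=
    mul_right_cancel₀ hl (((B₂ _ s₂ _ s₂ _ _ k₂ k₂).symm.trans iso.symm).trans
      (B₁ _ s₁ _ s₁ _ _ k₁ k₁))
  have z : ∀ {κ : F}, κ * star κ = 0 → star κ = 0 := fun {κ} h =>
    (mul_eq_zero.1 h).elim (fun h => by rw [h, star_zero]) id
  refine ⟨cm (pk (Tm F F 1 (ζ i : F)) n) y, κ₁ * star κ₁, fun h0 => hne ⟨fun c hc => ?_,
    fun c hc => ?_⟩, ?_, ⟨φ₁, l₁, κ₁, rfl, k₁⟩, ⟨φ₂, l₂, κ₂, hκ, k₂⟩⟩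
  · obtain ⟨κ, k⟩ := A₁ c hc
    exact (B₁ _ hc _ s₁ _ _ k k₁).trans (by rw [z h0, mul_zero, zero_mul])
  · obtain ⟨κ, k⟩ := A₂ c hc
    exact (B₂ _ hc _ s₂ _ _ k k₂).trans (by rw [z (hκ.trans h0), mul_zero, zero_mul])
  · have := N_mono (subset_univ (rng dg.A)ᶜ) hy.1
    rw [(cf1 hp).red_dT L.cmp] at this
    rw [← bar_zt]
    exact this

end Pool.Agent.HH
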