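import Pool.Agent.P.MP_c8dc46_gt.NFU
import Pool.Agent.P.MP_c8dc46_gt.GDefs

/-!
Normal forms of `Gam` valued cocycles. A gauge transformation by `(φ x, ψ x, 0)` normalises the
components `k` and `a`; the remaining component `b` is a cocycle of a unipotent system.
-/

open Set Topology

namespace Pool.Agent.HH

section

variable {F A B : Type} [Field F] [StarRing F] [AddCommGroup A] [Module F A] [AddCommGroup B]
  [Module F B] {D : HD F A B} {Y : Type} [TopologicalSpace Y]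

namespace RNFM

omit [StarRing F] in
theorem zpow_apply (L : (Module.End F A)ˣ) (i j : ℤ) (e : A) :
    (L ^ i).1 ((L ^ j).1 e) = (L ^ (i + j)).1 e := by
  rw [zpow_add, Units.val_mul, Module.End.mul_apply]

omit [StarRing F] in
theorem zpow_eigen (L : (Module.End F A)ˣ) {e : A} {c : F} (hc : c ≠ 0) (h : L.1 e = c • e)
    (k : ℤ) : (L ^ k).1 e = c ^ k • e := by
  induction k using Int.induction_on with
  | zero => simp
  | succ k ih =>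
    rw [← zpow_apply, zpow_one, h, map_smul, ih, smul_smul, zpow_add_one₀ hc, mul_comm]
  | pred k ih =>
    have h1 : (L ^ (-(k : ℤ) - 1)).1 (L.1 e) = (L ^ (-(k : ℤ))).1 e := by
      have h2 := zpow_apply L (-(k : ℤ) - 1) 1 e
      rwa [zpow_one, sub_add_cancel] at h2
    rw [h, map_smul, ih] at h1
    rw [zpow_sub_one₀ hc, mul_comm, ← smul_smul, ← h1, smul_smul, inv_mul_cancel₀ hc, one_smul]

/-- The component `a`, after the change of gauge of `k`, is closed. -/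
theorem closed_a {f : Y → Y → Gam D} {S : Set Y} (hf : IsCoc f S) {k₀ : Y → Y → ℤ} {φ : Y → ℤ}
    (hφ : LocEq (fun x y => (f x y).k - k₀ x y) (fun x y => φ y - φ x) S) :
    ∀ p ∈ S, ∃ U ∈ 𝓝 p, ∀ x ∈ U, ∀ y ∈ U, ∀ z ∈ U, (D.t ^ k₀ x y).1 ((D.t ^ φ y).1 (f y z).a) -
      (D.t ^ φ x).1 (f x z).a + (D.t ^ φ x).1 (f x y).a = 0 := by
  intro p hp
  obtain ⟨U, hU, h1⟩ := hf p hp
  obtain ⟨V, hV, h2⟩ := hφ p hp
  refine ⟨U ∩ V, Filter.inter_mem hU hV, fun x hx y hy z hz => ?_⟩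
  have h3 : (f x y).k - k₀ x y = φ y - φ x := h2 x hx.2 y hy.2
  rw [← (h1 x hx.1).2 y hy.1 z hz.1, Gam.mul_a, map_add, zpow_apply, zpow_apply,
    show k₀ x y + φ y = φ x + (f x y).k by omega]
  abel

/-- Normalisation of the components `k` and `a`. -/
theorem gauge_ka {f : Y → Y → Gam D} {S : Set Y} {k₀ : Y → Y → ℤ} {φ : Y → ℤ}
    (hφ : LocEq (fun x y => (f x y).k - k₀ x y) (fun x y => φ y - φ x) S) {a₀ : Y → Y → A}
    {ψ : Y → A} (hψ : LocEq (fun x y => (D.t ^ φ x).1 (f x y).a - a₀ x y)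
      (fun x y => (D.t ^ k₀ x y).1 (ψ y) - ψ x) S) :
    ∃ f' : Y → Y → Gam D, Gauge f f' S ∧ LocEq (fun x y => (f' x y).k) k₀ S ∧
      LocEq (fun x y => (f' x y).a) a₀ S := by
  refine ⟨fun x y => ⟨φ x, ψ x, 0⟩ * f x y * (⟨φ y, ψ y, 0⟩ : Gam D)⁻¹,
    ⟨fun x => ⟨φ x, ψ x, 0⟩, fun p _ => ⟨univ, Filter.univ_mem, fun _ _ _ _ => rfl⟩⟩,
    fun p hp => ?_, fun p hp => ?_⟩
  · obtain ⟨V, hV, h2⟩ := hφ p hp
    refine ⟨V, hV, fun x hx y hy => ?_⟩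
    have h3 : (f x y).k - k₀ x y = φ y - φ x := h2 x hx y hy
    simp only [Gam.mul_k, Gam.inv_k]
    omega
  · obtain ⟨U, hU, h1⟩ := hψ p hp
    obtain ⟨V, hV, h2⟩ := hφ p hp
    refine ⟨U ∩ V, Filter.inter_mem hU hV, fun x hx y hy => ?_⟩
    have h3 : (f x y).k - k₀ x y = φ y - φ x := h2 x hx.2 y hy.2
    have h4 : (D.t ^ φ x).1 (f x y).a - a₀ x y = (D.t ^ k₀ x y).1 (ψ y) - ψ x :=
      h1 x hx.1 y hy.1
    simp only [Gam.mul_k, Gam.mul_a, Gam.inv_a, map_neg, zpow_apply]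
    rw [show φ x + (f x y).k + -φ y = k₀ x y by omega, sub_eq_iff_eq_add.1 h4]
    abel

/-- Normalisation of the component `b`. -/
theorem core [FiniteDimensional F B] (hu : IsNilpotent (D.tB.1 - 1)) {f : Y → Y → Gam D}
    {S : Set Y} (hf : IsCoc f S) {w : ℤ} {θ : Y → Y → ℤ} (hθ : IsCocA θ S)
    (hk : LocEq (fun x y => (f x y).k) (fun x y => w * θ x y) S) {a₀ : Y → Y → A}
    (ha : LocEq (fun x y => (f x y).a) a₀ S) {b₀ : Y → Y → B}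
    (hb : ∀ p ∈ S, ∃ U ∈ 𝓝 p, ∀ x ∈ U, ∀ y ∈ U, ∀ z ∈ U, b₀ x z = b₀ x y +
      (D.tB ^ (w * θ x y)).1 (b₀ y z) + D.β (a₀ x y) ((D.t ^ (w * θ x y)).1 (a₀ y z)))
    {ι : Type} {γ : ι → ℝ → Y} (hγ : ∀ j, IsLoop (γ j) S) (h0 : ∀ j, IsHolA θ (γ j) 0)
    (hl : ∀ j, ExL (zt (D.tB ^ w) θ) (c1 fun x y => (f x y).b - b₀ x y) (γ j))
    (hc : ∀ x : Y → Y → F, IsCocA x S → (∀ j, IsHolA x (γ j) 0) →
      ∃ c : F, CohA x (fun p q => θ p q • c) S) :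
    ∃ c : B, Gauge f
      (fun x y => ⟨w * θ x y, a₀ x y, b₀ x y + gs (D.tB ^ w) c (θ x y)⟩) S := by
  have hd : dT (zt (D.tB ^ w) θ) (c1 fun x y => (f x y).b - b₀ x y) ∈ N F B 3 S := by
    refine mem_N_three.2 fun p hp => ?_
    obtain ⟨U₁, hU₁, h1⟩ := hf p hp
    obtain ⟨U₂, hU₂, h2⟩ := hk p hp
    obtain ⟨U₃, hU₃, h3⟩ := ha p hp
    obtain ⟨U₄, hU₄, h4⟩ := hb p hp
    refine ⟨(U₁ ∩ U₂) ∩ (U₃ ∩ U₄), Filter.inter_mem (Filter.inter_mem hU₁ hU₂)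
      (Filter.inter_mem hU₃ hU₄), fun x hx y hy z hz => ?_⟩
    have e1 : (f x y).k = w * θ x y := h2 x hx.1.2 y hy.1.2
    have e2 : (f x y).a = a₀ x y := h3 x hx.2.1 y hy.2.1
    have e3 : (f y z).a = a₀ y z := h3 y hy.2.1 z hz.2.1
    rw [dT_three]
    simp only [c1, zt, ← zpow_mul]
    rw [← (h1 x hx.1.1).2 y hy.1.1 z hz.1.1, Gam.mul_b, e1, e2, e3,
      h4 x hx.2.2 y hy.2.2 z hz.2.2, map_sub]
    abel
  obtain ⟨c, χ, hχ⟩ := unip_class (D.tB ^ w) (isNilpotent_zpow_sub_one _ hu w) hθ hγ h0 hc hd hl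
  refine ⟨c, fun x => ⟨0, 0, χ [x]⟩, fun p hp => ?_⟩
  obtain ⟨U₁, hU₁, h1⟩ := mem_N_two.1 hχ p hp
  obtain ⟨U₂, hU₂, h2⟩ := hk p hp
  obtain ⟨U₃, hU₃, h3⟩ := ha p hp
  refine ⟨U₁ ∩ (U₂ ∩ U₃), Filter.inter_mem hU₁ (Filter.inter_mem hU₂ hU₃), fun x hx y hy => ?_⟩
  have e1 : (f x y).k = w * θ x y := h2 x hx.2.1 y hy.2.1
  have e2 : (f x y).a = a₀ x y := h3 x hx.2.2 y hy.2.2
  have e3 := h1 x hx.1 y hy.1
  simp only [Pi.sub_apply, dT_two, c1, zt, ← zpow_mul] at e3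
  refine Gam.ext ?_ ?_ ?_
  · simp [e1]
  · simp [e2]
  · simp only [Gam.mul_k, Gam.mul_a, Gam.mul_b, Gam.inv_a, Gam.inv_b, e1, map_zero, neg_zero,
      zpow_zero, Units.val_one, Module.End.one_apply, add_zero, zero_add, map_neg,
      LinearMap.zero_apply]
    rw [← sub_eq_zero, ← e3]
    abel

theorem coc_central {Γ : Type} [Group Γ] {f : Y → Y → Γ} {S : Set Y} (hf : IsCoc f S) {c : Γ}
    (hc : c ∈ Subgroup.center Γ) {θ : Y → Y → ℤ} (hθ : IsCocA θ S) :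
    IsCoc (fun x y => f x y * c ^ θ x y) S := by
  intro p hp
  obtain ⟨U, hU, h1⟩ := hf p hp
  obtain ⟨V, hV, h2⟩ := hθ.zpow c p hp
  refine ⟨U ∩ V, Filter.inter_mem hU hV, fun x hx => ⟨?_, fun y hy z hz => ?_⟩⟩
  · have h3 : c ^ θ x x = 1 := (h2 x hx.2).1
    beta_reduce
    rw [(h1 x hx.1).1, h3, one_mul]
  · have h3 : c ^ θ x y * c ^ θ y z = c ^ θ x z := (h2 x hx.2).2 y hy.2 z hz.2
    have h4 := Subgroup.mem_center_iff.1 (Subgroup.zpow_mem _ hc (θ x y)) (f y z)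
    beta_reduce
    rw [← (h1 x hx.1).2 y hy.1 z hz.1, ← h3, mul_assoc, ← mul_assoc (c ^ θ x y), ← h4]
    simp only [mul_assoc]

theorem gauge_central {Γ : Type} [Group Γ] {f f' : Y → Y → Γ} {S : Set Y} (hf : Gauge f f' S)
    {c : Γ} (hc : c ∈ Subgroup.center Γ) (θ : Y → Y → ℤ) :
    Gauge (fun x y => f x y * c ^ θ x y) (fun x y => f' x y * c ^ θ x y) S := by
  obtain ⟨g, hg⟩ := hf
  refine ⟨g, fun p hp => ?_⟩
  obtain ⟨U, hU, h1⟩ := hg p hp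
  refine ⟨U, hU, fun x hx y hy => ?_⟩
  have h3 : g x * f x y * (g y)⁻¹ = f' x y := h1 x hx y hy
  have h4 := Subgroup.mem_center_iff.1 (Subgroup.zpow_mem _ hc (θ x y)) (g y)⁻¹
  beta_reduce
  rw [← h3, mul_assoc (g x * f x y), h4]
  simp only [mul_assoc]

theorem neg_coc {θ : Y → Y → ℤ} {S : Set Y} (hθ : IsCocA θ S) : IsCocA (fun x y => -θ x y) S := by
  intro p hp
  obtain ⟨U, hU, h1⟩ := hθ p hp
  refine ⟨U, hU, fun x hx y hy z hz => ?_⟩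
  beta_reduce
  rw [← h1 x hx y hy z hz, neg_add]

end RNFM

theorem nf_zero [FiniteDimensional F B] (hu : IsNilpotent (D.tB.1 - 1)) {f : Y → Y → Gam D}
    {S : Set Y} (hf : IsCoc f S) {w : ℤ} {θ : Y → Y → ℤ} (hθ : IsCocA θ S)
    (hk : LocEq (fun x y => (f x y).k) (fun x y => w * θ x y) S)
    (ha : LocEq (fun x y => (f x y).a) (fun _ _ => 0) S) {ι : Type} {γ : ι → ℝ → Y}
    (hγ : ∀ j, IsLoop (γ j) S) (h0 : ∀ j, IsHolA θ (γ j) 0) (h1 : ∀ j, IsHol f (γ j) 1)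
    (hc : ∀ x : Y → Y → F, IsCocA x S → (∀ j, IsHolA x (γ j) 0) →
      ∃ c : F, CohA x (fun p q => θ p q • c) S) :
    ∃ g : Gam D, g.k = w ∧ g.a = 0 ∧ Gauge f (fun x y => g ^ θ x y) S := by
  have hl : ∀ j, ExL (zt (D.tB ^ w) θ) (c1 fun x y => (f x y).b - 0) (γ j) := by
    intro j
    obtain ⟨u, u0, u1, u2⟩ := RHol.hol_group.1 (h1 j)
    have ua : ∀ s, (u s).a = 0 := by
      intro s
      have h2 : (u s).a = (u 0).a := by
        refine RHol.loc_const (φ := fun s => (u s).a) isPreconnected_univ (fun p _ => ?_)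
          (mem_univ s) (mem_univ 0)
        obtain ⟨U, hU, h3⟩ := u1 p
        obtain ⟨V, hV, h4⟩ := RHol.loc_loop ha (hγ j) p
        filter_upwards [hU, hV] with x hx hx'
        have h5 : (f (γ j p) (γ j x)).a = 0 := h4 p (mem_of_mem_nhds hV) x hx'
        have h6 : u x = u p * f (γ j p) (γ j x) := by
          rw [h3 p (mem_of_mem_nhds hU) x hx, mul_inv_cancel_left]
        rw [h6, Gam.mul_a, h5, map_zero, add_zero]
      rw [h2, u0, Gam.one_a]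
    refine ⟨fun s => -((u s)⁻¹).b, fun s => by simp only [u2, one_mul], fun s => ?_⟩
    obtain ⟨U, hU, h3⟩ := u1 s
    obtain ⟨V, hV, h4⟩ := RHol.loc_loop hk (hγ j) s
    refine ⟨U ∩ V, Filter.inter_mem hU hV, fun x hx y hy => ?_⟩
    have h5 : (f (γ j x) (γ j y)).k = w * θ (γ j x) (γ j y) := h4 x hx.2 y hy.2
    have h6 : (u x)⁻¹ = f (γ j x) (γ j y) * (u y)⁻¹ := by
      rw [h3 x hx.1 y hy.1, mul_inv_cancel_right]
    simp only [c1, zt, ← zpow_mul]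
    rw [h6, Gam.mul_b, h5, Gam.inv_a, ua y]
    simp only [map_zero, neg_zero, map_neg]
    abel
  obtain ⟨c, hg⟩ := RNFM.core hu hf hθ hk ha (b₀ := fun _ _ => 0)
    (fun p _ => ⟨univ, Filter.univ_mem, fun _ _ _ _ _ _ => by simp⟩) hγ h0 hl hc
  refine ⟨⟨w, 0, c⟩, rfl, rfl, ?_⟩
  simpa only [Gam.zpow_eq, zero_add] using hg

theorem nf_mid [FiniteDimensional F B] (hu : IsNilpotent (D.tB.1 - 1)) {f : Y → Y → Gam D}
    {S : Set Y} (hf : IsCoc f S) {h θ₀ θ₁ : Y → Y → ℤ} (hh : IsCocA h S) (h₀ : IsCocA θ₀ S)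
    (h₁ : IsCocA θ₁ S) (hk : CohA (fun x y => (f x y).k) h S) (ha : Acyc (zt D.t h) 2 S)
    {b₀ b₁ : B} (hb₀ : D.tB.1 b₀ = b₀) (hb₁ : D.tB.1 b₁ = b₁) {ι : Type} {γ : ι → ℝ → Y}
    {m n : ι → ℤ} (hγ : ∀ j, IsLoop (γ j) S) (l : ∀ j, IsHolA h (γ j) 0)
    (l₀ : ∀ j, IsHolA θ₀ (γ j) (m j)) (l₁ : ∀ j, IsHolA θ₁ (γ j) (n j))
    (lf : ∀ j, IsHol f (γ j) (Gam.cen D b₀ ^ m j * Gam.cen D b₁ ^ n j))
    (hc : ∀ x : Y → Y → F, IsCocA x S → (∀ j, IsHolA x (γ j) 0) →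
      ∃ c : F, CohA x (fun p q => h p q • c) S) :
    ∃ g : Gam D, g.k = 1 ∧
      Gauge f (fun x y => g ^ h x y * Gam.cen D b₀ ^ θ₀ x y * Gam.cen D b₁ ^ θ₁ x y) S := by
  have z₀ := Gam.cen_mem_center hb₀
  have z₁ := Gam.cen_mem_center hb₁
  obtain ⟨φ, hφ⟩ := hk
  obtain ⟨ψ, hψ⟩ := ha (c1 fun x y => (D.t ^ φ x).1 (f x y).a) (mem_N_three.2 fun p hp => by
    obtain ⟨U, hU, h2⟩ := RNFM.closed_a hf hφ p hp
    exact ⟨U, hU, fun x hx y hy z hz => by rw [dT_three]; exact h2 x hx y hy z hz⟩)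
  obtain ⟨f', hg, hk', ha'⟩ := RNFM.gauge_ka hφ (a₀ := fun _ _ => 0) (ψ := fun x => ψ [x])
    (fun p hp => by
      obtain ⟨U, hU, h2⟩ := mem_N_two.1 hψ p hp
      refine ⟨U, hU, fun x hx y hy => ?_⟩
      have h3 := h2 x hx y hy
      rw [Pi.sub_apply, dT_two, sub_eq_zero] at h3
      exact (sub_zero _).trans h3)
  have e₀ : ∀ (b : B) (x : Gam D) (j : ℤ), (x * Gam.cen D b ^ j).k = x.k ∧
      (x * Gam.cen D b ^ j).a = x.a := by
    intro b x j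
    rw [Gam.mul_k, Gam.mul_a, Gam.k_zpow, Gam.a_zpow rfl]
    simp [Gam.cen]
  obtain ⟨g, g1, -, g2⟩ := nf_zero (w := 1) hu (RNFM.coc_central (RNFM.coc_central (hg.isCoc hf)
    z₁ (RNFM.neg_coc h₁)) z₀ (RNFM.neg_coc h₀)) hh
    (by simpa only [e₀, one_mul] using hk') (by simpa only [e₀] using ha') hγ l (fun j => by
      obtain ⟨k, h2⟩ := (lf j).gauge hg (hγ j)
      have h3 := (h2.mul_central z₁ (l₁ j).neg).mul_central z₀ (l₀ j).neg
      rw [Subgroup.mem_center_iff.1 (Subgroup.mul_mem _ (Subgroup.zpow_mem _ z₀ _)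
        (Subgroup.zpow_mem _ z₁ _)) k] at h3
      simpa using h3) hc
  refine ⟨g, g1, hg.trans ?_⟩
  simpa using RNFM.gauge_central (RNFM.gauge_central g2 z₀ θ₀) z₁ θ₁

end

variable {F B : Type} [Field F] [StarRing F] [AddCommGroup B] [Module F B] {ζ : Fin 2 → F} {n : ℕ}

/-- The element `β (s i) (s i)`. -/
noncomputable def sigB (D : HD F (Api F ζ n) B) (i : Fin 2) : B :=
  D.β (socP F ζ n i) (socP F ζ n i)

/-- The degree zero part of the normal form on a companion. -/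
noncomputable def nfK (D : HD F (Api F ζ n) B) (i : Fin 2) (κ : F) (aS bS : S3 → S3 → F)
    (x y : S3) : Gam D := ⟨0, (κ * aS x y) • socP F ζ n i, (κ * star κ * bS x y) • sigB D i⟩

theorem nf_comp {ℓ : ℕ} {w : ℤ} {D : HD F (Api F ζ n) B} (hD : HDP ℓ w ζ n D) (hn : 0 < n)
    {i : Fin 2} {ξ : Fˣ} (hξ : (ξ : F) = ζ i ^ w) (hζ : ζ i ≠ 0) {S : Set S3} {θ : S3 → S3 → ℤ}
    (hθ : IsCocA θ S) {aS bS : S3 → S3 → F} (ha : dT (zs ξ θ) (c1 aS) ∈ N F F 3 S)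
    (hb : ∀ p ∈ S, ∃ U ∈ 𝓝 p, ∀ x ∈ U, ∀ y ∈ U, ∀ z ∈ U,
      bS x z = bS x y + bS y z + aS x y * star (((ξ ^ θ x y : Fˣ) : F) * aS y z))
    (hc : ∀ x : S3 → S3 → F, IsCocA x S → ∃ c : F, CohA x (fun p q => θ p q • c) S)
    {f : S3 → S3 → Gam D} (hf : IsCoc f S) {N₀ : F}
    (hi : CompCl (tq F (ζ i) n) S (fun x y => (f x y).k) (fun x y => w * θ x y)
      (c1 fun x y => (f x y).a i)
      (cm (LinearMap.toSpanSingleton F _ (soc F (ζ i) n)) (c1 aS)) N₀)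
    (hj : ∀ j, j ≠ i → Acyc (zt (tq F (ζ j) n) fun x y => w * θ x y) 2 S) :
    ∃ (κ : F) (g : Gam D), κ * star κ = N₀ ∧ g.k = w ∧ g.a = 0 ∧
      Gauge f (fun x y => nfK D i κ aS bS x y * g ^ θ x y) S := by
  have _ := ha
  have := hD.fin
  obtain ⟨φ, hφ, κ, hκ, ψ₀, hψ₀⟩ := hi
  have h1 : ∀ j, ∃ ψ : List S3 → Aq F (ζ j) n, ∀ p ∈ S, ∃ U ∈ 𝓝 p, ∀ x ∈ U, ∀ y ∈ U,
      (tq F (ζ j) n ^ φ x).1 ((f x y).a j) - ((κ * aS x y) • socP F ζ n i) j =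
        (tq F (ζ j) n ^ (w * θ x y)).1 (ψ [y]) - ψ [x] := by
    intro j
    by_cases hji : j = i
    · subst hji
      refine ⟨ψ₀, fun p hp => ?_⟩
      obtain ⟨U, hU, h2⟩ := mem_N_two.1 hψ₀ p hp
      refine ⟨U, hU, fun x hx y hy => ?_⟩
      have h3 := h2 x hx y hy
      rw [Pi.sub_apply, dT_two, sub_eq_zero] at h3
      rw [Pi.smul_apply, socP, Pi.single_eq_same, ← smul_smul]
      exact h3
    · obtain ⟨ψ, hψ⟩ := hj j hji (c1 fun x y => (tq F (ζ j) n ^ φ x).1 ((f x y).a j))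
        (mem_N_three.2 fun p hp => by
          obtain ⟨U, hU, h2⟩ := RNFM.closed_a hf hφ p hp
          refine ⟨U, hU, fun x hx y hy z hz => ?_⟩
          have h3 := congrFun (h2 x hx y hy z hz) j
          simp only [Pi.add_apply, Pi.sub_apply, hD.t] at h3
          rw [dT_three]
          exact h3)
      refine ⟨ψ, fun p hp => ?_⟩
      obtain ⟨U, hU, h2⟩ := mem_N_two.1 hψ p hp
      refine ⟨U, hU, fun x hx y hy => ?_⟩
      have h3 := h2 x hx y hy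
      rw [Pi.sub_apply, dT_two, sub_eq_zero] at h3
      rw [Pi.smul_apply, socP, Pi.single_eq_of_ne hji, smul_zero, sub_zero]
      exact h3
  choose ψ hψ using h1
  obtain ⟨f', hg, hk', ha'⟩ := RNFM.gauge_ka hφ (a₀ := fun x y => (κ * aS x y) • socP F ζ n i)
    (ψ := fun x j => ψ j [x]) (fun p hp => by
      choose U hU h2 using fun j => hψ j p hp
      refine ⟨⋂ j, U j, Filter.iInter_mem.2 hU, fun x hx y hy => funext fun j => ?_⟩
      simp only [Pi.sub_apply, hD.t]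
      exact h2 j x (mem_iInter.1 hx j) y (mem_iInter.1 hy j))
  have e1 : ∀ k : ℤ, (D.tB ^ k).1 (sigB D i) = sigB D i := fun k => by
    simpa [sigB] using RNFM.zpow_eigen D.tB one_ne_zero ((hD.fix i).trans (one_smul F _).symm) k
  have e2 : ∀ k : ℤ, (D.t ^ (w * k)).1 (socP F ζ n i) = ((ξ ^ k : Fˣ) : F) • socP F ζ n i := by
    intro k
    funext j
    rw [hD.t, Pi.smul_apply, socP]
    by_cases hji : j = i
    · subst hji
      rw [Pi.single_eq_same, RNFM.zpow_eigen _ hζ (tq_soc _ hn), Units.val_zpow_eq_zpow_val, hξ,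
        zpow_mul]
    · rw [Pi.single_eq_of_ne hji, map_zero, smul_zero]
  obtain ⟨c, hc'⟩ := RNFM.core hD.unip (hg.isCoc hf) hθ hk' ha'
    (b₀ := fun x y => (κ * star κ * bS x y) • sigB D i) (fun p hp => by
      obtain ⟨U, hU, h2⟩ := hb p hp
      refine ⟨U, hU, fun x hx y hy z hz => ?_⟩
      simp only [map_smul, map_smulₛₗ, e1, e2, LinearMap.smul_apply, starRingEnd_apply]
      rw [h2 x hx y hy z hz, ← sigB, smul_smul, smul_smul, ← add_smul, ← add_smul]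
      simp only [star_mul']
      ring_nf)
    (ι := Empty) (γ := fun j => j.elim) (fun j => j.elim) (fun j => j.elim) (fun j => j.elim)
    (fun x hx _ => hc x hx)
  refine ⟨κ, ⟨w, 0, c⟩, hκ, rfl, rfl, hg.trans ?_⟩
  have e3 : (fun x y => nfK D i κ aS bS x y * (⟨w, 0, c⟩ : Gam D) ^ θ x y) = fun x y =>
      ⟨w * θ x y, (κ * aS x y) • socP F ζ n i,
        (κ * star κ * bS x y) • sigB D i + gs (D.tB ^ w) c (θ x y)⟩ := by
    funext x y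
    rw [Gam.zpow_eq]
    refine Gam.ext ?_ ?_ ?_ <;> simp [nfK]
  rw [e3]
  exact hc'

theorem hol_nfK {ℓ : ℕ} {w : ℤ} {D : HD F (Api F ζ n) B} (hD : HDP ℓ w ζ n D) (i : Fin 2) (κ : F)
    {aS bS : S3 → S3 → F} {θ : S3 → S3 → ℤ} {S : Set S3} {γ : ℝ → S3} (hγ : IsLoop γ S)
    (ha : c1 aS ∈ N F F 2 S) (hθ : IsHolA θ γ 0) {c₀ : F} (hb : IsHolA bS γ c₀) (g : Gam D) :
    IsHol (fun x y => nfK D i κ aS bS x y * g ^ θ x y) γ
      (Gam.cen D ((κ * star κ * c₀) • sigB D i)) := by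
  obtain ⟨kθ, t1, t2⟩ := hθ
  obtain ⟨kb, b1, b2⟩ := hb
  obtain ⟨z, hz⟩ : ∃ z : F → Gam D, ∀ m, z m = Gam.cen D ((κ * star κ * m) • sigB D i) :=
    ⟨_, fun _ => rfl⟩
  have z1 : ∀ m m', z (m + m') = z m * z m' := by
    intro m m'
    rw [hz, hz, hz]
    refine Gam.ext ?_ ?_ ?_ <;> simp [Gam.cen, mul_add, add_smul]
  have z2 : ∀ m x, x * z m = z m * x := by
    intro m
    rw [hz]
    refine Subgroup.mem_center_iff.1 (Gam.cen_mem_center ?_)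
    rw [map_smul]
    exact congrArg _ (hD.fix i)
  have z0 : z 0 = 1 := by
    rw [hz]
    refine Gam.ext ?_ ?_ ?_ <;> simp [Gam.cen]
  have ha' : LocEq aS (fun _ _ => 0) S := mem_N_two.1 ha
  refine RHol.hol_group.2 ⟨fun s => z (kb s - kb 0) * g ^ (kθ s - kθ 0), by simp [z0],
    fun s => ?_, fun s => ?_⟩
  · obtain ⟨U₁, hU₁, h1⟩ := t1 s
    obtain ⟨U₂, hU₂, h2⟩ := b1 s
    obtain ⟨U₃, hU₃, h3⟩ := RHol.loc_loop ha' hγ s
    refine ⟨U₁ ∩ (U₂ ∩ U₃), Filter.inter_mem hU₁ (Filter.inter_mem hU₂ hU₃), fun x hx y hy => ?_⟩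
    have e1 : nfK D i κ aS bS (γ x) (γ y) = z (kb y - kb x) := by
      rw [hz, nfK, h2 x hx.2.1 y hy.2.1, h3 x hx.2.2 y hy.2.2, mul_zero, zero_smul, Gam.cen]
    beta_reduce
    rw [e1, h1 x hx.1 y hy.1, show kb y - kb 0 = kb x - kb 0 + (kb y - kb x) by ring, z1,
      mul_inv_rev, mul_assoc, mul_assoc, inv_mul_cancel_left, ← mul_assoc, z2, mul_assoc,
      ← zpow_neg, ← zpow_add]
    congr 2
    ring
  · beta_reduce
    rw [t2, b2, add_zero, ← hz, ← mul_assoc, ← z1]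
    congr 2
    ring

end Pool.Agent.HH
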