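import Pool.Agent.P.MP_c8dc46_gt.St1b
import Pool.Agent.P.MP_c8dc46_gt.NFM

/-!
The cocycle with values in `Gam` and its normal forms at the two ends of the concordance.
-/

open Set Topology

namespace Pool.Agent.HH

namespace RSt2a

theorem compCl_c1 {F E : Type} [Field F] [StarRing F] [AddCommGroup E] [Module F E]
    {t : (Module.End F E)ˣ} {S : Set S3} {k k₀ : S3 → S3 → ℤ} {a a₀ : List S3 → E} {N₀ : F}
    (h : CompCl t S k k₀ a a₀ N₀) : CompCl t S k k₀ (c1 (f2 a)) a₀ N₀ := by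
  obtain ⟨φ, h1, κ, h2, h3⟩ := h
  refine ⟨φ, h1, κ, h2, ?_⟩
  have h4 := h3.sub (Exa.of_mem_N
    (ga_mem_N (fun x => (t ^ φ x : (Module.End F E)ˣ).1) (sub_c1_f2_mem_N a S)))
  rw [map_sub] at h4
  convert h4 using 1
  abel

theorem clamp_clamp (p : Y4) : clampT (-2) 3 (clampT (-2) 3 p) = clampT (-2) 3 p := by
  refine Prod.ext rfl ?_
  simp only [clampT, max_def, min_def]
  split_ifs <;> linarith

theorem clamp_clamp' (p : Y4) : clampT (-1) 2 (clampT (-2) 3 p) = clampT (-1) 2 p := by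
  refine Prod.ext rfl ?_
  simp only [clampT, max_def, min_def]
  split_ifs <;> linarith

theorem clamp_sl {t : ℝ} (ht : t = -2 ∨ t = 3) (p : S3) : clampT (-2) 3 (sl t p) = sl t p := by
  refine Prod.ext rfl ?_
  rcases ht with rfl | rfl <;> norm_num [clampT, sl]

theorem cont_sl (t : ℝ) (p : S3) : ContinuousAt (sl t) p := by
  unfold sl
  fun_prop

variable {r s : Fin 2 → ℕ} {P : ℝ → S3} (g : Geo r s P)

theorem rad_le (i : Fin 2) : ‖g.xi i‖ + 5 * g.ρ / 2 ≤ 1 := by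
  obtain ⟨-, h1, h2⟩ := g.rad
  rw [g.norm_xi]
  linarith

theorem hol_thx (i j : Fin 2) :
    IsHolA (g.thx i) (lon (g.xi j) (5 * g.ρ / 2)) (if j = i then 1 else 0) := by
  obtain ⟨h0, h1, h2⟩ := g.rad
  have h3 := isHolA_xc_lon (x₁ := g.xi i) (by linarith) (rad_le g j)
  have h4 := g.norm_xi_sub
  split_ifs with h
  · exact h3.1 (by rw [h])
  · refine h3.2 ?_
    have h5 : ‖g.xi i - g.xi j‖ = 2 * g.a := by
      fin_cases i <;> fin_cases j
      · exact absurd rfl h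
      · exact h4
      · exact (norm_sub_rev _ _).trans h4
      · exact absurd rfl h
    linarith

theorem coc_thx (i : Fin 2) : IsCocA (g.thx i) (eta (g.xi i))ᶜ :=
  isCocA_th (fun _ _ => (continuous_xc.sub continuous_const).continuousAt) fun _ hp =>
    sub_ne_zero.2 hp

theorem Mid_sub (i : Fin 2) : g.Mid ⊆ (range P ∪ eta (g.xi i))ᶜ := by
  refine compl_subset_compl.2 (union_subset (fun p hp => Or.inl (Or.inl hp)) fun p hp => ?_)
  fin_cases i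
  · exact Or.inl (Or.inr hp)
  · exact Or.inr hp

theorem loop_lam (i : Fin 2) {S : Set S3}
    (h : (g.lk i).Oc (3 * g.ρ) ∩ (g.lk i).F '' RB {x | 2 * g.ρ < ‖x - (sg i * g.a : ℝ)‖} ⊆ S) :
    IsLoop (g.lk i).lam S :=
  have h1 := (g.lk i).isLoop_lam g.rad (sg_cases i)
  ⟨h1.1, h1.2.1, fun t => h (h1.2.2 t)⟩

theorem loop_lon (i : Fin 2) {S : Set S3} (h : ∀ p ∈ g.Mid, ‖xc p‖ ≤ g.a + 7 * g.ρ → p ∈ S) :
    IsLoop (lon (g.xi i) (5 * g.ρ / 2)) S := by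
  have h1 := g.isLoop_lon_Mid i
  have h2 := g.rad.2.1
  refine ⟨h1.1, h1.2.1, fun t => h _ (h1.2.2 t) ?_⟩
  rw [xc_lon (by linarith) (rad_le g i)]
  refine (norm_add_le _ _).trans ?_
  rw [g.norm_xi, norm_mul, norm_ex, mul_one, Complex.norm_real, Real.norm_of_nonneg (by linarith)]
  linarith

variable {g} {F B : Type} [Field F] [StarRing F] [AddCommGroup B] [Module F B]
  {hP : S3 → S3 → ℤ} {w : ℤ} {ζ : Fin 2 → Fˣ} {ℓ n : ℕ}
  {D : HD F (Api F (fun i => (ζ i : F)) n) B}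

theorem exists_f (hD : HDP ℓ w (fun i => (ζ i : F)) n D) (dg : Deg g hP w)
    {y : ∀ i, List Y4 → Aq F (ζ i) n}
    (hy : ∀ i, dT (zt (tq F (ζ i) n) dg.h) (y i) ∈ N F _ 3 (rng dg.A)ᶜ) :
    ∃ f : Y4 → Y4 → Gam D, IsCoc f (rng dg.A)ᶜ ∧ (∀ p q, (f p q).k = dg.h p q) ∧
      (∀ p q, f p q = f (clampT (-2) 3 p) (clampT (-2) 3 q)) ∧
      ∀ t, t = -2 ∨ t = 3 → ∀ i x x', (f (sl t x) (sl t x')).a i = y i [sl t x, sl t x'] := by
  have := hD.fin
  have hb := dg.ann.base g.knotC g.knotD dg.gen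
  obtain ⟨b, hb⟩ := exists_lift D hb.coc (coc_pi hD hy)
    (acyc_unip D.tB hD.unip hb.coc (hb.h2 F))
  refine ⟨_, hb.pb (fun _ _ => (continuous_clampT (-2) 3).continuousAt)
    (dg.ann.clamp_maps (by norm_num) (by norm_num)), fun p q => ?_, fun p q => ?_,
    fun t ht i x x' => ?_⟩
  · simp only [pb]
    rw [dg.ti, clamp_clamp', clamp_clamp', ← dg.ti]
  · simp only [pb, clamp_clamp]
  · simp only [pb, clamp_sl ht]

theorem end_nf (hD : HDP ℓ w (fun i => (ζ i : F)) n D) (hz : RootsP w r s ζ) (hn : 0 < n)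
    {i : Fin 2} {aS bS : S3 → S3 → F} {c₀ N₀ : F} (hk : KCoc (g.lk i) (ζ i ^ w) aS bS c₀)
    {f : S3 → S3 → Gam D} (hf : IsCoc f (g.lk i).Kᶜ) {k : S3 → S3 → ℤ}
    {a : List S3 → Aq F (ζ i) n}
    (hi : CompCl (tq F (ζ i) n) (g.lk i).Kᶜ k (fun x y => w * th (g.lk i).ϑ x y) a
      (gen0 F (ζ i) n aS) N₀) (e1 : ∀ x y, (f x y).k = k x y)
    (e2 : ∀ x y, (f x y).a i = a [x, y]) :
    IsHol f (g.lk i).lam (Gam.cen D ((N₀ * c₀) • sigB D i)) ∧
      ∃ (κ : F) (g₁ : Gam D), κ * star κ = N₀ ∧ g₁.k = w ∧ g₁.a = 0 ∧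
        Gauge f (fun x y => nfK D i κ aS bS x y * g₁ ^ th (g.lk i).ϑ x y) (g.lk i).Kᶜ := by
  have hρ := g.rad.2.1
  obtain ⟨κ, g₁, h1, h2, h3, h4⟩ := nf_comp hD hn (i := i) (ξ := ζ i ^ w)
    (Units.val_zpow_eq_zpow_val _ _) (ζ i).ne_zero (g.lk i).isCocA_th hk.coc hk.cocb
    (fun x hx => RLKb.classify (g.lk i) g.rad (sg_cases i) hx) hf (N₀ := N₀)
    (by
      have e3 : (fun x y => (f x y).k) = k := funext₂ e1
      have e4 : (fun x y => (f x y).a i) = f2 a := funext₂ e2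
      rw [e3, e4]
      exact compCl_c1 hi)
    fun j hj => comp_acyc g hz n hj
  refine ⟨?_, κ, g₁, h1, h2, h3, h4⟩
  obtain ⟨u, hu⟩ := (hol_nfK hD i κ (loop_lam g i fun p hp => image_mono (fun q hq =>
    lt_trans (show g.ρ < 2 * g.ρ by linarith) hq) hp.2) hk.van ((g.lk i).hol_lam g.rad (sg_cases i)) hk.hol
    g₁).gauge h4.symm (loop_lam g i fun p hp =>
      (g.lk i).Oc_subset g.rad (sg_cases i) (by linarith) hp.1)
  rwa [Subgroup.mem_center_iff.1 (Gam.cen_mem_center (by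
    rw [map_smul]
    exact congrArg _ (hD.fix i))) u, mul_inv_cancel_right, h1] at hu

theorem exists_aut (hD : HDP ℓ w (fun i => (ζ i : F)) n D) (i : Fin 2) {κ₁ κ₂ N₀ : F}
    (h0 : N₀ ≠ 0) (h1 : κ₁ * star κ₁ = N₀) (h2 : κ₂ * star κ₂ = N₀) :
    ∃ α : Gam D ≃* Gam D, (∀ x, (α x).k = x.k) ∧ (∀ x, x.a = 0 → α x = x) ∧
      ∀ aS bS x y, α (nfK D i κ₁ aS bS x y) = nfK D i κ₂ aS bS x y := by
  have h3 : κ₁ ≠ 0 := left_ne_zero_of_mul (h1 ▸ h0)
  obtain ⟨α, hα⟩ := hD.aut i (κ₂ / κ₁) (by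
    rw [star_div₀, div_mul_div_comm, h1, h2, div_self h0])
  refine ⟨α, fun x => (hα x).1, fun x hx => Gam.ext (hα x).1 ?_ (hα x).2.1,
    fun aS bS x y => Gam.ext (hα _).1 ?_ ?_⟩
  · rw [(hα x).2.2, hx]
    simp
  · rw [(hα _).2.2]
    funext j
    rcases eq_or_ne j i with rfl | hj
    · simp only [Function.update_self, nfK, Pi.smul_apply, smul_smul]
      rw [← mul_assoc, div_mul_cancel₀ _ h3]
    · simp [Function.update_of_ne hj, nfK, socP, Pi.single_eq_of_ne hj]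
  · rw [(hα _).2.1]
    simp only [nfK, h1, h2]

end RSt2a

open RSt2a in
theorem exists_nfd {F B : Type} [Field F] [StarRing F] [AddCommGroup B] [Module F B]
    {r s : Fin 2 → ℕ} {P : ℝ → S3} {g : Geo r s P} {hP : S3 → S3 → ℤ} {w : ℤ} {ζ : Fin 2 → Fˣ}
    {ℓ n : ℕ} {D : HD F (Api F (fun i => (ζ i : F)) n) B} (hD : HDP ℓ w (fun i => (ζ i : F)) n D)
    (hz : RootsP w r s ζ) (hn : 0 < n) (dg : Deg g hP w) (hg : IsGen ℝ (range P) hP)
    (hw : IsHolA hP (fib 0) w) (ha : ∀ i, Acyc (zt (tq F (ζ i) n) hP) 2 (range P)ᶜ)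
    {aS bS : Fin 2 → S3 → S3 → F} {c₀ N₀ : Fin 2 → F}
    (hk : ∀ i, KCoc (g.lk i) (ζ i ^ w) (aS i) (bS i) (c₀ i)) (hc : ∀ i, c₀ i ≠ 0)
    {y : ∀ i, List Y4 → Aq F (ζ i) n} (hy : ∀ i, St1 dg i (ζ i : F) n (aS i) (y i) (N₀ i)) :
    ∃ (Rp : RepIn (Gam D)) (f : Y4 → Y4 → Gam D), Rp.ℓ = ℓ ∧ IsCoprime w (Rp.p : ℤ) ∧
      NFD Rp dg f := by
  have := hD.fin
  have hρ := g.rad.2.1
  obtain ⟨f, f1, f2, f3, f4⟩ := exists_f hD dg fun i => (hy i).coc
  obtain ⟨Rp, r1, r2, r3, r4, r5, r6⟩ :=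
    hD.rep (fun i => N₀ i * c₀ i) fun i => mul_ne_zero (hy i).ne (hc i)
  have dgk : ∀ x, Rp.dg x = x.k := fun x => by rw [RepIn.dg, r1]; rfl
  have degk : ∀ x, Rp.deg x = 1 ↔ x.k = 0 := fun x => by rw [r1]; exact ofAdd_eq_one
  have cC : IsCoc (pb (sl (-2)) f) (range g.C)ᶜ :=
    f1.pb (fun p _ => cont_sl _ p) (dg.ann.sl_maps_low (by norm_num))
  have cD : IsCoc (pb (sl 3) f) (range g.D)ᶜ :=
    f1.pb (fun p _ => cont_sl _ p) (dg.ann.sl_maps_high (by norm_num))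
  have lo := fun i => end_nf hD hz hn (hk i) (f := pb (dg.κ i) (pb (sl (-2)) f))
    (cC.pb (dg.ret i).cont fun p hp => g.Oc_subset_C i ((dg.ret i).maps hp))
    (hy i).low (fun _ _ => f2 _ _) fun _ _ => f4 _ (Or.inl rfl) i _ _
  have hi := fun i => end_nf hD hz hn (hk i) (f := pb (g.Ψ i ∘ dg.κ i) (pb (sl 3) f))
    (cD.pb (fun p hp => (g.Ψ i).continuous.continuousAt.comp ((dg.ret i).cont p hp))
      fun p hp => g.Ψ_maps i ((dg.ret i).maps hp))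
    (hy i).high (fun _ _ => f2 _ _) fun _ _ => f4 _ (Or.inr rfl) i _ _
  have fx : ∀ i, D.tB.1 ((N₀ i * c₀ i) • sigB D i) = (N₀ i * c₀ i) • sigB D i := fun i => by
    rw [map_smul]
    exact congrArg _ (hD.fix i)
  have cen : ∀ i : Fin 2, Gam.cen D ((N₀ 0 * c₀ 0) • sigB D 0) ^ (if i = 0 then 1 else 0 : ℤ) *
      Gam.cen D ((N₀ 1 * c₀ 1) • sigB D 1) ^ (if i = 1 then 1 else 0 : ℤ) =
      Gam.cen D ((N₀ i * c₀ i) • sigB D i) := Fin.forall_fin_two.2 ⟨by simp, by simp⟩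
  have lP : ∀ i, IsHolA hP (lon (g.xi i) (5 * g.ρ / 2)) 0 := fun i =>
    g.lonP hg.1 (by linarith) (by rw [g.norm_xi]; linarith)
  refine ⟨Rp, f, r3, r6, f1, fun p q => (dgk _).trans (f2 p q), f3, fun i => ?_, ?_, fun i => ?_⟩
  · obtain ⟨κ₁, g₁, a1, a2, a3, a4⟩ := (lo i).2
    obtain ⟨κ₂, g₂, b1, b2, b3, b4⟩ := (hi i).2
    obtain ⟨α, α1, α2, α3⟩ := exists_aut hD i (hy i).ne a1 b1
    refine ⟨nfK D i κ₁ (aS i) (bS i), α, g₁, g₂, α2 _ (by rw [r2]), α2 _ (by rw [r4]; rfl),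
      α2 _ (by rw [r5]; rfl), fun γ => by rw [r1]; exact congrArg Multiplicative.ofAdd (α1 γ),
      (dgk _).trans a2, (dgk _).trans b2, fun j m hm => Gam.commute_of ?_ ?_ ((degk m).1 hm),
      fun x y => (degk _).2 rfl, a4, by simpa only [α3] using b4⟩
    · rw [Gam.mul_k, Gam.k_zpow, Gam.k_zpow, α1, a2, b2]
      ring
    · rw [Gam.mul_a, Gam.a_zpow b3, α2 _ a3, Gam.a_zpow a3, map_zero, add_zero]
  · obtain ⟨g₀, h1, h2⟩ := nf_mid hD.unip (cC.pb g.fl_maps.2 g.fl_maps.1)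
      (hg.1.mono fun p hp h => Mid_sub g 0 hp (Or.inl h))
      ((coc_thx g 0).mono fun p hp h => Mid_sub g 0 hp (Or.inr h))
      ((coc_thx g 1).mono fun p hp h => Mid_sub g 1 hp (Or.inr h))
      (by simp only [pb, f2]; exact dg.midC)
      (acyc_pi hD fun i => (dg.pieces hg.1 hw hz (ha i)).2.1) (fx 0) (fx 1) g.isLoop_lon_Mid lP
      (hol_thx g 0) (hol_thx g 1) (fun j => by
        rw [cen, isHol_pb, g.fl_lon]
        exact (lo j).1.congr (LK.IsRet.locEq g.rad (dg.ret j) _)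
          (loop_lam g j inter_subset_left))
      fun x hx h => g.hf_Mid hg hx h
    exact ⟨g₀, (dgk _).trans h1, r4 ▸ r5 ▸ h2⟩
  · have cs : ∀ j, IsCocA (sel i j (g.thx i)) (range P ∪ eta (g.xi i))ᶜ := fun j => by
      unfold sel
      split_ifs
      · exact (coc_thx g i).mono fun p hp h => hp (Or.inr h)
      · exact fun p _ => ⟨univ, Filter.univ_mem, fun _ _ _ _ _ _ => add_zero _⟩
    have hs : ∀ j, IsHolA (sel i j (g.thx i)) (lon (g.xi i) (5 * g.ρ / 2))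
        (if i = j then 1 else 0) := fun j => by
      unfold sel
      split_ifs
      · simpa using hol_thx g i i
      · exact ⟨fun _ => 0, fun s => ⟨univ, Filter.univ_mem, fun _ _ _ _ => (sub_self _).symm⟩,
          fun _ => (add_zero _).symm⟩
    obtain ⟨g₀, h1, h2⟩ := nf_mid hD.unip (ι := Unit)
      (cD.pb (g.rq_maps dg.retq i).2 (g.rq_maps dg.retq i).1)
      (hg.1.mono fun p hp h => hp (Or.inl h)) (cs 0) (cs 1)
      (by simp only [pb, f2]; exact dg.midD i)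
      (acyc_pi hD fun j => (dg.pieces hg.1 hw hz (ha j)).2.2 i) (fx 0) (fx 1)
      (fun _ => loop_lon g i fun p hp _ => Mid_sub g i hp) (fun _ => lP i) (fun _ => hs 0)
      (fun _ => hs 1) (fun _ => by
        rw [cen]
        refine IsHol.congr (g.rq_locEq dg.retq i _).symm (loop_lon g i fun p hp h => ?_)
          ((hi i).1.congr (LK.IsRet.locEq g.rad (dg.ret i) (pb (g.Ψ i) (pb (sl 3) f)))
            (loop_lam g i inter_subset_left))
        rintro (h3 | h3)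
        · exact Mid_sub g i hp (Or.inr h3)
        · exact g.off_of_norm h (image_mono (fun q hq =>
            le_trans (show (-1 / 2 : ℝ) ≤ -1 / 4 by norm_num) hq) h3))
      fun x hx h => g.hf_side hg i hx (h ())
    exact ⟨g₀, (dgk _).trans h1, r4 ▸ r5 ▸ h2⟩

end Pool.Agent.HH
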