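import Pool.Agent.P.MP_c8dc46_gt.St2c
import Pool.Agent.P.MP_c8dc46_gt.St2a
import Pool.Agent.P.MP_c8dc46_gt.St1c
import Pool.Agent.P.MP_c8dc46_gt.GeoX
import Pool.Agent.P.MP_c8dc46_gt.Rep

/-! The core identity: additivity of the signatures over the pieces, and the assembly of the two
stages. -/

open Set Topology

namespace Pool.Agent.HH

namespace RCore

theorem unit_norm {u : ℂˣ} {ℓ : ℕ} (hℓ : ℓ ≠ 0) (h : u ^ ℓ = 1) :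
    (u : ℂ) * star (u : ℂ) = 1 := by
  have h1 : (u : ℂ) ^ ℓ = 1 := by rw [← Units.val_pow_eq_pow_val, h, Units.val_one]
  rw [Complex.star_def, Complex.mul_conj, Complex.normSq_eq_norm_sq,
    Complex.norm_eq_one_of_pow_eq_one h1 hℓ]
  simp

theorem ne_one {F : Type} [Field F] {ζ : Fˣ} {w : ℤ} {k : ℕ} (h : (ζ : F) ^ (w * k) ≠ 1) :
    (ζ ^ w) ^ k ≠ 1 := fun e => h (by
  rw [← Units.val_zpow_eq_zpow_val, zpow_mul, zpow_natCast, e, Units.val_one])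

theorem kcoc {F : Type} [Field F] [StarRing F] {r s : Fin 2 → ℕ} {P : ℝ → S3} (g : Geo r s P)
    {w : ℤ} {ζ : Fin 2 → Fˣ} (hz : RootsP w r s ζ) (i : Fin 2) :
    ∃ aS bS c₀, KCoc (g.lk i) (ζ i ^ w) aS bS c₀ := by
  refine exists_kcoc (g.lk i) g.rad (sg_cases i) ?_ (fun e => hz.nw i ?_) (ne_one (hz.nr i i))
    (ne_one (hz.ns i i)) ?_
  · rw [Units.val_zpow_eq_zpow_val, star_zpow₀, ← mul_zpow, hz.unit i, one_zpow]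
  · rw [← Units.val_zpow_eq_zpow_val, e, Units.val_one]
  · rw [← zpow_natCast, ← zpow_mul, mul_comm, zpow_mul, zpow_natCast, hz.ord i, one_zpow]

theorem pow_o {F : Type} [Field F] [StarRing F] {r s : Fin 2 → ℕ} {w : ℤ} {ζ : Fin 2 → Fˣ}
    (hz : RootsP w r s ζ) : ∀ i, (ζ i : F) ^ (r 0 * s 0 * (r 1 * s 1)) = 1 := by
  have h : ∀ i, (ζ i : F) ^ (r i * s i) = 1 := fun i => by
    rw [← Units.val_pow_eq_pow_val, hz.ord i, Units.val_one]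
  refine Fin.forall_fin_two.2 ⟨?_, ?_⟩
  · rw [pow_mul, h, one_pow]
  · rw [mul_comm, pow_mul, h, one_pow]

end RCore

open RCore

theorem NFD.core {Γ : Type} [Group Γ] {Rp : RepIn Γ} {r s : Fin 2 → ℕ} {P : ℝ → S3}
    {g : Geo r s P} {hP : S3 → S3 → ℤ} {w : ℤ} {dg : Deg g hP w} {f : Y4 → Y4 → Γ}
    (h : NFD Rp dg f) (hg : IsCocA hP (range P)ᶜ) (hw : IsHolA hP (fib 0) w)
    (hc : IsCoprime w (Rp.p : ℤ)) : ∃ m, 0 < m ∧ CoreRel g hP w Rp.ℓ Rp.p m := by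
  obtain ⟨n₀, hn, hrep⟩ := exists_rep Rp
  obtain ⟨m₀, hlag⟩ := h.lag
  refine ⟨max m₀ 1, lt_max_of_lt_right one_pos, fun z₀ hp hz u v hu hv hu1 hv1 huv => ?_⟩
  obtain ⟨ρ, hρ⟩ := hrep u v hu hv
  obtain ⟨heq, hnd⟩ := hlag n₀ u v ρ hρ z₀ _ hp hz (le_max_left _ _)
  have uu := unit_norm Rp.prime.ne_zero hu
  have vv := unit_norm Rp.prime.ne_zero hv
  have cC : (cfn n₀ hp).CompatT (tr ρ (pb (sl (-2)) f)) := fun _ _ => hρ.compat hp _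
  have cD : (cfn n₀ hp).CompatT (tr ρ (pb (sl 3) f)) := fun _ _ => hρ.compat hp _
  have tC := h.cocC.tr ρ
  have tD := h.cocD.tr ρ
  have kC := h.cutC hg hρ hp hz hu1 hv1 huv
  have kD := h.cutD hg hρ hp hz hu1 hv1
  obtain ⟨sC, hsC⟩ := exists_sig_knot (C := g.C) g.knotC cC tC
  obtain ⟨sD, hsD⟩ := exists_sig_knot g.knotD cD tD
  choose a ha using fun i => Sig3.exists_sub cC tC hsC (g.decC.si i)
  choose b hb using fun i => Sig3.exists_sub cD tD hsD (g.decD.si i)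
  have e := heq _ _ (sig3_dec cC tC g.decC kC ha) (sig3_dec cD tD g.decD kD hb)
  rw [Fin.sum_univ_four, Fin.sum_univ_four] at e
  have e0 : a 0 = b 0 :=
    Sig3.unique cD (tD.mono (g.decD.si 0)) ((h.comp_eq hc hρ hp 0 _).1 (ha 0)) (hb 0)
  have e1 : a 1 = b 1 :=
    Sig3.unique cD (tD.mono (g.decD.si 1)) ((h.comp_eq hc hρ hp 1 _).1 (ha 1)) (hb 1)
  obtain ⟨pS, nS⟩ := h.pieceS hg hn hρ hp uu vv
  obtain ⟨pQ, nQ⟩ := h.pieceQ hg hw hn hρ hp uu vv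
  obtain ⟨s₁, h₁, e₁⟩ := pS _ (ha 3)
  obtain ⟨sq, hq, e₄⟩ := pQ _ (ha 2)
  obtain ⟨s₂, h₂, e₂⟩ := h.pieceD hg hn hρ hp uu vv 0 _ (hb 2)
  obtain ⟨s₃, h₃, e₃⟩ := h.pieceD hg hn hρ hp uu vv 1 _ (hb 3)
  refine ⟨s₁, s₂, s₃, sq, h₁, h₂, h₃, hq, ?_,
    nS ((cfn n₀ hp).nondeg_piece cC tC g.decC kC hnd 3),
    nQ ((cfn n₀ hp).nondeg_piece cC tC g.decC kC hnd 2)⟩
  refine mul_left_cancel₀ (a := (n₀ : ℤ)) (by exact_mod_cast hn.ne') ?_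
  linear_combination e - e0 - e1 - e₁ - e₄ + e₂ + e₃

theorem core {a : ℝ → ℝ} {d : ℝ → ℂ} {w₀ : ℤ} (hp : IsPattern a d w₀) (hh : IsHom a d) :
    ∃ θ₀ : ℝ, ∀ (h₁ : S3 → S3 → ℤ) (w : ℤ), IsGen ℝ (range (Pc a d θ₀ 1)) h₁ →
      IsHolA h₁ (fib 0) w → ∀ ℓ : ℕ, ℓ.Prime → ℓ ≠ 2 → IsCoprime w (ℓ : ℤ) →
      ∃ (c : ℝ) (r s : Fin 2 → ℕ) (g : Geo r s (Pc a d θ₀ c)) (hP : S3 → S3 → ℤ) (p m : ℕ),
        0 < c ∧ c ≤ 1 ∧ IsGen ℝ (range (Pc a d θ₀ c)) hP ∧ IsHolA hP (fib 0) w ∧ 0 < p ∧ 0 < m ∧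
        IsCoprime w (p : ℤ) ∧ CoreRel g hP w ℓ p m := by
  obtain ⟨θ₀, hgeo⟩ := exists_geo hp hh
  refine ⟨θ₀, fun h₁ w hg hw ℓ hℓ h2 hc => ?_⟩
  have : Fact ℓ.Prime := ⟨hℓ⟩
  have hK : IsKnot (Pc a d θ₀ 1) := (hp.scale θ₀ one_pos le_rfl).knot
  obtain ⟨q, hq, hk⟩ := kills_base (ZMod ℓ) (hK.base hg)
  obtain ⟨F, _, _, _, _, _, r, s, ζ, hz, hζ⟩ := exists_field ℓ h2 hc hq
  obtain ⟨c, c0, c1, ⟨g⟩⟩ := hgeo r s (fun i => (hz.rp i).pos) (fun i => (hz.sp i).pos) hz.cop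
  obtain ⟨hP, hgP, hwP, ht⟩ := transport hp θ₀ c0 c1 hg hw
  have : FiniteDimensional (ZMod ℓ) F := Module.Finite.of_finite
  have k₂ := ht _ _ _ _ _ (Kills.slice (τ := zt (sh _ _) h₁) (hk 2 le_rfl (by norm_num)))
  have k₃ := ht _ _ _ _ _ (Kills.slice (τ := zt (sh _ _) h₁) (hk 3 (by norm_num) (by norm_num)))
  have ac := fun i => acyc_base hgP.1 hq k₂ k₃ (hζ i)
  obtain ⟨dg⟩ := g.exists_deg hgP hwP
  obtain ⟨n₀, hs⟩ := stage1 dg hgP.1 hwP hz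
  have hn : 0 < max n₀ 1 := lt_max_of_lt_right one_pos
  choose aS bS c₀ hkc using kcoc g hz
  have st := fun i => hs _ (le_max_left _ _) hn i (ac i _) _ _ _ (hkc i)
  choose y N₀ hy using fun i => (st i).2
  obtain ⟨B, _, _, D, hD⟩ := exists_hd hℓ hc hz.unit
    (mul_pos (mul_pos (hz.rp 0).pos (hz.sp 0).pos) (mul_pos (hz.rp 1).pos (hz.sp 1).pos))
    (pow_o hz) hz.copw hn
  obtain ⟨Rp, f, e, hcp, hf⟩ :=
    exists_nfd hD hz hn dg hgP hwP (fun i => ac i _) hkc (fun i => (st i).1) hy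
  obtain ⟨m, hm, hr⟩ := hf.core hgP.1 hwP hcp
  exact ⟨c, r, s, g, hP, Rp.p, m, c0, c1, hgP, hwP, Rp.ppos, hm, hcp, e ▸ hr⟩

end Pool.Agent.HH
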