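import Pool.Agent.P.MP_c8dc46_gt.Gen

/-!
Comparison of signs and of winding numbers.
-/

open Set Topology

namespace Pool.Agent.HH

namespace RSign

theorem ex_zpow (s : ℝ) (w : ℤ) : ex s ^ w = ex (w * s) := by
  unfold ex
  rw [← Complex.exp_int_mul]
  congr 1
  push_cast
  ring

theorem ex_unique {r r' s s' : ℝ} (hr : 0 < r) (hr' : 0 < r')
    (h : (r : ℂ) * ex s = r' * ex s') : ∃ n : ℤ, s' = s + n := by
  have h1 := congrArg norm h
  simp only [norm_mul, norm_ex, mul_one, Complex.norm_real, Real.norm_eq_abs, abs_of_pos hr,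
    abs_of_pos hr'] at h1
  subst h1
  exact ex_eq_iff.1 (mul_left_cancel₀ (by exact_mod_cast hr.ne') h)

theorem exists_polar {z : ℂ} (hz : z ≠ 0) : ∃ s : ℝ, ∃ r : ℝ, 0 < r ∧ z = r * ex s := by
  have h0 : (‖z‖ : ℂ) ≠ 0 := by exact_mod_cast norm_ne_zero_iff.2 hz
  obtain ⟨s, hs⟩ := exists_ex (z := z / ‖z‖) (by
    rw [norm_div, Complex.norm_real, norm_norm, div_self (norm_ne_zero_iff.2 hz)])
  exact ⟨s, ‖z‖, norm_pos_iff.2 hz, by rw [hs]; field_simp⟩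

theorem exists_log {Y : Type} [TopologicalSpace Y] {ϑ : Y → ℂ} {p : Y} (hc : ContinuousAt ϑ p)
    (h0 : ϑ p ≠ 0) : ∃ α : Y → ℝ, ContinuousAt α p ∧
      ∀ᶠ x in 𝓝 p, ∃ r : ℝ, 0 < r ∧ ϑ x = r * ex (α x) := by
  obtain ⟨s, r, hr, hs⟩ := exists_polar h0
  refine ⟨fun x => s + Complex.arg (ϑ x / ϑ p) / (2 * Real.pi), ?_, ?_⟩
  · refine continuousAt_const.add (ContinuousAt.div_const ?_ _)
    refine ContinuousAt.comp (g := Complex.arg) (f := fun x => ϑ x / ϑ p) ?_ (hc.div_const _)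
    rw [div_self h0]
    exact Complex.continuousAt_arg Complex.one_mem_slitPlane
  · filter_upwards [hc.eventually_ne h0] with x hx
    have hq : ϑ x / ϑ p ≠ 0 := div_ne_zero hx h0
    refine ⟨r * ‖ϑ x / ϑ p‖, mul_pos hr (norm_pos_iff.2 hq), ?_⟩
    have h1 : ex (Complex.arg (ϑ x / ϑ p) / (2 * Real.pi)) =
        Complex.exp (Complex.arg (ϑ x / ϑ p) * Complex.I) := by
      unfold ex
      congr 1
      have : (Real.pi : ℂ) ≠ 0 := by exact_mod_cast Real.pi_ne_zero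
      push_cast
      field_simp
    rw [ex_add, h1]
    have h2 := Complex.norm_mul_exp_arg_mul_I (ϑ x / ϑ p)
    calc ϑ x = ϑ p * (ϑ x / ϑ p) := by field_simp
      _ = (r * ex s) * (‖ϑ x / ϑ p‖ * Complex.exp (Complex.arg (ϑ x / ϑ p) * Complex.I)) := by
        rw [h2, ← hs]
      _ = _ := by push_cast; ring

theorem IsCocA.sub' {Y M : Type} [TopologicalSpace Y] [AddCommGroup M] {h h' : Y → Y → M}
    {S : Set Y} (h₁ : IsCocA h S) (h₂ : IsCocA h' S) : IsCocA (fun x y => h x y - h' x y) S := by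
  intro p hp
  obtain ⟨U, hU, e⟩ := h₁ p hp
  obtain ⟨V, hV, e'⟩ := h₂ p hp
  refine ⟨U ∩ V, Filter.inter_mem hU hV, fun x hx y hy z hz => ?_⟩
  simp only [← e x hx.1 y hy.1 z hz.1, ← e' x hx.2 y hy.2 z hz.2]
  abel

theorem IsCocA.mul' {Y : Type} [TopologicalSpace Y] {h : Y → Y → ℤ}
    {S : Set Y} (h₁ : IsCocA h S) (w : ℤ) : IsCocA (fun x y => w * h x y) S := by
  intro p hp
  obtain ⟨U, hU, e⟩ := h₁ p hp
  refine ⟨U, hU, fun x hx y hy z hz => ?_⟩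
  simp only [← e x hx y hy z hz]
  ring

section Alg

variable {Y : Type} (F : Type) [Field F]

/-- An integral function of two points as a cochain with values in `F`. -/
noncomputable abbrev cz (h : Y → Y → ℤ) : List Y → F := c1 fun x y => (h x y : F)

/-- The scalar coboundary. -/
noncomputable abbrev dd (Y : Type) : (List Y → F) →ₗ[F] (List Y → F) := dT (triv F F Y)

/-- The scalar cup product. -/
noncomputable abbrev cp (p : ℕ) (a b : List Y → F) : List Y → F :=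
  cup (mulA F) (triv F F Y) p a b

variable {F}

theorem cp_zero_left (p : ℕ) (b : List Y → F) : cp F p 0 b = 0 := by
  funext l
  simp [cp, cup]

theorem cp_smul_left (p : ℕ) (c : F) (a b : List Y → F) : cp F p (c • a) b = c • cp F p a b := by
  funext l
  simp [cp, cup, mulA, mul_assoc]

theorem cp_smul_right (p : ℕ) (c : F) (a b : List Y → F) :
    cp F p a (c • b) = c • cp F p a b := by
  funext l
  simp only [cp, cup, Pi.smul_apply, map_smul]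
  simp [mulA, mul_left_comm]

theorem cz_mul (w : ℤ) (h : Y → Y → ℤ) : cz F (fun x y => w * h x y) = (w : F) • cz F h := by
  funext l
  match l with
  | [] => simp [cz, c1]
  | [_] => simp [cz, c1]
  | [_, _] => simp [cz, c1]
  | _ :: _ :: _ :: _ => simp [cz, c1]

variable [TopologicalSpace Y]

theorem leib (p : ℕ) {n : ℕ} (hn : p + 2 ≤ n) (S : Set Y) (a b : List Y → F) :
    dd F Y (cp F p a b) - cp F (p + 1) (dd F Y a) b - ((-1 : ℤ) ^ p) • cp F p a (dd F Y b) ∈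
      N F F n S :=
  cup_leibniz (mulA F) (fun _ _ _ _ => rfl) (isCoc_triv S) (isCoc_triv S) (isCoc_triv S) hn a b

theorem leib1 (S : Set Y) (a b : List Y → F) :
    dd F Y (cp F 1 a b) - cp F 2 (dd F Y a) b + cp F 1 a (dd F Y b) ∈ N F F 4 S := by
  have := leib 1 (n := 4) (by norm_num) S a b
  simpa [sub_eq_add_neg] using this

theorem leib2 (S : Set Y) (a b : List Y → F) :
    dd F Y (cp F 2 (dd F Y a) b) - cp F 2 (dd F Y a) (dd F Y b) ∈ N F F 4 S := by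
  have := leib 2 (n := 4) (by norm_num) S (dd F Y a) b
  rw [dT_triv_dT, cp_zero_left] at this
  simpa using this

theorem cz_coc {h : Y → Y → ℤ} {S : Set Y} (hh : IsCocA h S) : dd F Y (cz F h) ∈ N F F 3 S := by
  refine isCocA_iff.1 fun p hp => ?_
  obtain ⟨U, hU, e⟩ := hh p hp
  exact ⟨U, hU, fun x hx y hy z hz => by rw [← e x hx y hy z hz]; push_cast; ring⟩

theorem cz_locEq {h h' : Y → Y → ℤ} {g : Y → ℤ} {S : Set Y}
    (hh : LocEq (fun x y => h x y - h' x y) (fun x y => g y - g x) S) :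
    cz F h - cz F h' - dd F Y (c0 fun x => (g x : F)) ∈ N F F 2 S := by
  refine mem_N_two.2 fun p hp => ?_
  obtain ⟨U, hU, e⟩ := hh p hp
  refine ⟨U, hU, fun x hx y hy => ?_⟩
  have := congrArg (Int.cast : ℤ → F) (e x hx y hy)
  simp only [Pi.sub_apply, dT_two, cz, c1, c0, triv, Module.End.one_apply]
  push_cast at this
  rw [this, sub_self]

theorem cz_coh {h h' : Y → Y → ℤ} {S : Set Y} (hh : CohA h h' S) :
    ∃ φ, cz F h - cz F h' - dd F Y φ ∈ N F F 2 S := by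
  obtain ⟨g, hg⟩ := hh
  exact ⟨_, cz_locEq hg⟩

theorem cz_zero {h : Y → Y → ℤ} {S : Set Y} (hh : LocEq h (fun _ _ => 0) S) :
    cz F h ∈ N F F 2 S := by
  refine mem_N_two.2 fun p hp => ?_
  obtain ⟨U, hU, e⟩ := hh p hp
  exact ⟨U, hU, fun x hx y hy => by simp [cz, c1, e x hx y hy]⟩

theorem cp_mem {p q : ℕ} (hq : 1 ≤ q) {S S₁ S₂ : Set Y} (hS : S ⊆ S₁ ∪ S₂) {a b : List Y → F}
    (ha : a ∈ N F F (p + 1) S₁) (hb : b ∈ N F F q S₂) : cp F p a b ∈ N F F (p + q) S :=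
  N_mono hS (mem_N_union.2 ⟨cup_mem_N_left _ _ (by omega) ha b, cup_mem_N_right _ _ p a hb⟩)

variable {J : (List Y → F) →ₗ[F] F} {S S₁ S₂ : Set Y}

/-- Change of the second factor by a coboundary. -/
theorem chg_right (hl : ∀ φ ∈ N F F 4 S, J φ = 0) (hs : ∀ ψ, J (dd F Y ψ) = 0)
    (hS : S ⊆ S₁ ∪ S₂) {k θ θ' ψ : List Y → F} (hk : dd F Y k ∈ N F F 3 S₁)
    (hθ : θ - θ' - dd F Y ψ ∈ N F F 2 S₂) :
    J (cp F 2 (dd F Y k) θ) = J (cp F 2 (dd F Y k) θ') := by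
  have h1 := hl _ (cp_mem (p := 2) (q := 2) (by norm_num) hS hk hθ)
  have h2 := hl _ (leib2 S k ψ)
  rw [cp, cup_sub_right, cup_sub_right, map_sub, map_sub] at h1
  rw [map_sub, hs] at h2
  linear_combination h1 - h2

/-- Change of the first factor by a coboundary. -/
theorem chg_left (hl : ∀ φ ∈ N F F 4 S, J φ = 0) (hs : ∀ ψ, J (dd F Y ψ) = 0)
    (hS : S ⊆ S₁ ∪ S₂) {k k' θ φ : List Y → F} (hk : k - k' - dd F Y φ ∈ N F F 2 S₁)
    (hθ : dd F Y θ ∈ N F F 3 S₂) :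
    J (cp F 2 (dd F Y k) θ) = J (cp F 2 (dd F Y k') θ) := by
  have h1 := hl _ (cp_mem (p := 1) (q := 3) (by norm_num) hS hk hθ)
  have h2 := hl _ (leib1 S (k - k' - dd F Y φ) θ)
  rw [map_add, map_sub, hs, h1, map_sub (dd F Y), map_sub (dd F Y), dT_triv_dT, sub_zero, cp,
    cup_sub_left, map_sub] at h2
  linear_combination -h2

/-- A cochain supported in `Z` with a primitive near `Z` whose support in `W` lies in `Z`. -/
theorem local_stokes (hl : ∀ φ ∈ N F F 4 (univ : Set Y), J φ = 0) (hs : ∀ ψ, J (dd F Y ψ) = 0)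
    {Z W T : Set Y} (hZ : Z ⊆ interior T) (hT : closure T ⊆ W) {σ ω : List Y → F}
    (hσ : σ ∈ N F F 4 Zᶜ) (hω : ω ∈ N F F 3 (W \ Z)) (h : σ - dd F Y ω ∈ N F F 4 Z) :
    J σ = 0 := by
  have h1 : σ - dd F Y (cut F F T ω) ∈ N F F 4 (univ : Set Y) := by
    rw [← union_compl_self Z]
    refine mem_N_union.2 ⟨?_, Submodule.sub_mem _ hσ (dT_mem_N _ ?_)⟩
    · have h2 := dT_mem_N (triv F F Y) (N_mono hZ (sub_cut_mem_N (R := F) T (n := 3)
        (by norm_num) ω))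
      have h3 := Submodule.add_mem _ h h2
      rw [map_sub] at h3
      simpa using h3
    · refine N_mono (S' := (W \ Z) ∪ (closure T)ᶜ) (fun p hp => ?_)
        (mem_N_union.2 ⟨cut_mem_N T hω, cut_mem_N_compl T 3 ω⟩)
      by_cases hW : p ∈ W
      · exact Or.inl ⟨hW, hp⟩
      · exact Or.inr fun h' => hW (hT h')
  have h2 := hl _ h1
  rwa [map_sub, hs, sub_zero] at h2

end Alg

end RSign

open RSign

theorem th_cmp {Y : Type} [MetricSpace Y] [LocallyConnectedSpace Y] {A : Set Y}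
    (hA : IsClosed A) {ϑ₁ ϑ₂ : Y → ℂ} (h₁ : ∀ p ∈ A, ContinuousAt ϑ₁ p)
    (h₂ : ∀ p ∈ A, ContinuousAt ϑ₂ p) (h0 : ∀ p ∈ A, ϑ₂ p ≠ 0) (w : ℤ) {L : Y → ℝ}
    (hL : ContinuousOn L A) (he : ∀ p ∈ A, ∃ r : ℝ, 0 < r ∧ ϑ₁ p = r * ϑ₂ p ^ w * ex (L p)) :
    CohA (th ϑ₁) (fun x y => w * th ϑ₂ x y) A := by
  have h0' : ∀ p ∈ A, ϑ₁ p ≠ 0 := by
    intro p hp
    obtain ⟨r, hr, e⟩ := he p hp
    rw [e]
    refine mul_ne_zero (mul_ne_zero (by exact_mod_cast hr.ne') (zpow_ne_zero _ (h0 p hp))) ?_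
    exact norm_ne_zero_iff.1 (by rw [norm_ex]; norm_num)
  have hlam : ∀ p, ∃ s : ℝ, p ∈ A → ∃ r : ℝ, 0 < r ∧ ϑ₂ p = r * ex s := by
    intro p
    by_cases hp : p ∈ A
    · obtain ⟨s, hs⟩ := exists_polar (h0 p hp)
      exact ⟨s, fun _ => hs⟩
    · exact ⟨0, fun h => absurd h hp⟩
  choose lam hlam using hlam
  obtain ⟨γ, hγ, -⟩ := taut_one hA
    (IsCocA.sub' (isCocA_th h₁ h0') (IsCocA.mul' (isCocA_th h₂ h0) w))
    (g := fun a => ⌈w * lam a + L a - 1 / 2⌉ - w * ⌈lam a - 1 / 2⌉) (by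
      intro p hp
      obtain ⟨β₁, c₁, e₁⟩ := exists_log (h₁ p hp) (h0' p hp)
      obtain ⟨β₂, c₂, e₂⟩ := exists_log (h₂ p hp) (h0 p hp)
      obtain ⟨U₁, hU₁, t₁⟩ := th_log c₁ e₁
      obtain ⟨U₂, hU₂, t₂⟩ := th_log c₂ e₂
      have hcw : ContinuousWithinAt (fun a => β₁ a - w * β₂ a - L a) A p :=
        (c₁.continuousWithinAt.sub (c₂.continuousWithinAt.const_mul _)).sub (hL p hp)
      have hnear := Metric.tendsto_nhds.1 hcw 1 one_pos
      rw [eventually_nhdsWithin_iff] at hnear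
      have key : ∀ a ∈ A, (∃ r : ℝ, 0 < r ∧ ϑ₁ a = r * ex (β₁ a)) →
          (∃ r : ℝ, 0 < r ∧ ϑ₂ a = r * ex (β₂ a)) → ∃ n m : ℤ, β₁ a - w * β₂ a - L a = n ∧
            lam a = β₂ a + m := by
        rintro a ha ⟨r₁, hr₁, f₁⟩ ⟨r₂, hr₂, f₂⟩
        obtain ⟨r, hr, f⟩ := he a ha
        obtain ⟨r', hr', f'⟩ := hlam a ha
        obtain ⟨m, hm⟩ := ex_unique hr₂ hr' (f₂.symm.trans f')
        have : ((r * r₂ ^ w : ℝ) : ℂ) * ex (w * β₂ a + L a) = r₁ * ex (β₁ a) := by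
          rw [← f₁, f, f₂, mul_zpow, ex_zpow, ex_add]
          push_cast
          ring
        obtain ⟨n, hn⟩ := ex_unique (mul_pos hr (zpow_pos hr₂ w)) hr₁ this
        exact ⟨n, m, by rw [hn]; ring, hm⟩
      obtain ⟨n₀, m₀, hn₀, -⟩ := key p hp e₁.self_of_nhds e₂.self_of_nhds
      have key2 : ∀ᶠ a in 𝓝 p, a ∈ A → ⌈w * lam a + L a - 1 / 2⌉ - w * ⌈lam a - 1 / 2⌉ =
          ⌈β₁ a - 1 / 2⌉ - w * ⌈β₂ a - 1 / 2⌉ - n₀ := by
        filter_upwards [e₁, e₂, hnear] with a a₁ a₂ a₃ ha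
        obtain ⟨n, m, hn, hm⟩ := key a ha a₁ a₂
        have h3 := a₃ ha
        rw [hn, hn₀, Real.dist_eq] at h3
        have h4 : n = n₀ := by
          have h5 : |n - n₀| < 1 := by exact_mod_cast h3
          have := Int.abs_lt_one_iff.1 h5
          omega
        have h6 : w * lam a + L a - 1 / 2 = β₁ a - 1 / 2 + ((w * m - n₀ : ℤ) : ℝ) := by
          rw [hm, ← h4]
          push_cast
          linear_combination -hn
        have h7 : lam a - 1 / 2 = β₂ a - 1 / 2 + m := by rw [hm]; ring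
        rw [h6, h7, Int.ceil_add_intCast, Int.ceil_add_intCast]
        ring
      refine ⟨_, Filter.inter_mem (Filter.inter_mem hU₁ hU₂) key2, fun a ha b hb => ?_⟩
      rw [ha.1.2 ha.2, hb.1.2 hb.2, t₁ a ha.1.1.1 b hb.1.1.1, t₂ a ha.1.1.2 b hb.1.1.2]
      ring)
  exact ⟨γ, hγ⟩

variable {C D : ℝ → S3} {A : ℝ → ℝ → Y4}

theorem RSign.ex_ne (s : ℝ) : ex s ≠ 0 := norm_ne_zero_iff.1 (by rw [norm_ex]; norm_num)

theorem RSign.n4_slice (F : Type) [Field F] (t : ℝ) {K : ℝ → S3} (hK : IsKnot K) {X : Set Y4}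
    (hX : IsClosed X) {h : Y4 → Y4 → ℤ} (hh : IsCocA h Xᶜ)
    (hloc : LocEq h (pb Prod.fst (pb (sl t) h)) {p | p.2 = t}) {ϑ : Y4 → ℂ} (cϑ : Continuous ϑ)
    {ϑK : S3 → ℂ} (cK : Continuous ϑK) (hXK : ∀ p : Y4, p.2 = t → (p ∈ X ↔ p.1 ∈ range K))
    (he : ∀ s, ϑ (K s, t) = ϑK (K s)) (h0 : ∀ s, ϑK (K s) ≠ 0) :
    n4 F t h ϑ = n3 F (pb (sl t) h) ϑK := by
  have hk : IsCocA (pb (sl t) h) (range K)ᶜ :=
    hh.pb (fun p _ => (by unfold sl; fun_prop : Continuous (sl t)).continuousAt)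
      fun p hp hp' => hp ((hXK (sl t p) rfl).1 hp')
  rw [← n4_prod t hK cK h0 hk]
  have hB : IsClosed (X ∩ {p : Y4 | p.2 = t}) :=
    hX.inter (isClosed_eq continuous_snd continuous_const)
  have hpt : ∀ p ∈ X ∩ {p : Y4 | p.2 = t}, ϑ p = ϑK p.1 ∧ ϑK p.1 ≠ 0 := by
    rintro ⟨p, t'⟩ ⟨h1, h2⟩
    obtain ⟨s, rfl⟩ := (hXK _ h2).1 h1
    obtain rfl : t' = t := h2
    exact ⟨he s, h0 s⟩
  have hc := th_cmp hB (ϑ₁ := ϑ) (ϑ₂ := ϑK ∘ Prod.fst) (fun p _ => cϑ.continuousAt)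
    (fun p _ => (cK.comp continuous_fst).continuousAt) (fun p hp => (hpt p hp).2) 1
    (L := fun _ => 0) continuousOn_const (fun p hp => ⟨1, one_pos, by
      rw [(hpt p hp).1]
      simp [ex]⟩)
  simp only [one_mul] at hc
  obtain ⟨ψ, hψ⟩ := cz_coh (F := F) hc
  obtain ⟨φ, hφ⟩ := cz_coh (F := F) (CohA.of_locEq hloc)
  have e1 := chg_right (J := Jt F t) (fun φ h => Jt_loc t h) (Jt_stokes t)
    (S₁ := Xᶜ) (S₂ := X ∩ {p : Y4 | p.2 = t}) (fun p hp => by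
      by_cases h' : p ∈ X
      · exact Or.inr ⟨h', hp⟩
      · exact Or.inl h') (cz_coc hh) hψ
  have e2 : Jt F t (cp F 2 (dd F Y4 (cz F h)) (cz F (th (ϑK ∘ Prod.fst)))) =
      Jt F t (cp F 2 (dd F Y4 (cz F (pb Prod.fst (pb (sl t) h)))) (cz F (th (ϑK ∘ Prod.fst)))) :=
    chg_left (J := Jt F t) (fun φ h => Jt_loc t h) (Jt_stokes t) (S₂ := ∅)
      (fun p hp => Or.inl hp) hφ (mem_N_empty _ _)
  exact e1.trans e2

theorem n3_conc (F : Type) [Field F] (hA : IsAnn C D A) (hC : IsKnot C) (hD : IsKnot D)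
    {h : Y4 → Y4 → ℤ} (hh : IsCocA h (rng A)ᶜ)
    (ti : ∀ p q, h p q = h (clampT (-1) 2 p) (clampT (-1) 2 q)) {ϑC ϑD : S3 → ℂ}
    (cC : Continuous ϑC) (cD : Continuous ϑD) {c : ℝ} (eC : ∀ s, ϑC (C s) = ex (s + c))
    (eD : ∀ s, ϑD (D s) = ex (s + c)) :
    n3 F (pb (sl (-2)) h) ϑC = n3 F (pb (sl 3) h) ϑD := by
  obtain ⟨ϑ, cϑ, e⟩ := hA.exists_angle c
  have h0 : ∀ p ∈ rng A, ϑ p ≠ 0 := by
    rintro _ ⟨q, rfl⟩
    simp only
    rw [e]
    exact ex_ne _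
  rw [← n4_slice F (-2) hC hA.isClosed hh ?_ cϑ cC
      (fun p hp => hA.low_iff (by rw [hp]; norm_num))
      (fun s => by rw [← hA.low s (-2) (by norm_num), e, eC]) (fun s => by rw [eC]; exact ex_ne _),
    ← n4_slice F 3 hD hA.isClosed hh ?_ cϑ cD
      (fun p hp => hA.high_iff (by rw [hp]; norm_num))
      (fun s => by rw [← hA.high s 3 (by norm_num), e, eD]) (fun s => by rw [eD]; exact ex_ne _)]
  · exact n4_indep hA cϑ h0 hh _ _
  · intro p hp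
    refine ⟨{q | 2 < q.2}, (isOpen_lt continuous_const continuous_snd).mem_nhds
      (by simp only [mem_ofPred_eq] at hp ⊢; rw [hp]; norm_num), fun x hx y hy => ?_⟩
    simp only [mem_ofPred_eq] at hx hy
    simp only [pb, sl]
    rw [ti x y, ti (x.1, 3) (y.1, 3)]
    simp only [clampT, min_eq_right hx.le, min_eq_right hy.le,
      min_eq_right (show (2 : ℝ) ≤ 3 by norm_num)]
  · intro p hp
    refine ⟨{q | q.2 < -1}, (isOpen_lt continuous_snd continuous_const).mem_nhds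
      (by simp only [mem_ofPred_eq] at hp ⊢; rw [hp]; norm_num), fun x hx y hy => ?_⟩
    simp only [mem_ofPred_eq] at hx hy
    simp only [pb, sl]
    rw [ti x y, ti (x.1, -2) (y.1, -2)]
    simp only [clampT, max_eq_left (min_le_of_left_le hx.le),
      max_eq_left (min_le_of_left_le hy.le),
      max_eq_left (min_le_of_left_le (show (-2 : ℝ) ≤ -1 by norm_num))]

theorem RSign.knot_int {K : ℝ → S3} (hK : IsKnot K) (s : ℝ) (n : ℤ) : K (s + n) = K s := by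
  have : Function.Periodic K 1 := hK.per
  simpa using this.int_mul n s

theorem RSign.th_supp {K : ℝ → S3} (hK : IsKnot K) {ϑ : S3 → ℂ} (cϑ : Continuous ϑ) {s₀ : ℝ}
    (e : ∀ s, ϑ (K s) = ex (s + (1 / 2 - s₀))) :
    LocEq (th ϑ) (fun _ _ => 0) (range K \ {K s₀}) := by
  refine th_locEq_zero (fun p _ => cϑ.continuousAt) ?_
  rintro _ ⟨⟨s, rfl⟩, hs⟩
  by_contra hc
  push Not at hc
  apply hs
  have h1 : ‖ϑ (K s)‖ = 1 := by rw [e, norm_ex]
  have h2 : ϑ (K s) = -1 := by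
    have h3 : (ϑ (K s)).re ^ 2 = 1 := by
      have := Complex.sq_norm (ϑ (K s))
      rw [h1, Complex.normSq_apply, hc.2] at this
      nlinarith
    have h4 : (ϑ (K s)).re = -1 := by nlinarith [hc.1]
    exact Complex.ext (by simpa using h4) (by simpa using hc.2)
  have h5 : ex (1 / 2) = -1 := by
    unfold ex
    rw [← Complex.exp_pi_mul_I]
    congr 1
    push_cast
    ring
  obtain ⟨n, hn⟩ := ex_eq_iff.1 (h5.trans (h2.symm.trans (e s)))
  have h6 : s = s₀ + n := by linarith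
  rw [h6, knot_int hK]
  rfl

theorem sign_lemma (hA : IsAnn C D A) (hC : IsKnot C) (hD : IsKnot D) {h : Y4 → Y4 → ℤ}
    (hh : IsGen (ℝ × ℝ) (rng A) h)
    (ti : ∀ p q, h p q = h (clampT (-1) 2 p) (clampT (-1) 2 q)) {s₀ : ℝ}
    (hs : ∀ᶠ s in 𝓝 s₀, C s = D s) {V' : Set S3} (hV : IsOpen V') (hq : C s₀ ∈ V')
    {Φ : ℝ × ℂ → S3} {O : Set ℂ} (hΦ : IsCC Φ O) (eC : Φ '' (univ ×ˢ O) = V' \ range C)
    (eD : Φ '' (univ ×ˢ O) = V' \ range D) {o : ℂ} (ho : o ∈ O) {k k' : ℤ}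
    (hk : IsHolA (pb (sl (-2)) h) (fun s => Φ (s, o)) k)
    (hk' : IsHolA (pb (sl 3) h) (fun s => Φ (s, o)) k') (h1 : k' = k ∨ k' = -k) : k' = k := by
  rcases h1 with h1 | h1
  · exact h1
  exfalso
  obtain ⟨ϑC, cC, aC⟩ := hC.exists_angle (1 / 2 - s₀)
  obtain ⟨ϑD, cD, aD⟩ := hD.exists_angle (1 / 2 - s₀)
  have gC := hh.slice_low hA (t := -2) (by norm_num)
  have gD := hh.slice_high hA (t := 3) (by norm_num)
  have hconc := n3_conc ℚ hA hC hD hh.1 ti cC cD aC aD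
  have hne := n3_ne hC ℚ cC aC gC
  generalize pb (sl (-2)) h = kC at hk gC hconc hne
  generalize pb (sl 3) h = kD at hk' gD hconc
  have hq0 : C s₀ = D s₀ := hs.self_of_nhds
  have sC : Φ '' (univ ×ˢ O) ⊆ (range C)ᶜ := by rw [eC]; exact fun p hp => hp.2
  have sD : Φ '' (univ ×ˢ O) ⊆ (range D)ᶜ := by rw [eD]; exact fun p hp => hp.2
  have hcoh : CohA kD (fun x y => -1 * kC x y) (Φ '' (univ ×ˢ O)) :=
    hΦ.cohA_of_hol (gD.1.mono sD) (IsCocA.mul' (gC.1.mono sC) (-1)) ho hk'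
      (by have := hk.mul_left (-1); rwa [neg_one_mul k, ← h1] at this)
  obtain ⟨φ, hφ⟩ := cz_coh (F := ℚ) hcoh
  rw [cz_mul, eC] at hφ
  obtain ⟨δ, hδ, hI⟩ := Metric.eventually_nhds_iff_ball.1 hs
  have hB : IsClosed (C '' Metric.closedBall s₀ (δ / 2)) :=
    ((isCompact_closedBall _ _).image hC.cont).isClosed
  have hBe : ∀ a ∈ C '' Metric.closedBall s₀ (δ / 2), ϑD a = ϑC a ∧ ϑC a ≠ 0 ∧ a ∈ range D := by
    rintro _ ⟨s, hs', rfl⟩
    have := hI s (Metric.closedBall_subset_ball (by linarith) hs')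
    refine ⟨by rw [aC, this, aD], by rw [aC]; exact ex_ne _, ⟨s, this.symm⟩⟩
  obtain ⟨ψ, hψ, hψ0⟩ := taut_one hB
    (IsCocA.sub' (isCocA_th (ϑ := ϑD) (fun p _ => cD.continuousAt)
        (fun p hp => by rw [(hBe p hp).1]; exact (hBe p hp).2.1))
      (isCocA_th (ϑ := ϑC) (fun p _ => cC.continuousAt) (fun p hp => (hBe p hp).2.1)))
    (g := fun _ => 0) (fun p _ => ⟨univ, Filter.univ_mem, fun a ha b hb => by
      have := th_congr (ϑ := ϑC) (ϑ' := ϑD) (x := a) (y := b)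
        ⟨1, one_pos, by simp [(hBe a ha.2).1]⟩ ⟨1, one_pos, by simp [(hBe b hb.2).1]⟩
      simp [this]⟩)
  have zC := th_supp hC cC aC
  have zD := th_supp hD cD aD
  rw [← hq0] at zD
  have hψ1 : c0 (fun x => (ψ x : ℚ)) ∈ N ℚ ℚ 1 (C '' Metric.closedBall s₀ (δ / 2) \ {C s₀}) := by
    refine mem_N_one.2 fun p hp => ?_
    obtain ⟨U₁, hU₁, e₁⟩ := hψ p hp.1
    obtain ⟨U₂, hU₂, e₂⟩ := zC p ⟨image_subset_range _ _ hp.1, hp.2⟩
    obtain ⟨U₃, hU₃, e₃⟩ := zD p ⟨(hBe p hp.1).2.2, hp.2⟩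
    filter_upwards [hU₁, hU₂, hU₃] with x x₁ x₂ x₃
    have h3 := e₁ p (mem_of_mem_nhds hU₁) x x₁
    simp only [e₂ p (mem_of_mem_nhds hU₂) x x₂, e₃ p (mem_of_mem_nhds hU₃) x x₃,
      hψ0 p hp.1] at h3
    have h4 : ψ x = 0 := by omega
    simp [c0, h4]
  obtain ⟨U, hU, hUB⟩ := hC.nhds s₀ (Metric.closedBall_mem_nhds s₀ (half_pos hδ))
  obtain ⟨T, hT, hTc, hTW⟩ := exists_mem_nhds_isClosed_subset
    (Filter.inter_mem hU (hV.mem_nhds hq))
  have hqB : C s₀ ∈ C '' Metric.closedBall s₀ (δ / 2) :=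
    ⟨s₀, Metric.mem_closedBall_self (half_pos hδ).le, rfl⟩
  have dC := cz_coc (F := ℚ) gC.1
  have dD := cz_coc (F := ℚ) gD.1
  have key := local_stokes (J := I3 ℚ) (fun φ h => I3_loc h) I3_stokes (Z := {C s₀})
    (W := U ∩ V') (T := T) (singleton_subset_iff.2 (mem_interior_iff_mem_nhds.2 hT))
    (by rw [hTc.closure_eq]; exact hTW)
    (σ := cp ℚ 2 (dd ℚ S3 (cz ℚ kD)) (cz ℚ (th ϑD)) + cp ℚ 2 (dd ℚ S3 (cz ℚ kC)) (cz ℚ (th ϑC)))
    (ω := cp ℚ 1 (cz ℚ kD - ((-1 : ℤ) : ℚ) • cz ℚ kC - dd ℚ S3 φ) (cz ℚ (th ϑC)) +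
      cp ℚ 2 (dd ℚ S3 (cz ℚ kD)) (c0 fun x => (ψ x : ℚ))) ?_ ?_ ?_
  · rw [map_add] at key
    apply hne
    unfold n3 at hconc ⊢
    linear_combination (key + hconc) / 2
  · refine Submodule.add_mem _ (cp_mem (p := 2) (q := 2) (by norm_num) ?_ dD (cz_zero zD))
      (cp_mem (p := 2) (q := 2) (by norm_num) ?_ dC (cz_zero zC))
    · intro p hp
      by_cases h' : p ∈ range D
      · exact Or.inr ⟨h', hp⟩
      · exact Or.inl h'
    · intro p hp
      by_cases h' : p ∈ range C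
      · exact Or.inr ⟨h', hp⟩
      · exact Or.inl h'
  · refine Submodule.add_mem _ (cp_mem (p := 1) (q := 2) (by norm_num) ?_ hφ (cz_zero zC))
      (cp_mem (p := 2) (q := 1) (by norm_num) ?_ dD hψ1)
    · intro p hp
      by_cases h' : p ∈ range C
      · exact Or.inr ⟨h', hp.2⟩
      · exact Or.inl ⟨hp.1.2, h'⟩
    · intro p hp
      by_cases h' : p ∈ range C
      · exact Or.inr ⟨hUB ⟨hp.1.1, h'⟩, hp.2⟩
      · refine Or.inl (sD ?_)
        rw [eC]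
        exact ⟨hp.1.2, h'⟩
  · have l1 := leib1 {C s₀} (cz ℚ kD - ((-1 : ℤ) : ℚ) • cz ℚ kC - dd ℚ S3 φ) (cz ℚ (th ϑC))
    have l2 := leib2 {C s₀} (cz ℚ kD) (c0 fun x => (ψ x : ℚ))
    have l3 : cp ℚ 1 (cz ℚ kD - ((-1 : ℤ) : ℚ) • cz ℚ kC - dd ℚ S3 φ) (dd ℚ S3 (cz ℚ (th ϑC))) ∈
        N ℚ ℚ 4 {C s₀} :=
      cup_mem_N_right _ _ 1 _ (cz_coc (isCocA_th (fun p _ => cC.continuousAt) (by
        rintro _ rfl
        exact (hBe _ hqB).2.1)))
    have l4 : cp ℚ 2 (dd ℚ S3 (cz ℚ kD))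
        (cz ℚ (th ϑD) - cz ℚ (th ϑC) - dd ℚ S3 (c0 fun x => (ψ x : ℚ))) ∈ N ℚ ℚ 4 {C s₀} :=
      cup_mem_N_right _ _ 2 _ (cz_locEq (hψ.mono (singleton_subset_iff.2 hqB)))
    have l5 : dd ℚ S3 (cz ℚ kD - ((-1 : ℤ) : ℚ) • cz ℚ kC - dd ℚ S3 φ) =
        dd ℚ S3 (cz ℚ kD) + dd ℚ S3 (cz ℚ kC) := by
      rw [map_sub, map_sub, dT_triv_dT, map_smul]
      simp
    rw [l5, cp, cp, cup_add_left] at l1
    rw [cp, cup_sub_right, cup_sub_right] at l4
    have := Submodule.sub_mem _ (Submodule.add_mem _ l3 l4) (Submodule.add_mem _ l1 l2)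
    convert this using 1
    rw [map_add]
    abel

theorem isGen_U : IsGen ℝ Uk (th yc) := by
  have hx : ‖(1 / 2 : ℂ)‖ < 1 := by norm_num
  refine isGen_of_one (γ := fib (1 / 2)) (isKnot_U.2 ▸ isKnot_U.1.flat)
    (isKnot_U.2 ▸ isKnot_U.1.isPreconnected)
    (isCocA_th (fun p _ => continuous_yc.continuousAt) fun p hp => hp) ?_
    (Or.inl (isHolA_yc_fib hx))
  exact (isMer_fib (B := univ) (by norm_num) hx isOpen_univ fun _ _ _ => trivial).mono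
    (subset_univ _)

theorem wind {a : ℝ → ℝ} {d : ℝ → ℂ} {w : ℤ} (hp : IsPattern a d w) {hP : S3 → S3 → ℤ}
    (hh : IsGen ℝ (range fun s => iota (a s) (d s)) hP) {w' : ℤ} (hw : IsHolA hP (fib 0) w')
    (F : Type) [Field F] : (w : F) = 0 ↔ (w' : F) = 0 := by
  have hK := hp.knot
  set P : ℝ → S3 := fun s => iota (a s) (d s) with hPdef
  have hx : ∀ s, ∃ r : ℝ, 0 < r ∧ xc (P s) = r * ex (a s) := fun s =>
    ⟨_, Real.sqrt_pos.2 (by nlinarith [hp.lt s, norm_nonneg (d s)]), xc_iota (hp.lt s).le⟩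
  obtain ⟨ϑ, cϑ, e⟩ := hK.exists_angle 0
  have hper : Function.Periodic (fun s => a s - w * s) 1 := fun s => by
    simp only [hp.pera]
    ring
  have hL : ∃ L : S3 → ℝ, ∀ s, L (P s) = a s - w * s := by
    refine ⟨fun p => a (Function.invFun P p) - w * Function.invFun P p, fun s => ?_⟩
    obtain ⟨n, hn⟩ := hK.inj _ _ (Function.invFun_eq (f := P) ⟨s, rfl⟩).symm
    have := hper.int_mul n s
    simp only [mul_one] at this
    simp only [hn]
    exact this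
  obtain ⟨L, hL⟩ := hL
  have cL : ContinuousOn L (range P) := by
    rintro _ ⟨s, rfl⟩
    refine Metric.tendsto_nhds.2 fun ε hε => ?_
    have hc : Continuous fun s => a s - w * s := hp.conta.sub (continuous_const.mul continuous_id)
    obtain ⟨U, hU, hUI⟩ := hK.nhds s (Metric.tendsto_nhds.1 (hc.continuousAt (x := s)) ε hε)
    rw [eventually_nhdsWithin_iff]
    filter_upwards [hU] with p hpU hpP
    obtain ⟨s', hs', rfl⟩ := hUI ⟨hpU, hpP⟩
    rw [hL, hL]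
    exact hs'
  have hc := th_cmp hK.isClosed (ϑ₁ := xc) (ϑ₂ := ϑ) (fun p _ => continuous_xc.continuousAt)
    (fun p _ => cϑ.continuousAt) (by rintro _ ⟨s, rfl⟩; rw [e]; exact ex_ne _) w cL (by
      rintro _ ⟨s, rfl⟩
      obtain ⟨r, hr, hr'⟩ := hx s
      refine ⟨r, hr, ?_⟩
      rw [hr', e, hL, ex_zpow, mul_assoc, ← ex_add]
      congr 2
      ring)
  obtain ⟨ψ, hψ⟩ := cz_coh (F := F) hc
  have e1 := chg_right (J := I3 F) (fun φ h => I3_loc h) I3_stokes (S₁ := (range P)ᶜ)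
    (S₂ := range P) (fun p _ => by simp) (cz_coc hh.1) hψ
  rw [cz_mul, cp_smul_right, map_smul] at e1
  have hcl : IsClosed (xc '' range P) := (hK.isCompact.image continuous_xc).isClosed
  have h0 : (0 : ℂ) ∈ (xc '' range P)ᶜ ∩ Metric.ball 0 1 := by
    refine ⟨?_, by simp⟩
    rintro ⟨_, ⟨s, rfl⟩, h⟩
    obtain ⟨r, hr, hr'⟩ := hx s
    rw [hr'] at h
    exact mul_ne_zero (by exact_mod_cast hr.ne') (ex_ne _) h
  obtain ⟨ε, hε, hB⟩ := Metric.isOpen_iff.1 (hcl.isOpen_compl.inter Metric.isOpen_ball) 0 h0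
  have hB1 : ∀ x ∈ Metric.ball (0 : ℂ) ε, ‖x‖ < 1 := fun x hx => by simpa using (hB hx).2
  obtain ⟨hcc, him⟩ := isCC_fib Metric.isOpen_ball (convex_ball (0 : ℂ) ε) hB1
  have hcoh : CohA hP (fun x y => w' * th yc x y) (RB (Metric.ball 0 ε)) := by
    rw [← him]
    refine hcc.cohA_of_hol (o := 0) (c := w') ?_ ?_ (Metric.mem_ball_self hε) hw ?_
    · rw [him]
      exact hh.1.mono fun p hp hp' => (hB hp).1 ⟨p, hp', rfl⟩
    · rw [him]
      exact IsCocA.mul' (isCocA_th (fun p _ => continuous_yc.continuousAt)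
        fun p hp h => (hB1 _ hp).ne ((yc_eq_zero_iff p).1 h)) w'
    · have := (isHolA_yc_fib (x := 0) (by simp)).mul_left w'
      rwa [mul_one] at this
  obtain ⟨φ, hφ⟩ := cz_coh (F := F) hcoh
  have e2 := chg_left (J := I3 F) (fun φ h => I3_loc h) I3_stokes (S₁ := RB (Metric.ball 0 ε))
    (S₂ := {p | xc p ≠ 0}) (θ := cz F (th xc)) (fun p _ => by
      by_cases h : xc p = 0
      · exact Or.inl (by simp [RB, h, hε])
      · exact Or.inr h) hφ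
    (cz_coc (isCocA_th (fun p _ => continuous_xc.continuousAt) fun p hp => hp))
  rw [cz_mul, map_smul, cp_smul_left, map_smul] at e2
  have n1 := n3_ne hK F cϑ e hh
  have n2 := n3_ne isKnot_U.1 F continuous_xc (c := 0) (k := th yc)
    (fun s => by rw [xc_iota (by simp)]; simp) (by rw [isKnot_U.2]; exact isGen_U)
  have e3 : (w : F) * n3 F hP ϑ = (w' : F) * n3 F (th yc) xc := e1.symm.trans e2
  constructor
  · intro h
    rw [h, zero_mul] at e3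
    exact (mul_eq_zero.1 e3.symm).resolve_right n2
  · intro h
    rw [h, zero_mul] at e3
    exact (mul_eq_zero.1 e3).resolve_right n1

end Pool.Agent.HH
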