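import Pool.Agent.P.MP_c8dc46_gt.Reg2
import Pool.Agent.P.MP_c8dc46_gt.Sign

/-!
The degree cocycle on the pattern and on the knot `C`.
-/

open Set Topology

namespace Pool.Agent.HH

namespace RDegA

variable {r s : Fin 2 → ℕ} {P : ℝ → S3} (g : Geo r s P)

theorem cohA_neg {Y M : Type} [TopologicalSpace Y] [AddCommGroup M] {f f' : Y → Y → M}
    {S : Set Y} (h : CohA f f' S) : CohA (fun p q => -f p q) (fun p q => -f' p q) S := by
  obtain ⟨k, hk⟩ := h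
  refine ⟨fun p => -k p, fun p hp => ?_⟩
  obtain ⟨U, hU, H⟩ := hk p hp
  refine ⟨U, hU, fun x hx y hy => ?_⟩
  have := H x hx y hy
  simp only at this ⊢
  rw [show -f x y - -f' x y = -(f x y - f' x y) by abel, this]
  abel

theorem loop_mono {Y : Type} [TopologicalSpace Y] {γ : ℝ → Y} {S T : Set Y} (h : IsLoop γ S)
    (hs : ∀ t, γ t ∈ T) : IsLoop γ T := ⟨h.1, h.2.1, hs⟩

theorem lt_one : ∀ x ∈ Metric.ball (0 : ℂ) (g.a + 7 * g.ρ), ‖x‖ < 1 := fun x hx => by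
  have := g.rad.2
  rw [mem_ball_zero_iff] at hx
  linarith [this.1, this.2]

theorem ball_sub : RB (Metric.ball 0 (g.a + 7 * g.ρ)) ⊆ (range P)ᶜ := by
  rintro _ hp ⟨t, rfl⟩
  exact (g.thin t).not_gt (mem_ball_zero_iff.1 hp)

theorem zero_mem : (0 : ℂ) ∈ Metric.ball (0 : ℂ) (g.a + 7 * g.ρ) := by
  have := g.rad
  exact Metric.mem_ball_self (by linarith [this.1, this.2.1])

theorem ball_sub_ball {x₀ : ℂ} {c d : ℝ} (h : ‖x₀‖ + c ≤ d) :
    Metric.ball x₀ c ⊆ Metric.ball 0 d :=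
  Metric.ball_subset_ball' (by rw [dist_zero_right]; linarith)

theorem isOpen_re : IsOpen {x : ℂ | -1 / 2 < x.re} :=
  isOpen_lt continuous_const Complex.continuous_re

theorem isOpen_half : IsOpen {x : ℂ | ‖x‖ < 1 ∧ -1 / 2 < x.re} :=
  (isOpen_lt continuous_norm continuous_const).inter isOpen_re

theorem convex_half : Convex ℝ {x : ℂ | ‖x‖ < 1 ∧ -1 / 2 < x.re} := by
  have h1 : Convex ℝ {x : ℂ | ‖x‖ < 1} := by
    simpa only [ball_zero_eq] using convex_ball (0 : ℂ) 1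
  exact h1.inter (convex_halfSpace_re_gt _)

theorem half_mem : (1 / 2 : ℂ) ∈ {x : ℂ | ‖x‖ < 1 ∧ -1 / 2 < x.re} := by
  constructor <;> norm_num

theorem mer_half : IsMer ℝ (RB {x : ℂ | -1 / 2 < x.re}) Uk (fib (1 / 2)) := by
  refine isMer_fib (by norm_num) half_mem.1 isOpen_re fun t ht _ => ?_
  have h1 : ‖(1 / 2 : ℂ)‖ = 1 / 2 := by norm_num
  rw [h1] at ht ⊢
  have : (((t / (1 / 2) : ℝ) : ℂ) * (1 / 2)) = ((t : ℝ) : ℂ) := by push_cast; ring
  rw [this, mem_ofPred_eq, Complex.ofReal_re]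
  linarith

theorem mer_P : IsMer ℝ univ (range P) (g.h ∘ fib (1 / 2)) :=
  mer_half.image (OE.of_homeomorph g.h isOpen_univ) (subset_univ _)
    fun p hp => g.hP p (le_of_lt hp)

theorem h_not_eta {p : S3} (hp : -1 / 2 ≤ (xc p).re) (i : Fin 2) : g.h p ∉ eta (g.xi i) := by
  intro h
  have h1 := (g.hz p hp).2
  rw [show xc (g.h p) = g.xi i from h, g.norm_xi] at h1
  linarith [g.rad.2.1]

theorem mer_C : IsMer ℝ univ (range g.C) (g.h ∘ fib (1 / 2)) :=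
  mer_half.image (OE.of_homeomorph g.h isOpen_univ) (subset_univ _) fun p hp => by
    have hp' : -1 / 2 ≤ (xc p).re := le_of_lt hp
    rw [← g.fl_h hp', g.fl_mem_C fun h => h.elim (h_not_eta g hp' 0) (h_not_eta g hp' 1)]
    exact g.hP p hp'

theorem loop_h {x : ℂ} (hx : ‖x‖ < 1) (hr : -1 / 2 < x.re) : IsLoop (g.h ∘ fib x) g.Mid := by
  have h := isLoop_fib (mem_univ x) hx.le
  refine ⟨g.h.continuous.comp h.1, fun t => congrArg g.h (h.2.1 t), fun t => ?_⟩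
  exact g.h_mem_Mid (by rw [xc_fib hx.le]; exact hr.le) (RLKb.yc_fib_ne hx t)

theorem fl_loop {x : ℂ} (hx : ‖x‖ < 1) (hr : -1 / 2 < x.re) :
    g.fl ∘ g.h ∘ fib x = g.h ∘ fib x :=
  funext fun _ => g.fl_h (by rw [xc_fib hx.le]; exact hr.le)

theorem disj (i : Fin 2) : Disjoint (range P) (RB (Metric.ball (g.xi i) (3 * g.ρ))) := by
  refine Set.disjoint_right.2 fun p hp => ball_sub g (ball_sub_ball ?_ hp)
  rw [g.norm_xi]
  linarith [g.rad.2.1]

theorem xi_le (i : Fin 2) : ‖g.xi i‖ + 3 * g.ρ ≤ 1 := by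
  rw [g.norm_xi]
  linarith [g.rad.2.1, g.rad.2.2]

theorem coc_ret {k : S3 → S3 → ℤ} (hk : IsCocA k (range g.C)ᶜ) (i : Fin 2) {κ : S3 → S3}
    (hκ : (g.lk i).IsRet κ) : IsCocA (pb κ k) (g.lk i).Kᶜ :=
  hk.pb hκ.cont (hκ.maps.mono_right (g.Oc_subset_C i))

theorem lon_zero {k : S3 → S3 → ℤ} (hk : IsCocA k (range g.C)ᶜ) (i : Fin 2) :
    IsHolA (pb g.fl k) (lon (g.xi i) (5 * g.ρ / 2)) 0 := by
  obtain ⟨κ, hκ⟩ := (g.lk i).exists_ret g.rad (sg_cases i)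
  have h1 := (g.lk i).hol_lam_zero g.rad (sg_cases i) (coc_ret g hk i hκ)
  have h2 := (g.lk i).isLoop_lam g.rad (sg_cases i)
  rw [isHolA_pb, g.fl_lon]
  exact h1.cohA (CohA.of_locEq (hκ.locEq g.rad k)) (loop_mono h2 fun t => (h2.2.2 t).1)

end RDegA

open RDegA

namespace Geo

variable {r s : Fin 2 → ℕ} {P : ℝ → S3} (g : Geo r s P) {hP k : S3 → S3 → ℤ} {w ε : ℤ}

theorem fibP (hg : IsCocA hP (range P)ᶜ) (hw : IsHolA hP (fib 0) w) (x : ℂ)
    (hx : ‖x‖ < g.a + 7 * g.ρ) : IsHolA hP (fib x) w :=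
  isHolA_fib_const Metric.isOpen_ball (convex_ball _ _).isPreconnected (lt_one g)
    (hg.mono (ball_sub g)) (zero_mem g) (mem_ball_zero_iff.2 hx) hw

theorem exists_eps (hg : IsGen ℝ (range P) hP) : ∃ ε : ℤ, (ε = 1 ∨ ε = -1) ∧
    ∀ x : ℂ, ‖x‖ < 1 → -1 / 2 < x.re → IsHolA hP (g.h ∘ fib x) ε := by
  have hc : IsCocA (pb g.h hP) (RB {x : ℂ | ‖x‖ < 1 ∧ -1 / 2 < x.re}) :=
    hg.1.pb (fun _ _ => g.h.continuous.continuousAt) fun p hp h =>
      hp.1.ne ((yc_eq_zero_iff p).1 ((g.hP p hp.2.le).1 h))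
  have key : ∀ ε : ℤ, IsHolA hP (g.h ∘ fib (1 / 2)) ε →
      ∀ x : ℂ, ‖x‖ < 1 → -1 / 2 < x.re → IsHolA hP (g.h ∘ fib x) ε := fun ε h x h1 h2 =>
    (isHolA_pb _ _ _ _).1 (isHolA_fib_const isOpen_half convex_half.isPreconnected
      (fun _ hy => hy.1) hc half_mem ⟨h1, h2⟩ ((isHolA_pb _ _ _ _).2 h))
  rcases hg.2 _ (mer_P g) with h | h
  · exact ⟨1, Or.inl rfl, key _ h⟩
  · exact ⟨-1, Or.inr rfl, key _ h⟩

theorem lonP (hg : IsCocA hP (range P)ᶜ) {x₀ : ℂ} {r' : ℝ} (hr : 0 ≤ r')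
    (h : ‖x₀‖ + r' < g.a + 7 * g.ρ) : IsHolA hP (lon x₀ r') 0 :=
  isHolA_lon_zero (r' := g.a + 7 * g.ρ - ‖x₀‖) hr (by linarith)
    (by linarith [g.rad.2.1, g.rad.2.2])
    (hg.mono fun _ hp => ball_sub g (ball_sub_ball (by linarith) hp))

theorem hf_Mid (hg : IsGen ℝ (range P) hP) {M : Type} [AddCommGroup M] {x : S3 → S3 → M}
    (hx : IsCocA x g.Mid) (h : ∀ i, IsHolA x (lon (g.xi i) (5 * g.ρ / 2)) 0) :
    ∃ c : M, CohA x (fun p q => hP p q • c) g.Mid := by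
  have hr := g.rad
  exact hf_two g.knot hg (r' := 3 * g.ρ) (by linarith [hr.2.1]) (by linarith [hr.2.1])
    (xi_le g 0) (xi_le g 1) (by rw [g.norm_xi_sub]; linarith [hr.1, hr.2.1, hr.2.2])
    (disj g 0) (disj g 1) hx (h 0) (h 1)

theorem hf_side (hg : IsGen ℝ (range P) hP) (i : Fin 2) {M : Type} [AddCommGroup M]
    {x : S3 → S3 → M} (hx : IsCocA x (range P ∪ eta (g.xi i))ᶜ)
    (h : IsHolA x (lon (g.xi i) (5 * g.ρ / 2)) 0) :
    ∃ c : M, CohA x (fun p q => hP p q • c) (range P ∪ eta (g.xi i))ᶜ := by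
  have hr := g.rad
  exact hf_one g.knot hg (r' := 3 * g.ρ) (by linarith [hr.2.1]) (by linarith [hr.2.1])
    (xi_le g i) (disj g i) hx h

theorem midC_sign (hg : IsGen ℝ (range P) hP) (hk : IsGen ℝ (range g.C) k) :
    CohA (pb g.fl k) hP g.Mid ∨ CohA (pb g.fl fun p q => -k p q) hP g.Mid := by
  obtain ⟨c, hc⟩ := g.hf_Mid hg (hk.1.pb g.fl_maps.2 g.fl_maps.1) (lon_zero g hk.1)
  have h1 : ∀ e : ℤ, IsHolA hP (g.h ∘ fib (1 / 2)) e → IsHolA k (g.h ∘ fib (1 / 2)) (e * c) := by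
    intro e he
    have := (he.smul c).cohA hc.symm (loop_h g half_mem.1 half_mem.2)
    rwa [isHolA_pb, fl_loop g half_mem.1 half_mem.2] at this
  have h2 : c = 1 ∨ c = -1 := by
    rcases hg.2 _ (mer_P g) with h | h <;> rcases hk.2 _ (mer_C g) with h' | h' <;>
      have := (h1 _ h).unique h' <;> omega
  rcases h2 with rfl | rfl
  · exact Or.inl (by simpa using hc)
  · have h3 := cohA_neg hc
    simp only [smul_eq_mul, mul_neg, mul_one, neg_neg] at h3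
    exact Or.inr h3

theorem fibC_of (hg : IsCocA hP (range P)ᶜ) (hw : IsHolA hP (fib 0) w)
    (hm : CohA (pb g.fl k) hP g.Mid) (x : ℂ) (hx : ‖x‖ < g.a + 7 * g.ρ) (hi : ∀ i, x ≠ g.xi i) :
    IsHolA k (g.fl ∘ fib x) w := by
  have h1 := isLoop_fib (mem_singleton x) (lt_one g x (mem_ball_zero_iff.2 hx)).le
  have h2 : RB {x} ⊆ g.Mid := g.RB_subset_Mid (by rintro _ rfl; exact ⟨hx.le, hi⟩)
  exact (isHolA_pb _ _ _ _).1
    ((g.fibP hg hw x hx).cohA hm.symm (loop_mono h1 fun t => h2 (h1.2.2 t)))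

theorem fibqC_of (hm : CohA (pb g.fl k) hP g.Mid) {x : ℂ} (hx : ‖x‖ < 1) (hr : -1 / 2 < x.re)
    (hε : IsHolA hP (g.h ∘ fib x) ε) : IsHolA k (g.h ∘ fib x) ε := by
  have := hε.cohA hm.symm (loop_h g hx hr)
  rwa [isHolA_pb, fl_loop g hx hr] at this

theorem compC_of (hk : IsCocA k (range g.C)ᶜ)
    (hf : ∀ x, ‖x‖ < g.a + 7 * g.ρ → (∀ i, x ≠ g.xi i) → IsHolA k (g.fl ∘ fib x) w) (i : Fin 2)
    {κ : S3 → S3} (hκ : (g.lk i).IsRet κ) :
    CohA (pb κ k) (fun x y => w * th (g.lk i).ϑ x y) (g.lk i).Kᶜ := by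
  obtain ⟨ha, hρ, h8⟩ := g.rad
  obtain ⟨x, hx⟩ : ∃ x : ℂ, x = g.xi i + (5 * g.ρ / 2 : ℝ) := ⟨_, rfl⟩
  have hd : ‖x - g.xi i‖ = 5 * g.ρ / 2 := by
    rw [hx, add_sub_cancel_left, Complex.norm_real, Real.norm_of_nonneg (by linarith)]
  have hn : ‖x‖ ≤ g.a + 5 * g.ρ / 2 := by
    have := norm_le_norm_add_norm_sub' x (g.xi i)
    rwa [g.norm_xi, hd] at this
  have h1 : ‖x‖ < 1 := by linarith
  have hre : -1 / 2 ≤ sg i * x.re := by
    have := RLKb.far (a := g.a) (sg_cases i) x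
    rw [show ‖x - ((sg i * g.a : ℝ) : ℂ)‖ = 5 * g.ρ / 2 from hd] at this
    linarith
  have hne : ∀ j, x ≠ g.xi j := by
    intro j hj
    have h2 := g.norm_xi_sub
    rw [hj] at hd
    fin_cases i <;> fin_cases j <;> simp only [Fin.zero_eta, Fin.mk_one, sub_self, norm_zero] at hd
    · linarith
    · rw [norm_sub_rev] at hd; linarith
    · linarith
    · linarith
  have he : g.fl ∘ fib x = (g.lk i).F ∘ fib x :=
    funext fun _ => g.fl_eq i (by rwa [xc_fib h1.le])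
  have hl : IsLoop ((g.lk i).F ∘ fib x) ((g.lk i).Oc (3 * g.ρ)) :=
    loop_mono ((g.lk i).isLoop_fib g.rad (sg_cases i) (hne i) h1) fun t =>
      ((g.lk i).mem_Oc_iff (by linarith) fun h => hne i ((xc_fib h1.le t).symm.trans h)).2 (by
        rw [xc_fib h1.le]
        exact hd.trans_lt (by linarith))
  have h3 := (he ▸ hf x (by linarith) hne).cohA (CohA.of_locEq (hκ.locEq g.rad k).symm) hl
  have h4 := (g.lk i).comp_class g.rad (sg_cases i) (coc_ret g hk i hκ)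
    (le_of_le_of_eq (by linarith) hd.symm) h1 h3
  simpa only [smul_eq_mul, mul_comm] using h4

/-- On the composing space the generator is `w` times the angle of `y`. -/
theorem cohA_core (hg : IsCocA hP (range P)ᶜ) (hw : IsHolA hP (fib 0) w) :
    CohA hP (fun x y => w * th yc x y) (RB (Metric.ball 0 (g.a + 7 * g.ρ))) := by
  obtain ⟨h1, h2⟩ := isCC_fib Metric.isOpen_ball (convex_ball 0 (g.a + 7 * g.ρ)) (lt_one g)
  have h3 : IsCocA (th yc) (RB (Metric.ball 0 (g.a + 7 * g.ρ))) :=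
    isCocA_th (fun _ _ => continuous_yc.continuousAt) fun p hp h =>
      (lt_one g _ hp).ne ((yc_eq_zero_iff p).1 h)
  have h4 := (isHolA_yc_fib (lt_one g 0 (zero_mem g))).mul_left w
  rw [mul_one] at h4
  rw [← h2]
  exact h1.cohA_of_hol (h2 ▸ hg.mono (ball_sub g)) (h2 ▸ RSign.IsCocA.mul' h3 w) (zero_mem g)
    hw h4

theorem cohA_th_So (i : Fin 2) : CohA (th fun p => xc p - g.xi i) (th xc) g.So := by
  refine cohA_th_of_re_pos (fun _ _ => continuous_xc.continuousAt)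
    (fun _ _ => (continuous_xc.sub continuous_const).continuousAt) fun p hp => ?_
  have h1 : g.a + 6 * g.ρ < ‖xc p‖ := hp.1.1
  obtain ⟨ha, hρ, -⟩ := g.rad
  have h2 : (xc p * star (xc p)).re = ‖xc p‖ ^ 2 := by
    rw [Complex.star_def, Complex.mul_conj, Complex.ofReal_re, Complex.normSq_eq_norm_sq]
  have h3 : (g.xi i * star (xc p)).re ≤ g.a * ‖xc p‖ := by
    have := Complex.re_le_norm (g.xi i * star (xc p))
    rwa [norm_mul, norm_star, g.norm_xi] at this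
  rw [sub_mul, Complex.sub_re, h2]
  nlinarith

end Geo

end Pool.Agent.HH
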