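import Pool.Agent.P.MP_c8dc46_gt.SDefs
import Pool.Agent.P.MP_c8dc46_gt.DegA

/-!
The composing space, and compactly supported representatives.
-/

open Set Topology

namespace Pool.Agent.HH

theorem Coef.exists_W3_of_ends {F G : Type} [Field F] [StarRing F] [AddCommGroup G] [Module F G]
    (cf : Coef F G) {τ : S3 → S3 → Module.End F G} {M K T : Set S3} (hc : cf.CompatT τ)
    (hτ : IsCoc τ M) (hK : IsCompact K) (hKM : K ⊆ M) (hM : M ⊆ interior K ∪ T)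
    {b : List S3 → Qk cf.T cf.m} (hb : dT (cf.br τ) b ∈ N F _ 3 M) (hT : Exa (cf.br τ) 2 T b) :
    ∃ a ∈ cf.W3 τ M, Exa (cf.br τ) 2 M (cf.red a - b) := by
  obtain ⟨φ, hφ⟩ := hT
  have hcomm : ∀ x y, Commute (τ x y) cf.T := fun x y => (hc x y).1
  have hbr : IsCoc (cf.br τ) M := hτ.bar hcomm _
  set b1 := b - dT (cf.br τ) φ with hb1
  obtain ⟨a, ha, ha0⟩ := exists_cm_lift (pk cf.T cf.m) (Submodule.mkQ_surjective _)
    (cut F _ K b1)
  have hKc : cut F _ K b1 ∈ N F _ 2 Kᶜ := by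
    have := cut_mem_N_compl K 2 b1 (R := F)
    rwa [hK.isClosed.closure_eq] at this
  refine ⟨a, ⟨?_, K, hK, hKM, ?_⟩, -φ, ?_⟩
  · have e : cf.red (dT τ a) = dT (cf.br τ) (cut F _ K b1) := by
      rw [← ha]; exact cm_pk_dT hcomm _ a
    rw [e, ← union_compl_self K, mem_N_union]
    refine ⟨N_mono hKM ?_, dT_mem_N _ hKc⟩
    rw [dT_cut]
    refine Submodule.add_mem _ (cut_mem_N K ?_) (N_mono hM (mem_N_union.2 ⟨?_, lc_mem_N _ _ hφ⟩))
    · rw [hb1, map_sub]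
      exact Submodule.sub_mem _ hb (dT_dT_mem_N hbr 3 φ)
    · refine lc_mem_N_of_locEq _ ((jmp_locEq K).mono fun x hx hf => hf.2 hx) 3 b1
  · exact N_mono (fun x hx => hx.2) (map_mem_N hKc ha0)
  · have e : cf.red a - b - dT (cf.br τ) (-φ) = -(b1 - cut F _ K b1) := by
      have : cf.red a = cut F _ K b1 := ha
      rw [this, map_neg, hb1]; abel
    rw [e]
    refine Submodule.neg_mem _ (N_mono hM (mem_N_union.2 ⟨sub_cut_mem_N K (by norm_num) b1, ?_⟩))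
    exact Submodule.sub_mem _ hφ (cut_mem_N K hφ)

theorem RQH1.self_zero {Y M : Type} [TopologicalSpace Y] [AddCommGroup M] {O : Set Y}
    {x : Y → Y → M} (hx : IsCocA x O) {p : Y} (hp : p ∈ O) : x p p = 0 := by
  obtain ⟨U, hU, h⟩ := hx p hp
  have hpU := mem_of_mem_nhds hU
  simpa using h p hpU p hpU p hpU

/-- A meridian bounds a disc in the domain of its chart. -/
theorem IsMer.holA_zero {Y V M : Type} [TopologicalSpace Y] [TopologicalSpace V] [AddCommGroup M]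
    {O A : Set Y} {γ : ℝ → Y} (h : IsMer V O A γ) {x : Y → Y → M} (hx : IsCocA x O) :
    IsHolA x γ 0 := by
  obtain ⟨e, hO, -, c, r, hr, ht, hγ⟩ := h
  have hn : ∀ q : ℝ × ℝ, ‖((r * Real.sin q.2 : ℝ) : ℂ) * ex q.1‖ ≤ r := fun q => by
    rw [RFib.norm_mul_ex, abs_mul, abs_of_pos hr]
    exact mul_le_of_le_one_right hr.le (Real.abs_sin_le_one _)
  have hcont : Continuous fun q : ℝ × ℝ => (c, ((r * Real.sin q.2 : ℝ) : ℂ) * ex q.1) := by
    have := continuous_ex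
    fun_prop
  have key := IsHolA.homotopy (W := ℝ) (O := univ) isOpen_univ convex_univ
    (Φ := fun q => e.symm (c, ((r * Real.sin q.2 : ℝ) : ℂ) * ex q.1))
    (e.continuousOn_symm.comp hcont.continuousOn fun q _ => ht _ (hn q))
    (fun s w => by simp only [RFib.ex_add_one]) (S := O)
    (fun q _ => hO (e.map_target (ht _ (hn q)))) hx (o := 0) (o' := Real.pi / 2) (mem_univ _)
    (mem_univ _) (c := 0) (by
      simp only [Real.sin_zero, mul_zero, Complex.ofReal_zero, zero_mul]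
      exact isHolA_const (RQH1.self_zero hx (hO (e.map_target (ht 0 (by simpa using hr.le))))))
  simp only [Real.sin_pi_div_two, mul_one] at key
  rwa [show γ = fun s => e.symm (c, r * ex s) from funext hγ]

namespace RQH1

theorem coc_zero {Y : Type} [TopologicalSpace Y] (S : Set Y) :
    IsCocA (fun _ _ => (0 : ℤ)) S := fun _ _ => ⟨univ, Filter.univ_mem, by simp⟩

theorem coc_mul {Y : Type} [TopologicalSpace Y] {h : Y → Y → ℤ} {S : Set Y} (hh : IsCocA h S)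
    (w : ℤ) : IsCocA (fun x y => w * h x y) S := by
  intro q hq
  obtain ⟨U, hU, h1⟩ := hh q hq
  exact ⟨U, hU, fun x hx y hy z hz => by rw [← mul_add, h1 x hx y hy z hz]⟩

theorem hol_zero {Y : Type} [TopologicalSpace Y] (γ : ℝ → Y) :
    IsHolA (fun _ _ => (0 : ℤ)) γ 0 :=
  ⟨fun _ => 0, fun _ => ⟨univ, Filter.univ_mem, by simp⟩, by simp⟩

theorem coc_xc (x₁ : ℂ) {S : Set S3} (h : ∀ q ∈ S, xc q ≠ x₁) :
    IsCocA (th fun q => xc q - x₁) S :=
  isCocA_th (fun _ _ => (continuous_xc.sub continuous_const).continuousAt)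
    fun q hq => sub_ne_zero.2 (h q hq)

theorem hol_yc_lon {x₀ : ℂ} {r : ℝ} (hr : 0 ≤ r) (h1 : ‖x₀‖ + r < 1) :
    IsHolA (th yc) (lon x₀ r) 0 := by
  refine isHolA_th (α := fun _ => 0) continuous_const (by simp) fun s => ?_
  obtain ⟨c, hc, h⟩ := yc_lon hr h1 s
  exact ⟨c, hc, by rw [h, RFib.ex_zero, mul_one]⟩

theorem exa_disj {Y R E : Type} [TopologicalSpace Y] [CommRing R] [AddCommGroup E] [Module R E]
    {τ : Y → Y → Module.End R E} {U₁ U₂ : Set Y} (h₁ : IsOpen U₁) (h₂ : IsOpen U₂)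
    (hd : ∀ q ∈ U₁, q ∉ U₂) {a : List Y → E} (a₁ : Exa τ 2 U₁ a) (a₂ : Exa τ 2 U₂ a) :
    Exa τ 2 (U₁ ∪ U₂) a :=
  exa_union h₁ h₂ (fun _ _ q hq => absurd hq.2 (hd q hq.1)) a₁ a₂

/-- A fibre over the half plane shrinks to a point of the unknot. -/
theorem fib_zero {M : Type} [AddCommGroup M] {f : S3 → S3 → M} {x : ℂ} (hx : ‖x‖ ≤ 1)
    (hr : -1 / 2 < x.re) (hf : IsCocA f (RB {x | -1 / 2 < x.re})) : IsHolA f (fib x) 0 := by
  have hn : ∀ t : ℝ, ‖x + ((Real.sin t ^ 2 : ℝ) : ℂ) * (1 - x)‖ ≤ 1 := fun t => by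
    have h0 := sq_nonneg (Real.sin t)
    have h1 := Real.sin_sq_le_one t
    have e : x + ((Real.sin t ^ 2 : ℝ) : ℂ) * (1 - x) =
        ((1 - Real.sin t ^ 2 : ℝ) : ℂ) * x + ((Real.sin t ^ 2 : ℝ) : ℂ) := by push_cast; ring
    rw [e]
    refine (norm_add_le _ _).trans ?_
    rw [norm_mul, Complex.norm_real, Complex.norm_real, Real.norm_of_nonneg h0,
      Real.norm_of_nonneg (by linarith)]
    nlinarith
  have key := IsHolA.homotopy (W := ℝ) (O := univ) isOpen_univ convex_univ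
    (Φ := fun q => fib (x + ((Real.sin q.2 ^ 2 : ℝ) : ℂ) * (1 - x)) q.1)
    (RFib.continuousOn_fib (by fun_prop) continuous_fst fun q _ => hn q.2)
    (fun s w => RFib.fib_add_one _ _) (S := RB {x | -1 / 2 < x.re})
    (fun q _ => by
      have h0 := sq_nonneg (Real.sin q.2)
      have h1 := Real.sin_sq_le_one q.2
      have h2 : x.re ≤ 1 := (Complex.re_le_norm x).trans hx
      change -1 / 2 < (xc _).re
      rw [xc_fib (hn q.2), Complex.add_re, Complex.re_ofReal_mul, Complex.sub_re, Complex.one_re]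
      nlinarith) hf (o := Real.pi / 2) (o' := 0) (mem_univ _) (mem_univ _) (c := 0) (by
      have e : (fun s : ℝ => fib (x + ((Real.sin (Real.pi / 2) ^ 2 : ℝ) : ℂ) * (1 - x)) s) =
          fun _ => fib 1 0 := by
        funext s
        have e1 : x + ((Real.sin (Real.pi / 2) ^ 2 : ℝ) : ℂ) * (1 - x) = 1 := by simp
        rw [e1]
        apply RFib.ext'
        · rw [xc_fib (by simp), xc_fib (by simp)]
        · rw [yc_fib (by simp), yc_fib (by simp)]; simp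
      rw [e]
      refine isHolA_const (self_zero hf ?_)
      change -1 / 2 < (xc _).re
      rw [xc_fib (by simp)]
      norm_num)
  simpa using key

variable {p m : ℕ} {z₀ : ℂ} {u v : ℂˣ} {h θ₁ θ₂ : S3 → S3 → ℤ} {γ : ℝ → S3}

theorem comm (hp : CP ℂ p m z₀) (x y : S3) :
    Commute (mtau ℂ ℂ u v h θ₁ θ₂ x y) (cf1 hp).T :=
  (commute_shp_Tm _ p z₀).smul_left _

theorem ac_scalar (hp : CP ℂ p m z₀) {k₁ k₂ : ℤ} (hh : IsHolA h γ 0) (h₁ : IsHolA θ₁ γ k₁)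
    (h₂ : IsHolA θ₂ γ k₂) (hne : u ^ k₁ * v ^ k₂ ≠ 1) :
    LoopAc ((cf1 hp).br (mtau ℂ ℂ u v h θ₁ θ₂)) γ := by
  have := (isHol_mtau (W := ℂ) u v hh h₁ h₂).bar (comm hp) (cf1 hp).m
  rw [shp_zero] at this
  exact ⟨_, this.2, bij_of_scalar _ _ fun e => hne (Units.ext e)⟩

theorem hol_shp (hp : CP ℂ p m z₀) {k : ℤ} (hh : IsHolA h γ k) (h₁ : IsHolA θ₁ γ 0)
    (h₂ : IsHolA θ₂ γ 0) :
    IsHol ((cf1 hp).br (mtau ℂ ℂ u v h θ₁ θ₂)) γ (barE (Tm ℂ ℂ p z₀) m (shp ℂ ℂ k)) := by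
  have := (isHol_mtau (W := ℂ) u v hh h₁ h₂).bar (comm hp) (cf1 hp).m
  rw [zpow_zero, zpow_zero, mul_one, Units.val_one, one_smul] at this
  exact this.2

theorem ac_shp (hp : CP ℂ p m z₀) (hz : z₀ ≠ 1) {k : ℤ} (hk : k = 1 ∨ k = -1)
    (hh : IsHolA h γ k) (h₁ : IsHolA θ₁ γ 0) (h₂ : IsHolA θ₂ γ 0) :
    LoopAc ((cf1 hp).br (mtau ℂ ℂ u v h θ₁ θ₂)) γ := by
  have h0 : z₀ ≠ 0 := by
    rintro rfl
    simpa using hp.unit
  refine ⟨_, hol_shp hp hh h₁ h₂, bij_of_pow h0 (a := p) (j := k) ?_ ?_ ?_ m⟩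
  · change _ * _ = _ * _
    rw [← shp_add, ← shp_add, add_comm]
  · rw [shp_pow, mul_comm]
  · rcases hk with rfl | rfl
    · simpa using hz
    · simpa using hz

end RQH1

variable {r s : Fin 2 → ℕ} {P : ℝ → S3} (g : Geo r s P) {p m : ℕ} {u v : ℂˣ} {w : ℤ}

theorem Geo.isCoc_sysQ (u v : ℂˣ) (w : ℤ) : IsCoc (sysQ g u v w) g.Qo := by
  obtain ⟨ha, hρ, h8⟩ := g.rad
  refine isCoc_mtau u v (RQH1.coc_mul (isCocA_th (fun _ _ => continuous_yc.continuousAt)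
    fun q hq h0 => ?_) w) (RQH1.coc_xc _ fun q hq h0 => ?_) (RQH1.coc_xc _ fun q hq h0 => ?_)
  · have h1 := (yc_eq_zero_iff q).1 h0
    have h2 : ‖xc q‖ < g.a + 5 * g.ρ := hq.1
    linarith
  · have h2 : 3 * g.ρ < ‖xc q - g.xi 0‖ := hq.2 0
    rw [h0, sub_self, norm_zero] at h2
    linarith
  · have h2 : 3 * g.ρ < ‖xc q - g.xi 1‖ := hq.2 1
    rw [h0, sub_self, norm_zero] at h2
    linarith

theorem isCoc_sysS (u : ℂˣ) {hP : S3 → S3 → ℤ} (hg : IsCocA hP (range P)ᶜ) :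
    IsCoc (sysS u hP) (Sp P) := by
  refine isCoc_mtau u 1 (hg.mono fun q hq h => hq (Or.inl h)) ?_ (RQH1.coc_zero _)
  exact isCocA_th (fun _ _ => continuous_xc.continuousAt) fun q hq h => hq (Or.inr h)

theorem Geo.So_subset_Sp : g.So ⊆ Sp P := by
  obtain ⟨ha, hρ, h8⟩ := g.rad
  rintro q ⟨⟨h1, h2⟩, -⟩ (h | h)
  · exact h2 h
  · have h3 : g.a + 6 * g.ρ < ‖xc q‖ := h1
    have h4 : xc q = 0 := h
    rw [h4, norm_zero] at h3
    linarith

namespace RQH1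

theorem sg_pm (i : Fin 2) : sg i = 1 ∨ sg i = -1 := by
  unfold sg; split_ifs <;> simp

theorem ac_xi {z₀ : ℂ} (hp : CP ℂ p m z₀) (hu1 : u ≠ 1) (hv1 : v ≠ 1) (i : Fin 2) :
    LoopAc ((cf1 hp).br (sysQ g u v w)) (lon (g.xi i) (7 * g.ρ / 2)) := by
  obtain ⟨ha, hρ, h8⟩ := g.rad
  have hn := g.norm_xi i
  have h0 : IsHolA (fun x y => w * th yc x y) (lon (g.xi i) (7 * g.ρ / 2)) 0 := by
    simpa using (hol_yc_lon (x₀ := g.xi i) (r := 7 * g.ρ / 2) (by linarith)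
      (by linarith)).mul_left w
  have h1 := fun j => isHolA_xc_lon (x₀ := g.xi i) (x₁ := g.xi j) (r := 7 * g.ρ / 2)
    (by linarith) (by linarith)
  have h2 := g.norm_xi_sub
  fin_cases i
  · refine ac_scalar hp h0 ((h1 0).1 rfl) ((h1 1).2 ?_) (by simpa using hu1)
    change _ < ‖g.xi 1 - g.xi 0‖
    rw [norm_sub_rev]; linarith
  · refine ac_scalar hp h0 ((h1 0).2 ?_) ((h1 1).1 rfl) (by simpa using hv1)
    change _ < ‖g.xi 0 - g.xi 1‖
    linarith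

theorem ac_out {z₀ : ℂ} (hp : CP ℂ p m z₀) (huv : u * v ≠ 1) :
    LoopAc ((cf1 hp).br (sysQ g u v w)) (lon 0 (g.a + 19 * g.ρ / 4)) := by
  obtain ⟨ha, hρ, h8⟩ := g.rad
  have h0 : IsHolA (fun x y => w * th yc x y) (lon 0 (g.a + 19 * g.ρ / 4)) 0 := by
    simpa using (hol_yc_lon (x₀ := 0) (r := g.a + 19 * g.ρ / 4) (by linarith)
      (by rw [norm_zero]; linarith)).mul_left w
  have h1 := fun j => isHolA_xc_lon_in (x₀ := 0) (x₁ := g.xi j) (r := g.a + 19 * g.ρ / 4)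
    (by rw [norm_zero]; linarith) (by rw [sub_zero, g.norm_xi]; linarith)
  exact ac_scalar hp h0 (h1 0) (h1 1) (by simpa using huv)

/-- One half of the base of the composing space. -/
def Bh (i : Fin 2) : Set ℂ := Metric.ball 0 (g.a + 5 * g.ρ) ∩ {x | -1 / 4 < sg i * x.re}

theorem Bh_open (i : Fin 2) : IsOpen (Bh g i) :=
  Metric.isOpen_ball.inter (isOpen_lt continuous_const (by fun_prop))

theorem Bh_convex (i : Fin 2) : Convex ℝ (Bh g i) :=
  (convex_ball _ _).inter (convex_halfSpace_gt ⟨fun x y => by simp [mul_add],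
    fun c x => by simp [mul_left_comm]⟩ _)

theorem Bh_lt (i : Fin 2) : ∀ x ∈ Bh g i, ‖x‖ < 1 := fun x hx => by
  obtain ⟨ha, hρ, h8⟩ := g.rad
  have := mem_ball_zero_iff.1 hx.1
  linarith

theorem far_xi {i j : Fin 2} (hij : j ≠ i) {x : ℂ} (hx : x ∈ Bh g i) :
    3 * g.ρ < ‖x - g.xi j‖ := by
  obtain ⟨ha, hρ, h8⟩ := g.rad
  have h1 := RLKb.far (a := g.a) (sg_pm j) x
  have h2 : -1 / 4 < sg i * x.re := hx.2
  have h3 : sg j = -sg i := by
    fin_cases i <;> fin_cases j <;> simp_all [sg]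
  change _ ≤ ‖x - g.xi j‖ at h1
  rw [h3] at h1
  linarith

theorem ball_Bh (i : Fin 2) : Metric.closedBall (g.xi i) (7 * g.ρ / 2) ⊆ Bh g i := by
  obtain ⟨ha, hρ, h8⟩ := g.rad
  intro x hx
  rw [mem_closedBall_iff_norm] at hx
  have h1 := RLKb.far (a := g.a) (sg_pm i) x
  change _ ≤ ‖x - g.xi i‖ at h1
  refine ⟨mem_ball_zero_iff.2 ?_, by change -1 / 4 < sg i * x.re; linarith⟩
  have h2 := norm_le_insert' x (g.xi i)
  rw [g.norm_xi] at h2
  linarith

theorem half_sub (i : Fin 2) :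
    RB (Bh g i \ Metric.closedBall (g.xi i) (3 * g.ρ)) ⊆ g.Qo := by
  intro q hq
  refine ⟨mem_ball_zero_iff.1 hq.1.1, fun j => ?_⟩
  by_cases hj : j = i
  · subst hj
    exact not_le.1 fun h => hq.2 (mem_closedBall_iff_norm.2 h)
  · exact far_xi g hj hq.1

theorem half_union : RB (Bh g 0 \ Metric.closedBall (g.xi 0) (3 * g.ρ)) ∪
    RB (Bh g 1 \ Metric.closedBall (g.xi 1) (3 * g.ρ)) = g.Qo := by
  refine Subset.antisymm (union_subset (half_sub g 0) (half_sub g 1)) fun q hq => ?_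
  have h1 : ∀ i, xc q ∉ Metric.closedBall (g.xi i) (3 * g.ρ) := fun i h =>
    not_le.2 (hq.2 i) (mem_closedBall_iff_norm.1 h)
  by_cases h : (xc q).re < 1 / 4
  · exact Or.inl ⟨⟨mem_ball_zero_iff.2 hq.1, by
      change -1 / 4 < sg 0 * (xc q).re; simp [sg]; linarith⟩, h1 0⟩
  · exact Or.inr ⟨⟨mem_ball_zero_iff.2 hq.1, by
      change -1 / 4 < sg 1 * (xc q).re; simp [sg]; linarith⟩, h1 1⟩

theorem half_inter : RB (Bh g 0 \ Metric.closedBall (g.xi 0) (3 * g.ρ)) ∩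
    RB (Bh g 1 \ Metric.closedBall (g.xi 1) (3 * g.ρ)) = RB (Bh g 0 ∩ Bh g 1) := by
  refine Subset.antisymm (fun q hq => ⟨hq.1.1, hq.2.1⟩) fun q hq => ⟨⟨hq.1, fun h => ?_⟩,
    ⟨hq.2, fun h => ?_⟩⟩
  · exact not_le.2 (far_xi g (i := 1) (by decide) hq.2) (mem_closedBall_iff_norm.1 h)
  · exact not_le.2 (far_xi g (i := 0) (by decide) hq.1) (mem_closedBall_iff_norm.1 h)

theorem oneGen_Q (hw : w ≠ 0) (hc : IsCoprime w (p : ℤ)) {s₀ : ℂ} (hs : s₀ ^ w = 1)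
    (hp : CP ℂ p m (s₀ ^ p)) (hu1 : u ≠ 1) (hv1 : v ≠ 1) :
    ∃ b, OneGen ((cf1 hp).br (sysQ g u v w)) g.Qo b := by
  obtain ⟨ha, hρ, h8⟩ := g.rad
  have hτ : IsCoc ((cf1 hp).br (sysQ g u v w)) g.Qo := (g.isCoc_sysQ u v w).bar (comm hp) _
  have hac := fun i => acyc_fibL (Bh_open g i) (Bh_convex g i) (Bh_lt g i) (ρ₁ := 3 * g.ρ)
    (by linarith) (by linarith) (ball_Bh g i) (hτ.mono (half_sub g i)) (ac_xi g hp hu1 hv1 i)
  have ho : ∀ i, IsOpen (RB (Bh g i \ Metric.closedBall (g.xi i) (3 * g.ρ))) := fun i =>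
    isOpen_RB ((Bh_open g i).sdiff Metric.isClosed_closedBall)
  obtain ⟨hcc, him⟩ := isCC_fib ((Bh_open g 0).inter (Bh_open g 1))
    ((Bh_convex g 0).inter (Bh_convex g 1)) fun x hx => Bh_lt g 0 x hx.1
  have h0 : (0 : ℂ) ∈ Bh g 0 ∩ Bh g 1 := by
    have : ∀ i, (0 : ℂ) ∈ Bh g i := fun i =>
      ⟨Metric.mem_ball_self (by linarith), by
        change -1 / 4 < sg i * (0 : ℂ).re; simp; norm_num⟩
    exact ⟨this 0, this 1⟩
  have hη : IsHol ((cf1 hp).br (sysQ g u v w)) (fib 0)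
      (barE (Tm ℂ ℂ p (s₀ ^ p)) m (shp ℂ ℂ w)) :=
    hol_shp hp (by simpa using (isHolA_yc_fib (x := 0) (by simp)).mul_left w)
      (isHolA_xc_fib (by simp)) (isHolA_xc_fib (by simp))
  obtain ⟨e₀, he₀, he₁, he₂⟩ := ker_shp_sub_one hp.ppos hp.mpos hw hc hs
  have hI := (half_inter g).trans him.symm
  have hτ' := hτ
  rw [← half_union g] at hτ'
  obtain ⟨σ, hσ, hσ0⟩ := hcc.exists_par (hτ'.mono (by
    rw [← hI]; exact inter_subset_left.trans subset_union_left)) h0 hη he₁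
  rw [← hI] at hσ
  obtain ⟨b, hb, hconn⟩ := exists_conn (ho 0) (ho 1) hτ' hσ
  rw [← half_union g]
  exact ⟨b, oneGen_of_two hcc (ho 0) (ho 1) hI hτ' (hac 0).1 (hac 1).1 (hac 0).2 (hac 1).2 h0 hη
    he₀ he₂ hb hσ hconn hσ0⟩

theorem ends_Q {z₀ : ℂ} (hp : CP ℂ p m z₀) (hu1 : u ≠ 1) (hv1 : v ≠ 1) (huv : u * v ≠ 1)
    {b : List S3 → Qk (cf1 hp).T (cf1 hp).m}
    (hb : dT ((cf1 hp).br (sysQ g u v w)) b ∈ N ℂ _ 3 g.Qo) :
    Exa ((cf1 hp).br (sysQ g u v w)) 2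
      ((RB (Metric.ball (g.xi 0) (4 * g.ρ) \ Metric.closedBall (g.xi 0) (3 * g.ρ)) ∪
        RB (Metric.ball (g.xi 1) (4 * g.ρ) \ Metric.closedBall (g.xi 1) (3 * g.ρ))) ∪
        RB (Metric.ball 0 (g.a + 5 * g.ρ) \ Metric.closedBall 0 (g.a + 9 * g.ρ / 2))) b := by
  obtain ⟨ha, hρ, h8⟩ := g.rad
  have hτ : IsCoc ((cf1 hp).br (sysQ g u v w)) g.Qo := (g.isCoc_sysQ u v w).bar (comm hp) _
  have hn : ∀ i, ∀ x ∈ Metric.ball (g.xi i) (4 * g.ρ), ‖x‖ < g.a + 4 * g.ρ := fun i x hx => by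
    have h2 := norm_le_insert' x (g.xi i)
    rw [g.norm_xi] at h2
    have := mem_ball_iff_norm.1 hx
    linarith
  have hd : ∀ x ∈ Metric.ball (g.xi 0) (4 * g.ρ), ∀ y ∈ Metric.ball (g.xi 1) (4 * g.ρ),
      x ≠ y := fun x hx y hy e => by
    subst e
    have h1 := mem_ball_iff_norm.1 hx
    have h2 := mem_ball_iff_norm.1 hy
    have h3 := norm_sub_le_norm_sub_add_norm_sub (g.xi 0) x (g.xi 1)
    rw [g.norm_xi_sub, norm_sub_rev (g.xi 0)] at h3
    linarith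
  have hs : ∀ i, RB (Metric.ball (g.xi i) (4 * g.ρ) \ Metric.closedBall (g.xi i) (3 * g.ρ))
      ⊆ g.Qo := fun i q hq => by
    refine ⟨by have := hn i _ hq.1; linarith, fun j => ?_⟩
    by_cases hj : j = i
    · subst hj
      exact not_le.1 fun h => hq.2 (mem_closedBall_iff_norm.2 h)
    · refine not_le.1 fun h => ?_
      have h1 : xc q ∈ Metric.ball (g.xi j) (4 * g.ρ) := mem_ball_iff_norm.2 (by linarith)
      have h2 := hq.1
      fin_cases i <;> fin_cases j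
      · exact hj rfl
      · exact hd _ h2 _ h1 rfl
      · exact hd _ h1 _ h2 rfl
      · exact hj rfl
  have hs2 : RB (Metric.ball 0 (g.a + 5 * g.ρ) \ Metric.closedBall 0 (g.a + 9 * g.ρ / 2))
      ⊆ g.Qo := fun q hq => by
    refine ⟨mem_ball_zero_iff.1 hq.1, fun j => not_le.1 fun h => hq.2 ?_⟩
    have := hn j (xc q) (mem_ball_iff_norm.2 (by linarith))
    exact mem_closedBall_zero_iff.2 (by linarith)
  have ho : ∀ (x : ℂ) (r₁ r₂ : ℝ), IsOpen (RB (Metric.ball x r₁ \ Metric.closedBall x r₂)) :=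
    fun _ _ _ => isOpen_RB (Metric.isOpen_ball.sdiff Metric.isClosed_closedBall)
  have e1 := fun i => (acyc_fibL Metric.isOpen_ball (convex_ball _ _)
    (fun x hx => by have := hn i x hx; linarith) (ρ₁ := 3 * g.ρ) (by linarith) (by linarith)
    (Metric.closedBall_subset_ball (by linarith)) (hτ.mono (hs i)) (ac_xi g hp hu1 hv1 i)).2 b
    (N_mono (hs i) hb)
  have e2 := (acyc_fibL Metric.isOpen_ball (convex_ball _ _)
    (fun x hx => by have := mem_ball_zero_iff.1 hx; linarith) (ρ₁ := g.a + 9 * g.ρ / 2)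
    (by linarith) (by linarith) (Metric.closedBall_subset_ball (by linarith)) (hτ.mono hs2)
    (ac_out g hp huv)).2 b (N_mono hs2 hb)
  refine exa_disj ((ho _ _ _).union (ho _ _ _)) (ho _ _ _) ?_
    (exa_disj (ho _ _ _) (ho _ _ _) (fun q h0 h1 => hd _ h0.1 _ h1.1 rfl) (e1 0) (e1 1)) e2
  rintro q (hq | hq) h2
  · exact h2.2 (mem_closedBall_zero_iff.2 (by have := hn 0 _ hq.1; linarith))
  · exact h2.2 (mem_closedBall_zero_iff.2 (by have := hn 1 _ hq.1; linarith))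

end RQH1

theorem Geo.q_pm (hw : w ≠ 0) (hc : IsCoprime w (p : ℤ)) {s₀ : ℂ} (hs : s₀ ^ w = 1)
    (hp : CP ℂ p m (s₀ ^ p)) (hu : (u : ℂ) * star (u : ℂ) = 1) (hv : (v : ℂ) * star (v : ℂ) = 1)
    (hu1 : u ≠ 1) (hv1 : v ≠ 1) (huv : u * v ≠ 1) (hn : (cf1 hp).Nondeg (sysQ g u v w) g.Qo)
    {t : ℤ} (ht : Sig3 (cf1 hp) (sysQ g u v w) g.Qo t) : t = 1 ∨ t = -1 := by
  obtain ⟨ha, hρ, h8⟩ := g.rad
  obtain ⟨b, hb⟩ := RQH1.oneGen_Q g hw hc hs hp hu1 hv1
  have hcT : (cf1 hp).CompatT (sysQ g u v w) := compatT_mtau hp hu hv _ _ _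
  have hcl : IsClosed {x : ℂ | ‖x‖ ≤ g.a + 19 * g.ρ / 4 ∧ ∀ i, 7 * g.ρ / 2 ≤ ‖x - g.xi i‖} := by
    rw [Set.ofPred_and, Set.ofPred_forall]
    exact (isClosed_le continuous_norm continuous_const).inter
      (isClosed_iInter fun i => RLKb.closed_le _ _)
  have hop : IsOpen {x : ℂ | ‖x‖ < g.a + 19 * g.ρ / 4 ∧ ∀ i, 7 * g.ρ / 2 < ‖x - g.xi i‖} := by
    rw [Set.ofPred_and, Set.ofPred_forall]
    exact (isOpen_lt continuous_norm continuous_const).inter
      (isOpen_iInter_of_finite fun i => RLKb.open_lt _ _)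
  obtain ⟨a, haW, hab⟩ := (cf1 hp).exists_W3_of_ends hcT (g.isCoc_sysQ u v w)
    (isClosed_RB hcl).isCompact
    (fun q hq => ⟨by have := hq.1; linarith, fun i => by have := hq.2 i; linarith⟩)
    (fun q hq => by
      by_cases h1 : ‖xc q‖ < g.a + 19 * g.ρ / 4
      · by_cases h2 : ∀ i, 7 * g.ρ / 2 < ‖xc q - g.xi i‖
        · exact Or.inl (interior_maximal (RFib.RB_mono fun q' hq' =>
            And.intro hq'.1.le fun i => (hq'.2 i).le) (isOpen_RB hop) (And.intro h1 h2))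
        · push Not at h2
          obtain ⟨i, hi⟩ := h2
          have h3 : q ∈ RB (Metric.ball (g.xi i) (4 * g.ρ) \
              Metric.closedBall (g.xi i) (3 * g.ρ)) :=
            ⟨mem_ball_iff_norm.2 (by linarith),
              fun h => not_le.2 (hq.2 i) (mem_closedBall_iff_norm.1 h)⟩
          fin_cases i
          · exact Or.inr (Or.inl (Or.inl h3))
          · exact Or.inr (Or.inl (Or.inr h3))
      · exact Or.inr (Or.inr ⟨mem_ball_zero_iff.2 hq.1, fun h => by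
          have := mem_closedBall_zero_iff.1 h
          linarith⟩)) hb.1 (RQH1.ends_Q g hp hu1 hv1 huv hb.1)
  exact sig3_one hcT (g.isCoc_sysQ u v w) hn hb haW hab ht

theorem Geo.q_zero (hw : w = 1 ∨ w = -1) {z₀ : ℂ} (hp : CP ℂ p m z₀) (hz : z₀ ≠ 1)
    (hu : (u : ℂ) * star (u : ℂ) = 1) (hv : (v : ℂ) * star (v : ℂ) = 1) {t : ℤ}
    (ht : Sig3 (cf1 hp) (sysQ g u v w) g.Qo t) : t = 0 := by
  obtain ⟨ha, hρ, h8⟩ := g.rad
  have hcT : (cf1 hp).CompatT (sysQ g u v w) := compatT_mtau hp hu hv _ _ _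
  have hop : IsOpen {x : ℂ | ‖x‖ < g.a + 5 * g.ρ ∧ ∀ i, 3 * g.ρ < ‖x - g.xi i‖} := by
    rw [Set.ofPred_and, Set.ofPred_forall]
    exact (isOpen_lt continuous_norm continuous_const).inter
      (isOpen_iInter_of_finite fun i => RLKb.open_lt _ _)
  have hac := (acyc_fibX hop (fun x hx => by have := hx.1; linarith)
    ((g.isCoc_sysQ u v w).bar (RQH1.comm hp) (cf1 hp).m) fun x hx => by
      have h1 : ‖x‖ < 1 := by have := hx.1; linarith
      exact RQH1.ac_shp hp hz hw (by simpa using (isHolA_yc_fib h1).mul_left w)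
        (isHolA_xc_fib h1.le) (isHolA_xc_fib h1.le)).2
  exact Sig3.unique hcT (g.isCoc_sysQ u v w) ht (sig3_zero hcT (g.isCoc_sysQ u v w) hac)

theorem Geo.sp_pm {hP : S3 → S3 → ℤ} (hg : IsGen ℝ (range P) hP) {z₀ : ℂ} (hp : CP ℂ p m z₀)
    (hz : z₀ ≠ 1) (hu : (u : ℂ) * star (u : ℂ) = 1) (hu1 : u ≠ 1)
    {b : List S3 → Qk (cf1 hp).T (cf1 hp).m} (hb : OneGen ((cf1 hp).br (sysS u hP)) (Sp P) b)
    (hn : (cf1 hp).Nondeg (sysS u hP) g.So) {t : ℤ} (ht : Sig3 (cf1 hp) (sysS u hP) g.So t) :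
    t = 1 ∨ t = -1 := by
  obtain ⟨ha, hρ, h8⟩ := g.rad
  have hcT : (cf1 hp).CompatT (sysS u hP) := compatT_mtau hp hu (by simp) _ _ _
  have hτ := isCoc_sysS u hg.1
  have hbr : IsCoc ((cf1 hp).br (sysS u hP)) (Sp P) := hτ.bar (RQH1.comm hp) _
  obtain ⟨ε, hε, hεf⟩ := g.exists_eps hg
  obtain ⟨hcut, hac, hac0⟩ := g.cutS hbr (by
    refine RQH1.ac_scalar hp (g.lonP hg.1 (by linarith) (by rw [norm_zero]; linarith)) (k₁ := 1) ?_
      (RQH1.hol_zero _) (by simpa using hu1)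
    simpa using (isHolA_xc_lon (x₀ := 0) (x₁ := 0) (r := g.a + 25 * g.ρ / 4) (by linarith)
      (by rw [norm_zero]; linarith)).1 rfl) fun x hx hr => by
    refine RQH1.ac_shp hp hz hε (hεf x hx hr) ?_ (RQH1.hol_zero _)
    rw [← isHolA_pb]
    refine RQH1.fib_zero hx.le hr (IsCocA.pb (S := {q | xc q ≠ 0})
      (isCocA_th (fun _ _ => continuous_xc.continuousAt) fun q hq => hq)
      (fun _ _ => g.h.continuous.continuousAt) fun q hq h0 => ?_)
    have h1 := (g.hz q (le_of_lt hq)).2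
    rw [h0, norm_zero] at h1
    linarith
  have hn' := (cf1 hp).nondeg_of_sub hcT hτ g.decS hcut hac hac0 hn
  have ht' := sig3_dec hcT hτ g.decS hcut (s := fun _ => t) fun _ => ht
  rw [Fintype.sum_unique] at ht'
  have hO : IsOpen (RB (Metric.closedBall 0 (g.a + 7 * g.ρ)))ᶜ :=
    (isClosed_RB Metric.isClosed_closedBall).isOpen_compl
  have hO0 : ∀ q ∈ (RB (Metric.closedBall 0 (g.a + 7 * g.ρ)))ᶜ, xc q ≠ 0 := fun q hq h0 =>
    hq (by
      change xc q ∈ Metric.closedBall 0 (g.a + 7 * g.ρ)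
      rw [h0]; exact Metric.mem_closedBall_self (by linarith))
  have hOS : (RB (Metric.closedBall 0 (g.a + 7 * g.ρ)))ᶜ \ range P ⊆ Sp P := by
    rintro q hq (h | h)
    · exact hq.2 h
    · exact hO0 q hq.1 h
  obtain ⟨V', hV', hPV, hVO, hV⟩ := collar g.knot.flat hO (hbr.mono hOS) (fun γ hγ => by
    have h1 := hγ.holA_zero (isCocA_th (fun _ _ => continuous_xc.continuousAt) hO0)
    rcases hg.2 γ (hγ.mono (subset_univ _)) with h | h
    · exact RQH1.ac_shp hp hz (Or.inl rfl) h h1 (RQH1.hol_zero _)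
    · exact RQH1.ac_shp hp hz (Or.inr rfl) h h1 (RQH1.hol_zero _)) (N_mono hOS hb.1)
  obtain ⟨V'', hV'', hPV', hcl⟩ := normal_exists_closure_subset g.knot.isClosed hV'
    fun q hq => hPV ⟨hq, fun h => disjoint_left.1 g.disjoint_P hq h⟩
  have e1 := (hac b (N_mono g.decS.sS hb.1)).mono subset_union_left
  have hT := RQH1.exa_disj (isOpen_RB (Metric.isOpen_ball.sdiff isClosed_singleton))
    (hV'.sdiff g.knot.isClosed) (fun q h1 h2 => hVO h2.1
      (Metric.ball_subset_closedBall.trans (Metric.closedBall_subset_closedBall (by linarith))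
        h1.1)) e1 hV
  obtain ⟨a, haW, hab⟩ := (cf1 hp).exists_W3_of_ends hcT hτ
    (K := (RB (Metric.ball 0 g.ρ) ∪ V'')ᶜ)
    ((isOpen_RB Metric.isOpen_ball).union hV'').isClosed_compl.isCompact
    (by
      rintro q hq (h | h)
      · exact hq (Or.inr (hPV' h))
      · exact hq (Or.inl (by
          change xc q ∈ Metric.ball 0 g.ρ
          rw [show xc q = 0 from h]; exact Metric.mem_ball_self hρ)))
    (fun q hq => by
      by_cases h1 : q ∈ RB (Metric.closedBall 0 g.ρ)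
      · exact Or.inr (Or.inl ⟨Metric.closedBall_subset_ball (by linarith) h1,
          fun h => hq (Or.inr h)⟩)
      by_cases h2 : q ∈ closure V''
      · exact Or.inr (Or.inr ⟨hcl h2, fun h => hq (Or.inl h)⟩)
      refine Or.inl (interior_maximal (t := (RB (Metric.closedBall 0 g.ρ) ∪ closure V'')ᶜ)
        (compl_subset_compl.2 (union_subset_union (RFib.RB_mono Metric.ball_subset_closedBall)
          subset_closure))
        ((isClosed_RB Metric.isClosed_closedBall).union isClosed_closure).isOpen_compl ?_)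
      rintro (h | h)
      · exact h1 h
      · exact h2 h) hb.1 hT
  exact sig3_one hcT hτ hn' hb haW hab ht'

end Pool.Agent.HH
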