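import Pool.Agent.P.MP_c8dc46_gt.Core
import Pool.Agent.P.MP_c8dc46_gt.QH1

/-! Winding number at least two is impossible for an additive pattern. -/

open Set Topology

namespace Pool.Agent.HH

namespace RDFin

theorem two_le {w w' : ℤ} (h : ∀ (F : Type) [Field F], (w : F) = 0 ↔ (w' : F) = 0)
    (hw : 2 ≤ |w|) : 2 ≤ |w'| := by
  have h0 : w' ≠ 0 := fun h1 => by
    have h2 : (w : ℚ) = 0 := (h ℚ).2 (by simp [h1])
    have h3 : w = 0 := by exact_mod_cast h2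
    simp [h3] at hw
  rw [Int.abs_eq_natAbs] at hw ⊢
  obtain ⟨q, hq, hd⟩ := Nat.exists_prime_and_dvd (n := w.natAbs) (by omega)
  have := Fact.mk hq
  have h1 : (w' : ZMod q) = 0 :=
    (h (ZMod q)).1 ((ZMod.intCast_zmod_eq_zero_iff_dvd _ _).2 (Int.natCast_dvd.2 hd))
  have h2 := Nat.le_of_dvd (Int.natAbs_pos.2 h0)
    (Int.natCast_dvd.1 ((ZMod.intCast_zmod_eq_zero_iff_dvd _ _).1 h1))
  have := hq.two_le
  omega

theorem unit_of_pow {u : ℂˣ} {ℓ : ℕ} (hℓ : ℓ ≠ 0) (h : u ^ ℓ = 1) :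
    (u : ℂ) * star (u : ℂ) = 1 := by
  have h1 : (u : ℂ) ^ ℓ = 1 := by rw [← Units.val_pow_eq_pow_val, h, Units.val_one]
  have h2 : ‖(u : ℂ)‖ = 1 := Complex.norm_eq_one_of_pow_eq_one h1 hℓ
  rw [Complex.star_def, Complex.mul_conj, Complex.normSq_eq_norm_sq, h2]
  simp

open Classical in
/-- A value with the property `p`, if there is one. -/
noncomputable def pick (p : ℤ → Prop) : ℤ := if h : ∃ s, p s then h.choose else 0

theorem pick_eq {p : ℤ → Prop} (hu : ∀ s s', p s → p s' → s = s') {s : ℤ} (h : p s) :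
    pick p = s := by
  have h1 : ∃ s, p s := ⟨s, h⟩
  rw [pick, dif_pos h1]
  exact hu _ _ h1.choose_spec h

variable {r s : Fin 2 → ℕ} {P : ℝ → S3} (g : Geo r s P)

theorem coc_yc : IsCocA (th yc) g.Qo := by
  refine isCocA_th (fun p _ => continuous_yc.continuousAt) fun p hp h0 => ?_
  have h1 : ‖xc p‖ < g.a + 5 * g.ρ := hp.1
  have h2 : ‖xc p‖ ^ 2 + ‖yc p‖ ^ 2 = 1 := p.2
  obtain ⟨-, h3, h4⟩ := g.rad
  rw [h0, norm_zero] at h2
  nlinarith [norm_nonneg (xc p)]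

theorem coc_thx (i : Fin 2) : IsCocA (g.thx i) g.Qo := by
  refine isCocA_th (fun p _ => (continuous_xc.sub continuous_const).continuousAt)
    fun p hp h0 => ?_
  have h1 : 3 * g.ρ < ‖xc p - g.xi i‖ := hp.2 i
  have h3 := g.rad.2.1
  rw [h0, norm_zero] at h1
  linarith

end RDFin

open RDFin

theorem wind_unit {a : ℝ → ℝ} {d : ℝ → ℂ} {w : ℤ} (hp : IsPattern a d w) (θ₀ : ℝ) :
    ∃ (h₁ : S3 → S3 → ℤ) (w' : ℤ), IsGen ℝ (range (Pc a d θ₀ 1)) h₁ ∧ IsHolA h₁ (fib 0) w' ∧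
      (2 ≤ |w| → 2 ≤ |w'|) ∧ (|w| = 1 → w' = 1 ∨ w' = -1) := by
  have hq := hp.scale θ₀ one_pos le_rfl
  obtain ⟨h₁, hg⟩ := hq.knot.exists_gen
  have hl : IsLoop (fib 0) (range (Pc a d θ₀ 1))ᶜ := by
    obtain ⟨h1, h2, -⟩ := isLoop_fib (B := univ) (x := 0) trivial (by simp)
    refine ⟨h1, h2, fun t => ?_⟩
    rintro ⟨s, hs⟩
    have h3 := congrArg xc hs
    have h4 := hq.lt s
    rw [xc_fib (by simp), Pc, xc_iota h4.le] at h3
    have h5 := congrArg norm h3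
    rw [norm_mul, norm_ex, mul_one, Complex.norm_real, norm_zero, Real.norm_eq_abs,
      abs_eq_zero] at h5
    exact (Real.sqrt_pos.2 (by nlinarith [norm_nonneg (((1 : ℝ) : ℂ) * d s)])).ne' h5
  obtain ⟨w', hw'⟩ := exists_isHolA hg.1 hl
  have hwind := fun (F : Type) [Field F] => wind hq hg hw' F
  refine ⟨h₁, w', hg, hw', two_le hwind, fun h1 => ?_⟩
  have h2 : ¬ 2 ≤ |w'| := fun h => by
    have := two_le (fun F _ => (hwind F).symm) h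
    omega
  have h3 : w' ≠ 0 := fun h => by
    have h4 : (w : ℚ) = 0 := (hwind ℚ).2 (by simp [h])
    have h5 : w = 0 := by exact_mod_cast h4
    simp [h5] at h1
  rw [Int.abs_eq_natAbs] at h2
  omega

theorem thmD {a : ℝ → ℝ} {d : ℝ → ℂ} {w : ℤ} (hp : IsPattern a d w) (hh : IsHom a d) :
    |w| ≤ 1 := by
  by_contra hw
  obtain ⟨θ₀, hcore⟩ := core hp hh
  obtain ⟨h₁, w', hg, hw', h2, -⟩ := wind_unit hp θ₀
  have h3 : 2 ≤ |w'| := h2 (by omega)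
  have h0 : w' ≠ 0 := fun h => by simp [h] at h3
  obtain ⟨ℓ, hℓ, hℓ2, hc⟩ := exists_odd_prime h0
  obtain ⟨c, r, s, g, hP, p, m, -, -, hgP, -, hp0, hm0, hcp, hrel⟩ :=
    hcore h₁ w' hg hw' ℓ hℓ hℓ2 hc
  obtain ⟨s₀, hs1, hs2, hs3⟩ := exists_s0 h3 hcp
  have hcp' : CP ℂ p m (s₀ ^ p) := ⟨hp0, hm0, by
    rw [Complex.star_def, Complex.mul_conj, Complex.normSq_eq_norm_sq, norm_pow, hs1]
    simp, two_ne_zero⟩
  have h11 : ((1 : ℂˣ) : ℂ) * star ((1 : ℂˣ) : ℂ) = 1 := by simp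
  have uS : ∀ u : ℂˣ, u ^ ℓ = 1 → ∀ t t', Sig3 (cf1 hcp') (sysS u hP) g.So t →
      Sig3 (cf1 hcp') (sysS u hP) g.So t' → t = t' := fun u hu t t' =>
    Sig3.unique (compatT_mtau hcp' (unit_of_pow hℓ.ne_zero hu) h11 _ _ _)
      ((isCoc_sysS u hgP.1).mono g.So_subset_Sp)
  have uQ : ∀ u v : ℂˣ, u ^ ℓ = 1 → v ^ ℓ = 1 → ∀ t t',
      Sig3 (cf1 hcp') (sysQ g u v w') g.Qo t → Sig3 (cf1 hcp') (sysQ g u v w') g.Qo t' →
      t = t' := fun u v hu hv t t' =>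
    Sig3.unique (compatT_mtau hcp' (unit_of_pow hℓ.ne_zero hu) (unit_of_pow hℓ.ne_zero hv) _ _ _)
      (g.isCoc_sysQ u v w')
  refine final_D hℓ hℓ2 (fun u => pick (Sig3 (cf1 hcp') (sysS u hP) g.So))
    (fun u v => pick (Sig3 (cf1 hcp') (sysQ g u v w') g.Qo)) fun u v hu hv hu1 hv1 huv => ?_
  obtain ⟨s₁, s₂, s₃, sq, k1, k2, k3, k4, k5, -, k6⟩ := hrel _ hcp' hs3 u v hu hv hu1 hv1 huv
  have hu' := unit_of_pow hℓ.ne_zero hu
  have hv' := unit_of_pow hℓ.ne_zero hv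
  have k7 : Sig3 (cf1 hcp') (sysQ g u⁻¹ v⁻¹ w') g.Qo (-sq) :=
    sig3_conj hs1 hs2 hcp' hu' hv' (coc_yc g) (coc_thx g 0) (coc_thx g 1) k4
  rw [pick_eq (uS _ (by rw [mul_pow, hu, hv, one_mul])) k1, pick_eq (uS _ hu) k2,
    pick_eq (uS _ hv) k3, pick_eq (uQ _ _ hu hv) k4,
    pick_eq (uQ _ _ (by rw [inv_pow, hu, inv_one]) (by rw [inv_pow, hv, inv_one])) k7]
  exact ⟨k5, g.q_pm h0 hcp hs2 hcp' hu' hv' hu1 hv1 huv k6 k4, rfl⟩

end Pool.Agent.HH
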