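import Pool.Agent.P.MP_c8dc46_gt.MVa
import Pool.Agent.P.MP_c8dc46_gt.Convex

/-!
The Mayer-Vietoris system of cochains, and finite generation of the cohomology of tame sets.
-/

open Set Topology

noncomputable section

namespace Pool.Agent.HH

variable {Y : Type} [TopologicalSpace Y] {R E : Type} [CommRing R] [AddCommGroup E] [Module R E]

/-- `N` indexed by the integers. -/
def NZ (R E : Type) [CommRing R] [AddCommGroup E] [Module R E] (n : ℤ) (S : Set Y) :
    Submodule R (List Y → E) := if n ≤ 0 then ⊤ else N R E n.toNat S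

theorem NZ_natCast {n : ℕ} (hn : 1 ≤ n) (S : Set Y) : NZ R E (n : ℤ) S = N R E n S := by
  rw [NZ, if_neg (by omega), Int.toNat_natCast]

namespace RMVc

theorem NZ_nonpos {n : ℤ} (hn : n ≤ 0) (S : Set Y) : NZ R E n S = ⊤ := if_pos hn

theorem cases_int (n : ℤ) : n ≤ 0 ∨ ∃ k : ℕ, 1 ≤ k ∧ n = k := by
  rcases le_or_gt n 0 with h | h
  · exact Or.inl h
  · exact Or.inr ⟨n.toNat, by omega, by omega⟩

theorem NZ_succ (k : ℕ) (S : Set Y) : NZ R E ((k : ℤ) + 1) S = N R E (k + 1) S := by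
  rw [← NZ_natCast (Nat.le_add_left 1 k), Nat.cast_succ]

theorem coc_mono {τ : Y → Y → Module.End R E} {S S' : Set Y} (h : IsCoc τ S) (hs : S' ⊆ S) :
    IsCoc τ S' := fun p hp => h p (hs hp)

end RMVc

/-- The system of cochains inside `X`. -/
def mvC [TopologicalSpace.MetrizableSpace Y] (τ : Y → Y → Module.End R E) (X : Set Y)
    (hX : IsOpen X) (hτ : IsCoc τ X) : MV R (List Y → E) Y where
  d := dT τ
  N n U := NZ R E n (U ∩ X)
  mono := by
    intro n U U' h
    rcases RMVc.cases_int n with hn | ⟨k, hk, rfl⟩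
    · rw [RMVc.NZ_nonpos hn, RMVc.NZ_nonpos hn]
    · rw [NZ_natCast hk, NZ_natCast hk]
      exact N_mono (inter_subset_inter_left _ h)
  dN := by
    intro n U x hx
    rcases RMVc.cases_int n with hn | ⟨k, hk, rfl⟩
    · rcases hn.eq_or_lt with rfl | hn
      · have := RMVc.NZ_succ (R := R) (E := E) 0 (U ∩ X)
        rw [Nat.cast_zero] at this
        rw [this]
        exact dT_mem_N_one τ _ x
      · rw [RMVc.NZ_nonpos (by omega)]
        exact Submodule.mem_top
    · rw [NZ_natCast hk] at hx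
      rw [RMVc.NZ_succ]
      exact dT_mem_N τ hx
  dd := by
    intro n U x
    rcases RMVc.cases_int n with hn | ⟨k, hk, rfl⟩
    · rw [RMVc.NZ_nonpos hn]
      exact Submodule.mem_top
    · rw [NZ_natCast hk]
      exact dT_dT_mem_N (RMVc.coc_mono hτ inter_subset_right) k x
  union := by
    intro n U U' _ _
    rcases RMVc.cases_int n with hn | ⟨k, hk, rfl⟩
    · rw [RMVc.NZ_nonpos hn ((U ∪ U') ∩ X)]
      exact le_top
    · rw [NZ_natCast hk, NZ_natCast hk, NZ_natCast hk, union_inter_distrib_right]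
      exact fun x hx => mem_N_union.2 hx
  inter := by
    intro n U U' hU hU'
    rcases RMVc.cases_int n with hn | ⟨k, hk, rfl⟩
    · rw [RMVc.NZ_nonpos hn (U ∩ X), top_sup_eq]
      exact le_top
    · rw [NZ_natCast hk, NZ_natCast hk, NZ_natCast hk, inter_inter_distrib_right]
      exact N_inter_open hk (hU.inter hX) (hU'.inter hX)
  empty := by
    intro n
    rcases RMVc.cases_int n with hn | ⟨k, hk, rfl⟩
    · exact RMVc.NZ_nonpos hn _
    · rw [NZ_natCast hk, empty_inter, eq_top_iff]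
      exact fun x _ => mem_N_empty k x

namespace RMVc

variable [TopologicalSpace.MetrizableSpace Y] {τ : Y → Y → Module.End R E} {X : Set Y}
  {hX : IsOpen X} {hτ : IsCoc τ X}

theorem mem_Z {U : Set Y} (hU : U ⊆ X) (k : ℕ) {a : List Y → E} :
    a ∈ (mvC τ X hX hτ).Z k U ↔ dT τ a ∈ N R E (k + 1) U := by
  change dT τ a ∈ NZ R E ((k : ℤ) + 1) (U ∩ X) ↔ _
  rw [NZ_succ, inter_eq_left.2 hU]

theorem mem_Bd {U : Set Y} (hU : U ⊆ X) {k : ℕ} (hk : 1 ≤ k) {a : List Y → E} :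
    a ∈ (mvC τ X hX hτ).Bd k U ↔ Exa τ k U a := by
  change a ∈ LinearMap.range (dT τ) ⊔ NZ R E (k : ℤ) (U ∩ X) ↔ _
  rw [NZ_natCast hk, inter_eq_left.2 hU, Submodule.mem_sup]
  constructor
  · rintro ⟨_, ⟨y, rfl⟩, z, hz, rfl⟩
    exact ⟨y, by simpa using hz⟩
  · rintro ⟨y, hy⟩
    exact ⟨_, ⟨y, rfl⟩, _, hy, by abel⟩

theorem fgim_iff {U : Set Y} (hU : U ⊆ X) {k : ℕ} (hk : 1 ≤ k) :
    (mvC τ X hX hτ).FGim k U U ↔ FGc τ k U := by
  refine exists_congr fun M => and_congr_right fun _ => and_congr ?_ ?_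
  · exact forall₂_congr fun a _ => mem_Z hU k
  · constructor
    · intro h a ha
      obtain ⟨b, hb, c, hc, rfl⟩ := Submodule.mem_sup.1 (h ((mem_Z hU k).2 ha))
      exact ⟨b, hb, by simpa using (mem_Bd hU hk).1 hc⟩
    · intro h a ha
      obtain ⟨b, hb, hab⟩ := h a ((mem_Z hU k).1 ha)
      exact Submodule.mem_sup.2 ⟨b, hb, a - b, (mem_Bd hU hk).2 hab, by abel⟩

omit [TopologicalSpace.MetrizableSpace Y] in
theorem fgc_cvx [Module.Finite R E] {U : Set Y} (hU : Cvx U) (hτ : IsCoc τ U) {k : ℕ}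
    (hk : 1 ≤ k) : FGc τ k U := by
  rcases hk.eq_or_lt with rfl | hk
  · rcases U.eq_empty_or_nonempty with rfl | ⟨p, hp⟩
    · exact ⟨⊥, Submodule.fg_bot, fun a _ => mem_N_empty _ _,
        fun a _ => ⟨0, Submodule.zero_mem _, 0, mem_N_empty _ _⟩⟩
    · choose φ hφ hφp using hU.exists_par hτ hp
      obtain ⟨s, hs⟩ := Module.Finite.fg_top (R := R) (M := E)
      have hM : ∀ a ∈ Submodule.span R (φ '' (s : Set E)), dT τ a ∈ N R E 2 U := by
        intro a ha
        have : Submodule.span R (φ '' (s : Set E)) ≤ (N R E 2 U).comap (dT τ) :=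
          Submodule.span_le.2 (by rintro _ ⟨e, _, rfl⟩; exact hφ e)
        exact this ha
      refine ⟨Submodule.span R (φ '' (s : Set E)),
        Submodule.fg_span (s.finite_toSet.image φ), hM, fun a ha => ?_⟩
      have hv : ∀ e ∈ Submodule.span R (s : Set E),
          ∃ b ∈ Submodule.span R (φ '' (s : Set E)), b [p] = e := by
        intro e he
        induction he using Submodule.span_induction with
        | mem e he => exact ⟨φ e, Submodule.subset_span ⟨e, he, rfl⟩, hφp e⟩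
        | zero => exact ⟨0, Submodule.zero_mem _, rfl⟩
        | add x y _ _ hx hy =>
          obtain ⟨b, hb, rfl⟩ := hx
          obtain ⟨c, hc, rfl⟩ := hy
          exact ⟨b + c, Submodule.add_mem _ hb hc, rfl⟩
        | smul r x _ hx =>
          obtain ⟨b, hb, rfl⟩ := hx
          exact ⟨r • b, Submodule.smul_mem _ r hb, rfl⟩
      obtain ⟨b, hb, hbp⟩ := hv (a [p]) (hs ▸ Submodule.mem_top)
      refine ⟨b, hb, 0, ?_⟩
      rw [map_zero, sub_zero]
      refine par_zero hτ hU.isPreconnected ?_ hp (by rw [Pi.sub_apply, hbp, sub_self])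
      rw [map_sub]
      exact Submodule.sub_mem _ ha (hM b hb)
  · refine ⟨⊥, Submodule.fg_bot, fun a ha => ?_, fun a ha => ⟨0, Submodule.zero_mem _, ?_⟩⟩
    · rw [(Submodule.mem_bot R).1 ha, map_zero]
      exact Submodule.zero_mem _
    · rw [sub_zero]
      exact hU.acyc hτ hk a ha

theorem fgim_cvx [Module.Finite R E] {U : Set Y} (hU : Cvx U) (hUX : U ⊆ X) (n : ℤ) :
    (mvC τ X hX hτ).FGim n U U := by
  rcases cases_int n with hn | ⟨k, hk, rfl⟩
  · refine ⟨⊥, Submodule.fg_bot, bot_le, ?_⟩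
    have : (mvC τ X hX hτ).N n U = ⊤ := NZ_nonpos hn _
    rw [MV.Bd, this, sup_top_eq, sup_top_eq]
    exact le_top
  · exact (fgim_iff hUX hk).2 (fgc_cvx hU (coc_mono hτ hUX) hk)

end RMVc

theorem fgc_of_tame [IsNoetherianRing R] [Module.Finite R E] {X : Set Y4} (hX : Tame X)
    {τ : Y4 → Y4 → Module.End R E} (hτ : IsCoc τ X) {n : ℕ} (hn : 1 ≤ n) : FGc τ n X := by
  exact (RMVc.fgim_iff (hX := hX.1) (hτ := hτ) Subset.rfl hn).1
    (MV.tame_fg _ 0 (fun _ h _ => RMVc.NZ_nonpos h _) hX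
      (fun _ hU hUX m => RMVc.fgim_cvx hU hUX m) n)

/-- The cohomology of a good set is finitely generated. -/
theorem Good.fgc [TopologicalSpace.MetrizableSpace Y] [IsNoetherianRing R] [Module.Finite R E]
    {S : Set Y} (hS : Good S) {τ : Y → Y → Module.End R E} (hτ : IsCoc τ S) {n : ℕ}
    (hn : 1 ≤ n) : FGc τ n S := by
  obtain ⟨𝒢, hc, hi, 𝓕, hs, hf, rfl⟩ := hS
  have ho : IsOpen (⋃₀ 𝓕) := isOpen_sUnion fun U hU => (hc U (hs hU)).isOpen
  exact (RMVc.fgim_iff (hX := ho) (hτ := hτ) Subset.rfl hn).1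
    (MV.good_fg _ (𝒢 := {U | U ∈ 𝒢 ∧ U ⊆ ⋃₀ 𝓕}) (fun U hU => (hc U hU.1).isOpen)
      (fun U hU V hV => ⟨hi U hU.1 V hV.1, inter_subset_left.trans hU.2⟩)
      (fun U hU m => RMVc.fgim_cvx (hc U hU.1) hU.2 m)
      (fun U hU => ⟨hs hU, subset_sUnion_of_mem hU⟩) hf n)

end Pool.Agent.HH
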