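import Pool.Agent.P.MP_c8dc46_gt.Fib

/-!
Point set facts about knots and annuli; tameness of the exterior of a locally flat annulus.
-/

open Set Topology

namespace Pool.Agent.HH

namespace RTame

theorem exists_red (s s₀ : ℝ) : ∃ n : ℤ, s + n ∈ Icc (s₀ - 1 / 2) (s₀ + 1 / 2) := by
  refine ⟨-⌊s - s₀ + 1 / 2⌋, ?_, ?_⟩
  · have := Int.floor_le (s - s₀ + 1 / 2)
    push_cast
    linarith
  · have := Int.lt_floor_add_one (s - s₀ + 1 / 2)
    push_cast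
    linarith

theorem per_int {Z : Type} {f : ℝ → Z} (h : ∀ s, f (s + 1) = f s) (s : ℝ) (n : ℤ) :
    f (s + n) = f s := by
  have := (show Function.Periodic f 1 from h).int_mul n s
  simpa using this

theorem int_zero {s₀ : ℝ} {n : ℤ} (h : s₀ + n ∈ Icc (s₀ - 1 / 2) (s₀ + 1 / 2)) : n = 0 := by
  have h1 : (-1 : ℝ) < n := by linarith [h.1]
  have h2 : (n : ℝ) < 1 := by linarith [h.2]
  have h3 : (-1 : ℤ) < n := by exact_mod_cast h1
  have h4 : n < 1 := by exact_mod_cast h2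
  omega

theorem exists_ext {X Y : Type} [TopologicalSpace X] [TopologicalSpace Y] [NormalSpace Y]
    {f : X → Y} {g : X → ℂ} (hg : Continuous g) (hcl : IsClosed (range f))
    (hfg : ∀ x x', f x = f x' → g x = g x')
    (hn : ∀ x, ∀ I ∈ 𝓝 x, ∃ U ∈ 𝓝 (f x), U ∩ range f ⊆ f '' I) :
    ∃ ϑ : Y → ℂ, Continuous ϑ ∧ ∀ x, ϑ (f x) = g x := by
  have key : ∀ (p : range f) (x : X), f x = p → g p.2.choose = g x := fun p x hx =>
    hfg _ _ (by rw [p.2.choose_spec, hx])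
  have hc : Continuous fun p : range f => g p.2.choose := by
    rw [continuous_iff_continuousAt]
    rintro ⟨_, x, rfl⟩
    intro W hW
    have hW' : W ∈ 𝓝 (g x) := key ⟨f x, x, rfl⟩ x rfl ▸ hW
    obtain ⟨U, hU, hs⟩ := hn x (g ⁻¹' W) (hg.continuousAt hW')
    have hU' : (Subtype.val ⁻¹' U : Set (range f)) ∈ 𝓝 ⟨f x, x, rfl⟩ :=
      continuous_subtype_val.continuousAt hU
    refine Filter.mem_map.2 (Filter.mem_of_superset hU' fun p hp => ?_)
    obtain ⟨x', hx', he⟩ := hs ⟨hp, p.2⟩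
    exact mem_preimage.2 (mem_of_eq_of_mem (key p x' he) hx')
  obtain ⟨G, hG⟩ := ContinuousMap.exists_restrict_eq hcl ⟨_, hc⟩
  refine ⟨G, G.continuous, fun x => ?_⟩
  have := DFunLike.congr_fun hG ⟨f x, x, rfl⟩
  exact this.trans (key ⟨f x, x, rfl⟩ x rfl)

theorem ex_congr {s s' : ℝ} (c : ℝ) (h : ∃ n : ℤ, s' = s + n) : ex (s + c) = ex (s' + c) := by
  obtain ⟨n, rfl⟩ := h
  exact ex_eq_iff.2 ⟨n, by ring⟩

theorem abs_le {C D : ℝ → S3} {A : ℝ → ℝ → Y4} (h : IsAnn C D A) (s t : ℝ) :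
    |(A s t).2 - t| ≤ 1 := by
  rcases le_or_gt t 0 with h0 | h0
  · rw [h.low s t h0]; simp
  rcases le_or_gt 1 t with h1 | h1
  · rw [h.high s t h1]; simp
  have := h.mid s t h0 h1
  rw [_root_.abs_le]
  constructor <;> linarith [this.1, this.2]

/-- Reordering of coordinates. -/
def sw : (ℝ × ℂ) × ℝ ≃ₜ (ℝ × ℝ) × ℂ where
  toFun p := ((p.1.1, p.2), p.1.2)
  invFun p := ((p.1.1, p.2), p.1.2)
  left_inv _ := rfl
  right_inv _ := rfl
  continuous_toFun := by fun_prop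
  continuous_invFun := by fun_prop

/-- The product of a chart of the sphere with an open set of times. -/
noncomputable def pc (e : OpenPartialHomeomorph S3 (ℝ × ℂ)) {I : Set ℝ} (hI : IsOpen I) :
    OpenPartialHomeomorph Y4 ((ℝ × ℝ) × ℂ) :=
  (e.prod (OpenPartialHomeomorph.ofSet I hI)).transHomeomorph sw

theorem pc_source (e : OpenPartialHomeomorph S3 (ℝ × ℂ)) {I : Set ℝ} (hI : IsOpen I) :
    (pc e hI).source = e.source ×ˢ I := rfl

theorem pc_apply (e : OpenPartialHomeomorph S3 (ℝ × ℂ)) {I : Set ℝ} (hI : IsOpen I) (p : Y4) :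
    (pc e hI p).2 = (e p.1).2 := rfl

theorem pc_symm (e : OpenPartialHomeomorph S3 (ℝ × ℂ)) {I : Set ℝ} (hI : IsOpen I)
    (c t : ℝ) (w : ℂ) : (pc e hI).symm ((c, t), w) = (e.symm (c, w), t) := rfl

theorem pc_target (e : OpenPartialHomeomorph S3 (ℝ × ℂ)) {I : Set ℝ} (hI : IsOpen I)
    {c t : ℝ} {w : ℂ} (h : (c, w) ∈ e.target) (ht : t ∈ I) : ((c, t), w) ∈ (pc e hI).target :=
  ⟨h, ht⟩

theorem isMer_sl {K O : Set S3} {B : Set Y4} {γ : ℝ → S3} (hγ : IsMer ℝ O K γ) {I : Set ℝ}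
    (hI : IsOpen I) (hB : ∀ p : Y4, p.2 ∈ I → (p ∈ B ↔ p.1 ∈ K)) {t : ℝ} (ht : t ∈ I) :
    IsMer (ℝ × ℝ) univ B (sl t ∘ γ) := by
  obtain ⟨e, -, he, c, r, hr, htar, hs⟩ := hγ
  refine ⟨pc e hI, subset_univ _, fun p hp => ?_, (c, t), r, hr,
    fun w hw => pc_target e hI (htar w hw) ht, fun s => ?_⟩
  · rw [pc_source] at hp
    rw [pc_apply, hB p hp.2]
    exact he p.1 hp.1
  · rw [pc_symm, ← hs]
    rfl

variable {Y : Type} [TopologicalSpace Y]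

theorem good_of_cvx {S : Set Y} (h : Cvx S) : Good S :=
  ⟨{S}, by simpa using h, by simp, {S}, subset_rfl, finite_singleton _, by simp⟩

theorem good_prod {S : Set Y} (h : Good S) {I : Set ℝ} (hI : IsOpen I) (hc : Convex ℝ I) :
    Good (S ×ˢ I) := by
  obtain ⟨𝒢, h1, h2, 𝓕, h3, h4, h5⟩ := h
  refine ⟨(· ×ˢ I) '' 𝒢, ?_, ?_, (· ×ˢ I) '' 𝓕, image_mono h3, h4.image _, ?_⟩
  · rintro _ ⟨U, hU, rfl⟩
    exact (h1 U hU).prod hI hc
  · rintro _ ⟨U, hU, rfl⟩ _ ⟨V, hV, rfl⟩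
    exact ⟨U ∩ V, h2 U hU V hV, by simp [prod_inter_prod]⟩
  · rw [← h5]
    ext p
    simp only [sUnion_image, mem_iUnion, mem_prod, mem_sUnion, exists_prop]
    constructor
    · rintro ⟨U, hU, hp, hp'⟩
      exact ⟨⟨U, hU, hp⟩, hp'⟩
    · rintro ⟨⟨U, hU, hp⟩, hp'⟩
      exact ⟨U, hU, hp, hp'⟩

theorem good_chart {W : Type} [NormedAddCommGroup W] [NormedSpace ℝ W] [FiniteDimensional ℝ W]
    {B : Set Y} (e : OpenPartialHomeomorph Y (W × ℂ))
    (he : ∀ x ∈ e.source, (x ∈ B ↔ (e x).2 = 0)) {p : Y} (hp : p ∈ e.source) {U : Set Y}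
    (hU : U ∈ 𝓝 p) : ∃ V, IsOpen V ∧ p ∈ V ∧ V ⊆ U ∧ Good (V \ B) := by
  have hoe : OE e.symm e.target := OE.of_openPartialHomeomorph e.symm
  have h1 : e.target ∩ e.symm ⁻¹' U ∈ 𝓝 (e p) := by
    refine Filter.inter_mem (e.open_target.mem_nhds (e.map_source hp)) ?_
    refine (e.continuousAt_symm (e.map_source hp)).preimage_mem_nhds ?_
    rwa [e.left_inv hp]
  obtain ⟨r, hr, hb⟩ := Metric.mem_nhds_iff.1 h1
  set O := Metric.ball (e p) r with hO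
  have hOt : O ⊆ e.target := fun z hz => (hb hz).1
  have hhalf : ∀ L : W × ℂ →L[ℝ] ℝ, e.symm '' (O ∩ {z | 0 < L z}) ∈
      {S | ∃ O', IsOpen O' ∧ Convex ℝ O' ∧ O' ⊆ O ∧ e.symm '' O' = S} := fun L =>
    ⟨_, Metric.isOpen_ball.inter (isOpen_lt continuous_const L.continuous),
      (convex_ball _ _).inter (convex_halfSpace_gt L.toLinearMap.isLinear 0),
      inter_subset_left, rfl⟩
  refine ⟨e.symm '' O, hoe.img O Metric.isOpen_ball hOt,
    ⟨e p, Metric.mem_ball_self hr, e.left_inv hp⟩, ?_,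
    {S | ∃ O', IsOpen O' ∧ Convex ℝ O' ∧ O' ⊆ O ∧ e.symm '' O' = S}, ?_, ?_,
    (fun L : W × ℂ →L[ℝ] ℝ => e.symm '' (O ∩ {z | 0 < L z})) ''
      {Complex.reCLM ∘L ContinuousLinearMap.snd ℝ W ℂ,
        -(Complex.reCLM ∘L ContinuousLinearMap.snd ℝ W ℂ),
        Complex.imCLM ∘L ContinuousLinearMap.snd ℝ W ℂ,
        -(Complex.imCLM ∘L ContinuousLinearMap.snd ℝ W ℂ)}, ?_, (toFinite _).image _, ?_⟩
  · rintro _ ⟨z, hz, rfl⟩
    exact (hb hz).2
  · rintro _ ⟨O', h1, h2, h3, rfl⟩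
    exact Cvx.of_normed h2 (hoe.mono h1 (h3.trans hOt))
  · rintro _ ⟨O₁, h1, h2, h3, rfl⟩ _ ⟨O₂, h4, h5, h6, rfl⟩
    exact ⟨O₁ ∩ O₂, h1.inter h4, h2.inter h5, inter_subset_left.trans h3,
      hoe.inj.image_inter (h3.trans hOt) (h6.trans hOt)⟩
  · rintro _ ⟨L, -, rfl⟩
    exact hhalf L
  · have hB : ∀ z ∈ O, (e.symm z ∈ B ↔ z.2 = 0) := fun z hz => by
      rw [he _ (e.map_target (hOt hz)), e.right_inv (hOt hz)]
    ext y
    simp only [sUnion_image, mem_iUnion, exists_prop]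
    constructor
    · rintro ⟨L, hL, z, ⟨hz, hLz⟩, rfl⟩
      refine ⟨⟨z, hz, rfl⟩, fun hb => ?_⟩
      have h0 := (hB z hz).1 hb
      simp only [mem_insert_iff, mem_singleton_iff] at hL
      rcases hL with rfl | rfl | rfl | rfl <;> simp [h0] at hLz
    · rintro ⟨⟨z, hz, rfl⟩, hb⟩
      have h0 : z.2 ≠ 0 := fun h => hb ((hB z hz).2 h)
      have h4 : 0 < z.2.re ∨ z.2.re < 0 ∨ 0 < z.2.im ∨ z.2.im < 0 := by
        by_contra hcon
        push Not at hcon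
        exact h0 (Complex.ext (le_antisymm hcon.1 hcon.2.1) (le_antisymm hcon.2.2.1 hcon.2.2.2))
      rcases h4 with h | h | h | h
      · exact ⟨_, Or.inl rfl, z, ⟨hz, by simpa using h⟩, rfl⟩
      · exact ⟨_, Or.inr (Or.inl rfl), z, ⟨hz, by simpa using h⟩, rfl⟩
      · exact ⟨_, Or.inr (Or.inr (Or.inl rfl)), z, ⟨hz, by simpa using h⟩, rfl⟩
      · exact ⟨_, Or.inr (Or.inr (Or.inr rfl)), z, ⟨hz, by simpa using h⟩, rfl⟩

theorem good_flat {W : Type} [NormedAddCommGroup W] [NormedSpace ℝ W] [FiniteDimensional ℝ W]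
    {B : Set Y} (hcl : IsClosed B) (hf : Flat W B)
    (hY : ∀ (p : Y) (U : Set Y), U ∈ 𝓝 p → ∃ V, Cvx V ∧ p ∈ V ∧ V ⊆ U) (p : Y) {U : Set Y}
    (hU : U ∈ 𝓝 p) : ∃ V, IsOpen V ∧ p ∈ V ∧ V ⊆ U ∧ Good (V \ B) := by
  by_cases hp : p ∈ B
  · obtain ⟨e, hpe, he⟩ := hf p hp
    exact good_chart e he hpe hU
  · obtain ⟨V, hV, hpV, hs⟩ := hY p (U ∩ Bᶜ) (Filter.inter_mem hU (hcl.isOpen_compl.mem_nhds hp))
    refine ⟨V, hV.isOpen, hpV, hs.trans inter_subset_left, ?_⟩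
    rw [show V \ B = V from sdiff_eq_left.2 (disjoint_left.2 fun x hx => (hs hx).2)]
    exact good_of_cvx hV

/-- The ends: over an open interval `J` of compressed times the set is a product. -/
theorem tame_end {K : Set S3} (hK : IsClosed K) (hf : Flat ℝ K) {B : Set Y4} {J : Set ℝ}
    (hJ : IsOpen J) (hJc : OrdConnected J)
    (hB : ∀ p : Y4, Real.arctan p.2 ∈ J → (p ∈ B ↔ p.1 ∈ K)) {p : Y4} (hp : p.2 ∈ J) {U : Set Y4}
    (hU : U ∈ 𝓝 p) : ∃ V, IsOpen V ∧ p ∈ V ∧ V ⊆ U ∧ Good (jj ⁻¹' V ∩ Bᶜ) := by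
  obtain ⟨U₁, hU₁, U₂, hU₂, hs⟩ := mem_nhds_prod_iff.1 hU
  obtain ⟨V₃, h1, h2, h3, h4⟩ := good_flat hK hf (fun _ _ h => exists_cvx_S3 h) p.1 hU₁
  obtain ⟨a, b, hab, hsub⟩ := mem_nhds_iff_exists_Ioo_subset.1 hU₂
  have hI : IsOpen (Ioo a b ∩ J) := isOpen_Ioo.inter hJ
  refine ⟨V₃ ×ˢ (Ioo a b ∩ J), h1.prod hI, ⟨h2, hab, hp⟩,
    fun x hx => hs ⟨h3 hx.1, hsub hx.2.1⟩, ?_⟩
  have : jj ⁻¹' (V₃ ×ˢ (Ioo a b ∩ J)) ∩ Bᶜ = (V₃ \ K) ×ˢ (Real.arctan ⁻¹' (Ioo a b ∩ J)) := by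
    ext x
    constructor
    · rintro ⟨⟨h5, h6⟩, h7⟩
      exact ⟨⟨h5, fun h => h7 ((hB x h6.2).2 h)⟩, h6⟩
    · rintro ⟨⟨h5, h6⟩, h7⟩
      exact ⟨⟨h5, h7⟩, fun h => h6 ((hB x h7.2).1 h)⟩
  rw [this]
  refine good_prod h4 (hI.preimage Real.continuous_arctan) ?_
  exact ((ordConnected_Ioo.inter hJc).preimage_mono Real.arctan_strictMono.monotone).convex

theorem isOpenMap_arctan : IsOpenMap Real.arctan := by
  intro V hV
  have := Real.tanPartialHomeomorph.symm.isOpen_image_of_subset_source hV (subset_univ _)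
  exact this

theorem isOpenMap_jj : IsOpenMap jj := IsOpenMap.id.prodMap isOpenMap_arctan

theorem continuous_jj : Continuous jj :=
  continuous_fst.prodMk (Real.continuous_arctan.comp continuous_snd)

theorem injective_jj : Function.Injective jj := fun _ _ h =>
  Prod.ext (Prod.mk.inj h).1 (Real.arctan_injective (Prod.mk.inj h).2)

end RTame

open RTame

variable {C D : ℝ → S3} {A : ℝ → ℝ → Y4}

theorem IsKnot.isCompact (h : IsKnot C) : IsCompact (range C) :=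
  (show Function.Periodic C 1 from h.per).compact_of_continuous one_ne_zero h.cont

theorem IsKnot.isClosed (h : IsKnot C) : IsClosed (range C) := h.isCompact.isClosed

theorem IsKnot.isPreconnected (h : IsKnot C) : IsPreconnected (range C) :=
  isPreconnected_range h.cont

/-- A knot is locally injective with continuous inverse: points of the knot near `C s₀` have a
parameter near `s₀`. -/
theorem IsKnot.nhds (h : IsKnot C) (s₀ : ℝ) {I : Set ℝ} (hI : I ∈ 𝓝 s₀) :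
    ∃ U ∈ 𝓝 (C s₀), U ∩ range C ⊆ C '' I := by
  have hK : IsCompact (C '' (Icc (s₀ - 1 / 2) (s₀ + 1 / 2) \ interior I)) :=
    (isCompact_Icc.diff isOpen_interior).image h.cont
  refine ⟨_, hK.isClosed.isOpen_compl.mem_nhds ?_, ?_⟩
  · rintro ⟨s, ⟨hs, hs'⟩, he⟩
    obtain ⟨n, rfl⟩ := h.inj _ _ he.symm
    rw [int_zero hs] at hs'
    exact hs' (by simpa using mem_interior_iff_mem_nhds.2 hI)
  · rintro _ ⟨hp, s, rfl⟩
    obtain ⟨n, hn⟩ := exists_red s s₀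
    refine ⟨s + n, interior_subset ?_, per_int h.per s n⟩
    by_contra hc
    exact hp ⟨s + n, ⟨hn, hc⟩, per_int h.per s n⟩

theorem IsKnot.exists_angle (h : IsKnot C) (c : ℝ) :
    ∃ ϑ : S3 → ℂ, Continuous ϑ ∧ ∀ s, ϑ (C s) = ex (s + c) :=
  exists_ext (continuous_ex.comp (continuous_id.add continuous_const)) h.isClosed
    (fun s s' he => ex_congr c (h.inj s s' he)) fun s _ hI => h.nhds s hI

theorem IsKnot.image (h : IsKnot C) {Φ : S3 → S3} {O : Set S3} (hΦ : OE Φ O) (hs : range C ⊆ O) :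
    IsKnot fun s => Φ (C s) where
  cont := hΦ.cont.comp_continuous h.cont fun s => hs ⟨s, rfl⟩
  per s := by rw [h.per]
  inj s s' he := h.inj s s' (hΦ.inj (hs ⟨s, rfl⟩) (hs ⟨s', rfl⟩) he)
  flat := by
    rw [show (range fun s => Φ (C s)) = Φ '' range C from range_comp Φ C]
    exact Flat.image hΦ hs h.flat

theorem IsKnot.shift (h : IsKnot C) (c : ℝ) : IsKnot fun s => C (s + c) where
  cont := h.cont.comp (continuous_id.add continuous_const)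
  per s := by rw [add_right_comm, h.per]
  inj s s' he := by
    obtain ⟨n, hn⟩ := h.inj _ _ he
    exact ⟨n, by linarith⟩
  flat := by
    rw [show (range fun s => C (s + c)) = range C from (add_right_surjective c).range_comp C]
    exact h.flat

theorem IsAnn.isClosed (h : IsAnn C D A) : IsClosed (rng A) := by
  refine isClosed_of_closure_subset fun p hp => ?_
  have hK : IsCompact ((fun q : ℝ × ℝ => A q.1 q.2) ''
      (Icc (0 - 1 / 2) (0 + 1 / 2) ×ˢ Icc (p.2 - 2) (p.2 + 2))) :=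
    (isCompact_Icc.prod isCompact_Icc).image h.cont
  have hU : IsOpen {x : Y4 | |x.2 - p.2| < 1} := isOpen_lt (by fun_prop) continuous_const
  have h1 := hU.inter_closure (t := rng A) ⟨show |p.2 - p.2| < 1 by simp, hp⟩
  refine image_subset_range _ _ (closure_minimal ?_ hK.isClosed h1)
  rintro _ ⟨hx, ⟨s, t⟩, rfl⟩
  obtain ⟨n, hn⟩ := exists_red s 0
  have h2 := _root_.abs_le.1 (RTame.abs_le h s t)
  have h3 := abs_lt.1 (show |(A s t).2 - p.2| < 1 from hx)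
  exact ⟨(s + n, t), ⟨hn, by linarith [h2.2, h3.1], by linarith [h2.1, h3.2]⟩,
    per_int (f := fun s => A s t) (fun s => h.per s t) s n⟩

theorem IsAnn.isPreconnected (h : IsAnn C D A) : IsPreconnected (rng A) :=
  isPreconnected_range h.cont

theorem IsAnn.low_iff (h : IsAnn C D A) {p : Y4} (hp : p.2 ≤ 0) : p ∈ rng A ↔ p.1 ∈ range C := by
  constructor
  · rintro ⟨⟨s, t⟩, rfl⟩
    simp only at hp ⊢
    rcases le_or_gt t 0 with h0 | h0
    · rw [h.low s t h0]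
      exact ⟨s, rfl⟩
    rcases le_or_gt 1 t with h1 | h1
    · rw [h.high s t h1] at hp
      linarith
    · linarith [(h.mid s t h0 h1).1]
  · rintro ⟨s, hs⟩
    exact ⟨(s, p.2), by simp only; rw [h.low s _ hp, hs]⟩

theorem IsAnn.high_iff (h : IsAnn C D A) {p : Y4} (hp : 1 ≤ p.2) :
    p ∈ rng A ↔ p.1 ∈ range D := by
  constructor
  · rintro ⟨⟨s, t⟩, rfl⟩
    simp only at hp ⊢
    rcases le_or_gt 1 t with h1 | h1
    · rw [h.high s t h1]
      exact ⟨s, rfl⟩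
    rcases le_or_gt t 0 with h0 | h0
    · rw [h.low s t h0] at hp
      linarith
    · linarith [(h.mid s t h0 h1).2]
  · rintro ⟨s, hs⟩
    exact ⟨(s, p.2), by simp only; rw [h.high s _ hp, hs]⟩

theorem IsAnn.nhds (h : IsAnn C D A) (q : ℝ × ℝ) {I : Set (ℝ × ℝ)} (hI : I ∈ 𝓝 q) :
    ∃ U ∈ 𝓝 (A q.1 q.2), U ∩ rng A ⊆ (fun q : ℝ × ℝ => A q.1 q.2) '' I := by
  have hK : IsCompact ((fun q : ℝ × ℝ => A q.1 q.2) ''
      ((Icc (q.1 - 1 / 2) (q.1 + 1 / 2) ×ˢ Icc (q.2 - 3) (q.2 + 3)) \ interior I)) :=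
    ((isCompact_Icc.prod isCompact_Icc).diff isOpen_interior).image h.cont
  have hU : IsOpen {x : Y4 | |x.2 - q.2| < 2} := isOpen_lt (by fun_prop) continuous_const
  refine ⟨_, Filter.inter_mem (hK.isClosed.isOpen_compl.mem_nhds ?_) (hU.mem_nhds ?_), ?_⟩
  · rintro ⟨⟨s, t⟩, ⟨hs, hs'⟩, he⟩
    obtain ⟨rfl, n, rfl⟩ := h.inj _ _ _ _ he.symm
    rw [int_zero hs.1] at hs'
    exact hs' (by simpa using mem_interior_iff_mem_nhds.2 hI)
  · exact lt_of_le_of_lt (RTame.abs_le h q.1 q.2) one_lt_two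
  · rintro _ ⟨⟨hp, hx⟩, ⟨s, t⟩, rfl⟩
    obtain ⟨n, hn⟩ := exists_red s q.1
    have h2 := _root_.abs_le.1 (RTame.abs_le h s t)
    have h3 := abs_lt.1 (show |(A s t).2 - q.2| < 2 from hx)
    have h4 := per_int (f := fun s => A s t) (fun s => h.per s t) s n
    refine ⟨(s + n, t), interior_subset ?_, h4⟩
    by_contra hc
    exact hp ⟨(s + n, t), ⟨⟨hn, by linarith [h2.2, h3.1], by linarith [h2.1, h3.2]⟩, hc⟩, h4⟩

theorem IsAnn.exists_angle (h : IsAnn C D A) (c : ℝ) :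
    ∃ ϑ : Y4 → ℂ, Continuous ϑ ∧ ∀ s t, ϑ (A s t) = ex (s + c) := by
  obtain ⟨ϑ, h1, h2⟩ := exists_ext (f := fun q : ℝ × ℝ => A q.1 q.2)
    (g := fun q : ℝ × ℝ => ex (q.1 + c)) (continuous_ex.comp (continuous_fst.add continuous_const))
    h.isClosed (fun q q' he => ex_congr c (h.inj _ _ _ _ he).2) fun q _ hI => h.nhds q hI
  exact ⟨ϑ, h1, fun s t => h2 (s, t)⟩

theorem rng_prodA (C : ℝ → S3) : rng (prodA C) = range C ×ˢ univ := by
  ext p
  constructor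
  · rintro ⟨q, rfl⟩
    exact ⟨⟨q.1, rfl⟩, trivial⟩
  · rintro ⟨⟨s, hs⟩, -⟩
    exact ⟨(s, p.2), Prod.ext hs rfl⟩

theorem compl_rng_prodA (C : ℝ → S3) : (rng (prodA C))ᶜ = (range C)ᶜ ×ˢ univ := by
  rw [rng_prodA]
  ext p
  simp only [mem_compl_iff, mem_prod, mem_univ, and_true]

theorem IsKnot.isAnn (h : IsKnot C) : IsAnn C C (prodA C) where
  cont := (h.cont.comp continuous_fst).prodMk continuous_snd
  per s t := by simp only [prodA, h.per]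
  inj s t s' t' he := ⟨congrArg Prod.snd he, h.inj s s' (congrArg Prod.fst he)⟩
  low _ _ _ := rfl
  high _ _ _ := rfl
  mid _ _ h0 h1 := ⟨h0, h1⟩
  flat := by
    change Flat (ℝ × ℝ) (rng (prodA C))
    rw [rng_prodA]
    intro p hp
    obtain ⟨e, hpe, he⟩ := h.flat p.1 hp.1
    refine ⟨pc e isOpen_univ, ⟨hpe, trivial⟩, fun x hx => ?_⟩
    rw [pc_apply, ← he x.1 hx.1]
    exact ⟨fun h => h.1, fun h => ⟨h, trivial⟩⟩

theorem IsAnn.tame (h : IsAnn C D A) (hC : IsKnot C) (hD : IsKnot D) : Tame (rng A)ᶜ := by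
  refine ⟨h.isClosed.isOpen_compl, fun p U hU hp => ?_⟩
  rcases lt_or_ge p.2 0 with h0 | h0
  · refine tame_end hC.isClosed hC.flat isOpen_Iio ordConnected_Iio (fun x hx => h.low_iff ?_) h0
      (hU.mem_nhds hp)
    have : Real.arctan x.2 < Real.arctan 0 := by simpa using hx
    exact (Real.arctan_strictMono.lt_iff_lt.1 this).le
  rcases lt_or_ge (Real.arctan 1) p.2 with h1 | h1
  · refine tame_end hD.isClosed hD.flat isOpen_Ioi ordConnected_Ioi (fun x hx => h.high_iff ?_) h1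
      (hU.mem_nhds hp)
    exact (Real.arctan_strictMono.lt_iff_lt.1 hx).le
  have hp' : jj (p.1, Real.tan p.2) = p := by
    refine Prod.ext rfl (Real.arctan_tan ?_ ?_)
    · linarith [Real.pi_pos]
    · exact lt_of_le_of_lt h1 (Real.arctan_lt_pi_div_two 1)
  obtain ⟨V, h2, h3, h4, h5⟩ := good_flat h.isClosed h.flat (fun _ _ h => exists_cvx_Y4 h)
    (p.1, Real.tan p.2) ((hU.preimage continuous_jj).mem_nhds (show jj _ ∈ U by rwa [hp']))
  refine ⟨jj '' V, isOpenMap_jj V h2, ⟨_, h3, hp'⟩, image_subset_iff.2 h4, ?_⟩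
  rw [preimage_image_eq V injective_jj]
  exact h5

theorem IsAnn.isMer_low (h : IsAnn C D A) {O : Set S3} {γ : ℝ → S3}
    (hγ : IsMer ℝ O (range C) γ) {t : ℝ} (ht : t < 0) :
    IsMer (ℝ × ℝ) univ (rng A) (sl t ∘ γ) :=
  isMer_sl hγ isOpen_Iio (fun _ hp => h.low_iff (le_of_lt hp)) ht

theorem IsAnn.isMer_high (h : IsAnn C D A) {O : Set S3} {γ : ℝ → S3}
    (hγ : IsMer ℝ O (range D) γ) {t : ℝ} (ht : 1 < t) :
    IsMer (ℝ × ℝ) univ (rng A) (sl t ∘ γ) :=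
  isMer_sl hγ isOpen_Ioi (fun _ hp => h.high_iff (le_of_lt hp)) ht

theorem continuous_clampT (t₀ t₁ : ℝ) : Continuous (clampT t₀ t₁) :=
  continuous_fst.prodMk (continuous_const.max (continuous_snd.min continuous_const))

theorem IsAnn.clamp_maps (h : IsAnn C D A) {t₀ t₁ : ℝ} (h₀ : t₀ ≤ 0) (h₁ : 1 ≤ t₁) :
    MapsTo (clampT t₀ t₁) (rng A)ᶜ (rng A)ᶜ := by
  intro p hp hc
  apply hp
  rcases le_total p.2 t₀ with h2 | h2
  · have : (clampT t₀ t₁ p).2 ≤ 0 := max_le h₀ ((min_le_left _ _).trans (h2.trans h₀))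
    exact (h.low_iff (h2.trans h₀)).2 ((h.low_iff this).1 hc)
  rcases le_total t₁ p.2 with h3 | h3
  · have : 1 ≤ (clampT t₀ t₁ p).2 := le_max_of_le_right (le_min (h₁.trans h3) h₁)
    exact (h.high_iff (h₁.trans h3)).2 ((h.high_iff this).1 hc)
  · rwa [clampT, min_eq_left h3, max_eq_right h2] at hc

theorem IsAnn.sl_maps_low (h : IsAnn C D A) {t : ℝ} (ht : t ≤ 0) :
    MapsTo (sl t) (range C)ᶜ (rng A)ᶜ :=
  fun p hp hc => hp ((h.low_iff (p := sl t p) ht).1 hc)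

theorem IsAnn.sl_maps_high (h : IsAnn C D A) {t : ℝ} (ht : 1 ≤ t) :
    MapsTo (sl t) (range D)ᶜ (rng A)ᶜ :=
  fun p hp hc => hp ((h.high_iff (p := sl t p) ht).1 hc)

theorem IsMer.image {Y Y' V : Type} [TopologicalSpace Y] [TopologicalSpace Y']
    [TopologicalSpace V] {O A U : Set Y'} {B : Set Y} {γ : ℝ → Y'} (h : IsMer V O A γ)
    {Φ : Y' → Y} (hΦ : OE Φ U) (hO : O ⊆ U) (hB : ∀ x ∈ O, Φ x ∈ B ↔ x ∈ A) :
    IsMer V univ B (Φ ∘ γ) := by
  have : Nonempty Y' := ⟨γ 0⟩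
  obtain ⟨e, heO, he, c, r, hr, htar, hs⟩ := h
  obtain ⟨φ, hφs, -, hφ⟩ := hΦ.exists_openPartialHomeomorph
  refine ⟨φ.symm.trans e, subset_univ _, fun y hy => ?_, c, r, hr, fun w hw => ?_, fun s => ?_⟩
  · have h1 : y ∈ φ.target := hy.1
    have h2 : φ.symm y ∈ e.source := hy.2
    have h3 := hB _ (heO h2)
    rw [← hφ, φ.right_inv h1] at h3
    exact h3.trans (he _ h2)
  · refine ⟨htar w hw, ?_⟩
    change e.symm (c, w) ∈ φ.source
    rw [hφs]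
    exact hO (heO (e.map_target (htar w hw)))
  · change Φ (γ s) = φ (e.symm (c, r * ex s))
    rw [hφ, hs]

/-- The fibre over `x` is a meridian of the unknot in a chart over a small sector. -/
theorem isMer_fib {x : ℂ} (hx0 : x ≠ 0) (hx : ‖x‖ < 1) {B : Set ℂ} (hB : IsOpen B)
    (hs : ∀ t : ℝ, ‖x‖ ≤ t → t ≤ 1 → (t / ‖x‖ : ℝ) * x ∈ B) : IsMer ℝ (RB B) Uk (fib x) := by
  have hn : 0 < ‖x‖ := norm_pos_iff.2 hx0
  have hn' : (‖x‖ : ℂ) ≠ 0 := by exact_mod_cast hn.ne'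
  obtain ⟨θ, hθ⟩ := exists_ex (z := x / ‖x‖) (by simp [hn.ne'])
  have hcc := isCC_iota (O := Metric.ball 0 1) Metric.isOpen_ball (convex_ball _ _)
    (fun d hd => by simpa using hd)
  have hO₀ : IsOpen (Ioo (θ - 1 / 4) (θ + 1 / 4) ×ˢ Metric.ball (0 : ℂ) 1) :=
    isOpen_Ioo.prod Metric.isOpen_ball
  have hsub : Ioo (θ - 1 / 4) (θ + 1 / 4) ×ˢ Metric.ball (0 : ℂ) 1 ⊆ univ ×ˢ Metric.ball 0 1 :=
    prod_mono (subset_univ _) subset_rfl
  have hoe₀ : OE (fun q : ℝ × ℂ => iota q.1 q.2)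
      (Ioo (θ - 1 / 4) (θ + 1 / 4) ×ˢ Metric.ball (0 : ℂ) 1) := by
    refine ⟨hO₀, hcc.cont.mono hsub, fun q hq q' hq' he => ?_,
      fun V hV hVs => hcc.img V hV (hVs.trans hsub)⟩
    obtain ⟨h1, n, h2⟩ := hcc.inj q.1 q'.1 q.2 hq.2 q'.2 hq'.2 he
    have h3 : n = 0 := int_zero (s₀ := q.1)
      ⟨by linarith [hq.1.2, hq'.1.1], by linarith [hq.1.1, hq'.1.2]⟩
    exact Prod.ext (by simp [h2, h3]) h1
  obtain ⟨φ, hφs, hφt, hφ⟩ := (hoe₀.mono (hoe₀.cont.isOpen_inter_preimage hO₀ (isOpen_RB hB))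
    inter_subset_left).exists_openPartialHomeomorph
  have h0 : 0 < 1 - ‖x‖ ^ 2 := by nlinarith
  have hr1 : Real.sqrt (1 - ‖x‖ ^ 2) < 1 := by
    rw [Real.sqrt_lt' one_pos]
    nlinarith
  refine ⟨φ.symm, ?_, fun p hp => ?_, θ, Real.sqrt (1 - ‖x‖ ^ 2), Real.sqrt_pos.2 h0,
    fun w hw => ?_, fun s => ?_⟩
  · change φ.target ⊆ _
    rw [hφt]
    rintro _ ⟨q, hq, rfl⟩
    exact hq.2
  · have h1 : φ.symm p ∈ φ.source := φ.map_target hp
    have h2 : φ (φ.symm p) = p := φ.right_inv hp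
    rw [hφs] at h1
    rw [hφ] at h2
    have h3 : ‖(φ.symm p).2‖ ≤ 1 := le_of_lt (by simpa using h1.1.2)
    change yc p = 0 ↔ _
    rw [← yc_iota (θ := (φ.symm p).1) h3, h2]
  · change (θ, w) ∈ φ.source
    rw [hφs]
    have hw1 : ‖w‖ < 1 := lt_of_le_of_lt hw hr1
    refine ⟨⟨⟨by linarith, by linarith⟩, by simpa using hw1⟩, ?_⟩
    change xc (iota θ w) ∈ B
    rw [xc_iota hw1.le, hθ]
    have h1 : ‖w‖ ^ 2 ≤ 1 - ‖x‖ ^ 2 := by
      have := Real.sq_sqrt h0.le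
      nlinarith [norm_nonneg w]
    have h2 := hs (Real.sqrt (1 - ‖w‖ ^ 2)) (Real.le_sqrt_of_sq_le (by linarith))
      (Real.sqrt_le_one.2 (by nlinarith [norm_nonneg w]))
    convert h2 using 1
    push_cast
    ring
  · change fib x s = φ (θ, _)
    rw [hφ]
    have h1 : ‖(Real.sqrt (1 - ‖x‖ ^ 2) : ℂ) * ex s‖ = Real.sqrt (1 - ‖x‖ ^ 2) := by
      simp [norm_ex, abs_of_nonneg (Real.sqrt_nonneg _)]
    have h2 : ‖(Real.sqrt (1 - ‖x‖ ^ 2) : ℂ) * ex s‖ ≤ 1 := h1.le.trans hr1.le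
    refine Subtype.ext (Prod.ext ?_ ?_)
    · change xc _ = xc _
      rw [xc_fib hx.le, xc_iota h2, h1, Real.sq_sqrt h0.le, sub_sub_cancel, Real.sqrt_sq hn.le, hθ]
      field_simp
    · change yc _ = yc _
      rw [yc_fib hx.le, yc_iota h2]

end Pool.Agent.HH
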