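import Pool.Agent.P.MP_c8dc46_gt.Form
import Pool.Agent.P.MP_c8dc46_gt.Tame
import Pool.Agent.P.MP_c8dc46_gt.MVc

/-! Decomposition of the form along acyclic regions. -/

open Set Topology

namespace Pool.Agent.HH

namespace RDec

section

variable {Y R E E' : Type} [CommRing R] [AddCommGroup E] [Module R E] [AddCommGroup E']
  [Module R E']

theorem cm_cut (π : E →ₗ[R] E') (T : Set Y) (φ : List Y → E) :
    cm π (cut R E T φ) = cut R E' T (cm π φ) := by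
  funext l
  match l with
  | [] => exact map_zero π
  | x :: l =>
    change π (cutF T φ (x :: l)) = cutF T (cm π φ) (x :: l)
    by_cases h : x ∈ T
    · simp only [cutF, if_pos h]; rfl
    · simp only [cutF, if_neg h, map_zero]

variable [TopologicalSpace Y] {τ : Y → Y → Module.End R E}

theorem cut_out {T : Set Y} (hT : IsClosed T) (n : ℕ) (φ : List Y → E) :
    cut R E T φ ∈ N R E n Tᶜ := by
  have := cut_mem_N_compl (R := R) T n φ
  rwa [hT.closure_eq] at this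

theorem exa_neg {n : ℕ} {S : Set Y} {a : List Y → E} (h : Exa τ n S a) : Exa τ n S (-a) := by
  have := h.smul (-1)
  rwa [neg_one_smul] at this

theorem exa_dT (n : ℕ) (S : Set Y) (φ : List Y → E) : Exa τ n S (dT τ φ) :=
  ⟨φ, by rw [sub_self]; exact Submodule.zero_mem _⟩

theorem exa_iUnion {ι : Type} {U : ι → Set Y} (hU : ∀ i, IsOpen (U i))
    (hd : Pairwise fun i j => Disjoint (U i) (U j)) {a : List Y → E} (h : ∀ i, Exa τ 2 (U i) a) :
    Exa τ 2 (⋃ i, U i) a := by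
  choose y hy using h
  obtain ⟨y', hy'⟩ := glue_prim (R := R) hU (y := y) fun i j => by
    by_cases e : i = j
    · rw [e, sub_self]; exact Submodule.zero_mem _
    · rw [(hd e).inter_eq]; exact mem_N_empty _ _
  refine ⟨y', mem_N_of_forall fun p hp => ?_⟩
  obtain ⟨i, hi⟩ := mem_iUnion.1 hp
  refine ⟨U i, hi, ?_⟩
  have := Submodule.sub_mem _ (hy i) (dT_mem_N τ (hy' i))
  rwa [map_sub, show a - dT τ (y i) - (dT τ y' - dT τ (y i)) = a - dT τ y' by abel] at this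

/-- Exact cochains. -/
def Bd (τ : Y → Y → Module.End R E) (n : ℕ) (S : Set Y) : Submodule R (List Y → E) where
  carrier := {a | Exa τ n S a}
  add_mem' := Exa.add
  zero_mem' := Exa.of_mem_N (Submodule.zero_mem _)
  smul_mem' := fun c _ h => h.smul c

theorem fgc_slice {n : ℕ} {M : Set Y} (h : FGc (pb Prod.fst τ) n (M ×ˢ (univ : Set ℝ))) :
    ∃ P : Submodule R (List Y → E), P.FG ∧
      ∀ a, dT τ a ∈ N R E (n + 1) M → ∃ b ∈ P, Exa τ n M (a - b) := by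
  obtain ⟨P, hP, -, h⟩ := h
  refine ⟨P.map (pull R E fun p : Y => (p, (0 : ℝ))), hP.map _, fun a ha => ?_⟩
  obtain ⟨b, hb, e⟩ := h (pull R E Prod.fst a) (by
    rw [← pull_dT]
    exact pull_mem_N (fun _ _ => continuousAt_fst) (fun p hp => hp.1) ha)
  refine ⟨_, Submodule.mem_map_of_mem hb, ?_⟩
  have := e.pull (j := fun p : Y => (p, (0 : ℝ))) (S' := M)
    (fun _ _ => (continuous_id.prodMk continuous_const).continuousAt) fun p hp => ⟨hp, trivial⟩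
  rw [map_sub, pull_pull] at this
  have e2 : pull R E (Prod.fst ∘ fun p : Y => (p, (0 : ℝ))) a = a := by
    funext l
    exact congrArg a (List.map_id l)
  rw [e2] at this
  exact this

end

theorem exists_fg {F V V' : Type} [Field F] [AddCommGroup V] [Module F V] [AddCommGroup V']
    [Module F V'] (g : V →ₗ[F] V') (W : Submodule F V) (h : (W.map g).FG) :
    ∃ M : Submodule F V, M.FG ∧ M ≤ W ∧ ∀ a ∈ W, ∃ b ∈ M, g b = g a := by
  classical
  obtain ⟨t, ht⟩ := h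
  have h1 : (t : Set V') ⊆ g '' W := fun x hx => by
    have : x ∈ W.map g := ht ▸ Submodule.subset_span hx
    exact this
  obtain ⟨u, hu, e⟩ := Finset.subset_set_image_iff.1 h1
  refine ⟨Submodule.span F u, ⟨u, rfl⟩, Submodule.span_le.2 hu, fun a ha => ?_⟩
  have : g a ∈ (Submodule.span F (u : Set V)).map g := by
    rw [Submodule.map_span, ← Finset.coe_image, e, ht]
    exact Submodule.mem_map_of_mem ha
  exact this

theorem sum_left {F V : Type} [Field F] [StarRing F] [AddCommGroup V] [Module F V]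
    {lam : V → V → F} {W : Submodule F V} (h : IsSkew lam W) {ι : Type} (s : Finset ι)
    (a : ι → V) (b : V) : lam (∑ i ∈ s, a i) b = ∑ i ∈ s, lam (a i) b := by
  classical
  induction s using Finset.induction_on with
  | empty => simpa using h.zero_left b
  | insert i s hi ih => rw [Finset.sum_insert hi, Finset.sum_insert hi, h.add_left, ih]

theorem sum_right {F V : Type} [Field F] [StarRing F] [AddCommGroup V] [Module F V]
    {lam : V → V → F} {W : Submodule F V} (h : IsSkew lam W) {ι : Type} (s : Finset ι)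
    (a : V) (b : ι → V) : lam a (∑ i ∈ s, b i) = ∑ i ∈ s, lam a (b i) := by
  classical
  induction s using Finset.induction_on with
  | empty => simpa using h.zero_right a
  | insert i s hi ih => rw [Finset.sum_insert hi, Finset.sum_insert hi, h.add_right, ih]

theorem coc {F G : Type} [Field F] [StarRing F] [AddCommGroup G] [Module F G] {cf : Coef F G}
    {τ : S3 → S3 → Module.End F G} {M : Set S3} (hc : cf.CompatT τ) {a : List S3 → G}
    (ha : a ∈ cf.W3 τ M) (S : Set S3) : dT (cf.br τ) (cf.red a) ∈ N F _ 3 S := by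
  rw [← cf.red_dT hc]
  exact N_mono (subset_univ S) ha.1

end RDec

namespace Coef

variable {F G : Type} [Field F] [StarRing F] [AddCommGroup G] [Module F G] (cf : Coef F G)
  {τ : S3 → S3 → Module.End F G} {M Sg : Set S3} {ι : Type} [Fintype ι] {Mi : ι → Set S3}

/-- A decomposition of `M` into disjoint open pieces and a region `Sg`. -/
structure IsDec (M Sg : Set S3) (Mi : ι → Set S3) : Prop where
  oM : IsOpen M
  oi : ∀ i, IsOpen (Mi i)
  si : ∀ i, Mi i ⊆ M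
  disj : Pairwise fun i j => Disjoint (Mi i) (Mi j)
  oS : IsOpen Sg
  sS : Sg ⊆ M
  cover : M ⊆ (⋃ i, Mi i) ∪ Sg

theorem dec (hc : cf.CompatT τ) (hτ : IsCoc τ M) (hd : IsDec M Sg Mi) (hcut : Cut (cf.br τ) M Sg)
    {a : List S3 → G} (ha : a ∈ cf.W3 τ M) : ∃ ai : ι → List S3 → G,
      (∀ i, ai i ∈ cf.W3 τ (Mi i)) ∧ Exa (cf.br τ) 2 M (cf.red (a - ∑ i, ai i)) ∧
        ∀ i, Exa (cf.br τ) 2 (Mi i) (cf.red (a - ai i)) := by
  classical
  obtain ⟨K, hK, hKM, haK⟩ := ha.2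
  obtain ⟨φ', K', hK', hKM', h1, h2⟩ := hcut (cf.red a) K hK hKM (RDec.coc hc ha _)
    (cm_mem_N _ (N_mono (sdiff_subset_sdiff_left (subset_univ _)) haK))
  obtain ⟨φ, rfl, hφ⟩ := exists_cm_lift (pk cf.T cf.m) (Submodule.mkQ_surjective _) φ'
  have hU : IsOpen (⋃ i, Mi i) := isOpen_iUnion hd.oi
  obtain ⟨L, hL, hL1, hL2⟩ := exists_compact_between (hK'.diff hU) hd.oS
    fun p hp => (hd.cover (hKM' hp.1)).resolve_left hp.2
  obtain ⟨ψ, hψ⟩ : ∃ ψ, ψ = cut F G L φ := ⟨_, rfl⟩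
  have hψL : ψ ∈ N F G 1 Lᶜ := hψ ▸ RDec.cut_out hL.isClosed 1 φ
  obtain ⟨a', ha'⟩ : ∃ a', a' = a - dT τ ψ := ⟨_, rfl⟩
  have hKL : IsCompact (K ∪ L) := hK.union hL
  have hKLM : K ∪ L ⊆ M := union_subset hKM (hL2.trans hd.sS)
  have s1 : a' ∈ N F G 2 (K ∪ L)ᶜ := by
    rw [ha']
    exact Submodule.sub_mem _
      (N_mono (S := (K ∪ L)ᶜ) (S' := univ \ K) (fun p hp => ⟨trivial, fun h => hp (Or.inl h)⟩) haK)
      (N_mono (S := (K ∪ L)ᶜ) (fun p hp h => hp (Or.inr h)) (dT_mem_N τ hψL))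
  have s2 : dT (cf.br τ) (cf.red a') ∈ N F _ 3 univ := by
    rw [← cf.red_dT hc, ha', map_sub, map_sub]
    refine Submodule.sub_mem _ ha.1 (cm_mem_N _ (mem_N_of_forall fun p _ => ?_))
    by_cases hp : p ∈ L
    · exact ⟨M, hKLM (Or.inr hp), dT_dT_mem_N hτ 3 ψ⟩
    · exact ⟨Lᶜ, hp, dT_mem_N τ (dT_mem_N τ hψL)⟩
  obtain ⟨V, hV⟩ : ∃ V, V = Sg ∩ (interior L ∪ K'ᶜ) := ⟨_, rfl⟩
  have hVo : IsOpen V := hV ▸ hd.oS.inter (isOpen_interior.union hK'.isClosed.isOpen_compl)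
  have s3 : cf.red a' ∈ N F _ 2 V := by
    have e : cf.red a' = (cf.red a - dT (cf.br τ) (cf.red φ)) + cf.red (dT τ (φ - ψ)) := by
      rw [ha', map_sub, map_sub, map_sub, cf.red_dT hc φ]
      abel
    rw [e, hV]
    refine Submodule.add_mem _ (N_mono inter_subset_left h1)
      (cm_mem_N _ (dT_mem_N τ (mem_N_of_forall fun p hp => ?_)))
    rcases hp.2 with h | h
    · exact ⟨_, h, hψ ▸ sub_cut_mem_N L le_rfl φ⟩
    · have h3 : φ ∈ N F G 1 (Sg \ K') := map_mem_N h2 hφ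
      exact ⟨Sg \ K', ⟨hp.1, h⟩, Submodule.sub_mem _ h3 (hψ ▸ cut_mem_N L h3)⟩
  obtain ⟨C, hC⟩ : ∃ C, C = (K ∪ L) \ V := ⟨_, rfl⟩
  have hCc : IsCompact C := hC ▸ hKL.diff hVo
  have hCU : C ⊆ ⋃ i, Mi i := by
    rw [hC]
    intro p hp
    by_contra hn
    refine hp.2 (hV ▸ ⟨(hd.cover (hKLM hp.1)).resolve_left hn, ?_⟩)
    by_cases h : p ∈ K'
    · exact Or.inl (hL1 ⟨h, hn⟩)
    · exact Or.inr h
  have s4 : cf.red a' ∈ N F _ 2 Cᶜ := mem_N_of_forall fun p hp => by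
    by_cases h : p ∈ V
    · exact ⟨V, h, s3⟩
    · exact ⟨(K ∪ L)ᶜ, fun h' => hp (hC ▸ ⟨h', h⟩), cm_mem_N _ s1⟩
  have hCi : ∀ i, IsCompact (C ∩ Mi i) := fun i => by
    have : C ∩ Mi i = C \ ⋃ (j) (_ : j ≠ i), Mi j := by
      ext p
      simp only [mem_inter_iff, mem_sdiff, mem_iUnion, not_exists]
      refine and_congr_right fun hp => ⟨fun h j hj h' => disjoint_left.1 (hd.disj hj) h' h,
        fun h => ?_⟩
      obtain ⟨j, hj⟩ := mem_iUnion.1 (hCU hp)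
      by_cases e : j = i
      · exact e ▸ hj
      · exact absurd hj (h j e)
    rw [this]
    exact hCc.diff (isOpen_iUnion fun j => isOpen_iUnion fun _ => hd.oi j)
  choose T hT hT1 hT2 using fun i =>
    exists_compact_between (hCi i) (hd.oi i) inter_subset_right
  have s5 : ∀ i, cf.red a' - cut F _ (T i) (cf.red a') ∈ N F _ 2 (Mi i) := fun i =>
    mem_N_of_forall fun p hp => by
      by_cases h : p ∈ C
      · exact ⟨_, hT1 i ⟨h, hp⟩, sub_cut_mem_N (T i) one_le_two _⟩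
      · exact ⟨_, h, Submodule.sub_mem _ s4 (cut_mem_N _ s4)⟩
  have s6 : ∀ (x : List S3 → G) (S : Set S3), cf.red (a' - x) ∈ N F _ 2 S →
      Exa (cf.br τ) 2 S (cf.red (a - x)) := fun x S h => ⟨cf.red ψ, by
    rw [← cf.red_dT hc, ← map_sub, sub_right_comm, ← ha']
    exact h⟩
  refine ⟨fun i => cut F G (T i) a', fun i => ⟨?_, T i, hT i, hT2 i, ?_⟩, s6 _ _ ?_,
    fun i => s6 _ _ ?_⟩
  · rw [cf.red_dT hc, RDec.cm_cut]
    refine mem_N_of_forall fun p _ => ?_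
    by_cases h : p ∈ T i
    · refine ⟨Mi i, hT2 i h, ?_⟩
      have := Submodule.sub_mem _ (N_mono (subset_univ (Mi i)) s2) (dT_mem_N (cf.br τ) (s5 i))
      rwa [map_sub, sub_sub_cancel] at this
    · exact ⟨(T i)ᶜ, h, dT_mem_N _ (RDec.cut_out (hT i).isClosed 2 _)⟩
  · exact N_mono (fun p hp => hp.2) (RDec.cut_out (hT i).isClosed 2 a')
  · rw [map_sub, map_sum]
    simp only [RDec.cm_cut]
    refine mem_N_of_forall fun p _ => ?_
    by_cases h : p ∈ C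
    · obtain ⟨i, hi⟩ := mem_iUnion.1 (hCU h)
      refine ⟨Mi i, hi, ?_⟩
      rw [← Finset.add_sum_erase _ _ (Finset.mem_univ i), ← sub_sub]
      refine Submodule.sub_mem _ (s5 i) (Submodule.sum_mem _ fun j hj => ?_)
      exact N_mono (fun q hq hq' => disjoint_left.1 (hd.disj (Finset.ne_of_mem_erase hj))
        (hT2 j hq') hq) (RDec.cut_out (hT j).isClosed 2 _)
    · exact ⟨_, h, Submodule.sub_mem _ s4 (Submodule.sum_mem _ fun j _ => cut_mem_N _ s4)⟩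
  · rw [map_sub, RDec.cm_cut]
    exact s5 i

theorem rad_of_piece (hc : cf.CompatT τ) (hτ : IsCoc τ M) (hd : IsDec M Sg Mi)
    (hcut : Cut (cf.br τ) M Sg) {i : ι} {a : List S3 → G} (ha : a ∈ cf.W3 τ (Mi i))
    (hr : ∀ b ∈ cf.W3 τ (Mi i), cf.lam3 τ b a = 0) : ∀ b ∈ cf.W3 τ M, cf.lam3 τ b a = 0 := by
  intro b hb
  obtain ⟨bi, h1, h2, -⟩ := cf.dec hc hτ hd hcut hb
  have hs := cf.isSkew3 hc hτ
  have haM : a ∈ cf.W3 τ M := cf.W_mono (hd.si i) ha
  have hm : b - ∑ j, bi j ∈ cf.W3 τ M :=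
    Submodule.sub_mem _ hb (Submodule.sum_mem _ fun j _ => cf.W_mono (hd.si j) (h1 j))
  have e1 : cf.lam3 τ (b - ∑ j, bi j) a = 0 := by
    rw [hs.skew a haM _ hm, cf.lam3_exa hc hτ haM h2, star_zero, neg_zero]
  rw [hs.sub_left, RDec.sum_left hs, Finset.sum_eq_zero, sub_zero] at e1
  · exact e1
  · intro j _
    by_cases e : j = i
    · exact hr _ (e ▸ h1 j)
    · exact cf.lam_disjoint isInt_I3 (hd.disj e) (h1 j) ha

theorem nondeg_piece (hc : cf.CompatT τ) (hτ : IsCoc τ M) (hd : IsDec M Sg Mi)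
    (hcut : Cut (cf.br τ) M Sg) (h : cf.Nondeg τ M) (i : ι) : cf.Nondeg τ (Mi i) := by
  intro a ha hr
  exact (h a (cf.W_mono (hd.si i) ha) (cf.rad_of_piece hc hτ hd hcut ha hr)).mono (hd.si i)

/-- If only the piece `i` carries cohomology, the form is computed there. -/
theorem lam3_one_piece (hc : cf.CompatT τ) (hτ : IsCoc τ M) (hd : IsDec M Sg Mi)
    (hcut : Cut (cf.br τ) M Sg) (i : ι) (hj : ∀ j, j ≠ i → Acyc (cf.br τ) 2 (Mi j))
    {a : List S3 → G} (ha : a ∈ cf.W3 τ M) : ∃ a' ∈ cf.W3 τ (Mi i),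
      Exa (cf.br τ) 2 (Mi i) (cf.red (a - a')) ∧ ∀ c ∈ cf.W3 τ M, cf.lam3 τ c (a - a') = 0 := by
  classical
  obtain ⟨ai, h1, h2, h3⟩ := cf.dec hc hτ hd hcut ha
  refine ⟨ai i, h1 i, h3 i, fun c hcM => ?_⟩
  have hs := cf.isSkew3 hc hτ
  have e := cf.lam3_exa hc hτ hcM h2
  rw [← Finset.add_sum_erase _ _ (Finset.mem_univ i), ← sub_sub, hs.sub_right,
    RDec.sum_right hs, Finset.sum_eq_zero, sub_zero] at e
  · exact e
  · intro j hji
    exact cf.rad_of_piece hc hτ hd hcut (h1 j) (fun b hb => cf.lam3_exa hc (hτ.mono (hd.si j)) hb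
      (hj j (Finset.ne_of_mem_erase hji) _ (RDec.coc hc (h1 j) _))) c hcM

/-- With no parallel sections on the overlaps the difference is exact on `M`. -/
theorem lam3_one_piece_exa (hc : cf.CompatT τ) (hτ : IsCoc τ M) (hd : IsDec M Sg Mi)
    (hcut : Cut (cf.br τ) M Sg) (i : ι) (hj : ∀ j, j ≠ i → Acyc (cf.br τ) 2 (Mi j))
    (h0 : ∀ k, Acyc0 (cf.br τ) (Mi k ∩ Sg))
    {a : List S3 → G} (ha : a ∈ cf.W3 τ M) : ∃ a' ∈ cf.W3 τ (Mi i),
      Exa (cf.br τ) 2 M (cf.red (a - a')) := by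
  obtain ⟨ai, h1, -, h3⟩ := cf.dec hc hτ hd hcut ha
  refine ⟨ai i, h1 i, ?_⟩
  have hm : a - ai i ∈ cf.W3 τ M := Submodule.sub_mem _ ha (cf.W_mono (hd.si i) (h1 i))
  obtain ⟨K, hK, hKM, haK⟩ := hm.2
  obtain ⟨φ, -, -, -, e, -⟩ := hcut (cf.red (a - ai i)) K hK hKM (RDec.coc hc hm _)
    (cm_mem_N _ (N_mono (sdiff_subset_sdiff_left (subset_univ _)) haK))
  refine (exa_union (isOpen_iUnion hd.oi) hd.oS ?_ (RDec.exa_iUnion hd.oi hd.disj fun j => ?_)
    ⟨φ, e⟩).mono hd.cover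
  · intro ψ hψ
    refine mem_N_of_forall fun p hp => ?_
    obtain ⟨k, hk⟩ := mem_iUnion.1 hp.1
    exact ⟨Mi k ∩ Sg, ⟨hk, hp.2⟩, h0 k ψ (N_mono (inter_subset_inter_left _ (subset_iUnion Mi k)) hψ)⟩
  · by_cases e : j = i
    · exact e ▸ h3 i
    · exact hj j e _ (RDec.coc hc hm _)

theorem nondeg_of_sub {M₁ : Set S3} (hc : cf.CompatT τ) (hτ : IsCoc τ M)
    (hd : IsDec M Sg fun _ : Unit => M₁) (hcut : Cut (cf.br τ) M Sg)
    (h1 : Acyc (cf.br τ) 2 Sg) (h0 : Acyc0 (cf.br τ) (M₁ ∩ Sg)) (h : cf.Nondeg τ M₁) :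
    cf.Nondeg τ M := by
  intro a ha hr
  obtain ⟨ai, a1, a2, a3⟩ := cf.dec hc hτ hd hcut ha
  rw [Fintype.sum_unique] at a2
  have hs := cf.isSkew3 hc hτ
  have e1 : Exa (cf.br τ) 2 M₁ (cf.red (ai default)) := h _ (a1 _) fun b hb => by
    have hbM : b ∈ cf.W3 τ M := cf.W_mono (hd.si ()) hb
    have := cf.lam3_exa hc hτ hbM a2
    rwa [hs.sub_right, hr b hbM, zero_sub, neg_eq_zero] at this
  have e2 := (a3 default).add e1
  rw [← map_add, sub_add_cancel] at e2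
  refine (exa_union (hd.oi ()) hd.oS h0 e2 (h1 _ (RDec.coc hc ha _))).mono ?_
  simpa only [iUnion_const] using hd.cover

/-- Every class on the complement of a closed flat set with acyclic meridians has a representative
in `W3`. -/
theorem exists_W3 {A : Set S3} (hA : Flat ℝ A) (hcl : IsClosed A) (hc : cf.CompatT τ)
    (hτ : IsCoc τ Aᶜ) (hm : MerAc ℝ univ A (cf.br τ)) {b : List S3 → Qk cf.T cf.m}
    (hb : dT (cf.br τ) b ∈ N F _ 3 Aᶜ) : ∃ a ∈ cf.W3 τ Aᶜ, Exa (cf.br τ) 2 Aᶜ (cf.red a - b) := by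
  have hτ' := cf.isCoc_br hc hτ
  obtain ⟨φ, T, hT, hTA, h⟩ := collar_cut hA hcl hτ' hm hb
  obtain ⟨a, ha, ha0⟩ := exists_cm_lift (pk cf.T cf.m) (Submodule.mkQ_surjective _)
    (cut F _ T (b - dT (cf.br τ) φ))
  have hc0 := RDec.cut_out (R := F) hT 2 (b - dT (cf.br τ) φ)
  refine ⟨a, ⟨?_, T, hT.isCompact, hTA.subset_compl_right,
    N_mono (fun p hp => hp.2) (map_mem_N hc0 ha0)⟩, -φ, ?_⟩
  · rw [cf.red_dT hc, ha]
    refine mem_N_of_forall fun p _ => ?_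
    by_cases hp : p ∈ T
    · refine ⟨Aᶜ, hTA.subset_compl_right hp, ?_⟩
      have := Submodule.sub_mem _ (Submodule.sub_mem _ hb (dT_dT_mem_N hτ' 3 φ))
        (dT_mem_N (cf.br τ) h)
      rwa [← map_sub, ← map_sub, sub_sub_cancel] at this
    · exact ⟨Tᶜ, hp, dT_mem_N _ hc0⟩
  · have := Submodule.neg_mem _ h
    rw [ha, map_neg]
    convert this using 1
    abel

end Coef

variable {G : Type} [AddCommGroup G] [Module ℂ G] {cf : Coef ℂ G}
  {τ : S3 → S3 → Module.End ℂ G} {M Sg : Set S3} {ι : Type} [Fintype ι] {Mi : ι → Set S3}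

theorem Sig3.unique (hc : cf.CompatT τ) (hτ : IsCoc τ M) {s s' : ℤ} (h : Sig3 cf τ M s)
    (h' : Sig3 cf τ M s') : s = s' := by
  exact HasSig.unique (cf.isSkew3 hc hτ) h h'

theorem sig3_dec (hc : cf.CompatT τ) (hτ : IsCoc τ M) (hd : Coef.IsDec M Sg Mi)
    (hcut : Cut (cf.br τ) M Sg) {s : ι → ℤ} (h : ∀ i, Sig3 cf τ (Mi i) (s i)) :
    Sig3 cf τ M (∑ i, s i) := by
  refine HasSig.sum (cf.isSkew3 hc hτ) (fun i => cf.W_mono (hd.si i))
    (fun i j hij a ha b hb => cf.lam_disjoint isInt_I3 (hd.disj hij) ha hb) (fun a ha => ?_) h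
  obtain ⟨ai, h1, h2, -⟩ := cf.dec hc hτ hd hcut ha
  exact ⟨ai, h1, fun c hcM => cf.lam3_exa hc hτ hcM h2⟩

theorem Sig3.exists_sub (hc : cf.CompatT τ) (hτ : IsCoc τ M) {s : ℤ} (h : Sig3 cf τ M s)
    {M' : Set S3} (hs : M' ⊆ M) : ∃ s', Sig3 cf τ M' s' := by
  exact HasSig.exists_sub (cf.isSkew3 hc hτ) h (cf.W_mono hs)

theorem sig3_zero (hc : cf.CompatT τ) (hτ : IsCoc τ M) (h : Acyc (cf.br τ) 2 M) :
    Sig3 cf τ M 0 := by
  exact hasSig_zero fun a ha c hcM => cf.lam3_exa hc hτ hcM (h _ (RDec.coc hc ha _))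

theorem sig3_congr {τ' : S3 → S3 → Module.End ℂ G} (h : LocEq τ τ' M) (s : ℤ) :
    Sig3 cf τ M s ↔ Sig3 cf τ' M s := by
  have key : ∀ {τ τ' : S3 → S3 → Module.End ℂ G}, LocEq τ τ' M → Sig3 cf τ M s →
      Sig3 cf τ' M s := by
    intro τ τ' h ⟨ι, _, e, ε, h1, h2, h3, h4, h5⟩
    have h' : LocEq τ τ' (M ∩ univ) := h.mono inter_subset_left
    have hW : cf.W3 τ M = cf.W3 τ' M := cf.W_congr h'
    have hl : ∀ a ∈ cf.W3 τ M, ∀ b, cf.lam3 τ' a b = cf.lam3 τ a b := fun a ha b =>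
      (cf.lam_congr_tau isInt_I3 h' ha b).symm
    refine ⟨ι, inferInstance, e, ε, fun i => hW ▸ h1 i, fun i j hij => ?_, fun i => ?_,
      fun a ha => ?_, h5⟩
    · rw [hl _ (h1 i), h2 i j hij]
    · rw [hl _ (h1 i)]
      exact h3 i
    · obtain ⟨b, hb, h6⟩ := h4 a (hW ▸ ha)
      refine ⟨b, hb, fun c hc => ?_⟩
      rw [← hW] at hc
      rw [hl c hc, h6 c hc]
  exact ⟨key h, key h.symm⟩

theorem exists_sig_knot {C : ℝ → S3} (hC : IsKnot C) (hc : cf.CompatT τ)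
    (hτ : IsCoc τ (range C)ᶜ) : ∃ s, Sig3 cf τ (range C)ᶜ s := by
  have := cf.finite_Qk cf.m
  have ht := hC.isAnn.tame hC hC
  rw [compl_rng_prodA] at ht
  obtain ⟨P, hP, h⟩ := RDec.fgc_slice (fgc_of_tame (τ := pb Prod.fst (cf.br τ)) ht
    ((cf.isCoc_br hc hτ).pb (fun _ _ => continuousAt_fst) fun p hp => hp.1) one_le_two)
  obtain ⟨W, hW, hWW, h2⟩ := RDec.exists_fg
    ((RDec.Bd (cf.br τ) 2 (range C)ᶜ).mkQ ∘ₗ cf.red) (cf.W3 τ (range C)ᶜ)
    ((hP.map (RDec.Bd (cf.br τ) 2 (range C)ᶜ).mkQ).of_le (by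
      rintro _ ⟨a, ha, rfl⟩
      obtain ⟨b, hb, e⟩ := h _ (RDec.coc hc ha _)
      exact ⟨b, hb, ((Submodule.Quotient.eq _).2 e).symm⟩))
  refine exists_hasSig (cf.isSkew3 hc hτ) hW hWW fun a ha => ?_
  obtain ⟨b, hb, e⟩ := h2 a ha
  refine ⟨b, hb, fun c hcM => cf.lam3_exa hc hτ hcM ?_⟩
  rw [map_sub]
  exact (Submodule.Quotient.eq _).1 e.symm

theorem sig3_one (hc : cf.CompatT τ) (hτ : IsCoc τ M) (hn : cf.Nondeg τ M)
    {b : List S3 → Qk cf.T cf.m} (hb : OneGen (cf.br τ) M b) {a : List S3 → G}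
    (ha : a ∈ cf.W3 τ M) (hab : Exa (cf.br τ) 2 M (cf.red a - b)) {s : ℤ} (h : Sig3 cf τ M s) :
    s = 1 ∨ s = -1 := by
  refine HasSig.one_dim (cf.isSkew3 hc hτ) ha (fun hr => hb.2.1 ?_) (fun a' ha' => ?_) h
  · have := (hn a ha hr).sub hab
    rwa [sub_sub_cancel] at this
  · obtain ⟨κ, hκ⟩ := hb.2.2 _ (RDec.coc hc ha' _)
    refine ⟨κ, fun c hcM => cf.lam3_exa hc hτ hcM ?_⟩
    have := hκ.sub (hab.smul κ)
    rwa [smul_sub, sub_sub_sub_cancel_right, ← map_smul, ← map_sub] at this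

end Pool.Agent.HH
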