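import Pool.Agent.P.MP_c8dc46_gt.Stmt

/-!
Alexander-Spanier cochains with local coefficients. A cochain is a function on lists of points;
lists of length `n` carry the part of degree `n - 1`.
-/

open Set Topology

noncomputable section

namespace Pool.Agent.HH

section Cochains

variable {Y Y' : Type}

/-- The untwisted augmented coboundary, `d0 [x] φ = φ []`, `d0 [x, y] φ = φ [y] - φ [x]`. -/
def d0 {E : Type} [AddCommGroup E] : List Y → (List Y → E) → E
  | [], _ => 0
  | x :: l, φ => φ l - d0 l (fun m => φ (x :: m))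

theorem d0_add {E : Type} [AddCommGroup E] (l : List Y) (φ ψ : List Y → E) :
    d0 l (φ + ψ) = d0 l φ + d0 l ψ := by
  induction l generalizing φ ψ with
  | nil => simp [d0]
  | cons x l ih =>
    have := ih (fun m => φ (x :: m)) (fun m => ψ (x :: m))
    simp only [d0, Pi.add_apply]
    rw [show (fun m => φ (x :: m) + ψ (x :: m)) =
      (fun m => φ (x :: m)) + (fun m => ψ (x :: m)) from rfl, this]
    abel

theorem d0_smul {R E : Type} [CommRing R] [AddCommGroup E] [Module R E] (c : R) (l : List Y)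
    (φ : List Y → E) : d0 l (c • φ) = c • d0 l φ := by
  induction l generalizing φ with
  | nil => simp [d0]
  | cons x l ih =>
    have := ih (fun m => φ (x :: m))
    simp only [d0, Pi.smul_apply, smul_sub]
    rw [show (fun m => c • φ (x :: m)) = c • (fun m => φ (x :: m)) from rfl, this]

variable {R E E' : Type} [CommRing R] [AddCommGroup E] [Module R E] [AddCommGroup E'] [Module R E']

/-- The twisted coboundary as a function. -/
def dF (τ : Y → Y → Module.End R E) (φ : List Y → E) : List Y → E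
  | [] => 0
  | [_] => 0
  | x :: y :: l => τ x y (φ (y :: l)) - d0 (y :: l) (fun m => φ (x :: m))

/-- The coboundary twisted by the transport `τ x y : E_y → E_x`;
`dT τ φ [x, y] = τ x y (φ [y]) - φ [x]`,
`dT τ φ [x, y, z] = τ x y (φ [y, z]) - (φ [x, z] - φ [x, y])`. -/
def dT (τ : Y → Y → Module.End R E) : (List Y → E) →ₗ[R] (List Y → E) where
  toFun := dF τ
  map_add' φ ψ := by
    funext l
    match l with
    | [] => simp [dF]
    | [_] => simp [dF]
    | x :: y :: l =>
      simp only [dF, Pi.add_apply, map_add]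
      rw [show (fun m => φ (x :: m) + ψ (x :: m)) =
        (fun m => φ (x :: m)) + (fun m => ψ (x :: m)) from rfl, d0_add]
      abel
  map_smul' c φ := by
    funext l
    match l with
    | [] => simp [dF]
    | [_] => simp [dF]
    | x :: y :: l =>
      simp only [dF, Pi.smul_apply, map_smul, RingHom.id_apply, smul_sub]
      rw [show (fun m => c • φ (x :: m)) = c • (fun m => φ (x :: m)) from rfl, d0_smul]

/-- The trivial local system. -/
def triv (R E : Type) [CommRing R] [AddCommGroup E] [Module R E] (Y : Type) :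
    Y → Y → Module.End R E := fun _ _ => 1

/-- The local system of a representation along a group valued cocycle. -/
def tr {Γ : Type} [Group Γ] (ρ : Representation R Γ E) (f : Y → Y → Γ) :
    Y → Y → Module.End R E := fun x y => ρ (f x y)

/-- The local system `t ^ h` of an automorphism `t` along an integral cocycle. -/
def zt (t : (Module.End R E)ˣ) (h : Y → Y → ℤ) : Y → Y → Module.End R E :=
  fun x y => ((t ^ h x y : (Module.End R E)ˣ) : Module.End R E)

/-- Change of coefficients. -/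
def cm (π : E →ₗ[R] E') : (List Y → E) →ₗ[R] (List Y → E') where
  toFun φ := fun l => π (φ l)
  map_add' φ ψ := by funext l; simp
  map_smul' c φ := by funext l; simp

/-- Pull-back of cochains. -/
def pull (R E : Type) [CommRing R] [AddCommGroup E] [Module R E] (j : Y' → Y) :
    (List Y → E) →ₗ[R] (List Y' → E) where
  toFun φ := fun l => φ (l.map j)
  map_add' _ _ := rfl
  map_smul' _ _ := rfl

/-- Pull-back of functions of two points. -/
def pb {M : Type} (j : Y' → Y) (f : Y → Y → M) : Y' → Y' → M := fun x y => f (j x) (j y)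

open Classical in
/-- Keep the values on lists that start in `S`. -/
def cutF (S : Set Y) (φ : List Y → E) : List Y → E
  | [] => 0
  | x :: l => if x ∈ S then φ (x :: l) else 0

/-- Keep the values on lists that start in `S`. -/
def cut (R E : Type) [CommRing R] [AddCommGroup E] [Module R E] (S : Set Y) :
    (List Y → E) →ₗ[R] (List Y → E) where
  toFun := cutF S
  map_add' φ ψ := by
    funext l
    match l with
    | [] => simp [cutF]
    | x :: l => by_cases h : x ∈ S <;> simp [cutF, h]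
  map_smul' c φ := by
    funext l
    match l with
    | [] => simp [cutF]
    | x :: l => by_cases h : x ∈ S <;> simp [cutF, h]

/-- Apply `U x` on lists that start at `x`. -/
def gaF (U : Y → E →ₗ[R] E') (φ : List Y → E) : List Y → E'
  | [] => 0
  | x :: l => U x (φ (x :: l))

/-- Apply `U x` on lists that start at `x` (gauge transformation). -/
def ga (U : Y → E →ₗ[R] E') : (List Y → E) →ₗ[R] (List Y → E') where
  toFun := gaF U
  map_add' φ ψ := by
    funext l
    match l with
    | [] => simp [gaF]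
    | x :: l => simp [gaF]
  map_smul' c φ := by
    funext l
    match l with
    | [] => simp [gaF]
    | x :: l => simp [gaF]

/-- Left cup product with an integral function of two points. -/
def lcF (τ : Y → Y → Module.End R E) (θ : Y → Y → ℤ) (φ : List Y → E) : List Y → E
  | [] => 0
  | [_] => 0
  | x :: y :: l => θ x y • τ x y (φ (y :: l))

/-- Left cup product with an integral function of two points. -/
def lc (τ : Y → Y → Module.End R E) (θ : Y → Y → ℤ) : (List Y → E) →ₗ[R] (List Y → E) where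
  toFun := lcF τ θ
  map_add' φ ψ := by
    funext l
    match l with
    | [] => simp [lcF]
    | [_] => simp [lcF]
    | x :: y :: l => simp [lcF]
  map_smul' c φ := by
    funext l
    match l with
    | [] => simp [lcF]
    | [_] => simp [lcF]
    | x :: y :: l =>
      simp only [lcF, Pi.smul_apply, map_smul, RingHom.id_apply]
      exact smul_comm _ _ _

open Classical in
/-- The jump of the indicator function of `S`. -/
def jmp (S : Set Y) (x y : Y) : ℤ := (if y ∈ S then 1 else 0) - (if x ∈ S then 1 else 0)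

/-- A function of one point as a cochain. -/
def c0 {M : Type} [Zero M] (g : Y → M) : List Y → M
  | [x] => g x
  | _ => 0

/-- A function of two points as a cochain. -/
def c1 {M : Type} [Zero M] (h : Y → Y → M) : List Y → M
  | [x, y] => h x y
  | _ => 0

/-- The part of a cochain on lists of length two. -/
def f2 {M : Type} (φ : List Y → M) : Y → Y → M := fun x y => φ [x, y]

/-- Transport from the head of the second list to the head of the first. -/
def tp (τ : Y → Y → Module.End R E) : List Y → List Y → Module.End R E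
  | x :: _, y :: _ => τ x y
  | _, _ => 1

/-- Cup product, the first factor having degree `p`:
`cup β τ p a b (x₀ … xₙ) = β (a (x₀ … xₚ)) (τ x₀ xₚ (b (xₚ … xₙ)))`. -/
def cup {E₁ E₃ : Type} [AddCommGroup E₁] [AddCommGroup E₃] (β : E₁ →+ E →+ E₃)
    (τ : Y → Y → Module.End R E) (p : ℕ) (a : List Y → E₁) (b : List Y → E) : List Y → E₃ :=
  fun l => β (a (l.take (p + 1))) (tp τ l (l.drop p) (b (l.drop p)))

/-- A semilinear pairing as a biadditive map. -/
def biA {F G G' H : Type} [CommRing F] [AddCommGroup G] [Module F G] [AddCommGroup G']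
    [Module F G'] [AddCommGroup H] [Module F H] {σ : F →+* F} (B : G →ₗ[F] G' →ₛₗ[σ] H) :
    G →+ G' →+ H where
  toFun x := (B x).toAddMonoidHom
  map_zero' := by ext; simp
  map_add' x y := by ext; simp

/-- Multiplication as a biadditive map. -/
def mulA (F : Type) [Ring F] : F →+ F →+ F := AddMonoidHom.mul

variable [TopologicalSpace Y]

/-- Cochains that vanish on lists of length `n` near every point of `S`. -/
def N (R E : Type) [CommRing R] [AddCommGroup E] [Module R E] (n : ℕ) (S : Set Y) :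
    Submodule R (List Y → E) where
  carrier := {φ | ∀ p ∈ S, ∃ U ∈ 𝓝 p, ∀ l : List Y, l.length = n → (∀ x ∈ l, x ∈ U) → φ l = 0}
  add_mem' := by
    intro a b ha hb p hp
    obtain ⟨U, hU, h1⟩ := ha p hp
    obtain ⟨V, hV, h2⟩ := hb p hp
    refine ⟨U ∩ V, Filter.inter_mem hU hV, fun l hl hx => ?_⟩
    simp [h1 l hl fun x h => (hx x h).1, h2 l hl fun x h => (hx x h).2]
  zero_mem' := fun p _ => ⟨univ, Filter.univ_mem, fun _ _ _ => rfl⟩
  smul_mem' := by
    intro c a ha p hp
    obtain ⟨U, hU, h1⟩ := ha p hp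
    exact ⟨U, hU, fun l hl hx => by simp [h1 l hl hx]⟩

/-- Cochains whose part of length `n` has compact support in `X`. -/
def Cc (R E : Type) [CommRing R] [AddCommGroup E] [Module R E] (n : ℕ) (X : Set Y) :
    Submodule R (List Y → E) where
  carrier := {φ | ∃ K, IsCompact K ∧ K ⊆ X ∧ φ ∈ N R E n Kᶜ}
  add_mem' := by
    rintro a b ⟨K, hK, hKX, ha⟩ ⟨K', hK', hKX', hb⟩
    refine ⟨K ∪ K', hK.union hK', union_subset hKX hKX', Submodule.add_mem _ ?_ ?_⟩
    · exact fun p hp => ha p fun h => hp (Or.inl h)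
    · exact fun p hp => hb p fun h => hp (Or.inr h)
  zero_mem' := ⟨∅, isCompact_empty, empty_subset _, Submodule.zero_mem _⟩
  smul_mem' := by
    rintro c a ⟨K, hK, hKX, ha⟩
    exact ⟨K, hK, hKX, Submodule.smul_mem _ _ ha⟩

/-- `f` is a cocycle near every point of `S`. -/
def IsCoc {M : Type} [Monoid M] (f : Y → Y → M) (S : Set Y) : Prop :=
  ∀ p ∈ S, ∃ U ∈ 𝓝 p, ∀ x ∈ U, f x x = 1 ∧ ∀ y ∈ U, ∀ z ∈ U, f x y * f y z = f x z

/-- Additive cocycles. -/
def IsCocA {M : Type} [AddCommGroup M] (h : Y → Y → M) (S : Set Y) : Prop :=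
  ∀ p ∈ S, ∃ U ∈ 𝓝 p, ∀ x ∈ U, ∀ y ∈ U, ∀ z ∈ U, h x y + h y z = h x z

/-- Two functions of two points agree near every point of `S`. -/
def LocEq {M : Type} (f f' : Y → Y → M) (S : Set Y) : Prop :=
  ∀ p ∈ S, ∃ U ∈ 𝓝 p, ∀ x ∈ U, ∀ y ∈ U, f x y = f' x y

/-- Additive cocycles that differ by a coboundary near every point of `S`. -/
def CohA {M : Type} [AddCommGroup M] (h h' : Y → Y → M) (S : Set Y) : Prop :=
  ∃ g : Y → M, LocEq (fun x y => h x y - h' x y) (fun x y => g y - g x) S

/-- Gauge equivalence of group valued cocycles near every point of `S`. -/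
def Gauge {Γ : Type} [Group Γ] (f f' : Y → Y → Γ) (S : Set Y) : Prop :=
  ∃ g : Y → Γ, LocEq (fun x y => g x * f x y * (g y)⁻¹) f' S

/-- `η` is the (based) holonomy of `f` along the `1`-periodic path `γ`. -/
def IsHol {M : Type} [Monoid M] (f : Y → Y → M) (γ : ℝ → Y) (η : M) : Prop :=
  ∃ g : ℝ → Mˣ, g 0 = 1 ∧
    (∀ s, ∃ U ∈ 𝓝 s, ∀ a ∈ U, ∀ b ∈ U, f (γ a) (γ b) = (((g a)⁻¹ * g b : Mˣ) : M)) ∧
    ∀ s, ((g (s + 1) : Mˣ) : M) = η * g s

/-- Additive holonomy. -/
def IsHolA {M : Type} [AddCommGroup M] (h : Y → Y → M) (γ : ℝ → Y) (c : M) : Prop :=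
  ∃ k : ℝ → M, (∀ s, ∃ U ∈ 𝓝 s, ∀ a ∈ U, ∀ b ∈ U, h (γ a) (γ b) = k b - k a) ∧
    ∀ s, k (s + 1) = k s + c

/-- A loop in `S`. -/
def IsLoop (γ : ℝ → Y) (S : Set Y) : Prop :=
  Continuous γ ∧ (∀ s, γ (s + 1) = γ s) ∧ ∀ s, γ s ∈ S

/-- The holonomy along `γ` has no eigenvalue one. -/
def LoopAc (τ : Y → Y → Module.End R E) (γ : ℝ → Y) : Prop :=
  ∃ η, IsHol τ γ η ∧ Function.Bijective (η - 1 : Module.End R E)

/-- The twisted cocycle `b` is a coboundary along the loop `γ`. -/
def ExL (τ : Y → Y → Module.End R E) (b : List Y → E) (γ : ℝ → Y) : Prop :=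
  ∃ β : ℝ → E, (∀ s, β (s + 1) = β s) ∧ ∀ s, ∃ U ∈ 𝓝 s, ∀ x ∈ U, ∀ y ∈ U,
    b [γ x, γ y] = τ (γ x) (γ y) (β y) - β x

/-- `a` is a coboundary on lists of length `n` near every point of `S`. -/
def Exa (τ : Y → Y → Module.End R E) (n : ℕ) (S : Set Y) (a : List Y → E) : Prop :=
  ∃ φ, a - dT τ φ ∈ N R E n S

/-- The cohomology of `S` vanishes in length `n` (degree `n - 1`). -/
def Acyc (τ : Y → Y → Module.End R E) (n : ℕ) (S : Set Y) : Prop :=
  ∀ a, dT τ a ∈ N R E (n + 1) S → Exa τ n S a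

/-- No parallel sections. -/
def Acyc0 (τ : Y → Y → Module.End R E) (S : Set Y) : Prop :=
  ∀ φ, dT τ φ ∈ N R E 2 S → φ ∈ N R E 1 S

/-- The operator `L` kills the cohomology of `S` in length `n`. -/
def Kills (τ : Y → Y → Module.End R E) (n : ℕ) (S : Set Y) (L : Module.End R E) : Prop :=
  ∀ a, dT τ a ∈ N R E (n + 1) S → Exa τ n S (cm L a)

/-- The cohomology of `S` in length `n` is finitely generated. -/
def FGc (τ : Y → Y → Module.End R E) (n : ℕ) (S : Set Y) : Prop :=
  ∃ M : Submodule R (List Y → E), M.FG ∧ (∀ a ∈ M, dT τ a ∈ N R E (n + 1) S) ∧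
    ∀ a, dT τ a ∈ N R E (n + 1) S → ∃ b ∈ M, Exa τ n S (a - b)

/-- The first cohomology of `S` is one dimensional, generated by `a₀`. -/
def OneGen (τ : Y → Y → Module.End R E) (S : Set Y) (a₀ : List Y → E) : Prop :=
  dT τ a₀ ∈ N R E 3 S ∧ ¬ Exa τ 2 S a₀ ∧
    ∀ a, dT τ a ∈ N R E 3 S → ∃ κ : R, Exa τ 2 S (a - κ • a₀)

/-- `a` is the Mayer-Vietoris class of the parallel section `σ` on `U₁ ∩ U₂`. -/
def Conn (τ : Y → Y → Module.End R E) (U₁ U₂ : Set Y) (a σ : List Y → E) : Prop :=
  ∃ α β, a - dT τ α ∈ N R E 2 U₁ ∧ a - dT τ β ∈ N R E 2 U₂ ∧ α - β - σ ∈ N R E 1 (U₁ ∩ U₂)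

/-- Cocycles on `Sg` have primitives with control of the support inside `M`. -/
def Cut (τ : Y → Y → Module.End R E) (M Sg : Set Y) : Prop :=
  ∀ a K, IsCompact K → K ⊆ M → dT τ a ∈ N R E 3 Sg → a ∈ N R E 2 (Sg \ K) →
    ∃ φ K', IsCompact K' ∧ K' ⊆ M ∧ a - dT τ φ ∈ N R E 2 Sg ∧ φ ∈ N R E 1 (Sg \ K')

/-- `Φ` is an open embedding on the open set `O`. -/
structure OE {Z : Type} [TopologicalSpace Z] (Φ : Z → Y) (O : Set Z) : Prop where
  isOpen : IsOpen O
  cont : ContinuousOn Φ O
  inj : InjOn Φ O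
  img : ∀ V, IsOpen V → V ⊆ O → IsOpen (Φ '' V)

/-- `S` is the image of an open convex set under an open embedding. -/
def Cvx (S : Set Y) : Prop :=
  ∃ (n : ℕ) (O : Set (Fin n → ℝ)) (e : (Fin n → ℝ) → Y), Convex ℝ O ∧ OE e O ∧ e '' O = S

/-- A finite union of members of a family of `Cvx` sets closed under intersections. -/
def Good (S : Set Y) : Prop :=
  ∃ 𝒢 : Set (Set Y), (∀ U ∈ 𝒢, Cvx U) ∧ (∀ U ∈ 𝒢, ∀ V ∈ 𝒢, U ∩ V ∈ 𝒢) ∧
    ∃ 𝓕 ⊆ 𝒢, 𝓕.Finite ∧ ⋃₀ 𝓕 = S

/-- A circle chart: `Φ` induces an open embedding of `ℝ / ℤ × O`, `O` open convex. -/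
structure IsCC {W : Type} [NormedAddCommGroup W] [NormedSpace ℝ W] (Φ : ℝ × W → Y) (O : Set W) :
    Prop where
  isOpen : IsOpen O
  convex : Convex ℝ O
  cont : ContinuousOn Φ (univ ×ˢ O)
  per : ∀ s w, Φ (s + 1, w) = Φ (s, w)
  inj : ∀ s s', ∀ w ∈ O, ∀ w' ∈ O, Φ (s, w) = Φ (s', w') → w = w' ∧ ∃ n : ℤ, s' = s + n
  img : ∀ V, IsOpen V → V ⊆ univ ×ˢ O → IsOpen (Φ '' V)

/-- `γ` is a meridian of `A` in a flat chart whose domain lies in `O`. -/
def IsMer (V : Type) [TopologicalSpace V] (O A : Set Y) (γ : ℝ → Y) : Prop :=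
  ∃ e : OpenPartialHomeomorph Y (V × ℂ), e.source ⊆ O ∧ (∀ x ∈ e.source, (x ∈ A ↔ (e x).2 = 0)) ∧
    ∃ (c : V) (r : ℝ), 0 < r ∧ (∀ w : ℂ, ‖w‖ ≤ r → (c, w) ∈ e.target) ∧
      ∀ s, γ s = e.symm (c, r * ex s)

/-- `h` is an integral cocycle off `A` with holonomy `± 1` along all meridians. -/
def IsGen (V : Type) [TopologicalSpace V] (A : Set Y) (h : Y → Y → ℤ) : Prop :=
  IsCocA h Aᶜ ∧ ∀ γ, IsMer V univ A γ → IsHolA h γ 1 ∨ IsHolA h γ (-1)

/-- The local system is acyclic along all meridians of `A` in `O`. -/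
def MerAc (V : Type) [TopologicalSpace V] (O A : Set Y) (τ : Y → Y → Module.End R E) : Prop :=
  ∀ γ, IsMer V O A γ → LoopAc τ γ

open Classical in
/-- The integral cocycle that counts the crossings of the negative real axis by `ϑ`. -/
def th (ϑ : Y → ℂ) (x y : Y) : ℤ :=
  if (ϑ x).re < 0 then jmp {p | (ϑ p).im < 0} x y else 0

/-- A functional on cochains of length four that behaves like integration over the closed
three dimensional set `S`. -/
structure IsInt {F : Type} [Field F] [StarRing F] (J : (List Y → F) →ₗ[F] F) (S : Set Y) :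
    Prop where
  loc : ∀ φ ∈ N F F 4 S, J φ = 0
  stokes : ∀ ψ, J (dT (triv F F Y) ψ) = 0
  conj : ∀ φ, dT (triv F F Y) φ ∈ N F F 5 S → J (fun l => star (φ l)) = star (J φ)

end Cochains

/-- Abstract Mayer-Vietoris systems over a base space `B`. -/
structure MV (R P B : Type) [CommRing R] [AddCommGroup P] [Module R P] [TopologicalSpace B] where
  d : P →ₗ[R] P
  N : ℤ → Set B → Submodule R P
  mono : ∀ n U U', U ⊆ U' → N n U' ≤ N n U
  dN : ∀ n U, ∀ x ∈ N n U, d x ∈ N (n + 1) U
  dd : ∀ n U x, d (d x) ∈ N n U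
  union : ∀ n U U', IsOpen U → IsOpen U' → N n U ⊓ N n U' ≤ N n (U ∪ U')
  inter : ∀ n U U', IsOpen U → IsOpen U' → N n (U ∩ U') ≤ N n U ⊔ N n U'
  empty : ∀ n, N n ∅ = ⊤

namespace MV

variable {R P B : Type} [CommRing R] [AddCommGroup P] [Module R P] [TopologicalSpace B]

/-- Cocycles. -/
def Z (S : MV R P B) (n : ℤ) (U : Set B) : Submodule R P := (S.N (n + 1) U).comap S.d

/-- Coboundaries. -/
def Bd (S : MV R P B) (n : ℤ) (U : Set B) : Submodule R P := LinearMap.range S.d ⊔ S.N n U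

/-- The restriction from `U` to `V` has finitely generated image. -/
def FGim (S : MV R P B) (n : ℤ) (U V : Set B) : Prop :=
  ∃ M : Submodule R P, M.FG ∧ M ≤ S.Z n U ∧ S.Z n U ≤ M ⊔ S.Bd n V

end MV

/-- `S³ × ℝ`. -/
abbrev Y4 : Type := S3 × ℝ

/-- Compression of `S³ × ℝ` into a compact part. -/
def jj (p : Y4) : Y4 := (p.1, Real.arctan p.2)

/-- Open subsets of `S³ × ℝ` of finite type near every point, points at infinity included. -/
def Tame (X : Set Y4) : Prop :=
  IsOpen X ∧ ∀ (p : Y4) (U : Set Y4), IsOpen U → p ∈ U →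
    ∃ V, IsOpen V ∧ p ∈ V ∧ V ⊆ U ∧ Good (jj ⁻¹' V ∩ X)

/-- The product annulus. -/
def prodA (C : ℝ → S3) : ℝ → ℝ → Y4 := fun s t => (C s, t)

/-- The image of an annulus. -/
def rng (A : ℝ → ℝ → Y4) : Set Y4 := range fun q : ℝ × ℝ => A q.1 q.2

/-- The slice at time `t`. -/
def sl (t : ℝ) (p : S3) : Y4 := (p, t)

/-- Clamping of the time coordinate. -/
def clampT (t₀ t₁ : ℝ) (p : Y4) : Y4 := (p.1, max t₀ (min p.2 t₁))

/-- The cohomological facts about a concordance exterior that are used later. -/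
structure Base (X : Set Y4) (h : Y4 → Y4 → ℤ) : Prop where
  tame : Tame X
  coc : IsCocA h X
  h1 : ∀ (M : Type) [AddCommGroup M] (x : Y4 → Y4 → M), IsCocA x X →
    ∃ c : M, CohA x (fun p q => h p q • c) X
  h2 : ∀ (F : Type) [Field F], Acyc (triv F F Y4) 3 X
  h3 : ∀ (F : Type) [Field F], Acyc (triv F F Y4) 4 X

end Pool.Agent.HH
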