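import Pool.Agent.P.MP_c8dc46_gt.MzDefs

/-! The Dehn presentation in cohomology. -/

open Set Topology

namespace Pool.Agent.HH

variable {Y : Type} [TopologicalSpace Y] {R E : Type} [CommRing R] [AddCommGroup E] [Module R E]
  {τ : Y → Y → Module.End R E} {U₁ U₂ : Set Y} {ι : Type} {X : ι → Cross Y}

open RGlue

namespace RDehn

theorem subs {c : Cross Y} (h : c.Ok U₁ U₂) : c.L ⊆ c.B ∧ c.L ⊆ U₁ ∧ c.R ⊆ c.B ∧ c.R ⊆ U₁ ∧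
    c.Fr ⊆ c.B ∧ c.Fr ⊆ U₂ ∧ c.Bk ⊆ c.B ∧ c.Bk ⊆ U₂ := by
  obtain ⟨l, r⟩ := union_subset_iff.1 h.e₁.symm.subset
  obtain ⟨f, b⟩ := union_subset_iff.1 h.e₂.symm.subset
  rw [subset_inter_iff] at l r f b
  exact ⟨l.1, l.2, r.1, r.2, f.1, f.2, b.1, b.2⟩

/-- Two primitives differ by a section that is parallel on the whole box. -/
theorem ext_par {B V : Set Y} (hB : Cvx B) (hτ : IsCoc τ B) {a y α : List Y → E}
    (hy : a - dT τ y ∈ N R E 2 B) (hV : IsPreconnected V) (hs : V ⊆ B) {p : Y} (hp : p ∈ V)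
    (hα : a - dT τ α ∈ N R E 2 V) : ∃ e, dT τ e ∈ N R E 2 B ∧ y - α - e ∈ N R E 1 V := by
  obtain ⟨e, he, hv⟩ := hB.exists_par hτ (hs hp) ((y - α) [p])
  refine ⟨e, he, par_zero (hτ.mono hs) hV ?_ hp (by rw [Pi.sub_apply, hv, sub_self])⟩
  rw [map_sub]
  exact Submodule.sub_mem _ (par_sub (N_mono hs hy) hα) (N_mono hs he)

theorem prim_add {B V U : Set Y} (h1 : V ⊆ B) (h2 : V ⊆ U) {a α e y : List Y → E}
    (hα : a - dT τ α ∈ N R E 2 U) (he : dT τ e ∈ N R E 2 B) (hy : y - (α + e) ∈ N R E 1 V) :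
    a - dT τ y ∈ N R E 2 V := by
  refine prim_congr ?_ hy
  rw [map_add, ← sub_sub]
  exact Submodule.sub_mem _ (N_mono h2 hα) (N_mono h1 he)

theorem exa_box {c : Cross Y} (h : c.Ok U₁ U₂) {a σ : List Y → E} (hc : Conn τ U₁ U₂ a σ)
    (hr : c.Rel τ σ) : Exa τ 2 (c.B ∩ (U₁ ∪ U₂)) a := by
  obtain ⟨α, β, hα, hβ, hσ⟩ := hc
  obtain ⟨eL, eR, eF, eB, dL, dR, dF, dB, k1, k2, k3, k4⟩ := hr
  obtain ⟨l1, l2, r1, r2, f1, f2, b1, b2⟩ := subs h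
  obtain ⟨y₁, gL, gR⟩ := glue_two (R := R) h.oL.1 h.oR.1 (y₁ := α + eL) (y₂ := α + eR)
    (by rw [h.d₁.inter_eq]; exact mem_N_empty _ _)
  obtain ⟨y₂, gF, gB⟩ := glue_two (R := R) h.oF.1 h.oB.1 (y₁ := β + eF) (y₂ := β + eB)
    (by rw [h.d₂.inter_eq]; exact mem_N_empty _ _)
  have key : ∀ {A D : Set Y} {s t : List Y → E}, A ⊆ U₁ → D ⊆ U₂ → y₁ - (α + s) ∈ N R E 1 A →
      y₂ - (β + t) ∈ N R E 1 D → σ + s - t ∈ N R E 1 (A ∩ D) → y₁ - y₂ ∈ N R E 1 (A ∩ D) := by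
    intro A D s t hA hD hs ht hk
    have e : y₁ - y₂ = (y₁ - (α + s)) - (y₂ - (β + t)) + (α - β - σ) + (σ + s - t) := by abel
    rw [e]
    exact Submodule.add_mem _ (Submodule.add_mem _ (Submodule.sub_mem _
      (N_mono inter_subset_left hs) (N_mono inter_subset_right ht))
      (N_mono (inter_subset_inter hA hD) hσ)) hk
  rw [inter_union_distrib_left, h.e₁, h.e₂]
  refine exa_of_prims (h.oL.1.union h.oR.1) (h.oF.1.union h.oB.1) (y₁ := y₁) (y₂ := y₂)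
    (mem_N_union.2 ⟨prim_add l1 l2 hα dL gL, prim_add r1 r2 hα dR gR⟩)
    (mem_N_union.2 ⟨prim_add f1 f2 hβ dF gF, prim_add b1 b2 hβ dB gB⟩) ?_
  rw [union_inter_distrib_right, inter_union_distrib_left, inter_union_distrib_left]
  exact mem_N_union.2 ⟨mem_N_union.2 ⟨key l2 f2 gL gF k1, key l2 b2 gL gB k2⟩,
    mem_N_union.2 ⟨key r2 f2 gR gF k3, key r2 b2 gR gB k4⟩⟩

/-- Two primitives of an additive cocycle differ by a constant. -/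
theorem prim_diff {M : Type} [AddCommGroup M] {x : Y → Y → M} {V : Set Y}
    (hV : IsPreconnected V) {k k' : Y → M} (h : LocEq x (fun p q => k q - k p) V)
    (h' : LocEq x (fun p q => k' q - k' p) V) : ∃ e, ∀ p ∈ V, k p = k' p + e := by
  rcases V.eq_empty_or_nonempty with rfl | ⟨o, ho⟩
  · exact ⟨0, fun p hp => hp.elim⟩
  refine ⟨k o - k' o, fun p hp => ?_⟩
  have := RHol.loc_const hV (φ := fun p => k p - k' p) (fun p hp => by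
    obtain ⟨U, hU, hk⟩ := (h.symm.trans h') p hp
    filter_upwards [hU] with q hq
    have e := hk p (mem_of_mem_nhds hU) q hq
    beta_reduce at e
    rw [sub_eq_sub_iff_sub_eq_sub.1 e]) hp ho
  beta_reduce at this
  rw [← this, add_sub_cancel]

end RDehn

open RDehn

theorem Cross.Ok.rel_of_coc {c : Cross Y} (h : c.Ok U₁ U₂) (hτ : IsCoc τ c.B) {a σ : List Y → E}
    (ha : dT τ a ∈ N R E 3 c.B) (hc : Conn τ U₁ U₂ a σ) : c.Rel τ σ := by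
  obtain ⟨y, hy⟩ := h.cvx.acyc hτ le_rfl a ha
  obtain ⟨α, β, hα, hβ, hσ⟩ := hc
  obtain ⟨l1, l2, r1, r2, f1, f2, b1, b2⟩ := subs h
  obtain ⟨⟨p, hp⟩, -, -, ⟨q, hq⟩⟩ := h.ne
  obtain ⟨eL, dL, hL⟩ := ext_par h.cvx hτ hy h.oL.2 l1 hp.1 (N_mono l2 hα)
  obtain ⟨eR, dR, hR⟩ := ext_par h.cvx hτ hy h.oR.2 r1 hq.1 (N_mono r2 hα)
  obtain ⟨eF, dF, hF⟩ := ext_par h.cvx hτ hy h.oF.2 f1 hp.2 (N_mono f2 hβ)
  obtain ⟨eB, dB, hB⟩ := ext_par h.cvx hτ hy h.oB.2 b1 hq.2 (N_mono b2 hβ)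
  have key : ∀ {A D : Set Y} {s t : List Y → E}, A ⊆ U₁ → D ⊆ U₂ → y - α - s ∈ N R E 1 A →
      y - β - t ∈ N R E 1 D → σ + s - t ∈ N R E 1 (A ∩ D) := by
    intro A D s t hA hD hs ht
    have e : σ + s - t = (y - β - t) - (y - α - s) - (α - β - σ) := by abel
    rw [e]
    exact Submodule.sub_mem _ (Submodule.sub_mem _ (N_mono inter_subset_right ht)
      (N_mono inter_subset_left hs)) (N_mono (inter_subset_inter hA hD) hσ)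
  exact ⟨eL, eR, eF, eB, dL, dR, dF, dB, key l2 f2 hL hF, key l2 b2 hL hB, key r2 f2 hR hF,
    key r2 b2 hR hB⟩

theorem dehn_exists [TopologicalSpace.MetrizableSpace Y] (h₁ : IsOpen U₁) (h₂ : IsOpen U₂)
    (hX : ∀ i, (X i).Ok U₁ U₂) (hd : Pairwise fun i j => Disjoint (X i).B (X j).B)
    (hτ : IsCoc τ ((U₁ ∪ U₂) ∪ ⋃ i, (X i).B)) {σ : List Y → E} (hσ : dT τ σ ∈ N R E 2 (U₁ ∩ U₂))
    (hr : ∀ i, (X i).Rel τ σ) :
    ∃ a, dT τ a ∈ N R E 3 ((U₁ ∪ U₂) ∪ ⋃ i, (X i).B) ∧ Conn τ U₁ U₂ a σ := by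
  have hT := h₁.union h₂
  obtain ⟨a, ha, hc⟩ := exists_conn h₁ h₂ (hτ.mono subset_union_left) hσ
  have hSg : IsOpen (⋃ i, (X i).B) := isOpen_iUnion fun i => (hX i).cvx.isOpen
  choose y hy using fun i => exa_box (hX i) hc (hr i)
  obtain ⟨y', hy'⟩ := glue_prim (R := R) (U := fun i => (X i).B ∩ (U₁ ∪ U₂))
    (fun i => (hX i).cvx.isOpen.inter hT) (y := y) (fun i j => by
      by_cases hij : i = j
      · subst hij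
        simp
      · rw [((hd hij).mono inter_subset_left inter_subset_left).inter_eq]
        exact mem_N_empty _ _)
  have e : ((U₁ ∪ U₂) ∪ ⋃ i, (X i).B) \ (((U₁ ∪ U₂) ∪ ⋃ i, (X i).B) \ (U₁ ∪ U₂)) = U₁ ∪ U₂ :=
    sdiff_sdiff_eq_self subset_union_left
  obtain ⟨a', h1, -, h3⟩ := excise_ext (τ := τ) (M := (U₁ ∪ U₂) ∪ ⋃ i, (X i).B)
    (Z := ((U₁ ∪ U₂) ∪ ⋃ i, (X i).B) \ (U₁ ∪ U₂)) (Sg := ⋃ i, (X i).B) (hT.union hSg)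
    (by rwa [e]) hSg (fun p hp => hp.1.resolve_left hp.2) subset_union_right
    (hτ.mono sdiff_subset) (a := a) (by rwa [e])
    ⟨y', N_mono (fun p hp => by
      obtain ⟨i, hi⟩ := mem_iUnion.1 hp.1
      refine mem_iUnion.2 ⟨i, hi, ?_⟩
      by_contra hn
      exact hp.2 ⟨Or.inr hp.1, hn⟩) (mem_N_iUnion fun i => prim_congr (hy i) (hy' i))⟩
  rw [e] at h3
  exact ⟨a', h1, hc.congr_exa h3⟩

theorem dehn_exa (h₁ : IsOpen U₁) (h₂ : IsOpen U₂) (hX : ∀ i, (X i).Ok U₁ U₂)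
    (hd : Pairwise fun i j => Disjoint (X i).B (X j).B)
    (hτ : IsCoc τ ((U₁ ∪ U₂) ∪ ⋃ i, (X i).B)) {a : List Y → E}
    (ha : dT τ a ∈ N R E 3 ((U₁ ∪ U₂) ∪ ⋃ i, (X i).B)) (he : Exa τ 2 (U₁ ∪ U₂) a) :
    Exa τ 2 ((U₁ ∪ U₂) ∪ ⋃ i, (X i).B) a := by
  obtain ⟨y, hy⟩ := he
  have hne : ∀ i, ((X i).B ∩ (U₁ ∪ U₂)).Nonempty := fun i => by
    obtain ⟨p, hp⟩ := (hX i).ne.1
    exact ⟨p, (subs (hX i)).1 hp.1, Or.inl ((subs (hX i)).2.1 hp.1)⟩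
  obtain ⟨y', h, -⟩ := vert (h₁.union h₂) (fun i => (hX i).cvx) hτ (fun i => by
    obtain ⟨⟨p, hp⟩, ⟨q, hq⟩, ⟨w, hw⟩, -⟩ := (hX i).ne
    have e : (X i).B ∩ (U₁ ∪ U₂) = (((X i).L ∪ (X i).Fr) ∪ (X i).R) ∪ (X i).Bk := by
      rw [inter_union_distrib_left, (hX i).e₁, (hX i).e₂]
      ext x
      simp only [mem_union]
      tauto
    rw [e]
    exact (((hX i).oL.2.union p hp.1 hp.2 (hX i).oF.2).union w (Or.inr hw.2) hw.1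
      (hX i).oR.2).union q (Or.inl (Or.inl hq.1)) hq.2 (hX i).oB.2) hne (fun i j p hp => by
    by_cases hij : i = j
    · subst hij
      exact ⟨(X i).B, (hX i).cvx.isPreconnected, hp.1, fun x hx => ⟨hx, hx⟩, hne i⟩
    · exact absurd hp.2 (disjoint_left.1 (hd hij) hp.1)) ha hy
  exact ⟨y', h⟩

theorem oneGen_dehn [TopologicalSpace.MetrizableSpace Y] (h₁ : IsOpen U₁) (h₂ : IsOpen U₂)
    (hX : ∀ i, (X i).Ok U₁ U₂) (hd : Pairwise fun i j => Disjoint (X i).B (X j).B)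
    (hτ : IsCoc τ ((U₁ ∪ U₂) ∪ ⋃ i, (X i).B)) (a0₁ : Acyc0 τ U₁) (a0₂ : Acyc0 τ U₂)
    (a1₁ : Acyc τ 2 U₁) (a1₂ : Acyc τ 2 U₂) {σ₀ : List Y → E}
    (hσ : dT τ σ₀ ∈ N R E 2 (U₁ ∩ U₂)) (hr : ∀ i, (X i).Rel τ σ₀) (hne : σ₀ ∉ N R E 1 (U₁ ∩ U₂))
    (hall : ∀ σ, dT τ σ ∈ N R E 2 (U₁ ∩ U₂) → (∀ i, (X i).Rel τ σ) →
      ∃ κ : R, σ - κ • σ₀ ∈ N R E 1 (U₁ ∩ U₂)) :
    ∃ a, OneGen τ ((U₁ ∪ U₂) ∪ ⋃ i, (X i).B) a := by
  obtain ⟨a₀, h0, c0⟩ := dehn_exists h₁ h₂ hX hd hτ hσ hr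
  refine ⟨a₀, h0, fun he => hne (c0.zero_of_exa a0₁ a0₂ (he.mono subset_union_left)),
    fun a ha => ?_⟩
  obtain ⟨σ, s1, s2⟩ := exists_conn_of_acyc a1₁ a1₂ (N_mono subset_union_left ha)
  have hB : ∀ i, (X i).B ⊆ (U₁ ∪ U₂) ∪ ⋃ i, (X i).B := fun i =>
    subset_union_of_subset_right (subset_iUnion (fun i => (X i).B) i) _
  obtain ⟨κ, hκ⟩ := hall σ s1 fun i =>
    (hX i).rel_of_coc (hτ.mono (hB i)) (N_mono (hB i) ha) s2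
  refine ⟨κ, dehn_exa h₁ h₂ hX hd hτ ?_ (s2.exa_sub h₁ h₂ c0 κ hκ)⟩
  rw [map_sub, map_smul]
  exact Submodule.sub_mem _ ha (Submodule.smul_mem _ _ h0)

/-- Primitives of an additive cocycle on a crossing box. -/
theorem Cross.Ok.primA {c : Cross Y} (h : c.Ok U₁ U₂) {M : Type} [AddCommGroup M] {x : Y → Y → M}
    (hx : IsCocA x c.B) {k₁ k₂ : Y → M} (h₁ : LocEq x (fun p q => k₁ q - k₁ p) U₁)
    (h₂ : LocEq x (fun p q => k₂ q - k₂ p) U₂) : ∃ (k : Y → M) (eL eR eF eB : M),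
      LocEq x (fun p q => k q - k p) c.B ∧ (∀ p ∈ c.L, k p = k₁ p + eL) ∧
      (∀ p ∈ c.R, k p = k₁ p + eR) ∧ (∀ p ∈ c.Fr, k p = k₂ p + eF) ∧
      ∀ p ∈ c.Bk, k p = k₂ p + eB := by
  obtain ⟨k, hk⟩ := h.cvx.exists_trivA hx
  obtain ⟨l1, l2, r1, r2, f1, f2, b1, b2⟩ := subs h
  obtain ⟨eL, hL⟩ := prim_diff h.oL.2 (hk.mono l1) (h₁.mono l2)
  obtain ⟨eR, hR⟩ := prim_diff h.oR.2 (hk.mono r1) (h₁.mono r2)
  obtain ⟨eF, hF⟩ := prim_diff h.oF.2 (hk.mono f1) (h₂.mono f2)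
  obtain ⟨eB, hB⟩ := prim_diff h.oB.2 (hk.mono b1) (h₂.mono b2)
  exact ⟨k, eL, eR, eF, eB, hk, hL, hR, hF, hB⟩

/-- The holonomy along a loop that is covered by two primitives. -/
theorem IsHolA.of_two {M : Type} [AddCommGroup M] {x : Y → Y → M} {γ : ℝ → Y} (hγ : Continuous γ)
    {k₁ k₂ : Y → M} (h₁ : LocEq x (fun p q => k₁ q - k₁ p) U₁)
    (h₂ : LocEq x (fun p q => k₂ q - k₂ p) U₂) (m₁ : ∀ s ∈ Icc (0 : ℝ) (1 / 2), γ s ∈ U₁)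
    (m₂ : ∀ s ∈ Icc (1 / 2 : ℝ) 1, γ s ∈ U₂) {c : M} (h : IsHolA x γ c) :
    c = k₁ (γ (1 / 2)) - k₁ (γ 0) + (k₂ (γ 1) - k₂ (γ (1 / 2))) := by
  obtain ⟨k, hk, hc⟩ := h
  obtain ⟨e₁, g₁⟩ := prim_diff (x := pb γ x) (k := k) (k' := fun s => k₁ (γ s))
    isPreconnected_Icc (fun s _ => hk s) (h₁.pb (fun s _ => hγ.continuousAt) m₁)
  obtain ⟨e₂, g₂⟩ := prim_diff (x := pb γ x) (k := k) (k' := fun s => k₂ (γ s))
    isPreconnected_Icc (fun s _ => hk s) (h₂.pb (fun s _ => hγ.continuousAt) m₂)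
  have a0 := g₁ 0 ⟨le_rfl, by norm_num⟩
  have a1 := g₁ (1 / 2) ⟨by norm_num, le_rfl⟩
  have a2 := g₂ (1 / 2) ⟨le_rfl, by norm_num⟩
  have a3 := g₂ 1 ⟨by norm_num, le_rfl⟩
  have a4 := hc 0
  rw [zero_add] at a4
  rw [← sub_eq_iff_eq_add] at a0 a1 a2 a3
  rw [← a0, ← a1, ← a2, ← a3, a4]
  abel

end Pool.Agent.HH
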