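import Pool.Agent.P.MP_c8dc46_gt.Defs

/-!
Integrals, coefficient data, the linking form, signatures, the model modules and the group `Gam`.
-/

open Set Topology

noncomputable section

namespace Pool.Agent.HH

/-- Euclidean four-space with the supremum norm. -/
abbrev R4 : Type := Fin 4 → ℝ

section Integral

variable (F : Type) [Field F]

/-- The fundamental cochain of `ℝ⁴` concentrated at the point `c`. -/
def om (c : R4) : List R4 → F :=
  lc (triv F F R4) (jmp {x | c 0 < x 0}) (lc (triv F F R4) (jmp {x | c 1 < x 1})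
    (lc (triv F F R4) (jmp {x | c 2 < x 2}) (lc (triv F F R4) (jmp {x | c 3 < x 3})
      (c0 fun _ => 1))))

/-- `I` is an integral normalised by `ω`. -/
def IsI {Y : Type} [TopologicalSpace Y] (ω : List Y → F) (I : (List Y → F) →ₗ[F] F) : Prop :=
  (∀ φ ∈ N F F 5 (univ : Set Y), I φ = 0) ∧
    (∀ ψ ∈ Cc F F 4 (univ : Set Y), I (dT (triv F F Y) ψ) = 0) ∧ I ω = 1

open Classical in
/-- The integral over `ℝ⁴`. -/
def I4 : (List R4 → F) →ₗ[F] F := if h : ∃ I, IsI F (om F 0) I then h.choose else 0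

/-- Polar coordinates `S³ × ℝ → ℝ⁴ ∖ 0`. -/
def to4 (p : Y4) : R4 :=
  ![Real.exp p.2 * p.1.1.1.re, Real.exp p.2 * p.1.1.1.im, Real.exp p.2 * p.1.1.2.re,
    Real.exp p.2 * p.1.1.2.im]

/-- The fundamental cochain of `S³ × ℝ`. -/
def omY : List Y4 → F := pull F F to4 (om F ![1, 0, 0, 0])

open Classical in
/-- The integral over `S³ × ℝ`. -/
def IY : (List Y4 → F) →ₗ[F] F := if h : ∃ I, IsI F (omY F) I then h.choose else 0

/-- The integral over the slice at time `t`. -/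
def Jt (t : ℝ) : (List Y4 → F) →ₗ[F] F := IY F ∘ₗ lc (triv F F Y4) (jmp {p | t < p.2})

/-- The integral over `S³`. -/
def I3 : (List S3 → F) →ₗ[F] F := Jt F 0 ∘ₗ pull F F Prod.fst

/-- The open embedding `Φ` on `O` has degree one. -/
def DegOne (Φ : S3 → S3) (O : Set S3) : Prop :=
  ∀ φ ∈ Cc F F 4 (Φ '' O), dT (triv F F S3) φ ∈ N F F 5 univ →
    ∀ ψ ∈ Cc F F 4 O, ψ - pull F F Φ φ ∈ N F F 4 O → I3 F ψ = I3 F φ

/-- The linking integral of an integral cochain `k` off a knot and the angle function `ϑ`. -/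
def n3 (k : S3 → S3 → ℤ) (ϑ : S3 → ℂ) : F :=
  I3 F (cup (mulA F) (triv F F S3) 2 (dT (triv F F S3) (c1 fun x y => (k x y : F)))
    (c1 fun x y => (th ϑ x y : F)))

end Integral

/-- Coefficient data for the linking form. -/
structure Coef (F G : Type) [Field F] [StarRing F] [AddCommGroup G] [Module F G] where
  m : ℕ
  T : Module.End F G
  v : Module.End F G
  B : G →ₗ[F] G →ₗ⋆[F] F
  mpos : 0 < m
  inj : Function.Injective T
  comm : Commute T v
  skew : ∀ x y, B y x = -star (B x y)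
  ker : ∀ x, (∀ y, B x y = 0) ↔ x ∈ LinearMap.range (T ^ (2 * m))
  adj : ∀ x y, B (T x) y = B (v x) (T y)
  fin : FiniteDimensional F (G ⧸ LinearMap.range T)

/-- The quotient `G / T ^ k G`. -/
abbrev Qk {F G : Type} [Field F] [AddCommGroup G] [Module F G] (T : Module.End F G) (k : ℕ) :
    Type := G ⧸ LinearMap.range (T ^ k)

/-- The projection `G → G / T ^ k G`. -/
abbrev pk {F G : Type} [Field F] [AddCommGroup G] [Module F G] (T : Module.End F G) (k : ℕ) :
    G →ₗ[F] Qk T k := (LinearMap.range (T ^ k)).mkQ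

open Classical in
/-- The operator induced on `G / T ^ k G`. -/
def barE {F G : Type} [Field F] [AddCommGroup G] [Module F G] (T : Module.End F G) (k : ℕ)
    (L : Module.End F G) : Module.End F (Qk T k) :=
  if h : LinearMap.range (T ^ k) ≤ (LinearMap.range (T ^ k)).comap L then
    Submodule.mapQ _ _ L h else 0

/-- The local system induced on `G / T ^ k G`. -/
def bar {F G Y : Type} [Field F] [AddCommGroup G] [Module F G] (T : Module.End F G) (k : ℕ)
    (τ : Y → Y → Module.End F G) : Y → Y → Module.End F (Qk T k) := fun x y => barE T k (τ x y)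

/-- `T ^ m` kills the cohomology of `X` with coefficients `G / T ^ k` in length `n`. -/
def TK {F G Y : Type} [Field F] [AddCommGroup G] [Module F G] [TopologicalSpace Y]
    (T : Module.End F G) (m k : ℕ) (τ : Y → Y → Module.End F G) (n : ℕ) (X : Set Y) : Prop :=
  Kills (bar T k τ) n X (barE T k (T ^ m))

namespace Coef

variable {F G : Type} [Field F] [StarRing F] [AddCommGroup G] [Module F G] (cf : Coef F G)

/-- Operators compatible with the coefficient data. -/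
def Compat (L : Module.End F G) : Prop :=
  Commute L cf.T ∧ Commute L cf.v ∧ ∀ x y, cf.B (L x) (L y) = cf.B x y

/-- Local systems compatible with the coefficient data. -/
def CompatT {Y : Type} (τ : Y → Y → Module.End F G) : Prop := ∀ x y, cf.Compat (τ x y)

/-- The local system on `G / T ^ m G`. -/
abbrev br {Y : Type} (τ : Y → Y → Module.End F G) : Y → Y → Module.End F (Qk cf.T cf.m) :=
  bar cf.T cf.m τ

/-- Reduction of cochains modulo `T ^ m`. -/
abbrev red {Y : Type} : (List Y → G) →ₗ[F] (List Y → Qk cf.T cf.m) := cm (pk cf.T cf.m)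

variable {Y : Type} [TopologicalSpace Y]

/-- One-cochains that are cocycles modulo `T ^ m` near `S`, with compact support in `M`. -/
def W (τ : Y → Y → Module.End F G) (S M : Set Y) : Submodule F (List Y → G) where
  carrier := {a | cf.red (dT τ a) ∈ N F _ 3 S ∧ ∃ K, IsCompact K ∧ K ⊆ M ∧ a ∈ N F G 2 (S \ K)}
  add_mem' := by
    rintro a b ⟨ha0, K, hK, hKX, ha⟩ ⟨hb0, K', hK', hKX', hb⟩
    refine ⟨by simpa only [map_add] using Submodule.add_mem _ ha0 hb0, K ∪ K', hK.union hK',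
      union_subset hKX hKX', Submodule.add_mem _ ?_ ?_⟩
    · exact fun p hp => ha p ⟨hp.1, fun h => hp.2 (Or.inl h)⟩
    · exact fun p hp => hb p ⟨hp.1, fun h => hp.2 (Or.inr h)⟩
  zero_mem' := ⟨by simp, ∅, isCompact_empty, empty_subset _, Submodule.zero_mem _⟩
  smul_mem' := by
    rintro c a ⟨ha0, K, hK, hKX, ha⟩
    exact ⟨by simpa only [map_smul] using Submodule.smul_mem _ c ha0, K, hK, hKX,
      Submodule.smul_mem _ _ ha⟩

/-- The linking form. -/
def lam (J : (List Y → F) →ₗ[F] F) (τ : Y → Y → Module.End F G) (a b : List Y → G) : F :=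
  J (cup (biA cf.B) τ 1 a (dT τ b))

/-- The space of the form on an open subset of the sphere. -/
abbrev W3 (τ : S3 → S3 → Module.End F G) (M : Set S3) : Submodule F (List S3 → G) :=
  cf.W τ univ M

/-- The form on the sphere. -/
abbrev lam3 (τ : S3 → S3 → Module.End F G) (a b : List S3 → G) : F := cf.lam (I3 F) τ a b

/-- Nondegeneracy: the radical consists of classes that are exact modulo `T ^ m`. -/
def Nondeg (τ : S3 → S3 → Module.End F G) (M : Set S3) : Prop :=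
  ∀ a ∈ cf.W3 τ M, (∀ b ∈ cf.W3 τ M, cf.lam3 τ b a = 0) → Exa (cf.br τ) 2 M (cf.red a)

/-- Cochains on `S³ × ℝ` that vanish near `A` and are cocycles modulo `T ^ m`. -/
def Lag (τ : Y4 → Y4 → Module.End F G) (A : Set Y4) : Set (List Y4 → G) :=
  {y | cf.red (dT τ y) ∈ N F _ 3 (univ : Set Y4) ∧ y ∈ N F G 2 A}

end Coef

/-- A sesquilinear function that is skew-hermitian on `W`. -/
structure IsSkew {F V : Type} [Field F] [StarRing F] [AddCommGroup V] [Module F V]
    (lam : V → V → F) (W : Submodule F V) : Prop where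
  add_left : ∀ a a' b, lam (a + a') b = lam a b + lam a' b
  smul_left : ∀ (c : F) a b, lam (c • a) b = c * lam a b
  add_right : ∀ a b b', lam a (b + b') = lam a b + lam a b'
  smul_right : ∀ (c : F) a b, lam a (c • b) = star c * lam a b
  skew : ∀ a ∈ W, ∀ b ∈ W, lam b a = -star (lam a b)

/-- The skew-hermitian form `lam` on `W` has finite rank and signature `s`. -/
def HasSig {V : Type} [AddCommGroup V] [Module ℂ V] (lam : V → V → ℂ) (W : Submodule ℂ V)
    (s : ℤ) : Prop :=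
  ∃ (ι : Type) (_ : Fintype ι) (e : ι → V) (ε : ι → ℤ), (∀ i, e i ∈ W) ∧
    (∀ i j, i ≠ j → lam (e i) (e j) = 0) ∧
    (∀ i, (ε i = 1 ∧ 0 < (lam (e i) (e i)).im) ∨ (ε i = -1 ∧ (lam (e i) (e i)).im < 0)) ∧
    (∀ a ∈ W, ∃ b ∈ Submodule.span ℂ (range e), ∀ c ∈ W, lam c (a - b) = 0) ∧ s = ∑ i, ε i

/-- Signature of the linking form on an open subset of the sphere. -/
abbrev Sig3 {G : Type} [AddCommGroup G] [Module ℂ G] (cf : Coef ℂ G)
    (τ : S3 → S3 → Module.End ℂ G) (M : Set S3) (s : ℤ) : Prop :=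
  HasSig (cf.lam3 τ) (cf.W3 τ M) s

section Model

variable (F W : Type) [CommRing F] [AddCommGroup W] [Module F W]

/-- The shift on `W[g, g⁻¹]`. -/
def sh : (Module.End F (ℤ →₀ W))ˣ where
  val := Finsupp.lmapDomain W F (fun k : ℤ => k + 1)
  inv := Finsupp.lmapDomain W F (fun k : ℤ => k - 1)
  val_inv := by
    ext k w : 2
    simp [Finsupp.mapDomain_single]
  inv_val := by
    ext k w : 2
    simp [Finsupp.mapDomain_single]

/-- The `k`-th power of the shift. -/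
def shp (k : ℤ) : Module.End F (ℤ →₀ W) := ((sh F W ^ k : (Module.End F (ℤ →₀ W))ˣ) : _)

/-- `T = g ^ p - z₀`. -/
def Tm (p : ℕ) (z₀ : F) : Module.End F (ℤ →₀ W) := shp F W p - z₀ • 1

/-- The model local system `g ^ h u ^ θ₁ v ^ θ₂`. -/
def mtau {Y : Type} (u v : Fˣ) (h θ₁ θ₂ : Y → Y → ℤ) : Y → Y → Module.End F (ℤ →₀ W) :=
  fun x y => ((u ^ θ₁ x y * v ^ θ₂ x y : Fˣ) : F) • shp F W (h x y)

end Model

/-- The power series `(1 + X) / (1 - X)`. -/
def cay : (PowerSeries ℤ)ˣ where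
  val := (1 + PowerSeries.X) * PowerSeries.mk fun _ => 1
  inv := (1 - PowerSeries.X) * PowerSeries.mk fun n => (-1) ^ n
  val_inv := by
    have h1 : (PowerSeries.mk fun _ => (1 : ℤ)) * (1 - PowerSeries.X) = 1 :=
      PowerSeries.mk_one_mul_one_sub_eq_one ℤ
    have h2 : (1 + PowerSeries.X) * (PowerSeries.mk fun n => (-1 : ℤ) ^ n) = 1 := by
      ext n
      cases n with
      | zero => simp [add_mul]
      | succ n => simp [add_mul, PowerSeries.coeff_succ_X_mul, PowerSeries.coeff_one, pow_succ]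
    linear_combination ((1 + PowerSeries.X) * (PowerSeries.mk fun n => (-1 : ℤ) ^ n)) * h1 + h2
  inv_val := by
    have h1 : (PowerSeries.mk fun _ => (1 : ℤ)) * (1 - PowerSeries.X) = 1 :=
      PowerSeries.mk_one_mul_one_sub_eq_one ℤ
    have h2 : (1 + PowerSeries.X) * (PowerSeries.mk fun n => (-1 : ℤ) ^ n) = 1 := by
      ext n
      cases n with
      | zero => simp [add_mul]
      | succ n => simp [add_mul, PowerSeries.coeff_succ_X_mul, PowerSeries.coeff_one, pow_succ]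
    linear_combination ((1 + PowerSeries.X) * (PowerSeries.mk fun n => (-1 : ℤ) ^ n)) * h1 + h2

/-- The coefficient of `X ^ (2 m - 1)` in `((1 + X) / (1 - X)) ^ j`. -/
def aa (m : ℕ) (j : ℤ) : ℤ :=
  PowerSeries.coeff (2 * m - 1) ((cay ^ j : (PowerSeries ℤ)ˣ) : PowerSeries ℤ)

section Model2

variable {F W : Type} [Field F] [StarRing F] [AddCommGroup W] [Module F W]

/-- The weight of the pair of degrees `(k, k')`. -/
def wt (p m : ℕ) (z₀ : F) (k k' : ℤ) : F :=
  if (p : ℤ) ∣ k - k' then z₀ ^ ((k - k') / p) * (aa m ((k - k') / p) : F) else 0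

/-- The pairing on `W[g, g⁻¹]`:
`Bm (single k w) (single k' w') = wt k k' * H w w'`. -/
def Bm (H : W →ₗ[F] W →ₗ⋆[F] F) (p m : ℕ) (z₀ : F) : (ℤ →₀ W) →ₗ[F] (ℤ →₀ W) →ₗ⋆[F] F :=
  Finsupp.lsum ℕ fun k =>
    { toFun := fun w => Finsupp.lsum ℕ fun k' => wt p m z₀ k k' • H w
      map_add' := by
        intro w w'
        ext k' x
        simp [mul_add]
      map_smul' := by
        intro c w
        ext k' x
        simp [mul_left_comm] }

/-- A nondegenerate hermitian form. -/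
def IsHerm (H : W →ₗ[F] W →ₗ⋆[F] F) : Prop :=
  (∀ x y, H y x = star (H x y)) ∧ ∀ x, (∀ y, H x y = 0) → x = 0

/-- Periodic monomial isometries of degree `d`. -/
def IsPM (H : W →ₗ[F] W →ₗ⋆[F] F) (p : ℕ) (d : ℤ) (L : Module.End F (ℤ →₀ W)) : Prop :=
  ∃ V : ℤ → W ≃ₗ[F] W, (∀ k, V (k + p) = V k) ∧ (∀ k w w', H (V k w) (V k w') = H w w') ∧
    ∀ k w, L (Finsupp.single k w) = Finsupp.single (k + d) (V k w)

/-- The standard hermitian form on `ι → F`. -/
def Hstd (F : Type) [Field F] [StarRing F] (ι : Type) [Fintype ι] :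
    (ι → F) →ₗ[F] (ι → F) →ₗ⋆[F] F :=
  LinearMap.mk₂'ₛₗ (RingHom.id F) (starRingEnd F) (fun x y => ∑ i, x i * star (y i))
    (by intro a b c; simp [add_mul, Finset.sum_add_distrib])
    (by intro c a b; simp [Finset.mul_sum, mul_assoc])
    (by intro a b c; simp [mul_add, Finset.sum_add_distrib])
    (by intro c a b; simp [Finset.mul_sum, mul_left_comm, mul_comm, starRingEnd_apply])

/-- The standard hermitian form on `F`. -/
def H1 (F : Type) [Field F] [StarRing F] : F →ₗ[F] F →ₗ⋆[F] F :=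
  LinearMap.mk₂'ₛₗ (RingHom.id F) (starRingEnd F) (fun x y => x * star y)
    (by intro a b c; simp [add_mul])
    (by intro c a b; simp [mul_assoc])
    (by intro a b c; simp [mul_add])
    (by intro c a b; simp [mul_left_comm, mul_comm, starRingEnd_apply])

end Model2

/-- Data for the group `Gam`. -/
structure HD (F A B : Type) [Field F] [StarRing F] [AddCommGroup A] [Module F A]
    [AddCommGroup B] [Module F B] where
  t : (Module.End F A)ˣ
  tB : (Module.End F B)ˣ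
  β : A →ₗ[F] A →ₗ⋆[F] B
  eqv : ∀ (k : ℤ) x y, β ((t ^ k : (Module.End F A)ˣ).1 x) ((t ^ k : (Module.End F A)ˣ).1 y) =
    (tB ^ k : (Module.End F B)ˣ).1 (β x y)

/-- The group `ℤ ⋉ (A × B)`, `A × B` carrying the Heisenberg type law of `β`. -/
@[ext] structure Gam {F A B : Type} [Field F] [StarRing F] [AddCommGroup A] [Module F A]
    [AddCommGroup B] [Module F B] (D : HD F A B) where
  k : ℤ
  a : A
  b : B

namespace Gam

variable {F A B : Type} [Field F] [StarRing F] [AddCommGroup A] [Module F A]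
  [AddCommGroup B] [Module F B] {D : HD F A B}

instance : Mul (Gam D) := ⟨fun x y => ⟨x.k + y.k, x.a + (D.t ^ x.k).1 y.a,
  x.b + (D.tB ^ x.k).1 y.b + D.β x.a ((D.t ^ x.k).1 y.a)⟩⟩

instance : One (Gam D) := ⟨⟨0, 0, 0⟩⟩

instance : Inv (Gam D) := ⟨fun x => ⟨-x.k, -(D.t ^ (-x.k)).1 x.a,
  -(D.tB ^ (-x.k)).1 x.b + (D.tB ^ (-x.k)).1 (D.β x.a x.a)⟩⟩

@[simp] theorem mul_k (x y : Gam D) : (x * y).k = x.k + y.k := rfl
@[simp] theorem mul_a (x y : Gam D) : (x * y).a = x.a + (D.t ^ x.k).1 y.a := rfl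
@[simp] theorem mul_b (x y : Gam D) :
    (x * y).b = x.b + (D.tB ^ x.k).1 y.b + D.β x.a ((D.t ^ x.k).1 y.a) := rfl
@[simp] theorem one_k : (1 : Gam D).k = 0 := rfl
@[simp] theorem one_a : (1 : Gam D).a = 0 := rfl
@[simp] theorem one_b : (1 : Gam D).b = 0 := rfl
@[simp] theorem inv_k (x : Gam D) : x⁻¹.k = -x.k := rfl
@[simp] theorem inv_a (x : Gam D) : x⁻¹.a = -(D.t ^ (-x.k)).1 x.a := rfl
@[simp] theorem inv_b (x : Gam D) :
    x⁻¹.b = -(D.tB ^ (-x.k)).1 x.b + (D.tB ^ (-x.k)).1 (D.β x.a x.a) := rfl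

instance : Group (Gam D) := Group.ofLeftAxioms
  (by
    intro x y z
    ext
    · simp [add_assoc]
    · simp [zpow_add, add_assoc]
    · simp only [mul_b, mul_a, mul_k, zpow_add, Units.val_mul, Module.End.mul_apply, map_add,
        LinearMap.add_apply, D.eqv]
      abel)
  (by intro x; ext <;> simp)
  (by
    intro x
    ext
    · simp
    · simp only [mul_a, inv_a, inv_k, one_a]; abel
    · simp only [mul_b, inv_b, inv_k, inv_a, one_b, map_neg, LinearMap.neg_apply, D.eqv]; abel)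

/-- The degree. -/
def deg (D : HD F A B) : Gam D →* Multiplicative ℤ where
  toFun x := Multiplicative.ofAdd x.k
  map_one' := rfl
  map_mul' _ _ := rfl

end Gam

/-- The left regular representation on finitely supported functions. -/
def reg (R Γ : Type) [CommRing R] [Group Γ] : Representation R Γ (Γ →₀ R) where
  toFun γ := Finsupp.lmapDomain R R (fun x => γ * x)
  map_one' := by
    ext k : 2
    simp
  map_mul' γ γ' := by
    ext k : 2
    simp [Finsupp.mapDomain_single, mul_assoc]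

/-- The group theoretic input of the second stage. -/
structure RepIn (Γ : Type) [Group Γ] where
  deg : Γ →* Multiplicative ℤ
  μ : Γ
  ℓ : ℕ
  p : ℕ
  c₀ : Γ
  c₁ : Γ
  prime : ℓ.Prime
  ppos : 0 < p
  degμ : deg μ = Multiplicative.ofAdd 1
  fin : Finite deg.ker
  pgrp : IsPGroup ℓ deg.ker
  zc : μ ^ p ∈ Subgroup.center Γ
  pw : ∀ γ, γ ^ p = (μ ^ p) ^ (Multiplicative.toAdd (deg γ))
  cc₀ : c₀ ∈ Subgroup.center Γ
  cc₁ : c₁ ∈ Subgroup.center Γ
  deg₀ : deg c₀ = 1
  deg₁ : deg c₁ = 1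
  ord₀ : c₀ ^ ℓ = 1
  ord₁ : c₁ ^ ℓ = 1
  ind : ∀ i j : ℤ, c₀ ^ i * c₁ ^ j = 1 → (ℓ : ℤ) ∣ i ∧ (ℓ : ℤ) ∣ j

/-- The degree as an integer. -/
def RepIn.dg {Γ : Type} [Group Γ] (Rp : RepIn Γ) (γ : Γ) : ℤ := Multiplicative.toAdd (Rp.deg γ)

/-- The properties of the induced representation with `c₀ ↦ u`, `c₁ ↦ v`. -/
structure RepOut {Γ : Type} [Group Γ] (Rp : RepIn Γ) (n₀ : ℕ) (u v : ℂˣ)
    (ρ : Representation ℂ Γ (ℤ →₀ (Fin n₀ → ℂ))) : Prop where
  pm : ∀ γ, IsPM (Hstd ℂ (Fin n₀)) Rp.p (Rp.dg γ) (ρ γ)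
  z : ρ (Rp.μ ^ Rp.p) = shp ℂ (Fin n₀ → ℂ) Rp.p
  u : ρ Rp.c₀ = (u : ℂ) • 1
  v : ρ Rp.c₁ = (v : ℂ) • 1
  retr : ∃ (i : (ℤ →₀ (Fin n₀ → ℂ)) →ₗ[ℂ] (Γ →₀ ℂ)) (π : (Γ →₀ ℂ) →ₗ[ℂ] (ℤ →₀ (Fin n₀ → ℂ))),
    (∀ x, π (i x) = x) ∧ (∀ γ x, i (ρ γ x) = reg ℂ Γ γ (i x)) ∧
      ∀ γ x, π (reg ℂ Γ γ x) = ρ γ (π x)
  phi : ∀ (α : Γ ≃* Γ) (g₁ g₂ : Γ), α Rp.μ = Rp.μ → α Rp.c₀ = Rp.c₀ → α Rp.c₁ = Rp.c₁ →
    (∀ γ, Rp.deg (α γ) = Rp.deg γ) → Rp.dg g₁ = Rp.dg g₂ → IsCoprime (Rp.dg g₁) (Rp.p : ℤ) →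
    (∀ (j : ℤ) (n : Γ), Rp.deg n = 1 → Commute (g₂ ^ j * (α g₁) ^ (-j)) n) →
    ∃ U, IsPM (Hstd ℂ (Fin n₀)) Rp.p 0 U ∧
      ∀ (n : Γ) (k : ℤ), Rp.deg n = 1 → U * ρ (n * g₁ ^ k) = ρ (α n * g₂ ^ k) * U

end Pool.Agent.HH
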