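import Pool.Agent.P.MP_c8dc46_gt.Collar
import Pool.Agent.P.MP_c8dc46_gt.GDefs

/-!
Regions of the sphere fibred by circles: circle charts, holonomy along the standard loops and
acyclicity of the regions fibred by meridians or by longitudes.
-/

open Set Topology

namespace Pool.Agent.HH

variable {R E : Type} [CommRing R] [AddCommGroup E] [Module R E] {τ : S3 → S3 → Module.End R E}

namespace RFib

/-- A local determination of the angle near `s₀`. -/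
noncomputable def ang (s₀ : ℝ) (z : ℂ) : ℝ := s₀ + Complex.arg (z * ex (-s₀)) / (2 * Real.pi)

theorem ex_zero : ex 0 = 1 := by simp [ex]

theorem ex_mul_neg (s : ℝ) : ex s * ex (-s) = 1 := by rw [← ex_add, add_neg_cancel, ex_zero]

theorem ex_ne (s : ℝ) : ex s ≠ 0 := by
  intro h; have := norm_ex s; rw [h] at this; simp at this

theorem ex_add_int (s : ℝ) (n : ℤ) : ex (s + n) = ex s := by rw [ex_add, ex_int, mul_one]

theorem ex_add_one (s : ℝ) : ex (s + 1) = ex s := by simpa using ex_add_int s 1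

theorem norm_ex_ang (s₀ : ℝ) (z : ℂ) : ((‖z‖ : ℝ) : ℂ) * ex (ang s₀ z) = z := by
  have h1 : ex (Complex.arg (z * ex (-s₀)) / (2 * Real.pi)) =
      Complex.exp (Complex.arg (z * ex (-s₀)) * Complex.I) := by
    have hp : (Real.pi : ℂ) ≠ 0 := by exact_mod_cast Real.pi_ne_zero
    rw [ex]; congr 1; push_cast; field_simp
  have h2 := Complex.norm_mul_exp_arg_mul_I (z * ex (-s₀))
  rw [norm_mul, norm_ex, mul_one] at h2
  rw [ang, ex_add, h1, mul_left_comm, h2, mul_left_comm, ex_mul_neg, mul_one]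

theorem ang_self {r : ℝ} (hr : 0 ≤ r) (s₀ : ℝ) : ang s₀ (r * ex s₀) = s₀ := by
  rw [ang, mul_assoc, ex_mul_neg, mul_one, Complex.arg_ofReal_of_nonneg hr]; simp

theorem continuousAt_ang {s₀ : ℝ} {z : ℂ} (h : 0 < (z * ex (-s₀)).re) :
    ContinuousAt (ang s₀) z := by
  have h1 : ContinuousAt (fun z : ℂ => Complex.arg (z * ex (-s₀))) z :=
    ContinuousAt.comp (f := fun z : ℂ => z * ex (-s₀))
      (Complex.continuousAt_arg (Or.inl h)) (by fun_prop)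
  exact continuousAt_const.add (h1.div_const _)

theorem continuousAt_ang_self {r : ℝ} (hr : 0 < r) (s₀ : ℝ) :
    ContinuousAt (ang s₀) (r * ex s₀) :=
  continuousAt_ang (by rw [mul_assoc, ex_mul_neg, mul_one]; simpa using hr)

theorem isOpen_image {Z Y : Type} [TopologicalSpace Z] [TopologicalSpace Y] {Φ : Z → Y}
    {V : Set Z} (hV : IsOpen V) (h : ∀ q ∈ V, ∃ σ : Y → Z, ContinuousAt σ (Φ q) ∧ σ (Φ q) = q ∧
      ∀ p, Φ (σ p) = p) : IsOpen (Φ '' V) := by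
  refine isOpen_iff_mem_nhds.2 ?_
  rintro _ ⟨q, hq, rfl⟩
  obtain ⟨σ, h1, h2, h3⟩ := h q hq
  have : V ∈ 𝓝 (σ (Φ q)) := by rw [h2]; exact hV.mem_nhds hq
  filter_upwards [h1 this] with p hp using ⟨σ p, hp, h3 p⟩

theorem ext' {p q : S3} (h1 : xc p = xc q) (h2 : yc p = yc q) : p = q :=
  Subtype.ext (Prod.ext h1 h2)

theorem sq_add (p : S3) : ‖xc p‖ ^ 2 + ‖yc p‖ ^ 2 = 1 := p.2

theorem norm_yc_le (p : S3) : ‖yc p‖ ≤ 1 := by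
  have := sq_add p
  nlinarith [norm_nonneg (xc p), norm_nonneg (yc p)]

theorem sqrt_pos {d : ℂ} (hd : ‖d‖ < 1) : 0 < Real.sqrt (1 - ‖d‖ ^ 2) :=
  Real.sqrt_pos.2 (by nlinarith [norm_nonneg d])

theorem int_zero {a s s' : ℝ} (h : s ∈ Ioo a (a + 1)) (h' : s' ∈ Ioo a (a + 1)) {n : ℤ}
    (hn : s' = s + n) : s = s' := by
  have h1 : (n : ℝ) < 1 := by linarith [h.1, h'.2]
  have h2 : (-1 : ℝ) < n := by linarith [h.2, h'.1]
  have h3 : n < 1 := by exact_mod_cast h1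
  have h4 : -1 < n := by exact_mod_cast h2
  have : n = 0 := by omega
  rw [hn, this]; simp

theorem oe_of_cc {Y W : Type} [TopologicalSpace Y] [NormedAddCommGroup W] [NormedSpace ℝ W]
    {Φ : ℝ × W → Y} {O : Set W} (h : IsCC Φ O) (a : ℝ) : OE Φ (Ioo a (a + 1) ×ˢ O) where
  isOpen := isOpen_Ioo.prod h.isOpen
  cont := h.cont.mono (prod_mono (subset_univ _) subset_rfl)
  inj := by
    rintro ⟨s, w⟩ ⟨hs, hw⟩ ⟨s', w'⟩ ⟨hs', hw'⟩ he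
    obtain ⟨h1, n, hn⟩ := h.inj s s' w hw w' hw' he
    exact Prod.ext (int_zero hs hs' hn) h1
  img V hV hs := h.img V hV (hs.trans (prod_mono (subset_univ _) subset_rfl))

theorem chart_of_oe {Y : Type} [TopologicalSpace Y] {Φ : ℝ × ℂ → Y} {O : Set (ℝ × ℂ)}
    (h : OE Φ O) {A : Set Y} (hA : ∀ q ∈ O, Φ q ∈ A ↔ q.2 = 0) :
    ∃ e : OpenPartialHomeomorph Y (ℝ × ℂ), e.source = Φ '' O ∧ e.target = O ∧
      (∀ x ∈ e.source, (x ∈ A ↔ (e x).2 = 0)) ∧ ∀ q, e.symm q = Φ q := by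
  obtain ⟨e, h1, h2, h3⟩ := h.exists_openPartialHomeomorph
  refine ⟨e.symm, h2, h1, ?_, h3⟩
  intro x hx
  rw [OpenPartialHomeomorph.symm_source, h2] at hx
  obtain ⟨q, hq, rfl⟩ := hx
  rw [hA q hq, ← h3, e.left_inv (h1 ▸ hq)]

end RFib

open RFib

theorem continuous_xc : Continuous xc := continuous_fst.comp continuous_subtype_val

theorem continuous_yc : Continuous yc := continuous_snd.comp continuous_subtype_val

theorem norm_xc_le (p : S3) : ‖xc p‖ ≤ 1 := by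
  have := sq_add p
  nlinarith [norm_nonneg (xc p), norm_nonneg (yc p)]

theorem yc_eq_zero_iff (p : S3) : yc p = 0 ↔ ‖xc p‖ = 1 := by
  have h := sq_add p
  constructor
  · intro h0
    rw [h0, norm_zero] at h
    nlinarith [norm_nonneg (xc p)]
  · intro h1
    rw [h1] at h
    have : ‖yc p‖ ^ 2 = 0 := by linarith
    simpa using this

theorem xc_iota {θ : ℝ} {d : ℂ} (hd : ‖d‖ ≤ 1) :
    xc (iota θ d) = (Real.sqrt (1 - ‖d‖ ^ 2) : ℝ) * ex θ := by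
  simp only [iota, dif_pos hd, xc]

theorem yc_iota {θ : ℝ} {d : ℂ} (hd : ‖d‖ ≤ 1) : yc (iota θ d) = d := by
  simp only [iota, dif_pos hd, yc]

theorem iota_add_int (θ : ℝ) (n : ℤ) (d : ℂ) : iota (θ + n) d = iota θ d := by
  simp only [iota, ex_add_int]

theorem continuousOn_iota : ContinuousOn (fun q : ℝ × ℂ => iota q.1 q.2) {q | ‖q.2‖ ≤ 1} := by
  rw [IsInducing.subtypeVal.continuousOn_iff]
  have hex := continuous_ex
  have : Continuous fun q : ℝ × ℂ =>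
      ((((Real.sqrt (1 - ‖q.2‖ ^ 2) : ℝ) : ℂ) * ex q.1, q.2) : ℂ × ℂ) := by fun_prop
  refine this.continuousOn.congr fun q hq => ?_
  exact Prod.ext (xc_iota hq) (yc_iota hq)

namespace RFib

theorem iota_ang (s₀ : ℝ) (p : S3) : iota (ang s₀ (xc p)) (yc p) = p := by
  refine ext' ?_ (yc_iota (norm_yc_le p))
  have : 1 - ‖yc p‖ ^ 2 = ‖xc p‖ ^ 2 := by linarith [sq_add p]
  rw [xc_iota (norm_yc_le p), this, Real.sqrt_sq (norm_nonneg _), norm_ex_ang]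

theorem fib_ang (s₀ : ℝ) (p : S3) : fib (xc p) (ang s₀ (yc p)) = p := by
  have := iota_ang s₀ (swp p)
  have h : fib (xc p) (ang s₀ (yc p)) = swp (iota (ang s₀ (xc (swp p))) (yc (swp p))) := rfl
  rw [h, this]; rfl

theorem fib_add_int (x : ℂ) (s : ℝ) (n : ℤ) : fib x (s + n) = fib x s := by
  rw [fib, iota_add_int, fib]

theorem fib_add_one (x : ℂ) (s : ℝ) : fib x (s + 1) = fib x s := by
  simpa using fib_add_int x s 1

theorem continuousOn_fib {Z : Type} [TopologicalSpace Z] {x : Z → ℂ} {s : Z → ℝ} {O : Set Z}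
    (hx : Continuous x) (hs : Continuous s) (h : ∀ z ∈ O, ‖x z‖ ≤ 1) :
    ContinuousOn (fun z => fib (x z) (s z)) O :=
  swp.continuous.comp_continuousOn
    (continuousOn_iota.comp (f := fun z => (s z, x z)) (hs.prodMk hx).continuousOn h)

end RFib

theorem exists_iota (p : S3) : ∃ θ, p = iota θ (yc p) := ⟨_, (iota_ang 0 p).symm⟩

theorem isCC_iota {O : Set ℂ} (hO : IsOpen O) (hc : Convex ℝ O) (h1 : ∀ d ∈ O, ‖d‖ < 1) :
    IsCC (fun q : ℝ × ℂ => iota q.1 q.2) O where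
  isOpen := hO
  convex := hc
  cont := continuousOn_iota.mono fun q hq => (h1 _ hq.2).le
  per s w := by simpa using iota_add_int s 1 w
  inj s s' w hw w' hw' h := by
    have h2 : w = w' := by
      have := congrArg yc h
      rwa [yc_iota (h1 _ hw).le, yc_iota (h1 _ hw').le] at this
    subst h2
    have h3 := congrArg xc h
    rw [xc_iota (h1 _ hw).le, xc_iota (h1 _ hw).le] at h3
    have h4 : ((Real.sqrt (1 - ‖w‖ ^ 2) : ℝ) : ℂ) ≠ 0 := by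
      exact_mod_cast (sqrt_pos (h1 _ hw)).ne'
    exact ⟨rfl, ex_eq_iff.1 (mul_left_cancel₀ h4 h3)⟩
  img V hV hs := by
    refine isOpen_image hV fun q hq => ?_
    have hq1 := h1 _ (hs hq).2
    refine ⟨fun p => (ang q.1 (xc p), yc p), ?_, ?_, fun p => iota_ang _ p⟩
    · refine ContinuousAt.prodMk ?_ continuous_yc.continuousAt
      refine ContinuousAt.comp (g := ang q.1) ?_ continuous_xc.continuousAt
      rw [xc_iota hq1.le]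
      exact continuousAt_ang_self (sqrt_pos hq1) _
    · simp only [xc_iota hq1.le, yc_iota hq1.le, ang_self (sqrt_pos hq1).le]

theorem xc_fib {x : ℂ} (hx : ‖x‖ ≤ 1) (s : ℝ) : xc (fib x s) = x := yc_iota hx

theorem yc_fib {x : ℂ} (hx : ‖x‖ ≤ 1) (s : ℝ) :
    yc (fib x s) = (Real.sqrt (1 - ‖x‖ ^ 2) : ℝ) * ex s := xc_iota hx

theorem rot_fib (x : ℂ) (hx : ‖x‖ ≤ 1) (s : ℝ) : rot (fib x s) = fib (-x) s := by
  have hx' : ‖-x‖ ≤ 1 := by rwa [norm_neg]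
  refine ext' ?_ ?_
  · rw [xc_fib hx']; exact congrArg Neg.neg (xc_fib hx s)
  · rw [yc_fib hx', norm_neg]; exact yc_fib hx s

theorem isCC_fib {B : Set ℂ} (hB : IsOpen B) (hc : Convex ℝ B) (h1 : ∀ x ∈ B, ‖x‖ < 1) :
    IsCC (fun q : ℝ × ℂ => fib q.2 q.1) B ∧
      (fun q : ℝ × ℂ => fib q.2 q.1) '' (univ ×ˢ B) = RB B := by
  refine ⟨(isCC_iota hB hc h1).comp (OE.of_homeomorph swp isOpen_univ) (subset_univ _), ?_⟩
  ext p
  constructor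
  · rintro ⟨q, hq, rfl⟩
    show xc (fib q.2 q.1) ∈ B
    rw [xc_fib (h1 _ hq.2).le]; exact hq.2
  · intro hp
    exact ⟨(ang 0 (yc p), xc p), ⟨trivial, hp⟩, fib_ang 0 p⟩

theorem isOpen_RB {B : Set ℂ} (hB : IsOpen B) : IsOpen (RB B) := hB.preimage continuous_xc

theorem isClosed_RB {B : Set ℂ} (hB : IsClosed B) : IsClosed (RB B) := hB.preimage continuous_xc

theorem isLoop_fib {B : Set ℂ} {x : ℂ} (hx : x ∈ B) (h1 : ‖x‖ ≤ 1) : IsLoop (fib x) (RB B) := by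
  refine ⟨continuousOn_univ.1 (continuousOn_fib continuous_const continuous_id fun _ _ => h1),
    fib_add_one x, fun s => ?_⟩
  show xc (fib x s) ∈ B
  rwa [xc_fib h1]

namespace RFib

theorem norm_mul_ex (r s : ℝ) : ‖(r : ℂ) * ex s‖ = |r| := by
  rw [norm_mul, norm_ex, mul_one, Complex.norm_real, Real.norm_eq_abs]

theorem norm_pol (x₀ : ℂ) (r s : ℝ) : ‖x₀ + r * ex s‖ ≤ ‖x₀‖ + |r| :=
  (norm_add_le _ _).trans (by rw [norm_mul_ex])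

theorem norm_pol_sub (x₀ : ℂ) (r s : ℝ) : ‖x₀ + r * ex s - x₀‖ = |r| := by
  rw [add_sub_cancel_left, norm_mul_ex]

theorem lon_eq (x₀ : ℂ) (r s : ℝ) : lon x₀ r s = fib (x₀ + r * ex s) 0 := rfl

theorem oe_fib (x₀ : ℂ) {B : Set ℂ} (hB : IsOpen B) (hc : Convex ℝ B) (h1 : ∀ x ∈ B, ‖x‖ < 1)
    (a : ℝ) : OE (fun q : ℝ × ℂ => fib (x₀ + q.2) q.1)
      (Ioo a (a + 1) ×ˢ {w | x₀ + w ∈ B}) :=
  (oe_of_cc (isCC_fib hB hc h1).1 a).comp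
    (OE.of_homeomorph ((Homeomorph.refl ℝ).prodCongr (Homeomorph.addLeft x₀))
      (isOpen_Ioo.prod (hB.preimage (continuous_const.add continuous_id)))) fun _ hq => hq

theorem mem_mid (s : ℝ) : s ∈ Ioo (s - 1 / 2) (s - 1 / 2 + 1) := ⟨by linarith, by linarith⟩

theorem lon_homotopy {x₀ : ℂ} {O : Set ℝ} (h1 : ∀ r ∈ O, ‖x₀‖ + |r| ≤ 1) :
    ContinuousOn (fun q : ℝ × ℝ => lon x₀ q.2 q.1) (univ ×ˢ O) ∧
      ∀ s w, (fun q : ℝ × ℝ => lon x₀ q.2 q.1) (s + 1, w) =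
        (fun q : ℝ × ℝ => lon x₀ q.2 q.1) (s, w) := by
  have hex := continuous_ex
  refine ⟨continuousOn_fib (by fun_prop) continuous_const fun q hq =>
    (norm_pol _ _ _).trans (h1 _ hq.2), fun s w => ?_⟩
  simp only [lon, ex_add_one]

end RFib

theorem xc_lon {x₀ : ℂ} {r : ℝ} (hr : 0 ≤ r) (h1 : ‖x₀‖ + r ≤ 1) (s : ℝ) :
    xc (lon x₀ r s) = x₀ + r * ex s :=
  xc_fib ((norm_pol _ _ _).trans (by rwa [abs_of_nonneg hr])) 0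

theorem yc_lon {x₀ : ℂ} {r : ℝ} (hr : 0 ≤ r) (h1 : ‖x₀‖ + r < 1) (s : ℝ) :
    ∃ c : ℝ, 0 < c ∧ yc (lon x₀ r s) = c := by
  have h : ‖x₀ + r * ex s‖ < 1 := (norm_pol _ _ _).trans_lt (by rwa [abs_of_nonneg hr])
  exact ⟨_, sqrt_pos h, by rw [lon_eq, yc_fib h.le, ex_zero, mul_one]⟩

theorem isLoop_lon {x₀ : ℂ} {r : ℝ} (hr : 0 ≤ r) (h1 : ‖x₀‖ + r ≤ 1) {B : Set ℂ}
    (hB : ∀ s, x₀ + r * ex s ∈ B) : IsLoop (lon x₀ r) (RB B) := by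
  have hex := continuous_ex
  refine ⟨continuousOn_univ.1 (continuousOn_fib (by fun_prop) continuous_const fun s _ =>
    (norm_pol _ _ _).trans (by rwa [abs_of_nonneg hr])), fun s => ?_, fun s => ?_⟩
  · simp only [lon, ex_add_one]
  · show xc (lon x₀ r s) ∈ B
    rw [xc_lon hr h1]; exact hB s

theorem flat_eta {x₀ : ℂ} (h : ‖x₀‖ < 1) : Flat ℝ (eta x₀) := by
  intro p hp
  have h1 : ∀ x ∈ Metric.ball (0 : ℂ) 1, ‖x‖ < 1 := fun x hx => by simpa using hx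
  obtain ⟨e, e1, -, e3, -⟩ := chart_of_oe (A := eta x₀) (oe_fib x₀ Metric.isOpen_ball
    (convex_ball 0 1) h1 (ang 0 (yc p) - 1 / 2)) fun q hq => by
      show xc _ = x₀ ↔ _
      rw [xc_fib (h1 _ hq.2).le]; simp
  refine ⟨e, ?_, e3⟩
  rw [e1]
  refine ⟨(ang 0 (yc p), 0), ⟨mem_mid _, by simpa using h⟩, ?_⟩
  have hp' : xc p = x₀ := hp
  simpa [hp'] using fib_ang 0 p

theorem isPreconnected_eta {x₀ : ℂ} (h : ‖x₀‖ < 1) : IsPreconnected (eta x₀) := by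
  have : eta x₀ = range (fib x₀) := by
    ext p
    constructor
    · intro hp
      have hp' : xc p = x₀ := hp
      exact ⟨ang 0 (yc p), by simpa [hp'] using fib_ang 0 p⟩
    · rintro ⟨s, rfl⟩
      exact xc_fib h.le s
  rw [this]
  exact isPreconnected_range (isLoop_fib (mem_univ x₀) h.le).1

theorem isMer_lon {x₀ : ℂ} {r r' : ℝ} (hr : 0 < r) (hr' : r < r') (h1 : ‖x₀‖ + r' ≤ 1) :
    IsMer ℝ (RB (Metric.ball x₀ r')) (eta x₀) (lon x₀ r) := by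
  have h2 : ∀ x ∈ Metric.ball x₀ r', ‖x‖ < 1 := fun x hx => by
    have := norm_le_norm_add_norm_sub' x x₀
    rw [mem_ball_iff_norm] at hx
    linarith
  obtain ⟨e, e1, e2, e3, e4⟩ := chart_of_oe (A := eta x₀) (oe_fib x₀ Metric.isOpen_ball
    (convex_ball x₀ r') h2 (0 - 1 / 2)) fun q hq => by
      show xc _ = x₀ ↔ _
      rw [xc_fib (h2 _ hq.2).le]; simp
  refine ⟨e, ?_, e3, 0, r, hr, fun w hw => ?_, fun s => by rw [e4]; rfl⟩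
  · rw [e1]
    rintro _ ⟨q, hq, rfl⟩
    show xc _ ∈ Metric.ball x₀ r'
    rw [xc_fib (h2 _ hq.2).le]; exact hq.2
  · rw [e2]
    exact ⟨mem_mid 0, by simpa using hw.trans_lt hr'⟩

theorem isKnot_U : IsKnot (fun s => iota s 0) ∧ range (fun s => iota s 0) = Uk := by
  have h1 : ∀ x ∈ Metric.ball (0 : ℂ) 1, ‖x‖ < 1 := fun x hx => by simpa using hx
  have hcc := isCC_iota Metric.isOpen_ball (convex_ball 0 1) h1
  have h0 : (0 : ℂ) ∈ Metric.ball (0 : ℂ) 1 := by simp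
  have hr : range (fun s => iota s 0) = Uk := by
    ext p
    constructor
    · rintro ⟨s, rfl⟩
      exact yc_iota (by simp)
    · intro hp
      have hp' : yc p = 0 := hp
      exact ⟨ang 0 (xc p), by simpa [hp'] using iota_ang 0 p⟩
  refine ⟨⟨(hcc.isLoop h0).1, fun s => hcc.per s 0, fun s s' h => (hcc.inj s s' 0 h0 0 h0 h).2,
    ?_⟩, hr⟩
  rw [hr]
  intro p hp
  obtain ⟨e, e1, -, e3, -⟩ := chart_of_oe (A := Uk) (oe_of_cc hcc (ang 0 (xc p) - 1 / 2))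
    fun q hq => by
      show yc _ = 0 ↔ _
      rw [yc_iota (h1 _ hq.2).le]
  refine ⟨e, ?_, e3⟩
  rw [e1]
  refine ⟨(ang 0 (xc p), 0), ⟨mem_mid _, h0⟩, ?_⟩
  have hp' : yc p = 0 := hp
  simpa [hp'] using iota_ang 0 p

theorem isHolA_yc_fib {x : ℂ} (hx : ‖x‖ < 1) : IsHolA (th yc) (fib x) 1 :=
  isHolA_th (α := id) continuous_id (fun s => by simp)
    fun s => ⟨_, sqrt_pos hx, yc_fib hx.le s⟩

theorem isHolA_xc_lon {x₀ x₁ : ℂ} {r : ℝ} (hr : 0 < r) (h1 : ‖x₀‖ + r ≤ 1) :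
    (x₁ = x₀ → IsHolA (th fun p => xc p - x₁) (lon x₀ r) 1) ∧
      (r < ‖x₁ - x₀‖ → IsHolA (th fun p => xc p - x₁) (lon x₀ r) 0) := by
  constructor
  · rintro rfl
    exact isHolA_th (α := id) continuous_id (fun s => by simp)
      fun s => ⟨r, hr, by simp [xc_lon hr.le h1]⟩
  · intro h
    have hex := continuous_ex
    set s₀ := ang 0 (x₀ - x₁)
    have h2 : ∀ s, 0 < ((x₀ + r * ex s - x₁) * ex (-s₀)).re := fun s => by
      have e1 : (x₀ + r * ex s - x₁) * ex (-s₀) = (‖x₀ - x₁‖ : ℝ) + r * ex (s + -s₀) := by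
        have := norm_ex_ang 0 (x₀ - x₁)
        have e2 := ex_mul_neg s₀
        rw [ex_add]
        linear_combination (-ex (-s₀)) * this + ((‖x₀ - x₁‖ : ℝ) : ℂ) * e2
      have e3 := (abs_le.1 ((Complex.abs_re_le_norm _).trans (norm_mul_ex r (s + -s₀)).le)).1
      rw [abs_of_pos hr] at e3
      rw [e1, Complex.add_re, Complex.ofReal_re, norm_sub_rev]
      linarith
    refine isHolA_th (α := fun s => ang s₀ (x₀ + r * ex s - x₁)) ?_ (fun s => by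
      simp [ex_add_one]) fun s => ⟨‖x₀ + r * ex s - x₁‖, ?_, ?_⟩
    · exact continuous_iff_continuousAt.2 fun s =>
        ContinuousAt.comp (g := ang s₀) (continuousAt_ang (h2 s)) (by fun_prop)
    · refine norm_pos_iff.2 fun h0 => ?_
      simpa [h0] using h2 s
    · rw [norm_ex_ang, xc_lon hr.le h1]

theorem isHolA_xc_fib {x x₁ : ℂ} (hx : ‖x‖ ≤ 1) : IsHolA (th fun p => xc p - x₁) (fib x) 0 := by
  refine ⟨fun _ => 0, fun s => ⟨univ, Filter.univ_mem, fun a _ b _ => ?_⟩, fun _ => by simp⟩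
  simp [th, jmp, xc_fib hx]

/-- A loop `lon` that bounds a disc in `S` has trivial holonomy. -/
theorem isHol_lon_one {M : Type} [Monoid M] {f : S3 → S3 → M} {x₀ : ℂ} {r r' : ℝ} (hr : 0 ≤ r)
    (hr' : r < r') (h1 : ‖x₀‖ + r' ≤ 1) (hf : IsCoc f (RB (Metric.ball x₀ r'))) :
    IsHol f (lon x₀ r) 1 := by
  have h2 : ∀ t ∈ Ioo (-r') r', ‖x₀‖ + |t| ≤ 1 := fun t ht => by
    linarith [abs_lt.2 ht]
  have hm : MapsTo (fun q : ℝ × ℝ => lon x₀ q.2 q.1) (univ ×ˢ Ioo (-r') r')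
      (RB (Metric.ball x₀ r')) := fun q hq => by
    show xc (lon x₀ q.2 q.1) ∈ Metric.ball x₀ r'
    rw [lon_eq, xc_fib ((norm_pol _ _ _).trans (h2 _ hq.2)), mem_ball_iff_norm, norm_pol_sub]
    exact abs_lt.2 hq.2
  have h0 : (0 : ℝ) ∈ Ioo (-r') r' := ⟨by linarith, by linarith⟩
  obtain ⟨U, hU, hU'⟩ := hf _ (hm (x := (0, 0)) ⟨trivial, h0⟩)
  have h3 : IsHol f (fun s => lon x₀ 0 s) 1 := by
    have := isHol_const (hU' _ (mem_of_mem_nhds hU)).1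
    simpa [lon] using this
  obtain ⟨k, hk⟩ := IsHol.homotopy isOpen_Ioo (convex_Ioo _ _) (lon_homotopy h2).1
    (lon_homotopy h2).2 hm hf h0 (o' := r) ⟨by linarith, hr'⟩ h3
  simpa using hk

theorem isHolA_lon_zero {M : Type} [AddCommGroup M] {f : S3 → S3 → M} {x₀ : ℂ} {r r' : ℝ}
    (hr : 0 ≤ r) (hr' : r < r') (h1 : ‖x₀‖ + r' ≤ 1) (hf : IsCocA f (RB (Metric.ball x₀ r'))) :
    IsHolA f (lon x₀ r) 0 :=
  isHolA_iff.2 (isHol_lon_one hr hr' h1 (IsCocA.ofAdd.1 hf))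

namespace RFib

theorem acyc_RB_convex {C : Set ℂ} (hB : IsOpen C) (hc : Convex ℝ C) (h1 : ∀ x ∈ C, ‖x‖ < 1)
    (hτ : IsCoc τ (RB C)) (h : ∀ x ∈ C, LoopAc τ (fib x)) :
    Acyc0 τ (RB C) ∧ Acyc τ 2 (RB C) := by
  rcases C.eq_empty_or_nonempty with rfl | ⟨x, hx⟩
  · exact ⟨fun φ _ => mem_N_empty 1 φ, fun a _ => Exa.of_mem_N (mem_N_empty 2 a)⟩
  obtain ⟨hcc, him⟩ := isCC_fib hB hc h1
  obtain ⟨η, h2, h3⟩ := h x hx
  rw [← him] at hτ ⊢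
  exact ⟨hcc.acyc0 hτ hx h2 h3.1, hcc.acyc1 hτ hx h2 h3.2⟩

theorem RB_mono {B B' : Set ℂ} (h : B ⊆ B') : RB B ⊆ RB B' := fun _ hp => h hp

end RFib

/-- Regions fibred by meridians. -/
theorem acyc_fibX {B : Set ℂ} (hB : IsOpen B) (h1 : ∀ x ∈ B, ‖x‖ < 1) (hτ : IsCoc τ (RB B))
    (h : ∀ x ∈ B, LoopAc τ (fib x)) : Acyc0 τ (RB B) ∧ Acyc τ 2 (RB B) := by
  have key : ∀ C : Set ℂ, IsOpen C → Convex ℝ C → C ⊆ B → Acyc0 τ (RB C) ∧ Acyc τ 2 (RB C) :=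
    fun C ho hc hs => acyc_RB_convex ho hc (fun x hx => h1 x (hs hx)) (hτ.mono (RB_mono hs))
      fun x hx => h x (hs hx)
  have hball : ∀ p ∈ RB B, ∃ C : Set ℂ, (IsOpen C ∧ Convex ℝ C ∧ C ⊆ B) ∧ p ∈ RB C := by
    intro p hp
    obtain ⟨ε, hε, hs⟩ := Metric.isOpen_iff.1 hB _ hp
    exact ⟨_, ⟨Metric.isOpen_ball, convex_ball _ _, hs⟩, Metric.mem_ball_self hε⟩
  constructor
  · refine acyc0_of_local (isOpen_RB hB) fun p hp => ?_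
    obtain ⟨C, hC, hp'⟩ := hball p hp
    exact ⟨_, hp', RB_mono hC.2.2, (key C hC.1 hC.2.1 hC.2.2).1⟩
  · have hU : RB B = ⋃ i : {C : Set ℂ // IsOpen C ∧ Convex ℝ C ∧ C ⊆ B}, RB i.1 := by
      refine subset_antisymm (fun p hp => ?_) (iUnion_subset fun i => RB_mono i.2.2.2)
      obtain ⟨C, hC, hp'⟩ := hball p hp
      exact mem_iUnion.2 ⟨⟨C, hC⟩, hp'⟩
    rw [hU] at hτ ⊢
    exact acyc_iUnion (fun i => isOpen_RB i.2.1) hτ (fun i => (key _ i.2.1 i.2.2.1 i.2.2.2).2)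
      fun i j _ => (key (i.1 ∩ j.1) (i.2.1.inter j.2.1) (i.2.2.1.inter j.2.2.1)
        (inter_subset_left.trans i.2.2.2)).1

/-- The primitive vanishes on every fibre near which the cocycle vanishes. -/
theorem cut_fibX {B Bc : Set ℂ} {M : Set S3} (hB : IsOpen B) (h1 : ∀ x ∈ B, ‖x‖ < 1)
    (hτ : IsCoc τ (RB B)) (h : ∀ x ∈ B, LoopAc τ (fib x)) (hBc : IsClosed Bc) (hs : B ⊆ Bc)
    (hM : RB Bc \ Uk ⊆ M) (hMU : Disjoint M (RB Bc ∩ Uk)) : Cut τ M (RB B) := by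
  intro a K hK hKM ha ha'
  obtain ⟨φ, hφ⟩ := (acyc_fibX hB h1 hτ h).2 a ha
  have hL : IsClosed (xc '' (K ∩ RB Bc)) :=
    ((hK.inter_right (isClosed_RB hBc)).image continuous_xc).isClosed
  refine ⟨φ, RB (xc '' (K ∩ RB Bc)), (isClosed_RB hL).isCompact, ?_, hφ, ?_⟩
  · rintro p ⟨q, ⟨hq, hq'⟩, hqp⟩
    refine hM ⟨show xc p ∈ Bc from hqp ▸ hq', fun hp => ?_⟩
    refine disjoint_left.1 hMU (hKM hq) ⟨hq', ?_⟩
    exact (yc_eq_zero_iff q).2 (hqp ▸ (yc_eq_zero_iff p).1 hp)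
  · have hsub : RB (B \ xc '' (K ∩ RB Bc)) ⊆ RB B := RB_mono sdiff_subset
    refine (acyc_fibX (hB.sdiff hL) (fun x hx => h1 x hx.1) (hτ.mono hsub)
      fun x hx => h x hx.1).1 φ ?_
    have e : dT τ φ = a - (a - dT τ φ) := by abel
    rw [e]
    refine Submodule.sub_mem _ (N_mono ?_ ha') (N_mono hsub hφ)
    exact fun p hp => ⟨hp.1, fun hK => hp.2 ⟨p, ⟨hK, hs hp.1⟩, rfl⟩⟩

namespace RFib

/-- The doubly periodic chart: polar coordinates about `x₀` and the angle of `y`. -/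
noncomputable def lonΦ (x₀ : ℂ) (q : ℝ × (ℝ × ℝ)) : S3 := fib (x₀ + q.2.1 * ex q.1) q.2.2

/-- The domain of the chart. -/
def Dom (x₀ : ℂ) : Set (ℝ × (ℝ × ℝ)) := {q | 0 < q.2.1 ∧ ‖x₀ + q.2.1 * ex q.1‖ < 1}

variable {x₀ : ℂ}

theorem xc_lonΦ {q : ℝ × (ℝ × ℝ)} (hq : q ∈ Dom x₀) : xc (lonΦ x₀ q) = x₀ + q.2.1 * ex q.1 :=
  xc_fib hq.2.le _

theorem rad_lonΦ {q : ℝ × (ℝ × ℝ)} (hq : q ∈ Dom x₀) : ‖xc (lonΦ x₀ q) - x₀‖ = q.2.1 := by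
  rw [xc_lonΦ hq, norm_pol_sub, abs_of_pos hq.1]

theorem cont_lonΦ : ContinuousOn (lonΦ x₀) (Dom x₀) := by
  have hex := continuous_ex
  exact continuousOn_fib (by fun_prop) (by fun_prop) fun q hq => hq.2.le

theorem lonΦ_int (s ρ t : ℝ) (n n' : ℤ) : lonΦ x₀ (s + n, ρ, t + n') = lonΦ x₀ (s, ρ, t) := by
  simp only [lonΦ, ex_add_int, fib_add_int]

theorem lonΦ_ang (s t : ℝ) (p : S3) :
    lonΦ x₀ (ang s (xc p - x₀), ‖xc p - x₀‖, ang t (yc p)) = p := by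
  simp only [lonΦ, norm_ex_ang, add_sub_cancel, fib_ang]

theorem inj_lonΦ {q q' : ℝ × (ℝ × ℝ)} (hq : q ∈ Dom x₀) (hq' : q' ∈ Dom x₀)
    (h : lonΦ x₀ q = lonΦ x₀ q') :
    q.2.1 = q'.2.1 ∧ (∃ n : ℤ, q'.1 = q.1 + n) ∧ ∃ n : ℤ, q'.2.2 = q.2.2 + n := by
  have h1 : q.2.1 = q'.2.1 := by rw [← rad_lonΦ hq, h, rad_lonΦ hq']
  have h2 : x₀ + q.2.1 * ex q.1 = x₀ + q'.2.1 * ex q'.1 := by
    rw [← xc_lonΦ hq, h, xc_lonΦ hq']
  have h3 := congrArg yc h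
  rw [lonΦ, lonΦ, yc_fib hq.2.le, yc_fib hq'.2.le, ← h2] at h3
  have h4 : ((Real.sqrt (1 - ‖x₀ + q.2.1 * ex q.1‖ ^ 2) : ℝ) : ℂ) ≠ 0 := by
    exact_mod_cast (sqrt_pos hq.2).ne'
  have h5 : (q.2.1 : ℂ) ≠ 0 := by exact_mod_cast hq.1.ne'
  rw [← h1] at h2
  exact ⟨h1, ex_eq_iff.1 (mul_left_cancel₀ h5 (add_left_cancel h2)),
    ex_eq_iff.1 (mul_left_cancel₀ h4 h3)⟩

theorem img_lonΦ {V : Set (ℝ × (ℝ × ℝ))} (hV : IsOpen V) (hs : V ⊆ Dom x₀) :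
    IsOpen (lonΦ x₀ '' V) := by
  refine isOpen_image hV fun q hq => ?_
  have hq1 := hs hq
  have e1 : xc (lonΦ x₀ q) - x₀ = q.2.1 * ex q.1 := by rw [xc_lonΦ hq1, add_sub_cancel_left]
  have e2 : yc (lonΦ x₀ q) = _ := yc_fib hq1.2.le _
  have hx := continuous_xc
  refine ⟨fun p => (ang q.1 (xc p - x₀), ‖xc p - x₀‖, ang q.2.2 (yc p)), ?_, ?_,
    fun p => lonΦ_ang _ _ p⟩
  · refine ContinuousAt.prodMk ?_ (ContinuousAt.prodMk (by fun_prop) ?_)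
    · refine ContinuousAt.comp (g := ang q.1) (f := fun p => xc p - x₀) ?_ (by fun_prop)
      rw [e1]
      exact continuousAt_ang_self hq1.1 _
    · refine ContinuousAt.comp (g := ang q.2.2) ?_ continuous_yc.continuousAt
      rw [e2]
      exact continuousAt_ang_self (sqrt_pos hq1.2) _
  · simp only [rad_lonΦ hq1]
    rw [e1, e2, ang_self hq1.1.le, ang_self (sqrt_pos hq1.2).le]

theorem isCC_lonΦ {I J : Set ℝ} {t : ℝ} (hI : IsOpen I) (hIc : Convex ℝ I) (hJ : IsOpen J)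
    (hJc : Convex ℝ J) (hJt : J ⊆ Ioo t (t + 1)) (hD : univ ×ˢ (I ×ˢ univ) ⊆ Dom x₀) :
    IsCC (lonΦ x₀) (I ×ˢ J) where
  isOpen := hI.prod hJ
  convex := hIc.prod hJc
  cont := cont_lonΦ.mono fun _ hq => hD ⟨trivial, hq.2.1, trivial⟩
  per s w := by simpa using lonΦ_int s w.1 w.2 1 0
  inj s s' w hw w' hw' h := by
    obtain ⟨h1, h2, n, h3⟩ := inj_lonΦ (q := (s, w)) (q' := (s', w'))
      (hD ⟨trivial, hw.1, trivial⟩) (hD ⟨trivial, hw'.1, trivial⟩) h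
    exact ⟨Prod.ext h1 (int_zero (hJt hw.2) (hJt hw'.2) h3), h2⟩
  img V hV hs := img_lonΦ hV fun _ hq => hD ⟨trivial, (hs hq).2.1, trivial⟩

/-- Thin annuli are acyclic. -/
theorem acyc_ann {ρ₁ ρ₂ r : ℝ} (hr : r ∈ Ioo ρ₁ ρ₂) (hD : univ ×ˢ (Ioo ρ₁ ρ₂ ×ˢ univ) ⊆ Dom x₀)
    (hτ : IsCoc τ (RB {x | ‖x - x₀‖ ∈ Ioo ρ₁ ρ₂})) (h : LoopAc τ (lon x₀ r)) :
    Acyc0 τ (RB {x | ‖x - x₀‖ ∈ Ioo ρ₁ ρ₂}) ∧ Acyc τ 2 (RB {x | ‖x - x₀‖ ∈ Ioo ρ₁ ρ₂}) := by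
  have hm : MapsTo (lonΦ x₀) (univ ×ˢ (Ioo ρ₁ ρ₂ ×ˢ univ)) (RB {x | ‖x - x₀‖ ∈ Ioo ρ₁ ρ₂}) :=
    fun q hq => by
      show ‖xc _ - x₀‖ ∈ Ioo ρ₁ ρ₂
      rw [rad_lonΦ (hD hq)]; exact hq.2.1
  have hl : ∀ o ∈ Ioo ρ₁ ρ₂ ×ˢ (univ : Set ℝ), LoopAc τ fun s => lonΦ x₀ (s, o) := fun o ho =>
    LoopAc.homotopy (isOpen_Ioo.prod isOpen_univ) ((convex_Ioo _ _).prod convex_univ)
      (cont_lonΦ.mono hD) (fun s w => by simpa using lonΦ_int s w.1 w.2 1 0) hm hτ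
      (o := (r, 0)) ⟨hr, trivial⟩ ho h
  have key : ∀ (t : ℝ) (J : Set ℝ), IsOpen J → Convex ℝ J → J ⊆ Ioo t (t + 1) → J.Nonempty →
      IsOpen (lonΦ x₀ '' (univ ×ˢ (Ioo ρ₁ ρ₂ ×ˢ J))) ∧
      Acyc0 τ (lonΦ x₀ '' (univ ×ˢ (Ioo ρ₁ ρ₂ ×ˢ J))) ∧
      Acyc τ 2 (lonΦ x₀ '' (univ ×ˢ (Ioo ρ₁ ρ₂ ×ˢ J))) := by
    rintro t J h1 h2 h3 ⟨a, ha⟩
    have hcc := isCC_lonΦ isOpen_Ioo (convex_Ioo ρ₁ ρ₂) h1 h2 h3 hD
    obtain ⟨η, h4, h5⟩ := hl (r, a) ⟨hr, trivial⟩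
    have hτ' : IsCoc τ (lonΦ x₀ '' (univ ×ˢ (Ioo ρ₁ ρ₂ ×ˢ J))) := hτ.mono (by
      rintro _ ⟨q, hq, rfl⟩; exact hm ⟨trivial, hq.2.1, trivial⟩)
    exact ⟨hcc.isOpen_image, hcc.acyc0 hτ' (o := (r, a)) ⟨hr, ha⟩ h4 h5.1,
      hcc.acyc1 hτ' (o := (r, a)) ⟨hr, ha⟩ h4 h5.2⟩
  have hk : ∀ t : ℝ, _ := fun t => key t (Ioo t (t + 1)) isOpen_Ioo (convex_Ioo _ _) subset_rfl
    (nonempty_Ioo.2 (by linarith))
  have hU : RB {x | ‖x - x₀‖ ∈ Ioo ρ₁ ρ₂} =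
      ⋃ t : ℝ, lonΦ x₀ '' (univ ×ˢ (Ioo ρ₁ ρ₂ ×ˢ Ioo t (t + 1))) := by
    refine Subset.antisymm (fun p hp => mem_iUnion.2 ⟨ang 0 (yc p) - 1 / 2, _, ?_,
      lonΦ_ang 0 0 p⟩) (iUnion_subset fun t => ?_)
    · exact ⟨trivial, hp, mem_mid _⟩
    · rintro _ ⟨q, hq, rfl⟩; exact hm ⟨trivial, hq.2.1, trivial⟩
  rw [hU] at hτ ⊢
  constructor
  · refine acyc0_of_local (isOpen_iUnion fun t => (hk t).1) fun p hp => ?_
    obtain ⟨t, ht⟩ := mem_iUnion.1 hp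
    exact ⟨_, ht, subset_iUnion (fun t : ℝ =>
      lonΦ x₀ '' (univ ×ˢ (Ioo ρ₁ ρ₂ ×ˢ Ioo t (t + 1)))) t, (hk t).2.1⟩
  · refine acyc_iUnion (fun t => (hk t).1) hτ (fun t => (hk t).2.2) fun t t' _ => ?_
    refine acyc0_of_local ((hk t).1.inter (hk t').1) ?_
    rintro _ ⟨⟨q, hq, rfl⟩, q', hq', he⟩
    obtain ⟨-, -, n, hn⟩ := inj_lonΦ (hD ⟨trivial, hq.2.1, trivial⟩)
      (hD ⟨trivial, hq'.2.1, trivial⟩) he.symm
    have hmem : q.2.2 ∈ Ioo t (t + 1) ∩ Ioo (t' - n) (t' - n + 1) :=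
      ⟨hq.2.2, by linarith [hq'.2.2.1], by linarith [hq'.2.2.2]⟩
    refine ⟨_, ?_, ?_, (key t _ (isOpen_Ioo.inter isOpen_Ioo)
      ((convex_Ioo _ _).inter (convex_Ioo _ _)) inter_subset_left ⟨_, hmem⟩).2.1⟩
    · exact ⟨q, ⟨trivial, hq.2.1, hmem⟩, rfl⟩
    rintro _ ⟨⟨s, ρ, a⟩, ⟨-, h1, h2, h3⟩, rfl⟩
    refine ⟨⟨_, ⟨trivial, h1, h2⟩, rfl⟩, (s + (0 : ℤ), ρ, a + n), ⟨trivial, h1, ?_, ?_⟩,
      lonΦ_int s ρ a 0 n⟩
    · show t' < a + n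
      linarith [h3.1]
    · show a + n < t' + 1
      linarith [h3.2]

theorem star_mem {B' : Set ℂ} (hc : Convex ℝ B') (h0 : x₀ ∈ B') {s ρ ρ' : ℝ}
    (h : x₀ + ρ * ex s ∈ B') (h1 : 0 < ρ') (h2 : ρ' ≤ ρ) : x₀ + ρ' * ex s ∈ B' := by
  have hρ : 0 < ρ := h1.trans_le h2
  have := hc.add_smul_mem h0 h (t := ρ' / ρ) ⟨by positivity, (div_le_one hρ).2 h2⟩
  have hρ' : (ρ : ℂ) ≠ 0 := by exact_mod_cast hρ.ne'
  convert this using 2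
  rw [Complex.real_smul]; push_cast; field_simp

end RFib

/-- Regions fibred by longitudes: a convex set minus a closed disc (or a point). -/
theorem acyc_fibL {B' : Set ℂ} (hB : IsOpen B') (hc : Convex ℝ B') (h1 : ∀ x ∈ B', ‖x‖ < 1)
    {x₀ : ℂ} {ρ₁ r : ℝ} (hρ : 0 ≤ ρ₁) (hr : ρ₁ < r) (hs : Metric.closedBall x₀ r ⊆ B')
    (hτ : IsCoc τ (RB (B' \ Metric.closedBall x₀ ρ₁))) (h : LoopAc τ (lon x₀ r)) :
    Acyc0 τ (RB (B' \ Metric.closedBall x₀ ρ₁)) ∧ Acyc τ 2 (RB (B' \ Metric.closedBall x₀ ρ₁)) := by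
  obtain ⟨ε, hε, hth⟩ := (isCompact_closedBall x₀ r).exists_thickening_subset_open hB hs
  rw [thickening_closedBall hε (by linarith)] at hth
  have h0 : x₀ ∈ B' := hs (Metric.mem_closedBall_self (by linarith))
  have hex := continuous_ex
  set A := RB (B' \ Metric.closedBall x₀ ρ₁) with hA
  set T := RB {x | ‖x - x₀‖ ∈ Ioo ρ₁ (ε + r)} with hT
  have hdom : ∀ {q : ℝ × (ℝ × ℝ)}, ρ₁ < q.2.1 → x₀ + q.2.1 * ex q.1 ∈ B' → q ∈ Dom x₀ :=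
    fun hq hq' => ⟨hρ.trans_lt hq, h1 _ hq'⟩
  have hinA : ∀ {q : ℝ × (ℝ × ℝ)}, ρ₁ < q.2.1 → x₀ + q.2.1 * ex q.1 ∈ B' → lonΦ x₀ q ∈ A := by
    intro q hq hq'
    refine ⟨by rwa [xc_lonΦ (hdom hq hq')], fun hb => ?_⟩
    rw [mem_closedBall_iff_norm, rad_lonΦ (hdom hq hq')] at hb
    linarith
  have hinT : ∀ {q : ℝ × (ℝ × ℝ)}, q ∈ Dom x₀ → (lonΦ x₀ q ∈ T ↔ q.2.1 ∈ Ioo ρ₁ (ε + r)) := by
    intro q hq
    show ‖xc _ - x₀‖ ∈ Ioo ρ₁ (ε + r) ↔ _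
    rw [rad_lonΦ hq]
  have hTA : T ⊆ A := fun p hp => ⟨hth (mem_ball_iff_norm.2 hp.2), fun hb =>
    (mem_closedBall_iff_norm.1 hb).not_gt hp.1⟩
  have hTo : IsOpen T := isOpen_RB (isOpen_Ioo.preimage (by fun_prop))
  obtain ⟨hT0, hT1⟩ := acyc_ann (x₀ := x₀) (ρ₁ := ρ₁) (ρ₂ := ε + r) ⟨hr, by linarith⟩
    (fun q hq => hdom hq.2.1.1 (hth (by
      rw [mem_ball_iff_norm, norm_pol_sub, abs_of_pos (hρ.trans_lt hq.2.1.1)]
      exact hq.2.1.2))) (hτ.mono hTA) h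
  -- radial segments
  have hseg : ∀ s ρ t : ℝ, ρ₁ < ρ → x₀ + ρ * ex s ∈ B' →
      IsPreconnected ((fun ρ' => lonΦ x₀ (s, ρ', t)) '' Ioc ρ₁ ρ) ∧
      ((fun ρ' => lonΦ x₀ (s, ρ', t)) '' Ioc ρ₁ ρ ∩ T).Nonempty := by
    intro s ρ t h2 h3
    have h4 : ∀ ρ' ∈ Ioc ρ₁ ρ, (s, ρ', t) ∈ Dom x₀ := fun ρ' h5 =>
      hdom h5.1 (star_mem hc h0 h3 (hρ.trans_lt h5.1) h5.2)
    have h5 : min ρ r ∈ Ioc ρ₁ ρ := ⟨lt_min h2 hr, min_le_left _ _⟩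
    refine ⟨isPreconnected_Ioc.image _ (cont_lonΦ.comp (f := fun ρ' => (s, ρ', t))
      (by fun_prop) h4), _, ⟨_, h5, rfl⟩, (hinT (h4 _ h5)).2 ⟨h5.1, ?_⟩⟩
    exact (min_le_right _ _).trans_lt (by linarith)
  have hpA : ∀ p ∈ A, ρ₁ < ‖xc p - x₀‖ ∧
      x₀ + (‖xc p - x₀‖ : ℝ) * ex (ang 0 (xc p - x₀)) ∈ B' := fun p hp =>
    ⟨lt_of_not_ge fun hb => hp.2 (mem_closedBall_iff_norm.2 hb), by
      rw [norm_ex_ang, add_sub_cancel]; exact hp.1⟩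
  constructor
  · intro φ hφ
    refine mem_N_of_forall fun p hp => ?_
    obtain ⟨h2, h3⟩ := hpA p hp
    obtain ⟨h4, z, h5, h6⟩ := hseg _ _ (ang 0 (yc p)) h2 h3
    have hsub : (fun ρ' => lonΦ x₀ (ang 0 (xc p - x₀), ρ', ang 0 (yc p))) ''
        Ioc ρ₁ ‖xc p - x₀‖ ⊆ A := by
      rintro _ ⟨ρ', h7, rfl⟩
      exact hinA h7.1 (star_mem hc h0 h3 (hρ.trans_lt h7.1) h7.2)
    refine ⟨_, ?_, par_zero (hτ.mono hsub) h4 (N_mono hsub hφ) h5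
      (mem_N_one.1 (hT0 φ (N_mono hTA hφ)) z h6).self_of_nhds⟩
    exact ⟨_, ⟨h2, le_rfl⟩, lonΦ_ang 0 0 p⟩
  · intro a ha
    obtain ⟨y, hy⟩ := hT1 a (N_mono hTA ha)
    let ι := {i : ℝ × ℝ × ℝ × ℝ // i.1 < i.2.1 ∧ i.2.1 ≤ i.1 + 1 ∧ ρ₁ < i.2.2.1 ∧
      ∀ s ∈ Ioo i.1 i.2.1, x₀ + i.2.2.1 * ex s ∈ B'}
    let O : ι → Set (ℝ × (ℝ × ℝ)) := fun i =>
      Ioo i.1.1 i.1.2.1 ×ˢ (Ioo ρ₁ i.1.2.2.1 ×ˢ Ioo i.1.2.2.2 (i.1.2.2.2 + 1))
    have hOB : ∀ i, ∀ q ∈ O i, x₀ + q.2.1 * ex q.1 ∈ B' := fun i q hq =>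
      star_mem hc h0 (i.2.2.2.2 _ hq.1) (hρ.trans_lt hq.2.1.1) hq.2.1.2.le
    have hOD : ∀ i, O i ⊆ Dom x₀ := fun i q hq => hdom hq.2.1.1 (hOB i q hq)
    have hU : A = T ∪ ⋃ i, lonΦ x₀ '' O i := by
      refine subset_antisymm (fun p hp => Or.inr ?_) (union_subset hTA (iUnion_subset fun i => ?_))
      · obtain ⟨h2, h3⟩ := hpA p hp
        have h4 : {z : ℝ × ℝ | x₀ + z.2 * ex z.1 ∈ B'} ∈ 𝓝 (ang 0 (xc p - x₀), ‖xc p - x₀‖) :=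
          (hB.preimage (by fun_prop)).mem_nhds h3
        obtain ⟨δ, hδ, h5⟩ := Metric.mem_nhds_iff.1 h4
        have hδ' : 0 < min δ (1 / 2) := lt_min hδ (by norm_num)
        have h6 := min_le_left δ (1 / 2)
        have h7 := min_le_right δ (1 / 2)
        refine mem_iUnion.2 ⟨⟨(ang 0 (xc p - x₀) - min δ (1 / 2), ang 0 (xc p - x₀) + min δ (1 / 2),
          ‖xc p - x₀‖ + δ / 2, ang 0 (yc p) - 1 / 2), by simp only; linarith,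
          by simp only; linarith, by simp only; linarith, fun s hs' => ?_⟩, _, ?_, lonΦ_ang 0 0 p⟩
        · refine h5 (a := (s, ‖xc p - x₀‖ + δ / 2)) ?_
          simp only [mem_Ioo] at hs'
          rw [Metric.mem_ball, Prod.dist_eq, max_lt_iff, Real.dist_eq, Real.dist_eq, abs_lt, abs_lt]
          simp only
          refine ⟨⟨?_, ?_⟩, ?_, ?_⟩ <;> linarith [hs'.1, hs'.2]
        · refine ⟨⟨?_, ?_⟩, ⟨h2, ?_⟩, mem_mid _⟩ <;> simp only <;> linarith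
      · rintro _ ⟨q, hq, rfl⟩
        exact hinA hq.2.1.1 (hOB i q hq)
    have hBT : ∀ i, lonΦ x₀ '' O i ∩ T = lonΦ x₀ '' (O i ∩ univ ×ˢ (Iio (ε + r) ×ˢ univ)) := by
      intro i
      ext p
      constructor
      · rintro ⟨⟨q, hq, rfl⟩, h2⟩
        exact ⟨q, ⟨hq, trivial, ((hinT (hOD i hq)).1 h2).2, trivial⟩, rfl⟩
      · rintro ⟨q, ⟨hq, -, h2, -⟩, rfl⟩
        exact ⟨⟨q, hq, rfl⟩, (hinT (hOD i hq)).2 ⟨hq.2.1.1, h2⟩⟩
    have hOc : ∀ i, Convex ℝ (O i) := fun i =>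
      (convex_Ioo _ _).prod ((convex_Ioo _ _).prod (convex_Ioo _ _))
    rw [hU] at hτ ha ⊢
    refine (vert hTo (B := fun i => lonΦ x₀ '' O i) (fun i => ?_) hτ (fun i => ?_)
      (fun i => ?_) (fun i j => ?_) ha hy).imp fun _ hy' => hy'.1
    · refine Cvx.of_normed (hOc i) ⟨isOpen_Ioo.prod (isOpen_Ioo.prod isOpen_Ioo),
        cont_lonΦ.mono (hOD i), fun q hq q' hq' he => ?_,
        fun V hV hs => img_lonΦ hV (hs.trans (hOD i))⟩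
      obtain ⟨h2, ⟨n, h3⟩, n', h4⟩ := inj_lonΦ (hOD i hq) (hOD i hq') he
      exact Prod.ext (int_zero ⟨hq.1.1, hq.1.2.trans_le i.2.2.1⟩
        ⟨hq'.1.1, hq'.1.2.trans_le i.2.2.1⟩ h3) (Prod.ext h2 (int_zero hq.2.2 hq'.2.2 h4))
    · rw [hBT]
      exact ((hOc i).inter (convex_univ.prod ((convex_Iio _).prod convex_univ))).isPreconnected.image
        _ (cont_lonΦ.mono (inter_subset_left.trans (hOD i)))
    · rw [hBT]
      obtain ⟨s, hs'⟩ := nonempty_Ioo.2 i.2.1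
      obtain ⟨ρ, h2, h3⟩ := exists_between (lt_min i.2.2.2.1 (show ρ₁ < ε + r by linarith))
      obtain ⟨t, ht⟩ := nonempty_Ioo.2 (lt_add_one i.1.2.2.2)
      exact ⟨_, (s, ρ, t), ⟨⟨hs', ⟨h2, h3.trans_le (min_le_left _ _)⟩, ht⟩, trivial,
        h3.trans_le (min_le_right _ _), trivial⟩, rfl⟩
    · rintro _ ⟨⟨⟨s, ρ, t⟩, hq, rfl⟩, ⟨s', ρ', t'⟩, hq', he⟩
      obtain ⟨h2, ⟨n, h3⟩, n', h4⟩ := inj_lonΦ (hOD i hq) (hOD j hq') he.symm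
      simp only at h2 h3 h4
      subst h2 h3 h4
      obtain ⟨h5, h6⟩ := hseg s ρ t hq.2.1.1 (hOB i _ hq)
      refine ⟨_, h5, ⟨ρ, ⟨hq.2.1.1, le_rfl⟩, rfl⟩, ?_, h6⟩
      rintro _ ⟨ρ', h7, rfl⟩
      exact ⟨⟨(s, ρ', t), ⟨hq.1, ⟨h7.1, h7.2.trans_lt hq.2.1.2⟩, hq.2.2⟩, rfl⟩,
        (s + n, ρ', t + n'), ⟨hq'.1, ⟨h7.1, h7.2.trans_lt hq'.2.1.2⟩, hq'.2.2⟩,
        lonΦ_int s ρ' t n n'⟩

/-- Holonomy along `lon x₀ r` does not depend on the radius up to conjugation. -/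
theorem isHol_lon_radius {M : Type} [Monoid M] {f : S3 → S3 → M} {x₀ : ℂ} {r₁ r₂ r r' : ℝ}
    (h0 : 0 ≤ r₁) (h1 : ‖x₀‖ + r₂ ≤ 1) (hr : r ∈ Ioo r₁ r₂) (hr' : r' ∈ Ioo r₁ r₂)
    (hf : IsCoc f (RB {x | r₁ < ‖x - x₀‖ ∧ ‖x - x₀‖ < r₂})) {η : M} (h : IsHol f (lon x₀ r) η) :
    ∃ k : Mˣ, IsHol f (lon x₀ r') (k * η * k⁻¹) := by
  have h2 : ∀ t ∈ Ioo r₁ r₂, ‖x₀‖ + |t| ≤ 1 := fun t ht => by
    rw [abs_of_pos (h0.trans_lt ht.1)]; linarith [ht.2]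
  refine IsHol.homotopy isOpen_Ioo (convex_Ioo _ _) (lon_homotopy h2).1
    (lon_homotopy h2).2 (fun q hq => ?_) hf hr hr' h
  show r₁ < ‖xc (lon x₀ q.2 q.1) - x₀‖ ∧ ‖xc (lon x₀ q.2 q.1) - x₀‖ < r₂
  rw [lon_eq, xc_fib ((norm_pol _ _ _).trans (h2 _ hq.2)), norm_pol_sub,
    abs_of_pos (h0.trans_lt hq.2.1)]
  exact hq.2

/-- The holonomy along fibres is constant over a preconnected base. -/
theorem isHolA_fib_const {M : Type} [AddCommGroup M] {f : S3 → S3 → M} {B : Set ℂ}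
    (hB : IsOpen B) (hc : IsPreconnected B) (h1 : ∀ x ∈ B, ‖x‖ < 1) (hf : IsCocA f (RB B))
    {x x' : ℂ} (hx : x ∈ B) (hx' : x' ∈ B) {c : M} (h : IsHolA f (fib x) c) :
    IsHolA f (fib x') c := by
  refine hc.induction₂' (fun a b => IsHolA f (fib a) c → IsHolA f (fib b) c) (fun z hz => ?_)
    (fun _ _ _ _ _ _ h₁ h₂ => h₂ ∘ h₁) hx hx' h
  obtain ⟨ε, hε, hs⟩ := Metric.isOpen_iff.1 hB z hz
  obtain ⟨hcc, him⟩ := isCC_fib Metric.isOpen_ball (convex_ball z ε) fun w hw => h1 w (hs hw)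
  have key : ∀ a ∈ Metric.ball z ε, ∀ b ∈ Metric.ball z ε, IsHolA f (fib a) c →
      IsHolA f (fib b) c := fun a ha b hb =>
    IsHolA.homotopy hcc.isOpen hcc.convex hcc.cont hcc.per
      (fun q hq => RB_mono hs (him ▸ mem_image_of_mem _ hq)) hf ha hb
  filter_upwards [mem_nhdsWithin_of_mem_nhds (Metric.ball_mem_nhds z hε)] with w hw
  exact ⟨key _ (Metric.mem_ball_self hε) _ hw, key _ hw _ (Metric.mem_ball_self hε)⟩

end Pool.Agent.HH
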