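import Pool.Agent.P.MP_c8dc46_gt.Circ

/-!
ROW A6. Gluing lemmas in degree one. The basic tool is `glue_prim`.
-/

open Set Topology

namespace Pool.Agent.HH

variable {Y Y' : Type} [TopologicalSpace Y] [TopologicalSpace Y'] {R E : Type} [CommRing R]
  [AddCommGroup E] [Module R E] {τ : Y → Y → Module.End R E}

namespace RGlue

theorem val_zero {S : Set Y} {φ : List Y → E} (h : φ ∈ N R E 1 S) {p : Y} (hp : p ∈ S) :
    φ [p] = 0 := (mem_N_one.1 h p hp).self_of_nhds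

/-- Changing a primitive by a cochain that vanishes locally. -/
theorem prim_congr {n : ℕ} {S : Set Y} {a y y' : List Y → E} (h : a - dT τ y ∈ N R E (n + 1) S)
    (h' : y' - y ∈ N R E n S) : a - dT τ y' ∈ N R E (n + 1) S := by
  have e : a - dT τ y' = (a - dT τ y) - dT τ (y' - y) := by rw [map_sub]; abel
  rw [e]
  exact Submodule.sub_mem _ h (dT_mem_N τ h')

/-- The difference of two primitives is closed. -/
theorem par_sub {n : ℕ} {S : Set Y} {a y y' : List Y → E} (h : a - dT τ y ∈ N R E n S)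
    (h' : a - dT τ y' ∈ N R E n S) : dT τ (y - y') ∈ N R E n S := by
  have e : dT τ (y - y') = (a - dT τ y') - (a - dT τ y) := by rw [map_sub]; abel
  rw [e]
  exact Submodule.sub_mem _ h' h

/-- An exact cochain is closed. -/
theorem closed_of_prim {n : ℕ} {S : Set Y} (hτ : IsCoc τ S) {a y : List Y → E}
    (h : a - dT τ y ∈ N R E n S) : dT τ a ∈ N R E (n + 1) S := by
  have e : dT τ a = dT τ (a - dT τ y) + dT τ (dT τ y) := by rw [map_sub]; abel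
  rw [e]
  exact Submodule.add_mem _ (dT_mem_N τ h) (dT_dT_mem_N hτ _ _)

theorem mem_N_iUnion {ι : Type} {n : ℕ} {U : ι → Set Y} {φ : List Y → E}
    (h : ∀ i, φ ∈ N R E n (U i)) : φ ∈ N R E n (⋃ i, U i) := by
  refine mem_N_of_forall fun p hp => ?_
  obtain ⟨i, hi⟩ := mem_iUnion.1 hp
  exact ⟨U i, hi, h i⟩

theorem closed_congr {τ' : Y → Y → Module.End R E} {n : ℕ} {S : Set Y} (h : LocEq τ τ' S)
    {a : List Y → E} (ha : dT τ a ∈ N R E n S) : dT τ' a ∈ N R E n S := by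
  have e : dT τ' a = dT τ a - (dT τ a - dT τ' a) := by abel
  rw [e]
  exact Submodule.sub_mem _ ha (dT_congr h n a)

end RGlue

open RGlue

theorem glue_prim {ι : Type} {U : ι → Set Y} (hU : ∀ i, IsOpen (U i)) {y : ι → List Y → E}
    (hy : ∀ i j, y i - y j ∈ N R E 1 (U i ∩ U j)) : ∃ y', ∀ i, y' - y i ∈ N R E 1 (U i) := by
  classical
  refine ⟨c0 fun x => if h : ∃ i, x ∈ U i then y h.choose [x] else 0, fun i => ?_⟩
  refine mem_N_one.2 fun p hp => ?_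
  filter_upwards [(hU i).mem_nhds hp] with x hx
  have h : ∃ i, x ∈ U i := ⟨i, hx⟩
  have h0 := val_zero (hy h.choose i) (p := x) ⟨h.choose_spec, hx⟩
  simpa [c0, dif_pos h] using h0

namespace RGlue

theorem glue_two {U₁ U₂ : Set Y} (h₁ : IsOpen U₁) (h₂ : IsOpen U₂) {y₁ y₂ : List Y → E}
    (hy : y₁ - y₂ ∈ N R E 1 (U₁ ∩ U₂)) :
    ∃ y', y' - y₁ ∈ N R E 1 U₁ ∧ y' - y₂ ∈ N R E 1 U₂ := by
  have := glue_prim (R := R) (U := fun b : Bool => cond b U₁ U₂)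
    (y := fun b : Bool => cond b y₁ y₂) (fun b => by cases b <;> assumption) (by
      intro i j
      cases i <;> cases j
      · simp
      · have := Submodule.neg_mem _ hy
        simpa [inter_comm] using this
      · exact hy
      · simp)
  obtain ⟨y', h⟩ := this
  exact ⟨y', h true, h false⟩

theorem exa_of_prims {U₁ U₂ : Set Y} (h₁ : IsOpen U₁) (h₂ : IsOpen U₂) {a y₁ y₂ : List Y → E}
    (e₁ : a - dT τ y₁ ∈ N R E 2 U₁) (e₂ : a - dT τ y₂ ∈ N R E 2 U₂)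
    (hy : y₁ - y₂ ∈ N R E 1 (U₁ ∩ U₂)) : Exa τ 2 (U₁ ∪ U₂) a := by
  obtain ⟨y', g₁, g₂⟩ := glue_two h₁ h₂ hy
  exact ⟨y', mem_N_union.2 ⟨prim_congr e₁ g₁, prim_congr e₂ g₂⟩⟩

end RGlue

theorem acyc0_of_local {S : Set Y} (hS : IsOpen S)
    (h : ∀ p ∈ S, ∃ V, p ∈ V ∧ V ⊆ S ∧ Acyc0 τ V) : Acyc0 τ S := by
  have _ := hS
  intro φ hφ
  refine mem_N_of_forall fun p hp => ?_
  obtain ⟨V, hpV, hVS, hV⟩ := h p hp
  exact ⟨V, hpV, hV φ (N_mono hVS hφ)⟩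

theorem acyc_iUnion {ι : Type} {U : ι → Set Y} (hU : ∀ i, IsOpen (U i))
    (hτ : IsCoc τ (⋃ i, U i)) (h1 : ∀ i, Acyc τ 2 (U i)) (h0 : ∀ i j, i ≠ j → Acyc0 τ (U i ∩ U j)) :
    Acyc τ 2 (⋃ i, U i) := by
  have _ := hτ
  intro a ha
  choose y hy using fun i => h1 i a (N_mono (subset_iUnion U i) ha)
  obtain ⟨y', hy'⟩ := glue_prim (R := R) hU (y := y) (fun i j => by
    by_cases hij : i = j
    · subst hij; simp
    · exact h0 i j hij _ (par_sub (N_mono inter_subset_left (hy i))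
        (N_mono inter_subset_right (hy j))))
  exact ⟨y', mem_N_iUnion fun i => prim_congr (hy i) (hy' i)⟩

theorem exa_union {U₁ U₂ : Set Y} (h₁ : IsOpen U₁) (h₂ : IsOpen U₂) (h0 : Acyc0 τ (U₁ ∩ U₂))
    {a : List Y → E} (ha₁ : Exa τ 2 U₁ a) (ha₂ : Exa τ 2 U₂ a) : Exa τ 2 (U₁ ∪ U₂) a := by
  obtain ⟨y₁, e₁⟩ := ha₁
  obtain ⟨y₂, e₂⟩ := ha₂
  exact exa_of_prims h₁ h₂ e₁ e₂
    (h0 _ (par_sub (N_mono inter_subset_left e₁) (N_mono inter_subset_right e₂)))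

theorem acyc_union {U₁ U₂ : Set Y} (h₁ : IsOpen U₁) (h₂ : IsOpen U₂) (h0 : Acyc0 τ (U₁ ∩ U₂))
    (ha₁ : Acyc τ 2 U₁) (ha₂ : Acyc τ 2 U₂) : Acyc τ 2 (U₁ ∪ U₂) := fun a ha =>
  exa_union h₁ h₂ h0 (ha₁ a (N_mono subset_union_left ha)) (ha₂ a (N_mono subset_union_right ha))

theorem acyc0_union {U₁ U₂ : Set Y} (h₁ : Acyc0 τ U₁) (h₂ : Acyc0 τ U₂) : Acyc0 τ (U₁ ∪ U₂) :=
  fun φ hφ => mem_N_union.2
    ⟨h₁ φ (N_mono subset_union_left hφ), h₂ φ (N_mono subset_union_right hφ)⟩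

/-- A parallel section on a preconnected set that contains an acyclic part vanishes. -/
theorem Acyc0.of_preconnected {S S' : Set Y} (hτ : IsCoc τ S) (hS : IsPreconnected S)
    (hs : S' ⊆ S) (hne : S'.Nonempty) (h : Acyc0 τ S') : Acyc0 τ S := by
  intro φ hφ
  obtain ⟨p, hp⟩ := hne
  exact par_zero hτ hS hφ (hs hp) (val_zero (h φ (N_mono hs hφ)) hp)

/-- Extension of a primitive from `T` over `Cvx` sets hanging from `T`. -/
theorem vert {ι : Type} {T : Set Y} (hT : IsOpen T) {B : ι → Set Y} (hB : ∀ i, Cvx (B i))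
    (hτ : IsCoc τ (T ∪ ⋃ i, B i)) (hBT : ∀ i, IsPreconnected (B i ∩ T))
    (hne : ∀ i, (B i ∩ T).Nonempty)
    (hc : ∀ i j, ∀ p ∈ B i ∩ B j, ∃ c, IsPreconnected c ∧ p ∈ c ∧ c ⊆ B i ∩ B j ∧ (c ∩ T).Nonempty)
    {a y : List Y → E} (ha : dT τ a ∈ N R E 3 (T ∪ ⋃ i, B i)) (hy : a - dT τ y ∈ N R E 2 T) :
    ∃ y', a - dT τ y' ∈ N R E 2 (T ∪ ⋃ i, B i) ∧ y' - y ∈ N R E 1 T := by
  have hs : ∀ i, B i ⊆ T ∪ ⋃ i, B i := fun i => (subset_iUnion B i).trans subset_union_right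
  have key : ∀ i, ∃ w, a - dT τ w ∈ N R E 2 (B i) ∧ w - y ∈ N R E 1 (B i ∩ T) := by
    intro i
    obtain ⟨z, hz⟩ := (hB i).acyc (hτ.mono (hs i)) (le_refl 2) a (N_mono (hs i) ha)
    obtain ⟨p, hp⟩ := hne i
    obtain ⟨φ, hφ, hv⟩ := (hB i).exists_par (hτ.mono (hs i)) hp.1 ((z - y) [p])
    have hw : a - dT τ (z - φ) ∈ N R E 2 (B i) := by
      have e : a - dT τ (z - φ) = (a - dT τ z) + dT τ φ := by rw [map_sub]; abel
      rw [e]
      exact Submodule.add_mem _ hz hφ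
    refine ⟨z - φ, hw, par_zero (hτ.mono (inter_subset_left.trans (hs i))) (hBT i)
      (par_sub (N_mono inter_subset_left hw) (N_mono inter_subset_right hy)) hp ?_⟩
    simp only [Pi.sub_apply] at hv ⊢
    rw [hv]; abel
  choose w hw hwy using key
  obtain ⟨y', hy'⟩ := glue_prim (R := R) (U := fun o : Option ι => o.elim T B)
    (y := fun o : Option ι => o.elim y w)
    (fun o => by
      cases o with
      | none => exact hT
      | some i => exact (hB i).isOpen) (by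
      intro o o'
      cases o with
      | none =>
        cases o' with
        | none => simp
        | some j =>
          have := Submodule.neg_mem _ (hwy j)
          simpa [inter_comm] using this
      | some i =>
        cases o' with
        | none => exact hwy i
        | some j =>
          refine mem_N_of_forall fun p hp => ?_
          obtain ⟨c, hc₁, hc₂, hc₃, q, hq⟩ := hc i j p hp
          refine ⟨c, hc₂, par_zero (hτ.mono (hc₃.trans (inter_subset_left.trans (hs i)))) hc₁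
            (N_mono hc₃ (par_sub (N_mono inter_subset_left (hw i))
              (N_mono inter_subset_right (hw j)))) hq.1 ?_⟩
          have e₁ := val_zero (hwy i) (p := q) ⟨(hc₃ hq.1).1, hq.2⟩
          have e₂ := val_zero (hwy j) (p := q) ⟨(hc₃ hq.1).2, hq.2⟩
          simp only [Pi.sub_apply, Option.elim_some, sub_eq_zero] at e₁ e₂ ⊢
          rw [e₁, e₂])
  exact ⟨y', mem_N_union.2 ⟨prim_congr hy (hy' none),
    mem_N_iUnion fun i => prim_congr (hw i) (hy' (some i))⟩, hy' none⟩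

namespace RGlue

theorem ext_aux [TopologicalSpace.MetrizableSpace Y] {M Z Sg : Set Y}
    (hZ : IsOpen (M \ Z)) (hSg : IsOpen Sg) (hZS : Z ⊆ Sg) (hτ : IsCoc τ (M \ Z))
    {a : List Y → E} (ha : dT τ a ∈ N R E 3 (M \ Z)) (h₂ : Exa τ 2 (Sg \ Z) a) :
    ∃ a', dT τ a' ∈ N R E 3 M ∧ a' ∈ N R E 2 Z ∧ Exa τ 2 (M \ Z) (a - a') := by
  obtain ⟨φ, hφ⟩ := h₂
  obtain ⟨T, hT₁, hT₂⟩ := exists_cut_open hSg hZ
  have hZT : Z ⊆ (closure T)ᶜ := fun p hp => hT₁ ⟨hZS hp, fun h => h.2 hp⟩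
  have hMT : M \ Sg ⊆ interior T := fun p hp => hT₂ ⟨⟨hp.1, fun h => hp.2 (hZS h)⟩, hp.2⟩
  set b := a - dT τ φ with hb
  have hdb : dT τ b ∈ N R E 3 (M \ Z) := by
    rw [hb, map_sub]
    exact Submodule.sub_mem _ ha (dT_dT_mem_N hτ _ _)
  have h1 : cut R E T b ∈ N R E 2 Z := N_mono hZT (cut_mem_N_compl T 2 b)
  have h2 : cut R E T b ∈ N R E 2 (Sg \ Z) := cut_mem_N T hφ
  have h3 : b - cut R E T b ∈ N R E 2 (M \ Sg) := N_mono hMT (sub_cut_mem_N T (by norm_num) b)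
  refine ⟨cut R E T b, ?_, h1, φ, ?_⟩
  · refine mem_N_of_forall fun p hp => ?_
    by_cases hpZ : p ∈ Z
    · exact ⟨Z, hpZ, dT_mem_N τ h1⟩
    by_cases hpS : p ∈ Sg
    · exact ⟨Sg \ Z, ⟨hpS, hpZ⟩, dT_mem_N τ h2⟩
    refine ⟨M \ Sg, ⟨hp, hpS⟩, ?_⟩
    have e : dT τ (cut R E T b) = dT τ b - dT τ (b - cut R E T b) := by
      rw [map_sub (dT τ) b]; abel
    rw [e]
    exact Submodule.sub_mem _ (N_mono (sdiff_subset_sdiff_right hZS) hdb) (dT_mem_N τ h3)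
  · have e : a - cut R E T b - dT τ φ = b - cut R E T b := by rw [hb]; abel
    rw [e]
    refine mem_N_of_forall fun p hp => ?_
    by_cases hpS : p ∈ Sg
    · exact ⟨Sg \ Z, ⟨hpS, hp.2⟩, Submodule.sub_mem _ hφ h2⟩
    · exact ⟨M \ Sg, ⟨hp.1, hpS⟩, h3⟩

end RGlue

/-- Excision. -/
theorem excise [TopologicalSpace.MetrizableSpace Y] {M Z Sg : Set Y} (hM : IsOpen M)
    (hZ : IsOpen (M \ Z)) (hSg : IsOpen Sg) (hZS : Z ⊆ Sg) (hSM : Sg ⊆ M) (hτ : IsCoc τ M)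
    (h₁ : Acyc τ 2 M) (h₂ : Acyc τ 2 (Sg \ Z)) : Acyc τ 2 (M \ Z) := by
  have _ := hM
  intro a ha
  obtain ⟨a', h1, -, h3⟩ := ext_aux hZ hSg hZS (hτ.mono sdiff_subset) ha
    (h₂ a (N_mono (sdiff_subset_sdiff_left hSM) ha))
  simpa using h3.add ((h₁ a' h1).mono sdiff_subset)

/-- Extension of a cocycle across `Z` up to a coboundary. -/
theorem excise_ext [TopologicalSpace.MetrizableSpace Y] {M Z Sg : Set Y} (hM : IsOpen M)
    (hZ : IsOpen (M \ Z)) (hSg : IsOpen Sg) (hZS : Z ⊆ Sg) (hSM : Sg ⊆ M) (hτ : IsCoc τ (M \ Z))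
    {a : List Y → E} (ha : dT τ a ∈ N R E 3 (M \ Z)) (h₂ : Exa τ 2 (Sg \ Z) a) :
    ∃ a', dT τ a' ∈ N R E 3 M ∧ a' ∈ N R E 2 Z ∧ Exa τ 2 (M \ Z) (a - a') := by
  have _ := hM
  have _ := hSM
  exact ext_aux hZ hSg hZS hτ ha h₂

theorem exists_conn [TopologicalSpace.MetrizableSpace Y] {U₁ U₂ : Set Y} (h₁ : IsOpen U₁)
    (h₂ : IsOpen U₂) (hτ : IsCoc τ (U₁ ∪ U₂)) {σ : List Y → E}
    (hσ : dT τ σ ∈ N R E 2 (U₁ ∩ U₂)) :
    ∃ a, dT τ a ∈ N R E 3 (U₁ ∪ U₂) ∧ Conn τ U₁ U₂ a σ := by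
  obtain ⟨T, hT₁, hT₂⟩ := exists_cut_open h₁ h₂
  set a := dT τ (cut R E T σ) - cut R E T (dT τ σ) with ha
  have e₁ : a - dT τ (cut R E T σ) ∈ N R E 2 U₁ := by
    have e : a - dT τ (cut R E T σ) = -cut R E T (dT τ σ) := by rw [ha]; abel
    rw [e, ← inter_union_sdiff U₁ U₂]
    exact Submodule.neg_mem _
      (mem_N_union.2 ⟨cut_mem_N T hσ, N_mono hT₁ (cut_mem_N_compl T 2 _)⟩)
  have e₂ : a - dT τ (cut R E T σ - σ) ∈ N R E 2 U₂ := by
    have e : a - dT τ (cut R E T σ - σ) = dT τ σ - cut R E T (dT τ σ) := by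
      rw [ha, map_sub]; abel
    rw [e, ← inter_union_sdiff U₂ U₁, inter_comm]
    exact mem_N_union.2 ⟨Submodule.sub_mem _ hσ (cut_mem_N T hσ),
      N_mono hT₂ (sub_cut_mem_N T (by norm_num) _)⟩
  refine ⟨a, mem_N_union.2 ⟨closed_of_prim (hτ.mono subset_union_left) e₁,
    closed_of_prim (hτ.mono subset_union_right) e₂⟩, _, _, e₁, e₂, ?_⟩
  simp

theorem Conn.exa_sub {U₁ U₂ : Set Y} (h₁ : IsOpen U₁) (h₂ : IsOpen U₂) {a a' σ σ' : List Y → E}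
    (h : Conn τ U₁ U₂ a σ) (h' : Conn τ U₁ U₂ a' σ') (c : R)
    (hσ : σ - c • σ' ∈ N R E 1 (U₁ ∩ U₂)) : Exa τ 2 (U₁ ∪ U₂) (a - c • a') := by
  obtain ⟨α, β, e₁, e₂, e₃⟩ := h
  obtain ⟨α', β', f₁, f₂, f₃⟩ := h'
  have key : ∀ (S : Set Y) (u u' : List Y → E), a - dT τ u ∈ N R E 2 S →
      a' - dT τ u' ∈ N R E 2 S → a - c • a' - dT τ (u - c • u') ∈ N R E 2 S := by
    intro S u u' g g'
    have e : a - c • a' - dT τ (u - c • u') = (a - dT τ u) - c • (a' - dT τ u') := by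
      rw [map_sub, map_smul, smul_sub]; abel
    rw [e]
    exact Submodule.sub_mem _ g (Submodule.smul_mem _ _ g')
  refine exa_of_prims h₁ h₂ (key _ _ _ e₁ f₁) (key _ _ _ e₂ f₂) ?_
  have e : α - c • α' - (β - c • β') = (α - β - σ) - c • (α' - β' - σ') + (σ - c • σ') := by
    rw [smul_sub, smul_sub]; abel
  rw [e]
  exact Submodule.add_mem _ (Submodule.sub_mem _ e₃ (Submodule.smul_mem _ _ f₃)) hσ

theorem exists_conn_of_acyc {U₁ U₂ : Set Y} (h₁ : Acyc τ 2 U₁) (h₂ : Acyc τ 2 U₂)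
    {a : List Y → E} (ha : dT τ a ∈ N R E 3 (U₁ ∪ U₂)) :
    ∃ σ, dT τ σ ∈ N R E 2 (U₁ ∩ U₂) ∧ Conn τ U₁ U₂ a σ := by
  obtain ⟨α, e₁⟩ := h₁ a (N_mono subset_union_left ha)
  obtain ⟨β, e₂⟩ := h₂ a (N_mono subset_union_right ha)
  exact ⟨α - β, par_sub (N_mono inter_subset_left e₁) (N_mono inter_subset_right e₂),
    α, β, e₁, e₂, by simp⟩

theorem Conn.zero_of_exa {U₁ U₂ : Set Y} (h₁ : Acyc0 τ U₁) (h₂ : Acyc0 τ U₂) {a σ : List Y → E}
    (h : Conn τ U₁ U₂ a σ) (ha : Exa τ 2 (U₁ ∪ U₂) a) : σ ∈ N R E 1 (U₁ ∩ U₂) := by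
  obtain ⟨α, β, e₁, e₂, e₃⟩ := h
  obtain ⟨φ, hφ⟩ := ha
  have g₁ := h₁ _ (par_sub e₁ (N_mono subset_union_left hφ))
  have g₂ := h₂ _ (par_sub e₂ (N_mono subset_union_right hφ))
  have e : σ = (α - φ) - (β - φ) - (α - β - σ) := by abel
  rw [e]
  exact Submodule.sub_mem _
    (Submodule.sub_mem _ (N_mono inter_subset_left g₁) (N_mono inter_subset_right g₂)) e₃

theorem Conn.cm {E' : Type} [AddCommGroup E'] [Module R E'] (π : E →ₗ[R] E')
    {τ' : Y → Y → Module.End R E'} (hπ : ∀ x y e, π (τ x y e) = τ' x y (π e)) {U₁ U₂ : Set Y}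
    {a σ : List Y → E} (h : Conn τ U₁ U₂ a σ) : Conn τ' U₁ U₂ (cm π a) (cm π σ) := by
  obtain ⟨α, β, e₁, e₂, e₃⟩ := h
  refine ⟨HH.cm π α, HH.cm π β, ?_, ?_, ?_⟩
  · rw [← cm_dT π τ τ' hπ, ← map_sub]; exact cm_mem_N π e₁
  · rw [← cm_dT π τ τ' hπ, ← map_sub]; exact cm_mem_N π e₂
  · rw [← map_sub, ← map_sub]; exact cm_mem_N π e₃

theorem Conn.congr_exa {U₁ U₂ : Set Y} {a a' σ : List Y → E} (h : Conn τ U₁ U₂ a σ)
    (ha : Exa τ 2 (U₁ ∪ U₂) (a - a')) : Conn τ U₁ U₂ a' σ := by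
  obtain ⟨α, β, e₁, e₂, e₃⟩ := h
  obtain ⟨φ, hφ⟩ := ha
  have e : ∀ u, a' - dT τ (u - φ) = (a - dT τ u) - (a - a' - dT τ φ) := fun u => by
    rw [map_sub]; abel
  refine ⟨α - φ, β - φ, ?_, ?_, ?_⟩
  · rw [e]; exact Submodule.sub_mem _ e₁ (N_mono subset_union_left hφ)
  · rw [e]; exact Submodule.sub_mem _ e₂ (N_mono subset_union_right hφ)
  · rwa [sub_sub_sub_cancel_right]

/-- Two acyclic pieces meeting in a circle chart whose holonomy has a one dimensional fixed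
space. -/
theorem oneGen_of_two [TopologicalSpace.MetrizableSpace Y] {W : Type} [NormedAddCommGroup W]
    [NormedSpace ℝ W] [FiniteDimensional ℝ W] {Φ : ℝ × W → Y} {O : Set W} (h : IsCC Φ O)
    {U₁ U₂ : Set Y} (h₁ : IsOpen U₁) (h₂ : IsOpen U₂) (hU : U₁ ∩ U₂ = Φ '' (univ ×ˢ O))
    (hτ : IsCoc τ (U₁ ∪ U₂)) (a0₁ : Acyc0 τ U₁) (a0₂ : Acyc0 τ U₂) (a1₁ : Acyc τ 2 U₁)
    (a1₂ : Acyc τ 2 U₂) {o : W} (ho : o ∈ O) {η : Module.End R E}
    (hη : IsHol τ (fun s => Φ (s, o)) η) {e₀ : E} (he₀ : e₀ ≠ 0)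
    (hk : ∀ e, η e = e → ∃ κ : R, e = κ • e₀) {a σ : List Y → E}
    (ha : dT τ a ∈ N R E 3 (U₁ ∪ U₂)) (hσ : dT τ σ ∈ N R E 2 (U₁ ∩ U₂)) (hc : Conn τ U₁ U₂ a σ)
    (hv : σ [Φ (0, o)] = e₀) : OneGen τ (U₁ ∪ U₂) a := by
  have hp : Φ (0, o) ∈ U₁ ∩ U₂ := hU ▸ ⟨(0, o), ⟨mem_univ _, ho⟩, rfl⟩
  refine ⟨ha, fun hx => he₀ (hv ▸ val_zero (hc.zero_of_exa a0₁ a0₂ hx) hp), fun b hb => ?_⟩
  obtain ⟨σ', hσ', hc'⟩ := exists_conn_of_acyc a1₁ a1₂ hb
  obtain ⟨κ, hκ⟩ := hk _ (h.par_fixed ho hη (hU ▸ hσ'))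
  refine ⟨κ, hc'.exa_sub h₁ h₂ hc κ ?_⟩
  refine par_zero (hτ.mono (inter_subset_left.trans subset_union_left)) (hU ▸ h.isPreconnected)
    ?_ hp ?_
  · rw [map_sub, map_smul]
    exact Submodule.sub_mem _ hσ' (Submodule.smul_mem _ _ hσ)
  · simp only [Pi.sub_apply, Pi.smul_apply, hv, hκ, sub_self]

/-- Product lemma in degree one. -/
theorem prod_one {M : Set Y} (hM : IsOpen M)
    (hloc : ∀ p ∈ M, ∀ U ∈ 𝓝 p, ∃ V, Cvx V ∧ p ∈ V ∧ V ⊆ U) {I : Set ℝ} (hI : IsOpen I)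
    (hc : Convex ℝ I) {t₀ : ℝ} (ht : t₀ ∈ I) (hτ : IsCoc τ M) {y : List (Y × ℝ) → E}
    (hy : dT (pb Prod.fst τ) y ∈ N R E 3 (M ×ˢ I)) :
    Exa (pb Prod.fst τ) 2 (M ×ˢ I)
      (y - pull R E Prod.fst (pull R E (fun p : Y => (p, t₀)) y)) := by
  set s : Y → Y × ℝ := fun p => (p, t₀) with hs
  have hsc : Continuous s := by fun_prop
  have hds : ∀ z : List (Y × ℝ) → E,
      pull R E s (dT (pb Prod.fst τ) z) = dT τ (pull R E s z) := fun z => pull_dT s _ z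
  have hsp : ∀ z : List Y → E, pull R E s (pull R E Prod.fst z) = z := fun z => by
    rw [pull_pull]
    funext l
    exact congrArg z (List.map_id l)
  have hP : ∀ (V : Set Y) (n : ℕ) (z : List (Y × ℝ) → E), z ∈ N R E n (V ×ˢ I) →
      pull R E Prod.fst (pull R E s z) ∈ N R E n (V ×ˢ I) := fun V n z hz =>
    pull_mem_N (S := V) (fun _ _ => continuous_fst.continuousAt) (fun _ h => h.1)
      (pull_mem_N (fun _ _ => hsc.continuousAt) (fun _ h => mk_mem_prod h ht) hz)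
  have hdP : ∀ z : List (Y × ℝ) → E,
      dT (pb (Prod.fst : Y × ℝ → Y) τ) (pull R E Prod.fst (pull R E s z)) =
      pull R E Prod.fst (pull R E s (dT (pb Prod.fst τ) z)) := fun z => by
    rw [hds, pull_dT]
  have hτ' : IsCoc (pb (Prod.fst : Y × ℝ → Y) τ) (M ×ˢ I) :=
    hτ.pb (fun _ _ => continuous_fst.continuousAt) (fun _ h => h.1)
  set b := y - pull R E Prod.fst (pull R E s y) with hb
  have hdb : dT (pb Prod.fst τ) b ∈ N R E 3 (M ×ˢ I) := by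
    rw [hb, map_sub, hdP]
    exact Submodule.sub_mem _ hy (hP _ _ _ hy)
  have hsb : pull R E s b = 0 := by rw [hb, map_sub, hsp, sub_self]
  have key : ∀ V : {V : Set Y // Cvx V ∧ V ⊆ M}, ∃ w,
      b - dT (pb Prod.fst τ) w ∈ N R E 2 (V.1 ×ˢ I) ∧ ∀ p, w [(p, t₀)] = 0 := by
    rintro ⟨V, hV, hVM⟩
    have hsub : V ×ˢ I ⊆ M ×ˢ I := prod_mono hVM Subset.rfl
    obtain ⟨z, hz⟩ := (hV.prod hI hc).acyc (hτ'.mono hsub) (le_refl 2) b (N_mono hsub hdb)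
    refine ⟨z - pull R E Prod.fst (pull R E s z), ?_, fun p => sub_self _⟩
    have h1 := hP _ _ _ hz
    rw [map_sub, hsb, zero_sub, map_neg, ← hdP] at h1
    have e : b - dT (pb Prod.fst τ) (z - pull R E Prod.fst (pull R E s z)) =
        (b - dT (pb Prod.fst τ) z) - -dT (pb Prod.fst τ) (pull R E Prod.fst (pull R E s z)) := by
      rw [map_sub]; abel
    rw [e]
    exact Submodule.sub_mem _ hz h1
  choose w hw hw0 using key
  obtain ⟨y', hy'⟩ := glue_prim (R := R) (U := fun V : {V : Set Y // Cvx V ∧ V ⊆ M} => V.1 ×ˢ I)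
    (y := w) (fun V => V.2.1.isOpen.prod hI) (by
      intro V V'
      refine mem_N_of_forall fun q hq => ?_
      have hsub : ({q.1} : Set Y) ×ˢ I ⊆ V.1 ×ˢ I ∩ V'.1 ×ˢ I := by
        rintro ⟨p, t⟩ ⟨rfl, h⟩
        exact ⟨⟨hq.1.1, h⟩, ⟨hq.2.1, h⟩⟩
      refine ⟨{q.1} ×ˢ I, ⟨rfl, hq.1.2⟩, par_zero
        (hτ'.mono (hsub.trans (inter_subset_left.trans (prod_mono V.2.2 Subset.rfl))))
        (isPreconnected_singleton.prod hc.isPreconnected)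
        (N_mono hsub (par_sub (N_mono inter_subset_left (hw V))
          (N_mono inter_subset_right (hw V')))) (p := (q.1, t₀)) ⟨rfl, ht⟩ ?_⟩
      simp only [Pi.sub_apply, hw0, sub_self])
  refine ⟨y', mem_N_of_forall fun q hq => ?_⟩
  obtain ⟨V, hV, hpV, hVM⟩ := hloc q.1 hq.1 M (hM.mem_nhds hq.1)
  exact ⟨V ×ˢ I, ⟨hpV, hq.2⟩, prim_congr (hw ⟨V, hV, hVM⟩) (hy' ⟨V, hV, hVM⟩)⟩

theorem Cut.congr {τ' : Y → Y → Module.End R E} {M Sg : Set Y} (h : Cut τ M Sg)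
    (h' : LocEq τ τ' Sg) : Cut τ' M Sg := by
  intro a K hK hKM ha haK
  obtain ⟨φ, K', h1, h2, h3, h4⟩ := h a K hK hKM (closed_congr h'.symm ha) haK
  refine ⟨φ, K', h1, h2, ?_, h4⟩
  have e : a - dT τ' φ = (a - dT τ φ) + (dT τ φ - dT τ' φ) := by abel
  rw [e]
  exact Submodule.add_mem _ h3 (dT_congr h' 2 φ)

theorem cut_of_compact {M Sg K₀ : Set Y} (hK : IsCompact K₀) (h₁ : Sg ⊆ K₀) (h₂ : K₀ ⊆ M)
    (h : Acyc τ 2 Sg) : Cut τ M Sg := by
  intro a K _ _ ha _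
  obtain ⟨φ, hφ⟩ := h a ha
  refine ⟨φ, K₀, hK, h₂, hφ, ?_⟩
  rw [sdiff_eq_empty.2 h₁]
  exact mem_N_empty _ _

theorem Cut.iUnion {ι : Type} [Finite ι] {M : Set Y} {Sg : ι → Set Y} (ho : ∀ i, IsOpen (Sg i))
    (hd : Pairwise fun i j => Disjoint (Sg i) (Sg j)) (h : ∀ i, Cut τ M (Sg i)) :
    Cut τ M (⋃ i, Sg i) := by
  intro a K hK hKM ha haK
  choose φ K' h1 h2 h3 h4 using fun i => h i a K hK hKM (N_mono (subset_iUnion Sg i) ha)
    (N_mono (sdiff_subset_sdiff_left (subset_iUnion Sg i)) haK)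
  obtain ⟨y', hy'⟩ := glue_prim (R := R) ho (y := φ) (fun i j => by
    by_cases hij : i = j
    · subst hij; simp
    · rw [(hd hij).inter_eq]; exact mem_N_empty _ _)
  refine ⟨y', ⋃ i, K' i, isCompact_iUnion h1, iUnion_subset h2,
    mem_N_iUnion fun i => prim_congr (h3 i) (hy' i), mem_N_of_forall fun p hp => ?_⟩
  obtain ⟨i, hi⟩ := mem_iUnion.1 hp.1
  refine ⟨Sg i \ K' i, ⟨hi, fun hk => hp.2 (mem_iUnion.2 ⟨i, hk⟩)⟩, ?_⟩
  simpa using Submodule.add_mem _ (N_mono sdiff_subset (hy' i)) (h4 i)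

theorem Cut.union {M S₁ S₂ : Set Y} (h₁ : IsOpen S₁) (h₂ : IsOpen S₂) (hd : Disjoint S₁ S₂)
    (c₁ : Cut τ M S₁) (c₂ : Cut τ M S₂) : Cut τ M (S₁ ∪ S₂) := by
  rw [union_eq_iUnion]
  refine Cut.iUnion (fun b => by cases b <;> assumption) ?_ (fun b => by cases b <;> assumption)
  intro i j hij
  cases i <;> cases j
  · exact absurd rfl hij
  · exact hd.symm
  · exact hd
  · exact absurd rfl hij

theorem Cut.homeo [T2Space Y] [T2Space Y'] (H : Y' ≃ₜ Y) {M Sg : Set Y'}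
    (h : Cut (pb H τ) M Sg) : Cut τ (H '' M) (H '' Sg) := by
  intro a K hK hKM ha haK
  have hc : ∀ S : Set Y', ∀ p ∈ S, ContinuousAt H p := fun _ _ _ => H.continuous.continuousAt
  have hc' : ∀ S : Set Y, ∀ p ∈ S, ContinuousAt H.symm p :=
    fun _ _ _ => H.symm.continuous.continuousAt
  obtain ⟨φ, K', h1, h2, h3, h4⟩ := h (pull R E H a) (H ⁻¹' K) (H.isCompact_preimage.2 hK)
    (fun p hp => by simpa using hKM hp)
    (by rw [← pull_dT]; exact pull_mem_N (hc _) (mapsTo_image _ _) ha)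
    (pull_mem_N (hc _) (fun p hp => mem_sdiff_of_mem (mem_image_of_mem _ hp.1) hp.2) haK)
  refine ⟨pull R E H.symm φ, H '' K', h1.image H.continuous, image_mono h2, ?_, ?_⟩
  · have h5 := pull_mem_N (S' := H '' Sg) (hc' _) (by rintro _ ⟨p, hp, rfl⟩; simpa using hp) h3
    have e₁ : pull R E H.symm (pull R E H a) = a := by
      rw [pull_pull, H.self_comp_symm]
      funext l
      exact congrArg a (List.map_id l)
    have e₂ : pb H.symm (pb H τ) = τ := by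
      funext x y
      simp [pb]
    rwa [map_sub, pull_dT, e₁, e₂] at h5
  · refine pull_mem_N (hc' _) ?_ h4
    rintro _ ⟨⟨p, hp, rfl⟩, hk⟩
    rw [H.symm_apply_apply]
    exact ⟨hp, fun h => hk (mem_image_of_mem _ h)⟩

theorem OneGen.congr {τ' : Y → Y → Module.End R E} {S : Set Y} {a : List Y → E}
    (h : OneGen τ S a) (h' : LocEq τ τ' S) : OneGen τ' S a := by
  refine ⟨closed_congr h' h.1, fun hx => h.2.1 (hx.congr h'.symm), fun b hb => ?_⟩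
  obtain ⟨κ, hκ⟩ := h.2.2 b (closed_congr h'.symm hb)
  exact ⟨κ, hκ.congr h'⟩

theorem OneGen.congr_exa {S : Set Y} (hτ : IsCoc τ S) {a a' : List Y → E} (h : OneGen τ S a)
    (h' : Exa τ 2 S (a - a')) : OneGen τ S a' := by
  refine ⟨?_, fun hx => h.2.1 (by simpa using h'.add hx), fun b hb => ?_⟩
  · obtain ⟨φ, hφ⟩ := h'
    have h1 := closed_of_prim hτ hφ
    rw [map_sub] at h1
    simpa using Submodule.sub_mem _ h.1 h1
  · obtain ⟨κ, hκ⟩ := h.2.2 b hb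
    refine ⟨κ, ?_⟩
    have e : b - κ • a' = (b - κ • a) + κ • (a - a') := by rw [smul_sub]; abel
    rw [e]
    exact hκ.add (h'.smul κ)

namespace RGlue

variable {E' : Type} [AddCommGroup E'] [Module R E'] {τ' : Y → Y → Module.End R E'} {S : Set Y}

theorem ga_closed {U : Y → E →ₗ[R] E'}
    (hU : LocEq (fun x y => U x ∘ₗ τ x y) (fun x y => τ' x y ∘ₗ U y) S) {n : ℕ}
    {a : List Y → E} (ha : dT τ a ∈ N R E n S) : dT τ' (ga U a) ∈ N R E' n S := by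
  simpa using Submodule.sub_mem _ (ga_mem_N U ha) (ga_dT_mem_N hU n a)

theorem ga_exa {U : Y → E →ₗ[R] E'}
    (hU : LocEq (fun x y => U x ∘ₗ τ x y) (fun x y => τ' x y ∘ₗ U y) S) {n : ℕ}
    {a : List Y → E} (ha : Exa τ n S a) : Exa τ' n S (ga U a) := by
  obtain ⟨φ, hφ⟩ := ha
  refine ⟨ga U φ, ?_⟩
  have h1 := ga_mem_N U hφ
  rw [map_sub] at h1
  simpa using Submodule.add_mem _ h1 (ga_dT_mem_N hU n φ)

theorem ga_ga (U : Y → E ≃ₗ[R] E') (S : Set Y) (a : List Y → E) :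
    a - ga (fun x => ((U x).symm : E' →ₗ[R] E)) (ga (fun x => (U x : E →ₗ[R] E')) a) ∈
      N R E 2 S :=
  mem_N_two.2 fun _ _ => ⟨univ, Filter.univ_mem, fun x _ y _ => by simp [ga, gaF]⟩

theorem ga_symm (U : Y → E ≃ₗ[R] E')
    (hU : LocEq (fun x y => (U x : E →ₗ[R] E') ∘ₗ τ x y)
      (fun x y => τ' x y ∘ₗ (U y : E →ₗ[R] E')) S) :
    LocEq (fun x y => ((U x).symm : E' →ₗ[R] E) ∘ₗ τ' x y)
      (fun x y => τ x y ∘ₗ ((U y).symm : E' →ₗ[R] E)) S := by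
  intro p hp
  obtain ⟨V, hV, h⟩ := hU p hp
  refine ⟨V, hV, fun x hx y hy => LinearMap.ext fun e => ?_⟩
  have h1 := LinearMap.congr_fun (h x hx y hy) ((U y).symm e)
  simp only [LinearMap.comp_apply, LinearEquiv.coe_coe, LinearEquiv.apply_symm_apply] at h1 ⊢
  rw [← h1, LinearEquiv.symm_apply_apply]

end RGlue

theorem OneGen.gauge {E' : Type} [AddCommGroup E'] [Module R E'] {τ' : Y → Y → Module.End R E'}
    {S : Set Y} (U : Y → E ≃ₗ[R] E')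
    (hU : LocEq (fun x y => (U x : E →ₗ[R] E') ∘ₗ τ x y) (fun x y => τ' x y ∘ₗ (U y : E →ₗ[R] E')) S)
    {a : List Y → E} (h : OneGen τ S a) :
    OneGen τ' S (ga (fun x => (U x : E →ₗ[R] E')) a) := by
  have hV := ga_symm U hU
  refine ⟨ga_closed hU h.1, fun hx => h.2.1 ?_, fun b hb => ?_⟩
  · simpa using (Exa.of_mem_N (τ := τ) (ga_ga U S a)).add (ga_exa hV hx)
  · obtain ⟨κ, hκ⟩ := h.2.2 _ (ga_closed hV hb)
    refine ⟨κ, ?_⟩
    have h1 := ga_exa hU hκ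
    rw [map_sub, map_smul] at h1
    have h2 := Exa.of_mem_N (τ := τ') (ga_ga (fun x => (U x).symm) S b)
    simpa using h2.add h1

theorem OneGen.image {Φ : Y' → Y} {O : Set Y'} (h : OE Φ O) {a : List Y' → E}
    (ha : OneGen (pb Φ τ) O a) : ∃ a', OneGen τ (Φ '' O) a' := by
  have hne : O.Nonempty := by
    rw [nonempty_iff_ne_empty]
    rintro rfl
    exact ha.2.1 (Exa.of_mem_N (mem_N_empty _ _))
  have : Nonempty Y' := ⟨hne.some⟩
  obtain ⟨Ψ, -, h1, -⟩ := h.exists_inv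
  have h2 : pull R E Φ (pull R E Ψ a) - a ∈ N R E 2 O := by
    rw [pull_pull]
    refine pull_sub_mem_N (fun p hp => ?_) 2 a
    filter_upwards [h.isOpen.mem_nhds hp] with x hx using h1 x hx
  refine ⟨pull R E Ψ a, ?_, fun hx => ha.2.1 ?_, fun b hb => ?_⟩
  · rw [← h.pull_mem_N_iff Subset.rfl, pull_dT]
    have h3 := dT_mem_N (pb Φ τ) h2
    rw [map_sub] at h3
    simpa using Submodule.add_mem _ h3 ha.1
  · simpa using ((h.exa_iff τ 2 _).2 hx).sub (Exa.of_mem_N h2)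
  · rw [← h.pull_mem_N_iff Subset.rfl, pull_dT] at hb
    obtain ⟨κ, hκ⟩ := ha.2.2 _ hb
    refine ⟨κ, (h.exa_iff τ 2 _).1 ?_⟩
    have e : pull R E Φ (b - κ • pull R E Ψ a) =
        (pull R E Φ b - κ • a) - κ • (pull R E Φ (pull R E Ψ a) - a) := by
      rw [map_sub, map_smul, smul_sub]; abel
    rw [e]
    exact hκ.sub ((Exa.of_mem_N h2).smul κ)

end Pool.Agent.HH
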