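import Pool.Agent.P.MP_c8dc46_gt.Mer
import Pool.Agent.P.MP_c8dc46_gt.Int3

/-!
The exterior of an annulus has no cohomology in degrees two and three: the compactly supported
cohomology vanishes in degrees one and two, and duality applies.
-/

open Set Topology

namespace Pool.Agent.HH

variable {C D : ℝ → S3} {A : ℝ → ℝ → Y4} {F : Type} [Field F]

namespace RH23

theorem exists_bound {K : Set Y4} (hK : IsCompact K) :
    ∃ R : ℝ, 1 ≤ R ∧ ∀ p ∈ K, |p.2| ≤ R := by
  obtain ⟨B, hB⟩ := (hK.image (continuous_abs.comp continuous_snd)).bddAbove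
  refine ⟨max 1 B, le_max_left _ _, fun p hp => le_trans ?_ (le_max_right _ _)⟩
  exact hB ⟨p, hp, rfl⟩

theorem mem_Cc {n : ℕ} {Z : Set Y4} {R : ℝ} {φ : List Y4 → F}
    (h : φ ∈ N F F n (Z ∪ {p : Y4 | R < |p.2|})) : φ ∈ Cc F F n Zᶜ := by
  obtain ⟨V, hV, hs, hφ⟩ := exists_open_of_mem_N h
  refine ⟨Vᶜ, ?_, compl_subset_compl.2 fun p hp => hs (Or.inl hp), by rwa [compl_compl]⟩
  have hc : IsCompact ((univ : Set S3) ×ˢ Icc (-R) R) := isCompact_univ.prod isCompact_Icc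
  refine hc.of_isClosed_subset hV.isClosed_compl fun p hp => ⟨mem_univ _, ?_⟩
  have : ¬ R < |p.2| := fun h' => hp (hs (Or.inr h'))
  exact abs_le.1 (not_lt.1 this)

theorem dT_c0 (w : Y4 → F) (x y : Y4) : dT (triv F F Y4) (c0 w) [x, y] = w y - w x := by
  rw [dT_two]
  simp [triv, c0]

theorem snd_eq (h : IsAnn C D A) {s t : ℝ} (ht : 1 ≤ |t|) : (A s t).2 = t := by
  rcases le_total 0 t with h0 | h0
  · rw [abs_of_nonneg h0] at ht
    rw [h.high s t ht]
  · rw [h.low s t h0]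

theorem abs_snd_lt (h : IsAnn C D A) {s t R : ℝ} (hR : 1 ≤ R) (ht : R < |(A s t).2|) :
    (A s t).2 = t := by
  by_cases h1 : 1 ≤ |t|
  · exact snd_eq h h1
  · rcases le_or_gt t 0 with h0 | h0
    · rw [h.low s t h0]
    · have h2 : t < 1 := lt_of_le_of_lt (le_abs_self t) (not_le.1 h1)
      obtain ⟨h3, h4⟩ := h.mid s t h0 h2
      rw [abs_of_pos h3] at ht
      linarith

theorem preconn (h : IsAnn C D A) {R : ℝ} (hR : 1 ≤ R) :
    IsPreconnected (rng A ∪ {p : Y4 | R < |p.2|}) := by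
  have e : rng A ∪ {p : Y4 | R < |p.2|} =
      (rng A ∪ (univ : Set S3) ×ˢ Ioi R) ∪ (rng A ∪ (univ : Set S3) ×ˢ Iio (-R)) := by
    ext p
    simp only [mem_union, mem_ofPred_eq, mem_prod, mem_univ, true_and, mem_Ioi, mem_Iio, lt_abs]
    constructor
    · rintro (h1 | h1 | h1)
      · exact Or.inl (Or.inl h1)
      · exact Or.inl (Or.inr h1)
      · exact Or.inr (Or.inr (by linarith))
    · rintro ((h1 | h1) | h1 | h1)
      · exact Or.inl h1
      · exact Or.inr (Or.inl h1)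
      · exact Or.inl h1
      · exact Or.inr (Or.inr (by linarith))
  have m : ∀ t, A 0 t ∈ rng A := fun t => ⟨(0, t), rfl⟩
  have h₁ : IsPreconnected (rng A ∪ (univ : Set S3) ×ˢ Ioi R) := by
    refine h.isPreconnected.union (A 0 (R + 1)) (m _) ⟨mem_univ _, ?_⟩
      (isPreconnected_univ.prod isPreconnected_Ioi)
    rw [h.high 0 (R + 1) (by linarith)]
    simp
  have h₂ : IsPreconnected (rng A ∪ (univ : Set S3) ×ˢ Iio (-R)) := by
    refine h.isPreconnected.union (A 0 (-R - 1)) (m _) ⟨mem_univ _, ?_⟩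
      (isPreconnected_univ.prod isPreconnected_Iio)
    rw [h.low 0 (-R - 1) (by linarith)]
    simp
  rw [e]
  exact h₁.union (A 0 0) (Or.inl (m _)) (Or.inl (m _)) h₂

omit [Field F] in
/-- A function that is locally constant at the points of a preconnected set is constant on it. -/
theorem const_on {Z : Type} [TopologicalSpace Z] {S : Set Z} (hS : IsPreconnected S) {k : Z → F}
    (hk : ∀ p ∈ S, ∃ U ∈ 𝓝 p, ∀ x ∈ U, k x = k p) {x y : Z} (hx : x ∈ S) (hy : y ∈ S) :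
    k x = k y := by
  refine hS.induction₂' (fun a b => k a = k b) (fun p hp => ?_)
    (fun _ _ _ _ _ _ h1 h2 => h1.trans h2) hx hy
  obtain ⟨U, hU, h1⟩ := hk p hp
  exact Filter.mem_of_superset (mem_nhdsWithin_of_mem_nhds hU)
    fun z hz => ⟨(h1 z hz).symm, h1 z hz⟩

/-- A cocycle near the annulus that vanishes near the ends has a primitive near the annulus
that is constant on each end. -/
theorem exists_prim (h : IsAnn C D A) {β : Y4 → Y4 → F} (hβ : IsCocA β (rng A)) {R : ℝ}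
    (hR : 1 ≤ R) (h0 : LocEq β (fun _ _ => 0) {p : Y4 | R < |p.2|}) :
    ∃ (γ : Y4 → F) (c₀ : F), LocEq β (fun x y => γ y - γ x) (rng A) ∧
      (∀ p ∈ rng A, p.2 < -R → γ p = 0) ∧ ∀ p ∈ rng A, R < p.2 → γ p = c₀ := by
  classical
  set a : ℝ × ℝ → Y4 := fun q => A q.1 q.2 with ha
  have hco : IsCocA (pb a β) (univ : Set (ℝ × ℝ)) :=
    hβ.pb (fun q _ => h.cont.continuousAt) fun q _ => ⟨q, rfl⟩
  obtain ⟨k, hk⟩ := (cvx_of_convex isOpen_univ convex_univ).exists_trivA hco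
  have loc : ∀ q : ℝ × ℝ, R < |q.2| → ∃ U ∈ 𝓝 q, ∀ x ∈ U, k x = k q := by
    intro q hq
    obtain ⟨U, hU, h1⟩ := hk q (mem_univ _)
    obtain ⟨V, hV, h2⟩ := h0 (a q) (by
      show R < |(A q.1 q.2).2|
      rwa [snd_eq h (hR.trans hq.le)])
    have hV' : a ⁻¹' V ∈ 𝓝 q := h.cont.continuousAt.preimage_mem_nhds hV
    refine ⟨U ∩ a ⁻¹' V, Filter.inter_mem hU hV', fun x hx => ?_⟩
    have e1 := h1 q (mem_of_mem_nhds hU) x hx.1
    have e2 := h2 (a q) (mem_of_mem_nhds hV) (a x) hx.2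
    exact sub_eq_zero.1 (e1.symm.trans e2)
  have low : ∀ q : ℝ × ℝ, q.2 < -R → k q = k (0, -R - 1) := by
    intro q hq
    refine const_on (S := (univ : Set ℝ) ×ˢ Iio (-R))
      (isPreconnected_univ.prod isPreconnected_Iio) (fun p hp => loc p ?_) ⟨mem_univ _, hq⟩
      ⟨mem_univ _, by simp⟩
    have : p.2 < -R := hp.2
    exact lt_abs.2 (Or.inr (by linarith))
  have high : ∀ q : ℝ × ℝ, R < q.2 → k q = k (0, R + 1) := by
    intro q hq
    refine const_on (S := (univ : Set ℝ) ×ˢ Ioi R)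
      (isPreconnected_univ.prod isPreconnected_Ioi) (fun p hp => loc p ?_) ⟨mem_univ _, hq⟩
      ⟨mem_univ _, by simp⟩
    exact lt_abs.2 (Or.inl hp.2)
  have per : ∀ s t, k (s + 1, t) = k (s, t) := by
    intro s t
    have hc : k (s + 1, t) - k (s, t) = k (0 + 1, -R - 1) - k (0, -R - 1) := by
      refine const_on (S := univ) (k := fun q : ℝ × ℝ => k (q.1 + 1, q.2) - k q)
        isPreconnected_univ (fun q _ => ?_) (mem_univ (s, t)) (mem_univ (0, -R - 1))
      obtain ⟨U, hU, h1⟩ := hk q (mem_univ _)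
      obtain ⟨V, hV, h2⟩ := hk (q.1 + 1, q.2) (mem_univ _)
      have hsh : Continuous fun x : ℝ × ℝ => (x.1 + 1, x.2) := by fun_prop
      have hV' : (fun x : ℝ × ℝ => (x.1 + 1, x.2)) ⁻¹' V ∈ 𝓝 q :=
        hsh.continuousAt.preimage_mem_nhds hV
      refine ⟨U ∩ _, Filter.inter_mem hU hV', fun x hx => ?_⟩
      have e1 := h1 q (mem_of_mem_nhds hU) x hx.1
      have e2 := h2 _ (mem_of_mem_nhds hV) _ hx.2
      simp only [pb, ha, h.per] at e1 e2
      linear_combination e1 - e2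
    rw [low (0 + 1, -R - 1) (by simp), sub_self] at hc
    exact sub_eq_zero.1 hc
  have perZ : ∀ (n : ℤ) s t, k (s + n, t) = k (s, t) := by
    intro n s t
    have hp : Function.Periodic (fun s => k (s, t)) 1 := fun s => per s t
    simpa using hp.int_mul n s
  let g : Y4 → F := fun p => if hp : p ∈ rng A then k hp.choose - k (0, -R - 1) else 0
  have hg : ∀ q, g (a q) = k q - k (0, -R - 1) := by
    intro q
    have hp : a q ∈ rng A := ⟨q, rfl⟩
    have e : g (a q) = k hp.choose - k (0, -R - 1) := dif_pos hp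
    obtain ⟨e1, n, e2⟩ := h.inj _ _ _ _ hp.choose_spec
    have e3 : k q = k (hp.choose.1 + n, hp.choose.2) := congrArg k (Prod.ext e2 e1.symm)
    rw [e, e3, perZ]
  obtain ⟨γ, hγ, hγg⟩ := taut_one h.isClosed hβ (g := g) (by
    rintro _ ⟨q, rfl⟩
    obtain ⟨I, hI, h1⟩ := hk q (mem_univ _)
    obtain ⟨U, hU, h2⟩ := h.nhds q hI
    refine ⟨U, hU, fun x hx y hy => ?_⟩
    obtain ⟨x', hx', rfl⟩ := h2 hx
    obtain ⟨y', hy', rfl⟩ := h2 hy
    have e := h1 x' hx' y' hy'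
    have e1 := hg x'
    have e2 := hg y'
    simp only [pb, ha] at e e1 e2
    rw [e, e1, e2]
    ring)
  refine ⟨γ, k (0, R + 1) - k (0, -R - 1), hγ, ?_, ?_⟩
  · rintro _ ⟨q, rfl⟩ hq
    have e : (A q.1 q.2).2 = q.2 := abs_snd_lt h hR (lt_abs.2 (Or.inr (by linarith)))
    rw [hγg _ ⟨q, rfl⟩, show g (A q.1 q.2) = _ from hg q, low q (e ▸ hq), sub_self]
  · rintro _ ⟨q, rfl⟩ hq
    have e : (A q.1 q.2).2 = q.2 := abs_snd_lt h hR (lt_abs.2 (Or.inl hq))
    rw [hγg _ ⟨q, rfl⟩, show g (A q.1 q.2) = _ from hg q, high q (e ▸ hq)]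

/-- Stokes: the pairing of a cocycle on `X` with a compactly supported coboundary vanishes. -/
theorem stokes {X : Set Y4} {p q : ℕ} (hpq : p + q = 4) (hq : 1 ≤ q) {a c c' : List Y4 → F}
    (ha : dT (triv F F Y4) a ∈ N F F (p + 2) X) (hc' : c' ∈ Cc F F q X)
    (hc : c - dT (triv F F Y4) c' ∈ N F F (q + 1) univ) :
    IY F (cup (mulA F) (triv F F Y4) p a c) = 0 := by
  obtain ⟨K, hK, hKX, hN⟩ := hc'
  obtain ⟨i1, i2, -⟩ := isI_IY F
  have e1 : IY F (cup (mulA F) (triv F F Y4) p a (c - dT (triv F F Y4) c')) = 0 := by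
    refine i1 _ ?_
    have := cup_mem_N_right (R₃ := F) (mulA F) (triv F F Y4) p a hc
    rwa [show p + (q + 1) = 5 by omega] at this
  have e2 : IY F (dT (triv F F Y4) (cup (mulA F) (triv F F Y4) p a c')) = 0 := by
    refine i2 _ ⟨K, hK, subset_univ _, ?_⟩
    have := cup_mem_N_right (R₃ := F) (mulA F) (triv F F Y4) p a hN
    rwa [hpq] at this
  have e3 : IY F (cup (mulA F) (triv F F Y4) (p + 1) (dT (triv F F Y4) a) c') = 0 := by
    refine i1 _ ?_
    have hu : (univ : Set Y4) = X ∪ Kᶜ := by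
      ext x
      by_cases hx : x ∈ K
      · simp [hKX hx]
      · simp [hx]
    rw [hu, mem_N_union]
    refine ⟨cup_mem_N_left (mulA F) (triv F F Y4) (by omega) ha c', ?_⟩
    have := cup_mem_N_right (R₃ := F) (mulA F) (triv F F Y4) (p + 1) (dT (triv F F Y4) a) hN
    rwa [show p + 1 + q = 5 by omega] at this
  have e4 := i1 _ (cup_leibniz (mulA F) (τ₁ := triv F F Y4) (τ₂ := triv F F Y4)
    (τ₃ := triv F F Y4) (fun _ _ _ _ => rfl) (isCoc_triv univ) (isCoc_triv univ) (isCoc_triv univ)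
    (p := p) (n := 5) (by omega) a c')
  rw [map_sub, map_sub, e2, e3, map_zsmul, sub_zero, zero_sub, neg_eq_zero] at e4
  have e5 : IY F (cup (mulA F) (triv F F Y4) p a (dT (triv F F Y4) c')) = 0 := by
    rcases neg_one_pow_eq_or ℤ p with h1 | h1 <;> simpa [h1] using e4
  rwa [cup_sub_right, map_sub, e5, sub_zero] at e1

end RH23

open RH23

theorem IsAnn.h1c (h : IsAnn C D A) {c : List Y4 → F} (hc : c ∈ Cc F F 2 (rng A)ᶜ)
    (hd : dT (triv F F Y4) c ∈ N F F 3 univ) :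
    ∃ c' ∈ Cc F F 1 (rng A)ᶜ, c - dT (triv F F Y4) c' ∈ N F F 2 univ := by
  obtain ⟨K, hK, hKX, hN⟩ := hc
  obtain ⟨R, hR, hb⟩ := exists_bound hK
  obtain ⟨φ, hφ⟩ := acyc_two_Y4 c hd
  have hz : dT (triv F F Y4) (c0 fun _ : Y4 => φ [A 0 0]) ∈ N F F 2 (univ : Set Y4) :=
    mem_N_two.2 fun p _ => ⟨univ, Filter.univ_mem, fun x _ y _ => by rw [dT_c0, sub_self]⟩
  have h1 : c - dT (triv F F Y4) (φ - c0 fun _ : Y4 => φ [A 0 0]) ∈ N F F 2 univ := by
    have := Submodule.add_mem _ hφ hz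
    rwa [map_sub, ← sub_add]
  refine ⟨_, mem_Cc (R := R) ?_, h1⟩
  have hs : rng A ∪ {p : Y4 | R < |p.2|} ⊆ Kᶜ := by
    rintro p (hp | hp) hpK
    · exact hKX hpK hp
    · exact absurd (hb p hpK) (not_le.2 hp)
  refine par_zero (isCoc_triv _) (preconn h hR) ?_ (p := A 0 0) (Or.inl ⟨(0, 0), rfl⟩)
    (by simp [c0])
  have := Submodule.sub_mem _ (N_mono hs hN) (N_mono (subset_univ _) h1)
  rwa [sub_sub_cancel] at this

theorem IsAnn.h2c (h : IsAnn C D A) {c : List Y4 → F} (hc : c ∈ Cc F F 3 (rng A)ᶜ)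
    (hd : dT (triv F F Y4) c ∈ N F F 4 univ) :
    ∃ c' ∈ Cc F F 2 (rng A)ᶜ, c - dT (triv F F Y4) c' ∈ N F F 3 univ := by
  classical
  obtain ⟨β, ⟨K₁, hK₁, -, hN₁⟩, hβ⟩ := h2c_Y4 (Cc_mono (subset_univ _) hc) hd
  obtain ⟨K, -, hKX, hN⟩ := hc
  obtain ⟨R, hR, hb⟩ := exists_bound hK₁
  have hco : IsCocA (f2 β) (rng A) := by
    refine (isCocA_f2 (R := F)).2 ?_
    have := Submodule.sub_mem _ (N_mono (subset_compl_comm.1 hKX) hN)
      (N_mono (subset_univ _) hβ)
    rwa [sub_sub_cancel] at this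
  have h0 : LocEq (f2 β) (fun _ _ => 0) {p : Y4 | R < |p.2|} := fun p hp =>
    mem_N_two.1 hN₁ p fun hpK => absurd (hb p hpK) (not_le.2 hp)
  obtain ⟨γ, c₀, hγ, hl, hh⟩ := exists_prim h hco hR h0
  let e : Y4 → F := fun x => if 0 < x.2 then c₀ else 0
  let w : Y4 → F := fun x => if |x.2| ≤ R + 1 then γ x else e x
  have he : ∀ p : Y4, R < |p.2| → ∀ᶠ x in 𝓝 p, e x = e p := by
    intro p hp
    rcases lt_abs.1 hp with h1 | h1
    · have : ∀ᶠ x : Y4 in 𝓝 p, 0 < x.2 :=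
        continuous_snd.continuousAt.eventually (lt_mem_nhds (by linarith))
      exact this.mono fun x hx => by simp only [e, if_pos hx, if_pos this.self_of_nhds]
    · have : ∀ᶠ x : Y4 in 𝓝 p, x.2 < 0 :=
        continuous_snd.continuousAt.eventually (gt_mem_nhds (by linarith))
      exact this.mono fun x hx => by
        simp only [e, if_neg hx.not_gt, if_neg this.self_of_nhds.not_gt]
  have hca : Continuous fun x : Y4 => |x.2| := continuous_abs.comp continuous_snd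
  have hw : ∀ p ∈ rng A, ∀ᶠ x in 𝓝 p, w x = γ x := by
    intro p hp
    rcases lt_or_ge R |p.2| with h1 | h1
    · obtain ⟨U, hU, h2⟩ := hγ p hp
      obtain ⟨V, hV, h3⟩ := h0 p h1
      have hp' : γ p = e p := by
        rcases lt_abs.1 h1 with h4 | h4
        · rw [hh p hp h4]
          exact (if_pos (by linarith)).symm
        · rw [hl p hp (by linarith)]
          exact (if_neg (by linarith)).symm
      filter_upwards [hU, hV, he p h1] with x hx hx' hx''
      have e1 := (h2 p (mem_of_mem_nhds hU) x hx).symm.trans (h3 p (mem_of_mem_nhds hV) x hx')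
      by_cases h5 : |x.2| ≤ R + 1
      · exact if_pos h5
      · rw [show w x = e x from if_neg h5, hx'', ← hp', sub_eq_zero.1 e1]
    · have : ∀ᶠ x : Y4 in 𝓝 p, |x.2| < R + 1 :=
        hca.continuousAt.eventually (gt_mem_nhds (by linarith))
      exact this.mono fun x hx => if_pos hx.le
  refine ⟨β - dT (triv F F Y4) (c0 w), mem_Cc (R := R + 1) (mem_N_two.2 ?_), ?_⟩
  · rintro p (hp | hp)
    · obtain ⟨U, hU, h2⟩ := hγ p hp
      refine ⟨_, Filter.inter_mem hU (hw p hp), fun x hx y hy => ?_⟩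
      rw [Pi.sub_apply, dT_c0, hx.2, hy.2]
      exact sub_eq_zero.2 (h2 x hx.1 y hy.1)
    · have hp1 : R + 1 < |p.2| := hp
      obtain ⟨V, hV, h3⟩ := h0 p (show R < |p.2| by linarith)
      have h4 : ∀ᶠ x : Y4 in 𝓝 p, R + 1 < |x.2| := hca.continuousAt.eventually (lt_mem_nhds hp1)
      have h5 : ∀ᶠ x : Y4 in 𝓝 p, w x = e p := by
        filter_upwards [h4, he p (by linarith)] with x hx hx'
        rw [show w x = e x from if_neg hx.not_ge, hx']
      refine ⟨_, Filter.inter_mem hV h5, fun x hx y hy => ?_⟩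
      rw [Pi.sub_apply, dT_c0, hx.2, hy.2, sub_self, sub_zero]
      exact h3 x hx.1 y hy.1
  · rwa [map_sub, dT_triv_dT, sub_zero]

theorem IsAnn.h2 (h : IsAnn C D A) (F : Type) [Field F] : Acyc (triv F F Y4) 3 (rng A)ᶜ := by
  intro a ha
  refine pd_oY_triv h.isClosed.isOpen_compl (j := 3) (by norm_num) (by norm_num) rfl ha ?_
  intro c hc hd
  obtain ⟨c', hc', h1⟩ := h.h2c hc hd
  exact stokes (p := 2) (q := 2) rfl (by norm_num) ha hc' h1

theorem IsAnn.h3 (h : IsAnn C D A) (F : Type) [Field F] : Acyc (triv F F Y4) 4 (rng A)ᶜ := by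
  intro a ha
  refine pd_oY_triv h.isClosed.isOpen_compl (j := 2) (by norm_num) (by norm_num) rfl ha ?_
  intro c hc hd
  obtain ⟨c', hc', h1⟩ := h.h1c hc hd
  exact stokes (p := 3) (q := 1) rfl le_rfl ha hc' h1

end Pool.Agent.HH
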