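import Pool.Agent.P.MP_c8dc46_gt.Mer

/-!
Basic facts about long knots. Throughout `x₀ = σ a`, `|x₀| = a`, `8 ρ ≤ 1 - a ≤ 1/4`.
The retraction is `F ∘ π ∘ F⁻¹` on `F '' RB {3 ρ ≤ |x - x₀|}` and the identity elsewhere, where `π`
is the radial projection to `|x - x₀| = 3 ρ`.
-/

open Set Topology

namespace Pool.Agent.HH

namespace RLKb

variable {σ a ρ : ℝ}

theorem norm_x0 (hR : Rad a ρ) (hσ : σ = 1 ∨ σ = -1) : ‖((σ * a : ℝ) : ℂ)‖ = a := by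
  have ha : 0 ≤ a := by linarith [hR.1]
  rw [Complex.norm_real, Real.norm_eq_abs]
  rcases hσ with rfl | rfl <;> simp [abs_of_nonneg ha]

theorem far (hσ : σ = 1 ∨ σ = -1) (x : ℂ) : a - σ * x.re ≤ ‖x - (σ * a : ℝ)‖ := by
  have h1 := Complex.abs_re_le_norm (x - (σ * a : ℝ))
  rw [Complex.sub_re, Complex.ofReal_re] at h1
  have h2 := abs_le.1 h1
  rcases hσ with rfl | rfl <;> linarith [h2.1, h2.2]

theorem far_U (hR : Rad a ρ) (hσ : σ = 1 ∨ σ = -1) {x : ℂ} (hx : ‖x‖ = 1) :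
    8 * ρ ≤ ‖x - (σ * a : ℝ)‖ := by
  have h1 := norm_sub_norm_le x ((σ * a : ℝ) : ℂ)
  rw [hx, norm_x0 hR hσ] at h1
  linarith [hR.2.2]

theorem not_eta {x₀ : ℂ} {p : S3} (h : 0 < ‖xc p - x₀‖) : p ∉ eta x₀ := fun h' => by
  rw [show xc p = x₀ from h', sub_self, norm_zero] at h
  exact lt_irrefl _ h

theorem U_sub (hR : Rad a ρ) (hσ : σ = 1 ∨ σ = -1) : Uk ⊆ (eta (σ * a : ℝ))ᶜ := fun p hp =>
  not_eta (lt_of_lt_of_le (by linarith [hR.2.1]) (far_U hR hσ ((yc_eq_zero_iff p).1 hp)))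

theorem sqrt_pos {x : ℂ} (h : ‖x‖ < 1) : 0 < Real.sqrt (1 - ‖x‖ ^ 2) :=
  Real.sqrt_pos.2 (by nlinarith [norm_nonneg x])

theorem yc_fib_ne {x : ℂ} (h : ‖x‖ < 1) (s : ℝ) : yc (fib x s) ≠ 0 := fun h0 => by
  rw [yc_eq_zero_iff, xc_fib h.le] at h0
  exact h.ne h0

theorem norm_lon {x₀ : ℂ} {r : ℝ} (hr : 0 ≤ r) (s : ℝ) : ‖x₀ + r * ex s - x₀‖ = r := by
  rw [add_sub_cancel_left, norm_mul, norm_ex, mul_one, Complex.norm_real, Real.norm_of_nonneg hr]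

theorem lt_of_yc {p : S3} (h : yc p ≠ 0) : ‖xc p‖ < 1 :=
  lt_of_le_of_ne (norm_xc_le p) fun h' => h ((yc_eq_zero_iff p).2 h')

theorem open_lt (x₀ : ℂ) (r : ℝ) : IsOpen {x : ℂ | r < ‖x - x₀‖} :=
  isOpen_lt continuous_const (by fun_prop)

theorem closed_le (x₀ : ℂ) (r : ℝ) : IsClosed {x : ℂ | r ≤ ‖x - x₀‖} :=
  isClosed_le continuous_const (by fun_prop)

/-- The radial projection of the first coordinate. -/
noncomputable def px (x₀ : ℂ) (r : ℝ) (q : S3) : ℂ := x₀ + r * ((xc q - x₀) / ‖xc q - x₀‖)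

/-- The radial projection in coordinates. -/
noncomputable def pg (x₀ : ℂ) (r : ℝ) (q : S3) : ℂ × ℂ :=
  (px x₀ r q, (Real.sqrt (1 - ‖px x₀ r q‖ ^ 2) : ℝ) * (yc q / ‖yc q‖))

open Classical in
/-- The radial projection. -/
noncomputable def pr (x₀ : ℂ) (r : ℝ) (q : S3) : S3 :=
  if h : ‖(pg x₀ r q).1‖ ^ 2 + ‖(pg x₀ r q).2‖ ^ 2 = 1 then ⟨pg x₀ r q, h⟩ else q

theorem norm_dir {z : ℂ} (h : z ≠ 0) : ‖z / (‖z‖ : ℂ)‖ = 1 := by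
  rw [norm_div, Complex.norm_real, norm_norm, div_self (norm_ne_zero_iff.2 h)]

theorem norm_px {x₀ : ℂ} {r : ℝ} (hr : 0 ≤ r) {q : S3} (h : xc q ≠ x₀) :
    ‖px x₀ r q - x₀‖ = r := by
  rw [px, add_sub_cancel_left, norm_mul, norm_dir (sub_ne_zero.2 h), mul_one, Complex.norm_real,
    Real.norm_of_nonneg hr]

theorem pr_val {x₀ : ℂ} {r : ℝ} (hr : 0 ≤ r) (h1 : ‖x₀‖ + r ≤ 1) {q : S3} (h : xc q ≠ x₀)
    (hy : yc q ≠ 0) : (pr x₀ r q).1 = pg x₀ r q := by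
  have h2 : ‖px x₀ r q‖ ≤ 1 := by
    have := norm_sub_norm_le (px x₀ r q) x₀
    rw [norm_px hr h] at this
    linarith
  have h3 : 0 ≤ 1 - ‖px x₀ r q‖ ^ 2 := by nlinarith [norm_nonneg (px x₀ r q)]
  have h4 : ‖(pg x₀ r q).1‖ ^ 2 + ‖(pg x₀ r q).2‖ ^ 2 = 1 := by
    simp only [pg, norm_mul, norm_dir hy, mul_one, Complex.norm_real, Real.norm_eq_abs, sq_abs,
      Real.sq_sqrt h3]
    ring
  rw [pr, dif_pos h4]

theorem pr_fix {x₀ : ℂ} {r : ℝ} (hr : 0 < r) (h1 : ‖x₀‖ + r ≤ 1) {q : S3}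
    (h : ‖xc q - x₀‖ = r) (hy : yc q ≠ 0) : pr x₀ r q = q := by
  have h0 : xc q ≠ x₀ := not_eta (h ▸ hr)
  have h2 : px x₀ r q = xc q := by
    have : (r : ℂ) ≠ 0 := Complex.ofReal_ne_zero.2 hr.ne'
    rw [px, h]
    field_simp
    ring
  have h3 : Real.sqrt (1 - ‖xc q‖ ^ 2) = ‖yc q‖ := by
    have := q.2
    rw [show 1 - ‖xc q‖ ^ 2 = ‖yc q‖ ^ 2 by simp only [xc, yc]; linarith,
      Real.sqrt_sq (norm_nonneg _)]
  have h4 : ((‖yc q‖ : ℝ) : ℂ) ≠ 0 := Complex.ofReal_ne_zero.2 (norm_ne_zero_iff.2 hy)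
  apply Subtype.ext
  rw [pr_val hr.le h1 h0 hy, pg, h2, h3, mul_div_cancel₀ _ h4]
  rfl

theorem pr_cont {x₀ : ℂ} {r : ℝ} (hr : 0 ≤ r) (h1 : ‖x₀‖ + r ≤ 1) {q : S3} (h : xc q ≠ x₀)
    (hy : yc q ≠ 0) : ContinuousAt (pr x₀ r) q := by
  have hx : ContinuousAt xc q := continuous_xc.continuousAt
  have hy' : ContinuousAt yc q := continuous_yc.continuousAt
  have h2 : ContinuousAt (px x₀ r) q := by
    refine continuousAt_const.add (continuousAt_const.mul ((hx.sub continuousAt_const).div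
      (Complex.continuous_ofReal.continuousAt.comp (hx.sub continuousAt_const).norm) ?_))
    exact Complex.ofReal_ne_zero.2 (norm_ne_zero_iff.2 (sub_ne_zero.2 h))
  have h3 : ContinuousAt (pg x₀ r) q := by
    refine h2.prodMk ((Complex.continuous_ofReal.continuousAt.comp
      (continuousAt_const.sub (h2.norm.pow 2)).sqrt).mul (hy'.div
      (Complex.continuous_ofReal.continuousAt.comp hy'.norm) ?_))
    exact Complex.ofReal_ne_zero.2 (norm_ne_zero_iff.2 hy)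
  rw [IsInducing.subtypeVal.continuousAt_iff]
  refine h3.congr ?_
  filter_upwards [hx.eventually_ne h, hy'.eventually_ne hy] with p hp hp'
  exact (pr_val hr h1 hp hp').symm

end RLKb

open RLKb

namespace LK

variable {r s : ℕ} {σ a ρ : ℝ} (k : LK r s σ a ρ)

theorem _root_.Pool.Agent.HH.RLKb.mem_img {S : Set S3} (hS : S ⊆ (eta (σ * a : ℝ))ᶜ) {p : S3}
    (hp : p ∉ eta (σ * a : ℝ)) : k.F p ∈ k.F '' S ↔ p ∈ S :=
  ⟨fun ⟨_, hq, h⟩ => k.oe.inj (hS hq) hp h ▸ hq, fun h => ⟨p, h, rfl⟩⟩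

theorem _root_.Pool.Agent.HH.RLKb.loop_img {γ : ℝ → S3} {S T : Set S3} (h : IsLoop γ S)
    (hS : S ⊆ (eta (σ * a : ℝ))ᶜ) (hT : ∀ t, k.F (γ t) ∈ T) : IsLoop (k.F ∘ γ) T :=
  ⟨k.oe.cont.comp_continuous h.1 fun t => hS (h.2.2 t), fun t => congrArg k.F (h.2.1 t), hT⟩

theorem side (hR : Rad a ρ) (hσ : σ = 1 ∨ σ = -1) {p : S3} (hp : p ∉ eta (σ * a : ℝ))
    (h : 1 / 2 < σ * (xc p).re) : 1 / 2 < σ * (xc (k.F p)).re := by
  by_contra h1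
  rw [not_lt] at h1
  have h2 : k.F p ∉ eta (σ * a : ℝ) :=
    not_eta (lt_of_lt_of_le (by linarith [hR.1]) (far hσ (xc (k.F p))))
  rw [k.oe.inj h2 hp (k.idz _ h1)] at h1
  linarith

theorem isKnot (hR : Rad a ρ) (hσ : σ = 1 ∨ σ = -1) (c : ℝ) :
    IsKnot (fun t => k.F (iota (t + c) 0)) ∧ range (fun t => k.F (iota (t + c) 0)) = k.K := by
  have h1 : range (fun t => iota (t + c) 0) = Uk := by
    rw [← isKnot_U.2]
    exact (add_right_surjective c).range_comp fun t => iota t 0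
  refine ⟨(isKnot_U.1.shift c).image k.oe (h1 ▸ U_sub hR hσ), ?_⟩
  rw [K, ← h1, ← range_comp]
  rfl

theorem isClosed_K (hR : Rad a ρ) (hσ : σ = 1 ∨ σ = -1) : IsClosed k.K :=
  (k.isKnot hR hσ 0).2 ▸ (k.isKnot hR hσ 0).1.isClosed

theorem mem_K_iff (hR : Rad a ρ) (hσ : σ = 1 ∨ σ = -1) {p : S3} (hp : p ∉ eta (σ * a : ℝ)) :
    k.F p ∈ k.K ↔ yc p = 0 :=
  mem_img k (U_sub hR hσ) hp

theorem isCocA_th : IsCocA (th k.ϑ) k.Kᶜ :=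
  Pool.Agent.HH.isCocA_th k.cont k.ne

theorem _root_.Pool.Agent.HH.RLKb.hol_fib' {x : ℂ} (h0 : ρ ≤ ‖x - (σ * a : ℝ)‖) (h1 : ‖x‖ < 1) :
    IsHolA (th k.ϑ) (k.F ∘ fib x) 1 := by
  refine isHolA_th (α := fun t => t) continuous_id (fun t => by simp) fun t => ?_
  have hy := yc_fib_ne h1 t
  refine ⟨Real.sqrt (1 - ‖x‖ ^ 2) / ‖yc (fib x t)‖,
    div_pos (sqrt_pos h1) (norm_pos_iff.2 hy), ?_⟩
  rw [Function.comp_apply, k.exact _ (by rw [xc_fib h1.le]; exact h0) hy]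
  nth_rewrite 1 [yc_fib h1.le]
  push_cast
  ring

theorem isGen (hR : Rad a ρ) (hσ : σ = 1 ∨ σ = -1) : IsGen ℝ k.K (th k.ϑ) := by
  obtain ⟨h1, h2⟩ := k.isKnot hR hσ 0
  have hn : ‖((-σ / 2 : ℝ) : ℂ)‖ = 1 / 2 := by
    rw [Complex.norm_real, Real.norm_eq_abs]
    rcases hσ with rfl | rfl <;> norm_num
  have hσ2 : σ * σ = 1 := by rcases hσ with rfl | rfl <;> norm_num
  have hB : IsOpen {x : ℂ | σ * x.re < 0} := isOpen_lt (by fun_prop) continuous_const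
  have hsub : RB {x : ℂ | σ * x.re < 0} ⊆ (eta (σ * a : ℝ))ᶜ := fun p hp =>
    not_eta (lt_of_lt_of_le (by linarith [hR.1, show σ * (xc p).re < 0 from hp]) (far hσ (xc p)))
  have hm : IsMer ℝ (RB {x : ℂ | σ * x.re < 0}) Uk (fib ((-σ / 2 : ℝ) : ℂ)) := by
    refine isMer_fib (norm_pos_iff.1 (by rw [hn]; norm_num)) (by rw [hn]; norm_num) hB
      fun t ht _ => ?_
    rw [hn] at ht ⊢
    show σ * (((t / (1 / 2) : ℝ) : ℂ) * ((-σ / 2 : ℝ) : ℂ)).re < 0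
    rw [← Complex.ofReal_mul, Complex.ofReal_re]
    nlinarith
  refine isGen_of_one (h2 ▸ h1.flat) (h2 ▸ h1.isPreconnected) k.isCocA_th
    (hm.image k.oe hsub fun p hp => k.mem_K_iff hR hσ (hsub hp)) (Or.inl (hol_fib' k ?_ ?_))
  · have := far (a := a) hσ ((-σ / 2 : ℝ) : ℂ)
    rw [Complex.ofReal_re] at this
    nlinarith [hR.1, hR.2.1, hR.2.2]
  · rw [hn]
    norm_num

theorem isLoop_fib (hR : Rad a ρ) (hσ : σ = 1 ∨ σ = -1) {x : ℂ} (h0 : x ≠ (σ * a : ℝ))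
    (h1 : ‖x‖ < 1) : IsLoop (k.F ∘ fib x) k.Kᶜ := by
  have h2 := Pool.Agent.HH.isLoop_fib (B := {x}) rfl h1.le
  have h3 : RB {x} ⊆ (eta (σ * a : ℝ))ᶜ := fun p hp hq =>
    h0 ((show xc p = x from hp).symm.trans hq)
  exact loop_img k h2 h3 fun t ht => yc_fib_ne h1 t ((k.mem_K_iff hR hσ (h3 (h2.2.2 t))).1 ht)

theorem hol_fib {x : ℂ} (h0 : ρ ≤ ‖x - (σ * a : ℝ)‖) (h1 : ‖x‖ < 1) :
    IsHolA (th k.ϑ) (k.F ∘ fib x) 1 :=
  hol_fib' k h0 h1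

theorem hol_lam (hR : Rad a ρ) (hσ : σ = 1 ∨ σ = -1) : IsHolA (th k.ϑ) k.lam 0 := by
  have hρ := hR.2.1
  have h0 : 0 ≤ 5 * ρ / 2 := by linarith
  have h1 : ‖((σ * a : ℝ) : ℂ)‖ + 5 * ρ / 2 < 1 := by
    rw [norm_x0 hR hσ]
    linarith [hR.2.2]
  refine isHolA_th (α := fun _ => 0) continuous_const (fun t => by simp) fun t => ?_
  obtain ⟨c, hc, hy⟩ := yc_lon h0 h1 t
  have hc' : (c : ℂ) ≠ 0 := Complex.ofReal_ne_zero.2 hc.ne'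
  refine ⟨1, one_pos, ?_⟩
  rw [lam, Function.comp_apply, k.exact _ (by rw [xc_lon h0 h1.le, norm_lon h0]; linarith)
    (by rw [hy]; exact hc'), hy, Complex.norm_real, Real.norm_of_nonneg hc.le, div_self hc']
  simp [ex]

theorem isOpen_Oc (hR : Rad a ρ) {r' : ℝ} (h : 0 < r') : IsOpen (k.Oc r') := by
  have _ := hR
  exact ((isClosed_RB (closed_le _ r')).isCompact.image_of_continuousOn
    (k.oe.cont.mono fun p hp => not_eta (h.trans_le hp))).isClosed.isOpen_compl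

theorem Oc_mono {r' r'' : ℝ} (h : r' ≤ r'') : k.Oc r' ⊆ k.Oc r'' :=
  compl_subset_compl.2 (image_mono fun _ hp => h.trans hp)

theorem mem_Oc_iff {r' : ℝ} (h : 0 < r') {p : S3} (hp : p ∉ eta (σ * a : ℝ)) :
    k.F p ∈ k.Oc r' ↔ ‖xc p - (σ * a : ℝ)‖ < r' := by
  rw [Oc, mem_compl_iff, mem_img k (S := RB {x | r' ≤ ‖x - (σ * a : ℝ)‖})
    (fun q hq => not_eta (h.trans_le hq)) hp]
  exact not_le (a := r')

theorem Oc_side (hR : Rad a ρ) (hσ : σ = 1 ∨ σ = -1) {r' : ℝ} (h : r' ≤ 8 * ρ) {p : S3}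
    (hp : p ∈ k.Oc r') : 1 / 2 < σ * (xc p).re := by
  by_contra h1
  rw [not_lt] at h1
  refine hp ⟨p, ?_, k.idz p h1⟩
  exact le_trans (by linarith [hR.1, hR.2.2]) (far hσ (xc p))

theorem Oc_subset (hR : Rad a ρ) (hσ : σ = 1 ∨ σ = -1) {r' : ℝ} (h : r' ≤ 8 * ρ) :
    k.Oc r' ⊆ k.Kᶜ :=
  compl_subset_compl.2 (image_mono fun p hp => h.trans (far_U hR hσ ((yc_eq_zero_iff p).1 hp)))

/-- A compact part of the companion piece. -/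
theorem isCompact_core {r' r'' : ℝ} (h0 : 0 < r') (h : r' < r'') :
    IsCompact (k.F '' RB {x | r' < ‖x - (σ * a : ℝ)‖})ᶜ ∧
      (k.F '' RB {x | r' < ‖x - (σ * a : ℝ)‖})ᶜ ⊆ k.Oc r'' :=
  ⟨(k.oe.img _ (isOpen_RB (open_lt _ r'))
    fun _ hp => not_eta (h0.trans hp)).isClosed_compl.isCompact,
    compl_subset_compl.2 (image_mono fun _ hp => h.trans_le hp)⟩

theorem isLoop_lam (hR : Rad a ρ) (hσ : σ = 1 ∨ σ = -1) :
    IsLoop k.lam (k.Oc (3 * ρ) ∩ k.F '' RB {x | 2 * ρ < ‖x - (σ * a : ℝ)‖}) := by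
  have hρ := hR.2.1
  have h0 : 0 ≤ 5 * ρ / 2 := by linarith
  have h1 : ‖((σ * a : ℝ) : ℂ)‖ + 5 * ρ / 2 ≤ 1 := by
    rw [norm_x0 hR hσ]
    linarith [hR.2.2]
  have h2 := isLoop_lon h0 h1 (B := {x | 2 * ρ < ‖x - (σ * a : ℝ)‖}) fun t => by
    rw [mem_ofPred_eq, norm_lon h0]
    linarith
  have h3 : RB {x | 2 * ρ < ‖x - (σ * a : ℝ)‖} ⊆ (eta (σ * a : ℝ))ᶜ := fun p hp =>
    not_eta (lt_trans (by linarith) hp)
  refine loop_img k h2 h3 fun t => ⟨?_, _, h2.2.2 t, rfl⟩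
  rw [k.mem_Oc_iff (by linarith) (h3 (h2.2.2 t)), xc_lon h0 h1, norm_lon h0]
  linarith

theorem exists_ret (hR : Rad a ρ) (hσ : σ = 1 ∨ σ = -1) : ∃ κ, k.IsRet κ := by
  classical
  have hρ := hR.2.1
  have h3 : 0 < 3 * ρ := by linarith
  have h1 : ‖((σ * a : ℝ) : ℂ)‖ + 3 * ρ ≤ 1 := by
    rw [norm_x0 hR hσ]
    linarith [hR.2.2]
  obtain ⟨Ψ, hΨ, hl, -⟩ := k.oe.exists_inv
  have hsub : RB {x | 3 * ρ ≤ ‖x - (σ * a : ℝ)‖} ⊆ (eta (σ * a : ℝ))ᶜ := fun p hp =>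
    not_eta (h3.trans_le hp)
  have hxc : ∀ q, q ∉ eta (σ * a : ℝ) → yc q ≠ 0 →
      ‖xc (pr (σ * a : ℝ) (3 * ρ) q) - (σ * a : ℝ)‖ = 3 * ρ := fun q hq hy => by
    rw [xc, pr_val h3.le h1 hq hy]
    exact norm_px h3.le hq
  set κ : S3 → S3 := fun p => if p ∈ k.Oc (3 * ρ) then p else k.F (pr (σ * a : ℝ) (3 * ρ) (Ψ p))
    with hκ
  refine ⟨κ, fun p hp => ?_, fun p hp => ?_, fun p hp => if_pos hp⟩
  · have c1 : ContinuousWithinAt κ (k.Oc (3 * ρ))ᶜ p := by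
      by_cases hc : p ∈ (k.Oc (3 * ρ))ᶜ
      · obtain ⟨q, hq, rfl⟩ := not_not.1 hc
        have hy : yc q ≠ 0 := fun h => hp ((k.mem_K_iff hR hσ (hsub hq)).2 h)
        have d1 : ContinuousAt Ψ (k.F q) :=
          hΨ.cont.continuousAt (hΨ.isOpen.mem_nhds ⟨q, hsub hq, rfl⟩)
        have d2 : ContinuousAt (pr (σ * a : ℝ) (3 * ρ)) (Ψ (k.F q)) := by
          rw [hl q (hsub hq)]
          exact pr_cont h3.le h1 (hsub hq) hy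
        have d3 : ContinuousAt k.F (pr (σ * a : ℝ) (3 * ρ) (Ψ (k.F q))) := by
          rw [hl q (hsub hq)]
          exact k.oe.cont.continuousAt (k.oe.isOpen.mem_nhds
            (not_eta (by rw [hxc q (hsub hq) hy]; exact h3)))
        exact (d3.comp (f := fun p => pr (σ * a : ℝ) (3 * ρ) (Ψ p))
          (d2.comp d1)).continuousWithinAt.congr (fun y hy => if_neg hy) (if_neg hc)
      · exact continuousWithinAt_of_notMem_closure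
          (by rwa [(k.isOpen_Oc hR h3).isClosed_compl.closure_eq])
    have hid : ∀ y ∈ (k.F '' RB {x | 3 * ρ < ‖x - (σ * a : ℝ)‖})ᶜ ∩ k.Kᶜ, κ y = y := by
      intro y hy
      by_cases hc : y ∈ k.Oc (3 * ρ)
      · exact if_pos hc
      · obtain ⟨q, hq, rfl⟩ := not_not.1 hc
        have hq' : ‖xc q - (σ * a : ℝ)‖ = 3 * ρ :=
          le_antisymm (not_lt.1 fun h => hy.1 ⟨q, h, rfl⟩) hq
        refine (if_neg hc).trans ?_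
        rw [hl q (hsub hq), pr_fix h3 h1 hq' fun h => hy.2 ((k.mem_K_iff hR hσ (hsub hq)).2 h)]
    have c2 : ContinuousWithinAt κ (k.F '' RB {x | 3 * ρ < ‖x - (σ * a : ℝ)‖})ᶜ p := by
      by_cases hc : p ∈ (k.F '' RB {x | 3 * ρ < ‖x - (σ * a : ℝ)‖})ᶜ
      · rw [← continuousWithinAt_inter ((k.isClosed_K hR hσ).isOpen_compl.mem_nhds hp)]
        exact continuousWithinAt_id.congr hid (hid p ⟨hc, hp⟩)
      · exact continuousWithinAt_of_notMem_closure (by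
          rwa [(k.isCompact_core h3 (lt_add_one _)).1.isClosed.closure_eq])
    have c3 := c1.union c2
    rw [eq_univ_of_forall (s := _ ∪ _) fun y => ?_, continuousWithinAt_univ] at c3
    · exact c3
    · by_cases hc : y ∈ k.Oc (3 * ρ)
      · exact Or.inr fun ⟨q, hq, h⟩ => hc ⟨q, le_of_lt (show 3 * ρ < _ from hq), h⟩
      · exact Or.inl hc
  · by_cases hc : p ∈ k.Oc (3 * ρ)
    · rw [show κ p = p from if_pos hc]
      exact k.Oc_mono (by linarith) hc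
    · obtain ⟨q, hq, rfl⟩ := not_not.1 hc
      have hy : yc q ≠ 0 := fun h => hp ((k.mem_K_iff hR hσ (hsub hq)).2 h)
      rw [show κ (k.F q) = _ from if_neg hc, hl q (hsub hq), k.mem_Oc_iff (by linarith)
        (not_eta (by rw [hxc q (hsub hq) hy]; exact h3)), hxc q (hsub hq) hy]
      linarith

theorem IsRet.locEq {k : LK r s σ a ρ} (hR : Rad a ρ) {κ : S3 → S3} (h : k.IsRet κ) {M : Type}
    (f : S3 → S3 → M) : LocEq (pb κ f) f (k.Oc (3 * ρ)) :=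
  locEq_pb_of_id f fun _ hp =>
    Filter.mem_of_superset ((k.isOpen_Oc hR (by linarith [hR.2.1])).mem_nhds hp) h.id

theorem _root_.Pool.Agent.HH.RLKb.classify (hR : Rad a ρ) (hσ : σ = 1 ∨ σ = -1) {M : Type}
    [AddCommGroup M] {x : S3 → S3 → M} (hx : IsCocA x k.Kᶜ) :
    ∃ c : M, CohA x (fun p q => th k.ϑ p q • c) k.Kᶜ := by
  obtain ⟨h1, h2⟩ := k.isKnot hR hσ 0
  have h3 := k.isGen hR hσ
  rw [← h2] at hx h3 ⊢
  exact h1.h1gen h3 hx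

/-- Additive cocycles on the exterior are classified by the holonomy along a fibre. -/
theorem comp_class (hR : Rad a ρ) (hσ : σ = 1 ∨ σ = -1) {M : Type} [AddCommGroup M]
    {x : S3 → S3 → M} (hx : IsCocA x k.Kᶜ) {x₁ : ℂ} (h0 : ρ ≤ ‖x₁ - (σ * a : ℝ)‖) (h1 : ‖x₁‖ < 1)
    {c : M} (hc : IsHolA x (k.F ∘ fib x₁) c) : CohA x (fun p q => th k.ϑ p q • c) k.Kᶜ := by
  obtain ⟨c', h⟩ := classify k hR hσ hx
  have h2 := (hc.cohA h (k.isLoop_fib hR hσ (sub_ne_zero.1 (norm_pos_iff.1 (hR.2.1.trans_le h0)))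
    h1)).unique ((k.hol_fib h0 h1).smul c')
  rwa [h2, one_smul]

theorem hol_lam_zero (hR : Rad a ρ) (hσ : σ = 1 ∨ σ = -1) {M : Type} [AddCommGroup M]
    {x : S3 → S3 → M} (hx : IsCocA x k.Kᶜ) : IsHolA x k.lam 0 := by
  obtain ⟨c, h⟩ := classify k hR hσ hx
  have h1 := k.isLoop_lam hR hσ
  have h2 := ((k.hol_lam hR hσ).smul c).cohA h.symm
    ⟨h1.1, h1.2.1, fun t => k.Oc_subset hR hσ (by linarith [hR.2.1]) (h1.2.2 t).1⟩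
  rwa [zero_smul] at h2

variable {R E : Type} [CommRing R] [AddCommGroup E] [Module R E]

theorem _root_.Pool.Agent.HH.RLKb.img_sub (hR : Rad a ρ) (hσ : σ = 1 ∨ σ = -1) {B : Set ℂ}
    (h : ∀ x ∈ B, ρ < ‖x - (σ * a : ℝ)‖ ∧ ‖x‖ < 1) :
    RB B ⊆ (eta (σ * a : ℝ))ᶜ ∧ k.F '' RB B ⊆ k.Kᶜ := by
  have h1 : RB B ⊆ (eta (σ * a : ℝ))ᶜ := fun p hp => not_eta (hR.2.1.trans (h _ hp).1)
  refine ⟨h1, ?_⟩
  rintro _ ⟨q, hq, rfl⟩ hK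
  exact (h _ hq).2.ne ((yc_eq_zero_iff q).1 ((k.mem_K_iff hR hσ (h1 hq)).1 hK))

theorem _root_.Pool.Agent.HH.RLKb.acyc_img (hR : Rad a ρ) (hσ : σ = 1 ∨ σ = -1)
    {L : (Module.End R E)ˣ} (hL : Function.Bijective (L.1 - 1 : Module.End R E)) {B : Set ℂ}
    (hB : IsOpen B) (h : ∀ x ∈ B, ρ < ‖x - (σ * a : ℝ)‖ ∧ ‖x‖ < 1) :
    Acyc0 (zt L (th k.ϑ)) (k.F '' RB B) ∧ Acyc (zt L (th k.ϑ)) 2 (k.F '' RB B) := by
  obtain ⟨h1, h2⟩ := img_sub k hR hσ h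
  have h3 := k.oe.mono (isOpen_RB hB) h1
  have h4 := acyc_fibX (τ := pb k.F (zt L (th k.ϑ))) hB (fun x hx => (h x hx).2)
    ((k.isCocA_th.zt L).pb (fun p hp => h3.cont.continuousAt (h3.isOpen.mem_nhds hp))
      fun p hp => h2 ⟨p, hp, rfl⟩) fun x hx =>
    ⟨_, (isHol_pb _ _ _ _).2 ((k.hol_fib (h x hx).1.le (h x hx).2).zt L), by rwa [zpow_one]⟩
  exact ⟨acyc0_iff.2 ((h3.acyc_iff _ 1).1 (acyc0_iff.1 h4.1)), (h3.acyc_iff _ 2).1 h4.2⟩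

theorem _root_.Pool.Agent.HH.RLKb.isOpen_sh (x₀ : ℂ) (r : ℝ) :
    IsOpen {x : ℂ | r < ‖x - x₀‖ ∧ ‖x‖ < 1} :=
  (open_lt x₀ r).inter (isOpen_lt continuous_norm continuous_const)

theorem _root_.Pool.Agent.HH.RLKb.inter_sh (hR : Rad a ρ) :
    k.Oc (2 * ρ) ∩ k.F '' RB {x | ρ < ‖x - (σ * a : ℝ)‖ ∧ ‖x‖ < 1} =
      k.F '' RB {x | (ρ < ‖x - (σ * a : ℝ)‖ ∧ ‖x‖ < 1) ∧ ‖x - (σ * a : ℝ)‖ < 2 * ρ} := by
  have hρ := hR.2.1
  ext p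
  constructor
  · rintro ⟨h1, q, hq, rfl⟩
    exact ⟨q, ⟨hq, (k.mem_Oc_iff (by linarith) (not_eta (hρ.trans hq.1))).1 h1⟩, rfl⟩
  · rintro ⟨q, hq, rfl⟩
    exact ⟨(k.mem_Oc_iff (by linarith) (not_eta (hρ.trans hq.1.1))).2 hq.2, q, hq.1, rfl⟩

theorem _root_.Pool.Agent.HH.RLKb.acyc_sh (hR : Rad a ρ) (hσ : σ = 1 ∨ σ = -1)
    {L : (Module.End R E)ˣ} (hL : Function.Bijective (L.1 - 1 : Module.End R E)) :
    Acyc0 (zt L (th k.ϑ)) (k.Oc (2 * ρ) ∩ k.F '' RB {x | ρ < ‖x - (σ * a : ℝ)‖ ∧ ‖x‖ < 1}) ∧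
      Acyc (zt L (th k.ϑ)) 2 (k.Oc (2 * ρ) ∩ k.F '' RB {x | ρ < ‖x - (σ * a : ℝ)‖ ∧ ‖x‖ < 1}) := by
  rw [inter_sh k hR]
  exact acyc_img k hR hσ hL
    ((isOpen_sh _ ρ).inter (isOpen_lt (continuous_id.sub continuous_const).norm continuous_const))
    fun x hx => hx.1

theorem _root_.Pool.Agent.HH.RLKb.cover_sh (hR : Rad a ρ) (hσ : σ = 1 ∨ σ = -1) {p : S3}
    (hp : p ∉ k.K) (h : p ∉ k.Oc (2 * ρ)) :
    p ∈ k.F '' RB {x | ρ < ‖x - (σ * a : ℝ)‖ ∧ ‖x‖ < 1} := by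
  have hρ := hR.2.1
  obtain ⟨q, hq, rfl⟩ := not_not.1 h
  have h1 : ρ < ‖xc q - (σ * a : ℝ)‖ := lt_of_lt_of_le (by linarith) hq
  exact ⟨q, ⟨h1, lt_of_yc fun hy => hp ((k.mem_K_iff hR hσ (not_eta (hρ.trans h1))).2 hy)⟩, rfl⟩

theorem exa_of_Oc (hR : Rad a ρ) (hσ : σ = 1 ∨ σ = -1) {L : (Module.End R E)ˣ}
    (hL : Function.Bijective (L.1 - 1 : Module.End R E)) {b : List S3 → E}
    (hb : dT (zt L (th k.ϑ)) b ∈ N R E 3 k.Kᶜ) (h : Exa (zt L (th k.ϑ)) 2 (k.Oc (2 * ρ)) b) :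
    Exa (zt L (th k.ϑ)) 2 k.Kᶜ b := by
  obtain ⟨h1, h2⟩ := img_sub k hR hσ (B := {x | ρ < ‖x - (σ * a : ℝ)‖ ∧ ‖x‖ < 1}) fun x hx => hx
  refine (exa_union (k.isOpen_Oc hR (by linarith [hR.2.1]))
    (k.oe.img _ (isOpen_RB (isOpen_sh _ ρ)) h1) (acyc_sh k hR hσ hL).1 h
    ((acyc_img k hR hσ hL (isOpen_sh _ ρ) fun x hx => hx).2 b (N_mono h2 hb))).mono fun p hp => ?_
  by_cases hc : p ∈ k.Oc (2 * ρ)
  · exact Or.inl hc
  · exact Or.inr (cover_sh k hR hσ hp hc)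

theorem acyc_Oc (hR : Rad a ρ) (hσ : σ = 1 ∨ σ = -1) {L : (Module.End R E)ˣ}
    (hL : Function.Bijective (L.1 - 1 : Module.End R E)) (h : Acyc (zt L (th k.ϑ)) 2 k.Kᶜ) :
    Acyc (zt L (th k.ϑ)) 2 (k.Oc (2 * ρ)) := by
  have hρ := hR.2.1
  obtain ⟨h1, h2⟩ := img_sub k hR hσ (B := {x | ρ < ‖x - (σ * a : ℝ)‖ ∧ ‖x‖ < 1}) fun x hx => hx
  have h3 := k.Oc_subset hR hσ (r' := 2 * ρ) (by linarith)
  have e1 : k.Kᶜ \ (k.Kᶜ \ k.Oc (2 * ρ)) = k.Oc (2 * ρ) := sdiff_sdiff_cancel_left h3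
  have e2 : k.F '' RB {x | ρ < ‖x - (σ * a : ℝ)‖ ∧ ‖x‖ < 1} \ (k.Kᶜ \ k.Oc (2 * ρ)) =
      k.Oc (2 * ρ) ∩ k.F '' RB {x | ρ < ‖x - (σ * a : ℝ)‖ ∧ ‖x‖ < 1} := by
    ext p
    exact ⟨fun hp => ⟨by_contra fun hc => hp.2 ⟨h2 hp.1, hc⟩, hp.1⟩,
      fun hp => ⟨hp.2, fun hc => hc.2 hp.1⟩⟩
  rw [← e1]
  refine excise (k.isClosed_K hR hσ).isOpen_compl (e1.symm ▸ k.isOpen_Oc hR (by linarith))
    (k.oe.img _ (isOpen_RB (isOpen_sh _ ρ)) h1) (fun p hp => cover_sh k hR hσ hp.1 hp.2) h2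
    (k.isCocA_th.zt L) h ?_
  rw [e2]
  exact (acyc_sh k hR hσ hL).2

end LK

end Pool.Agent.HH
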