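import Pool.Agent.P.MP_c8dc46_gt.Form
import Pool.Agent.P.MP_c8dc46_gt.Tame

/-!
Tools for the Lagrangian lemma: hermitian Poincaré duality and the splitting lemmas.
-/

open Set Topology

namespace Pool.Agent.HH

variable {F G : Type} [Field F] [StarRing F] [AddCommGroup G] [Module F G]

namespace RLagA

/-- The conjugate module. -/
def Cj (F E : Type) : Type := let _ := F; E

section Cj

variable {E : Type} [AddCommGroup E] [Module F E]

instance : AddCommGroup (Cj F E) := inferInstanceAs (AddCommGroup E)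

instance : Module F (Cj F E) := Module.compHom E (starRingEnd F)

/-- The identity as an additive map from the conjugate module. -/
def unc : Cj F E →+ E := AddMonoidHom.id E

/-- An endomorphism as an endomorphism of the conjugate module. -/
def cj : Module.End F E →* Module.End F (Cj F E) where
  toFun L :=
    { toFun := fun x => L x
      map_add' := L.map_add
      map_smul' := fun c x => L.map_smul (star c) x }
  map_one' := rfl
  map_mul' _ _ := rfl

/-- A conjugate linear map as a linear map on the conjugate module. -/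
def lin {H : Type} [AddCommGroup H] [Module F H] (Θ : E →ₗ⋆[F] H) : Cj F E →ₗ[F] H where
  toFun x := Θ x
  map_add' := Θ.map_add
  map_smul' c x := (Θ.map_smulₛₗ (star c) x).trans (by rw [starRingEnd_apply, star_star]; rfl)

end Cj

theorem bij_of_inj {F E E' : Type} [Field F] [AddCommGroup E] [Module F E] [AddCommGroup E']
    [Module F E'] [FiniteDimensional F E] (β : E' →ₗ[F] E →ₗ[F] F) (h : Function.Injective β)
    (h' : Function.Injective β.flip) : Function.Bijective β := by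
  have : FiniteDimensional F E' := Module.Finite.of_injective β h
  have h1 := LinearMap.finrank_le_finrank_of_injective h
  have h2 := LinearMap.finrank_le_finrank_of_injective h'
  have h3 : Module.finrank F (E →ₗ[F] F) = Module.finrank F E := Subspace.dual_finrank_eq
  have h4 : Module.finrank F (E' →ₗ[F] F) = Module.finrank F E' := Subspace.dual_finrank_eq
  exact ⟨h, (LinearMap.injective_iff_surjective_of_finrank_eq_finrank (by omega)).1 h⟩

variable (cf : Coef F G)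

/-- The pairing on the quotient. -/
noncomputable def bq : Cj F (Qk cf.T (2 * cf.m)) →ₗ[F] Qk cf.T (2 * cf.m) →ₗ[F] F :=
  lin ((LinearMap.range (cf.T ^ (2 * cf.m))).liftQ
    ((LinearMap.range (cf.T ^ (2 * cf.m))).liftQ cf.B fun x hx =>
      LinearMap.ext ((cf.ker x).2 hx)).flip fun y hy => LinearMap.ext fun e => by
    obtain ⟨x, rfl⟩ := Submodule.mkQ_surjective _ e
    exact (cf.ker_right y).2 hy x)

theorem bq_pk (x y : G) : bq cf (pk cf.T (2 * cf.m) x) (pk cf.T (2 * cf.m) y) = cf.B y x := rfl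

theorem bq_bij : Function.Bijective (bq cf) := by
  have := cf.finite_Qk (2 * cf.m)
  refine bij_of_inj _ ((injective_iff_map_eq_zero _).2 fun e he => ?_)
    ((injective_iff_map_eq_zero _).2 fun e he => ?_)
  · obtain ⟨x, rfl⟩ := (LinearMap.range (cf.T ^ (2 * cf.m))).mkQ_surjective e
    exact (Submodule.Quotient.mk_eq_zero _).2
      ((cf.ker_right x).1 fun y => LinearMap.congr_fun he (pk cf.T (2 * cf.m) y))
  · obtain ⟨x, rfl⟩ := (LinearMap.range (cf.T ^ (2 * cf.m))).mkQ_surjective e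
    exact (Submodule.Quotient.mk_eq_zero _).2
      ((cf.ker x).1 fun y => LinearMap.congr_fun he (pk cf.T (2 * cf.m) y))

theorem inj_pow (k : ℕ) : Function.Injective (cf.T ^ k) := by
  rw [Module.End.coe_pow]
  exact cf.inj.iterate k

theorem ker_le (k : ℕ) : LinearMap.ker (pk cf.T k) ≤ LinearMap.range (cf.T ^ k) :=
  (Submodule.ker_mkQ _).le

theorem pk_half {e : G} (h : pk cf.T (2 * cf.m) ((cf.T ^ cf.m) e) = 0) : pk cf.T cf.m e = 0 := by
  obtain ⟨x, hx⟩ := (Submodule.Quotient.mk_eq_zero _).1 h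
  rw [two_mul, pow_add, Module.End.mul_apply] at hx
  exact (Submodule.Quotient.mk_eq_zero _).2 ⟨x, inj_pow cf _ hx⟩

variable {Y : Type} {τ : Y → Y → Module.End F G}

theorem red_pow {k : ℕ} (hk : cf.m ≤ k) (ψ : List Y → G) : cf.red (cm (cf.T ^ k) ψ) = 0 := by
  funext l
  refine (Submodule.Quotient.mk_eq_zero _).2 ⟨(cf.T ^ (k - cf.m)) (ψ l), ?_⟩
  rw [← Module.End.mul_apply, ← pow_add, Nat.add_sub_cancel' hk]
  rfl

theorem pow_dT (hc : cf.CompatT τ) (k : ℕ) (ψ : List Y → G) :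
    cm (cf.T ^ k) (dT τ ψ) = dT τ (cm (cf.T ^ k) ψ) :=
  cm_dT _ _ _ (fun x y e => (LinearMap.congr_fun ((hc x y).1.pow_right k).eq e).symm) ψ

theorem cm_cut {R E E' : Type} [CommRing R] [AddCommGroup E] [Module R E] [AddCommGroup E']
    [Module R E'] (π : E →ₗ[R] E') (T : Set Y) (φ : List Y → E) :
    cm π (cut R E T φ) = cut R E' T (cm π φ) := by
  funext l
  match l with
  | [] => exact π.map_zero
  | x :: l => by_cases h : x ∈ T <;> simp [cm, cut, cutF, h]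

theorem mem_all [TopologicalSpace Y] {R E : Type} [CommRing R] [AddCommGroup E] [Module R E]
    {n : ℕ} {S S' : Set Y} {φ : List Y → E} (hs : S ⊆ S') (h : φ ∈ N R E n Sᶜ)
    (h' : φ ∈ N R E n S') : φ ∈ N R E n (univ : Set Y) :=
  N_mono (fun p _ => (em (p ∈ S)).elim (fun hp => Or.inr (hs hp)) Or.inl) (mem_N_union.2 ⟨h, h'⟩)

end RLagA

section

open RLagA

namespace Coef

variable (cf : Coef F G)

theorem pd_herm {X : Set Y4} (hX : IsOpen X) {τ : Y4 → Y4 → Module.End F G} (hc : cf.CompatT τ)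
    (hτ : IsCoc τ X) {c : List Y4 → G} (hcc : c ∈ Cc F G 4 X) (hd : dT τ c ∈ N F G 5 univ)
    (h : ∀ y : List Y4 → G, cm (pk cf.T (2 * cf.m)) (dT τ y) ∈ N F _ 3 X →
      IY F (cup (biA cf.B) τ 1 y c) = 0) :
    ∃ c' ∈ Cc F G 3 X, cm (pk cf.T (2 * cf.m)) (c - dT τ c') ∈ N F _ 4 (univ : Set Y4) := by
  have := cf.finite_Qk (2 * cf.m)
  have hT : ∀ x y, Commute (τ x y) cf.T := fun x y => (hc x y).1
  have hb := hτ.bar hT (2 * cf.m)
  have hs := (LinearMap.range (cf.T ^ (2 * cf.m))).mkQ_surjective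
  obtain ⟨K, hK, hKX, hcK⟩ := hcc
  obtain ⟨c₁, ⟨K', hK', hKX', h1⟩, h2⟩ := pd_cY hX hb (hb.map cj) (bq cf) (bq_bij cf)
    (fun x y e' e => by
      obtain ⟨u, rfl⟩ := hs e'
      obtain ⟨v, rfl⟩ := hs e
      change bq cf (barE cf.T _ (τ x y) (pk cf.T _ u)) (barE cf.T _ (τ x y) (pk cf.T _ v)) = _
      rw [← barE_pk (hT x y), ← barE_pk (hT x y)]
      exact (hc x y).2.2 v u) (n := 2) (j := 4) (by norm_num) (by norm_num) rfl
    (c := cm (pk cf.T (2 * cf.m)) c) ⟨K, hK, hKX, cm_mem_N _ hcK⟩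
    (by rw [← cm_pk_dT hT]; exact cm_mem_N _ hd) (fun y' hy' => by
      obtain ⟨y, hy, -⟩ := exists_cm_lift (pk cf.T (2 * cf.m)) hs fun l => unc (y' l)
      have h3 : cm (pk cf.T (2 * cf.m)) (dT τ y) ∈ N F _ 3 X := by
        rw [cm_pk_dT hT, hy, ← add_dT unc (fun x y => cj (bar cf.T (2 * cf.m) τ x y)) _
          (fun _ _ _ => rfl)]
        exact map_mem_N hy' fun l hl => hl
      have h4 : cup (biA cf.B) τ 1 y c ∈ N F F 5 Kᶜ := cup_mem_N_right _ _ 1 y hcK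
      have h5 : dT (triv F F Y4) (cup (biA cf.B) τ 1 y c) ∈ N F F 6 univ := by
        refine mem_all hKX (dT_mem_N _ h4) ?_
        have h6 := RForm.leib cf hc hτ (p := 1) (n := 6) (by norm_num) y c
        have h7 : cup (biA cf.B) τ 1 y (dT τ c) ∈ N F F 6 X :=
          cup_mem_N_right _ _ 1 y (N_mono (subset_univ _) hd)
        have h8 : cup (biA cf.B) τ 2 (dT τ y) c ∈ N F F 6 X :=
          cup_mem_N_ker (pk cf.T (2 * cf.m)) (0 : G →ₗ[F] G) _ _ (fun x y e₁ e₂ h₁ _ =>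
            (cf.ker e₁).2 ((Submodule.Quotient.mk_eq_zero _).1 h₁) _) (p := 2) (q := 4)
            (by norm_num) h3 (Submodule.zero_mem _)
        have h9 := Submodule.add_mem _ (Submodule.sub_mem _ h6 h7) h8
        convert h9 using 1
        simp
      have h6 : cup (biA (bq cf)) (bar cf.T (2 * cf.m) τ) (2 - 1) y' (cm (pk cf.T (2 * cf.m)) c) =
          -fun l => star (cup (biA cf.B) τ 1 y c l) := by
        funext l
        have h7 : y' (l.take 2) = pk cf.T (2 * cf.m) (y (l.take 2)) := (congrFun hy _).symm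
        have h8 : ∀ (l m : List Y4) e, tp (bar cf.T (2 * cf.m) τ) l m (pk cf.T (2 * cf.m) e) =
            pk cf.T (2 * cf.m) (tp τ l m e) := fun l m e => by
          match l, m with
          | [], _ => rfl
          | _ :: _, [] => rfl
          | x :: _, z :: _ => exact (barE_pk (hT x z) _ e).symm
        change bq cf (y' (l.take 2)) (tp _ l (l.drop 1) (pk cf.T _ (c (l.drop 1)))) = _
        rw [h7, h8, bq_pk, cf.skew]
        rfl
      rw [h6, map_neg, IY_star ⟨K, hK, subset_univ _, h4⟩ h5, h y h3, star_zero, neg_zero])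
  obtain ⟨c', hc', h0⟩ := exists_cm_lift (pk cf.T (2 * cf.m)) hs c₁
  refine ⟨c', ⟨K', hK', hKX', map_mem_N h1 h0⟩, ?_⟩
  rwa [map_sub, cm_pk_dT hT, hc']

variable {Y : Type} [TopologicalSpace Y] {τ : Y → Y → Module.End F G} {X : Set Y}

theorem split_two (hc : cf.CompatT τ) (hτ : IsCoc τ X) (h0 : Acyc0 (cf.br τ) X)
    (k : TK cf.T cf.m (2 * cf.m) τ 2 X) {y : List Y → G}
    (hy : cm (pk cf.T (2 * cf.m)) (dT τ y) ∈ N F _ 3 X) :
    ∃ φ ψ : List Y → G, y - dT τ φ - cm (cf.T ^ cf.m) ψ ∈ N F G 2 X ∧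
      cf.red (dT τ ψ) ∈ N F _ 3 X := by
  have hT : ∀ x y, Commute (τ x y) cf.T := fun x y => (hc x y).1
  obtain ⟨φ₁, h1⟩ := k _ (cm_pk_dT hT _ y ▸ hy)
  obtain ⟨φ₀, rfl, -⟩ := exists_cm_lift (pk cf.T (2 * cf.m)) (Submodule.mkQ_surjective _) φ₁
  have h2 : cm (pk cf.T (2 * cf.m)) (cm (cf.T ^ cf.m) y - dT τ φ₀) ∈ N F _ 2 X := by
    rw [map_sub, cm_pk_dT hT]
    convert h1 using 2
    funext l
    exact barE_pk ((Commute.refl cf.T).pow_left _) _ _
  obtain ⟨ψ, -, -, h3⟩ := exists_div _ _ (ker_le cf (2 * cf.m)) (cm (cf.T ^ cf.m) y - dT τ φ₀)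
  have h4 := h3 2 X h2
  have h5 : cf.red φ₀ ∈ N F _ 1 X := by
    have := Submodule.neg_mem _ (cm_mem_N (pk cf.T cf.m) h4)
    rw [map_sub, map_sub, red_pow cf le_rfl, red_pow cf (by omega), cf.red_dT hc] at this
    exact h0 _ (by simpa using this)
  obtain ⟨φ, -, -, h6⟩ := exists_div _ _ (ker_le cf cf.m) φ₀
  have h7 := dT_mem_N τ (h6 1 X h5)
  have h8 : y - dT τ φ - cm (cf.T ^ cf.m) ψ ∈ N F G 2 X := by
    refine mem_N_of_cm (inj_pow cf cf.m) ?_
    have e : cm (cf.T ^ cf.m) (cm (cf.T ^ cf.m) ψ) = cm (cf.T ^ (2 * cf.m)) ψ := by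
      rw [two_mul, pow_add]
      rfl
    have := Submodule.add_mem _ h4 h7
    rw [map_sub, ← pow_dT cf hc] at this
    rw [map_sub, map_sub, e]
    convert this using 1
    abel
  refine ⟨φ, ψ, h8, ?_⟩
  have h9 := cm_mem_N (pk cf.T (2 * cf.m))
    (Submodule.add_mem _ (dT_mem_N τ h8) (dT_dT_mem_N hτ 3 φ))
  have h10 := Submodule.sub_mem _ hy h9
  rw [← map_sub, map_sub (dT τ), map_sub (dT τ), ← pow_dT cf hc] at h10
  refine map_mem_N h10 fun l hl => pk_half cf ?_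
  rw [← hl]
  simp [cm]
  abel

theorem exa_of_two (hc : cf.CompatT τ) (hτ : IsCoc τ X) (h0 : Acyc0 (cf.br τ) X)
    (k : TK cf.T cf.m (2 * cf.m) τ 2 X) {y : List Y → G}
    (hy : cm (pk cf.T (2 * cf.m)) (dT τ y) ∈ N F _ 3 X) : Exa (cf.br τ) 2 X (cf.red y) := by
  obtain ⟨φ, ψ, h1, -⟩ := cf.split_two hc hτ h0 k hy
  have h2 := cm_mem_N (pk cf.T cf.m) h1
  rw [map_sub, map_sub, red_pow cf le_rfl, sub_zero, cf.red_dT hc] at h2
  exact ⟨_, h2⟩

/-- Division of the coboundary of an element of `W3`. -/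
theorem exists_quot {τ : S3 → S3 → Module.End F G} {M : Set S3} (hc : cf.CompatT τ)
    (hτ : IsCoc τ M) {a : List S3 → G} (ha : a ∈ cf.W3 τ M) :
    ∃ c ∈ Cc F G 3 M, dT τ a - cm (cf.T ^ cf.m) c ∈ N F G 3 (univ : Set S3) ∧
      dT τ c ∈ N F G 4 (univ : Set S3) := by
  obtain ⟨h1, K, hK, hKM, h2⟩ := ha
  obtain ⟨c, h3, -, h4⟩ := exists_div _ _ (ker_le cf cf.m) (dT τ a)
  have h5 : c ∈ N F G 3 Kᶜ :=
    map_mem_N (N_mono (compl_eq_univ_sdiff K).subset (dT_mem_N τ h2)) h3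
  refine ⟨c, ⟨K, hK, hKM, h5⟩, h4 3 _ h1, mem_all hKM (dT_mem_N τ h5) ?_⟩
  refine mem_N_of_cm (inj_pow cf cf.m) ?_
  have h6 := Submodule.sub_mem _ (dT_dT_mem_N hτ 4 a)
    (dT_mem_N τ (N_mono (subset_univ M) (h4 3 _ h1)))
  rwa [map_sub, sub_sub_cancel, ← pow_dT cf hc] at h6

end Coef

/-- The hypotheses of the Lagrangian lemma. -/
structure LagD (cf : Coef F G) (C D : ℝ → S3) (A : ℝ → ℝ → Y4) (τ : Y4 → Y4 → Module.End F G)
    (t₀ t₁ : ℝ) : Prop where
  ann : IsAnn C D A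
  cmp : cf.CompatT τ
  coc : IsCoc τ (rng A)ᶜ
  h₀ : t₀ ≤ 0
  h₁ : 1 ≤ t₁
  ti : ∀ p q, τ p q = τ (clampT t₀ t₁ p) (clampT t₀ t₁ q)
  mer : MerAc (ℝ × ℝ) univ (rng A) (cf.br τ)
  tk2 : TK cf.T cf.m (2 * cf.m) τ 2 (rng A)ᶜ
  tk3 : TK cf.T cf.m (2 * cf.m) τ 3 (rng A)ᶜ

variable {cf : Coef F G} {C D : ℝ → S3} {A : ℝ → ℝ → Y4} {τ : Y4 → Y4 → Module.End F G}
  {t₀ t₁ : ℝ}

theorem LagD.acyc0 (h : LagD cf C D A τ t₀ t₁) : Acyc0 (cf.br τ) (rng A)ᶜ := by
  rw [compl_eq_univ_sdiff]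
  exact acyc0_diff h.ann.flat isOpen_univ isPreconnected_univ ⟨_, ⟨(0, 0), rfl⟩, trivial⟩
    ((cf.isCoc_br h.cmp h.coc).mono fun p hp => hp.2) h.mer

theorem LagD.to_lag (h : LagD cf C D A τ t₀ t₁) {ψ : List Y4 → G}
    (hψ : cf.red (dT τ ψ) ∈ N F _ 3 (rng A)ᶜ) :
    ∃ y ∈ cf.Lag τ (rng A), Exa (cf.br τ) 2 (rng A)ᶜ (cf.red (ψ - y)) := by
  have hτ := cf.isCoc_br h.cmp h.coc
  rw [cf.red_dT h.cmp] at hψ
  obtain ⟨φ₁, T, hT, hTA, h1⟩ := collar_cut h.ann.flat h.ann.isClosed hτ h.mer hψ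
  obtain ⟨φ, rfl, -⟩ := exists_cm_lift (pk cf.T cf.m) (Submodule.mkQ_surjective _) φ₁
  have h2 : cut F G T (ψ - dT τ φ) ∈ N F G 2 (rng A) :=
    N_mono (hT.closure_eq.symm ▸ hTA.subset_compl_left) (cut_mem_N_compl T 2 _)
  have h3 : cf.red (cut F G T (ψ - dT τ φ)) =
      cut F _ T (cf.red ψ - dT (cf.br τ) (cf.red φ)) := by
    rw [cm_cut, map_sub (cf.red), cf.red_dT h.cmp]
  refine ⟨_, ⟨mem_all (S := rng A) subset_rfl ?_ (cm_mem_N _ (dT_mem_N τ h2)), h2⟩, cf.red φ, ?_⟩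
  · have := Submodule.sub_mem _ (Submodule.sub_mem _ hψ (dT_dT_mem_N hτ 3 (cf.red φ)))
      (dT_mem_N (cf.br τ) h1)
    rwa [← map_sub, ← map_sub, sub_sub_cancel, ← h3, ← cf.red_dT h.cmp] at this
  · rwa [map_sub, h3, sub_right_comm]

/-- The cochains of the Lagrangian form a submodule. -/
def Coef.LagS (cf : Coef F G) (τ : Y4 → Y4 → Module.End F G) (A : Set Y4) :
    Submodule F (List Y4 → G) where
  carrier := cf.Lag τ A
  add_mem' := by
    rintro a b ⟨h₁, h₂⟩ ⟨h₃, h₄⟩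
    exact ⟨by simpa only [map_add] using Submodule.add_mem _ h₁ h₃, Submodule.add_mem _ h₂ h₄⟩
  zero_mem' := ⟨by simp, Submodule.zero_mem _⟩
  smul_mem' := by
    rintro c a ⟨h₁, h₂⟩
    exact ⟨by simpa only [map_smul] using Submodule.smul_mem _ c h₁, Submodule.smul_mem _ _ h₂⟩

end

end Pool.Agent.HH
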