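import Pool.Agent.P.MP_c8dc46_gt.LagA

/-!
Slices. An end of the annulus is described by `EndD`: on `S³ × I` the annulus is the product with
the knot `E` and the system is pulled back from `τE`.
-/

open Set Topology

namespace Pool.Agent.HH

variable {F G : Type} [Field F] [StarRing F] [AddCommGroup G] [Module F G] {cf : Coef F G}
  {C D E : ℝ → S3} {A : ℝ → ℝ → Y4} {τ : Y4 → Y4 → Module.End F G} {t₀ t₁ : ℝ}
  {τE : S3 → S3 → Module.End F G} {I : Set ℝ}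

/-- A product end. -/
structure EndD (A : ℝ → ℝ → Y4) (τ : Y4 → Y4 → Module.End F G) (E : ℝ → S3)
    (τE : S3 → S3 → Module.End F G) (I : Set ℝ) : Prop where
  isOpen : IsOpen I
  convex : Convex ℝ I
  closed : IsClosed (range E)
  mem : ∀ p : Y4, p.2 ∈ I → (p ∈ rng A ↔ p.1 ∈ range E)
  eq : ∀ p q : Y4, p.2 ∈ I → q.2 ∈ I → τ p q = τE p.1 q.1
  coc : IsCoc τE (range E)ᶜ

namespace RLagB

theorem cont_sl (t : ℝ) (S : Set S3) : ∀ p ∈ S, ContinuousAt (sl t) p :=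
  fun _ _ => (continuous_id.prodMk continuous_const).continuousAt

theorem pull_sl_fst {R H : Type} [CommRing R] [AddCommGroup H] [Module R H] (t : ℝ)
    (c : List S3 → H) : pull R H (sl t) (pull R H Prod.fst c) = c := by
  rw [pull_pull]
  funext l
  change c (l.map id) = c l
  rw [List.map_id]

theorem slice_compact (t : ℝ) : IsCompact {p : Y4 | p.2 = t} := by
  have : {p : Y4 | p.2 = t} = (univ : Set S3) ×ˢ {t} := by
    ext p
    simp
  rw [this]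
  exact isCompact_univ.prod isCompact_singleton

theorem lag_W {S B : Set Y4} (hS : IsCompact S) {y : List Y4 → G} (hy : y ∈ cf.Lag τ B) :
    y ∈ cf.W τ S Bᶜ := by
  obtain ⟨V, hV, hBV, h⟩ := exists_open_of_mem_N hy.2
  exact ⟨N_mono (subset_univ _) hy.1, S \ V, hS.diff hV, fun p hp hB => hp.2 (hBV hB),
    N_mono (S := S \ (S \ V)) (fun p hp => by_contra fun hn => hp.2 ⟨hp.1, hn⟩) h⟩

omit [StarRing F] in
theorem pb_sl (e : EndD A τ E τE I) {t : ℝ} (ht : t ∈ I) : pb (sl t) τ = τE :=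
  funext fun _ => funext fun _ => e.eq _ _ ht ht

omit [StarRing F] in
theorem loc (e : EndD A τ E τE I) : LocEq τ (pb Prod.fst τE) {p : Y4 | p.2 ∈ I} := fun _ hp =>
  ⟨Prod.snd ⁻¹' I, (e.isOpen.preimage continuous_snd).mem_nhds hp, fun x hx y hy => e.eq x y hx hy⟩

omit [StarRing F] in
theorem maps (e : EndD A τ E τE I) {t : ℝ} (ht : t ∈ I) : MapsTo (sl t) (range E)ᶜ (rng A)ᶜ :=
  fun p hp hA => hp ((e.mem (sl t p) ht).1 hA)

theorem prod_exa (e : EndD A τ E τE I) (hc : cf.CompatT τE) {t : ℝ} (ht : t ∈ I)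
    {y : List Y4 → G} (hy : cf.red (dT τ y) ∈ N F _ 3 (rng A)ᶜ) :
    Exa (cf.br (pb Prod.fst τE)) 2 ((range E)ᶜ ×ˢ I)
      (cf.red (y - pull F G Prod.fst (pull F G (sl t) y))) := by
  have h1 := Submodule.sub_mem _
    (N_mono (S := (range E)ᶜ ×ˢ I) (fun p hp hA => hp.1 ((e.mem p hp.2).1 hA)) hy)
    (N_mono (fun p hp => hp.2) (cm_mem_N (pk cf.T cf.m) (dT_congr (loc e) 3 y)))
  rw [map_sub, sub_sub_cancel, cf.red_dT (hc.pb _)] at h1
  rw [map_sub]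
  exact prod_one e.closed.isOpen_compl (fun _ _ _ hU => exists_cvx_S3 hU) e.isOpen e.convex ht
    (cf.isCoc_br hc e.coc) h1

theorem fst_W (e : EndD A τ E τE I) {t : ℝ} (ht : t ∈ I) {a : List S3 → G}
    (ha : a ∈ cf.W3 τE (range E)ᶜ) :
    pull F G Prod.fst a ∈ cf.W τ {p : Y4 | p.2 = t} (rng A)ᶜ := by
  obtain ⟨h0, K, hK, hKE, h1⟩ := ha
  have hI : {p : Y4 | p.2 = t} ⊆ {p : Y4 | p.2 ∈ I} := fun p hp => show p.2 ∈ I from hp.symm ▸ ht
  refine ⟨?_, K ×ˢ {t}, hK.prod isCompact_singleton,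
    fun p hp hA => hKE hp.1 ((e.mem p (hI hp.2)).1 hA),
    pull_mem_N (S := univ \ K) (fun _ _ => continuousAt_fst)
      (fun p hp => ⟨trivial, fun h => hp.2 ⟨h, hp.1⟩⟩) h1⟩
  have e1 : cf.red (pull F G Prod.fst (dT τE a)) ∈ N F _ 3 {p : Y4 | p.2 = t} :=
    pull_mem_N (fun _ _ => continuousAt_fst) (mapsTo_univ _ _) h0
  have := Submodule.add_mem _
    (cm_mem_N (pk cf.T cf.m) (dT_congr ((loc e).mono hI) 3 (pull F G Prod.fst a))) e1
  rwa [← map_add, pull_dT, sub_add_cancel] at this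

theorem lam_sub (h : LagD cf C D A τ t₀ t₁) (e : EndD A τ E τE I) (hc : cf.CompatT τE)
    {t : ℝ} (ht : t ∈ I) {y : List Y4 → G} (hy : y ∈ cf.Lag τ (rng A)) {b : List Y4 → G}
    (hb : b ∈ cf.W τ {p : Y4 | p.2 = t} (rng A)ᶜ) :
    cf.lam (Jt F t) τ b (y - pull F G Prod.fst (pull F G (sl t) y)) = 0 := by
  have hI : (rng A)ᶜ ∩ {p : Y4 | p.2 = t} ⊆ {p : Y4 | p.2 ∈ I} := fun p hp =>
    show p.2 ∈ I from hp.2.symm ▸ ht
  refine cf.lam_exa (isInt_Jt t) h.cmp (h.coc.mono inter_subset_left) hb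
    (((prod_exa e hc ht (N_mono (subset_univ _) hy.1)).mono
      fun p hp => ⟨fun hE => hp.1 ((e.mem p (hI hp)).2 hE), hI hp⟩).congr fun p hp => ?_)
  obtain ⟨U, hU, hxy⟩ := loc e p (hI hp)
  exact ⟨U, hU, fun x hx y hy => congrArg (barE cf.T cf.m) (hxy x hx y hy).symm⟩

end RLagB

open RLagB

theorem LagD.end_low (h : LagD cf C D A τ t₀ t₁) :
    EndD A τ C (pb (sl (t₀ - 1)) τ) (Iio t₀) := by
  have h₀ := h.h₀
  have hcl : ∀ p : Y4, p.2 ≤ t₀ → clampT t₀ t₁ p = (p.1, t₀) := fun p hp =>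
    Prod.ext rfl (max_eq_left ((min_le_left _ _).trans hp))
  refine ⟨isOpen_Iio, convex_Iio _, ?_, fun p hp => h.ann.low_iff ((le_of_lt hp).trans h₀),
    fun p q hp hq => ?_, h.coc.pb (cont_sl _ _) (h.ann.sl_maps_low (by linarith))⟩
  · have : range C = sl 0 ⁻¹' rng A := Set.ext fun p => (h.ann.low_iff (p := sl 0 p) le_rfl).symm
    rw [this]
    exact h.ann.isClosed.preimage (continuous_id.prodMk continuous_const)
  · unfold pb
    rw [h.ti p q, h.ti (sl _ _), hcl p (le_of_lt hp), hcl q (le_of_lt hq),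
      hcl (sl _ _) (sub_one_lt t₀).le, hcl (sl _ _) (sub_one_lt t₀).le]
    rfl

theorem LagD.end_high (h : LagD cf C D A τ t₀ t₁) :
    EndD A τ D (pb (sl (t₁ + 1)) τ) (Ioi t₁) := by
  have h₁ := h.h₁
  have hcl : ∀ p : Y4, t₁ ≤ p.2 → clampT t₀ t₁ p = (p.1, max t₀ t₁) := fun p hp =>
    Prod.ext rfl (congrArg (max t₀) (min_eq_right hp))
  refine ⟨isOpen_Ioi, convex_Ioi _, ?_, fun p hp => h.ann.high_iff (h₁.trans (le_of_lt hp)),
    fun p q hp hq => ?_, h.coc.pb (cont_sl _ _) (h.ann.sl_maps_high (by linarith))⟩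
  · have : range D = sl 1 ⁻¹' rng A := Set.ext fun p => (h.ann.high_iff (p := sl 1 p) le_rfl).symm
    rw [this]
    exact h.ann.isClosed.preimage (continuous_id.prodMk continuous_const)
  · unfold pb
    rw [h.ti p q, h.ti (sl _ _), hcl p (le_of_lt hp), hcl q (le_of_lt hq),
      hcl (sl _ _) (lt_add_one t₁).le, hcl (sl _ _) (lt_add_one t₁).le]
    rfl

theorem EndD.slice_mem (e : EndD A τ E τE I) {t : ℝ} (ht : t ∈ I) {y : List Y4 → G}
    (hy : y ∈ cf.Lag τ (rng A)) : pull F G (sl t) y ∈ cf.W3 τE (range E)ᶜ := by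
  obtain ⟨V, hV, hs, h⟩ := exists_open_of_mem_N (pull_mem_N (S := rng A) (cont_sl t (range E))
    (fun p hp => (e.mem (sl t p) ht).2 hp) hy.2)
  refine ⟨?_, Vᶜ, hV.isClosed_compl.isCompact, compl_subset_compl.2 hs,
    N_mono (S := univ \ Vᶜ) (fun p hp => not_not.1 hp.2) h⟩
  have h1 : cf.red (pull F G (sl t) (dT τ y)) ∈ N F _ 3 (univ : Set S3) :=
    pull_mem_N (cont_sl t _) (mapsTo_univ _ _) hy.1
  rwa [pull_dT, pb_sl e ht] at h1

theorem EndD.slice_cmp (e : EndD A τ E τE I) (hc : cf.CompatT τE) {t t' : ℝ} (ht : t ∈ I)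
    (ht' : t' ∈ I) {y : List Y4 → G} (hy : cf.red (dT τ y) ∈ N F _ 3 (rng A)ᶜ) :
    Exa (cf.br τE) 2 (range E)ᶜ (cf.red (pull F G (sl t) y - pull F G (sl t') y)) := by
  have h1 : Exa (cf.br τE) 2 (range E)ᶜ (cf.red (pull F G (sl t)
      (y - pull F G Prod.fst (pull F G (sl t') y)))) :=
    (prod_exa e hc ht' hy).pull (cont_sl t (range E)ᶜ) fun p hp => ⟨hp, ht⟩
  rwa [map_sub (pull F G (sl t)), pull_sl_fst] at h1

theorem EndD.slice_exa (e : EndD A τ E τE I) {t : ℝ} (ht : t ∈ I) {y : List Y4 → G}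
    (hy : Exa (cf.br τ) 2 (rng A)ᶜ (cf.red y)) :
    Exa (cf.br τE) 2 (range E)ᶜ (cf.red (pull F G (sl t) y)) := by
  rw [← pb_sl e ht]
  exact hy.pull (cont_sl t _) (maps e ht)

theorem EndD.lam_slice (h : LagD cf C D A τ t₀ t₁) (e : EndD A τ E τE I) (hc : cf.CompatT τE)
    {t : ℝ} (ht : t ∈ I) {y : List Y4 → G} (hy : y ∈ cf.Lag τ (rng A)) {a : List S3 → G}
    (ha : a ∈ cf.W3 τE (range E)ᶜ) :
    cf.lam (Jt F t) τ y (pull F G Prod.fst a) = cf.lam3 τE (pull F G (sl t) y) a := by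
  have k := cf.isSkew_lam (isInt_Jt t) h.cmp
    (h.coc.mono (inter_subset_left (t := {p : Y4 | p.2 = t})))
  have hs := e.slice_mem ht hy
  have w₁ := fst_W e ht ha
  have w₂ := fst_W e ht hs
  have h1 := k.skew _ w₁ _ (Submodule.sub_mem _ (lag_W (slice_compact t) hy) w₂)
  rw [lam_sub h e hc ht hy w₁, star_zero, neg_zero, k.sub_left, sub_eq_zero] at h1
  rw [h1, cf.lam_congr_tau (isInt_Jt t)
    ((loc e).mono fun p hp => show p.2 ∈ I from hp.2.symm ▸ ht) w₂]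
  unfold Coef.lam3 Coef.lam
  rw [← pull_dT, ← pull_cup (R₃ := F)]
  exact Jt_pull_fst t (cf.lam_closed hc (e.coc.mono inter_subset_left) hs
    (N_mono (subset_univ _) ha.1))

theorem EndD.lam_slice₂ (h : LagD cf C D A τ t₀ t₁) (e : EndD A τ E τE I) (hc : cf.CompatT τE)
    {t : ℝ} (ht : t ∈ I) {y y' : List Y4 → G} (hy : y ∈ cf.Lag τ (rng A))
    (hy' : y' ∈ cf.Lag τ (rng A)) :
    cf.lam (Jt F t) τ y y' = cf.lam3 τE (pull F G (sl t) y) (pull F G (sl t) y') := by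
  have k := cf.isSkew_lam (isInt_Jt t) h.cmp
    (h.coc.mono (inter_subset_left (t := {p : Y4 | p.2 = t})))
  have h1 := lam_sub h e hc ht hy' (lag_W (slice_compact t) hy)
  rw [k.sub_right, sub_eq_zero] at h1
  rw [h1, e.lam_slice h hc ht hy (e.slice_mem ht hy')]

theorem LagD.iso (h : LagD cf C D A τ t₀ t₁) {y y' : List Y4 → G} (hy : y ∈ cf.Lag τ (rng A))
    (hy' : y' ∈ cf.Lag τ (rng A)) :
    cf.lam3 (pb (sl (t₀ - 1)) τ) (pull F G (sl (t₀ - 1)) y) (pull F G (sl (t₀ - 1)) y') =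
      cf.lam3 (pb (sl (t₁ + 1)) τ) (pull F G (sl (t₁ + 1)) y) (pull F G (sl (t₁ + 1)) y') := by
  rw [← h.end_low.lam_slice₂ h (h.cmp.pb _) (sub_one_lt t₀) hy hy',
    ← h.end_high.lam_slice₂ h (h.cmp.pb _) (lt_add_one t₁) hy hy']
  have hS : IsCompact {p : Y4 | t₀ - 1 ≤ p.2 ∧ p.2 ≤ t₁ + 1} := by
    have : {p : Y4 | t₀ - 1 ≤ p.2 ∧ p.2 ≤ t₁ + 1} = (univ : Set S3) ×ˢ Icc (t₀ - 1) (t₁ + 1) := by
      ext p
      simp
    rw [this]
    exact isCompact_univ.prod isCompact_Icc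
  exact Jt_indep (by linarith [h.h₀, h.h₁]) (cf.lam_closed h.cmp (h.coc.mono inter_subset_left)
    (lag_W hS hy) (N_mono (subset_univ _) hy'.1))

end Pool.Agent.HH
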