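import Pool.Agent.P.MP_c8dc46_gt.LagB

/-!
The pairing of cocycles on the exterior with the collar cochains
`jc τ t c = d χ_t ∪ pull fst c`, supported on the compact set `K × {t}`.
-/

open Set Topology

namespace Pool.Agent.HH

variable {F G : Type} [Field F] [StarRing F] [AddCommGroup G] [Module F G] {cf : Coef F G}
  {C D E : ℝ → S3} {A : ℝ → ℝ → Y4} {τ : Y4 → Y4 → Module.End F G} {t₀ t₁ : ℝ}
  {τE : S3 → S3 → Module.End F G} {I : Set ℝ}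

/-- The collar cochain. -/
noncomputable def jc (τ : Y4 → Y4 → Module.End F G) (t : ℝ) (c : List S3 → G) : List Y4 → G :=
  lc τ (jmp {p : Y4 | t < p.2}) (pull F G Prod.fst c)

namespace RLagC

theorem N_univ {R H : Type} [CommRing R] [AddCommGroup H] [Module R H] {n : ℕ} (X : Set Y4)
    {φ : List Y4 → H} (h : φ ∈ N R H n X) (h' : φ ∈ N R H n Xᶜ) : φ ∈ N R H n (univ : Set Y4) := by
  rw [← union_compl_self X]
  exact mem_N_union.2 ⟨h, h'⟩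

theorem fr_sub (t : ℝ) : {p : Y4 | p.2 = t}ᶜ ⊆ (frontier {p : Y4 | t < p.2})ᶜ :=
  compl_subset_compl.2 fun _ hf => (frontier_lt_subset_eq continuous_const continuous_snd hf).symm

theorem slice_compact (t : ℝ) : IsCompact {p : Y4 | p.2 = t} := by
  have : {p : Y4 | p.2 = t} = (univ : Set S3) ×ˢ {t} := by
    ext p
    simp
  rw [this]
  exact isCompact_univ.prod isCompact_singleton

omit [StarRing F] in
theorem lc_off (τ : Y4 → Y4 → Module.End F G) (t : ℝ) (n : ℕ) (φ : List Y4 → G) :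
    lc τ (jmp {p : Y4 | t < p.2}) φ ∈ N F G n {p : Y4 | p.2 = t}ᶜ :=
  lc_mem_N_of_locEq _ ((jmp_locEq _).mono (fr_sub t)) n φ

omit [StarRing F] in
theorem pull_fst {n : ℕ} {φ : List S3 → G} (h : φ ∈ N F G n (univ : Set S3)) (S : Set Y4) :
    pull F G Prod.fst φ ∈ N F G n S :=
  pull_mem_N (fun _ _ => continuousAt_fst) (mapsTo_univ _ _) h

omit [StarRing F] in
theorem d_pull (e : EndD A τ E τE I) {t : ℝ} (ht : t ∈ I) (n : ℕ) (a : List S3 → G) :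
    dT τ (pull F G Prod.fst a) - pull F G Prod.fst (dT τE a) ∈ N F G n {p : Y4 | p.2 = t} := by
  rw [pull_dT]
  refine dT_congr (fun p hp => ⟨Prod.snd ⁻¹' I, ?_, fun x hx y hy => e.eq x y hx hy⟩) n _
  exact (e.isOpen.preimage continuous_snd).mem_nhds (show p.2 ∈ I from hp.symm ▸ ht)

theorem IY_left {X : Set Y4} {z c : List Y4 → G} (hcc : c ∈ Cc F G 4 X)
    (h : cup (biA cf.B) τ 1 z c ∈ N F F 5 X) : IY F (cup (biA cf.B) τ 1 z c) = 0 := by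
  obtain ⟨K, _, hKX, hK⟩ := hcc
  exact (isI_IY F).1 _ (N_univ X h
    (cup_mem_N_right (q := 4) _ _ 1 _ (N_mono (compl_subset_compl.2 hKX) hK)))

theorem B_ker {Y : Type} {τ : Y → Y → Module.End F G} (hc : cf.CompatT τ) (x y : Y) (e₁ e₂ : G)
    (h₁ : pk cf.T cf.m e₁ = 0) (h₂ : pk cf.T cf.m e₂ = 0) : biA cf.B e₁ (τ x y e₂) = 0 :=
  cf.B_Tm_Tm h₁ (by rw [barE_pk (hc x y).1, h₂, map_zero])

theorem cup_pow (hc : cf.CompatT τ) (k : ℕ) (ψ c : List Y4 → G) :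
    cup (biA cf.B) τ 1 (cm (cf.T ^ k) ψ) c =
      cup (biA cf.B) τ 1 (cm (cf.v ^ k) ψ) (cm (cf.T ^ k) c) := by
  funext l
  match l with
  | [] => exact cf.adj_pow k _ _
  | [_] => exact cf.adj_pow k _ _
  | x :: y :: l =>
    rw [cup_one_cons, cup_one_cons]
    exact (cf.adj_pow k _ _).trans
      (congrArg _ (LinearMap.congr_fun ((hc x y).1.pow_right k).eq _).symm)

omit [StarRing F] in
theorem cm_jc {L : Module.End F G} (h : ∀ x y, Commute (τ x y) L) (t : ℝ) (c : List S3 → G) :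
    cm L (jc τ t c) = jc τ t (cm L c) := by
  funext l
  match l with
  | [] => exact L.map_zero
  | [_] => exact L.map_zero
  | x :: y :: l =>
    exact (map_zsmul L _ _).trans (congrArg _ (LinearMap.congr_fun (h x y).eq _).symm)

omit [StarRing F] in
theorem jc_sub (t : ℝ) {c c' : List S3 → G} (h : c - c' ∈ N F G 3 (univ : Set S3)) :
    jc τ t c - jc τ t c' ∈ N F G 4 (univ : Set Y4) := by
  have := lc_mem_N τ (jmp {p : Y4 | t < p.2}) (pull_fst h univ)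
  rwa [map_sub, map_sub] at this

end RLagC

open RLagC

omit [StarRing F] in
theorem EndD.jc_mem (e : EndD A τ E τE I) (hτ : IsCoc τ (rng A)ᶜ) {t : ℝ} (ht : t ∈ I)
    {c : List S3 → G} (hc : c ∈ Cc F G 3 (range E)ᶜ) (hd : dT τE c ∈ N F G 4 (univ : Set S3)) :
    jc τ t c ∈ Cc F G 4 (rng A)ᶜ ∧ dT τ (jc τ t c) ∈ N F G 5 (univ : Set Y4) := by
  obtain ⟨K, hK, hKE, hc⟩ := hc
  have hs : K ×ˢ {t} ⊆ (rng A)ᶜ := fun p hp hA =>
    hKE hp.1 ((e.mem p (show p.2 ∈ I from hp.2.symm ▸ ht)).1 hA)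
  have h1 : jc τ t c ∈ N F G 4 (K ×ˢ {t})ᶜ := by
    refine N_mono (S' := Prod.fst ⁻¹' Kᶜ ∪ {p : Y4 | p.2 = t}ᶜ) (fun p hp => ?_) (mem_N_union.2
      ⟨lc_mem_N _ _ (pull_mem_N (fun _ _ => continuousAt_fst) (mapsTo_preimage _ _) hc),
        lc_off τ t 4 _⟩)
    by_contra hn
    rw [mem_union, not_or] at hn
    exact hp ⟨not_not.1 hn.1, not_not.1 hn.2⟩
  refine ⟨⟨_, hK.prod isCompact_singleton, hs, h1⟩, N_univ (K ×ˢ {t}) ?_ (dT_mem_N τ h1)⟩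
  have e1 := dT_lc_mem_N (hτ.mono hs) (isCocA_jmp {p : Y4 | t < p.2} _) 5 (pull F G Prod.fst c)
  have e2 := Submodule.add_mem _ (d_pull e ht 4 c) (pull_fst hd _)
  rw [sub_add_cancel] at e2
  have e3 := lc_mem_N τ (jmp {p : Y4 | t < p.2})
    (N_mono (S := K ×ˢ {t}) (fun p hp => hp.2) e2)
  have := Submodule.sub_mem _ e1 e3
  rwa [add_sub_cancel_right] at this

theorem pair_exact {X : Set Y4} (hc : cf.CompatT τ) (hτ : IsCoc τ X) {c : List Y4 → G}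
    (hcc : c ∈ Cc F G 4 X) (hd : dT τ c ∈ N F G 5 (univ : Set Y4)) (φ : List Y4 → G) :
    IY F (cup (biA cf.B) τ 1 (dT τ φ) c) = 0 := by
  obtain ⟨K, hK, hKX, hc0⟩ := hcc
  have h0 : cup (biA cf.B) τ 0 φ c ∈ N F F (0 + 4) Kᶜ := cup_mem_N_right _ _ 0 _ hc0
  have e1 := cup_leibniz (biA cf.B) (τ₃ := triv F F Y4) (fun x y e₁ e₂ => (hc x y).2.2 e₁ e₂)
    hτ hτ (isCoc_triv X) (p := 0) (n := 5) (by norm_num) φ c
  have e2 : cup (biA cf.B) τ 0 φ (dT τ c) ∈ N F F (0 + 5) X :=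
    cup_mem_N_right _ _ 0 _ (N_mono (subset_univ X) hd)
  rw [pow_zero, one_smul] at e1
  have e3 := Submodule.add_mem _ e1 e2
  rw [sub_add_cancel] at e3
  have e4 : cup (biA cf.B) τ 1 (dT τ φ) c ∈ N F F (1 + 4) Kᶜ := cup_mem_N_right _ _ 1 _ hc0
  have := (isI_IY F).1 _ (N_univ X e3 (N_mono (compl_subset_compl.2 hKX)
    (Submodule.sub_mem _ (dT_mem_N _ h0) e4)))
  rwa [map_sub, (isI_IY F).2.1 _ ⟨K, hK, subset_univ _, h0⟩, zero_sub, neg_eq_zero] at this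

theorem EndD.pair_lag (h : LagD cf C D A τ t₀ t₁) (e : EndD A τ E τE I) (hc : cf.CompatT τE)
    {t : ℝ} (ht : t ∈ I) {y : List Y4 → G} (hy : y ∈ cf.Lag τ (rng A)) {a : List S3 → G}
    (ha : a ∈ cf.W3 τE (range E)ᶜ) :
    IY F (cup (biA cf.B) τ 1 y (jc τ t (dT τE a))) = -cf.lam3 τE (pull F G (sl t) y) a := by
  rw [← e.lam_slice h hc ht hy ha]
  set T : Set Y4 := {p | t < p.2}
  set c₀ := dT τ (pull F G Prod.fst a)
  have e0 : lc τ (jmp T) c₀ - jc τ t (dT τE a) ∈ N F G 4 (univ : Set Y4) := by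
    have := N_univ _ (lc_mem_N τ (jmp T) (d_pull e ht 3 a)) (lc_off τ t 4 _)
    rwa [map_sub] at this
  have e1 : cup (biA cf.B) τ 1 y (lc τ (jmp T) c₀ - jc τ t (dT τE a)) ∈ N F F (1 + 4) univ :=
    cup_mem_N_right _ _ 1 _ e0
  have e2 := (isI_IY F).1 _ e1
  rw [cup_sub_right, map_sub, sub_eq_zero] at e2
  have s0 := cup_swap (biA cf.B) (τ₃ := triv F F Y4) (fun x y e₁ e₂ => (h.cmp x y).2.2 e₁ e₂)
    h.coc h.coc (isCoc_triv _) T y (c := c₀) (q := 3) (by norm_num) (dT_dT_mem_N h.coc 4 _)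
  have r0 : cf.red c₀ ∈ N F _ 3 {p : Y4 | p.2 = t} := by
    have e3 : cf.red (pull F G Prod.fst (dT τE a)) ∈ N F _ 3 {p : Y4 | p.2 = t} :=
      pull_fst ha.1 _
    have := Submodule.add_mem _ (cm_mem_N (pk cf.T cf.m) (d_pull e ht 3 a)) e3
    rwa [← map_add, sub_add_cancel] at this
  have r1 : cf.red (cut F G T c₀) ∈ N F _ 3 {p : Y4 | p.2 = t} := by
    refine map_mem_N r0 fun l hl => ?_
    match l, hl with
    | [], _ => exact (pk cf.T cf.m).map_zero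
    | x :: l, hl =>
      change pk cf.T cf.m (cutF T c₀ (x :: l)) = 0
      simp only [cutF]
      split_ifs
      · exact hl
      · exact (pk cf.T cf.m).map_zero
  have hy1 := N_mono (subset_univ {p : Y4 | p.2 = t}) hy.1
  have s2 : swp2 (biA cf.B) τ T (dT τ y) c₀ ∈ N F F 5 (univ : Set Y4) :=
    N_univ {p : Y4 | p.2 = t} (Submodule.sub_mem _
      (cup_mem_N_ker _ _ _ _ (B_ker h.cmp) (p := 2) (q := 3) (by norm_num) hy1 r1)
      (cut_mem_N (R := F) T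
        (cup_mem_N_ker _ _ _ _ (B_ker h.cmp) (p := 2) (q := 3) (by norm_num) hy1 r0)))
      (N_mono (fr_sub t) (swp2_mem_N _ _ _ _ _ (by norm_num)))
  have cy : ∀ c n, 2 ≤ n → cup (biA cf.B) τ 1 y c ∈ N F F n (rng A) := fun c n hn =>
    cup_mem_N_left (p := 1) _ _ hn hy.2 c
  have s1 : swp1 (biA cf.B) τ T y c₀ ∈ N F F 4 (rng A) :=
    Submodule.sub_mem _ (cy _ 4 (by norm_num)) (cut_mem_N (R := F) T (cy _ 4 (by norm_num)))
  have s3 := Submodule.add_mem _ s0 (N_mono (subset_univ _) s2)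
  rw [sub_add_cancel] at s3
  have s4 := (isI_IY F).1 _ (N_univ (rng A) (Submodule.add_mem _ (Submodule.add_mem _
    (cy _ 5 (by norm_num)) (lc_mem_N _ _ (cy _ 4 (by norm_num)))) (dT_mem_N _ s1)) s3)
  rw [map_add, map_add, (isI_IY F).2.1 _ ⟨_, slice_compact t, subset_univ _,
    N_mono (fr_sub t) (swp1_mem_N _ _ _ _ _ (by norm_num))⟩, add_zero, e2] at s4
  exact eq_neg_of_add_eq_zero_left s4

theorem LagD.pair_zero (h : LagD cf C D A τ t₀ t₁) {a₁ a₂ c₁ c₂ : List S3 → G}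
    (ha₁ : a₁ ∈ cf.W3 (pb (sl (t₀ - 1)) τ) (range C)ᶜ)
    (ha₂ : a₂ ∈ cf.W3 (pb (sl (t₁ + 1)) τ) (range D)ᶜ) (hc₁ : c₁ ∈ Cc F G 3 (range C)ᶜ)
    (hc₂ : c₂ ∈ Cc F G 3 (range D)ᶜ)
    (q₁ : dT (pb (sl (t₀ - 1)) τ) a₁ - cm (cf.T ^ cf.m) c₁ ∈ N F G 3 (univ : Set S3))
    (q₂ : dT (pb (sl (t₁ + 1)) τ) a₂ - cm (cf.T ^ cf.m) c₂ ∈ N F G 3 (univ : Set S3))
    (d₁ : dT (pb (sl (t₀ - 1)) τ) c₁ ∈ N F G 4 (univ : Set S3))
    (d₂ : dT (pb (sl (t₁ + 1)) τ) c₂ ∈ N F G 4 (univ : Set S3))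
    (ho : ∀ y ∈ cf.Lag τ (rng A), cf.lam3 (pb (sl (t₀ - 1)) τ) (pull F G (sl (t₀ - 1)) y) a₁ =
      cf.lam3 (pb (sl (t₁ + 1)) τ) (pull F G (sl (t₁ + 1)) y) a₂)
    {y : List Y4 → G} (hy : cm (pk cf.T (2 * cf.m)) (dT τ y) ∈ N F _ 3 (rng A)ᶜ) :
    IY F (cup (biA cf.B) τ 1 y (jc τ (t₁ + 1) c₂ - jc τ (t₀ - 1) c₁)) = 0 := by
  have e₁ := h.end_low
  have e₂ := h.end_high
  have m₁ : t₀ - 1 ∈ Iio t₀ := sub_one_lt t₀
  have m₂ : t₁ + 1 ∈ Ioi t₁ := lt_add_one t₁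
  have j₁ := e₁.jc_mem h.coc m₁ hc₁ d₁
  have j₂ := e₂.jc_mem h.coc m₂ hc₂ d₂
  have hT : ∀ p q, Commute (τ p q) (cf.T ^ cf.m) := fun p q => (h.cmp p q).1.pow_right _
  have hv : ∀ p q, Commute (τ p q) (cf.v ^ cf.m) := fun p q => (h.cmp p q).2.1.pow_right _
  have q : cm (cf.T ^ cf.m) (jc τ (t₁ + 1) c₂ - jc τ (t₀ - 1) c₁) -
      (jc τ (t₁ + 1) (dT (pb (sl (t₁ + 1)) τ) a₂) - jc τ (t₀ - 1) (dT (pb (sl (t₀ - 1)) τ) a₁)) ∈
      N F G 4 (univ : Set Y4) := by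
    have := Submodule.sub_mem _ (jc_sub (τ := τ) (t₀ - 1) q₁) (jc_sub (τ := τ) (t₁ + 1) q₂)
    rw [map_sub, cm_jc hT, cm_jc hT]
    rwa [show ∀ a b c d : List Y4 → G, a - b - (c - d) = d - b - (c - a) from
      fun a b c d => by abel] at this
  have hct := Submodule.sub_mem _ j₂.1 j₁.1
  have hd := Submodule.sub_mem _ j₂.2 j₁.2
  rw [← map_sub] at hd
  generalize jc τ (t₁ + 1) c₂ - jc τ (t₀ - 1) c₁ = ct at q hct hd ⊢
  have hct' : cm (cf.T ^ cf.m) ct ∈ Cc F G 4 (rng A)ᶜ :=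
    let ⟨K, hK, hs, hN⟩ := hct; ⟨K, hK, hs, cm_mem_N _ hN⟩
  have hd' : dT τ (cm (cf.T ^ cf.m) ct) ∈ N F G 5 (univ : Set Y4) := by
    rw [← cm_dT _ τ τ fun p q e => (LinearMap.congr_fun (hT p q).eq e).symm]
    exact cm_mem_N _ hd
  obtain ⟨φ, ψ, h1, h2⟩ := cf.split_two h.cmp h.coc h.acyc0 h.tk2 hy
  have h3 : cf.red (dT τ (cm (cf.v ^ cf.m) ψ)) ∈ N F _ 3 (rng A)ᶜ := by
    rw [← cm_dT _ τ τ fun p q e => (LinearMap.congr_fun (hv p q).eq e).symm]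
    refine map_mem_N h2 fun l hl => ?_
    exact (barE_pk (cf.comm.symm.pow_left cf.m) cf.m _).trans
      ((congrArg _ hl).trans (map_zero _))
  obtain ⟨y', hy', φ', h4⟩ := h.to_lag h3
  obtain ⟨φ', rfl, -⟩ := exists_cm_lift (pk cf.T cf.m) (Submodule.mkQ_surjective _) φ'
  rw [← cf.red_dT h.cmp, ← map_sub] at h4
  have z1 := IY_left (cf := cf) (τ := τ) hct (cup_mem_N_left (p := 1) _ _ (by norm_num) h1 _)
  have r : cf.red (cm (cf.T ^ cf.m) ct) ∈ N F _ 4 (rng A)ᶜ := by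
    have : cf.red (cm (cf.T ^ cf.m) ct) = 0 :=
      funext fun l => (Submodule.Quotient.mk_eq_zero _).2 ⟨_, rfl⟩
    rw [this]
    exact Submodule.zero_mem _
  have z2 := IY_left hct'
    (cup_mem_N_ker _ _ _ _ (B_ker h.cmp) (p := 1) (q := 4) (by norm_num) h4 r)
  have z3 := (isI_IY F).1 _ (cup_mem_N_right (R₃ := F) (biA cf.B) τ 1 y' q)
  rw [cup_sub_right, cup_sub_right, map_sub, map_sub, e₂.pair_lag h (h.cmp.pb _) m₂ hy' ha₂,
    e₁.pair_lag h (h.cmp.pb _) m₁ hy' ha₁, ho y' hy', sub_self, sub_zero] at z3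
  rw [cup_sub_left, cup_sub_left, map_sub, map_sub, z3, pair_exact h.cmp h.coc hct' hd',
    sub_zero, sub_zero] at z2
  rwa [cup_sub_left, cup_sub_left, map_sub, map_sub, pair_exact h.cmp h.coc hct hd, cup_pow h.cmp,
    z2, sub_zero, sub_zero] at z1

end Pool.Agent.HH
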