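import Pool.Agent.P.MP_c8dc46_gt.Convex

/-! Abstract Mayer-Vietoris systems: union steps, Wilder type induction, good covers. -/

open Set Topology

namespace Pool.Agent.HH

namespace RMVa

section alg

variable {R P P' : Type} [CommRing R] [AddCommGroup P] [Module R P] [AddCommGroup P'] [Module R P']
  {Z Z' D D' : Submodule R P}

/-- `Z` is finitely generated modulo `D`. -/
def Fm (Z D : Submodule R P) : Prop := ∃ M : Submodule R P, M.FG ∧ M ≤ Z ∧ Z ≤ M ⊔ D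

theorem Fm.of_le_bot (h : Z ≤ D) : Fm Z D := ⟨⊥, Submodule.fg_bot, bot_le, le_sup_of_le_right h⟩

theorem lift (f : P →ₗ[R] P') (h : (Z.map f).FG) : Fm Z (LinearMap.ker f) := by
  classical
  obtain ⟨s, hs⟩ := h
  obtain ⟨t, h₁, rfl⟩ := Finset.subset_set_image_iff.1
    (show (s : Set P') ⊆ f '' Z from Submodule.span_le.1 hs.le)
  refine ⟨_, ⟨t, rfl⟩, Submodule.span_le.2 h₁, fun z hz => ?_⟩
  rw [Finset.coe_image, ← Submodule.map_span] at hs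
  obtain ⟨m, hm, e⟩ := hs.ge (Submodule.mem_map_of_mem hz)
  exact Submodule.mem_sup.2 ⟨m, hm, z - m, by simp [e], by simp⟩

theorem Fm.comap [IsNoetherianRing R] {Y E : Submodule R P'} (h : Fm Y E) (f : P →ₗ[R] P')
    (hZ : Z.map f ≤ Y) : Fm Z (E.comap f) := by
  obtain ⟨M, h₁, -, h₃⟩ := h
  have := lift (Z := Z) (E.mkQ ∘ₗ f) ((h₁.map E.mkQ).of_le (by
    rw [Submodule.map_comp]
    simpa using Submodule.map_mono (f := E.mkQ) (hZ.trans h₃)))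
  rwa [LinearMap.ker_comp, Submodule.ker_mkQ] at this

theorem Fm.mono_right (h : Fm Z D) (hD : Z ⊓ D ≤ D') : Fm Z D' := by
  obtain ⟨M, h₁, h₂, h₃⟩ := h
  refine ⟨M, h₁, h₂, fun z hz => ?_⟩
  obtain ⟨m, hm, x, hx, rfl⟩ := Submodule.mem_sup.1 (h₃ hz)
  exact Submodule.add_mem_sup hm (hD ⟨(Z.add_mem_iff_right (h₂ hm)).1 hz, hx⟩)

theorem Fm.mono [IsNoetherianRing R] (h : Fm Z D) (hZ : Z' ≤ Z) (hD : D ≤ D') : Fm Z' D' :=
  (h.comap .id (by simpa using hZ)).mono_right (inf_le_right.trans hD)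

theorem Fm.trans (h : Fm Z D) (h' : Fm (Z ⊓ D) D') : Fm Z D' := by
  obtain ⟨M, h₁, h₂, h₃⟩ := h.mono_right le_rfl
  obtain ⟨M', h₄, h₅, h₆⟩ := h'
  exact ⟨M ⊔ M', h₁.sup h₄, sup_le h₂ (h₅.trans inf_le_left),
    h₃.trans ((sup_le_sup_left h₆ _).trans_eq (sup_assoc _ _ _).symm)⟩

theorem Fm.map (h : Fm Z D) (f : P →ₗ[R] P') : Fm (Z.map f) (D.map f) := by
  obtain ⟨M, h₁, h₂, h₃⟩ := h
  exact ⟨M.map f, h₁.map f, Submodule.map_mono h₂,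
    (Submodule.map_mono h₃).trans_eq (Submodule.map_sup _ _ _)⟩

end alg

variable {B : Type} [TopologicalSpace B]

/-- Properties of restriction maps that pass to unions. -/
structure Sys (Q : ℤ → Set B → Set B → Prop) : Prop where
  mono : ∀ {n U U' V V'}, Q n U V → U ⊆ U' → V' ⊆ V → Q n U' V'
  step : ∀ {n U V₁ V₂ V₁' V₂'}, IsOpen V₁' → IsOpen V₂' → V₁' ⊆ V₁ → V₂' ⊆ V₂ → Q n U V₁ →
    Q n U V₂ → Q (n - 1) (V₁ ∩ V₂) (V₁' ∩ V₂') → Q n U (V₁' ∪ V₂')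
  empty : ∀ n U, Q n U ∅

variable {Q : ℤ → Set B → Set B → Prop}

theorem Sys.wilder [LocallyCompactSpace B] [T2Space B] (h : Sys Q) (n₀ : ℤ)
    (hb : ∀ n ≤ n₀, ∀ U, Q n U U)
    (hs : ∀ n p U, IsOpen U → p ∈ U → ∃ V, IsOpen V ∧ p ∈ V ∧ V ⊆ U ∧ Q n U V) (n : ℤ) :
    ∀ K U, IsCompact K → IsOpen U → K ⊆ U → ∃ V, IsOpen V ∧ K ⊆ V ∧ V ⊆ U ∧ Q n U V := by
  rcases le_total n n₀ with hn | hn
  · exact fun K U _ hU hKU => ⟨U, hU, hKU, Subset.rfl, hb n hn U⟩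
  induction n, hn using Int.leInduction with
  | base => exact fun K U _ hU hKU => ⟨U, hU, hKU, Subset.rfl, hb _ le_rfl U⟩
  | succ n _ ih =>
    intro K U hK hU hKU
    have : ∃ K', IsCompact K' ∧ K ⊆ K' ∧ ∃ V, IsOpen V ∧ K' ⊆ V ∧ V ⊆ U ∧ Q (n + 1) U V := by
      refine hK.induction_on (p := fun s => ∃ K', IsCompact K' ∧ s ⊆ K' ∧
        ∃ V, IsOpen V ∧ K' ⊆ V ∧ V ⊆ U ∧ Q (n + 1) U V) ?_ ?_ ?_ ?_
      · exact ⟨∅, isCompact_empty, Subset.rfl, ∅, isOpen_empty, Subset.rfl, empty_subset _,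
          h.empty _ _⟩
      · rintro s t hst ⟨K', a₁, a₂, a₃⟩
        exact ⟨K', a₁, hst.trans a₂, a₃⟩
      · rintro s t ⟨K₁, a₁, a₂, V₁, a₃, a₄, a₅, a₆⟩ ⟨K₂, b₁, b₂, V₂, b₃, b₄, b₅, b₆⟩
        obtain ⟨L₁, c₁, c₂, c₃⟩ := exists_compact_between a₁ a₃ a₄
        obtain ⟨L₂, d₁, d₂, d₃⟩ := exists_compact_between b₁ b₃ b₄
        obtain ⟨W, -, e₂, -, e₄⟩ := ih _ _ (c₁.inter d₁) (a₃.inter b₃) (inter_subset_inter c₃ d₃)
        exact ⟨_, a₁.union b₁, union_subset_union a₂ b₂, _, isOpen_interior.union isOpen_interior,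
          union_subset_union c₂ d₂, union_subset ((interior_subset.trans c₃).trans a₅)
            ((interior_subset.trans d₃).trans b₅),
          h.step isOpen_interior isOpen_interior (interior_subset.trans c₃)
            (interior_subset.trans d₃) a₆ b₆ (by
              rw [add_sub_cancel_right]
              exact h.mono e₄ Subset.rfl
                ((inter_subset_inter interior_subset interior_subset).trans e₂))⟩
      · intro p hp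
        obtain ⟨V, a₁, a₂, a₃, a₄⟩ := hs (n + 1) p U hU (hKU hp)
        obtain ⟨L, b₁, b₂, b₃⟩ := exists_compact_subset a₁ a₂
        exact ⟨L, mem_nhdsWithin_of_mem_nhds (mem_interior_iff_mem_nhds.1 b₂), L, b₁, Subset.rfl,
          V, a₁, b₃, a₃, a₄⟩
    obtain ⟨K', -, a₂, V, a₃, a₄, a₅⟩ := this
    exact ⟨V, a₃, a₂.trans a₄, a₅⟩

theorem Sys.good (h : Sys Q) {𝒢 : Set (Set B)} (ho : ∀ U ∈ 𝒢, IsOpen U)
    (hi : ∀ U ∈ 𝒢, ∀ V ∈ 𝒢, U ∩ V ∈ 𝒢) (hq : ∀ U ∈ 𝒢, ∀ n, Q n U U) {𝓕 : Set (Set B)}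
    (hs : 𝓕 ⊆ 𝒢) (hf : 𝓕.Finite) (n : ℤ) : Q n (⋃₀ 𝓕) (⋃₀ 𝓕) := by
  have key : ∀ n W, IsOpen W → (∀ U ∈ 𝒢, W ∩ U ∈ 𝒢) → Q n (W ∩ ⋃₀ 𝓕) (W ∩ ⋃₀ 𝓕) := by
    induction 𝓕, hf using Set.Finite.induction_on with
    | empty => exact fun n W _ _ => by simpa using h.empty n ∅
    | @insert A 𝓕 _ _ ih =>
      intro n W hW hW'
      obtain ⟨hA, hs⟩ := insert_subset_iff.1 hs
      have a₁ := hW' A hA
      rw [sUnion_insert, inter_union_distrib_left]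
      refine h.step (ho _ a₁) (hW.inter (isOpen_sUnion fun U hU => ho U (hs hU))) Subset.rfl
        Subset.rfl (h.mono (hq _ a₁ n) subset_union_left Subset.rfl)
        (h.mono (ih hs n W hW hW') subset_union_right Subset.rfl) ?_
      rw [← inter_inter_distrib_left, ← inter_assoc]
      exact ih hs _ _ (ho _ a₁) (hi _ a₁)
  simpa using key n univ isOpen_univ (by simp)

theorem Sys.tame {Q : ℤ → Set Y4 → Set Y4 → Prop} (h : Sys Q) (n₀ : ℤ)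
    (hb : ∀ n ≤ n₀, ∀ U, Q n U U) {X : Set Y4} (hX : Tame X)
    (hq : ∀ U, Cvx U → U ⊆ X → ∀ n, Q n U U) (n : ℤ) : Q n X X := by
  have hj : Continuous jj := continuous_fst.prodMk (Real.continuous_arctan.comp continuous_snd)
  have h' : Sys fun n U V => Q n (jj ⁻¹' U ∩ X) (jj ⁻¹' V ∩ X) :=
    { mono a b c := h.mono a (inter_subset_inter_left _ (preimage_mono b))
        (inter_subset_inter_left _ (preimage_mono c))
      step a b c d e f g := by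
        rw [preimage_union, union_inter_distrib_right]
        rw [preimage_inter, preimage_inter, inter_inter_distrib_right,
          inter_inter_distrib_right _ _ X] at g
        exact h.step ((a.preimage hj).inter hX.1) ((b.preimage hj).inter hX.1)
          (inter_subset_inter_left _ (preimage_mono c))
          (inter_subset_inter_left _ (preimage_mono d)) e f g
      empty n U := by simpa using h.empty n _ }
  obtain ⟨V, -, hV, -, H⟩ := h'.wilder n₀ (fun n hn U => hb n hn _) (fun n p U hU hp => by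
    obtain ⟨V, a₁, a₂, a₃, 𝒢, b₁, b₂, 𝓕, b₃, b₄, b₅⟩ := hX.2 p U hU hp
    refine ⟨V, a₁, a₂, a₃, h.mono ?_ (inter_subset_inter_left _ (preimage_mono a₃)) Subset.rfl⟩
    rw [← b₅]
    exact h.good (𝒢 := {U ∈ 𝒢 | U ⊆ X}) (fun U hU => (b₁ U hU.1).isOpen)
      (fun U hU V hV => ⟨b₂ U hU.1 V hV.1, inter_subset_left.trans hU.2⟩)
      (fun U hU => hq U (b₁ U hU.1) hU.2)
      (fun U hU => ⟨b₃ hU, ((subset_sUnion_of_mem hU).trans b₅.subset).trans inter_subset_right⟩)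
      b₄ n) n (univ ×ˢ Icc (-2) 2) univ (isCompact_univ.prod isCompact_Icc) isOpen_univ
    (subset_univ _)
  refine h.mono H inter_subset_right fun p hp => ⟨hV ⟨trivial, ?_, ?_⟩, hp⟩
  · linarith [Real.neg_pi_div_two_lt_arctan p.2, Real.pi_le_four, show (jj p).2 = Real.arctan p.2 from rfl]
  · linarith [Real.arctan_lt_pi_div_two p.2, Real.pi_le_four, show (jj p).2 = Real.arctan p.2 from rfl]

variable {R P : Type} [CommRing R] [AddCommGroup P] [Module R P] (S : MV R P B)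

theorem mem_Bd {n : ℤ} {V : Set B} {x : P} : x ∈ S.Bd n V ↔ ∃ y, x - S.d y ∈ S.N n V := by
  refine Submodule.mem_sup.trans ⟨?_, fun ⟨y, hy⟩ => ⟨_, ⟨y, rfl⟩, _, hy, by simp⟩⟩
  rintro ⟨_, ⟨y, rfl⟩, u, hu, rfl⟩
  exact ⟨y, by simpa using hu⟩

theorem Z_mono (n : ℤ) {U U' : Set B} (h : U ⊆ U') : S.Z n U' ≤ S.Z n U :=
  Submodule.comap_mono (S.mono _ _ _ h)

theorem Bd_mono (n : ℤ) {U U' : Set B} (h : U ⊆ U') : S.Bd n U' ≤ S.Bd n U :=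
  sup_le_sup_left (S.mono _ _ _ h) _

theorem Bd_top {n : ℤ} {V : Set B} (h : S.N n V = ⊤) (Z : Submodule R P) : Z ≤ S.Bd n V :=
  le_sup_of_le_right (le_top.trans h.ge)

theorem sub_mem_Z {n : ℤ} {V₁ V₂ : Set B} {x y₁ y₂ : P} (h₁ : x - S.d y₁ ∈ S.N n V₁)
    (h₂ : x - S.d y₂ ∈ S.N n V₂) : y₁ - y₂ ∈ S.Z (n - 1) (V₁ ∩ V₂) := by
  rw [MV.Z, Submodule.mem_comap, sub_add_cancel, map_sub, ← sub_sub_sub_cancel_left _ _ x]
  exact sub_mem (S.mono _ _ _ inter_subset_right h₂) (S.mono _ _ _ inter_subset_left h₁)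

theorem glue {n : ℤ} {V₁ V₂ : Set B} (o₁ : IsOpen V₁) (o₂ : IsOpen V₂) {x y₁ y₂ : P}
    (h₁ : x - S.d y₁ ∈ S.N n V₁) (h₂ : x - S.d y₂ ∈ S.N n V₂)
    (h : y₁ - y₂ ∈ S.Bd (n - 1) (V₁ ∩ V₂)) : x ∈ S.Bd n (V₁ ∪ V₂) := by
  obtain ⟨z, hz⟩ := (mem_Bd S).1 h
  obtain ⟨a, ha, b, hb, e⟩ := Submodule.mem_sup.1 (S.inter _ _ _ o₁ o₂ hz)
  have a₁ := S.dN _ _ _ ha
  have a₂ := S.dN _ _ _ hb
  rw [sub_add_cancel] at a₁ a₂
  refine (mem_Bd S).2 ⟨y₁ - a, S.union _ _ _ o₁ o₂ ⟨?_, ?_⟩⟩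
  · rw [map_sub, ← sub_add]
    exact add_mem h₁ a₁
  · rw [show y₁ - a = y₂ + S.d z + b by rw [eq_sub_of_add_eq e]; abel, map_add, map_add,
      ← sub_sub, ← sub_sub]
    exact sub_mem (sub_mem h₂ (S.dd _ _ _)) a₂

end RMVa

namespace MV

open RMVa

variable {R P B : Type} [CommRing R] [AddCommGroup P] [Module R P] [TopologicalSpace B]
  (S : MV R P B)

theorem union_step {n : ℤ} {V₁ V₂ V₁' V₂' : Set B} (h₁ : IsOpen V₁') (h₂ : IsOpen V₂')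
    (s₁ : V₁' ⊆ V₁) (s₂ : V₂' ⊆ V₂) (h : S.Z (n - 1) (V₁ ∩ V₂) ≤ S.Bd (n - 1) (V₁' ∩ V₂'))
    {x : P} (x₁ : x ∈ S.Bd n V₁) (x₂ : x ∈ S.Bd n V₂) : x ∈ S.Bd n (V₁' ∪ V₂') := by
  obtain ⟨y₁, a₁⟩ := (mem_Bd S).1 x₁
  obtain ⟨y₂, a₂⟩ := (mem_Bd S).1 x₂
  exact glue S h₁ h₂ (S.mono _ _ _ s₁ a₁) (S.mono _ _ _ s₂ a₂) (h (sub_mem_Z S a₁ a₂))

theorem fgim_step [IsNoetherianRing R] {n : ℤ} {U V₁ V₂ V₁' V₂' : Set B} (h₁ : IsOpen V₁')
    (h₂ : IsOpen V₂') (s₁ : V₁' ⊆ V₁) (s₂ : V₂' ⊆ V₂) (f₁ : S.FGim n U V₁) (f₂ : S.FGim n U V₂)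
    (h : S.FGim (n - 1) (V₁ ∩ V₂) (V₁' ∩ V₂')) : S.FGim n U (V₁' ∪ V₂') := by
  refine Fm.trans f₁ (Fm.trans (Fm.mono f₂ inf_le_left le_rfl) ?_)
  let p₀ := LinearMap.fst R P (P × P)
  let p₁ := LinearMap.fst R P P ∘ₗ LinearMap.snd R P (P × P)
  let p₂ := LinearMap.snd R P P ∘ₗ LinearMap.snd R P (P × P)
  let T := (S.N n V₁).comap (p₀ - S.d ∘ₗ p₁) ⊓ (S.N n V₂).comap (p₀ - S.d ∘ₗ p₂)
  have a₁ := Fm.comap (Z := T) h (p₁ - p₂) (by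
    rintro _ ⟨w, hw, rfl⟩
    exact sub_mem_Z S hw.1 hw.2)
  refine ((a₁.mono_right le_rfl).map p₀).mono (fun x hx => ?_) ?_
  · obtain ⟨y₁, b₁⟩ := (mem_Bd S).1 hx.1.2
    obtain ⟨y₂, b₂⟩ := (mem_Bd S).1 hx.2
    exact ⟨(x, y₁, y₂), ⟨b₁, b₂⟩, rfl⟩
  · rintro _ ⟨w, hw, rfl⟩
    exact glue S h₁ h₂ (S.mono _ _ _ s₁ hw.1.1) (S.mono _ _ _ s₂ hw.1.2) hw.2

theorem FGim.of_le [IsNoetherianRing R] {n : ℤ} {U U' V V' : Set B} (h : S.FGim n U V)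
    (hU : U ⊆ U') (hV : V' ⊆ V) : S.FGim n U' V' := by
  exact Fm.mono h (Z_mono S n hU) (Bd_mono S n hV)

theorem sys_zero : Sys fun n U V => S.Z n U ≤ S.Bd n V where
  mono a b c := (Z_mono S _ b).trans (a.trans (Bd_mono S _ c))
  step a b c d e f g := fun _ hx => S.union_step a b c d g (e hx) (f hx)
  empty n _ := Bd_top S (S.empty n) _

theorem sys_fg [IsNoetherianRing R] : Sys S.FGim where
  mono a b c := a.of_le S b c
  step := S.fgim_step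
  empty n _ := Fm.of_le_bot (Bd_top S (S.empty n) _)

theorem W0 [LocallyCompactSpace B] [T2Space B] (n₀ : ℤ) (hb : ∀ n ≤ n₀, ∀ U, S.N n U = ⊤)
    (hs : ∀ n p U, IsOpen U → p ∈ U → ∃ V, IsOpen V ∧ p ∈ V ∧ V ⊆ U ∧ S.Z n U ≤ S.Bd n V)
    (n : ℤ) {K U : Set B} (hK : IsCompact K) (hU : IsOpen U) (hKU : K ⊆ U) :
    ∃ V, IsOpen V ∧ K ⊆ V ∧ V ⊆ U ∧ S.Z n U ≤ S.Bd n V := by
  exact S.sys_zero.wilder n₀ (fun n hn U => Bd_top S (hb n hn U) _) hs n K U hK hU hKU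

theorem Wfg [IsNoetherianRing R] [LocallyCompactSpace B] [T2Space B] (n₀ : ℤ)
    (hb : ∀ n ≤ n₀, ∀ U, S.N n U = ⊤)
    (hs : ∀ n p U, IsOpen U → p ∈ U → ∃ V, IsOpen V ∧ p ∈ V ∧ V ⊆ U ∧ S.FGim n U V)
    (n : ℤ) {K U : Set B} (hK : IsCompact K) (hU : IsOpen U) (hKU : K ⊆ U) :
    ∃ V, IsOpen V ∧ K ⊆ V ∧ V ⊆ U ∧ S.FGim n U V := by
  exact S.sys_fg.wilder n₀ (fun n hn U => Fm.of_le_bot (Bd_top S (hb n hn U) _)) hs n K U hK hU hKU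

/-- Finite unions of members of a family closed under intersections (induction on the number of
sets, for all degrees at once). -/
theorem good_zero {𝒢 : Set (Set B)} (ho : ∀ U ∈ 𝒢, IsOpen U) (hi : ∀ U ∈ 𝒢, ∀ V ∈ 𝒢, U ∩ V ∈ 𝒢)
    (h : ∀ U ∈ 𝒢, ∀ n, S.Z n U ≤ S.Bd n U) {𝓕 : Set (Set B)} (hs : 𝓕 ⊆ 𝒢) (hf : 𝓕.Finite)
    (n : ℤ) : S.Z n (⋃₀ 𝓕) ≤ S.Bd n (⋃₀ 𝓕) := by
  exact S.sys_zero.good ho hi h hs hf n

theorem good_fg [IsNoetherianRing R] {𝒢 : Set (Set B)} (ho : ∀ U ∈ 𝒢, IsOpen U)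
    (hi : ∀ U ∈ 𝒢, ∀ V ∈ 𝒢, U ∩ V ∈ 𝒢) (h : ∀ U ∈ 𝒢, ∀ n, S.FGim n U U) {𝓕 : Set (Set B)}
    (hs : 𝓕 ⊆ 𝒢) (hf : 𝓕.Finite) (n : ℤ) : S.FGim n (⋃₀ 𝓕) (⋃₀ 𝓕) := by
  exact S.sys_fg.good ho hi h hs hf n

/-- Pull a system on `Y` back to a base `B` along `j`, inside the open set `X`. -/
def comap {Y : Type} [TopologicalSpace Y] (S : MV R P Y) (j : Y → B) (hj : Continuous j)
    (X : Set Y) (hX : IsOpen X) : MV R P B where
  d := S.d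
  N n U := S.N n (j ⁻¹' U ∩ X)
  mono n U U' h := S.mono n _ _ (inter_subset_inter_left _ (preimage_mono h))
  dN n U := S.dN n _
  dd n U := S.dd n _
  union n U U' hU hU' := by
    rw [preimage_union, union_inter_distrib_right]
    exact S.union n _ _ ((hU.preimage hj).inter hX) ((hU'.preimage hj).inter hX)
  inter n U U' hU hU' := by
    rw [preimage_inter, inter_inter_distrib_right]
    exact S.inter n _ _ ((hU.preimage hj).inter hX) ((hU'.preimage hj).inter hX)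
  empty n := by simpa using S.empty n

/-- A system on `S³ × ℝ` that is exact on all `Cvx` subsets of a tame `X` is exact on `X`
(`good_zero` for the stalks, `W0` for `S.comap jj _ X _` with `K = univ ×ˢ Icc (-2) 2`, `U = univ`). -/
theorem tame_zero (S : MV R P Y4) (n₀ : ℤ) (hb : ∀ n ≤ n₀, ∀ U, S.N n U = ⊤) {X : Set Y4}
    (hX : Tame X) (h : ∀ U, Cvx U → U ⊆ X → ∀ n, S.Z n U ≤ S.Bd n U) (n : ℤ) :
    S.Z n X ≤ S.Bd n X := by
  exact S.sys_zero.tame n₀ (fun n hn U => Bd_top S (hb n hn U) _) hX h n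

theorem tame_fg [IsNoetherianRing R] (S : MV R P Y4) (n₀ : ℤ) (hb : ∀ n ≤ n₀, ∀ U, S.N n U = ⊤)
    {X : Set Y4} (hX : Tame X) (h : ∀ U, Cvx U → U ⊆ X → ∀ n, S.FGim n U U) (n : ℤ) :
    S.FGim n X X := by
  exact S.sys_fg.tame n₀ (fun n hn U => Fm.of_le_bot (Bd_top S (hb n hn U) _)) hX h n

end MV

end Pool.Agent.HH
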