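import Pool.Agent.P.MP_c8dc46_gt.Tame

/-!
Holonomy along meridians. Small meridians at a point in one chart are homotopic; two charts are
compared through their angle cocycles; connectedness of `A ∩ O` gives the sign rule `mer_pm`.
-/

open Set Topology

namespace Pool.Agent.HH

namespace RMer

variable {Y : Type} [MetricSpace Y] {V : Type} [NormedAddCommGroup V] [NormedSpace ℝ V]
  {M : Type} [AddCommGroup M] {A U : Set Y} {e e' : OpenPartialHomeomorph Y (V × ℂ)} {p : Y}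
  {x x' : Y → Y → M} {v v' : M}

/-- Polar coordinates in the second factor. -/
noncomputable def pol (q : ℝ × (V × ℝ)) : V × ℂ := (q.2.1, q.2.2 * ex q.1)

theorem norm_pol {r : ℝ} (hr : 0 < r) (s : ℝ) : ‖(r : ℂ) * ex s‖ = r := by
  rw [norm_mul, norm_ex, mul_one, Complex.norm_real, Real.norm_of_nonneg hr.le]

theorem ex_one (s : ℝ) : ex (s + 1) = ex s := by
  have := ex_int 1
  rw [ex_add, show ex 1 = 1 by simpa using this, mul_one]

theorem isCC_pol : IsCC (pol (V := V)) (univ ×ˢ Ioi 0) where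
  isOpen := isOpen_univ.prod isOpen_Ioi
  convex := convex_univ.prod (convex_Ioi 0)
  cont := by
    have := continuous_ex
    exact Continuous.continuousOn (by unfold pol; fun_prop)
  per s w := by simp only [pol, ex_one]
  inj s s' w hw w' hw' h := by
    obtain ⟨h1, h2⟩ := Prod.mk.inj h
    have h3 : w.2 = w'.2 := by
      rw [← norm_pol hw.2 s, ← norm_pol hw'.2 s']
      exact congrArg norm h2
    have h4 : (w'.2 : ℂ) ≠ 0 := by exact_mod_cast (ne_of_gt hw'.2)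
    simp only [h3] at h2
    exact ⟨Prod.ext h1 h3, ex_eq_iff.1 (mul_left_cancel₀ h4 h2)⟩
  img W hW hs := by
    let ψ : V × ℂ → ℝ × (V × ℝ) := fun z => (z.2.im / (2 * Real.pi), (z.1, Real.exp z.2.re))
    have hψ : Continuous ψ := by fun_prop
    have h1 : ∀ z, pol (ψ z) = Prod.map id Complex.exp z := fun z => by
      refine Prod.ext rfl ?_
      have hp : (Real.pi : ℂ) ≠ 0 := by exact_mod_cast Real.pi_ne_zero
      simp only [pol, ψ, ex, Prod.map_snd, Complex.ofReal_exp, ← Complex.exp_add]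
      congr 1
      push_cast
      field_simp
      exact Complex.re_add_im z.2
    have h2 : pol '' W = Prod.map id Complex.exp '' (ψ ⁻¹' W) := by
      refine Subset.antisymm ?_ ?_
      · rintro _ ⟨q, hq, rfl⟩
        have h3 : ψ (q.2.1, Real.log q.2.2 + (2 * Real.pi * q.1 : ℝ) * Complex.I) = q := by
          have := Real.exp_log (hs hq).2.2
          refine Prod.ext ?_ (Prod.ext rfl ?_)
          · simp only [ψ, Complex.add_im, Complex.ofReal_im, Complex.mul_im, Complex.ofReal_re,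
              Complex.I_im, Complex.I_re]
            field_simp
            ring
          · simpa only [ψ, Complex.add_re, Complex.ofReal_im, Complex.mul_re, Complex.ofReal_re,
              Complex.I_im, Complex.I_re, mul_zero, mul_one, sub_zero, add_zero] using this
        exact ⟨_, by rw [mem_preimage, h3]; exact hq, by rw [← h1, h3]⟩
      · rintro _ ⟨z, hz, rfl⟩
        exact ⟨_, hz, h1 z⟩
    rw [h2]
    exact (IsOpenMap.id.prodMap Complex.isOpenMap_exp) _ (hW.preimage hψ)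

/-- `e` is a flat chart for `A` at the point `p` of `A`. -/
def FC (A : Set Y) (e : OpenPartialHomeomorph Y (V × ℂ)) (p : Y) : Prop :=
  p ∈ A ∧ p ∈ e.source ∧ ∀ y ∈ e.source, (y ∈ A ↔ (e y).2 = 0)

/-- The parameters of the small meridians. -/
def box (e : OpenPartialHomeomorph Y (V × ℂ)) (p : Y) (δ : ℝ) : Set (V × ℝ) :=
  Metric.ball (e p).1 δ ×ˢ Ioo 0 δ

/-- All small meridians near `p` in the chart `e` have holonomy `v`. -/
def SM (x : Y → Y → M) (e : OpenPartialHomeomorph Y (V × ℂ)) (p : Y) (v : M) : Prop :=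
  ∃ δ > 0, ∀ o ∈ box e p δ, IsHolA x (fun s => e.symm (pol (s, o))) v

omit [NormedSpace ℝ V] in
theorem box_mono {δ δ' : ℝ} (h : δ ≤ δ') : box e p δ ⊆ box e p δ' :=
  prod_mono (Metric.ball_subset_ball h) (Ioo_subset_Ioo_right h)

omit [NormedSpace ℝ V] in
theorem mem_box {δ r : ℝ} (h : 0 < r) (h' : r < δ) : ((e p).1, r) ∈ box e p δ :=
  ⟨Metric.mem_ball_self (h.trans h'), h, h'⟩

theorem exists_box (h : FC A e p) (hU : U ∈ 𝓝 p) {δ₀ : ℝ} (h₀ : 0 < δ₀) :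
    ∃ δ > 0, δ ≤ δ₀ ∧ ∃ W ∈ 𝓝 p, W ⊆ U ∧ W ⊆ e.source ∧ IsCC (e.symm ∘ pol) (box e p δ) ∧
      (e.symm ∘ pol) '' (univ ×ˢ box e p δ) = W \ A ∧
      ∀ s, ∀ o ∈ box e p δ, pol (s, o) ∈ e.target := by
  have h1 : e.target ∩ e.symm ⁻¹' U ∈ 𝓝 (e p) :=
    Filter.inter_mem (e.open_target.mem_nhds (e.map_source h.2.1))
      ((e.continuousAt_symm (e.map_source h.2.1)).preimage_mem_nhds (by rwa [e.left_inv h.2.1]))
  obtain ⟨δ₁, hδ₁, h2⟩ := Metric.mem_nhds_iff.1 h1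
  have hδ : 0 < min δ₁ δ₀ := lt_min hδ₁ h₀
  replace h2 := (Metric.ball_subset_ball (min_le_left δ₁ δ₀)).trans h2
  refine ⟨_, hδ, min_le_right _ _, ?_⟩
  generalize min δ₁ δ₀ = δ at hδ h2
  have h0 : (e p).2 = 0 := (h.2.2 p h.2.1).1 h.1
  have h3 : ∀ s, ∀ o ∈ box e p δ, pol (s, o) ∈ Metric.ball (e p) δ := fun s o ho => by
    rw [← ball_prod_same]
    refine ⟨ho.1, ?_⟩
    rw [h0, mem_ball_zero_iff]
    exact (norm_pol ho.2.1 s).trans_lt ho.2.2
  refine ⟨e.source ∩ e ⁻¹' Metric.ball (e p) δ, Filter.inter_mem (e.open_source.mem_nhds h.2.1)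
    ((e.continuousAt h.2.1).preimage_mem_nhds (Metric.ball_mem_nhds _ hδ)), fun y hy => ?_,
    inter_subset_left, ?_, Subset.antisymm ?_ ?_, fun s o ho => (h2 (h3 s o ho)).1⟩
  · have := (h2 hy.2).2
    rwa [mem_preimage, e.left_inv hy.1] at this
  · refine (isCC_pol.mono (Metric.isOpen_ball.prod isOpen_Ioo)
      ((convex_ball _ _).prod (convex_Ioo _ _)) fun o ho => ⟨trivial, ho.2.1⟩).comp
      (OE.of_openPartialHomeomorph e.symm) ?_
    rintro _ ⟨q, hq, rfl⟩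
    exact (h2 (h3 q.1 q.2 hq.2)).1
  · rintro _ ⟨q, hq, rfl⟩
    have h4 : pol q ∈ e.target := (h2 (h3 q.1 q.2 hq.2)).1
    refine ⟨⟨e.map_target h4, ?_⟩, fun hA => ?_⟩
    · rw [mem_preimage, Function.comp_apply, e.right_inv h4]
      exact h3 q.1 q.2 hq.2
    · have h5 := (h.2.2 _ (e.map_target h4)).1 hA
      rw [e.right_inv h4] at h5
      have h6 := norm_pol hq.2.2.1 q.1
      rw [show ((q.2.2 : ℂ) * ex q.1) = 0 from h5, norm_zero] at h6
      exact hq.2.2.1.ne h6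
  · rintro y ⟨⟨hy, hb⟩, hA⟩
    have h4 : (e y).2 ≠ 0 := fun h4 => hA ((h.2.2 y hy).2 h4)
    have h5 : (‖(e y).2‖ : ℂ) ≠ 0 := by exact_mod_cast norm_ne_zero_iff.2 h4
    obtain ⟨s, hs⟩ := exists_ex (z := (e y).2 / ‖(e y).2‖)
      (by rw [norm_div, Complex.norm_real, norm_norm, div_self (norm_ne_zero_iff.2 h4)])
    rw [mem_preimage, ← ball_prod_same] at hb
    refine ⟨(s, ((e y).1, ‖(e y).2‖)), ⟨trivial, hb.1, norm_pos_iff.2 h4, ?_⟩, ?_⟩
    · have := hb.2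
      rwa [h0, mem_ball_zero_iff] at this
    · have : pol (s, ((e y).1, ‖(e y).2‖)) = e y := by
        refine Prod.ext rfl ?_
        simp only [pol, hs]
        field_simp
      rw [Function.comp_apply, this, e.left_inv hy]

theorem exists_sm (h : FC A e p) (hU : U ∈ 𝓝 p) (hx : IsCocA x (U \ A)) : ∃ v, SM x e p v := by
  obtain ⟨δ, hδ, -, W, -, hWU, -, hc, hW, -⟩ := exists_box h hU one_pos
  have hx' := hx.mono (hW.subset.trans (sdiff_subset_sdiff_left hWU))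
  have ho : ((e p).1, δ / 2) ∈ box e p δ := mem_box (by positivity) (by linarith)
  obtain ⟨v, hv⟩ := exists_isHolA hx' (hc.isLoop ho)
  exact ⟨v, δ, hδ, fun o' ho' =>
    IsHolA.homotopy hc.isOpen hc.convex hc.cont hc.per (mapsTo_image _ _) hx' ho ho' hv⟩

omit [NormedSpace ℝ V] in
theorem SM.unique (h : SM x e p v) (h' : SM x e p v') : v = v' := by
  obtain ⟨δ, hδ, h⟩ := h
  obtain ⟨δ', hδ', h'⟩ := h'
  have h1 : 0 < min δ δ' := lt_min hδ hδ'
  have ho : ((e p).1, min δ δ' / 2) ∈ box e p (min δ δ') := mem_box (by positivity) (by linarith)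
  exact (h _ (box_mono (min_le_left _ _) ho)).unique (h' _ (box_mono (min_le_right _ _) ho))

theorem SM.cohA (h : SM x e p v) (hF : FC A e p) (hU : U ∈ 𝓝 p) (hc : CohA x x' (U \ A)) :
    SM x' e p v := by
  obtain ⟨δ₀, h₀, h⟩ := h
  obtain ⟨δ, hδ, hle, W, -, hWU, -, hcc, hW, -⟩ := exists_box hF hU h₀
  exact ⟨δ, hδ, fun o ho => (h o (box_mono hle ho)).cohA
    (hc.mono (hW.subset.trans (sdiff_subset_sdiff_left hWU))) (hcc.isLoop ho)⟩

/-- The angle cocycle of a chart. -/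
noncomputable def ang (e : OpenPartialHomeomorph Y (V × ℂ)) : Y → Y → ℤ := th fun y => (e y).2

omit [NormedSpace ℝ V] in
theorem isCocA_ang (h : FC A e p) : IsCocA (ang e) (e.source \ A) :=
  isCocA_th (fun _ hy => (e.continuousAt hy.1).snd) fun y hy h0 => hy.2 ((h.2.2 y hy.1).2 h0)

theorem sm_ang (h : FC A e p) : SM (ang e) e p 1 := by
  obtain ⟨δ, hδ, -, W, -, -, -, -, -, ht⟩ := exists_box h Filter.univ_mem one_pos
  refine ⟨δ, hδ, fun o ho => isHolA_th (α := id) continuous_id (by simp) fun s =>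
    ⟨o.2, ho.2.1, ?_⟩⟩
  rw [e.right_inv (ht s o ho)]
  rfl

omit [NormedSpace ℝ V] in
theorem SM.smul {θ : Y → Y → ℤ} {k : ℤ} (h : SM θ e p k) (v : M) :
    SM (fun a b => θ a b • v) e p (k • v) := by
  obtain ⟨δ, hδ, h⟩ := h
  exact ⟨δ, hδ, fun o ho => (h o ho).smul v⟩

theorem coc_smul {θ : Y → Y → ℤ} (h : IsCocA θ U) (v : M) : IsCocA (fun a b => θ a b • v) U := by
  intro p hp
  obtain ⟨W, hW, h⟩ := h p hp
  exact ⟨W, hW, fun a ha b hb c hc => by rw [← add_smul, h a ha b hb c hc]⟩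

omit [NormedSpace ℝ V] in
theorem SM.near (h : SM x e p v) (hp : p ∈ e.source) : ∀ᶠ q in 𝓝 p, SM x e q v := by
  obtain ⟨δ, hδ, h⟩ := h
  filter_upwards [(e.continuousAt hp).fst.preimage_mem_nhds
    (Metric.ball_mem_nhds _ (half_pos hδ))] with q hq
  refine ⟨δ / 2, half_pos hδ, fun o ho => h o ⟨?_, ho.2.1, by linarith [ho.2.2]⟩⟩
  have h1 := Metric.mem_ball.1 hq
  have h2 := Metric.mem_ball.1 ho.1
  exact Metric.mem_ball.2 ((dist_triangle _ (e q).1 _).trans_lt (by linarith))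

theorem sm_of_isMer {O : Set Y} (hO : IsOpen O) (hx : IsCocA x (O \ A)) {γ : ℝ → Y}
    (hγ : IsMer V O A γ) (h : IsHolA x γ v) :
    ∃ (e : OpenPartialHomeomorph Y (V × ℂ)) (p : Y), p ∈ O ∧ FC A e p ∧ SM x e p v := by
  obtain ⟨e, hs, hA, c, r, hr, ht, hγ⟩ := hγ
  have h0 : (c, (0 : ℂ)) ∈ e.target := ht 0 (by simpa using hr.le)
  have h1 : e (e.symm (c, 0)) = (c, 0) := e.right_inv h0
  have hF : FC A e (e.symm (c, 0)) :=
    ⟨(hA _ (e.map_target h0)).2 (by rw [h1]), e.map_target h0, hA⟩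
  obtain ⟨v', δ, hδ, hv⟩ := exists_sm hF (hO.mem_nhds (hs hF.2.1)) hx
  refine ⟨e, _, hs hF.2.1, hF, ?_⟩
  have hm : 0 < min (δ / 2) r := lt_min (half_pos hδ) hr
  have ht' : ∀ q ∈ (univ : Set ℝ) ×ˢ Ioi (0 : ℝ), pol (q.1, (c, min q.2 r)) ∈ e.target :=
    fun q hq => ht _ ((norm_pol (lt_min hq.2 hr) q.1).trans_le (min_le_right _ _))
  have h2 := IsHolA.homotopy (Φ := fun q : ℝ × ℝ => e.symm (pol (q.1, (c, min q.2 r))))
    isOpen_Ioi (convex_Ioi (0 : ℝ)) (e.continuousOn_symm.comp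
      (Continuous.continuousOn (by have := continuous_ex; unfold pol; fun_prop)) ht')
    (fun s w => by simp only [pol, ex_one]) (S := O \ A) (fun q hq =>
      ⟨hs (e.map_target (ht' q hq)), fun hq' => by
        have h5 := (hA _ (e.map_target (ht' q hq))).1 hq'
        rw [e.right_inv (ht' q hq)] at h5
        have h6 := norm_pol (lt_min hq.2 hr) q.1
        rw [show (((min q.2 r : ℝ) : ℂ) * ex q.1) = 0 from h5, norm_zero] at h6
        exact (lt_min hq.2 hr).ne h6⟩)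
    hx (o := r) (o' := δ / 2) hr (half_pos hδ) (c := v)
    (by simpa only [min_self, pol, ← hγ] using h)
  have h3 := hv (c, min (δ / 2) r) (by
    have := mem_box (e := e) (p := e.symm (c, 0)) hm
      ((min_le_left _ _).trans_lt (half_lt_self hδ))
    rwa [h1] at this)
  exact ⟨δ, hδ, h3.unique h2 ▸ hv⟩

variable [FiniteDimensional ℝ V]

theorem SM.classify (h : SM x e p v) (hF : FC A e p) (hU : U ∈ 𝓝 p) (hx : IsCocA x (U \ A)) :
    ∃ W ∈ 𝓝 p, CohA x (fun a b => ang e a b • v) (W \ A) := by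
  obtain ⟨δ₀, h₀, h⟩ := h
  obtain ⟨δ₁, h₁, h'⟩ := (sm_ang hF).smul v
  obtain ⟨δ, hδ, hle, W, hW, hWU, hWe, hcc, hi, -⟩ := exists_box hF hU (lt_min h₀ h₁)
  have ho : ((e p).1, δ / 2) ∈ box e p δ := mem_box (by positivity) (by linarith)
  refine ⟨W, hW, hi ▸ hcc.cohA_of_hol (hx.mono (hi.subset.trans (sdiff_subset_sdiff_left hWU)))
    ((coc_smul (isCocA_ang hF) v).mono (hi.subset.trans (sdiff_subset_sdiff_left hWe))) ho
    (h _ (box_mono (hle.trans (min_le_left _ _)) ho)) ?_⟩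
  simpa only [one_smul, Function.comp_apply] using
    h' _ (box_mono (hle.trans (min_le_right _ _)) ho)

theorem SM.change (h : SM x e p v) (hF : FC A e p) (hF' : FC A e' p) (hU : U ∈ 𝓝 p)
    (hx : IsCocA x (U \ A)) {k : ℤ} (hk : SM (ang e) e' p k) : SM x e' p (k • v) := by
  obtain ⟨W, hW, hc⟩ := h.classify hF hU hx
  exact (hk.smul v).cohA hF' hW hc.symm

theorem SM.pm (h : SM x e p v) (h' : SM x e' p v') (hF : FC A e p) (hF' : FC A e' p)
    (hU : U ∈ 𝓝 p) (hx : IsCocA x (U \ A)) : v' = v ∨ v' = -v := by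
  have n1 := e.open_source.mem_nhds hF.2.1
  have n2 := e'.open_source.mem_nhds hF'.2.1
  obtain ⟨k', hk'⟩ := exists_sm hF' n1 (isCocA_ang hF)
  obtain ⟨k, hk⟩ := exists_sm hF n2 (isCocA_ang hF')
  have h1 : k' * k = 1 := (hk.change hF hF' n2 (isCocA_ang hF') hk').unique (sm_ang hF')
  rw [h'.unique (h.change hF hF' hU hx hk')]
  rcases Int.eq_one_or_neg_one_of_mul_eq_one h1 with rfl | rfl <;> simp

theorem spread {O : Set Y} (hA : Flat V A) (hO : IsOpen O) (hc : IsPreconnected (A ∩ O))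
    (hx : IsCocA x (O \ A)) {q : Y} (hp : p ∈ O) (hq : q ∈ O) (hF : FC A e p) (hF' : FC A e' q)
    (h : SM x e p v) (h' : SM x e' q v') : v' = v ∨ v' = -v := by
  refine hc.induction₂' (fun a b => ∀ (e e' : OpenPartialHomeomorph Y (V × ℂ)) (v v' : M),
    FC A e a → FC A e' b → SM x e a v → SM x e' b v' → v' = v ∨ v' = -v) (fun a ha => ?_)
    (fun a b c _ hb _ h1 h2 e e' v v' f1 f2 s1 s2 => ?_) ⟨hF.1, hp⟩ ⟨hF'.1, hq⟩ e e' v v' hF hF' h h'
  · obtain ⟨e₀, h1, h2⟩ := hA a ha.1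
    have fa : FC A e₀ a := ⟨ha.1, h1, h2⟩
    obtain ⟨w, hw⟩ := exists_sm fa (hO.mem_nhds ha.2) hx
    filter_upwards [self_mem_nhdsWithin, mem_nhdsWithin_of_mem_nhds (hw.near h1),
      mem_nhdsWithin_of_mem_nhds (e₀.open_source.mem_nhds h1)] with b hb hw' hb'
    have fb : FC A e₀ b := ⟨hb.1, hb', h2⟩
    refine ⟨fun e e' v v' f1 f2 s1 s2 => ?_, fun e e' v v' f1 f2 s1 s2 => ?_⟩
    · rcases hw.pm s1 fa f1 (hO.mem_nhds ha.2) hx with rfl | rfl <;>
        rcases hw'.pm s2 fb f2 (hO.mem_nhds hb.2) hx with rfl | rfl <;> simp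
    · rcases hw.pm s2 fa f2 (hO.mem_nhds ha.2) hx with rfl | rfl <;>
        rcases hw'.pm s1 fb f1 (hO.mem_nhds hb.2) hx with rfl | rfl <;> simp
  · obtain ⟨e₀, h3, h4⟩ := hA b hb.1
    have fb : FC A e₀ b := ⟨hb.1, h3, h4⟩
    obtain ⟨w, hw⟩ := exists_sm fb (hO.mem_nhds hb.2) hx
    rcases h1 e e₀ v w f1 fb s1 hw with rfl | rfl <;>
      rcases h2 e₀ e' _ v' fb f2 hw s2 with rfl | rfl <;> simp

end RMer

variable {Y : Type} [MetricSpace Y] [LocallyConnectedSpace Y] {V : Type} [NormedAddCommGroup V]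
  [NormedSpace ℝ V] [FiniteDimensional ℝ V] {M : Type} [AddCommGroup M]

theorem mer_pm {A O : Set Y} (hA : Flat V A) (hO : IsOpen O) (hc : IsPreconnected (A ∩ O))
    {x : Y → Y → M} (hx : IsCocA x (O \ A)) {γ γ' : ℝ → Y} (hγ : IsMer V O A γ)
    (hγ' : IsMer V O A γ') {c c' : M} (h : IsHolA x γ c) (h' : IsHolA x γ' c') :
    c' = c ∨ c' = -c := by
  obtain ⟨e, p, hp, hF, hs⟩ := RMer.sm_of_isMer hO hx hγ h
  obtain ⟨e', q, hq, hF', hs'⟩ := RMer.sm_of_isMer hO hx hγ' h'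
  exact RMer.spread hA hO hc hx hp hq hF hF' hs hs'

/-- A cocycle with zero holonomy along one meridian extends across `A`. -/
theorem ext_mer {A O : Set Y} (hA : Flat V A) (hO : IsOpen O) (hOA : IsOpen (O \ A))
    (hc : IsPreconnected (A ∩ O)) {x : Y → Y → M} (hx : IsCocA x (O \ A)) {γ : ℝ → Y}
    (hγ : IsMer V O A γ) (h : IsHolA x γ 0) : ∃ x', IsCocA x' O ∧ LocEq x' x (O \ A) := by
  refine ext_cocA hA hO hOA hx fun p hp => ?_
  obtain ⟨W, Φ, B, hW, hpW, hWO, hcc, hi, ⟨o, ho⟩, hm⟩ := exists_mer_cc hA hp.1 (hO.mem_nhds hp.2)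
  obtain ⟨c, hc'⟩ := exists_isHolA hx (hm o ho).isLoop
  have h0 : c = 0 := by simpa using mer_pm hA hO hc hx hγ (hm o ho) h hc'
  refine ⟨W, hW.isOpen.mem_nhds hpW, hi ▸ hcc.cohA_of_hol
    (hx.mono (hi.subset.trans (sdiff_subset_sdiff_left hWO)))
    (fun _ _ => ⟨univ, Filter.univ_mem, by simp⟩) ho (h0 ▸ hc') ?_⟩
  exact isHolA_zero_of_locEq (fun _ _ => ⟨univ, Filter.univ_mem, fun _ _ _ _ => rfl⟩)
    (hcc.isLoop ho)

theorem isGen_of_one {A : Set Y} (hA : Flat V A) (hc : IsPreconnected A) {h : Y → Y → ℤ}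
    (hh : IsCocA h Aᶜ) {γ : ℝ → Y} (hγ : IsMer V univ A γ)
    (h1 : IsHolA h γ 1 ∨ IsHolA h γ (-1)) : IsGen V A h := by
  refine ⟨hh, fun γ' hγ' => ?_⟩
  rw [compl_eq_univ_sdiff] at hh
  obtain ⟨c, hc'⟩ := exists_isHolA hh hγ'.isLoop
  rcases h1 with h1 | h1 <;>
    rcases mer_pm hA isOpen_univ (by rwa [inter_univ]) hh hγ hγ' h1 hc' with rfl | rfl
  · exact Or.inl hc'
  · exact Or.inr hc'
  · exact Or.inr hc'
  · exact Or.inl (by simpa using hc')

theorem h1gen (hY : Acyc (triv ℤ M Y) 2 univ) {A : Set Y} (hA : Flat V A) (hcl : IsClosed A)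
    (hc : IsPreconnected A) (hne : A.Nonempty) {h : Y → Y → ℤ} (hh : IsGen V A h)
    {x : Y → Y → M} (hx : IsCocA x Aᶜ) : ∃ c : M, CohA x (fun p q => h p q • c) Aᶜ := by
  obtain ⟨p, hp⟩ := hne
  obtain ⟨γ, hγ⟩ := hA.exists_isMer hp Filter.univ_mem
  have hl : IsLoop γ Aᶜ := by simpa only [compl_eq_univ_sdiff] using hγ.isLoop
  obtain ⟨c₀, h₀⟩ := exists_isHolA hx hl
  obtain ⟨c, hc₀⟩ : ∃ c : M, IsHolA (fun p q => h p q • c) γ c₀ := by
    rcases hh.2 γ hγ with h1 | h1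
    · exact ⟨c₀, by simpa only [one_smul] using h1.smul c₀⟩
    · exact ⟨-c₀, by simpa only [neg_smul, one_smul, neg_neg] using h1.smul (-c₀)⟩
  have h2 : IsCocA (fun p q => x p q - h p q • c) (univ \ A) := by
    intro q hq
    obtain ⟨U, hU, h3⟩ := hx q hq.2
    obtain ⟨U', hU', h4⟩ := RMer.coc_smul hh.1 c q hq.2
    refine ⟨U ∩ U', Filter.inter_mem hU hU', fun a ha b hb d hd => ?_⟩
    have h5 := h4 a ha.2 b hb.2 d hd.2
    beta_reduce at h5 ⊢
    rw [← h3 a ha.1 b hb.1 d hd.1, ← h5]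
    abel
  obtain ⟨x', h3, h4⟩ := ext_mer hA isOpen_univ (isOpen_univ.sdiff hcl) (by rwa [inter_univ]) h2
    hγ (by simpa only [sub_self] using h₀.sub hc₀)
  obtain ⟨φ, hφ⟩ := hY (c1 x') ((isCocA_iff (R := ℤ)).1 h3)
  refine ⟨c, fun y => φ [y], fun q hq => ?_⟩
  obtain ⟨U, hU, h5⟩ := mem_N_two.1 hφ q trivial
  obtain ⟨U', hU', h6⟩ := h4 q ⟨trivial, hq⟩
  refine ⟨U ∩ U', Filter.inter_mem hU hU', fun a ha b hb => ?_⟩
  have h7 := h5 a ha.1 b hb.1
  rw [Pi.sub_apply, dT_two, sub_eq_zero] at h7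
  exact (h6 a ha.2 b hb.2).symm.trans h7

theorem IsKnot.h1gen {C : ℝ → S3} (hC : IsKnot C) {h : S3 → S3 → ℤ} (hh : IsGen ℝ (range C) h)
    {x : S3 → S3 → M} (hx : IsCocA x (range C)ᶜ) :
    ∃ c : M, CohA x (fun p q => h p q • c) (range C)ᶜ := by
  exact HH.h1gen acyc_two_S3 hC.flat hC.isClosed hC.isPreconnected (range_nonempty C) hh hx

theorem IsGen.neg {A : Set Y} {h : Y → Y → ℤ} (hh : IsGen V A h) :
    IsGen V A fun p q => -h p q := by
  refine ⟨fun p hp => ?_, fun γ hγ => ?_⟩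
  · obtain ⟨U, hU, h1⟩ := hh.1 p hp
    exact ⟨U, hU, fun a ha b hb d hd => by simp only [← h1 a ha b hb d hd, neg_add]⟩
  · exact (hh.2 γ hγ).symm.imp (fun h1 => by simpa using h1.neg) fun h1 => h1.neg

theorem IsGen.cohA {A : Set Y} {h h' : Y → Y → ℤ} (hh : IsGen V A h) (hc : CohA h' h Aᶜ) :
    IsGen V A h' := by
  refine ⟨hc.isCocA hh.1, fun γ hγ => ?_⟩
  have hl : IsLoop γ Aᶜ := by simpa only [compl_eq_univ_sdiff] using hγ.isLoop
  exact (hh.2 γ hγ).imp (fun h1 => h1.cohA hc.symm hl) fun h1 => h1.cohA hc.symm hl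

theorem IsGen.homeo {A : Set S3} {h : S3 → S3 → ℤ} (hh : IsGen ℝ A h) (H : S3 ≃ₜ S3) :
    IsGen ℝ (H '' A) (pb H.symm h) := by
  refine ⟨hh.1.pb (fun _ _ => H.symm.continuous.continuousAt) fun p hp h1 =>
    hp ⟨_, h1, H.apply_symm_apply p⟩, fun γ hγ => ?_⟩
  simp only [isHolA_pb]
  refine hh.2 _ (hγ.image (OE.of_homeomorph H.symm isOpen_univ) subset_rfl fun p _ =>
    ⟨fun h1 => ⟨_, h1, H.apply_symm_apply p⟩, ?_⟩)
  rintro ⟨q, hq, rfl⟩
  rwa [H.symm_apply_apply]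

section Ann

variable {C D : ℝ → S3} {A : ℝ → ℝ → Y4} {h : Y4 → Y4 → ℤ}

theorem IsGen.slice_low (hA : IsAnn C D A) (hh : IsGen (ℝ × ℝ) (rng A) h) {t : ℝ} (ht : t < 0) :
    IsGen ℝ (range C) (pb (sl t) h) := by
  refine ⟨hh.1.pb (fun _ _ => by unfold sl; fun_prop) (hA.sl_maps_low ht.le), fun γ hγ => ?_⟩
  simp only [isHolA_pb]
  exact hh.2 _ (hA.isMer_low hγ ht)

theorem IsGen.slice_high (hA : IsAnn C D A) (hh : IsGen (ℝ × ℝ) (rng A) h) {t : ℝ}
    (ht : 1 < t) : IsGen ℝ (range D) (pb (sl t) h) := by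
  refine ⟨hh.1.pb (fun _ _ => by unfold sl; fun_prop) (hA.sl_maps_high ht.le), fun γ hγ => ?_⟩
  simp only [isHolA_pb]
  exact hh.2 _ (hA.isMer_high hγ ht)

theorem IsGen.clamp (hA : IsAnn C D A) (hC : IsKnot C) (hh : IsGen (ℝ × ℝ) (rng A) h) {t₀ t₁ : ℝ}
    (h₀ : t₀ < 0) (h₁ : 1 ≤ t₁) : IsGen (ℝ × ℝ) (rng A) (pb (clampT t₀ t₁) h) := by
  obtain ⟨γ, hγ⟩ := hC.flat.exists_isMer (mem_range_self 0) Filter.univ_mem
  refine isGen_of_one hA.flat hA.isPreconnected (hh.1.pb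
    (fun _ _ => (continuous_clampT t₀ t₁).continuousAt) (hA.clamp_maps h₀.le h₁))
    (hA.isMer_low hγ h₀) ?_
  have : clampT t₀ t₁ ∘ sl t₀ ∘ γ = sl t₀ ∘ γ := funext fun s =>
    Prod.ext rfl (max_eq_left (min_le_left _ _))
  simp only [isHolA_pb, this]
  exact hh.2 _ (hA.isMer_low hγ h₀)

theorem IsGen.prod (hC : IsKnot C) {k : S3 → S3 → ℤ} (hk : IsGen ℝ (range C) k) :
    IsGen (ℝ × ℝ) (rng (prodA C)) (pb Prod.fst k) := by
  obtain ⟨γ, hγ⟩ := hC.flat.exists_isMer (mem_range_self 0) Filter.univ_mem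
  refine isGen_of_one hC.isAnn.flat hC.isAnn.isPreconnected (hk.1.pb
    (fun _ _ => continuous_fst.continuousAt) fun p hp => ?_)
    (hC.isAnn.isMer_low hγ (t := -1) (by norm_num)) ?_
  · exact ((compl_rng_prodA C).subset hp).1
  · simp only [isHolA_pb]
    exact hk.2 γ hγ

end Ann

theorem RMer.ext_eta {B : Set S3} (hB : IsClosed B) {x₀ : ℂ} {r r' : ℝ} (hr : 0 < r) (hr' : r < r')
    (h₀ : ‖x₀‖ + r' ≤ 1) (hd : Disjoint B (RB (Metric.ball x₀ r'))) {x : S3 → S3 → M}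
    (hx : IsCocA x (B ∪ eta x₀)ᶜ) (l₀ : IsHolA x (lon x₀ r) 0) :
    ∃ x', IsCocA x' Bᶜ ∧ LocEq x' x (B ∪ eta x₀)ᶜ := by
  have h1 : ‖x₀‖ < 1 := by linarith
  have h2 : (B ∪ eta x₀)ᶜ = Bᶜ \ eta x₀ := by rw [compl_union]; rfl
  have h3 : RB (Metric.ball x₀ r') ⊆ Bᶜ := hd.subset_compl_left
  have h4 : eta x₀ ⊆ RB (Metric.ball x₀ r') := fun p hp => by
    change xc p ∈ Metric.ball x₀ r'
    rw [show xc p = x₀ from hp]
    exact Metric.mem_ball_self (hr.trans hr')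
  rw [h2] at hx ⊢
  exact ext_mer (flat_eta h1) hB.isOpen_compl
    (hB.isOpen_compl.sdiff (isClosed_RB (B := {x₀}) isClosed_singleton))
    (by rw [inter_eq_left.2 (h4.trans h3)]; exact isPreconnected_eta h1) hx
    ((isMer_lon hr hr' h₀).mono h3) l₀

/-- First cohomology of the complement of a knot and some circles `eta`. -/
theorem hf_two {P : ℝ → S3} (hP : IsKnot P) {h : S3 → S3 → ℤ} (hh : IsGen ℝ (range P) h)
    {x₀ x₁ : ℂ} {r r' : ℝ} (hr : 0 < r) (hr' : r < r') (h₀ : ‖x₀‖ + r' ≤ 1) (h₁ : ‖x₁‖ + r' ≤ 1)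
    (hd : r' ≤ ‖x₀ - x₁‖) (hP₀ : Disjoint (range P) (RB (Metric.ball x₀ r')))
    (hP₁ : Disjoint (range P) (RB (Metric.ball x₁ r'))) {x : S3 → S3 → M}
    (hx : IsCocA x (range P ∪ eta x₀ ∪ eta x₁)ᶜ) (l₀ : IsHolA x (lon x₀ r) 0)
    (l₁ : IsHolA x (lon x₁ r) 0) :
    ∃ c : M, CohA x (fun p q => h p q • c) (range P ∪ eta x₀ ∪ eta x₁)ᶜ := by
  have hd₁ : Disjoint (eta x₀) (RB (Metric.ball x₁ r')) := disjoint_left.2 fun p hp h1 => by
    have h2 : dist (xc p) x₁ < r' := h1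
    rw [show xc p = x₀ from hp, dist_eq_norm] at h2
    linarith
  obtain ⟨x', h1, h2⟩ := RMer.ext_eta (hP.isClosed.union (isClosed_RB (B := {x₀}) isClosed_singleton))
    hr hr' h₁ (disjoint_union_left.2 ⟨hP₁, hd₁⟩) hx l₁
  have hl := (isMer_lon hr hr' h₀).isLoop
  have hl' : IsLoop (lon x₀ r) (range P ∪ eta x₀ ∪ eta x₁)ᶜ := ⟨hl.1, hl.2.1, fun s => by
    rintro ((h3 | h3) | h3)
    · exact disjoint_left.1 hP₀ h3 (hl.2.2 s).1
    · exact (hl.2.2 s).2 h3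
    · have h4 : dist (xc (lon x₀ r s)) x₀ < r' := (hl.2.2 s).1
      rw [show xc (lon x₀ r s) = x₁ from h3, dist_comm, dist_eq_norm] at h4
      linarith⟩
  obtain ⟨x'', h3, h4⟩ := RMer.ext_eta hP.isClosed hr hr' h₀ hP₀ h1
    (l₀.cohA (CohA.of_locEq h2.symm) hl')
  obtain ⟨c, h5⟩ := hP.h1gen hh h3
  exact ⟨c, (CohA.of_locEq h2.symm).trans (((CohA.of_locEq h4.symm).trans
    (h5.mono (compl_subset_compl.2 subset_union_left))).mono
      (compl_subset_compl.2 subset_union_left))⟩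

theorem hf_one {P : ℝ → S3} (hP : IsKnot P) {h : S3 → S3 → ℤ} (hh : IsGen ℝ (range P) h)
    {x₀ : ℂ} {r r' : ℝ} (hr : 0 < r) (hr' : r < r') (h₀ : ‖x₀‖ + r' ≤ 1)
    (hP₀ : Disjoint (range P) (RB (Metric.ball x₀ r'))) {x : S3 → S3 → M}
    (hx : IsCocA x (range P ∪ eta x₀)ᶜ) (l₀ : IsHolA x (lon x₀ r) 0) :
    ∃ c : M, CohA x (fun p q => h p q • c) (range P ∪ eta x₀)ᶜ := by
  obtain ⟨x', h3, h4⟩ := RMer.ext_eta hP.isClosed hr hr' h₀ hP₀ hx l₀
  obtain ⟨c, h5⟩ := hP.h1gen hh h3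
  exact ⟨c, (CohA.of_locEq h4.symm).trans (h5.mono (compl_subset_compl.2 subset_union_left))⟩

end Pool.Agent.HH
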