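import Pool.Agent.P.MP_c8dc46_gt.SumD1

/-!
Definitions for the computation on the exterior of the Mazur link.
-/

open Set Topology

noncomputable section

namespace Pool.Agent.HH

/-- Coordinates `(X, Y, Z)`. -/
abbrev R3 : Type := ℝ × ℝ × ℝ

/-- The disc coordinate of a point. -/
def dz (c : ℝ) (p : R3) : ℂ := c * ((p.2.1 + p.2.2 * Complex.I) / 8)

/-- The covering map onto the complement of `eta 0`. -/
def mzΦ (θ₀ c : ℝ) (p : R3) : S3 := iota (p.1 / 4 + θ₀) (dz c p)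

/-- The domain of the covering map. -/
def Vc (c : ℝ) : Set R3 := {p | ‖dz c p‖ < 1}

/-- The translation by `n` periods. -/
def trl (n : ℤ) (p : R3) : R3 := (p.1 + 4 * n, p.2)

/-- A closed periodic set in the slab. -/
structure Slab (S : Set R3) : Prop where
  closed : IsClosed S
  per : ∀ n p, trl n p ∈ S ↔ p ∈ S
  bd : ∀ p ∈ S, |p.2.1| ≤ 2 ∧ 0 ≤ p.2.2 ∧ p.2.2 ≤ 1

/-- The points whose vertical ray in the direction `ε` misses `S`. -/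
def Up (c ε : ℝ) (S : Set R3) : Set R3 :=
  {p | p ∈ Vc c ∧ ∀ t : ℝ, 0 ≤ t → (p.1, p.2.1, p.2.2 + ε * t) ∉ S}

/-- The horizontal unit edges `(i, j) → (i + 1, j)`. -/
def hE (i j : ℤ) : Prop :=
  (j = -1 ∧ i % 4 ≠ 3) ∨ (j = 0 ∧ i % 4 ≠ 2) ∨ (j = 2 ∧ i % 4 ≠ 2) ∨
    (j = 1 ∧ (i % 4 = 1 ∨ i % 4 = 2)) ∨ (j = -2 ∧ i % 4 ≠ 0)

/-- The vertical unit edges `(i, j) → (i, j + 1)`. -/
def vE (i j : ℤ) : Prop :=
  (i % 4 = 3 ∧ (j = -1 ∨ j = 1)) ∨ (i % 4 = 2 ∧ (j = 0 ∨ j = 1)) ∨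
    (i % 4 = 1 ∧ (j = -2 ∨ j = -1 ∨ j = 0)) ∨ (i % 4 = 0 ∧ j = -2)

/-- The corners. -/
def cn (i j : ℤ) : Prop :=
  (i % 4 = 0 ∧ (j = -1 ∨ j = -2)) ∨ (i % 4 = 1 ∧ (j = 1 ∨ j = -2)) ∨
    (i % 4 = 2 ∧ (j = 0 ∨ j = 2)) ∨ (i % 4 = 3 ∧ (j = -1 ∨ j = 0 ∨ j = 1 ∨ j = 2))

/-- The lifted Mazur pattern as a set. -/
def mzS : Set R3 :=
  {p | (∃ i j : ℤ, hE i j ∧ (i : ℝ) ≤ p.1 ∧ p.1 ≤ i + 1 ∧ p.2.1 = j ∧ p.2.2 = 0) ∨
    (∃ i j : ℤ, vE i j ∧ p.1 = i ∧ (j : ℝ) ≤ p.2.1 ∧ p.2.1 ≤ j + 1 ∧ p.2.2 = 1) ∨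
    (∃ i j : ℤ, cn i j ∧ p.1 = i ∧ p.2.1 = j ∧ 0 ≤ p.2.2 ∧ p.2.2 ≤ 1)}

/-- The lifted Mazur pattern as a path. -/
def mzW (s : ℝ) : R3 :=
  (interp (fun i => (mzV i).1) s, interp (fun i => (mzV i).2.1) s, interp (fun i => (mzV i).2.2) s)

/-- The diagram. -/
def onG (X Y : ℝ) : Prop := ∃ Z, (X, Y, Z) ∈ mzS

/-- The points over the faces of the diagram. -/
def Fs (c : ℝ) : Set R3 := {p | p ∈ Vc c ∧ ¬ onG p.1 p.2.1}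

/-- The face of the unit cell `(i, j)`: `0` top, `1` bottom, `2`, `3`, `4` the bounded faces
`D`, `S`, `A` with the number of the period. -/
def lab0 (i j : ℤ) : Fin 5 × ℤ :=
  if 2 ≤ j then (0, 0) else if j ≤ -3 then (1, 0)
  else if j = 1 then
    (if i % 4 = 2 then (0, 0) else if i % 4 = 3 then (2, i / 4) else (2, i / 4 - 1))
  else if j = 0 then
    (if i % 4 = 1 then (3, i / 4) else if i % 4 = 0 then (2, i / 4 - 1) else (2, i / 4))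
  else if j = -1 then
    (if i % 4 = 3 then (4, i / 4) else if i % 4 = 0 then (4, i / 4 - 1) else (2, i / 4))
  else (if i % 4 = 0 then (1, 0) else (4, i / 4))

/-- The face of a point. -/
def fc (p : R3) : Fin 5 × ℤ := lab0 ⌊p.1⌋ ⌊p.2.1⌋

/-- The Alexander numbering. -/
def num : Fin 5 → ℤ := ![0, -1, 1, 2, 0]

/-- The three crossings. -/
def cr : Fin 3 → ℤ × ℤ := ![(2, 1), (1, 0), (1, -1)]

/-- The box between the two strands of a crossing. -/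
def bx (i : Fin 3) : Set R3 :=
  {p | |p.1 - (cr i).1| < 1 / 2 ∧ |p.2.1 - (cr i).2| < 1 / 2 ∧ 0 < p.2.2 ∧ p.2.2 < 1}

/-- A crossing box with its four halves. -/
structure Cross (Y : Type) where
  B : Set Y
  L : Set Y
  R : Set Y
  Fr : Set Y
  Bk : Set Y

/-- The conditions on a crossing box. -/
structure Cross.Ok {Y : Type} [TopologicalSpace Y] (c : Cross Y) (U₁ U₂ : Set Y) : Prop where
  cvx : Cvx c.B
  oL : IsOpen c.L ∧ IsPreconnected c.L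
  oR : IsOpen c.R ∧ IsPreconnected c.R
  oF : IsOpen c.Fr ∧ IsPreconnected c.Fr
  oB : IsOpen c.Bk ∧ IsPreconnected c.Bk
  e₁ : c.B ∩ U₁ = c.L ∪ c.R
  d₁ : Disjoint c.L c.R
  e₂ : c.B ∩ U₂ = c.Fr ∪ c.Bk
  d₂ : Disjoint c.Fr c.Bk
  ne : (c.L ∩ c.Fr).Nonempty ∧ (c.L ∩ c.Bk).Nonempty ∧ (c.R ∩ c.Fr).Nonempty ∧
    (c.R ∩ c.Bk).Nonempty

/-- The relation imposed by a crossing on a parallel section. -/
def Cross.Rel {Y R E : Type} [TopologicalSpace Y] [CommRing R] [AddCommGroup E] [Module R E]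
    (c : Cross Y) (τ : Y → Y → Module.End R E) (σ : List Y → E) : Prop :=
  ∃ eL eR eF eB : List Y → E, dT τ eL ∈ N R E 2 c.B ∧ dT τ eR ∈ N R E 2 c.B ∧
    dT τ eF ∈ N R E 2 c.B ∧ dT τ eB ∈ N R E 2 c.B ∧ σ + eL - eF ∈ N R E 1 (c.L ∩ c.Fr) ∧
    σ + eL - eB ∈ N R E 1 (c.L ∩ c.Bk) ∧ σ + eR - eF ∈ N R E 1 (c.R ∩ c.Fr) ∧
    σ + eR - eB ∈ N R E 1 (c.R ∩ c.Bk)

/-- The crossing boxes of the Mazur diagram. -/
def mzX (θ₀ c : ℝ) (i : Fin 3) : Cross S3 where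
  B := mzΦ θ₀ c '' bx i
  L := mzΦ θ₀ c '' (bx i ∩ {p | p.1 < (cr i).1})
  R := mzΦ θ₀ c '' (bx i ∩ {p | ((cr i).1 : ℝ) < p.1})
  Fr := mzΦ θ₀ c '' (bx i ∩ {p | p.2.1 < (cr i).2})
  Bk := mzΦ θ₀ c '' (bx i ∩ {p | ((cr i).2 : ℝ) < p.2.1})

/-- Primitives of the degree cocycle above and below the diagram. -/
structure MzK (θ₀ c : ℝ) (hP : S3 → S3 → ℤ) (k₁ k₂ : S3 → ℤ) (e : ℤ) : Prop where
  coc : IsCocA hP (Sp (Pc mzA mzD θ₀ c))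
  up : LocEq hP (fun x y => k₁ y - k₁ x) (mzΦ θ₀ c '' Up c 1 mzS)
  down : LocEq hP (fun x y => k₂ y - k₂ x) (mzΦ θ₀ c '' Up c (-1) mzS)
  diff : ∀ p ∈ Fs c, k₁ (mzΦ θ₀ c p) - k₂ (mzΦ θ₀ c p) = e * num (fc p).1

section

variable {E : Type} [AddCommGroup E] [Module ℂ E]

/-- The abelian system `u ^ θ G ^ h`. -/
def abT (u : ℂˣ) (G : (Module.End ℂ E)ˣ) (hP : S3 → S3 → ℤ) : S3 → S3 → Module.End ℂ E :=
  fun x y => ((u ^ th xc x y : ℂˣ) : ℂ) • (G ^ hP x y : (Module.End ℂ E)ˣ).1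

/-- The label of a section at a point of the cover. -/
def lab (θ₀ c : ℝ) (u : ℂˣ) (G : (Module.End ℂ E)ˣ) (k : S3 → ℤ) (σ : List S3 → E) (p : R3) : E :=
  ((u ^ ⌈p.1 / 4 + θ₀ - 1 / 2⌉ : ℂˣ) : ℂ) •
    (G ^ k (mzΦ θ₀ c p) : (Module.End ℂ E)ˣ).1 (σ [mzΦ θ₀ c p])

/-- The labels determined by three values. -/
def valOf (u : ℂˣ) (A D S : E) (t : Fin 5 × ℤ) : E := ((u ^ t.2 : ℂˣ) : ℂ) • ![0, 0, D, S, A] t.1

/-- The Mazur polynomial of an operator. -/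
def mzPoly (v : ℂ) (G : Module.End ℂ E) : Module.End ℂ E :=
  1 - G - v • 1 + v • G - v • G ^ 2 - v ^ 2 • G + v ^ 2 • G ^ 2

end

end Pool.Agent.HH
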