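import Pool.Agent.P.MP_c8dc46_gt.MzRange

/-!
The faces of the diagram. A locally constant function on `Fs c` is determined by its values at the
centres of the unit cells, and neighbouring centres are joined through the open walls.
-/

open Set Topology

namespace Pool.Agent.HH

variable {c : ℝ}

namespace RMzFace

theorem lab_v {i j : ℤ} (h : ¬ vE i j) : lab0 (i - 1) j = lab0 i j := by
  unfold vE at h
  unfold lab0
  split_ifs <;> first | rfl | omega | exact Prod.ext rfl (by simp only; omega)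

theorem lab_h {i j : ℤ} (h : ¬ hE i j) : lab0 i (j - 1) = lab0 i j := by
  unfold hE at h
  unfold lab0
  split_ifs <;> first | rfl | omega

theorem on_h {X Y : ℝ} {i j : ℤ} (h : hE i j) (h1 : (i : ℝ) ≤ X) (h2 : X ≤ i + 1) (h3 : Y = j) :
    onG X Y := ⟨0, Or.inl ⟨i, j, h, h1, h2, h3, rfl⟩⟩

theorem on_v {X Y : ℝ} {i j : ℤ} (h : vE i j) (h1 : X = i) (h2 : (j : ℝ) ≤ Y) (h3 : Y ≤ j + 1) :
    onG X Y := ⟨1, Or.inr (Or.inl ⟨i, j, h, h1, h2, h3, rfl⟩)⟩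

theorem not_int {X : ℝ} {i i' : ℤ} (h1 : (i : ℝ) < X) (h2 : X < i + 1) : X ≠ i' := by
  rintro rfl
  have h3 : i < i' := by exact_mod_cast h1
  have h4 : i' < i + 1 := by exact_mod_cast h2
  omega

theorem int_eq {X : ℝ} {i i' : ℤ} (h1 : (i : ℝ) < X) (h2 : X < i + 1) (h3 : (i' : ℝ) ≤ X)
    (h4 : X ≤ i' + 1) : i' = i := by
  have h5 : i < i' + 1 := by exact_mod_cast h1.trans_le h4
  have h6 : i' < i + 1 := by exact_mod_cast h3.trans_lt h2
  omega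

theorem off_row {X Y : ℝ} {j : ℤ} (h1 : (j : ℝ) < Y) (h2 : Y < j + 1)
    (h : ∀ i : ℤ, X = i → ¬ vE i j) : ¬ onG X Y := by
  rintro ⟨Z, ⟨i, j', -, -, -, h3, -⟩ | ⟨i, j', h3, h4, h5, h6, -⟩ | ⟨i, j', -, -, h3, -⟩⟩
  · exact not_int h1 h2 h3
  · exact h i h4 (int_eq h1 h2 h5 h6 ▸ h3)
  · exact not_int h1 h2 h3

theorem off_col {X Y : ℝ} {i : ℤ} (h1 : (i : ℝ) < X) (h2 : X < i + 1)
    (h : ∀ j : ℤ, Y = j → ¬ hE i j) : ¬ onG X Y := by
  rintro ⟨Z, ⟨i', j, h3, h4, h5, h6, -⟩ | ⟨i', j, -, h3, -⟩ | ⟨i', j, -, h3, -⟩⟩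
  · exact h j h6 (int_eq h1 h2 h4 h5 ▸ h3)
  · exact not_int h1 h2 h3
  · exact not_int h1 h2 h3

theorem off_far {X Y : ℝ} (h : 2 < |Y|) : ¬ onG X Y := fun ⟨_, hZ⟩ =>
  (slab_mz.bd _ hZ).1.not_gt h

theorem ev_floor (x : ℝ) : ∀ᶠ y in 𝓝 x, ⌊y⌋ = ⌊x⌋ ∨ (x = ⌊x⌋ ∧ ⌊y⌋ = ⌊x⌋ - 1) := by
  rcases (Int.floor_le x).eq_or_lt with h | h
  · filter_upwards [Ioo_mem_nhds (sub_one_lt x) (lt_add_one x)] with y hy
    rcases lt_or_ge y x with h1 | h1
    · refine Or.inr ⟨h.symm, Int.floor_eq_iff.2 ⟨?_, ?_⟩⟩ <;> push_cast <;> linarith [hy.1]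
    · exact Or.inl (Int.floor_eq_iff.2 ⟨by linarith, by linarith [hy.2]⟩)
  · filter_upwards [Ioo_mem_nhds h (Int.lt_floor_add_one x)] with y hy
    exact Or.inl (Int.floor_eq_iff.2 ⟨hy.1.le, hy.2⟩)

/-- The centre of a cell. -/
noncomputable def ctr (i j : ℤ) : R3 := (i + 1 / 2, j + 1 / 2, 0)

theorem ctr_Vc (hc : 0 < c) (hc1 : c ≤ 1) (i : ℤ) {j : ℤ} (h1 : -3 ≤ j) (h2 : j ≤ 2) :
    ctr i j ∈ Vc c := by
  have h3 : (-3 : ℝ) ≤ j := by exact_mod_cast h1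
  have h4 : (j : ℝ) ≤ 2 := by exact_mod_cast h2
  refine mem_Vc hc hc1 ?_
  simp only [ctr]
  nlinarith

theorem fc_ctr (i j : ℤ) : fc (ctr i j) = lab0 i j := by
  have h : ∀ k : ℤ, ⌊(k : ℝ) + 1 / 2⌋ = k := fun k =>
    Int.floor_eq_iff.2 ⟨by linarith, by linarith⟩
  simp only [fc, ctr, h]

theorem ctr_off (i j : ℤ) : ¬ onG (ctr i j).1 (ctr i j).2.1 :=
  off_row (j := j) (by simp [ctr]) (by simp only [ctr]; linarith) fun i' h =>
    (not_int (i := i) (by simp [ctr]) (by simp only [ctr]; linarith) h).elim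

variable {M : Type} {l : R3 → M}

theorem seg (hl : ∀ p ∈ Fs c, ∀ᶠ q in 𝓝 p, l q = l p) {p q : R3} (hp : p ∈ Fs c) (hq : q ∈ Vc c)
    (h : ∀ t : ℝ, 0 < t → t ≤ 1 →
      ¬ onG ((1 - t) * p.1 + t * q.1) ((1 - t) * p.2.1 + t * q.2.1)) : l p = l q := by
  refine RHol.loc_const (convex_segment p q).isPreconnected (fun x hx => hl x ?_)
    (left_mem_segment ℝ p q) (right_mem_segment ℝ p q)
  refine ⟨(convex_Vc c).segment_subset hp.1 hq hx, ?_⟩
  obtain ⟨a, b, ha, hb, hab, rfl⟩ := hx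
  obtain rfl : a = 1 - b := by linarith
  rcases hb.eq_or_lt with rfl | hb
  · simpa using hp.2
  · exact h b hb (by linarith)

theorem to_ctr (hc : 0 < c) (hc1 : c ≤ 1) (hl : ∀ p ∈ Fs c, ∀ᶠ q in 𝓝 p, l q = l p) {p : R3}
    (hp : p ∈ Fs c) : l p = l (ctr ⌊p.1⌋ (max (-3) (min ⌊p.2.1⌋ 2))) := by
  refine seg hl hp (ctr_Vc hc hc1 _ (by omega) (by omega)) fun t h0 h1 => ?_
  have x1 := Int.floor_le p.1
  have x2 := Int.lt_floor_add_one p.1
  have y1 := Int.floor_le p.2.1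
  have y2 := Int.lt_floor_add_one p.2.1
  simp only [ctr]
  rcases lt_or_ge 2 ⌊p.2.1⌋ with h2 | h2
  · have h3 : (3 : ℝ) ≤ ⌊p.2.1⌋ := by exact_mod_cast h2
    rw [show max (-3) (min ⌊p.2.1⌋ 2) = 2 by omega]
    refine off_far (lt_abs.2 (Or.inl ?_))
    push_cast
    nlinarith
  rcases lt_or_ge ⌊p.2.1⌋ (-3) with h3 | h3
  · have h4 : (⌊p.2.1⌋ : ℝ) + 1 ≤ -3 := by exact_mod_cast h3
    rw [show max (-3) (min ⌊p.2.1⌋ 2) = -3 by omega]
    refine off_far (lt_abs.2 (Or.inr ?_))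
    push_cast
    nlinarith
  · rw [show max (-3) (min ⌊p.2.1⌋ 2) = ⌊p.2.1⌋ by omega]
    exact off_row (j := ⌊p.2.1⌋) (by nlinarith) (by nlinarith) fun i h =>
      (not_int (i := ⌊p.1⌋) (by nlinarith) (by nlinarith) h).elim

theorem wall_v (hc : 0 < c) (hc1 : c ≤ 1) (hl : ∀ p ∈ Fs c, ∀ᶠ q in 𝓝 p, l q = l p) (i j : ℤ)
    (h1 : -3 ≤ j) (h2 : j ≤ 2) (h : ¬ vE i j) : l (ctr (i - 1) j) = l (ctr i j) := by
  refine seg hl ⟨ctr_Vc hc hc1 _ h1 h2, ctr_off _ _⟩ (ctr_Vc hc hc1 _ h1 h2) fun t h0 h1 => ?_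
  simp only [ctr]
  refine off_row (j := j) (by linarith) (by linarith) fun i' h' => ?_
  push_cast at h'
  have h3 : (i : ℝ) < i' + 1 := by linarith
  have h4 : (i' : ℝ) < i + 1 := by linarith
  have h5 : i < i' + 1 := by exact_mod_cast h3
  have h6 : i' < i + 1 := by exact_mod_cast h4
  rwa [show i' = i by omega]

theorem wall_h (hc : 0 < c) (hc1 : c ≤ 1) (hl : ∀ p ∈ Fs c, ∀ᶠ q in 𝓝 p, l q = l p) (i j : ℤ)
    (h1 : -2 ≤ j) (h2 : j ≤ 2) (h : ¬ hE i j) : l (ctr i (j - 1)) = l (ctr i j) := by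
  refine seg hl ⟨ctr_Vc hc hc1 _ (by omega) (by omega), ctr_off _ _⟩
    (ctr_Vc hc hc1 _ (by omega) h2) fun t h0 h1 => ?_
  simp only [ctr]
  refine off_col (i := i) (by linarith) (by linarith) fun j' h' => ?_
  push_cast at h'
  have h3 : (j : ℝ) < j' + 1 := by linarith
  have h4 : (j' : ℝ) < j + 1 := by linarith
  have h5 : j < j' + 1 := by exact_mod_cast h3
  have h6 : j' < j + 1 := by exact_mod_cast h4
  rwa [show j' = j by omega]

/-- The value on a face, read off at a representative cell. -/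
def repL (L : ℤ → ℤ → M) (t : Fin 5 × ℤ) : M :=
  ![L 0 2, L 0 (-3), L (4 * t.2 + 2) 0, L (4 * t.2 + 1) 0, L (4 * t.2 + 3) (-1)] t.1

theorem comb {L : ℤ → ℤ → M} (hv : ∀ i j, -3 ≤ j → j ≤ 2 → ¬ vE i j → L (i - 1) j = L i j)
    (hh : ∀ i j, -2 ≤ j → j ≤ 2 → ¬ hE i j → L i (j - 1) = L i j) (i j : ℤ) (h1 : -3 ≤ j)
    (h2 : j ≤ 2) : L i j = repL L (lab0 i j) := by
  have key : ∀ i j i' j', (j' = j ∧ i' = i + 1 ∧ -3 ≤ j ∧ j ≤ 2 ∧ ¬ vE i' j) ∨
      (i' = i ∧ j' = j + 1 ∧ -3 ≤ j ∧ j ≤ 1 ∧ ¬ hE i j') → L i j = L i' j' := by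
    rintro i j i' j' (⟨rfl, rfl, a, b, e⟩ | ⟨rfl, rfl, a, b, e⟩)
    · simpa using hv _ _ a b e
    · simpa using hh _ _ (by omega) (by omega) e
  have row : ∀ j, j = 2 ∨ j = -3 → ∀ i, L i j = L 0 j := fun j hj i => by
    induction i using Int.induction_on with
    | zero => rfl
    | succ n ih => exact (key _ _ _ _ (by unfold vE hE; omega)).symm.trans ih
    | pred n ih => exact (key _ _ _ _ (by unfold vE hE; omega)).trans ih
  have d1 : ∀ k, L (4 * k + 3) 0 = L (4 * k + 2) 0 := fun k =>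
    (key _ _ _ _ (by unfold vE hE; omega)).symm
  have d2 : ∀ k, L (4 * k + 3) 1 = L (4 * k + 2) 0 := fun k =>
    (key _ _ _ _ (by unfold vE hE; omega)).symm.trans (d1 k)
  have d3 : ∀ k, L (4 * k + 0) 1 = L (4 * (k - 1) + 2) 0 := fun k =>
    (key _ _ _ _ (by unfold vE hE; omega)).symm.trans (d2 (k - 1))
  have d4 : ∀ k, L (4 * k + 2) (-1) = L (4 * k + 2) 0 := fun k =>
    key _ _ _ _ (by unfold vE hE; omega)
  have a1 : ∀ k, L (4 * k + 3) (-2) = L (4 * k + 3) (-1) := fun k =>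
    key _ _ _ _ (by unfold vE hE; omega)
  have a2 : ∀ k, L (4 * k + 2) (-2) = L (4 * k + 3) (-1) := fun k =>
    (key _ _ _ _ (by unfold vE hE; omega)).trans (a1 k)
  obtain ⟨k, r, hr0, hr, rfl⟩ : ∃ k r : ℤ, 0 ≤ r ∧ r < 4 ∧ i = 4 * k + r :=
    ⟨i / 4, i % 4, by omega, by omega, by omega⟩
  have e : lab0 (4 * k + r) j = if 2 ≤ j then (0, 0) else if j ≤ -3 then (1, 0)
      else if j = 1 then (if r = 2 then (0, 0) else if r = 3 then (2, k) else (2, k - 1))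
      else if j = 0 then (if r = 1 then (3, k) else if r = 0 then (2, k - 1) else (2, k))
      else if j = -1 then (if r = 3 then (4, k) else if r = 0 then (4, k - 1) else (2, k))
      else (if r = 0 then (1, 0) else (4, k)) := by
    rw [lab0, show (4 * k + r) % 4 = r by omega, show (4 * k + r) / 4 = k by omega]
  rw [e]
  interval_cases j
  · exact row _ (Or.inr rfl) _
  · interval_cases r
    · exact (key _ _ _ _ (by unfold vE hE; omega)).symm.trans (row (-3) (Or.inr rfl) (4 * k + 0))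
    · exact (key _ _ _ _ (by unfold vE hE; omega)).trans (a2 k)
    · exact a2 k
    · exact a1 k
  · interval_cases r
    · exact (key (4 * (k - 1) + 3) (-1) _ _ (by unfold vE hE; omega)).symm
    · exact (key _ _ _ _ (by unfold vE hE; omega)).trans (d4 k)
    · exact d4 k
    · rfl
  · interval_cases r
    · exact (key _ _ _ _ (by unfold vE hE; omega)).symm.trans (d1 (k - 1))
    · rfl
    · rfl
    · exact d1 k
  · interval_cases r
    · exact d3 k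
    · exact (key _ _ _ _ (by unfold vE hE; omega)).symm.trans (d3 k)
    · exact (key _ _ _ _ (by unfold vE hE; omega)).trans (row 2 (Or.inl rfl) (4 * k + 2))
    · exact d2 k
  · exact row _ (Or.inl rfl) _

theorem lab_clamp (i j : ℤ) : lab0 i (max (-3) (min j 2)) = lab0 i j := by
  rcases lt_or_ge 2 j with h | h
  · rw [show max (-3) (min j 2) = 2 by omega, lab0, lab0, if_pos le_rfl, if_pos h.le]
  rcases lt_or_ge j (-3) with h' | h'
  · rw [show max (-3) (min j 2) = -3 by omega, lab0, lab0, if_neg (by omega), if_pos le_rfl,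
      if_neg (by omega), if_pos h'.le]
  · rw [show max (-3) (min j 2) = j by omega]

theorem fl_lt {x : ℝ} {a : ℤ} (h : |x - a| < 1 / 2) (h' : x < a) : ⌊x⌋ = a - 1 := by
  refine Int.floor_eq_iff.2 ⟨?_, ?_⟩ <;> push_cast <;> linarith [(abs_lt.1 h).1]

theorem fl_gt {x : ℝ} {a : ℤ} (h : |x - a| < 1 / 2) (h' : (a : ℝ) < x) : ⌊x⌋ = a :=
  Int.floor_eq_iff.2 ⟨h'.le, by linarith [(abs_lt.1 h).2]⟩

end RMzFace

section

open RMzFace

theorem fc_loc {p : R3} (hp : ¬ onG p.1 p.2.1) : ∀ᶠ q in 𝓝 p, fc q = fc p := by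
  have x1 := Int.floor_le p.1
  have x2 := (Int.lt_floor_add_one p.1).le
  have y1 := Int.floor_le p.2.1
  have y2 := (Int.lt_floor_add_one p.2.1).le
  filter_upwards [continuous_fst.continuousAt.eventually (ev_floor p.1),
    (continuous_fst.comp continuous_snd).continuousAt.eventually (ev_floor p.2.1)] with q h1 h2
  simp only [Function.comp] at h2
  rcases h1 with h1 | ⟨e1, h1⟩ <;> rcases h2 with h2 | ⟨e2, h2⟩ <;> rw [fc, fc, h1, h2]
  · exact lab_h fun h => hp (on_h h x1 x2 e2)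
  · exact lab_v fun h => hp (on_v h e1 y1 y2)
  · exact (lab_h fun h => hp (on_h h (by push_cast; linarith) (by push_cast; linarith) e2)).trans
      (lab_v fun h => hp (on_v h e1 y1 y2))

theorem fc_const (hc : 0 < c) (hc1 : c ≤ 1) {M : Type} {l : R3 → M}
    (hl : ∀ p ∈ Fs c, ∀ᶠ q in 𝓝 p, l q = l p) {p q : R3} (hp : p ∈ Fs c) (hq : q ∈ Fs c)
    (h : fc p = fc q) : l p = l q := by
  have key : ∀ p ∈ Fs c, l p = repL (fun i j => l (ctr i j)) (fc p) := fun p hp => by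
    rw [to_ctr hc hc1 hl hp, fc, ← lab_clamp]
    exact comb (L := fun i j => l (ctr i j)) (wall_v hc hc1 hl) (wall_h hc hc1 hl) _ _
      (by omega) (by omega)
  rw [key p hp, key q hq, h]

theorem fc_trl (n : ℤ) (p : R3) : (fc (trl n p)).1 = (fc p).1 ∧
    (fc (trl n p)).2 = if (fc p).1 = 0 ∨ (fc p).1 = 1 then 0 else (fc p).2 + n := by
  have h : ⌊p.1 + 4 * n⌋ = ⌊p.1⌋ + 4 * n := by
    rw [← Int.floor_add_intCast]
    push_cast
    rfl
  have h1 : (⌊p.1⌋ + 4 * n) % 4 = ⌊p.1⌋ % 4 := by omega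
  have h2 : (⌊p.1⌋ + 4 * n) / 4 = ⌊p.1⌋ / 4 + n := by omega
  simp only [fc, trl, h, lab0, h1, h2]
  split_ifs <;> simp_all <;> omega

theorem fc_snd {p : R3} (h : (fc p).1 = 0 ∨ (fc p).1 = 1) : (fc p).2 = 0 := by
  revert h
  unfold fc lab0
  split_ifs <;> simp

theorem fc_surj (hc : 0 < c) (hc1 : c ≤ 1) (t : Fin 5) : ∃ p ∈ Fs c, fc p = (t, 0) := by
  have key : ∀ i j : ℤ, -3 ≤ j → j ≤ 2 → ∃ p ∈ Fs c, fc p = lab0 i j := fun i j h1 h2 =>
    ⟨_, ⟨ctr_Vc hc hc1 i h1 h2, ctr_off i j⟩, fc_ctr i j⟩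
  fin_cases t
  · exact key 0 2 (by norm_num) (by norm_num)
  · exact key 0 (-3) (by norm_num) (by norm_num)
  · exact key 2 0 (by norm_num) (by norm_num)
  · exact key 1 0 (by norm_num) (by norm_num)
  · exact key 3 (-1) (by norm_num) (by norm_num)

/-- The faces in the four quadrants of a crossing box. -/
theorem fc_bx {i : Fin 3} {p : R3} (hp : p ∈ bx i) :
    (p.1 < (cr i).1 → p.2.1 < (cr i).2 → fc p = ![(3, 0), (4, -1), (1, 0)] i) ∧
    (p.1 < (cr i).1 → ((cr i).2 : ℝ) < p.2.1 → fc p = ![(2, -1), (2, -1), (4, -1)] i) ∧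
    (((cr i).1 : ℝ) < p.1 → p.2.1 < (cr i).2 → fc p = ![(2, 0), (2, 0), (4, 0)] i) ∧
    (((cr i).1 : ℝ) < p.1 → ((cr i).2 : ℝ) < p.2.1 → fc p = ![(0, 0), (3, 0), (2, 0)] i) := by
  obtain ⟨h1, h2, -⟩ := hp
  refine ⟨fun a b => ?_, fun a b => ?_, fun a b => ?_, fun a b => ?_⟩
  · rw [fc, fl_lt h1 a, fl_lt h2 b]
    fin_cases i <;> rfl
  · rw [fc, fl_lt h1 a, fl_gt h2 b]
    fin_cases i <;> rfl
  · rw [fc, fl_gt h1 a, fl_lt h2 b]
    fin_cases i <;> rfl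
  · rw [fc, fl_gt h1 a, fl_gt h2 b]
    fin_cases i <;> rfl

theorem bx_Fs (hc : 0 < c) (hc1 : c ≤ 1) {i : Fin 3} {p : R3} (hp : p ∈ bx i)
    (h₁ : p.1 ≠ (cr i).1) (h₂ : p.2.1 ≠ (cr i).2) : p ∈ Fs c := by
  rw [← Up_inter]
  exact ⟨(bx_up hc hc1 hp).1.2 h₁, (bx_up hc hc1 hp).2.2 h₂⟩

theorem top_Fs {p : R3} (hp : p ∈ Vc c) (h : 2 < p.2.1) : p ∈ Fs c ∧ fc p = (0, 0) := by
  refine ⟨⟨hp, off_far (lt_abs.2 (Or.inl h))⟩, ?_⟩
  rw [fc, lab0, if_pos (Int.le_floor.2 (by exact_mod_cast h.le))]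

theorem bot_Fs {p : R3} (hp : p ∈ Vc c) (h : p.2.1 < -2) : p ∈ Fs c ∧ fc p = (1, 0) := by
  refine ⟨⟨hp, off_far (lt_abs.2 (Or.inr (by linarith)))⟩, ?_⟩
  have h1 : ⌊p.2.1⌋ < -2 := Int.floor_lt.2 (by exact_mod_cast h)
  rw [fc, lab0, if_neg (by omega), if_pos (by omega)]

end

end Pool.Agent.HH
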