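import Pool.Agent.P.MP_c8dc46_gt.MzFace
import Pool.Agent.P.MP_c8dc46_gt.Dehn

/-!
The Alexander numbering of the Mazur diagram.
-/

open Set Topology

namespace Pool.Agent.HH

variable {θ₀ c : ℝ} {hP : S3 → S3 → ℤ}

namespace RMzNum

theorem ex_re (s : ℝ) : (ex s).re = Real.cos (2 * Real.pi * s) := by
  have h : (2 * Real.pi * s * Complex.I : ℂ) = ((2 * Real.pi * s : ℝ) : ℂ) * Complex.I := by
    push_cast; ring
  rw [ex, h, Complex.exp_ofReal_mul_I_re]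

theorem ex_im (s : ℝ) : (ex s).im = Real.sin (2 * Real.pi * s) := by
  have h : (2 * Real.pi * s * Complex.I : ℂ) = ((2 * Real.pi * s : ℝ) : ℂ) * Complex.I := by
    push_cast; ring
  rw [ex, h, Complex.exp_ofReal_mul_I_im]

theorem ex_sq (s : ℝ) : (ex s).re ^ 2 + (ex s).im ^ 2 = 1 := by
  rw [ex_re, ex_im, Real.cos_sq_add_sin_sq]

theorem ex_quarter {ε : ℝ} (hε : ε = 1 ∨ ε = -1) : ex (ε / 4) = ε * Complex.I := by
  rcases hε with rfl | rfl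
  · refine Complex.ext ?_ ?_
    · rw [ex_re, show 2 * Real.pi * (1 / 4) = Real.pi / 2 by ring, Real.cos_pi_div_two]; simp
    · rw [ex_im, show 2 * Real.pi * (1 / 4) = Real.pi / 2 by ring, Real.sin_pi_div_two]; simp
  · refine Complex.ext ?_ ?_
    · rw [ex_re, show 2 * Real.pi * (-1 / 4) = -(Real.pi / 2) by ring, Real.cos_neg,
        Real.cos_pi_div_two]; simp
    · rw [ex_im, show 2 * Real.pi * (-1 / 4) = -(Real.pi / 2) by ring, Real.sin_neg,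
        Real.sin_pi_div_two]; simp

theorem dz_re (c : ℝ) (p : R3) : (dz c p).re = c * p.2.1 / 8 := by
  have h : dz c p = ((c * p.2.1 / 8 : ℝ) : ℂ) + ((c * p.2.2 / 8 : ℝ) : ℂ) * Complex.I := by
    rw [dz]; push_cast; ring
  rw [h]; simp

theorem dz_im (c : ℝ) (p : R3) : (dz c p).im = c * p.2.2 / 8 := by
  have h : dz c p = ((c * p.2.1 / 8 : ℝ) : ℂ) + ((c * p.2.2 / 8 : ℝ) : ℂ) * Complex.I := by
    rw [dz]; push_cast; ring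
  rw [h]; simp

/-- The second coordinate of a point of the knot is small. -/
theorem knot_yc (hc : 0 < c) (hc1 : c ≤ 1) {p : S3} (hp : p ∈ range (Pc mzA mzD θ₀ c)) :
    |(yc p).re| ≤ c / 4 ∧ 0 ≤ (yc p).im ∧ (yc p).im ≤ c / 8 := by
  obtain ⟨s, rfl⟩ := hp
  have hS : mzW s ∈ mzS := mz_range ▸ mem_range_self s
  have hV : ‖dz c (mzW s)‖ < 1 := mzS_subset hc hc1 hS
  obtain ⟨h1, h2, h3⟩ := slab_mz.bd _ hS
  rw [Pc_mz, mzΦ, yc_iota hV.le, dz_re, dz_im]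
  rw [abs_le] at h1
  refine ⟨abs_le.2 ⟨?_, ?_⟩, by positivity, ?_⟩ <;> nlinarith [h1.1, h1.2]

theorem iota_eq_fib {θ t r r' : ℝ} (hr : 0 ≤ r) (hr' : 0 ≤ r') (h : r ^ 2 + r' ^ 2 = 1) :
    iota θ (r' * ex t) = fib (r * ex θ) t := by
  have h1 : ‖(r' : ℂ) * ex t‖ = r' := by rw [RFib.norm_mul_ex, abs_of_nonneg hr']
  have h2 : ‖(r : ℂ) * ex θ‖ = r := by rw [RFib.norm_mul_ex, abs_of_nonneg hr]
  have h3 : ‖(r' : ℂ) * ex t‖ ≤ 1 := by rw [h1]; nlinarith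
  have h4 : ‖(r : ℂ) * ex θ‖ ≤ 1 := by rw [h2]; nlinarith
  refine RFib.ext' ?_ ?_
  · rw [xc_iota h3, xc_fib h4, h1, show 1 - r' ^ 2 = r ^ 2 by linarith, Real.sqrt_sq hr]
  · rw [yc_iota h3, yc_fib h4, h2, show 1 - r ^ 2 = r' ^ 2 by linarith, Real.sqrt_sq hr']

end RMzNum

open RMzNum

theorem hol_top (hc : 0 < c) (hc1 : c ≤ 1) {ε : ℝ} (hε : ε = 1 ∨ ε = -1)
    (hg : IsCocA hP (range (Pc mzA mzD θ₀ c))ᶜ) :
    IsHolA hP (fun s => mzΦ θ₀ c (4 * s, 0, 2 * ε)) 0 := by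
  have hex := continuous_ex
  have a0 : 0 < 1 - c ^ 2 / 16 := by nlinarith
  have a1 : 1 - c ^ 2 / 16 < 1 - c ^ 2 / 36 := by nlinarith
  set r₀ := Real.sqrt (1 - c ^ 2 / 16) with hr₀
  set r₁ := Real.sqrt (1 - c ^ 2 / 36) with hr₁
  have b0 : 0 < r₀ := Real.sqrt_pos.2 a0
  have b1 : r₀ < r₁ := Real.sqrt_lt_sqrt a0.le a1
  have b2 : r₀ ^ 2 = 1 - c ^ 2 / 16 := Real.sq_sqrt a0.le
  have b3 : r₁ ^ 2 = 1 - c ^ 2 / 36 := Real.sq_sqrt (a0.trans a1).le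
  have hsq : ∀ r ∈ Ioo (-r₁) r₁, r ^ 2 < 1 - c ^ 2 / 36 := fun r hr => by
    rw [← b3]; exact sq_lt_sq' hr.1 hr.2
  have hle : ∀ r ∈ Ioo (-r₁) r₁, ∀ s, ‖(r : ℂ) * ex s‖ ≤ 1 := fun r hr s => by
    rw [RFib.norm_mul_ex]
    have := hsq r hr
    exact abs_le_one_iff_mul_self_le_one.2 (by nlinarith)
  have hm : MapsTo (fun q : ℝ × ℝ => fib (q.2 * ex (q.1 + θ₀)) (ε / 4)) (univ ×ˢ Ioo (-r₁) r₁)
      (range (Pc mzA mzD θ₀ c))ᶜ := by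
    intro q hq hk
    obtain ⟨-, h2, h3⟩ := knot_yc hc hc1 hk
    rw [yc_fib (hle _ hq.2 _), ex_quarter hε, RFib.norm_mul_ex, sq_abs] at h2 h3
    have h4 := hsq _ hq.2
    have h5 : c / 6 < Real.sqrt (1 - q.2 ^ 2) := Real.lt_sqrt_of_sq_lt (by linarith)
    rcases hε with rfl | rfl
    · simp at h3; linarith
    · simp at h2; linarith
  have h0 : (0 : ℝ) ∈ Ioo (-r₁) r₁ := ⟨by linarith, by linarith⟩
  have h1 : r₀ ∈ Ioo (-r₁) r₁ := ⟨by linarith, b1⟩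
  have key := IsHolA.homotopy (Φ := fun q : ℝ × ℝ => fib (q.2 * ex (q.1 + θ₀)) (ε / 4))
    isOpen_Ioo (convex_Ioo _ _)
    (RFib.continuousOn_fib (by fun_prop) continuous_const fun q hq => hle _ hq.2 _)
    (fun s w => by simp only [add_right_comm s 1 θ₀, RFib.ex_add_one]) hm hg h0 h1 (c := 0) (by
      simp only [Complex.ofReal_zero, zero_mul]
      obtain ⟨U, hU, h2⟩ := hg _ (hm (x := (0, 0)) ⟨trivial, h0⟩)
      simp only [Complex.ofReal_zero, zero_mul] at hU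
      have h3 := mem_of_mem_nhds hU
      exact isHolA_const (by simpa using h2 _ h3 _ h3 _ h3))
  have e : (fun s => mzΦ θ₀ c (4 * s, 0, 2 * ε)) = fun s => fib (r₀ * ex (s + θ₀)) (ε / 4) := by
    funext s
    rw [← iota_eq_fib b0.le (r' := c / 4) (by positivity) (by rw [b2]; ring), ex_quarter hε, mzΦ]
    congr 1
    · simp
    · simp only [dz]; push_cast; ring
  rw [e]
  exact key

theorem hol_top_xc (hc : 0 < c) (hc1 : c ≤ 1) {ε : ℝ} (hε : ε = 1 ∨ ε = -1) :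
    IsHolA (th xc) (fun s => mzΦ θ₀ c (4 * s, 0, 2 * ε)) 1 := by
  refine isHolA_th (α := fun s => 4 * s / 4 + θ₀) (by fun_prop) (fun s => by push_cast; ring)
    fun s => xc_mzΦ (p := (4 * s, 0, 2 * ε)) (mem_Vc hc hc1 ?_)
  rcases hε with rfl | rfl <;> norm_num

namespace RMzNum

/-- The meridian circle in the cover. -/
noncomputable def pt (s : ℝ) : R3 := (0, 7 * (ex s).re, 7 * (ex s).im)

theorem pt_Vc (hc : 0 < c) (hc1 : c ≤ 1) (s : ℝ) : pt s ∈ Vc c := by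
  refine mem_Vc hc hc1 ?_
  have := ex_sq s
  simp only [pt]
  nlinarith

theorem pt_fib (hc : 0 < c) (hc1 : c ≤ 1) (s : ℝ) :
    mzΦ θ₀ c (pt s) = fib (Real.sqrt (1 - 49 * c ^ 2 / 64) * ex θ₀) s := by
  have a0 : 0 ≤ 1 - 49 * c ^ 2 / 64 := by nlinarith
  rw [← iota_eq_fib (Real.sqrt_nonneg _) (r' := 7 * c / 8) (by positivity)
    (by rw [Real.sq_sqrt a0]; ring), mzΦ]
  congr 1
  · simp [pt]
  · simp only [dz, pt]
    push_cast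
    rw [show (c : ℂ) * ((7 * ((ex s).re : ℂ) + 7 * ((ex s).im : ℂ) * Complex.I) / 8) =
      7 * c / 8 * (((ex s).re : ℂ) + ((ex s).im : ℂ) * Complex.I) by ring, Complex.re_add_im]

theorem pt_up (hc : 0 < c) (hc1 : c ≤ 1) {s : ℝ} (hs : s ∈ Icc (0 : ℝ) (1 / 2)) :
    pt s ∈ Up c 1 mzS := by
  refine ⟨pt_Vc hc hc1 s, fun t ht h => ?_⟩
  obtain ⟨h1, -, h3⟩ := slab_mz.bd _ h
  have h4 : 0 ≤ (ex s).im := by
    rw [ex_im]
    exact Real.sin_nonneg_of_nonneg_of_le_pi (by have := hs.1; positivity)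
      (by nlinarith [hs.2, Real.pi_pos])
  have h5 := ex_sq s
  simp only [pt] at h1 h3
  rw [abs_le] at h1
  nlinarith [h1.1, h1.2]

theorem pt_down (hc : 0 < c) (hc1 : c ≤ 1) {s : ℝ} (hs : s ∈ Icc (1 / 2 : ℝ) 1) :
    pt s ∈ Up c (-1) mzS := by
  refine ⟨pt_Vc hc hc1 s, fun t ht h => ?_⟩
  obtain ⟨h1, h3, -⟩ := slab_mz.bd _ h
  have h4 : (ex s).im ≤ 0 := by
    rw [ex_im, ← Real.sin_sub_two_pi]
    exact Real.sin_nonpos_of_nonpos_of_neg_pi_le (by nlinarith [hs.2, Real.pi_pos])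
      (by nlinarith [hs.1, Real.pi_pos])
  have h5 := ex_sq s
  simp only [pt] at h1 h3
  rw [abs_le] at h1
  nlinarith [h1.1, h1.2]

theorem hol_pt (hc : 0 < c) (hc1 : c ≤ 1) (hg : IsCocA hP (range (Pc mzA mzD θ₀ c))ᶜ) {w : ℤ}
    (hw : IsHolA hP (fib 0) w) :
    IsHolA hP (fib (Real.sqrt (1 - 49 * c ^ 2 / 64) * ex θ₀)) w := by
  have a0 : 0 < 1 - 49 * c ^ 2 / 64 := by nlinarith
  have a1 : 1 - 49 * c ^ 2 / 64 < 1 - 36 * c ^ 2 / 64 := by nlinarith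
  set r₁ := Real.sqrt (1 - 36 * c ^ 2 / 64) with hr₁
  have b3 : r₁ ^ 2 = 1 - 36 * c ^ 2 / 64 := Real.sq_sqrt (a0.trans a1).le
  have b4 : 0 < r₁ := Real.sqrt_pos.2 (a0.trans a1)
  have hsq : ∀ x ∈ Metric.ball (0 : ℂ) r₁, ‖x‖ ^ 2 < 1 - 36 * c ^ 2 / 64 := fun x hx => by
    rw [← b3]
    exact sq_lt_sq' (by linarith [norm_nonneg x]) (by simpa using hx)
  refine isHolA_fib_const (B := Metric.ball 0 r₁) Metric.isOpen_ball
    (convex_ball 0 r₁).isPreconnected (fun x hx => ?_) (hg.mono fun p hp hk => ?_)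
    (Metric.mem_ball_self b4) ?_ hw
  · have := hsq x hx
    nlinarith [norm_nonneg x]
  · obtain ⟨h1, h2, h3⟩ := knot_yc hc hc1 hk
    have h4 := hsq _ hp
    have h5 := RFib.sq_add p
    rw [Complex.sq_norm (yc p), Complex.normSq_apply] at h5
    rw [abs_le] at h1
    nlinarith [h1.1, h1.2]
  · rw [mem_ball_zero_iff, RFib.norm_mul_ex, abs_of_nonneg (Real.sqrt_nonneg _)]
    exact Real.sqrt_lt_sqrt a0.le a1

/-- The difference of two primitives depends only on the type of the face. -/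
theorem exists_num (hc : 0 < c) (hc1 : c ≤ 1) {k₁ k₂ : S3 → ℤ}
    (h₁ : LocEq hP (fun x y => k₁ y - k₁ x) (mzΦ θ₀ c '' Up c 1 mzS))
    (h₂ : LocEq hP (fun x y => k₂ y - k₂ x) (mzΦ θ₀ c '' Up c (-1) mzS)) :
    ∃ n : Fin 5 → ℤ, ∀ p ∈ Fs c, k₁ (mzΦ θ₀ c p) - k₂ (mzΦ θ₀ c p) = n (fc p).1 := by
  have hl : ∀ p ∈ Fs c, ∀ᶠ q in 𝓝 p, k₁ (mzΦ θ₀ c q) - k₂ (mzΦ θ₀ c q) =
      k₁ (mzΦ θ₀ c p) - k₂ (mzΦ θ₀ c p) := by
    intro p hp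
    have hp' := hp
    rw [← Up_inter] at hp'
    obtain ⟨U, hU, e₁⟩ := h₁ _ (mem_image_of_mem _ hp'.1)
    obtain ⟨V, hV, e₂⟩ := h₂ _ (mem_image_of_mem _ hp'.2)
    filter_upwards [continuousAt_mzΦ (θ₀ := θ₀) hp.1 (Filter.inter_mem hU hV)] with q hq
    have e₃ := e₁ _ (mem_of_mem_nhds hU) _ hq.1
    have e₄ := e₂ _ (mem_of_mem_nhds hV) _ hq.2
    beta_reduce at e₃ e₄
    linarith
  choose r hr hr' using fc_surj hc hc1
  refine ⟨fun t => k₁ (mzΦ θ₀ c (r t)) - k₂ (mzΦ θ₀ c (r t)), fun p hp => ?_⟩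
  have h3 := fc_trl (-(fc p).2) p
  have h4 : fc (trl (-(fc p).2) p) = fc (r (fc p).1) := by
    rw [hr']
    refine Prod.ext h3.1 (h3.2.trans ?_)
    split_ifs <;> simp
  have h5 := fc_const hc hc1 (l := fun q => k₁ (mzΦ θ₀ c q) - k₂ (mzΦ θ₀ c q)) hl
    (trl_Fs _ hp) (hr _) h4
  simpa only [mzΦ_trl] using h5

/-- The relation at a crossing. -/
theorem cross_rel (hc : 0 < c) (hc1 : c ≤ 1) (hg : IsCocA hP (Sp (Pc mzA mzD θ₀ c)))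
    {k₁ k₂ : S3 → ℤ} (h₁ : LocEq hP (fun x y => k₁ y - k₁ x) (mzΦ θ₀ c '' Up c 1 mzS))
    (h₂ : LocEq hP (fun x y => k₂ y - k₂ x) (mzΦ θ₀ c '' Up c (-1) mzS)) {n : Fin 5 → ℤ}
    (hn : ∀ p ∈ Fs c, k₁ (mzΦ θ₀ c p) - k₂ (mzΦ θ₀ c p) = n (fc p).1) (i : Fin 3) :
    n ((![(3, 0), (4, -1), (1, 0)] : Fin 3 → Fin 5 × ℤ) i).1 -
        n ((![(2, -1), (2, -1), (4, -1)] : Fin 3 → Fin 5 × ℤ) i).1 =
      n ((![(2, 0), (2, 0), (4, 0)] : Fin 3 → Fin 5 × ℤ) i).1 -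
        n ((![(0, 0), (3, 0), (2, 0)] : Fin 3 → Fin 5 × ℤ) i).1 := by
  have hB : IsCocA hP (mzX θ₀ c i).B := by
    refine hg.mono ?_
    rw [Sp_mz hc hc1]
    exact (subset_iUnion (fun i => (mzX θ₀ c i).B) i).trans subset_union_right
  obtain ⟨k, eL, eR, eF, eB, -, hL, hR, hF, hBk⟩ := (mzX_ok hc hc1 i).primA hB h₁ h₂
  have hb : ∀ a b : ℝ, |a| < 1 / 2 → |b| < 1 / 2 →
      ((((cr i).1 : ℝ) + a, ((cr i).2 : ℝ) + b, 1 / 2) : R3) ∈ bx i := fun a b ha hb =>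
    ⟨by simpa using ha, by simpa using hb, by norm_num, by norm_num⟩
  have m : |(-1 / 4 : ℝ)| < 1 / 2 := by rw [abs_lt]; constructor <;> norm_num
  have p : |(1 / 4 : ℝ)| < 1 / 2 := by rw [abs_lt]; constructor <;> norm_num
  have l₁ : ((cr i).1 : ℝ) + -1 / 4 < (cr i).1 := by linarith
  have l₂ : ((cr i).2 : ℝ) + -1 / 4 < (cr i).2 := by linarith
  have g₁ : ((cr i).1 : ℝ) < (cr i).1 + 1 / 4 := by linarith
  have g₂ : ((cr i).2 : ℝ) < (cr i).2 + 1 / 4 := by linarith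
  have a₁ := hn _ (bx_Fs hc hc1 (hb _ _ m m) l₁.ne l₂.ne)
  have a₂ := hn _ (bx_Fs hc hc1 (hb _ _ m p) l₁.ne g₂.ne')
  have a₃ := hn _ (bx_Fs hc hc1 (hb _ _ p m) g₁.ne' l₂.ne)
  have a₄ := hn _ (bx_Fs hc hc1 (hb _ _ p p) g₁.ne' g₂.ne')
  rw [(fc_bx (hb _ _ m m)).1 l₁ l₂] at a₁
  rw [(fc_bx (hb _ _ m p)).2.1 l₁ g₂] at a₂
  rw [(fc_bx (hb _ _ p m)).2.2.1 g₁ l₂] at a₃
  rw [(fc_bx (hb _ _ p p)).2.2.2 g₁ g₂] at a₄
  have b₁ := hL _ (mem_image_of_mem _ ⟨hb _ _ m m, l₁⟩)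
  have b₂ := hL _ (mem_image_of_mem _ ⟨hb _ _ m p, l₁⟩)
  have b₃ := hR _ (mem_image_of_mem _ ⟨hb _ _ p m, g₁⟩)
  have b₄ := hR _ (mem_image_of_mem _ ⟨hb _ _ p p, g₁⟩)
  have c₁ := hF _ (mem_image_of_mem _ ⟨hb _ _ m m, l₂⟩)
  have c₂ := hBk _ (mem_image_of_mem _ ⟨hb _ _ m p, g₂⟩)
  have c₃ := hF _ (mem_image_of_mem _ ⟨hb _ _ p m, l₂⟩)
  have c₄ := hBk _ (mem_image_of_mem _ ⟨hb _ _ p p, g₂⟩)
  linarith

end RMzNum

theorem exists_mzK (hc : 0 < c) (hc1 : c ≤ 1) (hg : IsCocA hP (range (Pc mzA mzD θ₀ c))ᶜ) {w : ℤ}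
    (hw : IsHolA hP (fib 0) w) : ∃ k₁ k₂ : S3 → ℤ, MzK θ₀ c hP k₁ k₂ (-w) := by
  have hS : IsCocA hP (Sp (Pc mzA mzD θ₀ c)) := hg.mono fun p hp h => hp (Or.inl h)
  have hU₁ : mzΦ θ₀ c '' Up c 1 mzS ⊆ Sp (Pc mzA mzD θ₀ c) := by
    rw [Sp_mz hc hc1]; exact subset_union_left.trans subset_union_left
  have hU₂ : mzΦ θ₀ c '' Up c (-1) mzS ⊆ Sp (Pc mzA mzD θ₀ c) := by
    rw [Sp_mz hc hc1]; exact subset_union_right.trans subset_union_left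
  obtain ⟨k₁, h₁⟩ := slab_mz.up_prim hc hc1 (Or.inl rfl) (hS.mono hU₁)
    (hol_top hc hc1 (Or.inl rfl) hg)
  obtain ⟨k₂, h₂⟩ := slab_mz.up_prim hc hc1 (Or.inr rfl) (hS.mono hU₂)
    (hol_top hc hc1 (Or.inr rfl) hg)
  obtain ⟨n, hn⟩ := exists_num hc hc1 h₁ h₂
  have r₀ := cross_rel hc hc1 hS h₁ h₂ hn 0
  have r₁ := cross_rel hc hc1 hS h₁ h₂ hn 1
  have r₂ := cross_rel hc hc1 hS h₁ h₂ hn 2
  change n 3 - n 2 = n 2 - n 0 at r₀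
  change n 4 - n 2 = n 2 - n 3 at r₁
  change n 1 - n 4 = n 4 - n 2 at r₂
  have hx : ‖((Real.sqrt (1 - 49 * c ^ 2 / 64) : ℝ) : ℂ) * ex θ₀‖ ≤ 1 := by
    rw [RFib.norm_mul_ex, abs_of_nonneg (Real.sqrt_nonneg _)]
    exact Real.sqrt_le_one.2 (by nlinarith)
  have hw' := IsHolA.of_two (isLoop_fib (mem_univ _) hx).1 h₁ h₂
    (fun s hs => by rw [← pt_fib hc hc1]; exact mem_image_of_mem _ (pt_up hc hc1 hs))
    (fun s hs => by rw [← pt_fib hc hc1]; exact mem_image_of_mem _ (pt_down hc hc1 hs))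
    (hol_pt hc hc1 hg hw)
  rw [show (1 : ℝ) = 0 + 1 from (zero_add 1).symm, RFib.fib_add_one, zero_add, ← pt_fib hc hc1,
    ← pt_fib hc hc1] at hw'
  have t₀ := top_Fs (pt_Vc hc hc1 0) (by simp only [pt, RFib.ex_zero]; norm_num)
  have t₁ := bot_Fs (pt_Vc hc hc1 (1 / 2)) (by
    simp only [pt, ex_re, show 2 * Real.pi * (1 / 2) = Real.pi by ring, Real.cos_pi]; norm_num)
  have u₀ := hn _ t₀.1
  have u₁ := hn _ t₁.1
  rw [t₀.2] at u₀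
  rw [t₁.2] at u₁
  have hw'' : w = n 1 - n 0 := by linarith
  refine ⟨k₁, fun x => k₂ x + n 0, hS, h₁, ?_, fun p hp => ?_⟩
  · simpa only [add_sub_add_right_eq_sub] using h₂
  · rw [← sub_sub, hn p hp]
    generalize (fc p).1 = t
    fin_cases t <;> simp [num] <;> linarith

end Pool.Agent.HH
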