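import Pool.Agent.P.MP_c8dc46_gt.Trans
import Pool.Agent.P.MP_c8dc46_gt.HDx

/-!
Definitions for the assembly of the two stages.
-/

open Set Topology

noncomputable section

namespace Pool.Agent.HH

/-- The class of `a` is `κ a₀` after the gauge transformation `t ^ φ`. -/
def Cls {F E : Type} [Field F] [AddCommGroup E] [Module F E] (t : (Module.End F E)ˣ) (S : Set S3)
    (φ : S3 → ℤ) (k₀ : S3 → S3 → ℤ) (a a₀ : List S3 → E) (κ : F) : Prop :=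
  Exa (zt t k₀) 2 S (ga (fun x => (t ^ φ x : (Module.End F E)ˣ).1) a - κ • a₀)

/-- The generator of the cohomology of a companion. -/
def gen0 (F : Type) [Field F] (ζ : F) (n : ℕ) (aS : S3 → S3 → F) : List S3 → Aq F ζ n :=
  cm (LinearMap.toSpanSingleton F _ (soc F ζ n)) (c1 aS)

/-- A knot exterior `M` in which only the companion piece of `k` carries cohomology. -/
structure SideD {F : Type} [Field F] {r s : ℕ} {σ a ρ : ℝ} (k : LK r s σ a ρ) (w : ℤ) (ζ : F)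
    (n : ℕ) (M Sg : Set S3) (Mi : Fin 4 → Set S3) (i₀ : Fin 4) (hE : S3 → S3 → ℤ) (Ψ : S3 ≃ₜ S3)
    (κ : S3 → S3) : Prop where
  coc : IsCocA hE M
  dec : Coef.IsDec M Sg Mi
  cut : Cut (zt (tq F ζ n) hE) M Sg
  piece : Mi i₀ = Ψ '' k.Oc (2 * ρ)
  ac : ∀ j, j ≠ i₀ → Acyc (zt (tq F ζ n) hE) 2 (Mi j)
  isot : Isot Ψ
  ret : k.IsRet κ
  maps : MapsTo Ψ (k.Oc (4 * ρ)) M
  comp : CohA (pb (Ψ ∘ κ) hE) (fun x y => w * th k.ϑ x y) k.Kᶜ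

variable {r s : Fin 2 → ℕ} {P : ℝ → S3}

/-- The output of the first stage on the side `i`. -/
structure St1 {F : Type} [Field F] [StarRing F] {g : Geo r s P} {hP : S3 → S3 → ℤ} {w : ℤ}
    (dg : Deg g hP w) (i : Fin 2) (ζ : F) (n : ℕ) (aS : S3 → S3 → F) (y : List Y4 → Aq F ζ n)
    (N₀ : F) : Prop where
  ne : N₀ ≠ 0
  coc : dT (zt (tq F ζ n) dg.h) y ∈ N F _ 3 (rng dg.A)ᶜ
  low : CompCl (tq F ζ n) (g.lk i).Kᶜ (pb (dg.κ i) (pb (sl (-2)) dg.h))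
    (fun x y => w * th (g.lk i).ϑ x y) (pull F _ (dg.κ i) (pull F _ (sl (-2)) y))
    (gen0 F ζ n aS) N₀
  high : CompCl (tq F ζ n) (g.lk i).Kᶜ (pb (g.Ψ i ∘ dg.κ i) (pb (sl 3) dg.h))
    (fun x y => w * th (g.lk i).ϑ x y) (pull F _ (g.Ψ i ∘ dg.κ i) (pull F _ (sl 3) y))
    (gen0 F ζ n aS) N₀

/-- The angle about the centre `xi i`. -/
def Geo.thx (g : Geo r s P) (i : Fin 2) : S3 → S3 → ℤ := th fun p => xc p - g.xi i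

/-- `θ` if `i = j`, zero otherwise. -/
def sel (i j : Fin 2) (θ : S3 → S3 → ℤ) : S3 → S3 → ℤ := if i = j then θ else fun _ _ => 0

/-- The normal forms of the group valued cocycle of the second stage. -/
structure NFD {Γ : Type} [Group Γ] (Rp : RepIn Γ) {g : Geo r s P} {hP : S3 → S3 → ℤ} {w : ℤ}
    (dg : Deg g hP w) (f : Y4 → Y4 → Γ) : Prop where
  coc : IsCoc f (rng dg.A)ᶜ
  deg : ∀ p q, Rp.dg (f p q) = dg.h p q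
  ti : ∀ p q, f p q = f (clampT (-2) 3 p) (clampT (-2) 3 q)
  comp : ∀ i, ∃ (n : S3 → S3 → Γ) (α : Γ ≃* Γ) (g₁ g₂ : Γ), α Rp.μ = Rp.μ ∧ α Rp.c₀ = Rp.c₀ ∧
    α Rp.c₁ = Rp.c₁ ∧ (∀ γ, Rp.deg (α γ) = Rp.deg γ) ∧ Rp.dg g₁ = w ∧ Rp.dg g₂ = w ∧
    (∀ (j : ℤ) (m : Γ), Rp.deg m = 1 → Commute (g₂ ^ j * (α g₁) ^ (-j)) m) ∧
    (∀ x y, Rp.deg (n x y) = 1) ∧
    Gauge (pb (dg.κ i) (pb (sl (-2)) f)) (fun x y => n x y * g₁ ^ th (g.lk i).ϑ x y) (g.lk i).Kᶜ ∧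
    Gauge (pb (g.Ψ i ∘ dg.κ i) (pb (sl 3) f)) (fun x y => α (n x y) * g₂ ^ th (g.lk i).ϑ x y)
      (g.lk i).Kᶜ
  midC : ∃ g₀, Rp.dg g₀ = 1 ∧ Gauge (pb g.fl (pb (sl (-2)) f))
    (fun x y => g₀ ^ hP x y * Rp.c₀ ^ g.thx 0 x y * Rp.c₁ ^ g.thx 1 x y) g.Mid
  midD : ∀ i, ∃ g₀, Rp.dg g₀ = 1 ∧ Gauge (pb (g.Ψ i ∘ dg.κq ∘ (g.lk i).F) (pb (sl 3) f))
    (fun x y => g₀ ^ hP x y * Rp.c₀ ^ sel i 0 (g.thx i) x y * Rp.c₁ ^ sel i 1 (g.thx i) x y)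
    (range P ∪ eta (g.xi i))ᶜ

/-- The abelian system on the pattern piece. -/
def sysS (u : ℂˣ) (hP : S3 → S3 → ℤ) : S3 → S3 → Module.End ℂ (ℤ →₀ ℂ) :=
  mtau ℂ ℂ u 1 hP (th xc) fun _ _ => 0

/-- The abelian system on the composing space. -/
def sysQ (g : Geo r s P) (u v : ℂˣ) (w : ℤ) : S3 → S3 → Module.End ℂ (ℤ →₀ ℂ) :=
  mtau ℂ ℂ u v (fun x y => w * th yc x y) (g.thx 0) (g.thx 1)

/-- The core identity. -/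
def CoreRel (g : Geo r s P) (hP : S3 → S3 → ℤ) (w : ℤ) (ℓ p m : ℕ) : Prop :=
  ∀ (z₀ : ℂ) (hp : CP ℂ p m z₀), z₀ ≠ 1 → ∀ u v : ℂˣ, u ^ ℓ = 1 → v ^ ℓ = 1 → u ≠ 1 → v ≠ 1 →
    u * v ≠ 1 → ∃ s₁ s₂ s₃ sq : ℤ, Sig3 (cf1 hp) (sysS (u * v) hP) g.So s₁ ∧
      Sig3 (cf1 hp) (sysS u hP) g.So s₂ ∧ Sig3 (cf1 hp) (sysS v hP) g.So s₃ ∧
      Sig3 (cf1 hp) (sysQ g u v w) g.Qo sq ∧ s₁ + sq = s₂ + s₃ ∧
      (cf1 hp).Nondeg (sysS (u * v) hP) g.So ∧ (cf1 hp).Nondeg (sysQ g u v w) g.Qo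

end Pool.Agent.HH
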