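import Pool.Agent.P.MP_c8dc46_gt.MzL1
import Pool.Agent.P.MP_c8dc46_gt.MzNum
import Pool.Agent.P.MP_c8dc46_gt.SDefs
import Pool.Agent.P.MP_c8dc46_gt.Num

/-!
The twisted cohomology of the Mazur link exterior is a line. With `H = G ^ e`, `v = u⁻¹` the three
relations say `D = (1 + v H) A`, `S = (H + v) D`, `mzPoly v H A = 0`.
-/

open Set Topology

namespace Pool.Agent.HH

variable {θ₀ c : ℝ} {hP : S3 → S3 → ℤ}

namespace RMzL2

variable {E : Type} [AddCommGroup E] [Module ℂ E]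

theorem isHol_abT (u : ℂˣ) (G : (Module.End ℂ E)ˣ) {γ : ℝ → S3} {k j : ℤ} (hh : IsHolA hP γ k)
    (h₁ : IsHolA (th xc) γ j) :
    IsHol (abT u G hP) γ (((u ^ j : ℂˣ) : ℂ) • (G ^ k : (Module.End ℂ E)ˣ).1) := by
  let ψ : Multiplicative (ℤ × ℤ) →* Module.End ℂ E :=
    { toFun := fun n => ((u ^ n.toAdd.2 : ℂˣ) : ℂ) • (G ^ n.toAdd.1 : (Module.End ℂ E)ˣ).1
      map_one' := by simp
      map_mul' := by
        intro a b
        simp only [toAdd_mul, Prod.fst_add, Prod.snd_add, zpow_add, Units.val_mul,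
          smul_mul_smul_comm] }
  have h3 := (hh.map (AddMonoidHom.inl ℤ ℤ)).add (h₁.map (AddMonoidHom.inr ℤ ℤ))
  have h4 := (isHolA_iff.1 h3).map ψ
  simp only [AddMonoidHom.inl_apply, AddMonoidHom.inr_apply, Prod.mk_add_mk, add_zero,
    zero_add] at h4
  exact h4

theorem mzPoly_apply (v : ℂ) (H : Module.End ℂ E) (A : E) : mzPoly v H A =
    A - H A - v • A + v • H A - v • H (H A) - v ^ 2 • H A + v ^ 2 • H (H A) := by
  simp only [mzPoly, pow_two H, LinearMap.add_apply, LinearMap.sub_apply, LinearMap.smul_apply,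
    Module.End.one_apply, Module.End.mul_apply]

theorem rel_alg (G : (Module.End ℂ E)ˣ) (e : ℤ) (v : ℂ) (A D S : E) :
    (D = (G ^ (-e)).1 (S - v • D) ∧ D - S = (G ^ e).1 (v • A - v • D) ∧
      A - D = (G ^ e).1 (-(v • A))) ↔
    (D = A + v • (G ^ e).1 A ∧ S = (G ^ e).1 D + v • D ∧ mzPoly v (G ^ e).1 A = 0) := by
  have i1 : ∀ x, (G ^ e).1 ((G ^ (-e)).1 x) = x := fun x => by
    rw [← Module.End.mul_apply, ← Units.val_mul, ← zpow_add, add_neg_cancel, zpow_zero]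
    rfl
  have i2 : ∀ x, (G ^ (-e)).1 ((G ^ e).1 x) = x := fun x => by
    rw [← Module.End.mul_apply, ← Units.val_mul, ← zpow_add, neg_add_cancel, zpow_zero]
    rfl
  rw [mzPoly_apply]
  generalize (G ^ e).1 = H at i1 i2 ⊢
  generalize (G ^ (-e)).1 = H' at i1 i2 ⊢
  constructor
  · rintro ⟨h1, h2, h3⟩
    have e1 : H D = S - v • D := by rw [← i1 (S - v • D), ← h1]
    have e3 : D = A + v • H A := by
      rw [map_neg, map_smul] at h3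
      linear_combination (norm := module) -h3
    have e4 : H D = H A + v • H (H A) := by rw [e3, map_add, map_smul]
    rw [map_sub, map_smul, map_smul] at h2
    refine ⟨e3, by linear_combination (norm := module) -e1, ?_⟩
    linear_combination (norm := module) h2 - e1 - (1 - v) • e3 + (1 - v) • e4
  · rintro ⟨e3, e1, h⟩
    have e4 : H D = H A + v • H (H A) := by rw [e3, map_add, map_smul]
    refine ⟨by rw [e1, add_sub_cancel_right, i2], ?_, ?_⟩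
    · rw [map_sub, map_smul, map_smul]
      linear_combination (norm := module) h - e1 + (1 - v) • e3 - (1 - v) • e4
    · rw [map_neg, map_smul]
      linear_combination (norm := module) -e3

theorem valOf_smul (u : ℂˣ) (κ : ℂ) (A D S : E) (t : Fin 5 × ℤ) :
    valOf u (κ • A) (κ • D) (κ • S) t = κ • valOf u A D S t := by
  obtain ⟨t, n⟩ := t
  rw [valOf, valOf, smul_comm κ]
  congr 1
  fin_cases t <;> simp

/-- The shift as a unit on the quotient. -/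
noncomputable def gq (p : ℕ) (z₀ : ℂ) (m : ℕ) : (Module.End ℂ (Qk (Tm ℂ ℂ p z₀) m))ˣ where
  val := barE (Tm ℂ ℂ p z₀) m (shp ℂ ℂ 1)
  inv := barE (Tm ℂ ℂ p z₀) m (shp ℂ ℂ (-1))
  val_inv := by rw [← RPM.bar_shp_add, add_neg_cancel, shp_zero, barE_one]
  inv_val := by rw [← RPM.bar_shp_add, neg_add_cancel, shp_zero, barE_one]

theorem gq_zpow (p : ℕ) (z₀ : ℂ) (m : ℕ) (k : ℤ) :
    (gq p z₀ m ^ k).1 = barE (Tm ℂ ℂ p z₀) m (shp ℂ ℂ k) := by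
  induction k using Int.induction_on with
  | zero => rw [zpow_zero, shp_zero, barE_one, Units.val_one]
  | succ j ih => rw [zpow_add_one, Units.val_mul, ih, RPM.bar_shp_add]; rfl
  | pred j ih => rw [zpow_sub_one, Units.val_mul, ih, sub_eq_add_neg, RPM.bar_shp_add]; rfl

theorem br_eq {p m : ℕ} {z₀ : ℂ} (h : CP ℂ p m z₀) (u : ℂˣ) :
    (cf1 h).br (sysS u hP) = abT u (gq p z₀ m) hP := by
  funext x y
  change barE (Tm ℂ ℂ p z₀) m (((u ^ th xc x y * 1 ^ (0 : ℤ) : ℂˣ) : ℂ) • shp ℂ ℂ (hP x y)) = _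
  rw [abT, gq_zpow, zpow_zero, mul_one, ← one_mul (shp ℂ ℂ (hP x y)), ← smul_mul_assoc,
    barE_mul ((Commute.one_left _).smul_left _) (commute_shp_Tm _ _ _), RPM.barE_scal,
    smul_mul_assoc, one_mul, one_mul]

theorem mz_fac {v s₁ s₂ : ℂ} (h : ∀ G : ℂ, 1 - G - v + G * v - G ^ 2 * v - G * v ^ 2 +
    G ^ 2 * v ^ 2 = (v ^ 2 - v) * ((G - s₁) * (G - s₂))) (H : Module.End ℂ E) (x : E) :
    mzPoly v H x = (v ^ 2 - v) • (H - s₁ • 1 : Module.End ℂ E) ((H - s₂ • 1 : Module.End ℂ E) x) := by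
  have a0 : 1 - v = (v ^ 2 - v) * (s₁ * s₂) := by linear_combination h 0
  have a1 : -1 + v - v ^ 2 = -((v ^ 2 - v) * (s₁ + s₂)) := by
    linear_combination (h 1 - h (-1)) / 2
  rw [mzPoly_apply]
  simp only [LinearMap.sub_apply, LinearMap.smul_apply, Module.End.one_apply, map_sub, map_smul]
  linear_combination (norm := module) a0 • x + a1 • H x

end RMzL2

open RMzL2

theorem mz_oneGen_ab {E : Type} [AddCommGroup E] [Module ℂ E] (hc : 0 < c) (hc1 : c ≤ 1)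
    (hg : IsCocA hP (range (Pc mzA mzD θ₀ c))ᶜ) {w : ℤ} (hw : IsHolA hP (fib 0) w) {u : ℂˣ}
    (hu : u ≠ 1) {G : (Module.End ℂ E)ˣ} {e₀ : E} (h0 : e₀ ≠ 0)
    (h1 : mzPoly ((u⁻¹ : ℂˣ) : ℂ) (G ^ (-w)).1 e₀ = 0)
    (h2 : ∀ x, mzPoly ((u⁻¹ : ℂˣ) : ℂ) (G ^ (-w)).1 x = 0 → ∃ κ : ℂ, x = κ • e₀) :
    ∃ b, OneGen (abT u G hP) (Sp (Pc mzA mzD θ₀ c)) b := by
  obtain ⟨k₁, k₂, hk⟩ := exists_mzK hc hc1 hg hw
  have hτ : IsCoc (abT u G hP) (Sp (Pc mzA mzD θ₀ c)) :=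
    isCoc_abT u G hk.coc fun p hp h => hp (Or.inr h)
  rw [Sp_mz hc hc1] at hτ ⊢
  have lp : ∀ {ε : ℝ}, ε = 1 ∨ ε = -1 →
      LoopAc (abT u G hP) fun s => mzΦ θ₀ c (4 * s, 0, 2 * ε) := fun hε => by
    refine ⟨_, isHol_abT u G (hol_top hc hc1 hε hg) (hol_top_xc hc hc1 hε), ?_⟩
    rw [zpow_one, zpow_zero, Units.val_one]
    exact (Module.End.isUnit_iff _).1 (RPM.bij_scal (c := (u : ℂ))
      (fun e => hu (Units.ext e)) (by rw [sub_self]; exact IsNilpotent.zero))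
  have op : ∀ {ε : ℝ}, ε = 1 ∨ ε = -1 → IsOpen (mzΦ θ₀ c '' Up c ε mzS) := fun hε =>
    isOpen_mzΦ_image hc (slab_mz.isOpen_Up hε) fun p hp => hp.1
  obtain ⟨a₁, b₁⟩ := slab_mz.up_acyc hc hc1 (Or.inl rfl)
    (hτ.mono (subset_union_left.trans subset_union_left)) (lp (Or.inl rfl))
  obtain ⟨a₂, b₂⟩ := slab_mz.up_acyc hc hc1 (Or.inr rfl)
    (hτ.mono (subset_union_right.trans subset_union_left)) (lp (Or.inr rfl))
  obtain ⟨D₀, hD⟩ : ∃ D₀, D₀ = e₀ + ((u⁻¹ : ℂˣ) : ℂ) • (G ^ (-w)).1 e₀ := ⟨_, rfl⟩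
  obtain ⟨S₀, hS⟩ : ∃ S₀, S₀ = (G ^ (-w)).1 D₀ + ((u⁻¹ : ℂˣ) : ℂ) • D₀ := ⟨_, rfl⟩
  obtain ⟨σ₀, s1, s2⟩ := par_of_lab (u := u) (G := G) hc hc1 hk e₀ D₀ S₀
  refine oneGen_dehn (σ₀ := σ₀) (op (Or.inl rfl)) (op (Or.inr rfl)) (mzX_ok hc hc1)
    (mzX_disjoint hc hc1) hτ a₁ a₂ b₁ b₂ (by rwa [image_Up_inter hc])
    ((rel_iff hc hc1 hk s2).2 ((rel_alg G (-w) _ _ _ _).2 ⟨hD, hS, h1⟩)) ?_ fun σ t1 t2 => ?_
  · rw [image_Up_inter hc, mem_N_iff_lab (u := u) (G := G) hc k₁]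
    intro hz
    obtain ⟨p, hp, e⟩ := fc_surj hc hc1 4
    have := hz p hp
    rw [s2 p hp, e] at this
    exact h0 (by simpa [valOf] using this)
  · rw [image_Up_inter hc] at t1 ⊢
    obtain ⟨A, D, S, t3⟩ := lab_of_par hc hc1 hk hu t1
    obtain ⟨r1, r2, r3⟩ := (rel_alg G (-w) _ _ _ _).1 ((rel_iff hc hc1 hk t3).1 t2)
    obtain ⟨κ, rfl⟩ := h2 A r3
    have eD : D = κ • D₀ := by rw [r1, hD, map_smul, smul_add, smul_comm κ]
    have eS : S = κ • S₀ := by rw [r2, hS, eD, map_smul, smul_add, smul_comm κ]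
    refine ⟨κ, (mem_N_iff_lab (u := u) (G := G) hc k₁ _).2 fun p hp => ?_⟩
    rw [lab_sub_smul, t3 p hp, s2 p hp, eD, eS, valOf_smul, sub_self]

theorem mz_oneGen (hc : 0 < c) (hc1 : c ≤ 1) (hg : IsCocA hP (range (Pc mzA mzD θ₀ c))ᶜ) {w : ℤ}
    (hw : IsHolA hP (fib 0) w) (hw1 : w = 1 ∨ w = -1) {u : ℂˣ} (hu3 : u ^ 3 = 1) (hu : u ≠ 1)
    {p : ℕ} (hp : 0 < p) : ∃ z₀ : ℂ, z₀ * star z₀ = 1 ∧ z₀ ≠ 1 ∧ ∀ (m : ℕ) (h : CP ℂ p m z₀),
      ∃ b, OneGen ((cf1 h).br (sysS u hP)) (Sp (Pc mzA mzD θ₀ c)) b := by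
  have v3 : ((u⁻¹ : ℂˣ) : ℂ) ^ 3 = 1 := by
    rw [← Units.val_pow_eq_pow_val, inv_pow, hu3, inv_one, Units.val_one]
  have v1 : ((u⁻¹ : ℂˣ) : ℂ) ≠ 1 := fun e => hu (inv_eq_one.1 (Units.ext e))
  obtain ⟨s₁, s₂, n1, n2, hf, hk⟩ := mazur_roots v3 v1
  have z1 : s₁ ≠ 0 := fun h => by simp [h] at n1
  have z2 : s₂ ≠ 0 := fun h => by simp [h] at n2
  have hw2 : -w = 1 ∨ -w = -1 := by omega
  have k0 : -w * p ≠ 0 := mul_ne_zero (by omega) (by omega)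
  have vv : ((u⁻¹ : ℂˣ) : ℂ) ^ 2 - ((u⁻¹ : ℂˣ) : ℂ) ≠ 0 := by
    rw [pow_two, ← mul_sub_one]
    exact mul_ne_zero (Units.ne_zero _) (sub_ne_zero.2 v1)
  refine ⟨s₁ ^ (-w * p), ?_, (hk _ k0).1, fun m h => ?_⟩
  · have := Complex.mul_conj' (s₁ ^ (-w * p))
    rw [norm_zpow, n1, one_zpow, Complex.ofReal_one, one_pow] at this
    exact this
  · obtain ⟨e₀, g0, g1, g2⟩ := ker_quad hp h.mpos hw2 z1 z2 rfl (hk _ k0).2
    rw [br_eq]
    refine mz_oneGen_ab (E := Qk (Tm ℂ ℂ p (s₁ ^ (-w * p))) m) (G := gq p _ m) hc hc1 hg hw hu g0 ?_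
      fun x hx => g2 x ?_
    · rw [mz_fac hf, gq_zpow]
      simp only [LinearMap.sub_apply, LinearMap.smul_apply, Module.End.one_apply, map_sub, map_smul,
        g1]
      module
    · rw [mz_fac hf, gq_zpow] at hx
      exact (smul_eq_zero.1 hx).resolve_left vv

end Pool.Agent.HH
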