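import Pool.Agent.P.MP_c8dc46_gt.MzRange

/-!
The Mazur pattern is a pattern of winding number one. Inside the open cube of radius one around a
vertex the lattice walk is a graph over a linear coordinate.
-/

open Set Topology

namespace Pool.Agent.HH

namespace RMzPat

/-- An integer point as a real point. -/
def cz (v : ℤ × ℤ × ℤ) : R3 := (v.1, v.2.1, v.2.2)

/-- The six unit vectors. -/
def Un (d : ℤ × ℤ × ℤ) : Prop :=
  d = (1, 0, 0) ∨ d = (-1, 0, 0) ∨ d = (0, 1, 0) ∨ d = (0, -1, 0) ∨ d = (0, 0, 1) ∨ d = (0, 0, -1)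

instance : DecidablePred Un := fun d => by unfold Un; infer_instance

/-- The steps of the walk. -/
def st (i : ℤ) : ℤ × ℤ × ℤ := mzV (i + 1) - mzV i

/-- The point with parameter `t` on the edge `i`. -/
def pt (i : ℤ) (t : ℝ) : R3 := cz (mzV i) + t • cz (st i)

theorem cz_add (v w : ℤ × ℤ × ℤ) : cz (v + w) = cz v + cz w := by
  simp [cz]

theorem cz_neg (v : ℤ × ℤ × ℤ) : cz (-v) = -cz v := by
  simp [cz]

theorem succ (i : ℤ) : mzV i + st i = mzV (i + 1) := by simp [st]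

theorem un_fin : ∀ r : Fin 32, Un (st (r : ℕ)) := by decide +kernel

theorem un_st (i : ℤ) : Un (st i) := by
  have h1 : i = i % 32 + 32 * (i / 32) := by omega
  have h2 : i + 1 = i % 32 + 1 + 32 * (i / 32) := by omega
  have h3 : st i = st (i % 32) := by
    have e1 := mzV_add (i % 32) (i / 32)
    have e2 := mzV_add (i % 32 + 1) (i / 32)
    rw [← h1] at e1
    rw [← h2] at e2
    rw [st, st, e1, e2]
    abel
  have h4 := un_fin ⟨(i % 32).toNat, by omega⟩
  rwa [show (((i % 32).toNat : ℕ) : ℤ) = i % 32 by omega, ← h3] at h4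

theorem list_inj : ∀ a b : Fin 32, (mzList.getD a (0, 0, 0)).2 = (mzList.getD b (0, 0, 0)).2 →
    (mzList.getD a (0, 0, 0)).1 % 4 = (mzList.getD b (0, 0, 0)).1 % 4 → a = b := by
  decide +kernel

theorem mzV_inj {i j : ℤ} (h : mzV i = mzV j) : i = j := by
  have h1 := congrArg Prod.fst h
  have h2 := congrArg Prod.snd h
  simp only [mzV, Prod.fst_add, Prod.snd_add] at h1 h2
  have h3 := list_inj ⟨(i % 32).toNat, by omega⟩ ⟨(j % 32).toNat, by omega⟩
    (add_right_cancel h2) (by simp only; omega)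
  have h4 : (i % 32).toNat = (j % 32).toNat := congrArg Fin.val h3
  rw [h4] at h1
  omega

theorem mzW_eq (s : ℝ) : mzW s = pt ⌊32 * s⌋ (Int.fract (32 * s)) := by
  simp only [mzW, interp, pt, cz, st, Prod.fst_sub, Prod.snd_sub, Prod.smul_mk, Prod.mk_add_mk,
    smul_eq_mul, Int.cast_sub, Prod.mk.injEq]
  refine ⟨?_, ?_, ?_⟩ <;> ring

theorem pt_mem (i : ℤ) {t : ℝ} (h0 : 0 ≤ t) (h1 : t ≤ 1) : pt i t ∈ range mzW := by
  refine ⟨(i + t) / 32, ?_⟩
  rw [mzW_eq, show 32 * (((i : ℝ) + t) / 32) = i + t by ring, Int.floor_intCast_add,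
    Int.fract_intCast_add]
  rcases h1.eq_or_lt with rfl | h1
  · simp [pt, ← cz_add, succ]
  · rw [Int.floor_eq_zero_iff.2 ⟨h0, h1⟩, Int.fract_eq_self.2 ⟨h0, h1⟩, add_zero]

theorem one {a x e : ℤ} {t : ℝ} (h0 : 0 ≤ t) (h1 : t ≤ 1) (he : e = 0 ∨ e = 1 ∨ e = -1)
    (h : |(a : ℝ) + t * e - x| < 1) : a = x ∨ a + e = x := by
  rw [abs_lt] at h
  rcases he with rfl | rfl | rfl
  · have h2 : ((x : ℝ) - 1 < a ∧ (a : ℝ) < x + 1) := by
      constructor <;> push_cast at h <;> linarith [h.1, h.2]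
    have h3 : x - 1 < a ∧ a < x + 1 := by exact_mod_cast h2
    omega
  · have h2 : ((x : ℝ) - 2 < a ∧ (a : ℝ) < x + 1) := by
      constructor <;> push_cast at h <;> linarith [h.1, h.2]
    have h3 : x - 2 < a ∧ a < x + 1 := by exact_mod_cast h2
    omega
  · have h2 : ((x : ℝ) - 1 < a ∧ (a : ℝ) < x + 2) := by
      constructor <;> push_cast at h <;> linarith [h.1, h.2]
    have h3 : x - 1 < a ∧ a < x + 2 := by exact_mod_cast h2
    omega

theorem cube {A W d : ℤ × ℤ × ℤ} (hd : Un d) {t : ℝ} (h0 : 0 ≤ t) (h1 : t ≤ 1)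
    (h : ‖cz A + t • cz d - cz W‖ < 1) : A = W ∨ A + d = W := by
  obtain ⟨a, b, c⟩ := A
  obtain ⟨x, y, z⟩ := W
  obtain ⟨d₁, d₂, d₃⟩ := d
  simp only [cz, Prod.smul_mk, Prod.mk_add_mk, Prod.mk_sub_mk, Prod.norm_def, max_lt_iff,
    smul_eq_mul, Real.norm_eq_abs] at h
  simp only [Un, Prod.mk.injEq] at hd
  have e1 := one h0 h1 (by omega) h.1
  have e2 := one h0 h1 (by omega) h.2.1
  have e3 := one h0 h1 (by omega) h.2.2
  simp only [Prod.mk_add_mk, Prod.mk.injEq]
  omega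

theorem norm_un {d : ℤ × ℤ × ℤ} (hd : Un d) : ‖cz d‖ = 1 := by
  rcases hd with rfl | rfl | rfl | rfl | rfl | rfl <;> simp [cz, Prod.norm_def]

theorem norm_pt (i : ℤ) (t : ℝ) : ‖pt i t - cz (mzV i)‖ = |t| := by
  rw [pt, add_sub_cancel_left, norm_smul, norm_un (un_st i), mul_one, Real.norm_eq_abs]

theorem near {i j : ℤ} {t : ℝ} (h0 : 0 ≤ t) (h1 : t ≤ 1) (h : ‖pt j t - cz (mzV i)‖ < 1) :
    j = i ∨ j + 1 = i :=
  (cube (un_st j) h0 h1 h).imp mzV_inj fun h => mzV_inj (succ j ▸ h)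

/-- A graph over a linear coordinate is flat. -/
theorem flat_graph (l : R3 →ₗ[ℝ] ℝ) {c : ℝ → R3} (hc : Continuous c) (k : ℝ)
    (h : ∀ u, l (c u) = u + k) : Flat ℝ (range c) := by
  have hl : Continuous l := l.continuous_of_finiteDimensional
  have hr : LinearMap.range l = ⊤ :=
    LinearMap.range_eq_top.2 fun u => ⟨c (u - k), by rw [h]; ring⟩
  have hk : Module.finrank ℝ (LinearMap.ker l) = Module.finrank ℝ ℂ := by
    have := l.finrank_range_add_finrank_ker
    rw [hr] at this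
    simp only [finrank_top, Module.finrank_self, Module.finrank_prod] at this
    rw [Complex.finrank_real_complex]
    omega
  let j := ContinuousLinearEquiv.ofFinrankEq hk
  have hm : ∀ p, p - c (l p - k) ∈ LinearMap.ker l := fun p => by simp [h]
  let H : R3 ≃ₜ ℝ × ℂ :=
    { toFun := fun p => (l p - k, j ⟨p - c (l p - k), hm p⟩)
      invFun := fun q => c q.1 + (j.symm q.2).1
      left_inv := fun p => by simp
      right_inv := fun q => by
        have h1 : l (c q.1 + (j.symm q.2).1) - k = q.1 := by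
          rw [map_add, h, LinearMap.mem_ker.1 (j.symm q.2).2]; ring
        refine Prod.ext h1 ?_
        simp only [h1, add_sub_cancel_left, Subtype.coe_eta, ContinuousLinearEquiv.apply_symm_apply]
      continuous_toFun := by fun_prop
      continuous_invFun := by fun_prop }
  refine fun p _ => ⟨H.toOpenPartialHomeomorph, trivial, fun x _ => ?_⟩
  show x ∈ range c ↔ j ⟨x - c (l x - k), hm x⟩ = 0
  rw [map_eq_zero_iff j j.injective, Submodule.mk_eq_zero, sub_eq_zero]
  constructor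
  · rintro ⟨u, rfl⟩
    rw [h, add_sub_cancel_right]
  · exact fun hx => ⟨_, hx.symm⟩

/-- The scalar product with `v`. -/
def dot (v : R3) : R3 →ₗ[ℝ] ℝ where
  toFun p := v.1 * p.1 + v.2.1 * p.2.1 + v.2.2 * p.2.2
  map_add' p q := by simp only [Prod.fst_add, Prod.snd_add]; ring
  map_smul' a p := by simp only [Prod.smul_fst, Prod.smul_snd, smul_eq_mul, RingHom.id_apply]; ring

theorem exists_lin {d e : ℤ × ℤ × ℤ} (hd : Un d) (he : Un e) (h : d + e ≠ 0) :
    ∃ l : R3 →ₗ[ℝ] ℝ, l (cz d) = 1 ∧ l (cz e) = 1 := by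
  refine ⟨(1 + dot (cz d) (cz e))⁻¹ • dot (cz d + cz e), ?_⟩
  rcases hd with rfl | rfl | rfl | rfl | rfl | rfl <;>
    rcases he with rfl | rfl | rfl | rfl | rfl | rfl <;>
    first
      | exact absurd (by decide) h
      | norm_num [dot, cz]

/-- The two edges at the vertex `i + 1`, extended to half lines. -/
noncomputable def ray (i : ℤ) (u : ℝ) : R3 :=
  cz (mzV (i + 1)) + max u 0 • cz (st (i + 1)) - max (-u) 0 • cz (st i)

theorem ray_pos (i : ℤ) {u : ℝ} (h : 0 ≤ u) : ray i u = pt (i + 1) u := by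
  rw [ray, max_eq_left h, max_eq_right (neg_nonpos.2 h), zero_smul, sub_zero, pt]

theorem ray_neg (i : ℤ) {u : ℝ} (h : u ≤ 0) : ray i u = pt i (1 + u) := by
  rw [ray, max_eq_right h, max_eq_left (neg_nonneg.2 h), zero_smul, add_zero, pt, ← succ, cz_add]
  module

theorem flat_ray (i : ℤ) : Flat ℝ (range (ray i)) := by
  obtain ⟨l, h1, h2⟩ := exists_lin (un_st i) (un_st (i + 1)) fun h => by
    have : mzV (i + 1 + 1) = mzV i := by
      rw [← succ, ← succ, add_assoc, h, add_zero]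
    have := mzV_inj this
    omega
  refine flat_graph l (by unfold ray; fun_prop) (l (cz (mzV (i + 1)))) fun u => ?_
  rw [ray, map_sub, map_add, map_smul, map_smul, h1, h2, smul_eq_mul, smul_eq_mul, mul_one, mul_one]
  linarith [max_zero_sub_max_neg_zero_eq_self u]

theorem ball_inter (i : ℤ) : Metric.ball (cz (mzV (i + 1))) 1 ∩ range mzW =
    Metric.ball (cz (mzV (i + 1))) 1 ∩ range (ray i) := by
  ext q
  refine and_congr_right fun hq => ?_
  rw [mem_ball_iff_norm] at hq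
  constructor
  · rintro ⟨s, rfl⟩
    rw [mzW_eq] at hq ⊢
    have h0 := Int.fract_nonneg (32 * s)
    have h1 := (Int.fract_lt_one (32 * s)).le
    rcases near h0 h1 hq with h | h
    · exact ⟨_, by rw [ray_pos i h0, h]⟩
    · refine ⟨Int.fract (32 * s) - 1, ?_⟩
      rw [ray_neg i (by linarith), add_right_cancel h, add_sub_cancel]
  · rintro ⟨u, rfl⟩
    rcases le_total 0 u with h | h
    · rw [ray_pos i h] at hq ⊢
      rw [norm_pt] at hq
      exact pt_mem _ h (abs_lt.1 hq).2.le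
    · have h2 : ray i u - cz (mzV (i + 1)) = u • cz (st i) := by
        rw [ray_neg i h, pt, ← succ, cz_add]
        module
      rw [h2, norm_smul, norm_un (un_st i), mul_one, Real.norm_eq_abs] at hq
      rw [ray_neg i h]
      exact pt_mem _ (by linarith [(abs_lt.1 hq).1]) (by linarith)

theorem dz_mzW (s : ℝ) : dz 1 (mzW s) = mzD s := by
  simp [dz, mzW, mzD]

theorem iota_mz (s : ℝ) : iota (mzA s) (mzD s) = mzΦ 0 1 (mzW s) := by
  rw [mzΦ, dz_mzW, add_zero]; rfl

theorem mem_V (s : ℝ) : mzW s ∈ Vc 1 := mzS_subset one_pos le_rfl (mz_range ▸ mem_range_self s)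

theorem start : ∀ᶠ s in 𝓝 (1 / 64 : ℝ), mzW s = (32 * s, -1, 0) := by
  filter_upwards [Ioo_mem_nhds (show (0 : ℝ) < 1 / 64 by norm_num)
    (show (1 / 64 : ℝ) < 1 / 32 by norm_num)] with s hs
  have h : 0 ≤ 32 * s ∧ 32 * s < 1 := ⟨by linarith [hs.1], by linarith [hs.2]⟩
  have h1 : mzV 0 = (0, -1, 0) := by decide
  have h2 : st 0 = (1, 0, 0) := by decide
  rw [mzW_eq, Int.floor_eq_zero_iff.2 h, Int.fract_eq_self.2 h, pt, h1, h2]
  simp [cz]

end RMzPat

open RMzPat

theorem mzW_injective : Function.Injective mzW := by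
  intro s s' h
  rw [mzW_eq, mzW_eq] at h
  have a0 := Int.fract_nonneg (32 * s)
  have a1 := Int.fract_lt_one (32 * s)
  have b0 := Int.fract_nonneg (32 * s')
  have b1 := Int.fract_lt_one (32 * s')
  have h1 := near (i := ⌊32 * s⌋) b0 b1.le (by rwa [← h, norm_pt, abs_of_nonneg a0])
  have h2 := near (i := ⌊32 * s'⌋) a0 a1.le (by rwa [h, norm_pt, abs_of_nonneg b0])
  have h3 : ⌊32 * s⌋ = ⌊32 * s'⌋ := by omega
  have h4 := norm_pt ⌊32 * s⌋ (Int.fract (32 * s))
  rw [h, h3, norm_pt, abs_of_nonneg a0, abs_of_nonneg b0] at h4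
  have h5 := Int.floor_add_fract (32 * s)
  have h6 := Int.floor_add_fract (32 * s')
  rw [h3] at h5
  linarith

theorem flat_mzS : Flat ℝ mzS := by
  rw [← mz_range]
  refine Flat.of_local ?_
  rintro _ ⟨s, rfl⟩
  refine ⟨_, _, Metric.isOpen_ball, ?_, flat_ray (⌊32 * s⌋ - 1), ball_inter _⟩
  rw [mem_ball_iff_norm, mzW_eq, sub_add_cancel, norm_pt, abs_of_nonneg (Int.fract_nonneg _)]
  exact Int.fract_lt_one _

theorem isPattern_mz : IsPattern mzA mzD 1 := by
  have hi := continuous_interp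
  have ca : Continuous mzA := by unfold mzA; fun_prop
  have cd : Continuous mzD := by unfold mzD; fun_prop
  have lt : ∀ s, ‖mzD s‖ < 1 := fun s => dz_mzW s ▸ mem_V s
  have hW : ∀ s, mzW (s + 1) = trl 1 (mzW s) := fun s => by simpa using mzW_add s 1
  have hr : range (fun s => iota (mzA s) (mzD s)) = range (Pc mzA mzD 0 1) := by
    simp only [iota_mz, ← Pc_mz]
  refine ⟨ca, cd, fun s => ?_, fun s => ?_, lt, ⟨?_, fun s => ?_, fun s s' h => ?_, ?_⟩,
    1 / 64, ?_⟩
  · have : (mzW (s + 1)).1 = (mzW s).1 + 4 * (1 : ℤ) := congrArg Prod.fst (hW s)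
    show (mzW (s + 1)).1 / 4 = (mzW s).1 / 4 + _
    rw [this]; ring
  · rw [← dz_mzW, ← dz_mzW, hW]; rfl
  · exact continuousOn_iota.comp_continuous (f := fun s => (mzA s, mzD s)) (ca.prodMk cd)
      fun s => (lt s).le
  · simp only [iota_mz, hW, mzΦ_trl]
  · simp only [iota_mz] at h
    obtain ⟨n, hn⟩ := (mzΦ_eq_iff one_pos (mem_V s) (mem_V s')).1 h
    exact ⟨n, mzW_injective (hn.trans (mzW_add s n).symm)⟩
  · refine Flat.of_local ?_
    rintro _ ⟨s, rfl⟩
    have hO := oe_mzΦ (θ₀ := 0) one_pos ((mzW s).1 - 2)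
    refine ⟨_, _, hO.img _ hO.isOpen subset_rfl, ⟨mzW s, ⟨mem_V s, ?_, ?_⟩, (iota_mz s).symm⟩,
      Flat.image hO (inter_subset_left (t := mzS)) (Flat.of_local fun p hp =>
        ⟨_, mzS, hO.isOpen, hp.1, flat_mzS, by rw [← inter_assoc, inter_self]⟩), ?_⟩
    · linarith
    · linarith
    · rw [hr]
      ext p
      refine and_congr_right ?_
      rintro ⟨q, hq, rfl⟩
      rw [mz_mem_iff one_pos le_rfl hq.1]
      refine ⟨fun h => ⟨q, ⟨hq, h⟩, rfl⟩, ?_⟩
      rintro ⟨q', hq', e⟩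
      exact hO.inj hq'.1 hq e ▸ hq'.2
  · have ea : mzA =ᶠ[𝓝 (1 / 64)] fun s => 8 * s := by
      filter_upwards [start] with s hs
      show (mzW s).1 / 4 = _
      rw [hs]; ring
    have ed : mzD =ᶠ[𝓝 (1 / 64)] fun _ => dz 1 (0, -1, 0) := by
      filter_upwards [start] with s hs
      rw [← dz_mzW, hs]; rfl
    refine ⟨ContDiffAt.congr_of_eventuallyEq (by fun_prop) ea,
      ContDiffAt.congr_of_eventuallyEq contDiffAt_const ed, Or.inl ?_⟩
    rw [ea.deriv_eq]
    simp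

end Pool.Agent.HH
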