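import Pool.Agent.P.MP_c8dc46_gt.DFin
import Pool.Agent.P.MP_c8dc46_gt.MzL2
import Pool.Agent.P.MP_c8dc46_gt.MzPat

/-!
The Mazur pattern is not additive: the core identity for the two primitive cube roots of unity
forces a signature to vanish that is `± 1`.
-/

open Set Topology

namespace Pool.Agent.HH

namespace RMzFin

theorem exists_cube_root : ∃ ω : ℂˣ, ω ^ 3 = 1 ∧ ω ≠ 1 := by
  have h := Complex.isPrimitiveRoot_exp 3 (by norm_num)
  have hu : IsUnit (Complex.exp (2 * Real.pi * Complex.I / (3 : ℕ))) := h.isUnit (by norm_num)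
  refine ⟨hu.unit, Units.ext ?_, fun h1 => ?_⟩
  · rw [Units.val_pow_eq_pow_val, IsUnit.unit_spec, h.pow_eq_one, Units.val_one]
  · have h2 := congrArg Units.val h1
    rw [IsUnit.unit_spec, Units.val_one] at h2
    exact h.ne_one (by norm_num) h2

theorem mul_star_of_cube {u : ℂˣ} (h : u ^ 3 = 1) : (u : ℂ) * star (u : ℂ) = 1 := by
  have h1 : (u : ℂ) ^ 3 = 1 := by
    rw [← Units.val_pow_eq_pow_val, h, Units.val_one]
  have h2 : ‖(u : ℂ)‖ = 1 := Complex.norm_eq_one_of_pow_eq_one h1 (by norm_num)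
  rw [Complex.star_def, Complex.mul_conj, Complex.normSq_eq_norm_sq, h2]
  simp

end RMzFin

open RMzFin in
theorem thmM : ¬ IsHom mzA mzD := by
  intro hh
  obtain ⟨θ₀, hcore⟩ := core isPattern_mz hh
  obtain ⟨h₁, w, hgen, hhol, -, hw⟩ := wind_unit isPattern_mz θ₀
  have hw1 : w = 1 ∨ w = -1 := hw (by simp)
  have hcop : IsCoprime w ((3 : ℕ) : ℤ) := by
    rcases hw1 with rfl | rfl
    · exact isCoprime_one_left
    · exact isCoprime_one_left.neg_left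
  obtain ⟨c, r, s, g, hP, p, m, hc, hc1, hg, hwP, hp, hm, -, hrel⟩ :=
    hcore h₁ w hgen hhol 3 Nat.prime_three (by norm_num) hcop
  obtain ⟨ω, h3, hne⟩ := exists_cube_root
  have e3 : ω * ω * ω = 1 := by rw [← h3, pow_succ, pow_two]
  have h3' : (ω * ω) ^ 3 = 1 := by rw [mul_pow, h3, one_mul]
  have hne' : ω * ω ≠ 1 := fun h => hne (by rwa [h, one_mul] at e3)
  have e4 : ω * ω * (ω * ω) = ω := by rw [← mul_assoc, e3, one_mul]
  obtain ⟨z₀, hz, hz1, hone⟩ := mz_oneGen hc hc1 hg.1 hwP hw1 h3' hne' hp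
  have hcp : CP ℂ p m z₀ := ⟨hp, hm, hz, two_ne_zero⟩
  have n1 := mul_star_of_cube h3
  have n2 := mul_star_of_cube h3'
  have uniq : ∀ u : ℂˣ, (u : ℂ) * star (u : ℂ) = 1 → ∀ t t' : ℤ,
      Sig3 (cf1 hcp) (sysS u hP) g.So t → Sig3 (cf1 hcp) (sysS u hP) g.So t' → t = t' :=
    fun u hu t t' ht ht' => Sig3.unique (compatT_mtau hcp hu (by simp) _ _ _)
      ((isCoc_sysS u hg.1).mono g.So_subset_Sp) ht ht'
  obtain ⟨a₁, a₂, a₃, aq, ha₁, ha₂, ha₃, haq, ea, hnd, -⟩ :=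
    hrel z₀ hcp hz1 ω ω h3 h3 hne hne hne'
  obtain ⟨b₁, b₂, b₃, bq, hb₁, hb₂, hb₃, hbq, eb, -, -⟩ :=
    hrel z₀ hcp hz1 (ω * ω) (ω * ω) h3' h3' hne' hne' (by rw [e4]; exact hne)
  rw [e4] at hb₁
  have q1 := g.q_zero hw1 hcp hz1 n1 n1 haq
  have q2 := g.q_zero hw1 hcp hz1 n2 n2 hbq
  have u1 := uniq ω n1 _ _ ha₂ ha₃
  have u2 := uniq ω n1 _ _ ha₂ hb₁
  have u3 := uniq (ω * ω) n2 _ _ ha₁ hb₂
  have u4 := uniq (ω * ω) n2 _ _ ha₁ hb₃
  obtain ⟨b, hb⟩ := hone m hcp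
  have := g.sp_pm hg hcp hz1 n2 hne' hb hnd ha₁
  omega

end Pool.Agent.HH
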