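import Pool.Agent.P.MP_c8dc46_gt.MzFace
import Pool.Agent.P.MP_c8dc46_gt.Dehn

/-!
Parallel sections and labels: a section is parallel iff its label is locally constant on the cover.
-/

open Set Topology

namespace Pool.Agent.HH

variable {E : Type} [AddCommGroup E] [Module ℂ E] {θ₀ c : ℝ} {hP : S3 → S3 → ℤ} {k₁ k₂ : S3 → ℤ}
  {e : ℤ} {u : ℂˣ} {G : (Module.End ℂ E)ˣ}

namespace RMzL1

/-- The operator `u ^ a G ^ b`. -/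
noncomputable def wt (u : ℂˣ) (G : (Module.End ℂ E)ˣ) (a b : ℤ) : Module.End ℂ E :=
  ((u ^ a : ℂˣ) : ℂ) • (G ^ b : (Module.End ℂ E)ˣ).1

theorem wt_mul (a b a' b' : ℤ) : wt u G a b * wt u G a' b' = wt u G (a + a') (b + b') := by
  simp only [wt, zpow_add, Units.val_mul, smul_mul_smul_comm]

theorem wt_zero : wt u G 0 0 = 1 := by simp [wt]

theorem wt_wt (a b a' b' : ℤ) (v : E) :
    wt u G a b (wt u G a' b' v) = wt u G (a + a') (b + b') v :=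
  LinearMap.congr_fun (wt_mul a b a' b') v

theorem wt_cancel (a b : ℤ) (v : E) : wt u G a b (wt u G (-a) (-b) v) = v := by
  rw [wt_wt, add_neg_cancel, add_neg_cancel, wt_zero, Module.End.one_apply]

theorem wt_inj (a b : ℤ) : Function.Injective (wt u G a b) := fun v w h => by
  have h1 := congrArg (wt u G (-a) (-b)) h
  rwa [wt_wt, wt_wt, neg_add_cancel, neg_add_cancel, wt_zero] at h1

theorem wt_left (a : ℤ) (v : E) : wt u G a 0 v = ((u ^ a : ℂˣ) : ℂ) • v := by simp [wt]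

theorem wt_right (b : ℤ) : wt u G 0 b = (G ^ b).1 := by simp [wt]

theorem lab_eq (k : S3 → ℤ) (σ : List S3 → E) (p : R3) : lab θ₀ c u G k σ p =
    wt u G ⌈p.1 / 4 + θ₀ - 1 / 2⌉ (k (mzΦ θ₀ c p)) (σ [mzΦ θ₀ c p]) := rfl

theorem lab_trl (k : S3 → ℤ) (σ : List S3 → E) (n : ℤ) (p : R3) :
    lab θ₀ c u G k σ (trl n p) = ((u ^ n : ℂˣ) : ℂ) • lab θ₀ c u G k σ p := by
  have h : ⌈(trl n p).1 / 4 + θ₀ - 1 / 2⌉ = n + ⌈p.1 / 4 + θ₀ - 1 / 2⌉ := by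
    rw [add_comm n, ← Int.ceil_add_intCast, trl]
    congr 1
    ring
  rw [lab_eq, lab_eq, mzΦ_trl, h, ← wt_left (G := G), wt_wt, zero_add]

theorem lab_shift {k k' : S3 → ℤ} (σ : List S3 → E) {p : R3} {d : ℤ}
    (h : k (mzΦ θ₀ c p) = k' (mzΦ θ₀ c p) + d) :
    lab θ₀ c u G k σ p = wt u G 0 d (lab θ₀ c u G k' σ p) := by
  rw [lab_eq, lab_eq, wt_wt, zero_add, h, add_comm d]

theorem img_nhds (hc : 0 < c) {p : R3} (hp : p ∈ Vc c) {U : Set R3} (hU : U ∈ 𝓝 p) :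
    mzΦ θ₀ c '' U ∈ 𝓝 (mzΦ θ₀ c p) := by
  obtain ⟨V, h1, h2, h3⟩ := mem_nhds_iff.1 (Filter.inter_mem hU ((isOpen_Vc c).mem_nhds hp))
  exact mem_nhds_iff.2 ⟨_, image_mono (h1.trans inter_subset_left),
    isOpen_mzΦ_image hc h2 (h1.trans inter_subset_right), mem_image_of_mem _ h3⟩

theorem par_iff (hc : 0 < c) {V : Set R3} (hV : V ⊆ Vc c) {k : S3 → ℤ}
    (hk : LocEq hP (fun x y => k y - k x) (mzΦ θ₀ c '' V)) {σ : List S3 → E} :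
    dT (abT u G hP) σ ∈ N ℂ E 2 (mzΦ θ₀ c '' V) ↔
      ∀ p ∈ V, ∀ᶠ q in 𝓝 p, lab θ₀ c u G k σ q = lab θ₀ c u G k σ p := by
  rw [mem_N_two, forall_mem_image]
  refine forall₂_congr fun p hp => ?_
  have hc' := continuousAt_mzΦ (θ₀ := θ₀) (hV hp)
  obtain ⟨U, hU, h1⟩ : ∃ U ∈ 𝓝 p, ∀ x ∈ U, ∀ y ∈ U,
      (dT (abT u G hP) σ [mzΦ θ₀ c x, mzΦ θ₀ c y] = 0 ↔
        lab θ₀ c u G k σ y = lab θ₀ c u G k σ x) := by
    obtain ⟨U, hU, h1⟩ := th_mzΦ (θ₀ := θ₀) (hV hp)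
    obtain ⟨U', hU', h2⟩ := hk _ (mem_image_of_mem _ hp)
    refine ⟨_, Filter.inter_mem hU (hc'.preimage_mem_nhds hU'), fun x hx y hy => ?_⟩
    have h3 : abT u G hP (mzΦ θ₀ c x) (mzΦ θ₀ c y) =
        wt u G (⌈y.1 / 4 + θ₀ - 1 / 2⌉ - ⌈x.1 / 4 + θ₀ - 1 / 2⌉)
          (k (mzΦ θ₀ c y) - k (mzΦ θ₀ c x)) := by
      rw [← h1 x hx.1 y hy.1, ← show _ = k _ - k _ from h2 _ hx.2 _ hy.2]
      rfl
    rw [dT_two, sub_eq_zero, h3, lab_eq, lab_eq, ← (wt_inj (u := u) (G := G)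
      ⌈x.1 / 4 + θ₀ - 1 / 2⌉ (k (mzΦ θ₀ c x))).eq_iff, wt_wt, add_sub_cancel, add_sub_cancel]
  constructor
  · rintro ⟨U', hU', h2⟩
    filter_upwards [hU, hc'.preimage_mem_nhds hU'] with q hq hq'
    exact (h1 p (mem_of_mem_nhds hU) q hq).1 (h2 _ (mem_of_mem_nhds hU') _ hq')
  · intro h2
    refine ⟨_, img_nhds hc (hV hp) (Filter.inter_mem hU h2), ?_⟩
    rintro _ ⟨x, hx, rfl⟩ _ ⟨y, hy, rfl⟩
    exact (h1 x hx.1 y hy.1).2 (hy.2.trans hx.2.symm)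

theorem exists_sec (hc : 0 < c) {V : Set R3} (hV : V ⊆ Vc c) (k : S3 → ℤ) {f : R3 → E}
    (hf : ∀ p ∈ V, ∀ n, trl n p ∈ V → f (trl n p) = ((u ^ n : ℂˣ) : ℂ) • f p) :
    ∃ σ : List S3 → E, ∀ p ∈ V, lab θ₀ c u G k σ p = f p := by
  have h : ∀ x : S3, ∃ v : E, ∀ p ∈ V, mzΦ θ₀ c p = x →
      wt u G ⌈p.1 / 4 + θ₀ - 1 / 2⌉ (k x) v = f p := fun x => by
    by_cases h : ∃ q ∈ V, mzΦ θ₀ c q = x
    · obtain ⟨q, hq, rfl⟩ := h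
      refine ⟨wt u G (-⌈q.1 / 4 + θ₀ - 1 / 2⌉) (-k (mzΦ θ₀ c q)) (f q), fun p hp h => ?_⟩
      obtain ⟨n, rfl⟩ := (mzΦ_eq_iff hc (hV hq) (hV hp)).1 h.symm
      have h1 := lab_trl (θ₀ := θ₀) (c := c) (u := u) (G := G) k
        (fun _ => wt u G (-⌈q.1 / 4 + θ₀ - 1 / 2⌉) (-k (mzΦ θ₀ c q)) (f q)) n q
      rw [lab_eq, lab_eq, mzΦ_trl, wt_cancel] at h1
      rw [h1, hf q hq n hp]
    · exact ⟨0, fun p hp h1 => absurd ⟨p, hp, h1⟩ h⟩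
  choose g hg using h
  exact ⟨c0 g, fun p hp => hg _ p hp rfl⟩

theorem mem_N_open {S : Set S3} (hS : IsOpen S) {σ : List S3 → E} :
    σ ∈ N ℂ E 1 S ↔ ∀ x ∈ S, σ [x] = 0 :=
  mem_N_one.trans ⟨fun h x hx => (h x hx).self_of_nhds,
    fun h _ hx => Filter.mem_of_superset (hS.mem_nhds hx) h⟩

theorem lab_eq_zero (k : S3 → ℤ) {σ : List S3 → E} {p : R3} :
    lab θ₀ c u G k σ p = 0 ↔ σ [mzΦ θ₀ c p] = 0 := map_eq_zero_iff _ (wt_inj _ _)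

theorem Fs_sub : Fs c ⊆ Vc c := fun _ h => h.1

theorem up_Fs (hk : MzK θ₀ c hP k₁ k₂ e) :
    LocEq hP (fun x y => k₁ y - k₁ x) (mzΦ θ₀ c '' Fs c) :=
  hk.up.mono (image_mono (Up_inter c ▸ inter_subset_left))

theorem valOf_trl (A D S : E) (n : ℤ) (p : R3) :
    valOf u A D S (fc (trl n p)) = ((u ^ n : ℂˣ) : ℂ) • valOf u A D S (fc p) := by
  obtain ⟨h1, h2⟩ := fc_trl n p
  rw [valOf, valOf, h1, h2]
  split_ifs with h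
  · rcases h with h | h <;> simp [h]
  · rw [smul_smul, ← Units.val_mul, ← zpow_add, add_comm]

theorem bx_sub (hc : 0 < c) (hc1 : c ≤ 1) (i : Fin 3) : bx i ⊆ Vc c :=
  fun _ h => (bx_subset hc hc1 i h).1

theorem bx_trl {i : Fin 3} {p : R3} {n : ℤ} (hp : p ∈ bx i) (hn : trl n p ∈ bx i) : n = 0 := by
  have h1 := abs_lt.1 hp.1
  have h2 : _ < p.1 + 4 * n - _ ∧ p.1 + 4 * n - _ < _ := abs_lt.1 hn.1
  have h3 : (-1 : ℝ) < n := by linarith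
  have h4 : (n : ℝ) < 1 := by linarith
  have h5 : -1 < n := by exact_mod_cast h3
  have h6 : n < 1 := by exact_mod_cast h4
  omega

theorem bx_pre (i : Fin 3) : IsPreconnected (bx i) := by
  have h : bx i = Metric.ball ((cr i).1 : ℝ) (1 / 2) ×ˢ Metric.ball ((cr i).2 : ℝ) (1 / 2) ×ˢ
      Ioo 0 1 := rfl
  rw [h]
  exact ((convex_ball _ _).prod ((convex_ball _ _).prod (convex_Ioo 0 1))).isPreconnected

theorem bx_open (i : Fin 3) : IsOpen (bx i) :=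
  Metric.isOpen_ball.prod (Metric.isOpen_ball.prod isOpen_Ioo)

theorem bx_pt (i : Fin 3) {s t : ℝ} (hs : |s| < 1 / 2) (ht : |t| < 1 / 2) :
    (((cr i).1 + s, (cr i).2 + t, 1 / 2) : R3) ∈ bx i :=
  ⟨by simpa using hs, by simpa using ht, by norm_num, by norm_num⟩

/-- Vanishing on a quadrant. -/
theorem quad (hc : 0 < c) (hc1 : c ≤ 1) {i : Fin 3} {P Q : Set R3}
    (hP : IsOpen (mzΦ θ₀ c '' (bx i ∩ P))) (hQ : IsOpen (mzΦ θ₀ c '' (bx i ∩ Q))) (k : S3 → ℤ)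
    {σ σ' σ'' : List S3 → E} {a v w : E} (hne : ∃ p ∈ bx i, p ∈ P ∧ p ∈ Q)
    (h : ∀ p ∈ bx i, p ∈ P → p ∈ Q → lab θ₀ c u G k σ p = a)
    (h' : ∀ p ∈ bx i, lab θ₀ c u G k σ' p = v) (h'' : ∀ p ∈ bx i, lab θ₀ c u G k σ'' p = w) :
    σ + σ' - σ'' ∈ N ℂ E 1 (mzΦ θ₀ c '' (bx i ∩ P) ∩ mzΦ θ₀ c '' (bx i ∩ Q)) ↔ a + v - w = 0 := by
  have h1 : ∀ p ∈ bx i, p ∈ P → p ∈ Q → ((σ + σ' - σ'') [mzΦ θ₀ c p] = 0 ↔ a + v - w = 0) :=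
    fun p hp h1 h2 => by
      rw [← lab_eq_zero (u := u) (G := G) k, ← h p hp h1 h2, ← h' p hp, ← h'' p hp]
      simp only [lab_eq, Pi.add_apply, Pi.sub_apply, map_add, map_sub]
  rw [mem_N_open (hP.inter hQ)]
  constructor
  · obtain ⟨p, hp, h2, h3⟩ := hne
    exact fun h4 => (h1 p hp h2 h3).1 (h4 _ ⟨⟨p, ⟨hp, h2⟩, rfl⟩, p, ⟨hp, h3⟩, rfl⟩)
  · rintro h4 _ ⟨⟨p, hp, rfl⟩, q, hq, h5⟩
    obtain ⟨n, hn⟩ := (mzΦ_eq_iff hc (bx_sub hc hc1 i hp.1) (bx_sub hc hc1 i hq.1)).1 h5.symm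
    obtain rfl : n = 0 := bx_trl hp.1 (hn ▸ hq.1)
    obtain rfl : q = p := by simpa [trl] using hn
    exact (h1 q hp.1 hp.2 hq.2).2 h4

/-- The relation at one crossing. -/
theorem rel_one (hc : 0 < c) (hc1 : c ≤ 1) (hk : MzK θ₀ c hP k₁ k₂ e) {σ : List S3 → E}
    {A D S : E} (hl : ∀ p ∈ Fs c, lab θ₀ c u G k₁ σ p = valOf u A D S (fc p)) (i : Fin 3) :
    (mzX θ₀ c i).Rel (abT u G hP) σ ↔
      valOf u A D S (![(2, 0), (2, 0), (4, 0)] i) - valOf u A D S (![(0, 0), (3, 0), (2, 0)] i) =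
        (G ^ (e * num (![(2, 0), (2, 0), (4, 0)] i : Fin 5 × ℤ).1 -
          e * num (![(3, 0), (4, -1), (1, 0)] i : Fin 5 × ℤ).1)).1
          (valOf u A D S (![(3, 0), (4, -1), (1, 0)] i) -
            valOf u A D S (![(2, -1), (2, -1), (4, -1)] i)) := by
  have ok := mzX_ok (θ₀ := θ₀) hc hc1 i
  have hs := bx_sub hc hc1 i
  obtain ⟨k, eL, eR, eF, eB, h0, hL, hR, hF, -⟩ := ok.primA (hk.coc.mono (Sp_mz hc hc1 ▸
    (subset_iUnion (fun i => (mzX θ₀ c i).B) i).trans subset_union_right)) hk.up hk.down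
  have a1 : |(-1 / 4 : ℝ)| < 1 / 2 := by rw [abs_lt]; norm_num
  have a2 : |(1 / 4 : ℝ)| < 1 / 2 := by rw [abs_lt]; norm_num
  have nLF : ∃ p ∈ bx i, p.1 < (cr i).1 ∧ p.2.1 < (cr i).2 :=
    ⟨_, bx_pt i a1 a1, by norm_num, by norm_num⟩
  have nLB : ∃ p ∈ bx i, p.1 < (cr i).1 ∧ ((cr i).2 : ℝ) < p.2.1 :=
    ⟨_, bx_pt i a1 a2, by norm_num, by norm_num⟩
  have nRF : ∃ p ∈ bx i, ((cr i).1 : ℝ) < p.1 ∧ p.2.1 < (cr i).2 :=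
    ⟨_, bx_pt i a2 a1, by norm_num, by norm_num⟩
  have nRB : ∃ p ∈ bx i, ((cr i).1 : ℝ) < p.1 ∧ ((cr i).2 : ℝ) < p.2.1 :=
    ⟨_, bx_pt i a2 a2, by norm_num, by norm_num⟩
  have he : e * num (![(2, 0), (2, 0), (4, 0)] i : Fin 5 × ℤ).1 -
      e * num (![(3, 0), (4, -1), (1, 0)] i : Fin 5 × ℤ).1 = -eR + eL := by
    obtain ⟨p, hp, h1, h2⟩ := nLF
    obtain ⟨q, hq, h3, h4⟩ := nRF
    have b1 := hk.diff p (bx_Fs hc hc1 hp h1.ne h2.ne)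
    have b2 := hk.diff q (bx_Fs hc hc1 hq h3.ne' h4.ne)
    rw [(fc_bx hp).1 h1 h2] at b1
    rw [(fc_bx hq).2.2.1 h3 h4] at b2
    rw [← b1, ← b2]
    have b3 := hL _ ⟨p, ⟨hp, h1⟩, rfl⟩
    have b4 := hF _ ⟨p, ⟨hp, h2⟩, rfl⟩
    have b5 := hR _ ⟨q, ⟨hq, h3⟩, rfl⟩
    have b6 := hF _ ⟨q, ⟨hq, h4⟩, rfl⟩
    omega
  have key : ∀ {σL σR σF σB : List S3 → E} {vL vR vF vB : E},
      (∀ p ∈ bx i, lab θ₀ c u G k σL p = vL) → (∀ p ∈ bx i, lab θ₀ c u G k σR p = vR) →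
      (∀ p ∈ bx i, lab θ₀ c u G k σF p = vF) → (∀ p ∈ bx i, lab θ₀ c u G k σB p = vB) →
      ((σ + σL - σF ∈ N ℂ E 1 ((mzX θ₀ c i).L ∩ (mzX θ₀ c i).Fr) ∧
        σ + σL - σB ∈ N ℂ E 1 ((mzX θ₀ c i).L ∩ (mzX θ₀ c i).Bk) ∧
        σ + σR - σF ∈ N ℂ E 1 ((mzX θ₀ c i).R ∩ (mzX θ₀ c i).Fr) ∧
        σ + σR - σB ∈ N ℂ E 1 ((mzX θ₀ c i).R ∩ (mzX θ₀ c i).Bk)) ↔
      wt u G 0 eL (valOf u A D S (![(3, 0), (4, -1), (1, 0)] i)) + vL - vF = 0 ∧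
        wt u G 0 eL (valOf u A D S (![(2, -1), (2, -1), (4, -1)] i)) + vL - vB = 0 ∧
        wt u G 0 eR (valOf u A D S (![(2, 0), (2, 0), (4, 0)] i)) + vR - vF = 0 ∧
        wt u G 0 eR (valOf u A D S (![(0, 0), (3, 0), (2, 0)] i)) + vR - vB = 0) :=
    fun cL cR cF cB => and_congr
      (quad hc hc1 ok.oL.1 ok.oF.1 k nLF (fun p hp h1 h2 => by
        rw [lab_shift σ (hL _ ⟨p, ⟨hp, h1⟩, rfl⟩), hl p (bx_Fs hc hc1 hp h1.ne h2.ne),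
          (fc_bx hp).1 h1 h2]) cL cF) <| and_congr
      (quad hc hc1 ok.oL.1 ok.oB.1 k nLB (fun p hp h1 h2 => by
        rw [lab_shift σ (hL _ ⟨p, ⟨hp, h1⟩, rfl⟩), hl p (bx_Fs hc hc1 hp h1.ne h2.ne'),
          (fc_bx hp).2.1 h1 h2]) cL cB) <| and_congr
      (quad hc hc1 ok.oR.1 ok.oF.1 k nRF (fun p hp h1 h2 => by
        rw [lab_shift σ (hR _ ⟨p, ⟨hp, h1⟩, rfl⟩), hl p (bx_Fs hc hc1 hp h1.ne' h2.ne),
          (fc_bx hp).2.2.1 h1 h2]) cR cF)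
      (quad hc hc1 ok.oR.1 ok.oB.1 k nRB (fun p hp h1 h2 => by
        rw [lab_shift σ (hR _ ⟨p, ⟨hp, h1⟩, rfl⟩), hl p (bx_Fs hc hc1 hp h1.ne' h2.ne'),
          (fc_bx hp).2.2.2 h1 h2]) cR cB)
  rw [he, ← wt_right (u := u), ← (wt_inj (u := u) (G := G) 0 eR).eq_iff, wt_wt, add_zero,
    add_neg_cancel_left, map_sub, map_sub]
  constructor
  · rintro ⟨σL, σR, σF, σB, pL, pR, pF, pB, h⟩
    obtain ⟨o, ho, -⟩ := nLF
    have h1 : ∀ {σ' : List S3 → E}, dT (abT u G hP) σ' ∈ N ℂ E 2 (mzX θ₀ c i).B →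
        ∀ p ∈ bx i, lab θ₀ c u G k σ' p = lab θ₀ c u G k σ' o := fun h p hp =>
      RHol.loc_const (bx_pre i) ((par_iff hc hs h0).1 h) hp ho
    obtain ⟨b1, b2, b3, b4⟩ := (key (h1 pL) (h1 pR) (h1 pF) (h1 pB)).1 h
    linear_combination (norm := abel1) b3 - b4 - b1 + b2
  · intro h
    have h1 : ∀ v : E, ∃ σ' : List S3 → E, dT (abT u G hP) σ' ∈ N ℂ E 2 (mzX θ₀ c i).B ∧
        ∀ p ∈ bx i, lab θ₀ c u G k σ' p = v := fun v => by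
      obtain ⟨σ', h1⟩ := exists_sec (θ₀ := θ₀) (u := u) (G := G) hc hs k (f := fun _ => v)
        fun p hp n hn => by simp [bx_trl hp hn]
      refine ⟨σ', (par_iff hc hs h0).2 fun p hp => ?_, h1⟩
      filter_upwards [(bx_open i).mem_nhds hp] with q hq
      rw [h1 q hq, h1 p hp]
    choose s s1 s2 using h1
    refine ⟨_, _, _, _, s1 0, s1 (wt u G 0 eL (valOf u A D S (![(3, 0), (4, -1), (1, 0)] i)) -
      wt u G 0 eR (valOf u A D S (![(2, 0), (2, 0), (4, 0)] i))), s1 _, s1 _,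
      (key (s2 _) (s2 _) (s2 _) (s2 _)).2 ⟨sub_self _, sub_self _, by abel, ?_⟩⟩
    linear_combination (norm := abel1) -h

end RMzL1

open RMzL1

theorem isCoc_abT (u : ℂˣ) (G : (Module.End ℂ E)ˣ) {S : Set S3} (h : IsCocA hP S)
    (hS : S ⊆ (eta 0)ᶜ) : IsCoc (abT u G hP) S := by
  intro p hp
  obtain ⟨U, hU, h1⟩ := h p hp
  obtain ⟨V, hV, h2⟩ := isCocA_th (fun p _ => continuous_xc.continuousAt) hS p hp
  refine ⟨_, Filter.inter_mem hU hV, fun x hx => ⟨?_, fun y hy z hz => ?_⟩⟩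
  · show RMzL1.wt u G _ _ = 1
    rw [left_eq_add.1 (h1 x hx.1 x hx.1 x hx.1).symm, left_eq_add.1 (h2 x hx.2 x hx.2 x hx.2).symm,
      wt_zero]
  · show RMzL1.wt u G _ _ * RMzL1.wt u G _ _ = RMzL1.wt u G _ _
    rw [wt_mul, h1 x hx.1 y hy.1 z hz.1, h2 x hx.2 y hy.2 z hz.2]

theorem lab_of_par (hc : 0 < c) (hc1 : c ≤ 1) (hk : MzK θ₀ c hP k₁ k₂ e) (hu : u ≠ 1)
    {σ : List S3 → E} (hσ : dT (abT u G hP) σ ∈ N ℂ E 2 (mzΦ θ₀ c '' Fs c)) :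
    ∃ A D S : E, ∀ p ∈ Fs c, lab θ₀ c u G k₁ σ p = valOf u A D S (fc p) := by
  have hl := (par_iff hc Fs_sub (up_Fs hk)).1 hσ
  choose o ho ho' using fc_surj hc hc1
  refine ⟨lab θ₀ c u G k₁ σ (o 4), lab θ₀ c u G k₁ σ (o 2), lab θ₀ c u G k₁ σ (o 3),
    fun p hp => ?_⟩
  by_cases h : (fc p).1 = 0 ∨ (fc p).1 = 1
  · obtain ⟨h1, h2⟩ := fc_trl 1 p
    rw [if_pos h, ← fc_snd h] at h2
    have h3 := fc_const hc hc1 hl (trl_Fs 1 hp) hp (Prod.ext h1 h2)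
    rw [lab_trl, zpow_one] at h3
    have h4 : ((u : ℂ) - 1) • lab θ₀ c u G k₁ σ p = 0 := by rw [sub_smul, h3, one_smul, sub_self]
    rw [smul_eq_zero, sub_eq_zero, Units.val_eq_one] at h4
    rw [h4.resolve_left hu, valOf]
    rcases h with h | h <;> simp [h]
  · obtain ⟨h1, h2⟩ := fc_trl (fc p).2 (o (fc p).1)
    rw [ho'] at h1 h2
    rw [if_neg h, zero_add] at h2
    rw [← fc_const hc hc1 hl (trl_Fs _ (ho _)) hp (Prod.ext h1 h2), lab_trl, valOf]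
    generalize (fc p).1 = t at h
    fin_cases t <;> first | rfl | simp at h

theorem par_of_lab (hc : 0 < c) (hc1 : c ≤ 1) (hk : MzK θ₀ c hP k₁ k₂ e) (A D S : E) :
    ∃ σ : List S3 → E, dT (abT u G hP) σ ∈ N ℂ E 2 (mzΦ θ₀ c '' Fs c) ∧
      ∀ p ∈ Fs c, lab θ₀ c u G k₁ σ p = valOf u A D S (fc p) := by
  obtain ⟨σ, h⟩ := exists_sec (θ₀ := θ₀) (u := u) (G := G) hc Fs_sub k₁
    (f := fun p => valOf u A D S (fc p)) fun p _ n _ => valOf_trl A D S n p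
  refine ⟨σ, (par_iff hc Fs_sub (up_Fs hk)).2 fun p hp => ?_, h⟩
  filter_upwards [(isOpen_Fs c).mem_nhds hp, fc_loc hp.2] with q hq hq'
  rw [h q hq, h p hp, hq']

theorem mem_N_iff_lab (hc : 0 < c) (k : S3 → ℤ) (σ : List S3 → E) :
    σ ∈ N ℂ E 1 (mzΦ θ₀ c '' Fs c) ↔ ∀ p ∈ Fs c, lab θ₀ c u G k σ p = 0 := by
  rw [mem_N_open (isOpen_mzΦ_image hc (isOpen_Fs c) Fs_sub), forall_mem_image]
  exact forall₂_congr fun p _ => (lab_eq_zero k).symm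

theorem lab_sub_smul (k : S3 → ℤ) (σ σ' : List S3 → E) (κ : ℂ) (p : R3) :
    lab θ₀ c u G k (σ - κ • σ') p = lab θ₀ c u G k σ p - κ • lab θ₀ c u G k σ' p := by
  simp only [lab_eq, Pi.sub_apply, Pi.smul_apply, map_sub, map_smul]

theorem rel_iff (hc : 0 < c) (hc1 : c ≤ 1) (hk : MzK θ₀ c hP k₁ k₂ e) {σ : List S3 → E}
    {A D S : E} (hl : ∀ p ∈ Fs c, lab θ₀ c u G k₁ σ p = valOf u A D S (fc p)) :
    (∀ i, (mzX θ₀ c i).Rel (abT u G hP) σ) ↔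
      D = (G ^ (-e)).1 (S - ((u⁻¹ : ℂˣ) : ℂ) • D) ∧
      D - S = (G ^ e).1 (((u⁻¹ : ℂˣ) : ℂ) • A - ((u⁻¹ : ℂˣ) : ℂ) • D) ∧
      A - D = (G ^ e).1 (-(((u⁻¹ : ℂˣ) : ℂ) • A)) := by
  have h : e - e * 2 = -e := by ring
  simp [Fin.forall_fin_succ, rel_one hc hc1 hk hl, valOf, num, h]

end Pool.Agent.HH
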