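import Pool.Agent.P.MP_c8dc46_gt.Up

/-! The Mazur diagram as a set, the regions above and below it and the crossing boxes. -/

open Set Topology

namespace Pool.Agent.HH

variable {θ₀ c : ℝ}

theorem mzV_add (i n : ℤ) : mzV (i + 32 * n) = mzV i + (4 * n, 0, 0) := by
  have h1 : (i + 32 * n) % 32 = i % 32 := by omega
  have h2 : (i + 32 * n) / 32 = i / 32 + n := by omega
  simp only [mzV, h1, h2, add_assoc, Prod.mk_add_mk, mul_add, add_zero]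

namespace RMzRange

theorem interp_eq (v : ℤ → ℤ) {n : ℤ} {s : ℝ} (h1 : (n : ℝ) ≤ 32 * s) (h2 : 32 * s ≤ n + 1) :
    interp v s = (1 - (32 * s - n)) * v n + (32 * s - n) * v (n + 1) := by
  rcases h2.lt_or_eq with h | h
  · rw [interp, Int.fract, Int.floor_eq_iff.2 ⟨h1, h⟩]
  · have h3 : ⌊32 * s⌋ = n + 1 := by
      rw [h]
      exact_mod_cast Int.floor_intCast (R := ℝ) (n + 1)
    rw [interp, Int.fract, h3, h]
    push_cast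
    ring

theorem lf_Icc : LocallyFinite fun n : ℤ => Icc (n : ℝ) (n + 1) := by
  intro x
  refine ⟨Ioo (x - 1) (x + 1), Ioo_mem_nhds (by linarith) (by linarith),
    (finite_Icc (⌊x⌋ - 2) (⌊x⌋ + 2)).subset ?_⟩
  rintro n ⟨y, h1, h2⟩
  have h3 := Int.floor_le x
  have h4 := Int.lt_floor_add_one x
  constructor
  · exact_mod_cast (by push_cast; linarith [h1.2, h2.1] : ((⌊x⌋ - 2 : ℤ) : ℝ) ≤ n)
  · exact_mod_cast (by push_cast; linarith [h1.1, h2.2] : (n : ℝ) ≤ ((⌊x⌋ + 2 : ℤ) : ℝ))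

theorem lf_cell : LocallyFinite fun q : ℤ × ℤ =>
    {p : R3 | p.1 ∈ Icc (q.1 : ℝ) (q.1 + 1) ∧ p.2.1 ∈ Icc (q.2 : ℝ) (q.2 + 1)} := by
  intro p
  obtain ⟨U, hU, h1⟩ := lf_Icc.preimage_continuous (continuous_fst (X := ℝ) (Y := ℝ × ℝ)) p
  obtain ⟨V, hV, h2⟩ := lf_Icc.preimage_continuous
    (show Continuous fun p : R3 => p.2.1 by fun_prop) p
  refine ⟨U ∩ V, Filter.inter_mem hU hV, (h1.prod h2).subset ?_⟩
  rintro q ⟨y, h3, h4⟩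
  exact ⟨⟨y, h3.1, h4.1⟩, y, h3.2, h4.2⟩

/-- Unit edges of the diagram, from the lower to the upper end. -/
def Ed (a b : ℤ × ℤ × ℤ) : Prop :=
  (hE a.1 a.2.1 ∧ a.2.2 = 0 ∧ b = a + (1, 0, 0)) ∨ (vE a.1 a.2.1 ∧ a.2.2 = 1 ∧ b = a + (0, 1, 0)) ∨
    (cn a.1 a.2.1 ∧ a.2.2 = 0 ∧ b = a + (0, 0, 1))

instance (i j : ℤ) : Decidable (hE i j) := by
  unfold hE
  infer_instance

instance (i j : ℤ) : Decidable (vE i j) := by
  unfold vE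
  infer_instance

instance (i j : ℤ) : Decidable (cn i j) := by
  unfold cn
  infer_instance

instance (a b : ℤ × ℤ × ℤ) : Decidable (Ed a b) := by
  unfold Ed
  infer_instance

theorem ed_fin : ∀ r : ℕ, r < 32 → Ed (mzV r) (mzV (r + 1)) ∨ Ed (mzV (r + 1)) (mzV r) := by
  decide +kernel

theorem fin_ed : ∀ x ∈ [(0 : ℤ), 1, 2, 3], ∀ y ∈ [(-2 : ℤ), -1, 0, 1, 2], ∀ z ∈ [(0 : ℤ), 1],
    ∀ d ∈ [((1, 0, 0) : ℤ × ℤ × ℤ), (0, 1, 0), (0, 0, 1)], Ed (x, y, z) ((x, y, z) + d) →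
    ∃ r : Fin 64, (mzV (r.1 - 32) = (x, y, z) ∧ mzV (r.1 - 32 + 1) = (x, y, z) + d) ∨
      (mzV (r.1 - 32 + 1) = (x, y, z) ∧ mzV (r.1 - 32) = (x, y, z) + d) := by
  decide +kernel

theorem Ed.add {a b : ℤ × ℤ × ℤ} (h : Ed a b) (n : ℤ) :
    Ed (a + (4 * n, 0, 0)) (b + (4 * n, 0, 0)) := by
  have h1 : (a.1 + 4 * n) % 4 = a.1 % 4 := by omega
  simp only [Ed, hE, vE, cn, Prod.fst_add, Prod.snd_add, add_zero, h1, add_right_comm a,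
    add_left_inj] at h ⊢
  exact h

theorem ed_all (i : ℤ) : Ed (mzV i) (mzV (i + 1)) ∨ Ed (mzV (i + 1)) (mzV i) := by
  obtain ⟨r, n, hr, rfl⟩ : ∃ (r : ℕ) (n : ℤ), r < 32 ∧ i = r + 32 * n :=
    ⟨(i % 32).toNat, i / 32, by omega, by omega⟩
  rw [add_right_comm, mzV_add, mzV_add]
  exact (ed_fin r hr).imp (fun h => h.add n) fun h => h.add n

theorem all_ed {a b : ℤ × ℤ × ℤ} (h : Ed a b) :
    ∃ i, (mzV i = a ∧ mzV (i + 1) = b) ∨ (mzV (i + 1) = a ∧ mzV i = b) := by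
  obtain ⟨x, y, z⟩ := a
  obtain ⟨d, hd, rfl⟩ : ∃ d ∈ [((1, 0, 0) : ℤ × ℤ × ℤ), (0, 1, 0), (0, 0, 1)], b = (x, y, z) + d := by
    rcases h with h | h | h <;> exact ⟨_, by simp, h.2.2⟩
  have e : ((x % 4, y, z) : ℤ × ℤ × ℤ) + (4 * (x / 4), 0, 0) = (x, y, z) := by
    simp [Int.emod_add_mul_ediv]
  have e' : ((x, y, z) : ℤ × ℤ × ℤ) + (4 * (-(x / 4)), 0, 0) = (x % 4, y, z) := by
    simp only [Prod.mk_add_mk, add_zero, Prod.mk.injEq, and_true]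
    omega
  have h1 := h.add (-(x / 4))
  rw [add_right_comm, e'] at h1
  have h2 : y ∈ [(-2 : ℤ), -1, 0, 1, 2] ∧ z ∈ [(0 : ℤ), 1] := by
    simp only [Ed, hE, vE, cn] at h
    simp only [List.mem_cons, List.not_mem_nil, or_false]
    omega
  obtain ⟨r, hr⟩ := fin_ed (x % 4) (by simp only [List.mem_cons]; omega) y h2.1 z h2.2 d hd h1
  refine ⟨r.1 - 32 + 32 * (x / 4), ?_⟩
  rw [add_right_comm, mzV_add, mzV_add]
  refine hr.imp (fun k => ?_) fun k => ?_ <;> rw [k.1, k.2, add_right_comm, e] <;> exact ⟨rfl, rfl⟩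

/-- A point of a segment. -/
def seg (a b : ℤ × ℤ × ℤ) (t : ℝ) : R3 :=
  ((1 - t) * a.1 + t * b.1, (1 - t) * a.2.1 + t * b.2.1, (1 - t) * a.2.2 + t * b.2.2)

theorem seg_swap (a b : ℤ × ℤ × ℤ) (t : ℝ) : seg a b t = seg b a (1 - t) := by
  simp only [seg, sub_sub_cancel, add_comm]

theorem mzW_eq (i : ℤ) {t : ℝ} (h0 : 0 ≤ t) (h1 : t ≤ 1) :
    mzW ((i + t) / 32) = seg (mzV i) (mzV (i + 1)) t := by
  have e : 32 * ((i + t) / 32) = i + t := by ring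
  have h := fun v => interp_eq v (n := i) (s := (i + t) / 32) (by linarith) (by linarith)
  simp only [mzW, h, e, add_sub_cancel_left, seg]

theorem mem_iff {p : R3} : p ∈ mzS ↔ ∃ a b t, Ed a b ∧ 0 ≤ t ∧ t ≤ 1 ∧ p = seg a b t := by
  obtain ⟨X, Y, Z⟩ := p
  constructor
  · rintro (⟨i, j, h, h1, h2, h3, h4⟩ | ⟨i, j, h, h1, h2, h3, h4⟩ | ⟨i, j, h, h1, h2, h3, h4⟩) <;>
      dsimp only at h1 h2 h3 h4
    · refine ⟨(i, j, 0), _, X - i, Or.inl ⟨h, rfl, rfl⟩, by linarith, by linarith, ?_⟩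
      simp only [seg, h3, h4, Prod.fst_add, Prod.snd_add, Prod.mk.injEq]
      push_cast
      exact ⟨by ring, by ring, by ring⟩
    · refine ⟨(i, j, 1), _, Y - j, Or.inr (Or.inl ⟨h, rfl, rfl⟩), by linarith, by linarith, ?_⟩
      simp only [seg, h1, h4, Prod.fst_add, Prod.snd_add, Prod.mk.injEq]
      push_cast
      exact ⟨by ring, by ring, by ring⟩
    · refine ⟨(i, j, 0), _, Z, Or.inr (Or.inr ⟨h, rfl, rfl⟩), h3, h4, ?_⟩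
      simp only [seg, h1, h2, Prod.fst_add, Prod.snd_add, Prod.mk.injEq]
      push_cast
      exact ⟨by ring, by ring, by ring⟩
  · rintro ⟨⟨i, j, k⟩, b, t, ⟨h, rfl, rfl⟩ | ⟨h, rfl, rfl⟩ | ⟨h, rfl, rfl⟩, h0, h1, e⟩ <;>
      simp only [seg, Prod.fst_add, Prod.snd_add, Prod.mk.injEq] at e <;> push_cast at e <;>
      obtain ⟨e1, e2, e3⟩ := e
    · exact Or.inl ⟨i, j, h, by linarith, by linarith, by linarith, by linarith⟩
    · exact Or.inr (Or.inl ⟨i, j, h, by linarith, by linarith, by linarith, by linarith⟩)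
    · exact Or.inr (Or.inr ⟨i, j, h, by linarith, by linarith, by linarith, by linarith⟩)

end RMzRange

open RMzRange

theorem continuous_interp (v : ℤ → ℤ) : Continuous (interp v) := by
  refine (lf_Icc.preimage_continuous (continuous_const.mul continuous_id :
    Continuous fun s : ℝ => 32 * s)).continuous (eq_univ_of_forall fun s => mem_iUnion.2
      ⟨⌊32 * s⌋, Int.floor_le _, (Int.lt_floor_add_one _).le⟩)
    (fun n => isClosed_Icc.preimage (by fun_prop)) fun n => ?_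
  exact ContinuousOn.congr (by fun_prop) fun s hs => interp_eq v hs.1 hs.2

theorem mzW_add (s : ℝ) (n : ℤ) : mzW (s + n) = trl n (mzW s) := by
  have e : 32 * (s + n) = 32 * s + (32 * n : ℤ) := by
    push_cast
    ring
  simp only [mzW, trl, interp, e, Int.floor_add_intCast, Int.fract_add_intCast,
    add_right_comm _ (32 * n), mzV_add, Prod.fst_add, Prod.snd_add, add_zero, Prod.mk.injEq,
    and_true]
  push_cast
  ring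

theorem mz_range : range mzW = mzS := by
  ext p
  rw [mem_iff]
  constructor
  · rintro ⟨s, rfl⟩
    have h0 := Int.fract_nonneg (32 * s)
    have h1 := (Int.fract_lt_one (32 * s)).le
    have h := mzW_eq ⌊32 * s⌋ h0 h1
    rw [Int.floor_add_fract, mul_div_cancel_left₀ s (by norm_num)] at h
    rcases ed_all ⌊32 * s⌋ with k | k
    · exact ⟨_, _, _, k, h0, h1, h⟩
    · exact ⟨_, _, _, k, by linarith, by linarith, h.trans (seg_swap _ _ _)⟩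
  · rintro ⟨a, b, t, h, h0, h1, rfl⟩
    obtain ⟨i, ⟨rfl, rfl⟩ | ⟨rfl, rfl⟩⟩ := all_ed h
    · exact ⟨_, mzW_eq i h0 h1⟩
    · exact ⟨_, (mzW_eq i (by linarith) (by linarith)).trans (seg_swap _ _ _).symm⟩

namespace RMzRange

theorem trl_mem (n : ℤ) {p : R3} (hp : p ∈ mzS) : trl n p ∈ mzS := by
  rw [← mz_range] at hp ⊢
  obtain ⟨s, rfl⟩ := hp
  exact ⟨_, mzW_add s n⟩

theorem closed_S : IsClosed mzS := by
  have hc : ∀ (P : Prop) (f₁ f₂ f₃ f₄ : R3 → Prop), IsClosed {p | f₁ p} → IsClosed {p | f₂ p} →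
      IsClosed {p | f₃ p} → IsClosed {p | f₄ p} → IsClosed {p | P ∧ f₁ p ∧ f₂ p ∧ f₃ p ∧ f₄ p} :=
    fun P _ _ _ _ h1 h2 h3 h4 => isClosed_const.and (h1.and (h2.and (h3.and h4)))
  have key : ∀ G : ℤ → ℤ → R3 → Prop, (∀ i j, IsClosed {p | G i j p}) →
      (∀ i j p, G i j p → p.1 ∈ Icc (i : ℝ) (i + 1) ∧ p.2.1 ∈ Icc (j : ℝ) (j + 1)) →
      IsClosed {p | ∃ i j, G i j p} := fun G h1 h2 => by
    have := (lf_cell.subset fun q p hp => h2 q.1 q.2 p hp).isClosed_iUnion fun q => h1 q.1 q.2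
    convert this using 1
    ext p
    simp only [mem_ofPred_eq, mem_iUnion, Prod.exists]
    rfl
  refine (key _ (fun i j => hc _ _ _ _ _ ?_ ?_ ?_ ?_) fun i j p h => ?_).union
    ((key _ (fun i j => hc _ _ _ _ _ ?_ ?_ ?_ ?_) fun i j p h => ?_).union
    (key _ (fun i j => hc _ _ _ _ _ ?_ ?_ ?_ ?_) fun i j p h => ?_))
  all_goals first
    | exact isClosed_le (by fun_prop) (by fun_prop)
    | exact isClosed_eq (by fun_prop) (by fun_prop)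
    | (obtain ⟨-, h1, h2, h3, h4⟩ := h; exact ⟨⟨by linarith, by linarith⟩, by linarith, by linarith⟩)

end RMzRange

theorem slab_mz : Slab mzS := by
  refine ⟨closed_S, fun n p => ⟨fun h => ?_, trl_mem n⟩, ?_⟩
  · simpa [trl] using trl_mem (-n) h
  · rintro p (⟨i, j, h, h1, h2, h3, h4⟩ | ⟨i, j, h, h1, h2, h3, h4⟩ | ⟨i, j, h, h1, h2, h3, h4⟩)
    · have a1 : (-2 : ℝ) ≤ j ∧ (j : ℝ) ≤ 2 := by
        exact_mod_cast (by unfold hE at h; omega : -2 ≤ j ∧ j ≤ 2)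
      exact ⟨abs_le.2 ⟨by linarith, by linarith⟩, by linarith, by linarith⟩
    · have a1 : (-2 : ℝ) ≤ j ∧ (j : ℝ) ≤ 1 := by
        exact_mod_cast (by unfold vE at h; omega : -2 ≤ j ∧ j ≤ 1)
      exact ⟨abs_le.2 ⟨by linarith, by linarith⟩, by linarith, by linarith⟩
    · have a1 : (-2 : ℝ) ≤ j ∧ (j : ℝ) ≤ 2 := by
        exact_mod_cast (by unfold cn at h; omega : -2 ≤ j ∧ j ≤ 2)
      exact ⟨abs_le.2 ⟨by linarith, by linarith⟩, by linarith, by linarith⟩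

theorem Pc_mz (θ₀ c s : ℝ) : Pc mzA mzD θ₀ c s = mzΦ θ₀ c (mzW s) :=
  rfl

theorem mzS_subset (hc : 0 < c) (hc1 : c ≤ 1) : mzS ⊆ Vc c := fun p hp => by
  obtain ⟨h1, h2, h3⟩ := slab_mz.bd p hp
  exact mem_Vc hc hc1 (by nlinarith [abs_le.1 h1])

theorem mz_mem_iff (hc : 0 < c) (hc1 : c ≤ 1) {p : R3} (hp : p ∈ Vc c) :
    mzΦ θ₀ c p ∈ range (Pc mzA mzD θ₀ c) ↔ p ∈ mzS := by
  rw [← mem_image_iff (θ₀ := θ₀) hc (mzS_subset hc hc1) (fun n _ => trl_mem n) hp, ← mz_range,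
    ← range_comp]
  rfl

theorem Up_inter (c : ℝ) : Up c 1 mzS ∩ Up c (-1) mzS = Fs c := by
  ext p
  refine ⟨fun h => ⟨h.1.1, fun ⟨Z, hZ⟩ => ?_⟩,
    fun h => ⟨⟨h.1, fun t _ k => h.2 ⟨_, k⟩⟩, h.1, fun t _ k => h.2 ⟨_, k⟩⟩⟩
  rcases le_total p.2.2 Z with k | k
  · exact h.1.2 (Z - p.2.2) (sub_nonneg.2 k) (by simpa using hZ)
  · exact h.2.2 (p.2.2 - Z) (sub_nonneg.2 k) (by simpa using hZ)

theorem image_Up_inter (hc : 0 < c) :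
    mzΦ θ₀ c '' Up c 1 mzS ∩ mzΦ θ₀ c '' Up c (-1) mzS = mzΦ θ₀ c '' Fs c := by
  rw [← Up_inter]
  refine Subset.antisymm ?_ (image_inter_subset _ _ _)
  rintro _ ⟨⟨p, hp, rfl⟩, h⟩
  exact ⟨p, ⟨hp, (mem_image_iff hc (fun _ k => k.1) (fun n _ => slab_mz.trl_Up n) hp.1).1 h⟩, rfl⟩

theorem isOpen_Fs (c : ℝ) : IsOpen (Fs c) :=
  Up_inter c ▸ (slab_mz.isOpen_Up (Or.inl rfl)).inter (slab_mz.isOpen_Up (Or.inr rfl))

theorem trl_Fs (n : ℤ) {p : R3} (hp : p ∈ Fs c) : trl n p ∈ Fs c := by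
  rw [← Up_inter] at hp ⊢
  exact ⟨slab_mz.trl_Up n hp.1, slab_mz.trl_Up n hp.2⟩

namespace RMzRange

theorem near {x : ℝ} {m n : ℤ} (h : |x - n| < 1 / 2) (hx : x = m) : m = n := by
  have h1 : |((m - n : ℤ) : ℝ)| < 1 := by
    push_cast
    linarith [hx ▸ h]
  exact sub_eq_zero.1 (Int.abs_lt_one_iff.1 (by exact_mod_cast h1))

theorem cr_facts (i : Fin 3) : ¬ cn (cr i).1 (cr i).2 ∧ vE (cr i).1 (cr i).2 ∧
    vE (cr i).1 ((cr i).2 - 1) ∧ hE (cr i).1 (cr i).2 ∧ hE ((cr i).1 - 1) (cr i).2 ∧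
    (1 ≤ (cr i).1 ∧ (cr i).1 ≤ 2) ∧ -1 ≤ (cr i).2 ∧ (cr i).2 ≤ 1 := by
  revert i
  decide

theorem bx_eq (i : Fin 3) : bx i = Ioo ((cr i).1 - 1 / 2 : ℝ) ((cr i).1 + 1 / 2) ×ˢ
    Ioo ((cr i).2 - 1 / 2 : ℝ) ((cr i).2 + 1 / 2) ×ˢ Ioo (0 : ℝ) 1 := by
  ext p
  simp only [bx, mem_ofPred_eq, mem_prod, mem_Ioo, abs_sub_lt_iff, sub_lt_iff_lt_add',
    and_comm (a := p.1 < _), and_comm (a := p.2.1 < _), add_comm (1 / 2 : ℝ)]

end RMzRange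

theorem bx_subset (hc : 0 < c) (hc1 : c ≤ 1) (i : Fin 3) : bx i ⊆ Vc c \ mzS := by
  rintro p ⟨h1, h2, h3, h4⟩
  obtain ⟨f1, -, -, -, -, -, f2⟩ := cr_facts i
  have a1 : (-1 : ℝ) ≤ (cr i).2 ∧ ((cr i).2 : ℝ) ≤ 1 := by exact_mod_cast f2
  refine ⟨mem_Vc hc hc1 (by nlinarith [abs_lt.1 h2]), ?_⟩
  rintro (⟨a, b, -, -, -, -, k⟩ | ⟨a, b, -, -, -, -, k⟩ | ⟨a, b, k, k1, k2, -⟩)
  · exact h3.ne' k
  · exact h4.ne k
  · exact f1 (near h1 k1 ▸ near h2 k2 ▸ k)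

theorem bx_up (hc : 0 < c) (hc1 : c ≤ 1) {i : Fin 3} {p : R3} (hp : p ∈ bx i) :
    (p ∈ Up c 1 mzS ↔ p.1 ≠ (cr i).1) ∧ (p ∈ Up c (-1) mzS ↔ p.2.1 ≠ (cr i).2) := by
  have hV := (bx_subset hc hc1 i hp).1
  obtain ⟨h1, h2, h3, h4⟩ := hp
  obtain ⟨-, f1, f2, f3, f4, -⟩ := cr_facts i
  obtain ⟨a1, a2⟩ := abs_lt.1 h1
  obtain ⟨a3, a4⟩ := abs_lt.1 h2
  refine ⟨⟨fun h e => h.2 (1 - p.2.2) (by linarith) (Or.inr (Or.inl ?_)), fun h => ⟨hV, ?_⟩⟩,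
    ⟨fun h e => h.2 p.2.2 h3.le (Or.inl ?_), fun h => ⟨hV, ?_⟩⟩⟩
  · rcases le_total p.2.1 (cr i).2 with k | k
    · exact ⟨_, _, f2, e, by push_cast; linarith, by push_cast; linarith, by ring⟩
    · exact ⟨_, _, f1, e, k, by linarith, by ring⟩
  · rintro t ht (⟨a, b, -, -, -, -, k⟩ | ⟨a, b, -, k, -⟩ | ⟨a, b, -, k, -⟩)
    · linarith [show p.2.2 + 1 * t = 0 from k]
    · exact h (near h1 k ▸ k)
    · exact h (near h1 k ▸ k)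
  · rcases le_total p.1 (cr i).1 with k | k
    · exact ⟨_, _, f4, by push_cast; linarith, by push_cast; linarith, e, by ring⟩
    · exact ⟨_, _, f3, k, by linarith, e, by ring⟩
  · rintro t ht (⟨a, b, -, -, -, k, -⟩ | ⟨a, b, -, -, -, -, k⟩ | ⟨a, b, -, -, k, -⟩)
    · exact h (near h2 k ▸ k)
    · linarith [show p.2.2 + -1 * t = 1 from k]
    · exact h (near h2 k ▸ k)

theorem mz_cover {p : R3} (hp : p ∈ Vc c) (h : p ∉ mzS) :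
    p ∈ Up c 1 mzS ∨ p ∈ Up c (-1) mzS ∨ ∃ i n, trl n p ∈ bx i := by
  by_cases h1 : ∀ t : ℝ, 0 ≤ t → (p.1, p.2.1, p.2.2 + 1 * t) ∉ mzS
  · exact Or.inl ⟨hp, h1⟩
  by_cases h2 : ∀ t : ℝ, 0 ≤ t → (p.1, p.2.1, p.2.2 + -1 * t) ∉ mzS
  · exact Or.inr (Or.inl ⟨hp, h2⟩)
  push Not at h1 h2
  obtain ⟨t, ht, h1⟩ := h1
  obtain ⟨t', ht', h2⟩ := h2
  have a1 : 0 < t := ht.lt_of_ne fun e => h (by simpa [← e] using h1)
  have a2 : 0 < t' := ht'.lt_of_ne fun e => h (by simpa [← e] using h2)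
  have a3 : p.2.2 + 1 * t ≤ 1 := (slab_mz.bd _ h1).2.2
  have a4 : 0 ≤ p.2.2 + -1 * t' := (slab_mz.bd _ h2).2.1
  have a5 : ∀ i j, p.1 = (i : ℤ) → p.2.1 = (j : ℤ) → ¬ cn i j := fun i j e1 e2 k =>
    h (Or.inr (Or.inr ⟨i, j, k, e1, e2, by linarith, by linarith⟩))
  rcases h1 with ⟨a, b, -, -, -, -, k⟩ | ⟨i, b, k1, e1, k2, k3, -⟩ | ⟨a, b, k, e1, e2, -⟩
  · linarith [show p.2.2 + 1 * t = 0 from k]
  · rcases h2 with ⟨a, j, k4, k5, k6, e2, -⟩ | ⟨a, b, -, -, -, -, k⟩ | ⟨a, b, k, e1, e2, -⟩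
    · have a6 := a5 i j e1 e2
      dsimp only at e1 e2 k2 k3 k5 k6
      rw [e1] at k5 k6
      rw [e2] at k2 k3
      have b1 : (a ≤ i ∧ i ≤ a + 1) ∧ b ≤ j ∧ j ≤ b + 1 := by
        exact_mod_cast And.intro (And.intro k5 k6) (And.intro k2 k3)
      obtain ⟨m, m1, m2⟩ : ∃ m, i % 4 = (cr m).1 ∧ j = (cr m).2 := by
        simp only [Fin.exists_fin_succ, cr, Matrix.cons_val_zero, Matrix.cons_val_succ,
          IsEmpty.exists_iff, or_false]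
        unfold vE at k1
        unfold hE at k4
        unfold cn at a6
        omega
      have b2 : (i : ℝ) + 4 * (-(i / 4) : ℤ) = (cr m).1 := by
        exact_mod_cast (by omega : i + 4 * (-(i / 4)) = (cr m).1)
      refine Or.inr (Or.inr ⟨m, -(i / 4), ?_, ?_, by simp only [trl]; linarith,
        by simp only [trl]; linarith⟩)
      · simp only [trl, e1, b2, sub_self, abs_zero]
        norm_num
      · simp only [trl, e2, m2, sub_self, abs_zero]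
        norm_num
    · linarith [show p.2.2 + -1 * t' = 1 from k]
    · exact absurd k (a5 a b e1 e2)
  · exact absurd k (a5 a b e1 e2)

theorem Sp_mz (hc : 0 < c) (hc1 : c ≤ 1) : Sp (Pc mzA mzD θ₀ c) =
    (mzΦ θ₀ c '' Up c 1 mzS ∪ mzΦ θ₀ c '' Up c (-1) mzS) ∪ ⋃ i, (mzX θ₀ c i).B := by
  have key : ∀ A, A ⊆ Vc c \ mzS → mzΦ θ₀ c '' A ⊆ Sp (Pc mzA mzD θ₀ c) := by
    rintro A hA _ ⟨p, hp, rfl⟩ (h | h)
    · exact (hA hp).2 ((mz_mem_iff hc hc1 (hA hp).1).1 h)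
    · exact (mzΦ_image_Vc hc).subset ⟨p, (hA hp).1, rfl⟩ h
  have hU : ∀ ε, Up c ε mzS ⊆ Vc c \ mzS := fun ε p hp =>
    ⟨hp.1, by simpa using hp.2 0 le_rfl⟩
  refine Subset.antisymm (fun q hq => ?_) (union_subset (union_subset (key _ (hU _)) (key _ (hU _)))
    (iUnion_subset fun i => key _ (bx_subset hc hc1 i)))
  obtain ⟨p, hp, rfl⟩ := (mzΦ_image_Vc (θ₀ := θ₀) hc).symm.subset fun h => hq (Or.inr h)
  rcases mz_cover hp fun h => hq (Or.inl ((mz_mem_iff hc hc1 hp).2 h)) with h | h | ⟨i, n, h⟩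
  · exact Or.inl (Or.inl ⟨p, h, rfl⟩)
  · exact Or.inl (Or.inr ⟨p, h, rfl⟩)
  · exact Or.inr (mem_iUnion.2 ⟨i, _, h, mzΦ_trl n p⟩)

namespace RMzRange

theorem bx_strip (hc : 0 < c) (hc1 : c ≤ 1) (i : Fin 3) :
    bx i ⊆ Vc c ∩ {p | 0 < p.1 ∧ p.1 < 0 + 4} := fun p hp => by
  have a1 : (1 : ℝ) ≤ (cr i).1 ∧ ((cr i).1 : ℝ) ≤ 2 := by exact_mod_cast (cr_facts i).2.2.2.2.2.1
  obtain ⟨a2, a3⟩ := abs_lt.1 hp.1
  exact ⟨(bx_subset hc hc1 i hp).1, by linarith, by linarith⟩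

theorem open_bx (i : Fin 3) : IsOpen (bx i) :=
  bx_eq i ▸ isOpen_Ioo.prod (isOpen_Ioo.prod isOpen_Ioo)

theorem convex_bx (i : Fin 3) : Convex ℝ (bx i) :=
  bx_eq i ▸ (convex_Ioo _ _).prod ((convex_Ioo _ _).prod (convex_Ioo _ _))

theorem oe_bx (hc : 0 < c) (hc1 : c ≤ 1) (i : Fin 3) : OE (mzΦ θ₀ c) (bx i) :=
  (oe_mzΦ hc 0).mono (open_bx i) (bx_strip hc hc1 i)

theorem half (hc : 0 < c) (hc1 : c ≤ 1) (i : Fin 3) (f : R3 →L[ℝ] ℝ) {I : Set ℝ} (h1 : IsOpen I)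
    (h2 : Convex ℝ I) : IsOpen (mzΦ θ₀ c '' (bx i ∩ f ⁻¹' I)) ∧
      IsPreconnected (mzΦ θ₀ c '' (bx i ∩ f ⁻¹' I)) := by
  have := Cvx.of_normed ((convex_bx i).inter (h2.linear_preimage f.toLinearMap))
    ((oe_bx (θ₀ := θ₀) hc hc1 i).mono ((open_bx i).inter (h1.preimage f.continuous))
      inter_subset_left)
  exact ⟨this.isOpen, this.isPreconnected⟩

theorem split (hc : 0 < c) (hc1 : c ≤ 1) (i : Fin 3) {ε a : ℝ} {f : R3 → ℝ}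
    (h : ∀ p ∈ bx i, p ∈ Up c ε mzS ↔ f p ≠ a) :
    mzΦ θ₀ c '' bx i ∩ mzΦ θ₀ c '' Up c ε mzS =
      mzΦ θ₀ c '' (bx i ∩ {p | f p < a}) ∪ mzΦ θ₀ c '' (bx i ∩ {p | a < f p}) ∧
    Disjoint (mzΦ θ₀ c '' (bx i ∩ {p | f p < a})) (mzΦ θ₀ c '' (bx i ∩ {p | a < f p})) := by
  constructor
  · ext q
    constructor
    · rintro ⟨⟨p, hp, rfl⟩, k⟩
      exact ((h p hp).1 ((mem_image_iff hc (fun _ k => k.1) (fun n _ => slab_mz.trl_Up n)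
        (bx_subset hc hc1 i hp).1).1 k)).lt_or_gt.imp (fun e => ⟨p, ⟨hp, e⟩, rfl⟩)
        fun e => ⟨p, ⟨hp, e⟩, rfl⟩
    · rintro (⟨p, ⟨hp, e⟩, rfl⟩ | ⟨p, ⟨hp, e⟩, rfl⟩)
      · exact ⟨⟨p, hp, rfl⟩, p, (h p hp).2 (ne_of_lt e), rfl⟩
      · exact ⟨⟨p, hp, rfl⟩, p, (h p hp).2 (ne_of_gt e), rfl⟩
  · rw [disjoint_left]
    rintro _ ⟨p, hp, rfl⟩ ⟨q, hq, e⟩
    obtain rfl := (oe_bx hc hc1 i).inj hq.1 hp.1 e
    exact lt_asymm (show f q < a from hp.2) hq.2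

theorem pt (i : Fin 3) {u v : ℝ} (hu : |u| < 1 / 2) (hv : |v| < 1 / 2) :
    (((cr i).1 + u, (cr i).2 + v, 1 / 2) : R3) ∈ bx i :=
  ⟨by simpa using hu, by simpa using hv, by norm_num, by norm_num⟩

end RMzRange

theorem mzX_ok (hc : 0 < c) (hc1 : c ≤ 1) (i : Fin 3) :
    (mzX θ₀ c i).Ok (mzΦ θ₀ c '' Up c 1 mzS) (mzΦ θ₀ c '' Up c (-1) mzS) := by
  have s1 := split (θ₀ := θ₀) hc hc1 i fun p hp => (bx_up hc hc1 hp).1
  have s2 := split (θ₀ := θ₀) hc hc1 i fun p hp => (bx_up hc hc1 hp).2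
  have a1 : |(1 / 4 : ℝ)| < 1 / 2 := by norm_num [abs_of_pos]
  have a2 : |(-(1 / 4) : ℝ)| < 1 / 2 := by rwa [abs_neg]
  refine ⟨Cvx.of_normed (convex_bx i) (oe_bx hc hc1 i),
    half hc hc1 i (.fst ℝ _ _) isOpen_Iio (convex_Iio _),
    half hc hc1 i (.fst ℝ _ _) isOpen_Ioi (convex_Ioi _),
    half hc hc1 i ((ContinuousLinearMap.fst ℝ ℝ ℝ).comp (.snd ℝ _ _)) isOpen_Iio (convex_Iio _),
    half hc hc1 i ((ContinuousLinearMap.fst ℝ ℝ ℝ).comp (.snd ℝ _ _)) isOpen_Ioi (convex_Ioi _),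
    s1.1, s1.2, s2.1, s2.2, ⟨_, ⟨_, ⟨pt i a2 a2, ?_⟩, rfl⟩, _, ⟨pt i a2 a2, ?_⟩, rfl⟩,
    ⟨_, ⟨_, ⟨pt i a2 a1, ?_⟩, rfl⟩, _, ⟨pt i a2 a1, ?_⟩, rfl⟩,
    ⟨_, ⟨_, ⟨pt i a1 a2, ?_⟩, rfl⟩, _, ⟨pt i a1 a2, ?_⟩, rfl⟩,
    ⟨_, ⟨_, ⟨pt i a1 a1, ?_⟩, rfl⟩, _, ⟨pt i a1 a1, ?_⟩, rfl⟩⟩ <;> simp

theorem mzX_disjoint (hc : 0 < c) (hc1 : c ≤ 1) :
    Pairwise fun i j => Disjoint (mzX θ₀ c i).B (mzX θ₀ c j).B := by
  intro i j hij
  rw [disjoint_left]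
  rintro _ ⟨p, hp, rfl⟩ ⟨q, hq, e⟩
  obtain rfl := (oe_mzΦ hc 0).inj (bx_strip hc hc1 j hq) (bx_strip hc hc1 i hp) e
  have h1 : |(((cr i).2 - (cr j).2 : ℤ) : ℝ)| < 1 := by
    obtain ⟨a1, a2⟩ := abs_lt.1 hp.2.1
    obtain ⟨a3, a4⟩ := abs_lt.1 hq.2.1
    push_cast
    exact abs_lt.2 ⟨by linarith, by linarith⟩
  have h2 : ∀ i j : Fin 3, (cr i).2 - (cr j).2 = 0 → i = j := by decide
  exact hij (h2 i j (Int.abs_lt_one_iff.1 (by exact_mod_cast h1)))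

end Pool.Agent.HH
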