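import Pool.Agent.P.MP_c8dc46_gt.HDx
import Pool.Agent.P.MP_c8dc46_gt.TA

/-!
First cohomology of unipotent systems; lifting to the group `Gam`. The proof of `unip_class` is an
induction on the dimension of an invariant subspace that contains the values of the cocycle.
-/

open Set Topology

namespace Pool.Agent.HH

section

variable {F B : Type} [Field F] [AddCommGroup B] [Module F B]

/-- The geometric sums `(1 + L + … + L ^ (k - 1)) c`, `k ∈ ℤ`. -/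
noncomputable def gs (L : (Module.End F B)ˣ) (c : B) : ℤ → B
  | Int.ofNat n => ∑ j ∈ Finset.range n, (L ^ (j : ℤ)).1 c
  | Int.negSucc n => -∑ j ∈ Finset.range (n + 1), (L ^ (-((j : ℤ) + 1))).1 c

namespace RNFU

theorem zpow_apply (L : (Module.End F B)ˣ) (i j : ℤ) (e : B) :
    (L ^ i).1 ((L ^ j).1 e) = (L ^ (i + j)).1 e := by
  rw [zpow_add, Units.val_mul, Module.End.mul_apply]

theorem gs_nat (L : (Module.End F B)ˣ) (c : B) (n : ℕ) :
    gs L c (n : ℤ) = ∑ j ∈ Finset.range n, (L ^ (j : ℤ)).1 c := rfl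

theorem gs_neg (L : (Module.End F B)ˣ) (c : B) (n : ℕ) :
    gs L c (-(n : ℤ)) = -∑ j ∈ Finset.range n, (L ^ (-((j : ℤ) + 1))).1 c := by
  cases n with
  | zero => simp [show gs L c 0 = 0 from rfl]
  | succ n => rfl

theorem gs_succ (L : (Module.End F B)ˣ) (c : B) (k : ℤ) :
    gs L c (k + 1) = gs L c k + (L ^ k).1 c := by
  rcases le_or_gt 0 k with h | h
  · obtain ⟨n, rfl⟩ := Int.eq_ofNat_of_zero_le h
    rw [← Nat.cast_succ, gs_nat, gs_nat, Finset.sum_range_succ]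
  · obtain ⟨n, rfl⟩ : ∃ n : ℕ, k = -((n + 1 : ℕ) : ℤ) := ⟨(-k - 1).toNat, by omega⟩
    rw [show -((n + 1 : ℕ) : ℤ) + 1 = -(n : ℤ) by omega, gs_neg, gs_neg, Finset.sum_range_succ,
      Nat.cast_succ]
    abel

theorem gs_pred (L : (Module.End F B)ˣ) (c : B) (k : ℤ) :
    gs L c (k - 1) = gs L c k - (L ^ (k - 1)).1 c := by
  have h := gs_succ L c (k - 1)
  rw [sub_add_cancel] at h
  rw [h, add_sub_cancel_right]

theorem gs_add_left (L : (Module.End F B)ˣ) (c c' : B) (k : ℤ) :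
    gs L (c + c') k = gs L c k + gs L c' k := by
  cases k with
  | ofNat n => simp only [gs, map_add, Finset.sum_add_distrib]
  | negSucc n => simp only [gs, map_add, Finset.sum_add_distrib, neg_add]

theorem gs_zero_left (L : (Module.End F B)ˣ) (k : ℤ) : gs L 0 k = 0 := by
  cases k <;> simp [gs]

end RNFU

theorem gs_zero (L : (Module.End F B)ˣ) (c : B) : gs L c 0 = 0 := rfl

theorem gs_one (L : (Module.End F B)ˣ) (c : B) : gs L c 1 = c := by
  simpa [gs_zero] using RNFU.gs_succ L c 0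

theorem gs_add (L : (Module.End F B)ˣ) (c : B) (k k' : ℤ) :
    gs L c (k + k') = gs L c k + (L ^ k).1 (gs L c k') := by
  induction k' using Int.induction_on with
  | zero => simp [gs_zero]
  | succ j ih =>
    rw [← add_assoc, RNFU.gs_succ, RNFU.gs_succ, ih, map_add, RNFU.zpow_apply, add_assoc]
  | pred j ih =>
    rw [← add_sub_assoc, RNFU.gs_pred, RNFU.gs_pred, ih, map_sub, RNFU.zpow_apply, add_sub_assoc,
      add_sub_assoc]

namespace RNFU

theorem exists_fun (L : (Module.End F B)ˣ) (hL : IsNilpotent (L.1 - 1)) {M : Submodule F B}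
    (hM : ∀ k : ℤ, ∀ m ∈ M, (L ^ k).1 m ∈ M) (h0 : M ≠ ⊥) :
    ∃ (lam : B →ₗ[F] F) (e : B), e ∈ M ∧ lam e = 1 ∧
      ∀ k : ℤ, ∀ m ∈ M, lam ((L ^ k).1 m) = lam m := by
  obtain ⟨n, hn⟩ := hL
  have h1 : ¬ M ≤ M.map (L.1 - 1) := by
    intro h
    have h2 : ∀ j : ℕ, M ≤ M.map ((L.1 - 1) ^ j) := by
      intro j
      induction j with
      | zero => exact fun m hm => ⟨m, hm, rfl⟩
      | succ j ih =>
        intro m hm
        obtain ⟨m', hm', rfl⟩ := ih hm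
        obtain ⟨m'', hm'', rfl⟩ := h hm'
        exact ⟨m'', hm'', by rw [pow_succ, Module.End.mul_apply]⟩
    have h3 := h2 n
    rw [hn, Submodule.map_zero] at h3
    exact h0 (le_bot_iff.1 h3)
  obtain ⟨e, he, he'⟩ := SetLike.not_le_iff_exists.1 h1
  obtain ⟨f, hf, hf'⟩ := Submodule.exists_dual_map_eq_bot_of_notMem he' inferInstance
  have h2 : ∀ m ∈ M, f (L.1 m) = f m := by
    intro m hm
    have h3 : f ((L.1 - 1) m) ∈ (M.map (L.1 - 1)).map f :=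
      Submodule.mem_map_of_mem (Submodule.mem_map_of_mem hm)
    rw [hf', Submodule.mem_bot, LinearMap.sub_apply, map_sub, sub_eq_zero] at h3
    exact h3
  have h3 : ∀ k : ℤ, ∀ m ∈ M, f ((L ^ (1 + k)).1 m) = f ((L ^ k).1 m) := by
    intro k m hm
    rw [← zpow_apply, zpow_one, h2 _ (hM k m hm)]
  refine ⟨f, (f e)⁻¹ • e, M.smul_mem _ he, by simp [hf], fun k m hm => ?_⟩
  induction k using Int.induction_on with
  | zero => simp
  | succ j ih => rw [add_comm, h3 _ m hm, ih]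
  | pred j ih => rw [← h3 _ m hm, add_sub_cancel, ih]

theorem gs_mem (L : (Module.End F B)ˣ) {M : Submodule F B}
    (hM : ∀ k : ℤ, ∀ m ∈ M, (L ^ k).1 m ∈ M) {lam : B →ₗ[F] F}
    (h : ∀ k : ℤ, ∀ m ∈ M, lam ((L ^ k).1 m) = lam m) {c : B} (hc : c ∈ M) (k : ℤ) :
    gs L c k ∈ M ∧ lam (gs L c k) = k • lam c := by
  induction k using Int.induction_on with
  | zero => simp [gs_zero]
  | succ j ih =>
    rw [gs_succ, map_add, ih.2, h _ c hc, add_smul, one_smul]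
    exact ⟨M.add_mem ih.1 (hM _ c hc), rfl⟩
  | pred j ih =>
    rw [gs_pred, map_sub, ih.2, h _ c hc, sub_smul, one_smul]
    exact ⟨M.sub_mem ih.1 (hM _ c hc), rfl⟩

variable {Y : Type} [TopologicalSpace Y]

omit [TopologicalSpace Y] in
theorem exL_sub {τ : Y → Y → Module.End F B} {b b' : List Y → B} {γ : ℝ → Y} (h : ExL τ b γ)
    (h' : ExL τ b' γ) : ExL τ (b - b') γ := by
  obtain ⟨β, p, h1⟩ := h
  obtain ⟨β', p', h2⟩ := h'
  refine ⟨fun s => β s - β' s, fun s => by simp only [p, p'], fun s => ?_⟩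
  obtain ⟨U, hU, h3⟩ := h1 s
  obtain ⟨V, hV, h4⟩ := h2 s
  refine ⟨U ∩ V, Filter.inter_mem hU hV, fun x hx y hy => ?_⟩
  rw [Pi.sub_apply, h3 x hx.1 y hy.1, h4 x hx.2 y hy.2, map_sub]
  exact sub_sub_sub_comm _ _ _ _

theorem exL_dT (τ : Y → Y → Module.End F B) (φ : List Y → B) {γ : ℝ → Y} {S : Set Y}
    (hγ : IsLoop γ S) : ExL τ (dT τ φ) γ :=
  ⟨fun s => φ [γ s], fun s => by simp only [hγ.2.1],
    fun _ => ⟨univ, Filter.univ_mem, fun _ _ _ _ => dT_two _ _ _ _⟩⟩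

omit [TopologicalSpace Y] in
theorem exL_gs (L : (Module.End F B)ˣ) (c : B) {θ : Y → Y → ℤ} {γ : ℝ → Y}
    (h : IsHolA θ γ 0) : ExL (zt L θ) (c1 fun x y => gs L c (θ x y)) γ := by
  obtain ⟨k, h1, h2⟩ := h
  refine ⟨fun s => (L ^ (-k s)).1 (gs L c (k s)), fun s => by simp only [h2, add_zero],
    fun s => ?_⟩
  obtain ⟨U, hU, h3⟩ := h1 s
  refine ⟨U, hU, fun x hx y hy => ?_⟩
  have h4 := gs_add L c (k x) (k y - k x)
  rw [add_sub_cancel] at h4
  simp only [c1, zt, h3 x hx y hy, zpow_apply]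
  rw [show k y - k x + -k y = -k x by ring, h4, map_add, zpow_apply]
  simp

theorem coc_gs (L : (Module.End F B)ˣ) (c : B) {θ : Y → Y → ℤ} {S : Set Y} (hθ : IsCocA θ S) :
    dT (zt L θ) (c1 fun x y => gs L c (θ x y)) ∈ N F B 3 S := by
  refine mem_N_three.2 fun p hp => ?_
  obtain ⟨U, hU, h1⟩ := hθ p hp
  refine ⟨U, hU, fun x hx y hy z hz => ?_⟩
  rw [dT_three]
  simp only [c1, zt]
  rw [← h1 x hx y hy z hz, gs_add]
  abel

theorem step [FiniteDimensional F B] (L : (Module.End F B)ˣ)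
    (hL : IsNilpotent (L.1 - 1)) {θ : Y → Y → ℤ} {S : Set Y} (hθ : IsCocA θ S) {ι : Type}
    {γ : ι → ℝ → Y} (hγ : ∀ j, IsLoop (γ j) S) (h0 : ∀ j, IsHolA θ (γ j) 0)
    (hf : ∀ x : Y → Y → F, IsCocA x S → (∀ j, IsHolA x (γ j) 0) →
      ∃ c : F, CohA x (fun p q => θ p q • c) S) (n : ℕ) :
    ∀ M : Submodule F B, Module.finrank F M = n → (∀ k : ℤ, ∀ m ∈ M, (L ^ k).1 m ∈ M) →
      ∀ b : List Y → B, (∀ p ∈ S, ∃ U ∈ 𝓝 p, ∀ x ∈ U, ∀ y ∈ U, b [x, y] ∈ M) →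
      dT (zt L θ) b ∈ N F B 3 S → (∀ j, ExL (zt L θ) b (γ j)) →
      ∃ c : B, Exa (zt L θ) 2 S (b - c1 fun x y => gs L c (θ x y)) := by
  induction n using Nat.strong_induction_on with
  | _ n ih =>
  intro M hn hM b hv hb hl
  by_cases hM0 : M = ⊥
  · refine ⟨0, Exa.of_mem_N (mem_N_two.2 fun p hp => ?_)⟩
    obtain ⟨U, hU, h1⟩ := hv p hp
    refine ⟨U, hU, fun x hx y hy => ?_⟩
    have h2 := h1 x hx y hy
    rw [hM0, Submodule.mem_bot] at h2
    simp [c1, gs_zero_left, h2]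
  obtain ⟨lam, e, he, he1, hlam⟩ := exists_fun L hL hM hM0
  obtain ⟨c', g, hg⟩ := hf (fun x y => lam (b [x, y])) (fun p hp => by
      obtain ⟨U, hU, h1⟩ := hv p hp
      obtain ⟨V, hV, h2⟩ := mem_N_three.1 hb p hp
      refine ⟨U ∩ V, Filter.inter_mem hU hV, fun x hx y hy z hz => ?_⟩
      have h3 := congrArg lam (h2 x hx.2 y hy.2 z hz.2)
      rw [dT_three, map_add, map_sub, zt, hlam _ _ (h1 y hy.1 z hz.1), map_zero] at h3
      linear_combination h3) (fun j => by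
      obtain ⟨β, p, h1⟩ := hl j
      obtain ⟨k, h2, h3⟩ := h0 j
      refine ⟨fun s => lam ((L ^ k s).1 (β s)), fun s => ?_, fun s => by simp only [p, h3, add_zero]⟩
      obtain ⟨U₁, hU₁, h4⟩ := h1 s
      obtain ⟨U₂, hU₂, h5⟩ := h2 s
      obtain ⟨U₃, hU₃, h6⟩ := hv _ ((hγ j).2.2 s)
      refine ⟨U₁ ∩ (U₂ ∩ γ j ⁻¹' U₃), Filter.inter_mem hU₁ (Filter.inter_mem hU₂
        ((hγ j).1.continuousAt hU₃)), fun x hx y hy => ?_⟩
      beta_reduce
      rw [← hlam (k x) _ (h6 _ hx.2.2 _ hy.2.2), h4 x hx.1 y hy.1, map_sub, map_sub, zt,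
        h5 x hx.2.1 y hy.2.1, zpow_apply, add_sub_cancel])
  have hlt : M ⊓ LinearMap.ker lam < M := by
    refine lt_of_le_of_ne inf_le_left fun h => ?_
    have h1 : e ∈ M ⊓ LinearMap.ker lam := by rw [h]; exact he
    have h2 : lam e = 0 := h1.2
    rw [he1] at h2
    exact one_ne_zero h2
  obtain ⟨c, hc⟩ := ih _ (hn ▸ Submodule.finrank_lt_finrank_of_lt hlt) (M ⊓ LinearMap.ker lam) rfl
    (fun k m hm => ⟨hM k m hm.1, (hlam k m hm.1).trans hm.2⟩)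
    (b - (c1 fun x y => gs L (c' • e) (θ x y)) - dT (zt L θ) (c0 fun x => g x • e))
    (fun p hp => by
      obtain ⟨U, hU, h1⟩ := hv p hp
      obtain ⟨V, hV, h2⟩ := hg p hp
      refine ⟨U ∩ V, Filter.inter_mem hU hV, fun x hx y hy => ?_⟩
      have h3 : lam (b [x, y]) - θ x y • c' = g y - g x := h2 x hx.2 y hy.2
      have h4 := gs_mem L hM hlam (M.smul_mem c' he) (θ x y)
      have h5 := hM (θ x y) _ (M.smul_mem (g y) he)
      simp only [Pi.sub_apply, dT_two, c0, c1, zt]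
      refine ⟨M.sub_mem (M.sub_mem (h1 x hx.1 y hy.1) h4.1) (M.sub_mem h5 (M.smul_mem _ he)), ?_⟩
      rw [SetLike.mem_coe, LinearMap.mem_ker, map_sub, map_sub, map_sub, h4.2,
        hlam _ _ (M.smul_mem (g y) he)]
      simp only [map_smul, he1, smul_eq_mul, mul_one]
      rw [h3, sub_self])
    (by
      rw [map_sub, map_sub]
      exact Submodule.sub_mem _ (Submodule.sub_mem _ hb (coc_gs L _ hθ))
        (dT_dT_mem_N (hθ.zt L) 3 _))
    (fun j => exL_sub (exL_sub (hl j) (exL_gs L _ (h0 j))) (exL_dT _ _ (hγ j)))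
  obtain ⟨φ, hφ⟩ := hc
  refine ⟨c' • e + c, φ + c0 fun x => g x • e, mem_N_two.2 fun p hp => ?_⟩
  obtain ⟨U, hU, h1⟩ := mem_N_two.1 hφ p hp
  refine ⟨U, hU, fun x hx y hy => ?_⟩
  rw [← h1 x hx y hy, map_add]
  simp only [Pi.sub_apply, Pi.add_apply, c1, gs_add_left]
  abel

end RNFU

theorem unip_class [FiniteDimensional F B] {Y : Type} [TopologicalSpace Y] (L : (Module.End F B)ˣ)
    (hL : IsNilpotent (L.1 - 1)) {θ : Y → Y → ℤ} {S : Set Y} (hθ : IsCocA θ S) {ι : Type}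
    {γ : ι → ℝ → Y} (hγ : ∀ j, IsLoop (γ j) S) (h0 : ∀ j, IsHolA θ (γ j) 0)
    (hf : ∀ x : Y → Y → F, IsCocA x S → (∀ j, IsHolA x (γ j) 0) →
      ∃ c : F, CohA x (fun p q => θ p q • c) S)
    {b : List Y → B} (hb : dT (zt L θ) b ∈ N F B 3 S) (hl : ∀ j, ExL (zt L θ) b (γ j)) :
    ∃ c : B, Exa (zt L θ) 2 S (b - c1 fun x y => gs L c (θ x y)) :=
  RNFU.step L hL hθ hγ h0 hf _ ⊤ rfl (fun _ _ _ => trivial) b
    (fun _ _ => ⟨univ, Filter.univ_mem, fun _ _ _ _ => trivial⟩) hb hl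

theorem isNilpotent_zpow_sub_one (L : (Module.End F B)ˣ) (hL : IsNilpotent (L.1 - 1)) (w : ℤ) :
    IsNilpotent ((L ^ w).1 - 1) := by
  have c : ∀ i j : ℤ, Commute (L ^ i).1 (L ^ j).1 := fun i j =>
    Commute.units_val (Commute.zpow_zpow_self L i j)
  have c' : ∀ i : ℤ, Commute (L ^ i).1 (L.1 - 1) := fun i =>
    Commute.sub_right (by simp) (Commute.one_right _)
  have c'' : ∀ i j : ℤ, Commute ((L ^ i).1 * (L.1 - 1)) ((L ^ j).1 - 1) := fun i j =>
    Commute.sub_right (Commute.mul_left (c i j) (c' j).symm) (Commute.one_right _)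
  have e : ∀ k : ℤ, (L ^ (k + 1)).1 - 1 = (L ^ k).1 * (L.1 - 1) + ((L ^ k).1 - 1) := by
    intro k
    rw [zpow_add_one, Units.val_mul, mul_sub, mul_one, sub_add_sub_cancel]
  induction w using Int.induction_on with
  | zero => simp
  | succ j ih =>
    rw [e]
    exact (c'' j j).isNilpotent_add ((c' j).isNilpotent_mul_left hL) ih
  | pred j ih =>
    have h1 := e (-(j : ℤ) - 1)
    rw [sub_add_cancel, ← sub_eq_iff_eq_add'] at h1
    rw [← h1]
    exact (c'' _ _).symm.isNilpotent_sub ih ((c' _).isNilpotent_mul_left hL)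

end

variable {F A B : Type} [Field F] [StarRing F] [AddCommGroup A] [Module F A] [AddCommGroup B]
  [Module F B] {D : HD F A B} {Y : Type} [TopologicalSpace Y]

theorem Gam.zpow_eq (D : HD F A B) (w : ℤ) (c : B) (j : ℤ) :
    (⟨w, 0, c⟩ : Gam D) ^ j = ⟨w * j, 0, gs (D.tB ^ w) c j⟩ := by
  have e : ∀ k : ℤ, (⟨w * k, 0, gs (D.tB ^ w) c k⟩ : Gam D) * ⟨w, 0, c⟩ =
      ⟨w * (k + 1), 0, gs (D.tB ^ w) c (k + 1)⟩ := by
    intro k
    refine Gam.ext ?_ ?_ ?_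
    · simp [mul_add]
    · simp
    · simp [RNFU.gs_succ, zpow_mul]
  induction j using Int.induction_on with
  | zero => refine Gam.ext ?_ ?_ ?_ <;> simp [gs_zero]
  | succ j ih => rw [zpow_add_one, ih, e]
  | pred j ih => rw [zpow_sub_one, ih, mul_inv_eq_iff_eq_mul, e, sub_add_cancel]

theorem Gam.isCocA_k {f : Y → Y → Gam D} {S : Set Y} (hf : IsCoc f S) :
    IsCocA (fun x y => (f x y).k) S := by
  intro p hp
  obtain ⟨U, hU, h1⟩ := hf p hp
  exact ⟨U, hU, fun x hx y hy z hz => congrArg Gam.k ((h1 x hx).2 y hy z hz)⟩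

theorem Gam.coc_a {f : Y → Y → Gam D} {S : Set Y} (hf : IsCoc f S) :
    dT (zt D.t fun x y => (f x y).k) (c1 fun x y => (f x y).a) ∈ N F A 3 S := by
  refine mem_N_three.2 fun p hp => ?_
  obtain ⟨U, hU, h1⟩ := hf p hp
  refine ⟨U, hU, fun x hx y hy z hz => ?_⟩
  rw [dT_three]
  simp only [c1, zt]
  rw [← (h1 x hx).2 y hy z hz, Gam.mul_a]
  abel

theorem exists_lift (D : HD F A B) {h : Y → Y → ℤ} {X : Set Y} (hh : IsCocA h X) {a : List Y → A}
    (ha : dT (zt D.t h) a ∈ N F A 3 X) (hB : Acyc (zt D.tB h) 3 X) :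
    ∃ b : Y → Y → B, IsCoc (fun x y => (⟨h x y, a [x, y], b x y⟩ : Gam D)) X := by
  have key : ∀ p ∈ X, ∃ U ∈ 𝓝 p, ∀ x ∈ U, ∀ y ∈ U, ∀ z ∈ U, h x z = h x y + h y z ∧
      a [x, z] = a [x, y] + (D.t ^ h x y).1 (a [y, z]) := by
    intro p hp
    obtain ⟨U, hU, h1⟩ := hh p hp
    obtain ⟨V, hV, h2⟩ := mem_N_three.1 ha p hp
    refine ⟨U ∩ V, Filter.inter_mem hU hV, fun x hx y hy z hz =>
      ⟨(h1 x hx.1 y hy.1 z hz.1).symm, ?_⟩⟩
    have h3 := h2 x hx.2 y hy.2 z hz.2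
    rw [dT_three, zt] at h3
    rw [← sub_eq_zero, ← neg_eq_zero, ← h3]
    abel
  obtain ⟨ω, hω⟩ : ∃ ω : List Y → B, ∀ x y z,
      ω [x, y, z] = D.β (a [x, y]) ((D.t ^ h x y).1 (a [y, z])) :=
    ⟨cup (biA D.β) (zt D.t h) 1 a a, fun _ _ _ => rfl⟩
  obtain ⟨φ, hφ⟩ := hB ω (by
    intro p hp
    obtain ⟨U, hU, h1⟩ := key p hp
    refine ⟨U, hU, fun l hl hm => ?_⟩
    match l, hl with
    | [x, y, z, w], _ =>
      have hx := hm x (by simp)
      have hy := hm y (by simp)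
      have hz := hm z (by simp)
      have hw := hm w (by simp)
      rw [dT_four, hω, hω, hω, hω, zt, ← D.eqv, (h1 x hx y hy z hz).1, (h1 x hx y hy z hz).2,
        (h1 y hy z hz w hw).2]
      simp only [map_add, LinearMap.add_apply, RNFU.zpow_apply]
      abel)
  refine ⟨fun x y => -φ [x, y], fun p hp => ?_⟩
  obtain ⟨U, hU, h1⟩ := key p hp
  obtain ⟨V, hV, h2⟩ := mem_N_three.1 hφ p hp
  have h3 : ∀ x ∈ U ∩ V, ∀ y ∈ U ∩ V, ∀ z ∈ U ∩ V,
      (⟨h x y, a [x, y], -φ [x, y]⟩ : Gam D) * ⟨h y z, a [y, z], -φ [y, z]⟩ =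
        ⟨h x z, a [x, z], -φ [x, z]⟩ := by
    intro x hx y hy z hz
    have h4 := h2 x hx.2 y hy.2 z hz.2
    rw [Pi.sub_apply, dT_three, hω, zt, sub_eq_zero] at h4
    refine Gam.ext (h1 x hx.1 y hy.1 z hz.1).1.symm (h1 x hx.1 y hy.1 z hz.1).2.symm ?_
    simp only [Gam.mul_b, h4, map_neg]
    abel
  exact ⟨U ∩ V, Filter.inter_mem hU hV, fun x hx =>
    ⟨mul_eq_left.1 (h3 x hx x hx x hx), h3 x hx⟩⟩

end Pool.Agent.HH
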