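import Pool.Agent.P.MP_c8dc46_gt.Box
import Pool.Agent.P.MP_c8dc46_gt.Cup
import Pool.Agent.P.MP_c8dc46_gt.MVc

/-!
ROW C3. Poincare duality on open subsets of `ℝ⁴` with finite dimensional local coefficients.
The cone of the duality map is packaged as an `MV` system; it is exact on boxes, on unions and on
disjoint unions, hence on all open subsets by `boot`.
-/

open Set Topology

namespace Pool.Agent.HH

variable {F E E' : Type} [Field F] [AddCommGroup E] [Module F E] [AddCommGroup E'] [Module F E']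

namespace RPD4

theorem exists_fun {V W : Type} [AddCommGroup V] [Module F V] [AddCommGroup W] [Module F W]
    (A : Submodule F V) (d : V →ₗ[F] W) (B : Submodule F W) (f : V →ₗ[F] F)
    (h : ∀ c ∈ A, d c ∈ B → f c = 0) :
    ∃ g : W →ₗ[F] F, (∀ b ∈ B, g b = 0) ∧ ∀ c ∈ A, g (d c) = f c := by
  have key : (f ∘ₗ A.subtype) ∈ LinearMap.range (B.mkQ ∘ₗ d ∘ₗ A.subtype).dualMap := by
    rw [LinearMap.range_dualMap_eq_dualAnnihilator_ker, Submodule.mem_dualAnnihilator]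
    intro w hw
    refine h w.1 w.2 ?_
    simpa using hw
  obtain ⟨g, hg⟩ := key
  refine ⟨g ∘ₗ B.mkQ, fun b hb => ?_, fun c hc => ?_⟩
  · have : B.mkQ b = 0 := by simpa using hb
    simp only [LinearMap.comp_apply, this, map_zero]
  · have := LinearMap.congr_fun hg ⟨c, hc⟩
    simpa using this

theorem mem_N_univ {n : ℕ} {U K : Set R4} (hK : K ⊆ U) {φ : List R4 → E} (h₁ : φ ∈ N F E n U)
    (h₂ : φ ∈ N F E n Kᶜ) : φ ∈ N F E n univ := by
  have : (univ : Set R4) ⊆ U ∪ Kᶜ := fun p _ => by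
    by_cases hp : p ∈ K
    · exact Or.inl (hK hp)
    · exact Or.inr hp
  exact N_mono this (mem_N_union.2 ⟨h₁, h₂⟩)

theorem N_le_Cc (j : ℕ) (U : Set R4) : N F E j univ ≤ Cc F E j U := fun _ hc =>
  ⟨∅, isCompact_empty, empty_subset _, N_mono (subset_univ _) hc⟩

theorem Cc_empty (j : ℕ) : Cc F E j (∅ : Set R4) ≤ N F E j univ := by
  rintro c ⟨K, -, hK, hc⟩
  rw [subset_empty_iff.1 hK, compl_empty] at hc
  exact hc

theorem Cc_zero (U : Set R4) : Cc F E 0 U ≤ N F E 0 univ := by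
  rintro c ⟨K, hK, -, hc⟩
  obtain ⟨p, hp⟩ := (ne_univ_iff_exists_notMem K).1 hK.ne_univ
  obtain ⟨W, -, hW⟩ := hc p hp
  intro q _
  refine ⟨univ, Filter.univ_mem, fun l hl _ => ?_⟩
  obtain rfl := List.length_eq_zero_iff.1 hl
  exact hW [] rfl (by simp)

theorem Cc_union {j : ℕ} {U V : Set R4} (hU : IsOpen U) (hV : IsOpen V) :
    Cc F E j (U ∪ V) ≤ Cc F E j U ⊔ Cc F E j V := by
  rcases Nat.eq_zero_or_pos j with rfl | hj
  · exact ((Cc_zero _).trans (N_le_Cc 0 U)).trans le_sup_left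
  rintro c ⟨K, hK, hKU, hc⟩
  obtain ⟨K₁, K₂, h₁, h₂, s₁, s₂, rfl⟩ := hK.binary_compact_cover hU hV hKU
  obtain ⟨L, hL, hKL, hLU⟩ := exists_compact_between h₁ hU s₁
  have e : c = cut F E L c + (c - cut F E L c) := by abel
  rw [e]
  refine Submodule.add_mem_sup ⟨L, hL, hLU, ?_⟩ ⟨K₂, h₂, s₂, ?_⟩
  · have := cut_mem_N_compl (R := F) L j c
    rwa [hL.isClosed.closure_eq] at this
  · have a := sub_cut_mem_N (R := F) L hj c
    have b : c - cut F E L c ∈ N F E j (K₁ ∪ K₂)ᶜ := Submodule.sub_mem _ hc (cut_mem_N L hc)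
    refine N_mono (fun p hp => ?_) (mem_N_union.2 ⟨a, b⟩)
    by_cases h : p ∈ K₁
    · exact Or.inl (hKL h)
    · exact Or.inr fun h' => h'.elim h hp

theorem Cc_inf {j : ℕ} {U V : Set R4} : Cc F E j U ⊓ Cc F E j V ≤ Cc F E j (U ∩ V) := by
  rintro c ⟨⟨K, hK, hKU, hc⟩, ⟨K', hK', hKV, hc'⟩⟩
  refine ⟨K ∩ K', hK.inter hK', inter_subset_inter hKU hKV, ?_⟩
  rw [compl_inter]
  exact mem_N_union.2 ⟨hc, hc'⟩

theorem ga_mem_Cc {E₂ : Type} [AddCommGroup E₂] [Module F E₂] (G : R4 → E →ₗ[F] E₂) {j : ℕ}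
    {U : Set R4} {c : List R4 → E} (hc : c ∈ Cc F E j U) : ga G c ∈ Cc F E₂ j U := by
  obtain ⟨K, hK, hKU, hc⟩ := hc
  exact ⟨K, hK, hKU, ga_mem_N G hc⟩

theorem ga_dT_univ {G : R4 → E →ₗ[F] E} {σ σ' : R4 → R4 → Module.End F E} {U : Set R4}
    (h : LocEq (fun x y => G x ∘ₗ σ x y) (fun x y => σ' x y ∘ₗ G y) U) {j : ℕ}
    {c : List R4 → E} (hc : c ∈ Cc F E j U) :
    ga G (dT σ c) - dT σ' (ga G c) ∈ N F E (j + 1) univ := by
  obtain ⟨K, -, hKU, hc⟩ := hc
  exact mem_N_univ hKU (ga_dT_mem_N h _ c)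
    (Submodule.sub_mem _ (ga_mem_N G (dT_mem_N σ hc)) (dT_mem_N σ' (ga_mem_N G hc)))

theorem ddc {τ : R4 → R4 → Module.End F E} {X : Set R4} (hτ : IsCoc τ X) {j : ℕ}
    {c : List R4 → E} (hc : c ∈ Cc F E j X) : dT τ (dT τ c) ∈ N F E (j + 1 + 1) univ := by
  obtain ⟨K, -, hKU, hc⟩ := hc
  exact mem_N_univ hKU (dT_dT_mem_N hτ _ c) (dT_mem_N τ (dT_mem_N τ hc))

/-- Signs. -/
def eps (F : Type) [Field F] : ℕ → F
  | 1 => 1
  | 2 => 1
  | 3 => -1
  | 4 => -1
  | 5 => 1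
  | _ => 0

theorem eps_big {j : ℕ} (h : 6 ≤ j) : eps F j = 0 := by
  obtain ⟨k, rfl⟩ := Nat.exists_eq_add_of_le' h
  rfl

/-- The duality pairing. -/
noncomputable def psi (β : E' →ₗ[F] E →ₗ[F] F) (τ : R4 → R4 → Module.End F E) (j : ℕ) :
    (List R4 → E') →ₗ[F] (List R4 → E) →ₗ[F] F :=
  LinearMap.mk₂ F (fun y c => eps F j * I4 F (cup (biA β) τ (5 - j) y c))
    (fun y y' c => by rw [cup_add_left, map_add, mul_add])
    (fun a y c => by
      have : cup (biA β) τ (5 - j) (a • y) c = a • cup (biA β) τ (5 - j) y c := by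
        funext l
        simp [cup, biA]
      rw [this, map_smul, smul_eq_mul, smul_eq_mul]
      ring)
    (fun y c c' => by rw [cup_add_right, map_add, mul_add])
    (fun a y c => by
      have : cup (biA β) τ (5 - j) y (a • c) = a • cup (biA β) τ (5 - j) y c := by
        funext l
        simp [cup, biA]
      rw [this, map_smul, smul_eq_mul, smul_eq_mul]
      ring)

theorem psi_apply (β : E' →ₗ[F] E →ₗ[F] F) (τ : R4 → R4 → Module.End F E) (j : ℕ)
    (y : List R4 → E') (c : List R4 → E) :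
    psi β τ j y c = eps F j * I4 F (cup (biA β) τ (5 - j) y c) := rfl

theorem psi_right (β : E' →ₗ[F] E →ₗ[F] F) (τ : R4 → R4 → Module.End F E) {j : ℕ}
    (y : List R4 → E') {c : List R4 → E} (hc : c ∈ N F E j univ) : psi β τ j y c = 0 := by
  rw [psi_apply]
  rcases le_or_gt 6 j with h | h
  · rw [eps_big h, zero_mul]
  · have := cup_mem_N_right (R₃ := F) (biA β) τ (5 - j) y hc
    rw [show 5 - j + j = 5 by omega] at this
    rw [(isI_I4 F).1 _ this, mul_zero]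

theorem psi_left (β : E' →ₗ[F] E →ₗ[F] F) (τ : R4 → R4 → Module.End F E) {j : ℕ} {U : Set R4}
    {y : List R4 → E'} (hy : 1 ≤ j → j ≤ 5 → y ∈ N F E' (6 - j) U) {c : List R4 → E}
    (hc : c ∈ Cc F E j U) : psi β τ j y c = 0 := by
  rw [psi_apply]
  rcases le_or_gt 6 j with h | h
  · rw [eps_big h, zero_mul]
  rcases Nat.eq_zero_or_pos j with rfl | hj
  · exact zero_mul _
  obtain ⟨K, -, hKU, hc⟩ := hc
  have h₁ := cup_mem_N_right (R₃ := F) (biA β) τ (5 - j) y hc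
  rw [show 5 - j + j = 5 by omega] at h₁
  have hy' := hy hj (by omega)
  rw [show 6 - j = 5 - j + 1 by omega] at hy'
  have h₂ := cup_mem_N_left (R₃ := F) (biA β) τ (n := 5) (by omega) hy' c
  rw [(isI_I4 F).1 _ (mem_N_univ hKU h₂ h₁), mul_zero]

theorem stokes {X : Set R4} {τ : R4 → R4 → Module.End F E} {τ' : R4 → R4 → Module.End F E'}
    (hτ : IsCoc τ X) (hτ' : IsCoc τ' X) (β : E' →ₗ[F] E →ₗ[F] F)
    (hinv : ∀ x y e' e, β (τ' x y e') (τ x y e) = β e' e) {j : ℕ} (y : List R4 → E')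
    {c : List R4 → E} (hc : c ∈ Cc F E j X) :
    psi β τ j (dT τ' y) c = psi β τ (j + 1) y (dT τ c) := by
  rcases Nat.eq_zero_or_pos j with rfl | hj
  · rw [psi_right β τ y (dT_mem_N_one τ _ c), psi_apply]
    exact zero_mul _
  rcases le_or_gt 5 j with h5 | h5
  · rw [psi_apply β τ (j + 1), eps_big (j := j + 1) (by omega), zero_mul]
    refine psi_left β τ (fun _ h => ?_) hc
    rw [show 6 - j = 1 by omega]
    exact dT_mem_N_one _ _ _
  obtain ⟨K, hK, hKU, hc⟩ := hc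
  have l₁ := cup_leibniz (R₃ := F) (biA β) (τ₁ := τ') (τ₂ := τ) (τ₃ := triv F F R4)
    (fun x y e₁ e₂ => hinv x y e₁ e₂) hτ' hτ (isCoc_triv X) (p := 4 - j) (n := 5) (by omega) y c
  have a₁ := cup_mem_N_right (R₃ := F) (biA β) τ (4 - j) y hc
  rw [show 4 - j + j = 4 by omega] at a₁
  have a₂ := cup_mem_N_right (R₃ := F) (biA β) τ (4 - j + 1) (dT τ' y) hc
  rw [show 4 - j + 1 + j = 5 by omega] at a₂
  have a₃ := cup_mem_N_right (R₃ := F) (biA β) τ (4 - j) y (dT_mem_N τ hc)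
  rw [show 4 - j + (j + 1) = 5 by omega] at a₃
  have l₂ := mem_N_univ hKU l₁ (Submodule.sub_mem _ (Submodule.sub_mem _ (dT_mem_N _ a₁) a₂)
    (zsmul_mem a₃ _))
  have l₃ := (isI_I4 F).1 _ l₂
  rw [map_sub, map_sub, (isI_I4 F).2.1 _ ⟨K, hK, subset_univ _, a₁⟩, map_zsmul] at l₃
  rw [psi_apply, psi_apply, show 5 - j = 4 - j + 1 by omega, show 5 - (j + 1) = 4 - j by omega]
  have l₄ : I4 F (cup (biA β) τ (4 - j + 1) (dT τ' y) c) =
      -(((-1 : ℤ) ^ (4 - j)) • I4 F (cup (biA β) τ (4 - j) y (dT τ c))) := by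
    linear_combination -l₃
  rw [l₄]
  interval_cases j <;> simp [eps]

/-- Families of functionals that kill the locally trivial cochains. -/
def DD (F E : Type) [Field F] [AddCommGroup E] [Module F E] :
    Submodule F (ℕ → (List R4 → E) →ₗ[F] F) where
  carrier := {f | ∀ j, ∀ c ∈ N F E j univ, f j c = 0}
  add_mem' := by
    intro f g hf hg j c hc
    simp [hf j c hc, hg j c hc]
  zero_mem' := fun _ _ _ => rfl
  smul_mem' := by
    intro a f hf j c hc
    simp [hf j c hc]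

/-- Families whose `j`-th member kills the cochains with compact support in `V`. -/
def ann (F E : Type) [Field F] [AddCommGroup E] [Module F E] (j : ℕ) (V : Set R4) :
    Submodule F (DD F E) where
  carrier := {f | ∀ c ∈ Cc F E j V, f.1 j c = 0}
  add_mem' := by
    intro f g hf hg c hc
    simp [hf c hc, hg c hc]
  zero_mem' := fun _ _ => rfl
  smul_mem' := by
    intro a f hf c hc
    simp [hf c hc]

/-- A family with one member. -/
def sg (j : ℕ) (φ : (List R4 → E) →ₗ[F] F) (h : ∀ c ∈ N F E j univ, φ c = 0) : DD F E :=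
  ⟨Pi.single j φ, fun k c hc => by
    by_cases hk : k = j
    · subst hk
      simpa using h c hc
    · simp [Pi.single_eq_of_ne hk]⟩

theorem sg_apply (j : ℕ) (φ : (List R4 → E) →ₗ[F] F) (h : ∀ c ∈ N F E j univ, φ c = 0) :
    (sg j φ h).1 j = φ := by
  simp [sg]

/-- The differential of the cone. -/
noncomputable def dP (β : E' →ₗ[F] E →ₗ[F] F) (τ : R4 → R4 → Module.End F E)
    (τ' : R4 → R4 → Module.End F E') :
    ((List R4 → E') × DD F E) →ₗ[F] ((List R4 → E') × DD F E) where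
  toFun x := (dT τ' x.1, ⟨fun j => psi β τ j x.1 - x.2.1 (j + 1) ∘ₗ dT τ, fun j c hc => by
    simp [psi_right β τ x.1 hc, x.2.2 (j + 1) _ (dT_mem_N τ hc)]⟩)
  map_add' x x' := by
    refine Prod.ext (map_add _ _ _) (Subtype.ext ?_)
    funext j
    ext1 c
    simp
    ring
  map_smul' a x := by
    refine Prod.ext (map_smul _ _ _) (Subtype.ext ?_)
    funext j
    ext1 c
    simp
    ring

theorem dP_fst (β : E' →ₗ[F] E →ₗ[F] F) (τ : R4 → R4 → Module.End F E)
    (τ' : R4 → R4 → Module.End F E') (x : (List R4 → E') × DD F E) :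
    (dP β τ τ' x).1 = dT τ' x.1 := rfl

theorem dP_snd (β : E' →ₗ[F] E →ₗ[F] F) (τ : R4 → R4 → Module.End F E)
    (τ' : R4 → R4 → Module.End F E') (x : (List R4 → E') × DD F E) (j : ℕ) (c : List R4 → E) :
    (dP β τ τ' x).2.1 j c = psi β τ j x.1 c - x.2.1 (j + 1) (dT τ c) := rfl

/-- The index of the functional in degree `n`. -/
def J (n : ℤ) : ℕ := (7 - n).toNat

theorem NZ_to {n : ℤ} {U : Set R4} {y : List R4 → E'} (hy : y ∈ NZ F E' n U)
    (h1 : 1 ≤ J (n + 1)) (h5 : J (n + 1) ≤ 5) : y ∈ N F E' (6 - J (n + 1)) U := by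
  have : n = ((6 - J (n + 1) : ℕ) : ℤ) := by
    unfold J at *
    omega
  rw [← NZ_natCast (by omega), ← this]
  exact hy

theorem ann_step (τ : R4 → R4 → Module.End F E) {n : ℤ} {V : Set R4} {f : DD F E}
    (hf : f ∈ ann F E (J n) V) {c : List R4 → E} (hc : c ∈ Cc F E (J (n + 1)) V) :
    f.1 (J (n + 1) + 1) (dT τ c) = 0 := by
  rcases le_or_gt n 6 with h | h
  · have e : J (n + 1) + 1 = J n := by
      unfold J
      omega
    have := dT_mem_Cc τ hc
    rw [e] at this ⊢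
    exact hf _ this
  · have e : J (n + 1) = 0 := by
      unfold J
      omega
    rw [e]
    exact f.2 _ _ (dT_mem_N_one _ _ _)

/-- The cone of the duality map. -/
noncomputable def cone {X : Set R4} (hX : IsOpen X) {τ : R4 → R4 → Module.End F E}
    {τ' : R4 → R4 → Module.End F E'} (hτ : IsCoc τ X) (hτ' : IsCoc τ' X) (β : E' →ₗ[F] E →ₗ[F] F)
    (hinv : ∀ x y e' e, β (τ' x y e') (τ x y e) = β e' e) :
    MV F ((List R4 → E') × DD F E) R4 where
  d := dP β τ τ'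
  N n U := (NZ F E' n (U ∩ X)).prod (ann F E (J n) (U ∩ X))
  mono n U U' h := Submodule.prod_mono ((mvC τ' X hX hτ').mono n U U' h)
    fun f hf c hc => hf c (Cc_mono (inter_subset_inter_left X h) hc)
  dN n U x hx := by
    refine ⟨(mvC τ' X hX hτ').dN n U x.1 hx.1, fun c hc => ?_⟩
    rw [dP_snd, psi_left β τ (NZ_to hx.1) hc, ann_step τ hx.2 hc, sub_zero]
  dd n U x := by
    refine ⟨(mvC τ' X hX hτ').dd n U x.1, fun c hc => ?_⟩
    have hc' := Cc_mono inter_subset_right hc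
    rw [dP_snd, dP_snd, dP_fst, stokes hτ hτ' β hinv x.1 hc', x.2.2 _ _ (ddc hτ hc')]
    ring
  union n U U' hU hU' := by
    rintro x ⟨hx, hx'⟩
    refine ⟨(mvC τ' X hX hτ').union n U U' hU hU' ⟨hx.1, hx'.1⟩, fun c hc => ?_⟩
    rw [union_inter_distrib_right] at hc
    obtain ⟨a, ha, b, hb, rfl⟩ :=
      Submodule.mem_sup.1 (Cc_union (hU.inter hX) (hU'.inter hX) hc)
    rw [map_add, hx.2 a ha, hx'.2 b hb, add_zero]
  inter n U U' hU hU' := by
    rintro ⟨y, f⟩ ⟨hy, hf⟩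
    obtain ⟨y₁, h₁, y₂, h₂, rfl⟩ :=
      Submodule.mem_sup.1 ((mvC τ' X hX hτ').inter n U U' hU hU' hy)
    have : f.1 (J n) ∈ (Cc F E (J n) (U ∩ X) ⊓ Cc F E (J n) (U' ∩ X)).dualAnnihilator := by
      rw [Submodule.mem_dualAnnihilator]
      intro c hc
      refine hf c ?_
      rw [inter_inter_distrib_right]
      exact Cc_inf hc
    rw [Subspace.dualAnnihilator_inf_eq] at this
    obtain ⟨a, ha, b, hb, hab⟩ := Submodule.mem_sup.1 this
    rw [Submodule.mem_dualAnnihilator] at ha hb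
    have ha' : ∀ c ∈ N F E (J n) univ, a c = 0 := fun c hc => ha c (N_le_Cc _ _ hc)
    refine Submodule.mem_sup.2 ⟨(y₁, sg (J n) a ha'), ⟨h₁, fun c hc => ?_⟩,
      (y₂, f - sg (J n) a ha'), ⟨h₂, fun c hc => ?_⟩, Prod.ext rfl ?_⟩
    · change (sg (J n) a ha').1 (J n) c = 0
      rw [sg_apply]
      exact ha c hc
    · change f.1 (J n) c - (sg (J n) a ha').1 (J n) c = 0
      rw [sg_apply, ← hab, LinearMap.add_apply, hb c hc]
      ring
    · change sg (J n) a ha' + (f - sg (J n) a ha') = f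
      abel
  empty n := by
    rw [eq_top_iff]
    intro x _
    refine ⟨?_, fun c hc => ?_⟩
    · have := (mvC τ' X hX hτ').empty n
      change NZ F E' n (∅ ∩ X) = ⊤ at this
      rw [this]
      trivial
    · rw [empty_inter] at hc
      exact x.2.2 _ _ (Cc_empty _ hc)

section Cone

variable {X : Set R4} (hX : IsOpen X) {τ : R4 → R4 → Module.End F E}
  {τ' : R4 → R4 → Module.End F E'} (hτ : IsCoc τ X) (hτ' : IsCoc τ' X) (β : E' →ₗ[F] E →ₗ[F] F)
  (hinv : ∀ x y e' e, β (τ' x y e') (τ x y e) = β e' e)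

theorem mem_Z {n : ℤ} {U : Set R4} (hU : U ⊆ X) {x : (List R4 → E') × DD F E} :
    x ∈ (cone hX hτ hτ' β hinv).Z n U ↔ dT τ' x.1 ∈ NZ F E' (n + 1) U ∧
      ∀ c ∈ Cc F E (J (n + 1)) U, psi β τ (J (n + 1)) x.1 c = x.2.1 (J (n + 1) + 1) (dT τ c) := by
  change dP β τ τ' x ∈ (NZ F E' (n + 1) (U ∩ X)).prod (ann F E (J (n + 1)) (U ∩ X)) ↔ _
  rw [inter_eq_left.2 hU]
  refine and_congr Iff.rfl (forall₂_congr fun c _ => ?_)
  rw [dP_snd, sub_eq_zero]

theorem of_Bd {n : ℤ} {U : Set R4} (hU : U ⊆ X) {x : (List R4 → E') × DD F E}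
    (h : x ∈ (cone hX hτ hτ' β hinv).Bd n U) : ∃ z, x.1 - dT τ' z ∈ NZ F E' n U ∧
      ∀ c ∈ Cc F E (J n) U, dT τ c ∈ N F E (J n + 1) univ →
        x.2.1 (J n) c = psi β τ (J n) z c := by
  obtain ⟨_, ⟨w, rfl⟩, v, hv, rfl⟩ := Submodule.mem_sup.1 h
  change v ∈ (NZ F E' n (U ∩ X)).prod (ann F E (J n) (U ∩ X)) at hv
  rw [inter_eq_left.2 hU] at hv
  refine ⟨w.1, ?_, fun c hc hd => ?_⟩
  · change dT τ' w.1 + v.1 - dT τ' w.1 ∈ _
    rw [add_sub_cancel_left]
    exact hv.1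
  · change (dP β τ τ' w).2.1 (J n) c + v.2.1 (J n) c = _
    rw [dP_snd, hv.2 c hc, w.2.2 _ _ hd]
    ring

theorem to_Bd {n : ℤ} {U : Set R4} (hU : U ⊆ X) {x : (List R4 → E') × DD F E} {z : List R4 → E'}
    (h₁ : x.1 - dT τ' z ∈ NZ F E' n U)
    (h₂ : ∀ c ∈ Cc F E (J n) U, dT τ c ∈ N F E (J n + 1) univ →
      x.2.1 (J n) c = psi β τ (J n) z c) : x ∈ (cone hX hτ hτ' β hinv).Bd n U := by
  obtain ⟨g, hg, hg'⟩ := exists_fun (Cc F E (J n) U) (dT τ) (N F E (J n + 1) univ)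
    (psi β τ (J n) z - x.2.1 (J n)) fun c hc hd => by
      rw [LinearMap.sub_apply, h₂ c hc hd, sub_self]
  refine Submodule.mem_sup.2 ⟨dP β τ τ' (z, sg _ g hg), ⟨_, rfl⟩, x - dP β τ τ' (z, sg _ g hg),
    ?_, by abel⟩
  change _ ∈ (NZ F E' n (U ∩ X)).prod (ann F E (J n) (U ∩ X))
  rw [inter_eq_left.2 hU]
  refine ⟨h₁, fun c hc => ?_⟩
  change x.2.1 (J n) c - (dP β τ τ' (z, sg _ g hg)).2.1 (J n) c = 0
  rw [dP_snd, sg_apply, hg' c hc, LinearMap.sub_apply]
  ring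

end Cone

section Gauge

variable {τ : R4 → R4 → Module.End F E} {U : Set R4} {g : R4 → (Module.End F E)ˣ}

theorem loc₁ (hg : LocEq τ (fun x y => (((g x)⁻¹ * g y : (Module.End F E)ˣ) : Module.End F E)) U) :
    LocEq (fun x y => (g x : Module.End F E) ∘ₗ τ x y)
      (fun x y => triv F E R4 x y ∘ₗ (g y : Module.End F E)) U := by
  intro p hp
  obtain ⟨W, hW, h⟩ := hg p hp
  refine ⟨W, hW, fun x hx y hy => ?_⟩
  change (g x : Module.End F E) * τ x y = 1 * (g y : Module.End F E)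
  rw [h x hx y hy, one_mul, ← Units.val_mul, mul_inv_cancel_left]

theorem loc₂ (hg : LocEq τ (fun x y => (((g x)⁻¹ * g y : (Module.End F E)ˣ) : Module.End F E)) U) :
    LocEq (fun x y => (((g x)⁻¹ : (Module.End F E)ˣ) : Module.End F E) ∘ₗ triv F E R4 x y)
      (fun x y => τ x y ∘ₗ (((g y)⁻¹ : (Module.End F E)ˣ) : Module.End F E)) U := by
  intro p hp
  obtain ⟨W, hW, h⟩ := hg p hp
  refine ⟨W, hW, fun x hx y hy => ?_⟩
  change (((g x)⁻¹ : (Module.End F E)ˣ) : Module.End F E) * 1 =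
    τ x y * (((g y)⁻¹ : (Module.End F E)ˣ) : Module.End F E)
  rw [h x hx y hy, mul_one, ← Units.val_mul, mul_inv_cancel_right]

/-- The inverse gauge transformation. -/
abbrev gi (g : R4 → (Module.End F E)ˣ) : (List R4 → E) →ₗ[F] (List R4 → E) :=
  ga fun x => (((g x)⁻¹ : (Module.End F E)ˣ) : Module.End F E)

/-- The gauge transformation. -/
abbrev gg (g : R4 → (Module.End F E)ˣ) : (List R4 → E) →ₗ[F] (List R4 → E) :=
  ga fun x => (g x : Module.End F E)

theorem sub_gi_gg (g : R4 → (Module.End F E)ˣ) {n : ℕ} (hn : 1 ≤ n) (c : List R4 → E) :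
    c - gi g (gg g c) ∈ N F E n univ := by
  intro p _
  refine ⟨univ, Filter.univ_mem, fun l hl _ => ?_⟩
  match l with
  | [] => simp at hl; omega
  | x :: l =>
    change c (x :: l) - ((((g x)⁻¹ : (Module.End F E)ˣ) : Module.End F E) *
      (g x : Module.End F E)) (c (x :: l)) = 0
    rw [Units.inv_mul]
    simp

theorem gg_closed
    (hg : LocEq τ (fun x y => (((g x)⁻¹ * g y : (Module.End F E)ˣ) : Module.End F E)) U)
    {n : ℕ} {c : List R4 → E} (hc : c ∈ Cc F E n U) (hd : dT τ c ∈ N F E (n + 1) univ) :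
    dT (triv F E R4) (gg g c) ∈ N F E (n + 1) univ := by
  have h₁ := ga_dT_univ (loc₁ hg) hc
  have h₂ : gg g (dT τ c) ∈ N F E (n + 1) univ := ga_mem_N _ hd
  have := Submodule.sub_mem _ h₂ h₁
  rwa [sub_sub_cancel] at this

theorem tw_zero (hU : IsBox U)
    (hg : LocEq τ (fun x y => (((g x)⁻¹ * g y : (Module.End F E)ˣ) : Module.End F E)) U)
    {n : ℕ} (h5 : n + 1 ≠ 5) {c : List R4 → E} (hc : c ∈ Cc F E (n + 1) U)
    (hd : dT τ c ∈ N F E (n + 1 + 1) univ) :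
    ∃ c' ∈ Cc F E n U, c - dT τ c' ∈ N F E (n + 1) univ := by
  obtain ⟨b, hb, h⟩ := box_c_zero hU (by omega) h5 (ga_mem_Cc _ hc) (gg_closed hg hc hd)
  rw [Nat.add_sub_cancel] at hb
  refine ⟨gi g b, ga_mem_Cc _ hb, ?_⟩
  have h₁ := sub_gi_gg g (n := n + 1) (by omega) c
  have h₂ : gi g (gg g c - dT (triv F E R4) b) ∈ N F E (n + 1) univ := ga_mem_N _ h
  have h₃ : gi g (dT (triv F E R4) b) - dT τ (gi g b) ∈ N F E (n + 1) univ :=
    ga_dT_univ (loc₂ hg) hb
  have := Submodule.add_mem _ (Submodule.add_mem _ h₁ h₂) h₃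
  rw [map_sub] at this
  convert this using 1
  abel

theorem tw_top (hU : IsBox U) {p : R4} (hp : p ∈ U)
    (hg : LocEq τ (fun x y => (((g x)⁻¹ * g y : (Module.End F E)ˣ) : Module.End F E)) U)
    {c : List R4 → E} (hc : c ∈ Cc F E 5 U) (hd : dT τ c ∈ N F E 6 univ) :
    ∃ e : E, ∃ c' ∈ Cc F E 4 U, c - gi g (omE F p e) - dT τ c' ∈ N F E 5 univ := by
  obtain ⟨e, b, hb, h⟩ := box_c_top hU hp (ga_mem_Cc _ hc) (gg_closed hg hc hd)
  refine ⟨e, gi g b, ga_mem_Cc _ hb, ?_⟩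
  have h₁ := sub_gi_gg g (n := 5) (by omega) c
  have h₂ : gi g (gg g c - omE F p e - dT (triv F E R4) b) ∈ N F E 5 univ := ga_mem_N _ h
  have h₃ : gi g (dT (triv F E R4) b) - dT τ (gi g b) ∈ N F E 5 univ :=
    ga_dT_univ (loc₂ hg) hb
  have := Submodule.add_mem _ (Submodule.add_mem _ h₁ h₂) h₃
  rw [map_sub, map_sub] at this
  convert this using 1
  abel

theorem omE_mem_Cc {p : R4} (hp : p ∈ U) (e : E) (n : ℕ) : omE F p e ∈ Cc F E n U :=
  ⟨{p}, isCompact_singleton, singleton_subset_iff.2 hp, omE_mem_N p e n⟩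

theorem gi_omE_closed {p : R4} (hp : p ∈ U)
    (hg : LocEq τ (fun x y => (((g x)⁻¹ * g y : (Module.End F E)ˣ) : Module.End F E)) U) (e : E) :
    dT τ (gi g (omE F p e)) ∈ N F E 6 univ := by
  have h₁ : gi g (dT (triv F E R4) (omE F p e)) - dT τ (gi g (omE F p e)) ∈ N F E 6 univ :=
    ga_dT_univ (loc₂ hg) (omE_mem_Cc hp e 5)
  have h₂ : gi g (dT (triv F E R4) (omE F p e)) ∈ N F E 6 univ := ga_mem_N _ (dT_omE p e 6)
  have := Submodule.sub_mem _ h₂ h₁
  rwa [sub_sub_cancel] at this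

theorem pairing {τ' : R4 → R4 → Module.End F E'} (β : E' →ₗ[F] E →ₗ[F] F)
    (hinv : ∀ x y e' e, β (τ' x y e') (τ x y e) = β e' e) {p : R4} (hp : p ∈ U)
    (hg : LocEq τ (fun x y => (((g x)⁻¹ * g y : (Module.End F E)ˣ) : Module.End F E)) U)
    {y : List R4 → E'} (hy : dT τ' y ∈ N F E' 2 U) (e : E) :
    psi β τ 5 y (gi g (omE F p e)) =
      β (y [p]) ((((g p)⁻¹ : (Module.End F E)ˣ) : Module.End F E) e) := by
  set a := β (y [p]) ((((g p)⁻¹ : (Module.End F E)ˣ) : Module.End F E) e) with ha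
  have key : cup (biA β) τ 0 y (gi g (omE F p e)) - a • om F p ∈ N F F 5 univ := by
    refine mem_N_univ (U := {p}) (K := {p}) subset_rfl ?_ ?_
    · rintro q rfl
      obtain ⟨W, hW, h⟩ := hg q hp
      obtain ⟨W', hW', h'⟩ := mem_N_two.1 hy q hp
      refine ⟨W ∩ W', Filter.inter_mem hW hW', fun l hl hx => ?_⟩
      match l with
      | [] => simp at hl
      | x :: l =>
        have hx' := hx x (by simp)
        have e₁ : τ x x = 1 := by
          rw [h x hx'.1 x hx'.1]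
          simp
        have e₂ : y [q] = τ' q x (y [x]) := by
          have := h' q (mem_of_mem_nhds hW') x hx'.2
          rw [dT_two, sub_eq_zero] at this
          exact this.symm
        have e₃ : (((g q)⁻¹ : (Module.End F E)ˣ) : Module.End F E) e =
            τ q x ((((g x)⁻¹ : (Module.End F E)ˣ) : Module.End F E) e) := by
          rw [h q (mem_of_mem_nhds hW) x hx'.1, ← Module.End.mul_apply, ← Units.val_mul,
            mul_inv_cancel_right]
        rw [Pi.sub_apply, cup_zero_two, e₁, ha, e₂, e₃, hinv]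
        change β (y [x]) ((((g x)⁻¹ : (Module.End F E)ˣ) : Module.End F E) (omE F q e (x :: l))) -
          _ * om F q (x :: l) = 0
        rw [omE_eq, map_smul, map_smul, smul_eq_mul]
        ring
    · refine Submodule.sub_mem _ ?_ (Submodule.smul_mem _ _ ?_)
      · exact cup_mem_N_right (R₃ := F) (biA β) τ 0 y (ga_mem_N _ (omE_mem_N p e 5))
      · rw [om_eq_omE]
        exact omE_mem_N p 1 5
  have := (isI_I4 F).1 _ key
  rw [map_sub, map_smul, I4_om, smul_eq_mul, mul_one, sub_eq_zero] at this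
  rw [psi_apply]
  change 1 * I4 F (cup (biA β) τ 0 y (gi g (omE F p e))) = a
  rw [one_mul, this]

/-- The fundamental cochain as a linear map. -/
noncomputable def omL (p : R4) : E →ₗ[F] (List R4 → E) where
  toFun e := omE F p e
  map_add' e e' := by
    funext l
    simp [omE_eq]
  map_smul' a e := by
    funext l
    simp only [omE_eq, Pi.smul_apply, RingHom.id_apply]
    exact smul_comm _ _ _

end Gauge

section Main

variable {X : Set R4} (hX : IsOpen X) {τ : R4 → R4 → Module.End F E}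
  {τ' : R4 → R4 → Module.End F E'} (hτ : IsCoc τ X) (hτ' : IsCoc τ' X) (β : E' →ₗ[F] E →ₗ[F] F)
  (hinv : ∀ x y e' e, β (τ' x y e') (τ x y e) = β e' e)

theorem NZ_nonpos {n : ℤ} (hn : n ≤ 0) (U : Set R4) (y : List R4 → E') : y ∈ NZ F E' n U := by
  unfold NZ
  rw [if_pos hn]
  trivial

theorem box_exact (hβ : Function.Bijective β) {U : Set R4} (hU : IsBox U) (hUX : U ⊆ X) (n : ℤ) :
    (cone hX hτ hτ' β hinv).Z n U ≤ (cone hX hτ hτ' β hinv).Bd n U := by
  rcases U.eq_empty_or_nonempty with rfl | ⟨p, hp⟩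
  · intro x _
    refine Submodule.mem_sup_right ?_
    rw [(cone hX hτ hτ' β hinv).empty]
    trivial
  have hC : Cvx U := cvx_of_convex hU.isOpen hU.convex
  obtain ⟨g, hg⟩ := hC.exists_triv (hτ.mono hUX)
  rintro ⟨y, f⟩ hx
  obtain ⟨hy, hf⟩ := (mem_Z hX hτ hτ' β hinv hUX).1 hx
  change dT τ' y ∈ _ at hy
  change ∀ c ∈ _, psi β τ _ y c = f.1 _ _ at hf
  have step₁ : ∃ z, y - dT τ' z ∈ NZ F E' n U := by
    rcases le_or_gt n 0 with h0 | h0
    · exact ⟨0, NZ_nonpos h0 _ _⟩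
    obtain ⟨m, rfl⟩ : ∃ m : ℕ, n = m := ⟨n.toNat, by omega⟩
    rw [show (m : ℤ) + 1 = ((m + 1 : ℕ) : ℤ) by push_cast; rfl, NZ_natCast (by omega)] at hy
    rw [NZ_natCast (by omega)]
    rcases le_or_gt 2 m with h2 | h2
    · exact hC.acyc (hτ'.mono hUX) h2 y hy
    obtain rfl : m = 1 := by omega
    refine ⟨0, ?_⟩
    rw [map_zero, sub_zero]
    refine par_zero (hτ'.mono hUX) hC.isPreconnected hy hp (hβ.1 ?_)
    rw [map_zero]
    ext e
    have h₁ := hf (gi g (omE F p ((g p : Module.End F E) e))) (ga_mem_Cc _ (omE_mem_Cc hp _ _))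
    change psi β τ 5 y _ = f.1 6 _ at h₁
    rw [pairing β hinv hp hg hy, f.2 _ _ (gi_omE_closed hp hg _), ← Module.End.mul_apply,
      Units.inv_mul] at h₁
    exact h₁
  obtain ⟨z, hz⟩ := step₁
  rcases le_or_gt 7 n with h7 | h7
  · refine to_Bd hX hτ hτ' β hinv hUX hz fun c hc _ => ?_
    have e : J n = 0 := by
      unfold J
      omega
    rw [e] at hc ⊢
    rw [psi_right β τ z (Cc_zero _ hc)]
    exact f.2 _ _ (Cc_zero _ hc)
  have e : J n = J (n + 1) + 1 := by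
    unfold J
    omega
  have hφ : ∀ c ∈ Cc F E (J (n + 1)) U,
      f.1 (J (n + 1) + 1) (dT τ c) = psi β τ (J (n + 1) + 1) z (dT τ c) := by
    intro c hc
    rw [← hf c hc, ← stokes hτ hτ' β hinv z (Cc_mono hUX hc), ← sub_eq_zero, ← LinearMap.sub_apply,
      ← map_sub]
    exact psi_left β τ (NZ_to hz) hc
  by_cases h5 : J (n + 1) + 1 = 5
  · have hn : n = 2 := by
      unfold J at h5
      omega
    subst hn
    change ∀ c ∈ Cc F E 4 U, f.1 5 (dT τ c) = psi β τ 5 z (dT τ c) at hφ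
    obtain ⟨e', he'⟩ := hβ.2 ((f.1 5 - psi β τ 5 z) ∘ₗ gi g ∘ₗ omL p ∘ₗ (g p : Module.End F E))
    obtain ⟨w, hw, hwp⟩ := hC.exists_par (hτ'.mono hUX) hp e'
    refine to_Bd hX hτ hτ' β hinv hUX (z := z + w) ?_ fun c hc hd => ?_
    · rw [map_add, ← sub_sub]
      refine Submodule.sub_mem _ hz ?_
      rw [show (2 : ℤ) = ((2 : ℕ) : ℤ) from rfl, NZ_natCast (by omega)]
      exact hw
    · change c ∈ Cc F E 5 U at hc
      change dT τ c ∈ N F E 6 univ at hd
      change f.1 5 c = psi β τ 5 (z + w) c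
      obtain ⟨e, c', hc', h⟩ := tw_top hU hp hg hc hd
      have a₁ := f.2 _ _ h
      have a₂ := psi_right β τ z h
      have a₃ := psi_right β τ w h
      have a₄ := hφ c' hc'
      have a₅ : psi β τ 5 w (dT τ c') = 0 := by
        rw [← stokes hτ hτ' β hinv w (Cc_mono hUX hc')]
        exact psi_left β τ (fun _ _ => hw) hc'
      have a₆ := pairing β hinv hp hg hw e
      rw [hwp, he'] at a₆
      change _ = f.1 5 (gi g (omE F p (((g p : Module.End F E) *
        (((g p)⁻¹ : (Module.End F E)ˣ) : Module.End F E)) e))) - psi β τ 5 z (gi g (omE F p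
          (((g p : Module.End F E) * (((g p)⁻¹ : (Module.End F E)ˣ) : Module.End F E)) e))) at a₆
      rw [Units.mul_inv, Module.End.one_apply] at a₆
      rw [map_sub, map_sub] at a₁ a₂ a₃
      rw [map_add, LinearMap.add_apply]
      linear_combination a₁ - a₂ - a₃ + a₄ - a₅ - a₆
  · refine to_Bd hX hτ hτ' β hinv hUX hz fun c hc hd => ?_
    rw [e] at hc hd ⊢
    obtain ⟨c', hc', h⟩ := tw_zero hU hg h5 hc hd
    have a₁ := f.2 _ _ h
    have a₂ := psi_right β τ z h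
    rw [map_sub] at a₁ a₂
    have a₄ := hφ c' hc'
    change f.1 _ c = _
    linear_combination a₁ - a₂ + a₄

theorem Z_mono {n : ℤ} {U V : Set R4} (h : U ⊆ V) :
    (cone hX hτ hτ' β hinv).Z n V ≤ (cone hX hτ hτ' β hinv).Z n U :=
  Submodule.comap_mono ((cone hX hτ hτ' β hinv).mono _ _ _ h)

open Classical in
/-- Gluing of cochains along a family of sets. -/
noncomputable def glue (U : ℕ → Set R4) (z : ℕ → List R4 → E') : List R4 → E'
  | [] => 0
  | x :: l => if h : ∃ i, x ∈ U i then z h.choose (x :: l) else 0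

theorem glue_sub {U : ℕ → Set R4} (ho : ∀ i, IsOpen (U i))
    (hd : Pairwise fun i j => Disjoint (U i) (U j)) (z : ℕ → List R4 → E') (i : ℕ) {m : ℕ}
    (hm : 1 ≤ m) : glue U z - z i ∈ N F E' m (U i) := by
  intro p hp
  refine ⟨U i, (ho i).mem_nhds hp, fun l hl hx => ?_⟩
  match l with
  | [] => simp at hl; omega
  | x :: l =>
    have hx' : x ∈ U i := hx x (by simp)
    have h : ∃ i, x ∈ U i := ⟨i, hx'⟩
    have e : h.choose = i := by
      by_contra hne
      exact Set.disjoint_left.1 (hd hne) h.choose_spec hx'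
    simp only [Pi.sub_apply, glue, dif_pos h, e, sub_self]

theorem kill_union {U : ℕ → Set R4} (ho : ∀ i, IsOpen (U i))
    (hd : Pairwise fun i j => Disjoint (U i) (U j)) (τ : R4 → R4 → Module.End F E) {m : ℕ}
    (φ : (List R4 → E) →ₗ[F] F) (h0 : ∀ c ∈ N F E m univ, φ c = 0)
    (h : ∀ i, ∀ c ∈ Cc F E m (U i), dT τ c ∈ N F E (m + 1) univ → φ c = 0) :
    ∀ c ∈ Cc F E m (⋃ i, U i), dT τ c ∈ N F E (m + 1) univ → φ c = 0 := by
  have fin : ∀ s : Finset ℕ, ∀ c ∈ Cc F E m (⋃ i ∈ s, U i), dT τ c ∈ N F E (m + 1) univ →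
      φ c = 0 := by
    intro s
    induction s using Finset.induction_on with
    | empty =>
      intro c hc _
      refine h0 c (Cc_empty _ ?_)
      simpa using hc
    | insert i s hi ih =>
      intro c hc hdc
      rw [Finset.set_biUnion_insert] at hc
      obtain ⟨a, ha, b, hb, rfl⟩ := Submodule.mem_sup.1
        (Cc_union (ho i) (isOpen_biUnion fun j _ => ho j) hc)
      have hda : dT τ a ∈ N F E (m + 1) univ := by
        obtain ⟨K, -, hK, ha⟩ := ha
        obtain ⟨K', -, hK', hb⟩ := hb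
        refine mem_N_univ (K := K) (U := K'ᶜ) (fun p hp hp' => ?_) ?_ (dT_mem_N τ ha)
        · obtain ⟨j, hj, hpj⟩ := mem_iUnion₂.1 (hK' hp')
          have hne : i ≠ j := fun e => hi (e ▸ hj)
          exact Set.disjoint_left.1 (hd hne) (hK hp) hpj
        · have := Submodule.sub_mem _ (N_mono (subset_univ _) hdc) (dT_mem_N τ hb)
          rwa [map_add, add_sub_cancel_right] at this
      have hdb : dT τ b ∈ N F E (m + 1) univ := by
        have := Submodule.sub_mem _ hdc hda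
        rwa [map_add, add_sub_cancel_left] at this
      rw [map_add, h i a ha hda, ih b hb hdb, add_zero]
  rintro c ⟨K, hK, hKU, hc⟩ hdc
  obtain ⟨s, hs⟩ := hK.elim_finite_subcover U ho hKU
  exact fin s c ⟨K, hK, hs, hc⟩ hdc

theorem disj_exact {U : ℕ → Set R4} (ho : ∀ i, IsOpen (U i)) (hUX : ∀ i, U i ⊆ X)
    (hd : Pairwise fun i j => Disjoint (U i) (U j)) (n : ℤ)
    (h : ∀ i, (cone hX hτ hτ' β hinv).Z n (U i) ≤ (cone hX hτ hτ' β hinv).Bd n (U i)) :
    (cone hX hτ hτ' β hinv).Z n (⋃ i, U i) ≤ (cone hX hτ hτ' β hinv).Bd n (⋃ i, U i) := by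
  intro x hx
  choose z hz hz' using fun i => of_Bd hX hτ hτ' β hinv (hUX i)
    (h i (Z_mono hX hτ hτ' β hinv (subset_iUnion U i) hx))
  refine to_Bd hX hτ hτ' β hinv (iUnion_subset hUX) (z := glue U z) ?_ ?_
  · rcases le_or_gt n 0 with h0 | h0
    · exact NZ_nonpos h0 _ _
    obtain ⟨m, rfl⟩ : ∃ m : ℕ, n = (m + 1 : ℕ) := ⟨(n - 1).toNat, by omega⟩
    rw [NZ_natCast (by omega)]
    refine mem_N_of_forall fun p hp => ?_
    obtain ⟨i, hi⟩ := mem_iUnion.1 hp
    refine ⟨U i, hi, ?_⟩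
    have a₁ := hz i
    rw [NZ_natCast (by omega)] at a₁
    have a₂ : dT τ' (glue U z - z i) ∈ N F E' (m + 1) (U i) := by
      rcases Nat.eq_zero_or_pos m with rfl | hm
      · exact dT_mem_N_one _ _ _
      · exact dT_mem_N τ' (glue_sub ho hd z i hm)
    have := Submodule.sub_mem _ a₁ a₂
    rw [map_sub] at this
    convert this using 1
    abel
  · intro c hc hdc
    rw [← sub_eq_zero, ← LinearMap.sub_apply]
    refine kill_union ho hd τ _ (fun c hc => ?_) (fun i c hc hdc => ?_) c hc hdc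
    · rw [LinearMap.sub_apply, x.2.2 _ _ hc, psi_right β τ _ hc, sub_zero]
    · rw [LinearMap.sub_apply, hz' i c hc hdc, ← neg_eq_zero, neg_sub, ← LinearMap.sub_apply,
        ← map_sub]
      exact psi_left β τ (fun _ h5 => glue_sub ho hd z i (by omega)) hc

theorem all_exact (hβ : Function.Bijective β) (n : ℤ) :
    (cone hX hτ hτ' β hinv).Z n X ≤ (cone hX hτ hτ' β hinv).Bd n X := by
  refine boot (X := X)
    (fun U => ∀ n, (cone hX hτ hτ' β hinv).Z n U ≤ (cone hX hτ hτ' β hinv).Bd n U)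
    (fun U hU hUX n => box_exact hX hτ hτ' β hinv hβ hU hUX n)
    (fun U V hU hV _ _ qU qV qI n x hx => ?_)
    (fun U ho hUX hd h n => disj_exact hX hτ hτ' β hinv ho hUX hd n fun i => h i n)
    hX subset_rfl n
  exact (cone hX hτ hτ' β hinv).union_step hU hV subset_rfl subset_rfl (qI _)
    (qU n (Z_mono hX hτ hτ' β hinv subset_union_left hx))
    (qV n (Z_mono hX hτ hτ' β hinv subset_union_right hx))

end Main

end RPD4

theorem pd_c4 [FiniteDimensional F E] {X : Set R4} (hX : IsOpen X)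
    {τ : R4 → R4 → Module.End F E} {τ' : R4 → R4 → Module.End F E'} (hτ : IsCoc τ X)
    (hτ' : IsCoc τ' X) (β : E' →ₗ[F] E →ₗ[F] F) (hβ : Function.Bijective β)
    (hinv : ∀ x y e' e, β (τ' x y e') (τ x y e) = β e' e) {n j : ℕ} (hn : 1 ≤ n) (hj : 1 ≤ j)
    (hnj : n + j = 6) {c : List R4 → E} (hc : c ∈ Cc F E j X)
    (hd : dT τ c ∈ N F E (j + 1) univ)
    (h : ∀ y, dT τ' y ∈ N F E' (n + 1) X → I4 F (cup (biA β) τ (n - 1) y c) = 0) :
    ∃ c' ∈ Cc F E (j - 1) X, c - dT τ c' ∈ N F E j univ := by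
  by_contra hne
  have hc' : c ∉ (Cc F E (j - 1) X).map (dT τ) ⊔ N F E j univ := by
    intro hm
    obtain ⟨_, ⟨b, hb, rfl⟩, v, hv, rfl⟩ := Submodule.mem_sup.1 hm
    refine hne ⟨b, hb, ?_⟩
    rwa [add_sub_cancel_left]
  obtain ⟨φ, hφ, hle⟩ := Submodule.exists_le_ker_of_notMem hc'
  have h0 : ∀ v ∈ N F E j univ, φ v = 0 := fun v hv => hle (Submodule.mem_sup_right hv)
  have e₁ : RPD4.J (n + 1) = j := by
    unfold RPD4.J
    omega
  have e₂ : RPD4.J (n + 1 + 1) = j - 1 := by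
    unfold RPD4.J
    omega
  have hx : ((0 : List R4 → E'), RPD4.sg j φ h0) ∈
      (RPD4.cone hX hτ hτ' β hinv).Z (n + 1) X := by
    refine (RPD4.mem_Z hX hτ hτ' β hinv subset_rfl).2 ⟨?_, fun b hb => ?_⟩
    · rw [map_zero]
      exact Submodule.zero_mem _
    · rw [e₂] at hb ⊢
      rw [map_zero, show j - 1 + 1 = j by omega, RPD4.sg_apply]
      exact (hle (Submodule.mem_sup_left ⟨b, hb, rfl⟩)).symm
  obtain ⟨z, hz, hz'⟩ := RPD4.of_Bd hX hτ hτ' β hinv subset_rfl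
    (RPD4.all_exact hX hτ hτ' β hinv hβ _ hx)
  rw [e₁] at hz'
  have a := hz' c hc hd
  rw [show (n : ℤ) + 1 = ((n + 1 : ℕ) : ℤ) by push_cast; rfl, NZ_natCast (by omega), zero_sub,
    neg_mem_iff] at hz
  rw [RPD4.sg_apply, RPD4.psi_apply, show 5 - j = n - 1 by omega, h z hz, mul_zero] at a
  exact hφ a

theorem pd_o4 [FiniteDimensional F E] {X : Set R4} (hX : IsOpen X)
    {τ : R4 → R4 → Module.End F E} {τ' : R4 → R4 → Module.End F E'} (hτ : IsCoc τ X)
    (hτ' : IsCoc τ' X) (β : E' →ₗ[F] E →ₗ[F] F) (hβ : Function.Bijective β)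
    (hinv : ∀ x y e' e, β (τ' x y e') (τ x y e) = β e' e) {n j : ℕ} (hn : 1 ≤ n) (hj : 1 ≤ j)
    (hnj : n + j = 6) {y : List R4 → E'} (hy : dT τ' y ∈ N F E' (n + 1) X)
    (h : ∀ c ∈ Cc F E j X, dT τ c ∈ N F E (j + 1) univ → I4 F (cup (biA β) τ (n - 1) y c) = 0) :
    Exa τ' n X y := by
  obtain ⟨φ, h0, hφ⟩ := RPD4.exists_fun (Cc F E j X) (dT τ) (N F E (j + 1) univ)
    (RPD4.psi β τ j y) fun c hc hd => by
      rw [RPD4.psi_apply, show 5 - j = n - 1 by omega, h c hc hd, mul_zero]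
  have e₁ : RPD4.J (n + 1) = j := by
    unfold RPD4.J
    omega
  have hx : (y, RPD4.sg (j + 1) φ h0) ∈ (RPD4.cone hX hτ hτ' β hinv).Z n X := by
    refine (RPD4.mem_Z hX hτ hτ' β hinv subset_rfl).2 ⟨?_, fun b hb => ?_⟩
    · rw [show (n : ℤ) + 1 = ((n + 1 : ℕ) : ℤ) by push_cast; rfl, NZ_natCast (by omega)]
      exact hy
    · rw [e₁] at hb ⊢
      rw [RPD4.sg_apply, hφ b hb]
  obtain ⟨z, hz, -⟩ := RPD4.of_Bd hX hτ hτ' β hinv subset_rfl
    (RPD4.all_exact hX hτ hτ' β hinv hβ _ hx)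
  rw [NZ_natCast hn] at hz
  exact ⟨z, hz⟩

end Pool.Agent.HH
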