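import Pool.Agent.P.MP_c8dc46_gt.PD4

/-!
Transport of duality to `S³ × ℝ` along the open embedding `to4` with image `{0}ᶜ`.
-/

open Set Topology

namespace Pool.Agent.HH

variable {F E E' : Type} [Field F] [AddCommGroup E] [Module F E] [AddCommGroup E'] [Module F E']

namespace RPDY

/-- The Euclidean norm. -/
noncomputable def nr (x : R4) : ℝ := √(x 0 ^ 2 + x 1 ^ 2 + x 2 ^ 2 + x 3 ^ 2)

theorem nr_sq (x : R4) : nr x ^ 2 = x 0 ^ 2 + x 1 ^ 2 + x 2 ^ 2 + x 3 ^ 2 :=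
  Real.sq_sqrt (by positivity)

theorem nr_pos {x : R4} (hx : x ≠ 0) : 0 < nr x := by
  refine lt_of_le_of_ne (Real.sqrt_nonneg _) fun h => hx ?_
  have h1 := nr_sq x
  rw [← h] at h1
  have h2 : ∀ t : ℝ, t ^ 2 ≤ 0 → t = 0 := fun t ht => pow_eq_zero_iff two_ne_zero |>.1
    (le_antisymm ht (sq_nonneg t))
  funext i
  refine h2 _ ?_
  fin_cases i <;> simp <;>
    nlinarith [sq_nonneg (x 0), sq_nonneg (x 1), sq_nonneg (x 2), sq_nonneg (x 3)]

theorem nr_to4 (p : Y4) : nr (to4 p) = Real.exp p.2 := by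
  have h := p.1.2
  rw [Complex.sq_norm, Complex.sq_norm, Complex.normSq_apply, Complex.normSq_apply] at h
  rw [nr, Real.sqrt_eq_iff_mul_self_eq (by positivity) (Real.exp_pos _).le]
  simp only [to4, Matrix.cons_val]
  linear_combination (Real.exp p.2 ^ 2) * h

theorem to4_ne (p : Y4) : to4 p ≠ 0 := fun h => by
  have h1 := nr_to4 p
  rw [h] at h1
  simp [nr] at h1
  exact (Real.exp_pos _).ne h1

/-- The inverse of polar coordinates. -/
noncomputable def gi (x : {x : R4 // x ≠ 0}) : Y4 :=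
  (⟨((x.1 0 / nr x.1 : ℝ) + (x.1 1 / nr x.1 : ℝ) * Complex.I,
    (x.1 2 / nr x.1 : ℝ) + (x.1 3 / nr x.1 : ℝ) * Complex.I), by
      have h := (nr_pos x.2).ne'
      rw [Complex.sq_norm, Complex.sq_norm, Complex.normSq_add_mul_I, Complex.normSq_add_mul_I]
      field_simp
      rw [nr_sq]
      ring⟩, Real.log (nr x.1))

theorem cont_gi : Continuous gi := by
  have h1 : Continuous nr := by unfold nr; fun_prop
  have h : Continuous fun x : {x : R4 // x ≠ 0} => nr x.1 := h1.comp continuous_subtype_val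
  have h0 : ∀ x : {x : R4 // x ≠ 0}, nr x.1 ≠ 0 := fun x => (nr_pos x.2).ne'
  have h2 : ∀ i, Continuous fun x : {x : R4 // x ≠ 0} => ((x.1 i / nr x.1 : ℝ) : ℂ) := fun i =>
    Complex.continuous_ofReal.comp (((continuous_apply i).comp continuous_subtype_val).div h h0)
  exact Continuous.prodMk (Continuous.subtype_mk (((h2 0).add ((h2 1).mul continuous_const)).prodMk
    ((h2 2).add ((h2 3).mul continuous_const))) _) (h.log h0)

theorem to4_gi (x : {x : R4 // x ≠ 0}) : to4 (gi x) = x.1 := by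
  have h := nr_pos x.2
  funext i
  fin_cases i <;> simp [to4, gi, Real.exp_log h, -Complex.ofReal_div] <;> field_simp

theorem gi_to4 (p : Y4) : gi ⟨to4 p, to4_ne p⟩ = p := by
  have h := (Real.exp_pos p.2).ne'
  refine Prod.ext (Subtype.ext (Prod.ext ?_ ?_)) (by simp [gi, nr_to4]) <;>
    apply Complex.ext <;> simp [gi, nr_to4, -Complex.ofReal_div] <;> simp [to4, h]

theorem cont_to4 : Continuous to4 := by
  unfold to4
  fun_prop

end RPDY

open RPDY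

theorem oe_to4 : OE to4 univ ∧ range to4 = {0}ᶜ := by
  have h : IsOpenMap fun p : Y4 => (⟨to4 p, to4_ne p⟩ : {x : R4 // x ≠ 0}) :=
    IsOpenMap.of_inverse cont_gi (fun x => Subtype.ext (to4_gi x)) gi_to4
  refine ⟨⟨isOpen_univ, cont_to4.continuousOn, fun p _ q _ e => ?_, fun V hV _ => ?_⟩, ?_⟩
  · rw [← gi_to4 p, ← gi_to4 q]
    congr 1
    exact Subtype.ext e
  · exact ((isOpen_ne (x := (0 : R4))).isOpenMap_subtype_val.comp h) V hV
  · ext x
    exact ⟨fun ⟨p, e⟩ => e ▸ to4_ne p, fun hx => ⟨gi ⟨x, hx⟩, to4_gi _⟩⟩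

namespace RPDY

/-- The inverse of `to4` on its image. -/
noncomputable def fr : R4 → Y4 := oe_to4.1.exists_inv.choose

theorem fr_to4 (p : Y4) : fr (to4 p) = p := oe_to4.1.exists_inv.choose_spec.2.1 p trivial

theorem img_to4 : to4 '' univ = {0}ᶜ := image_univ.trans oe_to4.2

theorem to4_fr {x : R4} (hx : x ≠ 0) : to4 (fr x) = x :=
  oe_to4.1.exists_inv.choose_spec.2.2 x (img_to4 ▸ hx)

theorem cont_fr {x : R4} (hx : x ≠ 0) : ContinuousAt fr x := by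
  have h : OE fr (to4 '' univ) := oe_to4.1.exists_inv.choose_spec.1
  exact h.cont.continuousAt (h.isOpen.mem_nhds (img_to4 ▸ hx))

theorem img_ne {X : Set Y4} {x : R4} (hx : x ∈ to4 '' X) : x ≠ 0 := by
  obtain ⟨p, -, rfl⟩ := hx
  exact to4_ne p

theorem maps_fr (X : Set Y4) : MapsTo fr (to4 '' X) X := by
  rintro _ ⟨p, hp, rfl⟩
  rwa [fr_to4]

theorem pb_pb {M : Type} (τ : Y4 → Y4 → M) : pb to4 (pb fr τ) = τ := by
  funext x y
  simp only [pb, fr_to4]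

section Push

variable {R M : Type} [CommRing R] [AddCommGroup M] [Module R M]

theorem pull_fr (φ : List Y4 → M) : pull R M to4 (pull R M fr φ) = φ := by
  rw [pull_pull, show fr ∘ to4 = id from funext fr_to4]
  funext l
  simp [pull]

theorem to4_N {n : ℕ} {X : Set Y4} {S : Set R4} (hm : MapsTo to4 X S) {ψ : List R4 → M}
    (h : ψ ∈ N R M n S) : pull R M to4 ψ ∈ N R M n X :=
  pull_mem_N (fun _ _ => cont_to4.continuousAt) hm h

theorem to4_dT (τ : Y4 → Y4 → Module.End R M) (ψ : List R4 → M) :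
    pull R M to4 (dT (pb fr τ) ψ) = dT τ (pull R M to4 ψ) := by
  rw [pull_dT, pb_pb]

theorem sub_fr (n : ℕ) (ψ : List R4 → M) :
    ψ - pull R M fr (pull R M to4 ψ) ∈ N R M n ({0}ᶜ : Set R4) := by
  rw [pull_pull, ← neg_sub]
  refine neg_mem (pull_sub_mem_N (fun p hp => ?_) n ψ)
  filter_upwards [isOpen_compl_singleton.mem_nhds hp] with x hx using to4_fr hx

theorem to4_Cc {n : ℕ} {X : Set Y4} {ψ : List R4 → M} (h : ψ ∈ Cc R M n (to4 '' X)) :
    pull R M to4 ψ ∈ Cc R M n X := by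
  obtain ⟨K, hK, hKX, h⟩ := h
  refine ⟨fr '' K, hK.image_of_continuousOn fun x hx =>
    (cont_fr (img_ne (hKX hx))).continuousWithinAt, ((maps_fr X).mono_left hKX).image_subset,
    to4_N (X := (fr '' K)ᶜ) (S := Kᶜ) (fun p hp hp' => hp ⟨_, hp', fr_to4 p⟩) h⟩

variable (R) in
/-- `ψ` is a push-forward of `φ` in length `n`. -/
def Push (n : ℕ) (φ : List Y4 → M) (ψ : List R4 → M) : Prop :=
  ψ ∈ N R M n ({0} : Set R4) ∧ ψ - pull R M fr φ ∈ N R M n ({0}ᶜ : Set R4)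

theorem Push.N {n : ℕ} {φ : List Y4 → M} {ψ : List R4 → M} (h : Push R n φ ψ) {K : Set Y4}
    (hφ : φ ∈ N R M n Kᶜ) : ψ ∈ N R M n (to4 '' K)ᶜ := by
  refine mem_N_of_forall fun p hp => ?_
  by_cases h0 : p = 0
  · exact ⟨_, h0, h.1⟩
  · refine ⟨{p}, rfl, ?_⟩
    rw [← sub_add_cancel ψ (pull R M fr φ)]
    refine add_mem (N_mono (singleton_subset_iff.2 h0) h.2) (pull_mem_N ?_ ?_ hφ)
    · rintro _ rfl
      exact cont_fr h0
    · rintro _ rfl hq
      exact hp ⟨_, hq, to4_fr h0⟩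

theorem Push.univ {n : ℕ} {φ : List Y4 → M} {ψ : List R4 → M} (h : Push R n φ ψ)
    (hφ : φ ∈ HH.N R M n univ) : ψ ∈ HH.N R M n univ := by
  simpa using h.N (K := ∅) (by simpa using hφ)

theorem Push.Cc {n : ℕ} {φ : List Y4 → M} {ψ : List R4 → M} (h : Push R n φ ψ) {X : Set Y4}
    (hφ : φ ∈ Cc R M n X) : ψ ∈ Cc R M n (to4 '' X) := by
  obtain ⟨K, hK, hKX, hφ⟩ := hφ
  exact ⟨to4 '' K, hK.image cont_to4, image_mono hKX, h.N hφ⟩

theorem Push.d {n : ℕ} {φ : List Y4 → M} {ψ : List R4 → M} (h : Push R n φ ψ)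
    (τ : Y4 → Y4 → Module.End R M) : Push R (n + 1) (dT τ φ) (dT (pb fr τ) ψ) :=
  ⟨dT_mem_N _ h.1, by rw [pull_dT, ← map_sub]; exact dT_mem_N _ h.2⟩

theorem Push.sub {n : ℕ} {φ φ' : List Y4 → M} {ψ ψ' : List R4 → M} (h : Push R n φ ψ)
    (h' : Push R n φ' ψ') : Push R n (φ - φ') (ψ - ψ') :=
  ⟨sub_mem h.1 h'.1, by rw [map_sub, sub_sub_sub_comm]; exact sub_mem h.2 h'.2⟩

theorem Push.smul {n : ℕ} {φ : List Y4 → M} {ψ : List R4 → M} (h : Push R n φ ψ) (a : R) :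
    Push R n (a • φ) (a • ψ) :=
  ⟨Submodule.smul_mem _ _ h.1, by rw [map_smul, ← smul_sub]; exact Submodule.smul_mem _ _ h.2⟩

theorem Push.back {n : ℕ} {φ : List Y4 → M} {ψ : List R4 → M} (h : Push R n φ ψ) :
    φ - pull R M to4 ψ ∈ HH.N R M n Set.univ := by
  have h1 := to4_N (X := Set.univ) (fun p _ => to4_ne p) h.2
  rw [map_sub, pull_fr] at h1
  simpa using neg_mem h1

theorem push_pull {n : ℕ} {ψ : List R4 → M} (h : ψ ∈ N R M n ({0} : Set R4)) :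
    Push R n (pull R M to4 ψ) ψ := ⟨h, sub_fr n ψ⟩

theorem push_of_Cc {n : ℕ} {X : Set Y4} {ψ : List R4 → M} (h : ψ ∈ Cc R M n (to4 '' X)) :
    Push R n (pull R M to4 ψ) ψ := by
  obtain ⟨K, -, hKX, h⟩ := h
  exact push_pull (N_mono (S' := Kᶜ) (singleton_subset_iff.2 fun h0 => img_ne (hKX h0) rfl) h)

theorem exists_push {n : ℕ} (hn : 1 ≤ n) {X : Set Y4} {φ : List Y4 → M} (h : φ ∈ Cc R M n X) :
    ∃ ψ, Push R n φ ψ := by
  obtain ⟨K, hK, -, h⟩ := h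
  have hc := (hK.image cont_to4).isClosed
  obtain ⟨C, hC, hcl, hs⟩ := exists_mem_nhds_isClosed_subset
    (hc.isOpen_compl.mem_nhds fun h0 => img_ne h0 (rfl : (0 : R4) = 0))
  refine ⟨cut R M Cᶜ (pull R M fr φ), N_mono ?_ (cut_mem_N_compl _ n _), ?_⟩
  · rw [closure_compl, compl_compl, singleton_subset_iff]
    exact mem_interior_iff_mem_nhds.2 hC
  · rw [← neg_sub]
    refine neg_mem (mem_N_of_forall fun p hp => ?_)
    by_cases hpC : p ∈ C
    · have h1 : pull R M fr φ ∈ N R M n {p} := by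
        refine pull_mem_N ?_ ?_ h
        · rintro _ rfl
          exact cont_fr hp
        · rintro _ rfl hq
          exact hs hpC ⟨_, hq, to4_fr hp⟩
      exact ⟨{p}, rfl, sub_mem h1 (cut_mem_N _ h1)⟩
    · exact ⟨_, by rwa [hcl.isOpen_compl.interior_eq], sub_cut_mem_N Cᶜ hn _⟩

end Push

theorem Push.cup {q : ℕ} (hq : 1 ≤ q) {c : List Y4 → E} {c₁ : List R4 → E} (h : Push F q c c₁)
    (β : E' →+ E →+ F) (τ : Y4 → Y4 → Module.End F E) {p : ℕ} {y : List Y4 → E'}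
    {y₁ : List R4 → E'} (hy : y₁ - pull F E' fr y ∈ HH.N F E' (p + 1) ({0}ᶜ : Set R4)) :
    Push F (p + q) (cup β τ p y c) (cup β (pb fr τ) p y₁ c₁) := by
  refine ⟨cup_mem_N_right β _ p _ h.1, ?_⟩
  rw [pull_cup (R₁ := F), ← sub_add_sub_cancel _ (HH.cup β (pb fr τ) p y₁ (pull F E fr c)),
    ← cup_sub_right, ← cup_sub_left]
  exact add_mem (cup_mem_N_right β _ p _ h.2) (cup_mem_N_left β _ (by omega) hy _)

theorem push_om (p : Y4) : Push F 5 (pull F F to4 (om F (to4 p))) (om F (to4 p)) :=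
  push_pull (N_mono (singleton_subset_iff.2 (to4_ne p).symm) (omE_mem_N (to4 p) (1 : F) 5))

theorem om_mem (p : Y4) : pull F F to4 (om F (to4 p)) ∈ N F F 5 {p}ᶜ ∧
    dT (triv F F Y4) (pull F F to4 (om F (to4 p))) ∈ N F F 6 univ :=
  ⟨to4_N (X := {p}ᶜ) (S := {to4 p}ᶜ) (fun _ hq e => hq (oe_to4.1.inj trivial trivial e))
    (omE_mem_N (to4 p) (1 : F) 5),
    to4_dT (triv F F Y4) (om F (to4 p)) ▸ to4_N (mapsTo_univ _ _) (dT_omE (to4 p) (1 : F) 6)⟩

theorem omY_eq : omY F = pull F F to4 (om F (to4 (fr ![1, 0, 0, 0]))) := by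
  rw [to4_fr fun h => by simpa using congrFun h 0, omY]

theorem pd_aux [FiniteDimensional F E] {X : Set Y4} (hX : IsOpen X)
    {τ : Y4 → Y4 → Module.End F E} {τ' : Y4 → Y4 → Module.End F E'} (hτ : IsCoc τ X)
    (hτ' : IsCoc τ' X) (β : E' →ₗ[F] E →ₗ[F] F) (hβ : Function.Bijective β)
    (hinv : ∀ x y e' e, β (τ' x y e') (τ x y e) = β e' e) {n j : ℕ} (hn : 1 ≤ n) (hj : 1 ≤ j)
    (hnj : n + j = 6) {c : List Y4 → E} (hc : c ∈ Cc F E j X)
    (hd : dT τ c ∈ N F E (j + 1) univ)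
    (h : ∀ y, dT τ' y ∈ N F E' (n + 1) X → ∀ ψ, Push F 5 (cup (biA β) τ (n - 1) y c) ψ →
      I4 F ψ = 0) :
    ∃ c' ∈ Cc F E (j - 1) X, c - dT τ c' ∈ N F E j univ := by
  obtain ⟨c₁, h₁⟩ := exists_push hj hc
  have hf : ∀ p ∈ to4 '' X, ContinuousAt fr p := fun p hp => cont_fr (img_ne hp)
  obtain ⟨c', hc', h'⟩ := pd_c4 (oe_to4.1.img X hX (subset_univ _)) (hτ.pb hf (maps_fr X))
    (hτ'.pb hf (maps_fr X)) β hβ (fun x y => hinv _ _) hn hj hnj (h₁.Cc hc) ((h₁.d τ).univ hd)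
    fun y hy => h (pull F E' to4 y) (to4_dT τ' y ▸ to4_N (mapsTo_image _ _) hy) _
      ((show n - 1 + j = 5 by omega) ▸ h₁.cup hj (biA β) τ (sub_fr _ y))
  refine ⟨_, to4_Cc hc', ?_⟩
  have h2 := add_mem h₁.back (to4_N (mapsTo_univ _ univ) h')
  rwa [map_sub, to4_dT, sub_add_sub_cancel] at h2

theorem mul_bij : Function.Bijective (LinearMap.mul F F) :=
  ⟨fun a b e => by simpa using congrArg (fun f : F →ₗ[F] F => f 1) e,
    fun f => ⟨f 1, by ext; simp⟩⟩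

theorem biA_mul : biA (LinearMap.mul F F) = mulA F := rfl

/-- Multiplication by a closed function on a preconnected set is multiplication by a constant. -/
theorem cup_const {O : Set Y4} (hc : IsPreconnected O) {φ : List Y4 → F} (hφ : φ ∈ Cc F F 5 O)
    {y : List Y4 → F} (hy : dT (triv F F Y4) y ∈ N F F 2 O) :
    ∃ k : F, cup (mulA F) (triv F F Y4) 0 y φ - k • φ ∈ N F F 5 univ := by
  obtain ⟨K, -, hKO, hφ⟩ := hφ
  have h1 : ∃ k : F, y - (fun _ => k) ∈ N F F 1 O := by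
    rcases O.eq_empty_or_nonempty with rfl | ⟨p, hp⟩
    · exact ⟨0, mem_N_empty _ _⟩
    · refine ⟨y [p], par_zero (isCoc_triv O) hc ?_ hp (sub_self _)⟩
      rw [map_sub]
      refine sub_mem hy (mem_N_two.2 fun q _ => ⟨univ, Filter.univ_mem, fun a _ b _ => ?_⟩)
      rw [dT_two]
      exact sub_self _
  obtain ⟨k, hk⟩ := h1
  have h2 : cup (mulA F) (triv F F Y4) 0 (fun _ => k) φ = k • φ := by
    funext l
    cases l <;> rfl
  refine ⟨k, ?_⟩
  rw [← h2, ← cup_sub_left, ← union_compl_self K, mem_N_union]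
  exact ⟨N_mono hKO (cup_mem_N_left _ _ (by omega) hk _), cup_mem_N_right _ _ 0 _ hφ⟩

theorem top_aux {φ : List Y4 → F} (hc : φ ∈ Cc F F 5 (univ : Set Y4))
    (hd : dT (triv F F Y4) φ ∈ N F F 6 univ) {ψ : List R4 → F} (h : Push F 5 φ ψ) :
    ∃ c' ∈ Cc F F 4 (univ : Set Y4), φ - I4 F ψ • omY F - dT (triv F F Y4) c' ∈ N F F 5 univ := by
  have ho := om_mem (F := F) (fr ![1, 0, 0, 0])
  have hp := h.sub ((push_om (fr ![1, 0, 0, 0])).smul (I4 F ψ))
  rw [← omY_eq] at ho hp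
  have hc' : φ - I4 F ψ • omY F ∈ Cc F F 5 univ :=
    sub_mem hc (Submodule.smul_mem _ _ ⟨_, isCompact_singleton, subset_univ _, ho.1⟩)
  refine pd_aux isOpen_univ (isCoc_triv _) (isCoc_triv _) _ mul_bij (fun _ _ _ _ => rfl)
    (n := 1) (j := 5) le_rfl (by omega) rfl hc' ?_ fun y hy ψ' h' => ?_
  · rw [map_sub, map_smul]
    exact sub_mem hd (Submodule.smul_mem _ _ ho.2)
  · obtain ⟨k, hk⟩ := cup_const isPreconnected_univ hc' hy
    have h2 := (isI_I4 F).1 _ ((h'.sub (hp.smul k)).univ hk)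
    simpa [I4_om] using h2

end RPDY

theorem isI_IY (F : Type) [Field F] : IsI F (omY F) (IY F) := by
  have h : omY F ∉ N F F 5 (univ : Set Y4) ⊔ (Cc F F 4 univ).map (dT (triv F F Y4)) := by
    intro h
    obtain ⟨u, hu, _, ⟨ψ, hψ, rfl⟩, e⟩ := Submodule.mem_sup.1 h
    obtain ⟨ψ₁, h₁⟩ := exists_push (by omega) hψ
    have h2 := (push_om (fr ![1, 0, 0, 0])).sub (h₁.d (triv F F Y4))
    rw [← omY_eq, ← e, add_sub_cancel_right] at h2
    exact one_ne_zero (omE_exact (Cc_mono (subset_univ _) (h₁.Cc hψ)) (h2.univ hu))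
  obtain ⟨f, hf, hk⟩ := Submodule.exists_le_ker_of_notMem h
  have h1 : ∃ I, IsI F (omY F) I := ⟨(f (omY F))⁻¹ • f, fun φ hφ => by
    simp [LinearMap.mem_ker.1 (hk (Submodule.mem_sup_left hφ))], fun ψ hψ => by
    simp [LinearMap.mem_ker.1 (hk (Submodule.mem_sup_right ⟨ψ, hψ, rfl⟩))], by simp [hf]⟩
  rw [IY, dif_pos h1]
  exact h1.choose_spec

theorem omY_mem (F : Type) [Field F] :
    omY F ∈ Cc F F 5 (univ : Set Y4) ∧ dT (triv F F Y4) (omY F) ∈ N F F 6 univ := by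
  rw [omY_eq]
  exact ⟨⟨_, isCompact_singleton, subset_univ _, (om_mem _).1⟩, (om_mem _).2⟩

theorem RPDY.IY_eq {φ : List Y4 → F} (hc : φ ∈ Cc F F 5 (univ : Set Y4))
    (hd : dT (triv F F Y4) φ ∈ N F F 6 univ) {ψ : List R4 → F} (h : Push F 5 φ ψ) :
    IY F φ = I4 F ψ := by
  obtain ⟨c', hc', h'⟩ := top_aux hc hd h
  have h2 := (isI_IY F).1 _ h'
  simpa [(isI_IY F).2.1 _ hc', (isI_IY F).2.2, sub_eq_zero] using h2

theorem topY {φ : List Y4 → F} (hc : φ ∈ Cc F F 5 (univ : Set Y4))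
    (hd : dT (triv F F Y4) φ ∈ N F F 6 univ) :
    ∃ ψ ∈ Cc F F 4 (univ : Set Y4), φ - IY F φ • omY F - dT (triv F F Y4) ψ ∈ N F F 5 univ := by
  obtain ⟨ψ, h⟩ := exists_push (by omega) hc
  rw [IY_eq hc hd h]
  exact top_aux hc hd h

/-- Every nonempty open set carries a closed compactly supported cochain of integral one. -/
theorem exists_IY_one (F : Type) [Field F] {O : Set Y4} (hO : IsOpen O) (hne : O.Nonempty) :
    ∃ φ ∈ Cc F F 5 O, dT (triv F F Y4) φ ∈ N F F 6 univ ∧ IY F φ = 1 := by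
  obtain ⟨p, hp⟩ := hne
  have h := om_mem (F := F) p
  refine ⟨_, ⟨_, isCompact_singleton, singleton_subset_iff.2 hp, h.1⟩, h.2, ?_⟩
  rw [IY_eq ⟨_, isCompact_singleton, subset_univ _, h.1⟩ h.2 (push_om p), I4_om]

theorem RPDY.star_lc [StarRing F] {Y : Type} (θ : Y → Y → ℤ) {φ : List Y → F}
    (h : ∀ l, star (φ l) = φ l) (l : List Y) :
    star (lc (triv F F Y) θ φ l) = lc (triv F F Y) θ φ l := by
  match l with
  | [] => exact star_zero F
  | [_] => exact star_zero F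
  | x :: y :: l => exact (star_zsmul _ _).trans (congrArg _ (h _))

theorem IY_star [StarRing F] {φ : List Y4 → F} (hc : φ ∈ Cc F F 5 (univ : Set Y4))
    (hd : dT (triv F F Y4) φ ∈ N F F 6 univ) : IY F (fun l => star (φ l)) = star (IY F φ) := by
  obtain ⟨ψ, ⟨K, hK, hKX, hψ⟩, h⟩ := topY hc hd
  have h1 : ∀ l, star (omY F l) = omY F l := fun l =>
    star_lc _ (star_lc _ (star_lc _ (star_lc _ fun l => by
      match l with
      | [] => exact star_zero F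
      | [_] => exact star_one F
      | _ :: _ :: _ => exact star_zero F))) _
  have h2 := add_dT (starAddEquiv : F ≃+ F).toAddMonoidHom (triv F F Y4) (triv F F Y4)
    (fun _ _ _ => rfl) ψ
  have h3 : (fun l => star (φ l)) - star (IY F φ) • omY F -
      dT (triv F F Y4) (fun l => star (ψ l)) ∈ N F F 5 (univ : Set Y4) :=
    map_mem_N h fun l hl => by
      have h4 := congrArg star hl
      have h5 : star (dT (triv F F Y4) ψ l) = dT (triv F F Y4) (fun l => star (ψ l)) l :=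
        congrFun h2 l
      simpa [h1, h5] using h4
  have h4 : (fun l => star (ψ l)) ∈ Cc F F 4 (univ : Set Y4) :=
    ⟨K, hK, hKX, map_mem_N hψ fun l hl => by simp [hl]⟩
  have h5 := (isI_IY F).1 _ h3
  simpa [(isI_IY F).2.1 _ h4, (isI_IY F).2.2, sub_eq_zero] using h5

theorem RPDY.IY_cup {X : Set Y4}
    {τ : Y4 → Y4 → Module.End F E} {τ' : Y4 → Y4 → Module.End F E'} (hτ : IsCoc τ X)
    (hτ' : IsCoc τ' X) (β : E' →ₗ[F] E →ₗ[F] F)
    (hinv : ∀ x y e' e, β (τ' x y e') (τ x y e) = β e' e) {n j : ℕ} (hn : 1 ≤ n) (hj : 1 ≤ j)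
    (hnj : n + j = 6) {c : List Y4 → E} (hc : c ∈ Cc F E j X)
    (hd : dT τ c ∈ N F E (j + 1) univ) {y : List Y4 → E'} (hy : dT τ' y ∈ N F E' (n + 1) X)
    {ψ : List R4 → F} (h : Push F 5 (cup (biA β) τ (n - 1) y c) ψ) :
    IY F (cup (biA β) τ (n - 1) y c) = I4 F ψ := by
  obtain ⟨K, hK, hKX, hc⟩ := hc
  obtain ⟨p, rfl⟩ := Nat.exists_eq_add_of_le' hn
  rw [Nat.add_sub_cancel] at h ⊢
  have h1 : cup (biA β) τ p y c ∈ N F F 5 Kᶜ :=
    (show p + j = 5 by omega) ▸ cup_mem_N_right _ _ p _ hc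
  refine IY_eq ⟨K, hK, subset_univ _, h1⟩ ?_ h
  rw [← union_compl_self K, mem_N_union]
  refine ⟨N_mono hKX ?_, dT_mem_N _ h1⟩
  have h2 := cup_leibniz (biA β) (τ₃ := triv F F Y4) hinv hτ' hτ (isCoc_triv X) (p := p) (n := 6)
    (by omega) y c
  have h3 : cup (biA β) τ (p + 1) (dT τ' y) c ∈ N F F 6 X := cup_mem_N_left _ _ (by omega) hy _
  have h4 : cup (biA β) τ p y (dT τ c) ∈ N F F 6 X :=
    (show p + (j + 1) = 6 by omega) ▸ cup_mem_N_right _ _ p _ (N_mono (subset_univ _) hd)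
  simpa using add_mem (add_mem h2 (zsmul_mem h4 ((-1) ^ p))) h3

theorem pd_cY [FiniteDimensional F E] {X : Set Y4} (hX : IsOpen X)
    {τ : Y4 → Y4 → Module.End F E} {τ' : Y4 → Y4 → Module.End F E'} (hτ : IsCoc τ X)
    (hτ' : IsCoc τ' X) (β : E' →ₗ[F] E →ₗ[F] F) (hβ : Function.Bijective β)
    (hinv : ∀ x y e' e, β (τ' x y e') (τ x y e) = β e' e) {n j : ℕ} (hn : 1 ≤ n) (hj : 1 ≤ j)
    (hnj : n + j = 6) {c : List Y4 → E} (hc : c ∈ Cc F E j X)
    (hd : dT τ c ∈ N F E (j + 1) univ)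
    (h : ∀ y, dT τ' y ∈ N F E' (n + 1) X → IY F (cup (biA β) τ (n - 1) y c) = 0) :
    ∃ c' ∈ Cc F E (j - 1) X, c - dT τ c' ∈ N F E j univ := by
  exact pd_aux hX hτ hτ' β hβ hinv hn hj hnj hc hd fun y hy ψ h' =>
    (IY_cup hτ hτ' β hinv hn hj hnj hc hd hy h').symm.trans (h y hy)

theorem pd_oY [FiniteDimensional F E] {X : Set Y4} (hX : IsOpen X)
    {τ : Y4 → Y4 → Module.End F E} {τ' : Y4 → Y4 → Module.End F E'} (hτ : IsCoc τ X)
    (hτ' : IsCoc τ' X) (β : E' →ₗ[F] E →ₗ[F] F) (hβ : Function.Bijective β)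
    (hinv : ∀ x y e' e, β (τ' x y e') (τ x y e) = β e' e) {n j : ℕ} (hn : 1 ≤ n) (hj : 1 ≤ j)
    (hnj : n + j = 6) {y : List Y4 → E'} (hy : dT τ' y ∈ N F E' (n + 1) X)
    (h : ∀ c ∈ Cc F E j X, dT τ c ∈ N F E (j + 1) univ → IY F (cup (biA β) τ (n - 1) y c) = 0) :
    Exa τ' n X y := by
  have hf : ∀ p ∈ to4 '' X, ContinuousAt fr p := fun p hp => cont_fr (img_ne hp)
  have h1 := pd_o4 (oe_to4.1.img X hX (subset_univ _)) (hτ.pb hf (maps_fr X))
    (hτ'.pb hf (maps_fr X)) β hβ (fun x y => hinv _ _) hn hj hnj (y := pull F E' fr y)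
    (pull_dT fr τ' y ▸ pull_mem_N hf (maps_fr X) hy) fun c hc hd => by
      have h2 : dT τ (pull F E to4 c) ∈ N F E (j + 1) univ :=
        to4_dT τ c ▸ to4_N (mapsTo_univ _ _) hd
      rw [← h _ (to4_Cc hc) h2]
      exact (IY_cup hτ hτ' β hinv hn hj hnj (to4_Cc hc) h2 hy ((show n - 1 + j = 5 by omega) ▸
        (push_of_Cc hc).cup hj (biA β) τ (by rw [sub_self]; exact zero_mem _))).symm
  have h2 := h1.pull (fun _ _ => cont_to4.continuousAt) (mapsTo_image to4 X)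
  rwa [pb_pb, pull_fr] at h2

/-- The untwisted scalar case. -/
theorem pd_cY_triv {X : Set Y4} (hX : IsOpen X) {n j : ℕ} (hn : 1 ≤ n) (hj : 1 ≤ j)
    (hnj : n + j = 6) {c : List Y4 → F} (hc : c ∈ Cc F F j X)
    (hd : dT (triv F F Y4) c ∈ N F F (j + 1) univ)
    (h : ∀ y, dT (triv F F Y4) y ∈ N F F (n + 1) X →
      IY F (cup (mulA F) (triv F F Y4) (n - 1) y c) = 0) :
    ∃ c' ∈ Cc F F (j - 1) X, c - dT (triv F F Y4) c' ∈ N F F j univ := by
  exact pd_cY hX (isCoc_triv _) (isCoc_triv _) _ mul_bij (fun _ _ _ _ => rfl) hn hj hnj hc hd h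

theorem pd_oY_triv {X : Set Y4} (hX : IsOpen X) {n j : ℕ} (hn : 1 ≤ n) (hj : 1 ≤ j)
    (hnj : n + j = 6) {y : List Y4 → F} (hy : dT (triv F F Y4) y ∈ N F F (n + 1) X)
    (h : ∀ c ∈ Cc F F j X, dT (triv F F Y4) c ∈ N F F (j + 1) univ →
      IY F (cup (mulA F) (triv F F Y4) (n - 1) y c) = 0) : Exa (triv F F Y4) n X y := by
  exact pd_oY hX (isCoc_triv _) (isCoc_triv _) _ mul_bij (fun _ _ _ _ => rfl) hn hj hnj hy h

/-- On a preconnected open set a closed top cochain of integral zero is exact. -/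
theorem top_exact {O : Set Y4} (hO : IsOpen O) (hc : IsPreconnected O) {φ : List Y4 → F}
    (hφ : φ ∈ Cc F F 5 O) (hd : dT (triv F F Y4) φ ∈ N F F 6 univ) (h0 : IY F φ = 0) :
    ∃ ψ ∈ Cc F F 4 O, φ - dT (triv F F Y4) ψ ∈ N F F 5 univ := by
  refine pd_cY_triv hO (n := 1) (j := 5) le_rfl (by omega) rfl hφ hd fun y hy => ?_
  obtain ⟨k, hk⟩ := cup_const hc hφ hy
  simpa [h0] using (isI_IY F).1 _ hk

theorem h2c_Y4 {R M : Type} [CommRing R] [AddCommGroup M] [Module R M] {c : List Y4 → M}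
    (hc : c ∈ Cc R M 3 (univ : Set Y4)) (hd : dT (triv R M Y4) c ∈ N R M 4 univ) :
    ∃ c' ∈ Cc R M 2 (univ : Set Y4), c - dT (triv R M Y4) c' ∈ N R M 3 univ := by
  obtain ⟨c₁, h₁⟩ := exists_push (by omega) hc
  obtain ⟨c', hc', h'⟩ := h2c_R4 (Cc_mono (subset_univ _) (h₁.Cc hc)) ((h₁.d _).univ hd)
  obtain ⟨z, hz⟩ := poincare (isCoc_triv {(0 : R4)}) le_rfl c'
    (by simpa using sub_mem h₁.1 (N_mono (subset_univ _) h'))
  set z' := cut R M (Metric.ball (0 : R4) 1) z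
  have h2 : c' - dT (triv R M R4) z' ∈ N R M 2 {0} := by
    have h3 := add_mem hz (dT_mem_N (triv R M R4) (N_mono (singleton_subset_iff.2
      (by rw [Metric.isOpen_ball.interior_eq]; simp)) (sub_cut_mem_N (Metric.ball 0 1) le_rfl z)))
    rwa [map_sub, sub_add_sub_cancel] at h3
  obtain ⟨K, hK, -, h3⟩ := sub_mem hc' (dT_mem_Cc (triv R M R4) (φ := z')
    ⟨_, Metric.isBounded_ball.isCompact_closure, subset_univ _, cut_mem_N_compl _ 1 z⟩)
  obtain ⟨V, hV, h0, h4⟩ := exists_open_of_mem_N h2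
  refine ⟨_, to4_Cc (ψ := c' - dT (triv R M R4) z') ⟨K \ V, hK.diff hV, ?_, ?_⟩, ?_⟩
  · rw [img_to4]
    rintro _ hx rfl
    exact hx.2 (h0 rfl)
  · rw [compl_sdiff, mem_N_union]
    exact ⟨h4, h3⟩
  · have h5 := add_mem h₁.back (to4_N (mapsTo_univ _ univ) h')
    rw [map_sub, sub_add_sub_cancel] at h5
    rw [← to4_dT]
    change c - pull R M to4 (dT (triv R M R4) _) ∈ _
    rwa [map_sub (dT _), dT_triv_dT, sub_zero]

end Pool.Agent.HH
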