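import Pool.Agent.P.MP_c8dc46_gt.SumL
import Pool.Agent.P.MP_c8dc46_gt.Dec

/-!
Regions of the configuration, first part: the decomposition of the exterior of `C`.
-/

open Set Topology

namespace Pool.Agent.HH

theorem isHolA_xc_lon_in {x₀ x₁ : ℂ} {r : ℝ} (h1 : ‖x₀‖ + r ≤ 1) (h : ‖x₁ - x₀‖ < r) :
    IsHolA (th fun p => xc p - x₁) (lon x₀ r) 1 := by
  have hr : 0 < r := (norm_nonneg _).trans_lt h
  have hex := continuous_ex
  have h2 : ∀ s, 0 < ((r + (x₀ - x₁) * ex (-s)) * ex (-0)).re := fun s => by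
    have e := (abs_le.1 (Complex.abs_re_le_norm ((x₀ - x₁) * ex (-s)))).1
    rw [norm_mul, norm_ex, mul_one, norm_sub_rev] at e
    rw [neg_zero, RFib.ex_zero, mul_one, Complex.add_re, Complex.ofReal_re]
    linarith
  refine isHolA_th (α := fun s => s + RFib.ang 0 (r + (x₀ - x₁) * ex (-s))) ?_ (fun s => ?_)
    fun s => ⟨‖r + (x₀ - x₁) * ex (-s)‖, norm_pos_iff.2 fun h0 => ?_, ?_⟩
  · exact continuous_id.add (continuous_iff_continuousAt.2 fun s =>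
      ContinuousAt.comp (g := RFib.ang 0) (RFib.continuousAt_ang (h2 s)) (by fun_prop))
  · have : ex (-(s + 1)) = ex (-s) := by
      rw [← RFib.ex_add_one (-(s + 1))]
      congr 1
      ring
    simp only [this]
    push_cast
    ring
  · simpa [h0] using h2 s
  · rw [ex_add, mul_left_comm, RFib.norm_ex_ang, xc_lon hr.le h1]
    linear_combination (x₁ - x₀) * RFib.ex_mul_neg s

theorem cut_fibL {R E : Type} [CommRing R] [AddCommGroup E] [Module R E]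
    {τ : S3 → S3 → Module.End R E} {B' Bc : Set ℂ} {M : Set S3} (hB : IsOpen B') (hc : Convex ℝ B')
    (h1 : ∀ x ∈ B', ‖x‖ < 1) {x₀ : ℂ} {r : ℝ} (hr : 0 < r) (hs : Metric.closedBall x₀ r ⊆ B')
    (hτ : IsCoc τ (RB (B' \ {x₀}))) (h : LoopAc τ (lon x₀ r)) (hBc : IsClosed Bc) (hsub : B' ⊆ Bc)
    (hM : RB Bc \ eta x₀ ⊆ M) (hd : Disjoint M (eta x₀)) : Cut τ M (RB (B' \ {x₀})) := by
  intro a K hK hKM ha ha'
  have hz : Metric.closedBall x₀ 0 = {x₀} := Metric.closedBall_zero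
  obtain ⟨φ, hφ⟩ := (acyc_fibL hB hc h1 le_rfl hr hs (hz ▸ hτ) h).2 a (hz ▸ ha)
  rw [hz] at hφ
  obtain ⟨δ, hδ, hth⟩ := (isCompact_closedBall x₀ r).exists_thickening_subset_open hB hs
  rw [thickening_closedBall hδ hr.le] at hth
  obtain ⟨ε, hε, hK0⟩ := Metric.isOpen_iff.1 (hK.image continuous_xc).isClosed.isOpen_compl x₀
    (by
      rintro ⟨q, hq, hq'⟩
      exact disjoint_left.1 hd (hKM hq) hq')
  have hb : Metric.ball x₀ (min ε r) ⊆ B' :=
    (Metric.ball_subset_ball (by linarith [min_le_right ε r])).trans hth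
  have hm : 0 < min ε r := lt_min hε hr
  have hw : ∀ w ∈ Ioo 0 (δ + r), ‖x₀‖ + |w| ≤ 1 := fun w hw => by
    have e := h1 _ (hth (show x₀ + w * ex (RFib.ang 0 x₀) ∈ Metric.ball x₀ (δ + r) by
      rw [mem_ball_iff_norm, RFib.norm_pol_sub, abs_of_pos hw.1]
      exact hw.2))
    have e' : x₀ + w * ex (RFib.ang 0 x₀) = ((‖x₀‖ + w : ℝ) : ℂ) * ex (RFib.ang 0 x₀) := by
      push_cast
      rw [add_mul, RFib.norm_ex_ang]
    rw [e', RFib.norm_mul_ex] at e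
    rw [abs_of_pos hw.1]
    exact (le_abs_self _).trans e.le
  have hl : LoopAc τ (lon x₀ (min ε r / 2)) :=
    LoopAc.homotopy isOpen_Ioo (convex_Ioo 0 (δ + r)) (RFib.lon_homotopy hw).1
      (RFib.lon_homotopy hw).2 (fun q hq => by
        have e := hw _ hq.2
        rw [abs_of_pos hq.2.1] at e
        change xc (lon x₀ q.2 q.1) ∈ B' \ {x₀}
        rw [xc_lon hq.2.1.le e]
        refine ⟨hth ?_, fun h0 => ?_⟩
        · rw [mem_ball_iff_norm, RFib.norm_pol_sub, abs_of_pos hq.2.1]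
          exact hq.2.2
        · have := RFib.norm_pol_sub x₀ q.2 q.1
          rw [mem_singleton_iff.1 h0, sub_self, norm_zero, abs_of_pos hq.2.1] at this
          exact hq.2.1.ne this) hτ (o := r) (o' := min ε r / 2) ⟨hr, by linarith⟩
      ⟨by linarith, by linarith [min_le_right ε r]⟩ h
  have hsub' : RB (Metric.ball x₀ (min ε r) \ {x₀}) ⊆ RB (B' \ {x₀}) :=
    RFib.RB_mono (sdiff_subset_sdiff_left hb)
  have h0 := (acyc_fibL Metric.isOpen_ball (convex_ball x₀ (min ε r)) (fun x hx => h1 x (hb hx))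
    le_rfl (half_pos hm) (Metric.closedBall_subset_ball (half_lt_self hm))
    (hz ▸ hτ.mono hsub') hl).1
  rw [hz] at h0
  refine ⟨φ, RB (Bc \ Metric.ball x₀ (min ε r)),
    (isClosed_RB (hBc.sdiff Metric.isOpen_ball)).isCompact, fun p hp => hM ⟨hp.1, fun he =>
      hp.2 (show xc p ∈ _ from (show xc p = x₀ from he) ▸ Metric.mem_ball_self hm)⟩, hφ,
    N_mono (fun p hp => ?_) (h0 φ ?_)⟩
  · exact ⟨by_contra fun hn => hp.2 ⟨hsub hp.1.1, hn⟩, hp.1.2⟩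
  · have := Submodule.sub_mem _ (N_mono (S := RB (Metric.ball x₀ (min ε r) \ {x₀}))
      (S' := RB (B' \ {x₀}) \ K) (fun p hp => ⟨hsub' hp, fun hq =>
        hK0 (Metric.ball_subset_ball (min_le_left ε r) hp.1) ⟨p, hq, rfl⟩⟩) ha') (N_mono hsub' hφ)
    rwa [sub_sub_cancel] at this

namespace Geo

variable {r s : Fin 2 → ℕ} {P : ℝ → S3} (g : Geo r s P)

theorem norm_xi (i : Fin 2) : ‖g.xi i‖ = g.a := by
  exact RSumL.norm_centre g.rad (sg_cases i)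

theorem norm_xi_sub : ‖g.xi 0 - g.xi 1‖ = 2 * g.a := by
  have h : g.xi 0 - g.xi 1 = ((-(2 * g.a) : ℝ) : ℂ) := by
    simp only [xi, RSumL.sg0, RSumL.sg1]
    push_cast
    ring
  rw [h, Complex.norm_real, Real.norm_eq_abs, abs_neg, abs_of_pos (by linarith [g.rad.1])]

theorem oe_fl : OE g.fl (eta (g.xi 0) ∪ eta (g.xi 1))ᶜ := by
  exact oe_FL _ _ g.rad

end Geo

namespace RReg1

variable {r s : Fin 2 → ℕ} {P : ℝ → S3} (g : Geo r s P)

theorem xi_lt (i : Fin 2) : ‖g.xi i‖ < 1 := by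
  rw [g.norm_xi]
  linarith [g.rad.2.1, g.rad.2.2]

theorem pre_eta (i : Fin 2) : IsPreconnected (eta (g.xi i))ᶜ := by
  rw [compl_eq_univ_sdiff]
  exact (flat_eta (xi_lt g i)).isPreconnected_diff isOpen_univ
    (isOpen_univ.sdiff (RSumL.isClosed_eta _)) isPreconnected_univ

theorem zone_open : IsOpen {p : S3 | |(xc p).re| < 1 / 4} :=
  isOpen_lt RSumL.continuous_re.abs continuous_const

theorem zone_ne : {p : S3 | |(xc p).re| < 1 / 4}.Nonempty :=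
  ⟨⟨(0, 1), by simp⟩, by simp [xc]⟩

theorem zone_le (i : Fin 2) {p : S3} (hp : |(xc p).re| < 1 / 4) : sg i * (xc p).re ≤ 1 / 2 := by
  obtain ⟨h1, h2⟩ := abs_lt.1 hp
  rcases sg_cases i with h | h <;> rw [h] <;> linarith

theorem zone_F (i : Fin 2) {p : S3} (hp : |(xc p).re| < 1 / 4) : (g.lk i).F p = p :=
  (g.lk i).idz p (zone_le i hp)

theorem zone_eta (i : Fin 2) {p : S3} (hp : |(xc p).re| < 1 / 4) : p ∉ eta (g.xi i) :=
  RLKb.not_eta (g.rad.2.1.trans_le (RSumL.far_of_re g.rad (sg_cases i) (zone_le i hp)))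

theorem far_eta (i : Fin 2) {p : S3} (hp : g.a < ‖xc p‖) : p ∉ eta (g.xi i) :=
  RSumL.not_mem_eta g.rad (sg_cases i) hp

theorem mem_Mid {p : S3} : p ∈ g.Mid ↔ p ∉ range P ∧ ∀ i, p ∉ eta (g.xi i) := by
  simp only [Geo.Mid, mem_compl_iff, mem_union, not_or, Fin.forall_fin_two, and_assoc]

theorem Mid_dom {p : S3} (hp : p ∈ g.Mid) : p ∈ (eta (g.xi 0) ∪ eta (g.xi 1))ᶜ :=
  fun h => h.elim (((mem_Mid g).1 hp).2 0) (((mem_Mid g).1 hp).2 1)

theorem P_dom (t : ℝ) : P t ∈ (eta (g.xi 0) ∪ eta (g.xi 1))ᶜ := fun h =>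
  have : g.a < ‖xc (P t)‖ := by linarith [g.thin t, g.rad.2.1]
  h.elim (far_eta g 0 this) (far_eta g 1 this)

theorem RB_Mid {B : Set ℂ} (h : ∀ x ∈ B, ‖x‖ ≤ g.a + 7 * g.ρ ∧ ∀ i, x ≠ g.xi i) :
    RB B ⊆ g.Mid := fun p hp => (mem_Mid g).2 ⟨by
      rintro ⟨t, rfl⟩
      exact (g.thin t).not_ge (h _ hp).1, (h _ hp).2⟩

theorem norm_le (i : Fin 2) (x : ℂ) : ‖x‖ ≤ g.a + ‖x - g.xi i‖ := by
  have := norm_sub_norm_le x (g.xi i)
  rw [g.norm_xi] at this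
  linarith

theorem two_far (x : ℂ) : 2 * g.a ≤ ‖x - g.xi 0‖ + ‖x - g.xi 1‖ := by
  have := norm_sub_le (x - g.xi 1) (x - g.xi 0)
  rw [sub_sub_sub_cancel_left, g.norm_xi_sub] at this
  linarith

theorem near (i : Fin 2) {x : ℂ} (h0 : 0 < ‖x - g.xi i‖) (h1 : ‖x - g.xi i‖ ≤ 7 * g.ρ) :
    ‖x‖ ≤ g.a + 7 * g.ρ ∧ ∀ j, x ≠ g.xi j := by
  obtain ⟨r1, r2, r3⟩ := g.rad
  refine ⟨by linarith [norm_le g i x], fun j hj => ?_⟩
  have h2 := two_far g x
  have h3 : ‖x - g.xi j‖ = 0 := by rw [hj, sub_self, norm_zero]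
  fin_cases i <;> fin_cases j <;> simp only [Fin.zero_eta, Fin.mk_one] at h0 h1 h3 <;> linarith

theorem other (i : Fin 2) : ∃ j, sg j = -sg i := by
  fin_cases i
  · exact ⟨1, by simp [sg]⟩
  · exact ⟨0, by simp [sg]⟩

end RReg1

namespace Geo

open RReg1

variable {r s : Fin 2 → ℕ} {P : ℝ → S3} (g : Geo r s P)

theorem degOne_fl (F : Type) [Field F] : DegOne F g.fl (eta (g.xi 0) ∪ eta (g.xi 1))ᶜ := by
  refine degOne_of_isot F g.oe_fl ?_ isot_refl zone_open zone_ne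
    (fun p hp h => h.elim (zone_eta g 0 hp) (zone_eta g 1 hp)) fun p hp => ?_
  · rw [compl_union]
    exact (flat_eta (xi_lt g 1)).isPreconnected_diff (RSumL.isClosed_eta _).isOpen_compl
      ((RSumL.isClosed_eta _).isOpen_compl.sdiff (RSumL.isClosed_eta _)) (pre_eta g 0)
  · have hp' : |(xc p).re| < 1 / 4 := hp
    exact (FL_left _ _ (by linarith [(abs_lt.1 hp').2])).trans (zone_F g 0 hp)

theorem isot_Ψ (i : Fin 2) : Isot (g.Ψ i) := by
  unfold Ψ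
  split_ifs
  · exact isot_refl
  · exact isot_rot.conj g.h

theorem degOne_Ψ (F : Type) [Field F] (i : Fin 2) : DegOne F (g.Ψ i) univ := by
  exact degOne_of_isot F (OE.of_homeomorph _ isOpen_univ) isPreconnected_univ (g.isot_Ψ i)
    isOpen_univ univ_nonempty Subset.rfl fun _ _ => rfl

theorem oe_ΨF (i : Fin 2) : OE (g.Ψ i ∘ (g.lk i).F) (eta (g.xi i))ᶜ := by
  exact (OE.of_homeomorph (g.Ψ i) isOpen_univ).comp (g.lk i).oe (mapsTo_univ _ _)

theorem degOne_ΨF (F : Type) [Field F] (i : Fin 2) :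
    DegOne F (g.Ψ i ∘ (g.lk i).F) (eta (g.xi i))ᶜ := by
  exact degOne_of_isot F (g.oe_ΨF i) (pre_eta g i) (g.isot_Ψ i) zone_open zone_ne
    (fun p hp => zone_eta g i hp) fun p hp => congrArg (g.Ψ i) (zone_F g i hp)

theorem disjoint_P : Disjoint (range P) (RB (Metric.closedBall 0 (g.a + 7 * g.ρ))) := by
  refine disjoint_left.2 ?_
  rintro _ ⟨t, rfl⟩ h
  exact (g.thin t).not_ge (mem_closedBall_zero_iff.1 h)

theorem fl_eq (i : Fin 2) {p : S3} (hp : -1 / 2 ≤ sg i * (xc p).re) : g.fl p = (g.lk i).F p := by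
  fin_cases i
  · exact FL_left _ _ (by simp only [Fin.zero_eta, RSumL.sg0] at hp; linarith)
  · exact FL_right _ _ (by simp only [Fin.mk_one, RSumL.sg1] at hp; linarith)

theorem fl_h {p : S3} (hp : -1 / 2 ≤ (xc p).re) : g.fl (g.h p) = g.h p := by
  exact (FL_left _ _ (by linarith [(abs_lt.1 (g.hz p hp).1).2])).trans (zone_F g 0 (g.hz p hp).1)

theorem F_h (i : Fin 2) {p : S3} (hp : -1 / 2 ≤ (xc p).re) : (g.lk i).F (g.h p) = g.h p := by
  exact zone_F g i (g.hz p hp).1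

theorem h_mem_Mid {p : S3} (hp : -1 / 2 ≤ (xc p).re) (hy : yc p ≠ 0) : g.h p ∈ g.Mid := by
  exact (mem_Mid g).2 ⟨fun h => hy ((g.hP p hp).1 h),
    fun i => far_eta g i (by linarith [(g.hz p hp).2, g.rad.2.1])⟩

theorem fl_mem_C {p : S3} (hp : p ∉ eta (g.xi 0) ∪ eta (g.xi 1)) :
    g.fl p ∈ range g.C ↔ p ∈ range P := by
  refine ⟨?_, ?_⟩
  · rintro ⟨t, ht⟩
    exact ⟨t, g.oe_fl.inj (P_dom g t) hp ht⟩
  · rintro ⟨t, rfl⟩
    exact ⟨t, rfl⟩

theorem fl_maps : MapsTo g.fl g.Mid (range g.C)ᶜ ∧ ∀ p ∈ g.Mid, ContinuousAt g.fl p := by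
  exact ⟨fun p hp h => ((mem_Mid g).1 hp).1 ((g.fl_mem_C (Mid_dom g hp)).1 h),
    fun p hp => g.oe_fl.cont.continuousAt (g.oe_fl.isOpen.mem_nhds (Mid_dom g hp))⟩

theorem fl_lon (i : Fin 2) : g.fl ∘ lon (g.xi i) (5 * g.ρ / 2) = (g.lk i).lam := by
  obtain ⟨r1, r2, r3⟩ := g.rad
  funext t
  refine g.fl_eq i ?_
  have := RLKb.far (a := g.a) (sg_cases i) (xc (lon (g.xi i) (5 * g.ρ / 2) t))
  rw [xc_lon (by linarith) (by rw [g.norm_xi]; linarith)] at this ⊢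
  have e := RLKb.norm_lon (x₀ := g.xi i) (r := 5 * g.ρ / 2) (by linarith) t
  have := this.trans e.le
  linarith

theorem isLoop_lon_Mid (i : Fin 2) : IsLoop (lon (g.xi i) (5 * g.ρ / 2)) g.Mid := by
  obtain ⟨r1, r2, r3⟩ := g.rad
  have h := isLoop_lon (x₀ := g.xi i) (r := 5 * g.ρ / 2) (by linarith)
    (by rw [g.norm_xi]; linarith) (B := {x | ‖x - g.xi i‖ = 5 * g.ρ / 2})
    fun t => RLKb.norm_lon (by linarith) t
  exact ⟨h.1, h.2.1, fun t => RB_Mid g (fun x hx =>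
    near g i (by rw [hx]; linarith) (by rw [hx]; linarith)) (h.2.2 t)⟩

end Geo

namespace RReg1

variable {r s : Fin 2 → ℕ} {P : ℝ → S3} (g : Geo r s P)

theorem fl_Oc (i : Fin 2) {r' : ℝ} (h0 : 0 < r') (h8 : r' ≤ 8 * g.ρ) {p : S3}
    (hp : p ∈ (eta (g.xi 0) ∪ eta (g.xi 1))ᶜ) :
    g.fl p ∈ (g.lk i).Oc r' ↔ ‖xc p - g.xi i‖ < r' := by
  obtain ⟨r1, r2, r3⟩ := g.rad
  have he : ∀ j, p ∉ eta (g.xi j) :=
    Fin.forall_fin_two.2 ⟨fun h => hp (Or.inl h), fun h => hp (Or.inr h)⟩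
  by_cases h : -1 / 2 ≤ sg i * (xc p).re
  · rw [g.fl_eq i h]
    exact (g.lk i).mem_Oc_iff h0 (he i)
  · obtain ⟨j, hj⟩ := other i
    have h1 : 1 / 2 < sg j * (xc p).re := by rw [hj]; linarith
    refine iff_of_false (fun h2 => ?_) (not_lt.2 ?_)
    · have e1 := (g.lk i).Oc_side g.rad (sg_cases i) h8 h2
      have e2 := (g.lk j).side g.rad (sg_cases j) (he j) h1
      rw [← g.fl_eq j (by linarith), hj] at e2
      linarith
    · exact le_trans (by linarith) (RLKb.far (a := g.a) (sg_cases i) (xc p))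

theorem cover {p : S3} (h0 : p ∉ g.Oi 0) (h1 : p ∉ g.Oi 1) :
    ∃ q, (∀ i, 2 * g.ρ ≤ ‖xc q - g.xi i‖) ∧ g.fl q = p := by
  obtain ⟨r1, r2, r3⟩ := g.rad
  obtain ⟨i, hi⟩ : ∃ i, 0 ≤ sg i * (xc p).re := by
    rcases le_total 0 (xc p).re with h | h
    · exact ⟨1, by rw [RSumL.sg1]; linarith⟩
    · exact ⟨0, by rw [RSumL.sg0]; linarith⟩
  obtain ⟨q, hq, rfl⟩ := not_not.1 ((Fin.forall_fin_two (p := fun i => p ∉ g.Oi i)).2 ⟨h0, h1⟩ i)
  have h2 : 0 ≤ sg i * (xc q).re := by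
    by_contra hn
    rw [(g.lk i).idz q (by linarith)] at hi
    exact hn hi
  refine ⟨q, fun j => ?_, g.fl_eq i (by linarith)⟩
  by_cases hj : j = i
  · exact hj ▸ hq
  · refine le_trans ?_ (RLKb.far (a := g.a) (sg_cases j) (xc q))
    have : sg j = -sg i := by
      fin_cases i <;> fin_cases j <;> simp_all [sg]
    rw [this]
    linarith

theorem img_disj {S T : Set S3} (hS : S ⊆ g.Mid) (hT : T ⊆ g.Mid) (h : ∀ p ∈ S, p ∉ T) :
    Disjoint (g.fl '' S) (g.fl '' T) := by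
  refine disjoint_left.2 ?_
  rintro _ ⟨p, hp, rfl⟩ ⟨q, hq, e⟩
  exact h p hp (g.oe_fl.inj (Mid_dom g (hT hq)) (Mid_dom g (hS hp)) e ▸ hq)

theorem Bc_open (i : Fin 2) : IsOpen (g.Bc i) :=
  (RLKb.open_lt _ _).inter (isOpen_lt (continuous_id.sub continuous_const).norm continuous_const)

theorem Bv_open : IsOpen g.Bv :=
  (isOpen_lt continuous_const continuous_norm).inter (isOpen_lt continuous_norm continuous_const)

theorem Bq_open : IsOpen {x : ℂ | ‖x‖ < 1 ∧ -1 / 2 < x.re} :=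
  (isOpen_lt continuous_norm continuous_const).inter
    (isOpen_lt continuous_const Complex.continuous_re)

theorem Bc_Mid (i : Fin 2) : RB (g.Bc i) ⊆ g.Mid :=
  RB_Mid g fun _ hx => near g i (g.rad.2.1.trans hx.1) (by linarith [hx.2, g.rad.2.1])

theorem Bv_Mid : RB g.Bv ⊆ g.Mid :=
  RB_Mid g fun x hx => ⟨by linarith [hx.2, g.rad.2.1], fun i h => by
    have := hx.1
    rw [h, g.norm_xi] at this
    linarith [g.rad.2.1]⟩

theorem Bq_Mid : g.h '' RB {x | ‖x‖ < 1 ∧ -1 / 2 < x.re} ⊆ g.Mid := by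
  rintro _ ⟨p, hp, rfl⟩
  exact g.h_mem_Mid hp.2.le fun h => hp.1.ne ((yc_eq_zero_iff p).1 h)

theorem Bq_fl : g.fl '' (g.h '' RB {x | ‖x‖ < 1 ∧ -1 / 2 < x.re}) =
    g.h '' RB {x | ‖x‖ < 1 ∧ -1 / 2 < x.re} := by
  rw [image_image]
  exact image_congr fun p hp => g.fl_h hp.2.le

theorem sh_open (i : Fin 4) : IsOpen (g.shC i) := by
  fin_cases i
  · exact g.oe_fl.img _ (isOpen_RB (Bc_open g 0)) fun p hp => Mid_dom g (Bc_Mid g 0 hp)
  · exact g.oe_fl.img _ (isOpen_RB (Bc_open g 1)) fun p hp => Mid_dom g (Bc_Mid g 1 hp)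
  · exact g.oe_fl.img _ (isOpen_RB (Bv_open g)) fun p hp => Mid_dom g (Bv_Mid g hp)
  · exact g.h.isOpenMap _ (isOpen_RB Bq_open)

theorem sh_sub (i : Fin 4) : g.shC i ⊆ (range g.C)ᶜ := by
  fin_cases i
  · exact (g.fl_maps.1.mono_left (Bc_Mid g 0)).image_subset
  · exact (g.fl_maps.1.mono_left (Bc_Mid g 1)).image_subset
  · exact (g.fl_maps.1.mono_left (Bv_Mid g)).image_subset
  · exact (Bq_fl g).superset.trans (g.fl_maps.1.mono_left (Bq_Mid g)).image_subset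

theorem sh_disj : Pairwise fun i j => Disjoint (g.shC i) (g.shC j) := by
  obtain ⟨r1, r2, r3⟩ := g.rad
  have h01 := img_disj g (Bc_Mid g 0) (Bc_Mid g 1) fun p h0 h1 => by
    linarith [two_far g (xc p), h0.2, h1.2]
  have h2 := fun i => img_disj g (Bc_Mid g i) (Bv_Mid g) fun p h0 h1 => by
    linarith [norm_le g i (xc p), h0.2, h1.1]
  have h3 := fun i => (img_disj g (Bc_Mid g i) (Bq_Mid g) (by
    rintro _ h0 ⟨p, hp, rfl⟩
    linarith [norm_le g i (xc (g.h p)), h0.2, (g.hz p hp.2.le).2])).mono_right (Bq_fl g).superset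
  have h23 := (img_disj g (Bv_Mid g) (Bq_Mid g) (by
    rintro _ h0 ⟨p, hp, rfl⟩
    linarith [h0.2, (g.hz p hp.2.le).2])).mono_right (Bq_fl g).superset
  intro i j hij
  fin_cases i <;> fin_cases j
  exacts [(hij rfl).elim, h01, h2 0, h3 0, h01.symm, (hij rfl).elim, h2 1, h3 1, (h2 0).symm,
    (h2 1).symm, (hij rfl).elim, h23, (h3 0).symm, (h3 1).symm, h23.symm, (hij rfl).elim]

end RReg1

namespace Geo

open RReg1

variable {r s : Fin 2 → ℕ} {P : ℝ → S3} (g : Geo r s P)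

theorem Oc_subset_C (i : Fin 2) : (g.lk i).Oc (4 * g.ρ) ⊆ (range g.C)ᶜ := by
  obtain ⟨r1, r2, r3⟩ := g.rad
  rintro _ hp ⟨t, rfl⟩
  have := (fl_Oc g i (by linarith) (by linarith) (P_dom g t)).1 hp
  linarith [norm_le g i (xc (P t)), g.thin t]

theorem isOpen_Mid : IsOpen g.Mid := by
  exact ((g.knot.isClosed.union (RSumL.isClosed_eta _)).union (RSumL.isClosed_eta _)).isOpen_compl

theorem isOpen_So : IsOpen g.So := by
  exact ((isOpen_RB (isOpen_lt continuous_const continuous_norm)).sdiff g.knot.isClosed).sdiff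
    (g.h.isClosedMap _ (isClosed_RB (isClosed_le continuous_const Complex.continuous_re)))

theorem isOpen_Qo : IsOpen g.Qo := by
  refine isOpen_RB ((isOpen_lt continuous_norm continuous_const).inter ?_)
  change IsOpen {x : ℂ | ∀ i, 3 * g.ρ < ‖x - g.xi i‖}
  simp only [Fin.forall_fin_two]
  exact (RLKb.open_lt _ _).inter (RLKb.open_lt _ _)

theorem So_subset : g.So ⊆ g.Mid := by
  exact fun p hp => (mem_Mid g).2 ⟨hp.1.2, fun i => far_eta g i
    (lt_trans (by linarith [g.rad.2.1]) hp.1.1)⟩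

theorem Qo_subset : g.Qo ⊆ g.Mid := by
  have hρ := g.rad.2.1
  refine RB_Mid g fun x hx => ⟨by linarith [hx.1], fun i h => ?_⟩
  have := hx.2 i
  rw [h, sub_self, norm_zero] at this
  linarith

theorem RB_subset_Mid {B : Set ℂ} (h : ∀ x ∈ B, ‖x‖ ≤ g.a + 7 * g.ρ ∧ ∀ i, x ≠ g.xi i) :
    RB B ⊆ g.Mid := by
  exact RB_Mid g h

theorem decC : Coef.IsDec (range g.C)ᶜ (⋃ i, g.shC i) g.pcC := by
  obtain ⟨r1, r2, r3⟩ := g.rad
  have hO : ∀ i, ∀ S ⊆ g.Mid, (∀ p ∈ S, 2 * g.ρ ≤ ‖xc p - g.xi i‖) →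
      Disjoint (g.Oi i) (g.fl '' S) := fun i S hS h => disjoint_left.2 (by
    rintro _ hp ⟨q, hq, rfl⟩
    exact (h q hq).not_gt ((fl_Oc g i (by linarith) (by linarith) (Mid_dom g (hS hq))).1 hp))
  have hQ := fun i => hO i _ g.Qo_subset fun p hp => by linarith [hp.2 i]
  have hS := fun i => hO i _ g.So_subset fun p hp => by
    have h1 : g.a + 6 * g.ρ < ‖xc p‖ := hp.1.1
    linarith [norm_le g i (xc p)]
  have h01 : Disjoint (g.Oi 0) (g.Oi 1) := disjoint_left.2 fun p h0 h1 => by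
    have e0 := (g.lk 0).Oc_side g.rad (sg_cases 0) (by linarith) h0
    have e1 := (g.lk 1).Oc_side g.rad (sg_cases 1) (by linarith) h1
    rw [RSumL.sg0] at e0
    rw [RSumL.sg1] at e1
    linarith
  have h23 : Disjoint (g.fl '' g.Qo) (g.fl '' g.So) :=
    img_disj g g.Qo_subset g.So_subset fun p h2 h3 => by
      have e2 : ‖xc p‖ < g.a + 5 * g.ρ := h2.1
      have e3 : g.a + 6 * g.ρ < ‖xc p‖ := h3.1.1
      linarith
  have hOi : ∀ i, g.Oi i ⊆ (range g.C)ᶜ := fun i =>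
    ((g.lk i).Oc_mono (by linarith)).trans (g.Oc_subset_C i)
  refine ⟨g.knotC.isClosed.isOpen_compl, fun i => ?_, fun i => ?_, fun i j hij => ?_,
    isOpen_iUnion (sh_open g), iUnion_subset (sh_sub g), fun p hp => ?_⟩
  · fin_cases i
    · exact (g.lk 0).isOpen_Oc g.rad (by linarith)
    · exact (g.lk 1).isOpen_Oc g.rad (by linarith)
    · exact g.oe_fl.img _ g.isOpen_Qo fun p hp => Mid_dom g (g.Qo_subset hp)
    · exact g.oe_fl.img _ g.isOpen_So fun p hp => Mid_dom g (g.So_subset hp)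
  · fin_cases i
    · exact hOi 0
    · exact hOi 1
    · exact (g.fl_maps.1.mono_left g.Qo_subset).image_subset
    · exact (g.fl_maps.1.mono_left g.So_subset).image_subset
  · fin_cases i <;> fin_cases j
    exacts [(hij rfl).elim, h01, hQ 0, hS 0, h01.symm, (hij rfl).elim, hQ 1, hS 1, (hQ 0).symm,
      (hQ 1).symm, (hij rfl).elim, h23, (hS 0).symm, (hS 1).symm, h23.symm, (hij rfl).elim]
  · by_cases h0 : p ∈ g.Oi 0
    · exact Or.inl (mem_iUnion.2 ⟨0, h0⟩)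
    by_cases h1 : p ∈ g.Oi 1
    · exact Or.inl (mem_iUnion.2 ⟨1, h1⟩)
    obtain ⟨q, hq, rfl⟩ := cover g h0 h1
    have hqP : q ∉ range P := by
      rintro ⟨t, rfl⟩
      exact hp ⟨t, rfl⟩
    by_cases c0 : ‖xc q - g.xi 0‖ ≤ 3 * g.ρ
    · exact Or.inr (mem_iUnion.2 ⟨0, q, ⟨by linarith [hq 0], by linarith⟩, rfl⟩)
    by_cases c1 : ‖xc q - g.xi 1‖ ≤ 3 * g.ρ
    · exact Or.inr (mem_iUnion.2 ⟨1, q, ⟨by linarith [hq 1], by linarith⟩, rfl⟩)
    by_cases c2 : ‖xc q‖ < g.a + 5 * g.ρ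
    · exact Or.inl (mem_iUnion.2 ⟨2, q, ⟨c2, Fin.forall_fin_two.2 ⟨not_le.1 c0, not_le.1 c1⟩⟩, rfl⟩)
    by_cases c3 : ‖xc q‖ ≤ g.a + 6 * g.ρ
    · exact Or.inr (mem_iUnion.2 ⟨2, q, ⟨by linarith, by linarith⟩, rfl⟩)
    by_cases c4 : q ∈ g.h '' RB {x | -1 / 4 ≤ x.re}
    · obtain ⟨u, hu, rfl⟩ := c4
      have hu' : -1 / 2 < (xc u).re := lt_of_lt_of_le (by norm_num) hu
      exact Or.inr (mem_iUnion.2 ⟨3, u, ⟨RLKb.lt_of_yc fun h => hqP ((g.hP u hu'.le).2 h), hu'⟩,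
        (g.fl_h hu'.le).symm⟩)
    · exact Or.inl (mem_iUnion.2 ⟨3, q, ⟨⟨not_le.1 c3, hqP⟩, c4⟩, rfl⟩)

theorem cutC {R E : Type} [CommRing R] [AddCommGroup E] [Module R E]
    {τ : S3 → S3 → Module.End R E} (hτ : IsCoc τ (range g.C)ᶜ)
    (h₀ : ∀ i, Acyc (pb g.fl τ) 2 (RB (g.Bc i))) (h₁ : Acyc (pb g.fl τ) 2 (RB g.Bv))
    (hq : ∀ x : ℂ, ‖x‖ < 1 → -1 / 2 < x.re → LoopAc τ (g.h ∘ fib x)) :
    Cut τ (range g.C)ᶜ (⋃ i, g.shC i) := by
  obtain ⟨r1, r2, r3⟩ := g.rad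
  have key : ∀ B B' : Set ℂ, IsOpen B → IsClosed B' → B ⊆ B' → RB B' ⊆ g.Mid →
      Acyc (pb g.fl τ) 2 (RB B) → Cut τ (range g.C)ᶜ (g.fl '' RB B) := fun B B' hB hB' hs hM h =>
    cut_of_compact ((isClosed_RB hB').isCompact.image_of_continuousOn
      (g.oe_fl.cont.mono fun p hp => Mid_dom g (hM hp))) (image_mono (RFib.RB_mono hs))
      (g.fl_maps.1.mono_left hM).image_subset
      (((g.oe_fl.mono (isOpen_RB hB) fun p hp => Mid_dom g (hM (hs hp))).acyc_iff τ 2).1 h)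
  have kc : ∀ i, Cut τ (range g.C)ᶜ (g.fl '' RB (g.Bc i)) := fun i =>
    key _ {x | g.ρ ≤ ‖x - g.xi i‖ ∧ ‖x - g.xi i‖ ≤ 4 * g.ρ} (Bc_open g i)
      ((RLKb.closed_le _ _).inter
        (isClosed_le (continuous_id.sub continuous_const).norm continuous_const))
      (fun x hx => ⟨hx.1.le, hx.2.le⟩)
      (RB_Mid g fun x hx => near g i (by linarith [hx.1]) (by linarith [hx.2])) (h₀ i)
  refine Cut.iUnion (sh_open g) (sh_disj g) fun i => ?_
  fin_cases i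
  · exact kc 0
  · exact kc 1
  · exact key _ {x | g.a + 9 * g.ρ / 2 ≤ ‖x‖ ∧ ‖x‖ ≤ g.a + 13 * g.ρ / 2} (Bv_open g)
      ((isClosed_le continuous_const continuous_norm).inter
        (isClosed_le continuous_norm continuous_const)) (fun x hx => ⟨hx.1.le, hx.2.le⟩)
      (RB_Mid g fun x hx => ⟨by linarith [hx.2], fun i h => by
        have := hx.1
        rw [h, g.norm_xi] at this
        linarith⟩) h₁
  · have hm : ∀ p, -1 / 2 ≤ (xc p).re → yc p ≠ 0 → g.h p ∉ range g.C := fun p hp hy =>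
      g.fl_h hp ▸ g.fl_maps.1 (g.h_mem_Mid hp hy)
    have := Cut.homeo g.h (cut_fibX (τ := pb g.h τ) (M := g.h ⁻¹' (range g.C)ᶜ) Bq_open
      (fun x hx => hx.1) (hτ.pb (fun _ _ => g.h.continuous.continuousAt)
        fun p hp => hm p hp.2.le fun h => hp.1.ne ((yc_eq_zero_iff p).1 h))
      (fun x hx => hq x hx.1 hx.2) (isClosed_le continuous_const Complex.continuous_re)
      (fun x hx => hx.2.le) (fun p hp => hm p hp.1 hp.2)
      (disjoint_left.2 fun p hp hU => by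
        obtain ⟨t, ht⟩ := (g.hP p hU.1).2 hU.2
        exact hp ⟨t, (congrArg g.fl ht).trans (g.fl_h hU.1)⟩))
    rwa [g.h.image_preimage] at this

end Geo

end Pool.Agent.HH
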