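import Pool.Agent.P.MP_c8dc46_gt.Reg1

/-!
Regions of the configuration, second part: the retraction along the arc, the decompositions of
the exterior of `D` and of the pattern link.
-/

open Set Topology

namespace Pool.Agent.HH

namespace RReg2

open RLKb

/-- The clamped height. -/
noncomputable def mm (p : S3) : ℝ := min (xc p).re (-1 / 4)

/-- The scaling factor. -/
noncomputable def la (p : S3) : ℝ := √(1 - mm p ^ 2) / √(1 - (xc p).re ^ 2)

/-- The pushed point. -/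
noncomputable def gg (p : S3) : ℂ × ℂ :=
  ((mm p : ℂ) + (la p * (xc p).im : ℝ) * Complex.I, (la p : ℂ) * yc p)

theorem re_sq (p : S3) : (xc p).im ^ 2 + ‖yc p‖ ^ 2 = 1 - (xc p).re ^ 2 := by
  have h := RFib.sq_add p
  rw [Complex.sq_norm, Complex.normSq_apply] at h
  linarith

theorem mm_sq {p : S3} (h : |(xc p).re| < 1) : 0 < 1 - mm p ^ 2 := by
  have h1 := abs_lt.1 h
  have h2 : -1 < mm p := lt_min h1.1 (by norm_num)
  have h3 : mm p ≤ -1 / 4 := min_le_right _ _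
  nlinarith

theorem u_sq {p : S3} (h : |(xc p).re| < 1) : 0 < 1 - (xc p).re ^ 2 := by
  have h1 := abs_lt.1 h
  nlinarith

theorem la_pos {p : S3} (h : |(xc p).re| < 1) : 0 < la p :=
  div_pos (Real.sqrt_pos.2 (mm_sq h)) (Real.sqrt_pos.2 (u_sq h))

theorem gg_mem {p : S3} (h : |(xc p).re| < 1) : ‖(gg p).1‖ ^ 2 + ‖(gg p).2‖ ^ 2 = 1 := by
  have h1 : la p ^ 2 * (1 - (xc p).re ^ 2) = 1 - mm p ^ 2 := by
    rw [la, div_pow, Real.sq_sqrt (mm_sq h).le, Real.sq_sqrt (u_sq h).le,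
      div_mul_cancel₀ _ (u_sq h).ne']
  have h2 := re_sq p
  simp only [gg]
  rw [Complex.sq_norm, Complex.normSq_add_mul_I, norm_mul, mul_pow, mul_pow, Complex.norm_real,
    Real.norm_eq_abs, sq_abs]
  rw [← h2] at h1
  linarith

open Classical in
/-- The push along great circles. -/
noncomputable def pp (p : S3) : S3 := if h : |(xc p).re| < 1 then ⟨gg p, gg_mem h⟩ else p

theorem pp_val {p : S3} (h : |(xc p).re| < 1) : (pp p).1 = gg p := by
  rw [pp, dif_pos h]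

theorem pp_id {p : S3} (hp : (xc p).re ≤ -1 / 4) : pp p = p := by
  by_cases h : |(xc p).re| < 1
  · have h1 : mm p = (xc p).re := min_eq_left hp
    have h2 : la p = 1 := by
      rw [la, h1, div_self (Real.sqrt_pos.2 (u_sq h)).ne']
    refine Subtype.ext ?_
    rw [pp_val h, gg, h1, h2, one_mul, Complex.re_add_im, Complex.ofReal_one, one_mul]
    rfl
  · rw [pp, dif_neg h]

theorem abs_re_lt {p : S3} (h : yc p ≠ 0) : |(xc p).re| < 1 :=
  (Complex.abs_re_le_norm _).trans_lt (lt_of_yc h)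

theorem cont_re : Continuous fun p : S3 => (xc p).re := Complex.continuous_re.comp continuous_xc

theorem pp_cont {p : S3} (hp : (xc p).re < -1 / 4 ∨ yc p ≠ 0) : ContinuousAt pp p := by
  rcases hp with hp | hp
  · refine continuousAt_id.congr ?_
    filter_upwards [(isOpen_lt cont_re continuous_const).mem_nhds hp] with q hq
    exact (pp_id (le_of_lt hq)).symm
  · have h := abs_re_lt hp
    have hm : Continuous mm := cont_re.min continuous_const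
    have hl : ContinuousAt la p :=
      ((continuous_const.sub (hm.pow 2)).sqrt.continuousAt).div
        ((continuous_const.sub (cont_re.pow 2)).sqrt.continuousAt)
        (Real.sqrt_pos.2 (u_sq h)).ne'
    have him : Continuous fun p : S3 => (xc p).im := Complex.continuous_im.comp continuous_xc
    have hg : ContinuousAt gg p :=
      (((Complex.continuous_ofReal.comp hm).continuousAt).add
        ((Complex.continuous_ofReal.continuousAt.comp (hl.mul him.continuousAt)).mul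
          continuousAt_const)).prodMk
        ((Complex.continuous_ofReal.continuousAt.comp hl).mul continuous_yc.continuousAt)
    rw [Topology.IsInducing.subtypeVal.continuousAt_iff]
    refine hg.congr ?_
    filter_upwards [(isOpen_lt cont_re.abs continuous_const).mem_nhds h] with q hq
    exact (pp_val hq).symm

theorem pp_push {p : S3} (hp : -1 / 4 < (xc p).re) (hy : yc p ≠ 0) :
    (xc (pp p)).re = -1 / 4 ∧ yc (pp p) ≠ 0 := by
  have h := abs_re_lt hy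
  have h1 : xc (pp p) = (gg p).1 := congrArg Prod.fst (pp_val h)
  have h2 : yc (pp p) = (gg p).2 := congrArg Prod.snd (pp_val h)
  rw [h1, h2]
  refine ⟨?_, mul_ne_zero (Complex.ofReal_ne_zero.2 (la_pos h).ne') hy⟩
  have h3 : mm p = -1 / 4 := min_eq_right hp.le
  simp only [gg, Complex.add_re, Complex.ofReal_re, Complex.mul_re, Complex.I_re, mul_zero,
    Complex.ofReal_im, Complex.I_im, zero_mul, sub_self, add_zero]
  exact h3

theorem sg_or (i : Fin 2) : sg i = 1 ∨ sg i = -1 := by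
  unfold sg
  split_ifs <;> simp

theorem xc_rot (p : S3) : xc (rot p) = -xc p := rfl

theorem yc_rot (p : S3) : yc (rot p) = yc p := rfl

theorem rot_rot (p : S3) : rot (rot p) = p := rot.left_inv p

theorem isClosed_eta (x₀ : ℂ) : IsClosed (eta x₀) := isClosed_eq continuous_xc continuous_const

variable {r s : Fin 2 → ℕ} {P : ℝ → S3} (g : Geo r s P)

theorem mem_h {B : Set ℂ} {p : S3} : p ∈ g.h '' RB B ↔ xc (g.h.symm p) ∈ B := by
  constructor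
  · rintro ⟨q, hq, rfl⟩
    rw [g.h.symm_apply_apply]
    exact hq
  · exact fun h => ⟨_, h, g.h.apply_symm_apply p⟩

theorem h_mem {B : Set ℂ} {p : S3} : g.h p ∈ g.h '' RB B ↔ xc p ∈ B := by
  rw [mem_h, g.h.symm_apply_apply]

theorem open_h {B : Set ℂ} (hB : IsOpen B) : IsOpen (g.h '' RB B) :=
  g.h.isOpenMap _ (isOpen_RB hB)

theorem far_xi (i : Fin 2) (x : ℂ) : ‖x‖ - g.a ≤ ‖x - g.xi i‖ := by
  have := norm_sub_norm_le x (g.xi i)
  rwa [g.norm_xi] at this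

theorem h_not_eta (i : Fin 2) {p : S3} (hp : -1 / 2 ≤ (xc p).re) : g.h p ∉ eta (g.xi i) :=
  not_eta (by linarith [far_xi g i (xc (g.h p)), (g.hz p hp).2, g.rad.2.1])

theorem P_sub (i : Fin 2) : range P ⊆ (eta (g.xi i))ᶜ := by
  rintro _ ⟨t, rfl⟩
  exact not_eta (by linarith [far_xi g i (xc (P t)), g.thin t, g.rad.2.1])

theorem not_P {p : S3} (hp : ‖xc p‖ ≤ g.a + 7 * g.ρ) : p ∉ range P := by
  rintro ⟨t, rfl⟩
  exact absurd (g.thin t) (not_lt.2 hp)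

theorem F_mem_P (i : Fin 2) {p : S3} (hp : p ∉ eta (g.xi i)) :
    (g.lk i).F p ∈ (g.lk i).F '' range P ↔ p ∈ range P :=
  mem_img (g.lk i) (P_sub g i) hp

theorem h_mem_FP (i : Fin 2) {p : S3} (hp : -1 / 2 ≤ (xc p).re) :
    g.h p ∈ (g.lk i).F '' range P ↔ yc p = 0 := by
  rw [← g.hP p hp, ← F_mem_P g i (h_not_eta g i hp), g.F_h i hp]

theorem F_contAt (i : Fin 2) {p : S3} (hp : p ∉ eta (g.xi i)) : ContinuousAt (g.lk i).F p :=
  (g.lk i).oe.cont.continuousAt ((g.lk i).oe.isOpen.mem_nhds hp)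

theorem isOpen_Bd (i : Fin 2) : IsOpen (g.Bd i) :=
  (open_lt _ _).inter (isOpen_lt continuous_norm continuous_const)

theorem open_mid : IsOpen {x : ℂ | ‖x‖ < 1 ∧ |x.re| < 1 / 2} :=
  (isOpen_lt continuous_norm continuous_const).inter
    (isOpen_lt Complex.continuous_re.abs continuous_const)

theorem open_up : IsOpen {x : ℂ | ‖x‖ < 1 ∧ -1 / 2 < x.re} :=
  (isOpen_lt continuous_norm continuous_const).inter
    (isOpen_lt continuous_const Complex.continuous_re)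

theorem Bd_sub (i : Fin 2) : RB (g.Bd i) ⊆ (eta (g.xi i))ᶜ := fun _ hp =>
  not_eta (g.rad.2.1.trans hp.1)

theorem So_sub (i : Fin 2) : g.So ⊆ (eta (g.xi i))ᶜ := fun p hp =>
  not_eta (by
    have h : g.a + 6 * g.ρ < ‖xc p‖ := hp.1.1
    linarith [far_xi g i (xc p), g.rad.2.1])

theorem yc_ne {p : S3} (h : ‖xc p‖ < 1) : yc p ≠ 0 := fun h0 => h.ne ((yc_eq_zero_iff p).1 h0)

theorem h_mem_Sp {p : S3} (hp : -1 / 2 ≤ (xc p).re) (hy : yc p ≠ 0) : g.h p ∈ Sp P := by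
  rintro (h | h)
  · exact hy ((g.hP p hp).1 h)
  · have h1 := (g.hz p hp).2
    rw [show xc (g.h p) = 0 from h, norm_zero] at h1
    linarith [g.rad.1, g.rad.2.1]

theorem mem_Sp {p : S3} (hp : ‖xc p‖ ≤ g.a + 7 * g.ρ) (h0 : xc p ≠ 0) : p ∈ Sp P := by
  rintro (h | h)
  · exact not_P g hp h
  · exact h0 h

end RReg2

open RLKb RReg2

namespace Geo

variable {r s : Fin 2 → ℕ} {P : ℝ → S3} (g : Geo r s P)

theorem σ_h (p : S3) : g.σ (g.h p) = g.h (rot p) := by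
  simp [σ]

theorem exists_rq : ∃ κ, g.IsRq κ := by
  refine ⟨g.h ∘ pp ∘ g.h.symm, fun p hp => ?_, fun p hp => ?_, fun p hp hy => ?_⟩
  · refine g.h.continuous.continuousAt.comp ((pp_cont ?_).comp g.h.symm.continuous.continuousAt)
    by_contra h
    rw [not_or, not_lt, not_not] at h
    exact hp ⟨g.h.symm p, ⟨h.2, h.1⟩, g.h.apply_symm_apply p⟩
  · simp only [Function.comp_apply, g.h.symm_apply_apply, pp_id hp]
  · exact ⟨pp p, (pp_push hp hy).1, (pp_push hp hy).2, by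
      simp only [Function.comp_apply, g.h.symm_apply_apply]⟩

theorem IsRq.locEq {g : Geo r s P} {κ : S3 → S3} (h : g.IsRq κ) {M : Type} (f : S3 → S3 → M) :
    LocEq (pb κ f) f (g.h '' RB {x | x.re < -1 / 4}) := by
  refine locEq_pb_of_id f fun p hp => ?_
  filter_upwards [(open_h g (isOpen_lt Complex.continuous_re continuous_const)).mem_nhds hp]
  rintro _ ⟨q, hq, rfl⟩
  exact h.id q (le_of_lt hq)

theorem IsRq.fix {g : Geo r s P} {κ : S3 → S3} (h : g.IsRq κ) {p : S3}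
    (hp : p ∈ g.h '' RB {x | x.re < -1 / 4}) : κ p = p := by
  obtain ⟨q, hq, rfl⟩ := hp
  exact h.id q (le_of_lt hq)

theorem F_off (i : Fin 2) {p : S3} (hp : p ∉ eta (g.xi i)) {c : ℝ} (hc : -1 / 2 ≤ c)
    (h : p ∉ g.h '' RB {x | c ≤ x.re}) : (g.lk i).F p ∈ g.h '' RB {x | x.re < c} := by
  obtain ⟨q, hq⟩ := g.h.surjective ((g.lk i).F p)
  rw [← hq, h_mem]
  by_contra h1
  have h2 : c ≤ (xc q).re := not_lt.1 h1
  have h3 := g.F_h i (hc.trans h2)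
  exact h ⟨q, h2, (g.lk i).oe.inj (h_not_eta g i (hc.trans h2)) hp (h3.trans hq)⟩

theorem off_of_norm {p : S3} (hp : ‖xc p‖ ≤ g.a + 7 * g.ρ) :
    p ∉ g.h '' RB {x | -1 / 2 ≤ x.re} := by
  rintro ⟨q, hq, rfl⟩
  exact absurd (g.hz q hq).2 (not_lt.2 hp)

theorem Oc_off (i : Fin 2) : (g.lk i).Oc (4 * g.ρ) ⊆ g.h '' RB {x | x.re < -1 / 2} := by
  intro p hp
  have h1 := (g.lk i).Oc_side g.rad (sg_or i) (by linarith [g.rad.2.1]) hp
  obtain ⟨q, rfl⟩ := g.h.surjective p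
  rw [h_mem]
  by_contra h2
  have h3 := abs_lt.1 (g.hz q (not_lt.1 h2)).1
  rcases sg_or i with h | h <;> rw [h] at h1 <;> linarith [h3.1, h3.2]

theorem _root_.Pool.Agent.HH.RReg2.Ψ_zero (p : S3) : g.Ψ 0 p = p := by
  simp [Ψ]

theorem _root_.Pool.Agent.HH.RReg2.Ψ_one (p : S3) : g.Ψ 1 (g.h p) = g.h (rot p) := by
  rw [← g.σ_h]
  simp [Ψ]

theorem _root_.Pool.Agent.HH.RReg2.Ψ_mem_D (i : Fin 2) {p : S3} (hp : (xc p).re ≤ 0) :
    g.Ψ i (g.h p) ∈ range g.D ↔ g.h p ∈ (g.lk i).F '' range P := by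
  revert i
  rw [Fin.forall_fin_two]
  constructor
  · rw [Ψ_zero]
    exact g.Dm p hp
  · rw [Ψ_one, g.Dp (rot p) (by rw [xc_rot, Complex.neg_re]; linarith), rot_rot]

/-- The two sides. -/
theorem _root_.Pool.Agent.HH.RReg2.Ψ_side {c : ℝ} {X : Set S3}
    (hX : X ⊆ g.h '' RB {x | x.re < c}) :
    (∀ p ∈ g.Ψ 0 '' X, (xc (g.h.symm p)).re < c) ∧
      ∀ p ∈ g.Ψ 1 '' X, -c < (xc (g.h.symm p)).re := by
  constructor
  · rintro _ ⟨q, hq, rfl⟩
    rw [Ψ_zero]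
    exact (mem_h g).1 (hX hq)
  · rintro _ ⟨q, hq, rfl⟩
    obtain ⟨q', hq', rfl⟩ := hX hq
    have h : (xc q').re < c := hq'
    rw [Ψ_one, g.h.symm_apply_apply, xc_rot, Complex.neg_re]
    linarith

theorem Ψ_maps (i : Fin 2) : MapsTo (g.Ψ i) ((g.lk i).Oc (4 * g.ρ)) (range g.D)ᶜ := by
  intro p hp
  obtain ⟨q, hq, rfl⟩ := g.Oc_off i hp
  have h : (xc q).re < -1 / 2 := hq
  rw [mem_compl_iff, Ψ_mem_D g i (by linarith)]
  refine fun h1 => hp (image_mono ?_ h1)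
  rintro _ ⟨t, rfl⟩
  change 4 * g.ρ ≤ ‖xc (P t) - g.xi i‖
  linarith [far_xi g i (xc (P t)), g.thin t, g.rad.2.1]

theorem ΨF_mem_D (i : Fin 2) {p : S3} (hp : p ∉ eta (g.xi i))
    (h : p ∉ g.h '' RB {x | 0 ≤ x.re}) : g.Ψ i ((g.lk i).F p) ∈ range g.D ↔ p ∈ range P := by
  obtain ⟨q, hq, he⟩ := g.F_off i hp (by norm_num) h
  rw [← F_mem_P g i hp, ← he, Ψ_mem_D g i (le_of_lt hq)]

theorem rq_maps {κ : S3 → S3} (h : g.IsRq κ) (i : Fin 2) :
    MapsTo (g.Ψ i ∘ κ ∘ (g.lk i).F) (range P ∪ eta (g.xi i))ᶜ (range g.D)ᶜ ∧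
      ∀ p ∈ (range P ∪ eta (g.xi i))ᶜ, ContinuousAt (g.Ψ i ∘ κ ∘ (g.lk i).F) p := by
  have key : ∀ p ∈ (range P ∪ eta (g.xi i))ᶜ, (g.lk i).F p ∉ (g.lk i).F '' range P :=
    fun p hp h1 => hp (Or.inl ((F_mem_P g i fun h2 => hp (Or.inr h2)).1 h1))
  constructor
  · intro p hp
    have h1 := key p hp
    obtain ⟨q, hq⟩ := g.h.surjective ((g.lk i).F p)
    simp only [Function.comp_apply, mem_compl_iff]
    rw [← hq] at h1 ⊢
    rcases le_or_gt (xc q).re (-1 / 4) with h2 | h2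
    · rw [h.id q h2, Ψ_mem_D g i (by linarith)]
      exact h1
    · obtain ⟨p', h3, h4, h5⟩ := h.push q h2 fun h0 =>
        h1 ((h_mem_FP g i (by linarith)).2 h0)
      rw [h5, Ψ_mem_D g i (by linarith), h_mem_FP g i (by linarith)]
      exact h4
  · intro p hp
    refine (g.Ψ i).continuous.continuousAt.comp
      ((h.cont _ ?_).comp (F_contAt g i fun h2 => hp (Or.inr h2)))
    rintro ⟨q, ⟨h1, h2⟩, h3⟩
    have h4 : -1 / 4 ≤ (xc q).re := h2
    exact key p hp (h3 ▸ (h_mem_FP g i (by linarith)).2 h1)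

/-- Off the ball the retraction can be omitted. -/
theorem rq_locEq {κ : S3 → S3} (h : g.IsRq κ) (i : Fin 2) {M : Type} (f : S3 → S3 → M) :
    LocEq (pb (g.Ψ i ∘ κ ∘ (g.lk i).F) f) (pb (g.Ψ i ∘ (g.lk i).F) f)
      (eta (g.xi i) ∪ g.h '' RB {x | -1 / 4 ≤ x.re})ᶜ :=
  (h.locEq (pb (g.Ψ i) f)).pb (j := (g.lk i).F) (fun _ hp => F_contAt g i fun h2 => hp (Or.inl h2))
    fun _ hp => g.F_off i (fun h2 => hp (Or.inl h2)) (by norm_num) fun h2 => hp (Or.inr h2)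

theorem h_mem_D {p : S3} (hp : |(xc p).re| ≤ 1 / 2) : g.h p ∈ range g.D ↔ yc p = 0 := by
  have h := abs_le.1 hp
  rcases le_total (xc p).re 0 with h1 | h1
  · rw [g.Dm p h1, h_mem_FP g 0 (by linarith [h.1])]
  · rw [g.Dp p h1, h_mem_FP g 1 (by rw [xc_rot, Complex.neg_re]; linarith [h.2]), yc_rot]

theorem _root_.Pool.Agent.HH.RReg2.thick_D (i : Fin 2) {p : S3} (h1 : g.ρ ≤ ‖xc p - g.xi i‖)
    (h2 : ‖xc p‖ ≤ g.a + 13 * g.ρ / 2) : g.Ψ i ((g.lk i).F p) ∉ range g.D := by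
  have hρ := g.rad.2.1
  have h3 : ‖xc p‖ ≤ g.a + 7 * g.ρ := by linarith
  rw [g.ΨF_mem_D i (not_eta (hρ.trans_le h1)) fun h => g.off_of_norm h3
    (image_mono (fun q (hq : 0 ≤ (xc q).re) => show -1 / 2 ≤ (xc q).re by linarith) h)]
  exact not_P g h3

theorem _root_.Pool.Agent.HH.RReg2.open_shD (i : Fin 3) : IsOpen (g.shD i) := by
  have h (i : Fin 2) : IsOpen (g.Ψ i '' ((g.lk i).F '' RB (g.Bd i))) :=
    (g.Ψ i).isOpenMap _ ((g.lk i).oe.img _ (isOpen_RB (isOpen_Bd g i)) (Bd_sub g i))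
  fin_cases i
  · exact h 0
  · exact h 1
  · exact open_h g open_mid

theorem decD : Coef.IsDec (range g.D)ᶜ (⋃ i, g.shD i) g.pcD := by
  have hρ := g.rad.2.1
  have oA (i : Fin 2) : IsOpen (g.Ψ i '' g.Oi i) :=
    (g.Ψ i).isOpenMap _ ((g.lk i).isOpen_Oc g.rad (by linarith))
  have oB (i : Fin 2) : IsOpen (g.Ψ i '' ((g.lk i).F '' g.So)) :=
    (g.Ψ i).isOpenMap _ ((g.lk i).oe.img _ g.isOpen_So (So_sub g i))
  have mO (i : Fin 2) : g.Oi i ⊆ (g.lk i).Oc (4 * g.ρ) := (g.lk i).Oc_mono (by linarith)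
  have sA (i : Fin 2) : g.Ψ i '' g.Oi i ⊆ (range g.D)ᶜ := by
    rintro _ ⟨p, hp, rfl⟩
    exact g.Ψ_maps i (mO i hp)
  have sB (i : Fin 2) : g.Ψ i '' ((g.lk i).F '' g.So) ⊆ (range g.D)ᶜ := by
    rintro _ ⟨_, ⟨p, hp, rfl⟩, rfl⟩
    rw [mem_compl_iff, g.ΨF_mem_D i (So_sub g i hp) fun h => hp.2
      (image_mono (fun q (hq : 0 ≤ (xc q).re) => show -1 / 4 ≤ (xc q).re by linarith) h)]
    exact hp.1.2
  have sT (i : Fin 2) : g.Ψ i '' ((g.lk i).F '' RB (g.Bd i)) ⊆ (range g.D)ᶜ := by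
    rintro _ ⟨_, ⟨p, hp, rfl⟩, rfl⟩
    exact thick_D g i hp.1.le hp.2.le
  have lA (i : Fin 2) : g.Oi i ⊆ g.h '' RB {x | x.re < -1 / 4} := fun p hp =>
    image_mono (fun q (hq : (xc q).re < -1 / 2) => show (xc q).re < -1 / 4 by linarith)
      (g.Oc_off i (mO i hp))
  have lB (i : Fin 2) : (g.lk i).F '' g.So ⊆ g.h '' RB {x | x.re < -1 / 4} := by
    rintro _ ⟨p, hp, rfl⟩
    exact g.F_off i (So_sub g i hp) (by norm_num) hp.2
  have dS {X Y : Set S3} (hX : X ⊆ g.h '' RB {x | x.re < -1 / 4})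
      (hY : Y ⊆ g.h '' RB {x | x.re < -1 / 4}) : Disjoint (g.Ψ 0 '' X) (g.Ψ 1 '' Y) :=
    Set.disjoint_left.2 fun p h1 h2 => by
      linarith [(Ψ_side g hX).1 p h1, (Ψ_side g hY).2 p h2]
  have dAB (i : Fin 2) : Disjoint (g.Ψ i '' g.Oi i) (g.Ψ i '' ((g.lk i).F '' g.So)) := by
    rw [disjoint_image_iff (g.Ψ i).injective, Set.disjoint_right]
    rintro _ ⟨p, hp, rfl⟩ h
    have h1 : g.a + 6 * g.ρ < ‖xc p‖ := hp.1.1
    refine h ⟨p, ?_, rfl⟩
    change 2 * g.ρ ≤ ‖xc p - g.xi i‖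
    linarith [far_xi g i (xc p)]
  refine ⟨g.knotD.isClosed.isOpen_compl, fun i => ?_, fun i => ?_, fun i j hij => ?_,
    isOpen_iUnion (open_shD g), iUnion_subset fun i => ?_, fun p hp => ?_⟩
  · fin_cases i
    exacts [oA 0, oA 1, oB 0, oB 1]
  · fin_cases i
    exacts [sA 0, sA 1, sB 0, sB 1]
  · fin_cases i <;> fin_cases j
    exacts [absurd rfl hij, dS (lA 0) (lA 1), dAB 0, dS (lA 0) (lB 1),
      (dS (lA 0) (lA 1)).symm, absurd rfl hij, (dS (lB 0) (lA 1)).symm, dAB 1,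
      (dAB 0).symm, dS (lB 0) (lA 1), absurd rfl hij, dS (lB 0) (lB 1),
      (dS (lA 0) (lB 1)).symm, (dAB 1).symm, (dS (lB 0) (lB 1)).symm, absurd rfl hij]
  · fin_cases i
    · exact sT 0
    · exact sT 1
    · rintro _ ⟨p, hp, rfl⟩
      rw [mem_compl_iff, g.h_mem_D hp.2.le]
      exact yc_ne hp.1
  · have key (i : Fin 2) (q : S3) (hq : (xc q).re ≤ -1 / 2) (h : g.Ψ i (g.h q) ∉ range g.D) :
        g.h q ∈ g.Oi i ∨ g.h q ∈ (g.lk i).F '' g.So ∨ g.h q ∈ (g.lk i).F '' RB (g.Bd i) := by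
      rw [Ψ_mem_D g i (by linarith)] at h
      by_cases h1 : g.h q ∈ g.Oi i
      · exact Or.inl h1
      obtain ⟨p₀, h2, h3⟩ := not_not.1 h1
      have h4 : 2 * g.ρ ≤ ‖xc p₀ - g.xi i‖ := h2
      rcases lt_or_ge ‖xc p₀‖ (g.a + 13 * g.ρ / 2) with h5 | h5
      · exact Or.inr (Or.inr ⟨p₀, ⟨by linarith, h5⟩, h3⟩)
      · refine Or.inr (Or.inl ⟨p₀, ⟨⟨show g.a + 6 * g.ρ < ‖xc p₀‖ by linarith,
          fun h6 => h ⟨p₀, h6, h3⟩⟩, ?_⟩, h3⟩)
        rintro ⟨q', h6, rfl⟩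
        have h7 : -1 / 4 ≤ (xc q').re := h6
        rw [g.F_h i (by linarith)] at h3
        rw [g.h.injective h3] at h7
        linarith
    obtain ⟨q, rfl⟩ := g.h.surjective p
    rcases le_or_gt (xc q).re (-1 / 2) with h1 | h1
    · rcases key 0 q h1 (by rw [Ψ_zero]; exact hp) with h | h | h
      · exact Or.inl (mem_iUnion.2 ⟨0, _, h, Ψ_zero g _⟩)
      · exact Or.inl (mem_iUnion.2 ⟨2, _, h, Ψ_zero g _⟩)
      · exact Or.inr (mem_iUnion.2 ⟨0, _, h, Ψ_zero g _⟩)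
    rcases le_or_gt (1 / 2) (xc q).re with h2 | h2
    · have h3 : g.Ψ 1 (g.h (rot q)) = g.h q := by rw [Ψ_one, rot_rot]
      rcases key 1 (rot q) (by rw [xc_rot, Complex.neg_re]; linarith) (by rw [h3]; exact hp)
        with h | h | h
      · exact Or.inl (mem_iUnion.2 ⟨1, _, h, h3⟩)
      · exact Or.inl (mem_iUnion.2 ⟨3, _, h, h3⟩)
      · exact Or.inr (mem_iUnion.2 ⟨1, _, h, h3⟩)
    · have h3 : |(xc q).re| < 1 / 2 := abs_lt.2 ⟨by linarith, h2⟩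
      exact Or.inr (mem_iUnion.2 ⟨2, q,
        ⟨lt_of_yc fun h => hp ((g.h_mem_D h3.le).2 h), h3⟩, rfl⟩)

theorem _root_.Pool.Agent.HH.RReg2.ball_Sp :
    RB (Metric.ball 0 (g.a + 13 * g.ρ / 2) \ {0}) ⊆ Sp P := fun p hp =>
  mem_Sp g (by linarith [mem_ball_zero_iff.1 hp.1, g.rad.2.1]) hp.2

theorem _root_.Pool.Agent.HH.RReg2.up_Sp :
    g.h '' RB {x | ‖x‖ < 1 ∧ -1 / 2 < x.re} ⊆ Sp P := by
  rintro _ ⟨p, hp, rfl⟩
  exact h_mem_Sp g hp.2.le (yc_ne hp.1)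

theorem _root_.Pool.Agent.HH.RReg2.open_ball :
    IsOpen (RB (Metric.ball 0 (g.a + 13 * g.ρ / 2) \ {0})) :=
  isOpen_RB (Metric.isOpen_ball.sdiff isClosed_singleton)

theorem decS : Coef.IsDec (Sp P)
    (RB (Metric.ball 0 (g.a + 13 * g.ρ / 2) \ {0}) ∪ g.h '' RB {x | ‖x‖ < 1 ∧ -1 / 2 < x.re})
    fun _ : Unit => g.So := by
  have hρ := g.rad.2.1
  refine ⟨(g.knot.isClosed.union (isClosed_eta 0)).isOpen_compl, fun _ => g.isOpen_So,
    fun _ p hp => ?_, Subsingleton.pairwise, (open_ball g).union (open_h g open_up),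
    union_subset (ball_Sp g) (up_Sp g), fun p hp => ?_⟩
  · rintro (h | h)
    · exact hp.1.2 h
    · have h1 : g.a + 6 * g.ρ < ‖xc p‖ := hp.1.1
      rw [show xc p = 0 from h, norm_zero] at h1
      linarith [g.rad.1]
  · rcases lt_or_ge ‖xc p‖ (g.a + 13 * g.ρ / 2) with h1 | h1
    · exact Or.inr (Or.inl ⟨mem_ball_zero_iff.2 h1, fun h => hp (Or.inr h)⟩)
    by_cases h2 : p ∈ g.h '' RB {x | -1 / 4 ≤ x.re}
    · obtain ⟨q, h3, rfl⟩ := h2
      have h4 : -1 / 4 ≤ (xc q).re := h3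
      exact Or.inr (Or.inr ⟨q, ⟨lt_of_yc fun h => hp (Or.inl ((g.hP q (by linarith)).2 h)),
        show -1 / 2 < (xc q).re by linarith⟩, rfl⟩)
    · exact Or.inl (mem_iUnion.2 ⟨(), ⟨show g.a + 6 * g.ρ < ‖xc p‖ by linarith,
        fun h => hp (Or.inl h)⟩, h2⟩)

variable {R E : Type} [CommRing R] [AddCommGroup E] [Module R E] {τ : S3 → S3 → Module.End R E}

theorem _root_.Pool.Agent.HH.RReg2.cut_h {M : Set S3} {B Bc : Set ℂ} (hτ : IsCoc τ M)
    (hB : IsOpen B) (h1 : ∀ x ∈ B, ‖x‖ < 1) (hq : ∀ x ∈ B, LoopAc τ (g.h ∘ fib x))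
    (hBc : IsClosed Bc) (hs : B ⊆ Bc) (hM : ∀ p, xc p ∈ Bc → (g.h p ∈ M ↔ yc p ≠ 0)) :
    Cut τ M (g.h '' RB B) := by
  have h := Cut.homeo g.h (cut_fibX (τ := pb g.h τ) (M := g.h ⁻¹' M) hB h1
    (hτ.pb (fun _ _ => g.h.continuous.continuousAt)
      fun p hp => (hM p (hs hp)).2 (yc_ne (h1 _ hp))) hq hBc hs
    (fun p hp => (hM p hp.1).2 hp.2)
    (Set.disjoint_left.2 fun p hp hp' => (hM p hp'.1).1 hp hp'.2))
  rwa [image_preimage_eq _ g.h.surjective] at h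

theorem _root_.Pool.Agent.HH.RReg2.acyc_h {M : Set S3} {B : Set ℂ} (hτ : IsCoc τ M)
    (hB : IsOpen B) (h1 : ∀ x ∈ B, ‖x‖ < 1) (hq : ∀ x ∈ B, LoopAc τ (g.h ∘ fib x))
    (hM : g.h '' RB B ⊆ M) : Acyc0 τ (g.h '' RB B) ∧ Acyc τ 2 (g.h '' RB B) := by
  have h := acyc_fibX (τ := pb g.h τ) hB h1
    (hτ.pb (fun _ _ => g.h.continuous.continuousAt) fun p hp => hM ⟨p, hp, rfl⟩) hq
  have ho := OE.of_homeomorph g.h (isOpen_RB hB)
  exact ⟨acyc0_iff.2 ((ho.acyc_iff τ 1).1 (acyc0_iff.1 h.1)), (ho.acyc_iff τ 2).1 h.2⟩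

theorem cutD (hτ : IsCoc τ (range g.D)ᶜ)
    (h₀ : ∀ i, Acyc (pb (g.Ψ i ∘ (g.lk i).F) τ) 2 (RB (g.Bd i)))
    (hq : ∀ x : ℂ, ‖x‖ < 1 → |x.re| < 1 / 2 → LoopAc τ (g.h ∘ fib x)) :
    Cut τ (range g.D)ᶜ (⋃ i, g.shD i) := by
  have hρ := g.rad.2.1
  have lT (i : Fin 2) : (g.lk i).F '' RB (g.Bd i) ⊆ g.h '' RB {x | x.re < -1 / 2} := by
    rintro _ ⟨p, hp, rfl⟩
    exact g.F_off i (Bd_sub g i hp) le_rfl (g.off_of_norm (by linarith [hp.2]))
  have t0 := (Ψ_side g (lT 0)).1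
  have t1 := (Ψ_side g (lT 1)).2
  have t2 : ∀ p ∈ g.h '' RB {x | ‖x‖ < 1 ∧ |x.re| < 1 / 2},
      -(1 / 2) < (xc (g.h.symm p)).re ∧ (xc (g.h.symm p)).re < 1 / 2 := fun p hp =>
    abs_lt.1 ((mem_h g).1 hp).2
  have d01 : Disjoint (g.shD 0) (g.shD 1) :=
    Set.disjoint_left.2 fun p h1 h2 => by linarith [t0 p h1, t1 p h2]
  have d02 : Disjoint (g.shD 0) (g.shD 2) :=
    Set.disjoint_left.2 fun p h1 h2 => by linarith [t0 p h1, (t2 p h2).1]
  have d12 : Disjoint (g.shD 1) (g.shD 2) :=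
    Set.disjoint_left.2 fun p h1 h2 => by linarith [t1 p h1, (t2 p h2).2]
  have cT (i : Fin 2) : Cut τ (range g.D)ᶜ (g.Ψ i '' ((g.lk i).F '' RB (g.Bd i))) := by
    have hc : IsClosed {x : ℂ | g.ρ ≤ ‖x - g.xi i‖ ∧ ‖x‖ ≤ g.a + 13 * g.ρ / 2} :=
      (closed_le _ _).inter (isClosed_le continuous_norm continuous_const)
    rw [← image_comp]
    refine cut_of_compact ((isClosed_RB hc).isCompact.image_of_continuousOn
      ((g.oe_ΨF i).cont.mono fun p hp => not_eta (hρ.trans_le hp.1)))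
      (image_mono fun p hp => ⟨hp.1.le, hp.2.le⟩) ?_
      ((((g.oe_ΨF i).mono (isOpen_RB (isOpen_Bd g i)) (Bd_sub g i)).acyc_iff τ 2).1 (h₀ i))
    rintro _ ⟨p, hp, rfl⟩
    exact thick_D g i hp.1 hp.2
  refine Cut.iUnion (open_shD g) (fun i j hij => ?_) fun i => ?_
  · fin_cases i <;> fin_cases j
    exacts [absurd rfl hij, d01, d02, d01.symm, absurd rfl hij, d12, d02.symm, d12.symm,
      absurd rfl hij]
  · fin_cases i
    · exact cT 0
    · exact cT 1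
    · exact cut_h g (Bc := {x | |x.re| ≤ 1 / 2}) hτ open_mid (fun x hx => hx.1)
        (fun x hx => hq x hx.1 hx.2) (isClosed_le Complex.continuous_re.abs continuous_const)
        (fun x hx => hx.2.le) fun p hp => (g.h_mem_D hp).not

theorem cutS (hτ : IsCoc τ (Sp P)) (h₀ : LoopAc τ (lon 0 (g.a + 25 * g.ρ / 4)))
    (hq : ∀ x : ℂ, ‖x‖ < 1 → -1 / 2 < x.re → LoopAc τ (g.h ∘ fib x)) :
    Cut τ (Sp P) (RB (Metric.ball 0 (g.a + 13 * g.ρ / 2) \ {0}) ∪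
        g.h '' RB {x | ‖x‖ < 1 ∧ -1 / 2 < x.re}) ∧
      Acyc τ 2 (RB (Metric.ball 0 (g.a + 13 * g.ρ / 2) \ {0}) ∪
        g.h '' RB {x | ‖x‖ < 1 ∧ -1 / 2 < x.re}) ∧
      Acyc0 τ (g.So ∩ (RB (Metric.ball 0 (g.a + 13 * g.ρ / 2) \ {0}) ∪
        g.h '' RB {x | ‖x‖ < 1 ∧ -1 / 2 < x.re})) := by
  obtain ⟨ha, hρ, h8⟩ := g.rad
  have hd : Disjoint (RB (Metric.ball 0 (g.a + 13 * g.ρ / 2) \ {0}))
      (g.h '' RB {x | ‖x‖ < 1 ∧ -1 / 2 < x.re}) :=
    Set.disjoint_left.2 fun p h1 h2 => g.off_of_norm (by linarith [mem_ball_zero_iff.1 h1.1])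
      (image_mono (fun q hq => le_of_lt hq.2) h2)
  have hb : ∀ x ∈ Metric.ball (0 : ℂ) (g.a + 13 * g.ρ / 2), ‖x‖ < 1 := fun x hx => by
    linarith [mem_ball_zero_iff.1 hx]
  have hs : Metric.closedBall (0 : ℂ) (g.a + 25 * g.ρ / 4) ⊆
      Metric.ball 0 (g.a + 13 * g.ρ / 2) := Metric.closedBall_subset_ball (by linarith)
  refine ⟨Cut.union (open_ball g) (open_h g open_up) hd ?_ ?_,
    acyc_union (open_ball g) (open_h g open_up) ?_ ?_ ?_, ?_⟩
  · exact cut_fibL (Bc := Metric.closedBall 0 (g.a + 13 * g.ρ / 2)) Metric.isOpen_ball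
      (convex_ball _ _) hb (by linarith) hs (hτ.mono (ball_Sp g)) h₀ Metric.isClosed_closedBall
      Metric.ball_subset_closedBall
      (fun p hp => mem_Sp g (by linarith [mem_closedBall_zero_iff.1 hp.1]) hp.2)
      (Set.disjoint_left.2 fun p h1 h2 => h1 (Or.inr h2))
  · exact cut_h g (Bc := {x | -1 / 2 ≤ x.re}) hτ open_up (fun x hx => hx.1)
      (fun x hx => hq x hx.1 hx.2) (isClosed_le continuous_const Complex.continuous_re)
      (fun x hx => hx.2.le) fun p hp =>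
        ⟨fun h h0 => h (Or.inl ((g.hP p hp).2 h0)), h_mem_Sp g hp⟩
  · rw [hd.inter_eq]
    exact fun φ _ p hp => hp.elim
  · have h := acyc_fibL (τ := τ) Metric.isOpen_ball (convex_ball _ _) hb le_rfl (by linarith) hs
      (by rw [Metric.closedBall_zero]; exact hτ.mono (ball_Sp g)) h₀
    rw [Metric.closedBall_zero] at h
    exact h.2
  · exact (acyc_h g hτ open_up (fun x hx => hx.1) (fun x hx => hq x hx.1 hx.2) (up_Sp g)).2
  · have e1 : g.So ∩ RB (Metric.ball 0 (g.a + 13 * g.ρ / 2) \ {0}) =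
        RB (Metric.ball 0 (g.a + 13 * g.ρ / 2) \ Metric.closedBall 0 (g.a + 6 * g.ρ)) := by
      ext p
      constructor
      · rintro ⟨h1, h2⟩
        exact ⟨h2.1, fun h => absurd (mem_closedBall_zero_iff.1 h) (not_le.2 h1.1.1)⟩
      · rintro ⟨h1, h2⟩
        have h3 := mem_ball_zero_iff.1 h1
        have h4 : g.a + 6 * g.ρ < ‖xc p‖ := not_le.1 fun h => h2 (mem_closedBall_zero_iff.2 h)
        refine ⟨⟨⟨h4, not_P g (by linarith)⟩, fun h => g.off_of_norm (by linarith) (image_mono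
          (fun q (hq : -1 / 4 ≤ (xc q).re) => show -1 / 2 ≤ (xc q).re by linarith) h)⟩, h1,
          fun h => ?_⟩
        rw [show xc p = 0 from h, norm_zero] at h4
        linarith
    have e2 : g.So ∩ g.h '' RB {x | ‖x‖ < 1 ∧ -1 / 2 < x.re} =
        g.h '' RB ({x | ‖x‖ < 1 ∧ -1 / 2 < x.re} ∩ {x | x.re < -1 / 4}) := by
      ext p
      constructor
      · rintro ⟨h1, q, h2, rfl⟩
        have h3 : (xc q).re < -1 / 4 := not_le.1 fun h => h1.2 ⟨q, h, rfl⟩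
        exact ⟨q, ⟨h2, h3⟩, rfl⟩
      · rintro ⟨q, ⟨h1, h2⟩, rfl⟩
        refine ⟨⟨⟨show g.a + 6 * g.ρ < ‖xc (g.h q)‖ by linarith [(g.hz q h1.2.le).2],
          fun h => yc_ne h1.1 ((g.hP q h1.2.le).1 h)⟩, fun h => ?_⟩, q, h1, rfl⟩
        have h3 : -1 / 4 ≤ (xc q).re := (h_mem g).1 h
        exact absurd h3 (not_le.2 h2)
    rw [inter_union_distrib_left]
    refine acyc0_union ?_ ?_
    · rw [e1]
      exact (acyc_fibL Metric.isOpen_ball (convex_ball _ _) hb (by linarith) (by linarith) hs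
        (by rw [← e1]; exact hτ.mono fun p hp => ball_Sp g hp.2) h₀).1
    · rw [e2]
      exact (acyc_h g hτ (open_up.inter (isOpen_lt Complex.continuous_re continuous_const))
        (fun x hx => hx.1.1) (fun x hx => hq x hx.1.1 hx.1.2)
        (by rw [← e2]; exact fun p hp => up_Sp g hp.2)).1

end Geo

end Pool.Agent.HH
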