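import Pool.Agent.P.MP_c8dc46_gt.SDefs
import Pool.Agent.P.MP_c8dc46_gt.C0
import Pool.Agent.P.MP_c8dc46_gt.AcP

/-!
The form on a knot exterior in which one companion carries the cohomology: classes are moved to
the companion piece, pulled back, and compared with the generator after a change of gauge.
-/

open Set Topology

namespace Pool.Agent.HH

namespace RSt1a

section

variable {Y R E E' : Type} [TopologicalSpace Y] [CommRing R] [AddCommGroup E] [Module R E]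
  [AddCommGroup E'] [Module R E']

theorem exa_ga {U : Y → E →ₗ[R] E'} {τ : Y → Y → Module.End R E} {τ' : Y → Y → Module.End R E'}
    {S : Set Y} (h : LocEq (fun x y => U x ∘ₗ τ x y) (fun x y => τ' x y ∘ₗ U y) S) {n : ℕ}
    {a : List Y → E} (ha : Exa τ n S a) : Exa τ' n S (ga U a) := by
  obtain ⟨ψ, hψ⟩ := ha
  refine ⟨ga U ψ, ?_⟩
  have h1 := Submodule.add_mem _ (ga_mem_N U hψ) (ga_dT_mem_N h n ψ)
  rwa [map_sub, sub_add_sub_cancel] at h1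

theorem coc_ga {U : Y → E →ₗ[R] E'} {τ : Y → Y → Module.End R E} {τ' : Y → Y → Module.End R E'}
    {S : Set Y} (h : LocEq (fun x y => U x ∘ₗ τ x y) (fun x y => τ' x y ∘ₗ U y) S) {n : ℕ}
    {a : List Y → E} (ha : dT τ a ∈ N R E n S) : dT τ' (ga U a) ∈ N R E' n S := by
  have h1 := Submodule.sub_mem _ (ga_mem_N U ha) (ga_dT_mem_N h n a)
  rwa [sub_sub_cancel] at h1

theorem loc_zt (t : (Module.End R E)ˣ) {h h' : Y → Y → ℤ} {φ : Y → ℤ} {S : Set Y}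
    (hφ : LocEq (fun x y => h x y - h' x y) (fun x y => φ y - φ x) S) :
    LocEq (fun x y => (t ^ φ x).1 ∘ₗ zt t h x y) (fun x y => zt t h' x y ∘ₗ (t ^ φ y).1) S := by
  intro p hp
  obtain ⟨V, hV, h2⟩ := hφ p hp
  refine ⟨V, hV, fun x hx y hy => ?_⟩
  have h3 : h x y - h' x y = φ y - φ x := h2 x hx y hy
  simp only [zt, ← Module.End.mul_eq_comp, ← Units.val_mul, ← zpow_add]
  rw [show φ x + h x y = h' x y + φ y by omega]

theorem coc_mul {θ : Y → Y → ℤ} {S : Set Y} (h : IsCocA θ S) (w : ℤ) :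
    IsCocA (fun x y => w * θ x y) S := by
  intro p hp
  obtain ⟨U, hU, h1⟩ := h p hp
  refine ⟨U, hU, fun x hx y hy z hz => ?_⟩
  beta_reduce
  rw [← h1 x hx y hy z hz, mul_add]

end

variable {F : Type} [Field F]

theorem zpow_eigen {A : Type} [AddCommGroup A] [Module F A] (L : (Module.End F A)ˣ) {e : A}
    {c : F} (hc : c ≠ 0) (h : L.1 e = c • e) (k : ℤ) : (L ^ k).1 e = c ^ k • e := by
  have h0 : ∀ j : ℤ, (L ^ (j + 1)).1 e = c • (L ^ j).1 e := fun j => by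
    rw [zpow_add_one, Units.val_mul, Module.End.mul_apply, h, map_smul]
  induction k using Int.induction_on with
  | zero => simp
  | succ k ih => rw [h0, ih, smul_smul, zpow_add_one₀ hc, mul_comm]
  | pred k ih =>
    have h1 := h0 (-(k : ℤ) - 1)
    rw [sub_add_cancel, ih] at h1
    rw [zpow_sub_one₀ hc, mul_comm, ← smul_smul, h1, smul_smul, inv_mul_cancel₀ hc, one_smul]

theorem red_ga (ζ : F) (n : ℕ) (φ : S3 → ℤ) (a : List S3 → (ℤ →₀ F)) :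
    cm (pk (Tm F F 1 ζ) n) (ga (fun x => (sh F F ^ φ x).1) a) =
      ga (fun x => (tq F ζ n ^ φ x).1) (cm (pk (Tm F F 1 ζ) n) a) := by
  funext l
  match l with
  | [] => exact map_zero (pk (Tm F F 1 ζ) n)
  | x :: l =>
    change pk (Tm F F 1 ζ) n (shp F F (φ x) (a (x :: l))) =
      (tq F ζ n ^ φ x).1 (pk (Tm F F 1 ζ) n (a (x :: l)))
    rw [tq_zpow, barE_pk (commute_shp_Tm _ _ _)]

variable [StarRing F] {r s : ℕ} {σ a ρ : ℝ} {k : LK r s σ a ρ}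

theorem one_gen {ξ : Fˣ} {aS bS : S3 → S3 → F} {c₀ : F} (hk : KCoc k ξ aS bS c₀) {n : ℕ} {ζ : F}
    (hp : CP F 1 n ζ) {w : ℤ} (hξ : (ξ : F) = ζ ^ w) (hr : ζ ^ (w * r) ≠ 1)
    (hs : ζ ^ (w * s) ≠ 1) (hrs : ζ ^ (w * (r * s)) = 1) (hch : ((w * (r * s) : ℤ) : F) ≠ 0) :
    OneGen (zt (tq F ζ n) fun x y => w * th k.ϑ x y) k.Kᶜ (gen0 F ζ n aS) := by
  have hζ := RC0.ne_zero hp
  have e : ∀ j : ℕ, (tq F ζ n ^ w) ^ j = tq F ζ n ^ (w * j) := fun j => by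
    rw [zpow_mul, zpow_natCast]
  rw [zt_mul]
  refine hk.gen _ (tq F ζ n ^ w) _ (soc_ne hζ hp.mpos) ?_ ?_ ?_ ?_
  · rw [hξ, zpow_eigen _ hζ (tq_soc ζ hp.mpos)]
  · rw [e]
    exact tq_bij hζ n hr
  · rw [e]
    exact tq_bij hζ n hs
  · rw [e, Nat.cast_mul]
    exact tq_ker hζ hp.mpos hrs hch

end RSt1a

open RSt1a in
theorem side_class {F : Type} [Field F] [StarRing F] {r s : ℕ} {σ a ρ : ℝ} {k : LK r s σ a ρ}
    (hR : Rad a ρ) (hσ : σ = 1 ∨ σ = -1) {ξ : Fˣ} {aS bS : S3 → S3 → F} {c₀ : F}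
    (hk : KCoc k ξ aS bS c₀) {n : ℕ} {ζ : F} (hp : CP F 1 n ζ) {w : ℤ} (hξ : (ξ : F) = ζ ^ w)
    (h1 : ζ ^ w ≠ 1) (hr : ζ ^ (w * r) ≠ 1) (hs : ζ ^ (w * s) ≠ 1) (hrs : ζ ^ (w * (r * s)) = 1)
    (hch : ((w * (r * s) : ℤ) : F) ≠ 0) {M Sg : Set S3} {Mi : Fin 4 → Set S3} {i₀ : Fin 4}
    {hE : S3 → S3 → ℤ} {Ψ : S3 ≃ₜ S3} {κ : S3 → S3} (h : SideD k w ζ n M Sg Mi i₀ hE Ψ κ) :
    ∃ φ : S3 → ℤ,
      LocEq (fun x y => pb (Ψ ∘ κ) hE x y - w * th k.ϑ x y) (fun x y => φ y - φ x) k.Kᶜ ∧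
      (∀ a ∈ (cf1 hp).W3 (zt (sh F F) hE) M, ∃ c : F,
        Cls (tq F ζ n) k.Kᶜ φ (fun x y => w * th k.ϑ x y)
          (pull F _ (Ψ ∘ κ) (cm (pk (Tm F F 1 ζ) n) a)) (gen0 F ζ n aS) c) ∧
      (∀ a ∈ (cf1 hp).W3 (zt (sh F F) hE) M, ∀ b ∈ (cf1 hp).W3 (zt (sh F F) hE) M, ∀ c c' : F,
        Cls (tq F ζ n) k.Kᶜ φ (fun x y => w * th k.ϑ x y)
          (pull F _ (Ψ ∘ κ) (cm (pk (Tm F F 1 ζ) n) a)) (gen0 F ζ n aS) c →
        Cls (tq F ζ n) k.Kᶜ φ (fun x y => w * th k.ϑ x y)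
          (pull F _ (Ψ ∘ κ) (cm (pk (Tm F F 1 ζ) n) b)) (gen0 F ζ n aS) c' →
        (cf1 hp).lam3 (zt (sh F F) hE) a b = c * star c' *
          (cf1 hp).lam3 (zt (sh F F) fun x y => w * th k.ϑ x y) (aHat F ζ n aS) (aHat F ζ n aS)) ∧
      (∃ a ∈ (cf1 hp).W3 (zt (sh F F) hE) M, (cf1 hp).lam3 (zt (sh F F) hE) a a =
        (cf1 hp).lam3 (zt (sh F F) fun x y => w * th k.ϑ x y) (aHat F ζ n aS) (aHat F ζ n aS)) ∧
      ((cf1 hp).Nondeg (zt (sh F F) hE) M →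
        (cf1 hp).lam3 (zt (sh F F) fun x y => w * th k.ϑ x y) (aHat F ζ n aS)
          (aHat F ζ n aS) ≠ 0) := by
  obtain ⟨φ, hφ⟩ := h.comp
  have hρ := hR.2.1
  have hζ := RC0.ne_zero hp
  have hG := one_gen hk hp hξ hr hs hrs hch
  have hA := hk.aHat_mem hR hσ hp hξ
  have oO : IsOpen (k.Oc (2 * ρ)) := k.isOpen_Oc hR (by linarith)
  have s3 : k.Oc (2 * ρ) ⊆ k.Oc (3 * ρ) := k.Oc_mono (by linarith)
  have sK : k.Oc (2 * ρ) ⊆ k.Kᶜ := k.Oc_subset hR hσ (by linarith)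
  have sM : Ψ '' k.Oc (2 * ρ) ⊆ M := h.piece ▸ h.dec.si i₀
  have oe : OE Ψ (k.Oc (2 * ρ)) := OE.of_homeomorph Ψ oO
  have dg : DegOne F Ψ (k.Oc (2 * ρ)) :=
    DegOne.mono (OE.of_homeomorph Ψ isOpen_univ) (degOne_of_isot F
      (OE.of_homeomorph Ψ isOpen_univ) isPreconnected_univ h.isot isOpen_univ
      ⟨⟨(1, 0), by simp⟩, trivial⟩ subset_rfl fun _ _ => rfl) oO (subset_univ _)
  have c1 : (cf1 hp).CompatT (zt (sh F F) hE) := compatT_zt hp _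
  have c2 : (cf1 hp).CompatT (zt (sh F F) fun x y => w * th k.ϑ x y) := compatT_zt hp _
  have t1 : IsCoc (zt (sh F F) hE) M := h.coc.zt _
  have t2 : IsCoc (zt (sh F F) fun x y => w * th k.ϑ x y) (k.Oc (2 * ρ)) :=
    ((coc_mul k.isCocA_th w).mono sK).zt _
  have br : ∀ g : S3 → S3 → ℤ, (cf1 hp).br (zt (sh F F) g) = zt (tq F ζ n) g := bar_zt ζ n
  have cut : Cut ((cf1 hp).br (zt (sh F F) hE)) M Sg := by
    rw [br]
    exact h.cut
  have ac : ∀ j, j ≠ i₀ → Acyc ((cf1 hp).br (zt (sh F F) hE)) 2 (Mi j) := by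
    rw [br]
    exact h.ac
  have hκ : ∀ p ∈ k.Oc (2 * ρ), ∀ᶠ x in 𝓝 p, κ x = x := fun p hp =>
    Filter.mem_of_superset (oO.mem_nhds hp) fun x hx => h.ret.id x (s3 hx)
  have hφO : LocEq (fun x y => pb Ψ hE x y - w * th k.ϑ x y) (fun x y => φ y - φ x)
      (k.Oc (2 * ρ)) := by
    refine LocEq.trans (fun p hp => ?_) (hφ.mono sK)
    exact ⟨_, hκ p hp, fun x hx y hy => by
      simp only [pb, Function.comp, show κ x = x from hx, show κ y = y from hy]⟩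
  obtain ⟨U, hU⟩ : ∃ U : S3 → (ℤ →₀ F) ≃ₗ[F] (ℤ →₀ F),
      (fun x => (U x : (ℤ →₀ F) →ₗ[F] (ℤ →₀ F))) = fun x => (sh F F ^ φ x).1 := by
    choose U hU using fun x => (isPM_shp (H := H1 F) (p := 1) (φ x)).exists_equiv
    exact ⟨U, funext fun x => (hU x).1⟩
  have iso : ∀ x, CIso (cf1 hp) (cf1 hp) (U x) := by
    intro x
    have e : (cf1 hp).Compat (U x : (ℤ →₀ F) →ₗ[F] (ℤ →₀ F)) := by
      rw [congrFun hU x]
      exact (isPM_shp (φ x)).compat hp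
    exact ⟨fun v => LinearMap.congr_fun e.1.eq v, e.2.2⟩
  have hl : LocEq (fun x y => (U x : (ℤ →₀ F) →ₗ[F] (ℤ →₀ F)) ∘ₗ pb Ψ (zt (sh F F) hE) x y)
      (fun x y => zt (sh F F) (fun x y => w * th k.ϑ x y) x y ∘ₗ
        (U y : (ℤ →₀ F) →ₗ[F] (ℤ →₀ F))) (k.Oc (2 * ρ)) := by
    simp only [congrFun hU]
    exact loc_zt (sh F F) hφO
  have sk := (cf1 hp).isSkew3 c1 t1
  have sk2 := (cf1 hp).isSkew3 c2 t2
  have hred : ∀ (b : List S3 → (ℤ →₀ F)) (c : F), (cf1 hp).red (b - c • aHat F ζ n aS) =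
      cm (pk (Tm F F 1 ζ) n) b - c • gen0 F ζ n aS := by
    intro b c
    rw [gen0, ← red_aHat, ← map_smul, ← map_sub]
    rfl
  have mv : ∀ a ∈ (cf1 hp).W3 (zt (sh F F) hE) M, ∃ a' ∈ (cf1 hp).W3 (zt (sh F F) hE)
      (Ψ '' k.Oc (2 * ρ)), (∀ c ∈ (cf1 hp).W3 (zt (sh F F) hE) M,
        (cf1 hp).lam3 (zt (sh F F) hE) c (a - a') = 0) ∧
      ∀ c : F, Cls (tq F ζ n) k.Kᶜ φ (fun x y => w * th k.ϑ x y)
          (pull F _ (Ψ ∘ κ) (cm (pk (Tm F F 1 ζ) n) a)) (gen0 F ζ n aS) c →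
        Exa ((cf1 hp).br (zt (sh F F) fun x y => w * th k.ϑ x y)) 2 (k.Oc (2 * ρ))
          ((cf1 hp).red (ga (fun x => (U x : (ℤ →₀ F) →ₗ[F] (ℤ →₀ F)))
            (tfr F _ Ψ (k.Oc (2 * ρ)) a') - c • aHat F ζ n aS)) := by
    intro a ha
    obtain ⟨a', ha', e1, e2⟩ := (cf1 hp).lam3_one_piece c1 t1 h.dec cut i₀ ac ha
    rw [h.piece] at ha' e1
    refine ⟨a', ha', e2, fun c hc => ?_⟩
    rw [br] at e1
    have e3 : Exa (zt (tq F ζ n) (pb Ψ hE)) 2 (k.Oc (2 * ρ))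
        (pull F _ Ψ (cm (pk (Tm F F 1 ζ) n) (a - a'))) :=
      e1.pull (fun _ _ => Ψ.continuous.continuousAt) (mapsTo_image _ _)
    have e4 := pull_sub_mem_N (R := F) hκ 2 (pull F _ Ψ (cm (pk (Tm F F 1 ζ) n) a))
    have e5 := cm_mem_N (pk (Tm F F 1 ζ) n) (tfr_sub_pull (R := F) oe 2 a')
    have e6 := (e3.add (Exa.of_mem_N e4)).sub (Exa.of_mem_N e5)
    have e7 : pull F _ Ψ (cm (pk (Tm F F 1 ζ) n) (a - a')) +
        (pull F _ κ (pull F _ Ψ (cm (pk (Tm F F 1 ζ) n) a)) -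
          pull F _ Ψ (cm (pk (Tm F F 1 ζ) n) a)) -
        cm (pk (Tm F F 1 ζ) n) (tfr F _ Ψ (k.Oc (2 * ρ)) a' - pull F _ Ψ a') =
        pull F _ (Ψ ∘ κ) (cm (pk (Tm F F 1 ζ) n) a) -
          cm (pk (Tm F F 1 ζ) n) (tfr F _ Ψ (k.Oc (2 * ρ)) a') := by
      rw [pull_pull, map_sub, map_sub, map_sub,
        show cm (pk (Tm F F 1 ζ) n) (pull F _ Ψ a') = pull F _ Ψ (cm (pk (Tm F F 1 ζ) n) a') from
          rfl]
      abel
    rw [e7] at e6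
    have e8 := (Exa.mono hc sK).sub (exa_ga (loc_zt (tq F ζ n) hφO) e6)
    rw [map_sub, sub_sub_sub_comm, sub_self, zero_sub, neg_sub] at e8
    rw [br, hred, hU, red_ga]
    exact e8
  refine ⟨φ, hφ, fun a ha => hG.2.2 _ (coc_ga (loc_zt (tq F ζ n) hφ) ?_),
    fun a ha b hb c c' hc hc' => ?_, ?_, fun hn h0 => ?_⟩
  · have e1 := RDec.coc c1 ha M
    rw [br] at e1
    have e2 := pull_mem_N (j := Ψ ∘ κ) (S' := k.Kᶜ)
      (fun p hp => Ψ.continuous.continuousAt.comp (h.ret.cont p hp)) (h.maps.comp h.ret.maps) e1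
    rw [pull_dT] at e2
    exact e2
  · obtain ⟨a', ha', a1, a2⟩ := mv a ha
    obtain ⟨b', hb', b1, b2⟩ := mv b hb
    have ha'' := (cf1 hp).W_mono sM ha'
    have hb'' := (cf1 hp).W_mono sM hb'
    have e1 := b1 a ha
    have e2 := sk.skew _ hb'' _ (Submodule.sub_mem _ ha ha'')
    rw [a1 b' hb'', star_zero, neg_zero, sk.sub_left, sub_eq_zero] at e2
    rw [sk.sub_right, sub_eq_zero] at e1
    have ma := (cf1 hp).cutpull_mem oe ha'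
    have mb := (cf1 hp).cutpull_mem oe hb'
    rw [e1, e2, ← (cf1 hp).cutpull_lam oe dg c1 (t1.mono sM) ha' hb', ← ga_lam3 iso hl ma,
      (cf1 hp).lam3_congr c2 t2 (ga_mem_W3 rfl iso hl ma) (Submodule.smul_mem _ c hA)
        (ga_mem_W3 rfl iso hl mb) (Submodule.smul_mem _ c' hA) (a2 c hc) (b2 c' hc'),
      sk2.smul_left, sk2.smul_right, mul_assoc]
  · have iso' := fun x => RTrans.ciso_symm (iso x)
    have hl' := RTrans.loc_symm hl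
    obtain ⟨a', ha', e⟩ := (cf1 hp).cutpull_surj oe (ga_mem_W3 rfl iso' hl' hA)
    refine ⟨a', (cf1 hp).W_mono sM ha', ?_⟩
    rw [← (cf1 hp).cutpull_lam oe dg c1 (t1.mono sM) ha' ha', ← ga_lam3 iso' hl' hA]
    exact (((cf1 hp).lam_congr_left isInt_I3 e _).trans
      ((cf1 hp).lam_congr_right isInt_I3 _ e)).symm
  · have n1 := (cf1 hp).nondeg_piece c1 t1 h.dec cut hn i₀
    rw [h.piece] at n1
    have n2 := nondeg_gauge rfl iso (c1.pb Ψ) c2 hl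
      ((cf1 hp).nondeg_pull oe dg c1 (t1.mono sM) n1)
    have e1 := n2 _ hA fun b hb => by
      have e2 := RDec.coc c2 hb k.Kᶜ
      rw [br] at e2
      obtain ⟨c, hc⟩ := hG.2.2 _ e2
      have e3 : Exa ((cf1 hp).br (zt (sh F F) fun x y => w * th k.ϑ x y)) 2 (k.Oc (2 * ρ))
          ((cf1 hp).red (b - c • aHat F ζ n aS)) := by
        rw [br, hred]
        exact hc.mono sK
      rw [(cf1 hp).lam3_congr c2 t2 hb (Submodule.smul_mem _ c hA) hA hA e3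
        (Exa.of_mem_N (by simp)), sk2.smul_left, h0, mul_zero]
    rw [br] at e1
    have e4 : Exa (zt (tq F ζ n) fun x y => w * th k.ϑ x y) 2 (k.Oc (2 * ρ)) (gen0 F ζ n aS) := by
      rw [gen0, ← red_aHat]
      exact e1
    have e5 := hG.1
    have e6 := hG.2.1
    rw [zt_mul] at e4 e5 e6
    exact e6 (k.exa_of_Oc hR hσ (tq_bij hζ n h1) e5 e4)

end Pool.Agent.HH
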