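import Pool.Agent.P.MP_c8dc46_gt.TC

/-!
From `ℤ[Γ]` to `ℂ[Γ]`: complex cocycles on a tame set are complex combinations of integral
cocycles modulo coboundaries.
-/

open Set Topology Polynomial

namespace Pool.Agent.HH

namespace RTD

noncomputable section

variable {Γ : Type}

/-- The inclusion of the integral group ring. -/
def io (Γ : Type) : (Γ →₀ ℤ) →+ (Γ →₀ ℂ) := Finsupp.mapRange.addMonoidHom (Int.castAddHom ℂ)

theorem io_apply (e : Γ →₀ ℤ) (γ : Γ) : io Γ e γ = (e γ : ℂ) := rfl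

theorem io_single (γ : Γ) (m : ℤ) : io Γ (Finsupp.single γ m) = Finsupp.single γ (m : ℂ) := by
  simp [io]

theorem io_reg [Group Γ] (γ : Γ) (e : Γ →₀ ℤ) : io Γ (reg ℤ Γ γ e) = reg ℂ Γ γ (io Γ e) := by
  induction e using Finsupp.induction_linear with
  | zero => simp
  | add a b ha hb => simp only [map_add, ha, hb]
  | single a m =>
    rw [io_single]
    change io Γ (Finsupp.mapDomain _ _) = Finsupp.mapDomain _ _
    rw [Finsupp.mapDomain_single, Finsupp.mapDomain_single, io_single]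

theorem io_aeval [Group Γ] (z : Γ) (Q : ℤ[X]) (e : Γ →₀ ℤ) :
    io Γ (aeval (reg ℤ Γ z) Q e) = aeval (reg ℂ Γ z) (Q.map (Int.castRingHom ℂ)) (io Γ e) := by
  induction Q using Polynomial.induction_on' with
  | add p q hp hq => simp only [map_add, Polynomial.map_add, LinearMap.add_apply, hp, hq]
  | monomial n a =>
    rw [Polynomial.map_monomial, aeval_monomial, aeval_monomial, ← map_pow, ← map_pow,
      Module.End.mul_apply, Module.End.mul_apply, Module.algebraMap_end_apply,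
      Module.algebraMap_end_apply, map_zsmul, io_reg]
    simp only [eq_intCast, Int.cast_smul_eq_zsmul]

theorem map_aeval {E E' : Type} [AddCommGroup E] [Module ℂ E] [AddCommGroup E'] [Module ℂ E']
    (π : E →ₗ[ℂ] E') {A : Module.End ℂ E} {A' : Module.End ℂ E'} (h : ∀ e, π (A e) = A' (π e))
    (q : ℂ[X]) (e : E) : π (aeval A q e) = aeval A' q (π e) := by
  have hp : ∀ (n : ℕ) e, π ((A ^ n) e) = (A' ^ n) (π e) := by
    intro n
    induction n with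
    | zero => intro e; simp
    | succ n ih => intro e; rw [pow_succ', pow_succ', Module.End.mul_apply, Module.End.mul_apply, h, ih]
  induction q using Polynomial.induction_on' with
  | add p q hp hq => simp only [map_add, LinearMap.add_apply, hp, hq]
  | monomial n a =>
    rw [aeval_monomial, aeval_monomial, Module.End.mul_apply, Module.End.mul_apply,
      Module.algebraMap_end_apply, Module.algebraMap_end_apply, map_smul, hp]

variable {Y : Type}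

/-- The inclusion of integral cochains. -/
def iot (Γ Y : Type) : (List Y → (Γ →₀ ℤ)) →+ (List Y → (Γ →₀ ℂ)) where
  toFun φ := fun l => io Γ (φ l)
  map_zero' := by funext l; simp
  map_add' φ ψ := by funext l; simp

theorem iot_apply (φ : List Y → (Γ →₀ ℤ)) (l : List Y) : iot Γ Y φ l = io Γ (φ l) := rfl

theorem dT_iot [Group Γ] (f : Y → Y → Γ) (φ : List Y → (Γ →₀ ℤ)) :
    dT (tr (reg ℂ Γ) f) (iot Γ Y φ) = iot Γ Y (dT (tr (reg ℤ Γ) f) φ) :=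
  (add_dT (io Γ) (tr (reg ℤ Γ) f) (tr (reg ℂ Γ) f) (fun x y e => io_reg (f x y) e) φ).symm

theorem cut_iot (T : Set Y) (φ : List Y → (Γ →₀ ℤ)) :
    cut ℂ _ T (iot Γ Y φ) = iot Γ Y (cut ℤ _ T φ) := by
  funext l
  match l with
  | [] => simp [cut, cutF, iot_apply]
  | x :: l => by_cases h : x ∈ T <;> simp [cut, cutF, iot_apply, h]

/-- The complex span of the integral cochains. -/
def D0 (Γ Y : Type) : Submodule ℂ (List Y → (Γ →₀ ℂ)) := Submodule.span ℂ (range (iot Γ Y))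

theorem iot_mem (φ : List Y → (Γ →₀ ℤ)) : iot Γ Y φ ∈ D0 Γ Y := Submodule.subset_span ⟨φ, rfl⟩

theorem sum_mem_D0 {ι : Type} (s : Finset ι) (c : ι → ℂ) (φ : ι → List Y → (Γ →₀ ℤ)) :
    ∑ i ∈ s, c i • iot Γ Y (φ i) ∈ D0 Γ Y :=
  Submodule.sum_mem _ fun i _ => Submodule.smul_mem _ _ (iot_mem (φ i))

theorem map_mem_D0 (L : (List Y → (Γ →₀ ℂ)) →ₗ[ℂ] (List Y → (Γ →₀ ℂ)))
    (h : ∀ φ, ∃ ψ, L (iot Γ Y φ) = iot Γ Y ψ) {x : List Y → (Γ →₀ ℂ)} (hx : x ∈ D0 Γ Y) :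
    L x ∈ D0 Γ Y := by
  have : D0 Γ Y ≤ (D0 Γ Y).comap L := by
    refine Submodule.span_le.2 ?_
    rintro _ ⟨φ, rfl⟩
    obtain ⟨ψ, hψ⟩ := h φ
    change L _ ∈ D0 Γ Y
    rw [hψ]
    exact iot_mem ψ
  exact this hx

theorem exists_indep {x : List Y → (Γ →₀ ℂ)} (hx : x ∈ D0 Γ Y) :
    ∃ (k : ℕ) (c : Fin k → ℂ) (φ : Fin k → List Y → (Γ →₀ ℤ)), LinearIndependent ℤ c ∧
      x = ∑ i, c i • iot Γ Y (φ i) := by
  obtain ⟨n, c, g, rfl⟩ := Submodule.mem_span_set'.1 hx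
  choose φ hφ using fun i => (g i).2
  let M : Submodule ℤ ℂ := Submodule.span ℤ (range c)
  have : Module.Finite ℤ M := Module.Finite.span_of_finite ℤ (finite_range c)
  let b := Module.finBasis ℤ M
  let cc : Fin n → M := fun i => ⟨c i, Submodule.subset_span ⟨i, rfl⟩⟩
  refine ⟨_, fun j => (b j : ℂ), fun j => ∑ i, b.repr (cc i) j • φ i,
    b.linearIndependent.map' M.subtype (Submodule.ker_subtype M), ?_⟩
  have hc : ∀ i, c i = ∑ j, b.repr (cc i) j • (b j : ℂ) := by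
    intro i
    have := congrArg M.subtype (b.sum_repr (cc i))
    rw [map_sum] at this
    exact this.symm
  simp only [map_sum, map_zsmul, Finset.smul_sum]
  rw [Finset.sum_comm]
  refine Finset.sum_congr rfl fun i _ => ?_
  rw [hc i, Finset.sum_smul, ← hφ i]
  refine Finset.sum_congr rfl fun j _ => ?_
  rw [smul_assoc, smul_comm]

theorem dT_sum [Group Γ] (f : Y → Y → Γ) {ι : Type} (s : Finset ι) (c : ι → ℂ)
    (φ : ι → List Y → (Γ →₀ ℤ)) :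
    dT (tr (reg ℂ Γ) f) (∑ i ∈ s, c i • iot Γ Y (φ i)) =
      ∑ i ∈ s, c i • iot Γ Y (dT (tr (reg ℤ Γ) f) (φ i)) := by
  simp only [map_sum, map_smul, dT_iot]

variable [TopologicalSpace Y]

theorem iot_mem_N {n : ℕ} {S : Set Y} {φ : List Y → (Γ →₀ ℤ)} (h : φ ∈ N ℤ _ n S) :
    iot Γ Y φ ∈ N ℂ _ n S :=
  map_mem_N h fun l hl => by rw [iot_apply, hl, map_zero]

theorem mem_N_of_indep {k : ℕ} {c : Fin k → ℂ} (hc : LinearIndependent ℤ c)
    {φ : Fin k → List Y → (Γ →₀ ℤ)} {n : ℕ} {S : Set Y}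
    (h : ∑ i, c i • iot Γ Y (φ i) ∈ N ℂ _ n S) (i : Fin k) : φ i ∈ N ℤ _ n S := by
  refine map_mem_N h fun l hl => ?_
  ext γ
  refine Fintype.linearIndependent_iff.1 hc (fun j => φ j l γ) ?_ i
  have := DFunLike.congr_fun hl γ
  simp only [Finset.sum_apply, Pi.smul_apply, Finsupp.finsetSum_apply, Finsupp.smul_apply,
    iot_apply, io_apply, smul_eq_mul, Finsupp.coe_zero, Pi.zero_apply] at this
  rw [← this]
  refine Finset.sum_congr rfl fun j _ => ?_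
  rw [zsmul_eq_mul, mul_comm]

theorem NZ_pos {R E : Type} [CommRing R] [AddCommGroup E] [Module R E] {n : ℤ} (hn : ¬ n ≤ 0)
    (S : Set Y) : NZ R E n S = N R E n.toNat S := if_neg hn

theorem NZ_nonpos {R E : Type} [CommRing R] [AddCommGroup E] [Module R E] {n : ℤ} (hn : n ≤ 0)
    (S : Set Y) : NZ R E n S = ⊤ := if_pos hn

/-- The system of complex cochains modulo the span of the integral ones. -/
def sys [Group Γ] [TopologicalSpace.MetrizableSpace Y] (f : Y → Y → Γ) (X : Set Y)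
    (hX : IsOpen X) (hf : IsCoc f X) : MV ℂ (List Y → (Γ →₀ ℂ)) Y where
  d := dT (tr (reg ℂ Γ) f)
  N n U := NZ ℂ _ n (U ∩ X) ⊔ D0 Γ Y
  mono n U U' h := sup_le_sup_right ((mvC _ X hX (hf.tr (reg ℂ Γ))).mono n U U' h) _
  dN n U x hx := by
    obtain ⟨a, ha, e, he, rfl⟩ := Submodule.mem_sup.1 hx
    rw [map_add]
    exact Submodule.add_mem_sup ((mvC _ X hX (hf.tr (reg ℂ Γ))).dN n U a ha)
      (map_mem_D0 _ (fun φ => ⟨_, dT_iot f φ⟩) he)
  dd n U x := Submodule.mem_sup_left ((mvC _ X hX (hf.tr (reg ℂ Γ))).dd n U x)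
  union n U U' hU hU' := by
    rintro x ⟨h1, h2⟩
    by_cases hn : n ≤ 0
    · exact Submodule.mem_sup_left (by rw [NZ_nonpos hn]; trivial)
    have hn1 : 1 ≤ n.toNat := by omega
    obtain ⟨a, ha, e, he, rfl⟩ := Submodule.mem_sup.1 h1
    obtain ⟨a', ha', e', he', hx⟩ := Submodule.mem_sup.1 h2
    rw [NZ_pos hn] at ha ha' ⊢
    obtain ⟨T, hT, hT'⟩ := exists_cut_open hU hU'
    have hee : e - e' = a' - a := by rw [sub_eq_sub_iff_add_eq_add, add_comm e a, hx]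
    have h0 : e - e' ∈ N ℂ _ n.toNat (U ∩ U' ∩ X) := by
      rw [hee]
      exact Submodule.sub_mem _ (N_mono (inter_subset_inter_left _ inter_subset_right) ha')
        (N_mono (inter_subset_inter_left _ inter_subset_left) ha)
    have h3 : cut ℂ _ T (e - e') ∈ N ℂ _ n.toNat (U ∩ X) := by
      refine N_mono ?_ (mem_N_union.2 ⟨cut_mem_N T h0, cut_mem_N_compl T _ _⟩)
      intro p hp
      by_cases hp' : p ∈ U'
      · exact Or.inl ⟨⟨hp.1, hp'⟩, hp.2⟩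
      · exact Or.inr (hT ⟨hp.1, hp'⟩)
    have h4 : (e - e') - cut ℂ _ T (e - e') ∈ N ℂ _ n.toNat (U' ∩ X) := by
      refine N_mono ?_ (mem_N_union.2 ⟨Submodule.sub_mem _ h0 (cut_mem_N T h0),
        sub_cut_mem_N T hn1 _⟩)
      intro p hp
      by_cases hp' : p ∈ U
      · exact Or.inl ⟨⟨hp', hp.1⟩, hp.2⟩
      · exact Or.inr (hT' ⟨hp.1, hp'⟩)
    refine Submodule.mem_sup.2 ⟨a + cut ℂ _ T (e - e'), ?_, e - cut ℂ _ T (e - e'), ?_, by abel⟩
    · rw [union_inter_distrib_right]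
      refine mem_N_union.2 ⟨Submodule.add_mem _ ha h3, ?_⟩
      have : a + cut ℂ _ T (e - e') = a' - ((e - e') - cut ℂ _ T (e - e')) := by
        generalize cut ℂ _ T (e - e') = w
        rw [hee]; abel
      rw [this]
      exact Submodule.sub_mem _ ha' h4
    · exact Submodule.sub_mem _ he
        (map_mem_D0 _ (fun φ => ⟨_, cut_iot T φ⟩) (Submodule.sub_mem _ he he'))
  inter n U U' hU hU' := by
    refine sup_le (((mvC _ X hX (hf.tr (reg ℂ Γ))).inter n U U' hU hU').trans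
      (sup_le_sup le_sup_left le_sup_left)) ?_
    exact le_sup_of_le_left le_sup_right
  empty n := by
    rw [eq_top_iff, ← (mvC _ X hX (hf.tr (reg ℂ Γ))).empty n]
    exact le_sup_left

/-- Parallel sections on a `Cvx` set are spanned by integral ones. -/
theorem par_span [Group Γ] {f : Y → Y → Γ} {U : Set Y} (hU : Cvx U) (hf : IsCoc f U)
    {x : List Y → (Γ →₀ ℂ)} (hx : dT (tr (reg ℂ Γ) f) x ∈ N ℂ _ 2 U) :
    x ∈ N ℂ _ 1 U ⊔ D0 Γ Y := by
  rcases U.eq_empty_or_nonempty with rfl | ⟨p, hp⟩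
  · exact Submodule.mem_sup_left (mem_N_empty _ _)
  choose σ hσ hσp using fun γ : Γ =>
    hU.exists_par (hf.tr (reg ℤ Γ)) hp (Finsupp.single γ (1 : ℤ))
  refine Submodule.mem_sup.2 ⟨x - ∑ γ ∈ (x [p]).support, x [p] γ • iot Γ Y (σ γ), ?_, _,
    sum_mem_D0 _ _ _, sub_add_cancel _ _⟩
  refine par_zero (hf.tr (reg ℂ Γ)) hU.isPreconnected ?_ hp ?_
  · rw [map_sub, dT_sum]
    exact Submodule.sub_mem _ hx
      (Submodule.sum_mem _ fun γ _ => Submodule.smul_mem _ _ (iot_mem_N (hσ γ)))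
  · rw [Pi.sub_apply, Finset.sum_apply, sub_eq_zero]
    simp only [Pi.smul_apply, iot_apply, hσp, io_single, Int.cast_one, Finsupp.smul_single,
      smul_eq_mul, mul_one]
    exact (Finsupp.sum_single (x [p])).symm

theorem cvx_exact [Group Γ] {f : Y → Y → Γ} {U : Set Y} (hU : Cvx U) (hf : IsCoc f U) {n : ℕ}
    (hn : 1 ≤ n) {x : List Y → (Γ →₀ ℂ)}
    (hx : dT (tr (reg ℂ Γ) f) x ∈ N ℂ _ (n + 1) U ⊔ D0 Γ Y) :
    x ∈ LinearMap.range (dT (tr (reg ℂ Γ) f)) ⊔ (N ℂ _ n U ⊔ D0 Γ Y) := by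
  obtain ⟨a, ha, e, he, hae⟩ := Submodule.mem_sup.1 hx
  obtain ⟨k, c, φ, hc, rfl⟩ := exists_indep he
  have h1 : ∑ i, c i • iot Γ Y (dT (tr (reg ℤ Γ) f) (φ i)) ∈ N ℂ _ (n + 1 + 1) U := by
    rw [← dT_sum, eq_sub_of_add_eq' hae, map_sub]
    exact Submodule.sub_mem _ (dT_dT_mem_N (hf.tr _) _ _) (dT_mem_N _ ha)
  choose ψ hψ using fun i => hU.acyc (hf.tr (reg ℤ Γ)) (n := n + 1) (by omega) (φ i)
    (mem_N_of_indep hc h1 i)
  have h2 : dT (tr (reg ℂ Γ) f) (x - ∑ i, c i • iot Γ Y (ψ i)) ∈ N ℂ _ (n + 1) U := by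
    rw [map_sub, dT_sum, ← hae, add_sub_assoc, ← Finset.sum_sub_distrib]
    refine Submodule.add_mem _ ha (Submodule.sum_mem _ fun i _ => ?_)
    rw [← smul_sub, ← map_sub]
    exact Submodule.smul_mem _ _ (iot_mem_N (hψ i))
  rw [← sub_add_cancel x (∑ i, c i • iot Γ Y (ψ i))]
  refine Submodule.add_mem _ ?_
    (Submodule.mem_sup_right (Submodule.mem_sup_right (sum_mem_D0 _ _ _)))
  rcases hn.eq_or_lt with rfl | hn2
  · exact Submodule.mem_sup_right (par_span hU hf h2)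
  · obtain ⟨y, hy⟩ := hU.acyc (hf.tr (reg ℂ Γ)) (n := n) hn2 _ h2
    exact Submodule.mem_sup.2 ⟨_, ⟨y, rfl⟩, _, Submodule.mem_sup_left hy, add_sub_cancel _ _⟩

end

end RTD

open RTD

theorem span_int {Γ : Type} [Group Γ] {X : Set Y4} (hX : Tame X) {f : Y4 → Y4 → Γ}
    (hf : IsCoc f X) {n : ℕ} (hn : 1 ≤ n) {a : List Y4 → (Γ →₀ ℂ)}
    (ha : dT (tr (reg ℂ Γ) f) a ∈ N ℂ _ (n + 1) X) :
    ∃ (k : ℕ) (c : Fin k → ℂ) (φ : Fin k → List Y4 → (Γ →₀ ℤ)),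
      (∀ i, dT (tr (reg ℤ Γ) f) (φ i) ∈ N ℤ _ (n + 1) X) ∧
      Exa (tr (reg ℂ Γ) f) n X
        (a - ∑ i, c i • fun l => Finsupp.mapRange (Int.cast : ℤ → ℂ) Int.cast_zero (φ i l)) := by
  have hb : ∀ m ≤ (0 : ℤ), ∀ U, (sys f X hX.1 hf).N m U = ⊤ := by
    intro m hm U
    change NZ ℂ _ m (U ∩ X) ⊔ D0 Γ Y4 = ⊤
    rw [NZ_nonpos hm, top_sup_eq]
  have hex : ∀ U, Cvx U → U ⊆ X → ∀ m, (sys f X hX.1 hf).Z m U ≤ (sys f X hX.1 hf).Bd m U := by
    intro U hU hUX m x hx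
    by_cases hm : m ≤ 0
    · exact Submodule.mem_sup_right (by rw [hb m hm]; trivial)
    obtain ⟨j, rfl⟩ := Int.eq_ofNat_of_zero_le (not_le.1 hm).le
    have hj : 1 ≤ j := by omega
    change dT (tr (reg ℂ Γ) f) x ∈ NZ ℂ _ ((j : ℤ) + 1) (U ∩ X) ⊔ D0 Γ Y4 at hx
    change x ∈ LinearMap.range (dT (tr (reg ℂ Γ) f)) ⊔ (NZ ℂ _ (j : ℤ) (U ∩ X) ⊔ D0 Γ Y4)
    rw [inter_eq_left.2 hUX] at hx ⊢
    rw [← Nat.cast_succ, NZ_natCast (by omega)] at hx
    rw [NZ_natCast hj]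
    exact cvx_exact hU (hf.mono hUX) hj hx
  have h1 : a ∈ (sys f X hX.1 hf).Z n X := by
    change dT (tr (reg ℂ Γ) f) a ∈ NZ ℂ _ ((n : ℤ) + 1) (X ∩ X) ⊔ D0 Γ Y4
    rw [inter_self, ← Nat.cast_succ, NZ_natCast (by omega)]
    exact Submodule.mem_sup_left ha
  have h2 : a ∈ LinearMap.range (dT (tr (reg ℂ Γ) f)) ⊔ (NZ ℂ _ (n : ℤ) (X ∩ X) ⊔ D0 Γ Y4) :=
    MV.tame_zero (sys f X hX.1 hf) 0 hb hX hex n h1
  rw [inter_self, NZ_natCast hn] at h2
  obtain ⟨_, ⟨y, rfl⟩, w, hw, haw⟩ := Submodule.mem_sup.1 h2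
  obtain ⟨u, hu, e, he, rfl⟩ := Submodule.mem_sup.1 hw
  obtain ⟨k, c, φ, hc, rfl⟩ := exists_indep he
  have h3 : ∑ i, c i • iot Γ Y4 (φ i) = a - dT (tr (reg ℂ Γ) f) y - u := by
    rw [← haw]; abel
  refine ⟨k, c, φ, mem_N_of_indep hc ?_, y, ?_⟩
  · rw [← dT_sum, h3, map_sub, map_sub]
    exact Submodule.sub_mem _ (Submodule.sub_mem _ ha (dT_dT_mem_N (hf.tr _) _ _)) (dT_mem_N _ hu)
  · change a - ∑ i, c i • iot Γ Y4 (φ i) - dT (tr (reg ℂ Γ) f) y ∈ _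
    rw [h3]
    convert hu using 1
    abel

theorem kills_complex {Γ : Type} [Group Γ] {X : Set Y4} (hX : Tame X) {f : Y4 → Y4 → Γ}
    (hf : IsCoc f X) {n : ℕ} (hn : 1 ≤ n) {z : Γ} (hz : z ∈ Subgroup.center Γ) {Q : ℤ[X]}
    (k : Kills (tr (reg ℤ Γ) f) n X (aeval (reg ℤ Γ z) Q)) :
    Kills (tr (reg ℂ Γ) f) n X (aeval (reg ℂ Γ z) (Q.map (Int.castRingHom ℂ))) := by
  intro a ha
  obtain ⟨r, c, φ, hφ, y, hy⟩ := span_int hX hf hn ha
  change a - ∑ i, c i • iot Γ Y4 (φ i) - dT (tr (reg ℂ Γ) f) y ∈ _ at hy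
  choose ψ hψ using fun i => k (φ i) (hφ i)
  set L := aeval (reg ℂ Γ z) (Q.map (Int.castRingHom ℂ)) with hL
  have hc : ∀ x y e, L (tr (reg ℂ Γ) f x y e) = tr (reg ℂ Γ) f x y (L e) := by
    intro x y e
    refine (map_aeval (reg ℂ Γ (f x y)) (fun e => ?_) _ e).symm
    rw [← Module.End.mul_apply, ← Module.End.mul_apply, ← map_mul, ← map_mul,
      Subgroup.mem_center_iff.1 hz]
  have hi : ∀ φ, cm L (iot Γ Y4 φ) = iot Γ Y4 (cm (aeval (reg ℤ Γ z) Q) φ) := by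
    intro φ
    funext l
    exact (io_aeval z Q (φ l)).symm
  refine ⟨cm L y + ∑ i, c i • iot Γ Y4 (ψ i), ?_⟩
  have h1 := cm_mem_N L hy
  rw [map_sub, map_sub, cm_dT L _ _ hc, map_sum] at h1
  have h2 : ∑ i, c i • iot Γ Y4 (cm (aeval (reg ℤ Γ z) Q) (φ i) - dT (tr (reg ℤ Γ) f) (ψ i)) ∈
      N ℂ _ n X := Submodule.sum_mem _ fun i _ => Submodule.smul_mem _ _ (iot_mem_N (hψ i))
  simp only [map_sub, smul_sub, Finset.sum_sub_distrib] at h2
  simp only [map_smul, hi] at h1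
  rw [map_add, dT_sum]
  convert Submodule.add_mem _ h1 h2 using 1
  abel

theorem tk_rep {Γ : Type} [Group Γ] (Rp : RepIn Γ) {X : Set Y4} {f : Y4 → Y4 → Γ}
    (hf : IsCoc f X) (hb : Base X fun x y => Rp.dg (f x y)) :
    ∃ m₀, ∀ (n₀ : ℕ) (u v : ℂˣ) (ρ : Representation ℂ Γ (ℤ →₀ (Fin n₀ → ℂ))),
      RepOut Rp n₀ u v ρ → ∀ (z₀ : ℂ) (m : ℕ), m₀ ≤ m → ∀ k,
        TK (Tm ℂ (Fin n₀ → ℂ) Rp.p z₀) m k (tr ρ f) 2 X ∧
          TK (Tm ℂ (Fin n₀ → ℂ) Rp.p z₀) m k (tr ρ f) 3 X := by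
  classical
  obtain ⟨Q, hQ, hk⟩ := kills_int Rp hf hb
  have hq : Q.map (Int.castRingHom ℂ) ≠ 0 :=
    (Polynomial.map_ne_zero_iff (RingHom.injective_int _)).2 hQ
  refine ⟨2 * (Q.map (Int.castRingHom ℂ)).natDegree, fun n₀ u v ρ h z₀ m hm k => ?_⟩
  obtain ⟨i, π, h1, h2, h3⟩ := h.retr
  have key : ∀ n, 2 ≤ n → n ≤ 4 → Kills (tr ρ f) n X
      (aeval (shp ℂ (Fin n₀ → ℂ) Rp.p) (Q.map (Int.castRingHom ℂ))) := by
    intro n hn hn'
    refine Kills.retract i π h1 (fun x y e => h2 _ e) (fun x y e => h3 _ e) ?_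
      (kills_complex hb.tame hf (by omega) Rp.zc (hk n hn hn'))
    exact map_aeval π (fun e => by rw [h3, h.z]) _
  have hm' : 2 * (Q.map (Int.castRingHom ℂ)).rootMultiplicity z₀ ≤ m := by
    have := (Multiset.count_le_card z₀ _).trans (card_roots' (Q.map (Int.castRingHom ℂ)))
    rw [count_roots] at this
    omega
  have hc : ∀ x y, Commute (tr ρ f x y) (shp ℂ (Fin n₀ → ℂ) Rp.p) := fun x y =>
    (h.pm (f x y)).commute
  exact ⟨tk_of_kills (Tm_injective Rp.ppos z₀) hc (hf.tr ρ) hq (key 2 le_rfl (by omega))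
      (key 3 (by omega) (by omega)) hm' k,
    tk_of_kills (Tm_injective Rp.ppos z₀) hc (hf.tr ρ) hq (key 3 (by omega) (by omega))
      (key 4 (by omega) le_rfl) hm' k⟩

end Pool.Agent.HH
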