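import Pool.Agent.P.MP_c8dc46_gt.St1b
import Pool.Agent.P.MP_c8dc46_gt.LagE
import Pool.Agent.P.MP_c8dc46_gt.TD

/-!
The second stage: Lagrangian lemma and cuts.
-/

open Set Topology

namespace Pool.Agent.HH

variable {Γ : Type} [Group Γ] {Rp : RepIn Γ} {r s : Fin 2 → ℕ} {P : ℝ → S3} {g : Geo r s P}
  {hP : S3 → S3 → ℤ} {w : ℤ} {dg : Deg g hP w} {f : Y4 → Y4 → Γ}

theorem NFD.cocC (h : NFD Rp dg f) : IsCoc (pb (sl (-2)) f) (range g.C)ᶜ := by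
  exact h.coc.pb (fun _ _ => (Continuous.prodMk_left _).continuousAt)
    (dg.ann.sl_maps_low (by norm_num))

theorem NFD.cocD (h : NFD Rp dg f) : IsCoc (pb (sl 3) f) (range g.D)ᶜ := by
  exact h.coc.pb (fun _ _ => (Continuous.prodMk_left _).continuousAt)
    (dg.ann.sl_maps_high (by norm_num))

theorem RepOut.compat {n₀ : ℕ} {u v : ℂˣ} {ρ : Representation ℂ Γ (ℤ →₀ (Fin n₀ → ℂ))}
    (h : RepOut Rp n₀ u v ρ) {m : ℕ} {z₀ : ℂ} (hp : CP ℂ Rp.p m z₀) (γ : Γ) :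
    (cfn n₀ hp).Compat (ρ γ) := by
  exact (h.pm γ).compat hp

theorem NFD.lag (h : NFD Rp dg f) : ∃ m₀ : ℕ, ∀ (n₀ : ℕ) (u v : ℂˣ)
    (ρ : Representation ℂ Γ (ℤ →₀ (Fin n₀ → ℂ))), RepOut Rp n₀ u v ρ →
      ∀ (z₀ : ℂ) (m : ℕ) (hp : CP ℂ Rp.p m z₀), z₀ ≠ 1 → m₀ ≤ m →
        (∀ s₁ s₂, Sig3 (cfn n₀ hp) (tr ρ (pb (sl (-2)) f)) (range g.C)ᶜ s₁ →
          Sig3 (cfn n₀ hp) (tr ρ (pb (sl 3) f)) (range g.D)ᶜ s₂ → s₁ = s₂) ∧
        (cfn n₀ hp).Nondeg (tr ρ (pb (sl (-2)) f)) (range g.C)ᶜ := by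
  have hd : (fun x y => Rp.dg (f x y)) = dg.h := funext₂ h.deg
  have hd' : (fun x y => Rp.dg (pb (Prod.fst : Y4 → S3) (pb (sl (-2)) f) x y)) =
      pb Prod.fst (pb (sl (-2)) dg.h) := funext₂ fun _ _ => h.deg _ _
  have hK : IsKnot g.C := g.knotC
  have hc : IsCoc (pb (Prod.fst : Y4 → S3) (pb (sl (-2)) f)) ((range g.C)ᶜ ×ˢ univ) :=
    h.cocC.pb (fun _ _ => continuous_fst.continuousAt) fun _ hp => hp.1
  obtain ⟨m₁, h₁⟩ := tk_rep Rp h.coc (hd ▸ dg.ann.base hK g.knotD dg.gen)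
  obtain ⟨m₂, h₂⟩ := tk_rep Rp hc (hd' ▸ hK.base dg.genC)
  refine ⟨max m₁ m₂, fun n₀ u v ρ hρ z₀ m hp hz hm => ?_⟩
  have hz0 : z₀ ≠ 0 := left_ne_zero_of_mul_eq_one hp.unit
  have k₁ := h₁ n₀ u v ρ hρ z₀ m ((le_max_left _ _).trans hm) (2 * m)
  have k₂ := h₂ n₀ u v ρ hρ z₀ m ((le_max_right _ _).trans hm) (2 * m)
  refine ⟨fun s₁ s₂ g₁ g₂ => ?_, nondeg_knot hK (fun _ _ => hρ.compat hp _) (h.cocC.tr ρ)
    (merAc_rep (f := pb Prod.fst (pb (sl (-2)) f)) hρ hz0 hz m ((compl_rng_prodA g.C).symm ▸ hc)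
      (hd' ▸ dg.genC.prod hK)) k₂.1 k₂.2⟩
  have hL : LagD (cfn n₀ hp) g.C g.D dg.A (tr ρ f) (-2) 3 :=
    ⟨dg.ann, fun _ _ => hρ.compat hp _, h.coc.tr ρ, by norm_num, by norm_num,
      fun p q => congrArg ρ (h.ti p q), merAc_rep hρ hz0 hz m h.coc (hd ▸ dg.gen), k₁.1, k₁.2⟩
  have e₁ : pb (sl (-2 - 1)) (tr ρ f) = tr ρ (pb (sl (-2)) f) := by
    have e : ∀ x, clampT (-2) 3 (sl (-2 - 1) x) = sl (-2) x := fun x =>
      Prod.ext rfl (by norm_num [clampT, sl])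
    funext x y
    exact congrArg ρ ((h.ti _ _).trans (by rw [e, e]; rfl))
  have e₂ : pb (sl (3 + 1)) (tr ρ f) = tr ρ (pb (sl 3) f) := by
    have e : ∀ x, clampT (-2) 3 (sl (3 + 1) x) = sl 3 x := fun x =>
      Prod.ext rfl (by norm_num [clampT, sl])
    funext x y
    exact congrArg ρ ((h.ti _ _).trans (by rw [e, e]; rfl))
  exact hL.sig_eq (e₁ ▸ g₁) (e₂ ▸ g₂)

variable {n₀ m : ℕ} {u v : ℂˣ} {ρ : Representation ℂ Γ (ℤ →₀ (Fin n₀ → ℂ))} {z₀ : ℂ}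

namespace RSt2b

theorem holA_zero (γ : ℝ → S3) : IsHolA (fun _ _ => (0 : ℤ)) γ 0 :=
  ⟨fun _ => 0, fun _ => ⟨univ, Filter.univ_mem, fun _ _ _ _ => rfl⟩, fun _ => rfl⟩

theorem hol_nf {f' : S3 → S3 → Γ} {S : Set S3} {g₀ : Γ} {θ₀ θ₁ : S3 → S3 → ℤ}
    (hG : Gauge f' (fun x y => g₀ ^ hP x y * Rp.c₀ ^ θ₀ x y * Rp.c₁ ^ θ₁ x y) S) {γ : ℝ → S3}
    (hγ : IsLoop γ S) (h0 : IsHolA hP γ 0) {i j : ℤ} (h1 : IsHolA θ₀ γ i) (h2 : IsHolA θ₁ γ j) :
    IsHol f' γ (Rp.c₀ ^ i * Rp.c₁ ^ j) := by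
  obtain ⟨k, hk⟩ := (((h0.zpow g₀).mul_central Rp.cc₀ h1).mul_central Rp.cc₁ h2).gauge hG.symm hγ
  have hc : Rp.c₀ ^ i * Rp.c₁ ^ j ∈ Subgroup.center Γ :=
    mul_mem (zpow_mem Rp.cc₀ i) (zpow_mem Rp.cc₁ j)
  rwa [zpow_zero, one_mul, Subgroup.mem_center_iff.1 hc k, mul_inv_cancel_right] at hk

/-- Acyclicity of a shell from the normal form. -/
theorem acyc_nf (hρ : RepOut Rp n₀ u v ρ) (hp : CP ℂ Rp.p m z₀) {f' : S3 → S3 → Γ} {S : Set S3}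
    (hf : IsCoc f' S) {g₀ : Γ} {θ₀ θ₁ : S3 → S3 → ℤ}
    (hG : Gauge f' (fun x y => g₀ ^ hP x y * Rp.c₀ ^ θ₀ x y * Rp.c₁ ^ θ₁ x y) S) {c x₀ : ℂ}
    {R ρ₁ r : ℝ} (h1 : ‖c‖ + R ≤ 1) (hρ₁ : 0 ≤ ρ₁) (hr : ρ₁ < r) (hs : ‖x₀ - c‖ + r < R)
    (hS : RB (Metric.ball c R \ Metric.closedBall x₀ ρ₁) ⊆ S) (h0 : IsHolA hP (lon x₀ r) 0)
    {i j : ℤ} (h₁ : IsHolA θ₀ (lon x₀ r) i) (h₂ : IsHolA θ₁ (lon x₀ r) j)
    (hne : u ^ i * v ^ j ≠ 1) :
    Acyc ((cfn n₀ hp).br (tr ρ f')) 2 (RB (Metric.ball c R \ Metric.closedBall x₀ ρ₁)) := by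
  have hb : Metric.closedBall x₀ r ⊆ Metric.ball c R :=
    Metric.closedBall_subset_ball' (by rw [dist_eq_norm]; linarith)
  have hr0 : 0 ≤ r := hρ₁.trans hr.le
  have hx : ‖x₀‖ + r ≤ 1 := by
    have := norm_add_le c (x₀ - c)
    rw [add_sub_cancel] at this
    linarith
  have hl := isLoop_lon (B := Metric.ball c R \ Metric.closedBall x₀ ρ₁) hr0 hx fun t => by
    have e : dist (x₀ + r * ex t) x₀ = r := by
      rw [dist_eq_norm, RFib.norm_pol_sub, abs_of_nonneg hr0]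
    exact ⟨hb (Metric.mem_closedBall.2 e.le), fun hm =>
      absurd (Metric.mem_closedBall.1 hm) (by rw [e]; exact not_le.2 hr)⟩
  refine (acyc_fibL Metric.isOpen_ball (convex_ball _ _) (fun x hx => ?_) hρ₁ hr hb
    (((hf.mono hS).tr ρ).bar (fun _ _ => (hρ.compat hp _).1) m)
    (loopAc_scalar hρ z₀ m (hol_nf hG ⟨hl.1, hl.2.1, fun t => hS (hl.2.2 t)⟩ h0 h₁ h₂) hne)).2
  have := norm_add_le c (x - c)
  rw [add_sub_cancel] at this
  have := mem_ball_iff_norm.1 hx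
  linarith

theorem loop_h (g : Geo r s P) {x : ℂ} (hx : ‖x‖ < 1) {S : Set S3}
    (hS : ∀ p, xc p = x → yc p ≠ 0 → g.h p ∈ S) : IsLoop (g.h ∘ fib x) S := by
  have hl := isLoop_fib (B := univ) (mem_univ x) hx.le
  refine ⟨g.h.continuous.comp hl.1, fun t => congrArg g.h (hl.2.1 t), fun t =>
    hS _ (xc_fib hx.le t) fun h0 => ?_⟩
  rw [yc_eq_zero_iff, xc_fib hx.le] at h0
  exact hx.ne h0

theorem far (g : Geo r s P) {i j : Fin 2} (h : j ≠ i) : ‖g.xi j - g.xi i‖ = 2 * g.a := by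
  fin_cases i <;> fin_cases j
  · exact absurd rfl h
  · exact (norm_sub_rev _ _).trans g.norm_xi_sub
  · exact g.norm_xi_sub
  · exact absurd rfl h

theorem hol_thx (g : Geo r s P) (i j : Fin 2) :
    IsHolA (g.thx j) (lon (g.xi i) (5 * g.ρ / 2)) (if i = j then 1 else 0) := by
  obtain ⟨a1, a2, a3⟩ := g.rad
  have := isHolA_xc_lon (x₀ := g.xi i) (x₁ := g.xi j) (r := 5 * g.ρ / 2) (by linarith)
    (by rw [g.norm_xi]; linarith)
  split_ifs with h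
  · exact this.1 (by rw [h])
  · exact this.2 (by rw [far g (Ne.symm h)]; linarith)

theorem hol_sel (g : Geo r s P) (i j : Fin 2) :
    IsHolA (sel i j (g.thx i)) (lon (g.xi i) (5 * g.ρ / 2)) (if i = j then 1 else 0) := by
  unfold sel
  split_ifs with h
  · simpa using hol_thx g i i
  · exact holA_zero _

theorem uv_ne (hu : u ≠ 1) (hv : v ≠ 1) (i : Fin 2) :
    u ^ (if i = 0 then 1 else 0 : ℤ) * v ^ (if i = 1 then 1 else 0 : ℤ) ≠ 1 := by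
  fin_cases i
  · simpa using hu
  · simpa using hv

end RSt2b

open RSt2b

theorem NFD.cutC (h : NFD Rp dg f) (hg : IsCocA hP (range P)ᶜ) (hρ : RepOut Rp n₀ u v ρ)
    (hp : CP ℂ Rp.p m z₀) (hz : z₀ ≠ 1) (hu : u ≠ 1) (hv : v ≠ 1) (huv : u * v ≠ 1) :
    Cut ((cfn n₀ hp).br (tr ρ (pb (sl (-2)) f))) (range g.C)ᶜ (⋃ i, g.shC i) := by
  obtain ⟨a1, a2, a3⟩ := g.rad
  obtain ⟨g₀, -, hG⟩ := h.midC
  have hf := h.cocC.pb g.fl_maps.2 g.fl_maps.1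
  refine g.cutC ((h.cocC.tr ρ).bar (fun _ _ => (hρ.compat hp _).1) m) (fun i => ?_) ?_
    fun x hx hx' => ?_
  · have e : g.Bc i = Metric.ball (g.xi i) (4 * g.ρ) \ Metric.closedBall (g.xi i) g.ρ := by
      ext x
      simp only [Geo.Bc, mem_sdiff, mem_ball_iff_norm, mem_closedBall_iff_norm, not_le,
        mem_ofPred_eq, and_comm]
    rw [e]
    refine acyc_nf hρ hp hf hG (by rw [g.norm_xi]; linarith) a2.le (by linarith)
      (by rw [sub_self, norm_zero]; linarith) (g.RB_subset_Mid fun x hx => ?_)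
      (g.lonP hg (by linarith) (by rw [g.norm_xi]; linarith)) (hol_thx g i 0) (hol_thx g i 1)
      (uv_ne hu hv i)
    rw [← e] at hx
    refine ⟨?_, fun j hj => ?_⟩
    · have := norm_add_le (g.xi i) (x - g.xi i)
      rw [add_sub_cancel, g.norm_xi] at this
      linarith [hx.2]
    · by_cases hji : j = i
      · have := hx.1
        rw [hj, hji, sub_self, norm_zero] at this
        linarith
      · have := hx.2
        rw [hj, far g hji] at this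
        linarith
  · have e : g.Bv = Metric.ball 0 (g.a + 13 * g.ρ / 2) \
        Metric.closedBall 0 (g.a + 9 * g.ρ / 2) := by
      ext x
      simp only [Geo.Bv, mem_sdiff, mem_ball_zero_iff, mem_closedBall_zero_iff, not_le,
        mem_ofPred_eq, and_comm]
    have h1 : ∀ j, IsHolA (g.thx j) (lon 0 (g.a + 11 * g.ρ / 2)) 1 := fun j =>
      isHolA_xc_lon_in (by rw [norm_zero]; linarith) (by rw [sub_zero, g.norm_xi]; linarith)
    rw [e]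
    refine acyc_nf hρ hp hf hG (by rw [norm_zero]; linarith) (by linarith) (by linarith)
      (by rw [sub_self, norm_zero]; linarith) (g.RB_subset_Mid fun x hx => ?_)
      (g.lonP hg (by linarith) (by rw [norm_zero]; linarith)) (h1 0) (h1 1) (by simpa using huv)
    rw [← e] at hx
    refine ⟨by linarith [hx.2], fun j hj => ?_⟩
    have := hx.1
    rw [hj, g.norm_xi] at this
    linarith
  · refine loopAc_rep hρ (left_ne_zero_of_mul_eq_one hp.unit) hz m h.cocC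
      (loop_h g hx fun p hp hy => ?_) dg.hε ?_
    · have h1 : -1 / 2 ≤ (xc p).re := hp ▸ hx'.le
      exact g.fl_h h1 ▸ g.fl_maps.1 (g.h_mem_Mid h1 hy)
    · have e : (fun x y => Rp.dg (pb (sl (-2)) f x y)) = pb (sl (-2)) dg.h :=
        funext₂ fun _ _ => h.deg _ _
      rw [e]
      exact dg.fibqC x hx hx'

theorem NFD.cutD (h : NFD Rp dg f) (hg : IsCocA hP (range P)ᶜ) (hρ : RepOut Rp n₀ u v ρ)
    (hp : CP ℂ Rp.p m z₀) (hz : z₀ ≠ 1) (hu : u ≠ 1) (hv : v ≠ 1) :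
    Cut ((cfn n₀ hp).br (tr ρ (pb (sl 3) f))) (range g.D)ᶜ (⋃ i, g.shD i) := by
  obtain ⟨a1, a2, a3⟩ := g.rad
  refine g.cutD ((h.cocD.tr ρ).bar (fun _ _ => (hρ.compat hp _).1) m) (fun i => ?_)
    fun x hx hx' => ?_
  · obtain ⟨g₀, -, hG⟩ := h.midD i
    have hf := h.cocD.pb (g.rq_maps dg.retq i).2 (g.rq_maps dg.retq i).1
    have e : g.Bd i = Metric.ball 0 (g.a + 13 * g.ρ / 2) \ Metric.closedBall (g.xi i) g.ρ := by
      ext x
      simp only [Geo.Bd, mem_sdiff, mem_ball_zero_iff, mem_closedBall_iff_norm, not_le,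
        mem_ofPred_eq, and_comm]
    have h1 : ∀ p ∈ RB (g.Bd i), ‖xc p‖ ≤ g.a + 7 * g.ρ ∧ p ∉ eta (g.xi i) := by
      intro p hp
      refine ⟨by linarith [hp.2], fun h0 => ?_⟩
      have h2 : g.ρ < ‖xc p - g.xi i‖ := hp.1
      rw [show xc p = g.xi i from h0, sub_self, norm_zero] at h2
      linarith
    refine Acyc.congr ?_ ((g.rq_locEq dg.retq i _).mono fun p hp hm =>
      hm.elim (h1 p hp).2 fun hm => g.off_of_norm (h1 p hp).1 (image_mono (fun q hq => ?_) hm))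
    · rw [e]
      refine acyc_nf hρ hp hf hG (by rw [norm_zero]; linarith) a2.le (by linarith)
        (by rw [sub_zero, g.norm_xi]; linarith) (fun p hp hm => ?_)
        (g.lonP hg (by linarith) (by rw [g.norm_xi]; linarith)) (hol_sel g i 0) (hol_sel g i 1)
        (uv_ne hu hv i)
      rw [← e] at hp
      exact hm.elim (fun hm => disjoint_left.1 g.disjoint_P hm
        (mem_closedBall_zero_iff.2 (h1 p hp).1)) (h1 p hp).2
    · have h2 : -1 / 4 ≤ (xc q).re := hq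
      change -1 / 2 ≤ (xc q).re
      linarith
  · refine loopAc_rep hρ (left_ne_zero_of_mul_eq_one hp.unit) hz m h.cocD
      (loop_h g hx fun p hp hy hm => hy ((g.h_mem_D (hp ▸ hx'.le)).1 hm)) dg.hε ?_
    have e : (fun x y => Rp.dg (pb (sl 3) f x y)) = pb (sl 3) dg.h :=
      funext₂ fun _ _ => h.deg _ _
    rw [e]
    exact dg.fibqD x hx hx'

end Pool.Agent.HH
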