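import Pool.Agent.P.MP_c8dc46_gt.St2b

/-!
The second stage: identification of the pieces.
-/

open Set Topology

namespace Pool.Agent.HH

variable {Γ : Type} [Group Γ] {Rp : RepIn Γ} {r s : Fin 2 → ℕ} {P : ℝ → S3} {g : Geo r s P}
  {hP : S3 → S3 → ℤ} {w : ℤ} {dg : Deg g hP w} {f : Y4 → Y4 → Γ}
  {n₀ m : ℕ} {u v : ℂˣ} {ρ : Representation ℂ Γ (ℤ →₀ (Fin n₀ → ℂ))} {z₀ : ℂ}

namespace RSt2c

theorem rho_zpow {V : Type} [AddCommGroup V] [Module ℂ V] {ρ : Representation ℂ Γ V} {c : Γ}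
    {u : ℂˣ} (h : ρ c = (u : ℂ) • 1) (k : ℤ) : ρ (c ^ k) = ((u ^ k : ℂˣ) : ℂ) • 1 := by
  have hi : ρ c⁻¹ = ((u⁻¹ : ℂˣ) : ℂ) • 1 := by
    have e : ρ c * ρ c⁻¹ = 1 := by rw [← map_mul, mul_inv_cancel, map_one]
    rw [h, smul_mul_assoc, one_mul] at e
    rw [← e, smul_smul, Units.inv_mul, one_smul]
  induction k using Int.induction_on with
  | zero => simp
  | succ k ih =>
    rw [zpow_add_one, map_mul, ih, h, zpow_add_one, smul_mul_smul_comm, mul_one, Units.val_mul]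
  | pred k ih =>
    rw [zpow_sub_one, map_mul, ih, hi, zpow_sub_one, smul_mul_smul_comm, mul_one, Units.val_mul]

theorem cohA_refl (h : S3 → S3 → ℤ) (M : Set S3) : CohA h h M :=
  CohA.of_locEq fun _ _ => ⟨univ, Filter.univ_mem, fun _ _ _ _ => rfl⟩

theorem mid_P (g : Geo r s P) : g.Mid ⊆ (range P)ᶜ := fun _ hp h => hp (Or.inl (Or.inl h))

theorem mid_eta (g : Geo r s P) (i : Fin 2) : g.Mid ⊆ (eta (g.xi i))ᶜ := fun _ hp h => by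
  fin_cases i
  · exact hp (Or.inl (Or.inr h))
  · exact hp (Or.inr h)

theorem coc_thx (g : Geo r s P) (i : Fin 2) : IsCocA (g.thx i) g.Mid :=
  isCocA_th (fun _ _ => (continuous_xc.sub continuous_const).continuousAt)
    fun _ hp h => mid_eta g i hp (sub_eq_zero.1 h)

theorem coc_sel {θ : S3 → S3 → ℤ} {M : Set S3} (h : IsCocA θ M) (i j : Fin 2) :
    IsCocA (sel i j θ) M := by
  unfold sel
  split_ifs
  · exact h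
  · exact fun _ _ => ⟨univ, Filter.univ_mem, fun _ _ _ _ _ _ => add_zero _⟩

theorem cohA_sel {θ θ' : S3 → S3 → ℤ} {M : Set S3} (h : CohA θ θ' M) (i j : Fin 2) :
    CohA (sel i j θ) (sel i j θ') M := by
  unfold sel
  split_ifs
  · exact h
  · exact cohA_refl _ _

end RSt2c

open RSt2c

theorem piece_sig (hn : 0 < n₀) (hρ : RepOut Rp n₀ u v ρ) (hp : CP ℂ Rp.p m z₀)
    (hu : (u : ℂ) * star (u : ℂ) = 1) (hv : (v : ℂ) * star (v : ℂ) = 1) {M : Set S3}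
    {f : S3 → S3 → Γ} (hf : IsCoc f M) {h θ₀ θ₁ : S3 → S3 → ℤ} (hh : IsCocA h M)
    (h₀ : IsCocA θ₀ M) (h₁ : IsCocA θ₁ M) {g₀ : Γ} (hg : Rp.dg g₀ = 1)
    (hG : Gauge f (fun x y => g₀ ^ h x y * Rp.c₀ ^ θ₀ x y * Rp.c₁ ^ θ₁ x y) M) :
    (∀ t, Sig3 (cfn n₀ hp) (tr ρ f) M t →
      ∃ t', Sig3 (cf1 hp) (mtau ℂ ℂ u v h θ₀ θ₁) M t' ∧ t = n₀ * t') ∧
    ((cfn n₀ hp).Nondeg (tr ρ f) M → (cf1 hp).Nondeg (mtau ℂ ℂ u v h θ₀ θ₁) M) := by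
  have hc : ∀ γ, (cfn n₀ hp).Compat (ρ γ) := hρ.compat hp
  obtain ⟨a1, a2⟩ := sig3_tr_gauge hc hf hG
  obtain ⟨U, hU, e⟩ := hρ.model hg
  have key : ∀ x y, U * mtau ℂ (Fin n₀ → ℂ) u v h θ₀ θ₁ x y =
      tr ρ (fun x y => g₀ ^ h x y * Rp.c₀ ^ θ₀ x y * Rp.c₁ ^ θ₁ x y) x y * U := fun x y => by
    simp only [mtau, tr, map_mul, rho_zpow hρ.u, rho_zpow hρ.v, mul_smul_comm, smul_mul_assoc,
      mul_one, e, smul_smul, Units.val_mul, mul_comm]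
  obtain ⟨b1, b2⟩ := sig3_pm hp (compatT_mtau hp hu hv _ _ _) (fun _ _ => hc _)
    (isCoc_mtau u v hh h₀ h₁) ((hG.isCoc hf).tr ρ) hU key
  obtain ⟨c1, c2⟩ := sig3_mult hn hp hu hv hh h₀ h₁
  exact ⟨fun t ht => c1 t ((b1 t).2 ((a1 t).1 ht)), fun hN => c2 (b2.2 (a2 hN))⟩

theorem NFD.comp_eq (h : NFD Rp dg f) (hc : IsCoprime w (Rp.p : ℤ)) (hρ : RepOut Rp n₀ u v ρ)
    (hp : CP ℂ Rp.p m z₀) (i : Fin 2) (t : ℤ) :
    Sig3 (cfn n₀ hp) (tr ρ (pb (sl (-2)) f)) (g.Oi i) t ↔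
      Sig3 (cfn n₀ hp) (tr ρ (pb (sl 3) f)) (g.Ψ i '' g.Oi i) t := by
  obtain ⟨n, α, g₁, g₂, e1, e2, e3, e4, d1, d2, hcm, hn, G1, G2⟩ := h.comp i
  have hcp : ∀ γ, (cfn n₀ hp).Compat (ρ γ) := hρ.compat hp
  have ρ0 := g.rad.2.1
  have s3 : g.Oi i ⊆ (g.lk i).Oc (3 * g.ρ) := (g.lk i).Oc_mono (by linarith)
  have s4 : g.Oi i ⊆ (g.lk i).Oc (4 * g.ρ) := (g.lk i).Oc_mono (by linarith)
  have sK : g.Oi i ⊆ (g.lk i).Kᶜ := (g.lk i).Oc_subset g.rad (sg_cases i) (by linarith)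
  have oo : IsOpen (g.Oi i) := (g.lk i).isOpen_Oc g.rad (by linarith)
  have c1 : IsCoc (pb (sl (-2)) f) (g.Oi i) := h.cocC.mono (s4.trans (g.Oc_subset_C i))
  have G1' : Gauge (pb (sl (-2)) f) (fun x y => n x y * g₁ ^ th (g.lk i).ϑ x y) (g.Oi i) :=
    (Gauge.of_locEq (((dg.ret i).locEq g.rad _).mono s3).symm).trans (G1.mono sK)
  have c2' : IsCoc (pb (sl 3) f) (g.Ψ i '' g.Oi i) :=
    h.cocD.mono (image_subset_iff.2 fun _ hq => g.Ψ_maps i (s4 hq))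
  have c2 : IsCoc (pb (g.Ψ i) (pb (sl 3) f)) (g.Oi i) :=
    c2'.pb (fun _ _ => (g.Ψ i).continuous.continuousAt) (mapsTo_image _ _)
  have G2' : Gauge (pb (g.Ψ i) (pb (sl 3) f))
      (fun x y => α (n x y) * g₂ ^ th (g.lk i).ϑ x y) (g.Oi i) :=
    (Gauge.of_locEq (((dg.ret i).locEq g.rad _).mono s3).symm).trans (G2.mono sK)
  obtain ⟨U, hU, e⟩ := hρ.phi α g₁ g₂ e1 e2 e3 e4 (d1.trans d2.symm) (d1 ▸ hc) hcm
  refine ((sig3_tr_gauge hcp c1 G1').1 t).trans (Iff.trans ?_ (sig3_pull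
    (OE.of_homeomorph (g.Ψ i) oo) ((g.degOne_Ψ ℂ i).mono (OE.of_homeomorph _ isOpen_univ) oo
      (subset_univ _)) (fun _ _ => hcp _) (c2'.tr ρ) t).symm)
  refine Iff.trans ?_ ((sig3_tr_gauge hcp c2 G2').1 t).symm
  exact (sig3_pm hp (fun _ _ => hcp _) (fun _ _ => hcp _) ((G1'.isCoc c1).tr ρ)
    ((G2'.isCoc c2).tr ρ) hU fun x y => e _ _ (hn x y)).1 t

theorem RSt2c.midPiece (h : NFD Rp dg f) (hg : IsCocA hP (range P)ᶜ) (hn : 0 < n₀)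
    (hρ : RepOut Rp n₀ u v ρ) (hp : CP ℂ Rp.p m z₀) (hu : (u : ℂ) * star (u : ℂ) = 1)
    (hv : (v : ℂ) * star (v : ℂ) = 1) {M : Set S3} (hM : IsOpen M) (hs : M ⊆ g.Mid)
    {k θ₀ θ₁ : S3 → S3 → ℤ} (c : CohA hP k M) (c₀ : CohA (g.thx 0) θ₀ M)
    (c₁ : CohA (g.thx 1) θ₁ M) :
    (∀ t, Sig3 (cfn n₀ hp) (tr ρ (pb (sl (-2)) f)) (g.fl '' M) t →
      ∃ t', Sig3 (cf1 hp) (mtau ℂ ℂ u v k θ₀ θ₁) M t' ∧ t = n₀ * t') ∧
    ((cfn n₀ hp).Nondeg (tr ρ (pb (sl (-2)) f)) (g.fl '' M) →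
      (cf1 hp).Nondeg (mtau ℂ ℂ u v k θ₀ θ₁) M) := by
  obtain ⟨g₀, d0, G⟩ := h.midC
  have hcp : (cfn n₀ hp).CompatT (tr ρ (pb (sl (-2)) f)) := fun _ _ => hρ.compat hp _
  have sE : M ⊆ (eta (g.xi 0) ∪ eta (g.xi 1))ᶜ := fun _ hq hq' =>
    hq'.elim (mid_eta g 0 (hs hq)) (mid_eta g 1 (hs hq))
  have oe := g.oe_fl.mono hM sE
  have d1 := (g.degOne_fl ℂ).mono g.oe_fl hM sE
  have c1 : IsCoc (pb (sl (-2)) f) (g.fl '' M) :=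
    h.cocC.mono (image_subset_iff.2 fun _ hq => g.fl_maps.1 (hs hq))
  have c2 : IsCoc (pb g.fl (pb (sl (-2)) f)) M :=
    c1.pb (fun _ hq => g.fl_maps.2 _ (hs hq)) (mapsTo_image _ _)
  have hh := hg.mono (hs.trans (mid_P g))
  have t0 := (coc_thx g 0).mono hs
  have t1 := (coc_thx g 1).mono hs
  obtain ⟨a1, a2⟩ := piece_sig hn hρ hp hu hv c2 hh t0 t1 d0 (G.mono hs)
  obtain ⟨b1, b2⟩ := sig3_mtau_cohA (isHerm_H1 ℂ) hp hu hv hh t0 t1 c c₀ c₁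
  have e : pb g.fl (tr ρ (pb (sl (-2)) f)) = tr ρ (pb g.fl (pb (sl (-2)) f)) := rfl
  refine ⟨fun t ht => ?_, fun hN => ?_⟩
  · obtain ⟨t', e1, e2⟩ := a1 t (e ▸ (sig3_pull oe d1 hcp (c1.tr ρ) t).1 ht)
    exact ⟨t', (b1 t').1 e1, e2⟩
  · have h1 := (cfn n₀ hp).nondeg_pull oe d1 hcp (c1.tr ρ) hN
    rw [e] at h1
    exact b2 (a2 h1)

theorem NFD.pieceS (h : NFD Rp dg f) (hg : IsCocA hP (range P)ᶜ) (hn : 0 < n₀)
    (hρ : RepOut Rp n₀ u v ρ) (hp : CP ℂ Rp.p m z₀) (hu : (u : ℂ) * star (u : ℂ) = 1)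
    (hv : (v : ℂ) * star (v : ℂ) = 1) :
    (∀ t, Sig3 (cfn n₀ hp) (tr ρ (pb (sl (-2)) f)) (g.fl '' g.So) t →
      ∃ t', Sig3 (cf1 hp) (sysS (u * v) hP) g.So t' ∧ t = n₀ * t') ∧
    ((cfn n₀ hp).Nondeg (tr ρ (pb (sl (-2)) f)) (g.fl '' g.So) →
      (cf1 hp).Nondeg (sysS (u * v) hP) g.So) := by
  have e : sysS (u * v) hP = mtau ℂ ℂ u v hP (th xc) (th xc) := by
    funext x y
    simp only [sysS, mtau, mul_zpow, zpow_zero, mul_one]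
  rw [e]
  exact midPiece h hg hn hρ hp hu hv g.isOpen_So g.So_subset (cohA_refl _ _) (g.cohA_th_So 0)
    (g.cohA_th_So 1)

theorem NFD.pieceQ (h : NFD Rp dg f) (hg : IsCocA hP (range P)ᶜ) (hw : IsHolA hP (fib 0) w)
    (hn : 0 < n₀) (hρ : RepOut Rp n₀ u v ρ) (hp : CP ℂ Rp.p m z₀)
    (hu : (u : ℂ) * star (u : ℂ) = 1) (hv : (v : ℂ) * star (v : ℂ) = 1) :
    (∀ t, Sig3 (cfn n₀ hp) (tr ρ (pb (sl (-2)) f)) (g.fl '' g.Qo) t →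
      ∃ t', Sig3 (cf1 hp) (sysQ g u v w) g.Qo t' ∧ t = n₀ * t') ∧
    ((cfn n₀ hp).Nondeg (tr ρ (pb (sl (-2)) f)) (g.fl '' g.Qo) →
      (cf1 hp).Nondeg (sysQ g u v w) g.Qo) :=
  midPiece h hg hn hρ hp hu hv g.isOpen_Qo g.Qo_subset
    ((g.cohA_core hg hw).mono fun _ hq => mem_ball_zero_iff.2
      (lt_trans hq.1 (by linarith [g.rad.2.1]))) (cohA_refl _ _) (cohA_refl _ _)

theorem NFD.pieceD (h : NFD Rp dg f) (hg : IsCocA hP (range P)ᶜ) (hn : 0 < n₀)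
    (hρ : RepOut Rp n₀ u v ρ) (hp : CP ℂ Rp.p m z₀) (hu : (u : ℂ) * star (u : ℂ) = 1)
    (hv : (v : ℂ) * star (v : ℂ) = 1) (i : Fin 2) (t : ℤ)
    (ht : Sig3 (cfn n₀ hp) (tr ρ (pb (sl 3) f)) (g.Ψ i '' ((g.lk i).F '' g.So)) t) :
    ∃ t', Sig3 (cf1 hp) (sysS (![u, v] i) hP) g.So t' ∧ t = n₀ * t' := by
  obtain ⟨g₀, d0, G⟩ := h.midD i
  have hcp : (cfn n₀ hp).CompatT (tr ρ (pb (sl 3) f)) := fun _ _ => hρ.compat hp _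
  have sE : g.So ⊆ (eta (g.xi i))ᶜ := g.So_subset.trans (mid_eta g i)
  have sP : g.So ⊆ (range P)ᶜ := g.So_subset.trans (mid_P g)
  have oe := (g.oe_ΨF i).mono g.isOpen_So sE
  have d1 := (g.degOne_ΨF ℂ i).mono (g.oe_ΨF i) g.isOpen_So sE
  rw [← image_comp] at ht
  have c1 : IsCoc (pb (sl 3) f) ((g.Ψ i ∘ (g.lk i).F) '' g.So) :=
    h.cocD.mono (image_subset_iff.2 fun q hq hD => sP hq ((g.ΨF_mem_D i (sE hq) fun hb =>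
      hq.2 (image_mono (fun x (hx : 0 ≤ (xc x).re) =>
        show -1 / 4 ≤ (xc x).re by linarith) hb)).1 hD))
  have c2 : IsCoc (pb (g.Ψ i ∘ (g.lk i).F) (pb (sl 3) f)) g.So :=
    c1.pb (fun q hq => oe.cont.continuousAt (g.isOpen_So.mem_nhds hq)) (mapsTo_image _ _)
  have G' := (Gauge.of_locEq ((g.rq_locEq dg.retq i (pb (sl 3) f)).mono (S' := g.So)
    fun _ hq hq' => hq'.elim (sE hq) hq.2).symm).trans
      (G.mono fun _ hq hq' => hq'.elim (sP hq) (sE hq))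
  have hh := hg.mono sP
  have t0 := (coc_thx g i).mono g.So_subset
  obtain ⟨t', e1, e2⟩ := (piece_sig hn hρ hp hu hv c2 hh (coc_sel t0 i 0) (coc_sel t0 i 1) d0 G').1 t
    ((sig3_pull oe d1 hcp (c1.tr ρ) t).1 ht)
  have e3 := ((sig3_mtau_cohA (isHerm_H1 ℂ) hp hu hv hh (coc_sel t0 i 0) (coc_sel t0 i 1)
    (cohA_refl _ _) (cohA_sel (g.cohA_th_So i) i 0) (cohA_sel (g.cohA_th_So i) i 1)).1 t').1 e1
  have e : sysS (![u, v] i) hP = mtau ℂ ℂ u v hP (sel i 0 (th xc)) (sel i 1 (th xc)) := by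
    funext x y
    fin_cases i <;> simp [sysS, mtau, sel]
  exact ⟨t', e ▸ e3, e2⟩

end Pool.Agent.HH
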