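import Mathlib

/-!
Knots, satellites, connected sums and topological concordance: the definitions used in the
statements about Hedden's conjecture.
-/

open Set

noncomputable section

namespace Pool.Agent.HH

/-- The unit sphere in `ℂ²`. -/
abbrev S3 : Type := {p : ℂ × ℂ // ‖p.1‖ ^ 2 + ‖p.2‖ ^ 2 = 1}

/-- `ex s = exp (2 π i s)`. -/
def ex (s : ℝ) : ℂ := Complex.exp (2 * Real.pi * s * Complex.I)

theorem norm_ex (s : ℝ) : ‖ex s‖ = 1 := by
  have h : (2 * Real.pi * s * Complex.I : ℂ) = ((2 * Real.pi * s : ℝ) : ℂ) * Complex.I := by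
    push_cast; ring
  rw [ex, h, Complex.norm_exp_ofReal_mul_I]

open Classical in
/-- The standard embedding of the open solid torus, `(θ, d) ↦ (√(1 - |d|²) e(θ), d)` for
`|d| ≤ 1` (a junk value otherwise). Its core is the unknot `{y = 0}`. -/
def iota (θ : ℝ) (d : ℂ) : S3 :=
  if h : ‖d‖ ≤ 1 then
    ⟨(((Real.sqrt (1 - ‖d‖ ^ 2) : ℝ) : ℂ) * ex θ, d), by
      have h0 : 0 ≤ 1 - ‖d‖ ^ 2 := by nlinarith [norm_nonneg d]
      simp only [norm_mul, norm_ex, mul_one, Complex.norm_real, Real.norm_eq_abs, sq_abs,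
        Real.sq_sqrt h0]
      ring⟩
  else ⟨(1, 0), by simp⟩

/-- `A` is locally flat of codimension two in `Y`, with model `V × {0} ⊆ V × ℂ`. -/
def Flat (V : Type) [TopologicalSpace V] {Y : Type} [TopologicalSpace Y] (A : Set Y) : Prop :=
  ∀ p ∈ A, ∃ e : OpenPartialHomeomorph Y (V × ℂ), p ∈ e.source ∧
    ∀ x ∈ e.source, (x ∈ A ↔ (e x).2 = 0)

/-- An oriented knot: a locally flat embedding of `ℝ / ℤ` in the sphere. -/
structure IsKnot (K : ℝ → S3) : Prop where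
  cont : Continuous K
  per : ∀ s, K (s + 1) = K s
  inj : ∀ s s', K s = K s' → ∃ n : ℤ, s' = s + n
  flat : Flat ℝ (range K)

/-- `H` is isotopic to the identity through homeomorphisms of the sphere. -/
def Isot (H : S3 ≃ₜ S3) : Prop :=
  ∃ G : ℝ → S3 ≃ₜ S3, Continuous (fun q : ℝ × S3 => G q.1 q.2) ∧
    Continuous (fun q : ℝ × S3 => (G q.1).symm q.2) ∧ G 0 = Homeomorph.refl S3 ∧ G 1 = H

/-- `e` is an orientation preserving, zero framed embedding of the open solid torus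
`ℝ / ℤ × {|d| < 1}` with core `K`. -/
structure IsTube (K : ℝ → S3) (e : ℝ → ℂ → S3) : Prop where
  cont : ContinuousOn (fun q : ℝ × ℂ => e q.1 q.2) {q | ‖q.2‖ < 1}
  per : ∀ θ d, e (θ + 1) d = e θ d
  inj : ∀ θ d θ' d', ‖d‖ < 1 → ‖d'‖ < 1 → e θ d = e θ' d' → d = d' ∧ ∃ n : ℤ, θ' = θ + n
  core : ∀ θ, e θ 0 = K θ
  orient : ∃ H : S3 ≃ₜ S3, Isot H ∧ ∃ c : ℝ, 0 < c ∧ c ≤ 1 ∧ ∃ O : Set (ℝ × ℂ), IsOpen O ∧
    O.Nonempty ∧ ∀ q ∈ O, ‖q.2‖ < 1 ∧ H (e q.1 q.2) = iota q.1 (c * q.2)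
  framing : ∃ ϑ : S3 → ℂ, ContinuousOn ϑ (range K)ᶜ ∧ (∀ p, p ∉ range K → ϑ p ≠ 0) ∧
    ∀ θ d, d ≠ 0 → ‖d‖ < 1 → ∃ r : ℝ, 0 < r ∧ ϑ (e θ d) = r * d

/-- `L` is a connected sum of `K` and `J`: after isotopies of `K` and `J`, the sphere
`h {Re x = 0}` cuts `L` into an arc of `K` and an arc of `J`, the remaining arcs of `K` and `J`
being the images under `h` of the two halves of the unknot `{y = 0}`. -/
def IsConnSum (K J L : ℝ → S3) : Prop :=
  ∃ (h hK hJ : S3 ≃ₜ S3) (α β : ℝ → ℝ) (s₁ s₂ : ℝ), Isot hK ∧ Isot hJ ∧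
    Continuous α ∧ StrictMono α ∧ (∀ s, α (s + 1) = α s + 1) ∧
    Continuous β ∧ StrictMono β ∧ (∀ s, β (s + 1) = β s + 1) ∧
    s₁ < s₂ ∧ s₂ < s₁ + 1 ∧
    (∀ s ∈ Icc s₁ s₂, L s = hK (K (α s))) ∧
    (∀ s ∈ Icc s₂ (s₁ + 1), L s = hJ (J (β s))) ∧
    (∀ s ∈ Ioo s₁ s₂, (h.symm (L s)).1.1.re < 0) ∧
    (∀ s ∈ Ioo s₂ (s₁ + 1), 0 < (h.symm (L s)).1.1.re) ∧
    (fun s => h.symm (hK (K (α s)))) '' Icc s₂ (s₁ + 1) = {p | p.1.2 = 0 ∧ 0 ≤ p.1.1.re} ∧
    (fun s => h.symm (hJ (J (β s)))) '' Icc s₁ s₂ = {p | p.1.2 = 0 ∧ p.1.1.re ≤ 0}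

/-- `A` is a locally flat annulus in `S³ × ℝ` that is the product with `C` for `t ≤ 0`, the product
with `D` for `t ≥ 1`, and lies in `S³ × (0, 1)` in between. -/
structure IsAnn (C D : ℝ → S3) (A : ℝ → ℝ → S3 × ℝ) : Prop where
  cont : Continuous (fun q : ℝ × ℝ => A q.1 q.2)
  per : ∀ s t, A (s + 1) t = A s t
  inj : ∀ s t s' t', A s t = A s' t' → t = t' ∧ ∃ n : ℤ, s' = s + n
  low : ∀ s t, t ≤ 0 → A s t = (C s, t)
  high : ∀ s t, 1 ≤ t → A s t = (D s, t)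
  mid : ∀ s t, 0 < t → t < 1 → 0 < (A s t).2 ∧ (A s t).2 < 1
  flat : Flat (ℝ × ℝ) (range fun q : ℝ × ℝ => A q.1 q.2)

/-- Topological (locally flat) concordance of oriented knots. -/
def TopConc (C D : ℝ → S3) : Prop := ∃ A, IsAnn C D A

/-- A pattern of winding number `w`: the curve `s ↦ (a s mod 1, d s)` in the open solid torus is a
locally flat knot, `a (s + 1) = a s + w`, and it is a `C¹` immersion at one parameter at least
(every smooth and every polygonal pattern is of this kind). -/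
structure IsPattern (a : ℝ → ℝ) (d : ℝ → ℂ) (w : ℤ) : Prop where
  conta : Continuous a
  contd : Continuous d
  pera : ∀ s, a (s + 1) = a s + w
  perd : ∀ s, d (s + 1) = d s
  lt : ∀ s, ‖d s‖ < 1
  knot : IsKnot (fun s => iota (a s) (d s))
  reg : ∃ s₀, ContDiffAt ℝ 1 a s₀ ∧ ContDiffAt ℝ 1 d s₀ ∧ (deriv a s₀ ≠ 0 ∨ deriv d s₀ ≠ 0)

/-- The satellite operator of the pattern `(a, d)` is additive on the topological concordance
group: `P(K # J)` is concordant to `P(K) # P(J)` for all knots `K`, `J`. -/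
def IsHom (a : ℝ → ℝ) (d : ℝ → ℂ) : Prop :=
  ∀ (K J L D : ℝ → S3) (eK eJ eL : ℝ → ℂ → S3), IsKnot K → IsKnot J → IsKnot L → IsKnot D →
    IsTube K eK → IsTube J eJ → IsTube L eL → IsConnSum K J L →
    IsConnSum (fun s => eK (a s) (d s)) (fun s => eJ (a s) (d s)) D →
    TopConc (fun s => eL (a s) (d s)) D

/-- The 32 vertices `(X, Y, Z)` of one period of the Mazur pattern as a lattice walk: `X` runs
along the solid torus (period 4), the diagram is the projection to `(X, Y)`, `Z` is the height. -/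
def mzList : List (ℤ × ℤ × ℤ) :=
  [(0, -1, 0), (1, -1, 0), (2, -1, 0), (3, -1, 0), (3, -1, 1), (3, 0, 1), (3, 0, 0), (4, 0, 0),
   (5, 0, 0), (6, 0, 0), (6, 0, 1), (6, 1, 1), (6, 2, 1), (6, 2, 0), (5, 2, 0), (4, 2, 0),
   (3, 2, 0), (3, 2, 1), (3, 1, 1), (3, 1, 0), (2, 1, 0), (1, 1, 0), (1, 1, 1), (1, 0, 1),
   (1, -1, 1), (1, -2, 1), (1, -2, 0), (2, -2, 0), (3, -2, 0), (4, -2, 0), (4, -2, 1), (4, -1, 1)]

/-- The periodic lattice walk: vertex `i + 32` is vertex `i` moved by `4` in the direction `X`. -/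
def mzV (i : ℤ) : ℤ × ℤ × ℤ :=
  mzList.getD (i % 32).toNat (0, 0, 0) + (4 * (i / 32), 0, 0)

/-- Linear interpolation of an integer sequence, 32 steps per unit of time. -/
def interp (v : ℤ → ℤ) (s : ℝ) : ℝ :=
  (1 - Int.fract (32 * s)) * v ⌊32 * s⌋ + Int.fract (32 * s) * v (⌊32 * s⌋ + 1)

/-- The `S¹` coordinate of the Mazur pattern. -/
def mzA (s : ℝ) : ℝ := interp (fun i => (mzV i).1) s / 4

/-- The disc coordinate of the Mazur pattern. -/
def mzD (s : ℝ) : ℂ :=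
  ((interp (fun i => (mzV i).2.1) s : ℝ) + (interp (fun i => (mzV i).2.2) s : ℝ) * Complex.I) / 8

end Pool.Agent.HH
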