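import Pool.Agent.P.MP_c8dc46_gt.BumpB
import Pool.Agent.P.MP_c8dc46_gt.Tame

/-!
ROW K9. A small ball that meets the pattern in a standard arc: the germ of the pattern at a regular point is
straightened by `norm_iota`, and a Moebius contraction pulls a half sphere into the straightened region.
-/

open Set Topology

namespace Pool.Agent.HH

/-- The rotated and compressed pattern knot. -/
noncomputable def Pc (a : ℝ → ℝ) (d : ℝ → ℂ) (θ₀ c : ℝ) : ℝ → S3 :=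
  fun s => iota (a s + θ₀) (c * d s)

theorem IsPattern.exists_bound {a : ℝ → ℝ} {d : ℝ → ℂ} {w : ℤ} (hp : IsPattern a d w) :
    ∃ r₁ : ℝ, r₁ < 1 ∧ ∀ s, ‖d s‖ ≤ r₁ := by
  have hc : Continuous fun s => ‖d s‖ := hp.contd.norm
  obtain ⟨x, -, hx⟩ := (isCompact_Icc (a := (0 : ℝ) - 1 / 2) (b := 0 + 1 / 2)).exists_isMaxOn
    ⟨0, by norm_num, by norm_num⟩ hc.continuousOn
  refine ⟨‖d x‖, hp.lt x, fun s => ?_⟩
  obtain ⟨n, hn⟩ := RTame.exists_red s 0
  rw [← RTame.per_int hp.perd s n]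
  exact hx hn

theorem IsPattern.scale {a : ℝ → ℝ} {d : ℝ → ℂ} {w : ℤ} (hp : IsPattern a d w) (θ₀ : ℝ) {c : ℝ}
    (hc : 0 < c) (hc1 : c ≤ 1) : IsPattern (fun s => a s + θ₀) (fun s => c * d s) w := by
  obtain ⟨r₁, hr, hb⟩ := hp.exists_bound
  obtain ⟨H, hH, -⟩ := exists_rc hc hc1 hr
  have hlt : ∀ s, ‖(c : ℂ) * d s‖ < 1 := fun s => by
    rw [norm_mul, Complex.norm_real, Real.norm_eq_abs, abs_of_pos hc]
    nlinarith [hp.lt s, norm_nonneg (d s)]
  refine ⟨hp.conta.add continuous_const, continuous_const.mul hp.contd,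
    fun s => by rw [hp.pera]; ring, fun s => by rw [hp.perd], hlt, ?_, ?_⟩
  · have := hp.knot.image (OE.of_homeomorph (H.trans (rotX θ₀)) isOpen_univ) (subset_univ _)
    convert this using 2 with s
    rw [Homeomorph.trans_apply, hH _ _ (hb s), rotX_iota _ _ (hlt s).le]
  · obtain ⟨s₀, ha, hd, h0⟩ := hp.reg
    refine ⟨s₀, ha.add contDiffAt_const, contDiffAt_const.mul hd, ?_⟩
    rw [deriv_add_const, deriv_const_mul_field']
    exact h0.imp_right fun h => mul_ne_zero (Complex.ofReal_ne_zero.2 hc.ne') h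

/-- The ball `h '' {0 ≤ re x}` meets the knot `P` in the standard arc `P '' [s₂, s₁ + 1]`. -/
structure FlatBall (P : ℝ → S3) (h : S3 ≃ₜ S3) (s₁ s₂ : ℝ) : Prop where
  lt₁ : s₁ < s₂
  lt₂ : s₂ < s₁ + 1
  mem : ∀ p, -1 / 2 ≤ (xc p).re → (h p ∈ range P ↔ yc p = 0)
  neg : ∀ s ∈ Ioo s₁ s₂, (xc (h.symm (P s))).re < 0
  pos : ∀ s ∈ Ioo s₂ (s₁ + 1), 0 < (xc (h.symm (P s))).re
  arc : (fun s => h.symm (P s)) '' Icc s₂ (s₁ + 1) = {p | yc p = 0 ∧ 0 ≤ (xc p).re}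

namespace RSumD1

theorem exists_g {a : ℝ → ℝ} {d : ℝ → ℂ} {s₀ : ℝ} (ha : ContDiffAt ℝ 1 a s₀)
    (hd : ContDiffAt ℝ 1 d s₀) (h0 : deriv a s₀ ≠ 0 ∨ deriv d s₀ ≠ 0) :
    ∃ (g : ℝ × ℂ → ℝ × ℂ) (L : (ℝ × ℂ) →L[ℝ] (ℝ × ℂ)), Function.Injective L ∧
      HasStrictFDerivAt g L (s₀, 0) ∧ ∀ θ, g (θ, 0) = (a θ, d θ) := by
  obtain ⟨M, hM⟩ : ∃ M : ℂ →L[ℝ] ℝ × ℂ, ∀ (θ : ℝ) (z : ℂ),
      θ • ((deriv a s₀, deriv d s₀) : ℝ × ℂ) + M z = 0 → θ = 0 ∧ z = 0 := by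
    by_cases h1 : deriv a s₀ = 0
    · have h2 : deriv d s₀ ≠ 0 := h0.resolve_left (not_not.2 h1)
      refine ⟨Complex.imCLM.prod (Complex.reCLM.smulRight (Complex.I * deriv d s₀)),
        fun θ z h => ?_⟩
      have e1 := congrArg Prod.fst h
      have e2 := congrArg Prod.snd h
      simp only [h1, Prod.fst_add, Prod.smul_fst, smul_zero, ContinuousLinearMap.prod_apply,
        Complex.imCLM_apply, zero_add, Prod.fst_zero] at e1
      simp only [Prod.snd_add, Prod.smul_snd, ContinuousLinearMap.prod_apply,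
        ContinuousLinearMap.smulRight_apply, Complex.reCLM_apply, Prod.snd_zero,
        Complex.real_smul] at e2
      have e3 : ((θ : ℂ) + (z.re : ℂ) * Complex.I) * deriv d s₀ = 0 := by rw [← e2]; ring
      have e4 := (mul_eq_zero.1 e3).resolve_right h2
      have e5 := congrArg Complex.re e4
      have e6 := congrArg Complex.im e4
      simp at e5 e6
      exact ⟨e5, Complex.ext e6 e1⟩
    · refine ⟨ContinuousLinearMap.inr ℝ ℝ ℂ, fun θ z h => ?_⟩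
      have e1 := congrArg Prod.fst h
      have e2 := congrArg Prod.snd h
      simp only [Prod.fst_add, Prod.smul_fst, ContinuousLinearMap.inr_apply, add_zero,
        Prod.fst_zero, smul_eq_mul, mul_eq_zero, h1, or_false] at e1
      simp only [e1, zero_smul, zero_add, ContinuousLinearMap.inr_apply, Prod.snd_zero] at e2
      exact ⟨e1, e2⟩
  have h1 : HasStrictDerivAt (fun θ => ((a θ, d θ) : ℝ × ℂ)) (deriv a s₀, deriv d s₀) s₀ :=
    (ha.hasStrictDerivAt one_ne_zero).prodMk (hd.hasStrictDerivAt one_ne_zero)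
  have h2 := (h1.hasStrictFDerivAt.comp ((s₀, 0) : ℝ × ℂ)
    (hasStrictFDerivAt_fst (𝕜 := ℝ) (p := ((s₀, 0) : ℝ × ℂ)))).add
    (M.hasStrictFDerivAt.comp ((s₀, 0) : ℝ × ℂ)
      (hasStrictFDerivAt_snd (𝕜 := ℝ) (p := ((s₀, 0) : ℝ × ℂ))))
  refine ⟨_, _, ?_, h2, fun θ => by simp⟩
  rw [injective_iff_map_eq_zero]
  rintro ⟨θ, z⟩ h
  obtain ⟨e1, e2⟩ := hM θ z (by simpa using h)
  rw [e1, e2]; rfl

theorem ex_re (t : ℝ) : (ex t).re = Real.cos (2 * Real.pi * t) := by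
  rw [← Complex.exp_ofReal_mul_I_re, ex]
  push_cast
  rfl

theorem cos_lt_iff {x y : ℝ} (hx : |x| ≤ 1 / 2) (hy0 : 0 ≤ y) (hy : y ≤ 1 / 2) :
    Real.cos (2 * Real.pi * y) < Real.cos (2 * Real.pi * x) ↔ |x| < y := by
  have hp := Real.pi_pos
  have h0 := abs_nonneg x
  have e : Real.cos (2 * Real.pi * x) = Real.cos (2 * Real.pi * |x|) := by
    rw [← Real.cos_abs (2 * Real.pi * x), abs_mul, abs_of_pos (by positivity : 0 < 2 * Real.pi)]
  rw [e, Real.strictAntiOn_cos.lt_iff_gt ⟨by positivity, by nlinarith⟩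
    ⟨by positivity, by nlinarith⟩]
  constructor <;> intro h <;> nlinarith

theorem cos_le_iff {x y : ℝ} (hx : |x| ≤ 1 / 2) (hy0 : 0 ≤ y) (hy : y ≤ 1 / 2) :
    Real.cos (2 * Real.pi * y) ≤ Real.cos (2 * Real.pi * x) ↔ |x| ≤ y := by
  have hp := Real.pi_pos
  have h0 := abs_nonneg x
  have e : Real.cos (2 * Real.pi * x) = Real.cos (2 * Real.pi * |x|) := by
    rw [← Real.cos_abs (2 * Real.pi * x), abs_mul, abs_of_pos (by positivity : 0 < 2 * Real.pi)]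
  rw [e, Real.strictAntiOn_cos.le_iff_ge ⟨by positivity, by nlinarith⟩
    ⟨by positivity, by nlinarith⟩]
  constructor <;> intro h <;> nlinarith

theorem exists_t {a₀ η₀ : ℝ} (h1 : a₀ < 1) (h0 : 0 < η₀) (h4 : η₀ ≤ 1 / 4) :
    ∃ t η : ℝ, a₀ ≤ t ∧ 0 < t ∧ t < 1 ∧ 0 < η ∧ η < η₀ ∧
      (1 + t ^ 2) * Real.cos (2 * Real.pi * η) = 2 * t := by
  have hp := Real.pi_pos
  have hc : Real.cos (2 * Real.pi * η₀) < 1 := by
    have := (cos_lt_iff (x := 0) (y := η₀) (by norm_num) h0.le (by linarith)).2 (by simpa using h0)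
    simpa using this
  have e1 : ∀ᶠ t in 𝓝 (1 : ℝ), (1 + t ^ 2) * Real.cos (2 * Real.pi * η₀) < 2 * t :=
    ContinuousAt.eventually_lt (by fun_prop) (by fun_prop) (by nlinarith)
  have e2 : ∀ᶠ t in 𝓝 (1 : ℝ), a₀ < t := lt_mem_nhds h1
  have e3 : ∀ᶠ t in 𝓝 (1 : ℝ), 0 < t := lt_mem_nhds one_pos
  obtain ⟨t, ⟨⟨f1, f2⟩, f3⟩, f4⟩ :=
    ((((e1.and e2).and e3).filter_mono nhdsWithin_le_nhds).and
      (self_mem_nhdsWithin (s := Iio (1 : ℝ)))).exists
  have f4 : t < 1 := f4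
  have hq : 0 < 1 + t ^ 2 := by positivity
  have k0 : 0 ≤ 2 * t / (1 + t ^ 2) := by positivity
  have k1 : 2 * t / (1 + t ^ 2) < 1 := by rw [div_lt_one hq]; nlinarith
  have e : Real.cos (2 * Real.pi * (Real.arccos (2 * t / (1 + t ^ 2)) / (2 * Real.pi))) =
      2 * t / (1 + t ^ 2) := by
    rw [mul_div_cancel₀ _ (by positivity), Real.cos_arccos (by linarith) k1.le]
  have p0 : 0 < Real.arccos (2 * t / (1 + t ^ 2)) / (2 * Real.pi) :=
    div_pos (Real.arccos_pos.2 k1) (by positivity)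
  have p1 : Real.arccos (2 * t / (1 + t ^ 2)) / (2 * Real.pi) ≤ 1 / 2 := by
    rw [div_le_iff₀ (by positivity)]
    linarith [Real.arccos_le_pi (2 * t / (1 + t ^ 2))]
  refine ⟨t, _, f2.le, f3, f4, p0, ?_, by rw [e]; field_simp⟩
  have := (cos_lt_iff (x := Real.arccos (2 * t / (1 + t ^ 2)) / (2 * Real.pi)) (y := η₀)
    (by rwa [abs_of_pos p0]) h0.le (by linarith)).1 (by rw [e, lt_div_iff₀ hq]; linarith)
  rwa [abs_of_pos p0] at this

end RSumD1

theorem exists_flat_ball {a : ℝ → ℝ} {d : ℝ → ℂ} {w : ℤ} (hp : IsPattern a d w) {s₀ : ℝ}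
    (ha : ContDiffAt ℝ 1 a s₀) (hd : ContDiffAt ℝ 1 d s₀) (h0 : deriv a s₀ ≠ 0 ∨ deriv d s₀ ≠ 0)
    {V : Set S3} (hV : V ∈ 𝓝 (iota (a s₀) (d s₀))) :
    ∃ (h : S3 ≃ₜ S3) (s₁ s₂ : ℝ), FlatBall (fun s => iota (a s) (d s)) h s₁ s₂ ∧
      ∀ p, -1 / 2 ≤ (xc p).re → h p ∈ V := by
  obtain ⟨g, L, hL, hg, hg0⟩ := RSumD1.exists_g ha hd h0
  obtain ⟨ε, hε, H, -, hH⟩ := norm_iota hL hg (by rw [hg0]; exact hp.lt s₀) 0
  have hH1 : ∀ᶠ θ in 𝓝 s₀, H (iota (ε * (θ - s₀)) 0) = iota (a θ) (d θ) := by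
    have hc : ContinuousAt (fun θ : ℝ => ((θ, 0) : ℝ × ℂ)) s₀ := by fun_prop
    filter_upwards [hc.eventually hH] with θ h
    simpa [hg0] using h
  obtain ⟨η₁, hη₁, hb⟩ := Metric.eventually_nhds_iff.1 hH1
  obtain ⟨η₀, e0, e4, hI⟩ : ∃ η₀ : ℝ, 0 < η₀ ∧ η₀ ≤ 1 / 4 ∧
      ∀ θ, |θ - s₀| < η₀ → H (iota (ε * (θ - s₀)) 0) = iota (a θ) (d θ) :=
    ⟨min η₁ (1 / 4), by positivity, min_le_right _ _, fun θ h =>
      hb (by rw [Real.dist_eq]; exact h.trans_le (min_le_left _ _))⟩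
  have hε2 : ε * ε = 1 := by rcases hε with h | h <;> simp [h]
  have hεa : |ε| = 1 := by rcases hε with h | h <;> simp [h]
  obtain ⟨U₁, hU₁, hU₁s⟩ := hp.knot.nhds s₀ (Metric.ball_mem_nhds s₀ e0)
  obtain ⟨U₂, hU₂, hU₂s⟩ := isKnot_U.1.nhds 0 (Metric.ball_mem_nhds 0 e0)
  have hH0 : H (iota 0 0) = iota (a s₀) (d s₀) := by simpa using hI s₀ (by simpa using e0)
  have hV₁ : H ⁻¹' (V ∩ U₁) ∩ U₂ ∈ 𝓝 (iota 0 0) :=
    Filter.inter_mem (H.continuous.continuousAt.preimage_mem_nhds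
      (by rw [hH0]; exact Filter.inter_mem hV hU₁)) hU₂
  have y0 : ∀ θ, yc (iota θ 0) = 0 := fun θ => yc_iota (by simp)
  have x0 : ∀ θ, (xc (iota θ 0)).re = Real.cos (2 * Real.pi * θ) := fun θ => by
    rw [xc_iota (by simp)]
    simp [RSumD1.ex_re]
  obtain ⟨a₀, -, a1, hm⟩ := mob_contract (σ := -1) (Or.inr rfl) (q := iota 0 0)
    (by rw [xc_iota (by simp)]; simp [ex]) hV₁
  obtain ⟨t, η, t0, t1, t2, η0, η1, hη⟩ := RSumD1.exists_t a1 e0 e4
  have ht : |t| < 1 := by rwa [abs_of_pos t1]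
  have ht' : |-t| < 1 := by rwa [abs_neg]
  have hq : 0 < 1 + t ^ 2 := by positivity
  have hin : ∀ p, -1 / 2 ≤ (xc p).re → mob t p ∈ H ⁻¹' (V ∩ U₁) ∩ U₂ := fun p h => by
    simpa using hm t t0 t2 p (by linarith)
  have hsy : ∀ θ, |θ - s₀| < η₀ → ((mob t).trans H).symm (iota (a θ) (d θ)) =
      mob (-t) (iota (ε * (θ - s₀)) 0) := fun θ h => by
    rw [← hI θ h, Homeomorph.symm_trans_apply, Homeomorph.symm_apply_apply, mob_symm]
  have hre : ∀ θ, |θ - s₀| < η₀ → ∃ c : ℝ, 0 < c ∧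
      (xc (((mob t).trans H).symm (iota (a θ) (d θ)))).re =
        c * (Real.cos (2 * Real.pi * (θ - s₀)) - Real.cos (2 * Real.pi * η)) := fun θ h => by
    obtain ⟨c, c0, hc⟩ := re_mob_U ht' (y0 (ε * (θ - s₀)))
    have e : Real.cos (2 * Real.pi * (ε * (θ - s₀))) = Real.cos (2 * Real.pi * (θ - s₀)) := by
      rcases hε with h | h
      · rw [h, one_mul]
      · rw [h, neg_one_mul, mul_neg, Real.cos_neg]
    refine ⟨c * (1 + t ^ 2), by positivity, ?_⟩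
    rw [hsy θ h, hc, x0, e]
    linear_combination c * hη
  have hloc : ∀ p, -1 / 2 ≤ (xc p).re →
      ((mob t).trans H) p ∈ range (fun s => iota (a s) (d s)) →
      ∃ θ, |θ - s₀| < η₀ ∧ iota (a θ) (d θ) = ((mob t).trans H) p := fun p h hr => by
    obtain ⟨θ, h1, h2⟩ := hU₁s ⟨(hin p h).1.2, hr⟩
    exact ⟨θ, by simpa [Real.dist_eq] using h1, h2⟩
  have hge : ∀ θ, |θ - s₀| < η₀ → 0 ≤ (xc (((mob t).trans H).symm (iota (a θ) (d θ)))).re →
      |θ - s₀| ≤ η := fun θ h h1 => by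
    obtain ⟨c, c0, hc⟩ := hre θ h
    rw [hc] at h1
    have := nonneg_of_mul_nonneg_right h1 c0
    exact (RSumD1.cos_le_iff (by linarith) η0.le (by linarith)).1 (by linarith)
  have hmem : ∀ p, -1 / 2 ≤ (xc p).re →
      (((mob t).trans H) p ∈ range (fun s => iota (a s) (d s)) ↔ yc p = 0) := fun p h => by
    obtain ⟨c, c0, hc⟩ := yc_mob ht p
    constructor
    · intro hr
      obtain ⟨θ, h1, h2⟩ := hloc p h hr
      rw [← hI θ h1, Homeomorph.trans_apply] at h2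
      rw [← H.injective h2, y0] at hc
      exact (mul_eq_zero.1 hc.symm).resolve_left (Complex.ofReal_ne_zero.2 c0.ne')
    · intro hy
      have h1 : mob t p ∈ range (fun s => iota s 0) := by
        rw [isKnot_U.2]
        change yc _ = 0
        rw [hc, hy, mul_zero]
      obtain ⟨u, h2, h3⟩ := hU₂s ⟨(hin p h).2, h1⟩
      have h2 : |u| < η₀ := by simpa using h2
      refine ⟨s₀ + ε * u, ?_⟩
      have h4 := hI (s₀ + ε * u) (by rwa [add_sub_cancel_left, abs_mul, hεa, one_mul])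
      rw [add_sub_cancel_left, ← mul_assoc, hε2, one_mul] at h4
      rw [Homeomorph.trans_apply, ← h3]
      exact h4.symm
  refine ⟨(mob t).trans H, s₀ + η - 1, s₀ - η,
    ⟨by linarith, by linarith, hmem, fun s hs => ?_, fun s hs => ?_, ?_⟩,
    fun p h => (hin p h).1.1⟩
  · by_contra hn
    have hn := not_lt.1 hn
    obtain ⟨θ, h1, h2⟩ := hloc _ (le_trans (by norm_num) hn)
      ⟨s, (((mob t).trans H).apply_symm_apply (iota (a s) (d s))).symm⟩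
    rw [Homeomorph.apply_symm_apply] at h2
    obtain ⟨n, rfl⟩ := hp.knot.inj s θ h2.symm
    rw [← h2] at hn
    have h3 := abs_le.1 (hge _ h1 hn)
    have h4 : (0 : ℝ) < n := by linarith [hs.2]
    have h5 : (n : ℝ) < 1 := by linarith [hs.1]
    have h6 : 0 < n := by exact_mod_cast h4
    have h7 : n < 1 := by exact_mod_cast h5
    omega
  · have h1 : |s - s₀| < η := abs_lt.2 ⟨by linarith [hs.1], by linarith [hs.2]⟩
    obtain ⟨c, c0, hc⟩ := hre s (by linarith)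
    rw [hc]
    exact mul_pos c0 (sub_pos.2
      ((RSumD1.cos_lt_iff (by linarith) η0.le (by linarith)).2 h1))
  · apply Subset.antisymm
    · rintro _ ⟨s, hs, rfl⟩
      have h1 : |s - s₀| ≤ η := abs_le.2 ⟨by linarith [hs.1], by linarith [hs.2]⟩
      obtain ⟨c, c0, hc⟩ := hre s (by linarith)
      refine ⟨?_, ?_⟩
      · obtain ⟨c', -, hc'⟩ := yc_mob ht' (iota (ε * (s - s₀)) 0)
        simp only [hsy s (by linarith), hc', y0, mul_zero]
      · simp only [hc]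
        exact mul_nonneg c0.le (sub_nonneg.2
          ((RSumD1.cos_le_iff (by linarith) η0.le (by linarith)).2 h1))
    · rintro p ⟨hy, hx⟩
      obtain ⟨θ, h1, h2⟩ := hloc p (by linarith) ((hmem p (by linarith)).2 hy)
      have h3 : ((mob t).trans H).symm (iota (a θ) (d θ)) = p := by
        rw [h2, Homeomorph.symm_apply_apply]
      have h4 := abs_le.1 (hge θ h1 (by rwa [h3]))
      exact ⟨θ, ⟨by linarith, by linarith⟩, h3⟩

end Pool.Agent.HH
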