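import Pool.Agent.P.MP_c8dc46_gt.SumD1

/-!
The connected sum of two modifications of a knot.
-/

open Set Topology

namespace Pool.Agent.HH

namespace RSumD2

theorem exists_red (s c : ℝ) : ∃ n : ℤ, s + n ∈ Ico c (c + 1) := by
  refine ⟨-⌊s - c⌋, ?_, ?_⟩
  · have := Int.floor_le (s - c)
    push_cast
    linarith
  · have := Int.lt_floor_add_one (s - c)
    push_cast
    linarith

theorem per_int {Z : Type} {f : ℝ → Z} (h : ∀ s, f (s + 1) = f s) (s : ℝ) (n : ℤ) :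
    f (s + n) = f s := by
  have := (show Function.Periodic f 1 from h).int_mul n s
  simpa using this

theorem equiv_int {β : ℝ → ℝ} (h : ∀ s, β (s + 1) = β s + 1) (s : ℝ) (n : ℤ) :
    β (s + n) = β s + n := by
  have := per_int (f := fun s => β s - s) (fun s => by rw [h]; ring) s n
  linarith

theorem exists_beta {s₁ s₂ : ℝ} (h₁ : s₁ < s₂) (h₂ : s₂ < s₁ + 1) :
    ∃ β : ℝ → ℝ, Continuous β ∧ StrictMono β ∧ (∀ s, β (s + 1) = β s + 1) ∧ β s₁ = s₂ ∧
      β s₂ = s₁ + 1 := by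
  have hδ : 0 < s₂ - s₁ := by linarith
  have hδ' : s₂ - s₁ < 1 := by linarith
  have hl : Real.log (s₂ - s₁) < 0 := Real.log_neg hδ hδ'
  have hl' : Real.log (1 - (s₂ - s₁)) < 0 := Real.log_neg (by linarith) (by linarith)
  obtain ⟨r, hr, he⟩ : ∃ r : ℝ, 0 < r ∧ (s₂ - s₁) ^ r = 1 - (s₂ - s₁) := by
    refine ⟨_, div_pos_of_neg_of_neg hl' hl, ?_⟩
    rw [Real.rpow_def_of_pos hδ, mul_div_cancel₀ _ hl.ne, Real.exp_log (by linarith)]
  refine ⟨fun s => s₂ + ⌊s - s₁⌋ + Int.fract (s - s₁) ^ r, ?_, fun s t hst => ?_, fun s => ?_,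
    ?_, ?_⟩
  · have hc : Continuous ((fun t : ℝ => t ^ r - t) ∘ Int.fract) :=
      ContinuousOn.comp_fract'' ((Real.continuous_rpow_const hr.le).sub continuous_id).continuousOn
        (by simp [Real.zero_rpow hr.ne'])
    have hc' : Continuous fun s : ℝ =>
        s₂ + (s - s₁) + ((fun t : ℝ => t ^ r - t) ∘ Int.fract) (s - s₁) :=
      (continuous_const.add (continuous_id.sub continuous_const)).add
        (hc.comp (continuous_id.sub continuous_const))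
    refine hc'.congr fun s => ?_
    have := Int.floor_add_fract (s - s₁)
    simp only [Function.comp]
    linarith
  · have h3 : ⌊s - s₁⌋ ≤ ⌊t - s₁⌋ := Int.floor_le_floor (by linarith)
    rcases h3.eq_or_lt with h4 | h4
    · have h5 : Int.fract (s - s₁) < Int.fract (t - s₁) := by
        have e1 := Int.floor_add_fract (s - s₁)
        have e2 := Int.floor_add_fract (t - s₁)
        rw [h4] at e1
        linarith
      have := Real.rpow_lt_rpow (Int.fract_nonneg _) h5 hr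
      simp only [h4]
      linarith
    · have h5 : (⌊s - s₁⌋ : ℝ) + 1 ≤ ⌊t - s₁⌋ := by exact_mod_cast h4
      have h6 := Real.rpow_lt_one (Int.fract_nonneg (s - s₁)) (Int.fract_lt_one _) hr
      have h7 := Real.rpow_nonneg (Int.fract_nonneg (t - s₁)) r
      simp only
      linarith
  · simp only [show s + 1 - s₁ = s - s₁ + 1 by ring, Int.floor_add_one, Int.fract_add_one]
    push_cast
    ring
  · simp [Real.zero_rpow hr.ne']
  · have h3 : ⌊s₂ - s₁⌋ = 0 := Int.floor_eq_zero_iff.2 ⟨hδ.le, hδ'⟩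
    have h4 : Int.fract (s₂ - s₁) = s₂ - s₁ := Int.fract_eq_self.2 ⟨hδ.le, hδ'⟩
    simp only [h3, h4, he]
    push_cast
    ring

/-- The height function of the ball. -/
noncomputable def ht (h : S3 ≃ₜ S3) (p : S3) : ℝ := (xc (h.symm p)).re

/-- The exchange of the ball and its complement. -/
noncomputable def sw (h : S3 ≃ₜ S3) : S3 ≃ₜ S3 := (h.symm.trans rot).trans h

variable {h : S3 ≃ₜ S3}

theorem continuous_ht : Continuous (ht h) :=
  Complex.continuous_re.comp (continuous_xc.comp h.symm.continuous)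

theorem symm_sw (p : S3) : h.symm (sw h p) = rot (h.symm p) := h.symm_apply_apply _

theorem ht_sw (p : S3) : ht h (sw h p) = -ht h p := by
  rw [ht, symm_sw]
  rfl

theorem sw_sw (p : S3) : sw h (sw h p) = p := by
  apply h.symm.injective
  rw [symm_sw, symm_sw]
  exact rot.left_inv _

theorem fix {F : S3 → S3} {O : Set S3}
    (z : ∀ p, -1 / 2 ≤ (xc p).re → h p ∈ O ∧ F (h p) = h p) {p : S3} (hp : -1 / 2 ≤ ht h p) :
    p ∈ O ∧ F p = p := by
  simpa using z (h.symm p) hp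

theorem fix' {F : S3 → S3} {O : Set S3} (hF : OE F O)
    (z : ∀ p, -1 / 2 ≤ (xc p).re → h p ∈ O ∧ F (h p) = h p) {p : S3} (hO : p ∈ O)
    (hp : -1 / 2 ≤ ht h (F p)) : F p = p :=
  hF.inj (fix z hp).1 hO (fix z hp).2

theorem ht_F {F : S3 → S3} {O : Set S3} (hF : OE F O)
    (z : ∀ p, -1 / 2 ≤ (xc p).re → h p ∈ O ∧ F (h p) = h p) {p : S3} (hO : p ∈ O) :
    F p = p ∨ (ht h p < -1 / 2 ∧ ht h (F p) < -1 / 2) := by
  by_cases h1 : -1 / 2 ≤ ht h p
  · exact Or.inl (fix z h1).2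
  by_cases h2 : -1 / 2 ≤ ht h (F p)
  · exact Or.inl (fix' hF z hO h2)
  exact Or.inr ⟨not_le.1 h1, not_le.1 h2⟩

theorem rot_eq {p q : S3} (hp : yc p = 0) (hq : yc q = 0) (hp' : (xc p).re = 0)
    (hq' : (xc q).re = 0) (hne : p ≠ q) : rot p = q := by
  have e : ∀ p : S3, yc p = 0 → (xc p).re = 0 → (xc p).im ^ 2 = 1 := fun p h1 h2 => by
    have h3 := Complex.sq_norm (xc p)
    rw [(yc_eq_zero_iff p).1 h1, Complex.normSq_apply, h2] at h3
    linarith
  have h1 := e p hp hp'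
  have h2 := e q hq hq'
  rcases sq_eq_sq_iff_eq_or_eq_neg.1 (h1.trans h2.symm) with h3 | h3
  · exact absurd (Subtype.ext (Prod.ext (Complex.ext (hp'.trans hq'.symm) h3)
      (hp.trans hq.symm))) hne
  · refine Subtype.ext (Prod.ext (Complex.ext ?_ ?_) (hp.trans hq.symm))
    · change -(xc p).re = (xc q).re
      rw [hp', hq', neg_zero]
    · change -(xc p).im = (xc q).im
      rw [h3, neg_neg]

variable {P : ℝ → S3} {s₁ s₂ : ℝ}

theorem arc_mem (hb : FlatBall P h s₁ s₂) {s : ℝ} (hs : s ∈ Icc s₂ (s₁ + 1)) :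
    yc (h.symm (P s)) = 0 ∧ 0 ≤ ht h (P s) := by
  have : h.symm (P s) ∈ (fun s => h.symm (P s)) '' Icc s₂ (s₁ + 1) := ⟨s, hs, rfl⟩
  rwa [hb.arc] at this

theorem ht_le (hP : IsKnot P) (hb : FlatBall P h s₁ s₂) {s : ℝ} (hs : s ∈ Icc s₁ s₂) :
    ht h (P s) ≤ 0 := by
  rw [← closure_Ioo hb.lt₁.ne] at hs
  exact closure_minimal (fun t ht => (hb.neg t ht).le)
    (isClosed_le (continuous_ht.comp hP.cont) continuous_const) hs

theorem ends (hP : IsKnot P) (hb : FlatBall P h s₁ s₂) :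
    ht h (P s₁) = 0 ∧ ht h (P s₂) = 0 ∧ sw h (P s₁) = P s₂ := by
  have h1 := arc_mem hb (right_mem_Icc.2 hb.lt₂.le)
  have h2 := arc_mem hb (left_mem_Icc.2 hb.lt₂.le)
  rw [hP.per] at h1
  have h3 := le_antisymm (ht_le hP hb (left_mem_Icc.2 hb.lt₁.le)) h1.2
  have h4 := le_antisymm (ht_le hP hb (right_mem_Icc.2 hb.lt₁.le)) h2.2
  refine ⟨h3, h4, h.symm.injective ?_⟩
  rw [symm_sw]
  refine rot_eq h1.1 h2.1 h3 h4 fun he => ?_
  obtain ⟨n, hn⟩ := hP.inj _ _ (h.symm.injective he)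
  have h5 : (0 : ℝ) < n := by linarith [hb.lt₁]
  have h6 : (n : ℝ) < 1 := by linarith [hb.lt₂]
  have h7 : (0 : ℤ) < n := by exact_mod_cast h5
  have h8 : n < 1 := by exact_mod_cast h6
  omega

theorem sgn (hP : IsKnot P) (hb : FlatBall P h s₁ s₂) {β : ℝ → ℝ} (hm : StrictMono β)
    (hper : ∀ s, β (s + 1) = β s + 1) (e₁ : β s₁ = s₂) (e₂ : β s₂ = s₁ + 1) (s : ℝ) :
    (ht h (P s) < 0 ∧ 0 < ht h (P (β s))) ∨ (0 < ht h (P s) ∧ ht h (P (β s)) < 0) ∨
      (ht h (P s) = 0 ∧ ht h (P (β s)) = 0 ∧ sw h (P (β s)) = P s) := by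
  obtain ⟨n, h1, h2⟩ := exists_red s s₁
  rw [← per_int hP.per s n, ← per_int hP.per (β s) n, ← equiv_int hper]
  generalize s + n = t at h1 h2
  obtain ⟨k1, k2, k3⟩ := ends hP hb
  rcases h1.eq_or_lt with rfl | h1
  · rw [e₁]
    exact Or.inr (Or.inr ⟨k1, k2, by rw [← k3, sw_sw]⟩)
  rcases lt_trichotomy t s₂ with h3 | rfl | h3
  · exact Or.inl ⟨hb.neg t ⟨h1, h3⟩, hb.pos _ ⟨e₁ ▸ hm h1, e₂ ▸ hm h3⟩⟩
  · rw [e₂, hP.per]
    exact Or.inr (Or.inr ⟨k2, k1, k3⟩)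
  · refine Or.inr (Or.inl ⟨hb.pos t ⟨h3, h2⟩, ?_⟩)
    have h4 := hm h3
    have h5 := hm h2
    rw [hper, e₁] at h5
    have := hb.neg (β t - 1) ⟨by linarith, by linarith⟩
    rwa [← hP.per, sub_add_cancel] at this

end RSumD2

open RSumD2

theorem exists_sum {P : ℝ → S3} (hP : IsKnot P) {h : S3 ≃ₜ S3} {s₁ s₂ : ℝ}
    (hb : FlatBall P h s₁ s₂) {F₀ F₁ : S3 → S3} {O₀ O₁ : Set S3} (h₀ : OE F₀ O₀) (h₁ : OE F₁ O₁)
    (p₀ : range P ⊆ O₀) (p₁ : range P ⊆ O₁)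
    (z₀ : ∀ p, -1 / 2 ≤ (xc p).re → h p ∈ O₀ ∧ F₀ (h p) = h p)
    (z₁ : ∀ p, -1 / 2 ≤ (xc p).re → h p ∈ O₁ ∧ F₁ (h p) = h p) :
    ∃ D : ℝ → S3, IsKnot D ∧ IsConnSum (fun s => F₀ (P s)) (fun s => F₁ (P s)) D ∧
      (∀ p, (xc p).re ≤ 0 → (h p ∈ range D ↔ h p ∈ F₀ '' range P)) ∧
      (∀ p, 0 ≤ (xc p).re → (h p ∈ range D ↔ h (rot p) ∈ F₁ '' range P)) ∧
      ∃ s₀, (∀ᶠ t in 𝓝 s₀, D t = P t) ∧ -1 / 2 < (xc (h.symm (P s₀))).re ∧
        (xc (h.symm (P s₀))).re < -1 / 4 := by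
  obtain ⟨β, hc, hm, hper, e₁, e₂⟩ := exists_beta hb.lt₁ hb.lt₂
  have hs := sgn hP hb hm hper e₁ e₂
  have K₀ := hP.image h₀ p₀
  have K₁ := hP.image h₁ p₁
  have f₀ := fun s => ht_F h₀ z₀ (p₀ ⟨s, rfl⟩)
  have f₁ := fun s => ht_F h₁ z₁ (p₁ ⟨s, rfl⟩)
  have hmid : ∀ s, ht h (P s) = 0 → F₀ (P s) = sw h (F₁ (P (β s))) := fun s h0 => by
    rcases hs s with h1 | h1 | h1
    · exact absurd h0 h1.1.ne
    · exact absurd h0 h1.1.ne'
    · rw [(fix z₀ (by linarith)).2, (fix z₁ (by linarith [h1.2.1])).2, h1.2.2]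
  obtain ⟨D, hDc, hD0, hD1⟩ : ∃ D : ℝ → S3, Continuous D ∧
      (∀ s, ht h (P s) ≤ 0 → D s = F₀ (P s)) ∧
      ∀ s, 0 ≤ ht h (P s) → D s = sw h (F₁ (P (β s))) := by
    refine ⟨fun s => if ht h (P s) ≤ 0 then F₀ (P s) else sw h (F₁ (P (β s))),
      Continuous.if_le K₀.cont ((sw h).continuous.comp (K₁.cont.comp hc))
        (continuous_ht.comp hP.cont) continuous_const hmid, fun s h0 => if_pos h0,
      fun s h0 => ?_⟩
    rcases h0.eq_or_lt with h1 | h1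
    · exact (if_pos h1.ge).trans (hmid s h1.symm)
    · exact if_neg (not_le.2 h1)
  have hneg : ∀ s, ht h (P s) < 0 → ht h (D s) < 0 := fun s h0 => by
    rw [hD0 s h0.le]
    rcases f₀ s with h1 | h1
    · rwa [h1]
    · linarith [h1.2]
  have hpos : ∀ s, 0 < ht h (P s) → 0 < ht h (D s) := fun s h0 => by
    rw [hD1 s h0.le, ht_sw]
    have h2 : ht h (P (β s)) < 0 := by
      rcases hs s with h1 | h1 | h1
      · linarith [h1.1]
      · exact h1.2
      · linarith [h1.1]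
    rcases f₁ (β s) with h1 | h1
    · rw [h1]
      linarith
    · linarith [h1.2]
  have hle : ∀ s, ht h (D s) ≤ 0 → ht h (P s) ≤ 0 :=
    fun s h0 => not_lt.1 fun h1 => absurd (hpos s h1) (not_lt.2 h0)
  have hge : ∀ s, 0 ≤ ht h (D s) → 0 ≤ ht h (P s) :=
    fun s h0 => not_lt.1 fun h1 => absurd (hneg s h1) (not_lt.2 h0)
  have R₀ : ∀ p, ht h p ≤ 0 → (p ∈ range D ↔ p ∈ F₀ '' range P) := fun p hp => by
    constructor
    · rintro ⟨s, rfl⟩
      exact ⟨P s, ⟨s, rfl⟩, (hD0 s (hle s hp)).symm⟩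
    · rintro ⟨_, ⟨s, rfl⟩, rfl⟩
      refine ⟨s, hD0 s ?_⟩
      rcases f₀ s with h1 | h1
      · rwa [h1] at hp
      · linarith [h1.1]
  have R₁ : ∀ p, 0 ≤ ht h p → (p ∈ range D ↔ sw h p ∈ F₁ '' range P) := fun p hp => by
    constructor
    · rintro ⟨s, rfl⟩
      exact ⟨P (β s), ⟨_, rfl⟩, by rw [hD1 s (hge s hp), sw_sw]⟩
    · rintro ⟨_, ⟨t, rfl⟩, he⟩
      obtain ⟨n, hn⟩ := exists_red t s₂
      obtain ⟨s, -, hst⟩ := intermediate_value_Icc (a := s₁) (b := s₁ + 1) (by linarith)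
        hc.continuousOn (show t + n ∈ Icc (β s₁) (β (s₁ + 1)) by
          rw [hper, e₁]; exact ⟨hn.1, hn.2.le⟩)
      have h2 : P (β s) = P t := by rw [hst, per_int hP.per]
      have h3 : ht h (F₁ (P t)) ≤ 0 := by
        rw [he, ht_sw]
        linarith
      have h4 : ht h (P t) ≤ 0 := by
        rcases f₁ t with h1 | h1
        · rwa [h1] at h3
        · linarith [h1.1]
      refine ⟨s, ?_⟩
      rw [hD1 s, h2, he, sw_sw]
      rw [← h2] at h4
      rcases hs s with h1 | h1 | h1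
      · linarith [h1.2]
      · exact h1.1.le
      · exact h1.1.ge
  have hmem : ∀ p, -1 / 2 ≤ ht h p → (p ∈ range P ↔ yc (h.symm p) = 0) := fun p hp => by
    simpa using hb.mem (h.symm p) hp
  have hF : ∀ {F : S3 → S3} {O : Set S3}, OE F O → range P ⊆ O →
      (∀ p, -1 / 2 ≤ (xc p).re → h p ∈ O ∧ F (h p) = h p) →
      ∀ p, -1 / 2 ≤ ht h p → (p ∈ F '' range P ↔ yc (h.symm p) = 0) := by
    intro F O hO hPO z p hp
    rw [← hmem p hp]
    constructor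
    · rintro ⟨q, hq, rfl⟩
      rwa [fix' hO z (hPO hq) hp]
    · exact fun hq => ⟨p, hq, (fix z hp).2⟩
  refine ⟨D, ⟨hDc, fun s => ?_, fun s s' he => ?_, Flat.of_local fun p _ => ?_⟩,
    ⟨h, Homeomorph.refl S3, sw h, id, β, s₁, s₂, isot_refl, isot_rot.conj h, continuous_id,
      strictMono_id, fun _ => rfl, hc, hm, hper, hb.lt₁, hb.lt₂,
      fun s hs' => hD0 s (ht_le hP hb hs'), fun s hs' => hD1 s (arc_mem hb hs').2,
      fun s hs' => hneg s (hb.neg s hs'), fun s hs' => hpos s (hb.pos s hs'), ?_, ?_⟩,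
    fun p hp => R₀ (h p) (by simpa [ht] using hp), fun p hp => ?_, ?_⟩
  · rcases le_total (ht h (P s)) 0 with h0 | h0
    · rw [hD0 s h0, hD0 (s + 1) (by rwa [hP.per]), hP.per]
    · rw [hD1 s h0, hD1 (s + 1) (by rwa [hP.per]), hper, hP.per]
  · rcases le_total (ht h (D s)) 0 with h0 | h0
    · exact K₀.inj s s' ((hD0 s (hle s h0)).symm.trans (he.trans (hD0 s' (hle s' (he ▸ h0)))))
    · obtain ⟨n, hn⟩ := K₁.inj _ _ ((sw h).injective
        ((hD1 s (hge s h0)).symm.trans (he.trans (hD1 s' (hge s' (he ▸ h0))))))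
      exact ⟨n, hm.injective (by rw [hn, equiv_int hper])⟩
  · rcases lt_trichotomy (ht h p) 0 with h0 | h0 | h0
    · refine ⟨{q | ht h q < 0}, F₀ '' range P, isOpen_lt continuous_ht continuous_const, h0,
        Flat.image h₀ p₀ hP.flat, ?_⟩
      ext q
      exact and_congr_right fun hq => R₀ q (le_of_lt hq)
    · refine ⟨{q | |ht h q| < 1 / 2}, range P, isOpen_lt continuous_ht.abs continuous_const,
        by simp [h0], hP.flat, ?_⟩
      ext q
      refine and_congr_right fun hq => ?_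
      have h1 := abs_lt.1 (show |ht h q| < 1 / 2 from hq)
      rw [hmem q (by linarith [h1.1])]
      rcases le_total (ht h q) 0 with h2 | h2
      · rw [R₀ q h2, hF h₀ p₀ z₀ q (by linarith [h1.1])]
      · rw [R₁ q h2, hF h₁ p₁ z₁ _ (by rw [ht_sw]; linarith [h1.2]), symm_sw]
        rfl
    · refine ⟨{q | 0 < ht h q}, sw h '' (F₁ '' range P), isOpen_lt continuous_const continuous_ht,
        h0, Flat.image (OE.of_homeomorph (sw h) isOpen_univ) (subset_univ _)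
          (Flat.image h₁ p₁ hP.flat), ?_⟩
      ext q
      refine and_congr_right fun hq => (R₁ q (le_of_lt hq)).trans ?_
      constructor
      · exact fun h1 => ⟨_, h1, sw_sw q⟩
      · rintro ⟨q', h1, rfl⟩
        rwa [sw_sw]
  · refine Eq.trans (image_congr fun s hs' => ?_) hb.arc
    change h.symm (F₀ (P s)) = _
    rw [(fix z₀ (by linarith [(arc_mem hb hs').2])).2]
  · have hI : ∀ s ∈ Icc s₁ s₂, β s ∈ Icc s₂ (s₁ + 1) :=
      fun s hs' => ⟨e₁ ▸ hm.monotone hs'.1, e₂ ▸ hm.monotone hs'.2⟩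
    have hv : ∀ s ∈ Icc s₁ s₂, h.symm (sw h (F₁ (P (β s)))) = rot (h.symm (P (β s))) :=
      fun s hs' => by rw [(fix z₁ (by linarith [(arc_mem hb (hI s hs')).2])).2, symm_sw]
    refine Eq.trans (image_congr hv) (Subset.antisymm ?_ fun q hq => ?_)
    · rintro _ ⟨s, hs', rfl⟩
      exact ⟨(arc_mem hb (hI s hs')).1, neg_nonpos.2 (arc_mem hb (hI s hs')).2⟩
    · have h1 : rot q ∈ (fun s => h.symm (P s)) '' Icc s₂ (s₁ + 1) := by
        rw [hb.arc]
        exact ⟨hq.1, neg_nonneg.2 hq.2⟩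
      obtain ⟨t, ht', he⟩ := h1
      obtain ⟨s, hs', rfl⟩ := intermediate_value_Icc hb.lt₁.le hc.continuousOn
        (show t ∈ Icc (β s₁) (β s₂) by rwa [e₁, e₂])
      exact ⟨s, hs', (congrArg rot he).trans (rot.left_inv q)⟩
  · rw [R₁ (h p) (by simpa [ht] using hp)]
    exact Iff.of_eq (congrArg (fun q => h (rot q) ∈ F₁ '' range P) (h.symm_apply_apply p))
  · obtain ⟨q, hq, hq'⟩ : ∃ q : S3, yc q = 0 ∧ (xc q).re = -3 / 8 := by
      refine ⟨⟨(⟨-3 / 8, Real.sqrt 55 / 8⟩, 0), ?_⟩, rfl, rfl⟩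
      have := Real.mul_self_sqrt (show (0 : ℝ) ≤ 55 by norm_num)
      rw [Complex.sq_norm, Complex.normSq_mk, norm_zero]
      linarith
    obtain ⟨s₀, hs₀⟩ := (hb.mem q (by linarith)).2 hq
    have h1 : ht h (P s₀) = -3 / 8 := by rw [ht, hs₀, h.symm_apply_apply, hq']
    refine ⟨s₀, ?_, lt_of_lt_of_eq (by norm_num) h1.symm, lt_of_eq_of_lt h1 (by norm_num)⟩
    have h2 : ∀ᶠ t in 𝓝 s₀, ht h (P t) ∈ Ioo (-1 / 2 : ℝ) 0 :=
      (continuous_ht.comp hP.cont).continuousAt.eventually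
        (Ioo_mem_nhds (lt_of_lt_of_eq (by norm_num) h1.symm) (lt_of_eq_of_lt h1 (by norm_num)))
    filter_upwards [h2] with t h3
    rw [hD0 t h3.2.le, (fix z₀ h3.1.le).2]

end Pool.Agent.HH
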