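import Pool.Agent.P.MP_c8dc46_gt.TA

/-!
The group ring over `𝔽_ℓ`. Representations induced from the `ℓ`-group `ker deg` are filtered by
copies of the shift module, so a nonzero polynomial in `μ ^ p` kills their cohomology.
-/

open Set Topology Polynomial

namespace Pool.Agent.HH

theorem exists_dvd_expand {F : Type} [Field F] {q : F[X]} (hq : q ≠ 0) {p : ℕ} (hp : 0 < p) :
    ∃ Q : F[X], Q ≠ 0 ∧ q ∣ expand F p Q := by
  have := (AdjoinRoot.powerBasis hq).finite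
  obtain ⟨Q, h1, h2⟩ := Algebra.IsAlgebraic.isAlgebraic (R := F) (AdjoinRoot.root q ^ p)
  rw [← expand_aeval, AdjoinRoot.aeval_eq, AdjoinRoot.mk_eq_zero] at h2
  exact ⟨Q, h1, h2⟩

namespace RTB

section

variable {F : Type} [CommRing F] {E E' : Type} [AddCommGroup E] [Module F E] [AddCommGroup E']
  [Module F E']

theorem map_aeval (φ : E →ₗ[F] E') {A : Module.End F E} {B : Module.End F E'}
    (h : ∀ e, φ (A e) = B (φ e)) (q : F[X]) : ∀ e, φ (aeval A q e) = aeval B q (φ e) := by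
  induction q using Polynomial.induction_on with
  | C a => simp
  | add p q h1 h2 => simp [h1, h2]
  | monomial n a ih =>
    intro e
    rw [pow_succ, ← mul_assoc, map_mul, map_mul (aeval B), aeval_X, aeval_X,
      Module.End.mul_apply, Module.End.mul_apply, ih, h]

theorem commute_aeval {A B : Module.End F E} (h : Commute A B) (q : F[X]) :
    Commute (aeval A q) B :=
  LinearMap.ext fun e => (map_aeval B (fun e => LinearMap.congr_fun h.symm.eq e) q e).symm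

end

variable {Γ : Type} [Group Γ] (Rp : RepIn Γ)

theorem dg_mul (a b : Γ) : Rp.dg (a * b) = Rp.dg a + Rp.dg b := by simp [RepIn.dg]

theorem dg_one : Rp.dg 1 = 0 := by simp [RepIn.dg]

theorem dg_pow : Rp.dg (Rp.μ ^ Rp.p) = Rp.p := by simp [RepIn.dg, Rp.degμ]

/-- The cocycle of the section `k ↦ μ ^ k`. -/
def cc (γ : Γ) (k : ℤ) : Rp.deg.ker := ⟨(Rp.μ ^ (k + Rp.dg γ))⁻¹ * γ * Rp.μ ^ k, by
  apply Multiplicative.toAdd.injective
  simp [RepIn.dg, Rp.degμ]⟩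

theorem cc_mul (a b : Γ) (k : ℤ) : cc Rp (a * b) k = cc Rp a (k + Rp.dg b) * cc Rp b k :=
  Subtype.ext (by
    simp only [cc, dg_mul, Subgroup.coe_mul]
    rw [add_comm (Rp.dg a), add_assoc]
    group)

theorem cc_one (k : ℤ) : cc Rp 1 k = 1 := Subtype.ext (by simp [cc, dg_one])

variable {F : Type} [CommRing F] {W W' : Type} [AddCommGroup W] [Module F W] [AddCommGroup W']
  [Module F W']

/-- The induced representation. -/
noncomputable def ind (σ : Representation F Rp.deg.ker W) : Representation F Γ (ℤ →₀ W) where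
  toFun γ := Finsupp.lsum F fun k => Finsupp.lsingle (k + Rp.dg γ) ∘ₗ σ (cc Rp γ k)
  map_one' := by
    ext k w : 2
    simp [cc_one, dg_one]
  map_mul' a b := by
    ext k w : 2
    simp [cc_mul, dg_mul, add_assoc, add_comm (Rp.dg a)]

theorem ind_single (σ : Representation F Rp.deg.ker W) (γ : Γ) (k : ℤ) (w : W) :
    ind Rp σ γ (Finsupp.single k w) = Finsupp.single (k + Rp.dg γ) (σ (cc Rp γ k) w) := by
  simp [ind]

theorem ind_map {σ : Representation F Rp.deg.ker W} {σ' : Representation F Rp.deg.ker W'}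
    (φ : W →ₗ[F] W') (h : ∀ n w, φ (σ n w) = σ' n (φ w)) (γ : Γ) (e : ℤ →₀ W) :
    Finsupp.mapRange.linearMap φ (ind Rp σ γ e) =
      ind Rp σ' γ (Finsupp.mapRange.linearMap φ e) := by
  induction e using Finsupp.induction_linear with
  | zero => simp
  | add a b h1 h2 => simp only [map_add, h1, h2]
  | single k w => simp [ind_single, h]

theorem ind_triv (γ : Γ) :
    ind Rp (Representation.trivial F Rp.deg.ker W) γ = shp F W (Rp.dg γ) := by
  ext k w : 2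
  simp [ind_single, shp_single]

theorem commute_z (ρ : Representation F Γ W) (q : F[X]) (γ : Γ) :
    Commute (aeval (ρ (Rp.μ ^ Rp.p)) q) (ρ γ) :=
  commute_aeval (Commute.map (Subgroup.mem_center_iff.1 Rp.zc γ).symm ρ) q

theorem exists_fixed {ℓ : ℕ} [Fact ℓ.Prime] {N V : Type} [Group N] (hN : IsPGroup ℓ N)
    [AddCommGroup V] [Module (ZMod ℓ) V] [Module.Finite (ZMod ℓ) V]
    (σ : Representation (ZMod ℓ) N V) (h : Module.finrank (ZMod ℓ) V ≠ 0) :
    ∃ w : V, w ≠ 0 ∧ ∀ n, σ n w = w := by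
  let _ : MulAction N V := MulAction.compHom V σ
  have := Module.finite_of_finite (ZMod ℓ) (M := V)
  obtain ⟨w, h1, h2⟩ := hN.exists_fixed_point_of_prime_dvd_card_of_fixed_point V (a := 0)
    (by
      rw [Module.natCard_eq_pow_finrank (K := ZMod ℓ), Nat.card_zmod]
      exact dvd_pow_self _ h) fun n => map_zero (σ n)
  exact ⟨w, h2.symm, h1⟩

variable {X : Set Y4} {f : Y4 → Y4 → Γ}

theorem kills_triv (F : Type) [Field F] (hb : Base X fun x y => Rp.dg (f x y)) :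
    ∃ q : F[X], q ≠ 0 ∧ ∀ n, 2 ≤ n → n ≤ 4 →
      Kills (tr (ind Rp (Representation.trivial F Rp.deg.ker F)) f) n X
        (aeval (ind Rp (Representation.trivial F Rp.deg.ker F) (Rp.μ ^ Rp.p)) q) := by
  obtain ⟨q, h1, h2⟩ := kills_base F hb
  obtain ⟨Q, h3, r, h4⟩ := exists_dvd_expand h1 Rp.ppos
  refine ⟨Q, h3, fun n a b => ?_⟩
  have e : tr (ind Rp (Representation.trivial F Rp.deg.ker F)) f =
      zt (sh F F) fun x y => Rp.dg (f x y) := funext₂ fun x y => ind_triv Rp _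
  rw [e, ind_triv, dg_pow, ← one_mul (Rp.p : ℤ), ← shp_pow, ← expand_aeval, h4, mul_comm, map_mul]
  refine (h2 n a b).mul_left fun x y => commute_aeval ?_ r
  rw [zt_sh, commute_iff_eq, ← shp_add, ← shp_add, add_comm]

theorem kills_ind [Fact Rp.ℓ.Prime] (hf : IsCoc f X) (hb : Base X fun x y => Rp.dg (f x y))
    (d : ℕ) : ∀ (V : Type) [AddCommGroup V] [Module (ZMod Rp.ℓ) V] [Module.Finite (ZMod Rp.ℓ) V]
      (σ : Representation (ZMod Rp.ℓ) Rp.deg.ker V), Module.finrank (ZMod Rp.ℓ) V = d →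
      ∃ q : (ZMod Rp.ℓ)[X], q ≠ 0 ∧ ∀ n, 2 ≤ n → n ≤ 4 →
        Kills (tr (ind Rp σ) f) n X (aeval (ind Rp σ (Rp.μ ^ Rp.p)) q) := by
  induction d with
  | zero =>
    intro V _ _ _ σ h
    have := Module.finrank_zero_iff.1 h
    refine ⟨1, one_ne_zero, fun n _ _ a _ => Exa.of_mem_N ?_⟩
    rw [Subsingleton.elim (cm _ a) 0]
    exact zero_mem _
  | succ d ih =>
    intro V _ _ _ σ h
    obtain ⟨w, h0, hw⟩ := exists_fixed Rp.pgrp σ (h ▸ d.succ_ne_zero)
    have hs : ∀ n, Submodule.span (ZMod Rp.ℓ) {w} ≤ (Submodule.span (ZMod Rp.ℓ) {w}).comap (σ n) :=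
      fun n => (Submodule.span_singleton_le_iff_mem _ _).2 (by
        rw [Submodule.mem_comap, hw]
        exact Submodule.mem_span_singleton_self w)
    have hd := (Submodule.span (ZMod Rp.ℓ) {w}).finrank_quotient_add_finrank
    rw [finrank_span_singleton h0, h] at hd
    obtain ⟨q₁, a₁, k₁⟩ := kills_triv Rp (ZMod Rp.ℓ) hb
    obtain ⟨q₂, a₂, k₂⟩ := ih _ (σ.quotient _ hs) (Nat.succ_injective hd)
    have hi := ind_map Rp (σ := Representation.trivial (ZMod Rp.ℓ) Rp.deg.ker (ZMod Rp.ℓ))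
      (σ' := σ) (LinearMap.toSpanSingleton _ V w) fun n c => by simp [hw]
    have hπ := ind_map Rp (σ := σ) (σ' := σ.quotient _ hs) (Submodule.mkQ _) fun n c => rfl
    refine ⟨q₁ * q₂, mul_ne_zero a₁ a₂, fun n a b => ?_⟩
    rw [map_mul]
    refine Kills.ses (hf.tr _) _ _
      (Finsupp.mapRange_injective _ (map_zero _)
        (LinearMap.ker_eq_bot.1 (LinearMap.ker_toSpanSingleton _ h0)))
      (Finsupp.mapRange_surjective _ (map_zero _) (Submodule.mkQ_surjective _)) (fun e he => ?_)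
      (fun x y => hi _) (fun x y => hπ _) (map_aeval _ (hi _) q₁) (map_aeval _ (hπ _) q₂)
      (fun x y => commute_z Rp _ _ _) (fun x y => commute_z Rp _ _ _) (k₁ n a b) (k₂ n a b)
    refine (Finsupp.range_mapRange (LinearMap.toSpanSingleton _ V w) (map_zero _)).ge fun k => ?_
    exact Submodule.mem_span_singleton.1
      ((Submodule.Quotient.mk_eq_zero _).1 (DFunLike.congr_fun (LinearMap.mem_ker.1 he) k))

end RTB

theorem kills_modl {Γ : Type} [Group Γ] (Rp : RepIn Γ) {X : Set Y4} {f : Y4 → Y4 → Γ}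
    (hf : IsCoc f X) (hb : Base X fun x y => Rp.dg (f x y)) :
    ∃ q : (ZMod Rp.ℓ)[X], q ≠ 0 ∧ ∀ n, 2 ≤ n → n ≤ 4 →
      Kills (tr (reg (ZMod Rp.ℓ) Γ) f) n X (aeval (reg (ZMod Rp.ℓ) Γ (Rp.μ ^ Rp.p)) q) := by
  have := Fact.mk Rp.prime
  have := Rp.fin
  obtain ⟨q, h1, h2⟩ := RTB.kills_ind Rp hf hb _ _ (reg (ZMod Rp.ℓ) Rp.deg.ker) rfl
  obtain ⟨i, hi⟩ : ∃ i : (Γ →₀ ZMod Rp.ℓ) →ₗ[ZMod Rp.ℓ] (ℤ →₀ Rp.deg.ker →₀ ZMod Rp.ℓ),
      ∀ x a, i (Finsupp.single x a) = RTB.ind Rp (reg (ZMod Rp.ℓ) Rp.deg.ker) x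
        (Finsupp.single 0 (Finsupp.single 1 a)) :=
    ⟨Finsupp.lsum (ZMod Rp.ℓ) fun x => RTB.ind Rp (reg (ZMod Rp.ℓ) Rp.deg.ker) x ∘ₗ
      Finsupp.lsingle 0 ∘ₗ Finsupp.lsingle 1, fun x a => Finsupp.lsum_single _ _ _ _⟩
  obtain ⟨π, hπ⟩ : ∃ π : (ℤ →₀ Rp.deg.ker →₀ ZMod Rp.ℓ) →ₗ[ZMod Rp.ℓ] (Γ →₀ ZMod Rp.ℓ),
      ∀ k n a, π (Finsupp.single k (Finsupp.single n a)) = Finsupp.single (Rp.μ ^ k * n) a :=
    ⟨Finsupp.lsum (ZMod Rp.ℓ) fun k => Finsupp.lsum (ZMod Rp.ℓ) fun n =>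
      Finsupp.lsingle (Rp.μ ^ k * n), fun k n a => by
        rw [Finsupp.lsum_single, Finsupp.lsum_single, Finsupp.lsingle_apply]⟩
  have hr : ∀ (G : Type) [Group G] (x y : G) (a : ZMod Rp.ℓ),
      reg (ZMod Rp.ℓ) G x (Finsupp.single y a) = Finsupp.single (x * y) a := fun G _ x y a =>
    Finsupp.mapDomain_single
  have h3 : ∀ γ, π ∘ₗ RTB.ind Rp (reg (ZMod Rp.ℓ) Rp.deg.ker) γ = reg (ZMod Rp.ℓ) Γ γ ∘ₗ π :=
    fun γ => Finsupp.lhom_ext' fun k => Finsupp.lhom_ext fun n a => by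
      simp only [LinearMap.comp_apply, Finsupp.lsingle_apply, RTB.ind_single, hr, hπ, RTB.cc,
        Subgroup.coe_mul]
      congr 1
      group
  have h4 : ∀ γ, i ∘ₗ reg (ZMod Rp.ℓ) Γ γ = RTB.ind Rp (reg (ZMod Rp.ℓ) Rp.deg.ker) γ ∘ₗ i :=
    fun γ => Finsupp.lhom_ext fun x a => by
      simp only [LinearMap.comp_apply, hr, hi, map_mul, Module.End.mul_apply]
  have h5 : π ∘ₗ i = LinearMap.id := Finsupp.lhom_ext fun x a => by
    rw [LinearMap.comp_apply, hi]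
    refine (LinearMap.congr_fun (h3 x) _).trans ?_
    simp [hπ, hr]
  have h6 := RTB.map_aeval π (A := RTB.ind Rp (reg (ZMod Rp.ℓ) Rp.deg.ker) (Rp.μ ^ Rp.p))
    (B := reg (ZMod Rp.ℓ) Γ (Rp.μ ^ Rp.p)) (fun e => LinearMap.congr_fun (h3 _) e) q
  exact ⟨q, h1, fun n a b => Kills.retract i π (LinearMap.congr_fun h5)
    (fun x y => LinearMap.congr_fun (h4 _)) (fun x y => LinearMap.congr_fun (h3 _)) h6 (h2 n a b)⟩

end Pool.Agent.HH
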