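import Pool.Agent.P.MP_c8dc46_gt.TB

/-!
The integral group ring. `Γ →₀ ℤ` is a finite module over the Laurent polynomials acting through
`μ ^ p`; a polynomial that kills the cohomology modulo `ℓ` and the determinant trick give a nonzero
integral polynomial that kills the integral cohomology.
-/

open Set Topology Polynomial

namespace Pool.Agent.HH

namespace RTC

/-- The determinant trick for a finitely generated submodule. -/
theorem det_trick {R P : Type} [CommRing R] [AddCommGroup P] [Module R P] (H : Submodule R P)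
    (hH : H.FG) (c ℓ : R) (h : ∀ x ∈ H, ∃ y ∈ H, c • x = ℓ • y) :
    ∃ (r : ℕ) (s : R), ∀ x ∈ H, (c ^ r + ℓ * s) • x = 0 := by
  have : Module.Finite R H := Module.Finite.iff_fg.2 hH
  have hI : LinearMap.range (algebraMap R (Module.End R H) c) ≤
      (Ideal.span {ℓ} : Ideal R) • (⊤ : Submodule R H) := by
    rintro _ ⟨x, rfl⟩
    obtain ⟨y, hy, e⟩ := h x x.2
    have : algebraMap R (Module.End R H) c x = ℓ • (⟨y, hy⟩ : H) := by
      apply Subtype.ext
      simpa [Module.algebraMap_end_apply] using e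
    rw [this]
    exact Submodule.smul_mem_smul (Ideal.subset_span rfl) Submodule.mem_top
  obtain ⟨p, hp, -, hc, h0⟩ :=
    LinearMap.exists_monic_and_natDegree_eq_and_coeff_mem_pow_and_aeval_eq_zero R _ _ hI
  have hm : p.eval c - c ^ p.natDegree ∈ (Ideal.span {ℓ} : Ideal R) := by
    rw [eval_eq_sum_range, Finset.sum_range_succ, hp.coeff_natDegree, one_mul, add_sub_cancel_right]
    refine Ideal.sum_mem _ fun k hk => Ideal.mul_mem_right _ _ ?_
    have hk' : p.natDegree - k ≠ 0 := by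
      have := Finset.mem_range.1 hk
      omega
    exact Ideal.pow_le_self hk' (hc k)
  obtain ⟨s, hs⟩ := Ideal.mem_span_singleton'.1 hm
  refine ⟨p.natDegree, s, fun x hx => ?_⟩
  have e1 : c ^ p.natDegree + ℓ * s = p.eval c := by
    rw [mul_comm, hs]; ring
  rw [aeval_algebraMap_apply_eq_algebraMap_eval] at h0
  have := congrArg (fun L : Module.End R H => ((L ⟨x, hx⟩ : H) : P)) h0
  rw [e1]
  simpa [Module.algebraMap_end_apply] using this

variable {Y : Type} [TopologicalSpace Y] {R E : Type} [CommRing R] [AddCommGroup E] [Module R E]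

/-- The determinant trick in cohomology. -/
theorem coh_trick {τ : Y → Y → Module.End R E} {n : ℕ} {S : Set Y} (hF : FGc τ n S) (c ℓ : R)
    (h : ∀ a, dT τ a ∈ N R E (n + 1) S →
      ∃ b, dT τ b ∈ N R E (n + 1) S ∧ Exa τ n S (c • a - ℓ • b)) :
    ∃ (r : ℕ) (s : R), ∀ a, dT τ a ∈ N R E (n + 1) S → Exa τ n S ((c ^ r + ℓ * s) • a) := by
  obtain ⟨M, hM, hZ, hgen⟩ := hF
  let B : Submodule R (List Y → E) := LinearMap.range (dT τ) ⊔ N R E n S
  have hB : ∀ a, a ∈ B ↔ Exa τ n S a := by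
    intro a
    constructor
    · intro ha
      obtain ⟨_, ⟨φ, rfl⟩, v, hv, rfl⟩ := Submodule.mem_sup.1 ha
      exact ⟨φ, by simpa using hv⟩
    · rintro ⟨φ, hφ⟩
      exact Submodule.mem_sup.2 ⟨dT τ φ, ⟨φ, rfl⟩, _, hφ, by simp⟩
  have key : ∀ a, dT τ a ∈ N R E (n + 1) S → B.mkQ a ∈ M.map B.mkQ := by
    intro a ha
    obtain ⟨b, hb, e⟩ := hgen a ha
    refine ⟨b, hb, ?_⟩
    rw [Submodule.mkQ_apply, Submodule.mkQ_apply, eq_comm, Submodule.Quotient.eq]
    exact (hB _).2 e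
  obtain ⟨r, s, hs⟩ := det_trick (M.map B.mkQ) (hM.map _) c ℓ (by
    rintro _ ⟨a, ha, rfl⟩
    obtain ⟨b, hb, e⟩ := h a (hZ a ha)
    refine ⟨B.mkQ b, key b hb, ?_⟩
    rw [← map_smul, ← map_smul, Submodule.mkQ_apply, Submodule.mkQ_apply, Submodule.Quotient.eq]
    exact (hB _).2 e)
  refine ⟨r, s, fun a ha => (hB _).1 ?_⟩
  have := hs _ (key a ha)
  rw [← map_smul, Submodule.mkQ_apply, Submodule.Quotient.mk_eq_zero] at this
  exact this

/-- Division by `ℓ` of a cocycle that is exact modulo `ℓ`. -/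
theorem div_step {R' E' : Type} [CommRing R'] [AddCommGroup E'] [Module R' E']
    {τ : Y → Y → Module.End R E} {τ' : Y → Y → Module.End R' E'} {n : ℕ} {S : Set Y}
    (hτ : IsCoc τ S) (π : E →+ E') (hπ : Function.Surjective π)
    (he : ∀ x y e, π (τ x y e) = τ' x y (π e)) (c ℓ : R) {L : Module.End R' E'}
    (hL : ∀ e, π (c • e) = L (π e)) (hk : ∀ e, π e = 0 → ∃ e', e = ℓ • e')
    (hi : ∀ e : E, ℓ • e = 0 → e = 0) (k : Kills τ' n S L) (a : List Y → E)
    (ha : dT τ a ∈ N R E (n + 1) S) :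
    ∃ b, dT τ b ∈ N R E (n + 1) S ∧ Exa τ n S (c • a - ℓ • b) := by
  classical
  have h1 : dT τ' (fun l => π (a l)) ∈ N R' E' (n + 1) S := by
    rw [← add_dT π τ τ' he]
    exact map_mem_N ha fun l hl => by simp [hl]
  obtain ⟨φ', hφ'⟩ := k _ h1
  choose φ hφ using fun l => hπ (φ' l)
  let ψ : List Y → E := c • a - dT τ φ
  have hψ : ∀ l, π (ψ l) = (cm L (fun l => π (a l)) - dT τ' φ') l := by
    intro l
    have e1 := congrFun (add_dT π τ τ' he φ) l
    have e2 : (fun l => π (φ l)) = φ' := funext hφ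
    rw [e2] at e1
    simp only [ψ, Pi.sub_apply, Pi.smul_apply, map_sub, hL, e1]
    rfl
  let b : List Y → E := fun l => if h : π (ψ l) = 0 then (hk _ h).choose else 0
  have hb : ψ - ℓ • b ∈ N R E n S := by
    refine map_mem_N hφ' fun l hl => ?_
    have h0 : π (ψ l) = 0 := by rw [hψ, hl]
    have := (hk _ h0).choose_spec
    simp only [Pi.sub_apply, Pi.smul_apply, b, dif_pos h0]
    exact sub_eq_zero.2 this
  refine ⟨b, ?_, φ, ?_⟩
  · have h2 : ℓ • dT τ b ∈ N R E (n + 1) S := by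
      have e : ℓ • dT τ b = (c • dT τ a - dT τ (dT τ φ)) - dT τ (ψ - ℓ • b) := by
        simp only [ψ, map_sub, map_smul]
        abel
      rw [e]
      exact Submodule.sub_mem _ (Submodule.sub_mem _ (Submodule.smul_mem _ _ ha)
        (dT_dT_mem_N hτ _ _)) (dT_mem_N τ hb)
    exact map_mem_N h2 fun l hl => hi _ hl
  · have e : c • a - ℓ • b - dT τ φ = ψ - ℓ • b := by
      simp only [ψ]
      abel
    rw [e]
    exact hb

section Laurent

open LaurentPolynomial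

variable {Γ : Type} [Group Γ]

/-- The action of the Laurent polynomials through `z`. -/
noncomputable def act (z : Γ) : ℤ[T;T⁻¹] →ₐ[ℤ] Module.End ℤ (Γ →₀ ℤ) :=
  AddMonoidAlgebra.lift ℤ (Module.End ℤ (Γ →₀ ℤ)) ℤ ((reg ℤ Γ).comp (zpowersHom Γ z))

theorem act_T (z : Γ) (k : ℤ) : act z (T k) = reg ℤ Γ (z ^ k) := by
  unfold act T
  rw [AddMonoidAlgebra.lift_single, one_smul]
  rfl

theorem act_toLaurent (z : Γ) (Q : ℤ[X]) : act z (toLaurent Q) = aeval (reg ℤ Γ z) Q := by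
  induction Q using Polynomial.induction_on with
  | C a => simp
  | add p q hp hq => simp only [map_add, hp, hq]
  | monomial k a ih =>
    have e : ∀ P : ℤ[X], act z (toLaurent (P * Polynomial.X)) =
        act z (toLaurent P) * reg ℤ Γ z := by
      intro P
      rw [map_mul, map_mul, toLaurent_X, act_T, zpow_one]
    rw [pow_succ, ← mul_assoc, e, ih, map_mul (aeval (reg ℤ Γ z)) _ Polynomial.X, aeval_X]

theorem act_comm {z : Γ} (hz : z ∈ Subgroup.center Γ) (γ : Γ) (s : ℤ[T;T⁻¹]) :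
    Commute (act z s) (reg ℤ Γ γ) := by
  induction s using LaurentPolynomial.induction_on' with
  | add p q hp hq => rw [map_add]; exact hp.add_left hq
  | C_mul_T k a =>
    rw [map_mul, act_T]
    refine Commute.mul_left ?_ ?_
    · have : (LaurentPolynomial.C a : ℤ[T;T⁻¹]) = (a : ℤ[T;T⁻¹]) := by simp
      rw [this, map_intCast]
      exact Int.cast_commute _ _
    · have : Commute (z ^ k) γ :=
        (Subgroup.mem_center_iff.1 (Subgroup.zpow_mem _ hz k) γ).symm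
      exact this.map _

/-- The module structure over the Laurent polynomials. -/
@[reducible] noncomputable def lmod (z : Γ) : Module ℤ[T;T⁻¹] (Γ →₀ ℤ) :=
  Module.compHom (Γ →₀ ℤ) (act z : ℤ[T;T⁻¹] →+* Module.End ℤ (Γ →₀ ℤ))

theorem reg_single (R : Type) [CommRing R] (γ δ : Γ) (a : R) :
    reg R Γ γ (Finsupp.single δ a) = Finsupp.single (γ * δ) a := by
  simp [reg, Finsupp.mapDomain_single]

theorem lmod_finite (Rp : RepIn Γ) :
    letI := lmod (Rp.μ ^ Rp.p)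
    Module.Finite ℤ[T;T⁻¹] (Γ →₀ ℤ) := by
  let _inst := lmod (Rp.μ ^ Rp.p)
  have := Rp.fin
  let g : Fin Rp.p × Rp.deg.ker → (Γ →₀ ℤ) := fun x =>
    Finsupp.single (Rp.μ ^ (x.1 : ℕ) * x.2) 1
  refine ⟨⟨(Set.finite_range g).toFinset, ?_⟩⟩
  rw [Set.Finite.coe_toFinset, eq_top_iff]
  intro x hx
  clear hx
  induction x using Finsupp.induction_linear with
  | zero => exact Submodule.zero_mem _
  | add x y hx hy => exact Submodule.add_mem _ hx hy
  | single γ a =>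
    have e : Finsupp.single γ a = a • Finsupp.single γ (1 : ℤ) := by simp
    rw [e]
    refine zsmul_mem ?_ a
    have hp : (0 : ℤ) < Rp.p := by exact_mod_cast Rp.ppos
    set d : ℤ := Rp.dg γ with hd
    have h0 : 0 ≤ d % Rp.p := Int.emod_nonneg _ hp.ne'
    have h1 : d % Rp.p < Rp.p := Int.emod_lt_of_pos _ hp
    have hn : (Rp.μ ^ d)⁻¹ * γ ∈ Rp.deg.ker := by
      rw [MonoidHom.mem_ker, map_mul, map_inv, map_zpow, Rp.degμ, inv_mul_eq_one]
      apply Multiplicative.toAdd.injective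
      simp [hd, RepIn.dg]
    have hj : (d % Rp.p).toNat < Rp.p := by omega
    have e2 : Finsupp.single γ (1 : ℤ) =
        (T (d / Rp.p) : ℤ[T;T⁻¹]) • g (⟨_, hj⟩, ⟨_, hn⟩) := by
      change _ = act (Rp.μ ^ Rp.p) (T (d / Rp.p)) (g _)
      rw [act_T]
      simp only [g, reg_single]
      congr 1
      rw [← zpow_natCast, ← zpow_natCast, ← zpow_mul, Int.toNat_of_nonneg h0, ← mul_assoc,
        ← zpow_add, Int.mul_ediv_add_emod, mul_inv_cancel_left]
    rw [e2]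
    exact Submodule.smul_mem _ _ (Submodule.subset_span ⟨_, rfl⟩)

/-- The regular representation is linear over the Laurent polynomials. -/
noncomputable def lreg {z : Γ} (hz : z ∈ Subgroup.center Γ) :
    letI := lmod z
    Γ →* Module.End ℤ[T;T⁻¹] (Γ →₀ ℤ) :=
  letI := lmod z
  { toFun := fun γ =>
      { toFun := reg ℤ Γ γ
        map_add' := map_add _
        map_smul' := fun s e => (LinearMap.congr_fun (act_comm hz γ s).eq e).symm }
    map_one' := by
      ext1 e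
      change reg ℤ Γ 1 e = e
      simp
    map_mul' := fun γ δ => by
      ext1 e
      change reg ℤ Γ (γ * δ) e = reg ℤ Γ γ (reg ℤ Γ δ e)
      simp }

/-- Reduction modulo `ℓ`. -/
noncomputable def red (Γ : Type) (ℓ : ℕ) : (Γ →₀ ℤ) →+ (Γ →₀ ZMod ℓ) :=
  Finsupp.mapRange.addMonoidHom (Int.castAddHom (ZMod ℓ))

omit [Group Γ] in
theorem red_single (ℓ : ℕ) (γ : Γ) (a : ℤ) :
    red Γ ℓ (Finsupp.single γ a) = Finsupp.single γ (a : ZMod ℓ) := by
  simp [red]

theorem red_reg (ℓ : ℕ) (γ : Γ) (e : Γ →₀ ℤ) :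
    red Γ ℓ (reg ℤ Γ γ e) = reg (ZMod ℓ) Γ γ (red Γ ℓ e) := by
  induction e using Finsupp.induction_linear with
  | zero => simp
  | add x y hx hy => simp only [map_add, hx, hy]
  | single δ a => simp only [reg_single, red_single]

theorem red_aeval (ℓ : ℕ) (γ : Γ) (Q : ℤ[X]) (e : Γ →₀ ℤ) :
    red Γ ℓ (aeval (reg ℤ Γ γ) Q e) =
      aeval (reg (ZMod ℓ) Γ γ) (Q.map (Int.castRingHom (ZMod ℓ))) (red Γ ℓ e) := by
  induction Q using Polynomial.induction_on generalizing e with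
  | C a =>
    rw [Polynomial.map_C, aeval_C, aeval_C, Module.algebraMap_end_apply,
      Module.algebraMap_end_apply, map_zsmul, eq_intCast, Int.cast_smul_eq_zsmul]
  | add p q hp hq => simp only [Polynomial.map_add, map_add, LinearMap.add_apply, hp, hq]
  | monomial k a ih =>
    rw [pow_succ, ← mul_assoc, Polynomial.map_mul, map_mul (aeval (reg ℤ Γ γ)) _ Polynomial.X,
      Polynomial.map_X, map_mul (aeval (reg (ZMod ℓ) Γ γ)) _ Polynomial.X, aeval_X,
      aeval_X, Module.End.mul_apply, Module.End.mul_apply, ih, red_reg]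

omit [Group Γ] in
theorem red_surj (ℓ : ℕ) : Function.Surjective (red Γ ℓ) :=
  Finsupp.mapRange_surjective _ (by simp) (ZMod.intCast_surjective)

omit [Group Γ] in
theorem red_ker (ℓ : ℕ) (e : Γ →₀ ℤ) (h : red Γ ℓ e = 0) : ∃ e', e = (ℓ : ℤ) • e' := by
  refine ⟨e.mapRange (fun a => a / ℓ) (by simp), ?_⟩
  ext γ
  have h1 : ((e γ : ℤ) : ZMod ℓ) = 0 := by
    have := DFunLike.congr_fun h γ
    simpa [red] using this
  rw [ZMod.intCast_zmod_eq_zero_iff_dvd] at h1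
  simp [Int.mul_ediv_cancel' h1]

theorem one_length (Rp : RepIn Γ) {X : Set Y4} {f : Y4 → Y4 → Γ}
    (hf : IsCoc f X) (hX : Tame X) {n : ℕ} (hn : 1 ≤ n) {q : (ZMod Rp.ℓ)[X]} (hq : q ≠ 0)
    (k : Kills (tr (reg (ZMod Rp.ℓ) Γ) f) n X (aeval (reg (ZMod Rp.ℓ) Γ (Rp.μ ^ Rp.p)) q)) :
    ∃ Q : ℤ[X], Q ≠ 0 ∧ Kills (tr (reg ℤ Γ) f) n X (aeval (reg ℤ Γ (Rp.μ ^ Rp.p)) Q) := by
  let _inst := lmod (Rp.μ ^ Rp.p)
  have := lmod_finite Rp
  have : IsNoetherianRing ℤ[T;T⁻¹] :=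
    IsLocalization.isNoetherianRing (Submonoid.powers (Polynomial.X : ℤ[X])) _ inferInstance
  have : Fact Rp.ℓ.Prime := ⟨Rp.prime⟩
  let τ : Y4 → Y4 → Module.End ℤ[T;T⁻¹] (Γ →₀ ℤ) := fun x y => lreg Rp.zc (f x y)
  have hτ : IsCoc τ X := hf.map (lreg Rp.zc)
  obtain ⟨q₁, rfl⟩ := Polynomial.map_surjective (Int.castRingHom (ZMod Rp.ℓ))
    ZMod.intCast_surjective q
  have hsm : ∀ (Q : ℤ[X]) (e : Γ →₀ ℤ),
      (toLaurent Q : ℤ[T;T⁻¹]) • e = aeval (reg ℤ Γ (Rp.μ ^ Rp.p)) Q e := by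
    intro Q e
    change act (Rp.μ ^ Rp.p) (toLaurent Q) e = _
    rw [act_toLaurent]
  have hℓ : ∀ e : Γ →₀ ℤ, (toLaurent (Polynomial.C (Rp.ℓ : ℤ)) : ℤ[T;T⁻¹]) • e = (Rp.ℓ : ℤ) • e := by
    intro e
    rw [hsm, aeval_C, Module.algebraMap_end_apply]
  obtain ⟨r, s, hs⟩ := coh_trick (fgc_of_tame hX hτ hn) (toLaurent q₁)
    (toLaurent (Polynomial.C (Rp.ℓ : ℤ)))
    (div_step (τ' := tr (reg (ZMod Rp.ℓ) Γ) f) hτ (red Γ Rp.ℓ) (red_surj _)
      (fun x y e => red_reg _ _ e) _ _ (fun e => by rw [hsm, red_aeval])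
      (fun e he => by simpa only [hℓ] using red_ker _ e he)
      (fun e he => by
        rw [hℓ] at he
        exact (smul_eq_zero.1 he).resolve_left (by exact_mod_cast Rp.prime.ne_zero)) k)
  obtain ⟨j, s', hs'⟩ := exists_T_pow s
  refine ⟨q₁ ^ r * Polynomial.X ^ j + Polynomial.C (Rp.ℓ : ℤ) * s', ?_, ?_⟩
  · intro h0
    have := congrArg (Polynomial.map (Int.castRingHom (ZMod Rp.ℓ))) h0
    rw [Polynomial.map_add, Polynomial.map_mul, Polynomial.map_mul, Polynomial.map_pow,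
      Polynomial.map_pow, Polynomial.map_X, Polynomial.map_C, Polynomial.map_zero, eq_intCast,
      Int.cast_natCast, ZMod.natCast_self, map_zero, zero_mul, add_zero] at this
    exact mul_ne_zero (pow_ne_zero _ hq) (pow_ne_zero _ X_ne_zero) this
  · intro a ha
    have hd : ∀ φ, dT τ φ = dT (tr (reg ℤ Γ) f) φ := fun φ =>
      add_dT (AddMonoidHom.id _) τ (tr (reg ℤ Γ) f) (fun _ _ _ => rfl) φ
    have ha' : dT τ a ∈ N ℤ[T;T⁻¹] (Γ →₀ ℤ) (n + 1) X := by
      rw [hd]; exact ha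
    obtain ⟨φ, hφ⟩ := (hs a ha').smul (T j : ℤ[T;T⁻¹])
    refine ⟨φ, map_mem_N hφ fun l hl => ?_⟩
    rw [← hl, hd, smul_smul]
    have e : (T j : ℤ[T;T⁻¹]) * (toLaurent q₁ ^ r + toLaurent (Polynomial.C (Rp.ℓ : ℤ)) * s) =
        toLaurent (q₁ ^ r * Polynomial.X ^ j + Polynomial.C (Rp.ℓ : ℤ) * s') := by
      rw [map_add, map_mul, map_mul, hs', map_pow, toLaurent_X_pow]
      ring
    rw [e]
    simp only [Pi.sub_apply, Pi.smul_apply, hsm]
    rfl

end Laurent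

theorem aeval_comm {Γ : Type} [Group Γ] {z : Γ} (hz : z ∈ Subgroup.center Γ) (γ : Γ) (Q : ℤ[X]) :
    Commute (aeval (reg ℤ Γ z) Q) (reg ℤ Γ γ) := by
  rw [← act_toLaurent]
  exact act_comm hz γ _

end RTC

theorem kills_int {Γ : Type} [Group Γ] (Rp : RepIn Γ) {X : Set Y4} {f : Y4 → Y4 → Γ}
    (hf : IsCoc f X) (hb : Base X fun x y => Rp.dg (f x y)) :
    ∃ Q : ℤ[X], Q ≠ 0 ∧ ∀ n, 2 ≤ n → n ≤ 4 →
      Kills (tr (reg ℤ Γ) f) n X (aeval (reg ℤ Γ (Rp.μ ^ Rp.p)) Q) := by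
  obtain ⟨q, hq, k⟩ := kills_modl Rp hf hb
  obtain ⟨Q₂, h₂, k₂⟩ := RTC.one_length Rp hf hb.tame (by norm_num) hq (k 2 le_rfl (by norm_num))
  obtain ⟨Q₃, h₃, k₃⟩ := RTC.one_length Rp hf hb.tame (by norm_num) hq
    (k 3 (by norm_num) (by norm_num))
  obtain ⟨Q₄, h₄, k₄⟩ := RTC.one_length Rp hf hb.tame (by norm_num) hq (k 4 (by norm_num) le_rfl)
  refine ⟨Q₂ * Q₃ * Q₄, mul_ne_zero (mul_ne_zero h₂ h₃) h₄, fun n h2 h4 => ?_⟩
  have key : ∀ (Q Q' : ℤ[X]) (m : ℕ),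
      Kills (tr (reg ℤ Γ) f) m X (aeval (reg ℤ Γ (Rp.μ ^ Rp.p)) Q) →
      Kills (tr (reg ℤ Γ) f) m X (aeval (reg ℤ Γ (Rp.μ ^ Rp.p)) (Q' * Q)) := by
    intro Q Q' m h
    rw [map_mul]
    exact h.mul_left fun x y => RTC.aeval_comm Rp.zc _ _
  interval_cases n
  · rw [show Q₂ * Q₃ * Q₄ = Q₃ * Q₄ * Q₂ by ring]
    exact key _ _ _ k₂
  · rw [show Q₂ * Q₃ * Q₄ = Q₂ * Q₄ * Q₃ by ring]
    exact key _ _ _ k₃
  · exact key _ _ _ k₄

end Pool.Agent.HH
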