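import Pool.Agent.P.MP_c8dc46_gt.Mob

/-!
The torus knot `T(r, s)` as the zero set of `tf r s`, and a tube around it on which `tf` is the
disc coordinate.
-/

open Set Topology

noncomputable section

namespace Pool.Agent.HH

/-- The function whose zero set is the torus knot. -/
def tf (r s : ℕ) (p : S3) : ℂ :=
  (‖xc p‖ : ℂ) * (xc p / ‖xc p‖) ^ r - (‖yc p‖ : ℂ) * (yc p / ‖yc p‖) ^ s

/-- The modulus of the second coordinate. -/
def tb (δ : ℂ) : ℝ := (-δ.re + Real.sqrt (δ.re ^ 2 + 2 * (1 - ‖δ‖ ^ 2))) / 2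

/-- The tube in the coordinates of `iota`. -/
def tg (r s : ℕ) (q : ℝ × ℂ) : ℝ × ℂ :=
  (s * q.1 + Complex.arg (tb (ex (-(r * s * q.1)) * q.2 / 10) + ex (-(r * s * q.1)) * q.2 / 10) /
      (2 * Real.pi * r),
    (tb (ex (-(r * s * q.1)) * q.2 / 10) : ℂ) * ex (r * q.1))

/-- The tube. -/
def te (r s : ℕ) (q : ℝ × ℂ) : S3 := iota (tg r s q).1 (tg r s q).2

variable {r s : ℕ}

namespace RTorA

theorem norm_pw (n : ℕ) (z : ℂ) : ‖(‖z‖ : ℂ) * (z / ‖z‖) ^ n‖ = ‖z‖ := by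
  by_cases hz : z = 0
  · simp [hz]
  · have h : ‖z‖ ≠ 0 := norm_ne_zero_iff.2 hz
    simp [h]

theorem continuous_pw (n : ℕ) : Continuous fun z : ℂ => (‖z‖ : ℂ) * (z / ‖z‖) ^ n := by
  refine continuous_iff_continuousAt.2 fun z => ?_
  by_cases hz : z = 0
  · subst hz
    have h : Filter.Tendsto (fun z : ℂ => (‖z‖ : ℂ) * (z / ‖z‖) ^ n) (𝓝 0) (𝓝 0) :=
      squeeze_zero_norm (fun z => (norm_pw n z).le) tendsto_norm_zero
    simpa [ContinuousAt] using h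
  · have h : (‖z‖ : ℂ) ≠ 0 := by simpa using hz
    have h1 : ContinuousAt (fun z : ℂ => (‖z‖ : ℂ)) z := by fun_prop
    exact h1.mul ((continuousAt_id.div h1 h).pow n)

theorem ex_pow (t : ℝ) (n : ℕ) : ex t ^ n = ex (n * t) := by
  rw [ex, ex, ← Complex.exp_nat_mul]
  congr 1
  push_cast
  ring

theorem ex_add_int (t : ℝ) (n : ℤ) : ex (t + n) = ex t := by rw [ex_add, ex_int, mul_one]

theorem norm_polar {a : ℝ} (ha : 0 ≤ a) (t : ℝ) : ‖(a : ℂ) * ex t‖ = a := by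
  rw [norm_mul, norm_ex, mul_one, Complex.norm_real, Real.norm_of_nonneg ha]

theorem pw_polar {a : ℝ} (ha : 0 < a) (t : ℝ) (n : ℕ) :
    (‖(a : ℂ) * ex t‖ : ℂ) * (a * ex t / ‖(a : ℂ) * ex t‖) ^ n = a * ex (n * t) := by
  have h : (a : ℂ) ≠ 0 := by exact_mod_cast ha.ne'
  rw [norm_polar ha.le, mul_div_cancel_left₀ _ h, ex_pow]

theorem tf_polar {p : S3} {a c α β : ℝ} (ha : 0 < a) (hc : 0 < c) (hx : xc p = a * ex α)
    (hy : yc p = c * ex β) : tf r s p = a * ex (r * α) - c * ex (s * β) := by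
  rw [tf, hx, hy, pw_polar ha, pw_polar hc]

theorem norm_sq_add (c : ℝ) (δ : ℂ) : ‖(c : ℂ) + δ‖ ^ 2 = c ^ 2 + 2 * c * δ.re + ‖δ‖ ^ 2 := by
  simp only [Complex.sq_norm, Complex.normSq_apply, Complex.add_re, Complex.add_im,
    Complex.ofReal_re, Complex.ofReal_im]
  ring

theorem tb_spec {δ : ℂ} (h : ‖δ‖ < 1 / 10) :
    ‖(tb δ : ℂ) + δ‖ ^ 2 + tb δ ^ 2 = 1 ∧ 1 / 2 < tb δ ∧ tb δ < 1 ∧ 0 < ((tb δ : ℂ) + δ).re := by
  have h1 := abs_le.1 (Complex.abs_re_le_norm δ)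
  have h0 := norm_nonneg δ
  have hD : 0 ≤ δ.re ^ 2 + 2 * (1 - ‖δ‖ ^ 2) := by nlinarith
  have hS := Real.sq_sqrt hD
  have hS1 : 1 + δ.re < Real.sqrt (δ.re ^ 2 + 2 * (1 - ‖δ‖ ^ 2)) :=
    Real.lt_sqrt_of_sq_lt (by nlinarith)
  have hb : 2 * tb δ + δ.re = Real.sqrt (δ.re ^ 2 + 2 * (1 - ‖δ‖ ^ 2)) := by rw [tb]; ring
  rw [← hb] at hS hS1
  have h2 : 1 / 2 < tb δ := by linarith
  refine ⟨by rw [norm_sq_add]; nlinarith, h2, ?_, ?_⟩
  · by_contra h3
    push Not at h3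
    nlinarith
  · rw [Complex.add_re, Complex.ofReal_re]
    linarith

theorem tb_unique {δ : ℂ} (h : ‖δ‖ < 1 / 10) {c : ℝ} (hc : 0 ≤ c)
    (h1 : ‖(c : ℂ) + δ‖ ^ 2 + c ^ 2 = 1) : tb δ = c := by
  obtain ⟨h2, h3, -, h4⟩ := tb_spec h
  rw [norm_sq_add] at h1 h2
  rw [Complex.add_re, Complex.ofReal_re] at h4
  have h5 : (tb δ - c) * (tb δ + δ.re + c) = 0 := by nlinarith
  exact sub_eq_zero.1 ((mul_eq_zero.1 h5).resolve_right (by linarith))

/-- The rotated disc coordinate. -/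
def dl (r s : ℕ) (q : ℝ × ℂ) : ℂ := ex (-(r * s * q.1)) * q.2 / 10

theorem tg_eq (q : ℝ × ℂ) : tg r s q =
    (s * q.1 + Complex.arg (tb (dl r s q) + dl r s q) / (2 * Real.pi * r),
      (tb (dl r s q) : ℂ) * ex (r * q.1)) := rfl

theorem norm_dl {q : ℝ × ℂ} (hq : ‖q.2‖ < 1) : ‖dl r s q‖ < 1 / 10 := by
  rw [dl, norm_div, norm_mul, norm_ex, one_mul, Complex.norm_ofNat]
  linarith

theorem norm_tg {q : ℝ × ℂ} (hq : ‖q.2‖ < 1) : ‖(tg r s q).2‖ = tb (dl r s q) :=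
  norm_polar (one_half_pos.trans (tb_spec (norm_dl hq)).2.1).le _

theorem yc_te {q : ℝ × ℂ} (hq : ‖q.2‖ < 1) :
    yc (te r s q) = (tb (dl r s q) : ℂ) * ex (r * q.1) :=
  yc_iota (by rw [norm_tg hq]; exact (tb_spec (norm_dl hq)).2.2.1.le)

theorem xc_te {q : ℝ × ℂ} (hq : ‖q.2‖ < 1) :
    xc (te r s q) = (‖(tb (dl r s q) : ℂ) + dl r s q‖ : ℝ) * ex (tg r s q).1 := by
  obtain ⟨h1, -, h2, -⟩ := tb_spec (norm_dl (r := r) (s := s) hq)
  rw [te, xc_iota (by rw [norm_tg hq]; exact h2.le), norm_tg hq, ← h1, add_sub_cancel_right,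
    Real.sqrt_sq (norm_nonneg _)]

theorem s3_ext {p p' : S3} (hx : xc p = xc p') (hy : yc p = yc p') : p = p' :=
  Subtype.ext (Prod.ext hx hy)

theorem polar_norm (z : ℂ) : (‖z‖ : ℂ) * ex (z.arg / (2 * Real.pi)) = z := by
  have : (Real.pi : ℂ) ≠ 0 := Complex.ofReal_ne_zero.2 Real.pi_ne_zero
  rw [ex]
  convert Complex.norm_mul_exp_arg_mul_I z using 3
  push_cast
  field_simp

theorem tf_te' (hr : 0 < r) {q : ℝ × ℂ} (hq : ‖q.2‖ < 1) : tf r s (te r s q) = q.2 / 10 := by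
  obtain ⟨-, h1, -, h2⟩ := tb_spec (norm_dl (r := r) (s := s) hq)
  have h3 : 0 < ‖(tb (dl r s q) : ℂ) + dl r s q‖ :=
    norm_pos_iff.2 fun h => h2.ne' (congrArg Complex.re h)
  have hr' : (r : ℝ) ≠ 0 := by positivity
  have h4 : r * (tg r s q).1 =
      r * s * q.1 + Complex.arg (tb (dl r s q) + dl r s q) / (2 * Real.pi) := by
    rw [tg_eq]
    field_simp
  have h5 : ex (r * s * q.1) * dl r s q = q.2 / 10 := by
    rw [dl, mul_div_assoc, ← mul_assoc, ← ex_add, add_neg_cancel]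
    simp [ex]
  rw [tf_polar h3 (by linarith) (xc_te hq) (yc_te hq), h4, ex_add, mul_left_comm, polar_norm,
    show (s : ℝ) * (r * q.1) = r * s * q.1 by ring, ← h5]
  ring

theorem dl_add {θ θ' : ℝ} {k : ℤ} (h : r * θ' = r * θ + k) (w : ℂ) :
    dl r s (θ', w) = dl r s (θ, w) := by
  have h1 : -(r * s * θ') = -(r * s * θ) + ((-(s * k) : ℤ) : ℝ) := by
    push_cast
    linear_combination (-s : ℝ) * h
  simp only [dl, h1, ex_add_int]

theorem te_add_int (θ : ℝ) (k : ℤ) (w : ℂ) : te r s (θ + k, w) = te r s (θ, w) := by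
  have h : r * (θ + k) = r * θ + ((r * k : ℤ) : ℝ) := by push_cast; ring
  have h1 : (tg r s (θ + k, w)).1 = (tg r s (θ, w)).1 + ((s * k : ℤ) : ℝ) := by
    simp only [tg_eq, dl_add h]
    push_cast
    ring
  have h2 : (tg r s (θ + k, w)).2 = (tg r s (θ, w)).2 := by
    simp only [tg_eq, dl_add h, h, ex_add_int]
  rw [te, h1, h2, iota_add_int, te]

theorem bezout (hc : Nat.Coprime r s) : ∃ m n : ℤ, (m : ℝ) * s + n * r = 1 := by
  obtain ⟨n, m, h⟩ := Nat.isCoprime_iff_coprime.2 hc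
  exact ⟨m, n, by exact_mod_cast (add_comm _ _).trans h⟩

theorem te_inj (hr : 0 < r) (hc : Nat.Coprime r s) {θ θ' : ℝ} {w w' : ℂ} (hw : ‖w‖ < 1)
    (hw' : ‖w'‖ < 1) (h : te r s (θ, w) = te r s (θ', w')) : w = w' ∧ ∃ n : ℤ, θ' = θ + n := by
  have h1 : w / 10 = w' / 10 := (tf_te' hr (q := (θ, w)) hw).symm.trans
    ((congrArg (tf r s) h).trans (tf_te' hr (q := (θ', w')) hw'))
  obtain rfl : w = w' := by linear_combination 10 * h1
  obtain ⟨-, hb, -, hp⟩ := tb_spec (norm_dl (r := r) (s := s) (q := (θ, w)) hw)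
  have hy := congrArg yc h
  have hx := congrArg xc h
  have hn := congrArg norm hy
  rw [te, te, yc_iota (by rw [norm_tg hw]; exact (tb_spec (norm_dl hw)).2.2.1.le),
    yc_iota (by rw [norm_tg hw']; exact (tb_spec (norm_dl hw')).2.2.1.le), norm_tg hw,
    norm_tg hw'] at hn
  rw [yc_te hw, yc_te hw', ← hn] at hy
  obtain ⟨k, hk⟩ := ex_eq_iff.1 (mul_left_cancel₀ (by exact_mod_cast (by linarith)) hy)
  rw [xc_te hw, xc_te hw', tg_eq, tg_eq, dl_add hk] at hx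
  obtain ⟨l, hl⟩ := ex_eq_iff.1 (mul_left_cancel₀ (by
    exact_mod_cast norm_ne_zero_iff.2 fun h => hp.ne' (congrArg Complex.re h)) hx)
  obtain ⟨m, n, hmn⟩ := bezout hc
  refine ⟨rfl, m * l + n * k, ?_⟩
  simp only at hk hl
  push_cast
  linear_combination (θ - θ') * hmn + m * hl + n * hk

theorem ne_zero {p : S3} (hp : ‖tf r s p‖ < 1 / 10) : xc p ≠ 0 ∧ yc p ≠ 0 := by
  have h := abs_lt.1 ((abs_norm_sub_norm_le _ _).trans_lt hp)
  rw [norm_pw, norm_pw] at h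
  have h1 : ‖xc p‖ ^ 2 + ‖yc p‖ ^ 2 = 1 := p.2
  constructor <;> intro h2 <;> rw [h2, norm_zero] at h h1 <;>
    nlinarith [norm_nonneg (xc p), norm_nonneg (yc p)]

/-- The explicit inverse in terms of lifts of the two arguments. -/
theorem sec (hr : 0 < r) {m n : ℤ} (hmn : (m : ℝ) * s + n * r = 1) {p : S3}
    (hp : ‖tf r s p‖ < 1 / 10) {a c α β : ℝ} (ha : 0 < a) (hc : 0 < c) (hx : xc p = a * ex α)
    (hy : yc p = c * ex β) : 0 < (ex (r * α - s * β)).re ∧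
      te r s (m * (α - (ex (r * α - s * β)).arg / (2 * Real.pi * r)) + n * β, 10 * tf r s p) = p := by
  have hr' : (r : ℝ) ≠ 0 := by positivity
  have hπ := Real.pi_ne_zero
  set δ : ℂ := a * ex (r * α - s * β) - c with hδ
  have h1 : tf r s p = ex (s * β) * δ := by
    rw [tf_polar ha hc hx hy, hδ, mul_sub, mul_left_comm, ← ex_add, add_sub_cancel]
    ring
  have h2 : ‖δ‖ < 1 / 10 := by rwa [h1, norm_mul, norm_ex, one_mul] at hp
  have h3 : (c : ℂ) + δ = a * ex (r * α - s * β) := by rw [hδ]; ring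
  have hac : a ^ 2 + c ^ 2 = 1 := by
    have h : ‖xc p‖ ^ 2 + ‖yc p‖ ^ 2 = 1 := p.2
    rwa [hx, hy, norm_polar ha.le, norm_polar hc.le] at h
  have h4 : tb δ = c := tb_unique h2 hc.le (by rwa [h3, norm_polar ha.le])
  have h5 := (tb_spec h2).2.2.2
  rw [h4, h3, Complex.re_ofReal_mul] at h5
  refine ⟨(mul_pos_iff_of_pos_left ha).1 h5, ?_⟩
  obtain ⟨k, hk⟩ : ∃ k : ℤ, (ex (r * α - s * β)).arg / (2 * Real.pi) = r * α - s * β - k :=
    ⟨_, RHol.arg_eq one_pos (by simp)⟩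
  set A := (ex (r * α - s * β)).arg / (2 * Real.pi * r) with hA
  have h6 : r * A = r * α - s * β - k := by
    rw [← hk, hA]
    field_simp
  set θ := m * (α - A) + n * β with hθ
  have h7 : r * θ = β + ((m * k : ℤ) : ℝ) := by
    push_cast
    linear_combination r * hθ + β * hmn - m * h6
  have h8 : s * θ + A = α + ((-(n * k) : ℤ) : ℝ) := by
    push_cast
    linear_combination s * hθ + (α - A) * hmn + n * h6
  have hq : ‖(θ, 10 * tf r s p).2‖ < 1 := by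
    rw [norm_mul, Complex.norm_ofNat]
    linarith
  have h9 : dl r s (θ, 10 * tf r s p) = δ := by
    have h : -(r * s * θ) + s * β = ((-(s * m * k) : ℤ) : ℝ) := by
      push_cast at h7 ⊢
      linear_combination (-s : ℝ) * h7
    rw [dl, h1, mul_left_comm, ← mul_assoc (ex _), ← ex_add, h, ex_int]
    ring
  refine s3_ext ?_ ?_
  · rw [xc_te hq, tg_eq, h9, h4, h3, norm_polar ha.le, Complex.arg_real_mul _ ha, hx]
    simp only [← hA, h8, ex_add_int]
  · rw [yc_te hq, h9, h4, hy]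
    simp only [h7, ex_add_int]

theorem continuous_dl : Continuous (dl r s) := by
  have := continuous_ex
  unfold dl
  fun_prop

theorem continuous_tb : Continuous tb := by
  unfold tb
  fun_prop

theorem continuousAt_tg {q : ℝ × ℂ} (hq : ‖q.2‖ < 1) : ContinuousAt (tg r s) q := by
  have h1 := continuous_ex
  have h2 : Continuous fun q => tb (dl r s q) := continuous_tb.comp continuous_dl
  have h3 := continuous_dl (r := r) (s := s)
  have h4 : ContinuousAt (fun q => Complex.arg (tb (dl r s q) + dl r s q)) q :=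
    ContinuousAt.comp (f := fun q => (tb (dl r s q) : ℂ) + dl r s q)
      (Complex.continuousAt_arg (Or.inl (tb_spec (norm_dl hq)).2.2.2)) (by fun_prop)
  simp only [funext tg_eq]
  fun_prop

theorem deriv_ex : ∃ D : ℝ →L[ℝ] ℂ, HasStrictFDerivAt ex D 0 ∧
    ∀ t, D t = 2 * Real.pi * t * Complex.I := by
  have h : HasStrictFDerivAt (fun t : ℝ => (2 * Real.pi * t * Complex.I : ℂ)) _ 0 :=
    ((Complex.ofRealCLM.hasStrictFDerivAt (x := 0)).const_mul (2 * Real.pi : ℂ)).mul_const Complex.I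
  refine ⟨_, h.cexp, fun t => ?_⟩
  simp
  ring

theorem deriv_tb : ∃ D : ℂ →L[ℝ] ℝ, HasStrictFDerivAt tb D 0 ∧ ∀ z, D z = -z.re / 2 := by
  have h1 : HasStrictFDerivAt (fun z : ℂ => z.re) _ 0 := Complex.reCLM.hasStrictFDerivAt
  have h2 : HasStrictFDerivAt (fun z : ℂ => z.re ^ 2 + 2 * (1 - ‖z‖ ^ 2)) _ 0 :=
    (h1.pow 2).add (((hasStrictFDerivAt_norm_sq (0 : ℂ)).const_sub 1).const_mul 2)
  refine ⟨_, (h1.neg.add (h2.sqrt (by simp))).mul_const 2⁻¹, fun z => ?_⟩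
  simp
  ring

theorem deriv_arg {c : ℝ} (hc : 0 < c) : ∃ D : ℂ →L[ℝ] ℝ, HasStrictFDerivAt Complex.arg D c ∧
    ∀ z, D z = z.im / c := by
  have h := Complex.imCLM.hasStrictFDerivAt.comp (c : ℂ)
    (Complex.hasStrictFDerivAt_log_real (x := c) (Or.inl (by simpa using hc)))
  refine ⟨_, by simpa only [Function.comp_def, Complex.imCLM_apply, Complex.log_im] using h,
    fun z => ?_⟩
  simp [← Complex.ofReal_inv, div_eq_inv_mul]

end RTorA

open RTorA

theorem continuous_tf (hr : 0 < r) (hs : 0 < s) : Continuous (tf r s) := by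
  exact ((continuous_pw r).comp continuous_xc).sub ((continuous_pw s).comp continuous_yc)

theorem norm_tg_lt {q : ℝ × ℂ} (hq : ‖q.2‖ < 1) : ‖(tg r s q).2‖ < 1 := by
  rw [norm_tg hq]
  exact (tb_spec (norm_dl hq)).2.2.1

theorem tf_te (hr : 0 < r) (hs : 0 < s) {q : ℝ × ℂ} (hq : ‖q.2‖ < 1) :
    tf r s (te r s q) = q.2 / 10 := by
  exact tf_te' hr hq

theorem exists_te (hr : 0 < r) (hs : 0 < s) (hc : Nat.Coprime r s) {p : S3}
    (hp : ‖tf r s p‖ < 1 / 10) : ∃ q : ℝ × ℂ, ‖q.2‖ < 1 ∧ p = te r s q := by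
  obtain ⟨m, n, hmn⟩ := bezout hc
  obtain ⟨a, ha, hx⟩ := RHol.polar (ne_zero hp).1
  obtain ⟨c, hc, hy⟩ := RHol.polar (ne_zero hp).2
  refine ⟨_, ?_, (sec hr hmn hp ha hc hx hy).2.symm⟩
  rw [norm_mul, Complex.norm_ofNat]
  linarith

theorem isCC_te (hr : 0 < r) (hs : 0 < s) (hc : Nat.Coprime r s) :
    IsCC (te r s) (Metric.ball 0 1) := by
  refine ⟨Metric.isOpen_ball, convex_ball 0 1, ?_, fun θ w => ?_, fun θ θ' w hw w' hw' h =>
    te_inj hr hc (mem_ball_zero_iff.1 hw) (mem_ball_zero_iff.1 hw') h, fun V hV hs' => ?_⟩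
  · exact continuousOn_iota.comp (g := fun q : ℝ × ℂ => iota q.1 q.2) (f := tg r s)
      (fun q hq => (continuousAt_tg (mem_ball_zero_iff.1 hq.2)).continuousWithinAt)
      fun q hq => (norm_tg_lt (mem_ball_zero_iff.1 hq.2)).le
  · simpa using te_add_int θ 1 w
  obtain ⟨m, n, hmn⟩ := bezout hc
  rw [isOpen_iff_mem_nhds]
  rintro _ ⟨⟨θ, w⟩, hq, rfl⟩
  have hw : ‖w‖ < 1 := mem_ball_zero_iff.1 (hs' hq).2
  set p := te r s (θ, w) with hp
  have ht := continuous_tf hr hs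
  have h0 : ‖tf r s p‖ < 1 / 10 := by
    rw [hp, tf_te' hr hw, norm_div, Complex.norm_ofNat]
    linarith
  obtain ⟨α, hα, h1⟩ := RHol.exists_lift continuous_xc.continuousAt (ne_zero h0).1
  obtain ⟨β, hβ, h2⟩ := RHol.exists_lift continuous_yc.continuousAt (ne_zero h0).2
  have h3 : ∀ᶠ x in 𝓝 p, 0 < (ex (r * α x - s * β x)).re ∧ te r s (m * (α x -
      (ex (r * α x - s * β x)).arg / (2 * Real.pi * r)) + n * β x, 10 * tf r s x) = x := by
    filter_upwards [h1, h2, ht.norm.continuousAt.eventually (gt_mem_nhds h0)] with x ⟨a, ha, hx⟩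
      ⟨c, hc, hy⟩ h
    exact sec hr hmn h ha hc hx hy
  obtain ⟨h4, h5⟩ := h3.self_of_nhds
  obtain ⟨h6, k, hk⟩ := te_inj hr hc (by rw [norm_mul, Complex.norm_ofNat]; linarith) hw h5
  have h7 : ContinuousAt (fun x => (ex (r * α x - s * β x)).arg) p :=
    ContinuousAt.comp (f := fun x => ex (r * α x - s * β x))
      (Complex.continuousAt_arg (Or.inl h4)) (continuous_ex.continuousAt.comp (by fun_prop))
  have h8 : ContinuousAt (fun x => ((m * (α x - (ex (r * α x - s * β x)).arg /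
      (2 * Real.pi * r)) + n * β x + k, 10 * tf r s x) : ℝ × ℂ)) p := by fun_prop
  filter_upwards [h3, h8.preimage_mem_nhds (hV.mem_nhds (by rw [← hk, h6]; exact hq))] with x hx hV
  exact ⟨_, hV, (te_add_int _ _ _).trans hx.2⟩

theorem tg_deriv (hr : 0 < r) : ∃ L : (ℝ × ℂ) →L[ℝ] (ℝ × ℂ), Function.Injective L ∧
    HasStrictFDerivAt (tg r s) L (0, 0) := by
  obtain ⟨De, he, he'⟩ := deriv_ex
  obtain ⟨Db, hb, hb'⟩ := deriv_tb
  have hb0 : 0 < tb 0 := by linarith [(tb_spec (δ := 0) (by simp)).2.1]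
  obtain ⟨Da, ha, ha'⟩ := deriv_arg hb0
  have h0 : dl r s (0, 0) = 0 := by simp [dl]
  have h1 (c : ℝ) : HasStrictFDerivAt (fun q : ℝ × ℂ => ex (c * q.1)) _ (0, 0) :=
    HasStrictFDerivAt.comp (f := fun q : ℝ × ℂ => c * q.1) (0, 0) (by simpa using he)
      (hasStrictFDerivAt_fst.const_mul c)
  have h2 := ((h1 (-(r * s))).fun_mul (hasStrictFDerivAt_snd (𝕜 := ℝ))).mul_const (10 : ℂ)⁻¹
  simp only [neg_mul, ← div_eq_mul_inv] at h2
  replace h2 : HasStrictFDerivAt (dl r s) _ (0, 0) := h2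
  have h3 : HasStrictFDerivAt (fun q => (tb (dl r s q) : ℂ)) _ (0, 0) :=
    Complex.ofRealCLM.hasStrictFDerivAt.comp (0, 0) ((h0 ▸ hb).comp (0, 0) h2)
  have h4 : HasStrictFDerivAt (fun q => Complex.arg (tb (dl r s q) + dl r s q)) _ (0, 0) :=
    HasStrictFDerivAt.comp (f := fun q => (tb (dl r s q) : ℂ) + dl r s q) (0, 0)
      (by simpa [h0] using ha) (h3.add h2)
  refine ⟨_, ?_, ((hasStrictFDerivAt_fst.const_mul (s : ℝ)).add
    (h4.mul_const (2 * Real.pi * r)⁻¹)).prodMk (h3.mul (h1 r))⟩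
  refine (injective_iff_map_eq_zero _).2 fun v hv => ?_
  have h5 := congrArg Prod.fst hv
  have h6 := congrArg Prod.snd hv
  simp only [ContinuousLinearMap.prod_apply, add_apply,
    smul_apply, ContinuousLinearMap.comp_apply, he', hb', ha'] at h5 h6
  have h7 := congrArg Complex.re h6
  have h8 := congrArg Complex.im h6
  simp [h0, ex, hb0.ne', hr.ne'] at h5 h7 h8
  simp [h8, hb0.ne', hr.ne'] at h5
  exact Prod.ext h8 (Complex.ext h7 h5)

end Pool.Agent.HH
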