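import Pool.Agent.P.MP_c8dc46_gt.TorA

/-!
Three circle charts cover the exterior of the torus knot: the two solid tori `|y| < |x|` and
`|x| < |y|`, and `(t, u, φ) ↦ iota (s t + φ / r) (exp u * e(r t))` on `u < 0`, `0 < φ < 1`.
-/

open Set Topology

noncomputable section

namespace Pool.Agent.HH

/-- A cover of the exterior of `K` by three circle charts. -/
structure Cov3 (r s : ℕ) (K : Set S3) (ϑ : S3 → ℂ) where
  Φ : Fin 3 → ℝ × (ℝ × ℝ) → S3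
  O : Fin 3 → Set (ℝ × ℝ)
  o : Fin 3 → ℝ × ℝ
  O₀ : Set (ℝ × ℝ)
  O₁ : Set (ℝ × ℝ)
  cc : ∀ i, IsCC (Φ i) (O i)
  omem : ∀ i, o i ∈ O i
  h₀ : IsOpen O₀ ∧ Convex ℝ O₀ ∧ O₀.Nonempty ∧ O₀ ⊆ O 2
  h₁ : IsOpen O₁ ∧ Convex ℝ O₁ ∧ O₁.Nonempty ∧ O₁ ⊆ O 2
  cover : ⋃ i, Φ i '' (univ ×ˢ O i) = Kᶜ
  disj : Disjoint (Φ 0 '' (univ ×ˢ O 0)) (Φ 1 '' (univ ×ˢ O 1))
  i₀ : Φ 0 '' (univ ×ˢ O 0) ∩ Φ 2 '' (univ ×ˢ O 2) = Φ 2 '' (univ ×ˢ O₀)
  i₁ : Φ 1 '' (univ ×ˢ O 1) ∩ Φ 2 '' (univ ×ˢ O 2) = Φ 2 '' (univ ×ˢ O₁)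
  hol₀ : IsHolA (th ϑ) (fun t => Φ 0 (t, o 0)) r
  hol₁ : IsHolA (th ϑ) (fun t => Φ 1 (t, o 1)) s
  hol₂ : IsHolA (th ϑ) (fun t => Φ 2 (t, o 2)) (r * s)

variable {r s : ℕ}

namespace RTorB

theorem sq_add (p : S3) : ‖xc p‖ ^ 2 + ‖yc p‖ ^ 2 = 1 := p.2

theorem norm_unit (z : ℂ) (n : ℕ) : ‖(‖z‖ : ℂ) * (z / ‖z‖) ^ n‖ = ‖z‖ := by
  by_cases h : z = 0
  · simp [h]
  · have h' : ‖z‖ ≠ 0 := norm_ne_zero_iff.2 h
    rw [norm_mul, norm_pow, norm_div, Complex.norm_real, norm_norm, div_self h', one_pow, mul_one]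

theorem ex_pow (t : ℝ) (n : ℕ) : ex t ^ n = ex (n * t) := by
  induction n with
  | zero => simp [ex]
  | succ n ih => rw [pow_succ, ih, ← ex_add]; push_cast; ring_nf

theorem ex_half : ex (1 / 2) = -1 := by
  rw [ex, ← Complex.exp_pi_mul_I]
  congr 1
  push_cast
  ring

theorem norm_polar {a : ℝ} (ha : 0 < a) (t : ℝ) : ‖(a : ℂ) * ex t‖ = a := by
  rw [norm_mul, norm_ex, mul_one, Complex.norm_real, Real.norm_of_nonneg ha.le]

theorem unit_polar {a : ℝ} (ha : 0 < a) (t : ℝ) :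
    (a : ℂ) * ex t / (‖(a : ℂ) * ex t‖ : ℝ) = ex t := by
  have h : (a : ℂ) ≠ 0 := Complex.ofReal_ne_zero.2 ha.ne'
  rw [norm_polar ha]
  field_simp

theorem cc_equiv {Y W W' : Type} [TopologicalSpace Y] [NormedAddCommGroup W] [NormedSpace ℝ W]
    [NormedAddCommGroup W'] [NormedSpace ℝ W'] {Φ : ℝ × W → Y} {B : Set W} (h : IsCC Φ B)
    (e : W' ≃L[ℝ] W) : IsCC (fun q : ℝ × W' => Φ (q.1, e q.2)) (e ⁻¹' B) ∧
      (fun q : ℝ × W' => Φ (q.1, e q.2)) '' (univ ×ˢ (e ⁻¹' B)) = Φ '' (univ ×ˢ B) := by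
  refine ⟨⟨h.isOpen.preimage e.continuous, h.convex.linear_preimage (e : W' →ₗ[ℝ] W),
    h.cont.comp (f := fun q : ℝ × W' => (q.1, e q.2)) (by fun_prop) fun q hq => ⟨trivial, hq.2⟩,
    fun s w => h.per s _, fun s s' w hw w' hw' he => ?_, fun V hV hs => ?_⟩, ?_⟩
  · obtain ⟨h1, h2⟩ := h.inj s s' _ hw _ hw' he
    exact ⟨e.injective h1, h2⟩
  · have e1 : (fun q : ℝ × W' => Φ (q.1, e q.2)) '' V =
        Φ '' ((fun q : ℝ × W => (q.1, e.symm q.2)) ⁻¹' V) := by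
      ext y
      constructor
      · rintro ⟨q, hq, rfl⟩
        exact ⟨(q.1, e q.2), by simpa using hq, rfl⟩
      · rintro ⟨q, hq, rfl⟩
        exact ⟨(q.1, e.symm q.2), hq, by simp⟩
    rw [e1]
    refine h.img _ (hV.preimage (by fun_prop)) fun q hq => ⟨trivial, ?_⟩
    simpa using (hs hq).2
  · ext y
    constructor
    · rintro ⟨q, hq, rfl⟩
      exact ⟨(q.1, e q.2), ⟨trivial, hq.2⟩, rfl⟩
    · rintro ⟨q, hq, rfl⟩
      exact ⟨(q.1, e.symm q.2), ⟨trivial, by simpa using hq.2⟩, by simp⟩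

/-- The logarithm of the radius of the middle torus. -/
def u₀ : ℝ := Real.log (1 / 2) / 2

theorem u₀_neg : u₀ < 0 := by
  have := Real.log_neg (x := 1 / 2) (by norm_num) (by norm_num)
  unfold u₀
  linarith

theorem exp_u₀ : Real.exp u₀ ^ 2 = 1 / 2 := by
  rw [← Real.exp_nat_mul, u₀, show ((2 : ℕ) : ℝ) * (Real.log (1 / 2) / 2) = Real.log (1 / 2) by
    push_cast; ring, Real.exp_log (by norm_num)]

theorem exp_lt {u : ℝ} (hu : u < 0) : Real.exp u < 1 := Real.exp_lt_one_iff.2 hu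

theorem ball_lt : ∀ d ∈ Metric.ball (0 : ℂ) (Real.exp u₀), ‖d‖ < 1 := fun _ hd =>
  (mem_ball_zero_iff.1 hd).trans (exp_lt u₀_neg)

theorem lt_iff (p : S3) : ‖xc p‖ < Real.exp u₀ ↔ Real.exp u₀ < ‖yc p‖ := by
  have h1 := sq_add p
  have h2 := exp_u₀
  have h3 := Real.exp_pos u₀
  have h4 := norm_nonneg (xc p)
  have h5 := norm_nonneg (yc p)
  constructor <;> intro h <;> by_contra h' <;> push Not at h' <;> nlinarith

theorem lt_iff' (p : S3) : ‖yc p‖ < Real.exp u₀ ↔ Real.exp u₀ < ‖xc p‖ := by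
  have h1 := sq_add p
  have h2 := exp_u₀
  have h3 := Real.exp_pos u₀
  have h4 := norm_nonneg (xc p)
  have h5 := norm_nonneg (yc p)
  constructor <;> intro h <;> by_contra h' <;> push Not at h' <;> nlinarith

/-- The first chart. -/
def P0 (q : ℝ × (ℝ × ℝ)) : S3 := iota q.1 (Complex.equivRealProdCLM.symm q.2)

/-- The second chart. -/
def P1 (q : ℝ × (ℝ × ℝ)) : S3 := fib (Complex.equivRealProdCLM.symm q.2) q.1

/-- The base of the first two charts. -/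
def OB : Set (ℝ × ℝ) := Complex.equivRealProdCLM.symm ⁻¹' Metric.ball 0 (Real.exp u₀)

theorem zero_mem : ((0, 0) : ℝ × ℝ) ∈ OB := by
  change Complex.equivRealProdCLM.symm 0 ∈ Metric.ball (0 : ℂ) (Real.exp u₀)
  rw [map_zero]
  exact Metric.mem_ball_self (Real.exp_pos _)

theorem cc0 : IsCC P0 OB ∧ P0 '' (univ ×ˢ OB) = {p | ‖yc p‖ < Real.exp u₀} := by
  obtain ⟨h1, h2⟩ := cc_equiv (isCC_iota Metric.isOpen_ball (convex_ball _ _) ball_lt)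
    Complex.equivRealProdCLM.symm
  refine ⟨h1, h2.trans ?_⟩
  ext p
  constructor
  · rintro ⟨q, hq, rfl⟩
    change ‖yc (iota q.1 q.2)‖ < _
    rw [yc_iota (ball_lt _ hq.2).le]
    exact mem_ball_zero_iff.1 hq.2
  · intro hp
    obtain ⟨θ, hθ⟩ := exists_iota p
    exact ⟨(θ, yc p), ⟨trivial, mem_ball_zero_iff.2 hp⟩, hθ.symm⟩

theorem cc1 : IsCC P1 OB ∧ P1 '' (univ ×ˢ OB) = {p | ‖xc p‖ < Real.exp u₀} := by
  obtain ⟨h0, h0'⟩ := isCC_fib Metric.isOpen_ball (convex_ball _ _) ball_lt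
  obtain ⟨h1, h2⟩ := cc_equiv h0 Complex.equivRealProdCLM.symm
  refine ⟨h1, (h2.trans h0').trans ?_⟩
  ext p
  exact mem_ball_zero_iff

/-- The third chart. -/
def P2 (r s : ℕ) (q : ℝ × (ℝ × ℝ)) : S3 :=
  iota (s * q.1 + q.2.2 / r) ((Real.exp q.2.1 : ℝ) * ex (r * q.1))

theorem nle {u : ℝ} (hu : u < 0) (t : ℝ) : ‖((Real.exp u : ℝ) : ℂ) * ex t‖ < 1 := by
  rw [norm_polar (Real.exp_pos u)]
  exact exp_lt hu

theorem sqrt_pos {a : ℝ} (h0 : 0 ≤ a) (h1 : a < 1) : 0 < Real.sqrt (1 - a ^ 2) :=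
  Real.sqrt_pos.2 (by nlinarith)

theorem yc_P2 {q : ℝ × (ℝ × ℝ)} (hq : q.2.1 < 0) :
    yc (P2 r s q) = (Real.exp q.2.1 : ℝ) * ex (r * q.1) := yc_iota (nle hq _).le

theorem xc_P2 {q : ℝ × (ℝ × ℝ)} (hq : q.2.1 < 0) :
    xc (P2 r s q) = (Real.sqrt (1 - Real.exp q.2.1 ^ 2) : ℝ) * ex (s * q.1 + q.2.2 / r) := by
  rw [P2, xc_iota (nle hq _).le, norm_polar (Real.exp_pos _)]

theorem bez (hc : Nat.Coprime r s) : ∃ m n : ℤ, (m : ℝ) * s + n * r = 1 := by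
  obtain ⟨a, b, h⟩ := Nat.Coprime.isCoprime hc
  refine ⟨b, a, ?_⟩
  have h' : b * (s : ℤ) + a * (r : ℤ) = 1 := by linarith
  exact_mod_cast h'

theorem cc2 (hr : 0 < r) (hc : Nat.Coprime r s) : IsCC (P2 r s) (Iio 0 ×ˢ Ioo 0 1) := by
  have hr' : (r : ℝ) ≠ 0 := Nat.cast_ne_zero.2 hr.ne'
  have hI := isCC_iota (O := Metric.ball 0 1) Metric.isOpen_ball (convex_ball _ _)
    (fun d hd => mem_ball_zero_iff.1 hd)
  refine ⟨isOpen_Iio.prod isOpen_Ioo, (convex_Iio _).prod (convex_Ioo _ _), ?_, fun t w => ?_,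
    fun t t' w hw w' hw' he => ?_, fun V hV hs => ?_⟩
  · have := continuous_ex
    exact continuousOn_iota.comp (f := fun q : ℝ × (ℝ × ℝ) =>
      ((s * q.1 + q.2.2 / r : ℝ), ((Real.exp q.2.1 : ℝ) : ℂ) * ex (r * q.1))) (by fun_prop)
      fun q hq => (nle hq.2.1 _).le
  · have e1 : (s : ℝ) * (t + 1) + w.2 / r = s * t + w.2 / r + ((s : ℤ) : ℝ) := by push_cast; ring
    have e2 : ex (r * (t + 1)) = ex (r * t) := (ex_eq_iff.2 ⟨r, by push_cast; ring⟩).symm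
    simp only [P2]
    rw [e1, e2, iota_add_int]
  · obtain ⟨h1, n, hn⟩ := hI.inj _ _ _ (mem_ball_zero_iff.2 (nle hw.1 _)) _
      (mem_ball_zero_iff.2 (nle hw'.1 _)) he
    have h2 := congrArg norm h1
    simp only [norm_polar (Real.exp_pos _)] at h2
    have h3 : w.1 = w'.1 := Real.exp_injective h2
    simp only [h3] at h1 hn
    obtain ⟨k, hk⟩ := ex_eq_iff.1 (mul_left_cancel₀
      (Complex.ofReal_ne_zero.2 (Real.exp_pos _).ne') h1)
    have h4 : w'.2 - w.2 = ((n * r - s * k : ℤ) : ℝ) := by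
      have e : (r : ℝ) * (s * t' + w'.2 / r) = r * (s * t + w.2 / r + n) := by rw [hn]
      field_simp at e
      push_cast
      linear_combination e - s * hk
    have h5 : n * r - s * k = 0 := by
      have a1 : ((n * r - s * k : ℤ) : ℝ) < 1 := by rw [← h4]; linarith [hw.2.1, hw'.2.2]
      have a2 : -1 < ((n * r - s * k : ℤ) : ℝ) := by rw [← h4]; linarith [hw.2.2, hw'.2.1]
      have b1 : n * r - s * k < 1 := by exact_mod_cast a1
      have b2 : -1 < n * r - s * k := by exact_mod_cast a2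
      omega
    have h6 : w.2 = w'.2 := by rw [h5] at h4; push_cast at h4; linarith
    refine ⟨Prod.ext h3 h6, ?_⟩
    obtain ⟨a, b, hab⟩ := bez hc
    refine ⟨a * n + b * k, ?_⟩
    rw [h6] at hn
    push_cast
    linear_combination a * hn + b * hk - (t' - t) * hab
  · have hπ : (2 * Real.pi * r : ℝ) ≠ 0 := by have := Real.pi_pos; positivity
    have e1 : P2 r s '' V = (fun q : ℝ × ℂ => iota q.1 q.2) '' (Prod.map id Complex.exp ''
        ((fun q : ℝ × ℂ => (q.2.im / (2 * Real.pi * r), q.2.re,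
          r * (q.1 - s * (q.2.im / (2 * Real.pi * r))))) ⁻¹' V)) := by
      have k : ∀ (z : ℂ) (t : ℝ), z.im = 2 * Real.pi * r * t →
          Complex.exp z = (Real.exp z.re : ℝ) * ex (r * t) := by
        intro z t hz
        rw [ex, Complex.ofReal_exp, ← Complex.exp_add]
        congr 1
        conv_lhs => rw [← Complex.re_add_im z, hz]
        push_cast
        ring
      ext p
      constructor
      · rintro ⟨⟨t, u, φ⟩, hq, rfl⟩
        refine ⟨_, ⟨(s * t + φ / r, ⟨u, 2 * Real.pi * r * t⟩), ?_, rfl⟩, ?_⟩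
        · have a1 : 2 * Real.pi * r * t / (2 * Real.pi * r) = t := by field_simp
          have a2 : (r : ℝ) * (s * t + φ / r - s * t) = φ := by field_simp; ring
          simp only [mem_preimage, a1, a2]
          exact hq
        · simp only [Prod.map, id, P2]
          rw [k _ t rfl]
      · rintro ⟨_, ⟨⟨θ, z⟩, hq, rfl⟩, rfl⟩
        refine ⟨_, hq, ?_⟩
        simp only [Prod.map, id, P2]
        rw [k z (z.im / (2 * Real.pi * r)) (by field_simp)]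
        congr 1
        field_simp
        ring
    rw [e1]
    refine hI.img _ ((IsOpenMap.id.prodMap Complex.isOpenMap_exp) _
      (hV.preimage (by fun_prop))) ?_
    rintro _ ⟨⟨θ, z⟩, hq, rfl⟩
    refine ⟨trivial, mem_ball_zero_iff.2 ?_⟩
    change ‖Complex.exp z‖ < 1
    rw [Complex.norm_exp]
    exact exp_lt (hs hq).2.1

theorem im2 (hr : 0 < r) (hc : Nat.Coprime r s) {A : Set ℝ} (hA : A ⊆ Iio 0) :
    P2 r s '' (univ ×ˢ (A ×ˢ Ioo 0 1)) = {p | (∃ u ∈ A, ‖yc p‖ = Real.exp u) ∧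
      (xc p / ‖xc p‖) ^ r ≠ (yc p / ‖yc p‖) ^ s} := by
  have hr' : (r : ℝ) ≠ 0 := Nat.cast_ne_zero.2 hr.ne'
  ext p
  constructor
  · rintro ⟨⟨t, u, φ⟩, ⟨-, hu, hφ⟩, rfl⟩
    have h0 : u < 0 := hA hu
    refine ⟨⟨u, hu, by rw [yc_P2 h0, norm_polar (Real.exp_pos _)]⟩, fun h => ?_⟩
    rw [yc_P2 h0, xc_P2 h0, unit_polar (Real.exp_pos _),
      unit_polar (sqrt_pos (Real.exp_pos _).le (exp_lt h0)), ex_pow, ex_pow] at h
    obtain ⟨n, hn⟩ := ex_eq_iff.1 h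
    have h1 : φ = ((-n : ℤ) : ℝ) := by
      simp only at hn
      field_simp at hn
      push_cast
      linear_combination -hn
    have a1 : (0 : ℝ) < ((-n : ℤ) : ℝ) := h1 ▸ hφ.1
    have a2 : ((-n : ℤ) : ℝ) < 1 := h1 ▸ hφ.2
    have b1 : 0 < -n := by exact_mod_cast a1
    have b2 : -n < 1 := by exact_mod_cast a2
    omega
  · rintro ⟨⟨u, hu, hy⟩, hne⟩
    have h0 : u < 0 := hA hu
    obtain ⟨θ, hθ⟩ := exists_iota p
    have hy0 : ‖yc p‖ ≠ 0 := by rw [hy]; exact (Real.exp_pos u).ne'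
    obtain ⟨β, hβ⟩ := exists_ex (z := yc p / ‖yc p‖)
      (by rw [norm_div, Complex.norm_real, norm_norm, div_self hy0])
    have hy1 : ‖yc p‖ < 1 := by rw [hy]; exact exp_lt h0
    have hx : xc p / ‖xc p‖ = ex θ := by
      have e : xc p = (Real.sqrt (1 - ‖yc p‖ ^ 2) : ℝ) * ex θ := by
        conv_lhs => rw [hθ]
        exact xc_iota hy1.le
      rw [e, unit_polar (sqrt_pos (norm_nonneg _) hy1)]
    rw [hx, ← hβ, ex_pow, ex_pow] at hne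
    obtain ⟨m, n, hmn⟩ := bez hc
    have hk := Int.floor_add_fract (r * θ - s * β)
    have hφ0 : 0 < Int.fract (r * θ - s * β) := by
      refine lt_of_le_of_ne (Int.fract_nonneg _) fun h => hne ?_
      refine (ex_eq_iff.2 ⟨⌊r * θ - s * β⌋, ?_⟩).symm
      rw [← h] at hk
      linarith
    have hφ1 := Int.fract_lt_one (r * θ - s * β)
    generalize Int.fract (r * θ - s * β) = φ at hk hφ0 hφ1
    generalize ⌊r * θ - s * β⌋ = k at hk
    obtain ⟨θ', hθ'⟩ : ∃ θ' : ℝ, θ' = θ - φ / r := ⟨_, rfl⟩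
    have hk' : r * θ' - s * β = k := by
      rw [hθ']
      field_simp
      linear_combination -hk
    refine ⟨(m * θ' + n * β, u, φ), ⟨trivial, hu, hφ0, hφ1⟩, ?_⟩
    have e1 : (s : ℝ) * (m * θ' + n * β) + φ / r = θ + ((-(n * k) : ℤ) : ℝ) := by
      push_cast
      linear_combination θ' * hmn - n * hk' + hθ'
    have e2 : ex (r * (m * θ' + n * β)) = ex β := by
      refine (ex_eq_iff.2 ⟨m * k, ?_⟩).symm
      push_cast
      linear_combination β * hmn + m * hk'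
    have e3 : ((Real.exp u : ℝ) : ℂ) * ex β = yc p := by
      have : ((‖yc p‖ : ℝ) : ℂ) ≠ 0 := Complex.ofReal_ne_zero.2 hy0
      rw [hβ, ← hy]
      field_simp
    simp only [P2]
    rw [e1, e2, iota_add_int, e3, ← hθ]

theorem hol0 : IsHolA (th (tf r s)) (fun t => P0 (t, (0, 0))) r := by
  refine isHolA_th (α := fun t => r * t) (by fun_prop) (fun t => by push_cast; ring)
    fun t => ⟨1, one_pos, ?_⟩
  have e : P0 (t, (0, 0)) = iota t 0 := congrArg (iota t) (map_zero Complex.equivRealProdCLM.symm)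
  have h0 : ‖(0 : ℂ)‖ ≤ 1 := by simp
  rw [e, tf, xc_iota h0, yc_iota h0]
  simp [norm_ex, ex_pow]

theorem hol1 : IsHolA (th (tf r s)) (fun t => P1 (t, (0, 0))) s := by
  refine isHolA_th (α := fun t => s * t + 1 / 2) (by fun_prop) (fun t => by push_cast; ring)
    fun t => ⟨1, one_pos, ?_⟩
  have e : P1 (t, (0, 0)) = fib 0 t :=
    congrArg (fun x => fib x t) (map_zero Complex.equivRealProdCLM.symm)
  have h0 : ‖(0 : ℂ)‖ ≤ 1 := by simp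
  rw [e, tf, xc_fib h0, yc_fib h0, ex_add, ex_half]
  simp [norm_ex, ex_pow]

theorem hol2 (hr : 0 < r) : IsHolA (th (tf r s)) (fun t => P2 r s (t, (u₀, 1 / 2))) (r * s) := by
  have hr' : (r : ℝ) ≠ 0 := Nat.cast_ne_zero.2 hr.ne'
  have hp := sqrt_pos (Real.exp_pos u₀).le (exp_lt u₀_neg)
  refine isHolA_th (α := fun t => r * s * t + 1 / 2) (by fun_prop) (fun t => by push_cast; ring)
    fun t => ⟨Real.sqrt (1 - Real.exp u₀ ^ 2) + Real.exp u₀, add_pos hp (Real.exp_pos _), ?_⟩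
  rw [tf, yc_P2 u₀_neg, xc_P2 u₀_neg, unit_polar (Real.exp_pos _), unit_polar hp,
    norm_polar (Real.exp_pos _), norm_polar hp, ex_pow, ex_pow]
  have e1 : (r : ℝ) * (s * t + 1 / 2 / r) = r * s * t + 1 / 2 := by field_simp
  have e2 : (s : ℝ) * (r * t) = r * s * t := by ring
  simp only [e1, e2, ex_add, ex_half]
  push_cast
  ring

end RTorB

open RTorB

theorem tf_eq_zero_iff (hr : 0 < r) (hs : 0 < s) (p : S3) : tf r s p = 0 ↔
    ‖xc p‖ = ‖yc p‖ ∧ (xc p / ‖xc p‖) ^ r = (yc p / ‖yc p‖) ^ s := by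
  constructor
  · intro h
    have h1 := sub_eq_zero.1 h
    have h2 := congrArg norm h1
    rw [norm_unit, norm_unit] at h2
    have h3 : ‖yc p‖ ≠ 0 := by
      intro h0
      have := sq_add p
      rw [h2, h0] at this
      norm_num at this
    refine ⟨h2, mul_left_cancel₀ (Complex.ofReal_ne_zero.2 h3) ?_⟩
    rw [← h1, h2]
  · rintro ⟨h1, h2⟩
    rw [tf, h2, h1, sub_self]

theorem cov3_tf (hr : 0 < r) (hs : 0 < s) (hc : Nat.Coprime r s) :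
    Nonempty (Cov3 r s {p | tf r s p = 0} (tf r s)) := by
  have hs0 : Iio u₀ ⊆ Iio 0 := Iio_subset_Iio u₀_neg.le
  have hs1 : Ioo u₀ 0 ⊆ Iio 0 := Ioo_subset_Iio_self
  have hh : (1 / 2 : ℝ) ∈ Ioo (0 : ℝ) 1 := by constructor <;> norm_num
  refine ⟨⟨![P0, P1, P2 r s], ![OB, OB, Iio 0 ×ˢ Ioo 0 1], ![(0, 0), (0, 0), (u₀, 1 / 2)],
    Iio u₀ ×ˢ Ioo 0 1, Ioo u₀ 0 ×ˢ Ioo 0 1, fun i => ?_, fun i => ?_,
    ⟨isOpen_Iio.prod isOpen_Ioo, (convex_Iio _).prod (convex_Ioo _ _),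
      ⟨(u₀ - 1, 1 / 2), sub_one_lt u₀, hh⟩, prod_mono_left hs0⟩,
    ⟨isOpen_Ioo.prod isOpen_Ioo, (convex_Ioo _ _).prod (convex_Ioo _ _),
      ⟨(u₀ / 2, 1 / 2), ⟨by linarith [u₀_neg], by linarith [u₀_neg]⟩, hh⟩, prod_mono_left hs1⟩,
    ?_, ?_, ?_, ?_, hol0, hol1, hol2 hr⟩⟩
  · fin_cases i
    exacts [cc0.1, cc1.1, cc2 hr hc]
  · fin_cases i
    exacts [zero_mem, zero_mem, ⟨u₀_neg, hh⟩]
  · ext p
    rw [mem_iUnion, Fin.exists_fin_succ, Fin.exists_fin_two]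
    change p ∈ P0 '' (univ ×ˢ OB) ∨ p ∈ P1 '' (univ ×ˢ OB) ∨
      p ∈ P2 r s '' (univ ×ˢ (Iio 0 ×ˢ Ioo 0 1)) ↔ ¬ tf r s p = 0
    rw [cc0.2, cc1.2, im2 hr hc subset_rfl, tf_eq_zero_iff hr hs]
    simp only [mem_ofPred_eq]
    have a := lt_iff p
    have b := lt_iff' p
    constructor
    · rintro (h | h | h) ⟨h1, h2⟩
      · linarith [b.1 h]
      · linarith [a.1 h]
      · exact h.2 h2
    · intro h
      by_cases h1 : ‖yc p‖ < Real.exp u₀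
      · exact Or.inl h1
      by_cases h2 : ‖xc p‖ < Real.exp u₀
      · exact Or.inr (Or.inl h2)
      have e1 : ‖yc p‖ = Real.exp u₀ := le_antisymm (not_lt.1 fun k => h2 (a.2 k)) (not_lt.1 h1)
      have e2 : ‖xc p‖ = Real.exp u₀ := le_antisymm (not_lt.1 fun k => h1 (b.2 k)) (not_lt.1 h2)
      exact Or.inr (Or.inr ⟨⟨u₀, u₀_neg, e1⟩, fun k => h ⟨e2.trans e1.symm, k⟩⟩)
  · change Disjoint (P0 '' (univ ×ˢ OB)) (P1 '' (univ ×ˢ OB))
    rw [cc0.2, cc1.2]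
    exact disjoint_left.2 fun p h1 h2 => lt_asymm h1 ((lt_iff p).1 h2)
  · change P0 '' (univ ×ˢ OB) ∩ P2 r s '' (univ ×ˢ (Iio 0 ×ˢ Ioo 0 1)) =
      P2 r s '' (univ ×ˢ (Iio u₀ ×ˢ Ioo 0 1))
    rw [cc0.2, im2 hr hc subset_rfl, im2 hr hc hs0]
    ext p
    constructor
    · rintro ⟨h1, ⟨u, -, hu⟩, h2⟩
      exact ⟨⟨u, Real.exp_lt_exp.1 (hu ▸ h1), hu⟩, h2⟩
    · rintro ⟨⟨u, h1, hu⟩, h2⟩
      exact ⟨hu.trans_lt (Real.exp_lt_exp.2 h1), ⟨u, hs0 h1, hu⟩, h2⟩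
  · change P1 '' (univ ×ˢ OB) ∩ P2 r s '' (univ ×ˢ (Iio 0 ×ˢ Ioo 0 1)) =
      P2 r s '' (univ ×ˢ (Ioo u₀ 0 ×ˢ Ioo 0 1))
    rw [cc1.2, im2 hr hc subset_rfl, im2 hr hc hs1]
    ext p
    constructor
    · rintro ⟨h1, ⟨u, h0, hu⟩, h2⟩
      exact ⟨⟨u, ⟨Real.exp_lt_exp.1 (hu ▸ (lt_iff p).1 h1), h0⟩, hu⟩, h2⟩
    · rintro ⟨⟨u, h1, hu⟩, h2⟩
      exact ⟨(lt_iff p).2 ((Real.exp_lt_exp.2 h1.1).trans_eq hu.symm), ⟨u, h1.2, hu⟩, h2⟩

theorem Cov3.homeo {K : Set S3} {ϑ : S3 → ℂ} (c : Cov3 r s K ϑ) (H : S3 ≃ₜ S3) {ϑ' : S3 → ℂ}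
    (h : ∀ p, H p ∉ K → ∃ c : ℝ, 0 < c ∧ ϑ' p = c * ϑ (H p)) :
    Nonempty (Cov3 r s (H ⁻¹' K) ϑ') := by
  have im : ∀ (i : Fin 3) (S : Set (ℝ × (ℝ × ℝ))),
      (H.symm ∘ c.Φ i) '' S = H ⁻¹' (c.Φ i '' S) := fun i S => by
    rw [image_comp, H.image_symm]
  have hol : ∀ (i : Fin 3) {k : ℤ}, IsHolA (th ϑ) (fun t => c.Φ i (t, c.o i)) k →
      IsHolA (th ϑ') (fun t => (H.symm ∘ c.Φ i) (t, c.o i)) k := by
    rintro i k ⟨g, h1, h2⟩
    have hK : ∀ t, H (H.symm (c.Φ i (t, c.o i))) ∉ K := fun t => by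
      rw [H.apply_symm_apply, ← mem_compl_iff, ← c.cover]
      exact mem_iUnion.2 ⟨i, _, ⟨trivial, c.omem i⟩, rfl⟩
    refine ⟨g, fun t => ?_, h2⟩
    obtain ⟨U, hU, k⟩ := h1 t
    refine ⟨U, hU, fun a ha b hb => ?_⟩
    rw [← k a ha b hb]
    refine (th_congr (ϑ := ϑ ∘ H) (h _ (hK a)) (h _ (hK b))).trans ?_
    change th ϑ (H (H.symm _)) (H (H.symm _)) = _
    rw [H.apply_symm_apply, H.apply_symm_apply]
  refine ⟨⟨fun i => H.symm ∘ c.Φ i, c.O, c.o, c.O₀, c.O₁,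
    fun i => (c.cc i).comp (OE.of_homeomorph H.symm isOpen_univ) (subset_univ _), c.omem, c.h₀,
    c.h₁, ?_, ?_, ?_, ?_, hol 0 c.hol₀, hol 1 c.hol₁, hol 2 c.hol₂⟩⟩
  · simp only [im]
    rw [← preimage_iUnion, c.cover, preimage_compl]
  · simp only [im]
    exact c.disj.preimage H
  · simp only [im]
    rw [← preimage_inter, c.i₀]
  · simp only [im]
    rw [← preimage_inter, c.i₁]

end Pool.Agent.HH
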