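import Pool.Agent.P.MP_c8dc46_gt.Dec
import Pool.Agent.P.MP_c8dc46_gt.PM

/-!
Transport of the linking form along open embeddings, gauge transformations, multiplicity and
complex conjugation.
-/

open Set Topology

namespace Pool.Agent.HH

namespace RTrans

section

variable {F G G' : Type} [Field F] [StarRing F] [AddCommGroup G] [Module F G] [AddCommGroup G']
  [Module F G']

theorem N_univ {R E : Type} [CommRing R] [AddCommGroup E] [Module R E] {n : ℕ} {M : Set S3}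
    {φ : List S3 → E} (h : φ ∈ N R E n M) (h' : φ ∈ N R E n Mᶜ) : φ ∈ N R E n (univ : Set S3) := by
  rw [← union_compl_self M]
  exact mem_N_union.2 ⟨h, h'⟩

theorem N_of_cons {R E : Type} [CommRing R] [AddCommGroup E] [Module R E] (S : Set S3)
    {φ : List S3 → E} (h : ∀ x l, φ (x :: l) = 0) : φ ∈ N R E 2 S := by
  intro p _
  refine ⟨univ, Filter.univ_mem, fun l hl _ => ?_⟩
  match l, hl with
  | x :: l, _ => exact h x l

theorem W3_compl {cf : Coef F G} {τ : S3 → S3 → Module.End F G} {M : Set S3} {a : List S3 → G}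
    (ha : a ∈ cf.W3 τ M) : a ∈ N F G 2 Mᶜ := by
  obtain ⟨_, K, _, hK, h⟩ := ha
  exact N_mono (S := Mᶜ) (S' := univ \ K) (fun p hp => ⟨mem_univ _, fun h => hp (hK h)⟩) h

theorem contAt {Φ : S3 → S3} {M : Set S3} (h : OE Φ M) : ∀ p ∈ M, ContinuousAt Φ p :=
  fun _ hp => h.cont.continuousAt (h.isOpen.mem_nhds hp)

omit [StarRing F] in
theorem pk_map {T : Module.End F G} {T' : Module.End F G'} (V : G → G') (c : F)
    (h : ∀ x, V (T x) = c • T' (V x)) (k : ℕ) {e : G} (he : pk T k e = 0) : pk T' k (V e) = 0 := by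
  have key : ∀ (k : ℕ) x, V ((T ^ k) x) = c ^ k • (T' ^ k) (V x) := by
    intro k
    induction k with
    | zero => intro x; simp
    | succ k ih =>
      intro x
      rw [pow_succ, Module.End.mul_apply, ih, h, map_smul, smul_smul, pow_succ c, pow_succ T',
        Module.End.mul_apply]
  rw [Submodule.mkQ_apply, Submodule.Quotient.mk_eq_zero] at he ⊢
  obtain ⟨x, rfl⟩ := he
  rw [key]
  exact Submodule.smul_mem _ _ ⟨_, rfl⟩

variable {cf : Coef F G} {cf' : Coef F G'} {τ : S3 → S3 → Module.End F G}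
  {τ' : S3 → S3 → Module.End F G'} {M : Set S3} {V : S3 → G →ₗ[F] G'}

theorem red_ga (hV : ∀ x e, pk cf.T cf.m e = 0 → pk cf'.T cf'.m (V x e) = 0) {n : ℕ} {S : Set S3}
    {a : List S3 → G} (h : cf.red a ∈ N F _ n S) : cf'.red (ga V a) ∈ N F _ n S := by
  refine map_mem_N h fun l hl => ?_
  match l, hl with
  | [], _ => exact (pk cf'.T cf'.m).map_zero
  | x :: l, hl => exact hV x _ hl

theorem ga_W3 (hV : ∀ x e, pk cf.T cf.m e = 0 → pk cf'.T cf'.m (V x e) = 0)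
    (h : LocEq (fun x y => V x ∘ₗ τ x y) (fun x y => τ' x y ∘ₗ V y) M)
    {a : List S3 → G} (ha : a ∈ cf.W3 τ M) : ga V a ∈ cf'.W3 τ' M := by
  have hc := W3_compl ha
  obtain ⟨h0, K, hK, hKM, h1⟩ := ha
  refine ⟨N_univ (M := M) ?_ (cm_mem_N _ (dT_mem_N _ (ga_mem_N _ hc))), K, hK, hKM, ga_mem_N _ h1⟩
  have e1 := red_ga (cf' := cf') hV (N_mono (subset_univ M) h0)
  have e2 := cm_mem_N (pk cf'.T cf'.m) (ga_dT_mem_N h 3 a)
  have := Submodule.sub_mem _ e1 e2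
  rw [map_sub, sub_sub_cancel] at this
  exact this

theorem ga_lam (h : LocEq (fun x y => V x ∘ₗ τ x y) (fun x y => τ' x y ∘ₗ V y) M)
    {a : List S3 → G} {a' : List S3 → G'} (ha : a ∈ N F G 2 Mᶜ) (ha' : a' ∈ N F G' 2 Mᶜ)
    (hB : ∀ x y e, cf'.B (a' [x, y]) (V x e) = cf.B (a [x, y]) e) (b : List S3 → G) :
    cf'.lam3 τ' a' (ga V b) = cf.lam3 τ a b := by
  rw [← sub_eq_zero]
  unfold Coef.lam3 Coef.lam
  rw [← map_sub]
  refine I3_loc (N_univ (M := M) ?_ (Submodule.sub_mem _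
    (cup_mem_N_left (p := 1) _ _ (by norm_num) ha' _)
    (cup_mem_N_left (p := 1) _ _ (by norm_num) ha _)))
  have e1 : cup (biA cf'.B) τ' 1 a' (ga V (dT τ b) - dT τ' (ga V b)) ∈ N F F (1 + 3) M :=
    cup_mem_N_right _ _ 1 _ (ga_dT_mem_N h 3 b)
  have e2 : cup (biA cf'.B) τ' 1 a' (ga V (dT τ b)) - cup (biA cf.B) τ 1 a (dT τ b) ∈
      N F F 4 M := by
    intro p hp
    obtain ⟨U, hU, hxy⟩ := h p hp
    refine ⟨U, hU, fun l hl hm => ?_⟩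
    match l, hl, hm with
    | x :: y :: l, _, hm =>
      have := LinearMap.congr_fun (hxy x (hm x (by simp)) y (hm y (by simp))) (dT τ b (y :: l))
      simp only [LinearMap.comp_apply] at this
      rw [Pi.sub_apply, cup_one_cons, cup_one_cons, sub_eq_zero]
      change cf'.B (a' [x, y]) (τ' x y (V y (dT τ b (y :: l)))) = cf.B (a [x, y]) _
      rw [← this, hB]
  have := Submodule.sub_mem _ e2 e1
  rw [cup_sub_right, sub_sub_sub_cancel_left] at this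
  exact this

theorem exa_of_N {a b : List S3 → G} (h : Exa (cf.br τ) 2 M (cf.red a))
    (hab : b - a ∈ N F G 2 M) : Exa (cf.br τ) 2 M (cf.red b) := by
  have := h.add (Exa.of_mem_N (cm_mem_N (pk cf.T cf.m) hab))
  rwa [← map_add, add_sub_cancel] at this

theorem ga_exa' (hV : ∀ x e, pk cf.T cf.m e = 0 → pk cf'.T cf'.m (V x e) = 0) (hc : cf.CompatT τ)
    (hc' : cf'.CompatT τ') (h : LocEq (fun x y => V x ∘ₗ τ x y) (fun x y => τ' x y ∘ₗ V y) M)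
    {a : List S3 → G} (ha : Exa (cf.br τ) 2 M (cf.red a)) :
    Exa (cf'.br τ') 2 M (cf'.red (ga V a)) := by
  obtain ⟨φ', hφ⟩ := ha
  obtain ⟨φ, rfl, -⟩ := exists_cm_lift (pk cf.T cf.m) (Submodule.mkQ_surjective _) φ'
  rw [← cf.red_dT hc, ← map_sub] at hφ
  refine ⟨cf'.red (ga V φ), ?_⟩
  have e1 := red_ga (cf' := cf') hV hφ
  have e2 := cm_mem_N (pk cf'.T cf'.m) (ga_dT_mem_N h 2 φ)
  have := Submodule.add_mem _ e1 e2
  rw [← map_add, map_sub, sub_add_sub_cancel, map_sub, cf'.red_dT hc'] at this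
  exact this

theorem lam_N (cf : Coef F G) (τ : S3 → S3 → Module.End F G) (c : List S3 → G) {a : List S3 → G}
    (h : a ∈ N F G 2 (univ : Set S3)) : cf.lam3 τ c a = 0 :=
  I3_loc (cup_mem_N_right (R₃ := F) _ _ 1 _ (dT_mem_N τ h))

end

end RTrans

open RTrans

section

variable {F G G' : Type} [Field F] [StarRing F] [AddCommGroup G] [Module F G] [AddCommGroup G']
  [Module F G']

/-- Isometries of coefficient data. -/
def CIso (cf : Coef F G) (cf' : Coef F G') (U : G ≃ₗ[F] G') : Prop :=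
  (∀ x, U (cf.T x) = cf'.T (U x)) ∧ ∀ x y, cf'.B (U x) (U y) = cf.B x y

theorem Coef.cutpull_mem (cf : Coef F G) {Φ : S3 → S3} {M : Set S3} (h : OE Φ M)
    {τ : S3 → S3 → Module.End F G} {a : List S3 → G} (ha : a ∈ cf.W3 τ (Φ '' M)) :
    tfr F G Φ M a ∈ cf.W3 (pb Φ τ) M := by
  obtain ⟨h0, K, hK, hKM, h1⟩ := ha
  rw [← compl_eq_univ_sdiff] at h1
  have h2 := tfr_mem_N h (by norm_num) hK hKM h1
  refine ⟨N_univ (M := M) ?_ (cm_mem_N _ (dT_mem_N _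
    (N_mono (compl_subset_compl.2 inter_subset_left) h2))), M ∩ Φ ⁻¹' K,
    h.isCompact_pre hK hKM, inter_subset_left, by rwa [← compl_eq_univ_sdiff]⟩
  have e1 := cm_mem_N (pk cf.T cf.m) (dT_mem_N (pb Φ τ) (tfr_sub_pull (R := F) h 2 a))
  have e2 : cf.red (pull F G Φ (dT τ a)) ∈ N F _ 3 M :=
    pull_mem_N (contAt h) (mapsTo_univ _ _) h0
  have := Submodule.add_mem _ e1 e2
  rw [← map_add, map_sub, pull_dT, sub_add_cancel] at this
  exact this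

theorem Coef.cutpull_lam (cf : Coef F G) {Φ : S3 → S3} {M : Set S3} (h : OE Φ M)
    (hd : DegOne F Φ M) {τ : S3 → S3 → Module.End F G} (hc : cf.CompatT τ)
    (hτ : IsCoc τ (Φ '' M)) {a b : List S3 → G} (ha : a ∈ cf.W3 τ (Φ '' M))
    (hb : b ∈ cf.W3 τ (Φ '' M)) :
    cf.lam3 (pb Φ τ) (tfr F G Φ M a) (tfr F G Φ M b) = cf.lam3 τ a b := by
  refine hd _ ?_ (cf.lam_closed hc (hτ.mono inter_subset_left) ha
    (N_mono (subset_univ _) hb.1)) _ ?_ ?_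
  · obtain ⟨_, K, hK, hKM, h1⟩ := ha
    rw [← compl_eq_univ_sdiff] at h1
    exact ⟨K, hK, hKM, cup_mem_N_left (p := 1) _ _ (by norm_num) h1 _⟩
  · obtain ⟨_, K, hK, hKM, h1⟩ := cf.cutpull_mem h ha
    rw [← compl_eq_univ_sdiff] at h1
    exact ⟨K, hK, hKM, cup_mem_N_left (p := 1) _ _ (by norm_num) h1 _⟩
  · rw [pull_cup (R₁ := F), pull_dT]
    have e1 : cup (biA cf.B) (pb Φ τ) 1 (tfr F G Φ M a - pull F G Φ a)
        (dT (pb Φ τ) (tfr F G Φ M b)) ∈ N F F 4 M :=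
      cup_mem_N_left (p := 1) _ _ (by norm_num) (tfr_sub_pull (R := F) h 2 a) _
    have e2 : cup (biA cf.B) (pb Φ τ) 1 (pull F G Φ a)
        (dT (pb Φ τ) (tfr F G Φ M b - pull F G Φ b)) ∈ N F F (1 + 3) M :=
      cup_mem_N_right _ _ 1 _ (dT_mem_N _ (tfr_sub_pull (R := F) h 2 b))
    have := Submodule.add_mem _ e1 e2
    rw [map_sub, cup_sub_left, cup_sub_right, sub_add_sub_cancel] at this
    exact this

theorem Coef.cutpull_surj (cf : Coef F G) {Φ : S3 → S3} {M : Set S3} (h : OE Φ M)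
    {τ : S3 → S3 → Module.End F G} {a : List S3 → G} (ha : a ∈ cf.W3 (pb Φ τ) M) :
    ∃ a' ∈ cf.W3 τ (Φ '' M), a - tfr F G Φ M a' ∈ N F G 2 (univ : Set S3) := by
  have : Nonempty S3 := ⟨⟨(1, 0), by simp⟩⟩
  obtain ⟨Ψ, hΨ, h1, h2⟩ := h.exists_inv
  have him : Ψ '' (Φ '' M) = M := by
    rw [image_image]
    exact (image_congr h1).trans (image_id' M)
  have hm : tfr F G Ψ (Φ '' M) a ∈ cf.W3 τ (Φ '' M) := by
    have := cf.cutpull_mem hΨ (τ := pb Φ τ) (a := a) (by rwa [him])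
    have hl : LocEq (pb (Φ ∘ Ψ) τ) τ (Φ '' M ∩ univ) :=
      locEq_pb_of_id τ fun p hp =>
        Filter.mem_of_superset (hΨ.isOpen.mem_nhds hp.1) fun y hy => h2 y hy
    rwa [Coef.W3, ← cf.W_congr hl]
  refine ⟨_, hm, N_univ (M := M) ?_
    (Submodule.sub_mem _ (W3_compl ha) (W3_compl (cf.cutpull_mem h hm)))⟩
  have e1 := tfr_sub_pull (R := F) h 2 (tfr F G Ψ (Φ '' M) a)
  have e2 := pull_mem_N (contAt h) (mapsTo_image Φ M) (tfr_sub_pull (R := F) hΨ 2 a)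
  have e3 := pull_sub_mem_N (R := F) (j := Ψ ∘ Φ) (S := M) (fun p hp =>
    Filter.mem_of_superset (h.isOpen.mem_nhds hp) fun y hy => h1 y hy) 2 a
  have := Submodule.neg_mem _ (Submodule.add_mem _ (Submodule.add_mem _ e1 e2) e3)
  rw [map_sub, pull_pull, sub_add_sub_cancel, sub_add_sub_cancel, neg_sub] at this
  exact this

theorem Coef.nondeg_pull (cf : Coef F G) {Φ : S3 → S3} {M : Set S3} (h : OE Φ M)
    (hd : DegOne F Φ M) {τ : S3 → S3 → Module.End F G} (hc : cf.CompatT τ)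
    (hτ : IsCoc τ (Φ '' M)) (hn : cf.Nondeg τ (Φ '' M)) : cf.Nondeg (pb Φ τ) M := by
  intro a ha hr
  obtain ⟨a', ha', he⟩ := cf.cutpull_surj h ha
  have h1 : Exa (cf.br τ) 2 (Φ '' M) (cf.red a') := hn a' ha' fun b hb => by
    rw [← cf.cutpull_lam h hd hc hτ hb ha', ← hr _ (cf.cutpull_mem h hb)]
    exact (cf.lam_congr_right isInt_I3 _ he).symm
  have h2 : Exa (cf.br (pb Φ τ)) 2 M (cf.red (pull F G Φ a')) := (h.exa_iff _ 2 _).2 h1
  refine exa_of_N h2 ?_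
  have := Submodule.add_mem _ (N_mono (subset_univ M) he) (tfr_sub_pull (R := F) h 2 a')
  rwa [sub_add_sub_cancel] at this

variable {cf : Coef F G} {cf' : Coef F G'} {τ : S3 → S3 → Module.End F G}
  {τ' : S3 → S3 → Module.End F G'} {M : Set S3} {U : S3 → G ≃ₗ[F] G'}

theorem RTrans.ciso_symm {e : G ≃ₗ[F] G'} (h : CIso cf cf' e) : CIso cf' cf e.symm :=
  ⟨fun x => e.injective (by rw [h.1]; simp), fun x y => by rw [← h.2]; simp⟩

theorem RTrans.ciso_pk (hm : cf.m = cf'.m) (hU : ∀ x, CIso cf cf' (U x)) (x : S3) (e : G)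
    (he : pk cf.T cf.m e = 0) : pk cf'.T cf'.m ((U x : G →ₗ[F] G') e) = 0 := by
  rw [← hm]
  exact pk_map (U x) 1 (fun y => by rw [(hU x).1, one_smul]) _ he

omit [StarRing F] in
theorem RTrans.loc_symm
    (h : LocEq (fun x y => (U x : G →ₗ[F] G') ∘ₗ τ x y) (fun x y => τ' x y ∘ₗ (U y : G →ₗ[F] G')) M) :
    LocEq (fun x y => ((U x).symm : G' →ₗ[F] G) ∘ₗ τ' x y)
      (fun x y => τ x y ∘ₗ ((U y).symm : G' →ₗ[F] G)) M := by
  intro p hp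
  obtain ⟨W, hW, hxy⟩ := h p hp
  refine ⟨W, hW, fun x hx y hy => LinearMap.ext fun e => (U x).injective ?_⟩
  simpa using (LinearMap.congr_fun (hxy x hx y hy) ((U y).symm e)).symm

omit [StarRing F] in
theorem RTrans.sub_ga_ga (S : Set S3) (a : List S3 → G) :
    a - ga (fun x => ((U x).symm : G' →ₗ[F] G)) (ga (fun x => (U x : G →ₗ[F] G')) a) ∈
      N F G 2 S :=
  N_of_cons S fun x _ => sub_eq_zero.2 ((U x).symm_apply_apply _).symm

theorem ga_mem_W3 (hm : cf.m = cf'.m) (hU : ∀ x, CIso cf cf' (U x))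
    (h : LocEq (fun x y => (U x : G →ₗ[F] G') ∘ₗ τ x y) (fun x y => τ' x y ∘ₗ (U y : G →ₗ[F] G')) M)
    {a : List S3 → G} (ha : a ∈ cf.W3 τ M) : ga (fun x => (U x : G →ₗ[F] G')) a ∈ cf'.W3 τ' M :=
  ga_W3 (ciso_pk hm hU) h ha

theorem ga_lam3 (hU : ∀ x, CIso cf cf' (U x))
    (h : LocEq (fun x y => (U x : G →ₗ[F] G') ∘ₗ τ x y) (fun x y => τ' x y ∘ₗ (U y : G →ₗ[F] G')) M)
    {a : List S3 → G} (ha : a ∈ cf.W3 τ M) (b : List S3 → G) :
    cf'.lam3 τ' (ga (fun x => (U x : G →ₗ[F] G')) a) (ga (fun x => (U x : G →ₗ[F] G')) b) =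
      cf.lam3 τ a b :=
  ga_lam h (W3_compl ha) (ga_mem_N _ (W3_compl ha)) (fun x _ e => (hU x).2 _ e) b

theorem ga_exa (hm : cf.m = cf'.m) (hU : ∀ x, CIso cf cf' (U x)) (hc : cf.CompatT τ)
    (hc' : cf'.CompatT τ')
    (h : LocEq (fun x y => (U x : G →ₗ[F] G') ∘ₗ τ x y) (fun x y => τ' x y ∘ₗ (U y : G →ₗ[F] G')) M)
    (a : List S3 → G) : Exa (cf.br τ) 2 M (cf.red a) ↔
      Exa (cf'.br τ') 2 M (cf'.red (ga (fun x => (U x : G →ₗ[F] G')) a)) :=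
  ⟨ga_exa' (ciso_pk hm hU) hc hc' h, fun g => exa_of_N
    (ga_exa' (ciso_pk hm.symm fun x => ciso_symm (hU x)) hc' hc (loc_symm h) g) (sub_ga_ga M a)⟩

theorem nondeg_gauge (hm : cf.m = cf'.m) (hU : ∀ x, CIso cf cf' (U x)) (hc : cf.CompatT τ)
    (hc' : cf'.CompatT τ')
    (h : LocEq (fun x y => (U x : G →ₗ[F] G') ∘ₗ τ x y) (fun x y => τ' x y ∘ₗ (U y : G →ₗ[F] G')) M)
    (hn : cf.Nondeg τ M) : cf'.Nondeg τ' M := by
  intro a ha hr
  have hU' := fun x => ciso_symm (hU x)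
  refine (ga_exa hm.symm hU' hc' hc (loc_symm h) a).2
    (hn _ (ga_mem_W3 hm.symm hU' (loc_symm h) ha) fun b hb => ?_)
  rw [← hr _ (ga_mem_W3 hm hU h hb)]
  refine ga_lam (loc_symm h) (ga_mem_N _ (W3_compl hb)) (W3_compl hb) (fun x y e => ?_) a
  exact ((hU x).2 _ _).symm.trans (congrArg _ ((U x).apply_symm_apply e))

end

namespace RTrans

section Mult

variable {F W W' : Type} [Field F] [AddCommGroup W] [Module F W] [AddCommGroup W'] [Module F W']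

/-- Change of the fibre of the model module. -/
noncomputable abbrev mr (f : W →ₗ[F] W') : (ℤ →₀ W) →ₗ[F] (ℤ →₀ W') := Finsupp.mapRange.linearMap f

theorem mr_shp (f : W →ₗ[F] W') (k : ℤ) (x : ℤ →₀ W) :
    mr f (shp F W k x) = shp F W' k (mr f x) := by
  ext j
  simp [shp_apply]

theorem mr_Tm (f : W →ₗ[F] W') (p : ℕ) (z₀ : F) (x : ℤ →₀ W) :
    mr f (Tm F W p z₀ x) = Tm F W' p z₀ (mr f x) := by
  simp only [Tm, LinearMap.sub_apply, LinearMap.smul_apply, Module.End.one_apply, map_sub,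
    map_smul, mr_shp]

theorem mr_pk (f : W →ₗ[F] W') (p : ℕ) (z₀ : F) (k : ℕ) {e : ℤ →₀ W}
    (he : pk (Tm F W p z₀) k e = 0) : pk (Tm F W' p z₀) k (mr f e) = 0 := by
  exact pk_map (mr f) 1 (fun y => by rw [mr_Tm, one_smul]) k he

theorem mr_loc (f : W →ₗ[F] W') (u v : Fˣ) (h θ₁ θ₂ : S3 → S3 → ℤ) (M : Set S3) :
    LocEq (fun x y => (fun _ => mr f) x ∘ₗ mtau F W u v h θ₁ θ₂ x y)
      (fun x y => mtau F W' u v h θ₁ θ₂ x y ∘ₗ (fun _ => mr f) y) M := fun _ _ =>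
  ⟨univ, Filter.univ_mem, fun x _ y _ => LinearMap.ext fun e => by
    simp only [mtau, LinearMap.comp_apply, LinearMap.smul_apply, map_smul, mr_shp]⟩

theorem mm (u v : Fˣ) (a b c a' b' c' : ℤ) :
    (((u ^ b * v ^ c : Fˣ) : F) • shp F W a) * (((u ^ b' * v ^ c' : Fˣ) : F) • shp F W a') =
      ((u ^ (b + b') * v ^ (c + c') : Fˣ) : F) • shp F W (a + a') := by
  rw [smul_mul_smul_comm, ← shp_add, ← Units.val_mul, zpow_add, zpow_add, mul_mul_mul_comm]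

variable [StarRing F]

theorem unit_zpow {u : Fˣ} (hu : (u : F) * star (u : F) = 1) (k : ℤ) :
    star ((u ^ k : Fˣ) : F) = ((u⁻¹ ^ k : Fˣ) : F) := by
  rw [Units.val_zpow_eq_zpow_val, Units.val_zpow_eq_zpow_val, star_zpow₀, Units.val_inv_eq_inv_val,
    eq_inv_of_mul_eq_one_right hu]

theorem unit_uv {u v : Fˣ} (hu : (u : F) * star (u : F) = 1) (hv : (v : F) * star (v : F) = 1)
    (j k : ℤ) : star ((u ^ j * v ^ k : Fˣ) : F) = ((u⁻¹ ^ j * v⁻¹ ^ k : Fˣ) : F) := by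
  rw [Units.val_mul, star_mul', unit_zpow hu, unit_zpow hv, Units.val_mul]

theorem Bm_adjoint {n₀ : ℕ} (i : Fin n₀) (p m : ℕ) (z₀ : F) (x : ℤ →₀ (Fin n₀ → F)) (y : ℤ →₀ F) :
    Bm (Hstd F (Fin n₀)) p m z₀ x (mr (LinearMap.single F (fun _ => F) i) y) =
      Bm (H1 F) p m z₀ (mr (LinearMap.proj (R := F) i) x) y := by
  induction x using Finsupp.induction_linear with
  | zero => simp
  | add x x' h h' => simp only [map_add, LinearMap.add_apply, h, h']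
  | single k w =>
    induction y using Finsupp.induction_linear with
    | zero => simp
    | add y y' h h' => simp only [map_add, h, h']
    | single k' c =>
      simp only [mr, Finsupp.mapRange.linearMap_apply, Finsupp.mapRange_single, Bm_single]
      congr 1
      simp [Hstd, H1, Pi.single_apply, apply_ite (star : F → F)]

omit [StarRing F] in
theorem proj_single {n₀ : ℕ} (i j : Fin n₀) (y : ℤ →₀ F) :
    mr (LinearMap.proj (R := F) i) (mr (LinearMap.single F (fun _ => F) j) y) =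
      if i = j then y else 0 := by
  ext k
  split_ifs with h <;> simp [h]

omit [StarRing F] in
theorem sum_single_proj {n₀ : ℕ} (x : ℤ →₀ (Fin n₀ → F)) :
    ∑ i, mr (LinearMap.single F (fun _ => F) i) (mr (LinearMap.proj (R := F) i) x) = x := by
  ext k j
  simp [Finsupp.finsetSum_apply, Finset.sum_apply, Pi.single_apply]

end Mult

section Conj

/-- Twisted complex conjugation on the scalar model. -/
noncomputable def kap (s₀ : ℂ) : (ℤ →₀ ℂ) →ₗ⋆[ℂ] (ℤ →₀ ℂ) where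
  toFun x := Finsupp.onFinset x.support (fun k => star (x k) * s₀ ^ (-2 * k))
    (fun k hk => Finsupp.mem_support_iff.2 fun h => hk (by simp [h]))
  map_add' x y := by ext k; simp [add_mul]
  map_smul' c x := by ext k; simp [mul_assoc]

theorem kap_apply (s₀ : ℂ) (x : ℤ →₀ ℂ) (k : ℤ) : kap s₀ x k = star (x k) * s₀ ^ (-2 * k) := rfl

theorem kap_single (s₀ : ℂ) (k : ℤ) (c : ℂ) :
    kap s₀ (Finsupp.single k c) = Finsupp.single k (star c * s₀ ^ (-2 * k)) := by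
  ext j
  rw [kap_apply]
  by_cases h : k = j
  · subst h; simp
  · simp [h]

variable {s₀ : ℂ}

theorem kap_kap (h0 : s₀ ≠ 0) (hs : star s₀ = s₀⁻¹) (x : ℤ →₀ ℂ) : kap s₀ (kap s₀ x) = x := by
  ext k
  rw [kap_apply, kap_apply, star_mul', star_star, star_zpow₀, hs, inv_zpow, mul_assoc,
    inv_mul_cancel₀ (zpow_ne_zero _ h0), mul_one]

theorem kap_shp (h0 : s₀ ≠ 0) (j : ℤ) (x : ℤ →₀ ℂ) :
    kap s₀ (shp ℂ ℂ j x) = s₀ ^ (-2 * j) • shp ℂ ℂ j (kap s₀ x) := by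
  ext k
  rw [kap_apply, Finsupp.smul_apply, shp_apply, shp_apply, kap_apply, smul_eq_mul, mul_left_comm,
    ← zpow_add₀ h0]
  congr 2
  ring

theorem kap_Tm (h0 : s₀ ≠ 0) (hs : star s₀ = s₀⁻¹) (p : ℕ) (x : ℤ →₀ ℂ) :
    kap s₀ (Tm ℂ ℂ p (s₀ ^ p) x) = s₀ ^ (-2 * (p : ℤ)) • Tm ℂ ℂ p (s₀ ^ p) (kap s₀ x) := by
  simp only [Tm, LinearMap.sub_apply, LinearMap.smul_apply, Module.End.one_apply, map_sub,
    map_smulₛₗ, kap_shp h0, smul_sub, smul_smul]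
  congr 2
  rw [starRingEnd_apply, star_pow, hs, ← zpow_natCast, ← zpow_natCast, inv_zpow', ← zpow_add₀ h0]
  congr 1
  ring

theorem kap_Bm (h0 : s₀ ≠ 0) (hs : star s₀ = s₀⁻¹) (p m : ℕ) (x y : ℤ →₀ ℂ) :
    Bm (H1 ℂ) p m (s₀ ^ p) (kap s₀ x) (kap s₀ y) = star (Bm (H1 ℂ) p m (s₀ ^ p) x y) := by
  induction x using Finsupp.induction_linear with
  | zero => simp
  | add x x' h h' => simp only [map_add, LinearMap.add_apply, h, h', star_add]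
  | single k w =>
    induction y using Finsupp.induction_linear with
    | zero => simp
    | add y y' h h' => simp only [map_add, h, h', star_add]
    | single k' c =>
      rw [kap_single, kap_single, Bm_single, Bm_single]
      change wt p m (s₀ ^ p) k k' * (star w * s₀ ^ (-2 * k) * star (star c * s₀ ^ (-2 * k'))) =
        star (wt p m (s₀ ^ p) k k' * (w * star c))
      unfold wt
      split_ifs with hd
      · generalize hj : (k - k') / (p : ℤ) = j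
        have hk : k = k' + p * j := by
          have := Int.mul_ediv_cancel' hd
          rw [hj] at this
          linarith
        have e : (s₀ ^ p) ^ j * (s₀ ^ (-2 * k) * s₀⁻¹ ^ (-2 * k')) = (s₀⁻¹ ^ p) ^ j := by
          rw [← zpow_natCast, ← zpow_natCast, ← zpow_mul, ← zpow_mul, inv_zpow', inv_zpow',
            ← zpow_add₀ h0, ← zpow_add₀ h0, hk]
          congr 1
          ring
        simp only [star_mul', star_star, star_zpow₀, star_pow, star_intCast, hs]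
        rw [← e]
        ring
      · simp

/-- Conjugation of cochains. -/
noncomputable def cj (s₀ : ℂ) : (List S3 → (ℤ →₀ ℂ)) →ₗ⋆[ℂ] (List S3 → (ℤ →₀ ℂ)) where
  toFun a := fun l => kap s₀ (a l)
  map_add' a b := by funext l; simp
  map_smul' c a := by funext l; simp

variable {τ τ' : S3 → S3 → Module.End ℂ (ℤ →₀ ℂ)} {p m : ℕ} {M : Set S3}

theorem cj_dT (h : ∀ x y e, kap s₀ (τ x y e) = τ' x y (kap s₀ e)) (a : List S3 → (ℤ →₀ ℂ)) :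
    dT τ' (cj s₀ a) = cj s₀ (dT τ a) :=
  (add_dT (kap s₀).toAddMonoidHom τ τ' h a).symm

theorem cj_W3 (h0 : s₀ ≠ 0) (hs : star s₀ = s₀⁻¹) (hp : CP ℂ p m (s₀ ^ p))
    (h : ∀ x y e, kap s₀ (τ x y e) = τ' x y (kap s₀ e)) {a : List S3 → (ℤ →₀ ℂ)}
    (ha : a ∈ (cf1 hp).W3 τ M) : cj s₀ a ∈ (cf1 hp).W3 τ' M := by
  obtain ⟨h1, K, hK, hKM, h2⟩ := ha
  refine ⟨?_, K, hK, hKM, map_mem_N h2 fun l hl => ?_⟩
  · rw [cj_dT h]
    exact map_mem_N h1 fun l hl => pk_map (kap s₀) _ (kap_Tm h0 hs p) m hl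
  · change kap s₀ (a l) = 0
    rw [hl, map_zero]

theorem cj_cup (h0 : s₀ ≠ 0) (hs : star s₀ = s₀⁻¹) (hp : CP ℂ p m (s₀ ^ p))
    (h : ∀ x y e, kap s₀ (τ x y e) = τ' x y (kap s₀ e)) (a c : List S3 → (ℤ →₀ ℂ)) :
    cup (biA (cf1 hp).B) τ' 1 (cj s₀ a) (cj s₀ c) =
      fun l => star (cup (biA (cf1 hp).B) τ 1 a c l) := by
  funext l
  match l with
  | [] => exact kap_Bm h0 hs p m _ _
  | [_] => exact kap_Bm h0 hs p m _ _
  | x :: y :: l =>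
    rw [cup_one_cons, cup_one_cons]
    exact (congrArg _ (h x y _).symm).trans (kap_Bm h0 hs p m _ _)

end Conj

end RTrans

section Complex

variable {G G' : Type} [AddCommGroup G] [Module ℂ G] [AddCommGroup G'] [Module ℂ G']
  {cf : Coef ℂ G} {cf' : Coef ℂ G'} {τ : S3 → S3 → Module.End ℂ G}
  {τ' : S3 → S3 → Module.End ℂ G'} {M : Set S3}

theorem sig3_pull {Φ : S3 → S3} (h : OE Φ M) (hd : DegOne ℂ Φ M) (hc : cf.CompatT τ)
    (hτ : IsCoc τ (Φ '' M)) (s : ℤ) : Sig3 cf τ (Φ '' M) s ↔ Sig3 cf (pb Φ τ) M s :=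
  HasSig.map (cf.isSkew3 hc hτ) (cf.isSkew3 (hc.pb Φ) (hτ.pb (contAt h) (mapsTo_image Φ M)))
    (tfr ℂ G Φ M) (fun _ ha => cf.cutpull_mem h ha)
    (fun _ ha _ hb => cf.cutpull_lam h hd hc hτ ha hb)
    (fun _ ha => let ⟨a, ha', he⟩ := cf.cutpull_surj h ha; ⟨a, ha', fun c _ => lam_N cf _ c he⟩) s

theorem sig3_gauge {U : S3 → G ≃ₗ[ℂ] G'} (hm : cf.m = cf'.m) (hU : ∀ x, CIso cf cf' (U x))
    (hc : cf.CompatT τ) (hc' : cf'.CompatT τ') (hτ : IsCoc τ M) (hτ' : IsCoc τ' M)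
    (h : LocEq (fun x y => (U x : G →ₗ[ℂ] G') ∘ₗ τ x y) (fun x y => τ' x y ∘ₗ (U y : G →ₗ[ℂ] G')) M)
    (s : ℤ) : Sig3 cf τ M s ↔ Sig3 cf' τ' M s :=
  HasSig.map (cf.isSkew3 hc hτ) (cf'.isSkew3 hc' hτ') (ga fun x => (U x : G →ₗ[ℂ] G'))
    (fun _ ha => ga_mem_W3 hm hU h ha) (fun _ ha b _ => ga_lam3 hU h ha b)
    (fun a ha => ⟨_, ga_mem_W3 hm.symm (fun x => ciso_symm (hU x)) (loc_symm h) ha, fun c _ =>
      lam_N cf' _ c (sub_ga_ga (U := fun x => (U x).symm) univ a)⟩) s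

theorem RTrans.gauge_self {τ' : S3 → S3 → Module.End ℂ G} {V : S3 → Module.End ℂ G}
    (hV : ∀ x, cf.Compat (V x)) (hb : ∀ x, ∃ e : G ≃ₗ[ℂ] G, (e : G →ₗ[ℂ] G) = V x)
    (hc : cf.CompatT τ) (hc' : cf.CompatT τ') (hτ : IsCoc τ M) (hτ' : IsCoc τ' M)
    (h : LocEq (fun x y => V x * τ x y) (fun x y => τ' x y * V y) M) :
    (∀ s, Sig3 cf τ M s ↔ Sig3 cf τ' M s) ∧ (cf.Nondeg τ M ↔ cf.Nondeg τ' M) := by
  choose U hU using hb
  obtain rfl : (fun x => (U x : G →ₗ[ℂ] G)) = V := funext hU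
  have hi : ∀ x, CIso cf cf (U x) := fun x =>
    ⟨fun e => LinearMap.congr_fun (hV x).1.eq e, (hV x).2.2⟩
  exact ⟨sig3_gauge rfl hi hc hc' hτ hτ' h, nondeg_gauge rfl hi hc hc' h,
    nondeg_gauge rfl (fun x => ciso_symm (hi x)) hc' hc (loc_symm h)⟩

theorem sig3_tr_gauge {Γ : Type} [Group Γ] {ρ : Representation ℂ Γ G} (hρ : ∀ γ, cf.Compat (ρ γ))
    {f f' : S3 → S3 → Γ} (hf : IsCoc f M) (hg : Gauge f f' M) :
    (∀ s, Sig3 cf (tr ρ f) M s ↔ Sig3 cf (tr ρ f') M s) ∧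
      (cf.Nondeg (tr ρ f) M → cf.Nondeg (tr ρ f') M) := by
  have hf' := hg.isCoc hf
  obtain ⟨g, hg⟩ := hg
  have := gauge_self (cf := cf) (τ := tr ρ f) (τ' := tr ρ f') (V := fun x => ρ (g x))
    (fun x => hρ _) (fun x => ⟨LinearEquiv.ofLinearMap (ρ (g x)) (ρ (g x)⁻¹)
      (by rw [← Module.End.mul_eq_comp, ← map_mul, mul_inv_cancel, map_one]; rfl)
      (by rw [← Module.End.mul_eq_comp, ← map_mul, inv_mul_cancel, map_one]; rfl), rfl⟩)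
    (fun _ _ => hρ _) (fun _ _ => hρ _) (hf.tr ρ) (hf'.tr ρ) fun p hp => by
      obtain ⟨U, hU, hxy⟩ := hg p hp
      refine ⟨U, hU, fun x hx y hy => ?_⟩
      simp only [tr, ← map_mul, ← hxy x hx y hy, inv_mul_cancel_right]
  exact ⟨this.1, this.2.1⟩

/-- A constant periodic monomial isometry of degree zero. -/
theorem sig3_pm {n₀ p m : ℕ} {z₀ : ℂ} (hp : CP ℂ p m z₀)
    {τ τ' : S3 → S3 → Module.End ℂ (ℤ →₀ (Fin n₀ → ℂ))} (hc : (cfn n₀ hp).CompatT τ)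
    (hc' : (cfn n₀ hp).CompatT τ') (hτ : IsCoc τ M) (hτ' : IsCoc τ' M)
    {U : Module.End ℂ (ℤ →₀ (Fin n₀ → ℂ))} (hU : IsPM (Hstd ℂ (Fin n₀)) p 0 U)
    (h : ∀ x y, U * τ x y = τ' x y * U) :
    (∀ s, Sig3 (cfn n₀ hp) τ M s ↔ Sig3 (cfn n₀ hp) τ' M s) ∧
      ((cfn n₀ hp).Nondeg τ M ↔ (cfn n₀ hp).Nondeg τ' M) :=
  gauge_self (V := fun _ => U) (fun _ => hU.compat hp)
    (fun _ => let ⟨e, he, _⟩ := hU.exists_equiv; ⟨e, he⟩) hc hc' hτ hτ'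
    fun _ _ => ⟨univ, Filter.univ_mem, fun x _ y _ => h x y⟩

variable {p m : ℕ} {z₀ : ℂ} {u v : ℂˣ} {h h' θ₁ θ₁' θ₂ θ₂' : S3 → S3 → ℤ}

theorem sig3_mtau_cohA {W : Type} [AddCommGroup W] [Module ℂ W] [FiniteDimensional ℂ W]
    {H : W →ₗ[ℂ] W →ₗ⋆[ℂ] ℂ} (hH : IsHerm H) (hp : CP ℂ p m z₀)
    (hu : (u : ℂ) * star (u : ℂ) = 1) (hv : (v : ℂ) * star (v : ℂ) = 1) (hh : IsCocA h M)
    (h₁ : IsCocA θ₁ M) (h₂ : IsCocA θ₂ M) (c : CohA h h' M) (c₁ : CohA θ₁ θ₁' M)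
    (c₂ : CohA θ₂ θ₂' M) :
    (∀ s, Sig3 (coefM hH hp) (mtau ℂ W u v h θ₁ θ₂) M s ↔
      Sig3 (coefM hH hp) (mtau ℂ W u v h' θ₁' θ₂') M s) ∧
    ((coefM hH hp).Nondeg (mtau ℂ W u v h θ₁ θ₂) M →
      (coefM hH hp).Nondeg (mtau ℂ W u v h' θ₁' θ₂') M) := by
  have hτ' := isCoc_mtau (W := W) u v (c.symm.isCocA hh) (c₁.symm.isCocA h₁) (c₂.symm.isCocA h₂)
  obtain ⟨g, hg⟩ := c
  obtain ⟨g₁, hg₁⟩ := c₁
  obtain ⟨g₂, hg₂⟩ := c₂
  have hpm : ∀ x, IsPM H p (g x) (((u ^ g₁ x * v ^ g₂ x : ℂˣ) : ℂ) • shp ℂ W (g x)) := fun x =>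
    (isPM_shp (g x)).smul (by
      rw [unit_uv hu hv, ← Units.val_mul, inv_zpow, inv_zpow, ← mul_inv, mul_inv_cancel,
        Units.val_one])
  have := gauge_self (cf := coefM hH hp) (fun x => (hpm x).compat hp)
    (fun x => let ⟨e, he, _⟩ := (hpm x).exists_equiv; ⟨e, he⟩) (compatT_mtau hp hu hv _ _ _)
    (compatT_mtau hp hu hv _ _ _) (isCoc_mtau u v hh h₁ h₂) hτ' fun q hq => by
      obtain ⟨U, hU, e⟩ := hg q hq
      obtain ⟨U₁, hU₁, e₁⟩ := hg₁ q hq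
      obtain ⟨U₂, hU₂, e₂⟩ := hg₂ q hq
      refine ⟨U ∩ (U₁ ∩ U₂), Filter.inter_mem hU (Filter.inter_mem hU₁ hU₂), fun x hx y hy => ?_⟩
      have a := e x hx.1 y hy.1
      have a₁ := e₁ x hx.2.1 y hy.2.1
      have a₂ := e₂ x hx.2.2 y hy.2.2
      simp only [mtau, mm] at a a₁ a₂ ⊢
      rw [show g x + h x y = h' x y + g y by linarith,
        show g₁ x + θ₁ x y = θ₁' x y + g₁ y by linarith,
        show g₂ x + θ₂ x y = θ₂' x y + g₂ y by linarith]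
  exact ⟨this.1, this.2.1⟩

section Mult

variable {n₀ : ℕ}

/-- Inclusion of the `i`-th summand on cochains. -/
noncomputable def RTrans.inc (i : Fin n₀) :
    (List S3 → (ℤ →₀ ℂ)) →ₗ[ℂ] (List S3 → (ℤ →₀ (Fin n₀ → ℂ))) :=
  ga fun _ => mr (LinearMap.single ℂ (fun _ => ℂ) i)

/-- Projection to the `i`-th summand on cochains. -/
noncomputable def RTrans.prj (i : Fin n₀) :
    (List S3 → (ℤ →₀ (Fin n₀ → ℂ))) →ₗ[ℂ] (List S3 → (ℤ →₀ ℂ)) :=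
  ga fun _ => mr (LinearMap.proj (R := ℂ) i)

theorem RTrans.inc_W3 (hp : CP ℂ p m z₀) (i : Fin n₀) {a : List S3 → (ℤ →₀ ℂ)}
    (ha : a ∈ (cf1 hp).W3 (mtau ℂ ℂ u v h θ₁ θ₂) M) :
    inc i a ∈ (cfn n₀ hp).W3 (mtau ℂ (Fin n₀ → ℂ) u v h θ₁ θ₂) M :=
  ga_W3 (cf := cf1 hp) (cf' := cfn n₀ hp) (fun _ _ he => mr_pk _ p z₀ m he)
    (mr_loc _ u v h θ₁ θ₂ M) ha

theorem RTrans.prj_W3 (hp : CP ℂ p m z₀) (i : Fin n₀) {a : List S3 → (ℤ →₀ (Fin n₀ → ℂ))}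
    (ha : a ∈ (cfn n₀ hp).W3 (mtau ℂ (Fin n₀ → ℂ) u v h θ₁ θ₂) M) :
    prj i a ∈ (cf1 hp).W3 (mtau ℂ ℂ u v h θ₁ θ₂) M :=
  ga_W3 (cf := cfn n₀ hp) (cf' := cf1 hp) (fun _ _ he => mr_pk _ p z₀ m he)
    (mr_loc _ u v h θ₁ θ₂ M) ha

theorem RTrans.lam_inc (hp : CP ℂ p m z₀) (i : Fin n₀) {c : List S3 → (ℤ →₀ (Fin n₀ → ℂ))}
    (hc : c ∈ (cfn n₀ hp).W3 (mtau ℂ (Fin n₀ → ℂ) u v h θ₁ θ₂) M) (b : List S3 → (ℤ →₀ ℂ)) :
    (cfn n₀ hp).lam3 (mtau ℂ (Fin n₀ → ℂ) u v h θ₁ θ₂) c (inc i b) =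
      (cf1 hp).lam3 (mtau ℂ ℂ u v h θ₁ θ₂) (prj i c) b :=
  ga_lam (cf := cf1 hp) (cf' := cfn n₀ hp) (a := prj i c) (a' := c) (mr_loc _ u v h θ₁ θ₂ M)
    (ga_mem_N _ (W3_compl hc)) (W3_compl hc) (fun x y e => Bm_adjoint i p m z₀ (c [x, y]) e) b

theorem RTrans.prj_inc (i : Fin n₀) (a : List S3 → (ℤ →₀ ℂ)) (S : Set S3) :
    a - prj i (inc i a) ∈ N ℂ (ℤ →₀ ℂ) 2 S :=
  N_of_cons S fun x l => sub_eq_zero.2 ((proj_single i i (a (x :: l))).trans (if_pos rfl)).symm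

theorem RTrans.prj_inc_ne {i j : Fin n₀} (hij : i ≠ j) (a : List S3 → (ℤ →₀ ℂ)) (S : Set S3) :
    prj j (inc i a) - 0 ∈ N ℂ (ℤ →₀ ℂ) 2 S :=
  N_of_cons S fun x l => sub_eq_zero.2 ((proj_single j i (a (x :: l))).trans (if_neg hij.symm))

theorem RTrans.sum_inc (a : List S3 → (ℤ →₀ (Fin n₀ → ℂ))) (S : Set S3) :
    a - ∑ i, inc i (prj i a) ∈ N ℂ (ℤ →₀ (Fin n₀ → ℂ)) 2 S :=
  N_of_cons S fun x l => by
    rw [Pi.sub_apply, Finset.sum_apply, sub_eq_zero]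
    exact (sum_single_proj (a (x :: l))).symm

end Mult

theorem sig3_mult {n₀ : ℕ} (hn : 0 < n₀) (hp : CP ℂ p m z₀) (hu : (u : ℂ) * star (u : ℂ) = 1)
    (hv : (v : ℂ) * star (v : ℂ) = 1) (hh : IsCocA h M) (h₁ : IsCocA θ₁ M) (h₂ : IsCocA θ₂ M) :
    (∀ s, Sig3 (cfn n₀ hp) (mtau ℂ (Fin n₀ → ℂ) u v h θ₁ θ₂) M s →
      ∃ s', Sig3 (cf1 hp) (mtau ℂ ℂ u v h θ₁ θ₂) M s' ∧ s = n₀ * s') ∧
    ((cfn n₀ hp).Nondeg (mtau ℂ (Fin n₀ → ℂ) u v h θ₁ θ₂) M →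
      (cf1 hp).Nondeg (mtau ℂ ℂ u v h θ₁ θ₂) M) := by
  have cn : (cfn n₀ hp).CompatT (mtau ℂ (Fin n₀ → ℂ) u v h θ₁ θ₂) := compatT_mtau hp hu hv _ _ _
  have c1 : (cf1 hp).CompatT (mtau ℂ ℂ u v h θ₁ θ₂) := compatT_mtau hp hu hv _ _ _
  have kn := (cfn n₀ hp).isSkew3 cn (isCoc_mtau u v hh h₁ h₂)
  have k1 := (cf1 hp).isSkew3 c1 (isCoc_mtau u v hh h₁ h₂)
  refine ⟨fun s hs => ?_, fun hN a ha hr => ?_⟩
  · have hle : ∀ i : Fin n₀, ((cf1 hp).W3 (mtau ℂ ℂ u v h θ₁ θ₂) M).map (inc i) ≤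
        (cfn n₀ hp).W3 (mtau ℂ (Fin n₀ → ℂ) u v h θ₁ θ₂) M := by
      rintro i _ ⟨a, ha, rfl⟩
      exact inc_W3 hp i ha
    have hiff := fun (i : Fin n₀) (s' : ℤ) =>
      HasSig.map k1 (kn.mono (hle i)) (inc i) (fun a ha => ⟨a, ha, rfl⟩)
        (fun a ha b _ => (lam_inc hp i (inc_W3 hp i ha) b).trans
          ((cf1 hp).lam_congr_left isInt_I3 (prj_inc i a univ) b).symm)
        (by
          rintro _ ⟨a, ha, rfl⟩
          exact ⟨a, ha, fun c _ => by rw [sub_self]; exact kn.zero_right c⟩) s'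
    obtain ⟨s', hs'⟩ := HasSig.exists_sub kn hs (hle ⟨0, hn⟩)
    have g := (hiff _ _).2 hs'
    refine ⟨s', g, ?_⟩
    have := HasSig.sum kn hle (s := fun _ => s') ?_ ?_ fun i => (hiff i s').1 g
    · rw [HasSig.unique kn hs this]
      simp
    · rintro i j hij _ ⟨a, ha, rfl⟩ _ ⟨b, -, rfl⟩
      rw [lam_inc hp j (inc_W3 hp i ha), ← k1.zero_left b]
      exact (cf1 hp).lam_congr_left isInt_I3 (prj_inc_ne hij a univ) b
    · exact fun a ha => ⟨fun i => inc i (prj i a), fun i => ⟨_, prj_W3 hp i ha, rfl⟩,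
        fun c _ => lam_N _ _ c (sum_inc a univ)⟩
  · have h1 := hN _ (inc_W3 hp ⟨0, hn⟩ ha) fun c hc =>
      (lam_inc hp _ hc a).trans (hr _ (prj_W3 hp _ hc))
    exact exa_of_N (ga_exa' (cf := cfn n₀ hp) (cf' := cf1 hp) (fun _ _ he => mr_pk _ p z₀ m he)
      cn c1 (mr_loc _ u v h θ₁ θ₂ M) h1) (prj_inc _ a M)

theorem sig3_conj {s₀ : ℂ} (hs : ‖s₀‖ = 1) {w : ℤ} (hw : s₀ ^ w = 1) (hp : CP ℂ p m (s₀ ^ p))
    (hu : (u : ℂ) * star (u : ℂ) = 1) (hv : (v : ℂ) * star (v : ℂ) = 1) {θ : S3 → S3 → ℤ}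
    (hh : IsCocA θ M) (h₁ : IsCocA θ₁ M) (h₂ : IsCocA θ₂ M) {s : ℤ}
    (g : Sig3 (cf1 hp) (mtau ℂ ℂ u v (fun x y => w * θ x y) θ₁ θ₂) M s) :
    Sig3 (cf1 hp) (mtau ℂ ℂ u⁻¹ v⁻¹ (fun x y => w * θ x y) θ₁ θ₂) M (-s) := by
  have h0 : s₀ ≠ 0 := by rintro rfl; simp at hs
  have hs' : star s₀ = s₀⁻¹ := (Complex.inv_eq_conj hs).symm
  have hwθ : IsCocA (fun x y => w * θ x y) M := fun q hq => by
    obtain ⟨U, hU, e⟩ := hh q hq
    exact ⟨U, hU, fun x hx y hy z hz => by rw [← mul_add, e x hx y hy z hz]⟩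
  have inv : ∀ {t : ℂˣ}, (t : ℂ) * star (t : ℂ) = 1 →
      ((t⁻¹ : ℂˣ) : ℂ) * star ((t⁻¹ : ℂˣ) : ℂ) = 1 := fun ht => by
    rw [Units.val_inv_eq_inv_val, star_inv₀, ← mul_inv, ht, inv_one]
  set τ := mtau ℂ ℂ u v (fun x y => w * θ x y) θ₁ θ₂
  set τ' := mtau ℂ ℂ u⁻¹ v⁻¹ (fun x y => w * θ x y) θ₁ θ₂
  have hk : ∀ x y e, kap s₀ (τ x y e) = τ' x y (kap s₀ e) := fun x y e => by
    have : s₀ ^ (-2 * (w * θ x y)) = 1 := by
      rw [mul_left_comm, zpow_mul, hw, one_zpow]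
    simp only [τ, τ', mtau, LinearMap.smul_apply, map_smulₛₗ, kap_shp h0, this, one_smul,
      starRingEnd_apply, unit_uv hu hv]
  have hk' : ∀ x y e, kap s₀ (τ' x y e) = τ x y (kap s₀ e) := fun x y e => by
    conv_lhs => rw [← kap_kap h0 hs' e, ← hk, kap_kap h0 hs']
  have c : (cf1 hp).CompatT τ := compatT_mtau hp hu hv _ _ _
  have hτ : IsCoc τ M := isCoc_mtau u v hwθ h₁ h₂
  refine HasSig.conj ((cf1 hp).isSkew3 c hτ) ((cf1 hp).isSkew3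
    (compatT_mtau hp (inv hu) (inv hv) _ _ _) (isCoc_mtau _ _ hwθ h₁ h₂)) (cj s₀)
    (fun a ha => cj_W3 h0 hs' hp hk ha) (fun a ha b hb => ?_)
    (fun a ha => ⟨cj s₀ a, cj_W3 h0 hs' hp hk' ha, fun c _ => lam_N _ _ c
      (N_of_cons _ fun x l => sub_eq_zero.2 (kap_kap h0 hs' _).symm)⟩) g
  unfold Coef.lam3 Coef.lam
  rw [cj_dT hk, cj_cup h0 hs' hp hk]
  exact isInt_I3.conj _ ((cf1 hp).lam_closed c (hτ.mono inter_subset_left) ha
    (N_mono (subset_univ _) hb.1))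

end Complex

end Pool.Agent.HH
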