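import Pool.Agent.P.MP_c8dc46_gt.MzDefs

/-!
The covering map and the regions above and below a diagram. The region `Up` is covered by
`{1 < ε Z}` and by open convex sets that are stable under a fixed map `RUp.tg` into `{1 < ε Z}`.
-/

open Set Topology

namespace Pool.Agent.HH

variable {θ₀ c ε : ℝ} {S : Set R3}

namespace RUp

theorem cont_dz (c : ℝ) : Continuous (dz c) := by
  unfold dz
  fun_prop

theorem cc : IsCC (fun q : ℝ × ℂ => iota q.1 q.2) (Metric.ball 0 1) :=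
  isCC_iota Metric.isOpen_ball (convex_ball 0 1) fun _ h => mem_ball_zero_iff.1 h

theorem dz_re (c : ℝ) (p : R3) : (dz c p).re = c * (p.2.1 / 8) := by
  simp [dz]

theorem dz_im (c : ℝ) (p : R3) : (dz c p).im = c * (p.2.2 / 8) := by
  simp [dz]

/-- The linear coordinates. -/
noncomputable def co (θ₀ : ℝ) (hc : 0 < c) : R3 ≃ₜ ℝ × ℂ where
  toFun p := (p.1 / 4 + θ₀, dz c p)
  invFun q := (4 * (q.1 - θ₀), 8 * q.2.re / c, 8 * q.2.im / c)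
  left_inv p := by
    refine Prod.ext ?_ (Prod.ext ?_ ?_)
    · simp only
      ring
    · simp only [dz_re]
      field_simp
    · simp only [dz_im]
      field_simp
  right_inv q := by
    refine Prod.ext ?_ (Complex.ext ?_ ?_)
    · simp only
      ring
    · simp only [dz_re]
      field_simp
    · simp only [dz_im]
      field_simp
  continuous_toFun := by
    have := cont_dz c
    fun_prop
  continuous_invFun := by fun_prop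

theorem co_mem {p : R3} (hp : p ∈ Vc c) :
    ((p.1 / 4 + θ₀, dz c p) : ℝ × ℂ) ∈ univ ×ˢ Metric.ball (0 : ℂ) 1 :=
  ⟨trivial, mem_ball_zero_iff.2 hp⟩

end RUp

open RUp

theorem isOpen_Vc (c : ℝ) : IsOpen (Vc c) := isOpen_lt (cont_dz c).norm continuous_const

theorem convex_Vc (c : ℝ) : Convex ℝ (Vc c) := by
  have h : IsLinearMap ℝ (dz c) :=
    ⟨fun p q => Complex.ext (by simp only [dz_re, Complex.add_re, Prod.snd_add, Prod.fst_add]; ring)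
      (by simp only [dz_im, Complex.add_im, Prod.snd_add]; ring),
    fun a p => Complex.ext (by simp [dz_re]; ring) (by simp [dz_im]; ring)⟩
  have e : Vc c = dz c ⁻¹' Metric.ball 0 1 := by
    ext p
    exact mem_ball_zero_iff.symm
  rw [e]
  exact (convex_ball 0 1).is_linear_preimage h

theorem mem_Vc (hc : 0 < c) (hc1 : c ≤ 1) {p : R3} (h : p.2.1 ^ 2 + p.2.2 ^ 2 < 64) : p ∈ Vc c := by
  have h1 : ‖dz c p‖ ^ 2 < 1 := by
    rw [Complex.sq_norm, Complex.normSq_apply, dz_re, dz_im]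
    have h2 : c ^ 2 ≤ 1 := by nlinarith
    nlinarith [mul_le_mul_of_nonneg_right h2 (add_nonneg (sq_nonneg p.2.1) (sq_nonneg p.2.2))]
  exact (sq_lt_one_iff₀ (norm_nonneg _)).1 h1

theorem continuousAt_mzΦ {p : R3} (hp : p ∈ Vc c) : ContinuousAt (mzΦ θ₀ c) p := by
  have h : Continuous fun p : R3 => ((p.1 / 4 + θ₀, dz c p) : ℝ × ℂ) := by
    have := cont_dz c
    fun_prop
  exact ContinuousAt.comp (f := fun p : R3 => ((p.1 / 4 + θ₀, dz c p) : ℝ × ℂ))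
    (RCirc.contAt cc _ (co_mem hp)) h.continuousAt

theorem mzΦ_trl (n : ℤ) (p : R3) : mzΦ θ₀ c (trl n p) = mzΦ θ₀ c p := by
  have h := iota_add_int (p.1 / 4 + θ₀) n (dz c p)
  rw [show p.1 / 4 + θ₀ + n = (p.1 + 4 * n) / 4 + θ₀ by ring] at h
  exact h

theorem mzΦ_eq_iff (hc : 0 < c) {p q : R3} (hp : p ∈ Vc c) (hq : q ∈ Vc c) :
    mzΦ θ₀ c p = mzΦ θ₀ c q ↔ ∃ n : ℤ, q = trl n p := by
  refine ⟨fun h => ?_, fun ⟨n, h⟩ => by rw [h, mzΦ_trl]⟩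
  obtain ⟨h1, n, h2⟩ := cc.inj _ _ _ (co_mem (θ₀ := θ₀) hp).2 _ (co_mem (θ₀ := θ₀) hq).2 h
  refine ⟨n, (co θ₀ hc).injective (Prod.ext ?_ h1.symm)⟩
  change q.1 / 4 + θ₀ = (p.1 + 4 * n) / 4 + θ₀
  have h3 : q.1 / 4 + θ₀ = p.1 / 4 + θ₀ + n := h2
  linarith

theorem isOpen_mzΦ_image (hc : 0 < c) {V : Set R3} (hV : IsOpen V) (hs : V ⊆ Vc c) :
    IsOpen (mzΦ θ₀ c '' V) := by
  have h := cc.img _ ((co θ₀ hc).isOpenMap V hV) (by
    rintro _ ⟨p, hp, rfl⟩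
    exact co_mem (hs hp))
  rwa [image_image] at h

theorem mzΦ_image_Vc (hc : 0 < c) : mzΦ θ₀ c '' Vc c = (eta 0)ᶜ := by
  have e : co θ₀ hc '' Vc c = univ ×ˢ Metric.ball (0 : ℂ) 1 := by
    ext q
    obtain ⟨p, rfl⟩ := (co θ₀ hc).surjective q
    rw [(co θ₀ hc).injective.mem_set_image]
    exact ⟨co_mem, fun h => mem_ball_zero_iff.1 h.2⟩
  rw [← iota_image, ← e, image_image]
  rfl

theorem oe_mzΦ (hc : 0 < c) (x₀ : ℝ) :
    OE (mzΦ θ₀ c) (Vc c ∩ {p | x₀ < p.1 ∧ p.1 < x₀ + 4}) := by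
  refine ⟨(isOpen_Vc c).inter ((isOpen_lt continuous_const continuous_fst).inter
    (isOpen_lt continuous_fst continuous_const)),
    fun p hp => (continuousAt_mzΦ hp.1).continuousWithinAt, fun p hp q hq h => ?_,
    fun V hV hs => isOpen_mzΦ_image hc hV (hs.trans inter_subset_left)⟩
  obtain ⟨n, rfl⟩ := (mzΦ_eq_iff hc hp.1 hq.1).1 h
  have h1 : x₀ < p.1 + 4 * n ∧ p.1 + 4 * n < x₀ + 4 := hq.2
  have h2 : (-1 : ℝ) < n := by linarith [hp.2.2]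
  have h3 : (n : ℝ) < 1 := by linarith [hp.2.1]
  have h4 : n = 0 := by
    have h5 : (-1 : ℤ) < n := by exact_mod_cast h2
    have h6 : n < 1 := by exact_mod_cast h3
    omega
  simp [h4, trl]

theorem mem_image_iff (hc : 0 < c) {A : Set R3} (hA : A ⊆ Vc c) (hper : ∀ n p, p ∈ A → trl n p ∈ A)
    {p : R3} (hp : p ∈ Vc c) : mzΦ θ₀ c p ∈ mzΦ θ₀ c '' A ↔ p ∈ A := by
  refine ⟨?_, mem_image_of_mem _⟩
  rintro ⟨q, hq, h⟩
  obtain ⟨n, rfl⟩ := (mzΦ_eq_iff hc (hA hq) hp).1 h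
  exact hper n q hq

theorem isCC_mz (hc : 0 < c) {O : Set (ℝ × ℝ)} (hO : IsOpen O) (hcv : Convex ℝ O)
    (hs : ∀ v ∈ O, ((0, v) : R3) ∈ Vc c) :
    IsCC (fun q : ℝ × (ℝ × ℝ) => mzΦ θ₀ c (4 * q.1, q.2)) O := by
  refine ⟨hO, hcv, fun q hq => ?_, fun s w => ?_, fun s s' w hw w' hw' h => ?_, fun V hV hV' => ?_⟩
  · exact (ContinuousAt.comp (f := fun q : ℝ × (ℝ × ℝ) => ((4 * q.1, q.2) : R3))
      (continuousAt_mzΦ (hs _ hq.2)) (by fun_prop)).continuousWithinAt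
  · have h := mzΦ_trl (θ₀ := θ₀) (c := c) 1 (4 * s, w)
    simpa [trl, mul_add] using h
  · obtain ⟨n, h1⟩ := (mzΦ_eq_iff (p := (4 * s, w)) (q := (4 * s', w')) hc (hs w hw)
      (hs w' hw')).1 h
    have h2 : 4 * s' = 4 * s + 4 * n := congrArg Prod.fst h1
    exact ⟨(congrArg Prod.snd h1).symm, n, by linarith⟩
  · have e : (fun q : ℝ × (ℝ × ℝ) => mzΦ θ₀ c (4 * q.1, q.2)) '' V =
        mzΦ θ₀ c '' ((fun p : R3 => (p.1 / 4, p.2)) ⁻¹' V) := by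
      ext x
      constructor
      · rintro ⟨q, hq, rfl⟩
        exact ⟨(4 * q.1, q.2), by simpa using hq, rfl⟩
      · rintro ⟨p, hp, rfl⟩
        exact ⟨_, hp, by simp only [mul_div_cancel₀ p.1 four_ne_zero]⟩
    rw [e]
    exact isOpen_mzΦ_image hc (hV.preimage (by fun_prop)) fun p hp => hs _ (hV' hp).2

theorem xc_mzΦ {p : R3} (hp : p ∈ Vc c) :
    ∃ r : ℝ, 0 < r ∧ xc (mzΦ θ₀ c p) = r * ex (p.1 / 4 + θ₀) := by
  have h : ‖dz c p‖ < 1 := hp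
  exact ⟨_, Real.sqrt_pos.2 (by nlinarith [norm_nonneg (dz c p)]), xc_iota h.le⟩

/-- The angle cocycle is trivial on the cover. -/
theorem th_mzΦ {p : R3} (hp : p ∈ Vc c) : ∃ U ∈ 𝓝 p, ∀ x ∈ U, ∀ y ∈ U,
    th xc (mzΦ θ₀ c x) (mzΦ θ₀ c y) = ⌈y.1 / 4 + θ₀ - 1 / 2⌉ - ⌈x.1 / 4 + θ₀ - 1 / 2⌉ :=
  th_log (ϑ := xc ∘ mzΦ θ₀ c) (α := fun p : R3 => p.1 / 4 + θ₀) (by fun_prop)
    (Filter.mem_of_superset ((isOpen_Vc c).mem_nhds hp) fun _ hx => xc_mzΦ hx)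

namespace RUp

theorem exists_delta (h : Slab S) (hε : ε = 1 ∨ ε = -1) {p : R3} (hp : p ∈ Up c ε S) :
    ∃ δ : ℝ, 0 < δ ∧ δ ≤ 1 / 2 ∧ ∀ q ∈ Vc c, |q.1 - p.1| < δ → |q.2.1 - p.2.1| < δ →
      ε * p.2.2 - δ < ε * q.2.2 → q ∈ Up c ε S := by
  have hK : IsCompact ((fun t : ℝ => ((p.1, p.2.1, p.2.2 + ε * t) : R3)) ''
      Icc 0 (|p.2.2| + 1)) := isCompact_Icc.image (by fun_prop)
  obtain ⟨δ, hδ, hs⟩ := hK.exists_thickening_subset_open h.closed.isOpen_compl (by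
    rintro _ ⟨t, ht, rfl⟩
    exact hp.2 t ht.1)
  refine ⟨min δ (1 / 2), lt_min hδ (by norm_num), min_le_right _ _,
    fun q hq h1 h2 h3 => ⟨hq, fun t ht hS => ?_⟩⟩
  have h4 := (h.bd _ hS).2
  have h5 := min_le_left δ (1 / 2)
  have h6 := le_abs_self p.2.2
  have h7 := neg_abs_le p.2.2
  simp only at h4
  refine hs (Metric.mem_thickening_iff.2 ⟨_, ⟨max 0 (ε * q.2.2 + t - ε * p.2.2),
    ⟨le_max_left _ _, max_le (by positivity) ?_⟩, rfl⟩, ?_⟩) hS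
  · rcases hε with rfl | rfl <;> linarith [h4.1, h4.2]
  · simp only [Prod.dist_eq, Real.dist_eq, max_lt_iff]
    refine ⟨by linarith, by linarith, ?_⟩
    rcases le_total 0 (ε * q.2.2 + t - ε * p.2.2) with h8 | h8
    · rw [max_eq_right h8, abs_lt]
      rcases hε with rfl | rfl <;> constructor <;> linarith
    · rw [max_eq_left h8, abs_lt]
      rcases hε with rfl | rfl <;> constructor <;> linarith

/-- The region beyond the slab. -/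
def Tp (c ε : ℝ) : Set R3 := {p | p ∈ Vc c ∧ 1 < ε * p.2.2}

/-- The target map. -/
noncomputable def tg (ε : ℝ) (p : R3) : R3 := (p.1, max (-5 / 2) (min p.2.1 (5 / 2)), 2 * ε)

/-- The admissible convex sets. -/
structure Adm (c ε : ℝ) (S B : Set R3) : Prop where
  op : IsOpen B
  cv : Convex ℝ B
  sub : B ⊆ Up c ε S
  wd : ∃ x₀, ∀ p ∈ B, x₀ < p.1 ∧ p.1 < x₀ + 4
  st : ∀ p ∈ B, tg ε p ∈ B
  ne : B.Nonempty

theorem cvx_lt {f : R3 → ℝ} (hf : IsLinearMap ℝ f) (a : ℝ) : Convex ℝ {p | a < f p} :=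
  convex_halfSpace_gt hf a

theorem lin_mul (a : ℝ) {f : R3 → ℝ} (hf : IsLinearMap ℝ f) : IsLinearMap ℝ fun p => a * f p :=
  ⟨fun p q => by rw [hf.1, mul_add], fun b p => by rw [hf.2, smul_eq_mul, smul_eq_mul]; ring⟩

theorem lin_x : IsLinearMap ℝ fun p : R3 => p.1 := ⟨fun _ _ => rfl, fun _ _ => rfl⟩

theorem lin_y : IsLinearMap ℝ fun p : R3 => p.2.1 := ⟨fun _ _ => rfl, fun _ _ => rfl⟩

theorem lin_z : IsLinearMap ℝ fun p : R3 => p.2.2 := ⟨fun _ _ => rfl, fun _ _ => rfl⟩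

theorem isOpen_Tp (c ε : ℝ) : IsOpen (Tp c ε) :=
  (isOpen_Vc c).inter (t := {p : R3 | 1 < ε * p.2.2}) (isOpen_lt continuous_const (by fun_prop))

theorem convex_Tp (c ε : ℝ) : Convex ℝ (Tp c ε) :=
  (convex_Vc c).inter (cvx_lt (lin_mul ε lin_z) 1)

theorem Tp_sub (h : Slab S) (hε : ε = 1 ∨ ε = -1) : Tp c ε ⊆ Up c ε S := by
  refine fun p hp => ⟨hp.1, fun t ht hS => ?_⟩
  have h4 := (h.bd _ hS).2
  have h5 := hp.2
  simp only at h4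
  rcases hε with rfl | rfl <;> linarith [h4.1, h4.2]

theorem tg_mem (hc : 0 < c) (hc1 : c ≤ 1) (hε : ε = 1 ∨ ε = -1) (p : R3) : tg ε p ∈ Tp c ε := by
  have h1 : -5 / 2 ≤ (tg ε p).2.1 := le_max_left _ _
  have h2 : (tg ε p).2.1 ≤ 5 / 2 := max_le (by norm_num) (min_le_right _ _)
  have h3 : (tg ε p).2.2 = 2 * ε := rfl
  refine ⟨mem_Vc hc hc1 ?_, ?_⟩
  · rw [h3]
    rcases hε with rfl | rfl <;> nlinarith
  · rw [h3]
    rcases hε with rfl | rfl <;> norm_num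

theorem strip (x₀ δ : ℝ) : IsOpen {q : R3 | |q.1 - x₀| < δ} ∧ Convex ℝ {q : R3 | |q.1 - x₀| < δ} :=
  ⟨isOpen_lt (by fun_prop) continuous_const, (convex_ball x₀ δ).is_linear_preimage lin_x⟩

theorem side (h : Slab S) (hc : 0 < c) (hc1 : c ≤ 1) (hε : ε = 1 ∨ ε = -1) {p : R3}
    (hp : p ∈ Vc c) {σ : ℝ} (hσ : σ = 1 ∨ σ = -1) (h2 : 2 < σ * p.2.1) :
    ∃ B, Adm c ε S B ∧ p ∈ B := by
  have hm : p ∈ Vc c ∩ ({q : R3 | |q.1 - p.1| < 1} ∩ {q | 2 < σ * q.2.1}) := ⟨hp, by simp, h2⟩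
  refine ⟨Vc c ∩ ({q : R3 | |q.1 - p.1| < 1} ∩ {q | 2 < σ * q.2.1}),
    ⟨(isOpen_Vc c).inter ((strip _ _).1.inter (isOpen_lt continuous_const (by fun_prop))),
    (convex_Vc c).inter ((strip _ _).2.inter (cvx_lt (lin_mul σ lin_y) 2)),
    fun q hq => ⟨hq.1, fun t _ hS => ?_⟩, ⟨p.1 - 1, fun q hq => ?_⟩,
    fun q hq => ⟨(tg_mem hc hc1 hε q).1, hq.2.1, ?_⟩, _, hm⟩, hm⟩
  · have h3 := abs_le.1 (h.bd _ hS).1
    have h4 : 2 < σ * q.2.1 := hq.2.2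
    simp only at h3
    rcases hσ with rfl | rfl <;> linarith [h3.1, h3.2]
  · have h3 := abs_lt.1 (show |q.1 - p.1| < 1 from hq.2.1)
    constructor <;> linarith [h3.1, h3.2]
  · have h4 : 2 < σ * q.2.1 := hq.2.2
    change 2 < σ * max (-5 / 2) (min q.2.1 (5 / 2))
    rcases hσ with rfl | rfl
    · rw [one_mul] at h4 ⊢
      exact lt_max_of_lt_right (lt_min h4 (by norm_num))
    · have h5 : max (-5 / 2) (min q.2.1 (5 / 2)) < -2 :=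
        max_lt (by norm_num) (min_lt_of_left_lt (by linarith))
      linarith

theorem cover (h : Slab S) (hc : 0 < c) (hc1 : c ≤ 1) (hε : ε = 1 ∨ ε = -1) {p : R3}
    (hp : p ∈ Up c ε S) : p ∈ Tp c ε ∨ ∃ B, Adm c ε S B ∧ p ∈ B := by
  by_cases h1 : 1 < ε * p.2.2
  · exact Or.inl ⟨hp.1, h1⟩
  right
  by_cases h2 : 2 < p.2.1
  · exact side h hc hc1 hε hp.1 (Or.inl rfl) (by linarith)
  by_cases h3 : p.2.1 < -2
  · exact side h hc hc1 hε hp.1 (Or.inr rfl) (by linarith)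
  obtain ⟨δ, hδ, hδ', h4⟩ := exists_delta h hε hp
  have hm : p ∈ Vc c ∩ ({q : R3 | |q.1 - p.1| < δ} ∩ ({q | |q.2.1 - p.2.1| < δ} ∩
      {q | ε * p.2.2 - δ < ε * q.2.2})) :=
    ⟨hp.1, by simpa using hδ, by simpa using hδ, by simpa using hδ⟩
  refine ⟨Vc c ∩ ({q : R3 | |q.1 - p.1| < δ} ∩ ({q | |q.2.1 - p.2.1| < δ} ∩
      {q | ε * p.2.2 - δ < ε * q.2.2})), ⟨(isOpen_Vc c).inter ((strip _ _).1.inter
    ((isOpen_lt (by fun_prop) continuous_const).inter (isOpen_lt continuous_const (by fun_prop)))),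
    (convex_Vc c).inter ((strip _ _).2.inter (((convex_ball p.2.1 δ).is_linear_preimage
      lin_y).inter (cvx_lt (lin_mul ε lin_z) _))),
    fun q hq => h4 q hq.1 hq.2.1 hq.2.2.1 hq.2.2.2, ⟨p.1 - 1, fun q hq => ?_⟩,
    fun q hq => ⟨(tg_mem hc hc1 hε q).1, hq.2.1, ?_, ?_⟩, _, hm⟩, hm⟩
  · have h5 := abs_lt.1 (show |q.1 - p.1| < δ from hq.2.1)
    constructor <;> linarith [h5.1, h5.2]
  · have h5 : |q.2.1 - p.2.1| < δ := hq.2.2.1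
    have h6 := abs_lt.1 h5
    change |max (-5 / 2) (min q.2.1 (5 / 2)) - p.2.1| < δ
    rwa [min_eq_left (by linarith [h6.2]), max_eq_right (by linarith [h6.1])]
  · have h5 := (tg_mem hc hc1 hε q).2
    change ε * p.2.2 - δ < ε * (tg ε q).2.2
    linarith

theorem pre_img {A : Set R3} (hA : Convex ℝ A) (hs : A ⊆ Vc c) :
    IsPreconnected (mzΦ θ₀ c '' A) :=
  hA.isPreconnected.image _ fun _ hp => (continuousAt_mzΦ (hs hp)).continuousWithinAt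

theorem chart (hc : 0 < c) (hc1 : c ≤ 1) (hε : ε = 1 ∨ ε = -1) : ∃ O : Set (ℝ × ℝ),
    IsCC (fun q : ℝ × (ℝ × ℝ) => mzΦ θ₀ c (4 * q.1, q.2)) O ∧ (0, 2 * ε) ∈ O ∧
      (fun q : ℝ × (ℝ × ℝ) => mzΦ θ₀ c (4 * q.1, q.2)) '' (univ ×ˢ O) = mzΦ θ₀ c '' Tp c ε := by
  refine ⟨{v | ((0, v) : R3) ∈ Tp c ε}, isCC_mz hc ((isOpen_Tp c ε).preimage (by fun_prop))
    ((convex_Tp c ε).is_linear_preimage (f := fun v : ℝ × ℝ => ((0, v) : R3))
      ⟨fun _ _ => by simp, fun _ _ => by simp⟩) fun _ hv => hv.1, ?_, ?_⟩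
  · have h := tg_mem hc hc1 hε 0
    norm_num [tg] at h
    exact h
  · ext x
    constructor
    · rintro ⟨q, hq, rfl⟩
      exact ⟨(4 * q.1, q.2), hq.2, rfl⟩
    · rintro ⟨p, hp, rfl⟩
      exact ⟨(p.1 / 4, p.2), ⟨trivial, hp⟩, by simp only [mul_div_cancel₀ p.1 four_ne_zero]⟩

end RUp

theorem Slab.isOpen_Up (h : Slab S) (hε : ε = 1 ∨ ε = -1) : IsOpen (Up c ε S) := by
  refine isOpen_iff_mem_nhds.2 fun p hp => ?_
  obtain ⟨δ, hδ, -, h4⟩ := exists_delta h hε hp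
  have h1 : IsOpen (Vc c ∩ ({q : R3 | |q.1 - p.1| < δ} ∩ ({q | |q.2.1 - p.2.1| < δ} ∩
      {q | ε * p.2.2 - δ < ε * q.2.2}))) :=
    (isOpen_Vc c).inter ((strip _ _).1.inter ((isOpen_lt (by fun_prop)
      continuous_const).inter (isOpen_lt continuous_const (by fun_prop))))
  exact Filter.mem_of_superset
    (h1.mem_nhds ⟨hp.1, by simpa using hδ, by simpa using hδ, by simpa using hδ⟩)
    fun q hq => h4 q hq.1 hq.2.1 hq.2.2.1 hq.2.2.2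

theorem Slab.trl_Up (h : Slab S) (n : ℤ) {p : R3} (hp : p ∈ Up c ε S) : trl n p ∈ Up c ε S :=
  ⟨hp.1, fun t ht hS => hp.2 t ht ((h.per n (p.1, p.2.1, p.2.2 + ε * t)).1 hS)⟩

theorem Slab.isPreconnected_Up (h : Slab S) (hc : 0 < c) (hc1 : c ≤ 1) (hε : ε = 1 ∨ ε = -1) :
    IsPreconnected (mzΦ θ₀ c '' Up c ε S) := by
  refine IsPreconnected.image ?_ _ fun _ hp => (continuousAt_mzΦ hp.1).continuousWithinAt
  refine isPreconnected_of_forall (tg ε 0) fun p hp => ?_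
  rcases cover h hc hc1 hε hp with h1 | ⟨B, hB, h1⟩
  · exact ⟨_, Tp_sub h hε, tg_mem hc hc1 hε 0, h1, (convex_Tp c ε).isPreconnected⟩
  · exact ⟨Tp c ε ∪ B, union_subset (Tp_sub h hε) hB.sub, Or.inl (tg_mem hc hc1 hε 0), Or.inr h1,
      IsPreconnected.union _ (tg_mem hc hc1 hε p) (hB.st p h1) (convex_Tp c ε).isPreconnected
        hB.cv.isPreconnected⟩

variable {R E : Type} [CommRing R] [AddCommGroup E] [Module R E] {τ : S3 → S3 → Module.End R E}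

theorem Slab.up_ext (h : Slab S) (hc : 0 < c) (hc1 : c ≤ 1) (hε : ε = 1 ∨ ε = -1)
    (hτ : IsCoc τ (mzΦ θ₀ c '' Up c ε S)) {a : List S3 → E}
    (ha : dT τ a ∈ N R E 3 (mzΦ θ₀ c '' Up c ε S))
    (hT : Exa τ 2 (mzΦ θ₀ c '' {p | p ∈ Vc c ∧ 1 < ε * p.2.2}) a) :
    Exa τ 2 (mzΦ θ₀ c '' Up c ε S) a := by
  obtain ⟨y, hy⟩ := hT
  have e : mzΦ θ₀ c '' Up c ε S =
      mzΦ θ₀ c '' Tp c ε ∪ ⋃ B : {B // Adm c ε S B}, mzΦ θ₀ c '' B.1 := by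
    refine Subset.antisymm ?_ (union_subset (image_mono (Tp_sub h hε))
      (iUnion_subset fun B => image_mono B.2.sub))
    rintro _ ⟨p, hp, rfl⟩
    rcases cover h hc hc1 hε hp with h1 | ⟨B, hB, h1⟩
    · exact Or.inl (mem_image_of_mem _ h1)
    · exact Or.inr (mem_iUnion.2 ⟨⟨B, hB⟩, mem_image_of_mem _ h1⟩)
  have sV : ∀ B : {B // Adm c ε S B}, B.1 ⊆ Vc c := fun B p hp => (B.2.sub hp).1
  rw [e] at hτ ha ⊢
  obtain ⟨y', hy', -⟩ := vert (isOpen_mzΦ_image hc (isOpen_Tp c ε) fun _ hp => hp.1)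
    (fun B => by
      obtain ⟨x₀, hx⟩ := B.2.wd
      exact Cvx.of_normed B.2.cv ((oe_mzΦ hc x₀).mono B.2.op fun p hp => ⟨sV B hp, hx p hp⟩))
    hτ (fun B => by
      have e1 : mzΦ θ₀ c '' B.1 ∩ mzΦ θ₀ c '' Tp c ε = mzΦ θ₀ c '' (B.1 ∩ Tp c ε) := by
        refine Subset.antisymm ?_ (image_inter_subset _ _ _)
        rintro _ ⟨⟨p, hp, rfl⟩, h1⟩
        exact ⟨p, ⟨hp, (mem_image_iff hc (A := Tp c ε) (fun _ hq => hq.1) (fun _ _ hq => hq)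
          (sV B hp)).1 h1⟩, rfl⟩
      rw [e1]
      exact pre_img (B.2.cv.inter (convex_Tp c ε)) (inter_subset_left.trans (sV B)))
    (fun B => by
      obtain ⟨p, hp⟩ := B.2.ne
      exact ⟨_, mem_image_of_mem _ (B.2.st p hp), mem_image_of_mem _ (tg_mem hc hc1 hε p)⟩)
    (fun B B' => by
      rintro _ ⟨⟨p, hp, rfl⟩, q, hq, h1⟩
      obtain ⟨n, rfl⟩ := (mzΦ_eq_iff hc (sV B hp) (sV B' hq)).1 h1.symm
      have hl : Convex ℝ (B.1 ∩ trl n ⁻¹' B'.1) := by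
        refine B.2.cv.inter ?_
        have e2 : trl n = fun p : R3 => p + (4 * (n : ℝ), 0) := by
          funext p
          simp [trl, Prod.ext_iff]
        rw [e2]
        exact B'.2.cv.translate_preimage_left _
      refine ⟨_, pre_img hl (inter_subset_left.trans (sV B)), mem_image_of_mem _ ⟨hp, hq⟩, ?_,
        _, mem_image_of_mem _ ⟨B.2.st p hp, B'.2.st _ hq⟩,
        mem_image_of_mem _ (tg_mem hc hc1 hε p)⟩
      rintro _ ⟨r, hr, rfl⟩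
      exact ⟨mem_image_of_mem _ hr.1, _, hr.2, mzΦ_trl n r⟩) ha hy
  exact ⟨y', hy'⟩

theorem Slab.up_acyc (h : Slab S) (hc : 0 < c) (hc1 : c ≤ 1) (hε : ε = 1 ∨ ε = -1)
    (hτ : IsCoc τ (mzΦ θ₀ c '' Up c ε S)) (hl : LoopAc τ fun s => mzΦ θ₀ c (4 * s, 0, 2 * ε)) :
    Acyc0 τ (mzΦ θ₀ c '' Up c ε S) ∧ Acyc τ 2 (mzΦ θ₀ c '' Up c ε S) := by
  obtain ⟨O, hO, ho, e⟩ := chart (θ₀ := θ₀) hc hc1 hε
  obtain ⟨η, hη, hb⟩ := hl
  have hs : mzΦ θ₀ c '' Tp c ε ⊆ mzΦ θ₀ c '' Up c ε S := image_mono (Tp_sub h hε)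
  have h0 := hO.acyc0 (e ▸ hτ.mono hs) ho hη hb.1
  have h1 := hO.acyc1 (e ▸ hτ.mono hs) ho hη hb.2
  rw [e] at h0 h1
  exact ⟨Acyc0.of_preconnected hτ (h.isPreconnected_Up hc hc1 hε) hs
    ⟨_, mem_image_of_mem _ (tg_mem hc hc1 hε 0)⟩ h0,
    fun a ha => h.up_ext hc hc1 hε hτ ha (h1 a (N_mono hs ha))⟩

theorem Slab.up_prim (h : Slab S) (hc : 0 < c) (hc1 : c ≤ 1) (hε : ε = 1 ∨ ε = -1) {M : Type}
    [AddCommGroup M] {x : S3 → S3 → M} (hx : IsCocA x (mzΦ θ₀ c '' Up c ε S))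
    (hl : IsHolA x (fun s => mzΦ θ₀ c (4 * s, 0, 2 * ε)) 0) :
    ∃ k : S3 → M, LocEq x (fun p q => k q - k p) (mzΦ θ₀ c '' Up c ε S) := by
  obtain ⟨O, hO, ho, e⟩ := chart (θ₀ := θ₀) hc hc1 hε
  have hs : mzΦ θ₀ c '' Tp c ε ⊆ mzΦ θ₀ c '' Up c ε S := image_mono (Tp_sub h hε)
  have h1 := hO.cohA_of_hol (x' := fun _ _ => 0) (e ▸ hx.mono hs)
    (fun _ _ => ⟨univ, Filter.univ_mem, fun _ _ _ _ _ _ => add_zero _⟩) ho hl
    ⟨fun _ => 0, fun _ => ⟨univ, Filter.univ_mem, fun _ _ _ _ => (sub_zero _).symm⟩,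
      fun _ => (add_zero _).symm⟩
  rw [e, cohA_iff (R := ℤ)] at h1
  have e0 : c1 x - c1 (fun _ _ : S3 => (0 : M)) = c1 fun p q => x p q := by
    funext l
    match l with
    | [] | [_] | [_, _] | _ :: _ :: _ :: _ => exact sub_zero _
  have h2 := h.up_ext hc hc1 hε (isCoc_triv _) (by
    rw [e0]
    exact isCocA_iff.1 hx) h1
  obtain ⟨k, hk⟩ := cohA_iff.2 h2
  exact ⟨k, by simpa only [sub_zero] using hk⟩

end Pool.Agent.HH
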